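import Pool.Agent.MP_92463a_gt.Setup

open Set Complex Filter Metric
open scoped Topology ComplexConjugate ContDiff Manifold

noncomputable section

namespace Pool.Agent.MP_92463a_gt

namespace Dat

variable {D : Dat}

theorem Alg_ne {t : ℂ} (ht : D.P t ≠ 0) :
    t ≠ 0 ∧ (∀ j ∈ Finset.range D.q, t + D.b j ≠ 0) ∧ ∀ i ∈ Finset.range D.p, D.a i - t ≠ 0 := by
  simp only [P, ne_eq, mul_eq_zero, Finset.prod_eq_zero_iff, not_or, not_exists, not_and] at ht
  exact ⟨ht.1.1, ht.1.2, ht.2⟩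

theorem Alg_exp_lm {a : ℝ} {t : ℂ} (h : (a : ℂ) - t ≠ 0) : exp (lm a t) = a - t := by
  rw [lm, exp_sub, exp_pi_mul_I, exp_log (fun h' => h (by linear_combination -h'))]
  ring

theorem Alg_log_cont : ContinuousOn log {z : ℂ | 0 ≤ z.im ∧ z ≠ 0} := by
  rintro z ⟨h1, h2⟩
  by_cases h : z ∈ slitPlane
  · exact (continuousAt_clog h).continuousWithinAt
  · rw [mem_slitPlane_iff, not_or, not_lt, not_not] at h
    have h3 : z.re < 0 := lt_of_le_of_ne h.1 fun h0 => h2 (Complex.ext h0 h.2)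
    exact (continuousWithinAt_log_of_re_neg_of_im_zero h3 h.2).mono fun w hw => hw.1

theorem Alg_c0 : ContinuousOn log {t | 0 ≤ t.im ∧ D.P t ≠ 0} :=
  Alg_log_cont.mono fun _ ht => ⟨ht.1, (Alg_ne ht.2).1⟩

theorem Alg_c1 {j : ℕ} (hj : j ∈ Finset.range D.q) :
    ContinuousOn (fun t : ℂ => log (t + D.b j)) {t | 0 ≤ t.im ∧ D.P t ≠ 0} :=
  Alg_log_cont.comp (by fun_prop) fun _ ht => ⟨by simpa using ht.1, (Alg_ne ht.2).2.1 j hj⟩

theorem Alg_c2 {i : ℕ} (hi : i ∈ Finset.range D.p) :
    ContinuousOn (lm (D.a i)) {t | 0 ≤ t.im ∧ D.P t ≠ 0} := by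
  refine ContinuousOn.sub (Alg_log_cont.comp (by fun_prop) fun t ht => ⟨by simpa using ht.1, ?_⟩)
    continuousOn_const
  exact fun h => (Alg_ne ht.2).2.2 i hi (by linear_combination -h)

theorem Alg_d1 (c : ℝ) {t : ℂ} (ht : 0 < t.im) :
    DifferentiableAt ℂ (fun t : ℂ => log (t + c)) t :=
  DifferentiableAt.clog (by fun_prop) (Or.inr (by simpa using ht.ne'))

theorem Alg_d2 (c : ℝ) {t : ℂ} (ht : 0 < t.im) : DifferentiableAt ℂ (lm c) t :=
  (DifferentiableAt.clog (f := fun t : ℂ => t - c) (by fun_prop)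
    (Or.inr (by simpa using ht.ne'))).sub_const _

theorem Alg_Y (t : ℂ) : D.Y t = exp (log t / 2) *
    (∏ j ∈ Finset.range D.q, exp (log (t + D.b j) / 2)) *
      ∏ i ∈ Finset.range D.p, exp (lm (D.a i) t / 2) := by
  rw [Y, add_div, add_div, Finset.sum_div, Finset.sum_div, exp_add, exp_add, exp_sum, exp_sum]

theorem Alg_half (z : ℂ) : exp (z / 2) ^ 2 = exp z := by
  rw [← exp_nat_mul]
  congr 1
  push_cast
  ring

theorem Alg_pow (z : ℂ) (n : ℕ) : exp ((n : ℂ) / 2 * z) = exp (z / 2) ^ n := by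
  rw [← exp_nat_mul]
  congr 1
  ring

theorem P_eq_zero {t : ℂ} : D.P t = 0 ↔ D.IsE t ∨ D.IsA t := by
  simp only [P, IsE, IsA, mul_eq_zero, Finset.prod_eq_zero_iff, Finset.mem_range,
    add_eq_zero_iff_eq_neg, sub_eq_zero, eq_comm (b := t)]

theorem P_finite : {t : ℂ | D.P t = 0}.Finite := by
  refine ((((Finset.range D.q).image fun j => -(D.b j : ℂ)).finite_toSet.insert 0).union
    ((Finset.range D.p).image fun i => (D.a i : ℂ)).finite_toSet).subset fun t ht => ?_
  rcases P_eq_zero.1 ht with (h | ⟨j, hj, h⟩) | ⟨i, hi, h⟩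
  · exact Or.inl (Or.inl h)
  · exact Or.inl (Or.inr (by simpa using ⟨j, hj, h.symm⟩))
  · exact Or.inr (by simpa using ⟨i, hi, h.symm⟩)

theorem P_conj (t : ℂ) : D.P (conj t) = conj (D.P t) := by
  simp [P]

theorem R_conj (t : ℂ) : D.R (conj t) = conj (D.R t) := by
  simp [R, apply_ite conj]

theorem P_im (x : ℝ) : (D.P x).im = 0 := by
  rw [← conj_eq_iff_im, ← P_conj, conj_ofReal]

theorem R_im (x : ℝ) : (D.R x).im = 0 := by
  rw [← conj_eq_iff_im, ← R_conj, conj_ofReal]

theorem ne_of_im {t : ℂ} (ht : t.im ≠ 0) : D.P t ≠ 0 := by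
  intro h
  rcases P_eq_zero.1 h with (h | ⟨j, -, h⟩) | ⟨i, -, h⟩ <;> exact ht (by simp [h])

theorem P_diff : Differentiable ℂ D.P := by
  unfold P
  fun_prop

theorem R_diff {t : ℂ} (ht : D.P t ≠ 0) : DifferentiableAt ℂ D.R t := by
  obtain ⟨h0, h1, h2⟩ := Alg_ne ht
  refine (DifferentiableAt.mul (by fun_prop (disch := assumption)) ?_).mul ?_
  · refine DifferentiableAt.fun_finsetProd fun j hj => ?_
    split_ifs
    · fun_prop
    · exact DifferentiableAt.inv (by fun_prop) (pow_ne_zero _ (h1 j hj))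
  · refine DifferentiableAt.fun_finsetProd fun i hi => ?_
    split_ifs
    · exact DifferentiableAt.inv (by fun_prop) (h2 i hi)
    · fun_prop

theorem Ok.R_ne (hD : D.Ok) {t : ℂ} (ht : D.P t ≠ 0) : D.R t ≠ 0 := by
  obtain ⟨h0, h1, h2⟩ := Alg_ne ht
  refine mul_ne_zero (mul_ne_zero (div_ne_zero (by exact_mod_cast hD.ρ_pos.ne') h0)
    (Finset.prod_ne_zero_iff.2 fun j hj => ?_)) (Finset.prod_ne_zero_iff.2 fun i hi => ?_)
  · split_ifs
    · exact h1 j hj
    · exact inv_ne_zero (pow_ne_zero _ (h1 j hj))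
  · split_ifs
    · exact inv_ne_zero (h2 i hi)
    · exact one_ne_zero

theorem Y_ne (t : ℂ) : D.Y t ≠ 0 := exp_ne_zero _

theorem G_ne (t : ℂ) : D.G t ≠ 0 := exp_ne_zero _

theorem Y_sq {t : ℂ} (ht : D.P t ≠ 0) : D.Y t ^ 2 = D.P t := by
  obtain ⟨h0, h1, h2⟩ := Alg_ne ht
  rw [Alg_Y, mul_pow, mul_pow, ← Finset.prod_pow, ← Finset.prod_pow, Alg_half, exp_log h0, P]
  congr 1
  · congr 1
    exact Finset.prod_congr rfl fun j hj => by rw [Alg_half, exp_log (h1 j hj)]
  · exact Finset.prod_congr rfl fun i hi => by rw [Alg_half, Alg_exp_lm (h2 i hi)]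

theorem Ok.G_eq (hD : D.Ok) {t : ℂ} (ht : D.P t ≠ 0) : D.G t = D.Y t * D.R t := by
  obtain ⟨h0, h1, h2⟩ := Alg_ne ht
  have e1 : ∀ j ∈ Finset.range D.q, exp (sg j * (3 / 2) * log (t + D.b j)) =
      exp (log (t + D.b j) / 2) * if Even j then t + D.b j else ((t + D.b j) ^ 2)⁻¹ := by
    intro j hj
    have a1 := Alg_half (log (t + D.b j))
    have a2 := Alg_pow (log (t + D.b j)) 3
    have a3 := exp_ne_zero (log (t + D.b j) / 2)
    rw [exp_log (h1 j hj)] at a1
    push_cast at a2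
    split_ifs with h
    · rw [sg, h.neg_one_pow, ofReal_one, one_mul, a2]
      linear_combination exp (log (t + D.b j) / 2) * a1
    · rw [sg, (Nat.not_even_iff_odd.1 h).neg_one_pow, ofReal_neg, ofReal_one, neg_one_mul, neg_mul,
        exp_neg, a2]
      generalize exp (log (t + D.b j) / 2) = w at a1 a3
      rw [← a1]
      field_simp
  have e2 : ∀ i ∈ Finset.range D.p, exp (-(sg i * (1 / 2) * lm (D.a i) t)) =
      exp (lm (D.a i) t / 2) * if Even i then (D.a i - t)⁻¹ else 1 := by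
    intro i hi
    have a1 := Alg_half (lm (D.a i) t)
    have a2 := Alg_pow (lm (D.a i) t) 1
    have a3 := exp_ne_zero (lm (D.a i) t / 2)
    rw [Alg_exp_lm (h2 i hi)] at a1
    push_cast at a2
    split_ifs with h
    · rw [sg, h.neg_one_pow, ofReal_one, one_mul, exp_neg, a2]
      generalize exp (lm (D.a i) t / 2) = w at a1 a3
      rw [← a1]
      field_simp
    · rw [sg, (Nat.not_even_iff_odd.1 h).neg_one_pow, ofReal_neg, ofReal_one, neg_one_mul, neg_mul,
        neg_neg, a2, pow_one, mul_one]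
  have e0 : exp (Real.log D.ρ - log t / 2) = exp (log t / 2) * (D.ρ / t) := by
    have a1 := Alg_half (log t)
    have a3 := exp_ne_zero (log t / 2)
    rw [exp_log h0] at a1
    rw [exp_sub, ← ofReal_exp, Real.exp_log hD.ρ_pos]
    generalize exp (log t / 2) = w at a1 a3
    rw [← a1]
    field_simp
  rw [G, LG, sub_eq_add_neg _ (Finset.sum _ _), ← Finset.sum_neg_distrib, exp_add, exp_add, exp_sum,
    exp_sum, e0, Finset.prod_congr rfl e1, Finset.prod_congr rfl e2, Finset.prod_mul_distrib,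
    Finset.prod_mul_distrib, Alg_Y, R]
  ring

theorem Y_diff {t : ℂ} (ht : 0 < t.im) : DifferentiableAt ℂ D.Y t := by
  refine DifferentiableAt.cexp (DifferentiableAt.div_const (DifferentiableAt.add
    (DifferentiableAt.add (differentiableAt_log (Or.inr ht.ne')) ?_) ?_) _)
  · exact DifferentiableAt.fun_sum fun j _ => Alg_d1 _ ht
  · exact DifferentiableAt.fun_sum fun i _ => Alg_d2 _ ht

theorem G_diff {t : ℂ} (ht : 0 < t.im) : DifferentiableAt ℂ D.G t := by
  refine DifferentiableAt.cexp (DifferentiableAt.sub (DifferentiableAt.add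
    (((differentiableAt_log (Or.inr ht.ne')).div_const _).const_sub _) ?_) ?_)
  · exact DifferentiableAt.fun_sum fun j _ => (Alg_d1 _ ht).const_mul _
  · exact DifferentiableAt.fun_sum fun i _ => (Alg_d2 _ ht).const_mul _

theorem Y_cont : ContinuousOn D.Y {t | 0 ≤ t.im ∧ D.P t ≠ 0} := by
  refine ContinuousOn.cexp (ContinuousOn.div_const (ContinuousOn.add
    (ContinuousOn.add Alg_c0 ?_) ?_) _)
  · exact continuousOn_finsetSum _ fun j hj => Alg_c1 hj
  · exact continuousOn_finsetSum _ fun i hi => Alg_c2 hi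

theorem G_cont : ContinuousOn D.G {t | 0 ≤ t.im ∧ D.P t ≠ 0} := by
  refine ContinuousOn.cexp (ContinuousOn.sub (ContinuousOn.add
    (continuousOn_const.sub (Alg_c0.div_const _)) ?_) ?_)
  · exact continuousOn_finsetSum _ fun j hj => continuousOn_const.mul (Alg_c1 hj)
  · exact continuousOn_finsetSum _ fun i hi => continuousOn_const.mul (Alg_c2 hi)

theorem Y_im {x : ℝ} (hx : 0 < (D.P x).re) : (D.Y x).im = 0 := by
  have h := Y_sq (D := D) (t := x) (fun h => by simp [h] at hx)
  have h1 := congrArg Complex.re h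
  have h2 := congrArg Complex.im h
  rw [P_im] at h2
  simp only [sq, mul_re, mul_im] at h1 h2
  by_contra h0
  have h3 : (D.Y x).re = 0 := by
    have : (D.Y x).re * (D.Y x).im = 0 := by linarith
    exact (mul_eq_zero.1 this).resolve_right h0
  rw [h3] at h1
  nlinarith [mul_self_nonneg (D.Y x).im]

theorem Y_re {x : ℝ} (hx : (D.P x).re < 0) : (D.Y x).re = 0 := by
  have h := Y_sq (D := D) (t := x) (fun h => by simp [h] at hx)
  have h1 := congrArg Complex.re h
  have h2 := congrArg Complex.im h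
  rw [P_im] at h2
  simp only [sq, mul_re, mul_im] at h1 h2
  by_contra h0
  have h3 : (D.Y x).im = 0 := by
    have : (D.Y x).re * (D.Y x).im = 0 := by linarith
    exact (mul_eq_zero.1 this).resolve_left h0
  rw [h3] at h1
  nlinarith [mul_self_nonneg (D.Y x).re]

theorem Ok.not_E (hD : D.Ok) {t : ℂ} (ha : D.IsA t) : ¬ D.IsE t := by
  obtain ⟨i, hi, rfl⟩ := ha
  have h1 := hD.a_pos i hi
  rintro (h | ⟨j, hj, h⟩)
  · exact h1.ne' (by exact_mod_cast h)
  · have h2 := hD.b_pos j hj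
    have h3 : D.a i = - D.b j := by exact_mod_cast h
    linarith

theorem Ok.not_const (hD : D.Ok) (c t₀ : ℂ) : ¬ ∀ᶠ t in 𝓝 t₀, D.P t * D.R t ^ 2 = c := by
  intro h
  let Nm : ℂ → ℂ := fun t => (D.ρ : ℂ) ^ 2 *
    (∏ j ∈ Finset.range D.q, if Even j then (t + D.b j) ^ 3 else 1) *
      ∏ i ∈ Finset.range D.p, if Even i then 1 else (D.a i - t)
  let Dn : ℂ → ℂ := fun t => c * t *
    (∏ j ∈ Finset.range D.q, if Even j then 1 else (t + D.b j) ^ 3) *
      ∏ i ∈ Finset.range D.p, if Even i then (D.a i - t) else 1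
  have d1 : Differentiable ℂ Nm := by
    refine (Differentiable.const_mul ?_ _).mul ?_
    · refine Differentiable.fun_finsetProd fun j _ => ?_
      split_ifs <;> fun_prop
    · refine Differentiable.fun_finsetProd fun j _ => ?_
      split_ifs <;> fun_prop
  have d2 : Differentiable ℂ Dn := by
    refine (Differentiable.mul (by fun_prop) ?_).mul ?_
    · refine Differentiable.fun_finsetProd fun j _ => ?_
      split_ifs <;> fun_prop
    · refine Differentiable.fun_finsetProd fun j _ => ?_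
      split_ifs <;> fun_prop
  have key : ∀ t, D.P t ≠ 0 → D.P t * D.R t ^ 2 = c → Nm t = Dn t := by
    intro t ht hc
    obtain ⟨h0, h1, h2⟩ := Alg_ne ht
    have e1 : (∏ j ∈ Finset.range D.q, if Even j then (t + D.b j) ^ 3 else 1) =
        (∏ j ∈ Finset.range D.q, (t + D.b j)) *
        (∏ j ∈ Finset.range D.q, if Even j then t + D.b j else ((t + D.b j) ^ 2)⁻¹) ^ 2 *
        ∏ j ∈ Finset.range D.q, if Even j then 1 else (t + D.b j) ^ 3 := by
      rw [← Finset.prod_pow, ← Finset.prod_mul_distrib, ← Finset.prod_mul_distrib]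
      refine Finset.prod_congr rfl fun j hj => ?_
      have := h1 j hj
      split_ifs
      · ring
      · field_simp
    have e2 : (∏ i ∈ Finset.range D.p, if Even i then 1 else (D.a i - t)) =
        (∏ i ∈ Finset.range D.p, (D.a i - t)) *
        (∏ i ∈ Finset.range D.p, if Even i then (D.a i - t)⁻¹ else 1) ^ 2 *
        ∏ i ∈ Finset.range D.p, if Even i then (D.a i - t) else 1 := by
      rw [← Finset.prod_pow, ← Finset.prod_mul_distrib, ← Finset.prod_mul_distrib]
      refine Finset.prod_congr rfl fun i hi => ?_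
      have := h2 i hi
      split_ifs
      · field_simp
      · ring
    simp only [Nm, Dn]
    rw [e1, e2, ← hc, P, R]
    field_simp
  have hev : ∀ᶠ t in 𝓝[≠] t₀, Nm t = Dn t := by
    filter_upwards [nhdsWithin_le_nhds h,
      nhdsNE_le_cofinite t₀ (P_finite (D := D)).compl_mem_cofinite] with t h1 h2
    exact key t h2 h1
  have e := AnalyticOnNhd.eq_of_frequently_eq (fun z _ => d1.analyticAt z)
    (fun z _ => d2.analyticAt z) hev.frequently
  have e0 := congrFun e 0
  simp only [Nm, Dn, mul_zero, zero_mul, zero_add, sub_zero] at e0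
  refine mul_ne_zero (mul_ne_zero (pow_ne_zero _ (by exact_mod_cast hD.ρ_pos.ne'))
    (Finset.prod_ne_zero_iff.2 fun j hj => ?_)) (Finset.prod_ne_zero_iff.2 fun i hi => ?_) e0
  · split_ifs
    · exact pow_ne_zero _ (by exact_mod_cast (hD.b_pos j (Finset.mem_range.1 hj)).ne')
    · exact one_ne_zero
  · split_ifs
    · exact one_ne_zero
    · exact_mod_cast (hD.a_pos i (Finset.mem_range.1 hi)).ne'

end Dat

end Pool.Agent.MP_92463a_gt
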