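import Pool.Agent.MP_92463a_gt.FaceX1

/-! The program and the bisection trees of the face inequalities. -/

namespace Pool.Agent.MP_92463a_gt.FaceX

open Ex Tr

def progA : List Ex := [
  inv (var 0), inv (var 7), sub (cst 1 2) (mul (var 8) (inv (add (var 2) (var 8)))), add (add
  (cst 457 1000) (mul (var 0) (add (cst (-1224) 10000) (mul (var 0) (add (cst (-126) 1000) (mul
  (var 0) (cst (-167) 1000))))))) (var 4), mul (var 10) (var 3), mul (var 5) (var 3), mul (mul
  (var 12) (var 12)) (var 5), mul (var 7) (var 7), mul (var 0) (var 6)]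

def progB : List Ex := [
  mul (var 4) (var 4), mul (var 5) (var 6), mul (var 5) (var 5), mul (sub (var 7) (mul (cst 2 1)
  (mul (sub (var 7) (cst 1 1)) (var 8)))) (cst 1 3), mul (sub (mul (cst 3 1) (var 2)) (mul (cst 4
  1) (mul (sub (var 8) (cst 1 1)) (var 0)))) (cst 1 5), add (mul (cst 2 1) (var 10)) (var 9), add
  (add (add (mul (cst 2 1) (var 2)) (mul (cst 2 1) (var 0))) (mul (cst 4 1) (var 4))) (var 5),
  sub (mul (cst 2 1) (var 12)) (cst 1 1), mul (var 10) (var 10), mul (var 9) (var 9), mul (var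
  21) (var 12), mul (var 24) (var 11), mul (var 24) (var 3), mul (var 27) (var 3), add (cst 1 1)
  (mul (var 3) (var 2)), mul (mul (var 4) (var 4)) (cst 1 2), mul (mul (var 4) (var 4)) (cst 1
  2), add (add (sub (sub (mul (add (mul (cst 2 1) (var 21)) (mul (sub (cst 1 1) (var 21)) (var
  22))) (var 2)) (mul (var 6) (sub (var 13) (var 9)))) (mul (var 5) (add (add (var 13) (mul (cst
  2 1) (var 15))) (var 16)))) (mul (add (var 1) (var 4)) (mul (sub (sub (mul (cst 2 1) (var 13))
  (var 22)) (var 12)) (var 20)))) (mul (add (var 0) (var 3)) (add (var 12) (mul (var 21) (add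
  (mul (cst 2 1) (var 13)) (var 15))))), mul (var 12) (var 15), add (sub (add (sub (mul (var 8)
  (var 0)) (mul (mul (var 24) (var 22)) (var 4))) (mul (var 7) (var 11))) (mul (sub (var 3) (var
  6)) (mul (add (add (var 15) (var 13)) (var 17)) (mul (var 16) (var 22))))) (mul (sub (var 2)
  (var 5)) (sub (sub (var 15) (var 24)) (mul (var 23) (var 11)))), add (var 31) (var 36), add
  (var 34) (var 39), mul (var 1) (var 1), mul (var 1) (var 1), mul (add (var 41) (mul (var 3)
  (add (var 40) (mul (cst 21 100) (var 1))))) (mul (var 15) (var 26)), mul (add (var 44) (mul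
  (var 3) (add (var 43) (mul (cst 21 100) (var 1))))) (mul (var 15) (var 25)), mul (mul (var 4)
  (add (var 42) (mul (cst 63 100) (var 3)))) (mul (var 17) (var 26)), mul (mul (var 6) (add (var
  45) (mul (cst 63 100) (var 3)))) (mul (var 17) (var 29)), add (add (mul (var 48) (add (mul (var
  29) (var 10)) (mul (var 43) (var 8)))) (mul (var 29) (mul (add (cst 1 1) (var 32)) (add (add
  (add (mul (var 3) (var 9)) (var 1)) (mul (var 0) (var 22))) (mul (var 2) (var 21)))))) (mul
  (var 43) (add (add (add (mul (var 3) (mul (var 21) (mul (var 25) (var 25)))) (mul (var 1) (var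
  9))) (var 0)) (mul (var 2) (var 22))))]

theorem chk000 : check (progA ++ progB)
    (node 0 (node 0 (node 0 leaf leaf) (node 0 leaf leaf)) (node 0 (node 0 leaf leaf) (node 0
    (node 0 leaf leaf) (node 0 leaf leaf))))
    [.mil 200 260, .mil (-1) 1, .mil 0 0, .mil 0 0, .mil 0 0, .mil 0 0, .mil 200 200, .mil 0 0,
    .mil 0 0, .mil 0 0, .mil 0 0, .mil 1000 1000] = true := by
  decide +kernel

theorem chk001 : check (progA ++ progB)
    (node 0 (node 0 (node 0 (node 0 leaf leaf) (node 0 leaf leaf)) (node 0 leaf leaf)) (node 0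
    (node 0 leaf leaf) (node 0 leaf leaf)))
    [.mil 200 260, .mil (-1) 1, .mil 0 0, .mil 0 0, .mil 0 0, .mil 0 0, .mil 260 260, .mil 0 0,
    .mil 0 0, .mil 0 0, .mil 0 0, .mil (-1000) (-1000)] = true := by
  decide +kernel

theorem chk010 : check (progA ++ progB)
    (node 0 (node 0 (node 0 (node 0 leaf leaf) (node 0 leaf leaf)) (node 0 (node 0 leaf leaf)
    (node 0 leaf leaf))) (node 0 (node 0 (node 0 leaf leaf) (node 0 leaf (node 0 leaf leaf)))
    (node 0 (node 0 (node 0 leaf leaf) (node 0 leaf leaf)) (node 0 (node 0 leaf leaf) (node 0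
    leaf leaf)))))
    [.mil 128 187, .mil (-1) 1, .mil 0 0, .mil 0 0, .mil 218 532, .mil 7 28, .mil 248 248, .mil 0
    0, .mil 0 0, .mil 50 50, .mil 22 22, .mil 1000 1000] = true := by
  decide +kernel

theorem chk011 : check (progA ++ progB)
    (node 0 (node 0 (node 0 (node 0 (node 0 leaf leaf) (node 0 leaf leaf)) (node 0 (node 0 leaf
    leaf) (node 0 leaf leaf))) (node 0 (node 0 (node 0 leaf leaf) (node 0 leaf leaf)) (node 0
    (node 0 leaf leaf) (node 0 leaf leaf)))) (node 0 (node 0 (node 0 (node 0 leaf leaf) (node 0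
    leaf leaf)) (node 0 (node 0 leaf leaf) leaf)) (node 0 (node 0 leaf leaf) (node 0 leaf
    leaf))))
    [.mil 128 187, .mil (-1) 1, .mil 0 0, .mil 0 0, .mil 218 532, .mil 7 28, .mil 310 310, .mil 0
    0, .mil 0 0, .mil 50 50, .mil 22 22, .mil (-1000) (-1000)] = true := by
  decide +kernel

theorem chk100 : check (progA ++ progB)
    (node 0 (node 0 (node 0 leaf (node 0 leaf leaf)) (node 0 (node 0 leaf leaf) (node 0 leaf
    leaf))) (node 0 (node 0 (node 0 leaf leaf) (node 0 leaf (node 0 leaf leaf))) (node 0 (node 0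
    (node 0 leaf leaf) (node 0 leaf leaf)) (node 0 (node 0 leaf leaf) (node 0 (node 0 leaf leaf)
    (node 0 leaf leaf))))))
    [.mil 248 310, .mil (-1) 1, .mil 218 532, .mil 7 28, .mil 0 0, .mil 0 0, .mil 128 128, .mil
    50 50, .mil 22 22, .mil 0 0, .mil 0 0, .mil 1000 1000] = true := by
  decide +kernel

theorem chk101 : check (progA ++ progB)
    (node 0 (node 0 (node 0 (node 2 (node 0 (node 0 (node 0 leaf leaf) (node 0 leaf leaf)) (node
    0 leaf leaf)) leaf) (node 2 (node 0 (node 0 leaf leaf) (node 0 leaf leaf)) leaf)) (node 0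
    (node 2 (node 0 (node 0 leaf leaf) leaf) leaf) (node 2 (node 0 leaf leaf) leaf))) (node 0
    (node 0 (node 0 (node 0 leaf leaf) (node 0 leaf leaf)) (node 0 (node 0 leaf leaf) leaf))
    (node 0 (node 0 leaf leaf) (node 0 leaf leaf))))
    [.mil 248 310, .mil (-1) 1, .mil 218 532, .mil 7 28, .mil 0 0, .mil 0 0, .mil 187 187, .mil
    50 50, .mil 22 22, .mil 0 0, .mil 0 0, .mil (-1000) (-1000)] = true := by
  decide +kernel

theorem chk110 : check (progA ++ progB)
    (node 0 (node 0 (node 0 (node 0 (node 0 (node 0 (node 0 leaf leaf) (node 0 leaf leaf)) (node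
    0 (node 0 leaf leaf) (node 0 leaf leaf))) (node 0 (node 0 (node 0 leaf leaf) (node 0 leaf
    leaf)) (node 0 (node 0 leaf leaf) (node 0 leaf leaf)))) (node 0 (node 0 (node 0 (node 0 leaf
    leaf) (node 0 leaf leaf)) (node 0 (node 0 leaf leaf) (node 0 leaf leaf))) (node 0 (node 0
    (node 0 leaf leaf) (node 0 leaf leaf)) (node 0 (node 0 leaf leaf) (node 0 leaf leaf)))))
    (node 0 (node 0 (node 0 (node 0 (node 0 leaf leaf) (node 0 leaf leaf)) (node 0 (node 0 leaf
    leaf) (node 0 leaf leaf))) (node 2 leaf (node 0 (node 0 leaf leaf) (node 0 leaf leaf))))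
    (node 0 (node 2 leaf (node 0 (node 0 leaf leaf) (node 0 leaf leaf))) (node 2 leaf (node 0
    (node 0 leaf leaf) (node 0 leaf (node 0 leaf leaf))))))) (node 0 (node 0 (node 0 (node 2 leaf
    (node 0 (node 0 (node 0 leaf leaf) (node 0 leaf leaf)) (node 0 (node 0 leaf leaf) (node 0
    leaf leaf)))) (node 2 leaf (node 0 (node 0 (node 0 leaf leaf) (node 0 leaf leaf)) (node 4
    (node 0 leaf leaf) leaf)))) (node 0 (node 2 leaf (node 0 (node 4 (node 0 leaf leaf) leaf)
    (node 4 (node 0 leaf leaf) leaf))) (node 2 leaf (node 0 (node 4 (node 0 leaf leaf) leaf)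
    (node 4 (node 0 leaf leaf) leaf))))) (node 0 (node 0 (node 2 leaf (node 0 (node 4 (node 0
    (node 0 leaf leaf) (node 0 leaf leaf)) leaf) (node 4 (node 0 (node 0 leaf leaf) (node 0 leaf
    leaf)) leaf))) (node 2 leaf (node 4 (node 0 (node 0 (node 0 leaf leaf) (node 0 leaf leaf))
    (node 0 (node 0 leaf leaf) (node 0 leaf leaf))) (node 0 leaf leaf)))) (node 0 (node 2 leaf
    (node 4 (node 0 (node 4 (node 0 leaf (node 0 leaf leaf)) leaf) (node 4 (node 0 (node 0 leaf
    leaf) (node 0 leaf leaf)) leaf)) (node 0 leaf leaf))) (node 2 leaf (node 4 (node 0 (node 4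
    (node 0 (node 0 leaf leaf) (node 0 leaf leaf)) (node 0 leaf leaf)) (node 2 leaf (node 4 (node
    0 leaf leaf) leaf))) (node 0 leaf leaf)))))))
    [.mil 150 235, .mil (-1) 1, .mil 218 532, .mil 7 28, .mil 218 532, .mil 7 28, .mil 150 150,
    .mil 50 50, .mil 22 22, .mil 50 50, .mil 22 22, .mil 1000 1000] = true := by
  decide +kernel

theorem chk111 : check (progA ++ progB)
    (node 0 (node 0 (node 0 (node 2 (node 0 (node 2 (node 0 (node 0 leaf leaf) (node 0 leaf
    leaf)) leaf) (node 2 (node 0 (node 0 leaf leaf) (node 0 leaf leaf)) leaf)) (node 0 leaf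
    leaf)) (node 2 (node 0 (node 2 (node 0 (node 0 leaf leaf) (node 0 leaf leaf)) leaf) (node 2
    (node 0 (node 0 leaf leaf) (node 0 leaf leaf)) leaf)) (node 0 leaf leaf))) (node 0 (node 2
    (node 0 (node 2 (node 0 (node 0 leaf leaf) (node 0 leaf leaf)) leaf) (node 2 (node 0 (node 0
    leaf leaf) (node 0 leaf leaf)) leaf)) (node 0 leaf leaf)) (node 2 (node 0 (node 2 (node 0
    (node 0 leaf leaf) (node 0 leaf leaf)) leaf) (node 2 (node 0 (node 0 leaf leaf) (node 0 leaf
    leaf)) leaf)) (node 0 leaf leaf)))) (node 0 (node 0 (node 2 (node 0 (node 2 (node 0 (node 0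
    leaf leaf) (node 0 leaf leaf)) (node 0 leaf leaf)) (node 2 (node 0 (node 0 leaf leaf) (node 0
    leaf leaf)) (node 0 leaf leaf))) (node 0 leaf leaf)) (node 2 (node 0 (node 2 (node 0 (node 0
    leaf leaf) (node 0 leaf (node 0 leaf leaf))) (node 0 leaf leaf)) (node 2 (node 0 (node 0
    (node 0 leaf leaf) (node 0 leaf leaf)) (node 0 (node 0 leaf leaf) (node 0 leaf leaf))) (node
    0 leaf leaf))) (node 0 leaf leaf))) (node 0 (node 2 (node 0 (node 2 (node 0 (node 0 (node 0
    leaf leaf) (node 0 leaf leaf)) (node 0 (node 0 leaf leaf) (node 0 leaf leaf))) (node 0 leaf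
    leaf)) (node 2 (node 0 (node 0 (node 0 leaf leaf) (node 0 leaf leaf)) (node 0 (node 0 leaf
    leaf) (node 0 leaf leaf))) (node 0 leaf leaf))) (node 0 leaf leaf)) (node 2 (node 0 (node 2
    (node 0 (node 2 (node 0 leaf (node 0 leaf leaf)) leaf) (node 2 (node 0 (node 0 leaf leaf)
    (node 0 leaf leaf)) leaf)) (node 0 leaf leaf)) (node 2 (node 0 (node 2 (node 0 (node 0 leaf
    leaf) (node 0 leaf leaf)) leaf) (node 2 (node 0 (node 0 leaf leaf) (node 0 leaf leaf)) leaf))
    (node 0 leaf leaf))) (node 0 leaf leaf)))))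
    [.mil 150 235, .mil (-1) 1, .mil 218 532, .mil 7 28, .mil 218 532, .mil 7 28, .mil 235 235,
    .mil 50 50, .mil 22 22, .mil 50 50, .mil 22 22, .mil (-1000) (-1000)] = true := by
  decide +kernel

end Pool.Agent.MP_92463a_gt.FaceX
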