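import Pool.Agent.MP_92463a_gt.Num0
import Pool.Agent.MP_92463a_gt.FaceX2

open Set Complex Filter Metric
open scoped Topology ComplexConjugate ContDiff Manifold

noncomputable section

namespace Pool.Agent.MP_92463a_gt

open FaceX in
theorem face_run (p q : List Ex) (l : List ℝ) : run (p ++ q) l = run q (run p l) := by
  induction p generalizing l with
  | nil => rfl
  | cons e p ih => exact ih _

open FaceX in
theorem face_B (au UU al β X p iD iU U t x x2 y y2 D a a' b b' s : ℝ) :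
    (run progB [au, UU, al, β⁻¹, β, X, p, iD, iU, U, t, x, x2, y, y2, D, a, a', b, b', s]).headD 0 =
      s * (UU * mainA β X (-x * al) (-y * au) (x2 * al ^ 2) (y2 * au ^ 2) +
        D * mainB β X (-x * al) (-y * au) (x2 * al ^ 2) (y2 * au ^ 2)) +
      (UU * errA β X ((x + a) * al) (a * al ^ 2) (a' * al ^ 3) ((y + b) * au) (b * au ^ 2)
          (b' * au ^ 3) +
        D * errB β X ((x + a) * al) (a * al ^ 2) (a' * al ^ 3) ((y + b) * au) (b * au ^ 2)
          (b' * au ^ 3)) := by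
  simp only [progB, run, Ex.ev, List.getD_cons_succ, List.getD_cons_zero, List.headD_cons,
    mainA, mainB, errA, errB, c30, c21, mA0, mA1, mA2, nA1, nA2, nH1, nH2, mH2, mH1, mB0, mB2, mB1,
    nB2, mE3]
  push_cast
  rw [show (β - 2 / 1 * ((β - 1 / 1) * X)) * (1 / 3) = mE2 β X by rw [mE2]; ring]
  ring

open FaceX in
theorem face_A {U D : ℝ} (hU : 0.1 ≤ U) (hD : 0.1 ≤ D) (X x x2 y y2 a a' b b' s : ℝ) :
    run progA [U, X - qx (U / (U + D)), x, x2, y, y2, D, a, a', b, b', s] =
      [U ^ 2 / D, U ^ 2, D ^ 2 / U, (D / U)⁻¹, D / U, X, U / (U + D) - 1 / 2, D⁻¹, U⁻¹,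
        U, X - qx (U / (U + D)), x, x2, y, y2, D, a, a', b, b', s] := by
  have h : ∀ z : ℝ, 0.1 ≤ z → max z (2 ^ 40)⁻¹ = z := fun z hz =>
    max_eq_left (le_trans (by norm_num) hz)
  have e : ((1 : ℤ) : ℝ) / (2 : ℕ) - D * (U + D)⁻¹ = U / (U + D) - 1 / 2 := by
    have : U + D ≠ 0 := by linarith
    push_cast
    field_simp
    ring
  simp only [progA, run, Ex.ev, List.getD_cons_succ, List.getD_cons_zero, h U hU, h D hD,
    h (U + D) (by linarith), e, List.cons.injEq, and_true, qx]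
  push_cast
  refine ⟨by ring, by ring, by ring, by rw [inv_div]; ring, by ring, by ring⟩

open FaceX in
theorem face_chk {lo up : Bool} {U D X x x2 y y2 s : ℝ} {T : Tr} {L : List Iv} (hU : 0.1 ≤ U)
    (hD : 0.1 ≤ D) (hc : check (progA ++ progB) T L = true)
    (hL : List.Forall₂ Mem [U, X - qx (U / (U + D)), x, x2, y, y2, D, h2 lo, h3 lo, h2 up, h3 up, s]
      L) : s * smain U D X x x2 y y2 + serr lo up U D X x y < 0 := by
  have := sound _ T hL hc
  rwa [face_run, face_A hU hD, face_B] at this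

theorem face (lo up : Bool) {U D X x x2 y y2 : ℝ} (hU : U ∈ Icc (dLo up lo) (dHi up lo))
    (hX : |X - qx (U / (U + D))| ≤ 1 / 1000) (hx : Fc lo x x2) (hy : Fc up y y2) :
    (D = dLo lo up → smain U D X x x2 y y2 + serr lo up U D X x y < 0) ∧
    (D = dHi lo up → 0 < smain U D X x x2 y y2 - serr lo up U D X x y) := by
  obtain ⟨hX1, hX2⟩ := abs_le.1 hX
  have key : ∀ {s : ℝ} {T : FaceX.Tr} {u u' a a' b b' c c' d d' e f f' g g' i : ℤ}, 0.1 ≤ U →
      0.1 ≤ D → FaceX.check (FaceX.progA ++ FaceX.progB) T [.mil u u', .mil (-1) 1, .mil a a',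
        .mil b b', .mil c c', .mil d d', .mil e e, .mil f f, .mil f' f', .mil g g, .mil g' g',
        .mil i i] = true →
      ((u : ℝ) / 1000 ≤ U ∧ U ≤ u' / 1000) ∧ ((a : ℝ) / 1000 ≤ x ∧ x ≤ a' / 1000) ∧
        ((b : ℝ) / 1000 ≤ x2 ∧ x2 ≤ b' / 1000) ∧ ((c : ℝ) / 1000 ≤ y ∧ y ≤ c' / 1000) ∧
        ((d : ℝ) / 1000 ≤ y2 ∧ y2 ≤ d' / 1000) ∧ D = e / 1000 ∧ h2 lo = f / 1000 ∧
        h3 lo = f' / 1000 ∧ h2 up = g / 1000 ∧ h3 up = g' / 1000 ∧ s = i / 1000 →
      s * smain U D X x x2 y y2 + serr lo up U D X x y < 0 := by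
    rintro s T u u' a a' b b' c c' d d' e f f' g g' i k1 k2 hc ⟨h1, h2, h3, h4, h5, h6, h7, h8, h9,
      h10, h11⟩
    exact face_chk k1 k2 hc (.cons (FaceX.mem_mil h1.1 h1.2) <|
      .cons (FaceX.mem_mil (by push_cast; linarith) (by push_cast; linarith)) <|
      .cons (FaceX.mem_mil h2.1 h2.2) <| .cons (FaceX.mem_mil h3.1 h3.2) <|
      .cons (FaceX.mem_mil h4.1 h4.2) <| .cons (FaceX.mem_mil h5.1 h5.2) <|
      .cons (FaceX.mem_mil h6.ge h6.le) <| .cons (FaceX.mem_mil h7.ge h7.le) <|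
      .cons (FaceX.mem_mil h8.ge h8.le) <| .cons (FaceX.mem_mil h9.ge h9.le) <|
      .cons (FaceX.mem_mil h10.ge h10.le) <| .cons (FaceX.mem_mil h11.ge h11.le) .nil)
  suffices H : (D = dLo lo up → 1 * smain U D X x x2 y y2 + serr lo up U D X x y < 0) ∧
      (D = dHi lo up → -1 * smain U D X x x2 y y2 + serr lo up U D X x y < 0) from
    ⟨fun h => by linarith [H.1 h], fun h => by linarith [H.2 h]⟩
  cases lo <;> cases up <;> simp only [dLo, dHi, Fc, mem_Icc] at hU hx hy ⊢ <;>
    obtain ⟨hU1, hU2⟩ := hU <;> obtain ⟨hx1, hx2⟩ := hx <;> obtain ⟨hy1, hy2⟩ := hy <;>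
    refine ⟨fun hD => ?_, fun hD => ?_⟩
  · refine key (by linarith) (by linarith) FaceX.chk000 ?_
    clear key hX hX1 hX2
    norm_num [h2, h3] at *
    simp only [*, and_self, le_refl]
  · refine key (by linarith) (by linarith) FaceX.chk001 ?_
    clear key hX hX1 hX2
    norm_num [h2, h3] at *
    simp only [*, and_self, le_refl]
  · refine key (by linarith) (by linarith) FaceX.chk010 ?_
    clear key hX hX1 hX2
    norm_num [h2, h3] at *
    simp only [*, and_self, le_refl]
  · refine key (by linarith) (by linarith) FaceX.chk011 ?_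
    clear key hX hX1 hX2
    norm_num [h2, h3] at *
    simp only [*, and_self, le_refl]
  · refine key (by linarith) (by linarith) FaceX.chk100 ?_
    clear key hX hX1 hX2
    norm_num [h2, h3] at *
    simp only [*, and_self, le_refl]
  · refine key (by linarith) (by linarith) FaceX.chk101 ?_
    clear key hX hX1 hX2
    norm_num [h2, h3] at *
    simp only [*, and_self, le_refl]
  · refine key (by linarith) (by linarith) FaceX.chk110 ?_
    clear key hX hX1 hX2
    norm_num [h2, h3] at *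
    simp only [*, and_self]
  · refine key (by linarith) (by linarith) FaceX.chk111 ?_
    clear key hX hX1 hX2
    norm_num [h2, h3] at *
    simp only [*, and_self]

end Pool.Agent.MP_92463a_gt
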