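import Pool.Agent.MP_92463a_gt.Est
import Pool.Agent.MP_92463a_gt.Xb2
import Pool.Agent.MP_92463a_gt.Face

open Set Complex Filter Metric
open scoped Topology ComplexConjugate ContDiff Manifold

noncomputable section

namespace Pool.Agent.MP_92463a_gt

theorem InBox.symm {lo up : Bool} {U D : ℝ} (h : InBox lo up U D) : InBox up lo D U := ⟨h.2, h.1⟩

theorem InBox.bd {lo up : Bool} {U D : ℝ} (h : InBox lo up U D) :
    0.128 ≤ U ∧ U ≤ 0.31 ∧ 0.128 ≤ D ∧ D ≤ 0.31 ∧ 0.29 ≤ U / (U + D) ∧ U / (U + D) ≤ 0.71 := by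
  obtain ⟨⟨h1, h2⟩, h3, h4⟩ := h
  have key : 0.128 ≤ U ∧ U ≤ 0.31 ∧ 0.128 ≤ D ∧ D ≤ 0.31 ∧ 0.29 * (U + D) ≤ U ∧
      U ≤ 0.71 * (U + D) := by
    cases lo <;> cases up <;> simp only [dLo, dHi] at h1 h2 h3 h4 <;>
      refine ⟨?_, ?_, ?_, ?_, ?_, ?_⟩ <;> linarith
  obtain ⟨a, b, c, d, e, f⟩ := key
  have hs : 0 < U + D := by linarith
  exact ⟨a, b, c, d, (le_div_iff₀ hs).2 e, (div_le_iff₀ hs).2 f⟩

theorem App_le {ν U c r : ℝ} (hU : 0 < U) (hr : 0 ≤ r) (h : ν ^ 2 * U ≤ c * U)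
    (hc : c ≤ r ^ 2) : ν ≤ r :=
  (abs_le_of_sq_le_sq' ((le_of_mul_le_mul_right h hU).trans hc) hr).2

theorem InBox.arg {lo up : Bool} {U D : ℝ} (h : InBox lo up U D) (θ : ℝ) :
    ‖((D ^ 2 / U : ℝ) : ℂ) / sc (U / (U + D)) θ‖ ≤ 1 ∧
      (up = true → ‖((U ^ 2 / D : ℝ) : ℂ) * sc (U / (U + D)) θ‖ ≤ 1) := by
  obtain ⟨a, b, c, d, e, f⟩ := h.bd
  have hU : 0 < U := by linarith
  have hD : 0 < D := by linarith
  have h0 : 0 < U / (U + D) := by linarith
  have h1 : U / (U + D) < 1 := by linarith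
  obtain ⟨n1, n2, -⟩ := sc_norm h0 h1 θ
  have hs := norm_pos_iff.2 (sc_ne h0 h1 θ).1
  have ν0 : 0 < 1 / √(U / (U + D)) := by positivity
  have ν2 : (1 / √(U / (U + D))) ^ 2 * U = U + D := by
    rw [div_pow, Real.sq_sqrt h0.le]
    field_simp
  generalize 1 / √(U / (U + D)) = ν at n1 n2 ν0 ν2
  generalize sc (U / (U + D)) θ = s at n1 n2 hs
  have hle : 0.29 * (U + D) ≤ U := (le_div_iff₀ (by linarith)).1 e
  have ν3 : ν ≤ 1.86 := App_le (c := 3.45) hU (by norm_num) (by linarith) (by norm_num)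
  constructor
  · rw [norm_div, norm_real, Real.norm_of_nonneg (by positivity), div_le_one hs, div_le_iff₀ hU]
    have h2 : D * (ν + 1) ≤ 1 := by nlinarith
    have h3 : D = (ν - 1) * U * (ν + 1) := by linarith
    have h4 : 0 ≤ (ν - 1) * U := by
      by_contra h5
      nlinarith
    calc D ^ 2 = (ν - 1) * U * (D * (ν + 1)) := by linear_combination D * h3
      _ ≤ (ν - 1) * U * 1 := mul_le_mul_of_nonneg_left h2 h4
      _ ≤ ‖s‖ * U := by rw [mul_one]; exact mul_le_mul_of_nonneg_right n1 hU.le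
  · rintro rfl
    rw [norm_mul, norm_real, Real.norm_of_nonneg (by positivity), div_mul_eq_mul_div,
      div_le_one hD]
    refine (mul_le_mul_of_nonneg_left n2 (sq_nonneg U)).trans ?_
    obtain ⟨⟨h1, h2⟩, h3, h4⟩ := h
    cases lo <;> simp only [dLo, dHi] at h1 h2 h3 h4
    · have : U ^ 2 ≤ 0.035 := by nlinarith
      nlinarith
    · have ν4 : ν ≤ 1.61 := App_le (c := 2.57) hU (by norm_num) (by linarith) (by norm_num)
      have : U ^ 2 ≤ 0.0553 := by nlinarith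
      nlinarith

theorem App_cls {b : Bool} {Λ : ℂ → ℂ} {x x2 : ℝ} (h : Cls b Λ x x2) {v : ℂ}
    (hv : b = true → ‖v‖ ≤ 1) :
    ‖Λ v + x * v - x2 * v ^ 2‖ ≤ h3 b * ‖v‖ ^ 3 ∧ ‖Λ v + x * v‖ ≤ h2 b * ‖v‖ ^ 2 ∧
      ‖Λ v‖ ≤ (x + h2 b) * ‖v‖ ∧ ‖(x : ℂ) * v‖ ≤ (x + h2 b) * ‖v‖ ∧ x + h2 b ≤ 0.582 ∧
      (b = false → x + h2 b = 0) := by
  have h1 := h.2 v hv
  have h0 := h.1
  have hn := norm_nonneg v
  cases b
  · obtain ⟨rfl, rfl⟩ := h0
    simp only [h3, h2] at h1 ⊢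
    have h4 : Λ v = 0 := by simpa using h1
    simp only [h4]
    norm_num
  · obtain ⟨⟨a, b⟩, c, d⟩ := h0
    have hv := hv rfl
    simp only [h3, h2] at h1 ⊢
    have e1 : ‖(x : ℂ) * v‖ = x * ‖v‖ := by
      rw [norm_mul, norm_real, Real.norm_of_nonneg (by linarith)]
    have e2 : ‖(x2 : ℂ) * v ^ 2‖ = x2 * ‖v‖ ^ 2 := by
      rw [norm_mul, norm_real, Real.norm_of_nonneg (by linarith), norm_pow]
    have p2 : ‖v‖ ^ 2 ≤ ‖v‖ := by nlinarith
    have p3 : ‖v‖ ^ 3 ≤ ‖v‖ ^ 2 := by nlinarith [sq_nonneg ‖v‖]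
    have h4 : ‖Λ v + x * v‖ ≤ 0.05 * ‖v‖ ^ 2 := by
      have := norm_add_le (Λ v + x * v - x2 * v ^ 2) (x2 * v ^ 2)
      rw [sub_add_cancel, e2] at this
      nlinarith [sq_nonneg ‖v‖]
    refine ⟨h1, h4, ?_, ?_, by linarith, by simp⟩
    · have := norm_sub_le (Λ v + x * v) (x * v)
      rw [add_sub_cancel_right, e1] at this
      linarith
    · rw [e1]
      linarith

theorem per_face {lo up : Bool} {U D x x2 y y2 : ℝ} {Λ M L : ℂ → ℂ} (h : InBox lo up U D)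
    (hΛ : Cls lo Λ x x2) (hM : Cls up M y y2)
    (hL : ∀ s, L s = Λ (((D ^ 2 / U : ℝ) : ℂ) / s) + M (((U ^ 2 / D : ℝ) : ℂ) * s))
    (hc : ContinuousOn (fun θ => L (sc (U / (U + D)) θ)) (Icc 0 Real.pi)) :
    (D = dLo lo up → Per U D L < 0) ∧ (D = dHi lo up → 0 < Per U D L) := by
  obtain ⟨a, b, c, d, e, f⟩ := h.bd
  have hU : 0 < U := by linarith
  have hD : 0 < D := by linarith
  have h0 : 0 < U / (U + D) := by linarith
  have h1 : U / (U + D) < 1 := by linarith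
  have est := per_est hU hD (k := -x * (D ^ 2 / U)) (m := -y * (U ^ 2 / D))
    (l := x2 * (D ^ 2 / U) ^ 2) (n := y2 * (U ^ 2 / D) ^ 2) (X1 := (x + h2 lo) * (D ^ 2 / U))
    (X2 := h2 lo * (D ^ 2 / U) ^ 2) (X3 := h3 lo * (D ^ 2 / U) ^ 3)
    (Y1 := (y + h2 up) * (U ^ 2 / D)) (Y2 := h2 up * (U ^ 2 / D) ^ 2)
    (Y3 := h3 up * (U ^ 2 / D) ^ 3) hc (by
      intro θ _ s hs
      obtain ⟨v1, v2⟩ := h.arg θ
      have s0 : s ≠ 0 := hs ▸ (sc_ne h0 h1 θ).1
      rw [← hs] at v1 v2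
      obtain ⟨a1, a2, a3, a4, a5, a6⟩ := App_cls hΛ fun _ => v1
      obtain ⟨b1, b2, b3, b4, b5, b6⟩ := App_cls hM v2
      have hα : 0 < D ^ 2 / U := by positivity
      have hβ : 0 < U ^ 2 / D := by positivity
      have hαβ : D ^ 2 / U * (U ^ 2 / D) = U * D := by field_simp
      have hLs := hL s
      generalize D ^ 2 / U = α at *
      generalize U ^ 2 / D = β at *
      have n0 := norm_pos_iff.2 s0
      have e1 : ‖(α : ℂ) / s‖ = α / ‖s‖ := by rw [norm_div, norm_real, Real.norm_of_nonneg hα.le]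
      have e2 : ‖(β : ℂ) * s‖ = β * ‖s‖ := by rw [norm_mul, norm_real, Real.norm_of_nonneg hβ.le]
      rw [e1] at a1 a2 a3 a4 v1
      rw [e2] at b1 b2 b3 b4 v2
      rw [hLs, mul_div_assoc, mul_div_assoc, mul_div_assoc, ← div_pow, ← div_pow, mul_assoc,
        mul_assoc, mul_assoc, ← mul_pow, ← mul_pow]
      refine ⟨le_trans (le_of_eq_of_le ?_ (norm_add_le _ _)) (add_le_add a1 b1),
        le_trans (le_of_eq_of_le ?_ (norm_add_le _ _)) (add_le_add a2 b2),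
        le_trans (norm_add_le _ _) (add_le_add a3 b3),
        le_trans (le_of_eq_of_le ?_ (norm_add_le _ _)) (add_le_add a4 b4), ?_⟩
      · congr 1
        push_cast
        ring
      · congr 1
        push_cast
        ring
      · rw [← norm_neg]
        congr 1
        push_cast
        ring
      · have p1 : 0 < α / ‖s‖ := by positivity
        have p2 : 0 < β * ‖s‖ := by positivity
        have p3 : α / ‖s‖ * (β * ‖s‖) = U * D := by rw [← hαβ]; field_simp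
        have q1 := mul_le_mul_of_nonneg_right a5 p1.le
        have q2 := mul_le_mul_of_nonneg_right b5 p2.le
        cases up
        · rw [b6 rfl]
          linarith
        · have v2 := v2 rfl
          have q3 : U * D ≤ 0.1 := by nlinarith
          nlinarith [mul_nonneg (sub_nonneg.2 v1) (sub_nonneg.2 v2)])
  obtain ⟨f1, f2⟩ := face lo up h.2 (xb_bd e f) hΛ.1 hM.1
  have e0p := e0_pos h0 h1
  change |Per U D L - e0 (U / (U + D)) * smain U D (xb (U / (U + D))) x x2 y y2| ≤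
    e0 (U / (U + D)) * serr lo up U D (xb (U / (U + D))) x y at est
  obtain ⟨g1, g2⟩ := abs_le.1 est
  constructor
  · intro hD'
    have := mul_pos e0p (neg_pos.2 (f1 hD'))
    linarith
  · intro hD'
    have := mul_pos e0p (f2 hD')
    linarith

end Pool.Agent.MP_92463a_gt
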