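import Pool.Agent.MP_92463a_gt.Alg

open Set Complex Filter Metric
open scoped Topology ComplexConjugate ContDiff Manifold

noncomputable section

namespace Pool.Agent.MP_92463a_gt

theorem Arc_re_pos {x s : ℝ} (h0 : 0 ≤ x) (h1 : x ≤ 1) (hs0 : 0 ≤ s) (hs : s < Real.pi) :
    0 < 1 + x * Real.cos s := by
  have h : -1 < Real.cos s := by
    rw [← Real.cos_pi]
    exact Real.cos_lt_cos_of_nonneg_of_le_pi hs0 le_rfl hs
  rcases le_or_gt 0 (Real.cos s) with hc | hc
  · positivity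
  · nlinarith

theorem Arc_arctan_le {x θ : ℝ} (h0 : 0 ≤ x) (h1 : x ≤ 1) (hθ : θ ∈ Ioo 0 Real.pi) :
    Real.arctan (x * Real.sin θ / (1 + x * Real.cos θ)) ≤ θ * (x / (1 + x)) := by
  have hd : ∀ s ∈ Icc 0 θ, HasDerivAt (fun s => Real.arctan (x * Real.sin s / (1 + x * Real.cos s)))
      ((x * Real.cos s + x ^ 2) / (1 + 2 * x * Real.cos s + x ^ 2)) s := by
    intro s hs
    have hp := Arc_re_pos h0 h1 hs.1 (hs.2.trans_lt hθ.2)
    have h2 := (((Real.hasDerivAt_sin s).const_mul x).fun_div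
      (((Real.hasDerivAt_cos s).const_mul x).const_add 1) hp.ne').arctan
    have h3 := Real.sin_sq_add_cos_sq s
    have h4 : (1 + x * Real.cos s) ^ 2 + (x * Real.sin s) ^ 2 = 1 + 2 * x * Real.cos s + x ^ 2 := by
      linear_combination x ^ 2 * h3
    have h5 : x * Real.cos s * (1 + x * Real.cos s) - x * Real.sin s * (x * -Real.sin s) =
        x * Real.cos s + x ^ 2 := by
      linear_combination x ^ 2 * h3
    convert h2 using 1
    rw [h5, ← h4]
    field_simp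
  obtain ⟨c, hc, e⟩ := exists_hasDerivAt_eq_slope _ _ hθ.1
    (fun s hs => (hd s hs).continuousAt.continuousWithinAt)
    (fun s hs => hd s (Ioo_subset_Icc_self hs))
  simp only [Real.sin_zero, mul_zero, zero_div, Real.arctan_zero, sub_zero] at e
  have hp := Arc_re_pos h0 h1 hc.1.le (hc.2.trans hθ.2)
  have h3 := Real.sin_sq_add_cos_sq c
  have h4 : 0 < 1 + 2 * x * Real.cos c + x ^ 2 := by
    have : (1 + x * Real.cos c) ^ 2 + (x * Real.sin c) ^ 2 = 1 + 2 * x * Real.cos c + x ^ 2 := by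
      linear_combination x ^ 2 * h3
    rw [← this]
    positivity
  rw [mul_comm θ, ← div_le_iff₀ hθ.1, ← e, div_le_div_iff₀ h4 (by linarith)]
  have h6 := mul_nonneg h0 (mul_nonneg (sub_nonneg.2 h1) (sub_nonneg.2 (Real.cos_le_one c)))
  nlinarith

theorem arg_one_add {x θ : ℝ} (h0 : 0 ≤ x) (h1 : x ≤ 1) (hθ : θ ∈ Ioo 0 Real.pi) :
    0 ≤ arg (1 + x * exp (θ * I)) ∧ arg (1 + x * exp (θ * I)) ≤ θ * (x / (1 + x)) := by
  have hre : (1 + x * exp (θ * I)).re = 1 + x * Real.cos θ := by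
    simp [exp_ofReal_mul_I_re]
  have him : (1 + x * exp (θ * I)).im = x * Real.sin θ := by
    simp [exp_ofReal_mul_I_im]
  have hp := Arc_re_pos h0 h1 hθ.1.le hθ.2
  constructor
  · rw [arg_nonneg_iff, him]
    exact mul_nonneg h0 (Real.sin_nonneg_of_nonneg_of_le_pi hθ.1.le hθ.2.le)
  · have h2 := abs_lt.1 (abs_arg_lt_pi_div_two_iff.2 (Or.inl (hre ▸ hp)))
    rw [← Real.arctan_tan h2.1 h2.2, tan_arg, hre, him]
    exact Arc_arctan_le h0 h1 hθ

theorem Arc_arg_eq {z : ℂ} (hz : 0 < z.im) :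
    arg z = Real.pi / 2 - Real.arctan (z.re / z.im) := by
  have h1 : 0 < arg z := lt_of_le_of_ne (arg_nonneg_iff.2 hz.le) fun h =>
    hz.ne' (arg_eq_zero_iff.1 h.symm).2
  have h2 : arg z < Real.pi := arg_lt_pi_iff.2 (Or.inr hz.ne')
  rw [← inv_div z.im, ← tan_arg, ← Real.tan_pi_div_two_sub,
    Real.arctan_tan (by linarith) (by linarith)]
  ring

theorem Arc_anti {z : ℂ} (hz : 0 < z.im) {c d : ℝ} (h : c ≤ d) : arg (z + d) ≤ arg (z + c) := by
  rw [Arc_arg_eq (z := z + d) (by simpa using hz), Arc_arg_eq (z := z + c) (by simpa using hz)]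
  simp only [add_re, ofReal_re, add_im, ofReal_im, add_zero]
  gcongr

theorem Arc_arg_polar {r θ : ℝ} (hr : 0 < r) (h1 : -Real.pi < θ) (h2 : θ ≤ Real.pi) :
    arg (r * exp (θ * I)) = θ := by
  rw [exp_mul_I]
  exact arg_mul_cos_add_sin_mul_I hr ⟨h1, h2⟩

theorem Arc_frac {y x : ℝ} (h0 : 0 ≤ y) (h : y ≤ x) : y / (1 + y) ≤ x / (1 + x) := by
  rw [div_le_div_iff₀ (by linarith) (by linarith)]
  nlinarith

theorem Arc_big {r b x θ : ℝ} (hr : 0 < r) (hb : 0 < b) (h : r / b ≤ x) (h1 : x ≤ 1)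
    (hθ : θ ∈ Ioo 0 Real.pi) : arg (r * exp (θ * I) + b) ≤ θ * (x / (1 + x)) := by
  have h0 : 0 ≤ r / b := by positivity
  have e : (r * exp (θ * I) + b : ℂ) = b * (1 + (r / b : ℝ) * exp (θ * I)) := by
    have : (b : ℂ) ≠ 0 := ofReal_ne_zero.2 hb.ne'
    push_cast
    field_simp
    ring
  rw [e, arg_real_mul _ hb]
  exact (arg_one_add h0 (h.trans h1) hθ).2.trans
    (mul_le_mul_of_nonneg_left (Arc_frac h0 h) hθ.1.le)

theorem Arc_small {r b x θ : ℝ} (hr : 0 < r) (hb : 0 < b) (h : b / r ≤ x) (h1 : x ≤ 1)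
    (hθ : θ ∈ Ioo 0 Real.pi) : θ - arg (r * exp (θ * I) + b) ≤ θ * (x / (1 + x)) := by
  have h0 : 0 ≤ b / r := by positivity
  obtain ⟨h2, h3⟩ := arg_one_add h0 (h.trans h1) hθ
  have h4 := h3.trans (mul_le_mul_of_nonneg_left (Arc_frac h0 h) hθ.1.le)
  have hre : (1 + (b / r : ℝ) * exp (θ * I)).re = 1 + b / r * Real.cos θ := by
    simp only [add_re, one_re, re_ofReal_mul, exp_ofReal_mul_I_re]
  have hne : (1 + (b / r : ℝ) * exp (θ * I)) ≠ 0 := fun h0' => by
    have := Arc_re_pos h0 (h.trans h1) hθ.1.le hθ.2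
    rw [← hre, h0'] at this
    simp at this
  have h5 := arg_le_pi (1 + (b / r : ℝ) * exp (θ * I))
  have h6 := congrArg conj (norm_mul_exp_arg_mul_I (1 + (b / r : ℝ) * exp (θ * I)))
  have h7 := norm_pos_iff.2 hne
  generalize arg (1 + (b / r : ℝ) * exp (θ * I)) = φ at h2 h3 h4 h5 h6
  generalize ‖(1 + (b / r : ℝ) * exp (θ * I) : ℂ)‖ = N at h6 h7
  simp only [map_mul, map_add, map_one, conj_ofReal, ← exp_conj, conj_I] at h6
  have e : (r * exp (θ * I) + b : ℂ) = (r * N : ℝ) * exp ((θ - φ : ℝ) * I) := by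
    have hr' : (r : ℂ) ≠ 0 := ofReal_ne_zero.2 hr.ne'
    have e1 : exp ((θ - φ : ℝ) * I) = exp (θ * I) * exp (φ * -I) := by
      rw [← exp_add]
      congr 1
      push_cast
      ring
    have e2 : exp (θ * I) * exp (θ * -I) = 1 := by
      rw [← exp_add]
      simp
    have e3 : (r : ℂ) * (b / r : ℝ) = b := by
      push_cast
      field_simp
    rw [e1]
    push_cast at h6 e3 ⊢
    linear_combination (-r * exp (θ * I)) * h6 - (r * (b / r)) * e2 - e3
  rw [e, Arc_arg_polar (mul_pos hr h7) (by linarith [hθ.1]) (by linarith [hθ.2])]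
  linarith

theorem Arc_sg_succ (j : ℕ) : sg (j + 1) = -sg j := by
  simp [sg, pow_succ]

theorem Arc_alt (n : ℕ) : ∀ (w : ℕ → ℝ) (M : ℝ), 0 ≤ M → (∀ j < n, 0 ≤ w j) → (∀ j < n, w j ≤ M) →
    (∀ i j, i ≤ j → j < n → w j ≤ w i) →
    0 ≤ ∑ j ∈ Finset.range n, sg j * w j ∧ ∑ j ∈ Finset.range n, sg j * w j ≤ M := by
  induction n with
  | zero => intro w M hM _ _ _; simpa using hM
  | succ n ih =>
    intro w M hM h0 h1 h2
    obtain ⟨h3, h4⟩ := ih (fun j => w (j + 1)) (w 0) (h0 0 (by omega))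
      (fun j hj => h0 _ (by omega)) (fun j hj => h2 0 _ (by omega) (by omega))
      (fun i j hij hj => h2 _ _ (by omega) (by omega))
    have h5 := h1 0 (by omega)
    rw [Finset.sum_range_succ']
    simp only [Arc_sg_succ, neg_mul, Finset.sum_neg_distrib]
    have h6 : sg 0 = 1 := by simp [sg]
    rw [h6, one_mul]
    constructor <;> linarith

theorem Arc_alt2 {u : ℕ → ℝ} {q k : ℕ} {θ L R : ℝ} (hk : k ≤ q) (hL : 0 ≤ L) (hR : 0 ≤ R)
    (h0 : ∀ j < q, 0 ≤ u j) (h1 : ∀ j < q, u j ≤ θ) (h2 : ∀ i j, i ≤ j → j < q → u j ≤ u i)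
    (h3 : ∀ j < k, θ - u j ≤ L) (h4 : ∀ j, k ≤ j → j < q → u j ≤ R) :
    (Even k → 0 ≤ ∑ j ∈ Finset.range q, sg j * u j ∧ ∑ j ∈ Finset.range q, sg j * u j ≤ L + R) ∧
    (¬ Even k → θ - (L + R) ≤ ∑ j ∈ Finset.range q, sg j * u j ∧
      ∑ j ∈ Finset.range q, sg j * u j ≤ θ) := by
  obtain ⟨n, rfl⟩ := Nat.exists_eq_add_of_le hk
  obtain ⟨a1, a2⟩ := Arc_alt k (fun j => u j - (θ - L)) L hL
    (fun j hj => by linarith [h3 j hj]) (fun j hj => by linarith [h1 j (by omega)])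
    (fun i j hij hj => by linarith [h2 i j hij (by omega)])
  obtain ⟨b1, b2⟩ := Arc_alt n (fun j => u (k + j)) R hR (fun j hj => h0 _ (by omega))
    (fun j hj => h4 _ (by omega) (by omega)) (fun i j hij hj => h2 _ _ (by omega) (by omega))
  have e1 : ∑ j ∈ Finset.range k, sg j = if Even k then 0 else 1 := neg_one_geom_sum
  have e2 : ∑ j ∈ Finset.range n, sg (k + j) * u (k + j) =
      sg k * ∑ j ∈ Finset.range n, sg j * u (k + j) := by
    rw [Finset.mul_sum]
    exact Finset.sum_congr rfl fun j _ => by simp only [sg, pow_add, mul_assoc]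
  simp only [mul_sub (sg _) (u _), Finset.sum_sub_distrib, ← Finset.sum_mul, e1] at a1 a2
  rw [Finset.sum_range_add, e2]
  constructor
  · intro he
    have e3 : sg k = 1 := he.neg_one_pow
    rw [if_pos he] at a1 a2
    rw [e3]
    constructor <;> linarith
  · intro he
    have e3 : sg k = -1 := (Nat.not_even_iff_odd.1 he).neg_one_pow
    rw [if_neg he] at a1 a2
    rw [e3]
    constructor <;> linarith

theorem Arc_two_thirds {x y : ℝ} (hx0 : 0 ≤ x) (hx1 : x ≤ 1) (hy0 : 0 ≤ y) (hy1 : y ≤ 1)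
    (h : x * y < 1 / 5) : x / (1 + x) + y / (1 + y) < 2 / 3 := by
  rw [div_add_div _ _ (by linarith) (by linarith), div_lt_div_iff₀ (by positivity) (by norm_num)]
  nlinarith [mul_nonneg (sub_nonneg.2 hx1) (sub_nonneg.2 hy1)]

theorem Arc_im_LG (D : Dat) (t : ℂ) : (D.LG t).im =
    -arg t / 2 + 3 / 2 * ∑ j ∈ Finset.range D.q, sg j * arg (t + D.b j) +
      1 / 2 * ∑ i ∈ Finset.range D.p, sg i * (Real.pi - arg (t - D.a i)) := by
  have e1 : ∀ j, ((sg j : ℂ) * (3 / 2) * log (t + D.b j)).im =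
      3 / 2 * (sg j * arg (t + D.b j)) := fun j => by
    rw [show (sg j : ℂ) * (3 / 2) = ((sg j * (3 / 2) : ℝ) : ℂ) by push_cast; rfl, im_ofReal_mul,
      log_im]
    ring
  have e2 : ∀ i, ((sg i : ℂ) * (1 / 2) * lm (D.a i) t).im =
      -(1 / 2 * (sg i * (Real.pi - arg (t - D.a i)))) := fun i => by
    rw [show (sg i : ℂ) * (1 / 2) = ((sg i * (1 / 2) : ℝ) : ℂ) by push_cast; rfl, im_ofReal_mul,
      lm, sub_im, log_im, im_ofReal_mul, I_im]
    ring
  rw [Dat.LG, sub_im, add_im, sub_im, im_sum, im_sum, ofReal_im, div_ofNat_im, log_im]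
  simp only [e1, e2, Finset.sum_neg_distrib, ← Finset.mul_sum]
  ring

theorem Dat.Ok.arc {D : Dat} (hD : D.Ok) {r : ℝ} (hr : 0 < r) :
    (∀ θ ∈ Ioo 0 Real.pi, 0 < (D.G (r * exp (θ * I))).re) ∨
    (∀ θ ∈ Ioo 0 Real.pi, 0 < (D.G (r * exp (θ * I))).im) := by
  classical
  have hmono : ∀ i j, i ≤ j → j < D.q → D.b i ≤ D.b j := by
    intro i j hij hj
    rcases hij.eq_or_lt with rfl | h
    · exact le_rfl
    · linarith [hD.b_gap i j h hj, hD.b_pos i (h.trans hj)]
  have hex : ∃ k, D.q ≤ k ∨ r < D.b k := ⟨D.q, Or.inl le_rfl⟩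
  obtain ⟨k, hk, hk1, hk2⟩ : ∃ k ≤ D.q, (∀ j < k, D.b j ≤ r) ∧
      ∀ j, k ≤ j → j < D.q → r < D.b j := by
    refine ⟨Nat.find hex, Nat.find_min' hex (Or.inl le_rfl), fun j hj => ?_, fun j hj hq => ?_⟩
    · exact not_lt.1 fun h => Nat.find_min hex hj (Or.inr h)
    · rcases Nat.find_spec hex with h | h
      · omega
      · exact h.trans_le (hmono _ _ hj hq)
  obtain ⟨x, y, hx0, hx1, hy0, hy1, hxy, hx, hy⟩ : ∃ x y : ℝ, 0 ≤ x ∧ x ≤ 1 ∧ 0 ≤ y ∧ y ≤ 1 ∧
      x * y < 1 / 5 ∧ (∀ j < k, D.b j / r ≤ x) ∧ ∀ j, k ≤ j → j < D.q → r / D.b j ≤ y := by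
    rcases hk.eq_or_lt with h | h
    · exact ⟨1, 0, zero_le_one, le_rfl, le_rfl, zero_le_one, by norm_num,
        fun j hj => (div_le_one hr).2 (hk1 j hj), fun j h1 h2 => by omega⟩
    · rcases k with _ | k
      · exact ⟨0, 1, le_rfl, zero_le_one, zero_le_one, le_rfl, by norm_num,
          fun j hj => by omega, fun j h1 h2 => (div_le_one (hD.b_pos j h2)).2 (hk2 j h1 h2).le⟩
      · have b1 := hD.b_pos k (by omega)
        have b2 := hD.b_pos _ h
        refine ⟨D.b k / r, r / D.b (k + 1), by positivity, (div_le_one hr).2 (hk1 k (by omega)),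
          by positivity, (div_le_one b2).2 (hk2 _ le_rfl h).le, ?_, fun j hj => ?_,
          fun j h1 h2 => ?_⟩
        · rw [div_mul_div_cancel₀ hr.ne', div_lt_div_iff₀ b2 (by norm_num)]
          linarith [hD.b_gap k (k + 1) (by omega) h]
        · exact div_le_div_of_nonneg_right (hmono j k (by omega) (by omega)) hr.le
        · exact div_le_div_of_nonneg_left hr.le b2 (hmono _ _ h1 h2)
  have h23 := Arc_two_thirds hx0 hx1 hy0 hy1 hxy
  have key : ∀ θ ∈ Ioo 0 Real.pi,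
      (Even k → -(Real.pi / 2) < (D.LG (r * exp (θ * I))).im ∧
        (D.LG (r * exp (θ * I))).im < Real.pi / 2) ∧
      (¬ Even k → 0 < (D.LG (r * exp (θ * I))).im ∧ (D.LG (r * exp (θ * I))).im < Real.pi) := by
    intro θ hθ
    have hπ := Real.pi_pos
    have harg : arg (r * exp (θ * I)) = θ := Arc_arg_polar hr (by linarith [hθ.1]) hθ.2.le
    have him : 0 < (r * exp (θ * I) : ℂ).im := by
      rw [im_ofReal_mul, exp_ofReal_mul_I_im]
      exact mul_pos hr (Real.sin_pos_of_pos_of_lt_pi hθ.1 hθ.2)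
    have hU := Arc_alt2 (u := fun j => arg (r * exp (θ * I) + D.b j)) (θ := θ) hk
      (L := θ * (x / (1 + x))) (R := θ * (y / (1 + y)))
      (mul_nonneg hθ.1.le (by positivity)) (mul_nonneg hθ.1.le (by positivity))
      (fun j _ => arg_nonneg_iff.2 (by simpa using him.le))
      (fun j hj => by simpa [harg] using Arc_anti him (hD.b_pos j hj).le)
      (fun i j hij hj => Arc_anti him (hmono i j hij hj))
      (fun j hj => Arc_small hr (hD.b_pos j (by omega)) (hx j hj) hx1 hθ)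
      (fun j h1 h2 => Arc_big hr (hD.b_pos j h2) (hy j h1 h2) hy1 hθ)
    have hsub : ∀ c : ℝ, (r * exp (θ * I) - c : ℂ) = r * exp (θ * I) + (-c : ℝ) := fun c => by
      push_cast
      ring
    obtain ⟨v1, v2⟩ := Arc_alt D.p (fun i => Real.pi - arg (r * exp (θ * I) - D.a i))
      (Real.pi - θ) (by linarith [hθ.2]) (fun i _ => sub_nonneg.2 (arg_le_pi _))
      (fun i hi => by
        have := Arc_anti him (neg_nonpos.2 (hD.a_pos i hi).le)
        rw [← hsub, ofReal_zero, add_zero, harg] at this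
        linarith)
      (fun i j hij hj => by
        have h1 : D.a i ≤ D.a j := by
          rcases hij.eq_or_lt with rfl | h
          · exact le_rfl
          · exact (hD.a_lt i j h hj).le
        have := Arc_anti him (neg_le_neg h1)
        rw [← hsub, ← hsub] at this
        linarith)
    have h5 := mul_lt_mul_of_pos_left h23 hθ.1
    rw [mul_add] at h5
    rw [Arc_im_LG, harg]
    refine ⟨fun he => ?_, fun he => ?_⟩
    · obtain ⟨u1, u2⟩ := hU.1 he
      constructor <;> linarith [hθ.2]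
    · obtain ⟨u1, u2⟩ := hU.2 he
      constructor <;> linarith [hθ.2]
  by_cases he : Even k
  · refine Or.inl fun θ hθ => ?_
    rw [Dat.G, exp_re]
    exact mul_pos (Real.exp_pos _) (Real.cos_pos_of_mem_Ioo ((key θ hθ).1 he))
  · refine Or.inr fun θ hθ => ?_
    rw [Dat.G, exp_im]
    exact mul_pos (Real.exp_pos _)
      (Real.sin_pos_of_pos_of_lt_pi ((key θ hθ).2 he).1 ((key θ hθ).2 he).2)

end Pool.Agent.MP_92463a_gt
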