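import Pool.Agent.MP_92463a_gt.Arc

open Set Complex Filter Metric
open scoped Topology ComplexConjugate ContDiff Manifold

noncomputable section

namespace Pool.Agent.MP_92463a_gt

theorem Arc2_im {r θ : ℝ} (hr : 0 < r) (hθ : θ ∈ Ioo 0 Real.pi) :
    0 < ((r : ℂ) * exp (θ * I)).im := by
  rw [im_ofReal_mul, exp_ofReal_mul_I_im]
  exact mul_pos hr (Real.sin_pos_of_pos_of_lt_pi hθ.1 hθ.2)

theorem Arc2_gam (r θ : ℝ) :
    HasDerivAt (fun s : ℝ => (r : ℂ) * exp (s * I)) ((r : ℂ) * exp (θ * I) * I) θ := by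
  have h : HasDerivAt (fun s : ℂ => (r : ℂ) * exp (s * I)) ((r : ℂ) * exp (θ * I) * I) θ := by
    have h1 := (((hasDerivAt_id (θ : ℂ)).mul_const I).cexp).const_mul (r : ℂ)
    simpa [mul_assoc] using h1
  exact h.comp_ofReal

theorem Arc2_wl {G t : ℂ} (hG : G ≠ 0) (ht : t ≠ 0) :
    wl (G / t) (G * t)⁻¹ (t * I) = I * G * ((1 + (normSq G)⁻¹ : ℝ) : ℂ) := by
  have hc : conj G ≠ 0 := by simpa using hG
  have e1 : G / t * (t * I) = G * I := by field_simp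
  have e2 : (G * t)⁻¹ * (t * I) = G⁻¹ * I := by field_simp
  rw [wl_apply, e1, e2, map_mul, map_inv₀, conj_I]
  push_cast
  rw [normSq_eq_conj_mul_self]
  field_simp
  ring

theorem Arc2_der {D : Dat} {X : ℂ → ℂ} (hX : D.Pre X) {r θ : ℝ} (hr : 0 < r)
    (hθ : θ ∈ Ioo 0 Real.pi) :
    HasDerivAt (fun s : ℝ => X ((r : ℂ) * exp (s * I)))
      (I * D.G (r * exp (θ * I)) * ((1 + (normSq (D.G (r * exp (θ * I))))⁻¹ : ℝ) : ℂ)) θ := by
  have him := Arc2_im hr hθ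
  have ht : (r : ℂ) * exp (θ * I) ≠ 0 := fun h => by simp [h] at him
  have h := (hX.der _ him).comp_hasDerivAt θ (Arc2_gam r θ)
  rwa [Arc2_wl (Dat.G_ne _) ht] at h

theorem Arc2_ne {D : Dat} {X : ℂ → ℂ} (hD : D.Ok) (hX : D.Pre X) {r α β : ℝ} (hr : 0 < r)
    (hα : 0 ≤ α) (hαβ : α < β) (hβ : β ≤ Real.pi) (h₁ : (r : ℂ) * exp (α * I) ∈ D.Q)
    (h₂ : (r : ℂ) * exp (β * I) ∈ D.Q) : X (r * exp (α * I)) ≠ X (r * exp (β * I)) := by
  intro he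
  have hin : ∀ θ ∈ Ioo α β, θ ∈ Ioo 0 Real.pi := fun θ h => ⟨hα.trans_lt h.1, h.2.trans_le hβ⟩
  have hc : ContinuousOn (fun s : ℝ => X ((r : ℂ) * exp (s * I))) (Icc α β) := by
    refine hX.cont.comp (by fun_prop) fun θ hθ => ?_
    rcases hθ.1.eq_or_lt with h | h
    · rw [← h]; exact h₁
    rcases hθ.2.eq_or_lt with h' | h'
    · rw [h']; exact h₂
    have him := Arc2_im hr (hin θ ⟨h, h'⟩)
    exact ⟨him.le, fun hE => Dat.ne_of_im him.ne' (Dat.P_eq_zero.2 (Or.inl hE))⟩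
  have hpos : ∀ G : ℂ, 0 < 1 + (normSq G)⁻¹ := fun G => by
    have := normSq_nonneg G
    positivity
  rcases hD.arc hr with h | h
  · obtain ⟨c, hc1, hc2⟩ := exists_hasDerivAt_eq_zero hαβ (continuous_im.comp_continuousOn hc)
      (congrArg im he) fun θ hθ =>
        imCLM.hasFDerivAt.comp_hasDerivAt θ (Arc2_der hX hr (hin θ hθ))
    have h1 := mul_pos (h c (hin c hc1)) (hpos (D.G (r * exp (c * I))))
    rw [imCLM_apply, im_mul_ofReal, I_mul_im] at hc2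
    exact h1.ne' hc2
  · obtain ⟨c, hc1, hc2⟩ := exists_hasDerivAt_eq_zero hαβ (continuous_re.comp_continuousOn hc)
      (congrArg re he) fun θ hθ =>
        reCLM.hasFDerivAt.comp_hasDerivAt θ (Arc2_der hX hr (hin θ hθ))
    have h1 := mul_pos (h c (hin c hc1)) (hpos (D.G (r * exp (c * I))))
    rw [reCLM_apply, re_mul_ofReal, I_mul_re, neg_mul, neg_eq_zero] at hc2
    exact h1.ne' hc2

theorem Dat.Pre.arc_inj {D : Dat} {X : ℂ → ℂ} (hD : D.Ok) (hX : D.Pre X) {t₁ t₂ : ℂ}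
    (h₁ : t₁ ∈ D.Q) (h₂ : t₂ ∈ D.Q) (hn : ‖t₁‖ = ‖t₂‖) (he : X t₁ = X t₂) : t₁ = t₂ := by
  have hr : 0 < ‖t₂‖ := norm_pos_iff.2 fun h => h₂.2 (Or.inl h)
  have e₁ : (‖t₂‖ : ℂ) * exp (arg t₁ * I) = t₁ := by
    rw [← hn]; exact norm_mul_exp_arg_mul_I t₁
  have e₂ : (‖t₂‖ : ℂ) * exp (arg t₂ * I) = t₂ := norm_mul_exp_arg_mul_I t₂
  have a₁ := arg_nonneg_iff.2 h₁.1
  have a₂ := arg_nonneg_iff.2 h₂.1
  rcases lt_trichotomy (arg t₁) (arg t₂) with h | h | h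
  · exact absurd (by rw [e₁, e₂]; exact he)
      (Arc2_ne hD hX hr a₁ h (arg_le_pi _) (by rw [e₁]; exact h₁) (by rw [e₂]; exact h₂))
  · rw [← e₁, h, e₂]
  · exact absurd (by rw [e₁, e₂]; exact he.symm)
      (Arc2_ne hD hX hr a₂ h (arg_le_pi _) (by rw [e₂]; exact h₂) (by rw [e₁]; exact h₁))

end Pool.Agent.MP_92463a_gt
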