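import Pool.Agent.MP_92463a_gt.Pl0

open Set Complex Filter Metric
open scoped Topology ComplexConjugate ContDiff Manifold

noncomputable section

namespace Pool.Agent.MP_92463a_gt

variable {R : ℝ} {f g : ℂ → ℂ}

theorem cau1_norm (hR : 0 ≤ R) (θ : ℝ) : ‖circleMap 0 R θ‖ = R := by
  simp [abs_of_nonneg hR]

theorem cau1_int (hR : 0 ≤ R) (hf : ContinuousOn f {v | ‖v‖ = R}) : CircleIntegrable f 0 R :=
  ContinuousOn.circleIntegrable hR (hf.mono fun v hv => by simpa using hv)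

theorem cau1_def : av R f = (2 * Real.pi)⁻¹ • ∫ θ in (0 : ℝ)..2 * Real.pi, f (circleMap 0 R θ) :=
  rfl

theorem cau1_sub (η : ℝ) :
    av R f = (2 * Real.pi)⁻¹ • ∫ θ in (0 : ℝ)..2 * Real.pi, f (circleMap 0 R (η - θ)) := by
  rw [cau1_def, intervalIntegral.integral_comp_sub_left (fun θ => f (circleMap 0 R θ))]
  have t : Function.Periodic (fun θ => f (circleMap 0 R θ)) (2 * Real.pi) :=
    fun x => by simp [periodic_circleMap 0 R x]
  have := t.intervalIntegral_add_eq (η - 2 * Real.pi) 0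
  simp only [sub_add_cancel, zero_add] at this
  simp only [sub_zero, this]

theorem cau1_circ (hR : R ≠ 0) :
    av R f = (2 * Real.pi * I)⁻¹ • ∮ z in C(0, R), (z - 0)⁻¹ • f z :=
  Real.circleAverage_eq_circleIntegral hR

theorem av_norm_le {M : ℝ} (hR : 0 ≤ R) (h : ∀ v, ‖v‖ = R → ‖f v‖ ≤ M) : ‖av R f‖ ≤ M := by
  have hp := Real.pi_pos
  have := intervalIntegral.norm_integral_le_of_norm_le_const (a := 0) (b := 2 * Real.pi)
    (f := fun θ => f (circleMap 0 R θ)) (C := M) fun θ _ => h _ (cau1_norm hR θ)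
  rw [sub_zero, abs_of_pos (by positivity)] at this
  rw [cau1_def, norm_smul, norm_inv, Real.norm_of_nonneg (by positivity),
    inv_mul_le_iff₀ (by positivity), mul_comm _ M]
  exact this

theorem av_congr (hR : 0 ≤ R) (h : ∀ v, ‖v‖ = R → f v = g v) : av R f = av R g := by
  simp only [cau1_def, h _ (cau1_norm hR _)]

theorem av_add (hR : 0 ≤ R) (hf : ContinuousOn f {v | ‖v‖ = R})
    (hg : ContinuousOn g {v | ‖v‖ = R}) : av R (fun v => f v + g v) = av R f + av R g :=
  Real.circleAverage_fun_add (cau1_int hR hf) (cau1_int hR hg)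

theorem av_sub (hR : 0 ≤ R) (hf : ContinuousOn f {v | ‖v‖ = R})
    (hg : ContinuousOn g {v | ‖v‖ = R}) : av R (fun v => f v - g v) = av R f - av R g :=
  Real.circleAverage_fun_sub (cau1_int hR hf) (cau1_int hR hg)

theorem av_sum {ι : Type} (s : Finset ι) {F : ι → ℂ → ℂ} (hR : 0 ≤ R)
    (hF : ∀ i ∈ s, ContinuousOn (F i) {v | ‖v‖ = R}) :
    av R (fun v => ∑ i ∈ s, F i v) = ∑ i ∈ s, av R (F i) :=
  Real.circleAverage_fun_sum fun i hi => cau1_int hR (hF i hi)

theorem av_const_mul (a : ℂ) : av R (fun v => a * f v) = a * av R f :=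
  Real.circleAverage_fun_smul (a := a)

theorem av_const (a : ℂ) : av R (fun _ => a) = a :=
  Real.circleAverage_const a 0 R

theorem av_conj : av R (fun v => conj (f (conj v))) = conj (av R f) := by
  have h : ∀ θ : ℝ, conj (circleMap 0 R θ) = circleMap 0 R (0 - θ) := fun θ => by
    simp [circleMap, ← exp_conj]
  have hp := Real.pi_pos
  rw [cau1_def, cau1_sub (f := f) 0]
  simp only [h]
  rw [intervalIntegral.integral_of_le (by positivity),
    intervalIntegral.integral_of_le (by positivity), integral_conj, real_smul, real_smul,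
    map_mul, conj_ofReal]

theorem av_inv {s : ℂ} (hs : s ≠ 0) (hR : 0 < R) :
    av R (fun v => f (s / v)) = av (‖s‖ / R) f := by
  have h : ∀ θ : ℝ, s / circleMap 0 R θ = circleMap 0 (‖s‖ / R) (arg s - θ) := fun θ => by
    have hR' : (R : ℂ) ≠ 0 := by exact_mod_cast hR.ne'
    simp only [circleMap, zero_add, ofReal_sub, ofReal_div, sub_mul, exp_sub]
    conv_lhs => rw [← norm_mul_exp_arg_mul_I s]
    field_simp
  rw [cau1_def, cau1_sub (f := f) (arg s)]
  simp only [h]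

theorem av_scale {s : ℂ} : av R (fun v => f (s * v)) = av (‖s‖ * R) f := by
  have h : ∀ θ : ℝ, s * circleMap 0 R θ = circleMap 0 (‖s‖ * R) (θ + arg s) := fun θ => by
    simp only [circleMap, zero_add, ofReal_add, ofReal_mul, add_mul, exp_add]
    conv_lhs => rw [← norm_mul_exp_arg_mul_I s]
    ring
  rw [cau1_def, av, Real.circleAverage_eq_integral_add (arg s)]
  simp only [h]

theorem cau1_radius {r₁ r₂ R' : ℝ} (h0 : 0 ≤ r₁)
    (hf : DifferentiableOn ℂ f {v | r₁ < ‖v‖ ∧ ‖v‖ < r₂}) (h1 : r₁ < R) (h : R ≤ R')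
    (h4 : R' < r₂) : av R f = av R' f := by
  have hR : 0 < R := h0.trans_lt h1
  have ho : IsOpen {v : ℂ | r₁ < ‖v‖ ∧ ‖v‖ < r₂} :=
    (isOpen_lt continuous_const continuous_norm).inter (isOpen_lt continuous_norm continuous_const)
  have hs : closedBall (0 : ℂ) R' \ ball 0 R ⊆ {v | r₁ < ‖v‖ ∧ ‖v‖ < r₂} := fun v hv => by
    simp only [Set.mem_sdiff, mem_closedBall_zero_iff, mem_ball_zero_iff, not_lt] at hv
    exact ⟨h1.trans_le hv.2, hv.1.trans_lt h4⟩
  rw [cau1_circ hR.ne', cau1_circ (hR.trans_le h).ne',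
    circleIntegral_sub_center_inv_smul_eq_of_differentiable_on_annulus_off_countable hR h
      countable_empty (hf.continuousOn.mono hs) fun z hz =>
        hf.differentiableAt (ho.mem_nhds (hs ⟨ball_subset_closedBall hz.1.1,
          fun h' => hz.1.2 (ball_subset_closedBall h')⟩))]

theorem av_radius {r₁ r₂ R' : ℝ} (h0 : 0 ≤ r₁)
    (hf : DifferentiableOn ℂ f {v | r₁ < ‖v‖ ∧ ‖v‖ < r₂}) (h1 : r₁ < R) (h2 : R < r₂)
    (h3 : r₁ < R') (h4 : R' < r₂) : av R f = av R' f := by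
  rcases le_total R R' with h | h
  · exact cau1_radius h0 hf h1 h h4
  · exact (cau1_radius h0 hf h3 h h2).symm

theorem cau1_dc {r : ℝ} (hr : R < r) (hf : DifferentiableOn ℂ f (ball 0 r)) :
    DiffContOnCl ℂ f (ball 0 R) :=
  hf.diffContOnCl_ball (closedBall_subset_ball hr)

theorem av_center {r : ℝ} (hR : 0 ≤ R) (hr : R < r) (hf : DifferentiableOn ℂ f (ball 0 r)) :
    av R f = f 0 :=
  DiffContOnCl.circleAverage (by rw [abs_of_nonneg hR]; exact cau1_dc hr hf)

theorem av_cauchy {r : ℝ} {u : ℂ} (hu : ‖u‖ < R) (hr : R < r)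
    (hf : DifferentiableOn ℂ f (ball 0 r)) : av R (fun v => f v * v / (v - u)) = f u := by
  have hR : 0 ≤ R := (norm_nonneg u).trans hu.le
  have := DiffContOnCl.circleAverage_smul_div (c := 0) (R := R) (f := f) (w := u)
    (by rw [abs_of_nonneg hR]; exact cau1_dc hr hf) (by simpa [abs_of_nonneg hR] using hu)
  rw [← this]
  refine av_congr hR fun v _ => ?_
  simp only [sub_zero, smul_eq_mul]
  ring

theorem av_deriv {r : ℝ} (hR : 0 < R) (hr : R < r) (hf : DifferentiableOn ℂ f (ball 0 r)) :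
    av R (fun v => f v / v) = deriv f 0 := by
  have h := (cau1_dc hr hf).deriv_eq_smul_circleIntegral hR
  have e : (fun z : ℂ => (z - 0)⁻¹ • (f z / z)) = fun z : ℂ => (1 / (z - 0) ^ 2) • f z := by
    funext z
    simp only [sub_zero, smul_eq_mul]
    ring
  rw [cau1_circ hR.ne', e, h, inv_smul_smul₀ two_pi_I_ne_zero]

theorem av_eq_integral :
    (∫ θ in (-Real.pi)..Real.pi, f (R * exp (θ * I))) = 2 * Real.pi * av R f := by
  have t : Function.Periodic (fun θ => f (circleMap 0 R θ)) (2 * Real.pi) :=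
    fun x => by simp [periodic_circleMap 0 R x]
  have := t.intervalIntegral_add_eq (-Real.pi) 0
  rw [zero_add, show -Real.pi + 2 * Real.pi = Real.pi by ring] at this
  have hp : (Real.pi : ℂ) ≠ 0 := by exact_mod_cast Real.pi_ne_zero
  rw [cau1_def, ← this]
  simp only [circleMap, zero_add, real_smul]
  push_cast
  rw [← mul_assoc, mul_inv_cancel₀ (mul_ne_zero two_ne_zero hp), one_mul]

theorem av_hasDerivAt {U : Set ℂ} (hR : 0 ≤ R) (hU : IsOpen U) {k k' : ℂ → ℂ → ℂ}
    (hc : ContinuousOn (fun z : ℂ × ℂ => k z.1 z.2) {z | ‖z.1‖ = R ∧ z.2 ∈ U})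
    (hc' : ContinuousOn (fun z : ℂ × ℂ => k' z.1 z.2) {z | ‖z.1‖ = R ∧ z.2 ∈ U})
    (hd : ∀ v, ‖v‖ = R → ∀ u ∈ U, HasDerivAt (k v) (k' v u) u) {u : ℂ} (hu : u ∈ U) :
    HasDerivAt (fun w => av R fun v => k v w) (av R fun v => k' v u) u := by
  obtain ⟨δ, hδ, hb⟩ := nhds_basis_closedBall.mem_iff.1 (hU.mem_nhds hu)
  have hK : IsCompact (sphere (0 : ℂ) R ×ˢ closedBall u δ) :=
    (isCompact_sphere 0 R).prod (isCompact_closedBall u δ)
  obtain ⟨M, hM⟩ := hK.exists_bound_of_continuousOn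
    (hc'.mono fun z hz => ⟨by simpa using hz.1, hb hz.2⟩)
  have cont : ∀ {l : ℂ → ℂ → ℂ},
      ContinuousOn (fun z : ℂ × ℂ => l z.1 z.2) {z | ‖z.1‖ = R ∧ z.2 ∈ U} → ∀ w ∈ U,
      Continuous fun θ : ℝ => l (circleMap 0 R θ) w := fun {l} hl w hw =>
    hl.comp_continuous (f := fun θ : ℝ => (circleMap 0 R θ, w)) (by fun_prop)
      fun θ => ⟨cau1_norm hR θ, hw⟩
  have h := intervalIntegral.hasDerivAt_integral_of_dominated_loc_of_deriv_le
    (μ := MeasureTheory.volume) (a := 0) (b := 2 * Real.pi) (𝕜 := ℂ)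
    (F := fun w θ => k (circleMap 0 R θ) w) (F' := fun w θ => k' (circleMap 0 R θ) w)
    (x₀ := u) (s := closedBall u δ) (bound := fun _ => M) (closedBall_mem_nhds u hδ)
    (by
      filter_upwards [hU.mem_nhds hu] with w hw
      exact (cont hc w hw).aestronglyMeasurable)
    ((cont hc u hu).intervalIntegrable _ _) (cont hc' u hu).aestronglyMeasurable
    (Eventually.of_forall fun θ _ w hw =>
      hM (circleMap 0 R θ, w) ⟨by simpa using cau1_norm hR θ, hw⟩)
    intervalIntegrable_const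
    (Eventually.of_forall fun θ _ w hw => hd _ (cau1_norm hR θ) w (hb hw))
  exact h.2.const_smul (2 * Real.pi)⁻¹

theorem cau1_contOn {T : Type} [TopologicalSpace T] [FirstCountableTopology T] {S : Set T}
    {r : T → ℝ} {k : T → ℂ → ℂ} (hr : ContinuousOn r S) (h0 : ∀ x ∈ S, 0 ≤ r x)
    (hk : ContinuousOn (fun z : T × ℂ => k z.1 z.2) {z | z.1 ∈ S ∧ ‖z.2‖ = r z.1}) :
    ContinuousOn (fun x => av (r x) (k x)) S := by
  rw [continuousOn_iff_continuous_domRestrict] at hr ⊢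
  have h1 : Continuous fun p : S × ℝ => r p.1.1 := hr.comp continuous_fst
  have h2 : Continuous fun p : S × ℝ => k p.1.1 (circleMap 0 (r p.1.1) p.2) :=
    hk.comp_continuous (f := fun p : S × ℝ => (p.1.1, circleMap 0 (r p.1.1) p.2))
      ((continuous_subtype_val.comp continuous_fst).prodMk
        (Real.circleMap.continuous.comp (h1.prodMk continuous_snd)))
      fun p => ⟨p.1.2, cau1_norm (h0 _ p.1.2) _⟩
  exact (intervalIntegral.continuous_parametric_intervalIntegral_of_continuous'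
    (μ := MeasureTheory.volume) (f := fun (x : S) (θ : ℝ) => k x.1 (circleMap 0 (r x.1) θ))
    h2 0 (2 * Real.pi)).const_smul (2 * Real.pi)⁻¹

theorem av_hol {U : Set ℂ} (hR : 0 ≤ R) (hU : IsOpen U) {k : ℂ → ℂ → ℂ}
    (hc : ContinuousOn (fun z : ℂ × ℂ => k z.1 z.2) {z | ‖z.1‖ = R ∧ z.2 ∈ U})
    (hd : ∀ v, ‖v‖ = R → DifferentiableOn ℂ (k v) U) :
    DifferentiableOn ℂ (fun w => av R fun v => k v w) U := by
  intro u hu
  obtain ⟨ε, hε, hb⟩ := Metric.isOpen_iff.1 hU u hu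
  have hδ : 0 < ε / 3 := by positivity
  have hin : ∀ x ∈ ball u (ε / 3), ∀ w : ℂ, ‖w‖ < 2 * (ε / 3) → x + w ∈ U := fun x hx w hw => by
    apply hb
    rw [mem_ball_iff_norm] at hx ⊢
    calc ‖x + w - u‖ = ‖(x - u) + w‖ := by ring_nf
      _ ≤ ‖x - u‖ + ‖w‖ := norm_add_le _ _
      _ < ε := by linarith
  have hsub : ball u (ε / 3) ⊆ U := fun x hx => by simpa using hin x hx 0 (by simpa using hε)
  have hc' : ContinuousOn (fun z : ℂ × ℂ => av (ε / 3) fun w => k z.1 (z.2 + w) / w)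
      {z | ‖z.1‖ = R ∧ z.2 ∈ ball u (ε / 3)} := by
    refine cau1_contOn (T := ℂ × ℂ) (r := fun _ => ε / 3) (k := fun z w => k z.1 (z.2 + w) / w)
      continuousOn_const (fun _ _ => hδ.le) (ContinuousOn.div ?_ continuousOn_snd ?_)
    · exact hc.comp (f := fun z : (ℂ × ℂ) × ℂ => (z.1.1, z.1.2 + z.2)) (by fun_prop)
        fun z hz => ⟨hz.1.1, hin _ hz.1.2 _ (by rw [hz.2]; linarith)⟩
    · intro z hz h
      have := hz.2
      rw [h, norm_zero] at this
      linarith
  refine (av_hasDerivAt hR isOpen_ball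
    (k' := fun v x => av (ε / 3) fun w => k v (x + w) / w)
    (hc.mono fun z hz => ⟨hz.1, hsub hz.2⟩) hc' (fun v hv x hx => ?_)
    (mem_ball_self hδ)).differentiableAt.differentiableWithinAt
  have h1 : DifferentiableOn ℂ (fun w => k v (x + w)) (ball 0 (2 * (ε / 3))) :=
    (hd v hv).comp (by fun_prop) fun w hw => hin x hx w (by simpa using hw)
  rw [av_deriv hδ (by linarith) h1, deriv_comp_const_add, add_zero]
  exact ((hd v hv).differentiableAt (hU.mem_nhds (hsub hx))).hasDerivAt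

theorem av_contOn {T : Type} [TopologicalSpace T] [FirstCountableTopology T] {S : Set T}
    {r : T → ℝ} {k : T → ℂ → ℂ} (hr : ContinuousOn r S) (h0 : ∀ x ∈ S, 0 ≤ r x)
    (hk : ContinuousOn (fun z : T × ℂ => k z.1 z.2) {z | z.1 ∈ S ∧ ‖z.2‖ = r z.1}) :
    ContinuousOn (fun x => av (r x) (k x)) S :=
  cau1_contOn hr h0 hk

end Pool.Agent.MP_92463a_gt
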