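import Pool.Agent.MP_92463a_gt.Cau1

open Set Complex Filter Metric
open scoped Topology ComplexConjugate ContDiff Manifold

noncomputable section

namespace Pool.Agent.MP_92463a_gt

theorem Cau2_mid {a b c x : ℝ} (h1 : a < b) (h2 : a * x < c) :
    ∃ y, a < y ∧ y < b ∧ y * x < c := by
  have e1 : ∀ᶠ y in 𝓝 a, y < b := Iio_mem_nhds h1
  have e2 : ∀ᶠ y in 𝓝 a, y * x < c :=
    (continuous_id.mul continuous_const).continuousAt.eventually_lt continuousAt_const h2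
  have e3 : ∀ᶠ y in 𝓝[>] a, a < y ∧ y < b ∧ y * x < c :=
    (eventually_mem_nhdsWithin (a := a) (s := Ioi a)).and ((e1.and e2).filter_mono nhdsWithin_le_nhds)
  exact e3.exists

theorem Cau2_ne {u v s : ℂ} {r : ℝ} (hv : ‖v‖ ≤ r) (h : r * ‖u‖ < ‖s‖) : u * v - s ≠ 0 := by
  intro h0
  rw [sub_eq_zero] at h0
  rw [← h0, norm_mul, mul_comm] at h
  exact absurd h (not_lt.2 (mul_le_mul_of_nonneg_left hv (norm_nonneg u)))

theorem Cau2_open (r₁ r₂ : ℝ) : IsOpen {v : ℂ | r₁ < ‖v‖ ∧ ‖v‖ < r₂} :=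
  (isOpen_lt continuous_const continuous_norm).inter (isOpen_lt continuous_norm continuous_const)

/-- the Cauchy formula on an annulus -/
theorem Cau2_ann {k : ℂ → ℂ} {w : ℂ} {r₁ r₂ r R : ℝ} (h0 : 0 < r₁) (h1 : r₁ < r) (h2 : r < ‖w‖)
    (h3 : ‖w‖ < R) (h4 : R < r₂) (hk : DifferentiableOn ℂ k {v | r₁ < ‖v‖ ∧ ‖v‖ < r₂}) :
    av R (fun v => k v * v / (v - w)) = k w + av r fun v => k v * v / (v - w) := by
  have hw : w ∈ {v : ℂ | r₁ < ‖v‖ ∧ ‖v‖ < r₂} := ⟨h1.trans h2, h3.trans h4⟩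
  have hφ : DifferentiableOn ℂ (fun v => dslope k w v * v) {v | r₁ < ‖v‖ ∧ ‖v‖ < r₂} :=
    ((differentiableOn_dslope ((Cau2_open r₁ r₂).mem_nhds hw)).2 hk).mul differentiableOn_id
  have key : ∀ t, r₁ < t → t < r₂ → t ≠ ‖w‖ → av t (fun v => k v * v / (v - w)) =
      av t (fun v => dslope k w v * v) + k w * av t fun v => 1 * v / (v - w) := by
    intro t t1 t2 t3
    have hne : ∀ v : ℂ, ‖v‖ = t → v - w ≠ 0 := fun v hv h => t3 (by rw [← hv, sub_eq_zero.1 h])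
    rw [← av_const_mul, ← av_add (h0.trans t1).le]
    · refine av_congr (h0.trans t1).le fun v hv => ?_
      have := hne v hv
      rw [dslope_of_ne _ (sub_ne_zero.1 this), slope_def_field]
      field_simp
      ring
    · exact hφ.continuousOn.mono fun v hv => ⟨by rw [show ‖v‖ = t from hv]; exact t1,
        by rw [show ‖v‖ = t from hv]; exact t2⟩
    · exact continuousOn_const.mul ((continuousOn_const.mul continuousOn_id).div
        (continuousOn_id.sub continuousOn_const) hne)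
  rw [key R (by linarith) h4 h3.ne', key r h1 (by linarith) h2.ne,
    av_radius h0.le hφ (by linarith : r₁ < R) h4 h1 (by linarith),
    av_cauchy (f := fun _ => 1) h3 h4 (differentiableOn_const _),
    av_center (by linarith) h2 (f := fun v => 1 * v / (v - w))
      (((differentiableOn_const _).mul differentiableOn_id).div
        (differentiableOn_id.sub (differentiableOn_const _)) fun v hv h => by
          rw [sub_eq_zero.1 h] at hv
          simp at hv)]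
  simp [add_comm]

theorem laurent {k : ℂ → ℂ} {s : ℂ} {r₁ r₂ R : ℝ} (hs : s ≠ 0) (h0 : 0 < r₁) (h1 : r₁ < R)
    (h2 : R < r₂) (hk : DifferentiableOn ℂ k {v | r₁ < ‖v‖ ∧ ‖v‖ < r₂}) :
    ∃ h : ℂ → ℂ, DifferentiableOn ℂ h (ball 0 (‖s‖ / r₁)) ∧ ∀ u : ℂ, ‖s‖ / R < ‖u‖ →
      ‖u‖ < ‖s‖ / r₁ → k (s / u) / u = h u + av R fun v => k v / (u - s / v) := by
  have hex : ∀ u : ℂ, ∃ r : ℝ, ‖u‖ < ‖s‖ / r₁ → r₁ < r ∧ r < R ∧ r * ‖u‖ < ‖s‖ := by
    intro u
    by_cases hu : ‖u‖ < ‖s‖ / r₁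
    · obtain ⟨y, hy⟩ := Cau2_mid h1 (show r₁ * ‖u‖ < ‖s‖ by rwa [lt_div_iff₀' h0] at hu)
      exact ⟨y, fun _ => hy⟩
    · exact ⟨0, fun h => absurd h hu⟩
  choose ρ hρ using hex
  have hind : ∀ (u : ℂ) (a b : ℝ), r₁ < a → a < R → a * ‖u‖ < ‖s‖ → r₁ < b → b < R →
      b * ‖u‖ < ‖s‖ → av a (fun v => k v * v / (u * v - s)) =
        av b fun v => k v * v / (u * v - s) := by
    intro u a b a1 a2 a3 b1 b2 b3
    obtain ⟨y, y1, y2, y3⟩ := Cau2_mid (max_lt a2 b2) (show max a b * ‖u‖ < ‖s‖ by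
      rcases max_choice a b with h | h <;> rw [h] <;> assumption)
    refine av_radius (r₂ := y) h0.le ?_ a1 ((le_max_left a b).trans_lt y1) b1
      ((le_max_right a b).trans_lt y1)
    exact ((hk.mono fun v hv => ⟨hv.1, hv.2.trans (y2.trans h2)⟩).mul differentiableOn_id).div
      (by fun_prop) fun v hv => Cau2_ne hv.2.le y3
  refine ⟨fun u => -av (ρ u) fun v => k v * v / (u * v - s), fun u₀ hu₀ => ?_, fun u u1 u2 => ?_⟩
  · obtain ⟨a1, a2, a3⟩ := hρ u₀ (mem_ball_zero_iff.1 hu₀)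
    have hU : IsOpen {u : ℂ | ρ u₀ * ‖u‖ < ‖s‖} := isOpen_lt (by fun_prop) continuous_const
    have hd := av_hol (R := ρ u₀) (k := fun v u => k v * v / (u * v - s)) (h0.trans a1).le hU
      (((hk.continuousOn.comp continuousOn_fst fun z hz => ⟨by rw [hz.1]; exact a1,
        by rw [hz.1]; exact a2.trans h2⟩).mul continuousOn_fst).div (by fun_prop)
        fun z hz => Cau2_ne hz.1.le hz.2)
      fun v hv => (differentiableOn_const _).div (by fun_prop) fun u hu => Cau2_ne hv.le hu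
    refine ((hd.differentiableAt (hU.mem_nhds a3)).neg.congr_of_eventuallyEq
      ?_).differentiableWithinAt
    filter_upwards [hU.mem_nhds a3, isOpen_ball.mem_nhds hu₀] with u hu hu'
    obtain ⟨b1, b2, b3⟩ := hρ u (mem_ball_zero_iff.1 hu')
    exact congrArg Neg.neg (hind u _ _ b1 b2 b3 a1 a2 hu)
  · obtain ⟨a1, a2, a3⟩ := hρ u u2
    have hR : 0 < R := h0.trans h1
    have hu : 0 < ‖u‖ := (div_pos (norm_pos_iff.2 hs) hR).trans u1
    have hu0 : u ≠ 0 := norm_pos_iff.1 hu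
    have e1 : ∀ v : ℂ, k v * v / (u * v - s) = u⁻¹ * (k v * v / (v - s / u)) := fun v => by
      rw [show u * v - s = u * (v - s / u) by field_simp, div_mul_eq_div_div_swap, div_eq_inv_mul]
    have e2 : av R (fun v => k v / (u - s / v)) =
        av R fun v => u⁻¹ * (k v * v / (v - s / u)) := by
      refine av_congr hR.le fun v hv => ?_
      have hv0 : v ≠ 0 := norm_pos_iff.1 (by rw [hv]; exact hR)
      rw [← e1, show u - s / v = (u * v - s) / v by field_simp, div_div_eq_mul_div]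
    simp only [e1]
    rw [e2, av_const_mul, av_const_mul, Cau2_ann h0 a1 (by rwa [norm_div, lt_div_iff₀ hu])
      (by rwa [norm_div, div_lt_iff₀ hu, ← div_lt_iff₀' hR]) h2 hk]
    ring

theorem liouville_glue {D₁ D₂ : ℂ → ℂ} {ρ₁ ρ₂ : ℝ} {s a : ℂ} {d : ℕ} (hd : 0 < d) (hρ₂ : 0 < ρ₂)
    (hs : s ≠ 0) (hlt : ‖s‖ < ρ₁ * ρ₂) (h₁ : DifferentiableOn ℂ D₁ (ball 0 ρ₁))
    (h₂ : DifferentiableOn ℂ D₂ (ball 0 ρ₂))
    (h : ∀ v : ℂ, ‖s‖ / ρ₂ < ‖v‖ → ‖v‖ < ρ₁ → D₁ v = a / v ^ d * D₂ (s / v)) :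
    ∀ v ∈ ball (0 : ℂ) ρ₁, D₁ v = 0 := by
  classical
  have h0 : 0 < ‖s‖ / ρ₂ := div_pos (norm_pos_iff.2 hs) hρ₂
  have h3 : ‖s‖ / ρ₂ < ρ₁ := (div_lt_iff₀ hρ₂).2 hlt
  obtain ⟨F, hF1, hF2⟩ : ∃ F : ℂ → ℂ, (∀ v, ‖v‖ < ρ₁ → F v = D₁ v) ∧
      ∀ v, ‖s‖ / ρ₂ < ‖v‖ → F v = a / v ^ d * D₂ (s / v) := by
    refine ⟨fun v => if ‖v‖ < ρ₁ then D₁ v else a / v ^ d * D₂ (s / v), fun v hv => if_pos hv,
      fun v hv => ?_⟩
    by_cases h4 : ‖v‖ < ρ₁
    · exact (if_pos h4).trans (h v hv h4)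
    · exact if_neg h4
  have hdiff : Differentiable ℂ F := by
    intro v
    by_cases h4 : ‖v‖ < ρ₁
    · have hm : ball (0 : ℂ) ρ₁ ∈ 𝓝 v := isOpen_ball.mem_nhds (mem_ball_zero_iff.2 h4)
      refine (h₁.differentiableAt hm).congr_of_eventuallyEq ?_
      filter_upwards [hm] with x hx using hF1 x (mem_ball_zero_iff.1 hx)
    · have h5 : ‖s‖ / ρ₂ < ‖v‖ := h3.trans_le (not_lt.1 h4)
      have hv : 0 < ‖v‖ := h0.trans h5
      have hv0 : v ≠ 0 := norm_pos_iff.1 hv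
      have h6 : DifferentiableAt ℂ D₂ (s / v) := h₂.differentiableAt (isOpen_ball.mem_nhds
        (mem_ball_zero_iff.2 (by rwa [norm_div, div_lt_iff₀ hv, ← div_lt_iff₀' hρ₂])))
      have h7 : DifferentiableAt ℂ (fun x : ℂ => a / x ^ d * D₂ (s / x)) v :=
        (DifferentiableAt.div (c := fun _ => a) (d := fun x : ℂ => x ^ d) (by fun_prop)
          (by fun_prop) (pow_ne_zero d hv0)).mul
          (h6.comp v ((differentiableAt_const s).div differentiableAt_id hv0))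
      refine h7.congr_of_eventuallyEq ?_
      filter_upwards [(isOpen_lt continuous_const continuous_norm).mem_nhds h5] with x hx
        using hF2 x hx
  have hi : Tendsto (fun x : ℂ => x⁻¹) (cocompact ℂ) (𝓝 0) := by
    rw [← cobounded_eq_cocompact]; exact tendsto_inv₀_cobounded
  have ht : Tendsto F (cocompact ℂ) (𝓝 0) := by
    have hc : ContinuousAt D₂ (s * 0) := by
      rw [mul_zero]
      exact (h₂.differentiableAt (ball_mem_nhds 0 hρ₂)).continuousAt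
    have h8 := ((hi.pow d).const_mul a).mul (hc.tendsto.comp (hi.const_mul s))
    rw [zero_pow hd.ne', mul_zero, zero_mul] at h8
    refine h8.congr' ?_
    filter_upwards [(tendsto_norm_cocompact_atTop (E := ℂ)).eventually_gt_atTop (‖s‖ / ρ₂)] with x hx
    rw [hF2 x hx, div_eq_mul_inv, div_eq_mul_inv, inv_pow]
    rfl
  intro v hv
  rw [← hF1 v (mem_ball_zero_iff.1 hv)]
  exact hdiff.apply_eq_of_tendsto_cocompact v ht

/-- a function holomorphic near infinity with a limit is holomorphic in `1 / t` -/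
theorem hol_infty {f : ℂ → ℂ} {a : ℂ} {R : ℝ} (hf : DifferentiableOn ℂ f {t | R < ‖t‖})
    (ha : Tendsto f (Bornology.cobounded ℂ) (𝓝 a)) :
    ∃ δ > 0, ∃ h : ℂ → ℂ, DifferentiableOn ℂ h (ball 0 δ) ∧ h 0 = a ∧
      ∀ s ∈ ball (0 : ℂ) δ, s ≠ 0 → h s = f s⁻¹ := by
  have hp : 0 < |R| + 1 := by positivity
  refine ⟨(|R| + 1)⁻¹, inv_pos.2 hp, Function.update (fun s => f s⁻¹) 0 a, ?_,
    Function.update_self .., fun s _ hs => Function.update_of_ne hs ..⟩
  rw [← differentiableOn_compl_singleton_and_continuousAt_iff (ball_mem_nhds 0 (inv_pos.2 hp))]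
  refine ⟨?_, continuousAt_update_same.2 (ha.comp tendsto_inv₀_nhdsNE_zero)⟩
  refine DifferentiableOn.congr (f := fun s => f s⁻¹) ?_ fun s hs => Function.update_of_ne hs.2 ..
  refine hf.comp (differentiableOn_id.inv fun s hs => hs.2) fun s hs => ?_
  have h1 : 0 < ‖s‖ := norm_pos_iff.2 hs.2
  have h2 := mem_ball_zero_iff.1 hs.1
  show R < ‖s⁻¹‖
  rw [norm_inv]
  rw [lt_inv_comm₀ h1 hp] at h2
  linarith [le_abs_self R]

/-- extension over finitely many discs -/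
theorem fill_discs {ι : Type} [Fintype ι] {V : Set ℂ} (hV : IsOpen V) {c : ι → ℂ} {r ρ : ι → ℝ}
    (hr : ∀ e, r e < ρ e) (hsep : ∀ e e', e ≠ e' → ρ e + ρ e' ≤ ‖c e - c e'‖) {f : ℂ → ℂ}
    (hf : DifferentiableOn ℂ f (V ∩ {t | ∀ e, r e < ‖t - c e‖})) {h : ι → ℂ → ℂ}
    (hh : ∀ e, DifferentiableOn ℂ (h e) (ball 0 (ρ e)))
    (he : ∀ e v, r e < ‖v‖ → ‖v‖ < ρ e → c e + v ∈ V → f (c e + v) = h e v) :
    ∃ F : ℂ → ℂ, DifferentiableOn ℂ F V ∧ ∀ t ∈ V, (∀ e, r e < ‖t - c e‖) → F t = f t := by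
  classical
  obtain ⟨F, hF1, hF2⟩ : ∃ F : ℂ → ℂ, (∀ e t, ‖t - c e‖ < ρ e → F t = h e (t - c e)) ∧
      ∀ t, (∀ e, ρ e ≤ ‖t - c e‖) → F t = f t := by
    refine ⟨fun t => if H : ∃ e, ‖t - c e‖ < ρ e then h H.choose (t - c H.choose) else f t,
      fun e t ht => ?_, fun t ht => dif_neg fun ⟨e, h1⟩ => absurd h1 (not_lt.2 (ht e))⟩
    have H : ∃ e, ‖t - c e‖ < ρ e := ⟨e, ht⟩
    have h1 : H.choose = e := by
      by_contra hne
      have h2 := hsep _ _ hne
      have h3 := H.choose_spec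
      have h4 := norm_sub_le (t - c e) (t - c H.choose)
      rw [sub_sub_sub_cancel_left] at h4
      linarith
    simp only [dif_pos H, h1]
  have hF3 : ∀ t ∈ V, (∀ e, r e < ‖t - c e‖) → F t = f t := by
    intro t ht h1
    by_cases H : ∃ e, ‖t - c e‖ < ρ e
    · obtain ⟨e, h2⟩ := H
      rw [hF1 e t h2, ← he e _ (h1 e) h2 (by simpa using ht), add_sub_cancel]
    · exact hF2 t fun e => not_lt.1 fun h2 => H ⟨e, h2⟩
  refine ⟨F, fun t ht => DifferentiableAt.differentiableWithinAt ?_, hF3⟩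
  by_cases H : ∃ e, ‖t - c e‖ < ρ e
  · obtain ⟨e, h2⟩ := H
    have h3 : DifferentiableAt ℂ (fun x => h e (x - c e)) t :=
      ((hh e).differentiableAt (isOpen_ball.mem_nhds (mem_ball_zero_iff.2 h2))).comp t
        (f := fun x => x - c e) (by fun_prop)
    refine h3.congr_of_eventuallyEq ?_
    filter_upwards [(isOpen_lt (f := fun x : ℂ => ‖x - c e‖) (by fun_prop)
      continuous_const).mem_nhds h2] with x hx using hF1 e x hx
  · have hW : IsOpen (V ∩ {t | ∀ e, r e < ‖t - c e‖}) := by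
      refine hV.inter ?_
      rw [ofPred_forall]
      exact isOpen_iInter_of_finite fun e => isOpen_lt continuous_const (by fun_prop)
    have hm := hW.mem_nhds ⟨ht, fun e => (hr e).trans_le (not_lt.1 fun h2 => H ⟨e, h2⟩)⟩
    refine (hf.differentiableAt hm).congr_of_eventuallyEq ?_
    filter_upwards [hm] with x hx using hF3 x hx.1 hx.2

end Pool.Agent.MP_92463a_gt
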