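import Pool.Agent.MP_92463a_gt.Wd0

open Set Complex Filter Metric
open scoped Topology ComplexConjugate ContDiff Manifold

noncomputable section

namespace Pool.Agent.MP_92463a_gt

/-! A ring of `γ` necks between the planar ends `-b 0` and `-b 1`. -/

namespace Dat

variable (D : Dat)

/-- near `-b j` the Gauss map is `exp (A j + i ph + sg j (3/2) log τ + lam j τ)`, `τ = t + b j` -/
def A (j : ℕ) : ℝ :=
  Real.log D.ρ - Real.log (D.b j) / 2 +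
    ∑ i ∈ (Finset.range D.q).erase j, sg i * (3 / 2) * Real.log |D.b i - D.b j| -
    ∑ i ∈ Finset.range D.p, sg i * (1 / 2) * Real.log (D.a i + D.b j)

def lam (j : ℕ) (τ : ℂ) : ℂ :=
  -log (1 - τ / D.b j) / 2 +
    ∑ i ∈ (Finset.range D.q).erase j, sg i * (3 / 2) * log (1 + τ / (D.b i - D.b j)) -
    ∑ i ∈ Finset.range D.p, sg i * (1 / 2) * log (1 - τ / (D.a i + D.b j))

end Dat

/-- the phase of the Gauss map to the right of `-b j` -/
def ph (j : ℕ) : ℝ := if Even j then -(Real.pi / 2) else Real.pi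

/-- the index of the end at which a port sits -/
def jj (b : Bool) : ℕ := if b then 1 else 0

/-- positions, sizes, phases and shifts of the necks -/
abbrev Zs (γ : ℕ) : Type := (Fin γ → ℂ) × (Fin γ → ℝ) × (Fin γ → ℝ) × (Fin γ → ℂ)

namespace Zs

variable {γ : ℕ} (z : Zs γ)

def mean : ℂ := (∑ k, z.1 k) / γ

def ξ (k : Fin γ) : ℂ := z.1 k - z.mean

def eh (k : Fin γ) : ℂ := 1 + z.2.1 k + I * z.2.2.1 k

/-- the reflection -/
def rf : Zs γ :=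
  (fun k => conj (z.1 k.rev), fun k => z.2.1 k.rev, fun k => -z.2.2.1 k.rev,
    fun k => conj (z.2.2.2 k.rev))

end Zs

def ang (γ : ℕ) (k : Fin γ) : ℝ := (2 * (k : ℕ) + 1 - γ) * Real.pi / γ

/-- normalised positions of the ports -/
def Zs.lu {γ : ℕ} (z : Zs γ) : Fin γ × Bool → ℂ
  | (k, false) => I * ang γ k + z.ξ k
  | (k, true) => I * (Real.pi - ang γ k) + conj (z.ξ k) + z.2.2.2 k

/-- the force on the port `e` from the other ports of the same sheet and from itself -/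
def Zs.fc {γ : ℕ} (z : Zs γ) (e : Fin γ × Bool) : ℂ :=
  ∑ j ∈ Finset.univ.erase e.1, z.eh j * exp (z.lu e) / (exp (z.lu e) - exp (z.lu (j, e.2))) +
    3 / 4 * z.eh e.1

/-- the limit of the equations -/
def Zs.lim {γ : ℕ} (z : Zs γ) : Zs γ :=
  (fun k => z.eh k * (-(γ + 1 / 2 + z.mean.re) + z.fc (k, false)) +
      conj (exp (z.2.2.2 k / 2) * z.eh k * z.fc (k, true)) + I * z.mean.im,
    fun k => z.mean.re - 2 * ∑ j, z.2.1 j - z.2.1 k,
    z.2.2.1,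
    fun k => exp (-z.2.2.2 k / 2) - 1)

/-- the symmetric function with given values on the upper necks -/
def sy {γ : ℕ} (f : Fin γ → ℂ) (k : Fin γ) : ℂ :=
  if γ ≤ 2 * (k : ℕ) + 1 then f k else conj (f k.rev)

structure Cfg (γ : ℕ) where
  D : Dat
  L : ℝ
  z : Zs γ

namespace Cfg

variable {γ : ℕ} (C : Cfg γ)

def E : ℝ := Real.log (C.D.b 1 / C.D.b 0) / (2 * γ + 1)

/-- logarithm of the ratio of the radii of the two rings of ports -/
def lk (b : Bool) : ℝ :=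
  if b then 2 * (C.D.A 0 + C.D.A 1 + Real.log (C.D.b 0) - Real.log (C.D.b 1)) else 0

def lg (e : Fin γ × Bool) : ℂ := ((-2 * C.L + C.lk e.2 : ℝ) : ℂ) + C.z.lu e

def τ (e : Fin γ × Bool) : ℂ := exp (C.lg e)

def bb (b : Bool) : ℝ := C.D.b (jj b)

def c (e : Fin γ × Bool) : ℂ := -C.bb e.2 + C.τ e

def Res (k : Fin γ) : ℂ := ((C.D.b 0 * (C.E / C.L) : ℝ) : ℂ) * C.z.eh k

def vs (k : Fin γ) : ℂ :=
  C.Res k * exp (-(Real.pi / 4) * I + ((C.D.A 0 - C.D.A 1) / 2 : ℝ) +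
    (C.lg (k, false) + C.lg (k, true)) / 4 +
    (C.D.lam 0 (C.τ (k, false)) - C.D.lam 1 (C.τ (k, true))) / 2 +
    (log (-C.c (k, true)) - log (-C.c (k, false))) / 2)

def pl : Pl (Fin γ) where
  c := C.c
  ρ e := ‖C.τ e‖ / (16 * γ)
  s k := C.τ (k, false) * C.τ (k, true) * C.vs k ^ 2

/-- variation of the logarithm of the Gauss map near the port `e` -/
def dG (e : Fin γ × Bool) (v : ℂ) : ℂ :=
  sg (jj e.2) * (3 / 2) * log (1 + v / C.τ e) +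
    (C.D.lam (jj e.2) (C.τ e + v) - C.D.lam (jj e.2) (C.τ e))

/-- the Gauss map near the port `e` -/
def Ge (e : Fin γ × Bool) (v : ℂ) : ℂ :=
  exp (C.D.A (jj e.2) + ph (jj e.2) * I + sg (jj e.2) * (3 / 2) * C.lg e +
    C.D.lam (jj e.2) (C.τ e) + C.dG e v)

def m1 (e : Fin γ × Bool) (v : ℂ) : ℂ := exp ((C.dG e v - log (1 + v / C.c e)) / 2)

def m2 (e : Fin γ × Bool) (v : ℂ) : ℂ := exp ((-C.dG e v - log (1 + v / C.c e)) / 2)

def r1 : Fin γ × Bool → ℂ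
  | (k, false) => C.Res k
  | (k, true) => C.pl.s k / C.Res k

def r2 : Fin γ × Bool → ℂ
  | (k, false) => C.pl.s k / (-(C.c (k, true) / C.c (k, false)) * C.Res k)
  | (k, true) => -(C.c (k, true) / C.c (k, false)) * C.Res k

def W1 (e : Fin γ × Bool) : ℝ := if e.2 then 1 else Real.exp (2 * C.L)

def W2 (e : Fin γ × Bool) : ℝ := if e.2 then Real.exp (2 * C.L) else 1

def ℓ : ℝ := -(C.E * (γ + 1 / 2 + C.z.mean.re) / C.L)

def bg (t : ℂ) : ℂ := 1 + C.ℓ * C.D.b 0 / (t + C.D.b 0)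

def wd : Wd (Fin γ) where
  toPl := C.pl
  D := C.D
  ℓ := C.ℓ
  χ t := 1 + ∑ e, C.pl.pk (C.pl.k1 C.m1 C.r1) (C.pl.psi (C.pl.k1 C.m1 C.r1) C.bg) e t
  ψ₂ := C.pl.psi (C.pl.k1 C.m2 C.r2) fun _ => 1
  yb e v := C.Ge e v / C.D.R (C.c e + v)
  κ := Fin.rev

/-- the coefficient of `τ ^ (-3/2)` in the main form at the end `-b (jj b)` -/
def cm (b : Bool) : ℂ :=
  if b then ((Real.exp (C.D.A 1) / C.D.b 1 : ℝ) : ℂ)
  else -I * ((Real.exp (-C.D.A 0) / C.D.b 0 : ℝ) : ℂ)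

def θ0 (k : Fin γ) : ℂ := I * ((C.D.b 0 * Real.exp (C.D.A 0) : ℝ) : ℂ) * exp (C.lg (k, false) / 2)

/-- a point of the waist -/
def wp (e : Fin γ × Bool) : ℂ := C.c e + C.τ e * C.vs e.1

/-- the horizontal position of the waist -/
def XM (e : Fin γ × Bool) : ℂ :=
  (arcI C.wd.F1 C.wd.F2 (-C.bb e.2) (2 * ‖C.τ e‖) (if e.2 then Real.pi else 0) (C.lg e).im).re +
    (arcI C.wd.F1 C.wd.F2 (-C.bb e.2) (2 * ‖C.τ e‖) (if e.2 then 0 else Real.pi) (C.lg e).im).im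
      * I +
    segI C.wd.F1 C.wd.F2 (-C.bb e.2 + 2 * C.τ e) (C.wp e)

def eF (k : Fin γ) : ℂ :=
  (C.pl.rs C.wd.f1 (k, false) - conj (C.pl.rs C.wd.f2 (k, true))) /
    (2 * C.θ0 k * ((C.E / C.L : ℝ) : ℂ) ^ 2)

def eV (k : Fin γ) : ℝ := (C.wd.hh (C.wp (k, true)) - C.wd.hh (C.wp (k, false))) / (4 * C.E)

def eA (k : Fin γ) : ℝ := -(C.L / C.E) * (C.pl.rs C.wd.f3 (k, false)).im

def eB (k : Fin γ) : ℂ := (C.XM (k, true) - C.XM (k, false)) / conj (2 / C.θ0 k)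

/-- the equations of the necks -/
def eq : Zs γ := (C.eF, C.eV, C.eA, sy C.eB)

/-- conditions that do not depend on `L` -/
structure Adm : Prop where
  pos : 0 < γ
  d : C.D.Ok
  q : 2 ≤ C.D.q
  sym : C.z.rf = C.z
  small : ‖C.z‖ ≤ 1 / (100 * γ)

/-- conditions that hold for large `L` -/
structure Good : Prop extends C.Adm where
  L : 1 ≤ C.L
  τ : ∀ e, ‖C.τ e‖ ≤ C.D.b 0 / 100
  vs : ∀ k, ‖C.vs k‖ ≤ 1 / (100 * γ)
  w1 : C.pl.Wt C.m1
  w2 : C.pl.Wt C.m2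
  c1 : C.pl.Con C.r1 C.W1
  c2 : C.pl.Con C.r2 C.W2
  bg : ∀ e v, ‖v‖ = C.pl.ρ e → ‖C.bg (C.c e + v)‖ ≤ 2 * C.W1 e
  wy : C.pl.Wt C.wd.my
  ce : C.pl.Con2 fun e => -C.pl.s e.1
  co : C.pl.Con2 C.wd.ry

end Cfg

/-- the necks shrink and the parameters converge -/
structure Lim {γ : ℕ} {α : Type} (l : Filter α) (C : α → Cfg γ) (D₀ : Dat) (z₀ : Zs γ) : Prop where
  D : Dat.Tends l (fun x => (C x).D) D₀
  q : 2 ≤ D₀.q
  adm : ∀ᶠ x in l, (C x).Adm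
  L : Tendsto (fun x => (C x).L) l atTop
  z : Tendsto (fun x => (C x).z) l (𝓝 z₀)

end Pool.Agent.MP_92463a_gt
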