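import Pool.Agent.MP_92463a_gt.Alg

open Set Complex Filter Metric
open scoped Topology ComplexConjugate ContDiff Manifold

noncomputable section

namespace Pool.Agent.MP_92463a_gt

theorem Phase_prod {f : ℕ → ℝ} {k n : ℕ} (hk : k ≤ n) (h1 : ∀ i < k, f i < 0)
    (h2 : ∀ i, k ≤ i → i < n → 0 < f i) : 0 < sg k * ∏ i ∈ Finset.range n, f i := by
  have h3 : sg k * ∏ i ∈ Finset.range k, f i = ∏ i ∈ Finset.range k, -f i := by
    rw [Finset.prod_neg, Finset.card_range, sg]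
  rw [← Finset.prod_range_mul_prod_Ico f hk, ← mul_assoc, h3]
  exact mul_pos (Finset.prod_pos fun i hi => neg_pos.2 (h1 i (Finset.mem_range.1 hi)))
    (Finset.prod_pos fun i hi => h2 i (Finset.mem_Ico.1 hi).1 (Finset.mem_Ico.1 hi).2)

theorem Phase_sg (k : ℕ) : ∑ i ∈ Finset.range k, sg i = if Even k then 0 else 1 := by
  unfold sg
  exact neg_one_geom_sum

theorem Phase_sum {f : ℕ → ℝ} {c : ℝ} {k n : ℕ} (hk : k ≤ n) (h1 : ∀ i < k, f i = c)
    (h2 : ∀ i, k ≤ i → i < n → f i = 0) :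
    ∑ i ∈ Finset.range n, sg i * f i = (if Even k then 0 else 1) * c := by
  rw [← Finset.sum_range_add_sum_Ico _ hk, ← Phase_sg, Finset.sum_mul,
    Finset.sum_eq_zero (s := Finset.Ico k n) fun i hi => by
      rw [h2 i (Finset.mem_Ico.1 hi).1 (Finset.mem_Ico.1 hi).2, mul_zero], add_zero]
  exact Finset.sum_congr rfl fun i hi => by rw [h1 i (Finset.mem_range.1 hi)]

theorem Phase_ex {f : ℕ → ℝ} {y : ℝ} {n : ℕ} (h : ∀ i j, i < j → j < n → f i < f j)
    (hy : ∀ i < n, f i ≠ y) : ∃ k ≤ n, (∀ i < k, f i < y) ∧ ∀ i, k ≤ i → i < n → y < f i := by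
  induction n with
  | zero => exact ⟨0, le_rfl, fun i hi => absurd hi (Nat.not_lt_zero _),
      fun i _ hi => absurd hi (Nat.not_lt_zero _)⟩
  | succ n ih =>
    rcases lt_or_gt_of_ne (hy n (Nat.lt_succ_self n)) with hn | hn
    · refine ⟨n + 1, le_rfl, fun i hi => ?_, fun i h1 h2 => absurd h2 (not_lt.2 h1)⟩
      rcases (Nat.lt_succ_iff.1 hi).lt_or_eq with h1 | rfl
      · exact (h i n h1 (Nat.lt_succ_self n)).trans hn
      · exact hn
    · obtain ⟨k, hk, h1, h2⟩ := ih (fun i j hij hj => h i j hij (by omega))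
        fun i hi => hy i (by omega)
      refine ⟨k, by omega, h1, fun i h3 h4 => ?_⟩
      rcases (Nat.lt_succ_iff.1 h4).lt_or_eq with h5 | rfl
      · exact h2 i h3 h5
      · exact hn

theorem Phase_exp (z : ℂ) : exp z = exp (z.im * I) * (‖exp z‖ : ℂ) := by
  rw [norm_exp, ofReal_exp, ← exp_add, add_comm, re_add_im]

namespace Dat

variable {D : Dat}

theorem Phase_P (D : Dat) (x : ℝ) : D.P x = ((x * (∏ j ∈ Finset.range D.q, (x + D.b j)) *
    ∏ i ∈ Finset.range D.p, (D.a i - x) : ℝ) : ℂ) := by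
  simp only [P, ofReal_mul, ofReal_prod, ofReal_add, ofReal_sub]

theorem Phase_im (D : Dat) (x : ℝ) : (D.LG x).im = -arg x / 2 +
    ∑ j ∈ Finset.range D.q, sg j * (3 / 2 * arg ((x + D.b j : ℝ) : ℂ)) +
    ∑ i ∈ Finset.range D.p, sg i * (1 / 2 * (Real.pi - arg ((x - D.a i : ℝ) : ℂ))) := by
  have h1 : ∀ (c d : ℝ) (z : ℂ), ((c : ℂ) * (d / 2) * z).im = c * (d / 2 * z.im) := fun c d z => by
    have : (c : ℂ) * (d / 2) = ((c * (d / 2) : ℝ) : ℂ) := by push_cast; ring
    rw [this, im_ofReal_mul, mul_assoc]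
  have h3 := fun c => h1 c 3
  have h4 := fun c => h1 c 1
  simp only [ofReal_ofNat, ofReal_one] at h3 h4
  simp only [LG, sub_im, add_im, im_sum, h3, h4, lm, log_im, ofReal_im, div_ofNat_im,
    ofReal_add, ofReal_sub, im_ofReal_mul, I_im]
  rw [sub_eq_add_neg _ (Finset.sum _ _), ← Finset.sum_neg_distrib]
  congr 1
  · ring
  · exact Finset.sum_congr rfl fun i _ => by ring

theorem Phase_ne {x : ℝ} (h0 : x ≠ 0) (hb : ∀ j < D.q, x + D.b j ≠ 0)
    (ha : ∀ i < D.p, D.a i - x ≠ 0) : D.P x ≠ 0 := by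
  rw [Phase_P, ofReal_ne_zero]
  exact mul_ne_zero (mul_ne_zero h0 (Finset.prod_ne_zero_iff.2 fun j hj =>
    hb j (Finset.mem_range.1 hj))) (Finset.prod_ne_zero_iff.2 fun i hi =>
      ha i (Finset.mem_range.1 hi))

theorem Ok.sign_pos (hD : D.Ok) {x : ℝ} {k : ℕ} (hx : 0 < x) (hk : k ≤ D.p)
    (h1 : ∀ i < k, D.a i < x) (h2 : ∀ i, k ≤ i → i < D.p → x < D.a i) :
    0 < sg k * (D.P x).re ∧ D.G x = (if Even k then 1 else I) * (‖D.G x‖ : ℂ) := by
  have hb : ∀ j < D.q, 0 < x + D.b j := fun j hj => add_pos hx (hD.b_pos j hj)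
  constructor
  · rw [Phase_P, ofReal_re, mul_left_comm]
    exact mul_pos (mul_pos hx (Finset.prod_pos fun j hj => hb j (Finset.mem_range.1 hj)))
      (Phase_prod hk (fun i hi => sub_neg.2 (h1 i hi)) fun i h3 h4 => sub_pos.2 (h2 i h3 h4))
  · have h3 : (D.LG x).im = (if Even k then 0 else 1) * (Real.pi / 2) := by
      rw [Phase_im, arg_ofReal_of_nonneg hx.le, Finset.sum_eq_zero fun j hj => by
        rw [arg_ofReal_of_nonneg (hb j (Finset.mem_range.1 hj)).le, mul_zero, mul_zero],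
        Phase_sum (c := Real.pi / 2) hk (fun i hi => by
          rw [arg_ofReal_of_nonneg (sub_pos.2 (h1 i hi)).le]; ring) fun i h3 h4 => by
          rw [arg_ofReal_of_neg (sub_neg.2 (h2 i h3 h4))]; ring]
      ring
    unfold G
    refine (Phase_exp _).trans ?_
    rw [h3]
    split_ifs
    · simp
    · simp

theorem Ok.sign_neg (hD : D.Ok) {x : ℝ} {k : ℕ} (hx : x < 0) (hk : k ≤ D.q)
    (h1 : ∀ j < k, D.b j < -x) (h2 : ∀ j, k ≤ j → j < D.q → -x < D.b j) :
    sg k * (D.P x).re < 0 ∧ D.G x = (if Even k then -I else -1) * (‖D.G x‖ : ℂ) := by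
  have ha : ∀ i < D.p, 0 < D.a i - x := fun i hi => sub_pos.2 (hx.trans (hD.a_pos i hi))
  constructor
  · rw [Phase_P, ofReal_re, ← mul_assoc, mul_left_comm]
    exact mul_neg_of_neg_of_pos (mul_neg_of_neg_of_pos hx
      (Phase_prod hk (fun j hj => by linarith [h1 j hj]) fun j h3 h4 => by linarith [h2 j h3 h4]))
      (Finset.prod_pos fun i hi => ha i (Finset.mem_range.1 hi))
  · have h3 : (D.LG x).im = -Real.pi / 2 + (if Even k then 0 else 1) * (3 / 2 * Real.pi) := by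
      rw [Phase_im, arg_ofReal_of_neg hx, Finset.sum_eq_zero (s := Finset.range D.p) fun i hi => by
        rw [arg_ofReal_of_neg (by linarith [ha i (Finset.mem_range.1 hi)]), sub_self, mul_zero,
          mul_zero],
        Phase_sum (c := 3 / 2 * Real.pi) hk (fun j hj => by
          rw [arg_ofReal_of_neg (by linarith [h1 j hj])]) fun j h3 h4 => by
          rw [arg_ofReal_of_nonneg (by linarith [h2 j h3 h4]), mul_zero], add_zero]
    unfold G
    refine (Phase_exp _).trans ?_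
    rw [h3]
    congr 1
    split_ifs
    · rw [zero_mul, add_zero, ← exp_neg_pi_div_two_mul_I]
      push_cast
      rfl
    · rw [← exp_pi_mul_I]
      congr 2
      push_cast
      ring

theorem Ok.exists_pos (hD : D.Ok) {x : ℝ} (hx : 0 < x) (hP : D.P x ≠ 0) :
    ∃ k ≤ D.p, (∀ i < k, D.a i < x) ∧ ∀ i, k ≤ i → i < D.p → x < D.a i := by
  refine Phase_ex hD.a_lt fun i hi h => hP ?_
  rw [Phase_P, Finset.prod_eq_zero (Finset.mem_range.2 hi) (sub_eq_zero.2 h), mul_zero,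
    ofReal_zero]

theorem Ok.exists_neg (hD : D.Ok) {x : ℝ} (hx : x < 0) (hP : D.P x ≠ 0) :
    ∃ k ≤ D.q, (∀ j < k, D.b j < -x) ∧ ∀ j, k ≤ j → j < D.q → -x < D.b j := by
  refine Phase_ex (fun i j hij hj => ?_) fun j hj h => hP ?_
  · linarith [hD.b_gap i j hij hj, hD.b_pos i (hij.trans hj)]
  · rw [Phase_P, Finset.prod_eq_zero (Finset.mem_range.2 hj) (by rw [h, add_neg_cancel]),
      mul_zero, zero_mul, ofReal_zero]

/-- two points of the same segment on the positive axis -/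
theorem Ok.seg_pos (hD : D.Ok) {x x' : ℝ} {k : ℕ} (hx : 0 < x) (h1 : ∀ i < k, D.a i < x)
    (h2 : ∀ i, k ≤ i → i < D.p → x' < D.a i) : ∀ s ∈ Icc x x', D.P s ≠ 0 := by
  intro s hs
  have h0 : 0 < s := hx.trans_le hs.1
  refine Phase_ne h0.ne' (fun j hj => (add_pos h0 (hD.b_pos j hj)).ne') fun i hi => ?_
  rcases lt_or_ge i k with h | h
  · exact (sub_neg.2 ((h1 i h).trans_le hs.1)).ne
  · exact (sub_pos.2 (hs.2.trans_lt (h2 i h hi))).ne'

/-- two points of the same segment on the negative axis -/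
theorem Ok.seg_neg (hD : D.Ok) {x x' : ℝ} {k : ℕ} (hx : x' < 0) (h1 : ∀ j < k, D.b j < -x')
    (h2 : ∀ j, k ≤ j → j < D.q → -x < D.b j) : ∀ s ∈ Icc x x', D.P s ≠ 0 := by
  intro s hs
  have h0 : s < 0 := hs.2.trans_lt hx
  refine Phase_ne h0.ne (fun j hj => ?_) fun i hi => (sub_pos.2 (h0.trans (hD.a_pos i hi))).ne'
  rcases lt_or_ge j k with h | h
  · exact ne_of_lt (by linarith [h1 j h, hs.2])
  · exact ne_of_gt (by linarith [h2 j h hj, hs.1])

end Dat

end Pool.Agent.MP_92463a_gt
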