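import Pool.Agent.MP_92463a_gt.Tool3
import Pool.Agent.MP_92463a_gt.Phase

open Set Complex Filter Metric
open scoped Topology ComplexConjugate ContDiff Manifold

noncomputable section

namespace Pool.Agent.MP_92463a_gt

namespace Dat

variable {α β : Type} {l : Filter α} {D : α → Dat} {D₀ : Dat}

theorem Tends.comp (h : Tends l D D₀) {l' : Filter β} {φ : β → α} (hφ : Tendsto φ l' l) :
    Tends l' (fun x => D (φ x)) D₀ :=
  ⟨h.ok₀, hφ.eventually h.ok, fun i hi => (h.a i hi).comp hφ, fun j hj => (h.b j hj).comp hφ,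
    h.ρ.comp hφ⟩

theorem DatC_re {f : α → ℝ} {c : ℝ} (h : Tendsto f l (𝓝 c)) :
    Tendsto (fun x => (f x : ℂ)) l (𝓝 (c : ℂ)) :=
  (continuous_ofReal.tendsto c).comp h

theorem Tends.P (h : Tends l D D₀) {t : α → ℂ} {t₀ : ℂ} (ht : Tendsto t l (𝓝 t₀)) :
    Tendsto (fun x => (D x).P (t x)) l (𝓝 (D₀.P t₀)) := by
  refine Tendsto.congr' ?_ ((ht.mul (tendsto_finsetProd (Finset.range D₀.q) fun j hj =>
    ht.add (DatC_re (h.b j (Finset.mem_range.1 hj))))).mul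
      (tendsto_finsetProd (Finset.range D₀.p) fun i hi =>
        (DatC_re (h.a i (Finset.mem_range.1 hi))).sub ht))
  filter_upwards [h.ok] with x hx
  rw [Dat.P, hx.2.1, hx.2.2]

theorem DatC_log {t : α → ℂ} {t₀ : ℂ} (ht : Tendsto t l (𝓝 t₀))
    (hi : ∀ᶠ x in l, 0 ≤ (t x).im) (h₀ : 0 ≤ t₀.im) (hn : t₀ ≠ 0) :
    Tendsto (fun x => log (t x)) l (𝓝 (log t₀)) :=
  (Alg_log_cont t₀ ⟨h₀, hn⟩).tendsto.comp
    (tendsto_nhdsWithin_iff.2 ⟨ht, hi.and (ht.eventually_ne hn)⟩)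

theorem Tends.G (h : Tends l D D₀) {t : α → ℂ} {t₀ : ℂ} (ht : Tendsto t l (𝓝 t₀))
    (hi : ∀ᶠ x in l, 0 ≤ (t x).im) (h₀ : 0 ≤ t₀.im) (hP : D₀.P t₀ ≠ 0) :
    Tendsto (fun x => (D x).G (t x)) l (𝓝 (D₀.G t₀)) := by
  obtain ⟨h0, h1, h2⟩ := Alg_ne hP
  have e1 : ∀ j ∈ Finset.range D₀.q, Tendsto
      (fun x => (sg j * (3 / 2) * log (t x + (D x).b j) : ℂ)) l
      (𝓝 (sg j * (3 / 2) * log (t₀ + D₀.b j))) := fun j hj =>
    (DatC_log (ht.add (DatC_re (h.b j (Finset.mem_range.1 hj)))) (by simpa using hi)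
      (by simpa using h₀) (h1 j hj)).const_mul _
  have e2 : ∀ i ∈ Finset.range D₀.p, Tendsto
      (fun x => (sg i * (1 / 2) * lm ((D x).a i) (t x) : ℂ)) l
      (𝓝 (sg i * (1 / 2) * lm (D₀.a i) t₀)) := fun i hi' =>
    ((DatC_log (ht.sub (DatC_re (h.a i (Finset.mem_range.1 hi')))) (by simpa using hi)
      (by simpa using h₀) fun h3 => h2 i hi' (by linear_combination -h3)).sub_const _).const_mul _
  refine Tendsto.congr' ?_ (((((DatC_re (h.ρ.log h.ok₀.ρ_pos.ne')).sub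
    ((DatC_log ht hi h₀ h0).div_const 2)).add (tendsto_finsetSum _ e1)).sub
      (tendsto_finsetSum _ e2)).cexp)
  filter_upwards [h.ok] with x hx
  rw [Dat.G, LG, hx.2.1, hx.2.2]

theorem Ok.semi {D : Dat} {x₀ x₁ : ℝ} (h₀ : D.P x₀ ≠ 0) (h₁ : D.P x₁ ≠ 0) (hlt : x₁ < x₀) {θ : ℝ}
    (hθ : θ ∈ Icc 0 Real.pi) :
    0 ≤ ((x₀ + x₁) / 2 + (x₀ - x₁) / 2 * exp (θ * I) : ℂ).im ∧
      D.P ((x₀ + x₁) / 2 + (x₀ - x₁) / 2 * exp (θ * I)) ≠ 0 := by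
  have e : ((x₀ + x₁) / 2 + (x₀ - x₁) / 2 * exp (θ * I) : ℂ).im = (x₀ - x₁) / 2 * Real.sin θ := by
    rw [← ofReal_add, ← ofReal_sub, ← ofReal_ofNat, ← ofReal_div, ← ofReal_div, add_im, ofReal_im,
      zero_add, im_ofReal_mul, exp_ofReal_mul_I_im]
  have hp : 0 < (x₀ - x₁) / 2 := by linarith
  refine ⟨e ▸ mul_nonneg hp.le (Real.sin_nonneg_of_mem_Icc hθ), ?_⟩
  rcases hθ.1.eq_or_lt with rfl | h2
  · convert h₀ using 2
    simp
    ring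
  rcases hθ.2.eq_or_lt with rfl | h3
  · convert h₁ using 2
    rw [exp_pi_mul_I]
    ring
  exact ne_of_im (e ▸ (mul_pos hp (Real.sin_pos_of_pos_of_lt_pi h2 h3)).ne')

theorem DatC_cont {D : Dat} {x₀ x₁ : ℝ} (h₀ : D.P x₀ ≠ 0) (h₁ : D.P x₁ ≠ 0) (hlt : x₁ < x₀)
    {ψ₁ ψ₂ : ℂ → ℂ} (hψ : ∀ θ ∈ Icc 0 Real.pi,
      ∀ t : ℂ, t = (x₀ + x₁) / 2 + (x₀ - x₁) / 2 * exp (θ * I) →
        ContinuousAt ψ₁ t ∧ ContinuousAt ψ₂ t) :
    ContinuousOn (fun θ : ℝ =>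
      (fun t => ψ₁ t ^ 2 * (D.G t / t)) ((x₀ + x₁) / 2 + (x₀ - x₁) / 2 * exp (θ * I)) *
        ((x₀ - x₁) / 2 * exp (θ * I) * I) -
      conj ((fun t => ψ₂ t ^ 2 * (D.G t * t)⁻¹) ((x₀ + x₁) / 2 + (x₀ - x₁) / 2 * exp (θ * I)) *
        ((x₀ - x₁) / 2 * exp (θ * I) * I))) (Icc 0 Real.pi) := by
  have c0 : Continuous fun θ : ℝ => ((x₀ + x₁) / 2 + (x₀ - x₁) / 2 * exp (θ * I) : ℂ) := by
    fun_prop
  have c1 : Continuous fun θ : ℝ => ((x₀ - x₁) / 2 * exp (θ * I) * I : ℂ) := by fun_prop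
  have cG := (G_cont (D := D)).comp c0.continuousOn fun θ hθ => Ok.semi h₀ h₁ hlt hθ
  have hn : ∀ θ ∈ Icc 0 Real.pi, ((x₀ + x₁) / 2 + (x₀ - x₁) / 2 * exp (θ * I) : ℂ) ≠ 0 :=
    fun θ hθ => (Alg_ne (Ok.semi h₀ h₁ hlt hθ).2).1
  have p1 : ContinuousOn (fun θ : ℝ => ψ₁ ((x₀ + x₁) / 2 + (x₀ - x₁) / 2 * exp (θ * I)))
      (Icc 0 Real.pi) := fun θ hθ =>
    ((hψ θ hθ _ rfl).1.comp_of_eq c0.continuousAt rfl).continuousWithinAt
  have p2 : ContinuousOn (fun θ : ℝ => ψ₂ ((x₀ + x₁) / 2 + (x₀ - x₁) / 2 * exp (θ * I)))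
      (Icc 0 Real.pi) := fun θ hθ =>
    ((hψ θ hθ _ rfl).2.comp_of_eq c0.continuousAt rfl).continuousWithinAt
  exact (((p1.pow 2).mul (cG.div c0.continuousOn hn)).mul c1.continuousOn).sub
    (continuous_conj.comp_continuousOn (((p2.pow 2).mul ((cG.mul c0.continuousOn).inv₀
      fun θ hθ => mul_ne_zero (G_ne _) (hn θ hθ))).mul c1.continuousOn))

/-- convergence of links with weights tending to one -/
theorem Tends.lk (h : Tends l D D₀) {u v : α → ℝ} {u₀ v₀ : ℝ} (hu : Tendsto u l (𝓝 u₀))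
    (hv : Tendsto v l (𝓝 v₀)) (h₀ : D₀.P u₀ ≠ 0) (h₁ : D₀.P v₀ ≠ 0) (hlt : v₀ < u₀) (ty : Bool)
    {ψ₁ ψ₂ : α → ℂ → ℂ}
    (hψ : ∀ ε > 0, ∀ᶠ x in l, ∀ θ ∈ Icc 0 Real.pi,
      ∀ t : ℂ, t = (u x + v x) / 2 + (u x - v x) / 2 * exp (θ * I) →
        ContinuousAt (ψ₁ x) t ∧ ContinuousAt (ψ₂ x) t ∧ ‖ψ₁ x t - 1‖ ≤ ε ∧ ‖ψ₂ x t - 1‖ ≤ ε) :
    Tendsto (fun x => Lk (fun t => ψ₁ x t ^ 2 * ((D x).G t / t))
      (fun t => ψ₂ x t ^ 2 * ((D x).G t * t)⁻¹) ty (u x) (v x)) l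
      (𝓝 (Lk D₀.F1 D₀.F2 ty u₀ v₀)) := by
  have hc : Continuous (if ty then im else re) := by
    split_ifs
    exacts [continuous_im, continuous_re]
  have ev : ∀ᶠ x in l, (D x).P (u x) ≠ 0 ∧ (D x).P (v x) ≠ 0 ∧ v x < u x :=
    ((h.P (DatC_re hu)).eventually_ne h₀).and
      (((h.P (DatC_re hv)).eventually_ne h₁).and (hv.eventually_lt hu hlt))
  have hI : uIcc 0 Real.pi = Icc 0 Real.pi := uIcc_of_le Real.pi_pos.le
  refine (hc.tendsto _).comp (int_tendsto (a := fun _ => 0) (b := fun _ => Real.pi)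
    tendsto_const_nhds tendsto_const_nhds ?_ ?_ fun y hy => ?_)
  · rw [hI]
    simpa only [one_pow, one_mul, F1, F2] using DatC_cont (ψ₁ := fun _ => 1) (ψ₂ := fun _ => 1) h₀ h₁ hlt
      fun _ _ _ _ => ⟨continuousAt_const, continuousAt_const⟩
  · filter_upwards [ev, hψ 1 one_pos] with x h1 h2
    rw [hI]
    exact DatC_cont h1.1 h1.2.1 h1.2.2 fun θ hθ t ht => ⟨(h2 θ hθ t ht).1, (h2 θ hθ t ht).2.1⟩
  have hm : ∀ y ∈ Icc (0 : ℝ) 1, 0 + y * (Real.pi - 0) ∈ Icc 0 Real.pi := fun y hy =>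
    hI ▸ Tool3_mem hy
  have e1 : ∀ᶠ z : α × ℝ in l ×ˢ 𝓝[Icc 0 1] y, 0 + z.2 * (Real.pi - 0) ∈ Icc 0 Real.pi :=
    tendsto_snd.eventually (eventually_mem_nhdsWithin.mono hm)
  have hu' := DatC_re (hu.comp (tendsto_fst (g := 𝓝[Icc (0 : ℝ) 1] y)))
  have hv' := DatC_re (hv.comp (tendsto_fst (g := 𝓝[Icc (0 : ℝ) 1] y)))
  have hθ : Tendsto (fun z : α × ℝ => exp ((0 + z.2 * (Real.pi - 0) : ℝ) * I))
      (l ×ˢ 𝓝[Icc 0 1] y) (𝓝 (exp ((0 + y * (Real.pi - 0) : ℝ) * I))) :=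
    ((DatC_re (((tendsto_snd.mono_right nhdsWithin_le_nhds).mul_const _).const_add _)).mul_const
      _).cexp
  have hr := ((hu'.sub hv').div_const 2).mul hθ
  have ht := ((hu'.add hv').div_const 2).add hr
  have s₀ := Ok.semi h₀ h₁ hlt (hm y hy)
  have hG := (h.comp tendsto_fst).G ht (by
    filter_upwards [e1, tendsto_fst.eventually ev] with z h1 h2
    exact (Ok.semi h2.1 h2.2.1 h2.2.2 h1).1) s₀.1 s₀.2
  have hn := (Alg_ne s₀.2).1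
  have p1 : Tendsto (fun z : α × ℝ => ψ₁ z.1 ((u z.1 + v z.1) / 2 + (u z.1 - v z.1) / 2 *
      exp ((0 + z.2 * (Real.pi - 0) : ℝ) * I))) (l ×ˢ 𝓝[Icc 0 1] y) (𝓝 1) := by
    refine Metric.tendsto_nhds.2 fun ε hε => ?_
    filter_upwards [e1, tendsto_fst.eventually (hψ (ε / 2) (half_pos hε))] with z h1 h2
    exact (dist_eq_norm _ _).le.trans_lt ((h2 _ h1 _ rfl).2.2.1.trans_lt (half_lt_self hε))
  have p2 : Tendsto (fun z : α × ℝ => ψ₂ z.1 ((u z.1 + v z.1) / 2 + (u z.1 - v z.1) / 2 *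
      exp ((0 + z.2 * (Real.pi - 0) : ℝ) * I))) (l ×ˢ 𝓝[Icc 0 1] y) (𝓝 1) := by
    refine Metric.tendsto_nhds.2 fun ε hε => ?_
    filter_upwards [e1, tendsto_fst.eventually (hψ (ε / 2) (half_pos hε))] with z h1 h2
    exact (dist_eq_norm _ _).le.trans_lt ((h2 _ h1 _ rfl).2.2.2.trans_lt (half_lt_self hε))
  have := (((p1.pow 2).mul (hG.div ht hn)).mul (hr.mul_const I)).sub
    ((continuous_conj.tendsto _).comp (((p2.pow 2).mul ((hG.mul ht).inv₀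
      (mul_ne_zero (G_ne _) hn))).mul (hr.mul_const I)))
  rw [one_pow, one_mul, one_mul] at this
  exact this

theorem tends_of_cont {T : Type} [TopologicalSpace T] {S : Set T} {D : T → Dat} {p q : ℕ}
    (ok : ∀ x ∈ S, (D x).Ok ∧ (D x).p = p ∧ (D x).q = q)
    (ca : ∀ i < p, ContinuousOn (fun x => (D x).a i) S)
    (cb : ∀ j < q, ContinuousOn (fun x => (D x).b j) S) (cρ : ContinuousOn (fun x => (D x).ρ) S)
    {x₀ : T} (hx : x₀ ∈ S) : Tends (𝓝[S] x₀) D (D x₀) := by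
  obtain ⟨h1, h2, h3⟩ := ok x₀ hx
  exact ⟨h1, eventually_mem_nhdsWithin.mono fun x h => by rw [h2, h3]; exact ok x h,
    fun i hi => ca i (h2 ▸ hi) x₀ hx, fun j hj => cb j (h3 ▸ hj) x₀ hx, cρ x₀ hx⟩

end Dat

theorem DatC_cube {J : Type} : cube J = Set.pi univ fun _ => Icc (-1 : ℝ) 1 := by
  ext x
  simp only [cube, abs_le, mem_ofPred_eq, mem_univ_pi, mem_Icc]

theorem isCompact_cube {J : Type} [Fintype J] : IsCompact (cube J) := by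
  rw [DatC_cube]
  exact isCompact_univ_pi fun _ => isCompact_Icc

theorem convex_cube {J : Type} : Convex ℝ (cube J) := by
  rw [DatC_cube]
  exact convex_pi fun _ _ => convex_Icc _ _

theorem Dat.Ok.inS_ne {D : Dat} (hD : D.Ok) {s : Sg} {x : ℝ} (hx : D.InS s x) : D.P x ≠ 0 := by
  unfold Dat.InS at hx
  split_ifs at hx
  · obtain ⟨h0, h1, h2⟩ := hx
    refine Dat.Phase_ne h0.ne (fun j hj h => ?_) fun i hi h => by linarith [hD.a_pos i hi]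
    rcases lt_or_ge j s.2 with h3 | h3
    · linarith [h1 j h3]
    · linarith [h2 j h3 hj]
  · obtain ⟨h0, h1, h2⟩ := hx
    refine Dat.Phase_ne h0.ne' (fun j hj h => by linarith [hD.b_pos j hj]) fun i hi h => ?_
    rcases lt_or_ge i s.2 with h3 | h3
    · linarith [h1 i h3]
    · linarith [h2 i h3 hi]

theorem Fam.lk_cont {J : Type} [Fintype J] {p q : ℕ} (F : Fam J p q) (i : J) :
    ContinuousOn (fun x => Lk (F.D x).F1 (F.D x).F2 (F.su i).ty (F.u i x) (F.v i x)) (cube J) := by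
  intro x hx
  obtain ⟨h1, h2, h3⟩ := F.mem i x hx
  have hD := (F.ok x hx).1
  have := (Dat.tends_of_cont F.ok F.ca F.cb F.cρ hx).lk (F.cu i x hx) (F.cv i x hx)
    (hD.inS_ne h1) (hD.inS_ne h2) h3 (F.su i).ty (ψ₁ := fun _ _ => 1) (ψ₂ := fun _ _ => 1)
    fun ε hε => Eventually.of_forall fun _ _ _ _ _ =>
      ⟨continuousAt_const, continuousAt_const, by simpa using hε.le, by simpa using hε.le⟩
  simp only [one_pow, one_mul] at this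
  exact this

end Pool.Agent.MP_92463a_gt
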