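import Pool.Agent.MP_92463a_gt.Pb0

open Set Complex Filter Metric
open scoped Topology ComplexConjugate ContDiff Manifold

noncomputable section

namespace Pool.Agent.MP_92463a_gt

/-! Weierstrass data with necks: `φ₁ = ψ₁² G dt / t`, `φ₂ = ψ₂² dt / (G t)`, `φ₃ = ψ₁ ψ₂ dt / t`. -/

/-- the horizontal period along the half circle from `x₀` to `x₁ < x₀`, imaginary part if `ty` -/
def Lk (f₁ f₂ : ℂ → ℂ) (ty : Bool) (x₀ x₁ : ℝ) : ℝ :=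
  (if ty then im else re) (∫ θ in (0 : ℝ)..Real.pi,
    (f₁ ((x₀ + x₁) / 2 + (x₀ - x₁) / 2 * exp (θ * I)) * ((x₀ - x₁) / 2 * exp (θ * I) * I) -
      conj (f₂ ((x₀ + x₁) / 2 + (x₀ - x₁) / 2 * exp (θ * I)) * ((x₀ - x₁) / 2 * exp (θ * I) * I))))

/-- the horizontal period along the arc of radius `R` around `x₀` -/
def arcI (f₁ f₂ : ℂ → ℂ) (x₀ : ℂ) (R a b : ℝ) : ℂ :=
  ∫ θ in a..b, (f₁ (x₀ + R * exp (θ * I)) * (R * exp (θ * I) * I) -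
    conj (f₂ (x₀ + R * exp (θ * I)) * (R * exp (θ * I) * I)))

/-- the horizontal period along the segment from `t₀` to `t₁` -/
def segI (f₁ f₂ : ℂ → ℂ) (t₀ t₁ : ℂ) : ℂ :=
  ∫ x in (0 : ℝ)..1, (f₁ (t₀ + x * (t₁ - t₀)) * (t₁ - t₀) -
    conj (f₂ (t₀ + x * (t₁ - t₀)) * (t₁ - t₀)))

/-- boundary segments: `(false, k)` on the positive axis, `(true, k)` on the negative axis -/
abbrev Sg : Type := Bool × ℕ

/-- `true` if `P > 0` on the segment -/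
def Sg.ty (s : Sg) : Bool := if s.1 then decide (Odd s.2) else decide (Even s.2)

def Sg.Val (p q : ℕ) (s : Sg) : Prop := if s.1 then s.2 ≤ q else s.2 ≤ p

namespace Dat

variable (D : Dat)

def InS (s : Sg) (x : ℝ) : Prop := if s.1 then D.InB s.2 x else D.InA s.2 x

def F1 (t : ℂ) : ℂ := D.G t / t

def F2 (t : ℂ) : ℂ := (D.G t * t)⁻¹

end Dat

def cube (J : Type) : Set (J → ℝ) := {x | ∀ i, |x i| ≤ 1}

/-- a family of Weierstrass data on a cube whose period problem satisfies the conditions of the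
Poincare-Miranda theorem -/
structure Fam (J : Type) [Fintype J] (p q : ℕ) where
  D : (J → ℝ) → Dat
  su : J → Sg
  sv : J → Sg
  u : J → (J → ℝ) → ℝ
  v : J → (J → ℝ) → ℝ
  A : (J → ℝ) → J → J → ℝ
  ok : ∀ x ∈ cube J, (D x).Ok ∧ (D x).p = p ∧ (D x).q = q
  ca : ∀ i < p, ContinuousOn (fun x => (D x).a i) (cube J)
  cb : ∀ j < q, ContinuousOn (fun x => (D x).b j) (cube J)
  cρ : ContinuousOn (fun x => (D x).ρ) (cube J)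
  cu : ∀ i, ContinuousOn (u i) (cube J)
  cv : ∀ i, ContinuousOn (v i) (cube J)
  cA : ∀ i j, ContinuousOn (fun x => A x i j) (cube J)
  val : ∀ i, (su i).Val p q ∧ (sv i).Val p q ∧ (sv i).ty = (su i).ty
  mem : ∀ i, ∀ x ∈ cube J, (D x).InS (su i) (u i x) ∧ (D x).InS (sv i) (v i x) ∧ v i x < u i x
  chain : ∀ α : Sg → ℝ, (∀ i, α (su i) = α (sv i)) →
    ∀ s s' : Sg, s.Val p q → s'.Val p q → s.ty = s'.ty → α s = α s'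
  inj : ∀ x ∈ cube J, ∀ w : J → ℝ, (∀ i, ∑ j, A x i j * w j = 0) → w = 0
  face : ∀ x ∈ cube J, ∀ i,
    (x i = 1 → 0 < ∑ j, A x i j * Lk (D x).F1 (D x).F2 (su j).ty (u j x) (v j x)) ∧
    (x i = -1 → ∑ j, A x i j * Lk (D x).F1 (D x).F2 (su j).ty (u j x) (v j x) < 0)

structure Wd (ι : Type) extends Pl ι where
  D : Dat
  ℓ : ℝ
  χ : ℂ → ℂ
  ψ₂ : ℂ → ℂ
  yb : ι × Bool → ℂ → ℂ
  κ : ι → ι

namespace Wd

variable {ι : Type} (W : Wd ι)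

def ψ₁ (t : ℂ) : ℂ := W.χ t + W.ℓ * W.D.b 0 / (t + W.D.b 0)

def F1 (t : ℂ) : ℂ := W.ψ₁ t ^ 2 * (W.D.G t / t)

def F2 (t : ℂ) : ℂ := W.ψ₂ t ^ 2 * (W.D.G t * t)⁻¹

def F3 (t : ℂ) : ℂ := W.ψ₁ t * W.ψ₂ t / t

def f1 (e : ι × Bool) (v : ℂ) : ℂ :=
  W.ψ₁ (W.c e + v) ^ 2 * (W.yb e v * W.D.R (W.c e + v) / (W.c e + v))

def f2 (e : ι × Bool) (v : ℂ) : ℂ :=
  W.ψ₂ (W.c e + v) ^ 2 * (W.yb e v * W.D.R (W.c e + v) * (W.c e + v))⁻¹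

def f3 (e : ι × Bool) (v : ℂ) : ℂ := W.F3 (W.c e + v)

/-- weights and factors of the odd 1-forms `B dt / y` -/
def my (e : ι × Bool) (v : ℂ) : ℂ := W.yb e 0 / W.yb e v

def ry (e : ι × Bool) : ℂ := -W.s e.1 * W.yb e 0 / W.yb (op e) 0

/-- the quarter of the surface -/
def Q : Set ℂ := W.D.Q ∩ W.Om

/-- the regular points of the quarter -/
def Qr : Set ℂ := {t | 0 ≤ t.im ∧ W.D.P t ≠ 0 ∧ t ∈ W.Om}

/-- necks on the real axis, in the upper and in the lower half plane -/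
def Mid (k : ι) : Prop :=
  W.κ k = k ∧ (∀ b, (W.c (k, b)).im = 0) ∧ (W.s k).im = 0 ∧ (W.s k).re < 0

def Up (k : ι) : Prop := ∀ b, 2 * W.ρ (k, b) ≤ (W.c (k, b)).im

def Low (k : ι) : Prop := ∀ b, (W.c (k, b)).im ≤ -(2 * W.ρ (k, b))

structure Pre (X : ℂ → ℂ) : Prop where
  cont : ContinuousOn X W.Q
  der : ∀ t ∈ W.Om, 0 < t.im → HasFDerivAt X (wl (W.F1 t) (W.F2 t)) t

/-- the horizontal period problem is solved -/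
structure SolX (X : ℂ → ℂ) : Prop extends W.Pre X where
  im0 : ∀ x : ℝ, (x : ℂ) ∈ W.Om → 0 < (W.D.P x).re → (X x).im = 0
  re0 : ∀ x : ℝ, (x : ℂ) ∈ W.Om → (W.D.P x).re < 0 → (X x).re = 0

/-- the period problem is solved -/
structure Sol (X : ℂ → ℂ) (H : ℂ → ℝ) : Prop extends W.SolX X where
  glueX : ∀ e, ∀ v ∈ W.Ann e, 0 ≤ (W.c e).im → 0 ≤ (W.c e + v).im →
    X (W.c e + v) = X (W.c (op e) + W.s e.1 / v)
  derH : ∀ t ∈ W.Om, ¬ W.D.IsE t → HasFDerivAt H (hl (W.F3 t)) t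
  conjH : ∀ t ∈ W.Om, H (conj t) = H t
  glueH : ∀ e, ∀ v ∈ W.Ann e, H (W.c e + v) = H (W.c (op e) + W.s e.1 / v)
  top : Tendsto H (Bornology.cobounded ℂ) atTop

/-- the quarter is embedded -/
def QInj (X : ℂ → ℂ) (H : ℂ → ℝ) : Prop :=
  ∀ t ∈ W.Q, ∀ t' ∈ W.Q, X t = X t' → H t = H t' →
    t = t' ∨ ∃ e, ∃ v ∈ W.Ann e, t = W.c e + v ∧ t' = W.c (op e) + W.s e.1 / v

/-- the horizontal part near a port -/
def XA (X : ℂ → ℂ) (e : ι × Bool) (v : ℂ) : ℂ := W.D.Xg X (W.c e + v) (W.yb e v)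

def U : Set W.D.N := {z | W.D.tt z ∈ W.Om}

def O : Set W.D.N := {z | ∃ e, W.D.tt z - W.c e ∈ W.Ann e}

def Cp : Set W.D.N := {z | W.D.tt z ∈ W.Fd}

open Classical in
/-- the gluing map -/
def g (z : W.D.N) : W.D.N :=
  if h : ∃ e, W.D.tt z - W.c e ∈ W.Ann e then
    W.D.pt (W.c (op h.choose) + W.s h.choose.1 / (W.D.tt z - W.c h.choose))
      (W.D.yy z / W.yb h.choose (W.D.tt z - W.c h.choose) *
        W.yb (op h.choose) (W.s h.choose.1 / (W.D.tt z - W.c h.choose)))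
  else z

/-- the surface -/
def ff (X : ℂ → ℂ) (H : ℂ → ℝ) (z : W.D.N) : E3 :=
  mk3 (W.D.Xg X (W.D.tt z) (W.D.yy z)) (H (W.D.tt z))

/-- the form `om` is `(A + B / y) dt` -/
def Rep (A B : ℂ → ℂ) (om : W.D.N → ℂ) : Prop :=
  ∀ t ∈ W.Om, ∀ y, y ^ 2 = W.D.P t → W.D.P t ≠ 0 → om (W.D.pt t y) = A t + B t / y

variable [Fintype ι]

/-- the curve with its ports -/
structure Ok0 : Prop where
  d : W.D.Ok
  q_pos : 0 < W.D.q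
  pl : W.toPl.Ok
  sy : W.Sy W.κ
  free : ∀ e, ∀ v ∈ ball (0 : ℂ) (2 * W.ρ e), W.D.P (W.c e + v) ≠ 0
  yhol : ∀ e, DifferentiableOn ℂ (W.yb e) (ball 0 (2 * W.ρ e))
  ysq : ∀ e, ∀ v ∈ ball (0 : ℂ) (2 * W.ρ e), W.yb e v ^ 2 = W.D.P (W.c e + v)
  yconj : ∀ e : ι × Bool, ∀ v ∈ ball (0 : ℂ) (2 * W.ρ e),
    W.yb (W.κ e.1, e.2) (conj v) = -conj (W.yb e v)
  yup : ∀ e, ∀ v ∈ ball (0 : ℂ) (2 * W.ρ e), 0 ≤ (W.c e).im → 0 ≤ (W.c e + v).im →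
    W.yb e v = W.D.Y (W.c e + v)
  pos : ∀ k, W.Mid k ∨ W.Up k ∨ W.Low k
  wy : W.Wt W.my
  ce : W.Con2 fun e => -W.s e.1
  co : W.Con2 W.ry

/-- the spinors are holomorphic and match -/
structure Ok1 : Prop extends W.Ok0 where
  χhol : DifferentiableOn ℂ W.χ W.Om
  ψhol : DifferentiableOn ℂ W.ψ₂ W.Om
  χinf : Tendsto W.χ (Bornology.cobounded ℂ) (𝓝 1)
  ψinf : Tendsto W.ψ₂ (Bornology.cobounded ℂ) (𝓝 1)
  χconj : ∀ t ∈ W.Om, W.χ (conj t) = conj (W.χ t)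
  ψconj : ∀ t ∈ W.Om, W.ψ₂ (conj t) = conj (W.ψ₂ t)
  m1 : W.MF W.f1
  m2 : W.MF W.f2
  m3 : W.MF W.f3

/-- the spinors have no common zero -/
structure Ok : Prop extends W.Ok1 where
  ne : ∀ t ∈ W.Om, W.D.P t ≠ 0 → W.ψ₁ t ≠ 0 ∨ W.ψ₂ t ≠ 0
  neA : ∀ i < W.D.p, W.ψ₁ (W.D.a i) ≠ 0 ∧ W.ψ₂ (W.D.a i) ≠ 0
  ne0 : W.ψ₁ 0 ≠ 0
  neB : ∀ j < W.D.q, (Even j → W.ψ₂ (-W.D.b j) ≠ 0) ∧ (Odd j → W.ψ₁ (-W.D.b j) ≠ 0)

def c0 : ℝ := (W.ψ₁ 0 * W.ψ₂ 0).re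

def q0 : ℝ := (-W.ℓ * W.ψ₂ (-W.D.b 0)).re

/-- the height -/
def hh (t : ℂ) : ℝ :=
  2 * (W.c0 * Real.log ‖t‖ + W.q0 * Real.log ‖t + W.D.b 0‖ +
    ∑ e, ((W.rs W.f3 e).re * Real.log ‖t - W.c e‖ + (W.th W.f3 e (t - W.c e)).re))

end Wd

end Pool.Agent.MP_92463a_gt
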