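import Pool.Agent.MP_92463a_gt.Cau1
import Pool.Agent.MP_92463a_gt.Wd0
import Pool.Agent.MP_92463a_gt.Alg

open Set Complex Filter Metric
open scoped Topology ComplexConjugate ContDiff Manifold

noncomputable section

namespace Pool.Agent.MP_92463a_gt

variable {α : Type} {l : Filter α}

theorem Tool3_mem {a b y : ℝ} (hy : y ∈ Icc (0 : ℝ) 1) : a + y * (b - a) ∈ uIcc a b := by
  rw [mem_uIcc]
  rcases le_total a b with h | h
  · exact Or.inl ⟨by nlinarith [hy.1], by nlinarith [hy.2]⟩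
  · exact Or.inr ⟨by nlinarith [hy.2], by nlinarith [hy.1]⟩

theorem Tool3_cont {f : ℝ → ℂ} {a b : ℝ} (h : ContinuousOn f (uIcc a b)) :
    ContinuousOn (fun y : ℝ => f (a + y * (b - a))) (Icc 0 1) :=
  h.comp (f := fun y : ℝ => a + y * (b - a)) (by fun_prop) fun _ hy => Tool3_mem hy

theorem Tool3_int (f : ℝ → ℂ) (a b : ℝ) :
    ∫ θ in a..b, f θ = (b - a) • ∫ y in (0 : ℝ)..1, f (a + y * (b - a)) := by
  have := intervalIntegral.smul_integral_comp_add_mul (a := 0) (b := 1) f (b - a) a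
  simp only [zero_mul, add_zero, one_mul, add_sub_cancel, mul_comm (b - a)] at this
  exact this.symm

theorem Tool3_der (x₀ R : ℂ) (θ : ℝ) :
    HasDerivAt (fun θ : ℝ => x₀ + R * exp (θ * I)) (R * exp (θ * I) * I) θ := by
  simpa [mul_assoc] using
    (((ofRealCLM.hasDerivAt (x := θ)).mul_const I).cexp.const_mul R).const_add x₀

theorem ev_compact {β : Type} [TopologicalSpace β] {K : Set β} (hK : IsCompact K)
    {p : α → β → Prop} (h : ∀ y ∈ K, ∀ᶠ z : α × β in l ×ˢ 𝓝[K] y, p z.1 z.2) :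
    ∀ᶠ x in l, ∀ y ∈ K, p x y := by
  refine hK.induction_on (p := fun s => ∀ᶠ x in l, ∀ y ∈ s, p x y) (by simp)
    (fun s t hst ht => ht.mono fun x hx y hy => hx y (hst hy))
    (fun s t hs ht => (hs.and ht).mono fun x hx y hy => hy.elim (hx.1 y) (hx.2 y)) fun y hy => ?_
  obtain ⟨pa, ha, pb, hb, h1⟩ := eventually_prod_iff.1 (h y hy)
  exact ⟨{y | pb y}, hb, ha.mono fun x hx y hy => h1 hx hy⟩

theorem unif_of_joint {β E : Type} [TopologicalSpace β] [PseudoMetricSpace E] {K : Set β}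
    (hK : IsCompact K) {f : α → β → E} {f₀ : β → E} (h₀ : ContinuousOn f₀ K)
    (h : ∀ y ∈ K, Tendsto (fun z : α × β => f z.1 z.2) (l ×ˢ 𝓝[K] y) (𝓝 (f₀ y))) :
    TendstoUniformlyOn f f₀ l K := by
  refine Metric.tendstoUniformlyOn_iff.2 fun ε hε => ev_compact hK fun y hy => ?_
  have h1 := ((h₀ y hy).tendsto.comp tendsto_snd).dist (h y hy)
  rw [dist_self] at h1
  exact h1.eventually (gt_mem_nhds hε)

theorem int_tendsto {f : α → ℝ → ℂ} {f₀ : ℝ → ℂ} {a b : α → ℝ} {a₀ b₀ : ℝ}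
    (ha : Tendsto a l (𝓝 a₀)) (hb : Tendsto b l (𝓝 b₀)) (h₀ : ContinuousOn f₀ (uIcc a₀ b₀))
    (hc : ∀ᶠ x in l, ContinuousOn (f x) (uIcc (a x) (b x)))
    (h : ∀ y ∈ Icc (0 : ℝ) 1,
      Tendsto (fun z : α × ℝ => f z.1 (a z.1 + z.2 * (b z.1 - a z.1))) (l ×ˢ 𝓝[Icc 0 1] y)
        (𝓝 (f₀ (a₀ + y * (b₀ - a₀))))) :
    Tendsto (fun x => ∫ θ in a x..b x, f x θ) l (𝓝 (∫ θ in a₀..b₀, f₀ θ)) := by
  have c₀ := Tool3_cont h₀
  have hu := unif_of_joint (f := fun x y => f x (a x + y * (b x - a x))) isCompact_Icc c₀ h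
  rw [Tool3_int f₀]
  refine Tendsto.congr (fun x => (Tool3_int (f x) (a x) (b x)).symm)
    ((hb.sub ha).smul (Metric.tendsto_nhds.2 fun ε hε => ?_))
  filter_upwards [hc, Metric.tendstoUniformlyOn_iff.1 hu (ε / 2) (half_pos hε)] with x h1 h2
  rw [dist_comm, dist_eq_norm, ← intervalIntegral.integral_sub
    (c₀.intervalIntegrable_of_Icc zero_le_one)
    ((Tool3_cont h1).intervalIntegrable_of_Icc zero_le_one)]
  refine (intervalIntegral.norm_integral_le_of_norm_le_const (C := ε / 2) fun y hy => ?_).trans_lt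
    (by simpa using hε)
  rw [uIoc_of_le zero_le_one] at hy
  exact (dist_eq_norm _ _).ge.trans (h2 y (Ioc_subset_Icc_self hy)).le

theorem int_contOn {T : Type} [TopologicalSpace T] {S : Set T} {f : T → ℝ → ℂ} {a b : T → ℝ}
    (ha : ContinuousOn a S) (hb : ContinuousOn b S)
    (hf : ContinuousOn (fun z : T × ℝ => f z.1 z.2) {z | z.1 ∈ S ∧ z.2 ∈ uIcc (a z.1) (b z.1)}) :
    ContinuousOn (fun x => ∫ θ in a x..b x, f x θ) S := by
  have hc : ∀ x ∈ S, ContinuousOn (f x) (uIcc (a x) (b x)) := fun x hx =>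
    hf.comp (f := fun θ : ℝ => (x, θ)) (by fun_prop) fun θ hθ => ⟨hx, hθ⟩
  intro x hx
  refine int_tendsto (ha x hx) (hb x hx) (hc x hx) (eventually_mem_nhdsWithin.mono hc)
    fun y hy => ?_
  have h1 : ContinuousOn (fun z : T × ℝ => a z.1) (S ×ˢ Icc 0 1) :=
    ha.comp continuousOn_fst fun z hz => hz.1
  have h2 : ContinuousOn (fun z : T × ℝ => b z.1) (S ×ˢ Icc 0 1) :=
    hb.comp continuousOn_fst fun z hz => hz.1
  rw [← nhdsWithin_prod_eq]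
  exact hf.comp (f := fun z : T × ℝ => (z.1, a z.1 + z.2 * (b z.1 - a z.1)))
    (continuousOn_fst.prodMk (h1.add (continuousOn_snd.mul (h2.sub h1))))
    (fun z hz => ⟨hz.1, Tool3_mem hz.2⟩) (x, y) ⟨hx, hy⟩

theorem av_tendsto {R : α → ℝ} {f : α → ℂ → ℂ} {g : ℂ → ℂ} {s : α → ℂ} {r : ℝ} (hr : 0 ≤ r)
    (hR : ∀ᶠ x in l, R x = ‖s x‖ * r ∧ ContinuousOn (f x) {v | ‖v‖ = R x})
    (hg : ContinuousOn g {w | ‖w‖ = r})
    (h : ∀ w, ‖w‖ = r → Tendsto (fun z : α × ℂ => f z.1 (s z.1 * z.2))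
      (l ×ˢ 𝓝[{w | ‖w‖ = r}] w) (𝓝 (g w))) :
    Tendsto (fun x => av (R x) (f x)) l (𝓝 (av r g)) := by
  have hK : IsCompact {w : ℂ | ‖w‖ = r} := by
    convert isCompact_sphere (0 : ℂ) r using 1
    ext w
    simp
  have hu := unif_of_joint (f := fun x w => f x (s x * w)) hK hg h
  refine Metric.tendsto_nhds.2 fun ε hε => ?_
  filter_upwards [hR, Metric.tendstoUniformlyOn_iff.1 hu (ε / 2) (half_pos hε)] with x h1 h2
  have h3 : ContinuousOn (fun w => f x (s x * w)) {w | ‖w‖ = r} :=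
    h1.2.comp (by fun_prop) fun w (hw : ‖w‖ = r) => by
      change ‖s x * w‖ = R x
      rw [norm_mul, hw, h1.1]
  rw [h1.1, ← av_scale, dist_comm, dist_eq_norm, ← av_sub hr hg h3]
  exact (av_norm_le hr fun v hv => (dist_eq_norm _ _).ge.trans (h2 v hv).le).trans_lt
    (half_lt_self hε)

theorem pathP_of {V : Set ℂ} (hV : IsOpen V) {X f₁ f₂ : ℂ → ℂ}
    (hX : ContinuousOn X {t | 0 ≤ t.im ∧ t ∈ V}) (h₁ : ContinuousOn f₁ {t | 0 ≤ t.im ∧ t ∈ V})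
    (h₂ : ContinuousOn f₂ {t | 0 ≤ t.im ∧ t ∈ V})
    (hd : ∀ t ∈ V, 0 < t.im → HasFDerivAt X (wl (f₁ t) (f₂ t)) t) :
    PathP {t | 0 ≤ t.im ∧ t ∈ V} X f₁ f₂ := by
  refine ⟨h₁, h₂, fun γ γ' a b hγ hγ' hS => ?_⟩
  have hc : ContinuousOn γ (uIcc a b) := fun x hx => (hγ x hx).continuousAt.continuousWithinAt
  obtain ⟨δ, hδ, hT⟩ := (isCompact_uIcc.image_of_continuousOn hc).exists_cthickening_subset_open
    hV (by rintro _ ⟨x, hx, rfl⟩; exact (hS x hx).2)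
  have hm : ∀ η ∈ Icc 0 δ, ∀ x ∈ uIcc a b, γ x + η * I ∈ {t : ℂ | 0 ≤ t.im ∧ t ∈ V} := by
    intro η hη x hx
    refine ⟨by simpa using add_nonneg (hS x hx).1 hη.1,
      hT (mem_cthickening_of_dist_le _ (γ x) _ _ ⟨x, hx, rfl⟩ ?_)⟩
    simpa [abs_of_nonneg hη.1] using hη.2
  have hg : ContinuousOn (fun z : ℝ × ℝ => γ z.2 + z.1 * I) {z | z.1 ∈ Icc 0 δ ∧ z.2 ∈ uIcc a b} :=
    (hc.comp continuousOn_snd fun z hz => hz.2).add (by fun_prop)
  have hg' : ContinuousOn (fun z : ℝ × ℝ => γ' z.2) {z | z.1 ∈ Icc 0 δ ∧ z.2 ∈ uIcc a b} :=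
    hγ'.comp continuousOn_snd fun z hz => hz.2
  have hF : ContinuousOn (fun z : ℝ × ℝ => f₁ (γ z.2 + z.1 * I) * γ' z.2 -
      conj (f₂ (γ z.2 + z.1 * I) * γ' z.2)) {z | z.1 ∈ Icc 0 δ ∧ z.2 ∈ uIcc a b} :=
    ((h₁.comp hg fun z hz => hm _ hz.1 _ hz.2).mul hg').sub (continuous_conj.comp_continuousOn
      ((h₂.comp hg fun z hz => hm _ hz.1 _ hz.2).mul hg'))
  have hΦ := int_contOn (S := Icc 0 δ) (a := fun _ => a) (b := fun _ => b)
    (f := fun (η x : ℝ) => f₁ (γ x + η * I) * γ' x - conj (f₂ (γ x + η * I) * γ' x))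
    continuousOn_const continuousOn_const hF
  have hX' : ∀ x ∈ uIcc a b, ContinuousOn (fun η : ℝ => X (γ x + η * I)) (Icc 0 δ) :=
    fun x hx => hX.comp (f := fun η : ℝ => γ x + η * I) (by fun_prop) fun η hη => hm η hη x hx
  have heq : EqOn (fun η : ℝ => X (γ b + η * I) - X (γ a + η * I))
      (fun η : ℝ => ∫ x in a..b, (f₁ (γ x + η * I) * γ' x - conj (f₂ (γ x + η * I) * γ' x)))
      (Ioc 0 δ) := by
    intro η hη
    have hη' := Ioc_subset_Icc_self hη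
    refine (intervalIntegral.integral_eq_sub_of_hasDerivAt (f := fun x => X (γ x + η * I))
      (fun x hx => ?_) (hF.comp (f := fun x : ℝ => (η, x)) (by fun_prop)
        fun x hx => ⟨hη', hx⟩).intervalIntegrable).symm
    have h3 := (hd _ (hm η hη' x hx).2 (by
      simpa using add_pos_of_nonneg_of_pos (hS x hx).1 hη.1)).comp_hasDerivAt x
        ((hγ x hx).add_const (η * I))
    rw [wl_apply] at h3
    exact h3
  have h0 := heq.of_subset_closure ((hX' b right_mem_uIcc).sub (hX' a left_mem_uIcc)) hΦ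
    Ioc_subset_Icc_self (closure_Ioc hδ.ne).ge ⟨le_rfl, hδ.le⟩
  simpa using h0

theorem PathP.swap {S : Set ℂ} {X f₁ f₂ : ℂ → ℂ} (h : PathP S X f₁ f₂) :
    PathP S (fun t => -conj (X t)) f₂ f₁ := by
  refine ⟨h.c₂, h.c₁, fun γ γ' a b hγ hγ' hS => ?_⟩
  rw [← neg_sub', ← map_sub, h.ftc γ γ' a b hγ hγ' hS, ← intervalIntegral.intervalIntegral_conj,
    ← intervalIntegral.integral_neg]
  simp

theorem PathP.arc {S : Set ℂ} {X f₁ f₂ : ℂ → ℂ} (h : PathP S X f₁ f₂) {x₀ : ℂ} {R a b : ℝ}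
    (hS : ∀ θ ∈ uIcc a b, x₀ + R * exp (θ * I) ∈ S) :
    X (x₀ + R * exp (b * I)) - X (x₀ + R * exp (a * I)) = arcI f₁ f₂ x₀ R a b := by
  exact h.ftc (fun θ => x₀ + R * exp (θ * I)) (fun θ => R * exp (θ * I) * I) a b
    (fun θ _ => Tool3_der x₀ R θ) (by fun_prop) hS

theorem PathP.seg {S : Set ℂ} {X f₁ f₂ : ℂ → ℂ} (h : PathP S X f₁ f₂) {t₀ t₁ : ℂ}
    (hS : ∀ x ∈ Icc (0 : ℝ) 1, t₀ + x * (t₁ - t₀) ∈ S) : X t₁ - X t₀ = segI f₁ f₂ t₀ t₁ := by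
  have := h.ftc (fun x => t₀ + x * (t₁ - t₀)) (fun _ => t₁ - t₀) 0 1
    (fun x _ => by
      simpa using ((ofRealCLM.hasDerivAt (x := x)).mul_const (t₁ - t₀)).const_add t₀)
    continuousOn_const (by rwa [uIcc_of_le zero_le_one])
  simpa [segI] using this

theorem PathP.lk {S : Set ℂ} {X f₁ f₂ : ℂ → ℂ} (h : PathP S X f₁ f₂) (ty : Bool) {x₀ x₁ : ℝ}
    (hS : ∀ θ ∈ Icc 0 Real.pi, ((x₀ + x₁) / 2 + (x₀ - x₁) / 2 * exp (θ * I) : ℂ) ∈ S) :
    Lk f₁ f₂ ty x₀ x₁ = (if ty then im else re) (X x₁ - X x₀) := by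
  have := h.ftc (fun θ => (x₀ + x₁) / 2 + (x₀ - x₁) / 2 * exp (θ * I))
    (fun θ => (x₀ - x₁) / 2 * exp (θ * I) * I) 0 Real.pi
    (fun θ _ => Tool3_der _ _ θ) (by fun_prop) (by rwa [uIcc_of_le Real.pi_pos.le])
  rw [Lk, ← this, exp_pi_mul_I, ofReal_zero, zero_mul, exp_zero]
  congr 3 <;> ring

theorem Dat.Pre.pathP {D : Dat} {X : ℂ → ℂ} (hD : D.Ok) (hX : D.Pre X) :
    PathP {t | 0 ≤ t.im ∧ D.P t ≠ 0} X D.F1 D.F2 := by
  have _ := hD
  have hn : ∀ t, D.P t ≠ 0 → t ≠ 0 := fun t hP h => hP (Dat.P_eq_zero.2 (Or.inl (Or.inl h)))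
  exact pathP_of (V := {t | D.P t ≠ 0}) (isOpen_ne_fun Dat.P_diff.continuous continuous_const)
    (hX.cont.mono fun t ht => ⟨ht.1, fun h => ht.2 (Dat.P_eq_zero.2 (Or.inl h))⟩)
    (Dat.G_cont.div continuousOn_id fun t ht => hn t ht.2)
    ((Dat.G_cont.mul continuousOn_id).inv₀ fun t ht => mul_ne_zero (Dat.G_ne t) (hn t ht.2))
    fun t _ ht => hX.der t ht

end Pool.Agent.MP_92463a_gt
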