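import Pool.Agent.MP_92463a_gt.Em0
import Pool.Agent.MP_92463a_gt.Tool3

open Set Complex Filter Metric
open scoped Topology ComplexConjugate ContDiff Manifold

noncomputable section

namespace Pool.Agent.MP_92463a_gt

variable {S : Set ℂ} {X f₁ f₂ : ℂ → ℂ} {c : ℂ} {σ ε : ℝ}

theorem pw_ne (σ : ℝ) (τ : ℂ) : pw σ τ ≠ 0 := exp_ne_zero _

theorem norm_pw (σ : ℝ) {τ : ℂ} (h : τ ≠ 0) : ‖pw σ τ‖ = ‖τ‖ ^ σ := by
  rw [pw, norm_exp, Real.rpow_def_of_pos (norm_pos_iff.2 h)]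
  simp [log_re, mul_comm]

theorem pw_mul (σ σ' : ℝ) (τ : ℂ) : pw σ τ * pw σ' τ = pw (σ + σ') τ := by
  rw [pw, pw, pw, ← exp_add]
  congr 1
  push_cast
  ring

theorem pw_one {τ : ℂ} (h : τ ≠ 0) : pw 1 τ = τ := by
  simp [pw, exp_log h]

theorem pw_polar (σ : ℝ) {r θ : ℝ} (hr : 0 < r) (hθ : θ ∈ Icc 0 Real.pi) :
    pw σ (r * exp (θ * I)) = ((r ^ σ : ℝ) : ℂ) * exp (σ * θ * I) := by
  rw [pw, log_ofReal_mul hr (exp_ne_zero _),
    log_exp (by simpa using lt_of_lt_of_le (neg_lt_zero.2 Real.pi_pos) hθ.1)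
      (by simpa using hθ.2), Real.rpow_def_of_pos hr, ofReal_exp, ← exp_add]
  congr 1
  push_cast
  ring

theorem log_near {τ v : ℂ} (h : ‖v‖ < ‖τ‖) (h₁ : 0 ≤ τ.im) (h₂ : 0 ≤ (τ + v).im) :
    log (τ + v) = log τ + log (1 + v / τ) := by
  have h0 : 0 < ‖τ‖ := (norm_nonneg v).trans_lt h
  have hτ : τ ≠ 0 := norm_pos_iff.1 h0
  have hw : 0 < (1 + v / τ).re := by
    have := (abs_le.1 (abs_re_le_norm (v / τ))).1
    have h1 : ‖v / τ‖ < 1 := by rwa [norm_div, div_lt_one h0]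
    rw [add_re, one_re]
    linarith
  have hw0 : 1 + v / τ ≠ 0 := fun e => by simp [e] at hw
  have he : τ + v = τ * (1 + v / τ) := by field_simp
  obtain ⟨n, hn⟩ := exp_eq_exp_iff_exists_int.1
    (show exp (log (τ + v)) = exp (log τ + log (1 + v / τ)) by
      rw [exp_add, exp_log hτ, exp_log hw0, exp_log (he ▸ mul_ne_zero hτ hw0), he])
  have hi := congrArg im hn
  simp only [add_im, log_im, mul_im, mul_re, intCast_re, intCast_im, ofReal_re, ofReal_im, I_re,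
    I_im, re_ofNat, im_ofNat] at hi
  have a1 := arg_nonneg_iff.2 h₁
  have a2 := arg_nonneg_iff.2 h₂
  have a3 := arg_le_pi τ
  have a4 := arg_le_pi (τ + v)
  have a5 := abs_lt.1 (abs_arg_lt_pi_div_two_iff.2 (Or.inl hw))
  have hp := Real.pi_pos
  have n1 : (n : ℝ) < 1 := by nlinarith
  have n2 : (-1 : ℝ) < n := by nlinarith
  have : n = 0 := by
    have : n < 1 := by exact_mod_cast n1
    have : -1 < n := by exact_mod_cast n2
    omega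
  simpa [this] using hn

theorem pw_close {τ t : ℂ} {η : ℝ} (h₀ : τ ≠ 0) (h₁ : 0 ≤ τ.im) (h₂ : 0 ≤ t.im)
    (h : ‖t - τ‖ ≤ η * ‖τ‖) (hη : η ≤ 1 / 10) (hσ : |σ| ≤ 3 / 2) :
    ‖pw σ t - pw σ τ‖ ≤ 5 * η * ‖τ‖ ^ σ := by
  have h0 : 0 < ‖τ‖ := norm_pos_iff.2 h₀
  have hw : ‖(t - τ) / τ‖ ≤ η := by rwa [norm_div, div_le_iff₀ h0]
  have hη0 : 0 ≤ η := (norm_nonneg _).trans hw
  have hl := log_near (τ := τ) (v := t - τ) (by nlinarith) h₁ (by simpa using h₂)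
  rw [add_sub_cancel] at hl
  have h3 := norm_log_one_add_half_le_self (z := (t - τ) / τ) (by linarith)
  have h4 : ‖σ * log (1 + (t - τ) / τ)‖ ≤ 9 / 4 * η := by
    rw [norm_mul, norm_real, Real.norm_eq_abs]
    nlinarith [abs_nonneg σ, norm_nonneg (log (1 + (t - τ) / τ))]
  have h5 := norm_exp_sub_one_le (h4.trans (by linarith))
  have : pw σ t - pw σ τ = pw σ τ * (exp (σ * log (1 + (t - τ) / τ)) - 1) := by
    rw [pw, pw, hl, mul_add, exp_add]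
    ring
  rw [this, norm_mul, norm_pw σ h₀, mul_comm]
  exact mul_le_mul_of_nonneg_right (by linarith) (by positivity)

theorem Emb1_slit {τ : ℂ} (h : 0 ≤ τ.im ∧ τ ≠ 0) : -I * τ ∈ slitPlane := by
  rw [mem_slitPlane_iff]
  by_contra hc
  simp only [neg_mul, neg_re, mul_re, I_re, zero_mul, I_im, one_mul, zero_sub, neg_neg, neg_im,
    mul_im, zero_add, ne_eq, neg_eq_zero, not_or, not_lt, not_not] at hc
  exact h.2 (Complex.ext hc.2 (le_antisymm hc.1 h.1))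

theorem Emb1_log {τ : ℂ} (h : 0 ≤ τ.im ∧ τ ≠ 0) :
    log τ = Real.pi / 2 * I + log (-I * τ) := by
  have h1 := abs_le.1 (abs_arg_le_pi_div_two_iff.2 (show 0 ≤ (-I * τ).re by simpa using h.1))
  have hp := Real.pi_pos
  rw [← log_I, ← (log_mul_eq_add_log_iff I_ne_zero (slitPlane_ne_zero (Emb1_slit h))).2
    (by rw [arg_I]; constructor <;> linarith)]
  congr 1
  rw [← mul_assoc, mul_neg, I_mul_I, neg_neg, one_mul]

theorem Emb1_der (σ : ℝ) {τ : ℂ} (h : 0 ≤ τ.im ∧ τ ≠ 0) :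
    HasDerivAt (fun t => exp (σ * (Real.pi / 2 * I + log (-I * t)))) (σ * pw (σ - 1) τ) τ := by
  have := (((((hasDerivAt_id τ).const_mul (-I)).clog (Emb1_slit h)).const_add
    (Real.pi / 2 * I)).const_mul (σ : ℂ)).cexp
  refine this.congr_deriv ?_
  have e : pw σ τ = pw (σ - 1) τ * τ := by
    have := pw_mul (σ - 1) 1 τ
    rwa [pw_one h.2, sub_add_cancel, eq_comm] at this
  simp only [id]
  rw [← Emb1_log h, ← pw, e]
  have := h.2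
  field_simp

theorem pw_cont (σ : ℝ) : ContinuousOn (pw σ) {τ | 0 ≤ τ.im ∧ τ ≠ 0} :=
  ContinuousOn.congr (fun _ h => (Emb1_der σ h).continuousAt.continuousWithinAt)
    fun τ h => by rw [pw, Emb1_log h]

theorem Emb1_int (h₁ : ContinuousOn f₁ S) (h₂ : ContinuousOn f₂ S) {γ γ' : ℝ → ℂ} {a b : ℝ}
    (hγ : ∀ x ∈ uIcc a b, HasDerivAt γ (γ' x) x) (hγ' : ContinuousOn γ' (uIcc a b))
    (hS : ∀ x ∈ uIcc a b, γ x ∈ S) : IntervalIntegrable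
      (fun x => f₁ (γ x) * γ' x - conj (f₂ (γ x) * γ' x)) MeasureTheory.volume a b := by
  have hc : ContinuousOn γ (uIcc a b) := fun x hx => (hγ x hx).continuousAt.continuousWithinAt
  exact (((h₁.comp hc hS).mul hγ').sub (continuous_conj.comp_continuousOn
    ((h₂.comp hc hS).mul hγ'))).intervalIntegrable

theorem pw_pathP (c : ℂ) (hσ : σ ≠ 0) : PathP {τ | 0 ≤ τ.im ∧ τ ≠ 0} (fun τ => c / σ * pw σ τ)
    (fun τ => c * pw (σ - 1) τ) fun _ => 0 := by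
  have hc : ContinuousOn (fun τ => c * pw (σ - 1) τ) {τ | 0 ≤ τ.im ∧ τ ≠ 0} :=
    continuousOn_const.mul (pw_cont _)
  refine ⟨hc, continuousOn_const, fun γ γ' a b hγ hγ' hS => ?_⟩
  rw [intervalIntegral.integral_eq_sub_of_hasDerivAt
    (f := fun x => c / σ * exp (σ * (Real.pi / 2 * I + log (-I * γ x)))) (fun x hx => ?_)
    (Emb1_int hc continuousOn_const hγ hγ' hS)]
  · simp only [pw]
    rw [← Emb1_log (hS a left_mem_uIcc), ← Emb1_log (hS b right_mem_uIcc)]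
  · refine (((Emb1_der σ (hS x hx)).comp x (hγ x hx)).const_mul (c / σ)).congr_deriv ?_
    have : (σ : ℂ) ≠ 0 := ofReal_ne_zero.2 hσ
    simp only [zero_mul, map_zero, sub_zero]
    field_simp

theorem ratio_sq {P P' : ℂ} {η : ℝ} (h₀ : P ≠ 0) (hη : η ≤ 1 / 10)
    (h : ‖P - P'‖ ≤ η / 2 * (‖P‖ + ‖P'‖)) : P' ≠ 0 ∧ ‖(P / P') ^ 2 - 1‖ ≤ 3 * η := by
  have ha := norm_pos_iff.2 h₀
  have hb := norm_nonneg P'
  have hη0 : 0 ≤ η := by nlinarith [norm_nonneg (P - P')]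
  have h1 : ‖P‖ ≤ ‖P - P'‖ + ‖P'‖ := by simpa using norm_add_le (P - P') P'
  have h2 : 19 * ‖P‖ ≤ 21 * ‖P'‖ := by nlinarith
  have hb' : 0 < ‖P'‖ := by linarith
  have hP : P' ≠ 0 := norm_pos_iff.1 hb'
  refine ⟨hP, ?_⟩
  have : (P / P') ^ 2 - 1 = (P - P') * (P + P') / P' ^ 2 := by
    field_simp
    ring
  rw [this, norm_div, norm_mul, norm_pow, div_le_iff₀ (by positivity)]
  calc ‖P - P'‖ * ‖P + P'‖ ≤ η / 2 * (‖P‖ + ‖P'‖) * (‖P‖ + ‖P'‖) :=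
        mul_le_mul h (norm_add_le _ _) (norm_nonneg _) (by positivity)
    _ = η / 2 * (‖P‖ + ‖P'‖) ^ 2 := by ring
    _ ≤ η / 2 * (6 * ‖P'‖ ^ 2) := by
        gcongr
        nlinarith
    _ = 3 * η * ‖P'‖ ^ 2 := by ring

theorem PathP.mono (h : PathP S X f₁ f₂) {S' : Set ℂ} (hS : S' ⊆ S) : PathP S' X f₁ f₂ :=
  ⟨h.c₁.mono hS, h.c₂.mono hS, fun γ γ' a b hγ hγ' hγS =>
    h.ftc γ γ' a b hγ hγ' fun x hx => hS (hγS x hx)⟩

theorem PathP.shift (h : PathP S X f₁ f₂) (x₀ : ℂ) : PathP {τ | x₀ + τ ∈ S} (fun τ => X (x₀ + τ))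
    (fun τ => f₁ (x₀ + τ)) fun τ => f₂ (x₀ + τ) :=
  ⟨h.c₁.comp (by fun_prop) fun _ hx => hx, h.c₂.comp (by fun_prop) fun _ hx => hx,
    fun γ γ' a b hγ hγ' hγS =>
      h.ftc (fun x => x₀ + γ x) γ' a b (fun x hx => (hγ x hx).const_add x₀) hγ' hγS⟩

theorem PathP.sub (h : PathP S X f₁ f₂) {Y g₁ g₂ : ℂ → ℂ} (h' : PathP S Y g₁ g₂) :
    PathP S (fun τ => X τ - Y τ) (fun τ => f₁ τ - g₁ τ) fun τ => f₂ τ - g₂ τ := by
  refine ⟨h.c₁.sub h'.c₁, h.c₂.sub h'.c₂, fun γ γ' a b hγ hγ' hS => ?_⟩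
  rw [sub_sub_sub_comm, h.ftc γ γ' a b hγ hγ' hS, h'.ftc γ γ' a b hγ hγ' hS,
    ← intervalIntegral.integral_sub (Emb1_int h.c₁ h.c₂ hγ hγ' hS)
      (Emb1_int h'.c₁ h'.c₂ hγ hγ' hS)]
  congr 1
  ext x
  simp only [map_mul, map_sub]
  ring

theorem Emb1_le {u v w : ℂ} {M : ℝ} (h : ‖u‖ + ‖v‖ ≤ M) : ‖u * w - conj (v * w)‖ ≤ M * ‖w‖ := by
  refine (norm_sub_le _ _).trans ?_
  rw [Complex.norm_conj, norm_mul, norm_mul, ← add_mul]
  gcongr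

theorem segI_le {t₀ t₁ : ℂ} {M : ℝ}
    (h : ∀ x ∈ Icc (0 : ℝ) 1, ‖f₁ (t₀ + x * (t₁ - t₀))‖ + ‖f₂ (t₀ + x * (t₁ - t₀))‖ ≤ M) :
    ‖segI f₁ f₂ t₀ t₁‖ ≤ M * ‖t₁ - t₀‖ := by
  simpa [segI] using intervalIntegral.norm_integral_le_of_norm_le_const (a := 0) (b := 1)
    fun x hx => Emb1_le (w := t₁ - t₀)
      (h x (by simpa using uIoc_subset_uIcc hx))

theorem arcI_le {x₀ : ℂ} {R a b M : ℝ} (hR : 0 ≤ R)
    (h : ∀ θ ∈ uIcc a b, ‖f₁ (x₀ + R * exp (θ * I))‖ + ‖f₂ (x₀ + R * exp (θ * I))‖ ≤ M) :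
    ‖arcI f₁ f₂ x₀ R a b‖ ≤ M * R * |b - a| :=
  intervalIntegral.norm_integral_le_of_norm_le_const fun θ hθ =>
    (Emb1_le (h θ (uIoc_subset_uIcc hθ))).trans_eq (by simp [abs_of_nonneg hR])

theorem segI_shift (x₀ t₀ t₁ : ℂ) : segI f₁ f₂ (x₀ + t₀) (x₀ + t₁) =
    segI (fun τ => f₁ (x₀ + τ)) (fun τ => f₂ (x₀ + τ)) t₀ t₁ := by
  simp only [segI, add_sub_add_left_eq_sub, add_assoc]

theorem arcI_shift (x₀ : ℂ) (R a b : ℝ) : arcI f₁ f₂ x₀ R a b =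
    arcI (fun τ => f₁ (x₀ + τ)) (fun τ => f₂ (x₀ + τ)) 0 R a b := by
  simp only [arcI, zero_add]

theorem segI_swap (t₀ t₁ : ℂ) : segI f₂ f₁ t₀ t₁ = -conj (segI f₁ f₂ t₀ t₁) := by
  rw [segI, segI, ← intervalIntegral.intervalIntegral_conj, ← intervalIntegral.integral_neg]
  simp

theorem arcI_swap (x₀ : ℂ) (R a b : ℝ) : arcI f₂ f₁ x₀ R a b = -conj (arcI f₁ f₂ x₀ R a b) := by
  rw [arcI, arcI, ← intervalIntegral.intervalIntegral_conj, ← intervalIntegral.integral_neg]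
  simp

end Pool.Agent.MP_92463a_gt
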