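import Pool.Agent.MP_92463a_gt.Em1
import Pool.Agent.MP_92463a_gt.DatC
import Pool.Agent.MP_92463a_gt.Emb1

open Set Complex Filter Metric
open scoped Topology ComplexConjugate ContDiff Manifold

noncomputable section

namespace Pool.Agent.MP_92463a_gt

namespace Dat

variable {D : Dat} {j : ℕ} {τ : ℂ}

theorem CfA_q {x c : ℝ} (h : ‖τ‖ < c / 2) (hx : c ≤ |x|) : ‖τ‖ < |x| ∧ ‖τ / x‖ < 1 := by
  have h0 := norm_nonneg τ
  have h1 : ‖τ‖ < |x| := by linarith
  exact ⟨h1, by rwa [norm_div, norm_real, Real.norm_eq_abs, div_lt_one (h0.trans_lt h1)]⟩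

theorem CfA_log {x : ℝ} (hi : 0 ≤ τ.im) (h : ‖τ‖ < |x|) :
    log (x + τ) = Real.log |x| + (if x < 0 then Real.pi * I else 0) + log (1 + τ / x) := by
  rw [log_near (by simpa using h) (by simp) (by simpa using hi), Complex.log, norm_real,
    Real.norm_eq_abs]
  split_ifs with hx
  · rw [arg_ofReal_of_neg hx]
  · rw [arg_ofReal_of_nonneg (not_lt.1 hx)]; simp

theorem Ok.b0_le (hD : D.Ok) (hj : j < D.q) : D.b 0 ≤ D.b j := by
  rcases Nat.eq_zero_or_pos j with rfl | h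
  · exact le_rfl
  · linarith [hD.b_gap 0 j h hj, hD.b_pos 0 (by omega)]

theorem CfA_b (hD : D.Ok) (hj : j < D.q) {i : ℕ} (hi : i ∈ (Finset.range D.q).erase j) :
    D.b 0 ≤ |D.b i - D.b j| ∧ (D.b i - D.b j < 0 ↔ i < j) := by
  obtain ⟨h1, h2⟩ := Finset.mem_erase.1 hi
  rw [Finset.mem_range] at h2
  have a := hD.b0_le hj
  have b := hD.b0_le h2
  have c := hD.b_pos 0 (by omega)
  rcases lt_or_gt_of_ne h1 with h | h
  · have := hD.b_gap i j h hj
    exact ⟨le_abs.2 (Or.inr (by linarith)), fun _ => h, fun _ => by linarith⟩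
  · have := hD.b_gap j i h h2
    exact ⟨le_abs.2 (Or.inl (by linarith)), fun _ => by linarith, fun _ => by omega⟩

theorem CfA_a (hD : D.Ok) (hj : j < D.q) {i : ℕ} (hi : i ∈ Finset.range D.p) :
    D.b 0 ≤ D.a i + D.b j := by
  linarith [hD.b0_le hj, hD.a_pos i (Finset.mem_range.1 hi)]

theorem CfA_slit (hD : D.Ok) (hj : j < D.q) (h : ‖τ‖ < D.b 0 / 2) :
    1 - τ / D.b j ∈ slitPlane ∧
      (∀ i ∈ (Finset.range D.q).erase j, 1 + τ / (D.b i - D.b j) ∈ slitPlane) ∧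
      ∀ i ∈ Finset.range D.p, 1 - τ / (D.a i + D.b j) ∈ slitPlane := by
  refine ⟨?_, fun i hi => ?_, fun i hi => ?_⟩
  · rw [sub_eq_add_neg]
    exact mem_slitPlane_of_norm_lt_one
      (by simpa using (CfA_q h ((hD.b0_le hj).trans (le_abs_self _))).2)
  · exact mem_slitPlane_of_norm_lt_one (by exact_mod_cast (CfA_q h (CfA_b hD hj hi).1).2)
  · rw [sub_eq_add_neg]
    refine mem_slitPlane_of_norm_lt_one ?_
    rw [norm_neg]
    exact_mod_cast (CfA_q h ((CfA_a hD hj hi).trans (le_abs_self _))).2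

theorem Ok.P_loc (hD : D.Ok) (hj : j < D.q) (h₀ : τ ≠ 0) (h : ‖τ‖ < D.b 0 / 2) :
    D.P (-D.b j + τ) ≠ 0 := by
  obtain ⟨h1, h2, h3⟩ := CfA_slit hD hj h
  have hb : (D.b j : ℂ) ≠ 0 := ofReal_ne_zero.2 (hD.b_pos j hj).ne'
  refine mul_ne_zero (mul_ne_zero (fun e => slitPlane_ne_zero h1 ?_)
    (Finset.prod_ne_zero_iff.2 fun i hi e => ?_)) (Finset.prod_ne_zero_iff.2 fun i hi e => ?_)
  · rw [show τ = D.b j by linear_combination e, div_self hb, sub_self]
  · by_cases hij : i = j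
    · exact h₀ (by rw [hij] at e; linear_combination e)
    · have h4 := (CfA_q h (CfA_b hD hj (Finset.mem_erase.2 ⟨hij, hi⟩)).1).1
      rw [show τ = -((D.b i - D.b j : ℝ) : ℂ) by push_cast; linear_combination e] at h4
      rw [norm_neg, norm_real] at h4
      exact lt_irrefl _ h4
  · have h4 := (CfA_q h ((CfA_a hD hj hi).trans (le_abs_self _))).1
    rw [show τ = ((D.a i + D.b j : ℝ) : ℂ) by push_cast; linear_combination -e, norm_real] at h4
    exact lt_irrefl _ h4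

theorem Ok.lam_hol (hD : D.Ok) (hj : j < D.q) :
    DifferentiableOn ℂ (D.lam j) (ball 0 (D.b 0 / 2)) := by
  have h := fun τ (hτ : τ ∈ ball (0 : ℂ) (D.b 0 / 2)) => CfA_slit hD hj (mem_ball_zero_iff.1 hτ)
  exact (((DifferentiableOn.clog (by fun_prop) fun τ hτ => (h τ hτ).1).neg.div_const 2).add
    (DifferentiableOn.fun_sum fun i hi => (DifferentiableOn.clog (by fun_prop)
      fun τ hτ => (h τ hτ).2.1 i hi).const_mul _)).sub
    (DifferentiableOn.fun_sum fun i hi => (DifferentiableOn.clog (by fun_prop)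
      fun τ hτ => (h τ hτ).2.2 i hi).const_mul _)

theorem lam_zero : D.lam j 0 = 0 := by
  simp [lam]

theorem Ok.lam_conj (hD : D.Ok) (hj : j < D.q) (h : ‖τ‖ < D.b 0 / 2) :
    D.lam j (conj τ) = conj (D.lam j τ) := by
  obtain ⟨h1, h2, h3⟩ := CfA_slit hD hj h
  simp only [lam, map_sub, map_add, map_sum, map_div₀, map_neg, map_mul, conj_ofReal, map_ofNat,
    map_one]
  refine congrArg₂ _ (congrArg₂ _ ?_ (Finset.sum_congr rfl fun i hi => ?_))
    (Finset.sum_congr rfl fun i hi => ?_)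
  · rw [← log_conj _ (slitPlane_arg_ne_pi h1)]; simp
  · rw [← log_conj _ (slitPlane_arg_ne_pi (h2 i hi))]; simp
  · rw [← log_conj _ (slitPlane_arg_ne_pi (h3 i hi))]; simp

theorem Ok.G_loc (hD : D.Ok) (hj : j < D.q) (hi : 0 ≤ τ.im) (h₀ : τ ≠ 0) (h : ‖τ‖ < D.b 0 / 2) :
    D.G (-D.b j + τ) = exp (D.A j + ph j * I + sg j * (3 / 2) * log τ + D.lam j τ) := by
  have hb := hD.b_pos j hj
  have e0 : log (-D.b j + τ) = Real.log (D.b j) + Real.pi * I + log (1 - τ / D.b j) := by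
    have := CfA_log (x := -D.b j) hi (CfA_q h ((hD.b0_le hj).trans (by simp [le_abs_self]))).1
    rw [if_pos (by linarith), abs_neg, abs_of_pos hb, ofReal_neg, div_neg,
      ← sub_eq_add_neg 1] at this
    exact this
  have e1 : ∀ i ∈ (Finset.range D.q).erase j, sg i * (3 / 2) * log (-D.b j + τ + D.b i) =
      ((sg i * (3 / 2) * Real.log |D.b i - D.b j| : ℝ) : ℂ) +
        ((sg i * if i < j then 1 else 0 : ℝ) : ℂ) * (3 / 2 * (Real.pi * I)) +
        sg i * (3 / 2) * log (1 + τ / (D.b i - D.b j)) := fun i hi' => by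
    have := CfA_log hi (CfA_q h (CfA_b hD hj hi').1).1
    simp only [(CfA_b hD hj hi').2, ofReal_sub] at this
    rw [show -(D.b j : ℂ) + τ + D.b i = D.b i - D.b j + τ by ring, this]
    split_ifs <;> push_cast <;> ring
  have e2 : ∀ i ∈ Finset.range D.p, sg i * (1 / 2) * lm (D.a i) (-D.b j + τ) =
      ((sg i * (1 / 2) * Real.log (D.a i + D.b j) : ℝ) : ℂ) +
        sg i * (1 / 2) * log (1 - τ / (D.a i + D.b j)) := fun i hi' => by
    have h1 : 0 < D.a i + D.b j := add_pos (hD.a_pos i (Finset.mem_range.1 hi')) hb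
    have := CfA_log (x := -(D.a i + D.b j)) hi
      (CfA_q h ((CfA_a hD hj hi').trans (by rw [abs_neg]; exact le_abs_self _))).1
    rw [if_pos (by linarith), abs_neg, abs_of_pos h1, ofReal_neg, div_neg,
      ← sub_eq_add_neg 1, ofReal_add] at this
    rw [lm, show -(D.b j : ℂ) + τ - D.a i = -(D.a i + D.b j) + τ by ring, this]
    push_cast
    ring
  have e3 : ∑ i ∈ (Finset.range D.q).erase j, (sg i * if i < j then 1 else 0) =
      if Even j then 0 else 1 := by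
    rw [Finset.sum_erase _ (by simp), Phase_sum (c := 1) hj.le (fun i hi => if_pos hi)
      fun i hi _ => if_neg hi.not_gt, mul_one]
  rw [G, LG, ← Finset.add_sum_erase _ _ (Finset.mem_range.2 hj), Finset.sum_congr rfl e1,
    Finset.sum_congr rfl e2, e0, Finset.sum_add_distrib, Finset.sum_add_distrib,
    Finset.sum_add_distrib, ← Finset.sum_mul, ← ofReal_sum, ← ofReal_sum, ← ofReal_sum, e3,
    show -(D.b j : ℂ) + τ + D.b j = τ by ring, A, lam, ph]
  congr 1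
  generalize ∑ i ∈ (Finset.range D.q).erase j, sg i * (3 / 2) * Real.log |D.b i - D.b j| = s₁
  generalize ∑ i ∈ Finset.range D.p, sg i * (1 / 2) * Real.log (D.a i + D.b j) = s₂
  split_ifs <;> push_cast <;> ring

theorem CfA_up (hD : D.Ok) (hj : j < D.q) (hi : 0 ≤ τ.im) (h : ‖τ‖ < D.b 0 / 2) {w : ℂ}
    (hw : exp w = τ) : D.P (-D.b j + τ) * D.R (-D.b j + τ) ^ 2 =
      exp (D.A j + ph j * I + sg j * (3 / 2) * w + D.lam j τ) ^ 2 := by
  have h₀ : τ ≠ 0 := hw ▸ exp_ne_zero w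
  have hP := hD.P_loc hj h₀ h
  obtain ⟨n, hn⟩ := exp_eq_exp_iff_exists_int.1 ((exp_log h₀).trans hw.symm)
  rw [← Y_sq hP, ← mul_pow, ← hD.G_eq hP, hD.G_loc hj hi h₀ h, hn, ← exp_nat_mul, ← exp_nat_mul]
  refine exp_eq_exp_iff_exists_int.2 ⟨3 * (-1) ^ j * n, ?_⟩
  simp only [sg]
  push_cast
  ring

theorem Ok.PR_loc (hD : D.Ok) (hj : j < D.q) (h : ‖τ‖ < D.b 0 / 2) {w : ℂ} (hw : exp w = τ) :
    D.P (-D.b j + τ) * D.R (-D.b j + τ) ^ 2 =
      exp (D.A j + ph j * I + sg j * (3 / 2) * w + D.lam j τ) ^ 2 := by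
  rcases le_total 0 τ.im with hi | hi
  · exact CfA_up hD hj hi h hw
  have h1 := CfA_up (τ := conj τ) (w := conj w) hD hj (by simpa using hi) (by simpa using h)
    (by rw [exp_conj, hw])
  have h2 : -(D.b j : ℂ) + conj τ = conj (-D.b j + τ) := by simp
  rw [h2, P_conj, R_conj, hD.lam_conj hj h] at h1
  have h3 := congrArg conj h1
  simp only [map_mul, map_pow, conj_conj, ← exp_conj, map_add, conj_ofReal, conj_I, map_div₀,
    map_ofNat] at h3
  rw [h3, ← exp_nat_mul, ← exp_nat_mul]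
  refine exp_eq_exp_iff_exists_int.2 ⟨if Even j then 1 else -2, ?_⟩
  rw [ph]
  split_ifs <;> push_cast <;> ring

variable {α : Type} {l : Filter α} {D : α → Dat} {D₀ : Dat}

theorem Tends.A (h : Tends l D D₀) (hj : j < D₀.q) :
    Tendsto (fun x => (D x).A j) l (𝓝 (D₀.A j)) := by
  have hD := h.ok₀
  have hb := h.b j hj
  have h0 := hD.b_pos 0 (by omega)
  refine Tendsto.congr' ?_ ((((h.ρ.log hD.ρ_pos.ne').sub
    ((hb.log (hD.b_pos j hj).ne').div_const 2)).add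
    (tendsto_finsetSum ((Finset.range D₀.q).erase j) fun i hi =>
      ((((h.b i (Finset.mem_range.1 (Finset.mem_of_mem_erase hi))).sub hb).abs.log
        (h0.trans_le (CfA_b hD hj hi).1).ne').const_mul (sg i * (3 / 2))))).sub
    (tendsto_finsetSum (Finset.range D₀.p) fun i hi =>
      (((h.a i (Finset.mem_range.1 hi)).add hb).log
        (h0.trans_le (CfA_a hD hj hi)).ne').const_mul (sg i * (1 / 2))))
  filter_upwards [h.ok] with x hx
  rw [Dat.A, hx.2.1, hx.2.2]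

theorem Tends.lam (h : Tends l D D₀) (hj : j < D₀.q) {τ : α → ℂ} {τ₀ : ℂ}
    (hτ : Tendsto τ l (𝓝 τ₀)) (h₀ : ‖τ₀‖ < D₀.b 0 / 2) :
    Tendsto (fun x => (D x).lam j (τ x)) l (𝓝 (D₀.lam j τ₀)) := by
  have hD := h.ok₀
  have hb := h.b j hj
  have h0 := hD.b_pos 0 (by omega)
  obtain ⟨h1, h2, h3⟩ := CfA_slit hD hj h₀
  refine Tendsto.congr' ?_ (((((hτ.div (DatC_re hb)
    (ofReal_ne_zero.2 (hD.b_pos j hj).ne')).const_sub 1).clog h1).neg.div_const 2).add
    (tendsto_finsetSum ((Finset.range D₀.q).erase j) fun i hi =>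
      (((hτ.div ((DatC_re (h.b i (Finset.mem_range.1 (Finset.mem_of_mem_erase hi)))).sub
        (DatC_re hb)) (by exact_mod_cast abs_pos.1 (h0.trans_le (CfA_b hD hj hi).1))).const_add
          1).clog (h2 i hi)).const_mul ((sg i : ℂ) * (3 / 2))) |>.sub
    (tendsto_finsetSum (Finset.range D₀.p) fun i hi =>
      (((hτ.div ((DatC_re (h.a i (Finset.mem_range.1 hi))).add (DatC_re hb))
        (by exact_mod_cast (h0.trans_le (CfA_a hD hj hi)).ne')).const_sub 1).clog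
          (h3 i hi)).const_mul ((sg i : ℂ) * (1 / 2))))
  filter_upwards [h.ok] with x hx
  rw [Dat.lam, hx.2.1, hx.2.2]
  rfl

theorem Tends.lam_small (h : Tends l D D₀) (hj : j < D₀.q) : ∀ ε > 0,
    ∀ᶠ δ in 𝓝[>] (0 : ℝ), ∀ᶠ x in l, ∀ τ : ℂ, ‖τ‖ ≤ δ → ‖(D x).lam j τ‖ ≤ ε := by
  intro ε hε
  have h1 := (h.comp (tendsto_fst (g := 𝓝 (0 : ℂ)))).lam hj tendsto_snd
    (by simpa using h.ok₀.b_pos 0 (by omega))
  rw [lam_zero] at h1
  obtain ⟨pa, ha, pb, hb, h2⟩ := eventually_prod_iff.1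
    ((tendsto_zero_iff_norm_tendsto_zero.1 h1).eventually (ge_mem_nhds hε))
  obtain ⟨r, hr, h3⟩ := Metric.eventually_nhds_iff.1 hb
  filter_upwards [nhdsWithin_le_nhds (gt_mem_nhds hr)] with δ hδ
  filter_upwards [ha] with x hx τ hτ
  exact h2 hx (h3 (by simpa using hτ.trans_lt hδ))

theorem Tends.R (h : Tends l D D₀) {t : α → ℂ} {t₀ : ℂ} (ht : Tendsto t l (𝓝 t₀))
    (hP : D₀.P t₀ ≠ 0) : Tendsto (fun x => (D x).R (t x)) l (𝓝 (D₀.R t₀)) := by
  obtain ⟨h0, h1, h2⟩ := Alg_ne hP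
  have e1 : ∀ j ∈ Finset.range D₀.q, Tendsto
      (fun x => if Even j then t x + (D x).b j else ((t x + (D x).b j) ^ 2)⁻¹) l
      (𝓝 (if Even j then t₀ + D₀.b j else ((t₀ + D₀.b j) ^ 2)⁻¹)) := fun j hj => by
    have := ht.add (DatC_re (h.b j (Finset.mem_range.1 hj)))
    split_ifs
    exacts [this, (this.pow 2).inv₀ (pow_ne_zero 2 (h1 j hj))]
  have e2 : ∀ i ∈ Finset.range D₀.p, Tendsto
      (fun x => if Even i then ((D x).a i - t x)⁻¹ else 1) l
      (𝓝 (if Even i then (D₀.a i - t₀)⁻¹ else 1)) := fun i hi => by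
    split_ifs
    exacts [((DatC_re (h.a i (Finset.mem_range.1 hi))).sub ht).inv₀ (h2 i hi), tendsto_const_nhds]
  refine Tendsto.congr' ?_ ((((DatC_re h.ρ).div ht h0).mul (tendsto_finsetProd _ e1)).mul
    (tendsto_finsetProd _ e2))
  filter_upwards [h.ok] with x hx
  rw [Dat.R, hx.2.1, hx.2.2]
  rfl

end Dat

end Pool.Agent.MP_92463a_gt
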