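import Pool.Agent.MP_92463a_gt.Pl0

open Set Complex Filter Metric
open scoped Topology ComplexConjugate ContDiff Manifold

noncomputable section

namespace Pool.Agent.MP_92463a_gt

namespace Pl

variable {ι : Type} {P : Pl ι}

theorem Ok.rin_pos (h : P.Ok) (e : ι × Bool) : 0 < P.rin e := by
  exact div_pos (norm_pos_iff.2 (h.s_ne _)) (h.ρ_pos _)

theorem Ok.rin_mul (h : P.Ok) (e : ι × Bool) : P.rin e * P.ρ (op e) = ‖P.s e.1‖ := by
  exact div_mul_cancel₀ _ (h.ρ_pos _).ne'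

theorem Ok.PlB_rin_ρ (h : P.Ok) (e : ι × Bool) : 16 * P.rin e ≤ P.ρ e := by
  have h1 := h.s_small e
  rw [← h.rin_mul e, ← mul_assoc] at h1
  exact le_of_mul_le_mul_right h1 (h.ρ_pos _)

theorem Ok.PlB_mu_sq (h : P.Ok) (e : ι × Bool) : P.mu e ^ 2 = P.rin e * P.ρ e := by
  have h1 := h.ρ_pos e
  have h2 := h.ρ_pos (op e)
  rw [mu, Real.sq_sqrt (by positivity), rin]
  ring

theorem Ok.rin_mu (h : P.Ok) (e : ι × Bool) : 4 * P.rin e ≤ P.mu e := by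
  have h1 := h.rin_pos e
  have h2 := h.PlB_rin_ρ e
  refine le_of_sq_le_sq ?_ (Real.sqrt_nonneg _ : 0 ≤ P.mu e)
  rw [h.PlB_mu_sq]
  nlinarith

theorem Ok.mu_ρ (h : P.Ok) (e : ι × Bool) : 4 * P.mu e ≤ P.ρ e := by
  have h1 := h.ρ_pos e
  have h2 := h.PlB_rin_ρ e
  refine le_of_sq_le_sq ?_ h1.le
  rw [mul_pow, h.PlB_mu_sq]
  nlinarith

theorem Ok.mu_mul (h : P.Ok) (e : ι × Bool) : P.mu e * P.mu (op e) = ‖P.s e.1‖ := by
  have h1 := h.ρ_pos e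
  have h2 := h.ρ_pos (op e)
  have h3 := norm_nonneg (P.s e.1)
  rw [mu, mu, ← Real.sqrt_mul (by positivity), op_op, op_fst,
    show ‖P.s e.1‖ * P.ρ e / P.ρ (op e) * (‖P.s e.1‖ * P.ρ (op e) / P.ρ e) = ‖P.s e.1‖ ^ 2 by
      field_simp, Real.sqrt_sq h3]

theorem Ok.ann_ne (h : P.Ok) {e : ι × Bool} {v : ℂ} (hv : v ∈ P.Ann e) : v ≠ 0 := by
  exact norm_pos_iff.1 ((h.rin_pos e).trans hv.1)

theorem Ok.ann_op (h : P.Ok) {e : ι × Bool} {v : ℂ} (hv : v ∈ P.Ann e) :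
    P.s e.1 / v ∈ P.Ann (op e) := by
  have h0 : 0 < ‖v‖ := (h.rin_pos e).trans hv.1
  have h1 := h.rin_mul e
  have h2 := h.rin_mul (op e)
  rw [op_op, op_fst] at h2
  refine ⟨?_, ?_⟩
  · rw [norm_div, lt_div_iff₀ h0, ← h2]
    exact mul_lt_mul_of_pos_left hv.2 (h.rin_pos _)
  · rw [norm_div, div_lt_iff₀ h0, ← h1, mul_comm]
    exact mul_lt_mul_of_pos_left hv.1 (h.ρ_pos _)

theorem Ok.ann_sub (h : P.Ok) (e : ι × Bool) : P.Ann e ⊆ P.Ann2 e := by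
  exact fun v hv => ⟨hv.1, by linarith [hv.2, h.ρ_pos e]⟩

theorem Ok.circ_mem (h : P.Ok) {e : ι × Bool} {v : ℂ} (hv : ‖v‖ = P.ρ e) : v ∈ P.Ann2 e := by
  refine ⟨?_, ?_⟩ <;> rw [hv] <;> linarith [h.ρ_pos e, h.PlB_rin_ρ e, h.rin_pos e]

theorem Ok.circ_rin (h : P.Ok) {e : ι × Bool} {v : ℂ} (hv : ‖v‖ = P.ρ (op e)) :
    ‖P.s e.1 / v‖ = P.rin e := by
  rw [norm_div, hv, rin]

theorem Ok.far (h : P.Ok) {e e' : ι × Bool} (hne : e ≠ e') {v : ℂ} (hv : ‖v‖ ≤ 2 * P.ρ e) :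
    2 * P.ρ e' ≤ ‖P.c e + v - P.c e'‖ := by
  have h1 := h.sep e e' hne
  have h2 := norm_sub_le (P.c e + v - P.c e') v
  rw [show P.c e + v - P.c e' - v = P.c e - P.c e' by ring] at h2
  linarith

theorem Ok.circ_far (h : P.Ok) {e : ι × Bool} (e' : ι × Bool) {v : ℂ} (hv : ‖v‖ = P.ρ e) :
    P.ρ e' ≤ ‖P.c e + v - P.c e'‖ := by
  by_cases hne : e = e'
  · subst hne
    simp [hv]
  · have := h.far hne (v := v) (by linarith [h.ρ_pos e])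
    linarith [h.ρ_pos e']

theorem Ok.ann2_mem (h : P.Ok) {e : ι × Bool} {v : ℂ} (hv : v ∈ P.Ann2 e) : P.c e + v ∈ P.Om := by
  intro e'
  by_cases hne : e = e'
  · subst hne
    simpa using hv.1
  · have := h.far hne hv.2.le
    linarith [h.ρ_pos e', h.PlB_rin_ρ e', h.rin_pos e']

theorem Ok.port_eq (h : P.Ok) {e e' : ι × Bool} {t : ℂ} (h1 : ‖t - P.c e‖ < 2 * P.ρ e)
    (h2 : ‖t - P.c e'‖ < 2 * P.ρ e') : e = e' := by
  by_contra hne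
  have := h.far hne h1.le
  rw [add_sub_cancel] at this
  linarith

theorem Ok.fd_sub (h : P.Ok) : P.Fd ⊆ P.Om := by
  exact fun t ht e => by linarith [ht e, h.rin_mu e, h.rin_pos e]

theorem Ok.mem_fd (h : P.Ok) {e : ι × Bool} {v : ℂ} (h1 : P.mu e ≤ ‖v‖) (h2 : ‖v‖ ≤ 2 * P.ρ e) :
    P.c e + v ∈ P.Fd := by
  intro e'
  by_cases hne : e = e'
  · subst hne
    simpa using h1
  · have := h.far hne h2
    linarith [h.ρ_pos e', h.mu_ρ e']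

theorem Ok.cover (h : P.Ok) {t : ℂ} (ht : t ∈ P.Om) : t ∈ P.Fd ∨ ∃ e, ∃ v ∈ P.Ann e,
    t = P.c e + v ∧ ‖v‖ < P.mu e ∧ P.mu (op e) < ‖P.s e.1 / v‖ ∧
      P.c (op e) + P.s e.1 / v ∈ P.Fd := by
  by_cases hf : t ∈ P.Fd
  · exact Or.inl hf
  obtain ⟨e, he⟩ : ∃ e, ‖t - P.c e‖ < P.mu e := by
    by_contra hc
    exact hf fun e => not_lt.1 fun he => hc ⟨e, he⟩
  have hm : 0 < P.mu e := (norm_nonneg _).trans_lt he
  have ha : t - P.c e ∈ P.Ann e := ⟨ht e, by linarith [h.mu_ρ e]⟩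
  have h0 : 0 < ‖t - P.c e‖ := norm_pos_iff.2 (h.ann_ne ha)
  have h1 : P.mu (op e) < ‖P.s e.1 / (t - P.c e)‖ := by
    rw [norm_div, lt_div_iff₀ h0, ← h.mu_mul e, mul_comm]
    exact mul_lt_mul_of_pos_right he (by linarith [h.rin_mu (op e), h.rin_pos (op e)])
  exact Or.inr ⟨e, _, ha, by ring, he, h1,
    h.mem_fd h1.le (by linarith [(h.ann_op ha).2, h.ρ_pos (op e)])⟩

theorem isClosed_fd : IsClosed P.Fd := by
  rw [Fd, ofPred_forall]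
  exact isClosed_iInter fun e => isClosed_le continuous_const (by fun_prop)

theorem isOpen_om [Finite ι] : IsOpen P.Om := by
  rw [Om, ofPred_forall]
  exact isOpen_iInter_of_finite fun e => isOpen_lt continuous_const (by fun_prop)

theorem isOpen_ann (e : ι × Bool) : IsOpen (P.Ann e) := by
  exact (isOpen_lt continuous_const continuous_norm).inter (isOpen_lt continuous_norm continuous_const)

theorem isOpen_ann2 (e : ι × Bool) : IsOpen (P.Ann2 e) := by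
  exact (isOpen_lt continuous_const continuous_norm).inter (isOpen_lt continuous_norm continuous_const)

theorem om_far [Finite ι] : ∃ R : ℝ, ∀ t : ℂ, R < ‖t‖ → t ∈ P.Fd ∧ t ∈ P.Om := by
  obtain ⟨R, hR⟩ := (Set.finite_range fun e => ‖P.c e‖ + max (P.mu e) (P.rin e)).bddAbove
  refine ⟨R, fun t ht => ⟨fun e => ?_, fun e => ?_⟩⟩ <;>
  linarith [hR ⟨e, rfl⟩, norm_sub_norm_le t (P.c e), le_max_left (P.mu e) (P.rin e),
    le_max_right (P.mu e) (P.rin e)]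

theorem Sy.rin {κ : ι → ι} (h : P.Sy κ) (e : ι × Bool) : P.rin (κ e.1, e.2) = P.rin e := by
  have := h.ρ (op e)
  simp only [Pl.rin, op, h.s, RCLike.norm_conj] at this ⊢
  rw [this]

theorem Sy.mu {κ : ι → ι} (h : P.Sy κ) (e : ι × Bool) : P.mu (κ e.1, e.2) = P.mu e := by
  have := h.ρ (op e)
  simp only [Pl.mu, op, h.s, h.ρ, RCLike.norm_conj] at this ⊢
  rw [this]

theorem Sy.PlB_norm {κ : ι → ι} (h : P.Sy κ) (t : ℂ) (e : ι × Bool) :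
    ‖conj t - P.c e‖ = ‖t - P.c (κ e.1, e.2)‖ := by
  rw [h.c, ← RCLike.norm_conj (t - _), map_sub, conj_conj]

theorem Sy.om {κ : ι → ι} (h : P.Sy κ) {t : ℂ} (ht : t ∈ P.Om) : conj t ∈ P.Om := by
  intro e
  rw [h.PlB_norm, ← h.rin]
  exact ht _

theorem Sy.fd {κ : ι → ι} (h : P.Sy κ) {t : ℂ} (ht : t ∈ P.Fd) : conj t ∈ P.Fd := by
  intro e
  rw [h.PlB_norm, ← h.mu]
  exact ht _

theorem Sy.ann {κ : ι → ι} (h : P.Sy κ) {e : ι × Bool} {v : ℂ} (hv : v ∈ P.Ann e) :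
    conj v ∈ P.Ann (κ e.1, e.2) := by
  refine ⟨?_, ?_⟩
  · rw [h.rin, RCLike.norm_conj]
    exact hv.1
  · rw [h.ρ, RCLike.norm_conj]
    exact hv.2

theorem Wt.ne {m : ι × Bool → ℂ → ℂ} (h : P.Wt m) {e : ι × Bool} {v : ℂ}
    (hv : ‖v‖ < 2 * P.ρ e) : m e v ≠ 0 ∧ ‖m e v‖ ≤ 3 / 2 ∧ ‖(m e v)⁻¹‖ ≤ 2 := by
  have h1 := h.near e v (by simpa using hv)
  have h2 := norm_sub_norm_le (m e v) 1
  have h3 := norm_sub_norm_le 1 (m e v)
  rw [norm_sub_rev, norm_one] at h3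
  rw [norm_one] at h2
  have h4 : 0 < ‖m e v‖ := by linarith
  refine ⟨norm_pos_iff.1 h4, by linarith, ?_⟩
  rw [norm_inv, inv_le_comm₀ h4 two_pos]
  linarith

theorem Wt.schwarz {m : ι × Bool → ℂ → ℂ} (h : P.Wt m) {e : ι × Bool} {v : ℂ}
    (hv : ‖v‖ < 2 * P.ρ e) : ‖m e v - 1‖ ≤ ‖v‖ / (4 * P.ρ e) := by
  have h1 := Complex.dist_le_div_mul_dist_of_mapsTo_ball (R₂ := 1 / 2) (h.hol e)
    (fun w hw => by simpa [h.zero, dist_eq_norm] using h.near e w hw) (z := v) (by simpa using hv)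
  rw [h.zero, dist_eq_norm, dist_zero_right] at h1
  refine h1.trans_eq ?_
  ring

theorem wt_one : P.Wt fun _ _ => 1 := by
  exact ⟨fun _ => differentiableOn_const 1, fun _ => rfl, fun _ _ _ => by simp⟩

end Pl

end Pool.Agent.MP_92463a_gt
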