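import Pool.Agent.MP_92463a_gt.CfA
import Pool.Agent.MP_92463a_gt.ZsB
import Pool.Agent.MP_92463a_gt.PlB

open Set Complex Filter Metric
open scoped Topology ComplexConjugate ContDiff Manifold

noncomputable section

namespace Pool.Agent.MP_92463a_gt

namespace Cfg

variable {γ : ℕ} {C : Cfg γ} {k : Fin γ} {b : Bool} {e : Fin γ × Bool}

theorem τ_ne (e : Fin γ × Bool) : C.τ e ≠ 0 := by
  exact exp_ne_zero _

theorem RR_pos (b : Bool) : 0 < C.RR b := by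
  exact Real.exp_pos _

theorem τ_eq (e : Fin γ × Bool) : C.τ e = C.RR e.2 * exp (C.z.lu e) := by
  rw [τ, lg, exp_add, RR, ofReal_exp]

theorem polar (e : Fin γ × Bool) : C.τ e = (‖C.τ e‖ : ℂ) * exp ((C.lg e).im * I) := by
  rw [τ, norm_exp, ofReal_exp, ← exp_add, re_add_im]

theorem τ_true (k : Fin γ) :
    C.τ (k, true) = -(Real.exp (C.lk true) * conj (C.τ (k, false))) * exp (C.z.2.2.2 k) := by
  rw [τ, τ, ← exp_conj, ofReal_exp, ← exp_add, ← neg_one_mul, ← exp_pi_mul_I, ← exp_add, ← exp_add]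
  congr 1
  simp only [lg, Zs.lu, lk, map_add, map_mul, conj_ofReal, conj_I, Bool.false_eq_true, if_false]
  push_cast
  ring

theorem Adm.jj_lt (h : C.Adm) (b : Bool) : jj b < C.D.q := by
  have := h.q
  cases b <;> simp only [jj, Bool.false_eq_true, if_false, if_true] <;> omega

theorem Adm.bb (h : C.Adm) (b : Bool) : 0 < C.D.b 0 ∧ C.D.b 0 ≤ C.bb b ∧ 5 * C.D.b 0 < C.D.b 1 := by
  have h0 := h.d.b_pos 0 (h.jj_lt false)
  have h1 := h.d.b_gap 0 1 one_pos (h.jj_lt true)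
  refine ⟨h0, ?_, h1⟩
  cases b
  · exact le_rfl
  · change _ ≤ C.D.b 1
    linarith

theorem Adm.E_pos (h : C.Adm) : 0 < C.E := by
  obtain ⟨h0, -, h1⟩ := h.bb true
  exact div_pos (Real.log_pos ((one_lt_div h0).2 (by linarith))) (by positivity)

theorem Adm.cm (h : C.Adm) : (∀ b, C.cm b ≠ 0) ∧ (C.cm true).im = 0 ∧ (C.cm false).re = 0 ∧
    (C.cm true / conj (C.cm false)) ^ 2 = -Real.exp (C.lk true) := by
  obtain ⟨h0, -, h1⟩ := h.bb true
  have h2 : 0 < C.D.b 1 := by linarith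
  have e1 : C.cm true = ((Real.exp (C.D.A 1) / C.D.b 1 : ℝ) : ℂ) := rfl
  have e0 : C.cm false = -I * ((Real.exp (-C.D.A 0) / C.D.b 0 : ℝ) : ℂ) := rfl
  have e2 : Real.exp (C.lk true) =
      (Real.exp (C.D.A 1) / C.D.b 1 / (Real.exp (-C.D.A 0) / C.D.b 0)) ^ 2 := by
    change Real.exp (2 * _) = _
    rw [two_mul, Real.exp_add, ← sq, Real.exp_sub, Real.exp_add, Real.exp_add, Real.exp_log h0,
      Real.exp_log h2, Real.exp_neg]
    congr 1
    field_simp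
  refine ⟨fun b => ?_, by rw [e1, ofReal_im], by rw [e0, re_mul_ofReal, neg_re, I_re]; simp, ?_⟩
  · cases b
    · rw [e0]
      exact mul_ne_zero (neg_ne_zero.2 I_ne_zero) (ofReal_ne_zero.2 (by positivity))
    · rw [e1]
      exact ofReal_ne_zero.2 (by positivity)
  · rw [e1, e0, e2, map_mul, map_neg, conj_I, neg_neg, conj_ofReal, ofReal_pow,
      ofReal_div (_ / _), div_pow, div_pow, mul_pow, I_sq, neg_one_mul, div_neg]

theorem CfB1_im (e : Fin γ × Bool) : (C.lg e).im = (C.z.lu e).im := by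
  rw [lg, add_im, ofReal_im, zero_add]

theorem CfB1_lu (h : C.Adm) (e : Fin γ × Bool) : |(C.z.lu e).re| ≤ 3 / (100 * γ) ∧
    |(C.z.lu e).im - if e.2 then Real.pi - ang γ e.1 else ang γ e.1| ≤ 3 / (100 * γ) := by
  have key : ∀ {u : ℂ} {x r : ℝ}, ‖u - I * x‖ ≤ r → |u.re| ≤ r ∧ |u.im - x| ≤ r := fun hu =>
    ⟨by simpa using (abs_re_le_norm _).trans hu, by simpa using (abs_im_le_norm _).trans hu⟩
  obtain ⟨k, b⟩ := e
  have h1 := Zs.small h.pos h.small k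
  cases b
  · exact key (h1.2.2.2.1.trans (by gcongr; norm_num))
  · exact key (by simpa only [if_true, ofReal_sub] using h1.2.2.2.2)

theorem Adm.rad (h : C.Adm) (e : Fin γ × Bool) :
    9 / 10 * C.RR e.2 ≤ ‖C.τ e‖ ∧ ‖C.τ e‖ ≤ 11 / 10 * C.RR e.2 := by
  have hγ : (1 : ℝ) ≤ γ := by exact_mod_cast h.pos
  have h1 : |(C.z.lu e).re| ≤ 3 / 100 := (CfB1_lu h e).1.trans (by gcongr; linarith)
  have h2 := abs_le.1 ((Real.abs_exp_sub_one_le (h1.trans (by norm_num))).trans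
    (mul_le_mul_of_nonneg_left h1 zero_le_two))
  have h3 := C.RR_pos e.2
  rw [τ_eq, norm_mul, norm_exp, norm_real, Real.norm_of_nonneg h3.le]
  constructor <;> nlinarith [h2.1, h2.2]

theorem Adm.sep (h : C.Adm) {j : Fin γ} (hjk : j ≠ k) (b : Bool) :
    3 / γ ≤ ‖C.τ (j, b) / (‖C.τ (j, b)‖ : ℂ) - C.τ (k, b) / (‖C.τ (k, b)‖ : ℂ)‖ ∧
      2 / γ * ‖C.τ (k, b)‖ ≤ ‖C.τ (j, b) - C.τ (k, b)‖ := by
  have hγ : (0 : ℝ) < γ := by exact_mod_cast h.pos
  obtain ⟨h1, h2⟩ := Zs.sep h.pos h.small hjk b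
  have e : ∀ e, C.τ e / (‖C.τ e‖ : ℂ) = exp (I * (C.z.lu e).im) := fun e => by
    rw [div_eq_iff (ofReal_ne_zero.2 (norm_ne_zero_iff.2 (C.τ_ne e))), ← CfB1_im, mul_comm,
      mul_comm I]
    exact polar e
  refine ⟨by rwa [e, e], ?_⟩
  have h3 := C.RR_pos b
  have h4 := mul_le_mul_of_nonneg_left (h.rad (k, b)).2 (by positivity : (0 : ℝ) ≤ 2 / γ)
  have h5 := mul_le_mul_of_nonneg_left h2 h3.le
  refine h4.trans (le_trans ?_ (h5.trans_eq ?_))
  · rw [← mul_assoc, mul_comm, div_mul_eq_mul_div]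
    gcongr
    norm_num
  · rw [τ_eq, τ_eq, ← mul_sub, norm_mul, norm_real, Real.norm_of_nonneg h3.le]

theorem Adm.mean_im (h : C.Adm) : C.z.mean.im = 0 := by
  have := ZsB_mean_rf C.z
  rw [h.sym] at this
  exact conj_eq_iff_im.1 this.symm

theorem Adm.eh_conj (h : C.Adm) (k : Fin γ) : C.z.eh k.rev = conj (C.z.eh k) := by
  have := ZsB_eh_rf C.z k.rev
  rwa [h.sym, Fin.rev_rev] at this

theorem Adm.lg_conj (h : C.Adm) (k : Fin γ) : C.lg (k.rev, false) = conj (C.lg (k, false)) ∧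
    C.lg (k.rev, true) = conj (C.lg (k, true)) + 2 * Real.pi * I := by
  have := C.z.lu_rf h.pos k.rev
  rw [h.sym, Fin.rev_rev] at this
  simp only [lg, this.1, this.2, map_add, conj_ofReal, add_assoc, and_self]

theorem Adm.τ_conj (h : C.Adm) (e : Fin γ × Bool) : C.τ (e.1.rev, e.2) = conj (C.τ e) := by
  obtain ⟨k, b⟩ := e
  cases b
  · rw [τ, (h.lg_conj k).1, exp_conj, τ]
  · rw [τ, (h.lg_conj k).2, exp_add, exp_two_pi_mul_I, mul_one, exp_conj, τ]

theorem Adm.c_conj (h : C.Adm) (e : Fin γ × Bool) : C.c (e.1.rev, e.2) = conj (C.c e) := by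
  rw [c, c, h.τ_conj, map_add, map_neg, conj_ofReal]

theorem Adm.Res_conj (h : C.Adm) (k : Fin γ) : C.Res k.rev = conj (C.Res k) := by
  rw [Res, Res, h.eh_conj, map_mul, conj_ofReal]

theorem Adm.mid (h : C.Adm) (hk : 2 * (k : ℕ) + 1 = γ) : k.rev = k ∧ (C.lg (k, false)).im = 0 ∧
    (C.lg (k, true)).im = Real.pi ∧ C.τ (k, false) = (‖C.τ (k, false)‖ : ℂ) ∧
      C.τ (k, true) = -(‖C.τ (k, true)‖ : ℂ) := by
  have hr : k.rev = k := Fin.ext (by rw [Fin.val_rev]; omega)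
  obtain ⟨h1, h2⟩ := h.lg_conj k
  rw [hr] at h1 h2
  have h3 : (C.lg (k, false)).im = 0 := conj_eq_iff_im.1 h1.symm
  have h4 : (C.lg (k, true)).im = Real.pi := by
    have := congrArg im h2
    simp only [add_im, conj_im, mul_im, mul_re, I_re, I_im, ofReal_re, ofReal_im, re_ofNat,
      im_ofNat] at this
    linarith
  refine ⟨hr, h3, h4, ?_, ?_⟩
  · simpa [h3] using C.polar (k, false)
  · simpa [h4] using C.polar (k, true)

theorem CfB1_up (h : C.Adm) (hk : γ < 2 * (k : ℕ) + 1) (b : Bool) :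
    Real.pi / (2 * γ) ≤ (C.lg (k, b)).im ∧ (C.lg (k, b)).im ≤ Real.pi - Real.pi / (2 * γ) := by
  have hγ : (0 : ℝ) < γ := by exact_mod_cast h.pos
  have h1 := (abs_le.1 (ang_bd k).1).2
  have h2 := (ang_bd k).2.2.1 hk
  have h3 := abs_le.1 (CfB1_lu h (k, b)).2
  have h4 : 3 / (100 * γ) ≤ Real.pi / (2 * γ) := by
    gcongr
    · exact Real.pi_gt_three.le
    · norm_num
  have h5 : Real.pi / γ = 2 * (Real.pi / (2 * γ)) := by field_simp
  rw [CfB1_im]
  cases b <;> simp only [Bool.false_eq_true, if_false, if_true] at h3 <;> constructor <;>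
    linarith [h3.1, h3.2]

theorem Adm.lg_im (h : C.Adm) (hk : γ ≤ 2 * (k : ℕ) + 1) (b : Bool) :
    (C.lg (k, b)).im ∈ Icc 0 Real.pi ∧ log (C.τ (k, b)) = C.lg (k, b) := by
  have key : (C.lg (k, b)).im ∈ Icc 0 Real.pi := by
    rcases hk.eq_or_lt with e | hk
    · cases b
      · rw [(h.mid e.symm).2.1]
        exact ⟨le_rfl, Real.pi_pos.le⟩
      · rw [(h.mid e.symm).2.2.1]
        exact ⟨Real.pi_pos.le, le_rfl⟩
    · have := CfB1_up h hk b
      have h0 : 0 ≤ Real.pi / (2 * γ) := by positivity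
      exact ⟨by linarith [this.1], by linarith [this.2]⟩
  exact ⟨key, log_exp (by linarith [key.1, Real.pi_pos]) key.2⟩

theorem Adm.im_up (h : C.Adm) (hk : γ < 2 * (k : ℕ) + 1) (b : Bool) :
    ‖C.τ (k, b)‖ / γ ≤ (C.τ (k, b)).im := by
  have hγ : (0 : ℝ) < γ := by exact_mod_cast h.pos
  have h1 := ZsB_sin (CfB1_up h hk b).1 (CfB1_up h hk b).2 (by positivity)
  have h2 := congrArg im (C.polar (k, b))
  have h3 : 2 / Real.pi * (Real.pi / (2 * γ)) = (γ : ℝ)⁻¹ := by field_simp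
  rw [im_ofReal_mul, exp_ofReal_mul_I_im] at h2
  rw [h2, div_eq_mul_inv, ← h3]
  exact mul_le_mul_of_nonneg_left h1 (norm_nonneg _)

theorem Adm.im_low (h : C.Adm) (hk : 2 * (k : ℕ) + 1 < γ) (b : Bool) :
    (C.τ (k, b)).im ≤ -(‖C.τ (k, b)‖ / γ) := by
  have h1 := h.im_up (k := k.rev) (by rw [Fin.val_rev]; omega) b
  rw [h.τ_conj (k, b), norm_conj, conj_im] at h1
  linarith

end Cfg

end Pool.Agent.MP_92463a_gt
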