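import Pool.Agent.MP_92463a_gt.CfB1

open Set Complex Filter Metric
open scoped Topology ComplexConjugate ContDiff Manifold

noncomputable section

namespace Pool.Agent.MP_92463a_gt

namespace Cfg

variable {γ : ℕ} {C : Cfg γ} {k : Fin γ} {b : Bool} {e : Fin γ × Bool}

theorem CfB2_one (h : C.Adm) : (1 : ℝ) ≤ γ := by exact_mod_cast h.pos

theorem CfB2_T (e : Fin γ × Bool) : 0 < ‖C.τ e‖ := norm_pos_iff.2 (τ_ne e)

theorem CfB2_vs (h : C.G0) (k : Fin γ) : ‖C.vs k‖ * γ ≤ 1 / 100 ∧ ‖C.vs k‖ ≤ 1 / 100 := by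
  have h1 := CfB2_one h.toAdm
  have h2 := h.vs k
  rw [le_div_iff₀ (by positivity)] at h2
  exact ⟨by linarith, by nlinarith [norm_nonneg (C.vs k)]⟩

theorem CfB2_ρ (h : C.Adm) (e : Fin γ × Bool) : 0 < C.pl.ρ e ∧ C.pl.ρ e * (16 * γ) = ‖C.τ e‖ ∧
    16 * C.pl.ρ e = ‖C.τ e‖ / γ ∧ 16 * C.pl.ρ e ≤ ‖C.τ e‖ := by
  have h1 := CfB2_one h
  have h2 := CfB2_T (C := C) e
  have h3 : 0 < C.pl.ρ e := div_pos h2 (by positivity)
  have h4 : C.pl.ρ e * (16 * γ) = ‖C.τ e‖ := div_mul_cancel₀ _ (by positivity)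
  exact ⟨h3, h4, eq_div_of_mul_eq (by positivity) (by linarith), by nlinarith⟩

theorem CfB2_s (e : Fin γ × Bool) : C.pl.s e.1 = C.τ e * C.τ (op e) * C.vs e.1 ^ 2 := by
  rcases e with ⟨k, _ | _⟩
  · rfl
  · exact congrArg (· * _) (mul_comm _ _)

theorem CfB2_im (e : Fin γ × Bool) : (C.pl.c e).im = (C.τ e).im := by
  simp [pl, c]

theorem G0.Res_ne (h : C.G0) (k : Fin γ) : C.Res k ≠ 0 := by
  have h1 := (Zs.small h.pos h.small k).2.2.1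
  have h2 := CfB2_one h.toAdm
  refine mul_ne_zero (ofReal_ne_zero.2 (mul_pos (h.toAdm.bb true).1
    (div_pos h.toAdm.E_pos (by linarith [h.L]))).ne') fun h3 => ?_
  rw [h3, zero_sub, norm_neg, norm_one, le_div_iff₀ (by positivity)] at h1
  linarith

theorem G0.vs_ne (h : C.G0) (k : Fin γ) : C.vs k ≠ 0 :=
  mul_ne_zero (h.Res_ne k) (exp_ne_zero _)

theorem G0.c_bd (h : C.G0) (e : Fin γ × Bool) : C.c e ≠ 0 ∧ 99 / 100 * C.bb e.2 ≤ (-C.c e).re ∧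
    99 / 100 * C.bb e.2 ≤ ‖C.c e‖ ∧ ‖C.c e‖ ≤ 101 / 100 * C.bb e.2 := by
  obtain ⟨h1, h2, -⟩ := h.toAdm.bb e.2
  have h3 := h.τ e
  have h4 : 99 / 100 * C.bb e.2 ≤ (-C.c e).re := by
    simp only [c, neg_re, add_re, ofReal_re]
    linarith [re_le_norm (C.τ e)]
  have h5 := h4.trans ((re_le_norm _).trans_eq (norm_neg _))
  have h6 := norm_add_le (-C.bb e.2 : ℂ) (C.τ e)
  rw [norm_neg, norm_real, Real.norm_of_nonneg (by linarith)] at h6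
  exact ⟨norm_pos_iff.1 (by linarith), h4, h5, h6.trans (by linarith)⟩

theorem G0.disc (h : C.G0) {v : ℂ} (hv : ‖v‖ ≤ 2 * C.pl.ρ e) : ‖v‖ ≤ ‖C.τ e‖ / 8 ∧
    C.τ e + v ≠ 0 ∧ ‖C.τ e + v‖ < C.D.b 0 / 2 ∧ ‖v / C.c e‖ ≤ 1 / 100 ∧ C.c e + v ≠ 0 := by
  obtain ⟨h1, h2, -⟩ := h.toAdm.bb e.2
  have h3 := h.τ e
  have h4 := (CfB2_ρ h.toAdm e).2.2.2
  have h5 := CfB2_T (C := C) e
  have h6 := (h.c_bd e).2.2.1
  refine ⟨by linarith, norm_pos_iff.1 (by linarith [norm_le_add_norm_add (C.τ e) v]),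
    by linarith [norm_add_le (C.τ e) v], ?_,
    norm_pos_iff.1 (by linarith [norm_le_add_norm_add (C.c e) v])⟩
  rw [norm_div, div_le_iff₀ (by linarith)]
  linarith

theorem G0.vs_conj (h : C.G0) (k : Fin γ) : C.vs k.rev = conj (C.vs k) := by
  have h1 : ∀ b, log (-C.c (k.rev, b)) = conj (log (-C.c (k, b))) := fun b => by
    rw [h.toAdm.c_conj (k, b), ← map_neg, log_conj]
    obtain ⟨h1, h2, -⟩ := h.toAdm.bb b
    exact fun h3 => by linarith [(arg_eq_pi_iff.1 h3).1, (h.c_bd (k, b)).2.1]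
  have h2 : ∀ b, C.D.lam (jj b) (C.τ (k.rev, b)) = conj (C.D.lam (jj b) (C.τ (k, b))) :=
    fun b => by
      rw [h.toAdm.τ_conj (k, b), h.d.lam_conj (h.toAdm.jj_lt b)]
      linarith [h.τ (k, b), (h.toAdm.bb b).1]
  have h3 : C.D.lam 0 _ = conj (C.D.lam 0 _) := h2 false
  have h4 : C.D.lam 1 _ = conj (C.D.lam 1 _) := h2 true
  rw [Cfg.vs, Cfg.vs, map_mul, ← exp_conj, h.toAdm.Res_conj, h1, h1, h3, h4, (h.toAdm.lg_conj k).1,
    (h.toAdm.lg_conj k).2]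
  congr 2
  simp only [map_add, map_mul, map_neg, map_div₀, map_sub, conj_ofReal, conj_I, map_ofNat]
  ring

theorem G0.s_conj (h : C.G0) (k : Fin γ) : C.pl.s k.rev = conj (C.pl.s k) := by
  simp only [pl, map_mul, map_pow]
  rw [h.toAdm.τ_conj (k, false), h.toAdm.τ_conj (k, true), h.vs_conj]

theorem G0.r_conj (h : C.G0) (e : Fin γ × Bool) :
    C.r1 (e.1.rev, e.2) = conj (C.r1 e) ∧ C.r2 (e.1.rev, e.2) = conj (C.r2 e) := by
  have h1 := h.toAdm.c_conj (e.1, false)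
  have h2 := h.toAdm.c_conj (e.1, true)
  rcases e with ⟨k, _ | _⟩ <;>
    simp only [r1, r2, h.s_conj, h.toAdm.Res_conj, h1, h2, map_div₀, map_mul, map_neg, and_self]

theorem G0.r_mul (h : C.G0) (e : Fin γ × Bool) :
    C.r1 e * C.r1 (op e) = C.pl.s e.1 ∧ C.r2 e * C.r2 (op e) = C.pl.s e.1 ∧
      C.r1 e * C.r2 e = -C.pl.s e.1 * C.c e / C.c (op e) := by
  have h1 := (h.c_bd (e.1, false)).1
  have h2 := (h.c_bd (e.1, true)).1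
  have h3 := h.Res_ne e.1
  rcases e with ⟨k, _ | _⟩ <;> simp only [r1, r2, op, Bool.not_false, Bool.not_true] at * <;>
    refine ⟨?_, ?_, ?_⟩ <;> field_simp

theorem CfB2_other (h : C.G0) {τ : ℂ} (h₁ : ‖τ‖ ≤ C.D.b 0) (k : Fin γ) :
    2 * C.D.b 0 ≤ ‖-C.bb b + τ - C.c (k, !b)‖ := by
  have h1 := abs_le.1 ((abs_re_le_norm _).trans h₁)
  have h2 := abs_le.1 ((abs_re_le_norm _).trans (h.τ (k, !b)))
  obtain ⟨h3, -, h4⟩ := h.toAdm.bb b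
  refine le_trans ?_ (abs_re_le_norm _)
  cases b <;> simp only [c, bb, jj, Bool.not_false, Bool.not_true, sub_re, add_re, neg_re,
    ofReal_re, if_true, Bool.false_eq_true, if_false] at h2 ⊢
  · exact le_abs.2 (Or.inl (by linarith))
  · exact le_abs.2 (Or.inr (by linarith))

theorem G0.pl_ok (h : C.G0) : C.pl.Ok := by
  have hρ := CfB2_ρ h.toAdm
  refine ⟨fun e => (hρ e).1, fun k => mul_ne_zero (mul_ne_zero (τ_ne _) (τ_ne _))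
    (pow_ne_zero _ (h.vs_ne k)), fun e => ?_, ?_⟩
  · have h1 := mul_pos (hρ e).1 (hρ (op e)).1
    have h2 := pow_le_pow_left₀ (by positivity) (CfB2_vs h e.1).1 2
    rw [CfB2_s, norm_mul, norm_mul, norm_pow, ← (hρ e).2.1, ← (hρ (op e)).2.1]
    nlinarith
  rintro ⟨j, b⟩ ⟨k, b'⟩ hne
  rcases Bool.eq_or_eq_not b' b with rfl | rfl
  · have h1 : j ≠ k := fun h => hne (h ▸ rfl)
    have h2 := (h.toAdm.sep h1 b').2
    have h3 := (h.toAdm.sep h1.symm b').2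
    rw [norm_sub_rev] at h3
    rw [div_mul_comm, ← (hρ _).2.2.1] at h2 h3
    simp only [pl, c, add_sub_add_left_eq_sub] at *
    linarith [(hρ (j, b')).1, (hρ (k, b')).1]
  · have h1 := (h.toAdm.bb b).1
    have h2 := CfB2_other (b := b) h (τ := C.τ (j, b)) (by linarith [h.τ (j, b)]) k
    exact le_trans (by linarith [h.τ (j, b), h.τ (k, !b), (hρ (j, b)).2.2.2, (hρ (k, !b)).2.2.2]) h2

theorem G0.psy (h : C.G0) : C.pl.Sy Fin.rev :=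
  ⟨h.toAdm.c_conj, fun e => by simp only [pl, h.toAdm.τ_conj e, norm_conj], h.s_conj, Fin.rev_rev⟩

theorem G0.mu_eq (h : C.G0) (e : Fin γ × Bool) : C.pl.mu e = ‖C.τ e‖ * ‖C.vs e.1‖ := by
  have h1 := CfB2_one h.toAdm
  have h2 := CfB2_T (C := C) (op e)
  rw [Pl.mu, Real.sqrt_eq_iff_mul_self_eq_of_pos (mul_pos (CfB2_T e) (norm_pos_iff.2 (h.vs_ne _))),
    CfB2_s, norm_mul, norm_mul, norm_pow]
  simp only [pl]
  field_simp

theorem G0.rin_eq (h : C.G0) (e : Fin γ × Bool) :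
    C.pl.rin e = 16 * γ * ‖C.τ e‖ * ‖C.vs e.1‖ ^ 2 := by
  have h1 := CfB2_one h.toAdm
  have h2 := CfB2_T (C := C) (op e)
  rw [Pl.rin, CfB2_s, norm_mul, norm_mul, norm_pow]
  simp only [pl]
  field_simp

theorem G0.s_div (h : C.G0) (e : Fin γ × Bool) :
    C.pl.s e.1 / (C.τ e * C.vs e.1) = C.τ (op e) * C.vs e.1 ∧ C.τ e * C.vs e.1 ∈ C.pl.Ann e := by
  have h1 := τ_ne (C := C) e
  have h2 := h.vs_ne e.1
  have h3 := (CfB2_vs h e.1).1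
  have h4 := mul_pos (CfB2_T (C := C) e) (norm_pos_iff.2 h2)
  obtain ⟨h5, h6, -⟩ := CfB2_ρ h.toAdm e
  refine ⟨by rw [CfB2_s]; field_simp, ?_, ?_⟩
  · rw [h.rin_eq, norm_mul]
    nlinarith
  · rw [norm_mul, ← h6]
    nlinarith

theorem CfB2_mid (h : C.G0) (hk : 2 * (k : ℕ) + 1 = γ) :
    (∀ b, (C.τ (k, b)).im = 0) ∧ (C.vs k).im = 0 := by
  obtain ⟨h1, -⟩ := h.toAdm.mid hk
  refine ⟨fun b => conj_eq_iff_im.1 ?_, conj_eq_iff_im.1 ?_⟩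
  · rw [← h.toAdm.τ_conj, h1]
  · rw [← h.vs_conj, h1]

theorem G0.place (h : C.G0) (k : Fin γ) : (2 * (k : ℕ) + 1 = γ → C.wd.Mid k) ∧
    (γ < 2 * (k : ℕ) + 1 → C.wd.Up k) ∧ (C.wd.Low k ↔ 2 * (k : ℕ) + 1 < γ) := by
  have hρ := fun b => CfB2_ρ h.toAdm (k, b)
  have up : γ < 2 * (k : ℕ) + 1 → ∀ b, 2 * C.pl.ρ (k, b) ≤ (C.pl.c (k, b)).im := fun hk b => by
    linarith [h.toAdm.im_up hk b, CfB2_im (C := C) (k, b), (hρ b).1, (hρ b).2.2.1]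
  refine ⟨fun hk => ?_, up, fun hl => ?_, fun hk b => ?_⟩
  · obtain ⟨h1, -, -, h2, h3⟩ := h.toAdm.mid hk
    obtain ⟨h4, h5⟩ := CfB2_mid h hk
    obtain ⟨v, hv⟩ : ∃ v : ℝ, C.vs k = v := ⟨_, (conj_eq_iff_re.1 (conj_eq_iff_im.2 h5)).symm⟩
    have h6 : C.wd.s k = ((-(‖C.τ (k, false)‖ * ‖C.τ (k, true)‖ * v ^ 2) : ℝ) : ℂ) := by
      change C.τ (k, false) * C.τ (k, true) * C.vs k ^ 2 = _
      conv_lhs => rw [h2, h3, hv]
      push_cast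
      ring
    have h7 : v ≠ 0 := ofReal_ne_zero.1 (hv ▸ h.vs_ne k)
    refine ⟨h1, fun b => (CfB2_im _).trans (h4 b), by rw [h6, ofReal_im], ?_⟩
    rw [h6, ofReal_re, neg_lt_zero]
    exact mul_pos (mul_pos (CfB2_T _) (CfB2_T _)) (by positivity)
  · have h1 : (C.pl.c (k, true)).im ≤ -(2 * C.pl.ρ (k, true)) := hl true
    have h2 := (hρ true).1
    rcases lt_trichotomy (2 * (k : ℕ) + 1) γ with hk | hk | hk
    · exact hk
    · linarith [(CfB2_mid h hk).1 true, CfB2_im (C := C) (k, true)]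
    · linarith [up hk true]
  · change (C.pl.c (k, b)).im ≤ -(2 * C.pl.ρ (k, b))
    linarith [h.toAdm.im_low hk b, CfB2_im (C := C) (k, b), (hρ b).1, (hρ b).2.2.1]

theorem CfB2_mu (h : C.G0) (e : Fin γ × Bool) : 100 * C.pl.mu e ≤ ‖C.τ e‖ / γ ∧
    100 * C.pl.mu e ≤ ‖C.τ e‖ := by
  have h1 := CfB2_one h.toAdm
  have h2 := CfB2_T (C := C) e
  obtain ⟨h3, h4⟩ := CfB2_vs h e.1
  rw [h.mu_eq, le_div_iff₀ (by positivity)]
  constructor <;> nlinarith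

theorem G0.mem_fd (h : C.G0) {τ : ℂ} (h₁ : ‖τ‖ ≤ C.D.b 0)
    (h₂ : ∀ k, C.mm b k ≤ ‖τ - C.τ (k, b)‖) : -C.bb b + τ ∈ C.pl.Fd := by
  rintro ⟨k, b'⟩
  rcases Bool.eq_or_eq_not b' b with rfl | rfl
  · exact (h₂ k).trans_eq (congrArg _ (add_sub_add_left_eq_sub _ _ _).symm)
  · exact le_trans (by linarith [(CfB2_mu h (k, !b)).2, h.τ (k, !b), (h.toAdm.bb b).1])
      (CfB2_other h h₁ k)

theorem G0.other (h : C.G0) {τ : ℂ} (h₁ : ‖τ‖ ≤ C.D.b 0) (k : Fin γ) :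
    2 * C.D.b 0 ≤ ‖-C.bb b + τ - C.c (k, !b)‖ :=
  CfB2_other h h₁ k

theorem G0.ss (h : C.G0) {δ : ℝ} (hδ : δ ≤ C.D.b 0 / 2) {τ : ℂ}
    (hτ : τ ∈ SS (C.TT b) (C.mm b) δ) : -C.bb b + τ ∈ C.wd.Qr ∧ -C.bb b + τ ∈ C.pl.Fd := by
  obtain ⟨h1, h2, h3, h4⟩ := hτ
  have h5 := h.mem_fd (by linarith [(h.toAdm.bb b).1]) h4
  exact ⟨⟨by simpa using h1, h.d.P_loc (h.toAdm.jj_lt b) h2 (h3.trans_le hδ), h.pl_ok.fd_sub h5⟩, h5⟩

theorem Adm.onS (h : C.Adm) {δ : ℝ} {t : ℂ} (ht : C.wd.OnS δ t) :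
    ∃ b, ∃ τ ∈ SS (C.TT b) (C.mm b) δ, t = -C.bb b + τ := by
  obtain ⟨⟨⟨h1, h2⟩, -⟩, h3, h4⟩ := ht
  obtain ⟨b, hb⟩ : ∃ b, ‖t + C.bb b‖ < δ := h4.elim (⟨false, ·⟩) (⟨true, ·⟩)
  refine ⟨b, t + C.bb b, ⟨by simpa using h1,
    fun h5 => h2 (Or.inr ⟨jj b, h.jj_lt b, eq_neg_of_add_eq_zero_left h5⟩), hb, fun k => ?_⟩, by ring⟩
  refine (h3 (k, b)).trans_eq (congrArg _ ?_)
  change t - (-C.bb b + C.τ (k, b)) = t + C.bb b - C.τ (k, b)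
  ring

theorem G0.wp_im (h : C.G0) (hk : γ ≤ 2 * (k : ℕ) + 1) (b : Bool) :
    0 ≤ (C.τ (k, b) + C.τ (k, b) * C.vs k).im := by
  rcases hk.eq_or_lt with hk | hk
  · obtain ⟨h1, h2⟩ := CfB2_mid h hk.symm
    simp [h1, h2]
  · have h1 := (abs_le.1 (abs_im_le_norm (C.τ (k, b) * C.vs k))).1
    have h2 := CfB2_mu h (k, b)
    rw [h.mu_eq, ← norm_mul] at h2
    rw [add_im]
    linarith [h.toAdm.im_up hk b, h2.1, norm_nonneg (C.τ (k, b) * C.vs k)]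

theorem G0.arc (h : C.G0) {δ : ℝ} (hδ : 2 * ‖C.τ e‖ < δ) {θ : ℝ} (hθ : θ ∈ Icc 0 Real.pi) :
    ((2 * ‖C.τ e‖ : ℝ) : ℂ) * exp (θ * I) ∈ SS (C.TT e.2) (C.mm e.2) δ := by
  have h1 := CfB2_T (C := C) e
  have h2 : ‖((2 * ‖C.τ e‖ : ℝ) : ℂ) * exp (θ * I)‖ = 2 * ‖C.τ e‖ := by
    rw [norm_mul, norm_exp_ofReal_mul_I, mul_one, norm_real, Real.norm_of_nonneg (by positivity)]
  refine ⟨?_, norm_pos_iff.1 (by linarith), h2.trans_lt hδ, fun k => ?_⟩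
  · rw [im_ofReal_mul, exp_ofReal_mul_I_im]
    exact mul_nonneg (by positivity) (Real.sin_nonneg_of_mem_Icc hθ)
  · refine le_trans ?_ (norm_sub_norm_le _ _)
    have h3 := (h.toAdm.rad (k, e.2)).2
    have h4 := (CfB2_mu h (k, e.2)).2
    simp only [h2, mm, TT]
    linarith [(h.toAdm.rad e).1]

theorem CfB2_dir {u u' : ℂ} {r r' : ℝ} (hu : ‖u‖ = 1) (hu' : ‖u'‖ = 1) (hr : 0 ≤ r) (hr' : 0 ≤ r') :
    r' * ‖u' - u‖ ≤ 2 * ‖r * u - r' * u'‖ := by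
  have h1 := abs_norm_sub_norm_le (r * u) (r' * u')
  have h2 := norm_sub_le ((r - r' : ℝ) * u) (r * u - r' * u')
  rw [show ((r - r' : ℝ) * u - (r * u - r' * u') : ℂ) = r' * (u' - u) by push_cast; ring] at h2
  simp only [norm_mul, hu, hu', mul_one, norm_real, Real.norm_eq_abs, abs_of_nonneg hr,
    abs_of_nonneg hr'] at h1 h2
  linarith

theorem Fine.seg (h : C.Fine) (hk : γ ≤ 2 * (k : ℕ) + 1) {δ : ℝ} (hδ : 2 * ‖C.τ (k, b)‖ < δ)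
    {x : ℝ} (hx : x ∈ Icc (0 : ℝ) 1) :
    2 * C.τ (k, b) + x * (C.τ (k, b) + C.τ (k, b) * C.vs k - 2 * C.τ (k, b)) ∈
      SS (C.TT b) (C.mm b) δ := by
  have g := h.toGood.g0
  obtain ⟨x0, x1⟩ := hx
  have h1 := CfB2_T (C := C) (k, b)
  have h2 := (CfB2_vs g k).2
  have h3 := h.dir k
  have h4 := norm_nonneg (C.vs k)
  have hn : ‖(x : ℂ) * C.vs k‖ = x * ‖C.vs k‖ := by
    rw [norm_mul, norm_real, Real.norm_of_nonneg x0]
  have e1 : 2 * C.τ (k, b) + x * (C.τ (k, b) + C.τ (k, b) * C.vs k - 2 * C.τ (k, b)) =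
      C.τ (k, b) * ((2 - x : ℝ) + x * C.vs k) := by
    push_cast
    ring
  refine ⟨?_, ?_, ?_, fun j => ?_⟩
  · have h5 : 0 ≤ (C.τ (k, b)).im := by
      rw [polar, im_ofReal_mul, exp_ofReal_mul_I_im]
      exact mul_nonneg h1.le (Real.sin_nonneg_of_mem_Icc (g.toAdm.lg_im hk b).1)
    have h6 := mul_nonneg x0 (g.wp_im hk b)
    rw [add_im, im_ofReal_mul, sub_im, ← ofReal_ofNat, im_ofReal_mul]
    nlinarith
  · rw [e1]
    refine mul_ne_zero (τ_ne _) fun h5 => ?_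
    have h6 := congrArg re h5
    rw [add_re, ofReal_re, re_ofReal_mul, zero_re] at h6
    nlinarith
  · have h5 := norm_add_le ((2 - x : ℝ) : ℂ) (x * C.vs k)
    rw [hn, norm_real, Real.norm_of_nonneg (by linarith)] at h5
    rw [e1, norm_mul]
    nlinarith [mul_le_mul_of_nonneg_left h2 x0]
  simp only [mm, TT]
  by_cases hj : j = k
  · subst hj
    rw [e1, g.mu_eq, ← mul_sub_one, norm_mul]
    refine mul_le_mul_of_nonneg_left (le_of_sq_le_sq ?_ (norm_nonneg _)) h1.le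
    have h5 := Complex.sq_norm (C.vs j)
    rw [Complex.sq_norm (_ - _)]
    simp only [normSq_apply, sub_re, add_re, sub_im, add_im, ofReal_re, ofReal_im, re_ofReal_mul,
      im_ofReal_mul, one_re, one_im] at h5 ⊢
    nlinarith [mul_le_mul_of_nonneg_left h3 (mul_nonneg x0 (sub_nonneg.2 x1)),
      mul_nonneg (sq_nonneg (1 - x)) (show 0 ≤ 1 - ‖C.vs j‖ ^ 2 by nlinarith)]
  have u : ∀ e, ‖C.τ e / (‖C.τ e‖ : ℂ)‖ = 1 := fun e => by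
    rw [norm_div, norm_real, norm_norm, div_self (CfB2_T e).ne']
  have v : ∀ e, (‖C.τ e‖ : ℂ) * (C.τ e / (‖C.τ e‖ : ℂ)) = C.τ e := fun e =>
    mul_div_cancel₀ _ (ofReal_ne_zero.2 (CfB2_T e).ne')
  have h5 := CfB2_dir (u (k, b)) (u (j, b)) (r := (2 - x) * ‖C.τ (k, b)‖)
    (mul_nonneg (by linarith) h1.le) (norm_nonneg (C.τ (j, b)))
  rw [ofReal_mul, mul_assoc, v, v] at h5
  have h6 := mul_le_mul_of_nonneg_left (g.toAdm.sep hj b).1 (norm_nonneg (C.τ (j, b)))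
  have h7 := norm_sub_le (C.τ (k, b) * ((2 - x : ℝ) + x * C.vs k) - C.τ (j, b))
    (C.τ (k, b) * (x * C.vs k))
  rw [show C.τ (k, b) * ((2 - x : ℝ) + x * C.vs k) - C.τ (j, b) - C.τ (k, b) * (x * C.vs k) =
    (2 - x : ℝ) * C.τ (k, b) - C.τ (j, b) by ring, norm_mul, hn] at h7
  have h8 := (CfB2_mu g (k, b)).1
  have h9 := (CfB2_mu g (j, b)).1
  have h10 : ‖C.τ (k, b)‖ / γ ≤ 2 * ‖C.τ (j, b)‖ / γ := div_le_div_of_nonneg_right
    (by linarith [(g.toAdm.rad (k, b)).2, (g.toAdm.rad (j, b)).1]) γ.cast_nonneg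
  rw [g.mu_eq] at h8
  rw [mul_div_assoc] at h10
  rw [mul_div_left_comm] at h6
  rw [e1]
  nlinarith [mul_le_mul_of_nonneg_left x1 (mul_nonneg h1.le h4),
    div_nonneg (norm_nonneg (C.τ (j, b))) γ.cast_nonneg]

end Cfg

end Pool.Agent.MP_92463a_gt
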