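import Pool.Agent.MP_92463a_gt.Wd0
import Pool.Agent.MP_92463a_gt.PlB
import Pool.Agent.MP_92463a_gt.Phase
import Pool.Agent.MP_92463a_gt.Tool3

open Set Complex Filter Metric
open scoped Topology ComplexConjugate ContDiff Manifold

noncomputable section

namespace Pool.Agent.MP_92463a_gt

namespace Wd

variable {ι : Type} [Fintype ι] {W : Wd ι} {X : ℂ → ℂ}

theorem Ok0.zero_far (h : W.Ok0) {t : ℂ} (ht : W.D.P t = 0) (e : ι × Bool) :
    2 * W.ρ e ≤ ‖t - W.c e‖ := by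
  by_contra hlt
  refine h.free e (t - W.c e) (by simpa using not_le.1 hlt) ?_
  rwa [add_sub_cancel]

theorem Ok0.zero_fd (h : W.Ok0) {t : ℂ} (ht : W.D.P t = 0) : t ∈ W.Fd ∧ t ∈ W.Om := by
  have h1 : t ∈ W.Fd := fun e => by
    have h2 := h.zero_far ht e
    have h3 := h.pl.mu_ρ e
    have h4 := h.pl.ρ_pos e
    linarith
  exact ⟨h1, h.pl.fd_sub h1⟩

theorem Ok0.yb_ne (h : W.Ok0) {e : ι × Bool} {v : ℂ} (hv : ‖v‖ < 2 * W.ρ e) : W.yb e v ≠ 0 := by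
  intro h0
  have hb : v ∈ ball (0 : ℂ) (2 * W.ρ e) := by simpa using hv
  refine h.free e v hb ?_
  rw [← h.ysq e v hb, h0]
  simp

theorem Ok0.ry_mul (h : W.Ok0) (e : ι × Bool) : W.ry e * W.ry (op e) = W.s e.1 ^ 2 := by
  have h0 : ∀ e', W.yb e' 0 ≠ 0 := fun e' => h.yb_ne (by simpa using h.pl.ρ_pos e')
  have h1 := h0 e
  have h2 := h0 (op e)
  simp only [ry, op_op, op_fst]
  field_simp

theorem Ok0.low_up (h : W.Ok0) {k : ι} : W.Low k ↔ W.Up (W.κ k) := by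
  refine forall_congr' fun b => ?_
  have h1 := h.sy.c (k, b)
  have h2 := h.sy.ρ (k, b)
  simp only at h1 h2
  rw [h1, h2, conj_im]
  constructor <;> intro h3 <;> linarith

theorem Ok0.not_low (h : W.Ok0) (e : ι × Bool) : ¬ W.Low e.1 ↔ 0 ≤ (W.c e).im := by
  have h0 := h.pl.ρ_pos e
  constructor
  · intro h1
    rcases h.pos e.1 with h2 | h2 | h2
    · exact (h2.2.1 e.2).ge
    · have h3 : 2 * W.ρ e ≤ (W.c e).im := h2 e.2
      linarith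
    · exact absurd h2 h1
  · intro h1 h2
    have h3 : (W.c e).im ≤ -(2 * W.ρ e) := h2 e.2
    linarith

theorem Ok0.im_nonneg (h : W.Ok0) {e : ι × Bool} {v : ℂ} (hv : ‖v‖ < 2 * W.ρ e)
    (ht : 0 ≤ (W.c e + v).im) : 0 ≤ (W.c e).im := by
  refine (h.not_low e).1 fun h2 => ?_
  have h3 : (W.c e).im ≤ -(2 * W.ρ e) := h2 e.2
  have h4 := (le_abs_self _).trans (abs_im_le_norm v)
  rw [add_im] at ht
  linarith

theorem Ok0.up_pos (h : W.Ok0) {e : ι × Bool} (he : W.Up e.1) {v : ℂ} (hv : ‖v‖ < 2 * W.ρ e) :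
    0 < (W.c e + v).im := by
  have h3 : 2 * W.ρ e ≤ (W.c e).im := he e.2
  have h4 := (neg_le_abs _).trans (abs_im_le_norm v)
  rw [add_im]
  linarith

theorem Ok0.mid_neg (h : W.Ok0) {e : ι × Bool} (he : W.Mid e.1) {x : ℝ}
    (hx : ‖(x : ℂ) - W.c e‖ < 2 * W.ρ e) : (W.D.P x).re < 0 := by
  have hb : (x : ℂ) - W.c e ∈ ball (0 : ℂ) (2 * W.ρ e) := by simpa using hx
  have hc : (W.c e).im = 0 := he.2.1 e.2
  have h1 := h.yconj e _ hb
  have h2 : conj ((x : ℂ) - W.c e) = x - W.c e := conj_eq_iff_im.2 (by simp [hc])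
  have h3 : (W.κ e.1, e.2) = e := by rw [he.1]
  rw [h2, h3] at h1
  have h4 := h.ysq e _ hb
  rw [add_sub_cancel] at h4
  have h5 := h.yb_ne hx
  have h6 : (W.yb e (x - W.c e)).re = 0 := by
    have h7 := congrArg Complex.re h1
    rw [neg_re, conj_re] at h7
    linarith
  have h7 : (W.yb e (x - W.c e)).im ≠ 0 := fun h8 => h5 (Complex.ext h6 h8)
  rw [← h4, sq, mul_re, h6]
  have h8 := mul_self_pos.2 h7
  linarith

theorem Ok0.partner (h : W.Ok0) {e : ι × Bool} {v : ℂ} (hv : v ∈ W.Ann e) :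
    (0 ≤ (W.c e + v).im → 0 ≤ (W.c (op e) + W.s e.1 / v).im) ∧
      (0 < (W.c e + v).im → 0 < (W.c (op e) + W.s e.1 / v).im) := by
  have h0 := h.pl.ρ_pos e
  have h0' := h.pl.ρ_pos (op e)
  have hv2 : ‖v‖ < 2 * W.ρ e := by linarith [hv.2]
  rcases h.pos e.1 with h2 | h2 | h2
  · have c1 : (W.c e).im = 0 := h2.2.1 e.2
    have c2 : (W.c (op e)).im = 0 := h2.2.1 (op e).2
    have hn : 0 < normSq v := normSq_pos.2 (h.pl.ann_ne hv)
    have h3 : (W.c (op e) + W.s e.1 / v).im = -(W.s e.1).re / normSq v * v.im := by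
      rw [add_im, c2, div_im, h2.2.2.1]
      ring
    have h4 : 0 < -(W.s e.1).re / normSq v := div_pos (neg_pos.2 h2.2.2.2) hn
    rw [h3, add_im, c1, zero_add]
    exact ⟨fun h5 => mul_nonneg h4.le h5, fun h5 => mul_pos h4 h5⟩
  · have h3 : 0 < (W.c (op e) + W.s e.1 / v).im :=
      h.up_pos (e := op e) h2 (by linarith [(h.pl.ann_op hv).2])
    exact ⟨fun _ => h3.le, fun _ => h3⟩
  · have h3 : ¬ 0 ≤ (W.c e + v).im := fun h4 => (h.not_low e).2 (h.im_nonneg hv2 h4) h2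
    exact ⟨fun h4 => absurd h4 h3, fun h4 => absurd h4.le h3⟩

theorem Ok0.f_eq (h : W.Ok0) {e : ι × Bool} {v : ℂ} (hv : ‖v‖ < 2 * W.ρ e)
    (ht : 0 ≤ (W.c e + v).im) : W.f1 e v = W.F1 (W.c e + v) ∧ W.f2 e v = W.F2 (W.c e + v) := by
  have hb : v ∈ ball (0 : ℂ) (2 * W.ρ e) := by simpa using hv
  have h1 := h.yup e v hb (h.im_nonneg hv ht) ht
  have h2 := h.d.G_eq (h.free e v hb)
  simp only [f1, f2, F1, F2, h1, h2, and_self]

theorem Ok0.b0 (h : W.Ok0) {t : ℂ} (ht : ¬ W.D.IsE t) : t + W.D.b 0 ≠ 0 ∧ t ≠ 0 := by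
  refine ⟨fun h1 => ht (Or.inr ⟨0, h.q_pos, eq_neg_of_add_eq_zero_left h1⟩),
    fun h1 => ht (Or.inl h1)⟩

theorem Ok1.ψ₁_diff (h : W.Ok1) {t : ℂ} (ht : t ∈ W.Om) (hb : t + W.D.b 0 ≠ 0) :
    DifferentiableAt ℂ W.ψ₁ t := by
  have h1 := h.χhol.differentiableAt (Pl.isOpen_om.mem_nhds ht)
  exact h1.add ((differentiableAt_const _).div (differentiableAt_id.add_const _) hb)

theorem Ok1.ψ₂_diff (h : W.Ok1) {t : ℂ} (ht : t ∈ W.Om) : DifferentiableAt ℂ W.ψ₂ t := by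
  exact h.ψhol.differentiableAt (Pl.isOpen_om.mem_nhds ht)

theorem Ok1.ψ₁_conj (h : W.Ok1) {t : ℂ} (ht : t ∈ W.Om) : W.ψ₁ (conj t) = conj (W.ψ₁ t) := by
  simp [ψ₁, h.χconj t ht]

theorem Ok1.ψ₁_inf (h : W.Ok1) : Tendsto W.ψ₁ (Bornology.cobounded ℂ) (𝓝 1) := by
  have h1 : Tendsto (fun t : ℂ => (t + W.D.b 0)⁻¹) (Bornology.cobounded ℂ) (𝓝 0) :=
    tendsto_inv₀_cobounded.comp (tendsto_add_const_cobounded _)
  have h2 := h.χinf.add (h1.const_mul ((W.ℓ : ℂ) * W.D.b 0))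
  rw [mul_zero, add_zero] at h2
  exact h2.congr fun t => by rw [ψ₁, div_eq_mul_inv]

theorem Ok1.f_conj (h : W.Ok1) {e : ι × Bool} {v : ℂ} (hv : v ∈ W.Ann2 e) :
    W.f1 (W.κ e.1, e.2) (conj v) = -conj (W.f1 e v) ∧
      W.f2 (W.κ e.1, e.2) (conj v) = -conj (W.f2 e v) ∧
      W.f3 (W.κ e.1, e.2) (conj v) = conj (W.f3 e v) := by
  have hb : v ∈ ball (0 : ℂ) (2 * W.ρ e) := by simpa using hv.2
  have hO := h.pl.ann2_mem hv
  have h1 : W.c (W.κ e.1, e.2) + conj v = conj (W.c e + v) := by rw [h.sy.c, map_add]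
  have h2 := h.yconj e v hb
  have h3 := h.ψ₁_conj hO
  have h4 := h.ψconj _ hO
  refine ⟨?_, ?_, ?_⟩
  · rw [f1, f1, h1, h2, h3, Dat.R_conj]
    simp only [map_mul, map_pow, map_div₀]
    ring
  · rw [f2, f2, h1, h2, h4, Dat.R_conj]
    simp only [map_mul, map_pow, map_inv₀, neg_mul, inv_neg, mul_neg]
  · rw [f3, f3, h1, F3, F3, h3, h4]
    simp only [map_mul, map_div₀]

theorem Ok1.F_diff (h : W.Ok1) {t : ℂ} (ht : t ∈ W.Om) (hi : 0 < t.im) :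
    DifferentiableAt ℂ W.F1 t ∧ DifferentiableAt ℂ W.F2 t := by
  have h0 : t ≠ 0 := fun h1 => by simp [h1] at hi
  have hb : t + W.D.b 0 ≠ 0 := fun h1 => by
    have h2 := congrArg Complex.im h1
    simp only [add_im, ofReal_im, add_zero, zero_im] at h2
    exact hi.ne' h2
  have hG := Dat.G_diff (D := W.D) hi
  exact ⟨((h.ψ₁_diff ht hb).pow 2).mul (hG.div differentiableAt_id h0),
    ((h.ψ₂_diff ht).pow 2).mul ((hG.mul differentiableAt_id).inv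
      (mul_ne_zero (Dat.G_ne t) h0))⟩

theorem Ok1.F_cont (h : W.Ok1) : ContinuousOn W.F1 W.Qr ∧ ContinuousOn W.F2 W.Qr := by
  have hG : ContinuousOn W.D.G W.Qr := Dat.G_cont.mono fun t ht => ⟨ht.1, ht.2.1⟩
  have hb : ∀ t ∈ W.Qr, t + W.D.b 0 ≠ 0 ∧ t ≠ 0 := fun t ht =>
    h.b0 fun h1 => ht.2.1 (Dat.P_eq_zero.2 (Or.inl h1))
  have h1 : ContinuousOn W.ψ₁ W.Qr := fun t ht =>
    (h.ψ₁_diff ht.2.2 (hb t ht).1).continuousAt.continuousWithinAt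
  have h2 : ContinuousOn W.ψ₂ W.Qr := fun t ht =>
    (h.ψ₂_diff ht.2.2).continuousAt.continuousWithinAt
  exact ⟨(h1.pow 2).mul (hG.div continuousOn_id fun t ht => (hb t ht).2),
    (h2.pow 2).mul ((hG.mul continuousOn_id).inv₀ fun t ht =>
      mul_ne_zero (Dat.G_ne t) (hb t ht).2)⟩

theorem Ok1.F3_diff (h : W.Ok1) {t : ℂ} (ht : t ∈ W.Om) (he : ¬ W.D.IsE t) :
    DifferentiableAt ℂ W.F3 t := by
  exact ((h.ψ₁_diff ht (h.b0 he).1).mul (h.ψ₂_diff ht)).div differentiableAt_id (h.b0 he).2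

theorem F_mul {t : ℂ} : W.F1 t * W.F2 t = W.F3 t ^ 2 := by
  have h1 := Dat.G_ne (D := W.D) t
  simp only [F1, F2, F3]
  by_cases h0 : t = 0
  · simp [h0]
  · field_simp

theorem Ok0.f_mul (h : W.Ok0) {e : ι × Bool} {v : ℂ} (hv : ‖v‖ < 2 * W.ρ e) :
    W.f1 e v * W.f2 e v = W.f3 e v ^ 2 := by
  have hb : v ∈ ball (0 : ℂ) (2 * W.ρ e) := by simpa using hv
  have hP := h.free e v hb
  have h1 := h.yb_ne hv
  have h2 := h.d.R_ne hP
  have h3 := (Dat.Alg_ne hP).1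
  simp only [f1, f2, f3, F3]
  field_simp

theorem Pre.pathP (h : W.Ok1) (hX : W.Pre X) : PathP W.Qr X W.F1 W.F2 := by
  have hV : IsOpen {t : ℂ | W.D.P t ≠ 0 ∧ t ∈ W.Om} :=
    (isOpen_ne_fun Dat.P_diff.continuous continuous_const).inter Pl.isOpen_om
  exact pathP_of hV (hX.cont.mono fun t ht =>
    ⟨⟨ht.1, fun h1 => ht.2.1 (Dat.P_eq_zero.2 (Or.inl h1))⟩, ht.2.2⟩) h.F_cont.1 h.F_cont.2
    fun t ht hi => hX.der t ht.2 hi

end Wd

end Pool.Agent.MP_92463a_gt
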