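import Pool.Agent.MP_92463a_gt.CfB2
import Pool.Agent.MP_92463a_gt.WBas

open Set Complex Filter Metric
open scoped Topology ComplexConjugate ContDiff Manifold

noncomputable section

namespace Pool.Agent.MP_92463a_gt

namespace Cfg

variable {γ : ℕ} {C : Cfg γ} {e : Fin γ × Bool} {v : ℂ}

theorem CfC_cv (e : Fin γ × Bool) (v : ℂ) : C.c e + v = -C.D.b (jj e.2) + (C.τ e + v) := by
  simp only [c, bb]
  ring

theorem G0.CfC_n (h : C.G0) (hv : ‖v‖ ≤ 2 * C.pl.ρ e) :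
    ‖v‖ < ‖C.τ e‖ ∧ 1 + v / C.τ e ∈ slitPlane ∧ 1 + v / C.c e ∈ slitPlane := by
  obtain ⟨d1, -, -, d4, -⟩ := h.disc hv
  have h0 : 0 < ‖C.τ e‖ := norm_pos_iff.2 (τ_ne e)
  have h1 : ‖v‖ < ‖C.τ e‖ := by linarith
  refine ⟨h1, mem_slitPlane_of_norm_lt_one ?_, mem_slitPlane_of_norm_lt_one (by linarith)⟩
  rw [norm_div, div_lt_one h0]
  exact h1

theorem G0.CfC_τ (h : C.G0) (e : Fin γ × Bool) : ‖C.τ e‖ < C.D.b 0 / 2 := by
  have h1 := h.τ e
  have h2 := (h.toAdm.bb e.2).1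
  linarith

theorem CfC_Ge (e : Fin γ × Bool) (v : ℂ) : C.Ge e v = exp (C.D.A (jj e.2) + ph (jj e.2) * I +
    sg (jj e.2) * (3 / 2) * (C.lg e + log (1 + v / C.τ e)) + C.D.lam (jj e.2) (C.τ e + v)) := by
  rw [Ge, dG]
  congr 1
  ring

theorem CfC_log {z : ℂ} (h : z ∈ slitPlane) : log (conj z) = conj (log z) :=
  log_conj _ (slitPlane_arg_ne_pi h)

theorem CfC_pi (z : ℂ) : exp (z + Real.pi * I) = -exp z := by
  rw [exp_add, exp_pi_mul_I]
  ring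

theorem G0.free (h : C.G0) (hv : ‖v‖ ≤ 2 * C.pl.ρ e) : C.D.P (C.c e + v) ≠ 0 := by
  obtain ⟨-, d2, d3, -, -⟩ := h.disc hv
  rw [CfC_cv]
  exact h.d.P_loc (h.toAdm.jj_lt _) d2 d3

theorem G0.dG_hol (h : C.G0) (e : Fin γ × Bool) :
    DifferentiableOn ℂ (C.dG e) (ball 0 (2 * C.pl.ρ e)) ∧
      DifferentiableOn ℂ (C.Ge e) (ball 0 (2 * C.pl.ρ e)) ∧
      DifferentiableOn ℂ (C.m1 e) (ball 0 (2 * C.pl.ρ e)) ∧
      DifferentiableOn ℂ (C.m2 e) (ball 0 (2 * C.pl.ρ e)) ∧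
      DifferentiableOn ℂ (C.wd.yb e) (ball 0 (2 * C.pl.ρ e)) := by
  have hb : ∀ v ∈ ball (0 : ℂ) (2 * C.pl.ρ e), ‖v‖ ≤ 2 * C.pl.ρ e := fun v hv =>
    (mem_ball_zero_iff.1 hv).le
  have h1 : DifferentiableOn ℂ (fun v => log (1 + v / C.τ e)) (ball 0 (2 * C.pl.ρ e)) :=
    DifferentiableOn.clog (by fun_prop) fun v hv => (h.CfC_n (hb v hv)).2.1
  have h2 : DifferentiableOn ℂ (fun v => log (1 + v / C.c e)) (ball 0 (2 * C.pl.ρ e)) :=
    DifferentiableOn.clog (by fun_prop) fun v hv => (h.CfC_n (hb v hv)).2.2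
  have h3 : DifferentiableOn ℂ (fun v => C.D.lam (jj e.2) (C.τ e + v)) (ball 0 (2 * C.pl.ρ e)) :=
    (h.d.lam_hol (h.toAdm.jj_lt e.2)).comp (f := fun v => C.τ e + v) (by fun_prop) fun v hv =>
      mem_ball_zero_iff.2 (h.disc (hb v hv)).2.2.1
  have h4 : DifferentiableOn ℂ (C.dG e) (ball 0 (2 * C.pl.ρ e)) :=
    (h1.const_mul _).add (h3.sub_const _)
  have h5 : DifferentiableOn ℂ (C.Ge e) (ball 0 (2 * C.pl.ρ e)) := (h4.const_add _).cexp
  refine ⟨h4, h5, ((h4.sub h2).div_const _).cexp, ((h4.neg.sub h2).div_const _).cexp, ?_⟩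
  refine h5.div (fun v hv => ?_) fun v hv => h.d.R_ne (h.free (hb v hv))
  exact ((Dat.R_diff (h.free (hb v hv))).comp v
    (f := fun v => C.c e + v) (by fun_prop)).differentiableWithinAt

theorem dG_zero (e : Fin γ × Bool) : C.dG e 0 = 0 ∧ C.m1 e 0 = 1 ∧ C.m2 e 0 = 1 := by
  have h : C.dG e 0 = 0 := by simp [dG]
  refine ⟨h, ?_, ?_⟩
  · simp [m1, h]
  · simp [m2, h]

theorem Ge_eq (e : Fin γ × Bool) (v : ℂ) : C.Ge e v = C.Ge e 0 * exp (C.dG e v) := by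
  rw [Ge, Ge, (dG_zero e).1, add_zero, exp_add]

theorem G0.ysq (h : C.G0) (hv : ‖v‖ ≤ 2 * C.pl.ρ e) : C.wd.yb e v ^ 2 = C.D.P (C.c e + v) := by
  obtain ⟨-, d2, d3, -, -⟩ := h.disc hv
  have h1 := h.d.R_ne (h.free hv)
  have h2 : exp (C.lg e + log (1 + v / C.τ e)) = C.τ e + v := by
    have h3 := τ_ne (C := C) e
    rw [exp_add, exp_log (slitPlane_ne_zero (h.CfC_n hv).2.1)]
    change C.τ e * _ = _
    field_simp
  have h3 := h.d.PR_loc (h.toAdm.jj_lt e.2) d3 h2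
  rw [← CfC_cv, ← CfC_Ge] at h3
  change (C.Ge e v / C.D.R (C.c e + v)) ^ 2 = _
  rw [div_pow, ← h3]
  field_simp

theorem G0.m_conj (h : C.G0) (hv : ‖v‖ ≤ 2 * C.pl.ρ e) :
    C.m1 (e.1.rev, e.2) (conj v) = conj (C.m1 e v) ∧
      C.m2 (e.1.rev, e.2) (conj v) = conj (C.m2 e v) ∧
      C.Ge (e.1.rev, e.2) (conj v) = -conj (C.Ge e v) := by
  obtain ⟨-, d2, d3, -, -⟩ := h.disc hv
  obtain ⟨-, n1, n2⟩ := h.CfC_n hv
  have hj := h.toAdm.jj_lt e.2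
  have e1 : log (1 + conj v / conj (C.τ e)) = conj (log (1 + v / C.τ e)) := by
    rw [← CfC_log n1]
    simp
  have e2 : log (1 + conj v / conj (C.c e)) = conj (log (1 + v / C.c e)) := by
    rw [← CfC_log n2]
    simp
  have e3 : C.D.lam (jj e.2) (conj (C.τ e) + conj v) = conj (C.D.lam (jj e.2) (C.τ e + v)) := by
    rw [← h.d.lam_conj hj d3, map_add]
  have e4 := h.d.lam_conj hj (h.CfC_τ e)
  have e5 : C.dG (e.1.rev, e.2) (conj v) = conj (C.dG e v) := by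
    simp only [dG, h.toAdm.τ_conj, e1, e3, e4, map_add, map_sub, map_mul, map_div₀, conj_ofReal,
      map_ofNat]
  refine ⟨?_, ?_, ?_⟩
  · simp only [m1, e5, h.toAdm.c_conj, e2, ← exp_conj, map_sub, map_div₀, map_ofNat]
  · simp only [m2, e5, h.toAdm.c_conj, e2, ← exp_conj, map_sub, map_div₀, map_ofNat, map_neg]
  · rw [Ge, Ge, e5, h.toAdm.τ_conj, ← exp_conj, eq_neg_iff_add_eq_zero, ← neg_eq_iff_add_eq_zero,
      ← CfC_pi]
    congr 1
    simp only [e4, map_add, map_mul, map_div₀, conj_ofReal, map_ofNat, conj_I]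
    obtain ⟨k, b⟩ := e
    cases b
    · simp only [(h.toAdm.lg_conj k).1]
      simp [jj, ph, sg]
      ring
    · simp only [(h.toAdm.lg_conj k).2]
      simp [jj, ph, sg]
      ring

theorem G0.m_sq (h : C.G0) (hv : ‖v‖ ≤ 2 * C.pl.ρ e) :
    C.m1 e v ^ 2 = exp (C.dG e v) * (C.c e / (C.c e + v)) ∧
      C.m2 e v ^ 2 = exp (-C.dG e v) * (C.c e / (C.c e + v)) ∧
      C.m1 e v * C.m2 e v = C.c e / (C.c e + v) := by
  obtain ⟨-, -, -, -, d5⟩ := h.disc hv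
  have h0 := (h.c_bd e).1
  have h1 : exp (-log (1 + v / C.c e)) = C.c e / (C.c e + v) := by
    rw [exp_neg, exp_log (slitPlane_ne_zero (h.CfC_n hv).2.2)]
    field_simp
  refine ⟨?_, ?_, ?_⟩
  · rw [m1, sq, ← exp_add, ← h1, ← exp_add]
    congr 1
    ring
  · rw [m2, sq, ← exp_add, ← h1, ← exp_add]
    congr 1
    ring
  · rw [m1, m2, ← exp_add, ← h1]
    congr 1
    ring

theorem G0.f_eq (h : C.G0) (hv : ‖v‖ ≤ 2 * C.pl.ρ e) :
    C.wd.f1 e v = (C.m1 e v * C.wd.ψ₁ (C.c e + v)) ^ 2 * (C.Ge e 0 / C.c e) ∧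
      C.wd.f2 e v = (C.m2 e v * C.wd.ψ₂ (C.c e + v)) ^ 2 * (C.Ge e 0 * C.c e)⁻¹ ∧
      C.wd.f3 e v = C.m1 e v * C.wd.ψ₁ (C.c e + v) * (C.m2 e v * C.wd.ψ₂ (C.c e + v)) / C.c e := by
  obtain ⟨-, -, -, -, d5⟩ := h.disc hv
  obtain ⟨a1, a2, a3⟩ := h.m_sq hv
  have h0 := (h.c_bd e).1
  have h1 := h.d.R_ne (h.free hv)
  have h2 : C.Ge e v / C.D.R (C.c e + v) * C.D.R (C.c e + v) = C.Ge e 0 * exp (C.dG e v) := by
    rw [div_mul_cancel₀ _ h1, Ge_eq e v]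
  have h3 : C.Ge e 0 ≠ 0 := exp_ne_zero _
  have h4 := exp_ne_zero (C.dG e v)
  refine ⟨?_, ?_, ?_⟩
  · change C.wd.ψ₁ (C.c e + v) ^ 2 *
      (C.Ge e v / C.D.R (C.c e + v) * C.D.R (C.c e + v) / (C.c e + v)) = _
    rw [h2, mul_pow, a1]
    field_simp
  · change C.wd.ψ₂ (C.c e + v) ^ 2 *
      (C.Ge e v / C.D.R (C.c e + v) * C.D.R (C.c e + v) * (C.c e + v))⁻¹ = _
    rw [h2, mul_pow, a2, exp_neg]
    field_simp
  · change C.wd.ψ₁ (C.c e + v) * C.wd.ψ₂ (C.c e + v) / (C.c e + v) = _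
    rw [mul_mul_mul_comm, a3]
    field_simp

theorem G0.CfC_key (h : C.G0) (k : Fin γ) :
    C.Res k ^ 2 * C.Ge (k, false) 0 * C.c (k, true) =
      -C.pl.s k * C.Ge (k, true) 0 * C.c (k, false) := by
  have c0 : C.c (k, false) = -exp (log (-C.c (k, false))) := by
    rw [exp_log (neg_ne_zero.2 (h.c_bd (k, false)).1), neg_neg]
  have c1 : C.c (k, true) = -exp (log (-C.c (k, true))) := by
    rw [exp_log (neg_ne_zero.2 (h.c_bd (k, true)).1), neg_neg]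
  have g0 : C.Ge (k, false) 0 = exp (C.D.A 0 - Real.pi / 2 * I + 3 / 2 * C.lg (k, false) +
      C.D.lam 0 (C.τ (k, false))) := by
    rw [Ge, (dG_zero _).1]
    congr 1
    simp [jj, ph, sg]
    ring
  have g1 : C.Ge (k, true) 0 = exp (C.D.A 1 + Real.pi * I - 3 / 2 * C.lg (k, true) +
      C.D.lam 1 (C.τ (k, true))) := by
    rw [Ge, (dG_zero _).1]
    congr 1
    simp [jj, ph, sg]
    ring
  have hs : C.pl.s k = exp (C.lg (k, false)) * exp (C.lg (k, true)) * C.vs k ^ 2 := rfl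
  rw [hs, Cfg.vs, g0, g1]
  generalize C.D.lam 0 (C.τ (k, false)) = l0
  generalize C.D.lam 1 (C.τ (k, true)) = l1
  generalize log (-C.c (k, false)) = x0 at c0 ⊢
  generalize log (-C.c (k, true)) = x1 at c1 ⊢
  rw [c0, c1, mul_pow, ← exp_nat_mul]
  have e1 := CfC_pi (C.D.A 0 - Real.pi / 2 * I + 3 / 2 * C.lg (k, false) + l0 + x1)
  rw [exp_add _ x1] at e1
  have e2 : exp (C.D.A 0 - Real.pi / 2 * I + 3 / 2 * C.lg (k, false) + l0 + x1 + Real.pi * I) =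
      exp (C.lg (k, false)) * exp (C.lg (k, true)) * exp ((2 : ℕ) * (-(Real.pi / 4) * I +
        ((C.D.A 0 - C.D.A 1) / 2 : ℝ) + (C.lg (k, false) + C.lg (k, true)) / 4 + (l0 - l1) / 2 +
        (x1 - x0) / 2)) * exp (C.D.A 1 + Real.pi * I - 3 / 2 * C.lg (k, true) + l1) * exp x0 := by
    simp only [← exp_add]
    congr 1
    push_cast
    ring
  linear_combination C.Res k ^ 2 * (e2 - e1)

theorem G0.r_sq (h : C.G0) (e : Fin γ × Bool) :
    C.r1 e ^ 2 * (C.Ge e 0 / C.c e) = -C.pl.s e.1 * (C.Ge (op e) 0 / C.c (op e)) ∧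
      C.r2 e ^ 2 * (C.Ge e 0 * C.c e)⁻¹ = -C.pl.s e.1 * (C.Ge (op e) 0 * C.c (op e))⁻¹ := by
  obtain ⟨k, b⟩ := e
  have key := h.CfC_key k
  have c0 := (h.c_bd (k, false)).1
  have c1 := (h.c_bd (k, true)).1
  have g0 : C.Ge (k, false) 0 ≠ 0 := exp_ne_zero _
  have g1 : C.Ge (k, true) 0 ≠ 0 := exp_ne_zero _
  have r0 := h.Res_ne k
  have s0 := h.pl_ok.s_ne k
  have hs : C.pl.s k = -(C.Res k ^ 2 * C.Ge (k, false) 0 * C.c (k, true)) /
      (C.Ge (k, true) 0 * C.c (k, false)) := by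
    rw [key]
    field_simp
  cases b
  · simp only [r1, r2, op, Bool.not_false]
    rw [hs]
    constructor <;> field_simp
  · simp only [r1, r2, op, Bool.not_true]
    rw [hs]
    constructor <;> field_simp

theorem Good.ok0 (h : C.Good) : C.wd.Ok0 := by
  have g := h.g0
  have hb : ∀ e, ∀ v ∈ ball (0 : ℂ) (2 * C.pl.ρ e), ‖v‖ ≤ 2 * C.pl.ρ e := fun e v hv =>
    (mem_ball_zero_iff.1 hv).le
  refine ⟨h.d, lt_of_lt_of_le two_pos h.q, g.pl_ok, g.psy, fun e v hv => g.free (hb e v hv),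
    fun e => (g.dG_hol e).2.2.2.2, fun e v hv => g.ysq (hb e v hv), fun e v hv => ?_,
    fun e v hv h1 h2 => ?_, fun k => ?_, h.wy, h.ce, h.co⟩
  · change C.Ge (e.1.rev, e.2) (conj v) / C.D.R (C.c (e.1.rev, e.2) + conj v) =
      -conj (C.Ge e v / C.D.R (C.c e + v))
    rw [(g.m_conj (hb e v hv)).2.2, h.toAdm.c_conj, ← map_add, Dat.R_conj, map_div₀, neg_div]
  · obtain ⟨-, d2, d3, -, -⟩ := g.disc (hb e v hv)
    have hk : γ ≤ 2 * (e.1 : ℕ) + 1 := by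
      by_contra hlt
      have h3 : (C.wd.c e).im ≤ -(2 * C.pl.ρ e) := (g.place e.1).2.2.2 (not_le.1 hlt) e.2
      have h4 := g.pl_ok.ρ_pos e
      linarith
    have h3 : log (C.τ e) = C.lg e := (h.toAdm.lg_im hk e.2).2
    have h4 : 0 ≤ (C.τ e).im := by
      have h5 : (C.wd.c e).im = (C.τ e).im := by
        change (C.c e).im = _
        simp [c]
      rwa [h5] at h1
    have h5 : 0 ≤ (C.τ e + v).im := by
      have h6 : (C.wd.c e + v).im = (C.τ e + v).im := by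
        change (C.c e + v).im = _
        simp [c]
      rwa [h6] at h2
    have h6 := h.d.G_loc (h.toAdm.jj_lt e.2) h5 d2 d3
    rw [log_near (g.CfC_n (hb e v hv)).1 h4 h5, h3, ← CfC_Ge, ← CfC_cv,
      h.d.G_eq (g.free (hb e v hv))] at h6
    change C.Ge e v / C.D.R (C.c e + v) = C.D.Y (C.c e + v)
    rw [← h6, mul_div_cancel_right₀ _ (h.d.R_ne (g.free (hb e v hv)))]
  · obtain ⟨p1, p2, p3⟩ := g.place k
    rcases lt_trichotomy (2 * (k : ℕ) + 1) γ with h1 | h1 | h1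
    · exact Or.inr (Or.inr (p3.2 h1))
    · exact Or.inl (p1 h1)
    · exact Or.inr (Or.inl (p2 h1))

end Cfg

end Pool.Agent.MP_92463a_gt
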