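import Pool.Agent.MP_92463a_gt.PlB
import Pool.Agent.MP_92463a_gt.Cau1

open Set Complex Filter Metric
open scoped Topology ComplexConjugate ContDiff Manifold

noncomputable section

namespace Pool.Agent.MP_92463a_gt

namespace Pl

variable {ι : Type} {P : Pl ι} {m : ι × Bool → ℂ → ℂ} {r : ι × Bool → ℂ} {f : ℂ → ℂ}
  {e : ι × Bool} {t : ℂ} {M : ℝ}

theorem Ker_rin (h : P.Ok) (e : ι × Bool) : 16 * P.rin e ≤ P.ρ e := by
  have := h.rin_mu e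
  have := h.mu_ρ e
  linarith

theorem Ker_w (h : P.Ok) {v : ℂ} (hv : ‖v‖ = P.ρ (op e)) : ‖P.s e.1 / v‖ < 2 * P.ρ e := by
  have := Ker_rin h e
  have := h.rin_pos e
  rw [h.circ_rin hv]; linarith

theorem Ker_v (h : P.Ok) {v : ℂ} (hv : ‖v‖ = P.ρ (op e)) : ‖v‖ < 2 * P.ρ (op e) := by
  have := h.ρ_pos (op e)
  linarith

theorem Ker_ne (h : P.Ok) {v u : ℂ} (hv : ‖v‖ = P.ρ (op e)) (hu : P.rin e < ‖u‖) :
    u - P.s e.1 / v ≠ 0 := by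
  intro h0
  rw [sub_eq_zero.1 h0, h.circ_rin hv] at hu
  exact lt_irrefl _ hu

theorem Ker_inv (h : P.Ok) {v u : ℂ} (hv : ‖v‖ = P.ρ (op e)) (hu : 2 * P.rin e ≤ ‖u‖) :
    ‖(u - P.s e.1 / v)⁻¹‖ ≤ 2 * ‖u‖⁻¹ := by
  have h1 := h.rin_pos e
  have h2 := norm_sub_norm_le u (P.s e.1 / v)
  rw [h.circ_rin hv] at h2
  have h3 : 0 < ‖u‖ := by linarith
  rw [norm_inv]
  calc ‖u - P.s e.1 / v‖⁻¹ ≤ (‖u‖ / 2)⁻¹ := inv_anti₀ (by positivity) (by linarith)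
    _ = 2 * ‖u‖⁻¹ := by field_simp

theorem Ker_k1 (h : P.Ok) (hm : P.Wt m) {v u : ℂ} (hv : ‖v‖ = P.ρ (op e))
    (hu : 2 * P.rin e ≤ ‖u‖) : ‖P.k1 m r e v u‖ ≤ 6 * ‖r e‖ / ‖u‖ := by
  have h1 := (hm.ne (Ker_v h hv)).2.1
  have h2 := (hm.ne (Ker_w h hv)).2.2
  have h3 := Ker_inv h hv hu
  have e1 : P.k1 m r e v u =
      r e * (m (op e) v * ((m e (P.s e.1 / v))⁻¹ * (u - P.s e.1 / v)⁻¹)) := by
    simp only [k1, div_eq_mul_inv, mul_inv]; ring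
  rw [e1, norm_mul, norm_mul, norm_mul]
  calc _ ≤ ‖r e‖ * (3 / 2 * (2 * (2 * ‖u‖⁻¹))) := by gcongr
    _ = _ := by rw [div_eq_mul_inv (6 * ‖r e‖)]; ring

theorem Ker_dif (h : P.Ok) (hm : P.Wt m) {v u : ℂ} (hv : ‖v‖ = P.ρ (op e))
    (hu : 2 * P.rin e ≤ ‖u‖) : ‖(m e (P.s e.1 / v) * (u - P.s e.1 / v))⁻¹ - u⁻¹‖ ≤
      2 * P.rin e * ((P.ρ e)⁻¹ + ‖u‖⁻¹) / ‖u‖ := by
  have h0 := h.rin_pos e
  have hρ := h.ρ_pos e
  obtain ⟨h1, -, h2⟩ := hm.ne (Ker_w h hv)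
  have h3 := Ker_inv h hv hu
  have h4 := hm.schwarz (Ker_w h hv)
  have h5 := Ker_ne h hv (u := u) (by linarith)
  have h6 : 0 < ‖u‖ := by linarith
  have h7 : u ≠ 0 := norm_pos_iff.1 h6
  have h8 := h.circ_rin hv
  generalize P.s e.1 / v = w at *
  have e1 : (m e w * (u - w))⁻¹ - u⁻¹ =
      -(m e w - 1) * ((m e w)⁻¹ * (u - w)⁻¹) + w * (u⁻¹ * (u - w)⁻¹) := by
    field_simp; ring
  rw [e1]
  refine (norm_add_le _ _).trans ?_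
  rw [norm_mul, norm_mul, norm_mul, norm_mul, norm_neg, norm_inv u]
  rw [h8] at h4 ⊢
  calc _ ≤ P.rin e / (4 * P.ρ e) * (2 * (2 * ‖u‖⁻¹)) + P.rin e * (‖u‖⁻¹ * (2 * ‖u‖⁻¹)) := by
        gcongr
    _ = 2 * P.rin e * ((P.ρ e)⁻¹ / 2 + ‖u‖⁻¹) / ‖u‖ := by field_simp; ring
    _ ≤ _ := by gcongr; exact half_le_self (by positivity)

theorem Ker_k2 (h : P.Ok) (hm : P.Wt m) {v u : ℂ} (hv : ‖v‖ = P.ρ (op e))
    (hu : 2 * P.rin e ≤ ‖u‖) :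
    ‖P.k2 m r e v u‖ ≤ 12 * ‖r e‖ * ((P.ρ e)⁻¹ + ‖u‖⁻¹) / ‖u‖ := by
  have h0 := h.rin_pos e
  have hρ := h.ρ_pos e
  have h1 := (hm.ne (Ker_v h hv)).2.1
  have h2 := Ker_dif h hm hv hu
  have h3 := h.rin_mul e
  have h4 : 0 < ‖P.s e.1‖ := norm_pos_iff.2 (h.s_ne _)
  have h6 : 0 < ‖u‖ := by linarith
  have h7 := h.ρ_pos (op e)
  simp only [k2, norm_mul, norm_div, hv]
  calc _ ≤ ‖r e‖ / ‖P.s e.1‖ * P.ρ (op e) * (3 / 2) *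
        (2 * P.rin e * ((P.ρ e)⁻¹ + ‖u‖⁻¹) / ‖u‖) := by gcongr
    _ = 3 * ‖r e‖ * ((P.ρ e)⁻¹ + ‖u‖⁻¹) / ‖u‖ := by rw [← h3]; field_simp
    _ ≤ _ := by gcongr; norm_num

theorem Ker_c0 (h : P.Ok) (hm : P.Wt m) (e : ι × Bool) :
    ContinuousOn (fun z : ℂ × ℂ => m (op e) z.1) {z | ‖z.1‖ = P.ρ (op e) ∧ P.rin e < ‖z.2‖} ∧
    ContinuousOn (fun z : ℂ × ℂ => (m e (P.s e.1 / z.1) * (z.2 - P.s e.1 / z.1))⁻¹)
      {z | ‖z.1‖ = P.ρ (op e) ∧ P.rin e < ‖z.2‖} := by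
  have hw : ContinuousOn (fun z : ℂ × ℂ => P.s e.1 / z.1)
      {z | ‖z.1‖ = P.ρ (op e) ∧ P.rin e < ‖z.2‖} :=
    continuousOn_const.div continuousOn_fst fun z hz =>
      norm_pos_iff.1 (hz.1 ▸ h.ρ_pos (op e))
  refine ⟨(hm.hol (op e)).continuousOn.comp continuousOn_fst fun z hz =>
    mem_ball_zero_iff.2 (Ker_v h hz.1), ContinuousOn.inv₀ (ContinuousOn.mul
      ((hm.hol e).continuousOn.comp hw fun z hz => mem_ball_zero_iff.2 (Ker_w h hz.1))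
      (continuousOn_snd.sub hw)) fun z hz =>
    mul_ne_zero (hm.ne (Ker_w h hz.1)).1 (Ker_ne h hz.1 hz.2)⟩

theorem Ker_c1 (h : P.Ok) (hm : P.Wt m) (e : ι × Bool) :
    ContinuousOn (fun z : ℂ × ℂ => P.k1 m r e z.1 z.2)
      {z | ‖z.1‖ = P.ρ (op e) ∧ P.rin e < ‖z.2‖} := by
  obtain ⟨h1, h2⟩ := Ker_c0 h hm e
  simp only [k1, div_eq_mul_inv (r e * _)]
  exact (continuousOn_const.mul h1).mul h2

theorem Ker_c2 (h : P.Ok) (hm : P.Wt m) (e : ι × Bool) :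
    ContinuousOn (fun z : ℂ × ℂ => P.k2 m r e z.1 z.2)
      {z | ‖z.1‖ = P.ρ (op e) ∧ P.rin e < ‖z.2‖} := by
  obtain ⟨h1, h2⟩ := Ker_c0 h hm e
  exact ((continuousOn_const.mul continuousOn_fst).mul h1).mul (h2.sub
    (continuousOn_snd.inv₀ fun z hz => norm_pos_iff.1 ((h.rin_pos e).trans hz.2)))

theorem Ker_two (h : P.Ok) (e' : ι × Bool) {v : ℂ} (hv : ‖v‖ = P.ρ e) :
    2 * P.rin e' ≤ ‖P.c e + v - P.c e'‖ := by
  have := h.circ_far e' hv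
  have := Ker_rin h e'
  have := h.rin_pos e'
  linarith

theorem Ker_hol {κ : ι × Bool → ℂ → ℂ → ℂ} (h : P.Ok)
    (hc : ContinuousOn (fun z : ℂ × ℂ => κ e z.1 z.2) {z | ‖z.1‖ = P.ρ (op e) ∧ P.rin e < ‖z.2‖})
    (hd : ∀ v, ‖v‖ = P.ρ (op e) → DifferentiableOn ℂ (κ e v) {u | P.rin e < ‖u‖})
    (hf : ContinuousOn (fun v => f (P.c (op e) + v)) {v | ‖v‖ = P.ρ (op e)}) :
    DifferentiableOn ℂ (P.pk κ f e) {t | P.rin e < ‖t - P.c e‖} := by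
  refine av_hol (k := fun v t => κ e v (t - P.c e) * f (P.c (op e) + v)) (h.ρ_pos _).le
    (isOpen_lt continuous_const (by fun_prop)) ?_ fun v hv => ?_
  · exact (hc.comp (f := fun z : ℂ × ℂ => (z.1, z.2 - P.c e)) (by fun_prop)
      fun z hz => hz).mul (hf.comp continuousOn_fst fun z hz => hz.1)
  · exact ((hd v hv).comp (f := fun t => t - P.c e) (by fun_prop) fun t ht => ht).mul_const _

theorem Ker_d0 (h : P.Ok) (hm : P.Wt m) {v : ℂ} (hv : ‖v‖ = P.ρ (op e)) :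
    DifferentiableOn ℂ (fun u => (m e (P.s e.1 / v) * (u - P.s e.1 / v))⁻¹) {u | P.rin e < ‖u‖} :=
  DifferentiableOn.inv (by fun_prop) fun u hu =>
    mul_ne_zero (hm.ne (Ker_w h hv)).1 (Ker_ne h hv hu)

theorem Ker_bd {κ : ι × Bool → ℂ → ℂ → ℂ} {β : ℝ} (h : P.Ok)
    (hκ : ∀ v, ‖v‖ = P.ρ (op e) → ‖κ e v (t - P.c e)‖ ≤ β)
    (hf : ∀ v, ‖v‖ = P.ρ (op e) → ‖f (P.c (op e) + v)‖ ≤ M) : ‖P.pk κ f e t‖ ≤ β * M :=
  av_norm_le (h.ρ_pos _).le fun v hv => by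
    rw [norm_mul]
    exact mul_le_mul (hκ v hv) (hf v hv) (norm_nonneg _) ((norm_nonneg _).trans (hκ v hv))

theorem k1_kb [Fintype ι] {W : ι × Bool → ℝ} (h : P.Ok) (hm : P.Wt m) (hr : P.Con r W) :
    P.KB (P.k1 m r) W := by
  refine ⟨hr.1, Ker_c1 h hm, fun e v hv => ⟨fun e' => 6 * ‖r e'‖ / ‖P.c e + v - P.c e'‖,
    fun e' v' hv' => Ker_k1 h hm hv' (Ker_two h e' hv), ?_⟩⟩
  refine le_of_eq_of_le (Finset.sum_congr rfl fun e' _ => ?_) (hr.2 e v hv)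
  ring

theorem k2_kb [Fintype ι] (h : P.Ok) (hm : P.Wt m) (hr : P.Con2 r) :
    P.KB (P.k2 m r) fun _ => 1 := by
  refine ⟨fun _ => one_pos, Ker_c2 h hm, fun e v hv => ⟨_,
    fun e' v' hv' => Ker_k2 h hm hv' (Ker_two h e' hv), ?_⟩⟩
  simpa only [mul_one] using hr e v hv

theorem pk1_hol (h : P.Ok) (hm : P.Wt m)
    (hf : ContinuousOn (fun v => f (P.c (op e) + v)) {v | ‖v‖ = P.ρ (op e)}) :
    DifferentiableOn ℂ (P.pk (P.k1 m r) f e) {t | P.rin e < ‖t - P.c e‖} := by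
  refine Ker_hol h (Ker_c1 h hm e) (fun v hv => ?_) hf
  have := (Ker_d0 h hm hv).const_mul (r e * m (op e) v)
  exact this.congr fun u _ => by simp only [k1, div_eq_mul_inv (r e * _)]

theorem pk2_hol (h : P.Ok) (hm : P.Wt m)
    (hf : ContinuousOn (fun v => f (P.c (op e) + v)) {v | ‖v‖ = P.ρ (op e)}) :
    DifferentiableOn ℂ (P.pk (P.k2 m r) f e) {t | P.rin e < ‖t - P.c e‖} := by
  refine Ker_hol h (Ker_c2 h hm e) (fun v hv => ?_) hf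
  exact ((Ker_d0 h hm hv).sub (differentiableOn_id.inv fun u hu =>
    norm_pos_iff.1 ((h.rin_pos e).trans hu))).const_mul (r e / P.s e.1 * v * m (op e) v)

theorem pk1_bd (h : P.Ok) (hm : P.Wt m)
    (hf : ∀ v, ‖v‖ = P.ρ (op e) → ‖f (P.c (op e) + v)‖ ≤ M) (ht : 2 * P.rin e ≤ ‖t - P.c e‖) :
    ‖P.pk (P.k1 m r) f e t‖ ≤ 6 * ‖r e‖ * M / ‖t - P.c e‖ := by
  refine (Ker_bd h (fun v hv => Ker_k1 h hm hv ht) hf).trans_eq ?_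
  ring

theorem pk2_bd (h : P.Ok) (hm : P.Wt m)
    (hf : ∀ v, ‖v‖ = P.ρ (op e) → ‖f (P.c (op e) + v)‖ ≤ M) (ht : 2 * P.rin e ≤ ‖t - P.c e‖) :
    ‖P.pk (P.k2 m r) f e t‖ ≤
      12 * ‖r e‖ * M * ((P.ρ e)⁻¹ + ‖t - P.c e‖⁻¹) / ‖t - P.c e‖ := by
  refine (Ker_bd h (fun v hv => Ker_k2 h hm hv ht) hf).trans_eq ?_
  ring

theorem pk1_main (h : P.Ok) (hm : P.Wt m) {η : ℝ}
    (hc : ContinuousOn (fun v => f (P.c (op e) + v)) {v | ‖v‖ = P.ρ (op e)})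
    (hf : ∀ v, ‖v‖ = P.ρ (op e) → ‖f (P.c (op e) + v) - 1‖ ≤ η) (ht : 2 * P.rin e ≤ ‖t - P.c e‖) :
    ‖P.pk (P.k1 m r) f e t - r e / (t - P.c e)‖ ≤
      ‖r e‖ * (6 * η + 12 * P.rin e * ((P.ρ e)⁻¹ + ‖t - P.c e‖⁻¹)) / ‖t - P.c e‖ := by
  have h0 := h.rin_pos e
  have hρ := h.ρ_pos e
  have hρ' := h.ρ_pos (op e)
  have hu : P.rin e < ‖t - P.c e‖ := by linarith
  have e1 : r e / (t - P.c e) = av (P.ρ (op e)) fun v => r e / (t - P.c e) * m (op e) v := by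
    rw [av_const_mul, av_center hρ'.le (by linarith) (hm.hol (op e)), hm.zero, mul_one]
  have c1 : ContinuousOn (fun v => P.k1 m r e v (t - P.c e)) {v | ‖v‖ = P.ρ (op e)} :=
    (Ker_c1 h hm e).comp (f := fun v => (v, t - P.c e)) (by fun_prop) fun v hv => ⟨hv, hu⟩
  have c2 : ContinuousOn (m (op e)) {v | ‖v‖ = P.ρ (op e)} :=
    (hm.hol (op e)).continuousOn.mono fun v hv => mem_ball_zero_iff.2 (Ker_v h hv)
  have c3 : ContinuousOn (fun v => P.k1 m r e v (t - P.c e) * f (P.c (op e) + v))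
      {v | ‖v‖ = P.ρ (op e)} := c1.mul hc
  have c4 : ContinuousOn (fun v => r e / (t - P.c e) * m (op e) v) {v | ‖v‖ = P.ρ (op e)} :=
    continuousOn_const.mul c2
  rw [e1, pk, ← av_sub hρ'.le c3 c4]
  refine av_norm_le hρ'.le fun v hv => ?_
  have h1 := Ker_k1 (r := r) h hm hv ht
  have h2 := Ker_dif h hm hv ht
  have h3 := (hm.ne (Ker_v h hv)).2.1
  have h4 := hf v hv
  have e2 : P.k1 m r e v (t - P.c e) * f (P.c (op e) + v) - r e / (t - P.c e) * m (op e) v =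
      P.k1 m r e v (t - P.c e) * (f (P.c (op e) + v) - 1) + r e * (m (op e) v *
        ((m e (P.s e.1 / v) * (t - P.c e - P.s e.1 / v))⁻¹ - (t - P.c e)⁻¹)) := by
    simp only [k1, div_eq_mul_inv (r e * _), div_eq_mul_inv (r e)]; ring
  rw [e2]
  refine (norm_add_le _ _).trans ?_
  rw [norm_mul, norm_mul, norm_mul]
  have h6 : 0 < ‖t - P.c e‖ := by linarith
  calc _ ≤ 6 * ‖r e‖ / ‖t - P.c e‖ * η + ‖r e‖ * (3 / 2 *
        (2 * P.rin e * ((P.ρ e)⁻¹ + ‖t - P.c e‖⁻¹) / ‖t - P.c e‖)) := by gcongr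
    _ = ‖r e‖ * (6 * η + 3 * P.rin e * ((P.ρ e)⁻¹ + ‖t - P.c e‖⁻¹)) / ‖t - P.c e‖ := by ring
    _ ≤ _ := by gcongr; norm_num

theorem pk1_infty (h : P.Ok) (hm : P.Wt m)
    (hf : ContinuousOn (fun v => f (P.c (op e) + v)) {v | ‖v‖ = P.ρ (op e)}) :
    Tendsto (P.pk (P.k1 m r) f e) (Bornology.cobounded ℂ) (𝓝 0) := by
  have hK : IsCompact {v : ℂ | ‖v‖ = P.ρ (op e)} := by
    convert isCompact_sphere (0 : ℂ) (P.ρ (op e)) using 1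
    ext v; simp
  obtain ⟨C, hC⟩ := hK.exists_bound_of_continuousOn hf
  have h1 : Tendsto (fun t : ℂ => ‖t - P.c e‖) (Bornology.cobounded ℂ) atTop :=
    tendsto_norm_cobounded_atTop.comp (tendsto_sub_const_cobounded (P.c e))
  refine squeeze_zero_norm' ?_ (h1.const_div_atTop (6 * ‖r e‖ * C))
  filter_upwards [h1.eventually_ge_atTop (2 * P.rin e)] with t ht
  exact pk1_bd h hm hC ht

end Pl

end Pool.Agent.MP_92463a_gt
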