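import Pool.Agent.MP_92463a_gt.Fix
import Pool.Agent.MP_92463a_gt.Ker
import Pool.Agent.MP_92463a_gt.Cau2

open Set Complex Filter Metric
open scoped Topology ComplexConjugate ContDiff Manifold

noncomputable section

namespace Pool.Agent.MP_92463a_gt

namespace Pl

variable {ι : Type} [Fintype ι] {P : Pl ι} {m : ι × Bool → ℂ → ℂ} {r : ι × Bool → ℂ}
  {W : ι × Bool → ℝ} {F : ℂ → ℂ} {B : ℝ}

omit [Fintype ι] in
theorem PsiM_rin_lt (h : P.Ok) (e : ι × Bool) : P.rin e < P.ρ e := by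
  have h1 := h.rin_pos e
  have h2 := h.rin_mu e
  have h3 := h.mu_ρ e
  linarith

theorem PsiM_pk_hol (h : P.Ok) (hm : P.Wt m) (hr : P.Con r W) (hF : P.FB F B W) (e : ι × Bool) :
    DifferentiableOn ℂ (P.pk (P.k1 m r) (P.psi (P.k1 m r) F) e) {t | P.rin e < ‖t - P.c e‖} :=
  pk1_hol h hm (psi_fb h (k1_kb h hm hr) hF (op e)).1

theorem PsiM_loc (h : P.Ok) (hm : P.Wt m) (hr : P.Con r W) (hF : P.FB F B W)
    (hd : ∀ e, DifferentiableOn ℂ F (ball (P.c e) (2 * P.ρ e))) (e : ι × Bool) :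
    ∃ D : ℂ → ℂ, DifferentiableOn ℂ D (ball 0 (P.ρ e)) ∧ ∀ u ∈ P.Ann e,
      D u = m e u * P.psi (P.k1 m r) F (P.c e + u) - r e / u *
        (m (op e) (P.s e.1 / u) * P.psi (P.k1 m r) F (P.c (op e) + P.s e.1 / u)) := by
  classical
  have heq := psi_eq h (k1_kb h hm hr) hF
  have hpk := PsiM_pk_hol h hm hr hF
  generalize P.psi (P.k1 m r) F = f at heq hpk ⊢
  have hρ := h.ρ_pos e
  have hρ' := h.ρ_pos (op e)
  have hs := h.s_ne e.1
  have hFe : ∀ e, DifferentiableOn ℂ (fun v => F (P.c e + v)) (ball 0 (2 * P.ρ e)) := fun e =>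
    (hd e).comp (by fun_prop) fun v hv => by simpa using hv
  have hf : DifferentiableOn ℂ (fun v => f (P.c (op e) + v)) (P.Ann2 (op e)) := by
    refine DifferentiableOn.congr (((hFe _).mono fun v hv => mem_ball_zero_iff.2 hv.2).add
      (DifferentiableOn.fun_sum (u := Finset.univ) fun e' _ =>
        (hpk e').comp (f := fun v => P.c (op e) + v) (by fun_prop)
          fun v hv => h.ann2_mem hv e')) fun v _ => heq _
  have hrin : ‖P.s e.1‖ / P.rin (op e) = P.ρ e := by
    have := h.rin_mul (op e)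
    rw [op_op, op_fst] at this
    rw [← this, mul_div_cancel_left₀ _ (h.rin_pos _).ne']
  have hlt : ∀ v ∈ P.Ann2 (op e), ‖P.s e.1 / v‖ < 2 * P.ρ e := by
    intro v hv
    have : ‖P.s e.1‖ / ‖v‖ ≤ P.ρ e := by
      rw [← hrin]
      exact div_le_div_of_nonneg_left (norm_nonneg _) (h.rin_pos _) hv.1.le
    rw [norm_div]
    linarith
  have hk : DifferentiableOn ℂ
      (fun v => r e * m (op e) v * f (P.c (op e) + v) / m e (P.s e.1 / v)) (P.Ann2 (op e)) := by
    refine DifferentiableOn.div ((((hm.hol _).mono fun v hv =>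
      mem_ball_zero_iff.2 hv.2).const_mul _).mul hf) ((hm.hol e).comp
        ((differentiableOn_const _).div differentiableOn_id fun v hv =>
          norm_pos_iff.1 ((h.rin_pos _).trans hv.1)) fun v hv => mem_ball_zero_iff.2 (hlt v hv))
      fun v hv => (hm.ne (hlt v hv)).1
  obtain ⟨g, hg, hg'⟩ := laurent hs (h.rin_pos (op e)) (PsiM_rin_lt h _)
    (by linarith : P.ρ (op e) < 2 * P.ρ (op e)) hk
  rw [hrin] at hg hg'
  have hsub : ball (0 : ℂ) (P.ρ e) ⊆ ball 0 (2 * P.ρ e) := ball_subset_ball (by linarith)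
  refine ⟨fun u => m e u * (F (P.c e + u) +
    ∑ e' ∈ Finset.univ.erase e, P.pk (P.k1 m r) f e' (P.c e + u) - g u), ?_, fun u hu => ?_⟩
  · refine ((hm.hol e).mono hsub).mul ((((hFe e).mono hsub).add
      (DifferentiableOn.fun_sum fun e' he' =>
        (hpk e').comp (f := fun v => P.c e + v) (by fun_prop) fun v hv => ?_)).sub hg)
    have h1 := h.far (Finset.ne_of_mem_erase he').symm (mem_ball_zero_iff.1 (hsub hv)).le
    have h2 := PsiM_rin_lt h e'
    have h3 := h.ρ_pos e'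
    change P.rin e' < ‖P.c e + v - P.c e'‖
    linarith
  · have hu0 := h.ann_ne hu
    have hmu := (hm.ne (e := e) (v := u) (by linarith [hu.2])).1
    have h1 := hg' u hu.1 hu.2
    have h2 : P.pk (P.k1 m r) f e (P.c e + u) = av (P.ρ (op e)) fun v =>
        r e * m (op e) v * f (P.c (op e) + v) / m e (P.s e.1 / v) / (u - P.s e.1 / v) := by
      simp only [pk, k1, add_sub_cancel_left, div_div, div_mul_eq_mul_div]
    have h3 : P.s e.1 / (P.s e.1 / u) = u := by field_simp
    rw [← h2, h3] at h1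
    have h4 := heq (P.c e + u)
    rw [← Finset.add_sum_erase _ _ (Finset.mem_univ e)] at h4
    have h5 : r e / u * (m (op e) (P.s e.1 / u) * f (P.c (op e) + P.s e.1 / u)) =
        m e u * (g u + P.pk (P.k1 m r) f e (P.c e + u)) := by
      rw [← h1]
      field_simp
    rw [h5, h4]
    ring

omit [Fintype ι] in
theorem PsiM_pk_conj (h : P.Ok) {κ : ι → ι} (hs : P.Sy κ)
    (sm : ∀ e : ι × Bool, ∀ v ∈ ball (0 : ℂ) (2 * P.ρ e), m (κ e.1, e.2) (conj v) = conj (m e v))
    (sr : ∀ e : ι × Bool, r (κ e.1, e.2) = conj (r e)) (f : ℂ → ℂ) (e : ι × Bool) (t : ℂ) :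
    P.pk (P.k1 m r) (fun t => conj (f (conj t))) e t =
      conj (P.pk (P.k1 m r) f (κ e.1, e.2) (conj t)) := by
  have hρ := h.ρ_pos e
  have hρ' := h.ρ_pos (op e)
  have e1 : op (κ e.1, e.2) = (κ (op e).1, (op e).2) := rfl
  simp only [pk]
  rw [← av_conj, e1, hs.ρ]
  refine av_congr hρ'.le fun v hv => ?_
  have h1 := sm (op e) v (mem_ball_zero_iff.2 (by linarith))
  have h2 := sm e (P.s e.1 / v) (mem_ball_zero_iff.2 (by
    have := PsiM_rin_lt h e
    rw [h.circ_rin hv]
    linarith))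
  rw [map_div₀] at h2
  simp only [k1, e1, hs.c, hs.s, sr, h1, h2, map_mul, map_div₀, map_sub, map_add, conj_conj]

theorem psi_match (h : P.Ok) (hm : P.Wt m) (hr : P.Con r W) (hF : P.FB F B W)
    (hrr : ∀ e, r e * r (op e) = P.s e.1)
    (hd : ∀ e, DifferentiableOn ℂ F (ball (P.c e) (2 * P.ρ e))) :
    P.Mt 1 m r (P.psi (P.k1 m r) F) := by
  choose D hD hD' using PsiM_loc h hm hr hF hd
  intro e v hv
  have hs := h.s_ne e.1
  have h0 := liouville_glue (a := -r e) (d := 1) one_pos (h.ρ_pos (op e)) hs (by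
    have := h.s_small e
    have := norm_pos_iff.2 hs
    linarith) (hD e) (hD (op e)) (fun u h1 h2 => by
      have hu : u ∈ P.Ann e := ⟨h1, h2⟩
      have hu0 := h.ann_ne hu
      have h3 : P.s e.1 / (P.s e.1 / u) = u := by field_simp
      have h4 : r e / u * (r (op e) / (P.s e.1 / u)) = 1 := by
        field_simp
        exact hrr e
      rw [hD' e u hu, hD' _ _ (h.ann_op hu), op_op, op_fst, h3, pow_one]
      linear_combination -(m e u * P.psi (P.k1 m r) F (P.c e + u)) * h4) v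
    (mem_ball_zero_iff.2 hv.2)
  rw [hD' e v hv] at h0
  rw [pow_one]
  exact sub_eq_zero.1 h0

theorem psi_conj (h : P.Ok) (hm : P.Wt m) (hr : P.Con r W) (hF : P.FB F B W) {κ : ι → ι}
    (hs : P.Sy κ)
    (sm : ∀ e : ι × Bool, ∀ v ∈ ball (0 : ℂ) (2 * P.ρ e), m (κ e.1, e.2) (conj v) = conj (m e v))
    (sr : ∀ e : ι × Bool, r (κ e.1, e.2) = conj (r e)) (sF : ∀ t, F (conj t) = conj (F t))
    (t : ℂ) :
    ∑ e, P.pk (P.k1 m r) (P.psi (P.k1 m r) F) e (conj t) =
      conj (∑ e, P.pk (P.k1 m r) (P.psi (P.k1 m r) F) e t) := by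
  have hκ := k1_kb h hm hr
  have heq := psi_eq h hκ hF
  have hfb := psi_fb h hκ hF
  have hun := fun f => psi_uniq h hκ hF (f := f)
  generalize P.psi (P.k1 m r) F = f at heq hfb hun ⊢
  have hinv : Function.Involutive fun e : ι × Bool => (κ e.1, e.2) := fun e => by
    simp only [hs.inv]
  have hsum : ∀ t, ∑ e, P.pk (P.k1 m r) (fun t => conj (f (conj t))) e t =
      conj (∑ e, P.pk (P.k1 m r) f e (conj t)) := by
    intro t
    rw [map_sum]
    simp only [PsiM_pk_conj h hs sm sr]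
    exact hinv.bijective.sum_comp fun e => conj (P.pk (P.k1 m r) f e (conj t))
  have hg := hun (fun t => conj (f (conj t))) (fun e => ?_) fun e v _ => ?_
  · have := hsum (conj t)
    rw [conj_conj] at this
    rw [← this]
    exact Finset.sum_congr rfl fun e _ =>
      av_congr (h.ρ_pos _).le fun v hv => by simp only [hg _ v hv]
  · simp only [map_add, ← hs.c]
    refine continuous_conj.comp_continuousOn (((hfb (κ e.1, e.2)).1).comp
      continuous_conj.continuousOn fun v hv => ?_)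
    simpa [hs.ρ] using hv
  · rw [hsum, heq, map_add, sF, conj_conj]

theorem psi_hol (h : P.Ok) (hm : P.Wt m) (hr : P.Con r W) (hF : P.FB F B W) :
    DifferentiableOn ℂ (fun t => ∑ e, P.pk (P.k1 m r) (P.psi (P.k1 m r) F) e t) P.Om ∧
      Tendsto (fun t => ∑ e, P.pk (P.k1 m r) (P.psi (P.k1 m r) F) e t) (Bornology.cobounded ℂ)
        (𝓝 0) := by
  refine ⟨DifferentiableOn.fun_sum fun e _ => (PsiM_pk_hol h hm hr hF e).mono fun t ht => ht e, ?_⟩
  simpa using tendsto_finsetSum Finset.univ fun e _ =>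
    pk1_infty (r := r) (e := e) h hm (psi_fb h (k1_kb h hm hr) hF (op e)).1

end Pl

end Pool.Agent.MP_92463a_gt
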