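import Pool.Agent.MP_92463a_gt.CfC
import Pool.Agent.MP_92463a_gt.PsiM

open Set Complex Filter Metric
open scoped Topology ComplexConjugate ContDiff Manifold

noncomputable section

namespace Pool.Agent.MP_92463a_gt

namespace Cfg

variable {γ : ℕ} {C : Cfg γ}

theorem CfD_b0 (h : C.Good) {e : Fin γ × Bool} {v : ℂ} (hv : ‖v‖ ≤ 2 * C.pl.ρ e) :
    C.c e + v + C.D.b 0 ≠ 0 :=
  (h.ok0.b0 (t := C.c e + v) fun h1 => h.g0.free hv (C.D.P_eq_zero.2 (Or.inl h1))).1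

theorem CfD_bg_diff {t : ℂ} (ht : t + C.D.b 0 ≠ 0) : DifferentiableAt ℂ C.bg t := by
  unfold bg
  exact (differentiableAt_const _).add ((differentiableAt_const _).div
    (differentiableAt_id.add_const _) ht)

theorem CfD_bg_hol (h : C.Good) (e : Fin γ × Bool) :
    DifferentiableOn ℂ C.bg (ball (C.pl.c e) (2 * C.pl.ρ e)) := by
  intro t ht
  have h1 := CfD_b0 h (e := e) (v := t - C.c e) (mem_ball_iff_norm.1 ht).le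
  rw [add_sub_cancel] at h1
  exact (CfD_bg_diff h1).differentiableWithinAt

theorem Good.fb1 (h : C.Good) : C.pl.FB C.bg 2 C.W1 := by
  refine fun e => ⟨fun v hv => ?_, h.bg e⟩
  have hρ := h.g0.pl_ok.ρ_pos e
  have hv' : ‖v‖ = C.pl.ρ e := hv
  have h1 := (CfD_bg_diff (CfD_b0 h (e := e) (v := v) (by linarith))).continuousAt
  exact (ContinuousAt.comp (f := fun v : ℂ => C.c e + v) h1 (by fun_prop)).continuousWithinAt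

theorem Good.fb2 (h : C.Good) : C.pl.FB (fun _ => 1) 1 C.W2 := by
  refine fun e => ⟨continuousOn_const, fun v _ => ?_⟩
  have hL := h.L
  rw [norm_one, one_mul, W2]
  split_ifs
  · exact Real.one_le_exp (by linarith)
  · exact le_rfl

theorem CfD_psi1 (h : C.Good) (t : ℂ) : C.pl.psi (C.pl.k1 C.m1 C.r1) C.bg t = C.bg t +
    ∑ e, C.pl.pk (C.pl.k1 C.m1 C.r1) (C.pl.psi (C.pl.k1 C.m1 C.r1) C.bg) e t :=
  Pl.psi_eq h.g0.pl_ok (Pl.k1_kb h.g0.pl_ok h.w1 h.c1) h.fb1 t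

theorem Good.ψ₁_eq (h : C.Good) : C.wd.ψ₁ = C.pl.psi (C.pl.k1 C.m1 C.r1) C.bg := by
  funext t
  rw [CfD_psi1 h t]
  change 1 + ∑ e, C.pl.pk (C.pl.k1 C.m1 C.r1) (C.pl.psi (C.pl.k1 C.m1 C.r1) C.bg) e t +
    C.ℓ * C.D.b 0 / (t + C.D.b 0) = _
  rw [Cfg.bg]
  ring

theorem Good.χ_eq (h : C.Good) (t : ℂ) :
    C.wd.χ t = 1 + ∑ e, C.pl.pk (C.pl.k1 C.m1 C.r1) C.wd.ψ₁ e t := by
  rw [h.ψ₁_eq]
  rfl

theorem Good.ψ₂_eq (h : C.Good) (t : ℂ) :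
    C.wd.ψ₂ t = 1 + ∑ e, C.pl.pk (C.pl.k1 C.m2 C.r2) C.wd.ψ₂ e t :=
  Pl.psi_eq h.g0.pl_ok (Pl.k1_kb h.g0.pl_ok h.w2 h.c2) h.fb2 t

theorem Good.ψ_fb (h : C.Good) : C.pl.FB C.wd.ψ₁ 4 C.W1 ∧ C.pl.FB C.wd.ψ₂ 2 C.W2 := by
  have h1 := Pl.psi_fb h.g0.pl_ok (Pl.k1_kb h.g0.pl_ok h.w1 h.c1) h.fb1
  have h2 := Pl.psi_fb h.g0.pl_ok (Pl.k1_kb h.g0.pl_ok h.w2 h.c2) h.fb2
  rw [show (2 : ℝ) * 2 = 4 by norm_num] at h1
  rw [mul_one] at h2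
  rw [h.ψ₁_eq]
  exact ⟨h1, h2⟩

theorem Good.mt (h : C.Good) : C.pl.Mt 1 C.m1 C.r1 C.wd.ψ₁ ∧ C.pl.Mt 1 C.m2 C.r2 C.wd.ψ₂ := by
  rw [h.ψ₁_eq]
  exact ⟨Pl.psi_match h.g0.pl_ok h.w1 h.c1 h.fb1 (fun e => (h.g0.r_mul e).1) (CfD_bg_hol h),
    Pl.psi_match h.g0.pl_ok h.w2 h.c2 h.fb2 (fun e => (h.g0.r_mul e).2.1)
      fun _ => differentiableOn_const _⟩

theorem CfD_ψ₂_fun (h : C.Good) : C.wd.ψ₂ = fun t => 1 +
    ∑ e, C.pl.pk (C.pl.k1 C.m2 C.r2) (C.pl.psi (C.pl.k1 C.m2 C.r2) fun _ => 1) e t :=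
  funext h.ψ₂_eq

theorem CfD_χ (h : C.Good) : DifferentiableOn ℂ C.wd.χ C.pl.Om ∧
    Tendsto C.wd.χ (Bornology.cobounded ℂ) (𝓝 1) := by
  obtain ⟨h1, h2⟩ := Pl.psi_hol h.g0.pl_ok h.w1 h.c1 h.fb1
  refine ⟨h1.const_add 1, ?_⟩
  have := h2.const_add 1
  rw [add_zero] at this
  exact this

theorem CfD_ψ (h : C.Good) : DifferentiableOn ℂ C.wd.ψ₂ C.pl.Om ∧
    Tendsto C.wd.ψ₂ (Bornology.cobounded ℂ) (𝓝 1) := by
  obtain ⟨h1, h2⟩ := Pl.psi_hol h.g0.pl_ok h.w2 h.c2 h.fb2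
  rw [CfD_ψ₂_fun h]
  refine ⟨h1.const_add 1, ?_⟩
  have := h2.const_add 1
  rw [add_zero] at this
  exact this

theorem CfD_hol (h : C.Good) (e : Fin γ × Bool) :
    DifferentiableOn ℂ (fun v => C.m1 e v * C.wd.ψ₁ (C.c e + v)) (C.pl.Ann2 e) ∧
      DifferentiableOn ℂ (fun v => C.m2 e v * C.wd.ψ₂ (C.c e + v)) (C.pl.Ann2 e) := by
  have hP := h.g0.pl_ok
  have hs : C.pl.Ann2 e ⊆ ball 0 (2 * C.pl.ρ e) := fun v hv => mem_ball_zero_iff.2 hv.2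
  refine ⟨((h.w1.hol e).mono hs).mul fun v hv => ?_, ((h.w2.hol e).mono hs).mul fun v hv => ?_⟩
  · have h1 := (CfD_χ h).1.differentiableAt (Pl.isOpen_om.mem_nhds (hP.ann2_mem hv))
    have h2 : DifferentiableAt ℂ C.wd.ψ₁ (C.c e + v) := by
      unfold Wd.ψ₁
      exact h1.add ((differentiableAt_const _).div (differentiableAt_id.add_const _)
        (CfD_b0 h hv.2.le))
    exact (DifferentiableAt.comp (f := fun v : ℂ => C.c e + v) v h2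
      (by fun_prop)).differentiableWithinAt
  · have h1 := (CfD_ψ h).1.differentiableAt (Pl.isOpen_om.mem_nhds (hP.ann2_mem hv))
    exact (DifferentiableAt.comp (f := fun v : ℂ => C.c e + v) v h1
      (by fun_prop)).differentiableWithinAt

theorem CfD_le (h : C.Good) {e : Fin γ × Bool} {v : ℂ} (hv : v ∈ C.pl.Ann e) :
    ‖v‖ ≤ 2 * C.pl.ρ e ∧ ‖C.pl.s e.1 / v‖ ≤ 2 * C.pl.ρ (op e) :=
  ⟨(h.g0.pl_ok.ann_sub e hv).2.le, (h.g0.pl_ok.ann_sub _ (h.g0.pl_ok.ann_op hv)).2.le⟩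

theorem CfD_mf1 (h : C.Good) : C.pl.MF C.wd.f1 := by
  refine ⟨fun e => (((CfD_hol h e).1.pow 2).mul_const (C.Ge e 0 / C.c e)).congr
    fun v hv => (h.g0.f_eq hv.2.le).1, fun e v hv => ?_⟩
  have h1 : C.m1 e v * C.wd.ψ₁ (C.c e + v) = C.r1 e / v ^ 1 *
    (C.m1 (op e) (C.pl.s e.1 / v) * C.wd.ψ₁ (C.c (op e) + C.pl.s e.1 / v)) := h.mt.1 e v hv
  rw [(h.g0.f_eq (CfD_le h hv).1).1, (h.g0.f_eq (CfD_le h hv).2).1, h1]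
  have h2 := (h.g0.r_sq e).1
  linear_combination (C.m1 (op e) (C.pl.s e.1 / v) *
    C.wd.ψ₁ (C.c (op e) + C.pl.s e.1 / v)) ^ 2 / v ^ 2 * h2

theorem CfD_mf2 (h : C.Good) : C.pl.MF C.wd.f2 := by
  refine ⟨fun e => (((CfD_hol h e).2.pow 2).mul_const (C.Ge e 0 * C.c e)⁻¹).congr
    fun v hv => (h.g0.f_eq hv.2.le).2.1, fun e v hv => ?_⟩
  have h1 : C.m2 e v * C.wd.ψ₂ (C.c e + v) = C.r2 e / v ^ 1 *
    (C.m2 (op e) (C.pl.s e.1 / v) * C.wd.ψ₂ (C.c (op e) + C.pl.s e.1 / v)) := h.mt.2 e v hv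
  rw [(h.g0.f_eq (CfD_le h hv).1).2.1, (h.g0.f_eq (CfD_le h hv).2).2.1, h1]
  have h2 := (h.g0.r_sq e).2
  linear_combination (C.m2 (op e) (C.pl.s e.1 / v) *
    C.wd.ψ₂ (C.c (op e) + C.pl.s e.1 / v)) ^ 2 / v ^ 2 * h2

theorem CfD_mf3 (h : C.Good) : C.pl.MF C.wd.f3 := by
  refine ⟨fun e => (((CfD_hol h e).1.mul (CfD_hol h e).2).div_const (C.c e)).congr
    fun v hv => (h.g0.f_eq hv.2.le).2.2, fun e v hv => ?_⟩
  have h1 : C.m1 e v * C.wd.ψ₁ (C.c e + v) = C.r1 e / v ^ 1 *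
    (C.m1 (op e) (C.pl.s e.1 / v) * C.wd.ψ₁ (C.c (op e) + C.pl.s e.1 / v)) := h.mt.1 e v hv
  have h2 : C.m2 e v * C.wd.ψ₂ (C.c e + v) = C.r2 e / v ^ 1 *
    (C.m2 (op e) (C.pl.s e.1 / v) * C.wd.ψ₂ (C.c (op e) + C.pl.s e.1 / v)) := h.mt.2 e v hv
  rw [(h.g0.f_eq (CfD_le h hv).1).2.2, (h.g0.f_eq (CfD_le h hv).2).2.2, h1, h2]
  have h3 := (h.g0.r_mul e).2.2
  have h4 := (h.g0.c_bd e).1
  have h5 : C.r1 e * C.r2 e / C.c e = -C.pl.s e.1 / C.c (op e) := by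
    rw [h3]
    field_simp
  linear_combination (C.m1 (op e) (C.pl.s e.1 / v) * C.wd.ψ₁ (C.c (op e) + C.pl.s e.1 / v)) *
    (C.m2 (op e) (C.pl.s e.1 / v) * C.wd.ψ₂ (C.c (op e) + C.pl.s e.1 / v)) / v ^ 2 * h5

theorem Good.ok1 (h : C.Good) : C.wd.Ok1 := by
  have hP := h.g0.pl_ok
  refine ⟨h.ok0, (CfD_χ h).1, (CfD_ψ h).1, (CfD_χ h).2, (CfD_ψ h).2, fun t _ => ?_,
    fun t _ => ?_, CfD_mf1 h, CfD_mf2 h, CfD_mf3 h⟩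
  · have h1 := Pl.psi_conj hP h.w1 h.c1 h.fb1 h.g0.psy
      (fun e v hv => (h.g0.m_conj (mem_ball_zero_iff.1 hv).le).1) (fun e => (h.g0.r_conj e).1)
      (fun t => by simp [Cfg.bg]) t
    change 1 + _ = conj (1 + _)
    rw [h1, map_add, map_one]
  · have h1 := Pl.psi_conj hP h.w2 h.c2 h.fb2 h.g0.psy
      (fun e v hv => (h.g0.m_conj (mem_ball_zero_iff.1 hv).le).2.1) (fun e => (h.g0.r_conj e).2)
      (fun t => by simp) t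
    rw [CfD_ψ₂_fun h]
    change 1 + _ = conj (1 + _)
    rw [h1, map_add, map_one]

end Cfg

end Pool.Agent.MP_92463a_gt
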