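import Pool.Agent.MP_92463a_gt.CfB2

open Set Complex Filter Metric
open scoped Topology ComplexConjugate ContDiff Manifold

noncomputable section

namespace Pool.Agent.MP_92463a_gt

variable {γ : ℕ} {α : Type} {l : Filter α} {C : α → Cfg γ} {D₀ : Dat} {z₀ : Zs γ}

theorem CfE1_up {f : α → ℝ} {c : ℝ} (hf : Tendsto f l (𝓝 c)) :
    ∀ᶠ M in atTop, ∀ᶠ x in l, f x ≤ M :=
  (eventually_gt_atTop c).mono fun _ hM => (hf.eventually (gt_mem_nhds hM)).mono fun _ => le_of_lt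

theorem CfE1_lo {f : α → ℝ} {c : ℝ} (hf : Tendsto f l (𝓝 c)) (hc : 0 < c) :
    ∀ᶠ m in 𝓝[>] (0 : ℝ), ∀ᶠ x in l, m ≤ f x :=
  (Eventually.filter_mono nhdsWithin_le_nhds (gt_mem_nhds hc)).mono fun _ hm =>
    (hf.eventually (lt_mem_nhds hm)).mono fun _ => le_of_lt

theorem CfE1_jj (h : Lim l C D₀ z₀) (b : Bool) : jj b < D₀.q := by
  have := h.q
  cases b <;> simp [jj] <;> omega

theorem CfE1_b (h : Lim l C D₀ z₀) (b : Bool) : 0 < D₀.b (jj b) := h.D.ok₀.b_pos _ (CfE1_jj h b)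

theorem CfE1_L (h : Lim l C D₀ z₀) : ∀ᶠ x in l, 0 < (C x).L := h.L.eventually_gt_atTop 0

theorem CfE1_ex (h : Lim l C D₀ z₀) (n : ℕ) :
    Tendsto (fun x => (C x).L ^ n * Real.exp (-(C x).L)) l (𝓝 0) :=
  (Real.tendsto_pow_mul_exp_neg_atTop_nhds_zero n).comp h.L

theorem CfE1_eh (h : (cf D₀ z₀).Adm) (k : Fin γ) :
    0 < (z₀.eh k * exp ((z₀.ξ k + conj (z₀.ξ k) + z₀.2.2.2 k) / 4)).re := by
  have hγ : (1 : ℝ) ≤ γ := by exact_mod_cast h.pos
  obtain ⟨-, h1, h2, -⟩ := Zs.small h.pos h.small k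
  have h3 : ‖z₀.2.2.2 k‖ ≤ 1 / (100 * γ) :=
    (norm_le_pi_norm z₀.2.2.2 k).trans ((norm_snd_le z₀.2.2).trans ((norm_snd_le z₀.2).trans
      ((norm_snd_le z₀).trans h.small)))
  have h4 : (1 : ℝ) / (100 * γ) ≤ 1 / 100 := by gcongr; linarith
  have h5 : (2 : ℝ) / (100 * γ) ≤ 2 / 100 := by gcongr; linarith
  change ‖z₀.ξ k‖ ≤ _ at h1
  change ‖z₀.eh k - 1‖ ≤ _ at h2
  set w := (z₀.ξ k + conj (z₀.ξ k) + z₀.2.2.2 k) / 4
  have hw : ‖w‖ ≤ 1 / 50 := by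
    have := norm_add₃_le (a := z₀.ξ k) (b := conj (z₀.ξ k)) (c := z₀.2.2.2 k)
    rw [norm_conj] at this
    rw [norm_div, Complex.norm_ofNat]
    linarith
  have h6 : ‖exp w - 1‖ ≤ 1 / 25 := (norm_exp_sub_one_le (by linarith)).trans (by linarith)
  have h7 : ‖z₀.eh k * exp w - 1‖ ≤ 1 / 2 := by
    have e : z₀.eh k * exp w - 1 =
        (z₀.eh k - 1) * (exp w - 1) + (z₀.eh k - 1) + (exp w - 1) := by ring
    have := norm_add₃_le (a := (z₀.eh k - 1) * (exp w - 1)) (b := z₀.eh k - 1) (c := exp w - 1)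
    rw [norm_mul, ← e] at this
    nlinarith [norm_nonneg (z₀.eh k - 1), norm_nonneg (exp w - 1)]
  have h8 := (abs_le.1 ((abs_re_le_norm _).trans h7)).1
  rw [sub_re, one_re] at h8
  linarith

theorem CfE1_V (h : (cf D₀ z₀).Adm) (k : Fin γ) :
    0 < (D₀.b 0 * (cf D₀ z₀).E * Real.exp (D₀.A 0) * z₀.eh k *
        exp ((z₀.ξ k + conj (z₀.ξ k) + z₀.2.2.2 k) / 4) : ℂ).re := by
  rw [mul_assoc, ← ofReal_mul, ← ofReal_mul, re_ofReal_mul]
  exact mul_pos (mul_pos (mul_pos (h.bb false).1 h.E_pos) (Real.exp_pos _)) (CfE1_eh h k)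

theorem CfE1_ne {w : ℂ} (h : 0 < w.re) : 0 < ‖w‖ := h.trans_le (re_le_norm w)

theorem Lim.comp (h : Lim l C D₀ z₀) {β : Type} {l' : Filter β} {φ : β → α}
    (hφ : Tendsto φ l' l) : Lim l' (fun x => C (φ x)) D₀ z₀ := by
  exact ⟨h.D.comp hφ, h.q, hφ.eventually h.adm, h.L.comp hφ, h.z.comp hφ⟩

theorem Lim.adm₀ [l.NeBot] (h : Lim l C D₀ z₀) : (cf D₀ z₀).Adm := by
  have hc : Continuous (Zs.rf : Zs γ → Zs γ) := by
    unfold Zs.rf
    fun_prop
  exact ⟨h.adm.exists.choose_spec.pos, h.D.ok₀, h.q,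
    tendsto_nhds_unique_of_eventuallyEq ((hc.tendsto z₀).comp h.z) h.z
      (h.adm.mono fun _ hx => hx.sym),
    le_of_tendsto h.z.norm (h.adm.mono fun _ hx => hx.small)⟩

theorem Lim.bb (h : Lim l C D₀ z₀) (b : Bool) :
    Tendsto (fun x => (C x).bb b) l (𝓝 (D₀.b (jj b))) := by
  exact h.D.b _ (CfE1_jj h b)

theorem Lim.E (h : Lim l C D₀ z₀) : Tendsto (fun x => (C x).E) l (𝓝 (cf D₀ z₀).E) := by
  exact (((h.bb true).div (h.bb false) (CfE1_b h false).ne').log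
    (div_pos (CfE1_b h true) (CfE1_b h false)).ne').div_const _

theorem Lim.lk (h : Lim l C D₀ z₀) (b : Bool) :
    Tendsto (fun x => (C x).lk b) l (𝓝 ((cf D₀ z₀).lk b)) := by
  cases b
  · exact tendsto_const_nhds
  · exact ((((h.D.A (CfE1_jj h false)).add (h.D.A (CfE1_jj h true))).add
      ((h.bb false).log (CfE1_b h false).ne')).sub
        ((h.bb true).log (CfE1_b h true).ne')).const_mul 2

theorem Lim.cm (h : Lim l C D₀ z₀) (b : Bool) :
    Tendsto (fun x => (C x).cm b) l (𝓝 ((cf D₀ z₀).cm b)) := by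
  cases b
  · exact (((h.D.A (CfE1_jj h false)).neg.rexp.div (h.bb false)
      (CfE1_b h false).ne').ofReal).const_mul (-I)
  · exact ((h.D.A (CfE1_jj h true)).rexp.div (h.bb true) (CfE1_b h true).ne').ofReal

theorem Lim.zs (h : Lim l C D₀ z₀) : (∀ e, Tendsto (fun x => (C x).z.lu e) l (𝓝 (z₀.lu e))) ∧
    (∀ k, Tendsto (fun x => (C x).z.eh k) l (𝓝 (z₀.eh k))) ∧
    Tendsto (fun x => (C x).z.mean) l (𝓝 z₀.mean) ∧
    ∀ k, Tendsto (fun x => (C x).z.2.2.2 k) l (𝓝 (z₀.2.2.2 k)) := by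
  have h1 : Continuous (Zs.mean : Zs γ → ℂ) := by
    unfold Zs.mean
    fun_prop
  have h2 : ∀ k, Continuous fun z : Zs γ => z.ξ k := fun k => by
    unfold Zs.ξ
    fun_prop
  refine ⟨fun e => ((?_ : Continuous fun z : Zs γ => z.lu e).tendsto z₀).comp h.z,
    fun k => ((?_ : Continuous fun z : Zs γ => z.eh k).tendsto z₀).comp h.z,
    (h1.tendsto z₀).comp h.z,
    fun k => ((?_ : Continuous fun z : Zs γ => z.2.2.2 k).tendsto z₀).comp h.z⟩
  · rcases e with ⟨k, _ | _⟩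
    · exact continuous_const.add (h2 k)
    · exact (continuous_const.add (continuous_conj.comp (h2 k))).add (by fun_prop)
  · unfold Zs.eh
    fun_prop
  · fun_prop

theorem Lim.tau (h : Lim l C D₀ z₀) (e : Fin γ × Bool) :
    Tendsto (fun x => Real.exp (2 * (C x).L) * (C x).τ e) l (𝓝 ((cf D₀ z₀).τ e)) := by
  have h1 := ((h.lk e.2).ofReal.add (h.zs.1 e)).cexp
  convert h1 using 2 with x
  · rw [Cfg.τ, Cfg.lg, ofReal_exp, ← exp_add]
    congr 1
    push_cast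
    ring
  · simp [Cfg.τ, Cfg.lg, cf]

theorem Lim.tau0 (h : Lim l C D₀ z₀) (e : Fin γ × Bool) :
    Tendsto (fun x => (C x).τ e) l (𝓝 0) ∧ Tendsto (fun x => (C x).L * (C x).τ e) l (𝓝 0) ∧
      Tendsto (fun x => (C x).c e) l (𝓝 (-D₀.b (jj e.2))) ∧
      Tendsto (fun x => (C x).RR e.2) l (𝓝 0) := by
  have h1 : ∀ n : ℕ, Tendsto (fun x => ((C x).L : ℂ) ^ n * (C x).τ e) l (𝓝 0) := by
    intro n
    have := ((CfE1_ex h n).mul (CfE1_ex h 0)).ofReal.mul (h.tau e)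
    rw [mul_zero, ofReal_zero, zero_mul] at this
    refine this.congr fun x => ?_
    have e1 : Real.exp (-(C x).L) * Real.exp (-(C x).L) * Real.exp (2 * (C x).L) = 1 := by
      rw [← Real.exp_add, ← Real.exp_add, Real.exp_eq_one_iff]
      ring
    rw [← mul_assoc, ← ofReal_mul, ← ofReal_pow]
    congr 2
    linear_combination (C x).L ^ n * e1
  have h2 : Tendsto (fun x => (C x).τ e) l (𝓝 0) := by simpa using h1 0
  refine ⟨h2, by simpa using h1 1, by simpa [Cfg.c] using (h.bb e.2).ofReal.neg.add h2, ?_⟩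
  have := ((CfE1_ex h 0).mul (CfE1_ex h 0)).mul (h.lk e.2).rexp
  rw [mul_zero, zero_mul] at this
  refine this.congr fun x => ?_
  rw [pow_zero, one_mul, ← Real.exp_add, ← Real.exp_add, Cfg.RR]
  congr 1
  ring

theorem Lim.Res (h : Lim l C D₀ z₀) (k : Fin γ) :
    Tendsto (fun x => (C x).L * (C x).Res k) l (𝓝 (D₀.b 0 * (cf D₀ z₀).E * z₀.eh k)) := by
  refine (((h.bb false).ofReal.mul h.E.ofReal).mul (h.zs.2.1 k)).congr'
    ((CfE1_L h).mono fun x hx => ?_)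
  have : ((C x).L : ℂ) ≠ 0 := ofReal_ne_zero.2 hx.ne'
  simp only [Cfg.Res, Cfg.bb, jj]
  push_cast
  field_simp

theorem Lim.rr (h : Lim l C D₀ z₀) (e : Fin γ × Bool) :
    Tendsto (fun x => (C x).L * (C x).rr e) l
      (𝓝 ((if e.2 then -D₀.b 1 else D₀.b 0) * (cf D₀ z₀).E * z₀.eh e.1)) := by
  rcases e with ⟨k, _ | _⟩
  · simpa [Cfg.rr, Cfg.r1] using h.Res k
  · have h0 : (D₀.b 0 : ℂ) ≠ 0 := ofReal_ne_zero.2 (CfE1_b h false).ne'
    have h1 := ((h.tau0 (k, true)).2.2.1.div (h.tau0 (k, false)).2.2.1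
      (neg_ne_zero.2 h0)).neg.mul (h.Res k)
    convert h1 using 2 with x
    · simp only [Cfg.rr, Cfg.r2, if_true, Pi.div_apply]
      ring
    · simp only [jj, if_true]
      push_cast
      field_simp

theorem Lim.ell (h : Lim l C D₀ z₀) : Tendsto (fun x => (C x).L * (C x).ℓ) l
    (𝓝 (-((cf D₀ z₀).E * (γ + 1 / 2 + z₀.mean.re)))) := by
  refine (h.E.mul (((continuous_re.tendsto _).comp h.zs.2.2.1).const_add
    ((γ : ℝ) + 1 / 2))).neg.congr' ((CfE1_L h).mono fun x hx => ?_)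
  simp only [Cfg.ℓ, Function.comp]
  field_simp

theorem Lim.vs (h : Lim l C D₀ z₀) (k : Fin γ) :
    Tendsto (fun x => (C x).L * Real.exp (C x).L * (C x).vs k) l
      (𝓝 (D₀.b 0 * (cf D₀ z₀).E * Real.exp (D₀.A 0) * z₀.eh k *
        exp ((z₀.ξ k + conj (z₀.ξ k) + z₀.2.2.2 k) / 4))) := by
  have hb : ∀ b, (0 : ℝ) < D₀.b (jj b) := CfE1_b h
  have hl : ∀ b, Tendsto (fun x => (C x).D.lam (jj b) ((C x).τ (k, b))) l (𝓝 0) := fun b => by
    have := h.D.lam (CfE1_jj h b) (h.tau0 (k, b)).1 (by rw [norm_zero]; exact half_pos (hb false))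
    rwa [Dat.lam_zero] at this
  have hc : ∀ b, Tendsto (fun x => log (-(C x).c (k, b))) l (𝓝 (Real.log (D₀.b (jj b)))) := by
    intro b
    have := (h.tau0 (k, b)).2.2.1.neg
    rw [neg_neg] at this
    rw [ofReal_log (hb b).le]
    exact this.clog (ofReal_mem_slitPlane.2 (hb b))
  have h1 := (h.Res k).mul ((((((((h.D.A (CfE1_jj h false)).sub
    (h.D.A (CfE1_jj h true))).div_const 2).ofReal.const_add (-(Real.pi / 4) * I)).add
    ((((h.lk true).ofReal.add (h.zs.1 (k, false))).add (h.zs.1 (k, true))).div_const 4)).add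
    (((hl false).sub (hl true)).div_const 2)).add (((hc true).sub (hc false)).div_const 2)).cexp)
  convert h1 using 2 with x
  · rw [Cfg.vs, ofReal_exp, mul_mul_mul_comm, ← exp_add]
    congr 2
    simp only [Cfg.lg, Cfg.lk, jj, if_true, Bool.false_eq_true, if_false]
    push_cast
    ring
  · rw [ofReal_exp, mul_right_comm _ (exp _) (z₀.eh k), mul_assoc, ← exp_add]
    congr 2
    simp only [Zs.lu, cf, Cfg.lk, jj, if_true, Bool.false_eq_true, if_false, ofReal_mul,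
      ofReal_add, ofReal_sub, ofReal_div, ofReal_ofNat]
    ring

theorem Lim.bds (h : Lim l C D₀ z₀) : ∃ m > 0, ∃ M, ∀ᶠ x in l, (C x).L * |(C x).ℓ| ≤ M ∧ ∀ e,
    (m ≤ Real.exp (2 * (C x).L) * ‖(C x).τ e‖ ∧ Real.exp (2 * (C x).L) * ‖(C x).τ e‖ ≤ M) ∧
    (m ≤ (C x).L * Real.exp (C x).L * ‖(C x).vs e.1‖ ∧
      (C x).L * Real.exp (C x).L * ‖(C x).vs e.1‖ ≤ M) ∧
    (m ≤ (C x).L * ‖(C x).rr e‖ ∧ (C x).L * ‖(C x).rr e‖ ≤ M) ∧
    (C x).L * Real.exp (6 * (C x).L) * ‖(C x).pl.s e.1 / (C x).rr e‖ ≤ M ∧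
    (m ≤ ‖(C x).cm e.2‖ ∧ ‖(C x).cm e.2‖ ≤ M) ∧ m ≤ (C x).bb e.2 ∧ (C x).bb e.2 ≤ M := by
  rcases l.eq_or_neBot with rfl | hl
  · exact ⟨1, one_pos, 0, eventually_bot⟩
  have ha := h.adm₀
  have hL := CfE1_L h
  have h1 : Tendsto (fun x => (C x).L * |(C x).ℓ|) l (𝓝 _) :=
    h.ell.abs.congr' (hL.mono fun x hx => by simp only [abs_mul, abs_of_pos hx])
  have h2 : ∀ e, Tendsto (fun x => Real.exp (2 * (C x).L) * ‖(C x).τ e‖) l (𝓝 _) := fun e =>
    (h.tau e).norm.congr fun x => by rw [norm_mul, norm_real, Real.norm_of_nonneg (by positivity)]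
  have h3 : ∀ k, Tendsto (fun x => (C x).L * Real.exp (C x).L * ‖(C x).vs k‖) l (𝓝 _) := fun k =>
    (h.vs k).norm.congr' (hL.mono fun x hx => by
      simp only [norm_mul, norm_real, Real.norm_of_nonneg hx.le,
        Real.norm_of_nonneg (Real.exp_pos _).le])
  have h4 : ∀ e, Tendsto (fun x => (C x).L * ‖(C x).rr e‖) l (𝓝 _) := fun e =>
    (h.rr e).norm.congr' (hL.mono fun x hx => by
      simp only [norm_mul, norm_real, Real.norm_of_nonneg hx.le])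
  have n4 : ∀ e : Fin γ × Bool,
      ((if e.2 then -D₀.b 1 else D₀.b 0) * (cf D₀ z₀).E * z₀.eh e.1 : ℂ) ≠ 0 := by
    intro e
    have := CfE1_ne (CfE1_eh ha e.1)
    rw [norm_pos_iff] at this
    refine mul_ne_zero (mul_ne_zero ?_ (ofReal_ne_zero.2 ha.E_pos.ne')) (left_ne_zero_of_mul this)
    have b0 : D₀.b 0 ≠ 0 := (CfE1_b h false).ne'
    have b1 : D₀.b 1 ≠ 0 := (CfE1_b h true).ne'
    split_ifs <;> simpa
  have h5 : ∀ e : Fin γ × Bool, Tendsto (fun x => (C x).L * Real.exp (6 * (C x).L) *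
      ‖(C x).pl.s e.1 / (C x).rr e‖) l (𝓝 _) := fun e =>
    ((((h.tau (e.1, false)).mul (h.tau (e.1, true))).mul ((h.vs e.1).pow 2)).div (h.rr e)
      (n4 e)).norm.congr' (hL.mono fun x hx => by
        have e1 : Real.exp (6 * (C x).L) = Real.exp (2 * (C x).L) * Real.exp (2 * (C x).L) *
            Real.exp (C x).L ^ 2 := by
          rw [sq, ← Real.exp_add, ← Real.exp_add, ← Real.exp_add]
          congr 1
          ring
        simp only [Pi.div_apply, Cfg.pl, norm_div, norm_mul, norm_pow, norm_real, e1,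
          Real.norm_of_nonneg hx.le, Real.norm_of_nonneg (Real.exp_pos _).le]
        field_simp)
  obtain ⟨m, hm, m0⟩ := ((eventually_all.2 fun e : Fin γ × Bool =>
    (CfE1_lo (h2 e) (norm_pos_iff.2 (Cfg.τ_ne e))).and <|
    (CfE1_lo (h3 e.1) (CfE1_ne (CfE1_V ha e.1))).and <|
    (CfE1_lo (h4 e) (norm_pos_iff.2 (n4 e))).and <|
    (CfE1_lo (h.cm e.2).norm (norm_pos_iff.2 (ha.cm.1 e.2))).and
    (CfE1_lo (h.bb e.2) (CfE1_b h e.2))).and self_mem_nhdsWithin).exists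
  obtain ⟨M, hM, M0⟩ := ((eventually_all.2 fun e : Fin γ × Bool =>
    (CfE1_up (h2 e)).and <| (CfE1_up (h3 e.1)).and <| (CfE1_up (h4 e)).and <|
    (CfE1_up (h5 e)).and <| (CfE1_up (h.cm e.2).norm).and (CfE1_up (h.bb e.2))).and
    (CfE1_up h1)).exists
  refine ⟨m, m0, M, M0.and (eventually_all.2 fun e => ?_)⟩
  obtain ⟨a1, a2, a3, a4, a5⟩ := hm e
  obtain ⟨b1, b2, b3, b4, b5, b6⟩ := hM e
  exact (a1.and b1).and <| (a2.and b2).and <| (a3.and b3).and <| b4.and <| (a4.and b5).and <|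
    a5.and b6

theorem CfE1_vs (h : Lim l C D₀ z₀) (k : Fin γ) : Tendsto (fun x => (C x).vs k) l (𝓝 0) := by
  have := ((CfE1_ex h 0).div_atTop h.L).ofReal.mul (h.vs k)
  rw [ofReal_zero, zero_mul] at this
  refine this.congr' ((CfE1_L h).mono fun x hx => ?_)
  have h1 : ((C x).L : ℂ) ≠ 0 := ofReal_ne_zero.2 hx.ne'
  have h2 : (Real.exp (C x).L : ℂ) ≠ 0 := ofReal_ne_zero.2 (Real.exp_pos _).ne'
  simp only [pow_zero, one_mul, Real.exp_neg, ofReal_div, ofReal_inv]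
  field_simp

theorem Lim.g0 (h : Lim l C D₀ z₀) : ∀ᶠ x in l, (C x).G0 ∧ ∀ k, ‖(C x).vs k‖ ^ 2 ≤ ((C x).vs k).re := by
  rcases l.eq_or_neBot with rfl | hl
  · exact eventually_bot
  have ha := h.adm₀
  have hγ : (0 : ℝ) < γ := by exact_mod_cast ha.pos
  have h1 : ∀ᶠ x in l, ∀ e, ‖(C x).τ e‖ ≤ (C x).D.b 0 / 100 := eventually_all.2 fun e =>
    ((h.tau0 e).1.norm.eventually_lt ((h.bb false).div_const 100)
      (by simpa using CfE1_b h false)).mono fun _ => le_of_lt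
  have h2 : ∀ᶠ x in l, ∀ k, ‖(C x).vs k‖ ≤ 1 / (100 * γ) := eventually_all.2 fun k =>
    ((CfE1_vs h k).norm.eventually_lt tendsto_const_nhds
      (by rw [norm_zero]; positivity)).mono fun _ => le_of_lt
  have h3 : ∀ᶠ x in l, ∀ k, ‖(C x).vs k‖ ^ 2 ≤ ((C x).vs k).re := eventually_all.2 fun k => by
    filter_upwards [CfE1_L h, ((h.vs k).norm.mul (CfE1_vs h k).norm).eventually_lt
      ((continuous_re.tendsto _).comp (h.vs k))
      (by rw [norm_zero, mul_zero]; exact CfE1_V ha k)] with x hx h4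
    have h5 := mul_pos hx (Real.exp_pos (C x).L)
    rw [Function.comp_apply, ← ofReal_mul, re_ofReal_mul, norm_mul, norm_real,
      Real.norm_of_nonneg h5.le, mul_assoc _ ‖_‖, ← sq] at h4
    exact (lt_of_mul_lt_mul_left h4 h5.le).le
  filter_upwards [h.adm, h.L.eventually_ge_atTop 1, h1, h2, h3] with x a1 a2 a3 a4 a5
  exact ⟨⟨a1, a2, a3, a4⟩, a5⟩

theorem Lim.vs0 (h : Lim l C D₀ z₀) (k : Fin γ) : Tendsto (fun x => (C x).vs k) l (𝓝 0) ∧
    Tendsto (fun x => Real.log ‖(C x).vs k‖ / (C x).L) l (𝓝 (-1)) := by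
  refine ⟨CfE1_vs h k, ?_⟩
  rcases l.eq_or_neBot with rfl | hl
  · exact tendsto_bot
  have h0 := CfE1_ne (CfE1_V h.adm₀ k)
  have h1 := ((((h.vs k).norm.log h0.ne').div_atTop h.L).sub
    (Real.isLittleO_log_id_atTop.tendsto_div_nhds_zero.comp h.L)).sub_const 1
  rw [sub_zero, zero_sub] at h1
  refine h1.congr' ?_
  filter_upwards [CfE1_L h, (h.vs k).norm.eventually (lt_mem_nhds h0)] with x hx h2
  have h3 : ‖(C x).vs k‖ ≠ 0 := by
    intro h3
    simp [h3] at h2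
  rw [norm_mul, norm_mul, norm_real, norm_real, Real.norm_of_nonneg hx.le,
    Real.norm_of_nonneg (Real.exp_pos _).le, Real.log_mul (by positivity) h3,
    Real.log_mul hx.ne' (Real.exp_pos _).ne', Real.log_exp, Function.comp_apply, id]
  field_simp
  ring

theorem Lim.log_tau (h : Lim l C D₀ z₀) : ∃ K, ∀ᶠ x in l, ∀ e,
    |Real.log ‖(C x).τ e‖ + 2 * (C x).L| ≤ K := by
  obtain ⟨K, hK⟩ := (eventually_all.2 fun e : Fin γ × Bool => CfE1_up
    ((h.lk e.2).add ((continuous_re.tendsto _).comp (h.zs.1 e))).abs).exists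
  refine ⟨K, eventually_all.2 fun e => (hK e).mono fun x hx => ?_⟩
  rw [Cfg.τ, norm_exp, Real.log_exp, Cfg.lg, add_re, ofReal_re]
  rwa [show -2 * (C x).L + (C x).lk e.2 + ((C x).z.lu e).re + 2 * (C x).L =
    (C x).lk e.2 + ((C x).z.lu e).re by ring]

end Pool.Agent.MP_92463a_gt
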