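import Pool.Agent.MP_92463a_gt.CfE1
import Pool.Agent.MP_92463a_gt.CfC

open Set Complex Filter Metric
open scoped Topology ComplexConjugate ContDiff Manifold

noncomputable section

namespace Pool.Agent.MP_92463a_gt

variable {γ : ℕ} {α : Type} {l : Filter α} {C : α → Cfg γ} {D₀ : Dat} {z₀ : Zs γ}

theorem CfE2_jj (h : Lim l C D₀ z₀) (b : Bool) : jj b < D₀.q := by
  have := h.q
  cases b <;> simp [jj] <;> omega

theorem CfE2_b (h : Lim l C D₀ z₀) (b : Bool) : 0 < D₀.b (jj b) :=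
  h.D.ok₀.b_pos _ (CfE2_jj h b)

theorem CfE2_sg (j : ℕ) : ‖(sg j : ℂ)‖ = 1 := by
  simp [sg]

theorem Lim.dG (h : Lim l C D₀ z₀) : ∀ ε > 0, ∀ᶠ x in l, ∀ e v, ‖v‖ ≤ 2 * (C x).pl.ρ e →
    ‖(C x).dG e v - sg (jj e.2) * (3 / 2) * log (1 + v / (C x).τ e)‖ ≤ ε ∧
      ‖v / (C x).c e‖ ≤ ε ∧ ‖(C x).D.lam (jj e.2) ((C x).τ e)‖ ≤ ε := by
  intro ε hε
  rw [eventually_all]
  intro e
  obtain ⟨δ, h1, hδ⟩ := ((h.D.lam_small (CfE2_jj h e.2) (ε / 2) (by positivity)).and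
    self_mem_nhdsWithin).exists
  have hδ : 0 < δ := hδ
  have h2 : ∀ᶠ x in l, ‖(C x).τ e‖ < δ / 2 :=
    (h.tau0 e).1.norm.eventually (gt_mem_nhds (by simpa using hδ))
  have h3 : ∀ᶠ x in l, ‖(C x).τ e / (C x).c e‖ < ε := by
    have := ((h.tau0 e).1.div (h.tau0 e).2.2.1 (by simpa using (CfE2_b h e.2).ne')).norm
    exact this.eventually (gt_mem_nhds (by simpa using hε))
  filter_upwards [h1, h2, h3, h.g0] with x h1 h2 h3 h4 v hv
  have h5 := (h4.1.disc hv).1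
  have h6 := norm_nonneg ((C x).τ e)
  have a1 := h1 ((C x).τ e) (by linarith)
  have a2 := h1 ((C x).τ e + v) ((norm_add_le _ _).trans (by linarith))
  refine ⟨?_, ?_, by linarith⟩
  · rw [Cfg.dG, add_sub_cancel_left]
    exact (norm_sub_le _ _).trans (by linarith)
  · rw [norm_div] at h3 ⊢
    exact le_trans (div_le_div_of_nonneg_right (by linarith) (norm_nonneg _)) h3.le

theorem CfE2_u {C : Cfg γ} (h : C.G0) {e : Fin γ × Bool} {v : ℂ} (hv : ‖v‖ ≤ 2 * C.pl.ρ e) :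
    ‖v / C.τ e‖ ≤ 1 / 8 := by
  rw [norm_div, div_le_iff₀ (norm_pos_iff.2 (Cfg.τ_ne e))]
  linarith [(h.disc hv).1]

theorem Lim.w12 (h : Lim l C D₀ z₀) :
    ∀ᶠ x in l, (C x).pl.Wt (C x).m1 ∧ (C x).pl.Wt (C x).m2 := by
  filter_upwards [h.dG (1 / 100) (by norm_num), h.g0] with x h1 h2
  have key : ∀ e, ∀ v ∈ ball (0 : ℂ) (2 * (C x).pl.ρ e),
      ‖(C x).dG e v‖ ≤ 1 / 3 ∧ ‖log (1 + v / (C x).c e)‖ ≤ 1 / 10 := by
    intro e v hv
    have hv := (mem_ball_zero_iff.1 hv).le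
    obtain ⟨a1, a2, -⟩ := h1 e v hv
    have a3 := CfE2_u h2.1 hv
    have a4 := norm_log_one_add_half_le_self (z := v / (C x).τ e) (by linarith)
    have a5 := norm_log_one_add_half_le_self (z := v / (C x).c e) (by linarith)
    refine ⟨?_, by linarith⟩
    have a6 := norm_le_norm_sub_add ((C x).dG e v)
      (sg (jj e.2) * (3 / 2) * log (1 + v / (C x).τ e))
    rw [norm_mul, norm_mul, CfE2_sg] at a6
    have a7 : ‖(3 / 2 : ℂ)‖ = 3 / 2 := by simp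
    rw [a7] at a6
    linarith
  have ex : ∀ a b : ℂ, ‖a‖ ≤ 1 / 3 → ‖b‖ ≤ 1 / 10 → ‖exp ((a - b) / 2) - 1‖ ≤ 1 / 2 := by
    intro a b ha hb
    have : ‖(a - b) / 2‖ ≤ 1 / 4 := by
      rw [norm_div, Complex.norm_two]
      linarith [norm_sub_le a b]
    linarith [Complex.norm_exp_sub_one_le (x := (a - b) / 2) (by linarith)]
  exact ⟨⟨fun e => (h2.1.dG_hol e).2.2.1, fun e => (Cfg.dG_zero e).2.1,
    fun e v hv => ex _ _ (key e v hv).1 (key e v hv).2⟩,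
    ⟨fun e => (h2.1.dG_hol e).2.2.2.1, fun e => (Cfg.dG_zero e).2.2,
    fun e v hv => ex _ _ (by rw [norm_neg]; exact (key e v hv).1) (key e v hv).2⟩⟩

/-- the polynomial without the factor that vanishes at `-b j` -/
def CfE2Q (D : Dat) (j : ℕ) (t : ℂ) : ℂ :=
  t * (∏ i ∈ (Finset.range D.q).erase j, (t + D.b i)) * ∏ i ∈ Finset.range D.p, (D.a i - t)

theorem CfE2_P {D : Dat} {j : ℕ} (hj : j < D.q) (t : ℂ) :
    D.P t = (t + D.b j) * CfE2Q D j t := by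
  rw [Dat.P, CfE2Q, ← Finset.mul_prod_erase _ _ (Finset.mem_range.2 hj)]
  ring

theorem CfE2_Qne {D : Dat} (hD : D.Ok) {j : ℕ} (hj : j < D.q) : CfE2Q D j (-D.b j) ≠ 0 := by
  have hb := hD.b_pos j hj
  refine mul_ne_zero (mul_ne_zero (by simpa using hb.ne') (Finset.prod_ne_zero_iff.2 fun i hi => ?_))
    (Finset.prod_ne_zero_iff.2 fun i hi => ?_)
  · obtain ⟨h1, h2⟩ := Finset.mem_erase.1 hi
    have h2 := Finset.mem_range.1 h2
    have h3 := hD.b_pos i h2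
    intro h0
    have h4 : -D.b j + D.b i = 0 := by exact_mod_cast h0
    rcases lt_or_gt_of_ne h1 with h5 | h5
    · linarith [hD.b_gap i j h5 hj]
    · linarith [hD.b_gap j i h5 h2]
  · have h3 := hD.a_pos i (Finset.mem_range.1 hi)
    intro h0
    have h4 : D.a i - -D.b j = 0 := by exact_mod_cast h0
    linarith

theorem CfE2_Qlim {β : Type} {l : Filter β} {D : β → Dat} (h : Dat.Tends l D D₀) (j : ℕ)
    {t : β → ℂ} {t₀ : ℂ} (ht : Tendsto t l (𝓝 t₀)) :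
    Tendsto (fun x => CfE2Q (D x) j (t x)) l (𝓝 (CfE2Q D₀ j t₀)) := by
  refine Tendsto.congr' ?_ ((ht.mul (tendsto_finsetProd ((Finset.range D₀.q).erase j) fun i hi =>
    ht.add (Dat.DatC_re (h.b i (Finset.mem_range.1 (Finset.mem_erase.1 hi).2))))).mul
      (tendsto_finsetProd (Finset.range D₀.p) fun i hi =>
        (Dat.DatC_re (h.a i (Finset.mem_range.1 hi))).sub ht))
  filter_upwards [h.ok] with x hx
  rw [CfE2Q, hx.2.1, hx.2.2]

theorem CfE2_Pc {C : Cfg γ} (h : C.Adm) (e : Fin γ × Bool) (v : ℂ) :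
    C.D.P (C.c e + v) = (C.τ e + v) * CfE2Q C.D (jj e.2) (C.c e + v) := by
  rw [CfE2_P (h.jj_lt e.2)]
  congr 1
  simp only [Cfg.c, Cfg.bb]
  ring

theorem CfE2_ratio (h : Lim l C D₀ z₀) (e : Fin γ × Bool) : ∀ᶠ x in l, ∀ v, ‖v‖ ≤ ‖(C x).τ e‖ →
    ‖CfE2Q (C x).D (jj e.2) ((C x).c e + 0) / CfE2Q (C x).D (jj e.2) ((C x).c e + v) - 1‖ ≤
      1 / 20 := by
  set l' : Filter (α × ℂ) := comap Prod.fst l ⊓ 𝓟 {p | ‖p.2‖ ≤ ‖(C p.1).τ e‖} with hl'
  have h1 : Tendsto Prod.fst l' l := tendsto_comap.mono_left inf_le_left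
  have h2 : Tendsto Prod.snd l' (𝓝 (0 : ℂ)) := by
    refine squeeze_zero_norm' (a := fun p => ‖(C p.1).τ e‖) ?_ ?_
    · exact eventually_inf_principal.2 (Eventually.of_forall fun p hp => hp)
    · simpa [Function.comp_def] using (h.tau0 e).1.norm.comp h1
  have h3 := (h.tau0 e).2.2.1.comp h1
  have h4 := CfE2_Qlim (h.D.comp h1) (jj e.2) (h3.add_const 0)
  have h5 := CfE2_Qlim (h.D.comp h1) (jj e.2) (h3.add h2)
  rw [add_zero] at h4 h5
  have hn := CfE2_Qne h.D.ok₀ (CfE2_jj h e.2)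
  have h6 := ((h4.div h5 hn).sub_const 1).norm
  rw [div_self hn, sub_self, norm_zero] at h6
  have h7 := h6.eventually (ge_mem_nhds (show (0 : ℝ) < 1 / 20 by norm_num))
  rw [hl', eventually_inf_principal, eventually_comap] at h7
  filter_upwards [h7] with x hx v hv
  exact hx (x, v) rfl hv

theorem CfE2_conn {f : ℂ → ℂ} {r : ℝ} (hf : ContinuousOn f (ball 0 r)) (h0 : f 0 = 1)
    (h : ∀ v ∈ ball (0 : ℂ) r, ‖f v ^ 2 - 1‖ ≤ 1 / 5) : ∀ v ∈ ball (0 : ℂ) r, ‖f v - 1‖ ≤ 1 / 2 := by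
  intro v hv
  have hz : (0 : ℂ) ∈ ball (0 : ℂ) r := mem_ball_self (pos_of_mem_ball hv)
  have h1 : 0 < (f v).re := by
    by_contra hc
    obtain ⟨w, hw, h2⟩ := (convex_ball (0 : ℂ) r).isPreconnected.intermediate_value hv hz
      (continuous_re.comp_continuousOn hf) (show (0 : ℝ) ∈ _ from ⟨not_lt.1 hc, by simp [h0]⟩)
    have h2 : (f w).re = 0 := h2
    have h3 := (abs_re_le_norm _).trans (h w hw)
    rw [sub_re, sq, mul_re, h2, one_re] at h3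
    nlinarith [mul_self_nonneg (f w).im, (abs_le.1 h3).1]
  have h2 : 1 ≤ ‖f v + 1‖ := le_trans (by simp [h1.le]) (re_le_norm _)
  have h3 := h v hv
  rw [show f v ^ 2 - 1 = (f v - 1) * (f v + 1) by ring, norm_mul] at h3
  nlinarith [norm_nonneg (f v - 1)]

theorem CfE2_yne {C : Cfg γ} (h : C.G0) {e : Fin γ × Bool} {v : ℂ} (hv : ‖v‖ ≤ 2 * C.pl.ρ e) :
    C.wd.yb e v ≠ 0 := fun h0 => h.free hv (by rw [← h.ysq hv, h0]; simp)

theorem CfE2_zero {C : Cfg γ} (h : C.G0) (e : Fin γ × Bool) : ‖(0 : ℂ)‖ ≤ 2 * C.pl.ρ e := by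
  simpa using (h.pl_ok.ρ_pos e).le

theorem Lim.wy (h : Lim l C D₀ z₀) : ∀ᶠ x in l, (C x).pl.Wt (C x).wd.my := by
  filter_upwards [eventually_all.2 (CfE2_ratio h), h.g0] with x h1 h2
  have h2 := h2.1
  have hol : ∀ e, DifferentiableOn ℂ ((C x).wd.my e) (ball 0 (2 * (C x).pl.ρ e)) := fun e =>
    (differentiableOn_const _).div (h2.dG_hol e).2.2.2.2 fun v hv =>
      CfE2_yne h2 (mem_ball_zero_iff.1 hv).le
  have zero : ∀ e, (C x).wd.my e 0 = 1 := fun e => div_self (CfE2_yne h2 (CfE2_zero h2 e))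
  refine ⟨hol, zero, fun e => CfE2_conn (hol e).continuousOn (zero e) fun v hv => ?_⟩
  have hv := (mem_ball_zero_iff.1 hv).le
  obtain ⟨a1, a2, -⟩ := h2.disc hv
  have a0 := norm_pos_iff.2 (Cfg.τ_ne (C := C x) e)
  have a3 := h1 e v (by linarith)
  rw [Wd.my, div_pow, h2.ysq hv, h2.ysq (CfE2_zero h2 e), CfE2_Pc h2.toAdm, CfE2_Pc h2.toAdm,
    mul_div_mul_comm, add_zero ((C x).τ e)]
  set B := CfE2Q (C x).D (jj e.2) ((C x).c e + 0) / CfE2Q (C x).D (jj e.2) ((C x).c e + v)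
  have a4 : ‖(C x).τ e / ((C x).τ e + v) - 1‖ ≤ 1 / 7 := by
    rw [div_sub_one a2, norm_div, div_le_iff₀ (norm_pos_iff.2 a2), sub_add_cancel_left, norm_neg]
    linarith [norm_sub_le ((C x).τ e + v) v, congrArg norm (add_sub_cancel_right ((C x).τ e) v)]
  set A := (C x).τ e / ((C x).τ e + v)
  rw [show A * B - 1 = (A - 1) * (B - 1) + (A - 1) + (B - 1) by ring]
  have a5 := norm_add₃_le (a := (A - 1) * (B - 1)) (b := A - 1) (c := B - 1)
  rw [norm_mul] at a5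
  nlinarith [norm_nonneg (A - 1), norm_nonneg (B - 1)]

theorem Lim.ry (h : Lim l C D₀ z₀) :
    ∃ M, ∀ᶠ x in l, ∀ e, ‖(C x).wd.ry e‖ ≤ M * ‖(C x).pl.s e.1‖ := by
  have h1 : ∀ e, Tendsto (fun x => Real.exp (2 * (C x).L) * (C x).τ e *
      CfE2Q (C x).D (jj e.2) ((C x).c e)) l
      (𝓝 ((cf D₀ z₀).τ e * CfE2Q D₀ (jj e.2) (-D₀.b (jj e.2)))) := fun e =>
    (h.tau e).mul (CfE2_Qlim h.D (jj e.2) (h.tau0 e).2.2.1)
  have h2 : ∀ e, (cf D₀ z₀).τ e * CfE2Q D₀ (jj e.2) (-D₀.b (jj e.2)) ≠ 0 := fun e =>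
    mul_ne_zero (Cfg.τ_ne e) (CfE2_Qne h.D.ok₀ (CfE2_jj h e.2))
  have h3 : ∀ e, ∃ M, 0 ≤ M ∧ ∀ᶠ x in l, ‖(C x).wd.yb e 0 / (C x).wd.yb (op e) 0‖ ≤ M := by
    intro e
    have h4 := ((h1 e).div (h1 (op e)) (h2 _)).norm
    obtain ⟨K, hK, h4⟩ : ∃ K, 0 ≤ K ∧ Tendsto _ l (𝓝 K) := ⟨_, norm_nonneg _, h4⟩
    refine ⟨K + 1 + 1, by positivity, ?_⟩
    filter_upwards [h4.eventually (ge_mem_nhds (lt_add_one _)), h.g0] with x h5 h6
    have h6 := h6.1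
    have h7 : (Real.exp (2 * (C x).L) : ℂ) ≠ 0 := by exact_mod_cast (Real.exp_pos _).ne'
    have h8 : ∀ e, (C x).τ e * CfE2Q (C x).D (jj e.2) ((C x).c e) = (C x).wd.yb e 0 ^ 2 := by
      intro e
      rw [h6.ysq (CfE2_zero h6 e), CfE2_Pc h6.toAdm, add_zero, add_zero]
    rw [Pi.div_apply, mul_assoc, mul_assoc, mul_div_mul_left _ _ h7, h8, h8, ← div_pow,
      norm_pow] at h5
    nlinarith [sq_nonneg (‖(C x).wd.yb e 0 / (C x).wd.yb (op e) 0‖ - 1)]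
  choose M hM h3 using h3
  refine ⟨∑ e, M e, ?_⟩
  filter_upwards [eventually_all.2 h3] with x hx e
  rw [Wd.ry, mul_div_assoc, norm_mul, norm_neg, mul_comm]
  exact mul_le_mul_of_nonneg_right ((hx e).trans
    (Finset.single_le_sum (fun i _ => hM i) (Finset.mem_univ e))) (norm_nonneg _)

/-- the rescaled weights -/
theorem Lim.m_sc (h : Lim l C D₀ z₀) (e : Fin γ × Bool) {w : α → ℂ} {w₀ : ℂ}
    (hw : Tendsto w l (𝓝 w₀)) (h₀ : ‖w₀‖ < 1 / (8 * γ)) :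
    Tendsto (fun x => (C x).m1 e ((C x).τ e * w x)) l
        (𝓝 (exp (sg (jj e.2) * (3 / 4) * log (1 + w₀)))) ∧
      Tendsto (fun x => (C x).m2 e ((C x).τ e * w x)) l
        (𝓝 (exp (-(sg (jj e.2) * (3 / 4) * log (1 + w₀))))) := by
  have hγ : (1 : ℝ) ≤ γ := by exact_mod_cast e.1.pos
  have h1 : ‖w₀‖ < 1 := h₀.trans_le (by rw [div_le_one (by positivity)]; linarith)
  have hb : ‖(0 : ℂ)‖ < D₀.b 0 / 2 := by simpa [jj] using CfE2_b h false
  have ht := (h.tau0 e).1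
  have hv : Tendsto (fun x => (C x).τ e * w x) l (𝓝 0) := by simpa using ht.mul hw
  have a1 := h.D.lam (CfE2_jj h e.2) ht hb
  have a2 := h.D.lam (CfE2_jj h e.2) (by simpa using ht.add hv) hb
  have a3 := (hw.const_add 1).clog (mem_slitPlane_of_norm_lt_one h1)
  have a4 : Tendsto (fun x => (C x).dG e ((C x).τ e * w x)) l
      (𝓝 (sg (jj e.2) * (3 / 2) * log (1 + w₀))) := by
    have := (a3.const_mul (sg (jj e.2) * (3 / 2) : ℂ)).add (a2.sub a1)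
    rw [sub_self, add_zero] at this
    refine this.congr fun x => ?_
    rw [Cfg.dG, mul_div_cancel_left₀ _ (Cfg.τ_ne e)]
  have a5 : Tendsto (fun x => log (1 + (C x).τ e * w x / (C x).c e)) l (𝓝 0) := by
    have := ((hv.div (h.tau0 e).2.2.1 (by simpa using (CfE2_b h e.2).ne')).const_add 1).clog
      (by simp)
    simpa using this
  constructor
  · have := ((a4.sub a5).div_const 2).cexp
    rw [show (sg (jj e.2) * (3 / 4) * log (1 + w₀) : ℂ) =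
      (sg (jj e.2) * (3 / 2) * log (1 + w₀) - 0) / 2 by ring]
    exact this
  · have := ((a4.neg.sub a5).div_const 2).cexp
    rw [show (-(sg (jj e.2) * (3 / 4) * log (1 + w₀)) : ℂ) =
      (-(sg (jj e.2) * (3 / 2) * log (1 + w₀)) - 0) / 2 by ring]
    exact this

end Pool.Agent.MP_92463a_gt
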