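import Pool.Agent.MP_92463a_gt.CfE2

open Set Complex Filter Metric
open scoped Topology ComplexConjugate ContDiff Manifold

noncomputable section

namespace Pool.Agent.MP_92463a_gt

variable {γ : ℕ} {α : Type} {l : Filter α} {C : α → Cfg γ} {D₀ : Dat} {z₀ : Zs γ}

theorem CfE3_con {C : Cfg γ} (g : C.G0) {m M : ℝ} (hm : 0 < m)
    (hb : ∀ e, m ≤ Real.exp (2 * C.L) * ‖C.τ e‖ ∧ C.L * ‖C.rr e‖ ≤ M ∧
      C.L * Real.exp (6 * C.L) * ‖C.pl.s e.1 / C.rr e‖ ≤ M ∧ m ≤ C.bb e.2)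
    (hL : 384 * γ ^ 2 * M / m ≤ C.L) (b : Bool) {r : Fin γ × Bool → ℂ} {W : Fin γ × Bool → ℝ}
    (hr : ∀ e, r e = if e.2 = b then C.rr e else C.pl.s e.1 / C.rr (op e))
    (hW : ∀ e, W e = if e.2 = b then Real.exp (2 * C.L) else 1) : C.pl.Con r W := by
  have hL1 := g.L
  have hγ : (1 : ℝ) ≤ γ := by exact_mod_cast g.pos
  have e6 : Real.exp (6 * C.L) = Real.exp (2 * C.L) ^ 3 := by
    rw [← Real.exp_nat_mul]; congr 1; push_cast; ring
  have hX : 1 ≤ Real.exp (2 * C.L) := Real.one_le_exp (by linarith)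
  generalize Real.exp (2 * C.L) = X at *
  have hW1 : ∀ e, 1 ≤ W e := fun e => by rw [hW]; split_ifs; exacts [hX, le_rfl]
  refine ⟨fun e => by linarith [hW1 e], fun e v hv => ?_⟩
  have key : ∀ e', 6 * ‖r e'‖ * W (op e') / ‖C.pl.c e + v - C.pl.c e'‖ ≤ W e / 2 / (2 * γ) := by
    intro e'
    have d1 : ‖C.τ e'‖ / (16 * γ) ≤ _ := g.pl_ok.circ_far e' hv
    have d2 : e.2 ≠ e'.2 → 2 * m ≤ ‖C.pl.c e + v - C.pl.c e'‖ := fun hne => by
      have h1 := (g.disc (e := e) (v := v) (by linarith [g.pl_ok.ρ_pos e])).2.2.1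
      have h2 := g.other (b := e.2) (τ := C.τ e + v) (by linarith [(g.toAdm.bb true).1]) e'.1
      have h3 : (e'.1, !e.2) = e' := by
        rcases e with ⟨k, _ | _⟩ <;> rcases e' with ⟨k', _ | _⟩ <;> simp_all
      have h4 : m ≤ C.D.b 0 := (hb (e.1, false)).2.2.2
      rw [h3, ← add_assoc] at h2
      exact le_trans (by linarith) h2
    generalize ‖C.pl.c e + v - C.pl.c e'‖ = d at *
    have t1 := (hb e').1
    have t2 : 0 < ‖C.τ e'‖ := norm_pos_iff.2 (Cfg.τ_ne e')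
    rw [div_le_iff₀ (by positivity)] at d1
    have d0 : 0 < d := by nlinarith
    have d3 : m ≤ X * (d * (16 * γ)) := t1.trans (by gcongr)
    rw [div_le_iff₀ hm] at hL
    have fin : ∀ a y : ℝ, 0 ≤ a → 0 < y → C.L * (a * y) ≤ M → m ≤ y * W e * (d * (16 * γ)) →
        6 * a / d ≤ W e / 2 / (2 * γ) := fun a y ha hy h1 h2 => by
      rw [div_div, div_le_div_iff₀ d0 (by positivity)]
      have h3 : 384 * γ ^ 2 * (C.L * (a * y)) ≤ C.L * (y * W e * (d * (16 * γ))) :=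
        le_trans (by gcongr) (hL.trans (by gcongr))
      have h4 : 0 < 16 * γ * C.L * y := by positivity
      refine le_of_mul_le_mul_left ?_ h4
      linarith
    have hw := hW1 e
    rw [mul_assoc 6, hr, hW (op e')]
    by_cases h1 : e'.2 = b
    · have h2 : ¬ (op e').2 = b := by rw [← h1]; simp [op]
      rw [if_pos h1, if_neg h2]
      refine fin _ 1 (by positivity) one_pos (by simpa using (hb e').2.1) ?_
      by_cases h3 : e.2 = b
      · rw [hW, if_pos h3, one_mul]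
        exact d3
      · have := d2 fun h4 => h3 (h4.trans h1)
        rw [hW, if_neg h3]
        nlinarith
    · have h2 : (op e').2 = b := by
        rcases e' with ⟨k', _ | _⟩ <;> cases b <;> simp_all [op]
      rw [if_neg h1, if_pos h2]
      have h3 := (hb (op e')).2.2.1
      rw [e6, op_fst] at h3
      refine fin _ X (by positivity) (by positivity) (le_trans ?_ h3) (d3.trans ?_)
      · generalize hn : ‖C.pl.s e'.1 / C.rr (op e')‖ = n
        have h4 : 0 ≤ n := hn ▸ norm_nonneg _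
        have : C.L * X ^ 2 * n ≤ C.L * X ^ 3 * n := by
          gcongr
          norm_num
        linarith
      · gcongr
        nlinarith
  refine (Finset.sum_le_sum fun e' _ => key e').trans (le_of_eq ?_)
  simp only [Finset.sum_const, Finset.card_univ, Fintype.card_prod, Fintype.card_fin,
    Fintype.card_bool, nsmul_eq_mul]
  push_cast
  field_simp

theorem Lim.con (h : Lim l C D₀ z₀) :
    ∀ᶠ x in l, (C x).pl.Con (C x).r1 (C x).W1 ∧ (C x).pl.Con (C x).r2 (C x).W2 := by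
  obtain ⟨m, hm, M, hb⟩ := h.bds
  filter_upwards [hb, h.g0, h.L.eventually_ge_atTop (384 * γ ^ 2 * M / m)] with x hb g hL
  have h1 := CfE3_con g.1 hm
    (fun e => ⟨(hb.2 e).1.1, (hb.2 e).2.2.1.2, (hb.2 e).2.2.2.1, (hb.2 e).2.2.2.2.2.1⟩) hL
  refine ⟨h1 false ?_ ?_, h1 true ?_ ?_⟩ <;> rintro ⟨k, _ | _⟩ <;> rfl

theorem Lim.con2 (h : Lim l C D₀ z₀) {r : α → Fin γ × Bool → ℂ} {M : ℝ}
    (hr : ∀ᶠ x in l, ∀ e, ‖r x e‖ ≤ M * ‖(C x).pl.s e.1‖) : ∀ᶠ x in l, (C x).pl.Con2 (r x) := by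
  obtain ⟨m, hm, N, hb⟩ := h.bds
  have h1 : Tendsto (fun x => ∑ e : Fin γ × Bool, 6144 * γ ^ 2 * |M| * (N / m) * ‖(C x).vs e.1‖ ^ 2)
      l (𝓝 (∑ e : Fin γ × Bool, 6144 * γ ^ 2 * |M| * (N / m) * ‖(0 : ℂ)‖ ^ 2)) :=
    tendsto_finsetSum _ fun e _ => ((h.vs0 e.1).1.norm.pow 2).const_mul _
  filter_upwards [hb, h.g0, hr, h1.eventually_le_const (u := 1 / 2) (by simp)] with x hb g hr h1
  intro e v hv
  refine le_trans (Finset.sum_le_sum fun e' _ => ?_) h1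
  have d1 := g.1.pl_ok.circ_far e' hv
  have d2 := g.1.pl_ok.ρ_pos e'
  have hγ : (0 : ℝ) < γ := by exact_mod_cast g.1.pos
  have t2 : 0 < ‖(C x).τ e'‖ := norm_pos_iff.2 (Cfg.τ_ne e')
  have h2 : ‖(C x).pl.s e'.1‖ = ‖(C x).τ e'‖ * ‖(C x).τ (op e')‖ * ‖(C x).vs e'.1‖ ^ 2 := by
    rcases e' with ⟨k, _ | _⟩ <;> simp [Cfg.pl, op, mul_comm]
  have h3 : ‖(C x).τ (op e')‖ ≤ N / m * ‖(C x).τ e'‖ := by
    have a1 := (hb.2 e').1.1
    have a2 := (hb.2 (op e')).1.2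
    have a3 := norm_nonneg ((C x).τ (op e'))
    rw [div_mul_eq_mul_div, le_div_iff₀ hm]
    nlinarith
  calc _ ≤ 12 * (|M| * (‖(C x).τ e'‖ * (N / m * ‖(C x).τ e'‖) * ‖(C x).vs e'.1‖ ^ 2)) *
        (((C x).pl.ρ e')⁻¹ + ((C x).pl.ρ e')⁻¹) / (C x).pl.ρ e' := by
        have h4 : ‖r x e'‖ ≤ |M| * (‖(C x).τ e'‖ * (N / m * ‖(C x).τ e'‖) * ‖(C x).vs e'.1‖ ^ 2) :=
          (hr e').trans (by rw [h2]; gcongr; exact le_abs_self M)
        have h5 := (norm_nonneg _).trans h4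
        gcongr
    _ = _ := by
        change 12 * _ * ((‖(C x).τ e'‖ / (16 * γ))⁻¹ + (‖(C x).τ e'‖ / (16 * γ))⁻¹) /
          (‖(C x).τ e'‖ / (16 * γ)) = _
        field_simp
        ring

theorem CfE3_bg {C : Cfg γ} (g : C.G0) {m M : ℝ} (hm : 0 < m) (hl : C.L * |C.ℓ| ≤ M)
    (hb : ∀ e, m ≤ Real.exp (2 * C.L) * ‖C.τ e‖ ∧ C.bb e.2 ≤ M) (hL : M ≤ C.L)
    (hL' : 2 * M ^ 2 / m ≤ C.L) (e : Fin γ × Bool) (v : ℂ) (hv : ‖v‖ = C.pl.ρ e) :
    ‖C.bg (C.c e + v)‖ ≤ 2 * C.W1 e := by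
  obtain ⟨h1, h2, h3, -⟩ := g.disc (e := e) (v := v) (by linarith [g.pl_ok.ρ_pos e])
  obtain ⟨b1, -, b2⟩ := g.toAdm.bb true
  have hL1 := g.L
  have hX : 1 ≤ Real.exp (2 * C.L) := Real.one_le_exp (by linarith)
  have a0 := abs_nonneg C.ℓ
  have key : ∀ W : ℝ, 1 ≤ W → 0 < ‖C.c e + v + C.D.b 0‖ →
      |C.ℓ| * C.D.b 0 ≤ W * ‖C.c e + v + C.D.b 0‖ → ‖C.bg (C.c e + v)‖ ≤ 2 * W :=
    fun W w1 w2 w3 => by
      refine (norm_add_le _ _).trans ?_
      rw [norm_one, norm_div, norm_mul, norm_real, norm_real, Real.norm_eq_abs,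
        Real.norm_of_nonneg b1.le]
      linarith [(div_le_iff₀ w2).2 w3]
  rcases e with ⟨k, _ | _⟩
  · have e1 : C.c (k, false) + v + C.D.b 0 = C.τ (k, false) + v := by
      simp only [Cfg.c, Cfg.bb, jj, Bool.false_eq_true, if_false]
      ring
    refine key (Real.exp (2 * C.L)) hX (by rw [e1]; positivity) ?_
    have a1 := (hb (k, false)).1
    have a2 : C.D.b 0 ≤ M := (hb (k, false)).2
    have a3 := norm_sub_le (C.τ (k, false) + v) v
    rw [add_sub_cancel_right] at a3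
    rw [e1]
    rw [div_le_iff₀ hm] at hL'
    refine le_of_mul_le_mul_left ?_ (by linarith : 0 < C.L)
    have a4 : C.L * |C.ℓ| * C.D.b 0 ≤ M * M := by gcongr; linarith
    have a5 : m ≤ Real.exp (2 * C.L) * (2 * ‖C.τ (k, false) + v‖) :=
      a1.trans (by gcongr; linarith [norm_nonneg v])
    linarith [mul_le_mul_of_nonneg_left a5 (by linarith : 0 ≤ C.L)]
  · have e1 : C.D.b 0 ≤ ‖C.c (k, true) + v + C.D.b 0‖ := by
      have a1 := norm_sub_le (C.τ (k, true) + v) (C.c (k, true) + v + C.D.b 0)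
      have a2 : C.τ (k, true) + v - (C.c (k, true) + v + C.D.b 0) =
          ((C.D.b 1 - C.D.b 0 : ℝ) : ℂ) := by
        simp only [Cfg.c, Cfg.bb, jj, if_true]
        push_cast
        ring
      rw [a2, norm_real, Real.norm_of_nonneg (by linarith)] at a1
      linarith
    refine key 1 le_rfl (by linarith) ?_
    have a3 : |C.ℓ| ≤ 1 := le_of_mul_le_mul_left (by linarith) (by linarith : 0 < C.L)
    nlinarith

theorem Lim.fine (h : Lim l C D₀ z₀) : ∀ᶠ x in l, (C x).Fine := by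
  obtain ⟨m, hm, M, hb⟩ := h.bds
  obtain ⟨N, hN⟩ := h.ry
  filter_upwards [hb, h.g0, h.w12, h.wy, h.con, h.con2 hN,
    h.con2 (r := fun x e => -(C x).pl.s e.1) (M := 1) (.of_forall fun x e => by simp),
    h.L.eventually_ge_atTop M, h.L.eventually_ge_atTop (2 * M ^ 2 / m)]
    with x hb g w wy c co ce l1 l2
  exact ⟨⟨g.1.toAdm, g.1.L, g.1.τ, g.1.vs, w.1, w.2, c.1, c.2,
    CfE3_bg g.1 hm hb.1 (fun e => ⟨(hb.2 e).1.1, (hb.2 e).2.2.2.2.2.2⟩) l1 l2, wy, ce, co⟩, g.2⟩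

end Pool.Agent.MP_92463a_gt
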