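import Pool.Agent.MP_92463a_gt.CfE3
import Pool.Agent.MP_92463a_gt.CfD

open Set Complex Filter Metric
open scoped Topology ComplexConjugate ContDiff Manifold

noncomputable section

namespace Pool.Agent.MP_92463a_gt

theorem CfF1_sum {ι : Type} [Fintype ι] (f : ι × Bool → ℂ) (b : Bool) :
    ∑ e, f e = ∑ k, f (k, b) + ∑ k, f (k, !b) := by
  rw [Fintype.sum_prod_type, ← Finset.sum_add_distrib]
  refine Finset.sum_congr rfl fun k _ => ?_
  cases b <;> simp [add_comm]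

theorem CfF1_le {ι : Type} [Fintype ι] {f : ι → ℂ} {a : ℝ} (h : ∀ k, ‖f k‖ ≤ a) :
    ‖∑ k, f k‖ ≤ Fintype.card ι * a :=
  (norm_sum_le _ _).trans ((Finset.sum_le_sum fun k _ => h k).trans_eq (by simp))

theorem CfF1_det {ι : Type} [Fintype ι] {P : Pl ι} {m : ι × Bool → ℂ → ℂ} {r : ι × Bool → ℂ}
    (h : P.Ok) (hm : P.Wt m) (b : Bool) {ψ χ : ℂ → ℂ} {B a : ℝ} (ha : 0 ≤ a) (hB : 0 ≤ B)
    (hχ : ∀ t, χ t = 1 + ∑ e, P.pk (P.k1 m r) ψ e t)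
    (hc : ∀ e, ContinuousOn (fun v => ψ (P.c e + v)) {v | ‖v‖ = P.ρ e})
    (h1 : ∀ k v, ‖v‖ = P.ρ (k, b) → ‖ψ (P.c (k, b) + v)‖ ≤ B)
    (h2 : ∀ k v, ‖v‖ = P.ρ (k, !b) → ‖ψ (P.c (k, !b) + v)‖ ≤ 4)
    (h3 : ∀ k, 6 * ‖r (k, !b)‖ * B / P.mu (k, !b) ≤ a)
    (h4 : ∀ k v, ‖v‖ = P.ρ (k, !b) → ‖ψ (P.c (k, !b) + v) - χ (P.c (k, !b) + v)‖ ≤ a ∧
      ∀ j, 6 * ‖r (j, b)‖ * 4 / ‖P.c (k, !b) + v - P.c (j, b)‖ ≤ a)
    (h5 : ∀ k, P.rin (k, b) ≤ a * P.mu (k, b)) {t : ℂ} (ht : t ∈ P.Fd) :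
    ‖χ t - 1 - ∑ k, r (k, b) / (t - P.c (k, b))‖ ≤
      (30 + 13 * Fintype.card ι) * a * (1 + ∑ k, ‖r (k, b)‖ / ‖t - P.c (k, b)‖) := by
  have hmu : ∀ e, 0 < P.mu e := fun e => by linarith [h.rin_mu e, h.rin_pos e]
  have hfd : ∀ t ∈ P.Fd, ∀ e, 2 * P.rin e ≤ ‖t - P.c e‖ := fun t ht e => by
    linarith [h.rin_mu e, h.rin_pos e, ht e]
  have hreg : ∀ t ∈ P.Fd, ‖∑ k, P.pk (P.k1 m r) ψ (k, !b) t‖ ≤ Fintype.card ι * a := by
    intro t ht
    refine CfF1_le fun k => ?_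
    have e1 : op (k, !b) = (k, b) := by simp [op]
    refine (Pl.pk1_bd (M := B) h hm (by rw [e1]; exact h1 k) (hfd t ht _)).trans (le_trans ?_ (h3 k))
    exact div_le_div_of_nonneg_left (by positivity) (hmu _) (ht _)
  have hη : ∀ k v, ‖v‖ = P.ρ (k, !b) →
      ‖ψ (P.c (k, !b) + v) - 1‖ ≤ (1 + 2 * Fintype.card ι) * a := by
    intro k v hv
    have hm' : P.c (k, !b) + v ∈ P.Fd :=
      h.mem_fd (by linarith [h.mu_ρ (k, !b), hmu (k, !b)]) (by linarith [h.ρ_pos (k, !b)])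
    have a1 := hreg _ hm'
    have a2 : ‖∑ j, P.pk (P.k1 m r) ψ (j, b) (P.c (k, !b) + v)‖ ≤ Fintype.card ι * a :=
      CfF1_le fun j => (Pl.pk1_bd (M := 4) (e := (j, b)) (f := ψ) h hm (h2 j) (hfd _ hm' _)).trans ((h4 k v hv).2 j)
    have e : ψ (P.c (k, !b) + v) - 1 = (ψ (P.c (k, !b) + v) - χ (P.c (k, !b) + v)) +
        (∑ j, P.pk (P.k1 m r) ψ (j, b) (P.c (k, !b) + v) +
          ∑ j, P.pk (P.k1 m r) ψ (j, !b) (P.c (k, !b) + v)) := by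
      rw [hχ, CfF1_sum _ b]
      ring
    rw [e]
    refine (norm_add_le _ _).trans ?_
    linarith [(h4 k v hv).1, norm_add_le (∑ j, P.pk (P.k1 m r) ψ (j, b) (P.c (k, !b) + v))
      (∑ j, P.pk (P.k1 m r) ψ (j, !b) (P.c (k, !b) + v))]
  have hs : ∀ k, ‖P.pk (P.k1 m r) ψ (k, b) t - r (k, b) / (t - P.c (k, b))‖ ≤
      (30 + 12 * Fintype.card ι) * a * (‖r (k, b)‖ / ‖t - P.c (k, b)‖) := by
    intro k
    refine (Pl.pk1_main (e := (k, b)) h hm (hc _) (hη k) (hfd t ht _)).trans ?_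
    have b1 : P.rin (k, b) * (P.ρ (k, b))⁻¹ ≤ a := by
      rw [← div_eq_mul_inv, div_le_iff₀ (h.ρ_pos _)]
      exact (h5 k).trans (mul_le_mul_of_nonneg_left (by linarith [h.mu_ρ (k, b), hmu (k, b)]) ha)
    have b2 : P.rin (k, b) * ‖t - P.c (k, b)‖⁻¹ ≤ a := by
      rw [← div_eq_mul_inv, div_le_iff₀ ((hmu _).trans_le (ht _))]
      exact (h5 k).trans (mul_le_mul_of_nonneg_left (ht _) ha)
    rw [mul_comm ‖r (k, b)‖, mul_div_assoc]
    exact mul_le_mul_of_nonneg_right (by linarith) (by positivity)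
  have e : χ t - 1 - ∑ k, r (k, b) / (t - P.c (k, b)) =
      ∑ k, (P.pk (P.k1 m r) ψ (k, b) t - r (k, b) / (t - P.c (k, b))) +
        ∑ k, P.pk (P.k1 m r) ψ (k, !b) t := by
    rw [hχ, CfF1_sum _ b, Finset.sum_sub_distrib]
    ring
  rw [e]
  refine (norm_add_le _ _).trans ?_
  have a1 := (norm_sum_le _ _).trans (Finset.sum_le_sum fun k (_ : k ∈ Finset.univ) => hs k)
  rw [← Finset.mul_sum] at a1
  have a2 : 0 ≤ ∑ k, ‖r (k, b)‖ / ‖t - P.c (k, b)‖ := Finset.sum_nonneg fun k _ => by positivity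
  have a3 : (0 : ℝ) ≤ Fintype.card ι * a := by positivity
  nlinarith [hreg t ht, mul_nonneg a3 a2]

theorem CfF1_num {L X m M σ τ v : ℝ} (hL : 0 < L) (hX : L ≤ X) (hm : 0 < m) (hσ : 0 ≤ σ)
    (hτ : 0 < τ) (hv : 0 < v) (h1 : m ≤ X ^ 2 * τ) (h2 : m ≤ L * X * v)
    (h3 : L * X ^ 6 * σ ≤ M) : 6 * σ * (4 * X ^ 2) / (τ * v) ≤ 24 * M / m ^ 2 / L := by
  have hX0 : 0 < X := hL.trans_le hX
  have a1 : m ^ 2 ≤ X ^ 2 * τ * (L * X * v) := by
    rw [sq]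
    exact mul_le_mul h1 h2 hm.le (by positivity)
  have a2 : X ^ 2 * τ * (L * X * v) ≤ X ^ 2 * τ * (X * X * v) := by gcongr
  have a3 := mul_le_mul_of_nonneg_left (a1.trans a2) (show 0 ≤ σ * X ^ 2 * L by positivity)
  have a4 := mul_le_mul_of_nonneg_right h3 (mul_pos hτ hv).le
  rw [div_div, div_le_div_iff₀ (by positivity) (by positivity)]
  nlinarith

theorem CfF1_good {γ : ℕ} {C : Cfg γ} (h : C.Good) {m M : ℝ} (hm : 0 < m)
    (hl : C.L * |C.ℓ| ≤ M) (hb : m ≤ C.D.b 0) (h1 : ∀ e, m ≤ Real.exp (2 * C.L) * ‖C.τ e‖)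
    (h2 : ∀ k, m ≤ C.L * Real.exp C.L * ‖C.vs k‖ ∧ C.L * Real.exp C.L * ‖C.vs k‖ ≤ M)
    (h3 : ∀ e, C.L * ‖C.rr e‖ ≤ M)
    (h4 : ∀ e, C.L * Real.exp (6 * C.L) * ‖C.pl.s e.1 / C.rr e‖ ≤ M) {t : ℂ} (ht : t ∈ C.pl.Fd) :
    ‖C.wd.χ t - 1 - ∑ k, C.rr (k, false) / (t - C.c (k, false))‖ ≤
        (30 + 13 * γ) * ((24 * M / m ^ 2 + 12 * M / m + M + 16 * γ * M) / C.L) *
          (1 + ∑ k, ‖C.rr (k, false)‖ / ‖t - C.c (k, false)‖) ∧
      ‖C.wd.ψ₂ t - 1 - ∑ k, C.rr (k, true) / (t - C.c (k, true))‖ ≤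
        (30 + 13 * γ) * ((24 * M / m ^ 2 + 12 * M / m + M + 16 * γ * M) / C.L) *
          (1 + ∑ k, ‖C.rr (k, true)‖ / ‖t - C.c (k, true)‖) := by
  have g := h.g0
  have hL : 0 < C.L := by linarith [h.L]
  have hM : 0 ≤ M := le_trans (by positivity) hl
  have hX : C.L ≤ Real.exp C.L := by linarith [Real.add_one_le_exp C.L]
  have x2 : Real.exp (2 * C.L) = Real.exp C.L ^ 2 := by
    rw [← Real.exp_nat_mul]
    norm_num
  have x6 : Real.exp (6 * C.L) = Real.exp C.L ^ 6 := by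
    rw [← Real.exp_nat_mul]
    norm_num
  have hb0 : 0 < C.D.b 0 := hm.trans_le hb
  have p1 : 0 ≤ 24 * M / m ^ 2 / C.L := by positivity
  have p2 : 0 ≤ 12 * M / m / C.L := by positivity
  have p3 : 0 ≤ M / C.L := by positivity
  have p4 : 0 ≤ 16 * γ * M / C.L := by positivity
  obtain ⟨a, ha⟩ : ∃ a, a = (24 * M / m ^ 2 + 12 * M / m + M + 16 * γ * M) / C.L := ⟨_, rfl⟩
  rw [← ha]
  rw [add_div, add_div, add_div] at ha
  have ha0 : 0 ≤ a := by linarith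
  have k3 : ∀ k b, 6 * ‖C.pl.s k / C.rr (k, b)‖ * (4 * Real.exp (2 * C.L)) / C.pl.mu (k, !b) ≤ a := by
    intro k b
    rw [g.mu_eq, x2]
    have := CfF1_num hL hX hm (norm_nonneg _) (norm_pos_iff.2 (Cfg.τ_ne (k, !b)))
      (norm_pos_iff.2 (g.vs_ne k)) (x2 ▸ h1 _) (h2 k).1 (x6 ▸ h4 (k, b))
    linarith
  have k4 : ∀ k b v, ‖v‖ = C.pl.ρ (k, !b) → ∀ j,
      6 * ‖C.rr (j, b)‖ * 4 / ‖C.c (k, !b) + v - C.c (j, b)‖ ≤ a := by
    intro k b v hv j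
    have d1 := (g.disc (e := (k, !b)) (v := v) (by linarith [g.pl_ok.ρ_pos (k, !b)])).2.2.1
    have d2 := g.other (b := !b) (τ := C.τ (k, !b) + v) (by linarith) j
    rw [Bool.not_not, ← add_assoc] at d2
    have d3 : ‖C.rr (j, b)‖ ≤ M / C.L := by
      rw [le_div_iff₀' hL]
      exact h3 _
    calc _ ≤ 6 * (M / C.L) * 4 / (2 * m) := by
          refine div_le_div₀ (by positivity) (by linarith) (by positivity) (le_trans ?_ d2)
          linarith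
      _ = 12 * M / m / C.L := by ring
      _ ≤ a := by linarith
  have k5 : ∀ e, C.pl.rin e ≤ a * C.pl.mu e := by
    intro e
    have d1 : ‖C.vs e.1‖ ≤ M / C.L := by
      rw [le_div_iff₀' hL]
      refine le_trans ?_ (h2 e.1).2
      rw [mul_assoc]
      refine mul_le_mul_of_nonneg_left (le_mul_of_one_le_left (norm_nonneg _) ?_) hL.le
      linarith [h.L]
    have d2 : 16 * γ * ‖C.vs e.1‖ ≤ a := by
      have := mul_le_mul_of_nonneg_left d1 (show (0 : ℝ) ≤ 16 * γ by positivity)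
      rw [← mul_div_assoc] at this
      linarith
    rw [g.rin_eq, g.mu_eq]
    calc _ = 16 * γ * ‖C.vs e.1‖ * (‖C.τ e‖ * ‖C.vs e.1‖) := by ring
      _ ≤ _ := mul_le_mul_of_nonneg_right d2 (by positivity)
  have hB : 0 ≤ 4 * Real.exp (2 * C.L) := by positivity
  constructor
  · have := CfF1_det g.pl_ok h.w1 false ha0 hB h.χ_eq (fun e => (h.ψ_fb.1 e).1)
      (fun k => (h.ψ_fb.1 (k, false)).2)
      (fun k v hv => ((h.ψ_fb.1 (k, true)).2 v hv).trans_eq (mul_one _)) (fun k => k3 k false)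
      (fun k v hv => ⟨?_, k4 k false v hv⟩) (fun k => k5 _) ht
    · rwa [Fintype.card_fin] at this
    have d1 := (g.disc (e := (k, true)) (v := v) (by
      linarith [g.pl_ok.ρ_pos (k, true), show ‖v‖ = C.pl.ρ (k, true) from hv])).2.2.1
    have d2 := (h.toAdm.bb true).2.2
    have d3 : C.D.b 0 ≤ ‖C.c (k, true) + v + C.D.b 0‖ := by
      have e : ((C.D.b 1 - C.D.b 0 : ℝ) : ℂ) =
          C.τ (k, true) + v - (C.c (k, true) + v + C.D.b 0) := by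
        simp [Cfg.c, Cfg.bb, jj]
        ring
      have := norm_sub_le (C.τ (k, true) + v) (C.c (k, true) + v + C.D.b 0)
      rw [← e, norm_real, Real.norm_of_nonneg (by linarith)] at this
      linarith
    have d4 : |C.ℓ| ≤ M / C.L := by
      rw [le_div_iff₀' hL]
      exact hl
    change ‖_ + (C.ℓ : ℂ) * C.D.b 0 / (C.c (k, true) + v + C.D.b 0) - _‖ ≤ a
    rw [add_sub_cancel_left, norm_div, norm_mul, norm_real, norm_real, Real.norm_of_nonneg hb0.le,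
      mul_div_assoc]
    refine (mul_le_of_le_one_right (norm_nonneg _) (div_le_one_of_le₀ d3 (norm_nonneg _))).trans ?_
    rw [Real.norm_eq_abs]
    linarith
  · have := CfF1_det g.pl_ok h.w2 true ha0 hB h.ψ₂_eq (fun e => (h.ψ_fb.2 e).1)
      (fun k v hv => ((h.ψ_fb.2 (k, true)).2 v hv).trans (by
        change 2 * Real.exp (2 * C.L) ≤ _
        linarith))
      (fun k v hv => ((h.ψ_fb.2 (k, false)).2 v hv).trans (by norm_num [Cfg.W2]))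
      (fun k => k3 k true) (fun k v hv => ⟨by simpa using ha0, k4 k true v hv⟩) (fun k => k5 _) ht
    rwa [Fintype.card_fin] at this

variable {γ : ℕ} {α : Type} {l : Filter α} {C : α → Cfg γ} {D₀ : Dat} {z₀ : Zs γ}

theorem Lim.master (h : Lim l C D₀ z₀) : ∀ ε > 0, ∀ᶠ x in l, ∀ t ∈ (C x).pl.Fd,
    ‖(C x).wd.χ t - 1 - ∑ k, (C x).rr (k, false) / (t - (C x).c (k, false))‖ ≤
        ε * (1 + ∑ k, ‖(C x).rr (k, false)‖ / ‖t - (C x).c (k, false)‖) ∧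
      ‖(C x).wd.ψ₂ t - 1 - ∑ k, (C x).rr (k, true) / (t - (C x).c (k, true))‖ ≤
        ε * (1 + ∑ k, ‖(C x).rr (k, true)‖ / ‖t - (C x).c (k, true)‖) := by
  intro ε hε
  obtain ⟨m, hm, M, hb⟩ := h.bds
  have h1 : Tendsto (fun x => (30 + 13 * γ) *
      ((24 * M / m ^ 2 + 12 * M / m + M + 16 * γ * M) / (C x).L)) l (𝓝 0) := by
    simpa using (h.L.const_div_atTop _).const_mul (30 + 13 * γ : ℝ)
  filter_upwards [hb, h.fine, h1.eventually_le_const hε] with x hx hf h2 t ht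
  have k : Fin γ := ⟨0, hf.pos⟩
  have := CfF1_good hf.toGood hm hx.1 (hx.2 (k, false)).2.2.2.2.2.1 (fun e => (hx.2 e).1.1)
    (fun j => (hx.2 (j, false)).2.1) (fun e => (hx.2 e).2.2.1.2) (fun e => (hx.2 e).2.2.2.1) ht
  exact ⟨this.1.trans (mul_le_mul_of_nonneg_right h2 (by positivity)),
    this.2.trans (mul_le_mul_of_nonneg_right h2 (by positivity))⟩

end Pool.Agent.MP_92463a_gt
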