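import Pool.Agent.MP_92463a_gt.CfF1

open Set Complex Filter Metric
open scoped Topology ComplexConjugate ContDiff Manifold

noncomputable section

namespace Pool.Agent.MP_92463a_gt

variable {γ : ℕ} {α : Type} {l : Filter α} {C : α → Cfg γ} {D₀ : Dat} {z₀ : Zs γ}

theorem CfF2_zero {E : Type} [NormedAddCommGroup E] {f : α → E} {L : α → ℝ} {M : ℝ}
    (hL : Tendsto L l atTop) (hf : ∀ᶠ x in l, L x * ‖f x‖ ≤ M) : Tendsto f l (𝓝 0) := by
  refine squeeze_zero_norm' ?_ (hL.const_div_atTop M)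
  filter_upwards [hf, hL.eventually_gt_atTop 0] with x h1 h2
  rwa [le_div_iff₀' h2]

theorem CfF2_b0 (h : Lim l C D₀ z₀) : 0 < D₀.b 0 / 2 ∧ ∀ᶠ x in l, D₀.b 0 / 2 ≤ (C x).D.b 0 := by
  have h0 := h.D.ok₀.b_pos 0 (by have := h.q; omega)
  exact ⟨by positivity, (h.bb false).eventually_const_le (show _ < D₀.b 0 by linarith)⟩

theorem CfF2_tau (h : Lim l C D₀ z₀) {δ : ℝ} (hδ : 0 < δ) : ∀ᶠ x in l, ∀ e, ‖(C x).τ e‖ ≤ δ :=
  eventually_all.2 fun e => (h.tau0 e).1.norm.eventually_le_const (by simpa using hδ)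

theorem CfF2_far (C : Cfg γ) {e : Fin γ × Bool} {t : ℂ} {δ : ℝ} (h : ‖C.τ e‖ ≤ δ / 2)
    (ht : δ ≤ ‖t + C.bb e.2‖) : δ / 2 ≤ ‖t - C.c e‖ := by
  have : t + C.bb e.2 = t - C.c e + C.τ e := by rw [Cfg.c]; ring
  have h2 := norm_add_le (t - C.c e) (C.τ e)
  rw [← this] at h2
  linarith

theorem CfF2_sum (h : Lim l C D₀ z₀) {δ a : ℝ} (hδ : 0 < δ) (ha : 0 < a) : ∀ᶠ x in l, ∀ b (t : ℂ),
    δ ≤ ‖t + (C x).bb b‖ → ∑ k, ‖(C x).rr (k, b)‖ / ‖t - (C x).c (k, b)‖ ≤ a := by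
  obtain ⟨m, -, M, hb⟩ := h.bds
  have h1 : ∀ b, Tendsto (fun x => ∑ k, ‖(C x).rr (k, b)‖ / (δ / 2)) l (𝓝 0) := fun b => by
    have := tendsto_finsetSum Finset.univ fun (k : Fin γ) _ =>
      ((CfF2_zero h.L (hb.mono fun x hx => (hx.2 (k, b)).2.2.1.2)).norm.div_const (δ / 2))
    simpa using this
  filter_upwards [eventually_all.2 fun b => (h1 b).eventually_le_const ha,
    CfF2_tau h (half_pos hδ)] with x h2 h3 b t ht
  refine le_trans (Finset.sum_le_sum fun k _ => ?_) (h2 b)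
  exact div_le_div_of_nonneg_left (norm_nonneg _) (half_pos hδ) (CfF2_far _ (h3 _) ht)

theorem CfF2_ell (h : Lim l C D₀ z₀) {δ a : ℝ} (hδ : 0 < δ) (ha : 0 < a) : ∀ᶠ x in l, ∀ t : ℂ,
    δ ≤ ‖t + (C x).D.b 0‖ → ‖(C x).ℓ * (C x).D.b 0 / (t + (C x).D.b 0)‖ ≤ a := by
  obtain ⟨m, -, M, hb⟩ := h.bds
  have h0 : Tendsto (fun x => (C x).ℓ) l (𝓝 0) := CfF2_zero h.L (hb.mono fun x hx => hx.1)
  have h1 : Tendsto (fun x => ‖((C x).ℓ * (C x).D.b 0 : ℂ)‖ / δ) l (𝓝 0) := by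
    have hb0 : Tendsto (fun x => (C x).D.b 0) l (𝓝 (D₀.b 0)) := h.bb false
    simpa using ((Dat.DatC_re h0).mul (Dat.DatC_re hb0)).norm.div_const δ
  filter_upwards [h1.eventually_le_const ha] with x h2 t ht
  rw [norm_div]
  exact (div_le_div_of_nonneg_left (norm_nonneg _) hδ ht).trans h2

theorem CfF2_est {κ : Type} [Fintype κ] {A B : ℂ} {r u : κ → ℂ} {ε η : ℝ} (hη : η ≤ 1)
    (hε : 0 ≤ η) (h4 : 4 * η ≤ ε) (h1 : ‖A - 1 - ∑ k, r k / u k‖ ≤ η * (1 + ∑ k, ‖r k‖ / ‖u k‖))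
    (h2 : ∑ k, ‖r k‖ / ‖u k‖ ≤ η) (h3 : ‖B‖ ≤ η) : ‖A + B - 1‖ ≤ ε := by
  have h5 : ‖∑ k, r k / u k‖ ≤ η :=
    ((norm_sum_le _ _).trans (by simp only [norm_div, le_refl])).trans h2
  have h6 := norm_add₃_le (a := A - 1 - ∑ k, r k / u k) (b := ∑ k, r k / u k) (c := B)
  rw [show A - 1 - ∑ k, r k / u k + ∑ k, r k / u k + B = A + B - 1 by ring] at h6
  nlinarith

theorem CfF2_ne {A : ℂ} (h : ‖A - 1‖ ≤ 1 / 2) : A ≠ 0 := by
  rintro rfl
  norm_num at h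

theorem CfF2_mt {ι : Type} {P : Pl ι} (hP : P.Ok) {m : ι × Bool → ℂ → ℂ} {r : ι × Bool → ℂ}
    {f : ℂ → ℂ} (hm : P.Wt m) (hr : ∀ e, r e * r (op e) = P.s e.1) (hf : P.Mt 1 m r f)
    {e : ι × Bool} {v : ℂ} (hv : v ∈ P.Ann e) (h : f (P.c (op e) + P.s e.1 / v) ≠ 0) :
    f (P.c e + v) ≠ 0 := by
  intro h0
  have h1 := hf e v hv
  rw [h0, mul_zero] at h1
  have h2 : r e ≠ 0 := left_ne_zero_of_mul ((hr e).symm ▸ hP.s_ne e.1)
  have h3 := (hm.ne (hP.ann_sub _ (hP.ann_op hv)).2).1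
  exact mul_ne_zero (div_ne_zero h2 (pow_ne_zero _ (hP.ann_ne hv))) (mul_ne_zero h3 h) h1.symm

theorem CfF2_rat (C : Cfg γ) (e : Fin γ × Bool) (j : Fin γ) (w : ℂ) :
    C.τ e + C.τ e * w - C.τ (j, e.2) = C.τ e * (1 + w - exp (C.z.lu (j, e.2) - C.z.lu e)) := by
  rw [Cfg.τ_eq, Cfg.τ_eq, exp_sub]
  have := exp_ne_zero (C.z.lu e)
  field_simp

theorem CfF2_den {C : Cfg γ} (h : C.Adm) (e : Fin γ × Bool) (j : Fin γ) {w : ℂ} (h₀ : w ≠ 0)
    (h₁ : ‖w‖ < 1 / (8 * γ)) : 1 + w ≠ 0 ∧ 1 + w - exp (C.z.lu (j, e.2) - C.z.lu e) ≠ 0 := by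
  have hγ : (1 : ℝ) ≤ γ := by exact_mod_cast h.pos
  have h2 : 1 / (8 * (γ : ℝ)) ≤ 1 := by
    rw [div_le_one (by positivity)]
    linarith
  refine ⟨fun h3 => ?_, fun h3 => ?_⟩
  · rw [eq_neg_of_add_eq_zero_right h3, norm_neg, norm_one] at h₁
    linarith
  · by_cases hj : j = e.1
    · rw [hj, sub_self, exp_zero, add_sub_cancel_left] at h3
      exact h₀ h3
    have h4 := CfF2_rat C e j w
    rw [h3, mul_zero] at h4
    have h5 := (h.sep hj e.2).2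
    rw [show C.τ (j, e.2) - C.τ (e.1, e.2) = C.τ e * w by linear_combination -h4, norm_mul,
      mul_comm] at h5
    have h6 := le_of_mul_le_mul_left h5 (norm_pos_iff.2 (Cfg.τ_ne e))
    have h7 : 1 / (8 * (γ : ℝ)) ≤ 2 / γ := by
      rw [div_le_div_iff₀ (by positivity) (by positivity)]
      linarith
    linarith

theorem CfF2_div {T : ℂ} (hT : T ≠ 0) (a q L : ℂ) : a / (T * q) * T * L = L * a / q := by
  rcases eq_or_ne q 0 with rfl | hq
  · simp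
  · field_simp

theorem Lim.psi_near (h : Lim l C D₀ z₀) : ∀ δ > 0, ∀ ε > 0, ∀ᶠ x in l, ∀ t ∈ (C x).pl.Fd,
    (δ ≤ ‖t + (C x).D.b 0‖ → ‖(C x).wd.ψ₁ t - 1‖ ≤ ε) ∧
      (δ ≤ ‖t + (C x).D.b 1‖ → ‖(C x).wd.ψ₂ t - 1‖ ≤ ε) := by
  intro δ hδ ε hε
  have hη : 0 < min 1 (ε / 4) := by positivity
  have h4 : 4 * min 1 (ε / 4) ≤ ε := by linarith [min_le_right 1 (ε / 4)]
  filter_upwards [h.master _ hη, CfF2_sum h hδ hη, CfF2_ell h hδ hη] with x h1 h2 h3 t ht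
  refine ⟨fun hd => CfF2_est (min_le_left _ _) hη.le h4 (h1 t ht).1 (h2 false t hd) (h3 t hd),
    fun hd => ?_⟩
  simpa using CfF2_est (B := 0) (min_le_left _ _) hη.le h4 (h1 t ht).2 (h2 true t hd)
    (by simpa using hη.le)

theorem Lim.wlim (h : Lim l C D₀ z₀) : WLim l (fun x => (C x).wd) D₀ := by
  refine ⟨h.D, h.q, h.fine.mono fun x hx => hx.toGood.ok1, fun δ hδ ε hε => ?_⟩
  filter_upwards [h.psi_near δ hδ ε hε, CfF2_tau h (half_pos hδ), h.g0] with x h1 h2 h3 t ht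
  have hF : t ∈ (C x).pl.Fd := fun e => by
    refine le_trans ?_ (CfF2_far (C x) (h2 e) (by
      rcases e with ⟨k, _ | _⟩
      · exact ht.1
      · exact ht.2))
    have hγ : (1 : ℝ) ≤ γ := by exact_mod_cast h3.1.pos
    have h4 : ‖(C x).vs e.1‖ ≤ 1 := (h3.1.vs _).trans (by
      rw [div_le_one (by positivity)]
      linarith)
    rw [h3.1.mu_eq]
    exact (mul_le_of_le_one_right (norm_nonneg _) h4).trans (h2 e)
  exact ⟨hF, (h1 t hF).1 ht.1, (h1 t hF).2 ht.2⟩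

theorem Lim.ok (h : Lim l C D₀ z₀) : ∀ᶠ x in l, (C x).wd.Ok := by
  obtain ⟨h0, hb⟩ := CfF2_b0 h
  filter_upwards [h.fine, hb, h.psi_near _ h0 (1 / 2) (by norm_num)] with x hf h1 h2
  have hg := hf.toGood
  have ho := hg.ok1
  have hd : (C x).wd.D.Ok := hg.d
  obtain ⟨b0, -, b1⟩ := hg.toAdm.bb false
  have e0 : (C x).wd.D.b 0 = (C x).D.b 0 := rfl
  have e1 : (C x).wd.D.b 1 = (C x).D.b 1 := rfl
  have k1 : ∀ t ∈ (C x).pl.Fd, (C x).D.b 0 ≤ ‖t + (C x).D.b 0‖ → (C x).wd.ψ₁ t ≠ 0 :=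
    fun t ht hh => CfF2_ne ((h2 t ht).1 (h1.trans hh))
  have k2 : ∀ t ∈ (C x).pl.Fd, (C x).D.b 0 ≤ ‖t + (C x).D.b 1‖ → (C x).wd.ψ₂ t ≠ 0 :=
    fun t ht hh => CfF2_ne ((h2 t ht).2 (h1.trans hh))
  have k3 : ∀ t ∈ (C x).pl.Fd, (C x).wd.ψ₁ t ≠ 0 ∨ (C x).wd.ψ₂ t ≠ 0 := fun t ht => by
    have h3 := norm_sub_le (t + (C x).D.b 1) (t + (C x).D.b 0)
    rw [add_sub_add_left_eq_sub, ← ofReal_sub, norm_real, Real.norm_eq_abs] at h3
    have h4 := le_abs_self ((C x).D.b 1 - (C x).D.b 0)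
    rcases le_total ((C x).D.b 0) ‖t + (C x).D.b 0‖ with h5 | h5
    · exact Or.inl (k1 t ht h5)
    · exact Or.inr (k2 t ht (by linarith))
  have nr : ∀ a b : ℝ, ‖(a : ℂ) + b‖ = |a + b| := fun a b => by
    rw [← ofReal_add, norm_real, Real.norm_eq_abs]
  refine ⟨ho, fun t ht _ => ?_, fun i hi => ?_, k1 0 (ho.toOk0.zero_fd (by simp [Dat.P])).1 ?_,
    fun j hj => ?_⟩
  · rcases ho.pl.cover ht with hF | ⟨e, v, hv, rfl, -, -, hF⟩
    · exact k3 t hF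
    · exact (k3 _ hF).imp (CfF2_mt ho.pl hg.w1 (fun e => (hg.g0.r_mul e).1) hg.mt.1 hv)
        (CfF2_mt ho.pl hg.w2 (fun e => (hg.g0.r_mul e).2.1) hg.mt.2 hv)
  · have hF := (ho.toOk0.zero_fd (t := (C x).D.a i) (mul_eq_zero_of_right _
      (Finset.prod_eq_zero (Finset.mem_range.2 hi) (sub_self _)))).1
    have ha := hd.a_pos i hi
    refine ⟨k1 _ hF ?_, k2 _ hF ?_⟩ <;> rw [nr] <;> refine le_trans ?_ (le_abs_self _) <;> linarith
  · rw [zero_add, norm_real, Real.norm_eq_abs]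
    exact le_abs_self _
  · have hF := (ho.toOk0.zero_fd (t := -(C x).D.b j) (mul_eq_zero_of_left (mul_eq_zero_of_right _
      (Finset.prod_eq_zero (Finset.mem_range.2 hj) (neg_add_cancel _))) _)).1
    refine ⟨fun he => k2 _ hF ?_, fun he => k1 _ hF ?_⟩ <;> rw [← ofReal_neg, nr]
    · rcases Nat.eq_zero_or_pos j with rfl | hj0
      · refine le_trans ?_ (le_abs_self _)
        linarith
      · have := hd.b_gap 1 j (by rcases he with ⟨r, hr⟩; omega) hj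
        refine le_trans ?_ (neg_le_abs _)
        linarith
    · have := hd.b_gap 0 j he.pos hj
      refine le_trans ?_ (neg_le_abs _)
      linarith

theorem Lim.psr (h : Lim l C D₀ z₀) : ∀ ε > 0, ∀ᶠ x in l, ∀ b, ∀ τ : ℂ, ‖τ‖ ≤ (C x).D.b 0 →
    -(C x).bb b + τ ∈ (C x).pl.Fd → ‖(C x).wd.ψr b (-(C x).bb b + τ) - 1‖ ≤ ε := by
  intro ε hε
  obtain ⟨h0, hb⟩ := CfF2_b0 h
  filter_upwards [h.adm, hb, h.psi_near _ h0 ε hε] with x ha h1 h2 b τ hτ ht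
  obtain ⟨b0, -, b1⟩ := ha.bb false
  have key : ∀ u v : ℝ, 4 * (C x).D.b 0 ≤ |v - u| → D₀.b 0 / 2 ≤ ‖-(u : ℂ) + τ + v‖ :=
    fun u v huv => by
      have h3 := norm_sub_le (-(u : ℂ) + τ + v) τ
      rw [show -(u : ℂ) + τ + v - τ = (v - u : ℝ) by push_cast; ring, norm_real,
        Real.norm_eq_abs] at h3
      linarith
  cases b
  · exact (h2 _ ht).2 (key ((C x).D.b 0) _ (le_trans (by linarith) (le_abs_self _)))
  · exact (h2 _ ht).1 (key ((C x).D.b 1) _ (le_trans (by linarith) (neg_le_abs _)))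

theorem Lim.pss (h : Lim l C D₀ z₀) : ∀ ε > 0, ∀ᶠ x in l, ∀ b, ∀ τ : ℂ,
    -(C x).bb b + τ ∈ (C x).pl.Fd →
    ‖(C x).wd.ψs b (-(C x).bb b + τ) - (1 + (if b then 0 else (C x).ℓ * (C x).D.b 0 / τ) +
        ∑ k, (C x).rr (k, b) / (τ - (C x).τ (k, b)))‖ ≤
      ε * (1 + ∑ k, ‖(C x).rr (k, b)‖ / ‖τ - (C x).τ (k, b)‖) := by
  intro ε hε
  filter_upwards [h.master ε hε] with x h1 b τ ht
  have e : ∀ k, -((C x).bb b : ℂ) + τ - (C x).c (k, b) = τ - (C x).τ (k, b) := fun k => by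
    rw [Cfg.c]
    ring
  obtain ⟨h2, h3⟩ := h1 _ ht
  cases b
  · simp only [e] at h2
    refine le_of_eq_of_le (congrArg _ ?_) h2
    have e2 : -((C x).bb false : ℂ) + τ + (C x).wd.D.b 0 = τ := neg_add_cancel_comm _ _
    simp only [Wd.ψs, Wd.ψ₁, e2, Bool.false_eq_true, if_false]
    change _ + ((C x).ℓ : ℂ) * (C x).D.b 0 / τ - _ = _
    ring
  · simp only [e] at h3
    refine le_of_eq_of_le (congrArg _ ?_) h3
    simp only [Wd.ψs, if_true]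
    ring

theorem Lim.psi_sc (h : Lim l C D₀ z₀) (e : Fin γ × Bool) {w : α → ℂ} {w₀ : ℂ}
    (hw : Tendsto w l (𝓝 w₀)) (h₀ : w₀ ≠ 0) (h₁ : ‖w₀‖ < 1 / (8 * γ)) :
    Tendsto (fun x => (C x).wd.ψs e.2 ((C x).c e + (C x).τ e * w x) * (C x).τ e * (C x).L) l
        (𝓝 ((if e.2 then -D₀.b 1 else D₀.b 0) * (cf D₀ z₀).E * z₀.Psi e w₀)) ∧
      Tendsto (fun x => (C x).wd.ψr e.2 ((C x).c e + (C x).τ e * w x)) l (𝓝 1) := by
  rcases l.eq_or_neBot with rfl | hl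
  · exact ⟨tendsto_bot, tendsto_bot⟩
  have hden := fun j => CfF2_den h.adm₀ e j h₀ h₁
  have hpt : ∀ x, (C x).c e + (C x).τ e * w x = -(C x).bb e.2 + ((C x).τ e + (C x).τ e * w x) :=
    fun x => by rw [Cfg.c, add_assoc]
  have hF : ∀ᶠ x in l, ‖(C x).τ e + (C x).τ e * w x‖ ≤ (C x).D.b 0 ∧
      -(C x).bb e.2 + ((C x).τ e + (C x).τ e * w x) ∈ (C x).pl.Fd := by
    filter_upwards [h.g0, hw.norm.eventually_le_const h₁,
      (h.vs0 e.1).1.norm.eventually_lt hw.norm (by simpa using h₀)] with x hg h2 h3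
    have h4 : ‖(C x).τ e * w x‖ ≤ 2 * (C x).pl.ρ e := by
      rw [norm_mul]
      refine (mul_le_mul_of_nonneg_left h2 (norm_nonneg _)).trans_eq ?_
      change _ = 2 * (‖(C x).τ e‖ / (16 * γ))
      ring
    have h5 := (hg.1.toAdm.bb false).1
    refine ⟨by linarith [(hg.1.disc h4).2.2.1], ?_⟩
    rw [← hpt]
    refine hg.1.pl_ok.mem_fd ?_ h4
    rw [hg.1.mu_eq, norm_mul]
    exact mul_le_mul_of_nonneg_left h3.le (norm_nonneg _)
  have hq : ∀ j, Tendsto (fun x => (C x).L * (C x).rr (j, e.2) /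
      (1 + w x - exp ((C x).z.lu (j, e.2) - (C x).z.lu e))) l (𝓝 _) := fun j =>
    (h.rr (j, e.2)).div ((hw.const_add 1).sub ((h.zs.1 _).sub (h.zs.1 e)).cexp) (hden j).2
  have ht := (h.tau0 e).2.1
  refine ⟨?_, ?_⟩
  · have hA : Tendsto (fun x => (1 + (if e.2 then 0 else (C x).ℓ * (C x).D.b 0 /
        ((C x).τ e + (C x).τ e * w x)) + ∑ k, (C x).rr (k, e.2) /
          ((C x).τ e + (C x).τ e * w x - (C x).τ (k, e.2))) * (C x).τ e * (C x).L) l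
        (𝓝 ((if e.2 then -D₀.b 1 else D₀.b 0) * (cf D₀ z₀).E * z₀.Psi e w₀)) := by
      have h2 : Tendsto (fun x => if e.2 then (0 : ℂ) else
          (((C x).L * (C x).ℓ : ℝ) : ℂ) * (C x).D.b 0 / (1 + w x)) l (𝓝 (if e.2 then 0 else
          ((-((cf D₀ z₀).E * (γ + 1 / 2 + z₀.mean.re)) : ℝ) : ℂ) * D₀.b 0 / (1 + w₀))) := by
        split_ifs
        · exact tendsto_const_nhds
        · exact ((Dat.DatC_re h.ell).mul (Dat.DatC_re (h.bb false))).div (hw.const_add 1)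
            (hden e.1).1
      have h3 := (ht.add h2).add (tendsto_finsetSum Finset.univ fun j _ => hq j)
      convert h3 using 2 with x
      · rw [add_mul, add_mul, add_mul, add_mul, one_mul, mul_comm ((C x).τ e), Finset.sum_mul,
          Finset.sum_mul]
        congr 1
        · congr 1
          split_ifs
          · simp
          · rw [← mul_one_add, CfF2_div (Cfg.τ_ne e), ofReal_mul, mul_assoc]
        · exact Finset.sum_congr rfl fun j _ => by rw [CfF2_rat, CfF2_div (Cfg.τ_ne e)]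
      · rw [Zs.Psi, ← Finset.add_sum_erase _ _ (Finset.mem_univ e.1), sub_self, exp_zero,
          add_sub_cancel_left, mul_sub, mul_add, Finset.mul_sum]
        simp only [mul_div_assoc]
        split_ifs
        · ring
        · push_cast
          ring
    have hE : Tendsto (fun x => ((C x).wd.ψs e.2 ((C x).c e + (C x).τ e * w x) -
        (1 + (if e.2 then 0 else (C x).ℓ * (C x).D.b 0 /
        ((C x).τ e + (C x).τ e * w x)) + ∑ k, (C x).rr (k, e.2) /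
          ((C x).τ e + (C x).τ e * w x - (C x).τ (k, e.2)))) * (C x).τ e * (C x).L) l (𝓝 0) := by
      refine Asymptotics.IsLittleO.tendsto_zero_of_tendsto (Asymptotics.isLittleO_iff.2 ?_)
        (ht.norm.add (tendsto_finsetSum Finset.univ fun j _ => (hq j).norm))
      intro ε hε
      filter_upwards [h.pss ε hε, hF] with x h2 h3
      have h4 := mul_le_mul_of_nonneg_right (h2 _ _ h3.2) (norm_nonneg ((C x).τ e * (C x).L))
      rw [← hpt, ← norm_mul, ← mul_assoc] at h4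
      refine h4.trans ?_
      rw [mul_assoc]
      refine mul_le_mul_of_nonneg_left (le_trans (le_of_eq ?_) (le_abs_self _)) hε.le
      rw [add_mul, one_mul, mul_comm ((C x).τ e), Finset.sum_mul]
      congr 1
      refine Finset.sum_congr rfl fun j _ => ?_
      rw [← norm_div, ← norm_mul, CfF2_rat, ← CfF2_div (Cfg.τ_ne e), mul_assoc,
        mul_comm ((C x).L : ℂ)]
    simpa only [← add_mul, sub_add_cancel, zero_add] using hE.add hA
  · refine Metric.tendsto_nhds.2 fun ε hε => ?_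
    filter_upwards [h.psr _ (half_pos hε), hF] with x h2 h3
    rw [dist_eq_norm, hpt]
    exact (h2 _ _ h3.1 h3.2).trans_lt (half_lt_self hε)

end Pool.Agent.MP_92463a_gt
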