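import Pool.Agent.MP_92463a_gt.CfF2

open Set Complex Filter Metric
open scoped Topology ComplexConjugate ContDiff Manifold

noncomputable section

namespace Pool.Agent.MP_92463a_gt

variable {γ : ℕ} {α : Type} {l : Filter α} {C : α → Cfg γ} {D₀ : Dat} {z₀ : Zs γ}

theorem CfG_lt (hγ : 0 < γ) : (0 : ℝ) < 1 / (16 * γ) ∧ (1 / (16 * γ) : ℝ) < 1 / (8 * γ) ∧
    (1 / (8 * γ) : ℝ) ≤ 1 / 8 := by
  have h1 : (1 : ℝ) ≤ γ := by exact_mod_cast hγ
  refine ⟨by positivity, ?_, ?_⟩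
  · exact one_div_lt_one_div_of_lt (by positivity) (by linarith)
  · exact one_div_le_one_div_of_le (by norm_num) (by linarith)

theorem CfG_slit (hγ : 0 < γ) {w : ℂ} (hw : ‖w‖ < 1 / (8 * γ)) : 1 + w ∈ slitPlane :=
  mem_slitPlane_of_norm_lt_one (by linarith [(CfG_lt hγ).2.2])

theorem CfG_ne {z : Zs γ} (hγ : 0 < γ) (h : ‖z‖ ≤ 1 / (100 * γ)) (e : Fin γ × Bool) {j : Fin γ}
    (hj : j ≠ e.1) {w : ℂ} (hw : ‖w‖ < 1 / (8 * γ)) :
    1 + w - exp (z.lu (j, e.2) - z.lu e) ≠ 0 := by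
  obtain ⟨k, b⟩ := e
  have h1 : (1 : ℝ) ≤ γ := by exact_mod_cast hγ
  intro h0
  have hs := (Zs.sep hγ h hj b).2
  have hn : ‖exp (z.lu (k, b))‖ ≤ 2 := by
    have h3 := Zs.small hγ h k
    have h5 : (6 : ℝ) / (100 * γ) ≤ 1 := by
      rw [div_le_one (by positivity)]
      linarith
    have h6 : (2 : ℝ) / (100 * γ) ≤ 3 / (100 * γ) := by gcongr; norm_num
    have key : ∀ x : ℝ, ‖z.lu (k, b) - I * x‖ ≤ 3 / (100 * γ) → ‖exp (z.lu (k, b))‖ ≤ 2 :=
      fun x hx => by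
        have h4 := ZsB_near hγ hx
        have h7 : ‖exp (I * x)‖ = 1 := by rw [mul_comm, norm_exp_ofReal_mul_I]
        linarith [norm_sub_norm_le (exp (z.lu (k, b))) (exp (I * x))]
    cases b
    · exact key _ (h3.2.2.2.1.trans h6)
    · exact key (Real.pi - ang γ k) (by simpa using h3.2.2.2.2)
  have e1 : exp (z.lu (j, b)) - exp (z.lu (k, b)) = w * exp (z.lu (k, b)) := by
    rw [exp_sub] at h0
    have := exp_ne_zero (z.lu (k, b))
    field_simp at h0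
    linear_combination -h0
  rw [e1, norm_mul] at hs
  have h8 : (3 : ℝ) / γ = 24 * (1 / (8 * γ)) := by field_simp; norm_num
  have h9 : (0 : ℝ) < 1 / (8 * γ) := by positivity
  nlinarith [norm_nonneg w, norm_nonneg (exp (z.lu (k, b)))]

/-- the regular part of the rescaled spinor -/
def CfG_reg (z : Zs γ) (e : Fin γ × Bool) (w : ℂ) : ℂ :=
  ∑ j ∈ Finset.univ.erase e.1, z.eh j / (1 + w - exp (z.lu (j, e.2) - z.lu e)) -
    if e.2 then 0 else (γ + 1 / 2 + z.mean.re) / (1 + w)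

theorem CfG_hol {z : Zs γ} (hγ : 0 < γ) (h : ‖z‖ ≤ 1 / (100 * γ)) (e : Fin γ × Bool) :
    DifferentiableOn ℂ (CfG_reg z e) (ball 0 (1 / (8 * γ))) := by
  refine DifferentiableOn.sub (DifferentiableOn.fun_sum fun j hj => ?_) ?_
  · exact (differentiableOn_const _).div (by fun_prop) fun w hw =>
      CfG_ne hγ h e (Finset.ne_of_mem_erase hj) (mem_ball_zero_iff.1 hw)
  · split_ifs
    · exact differentiableOn_const _
    · exact (differentiableOn_const _).div (by fun_prop) fun w hw =>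
        slitPlane_ne_zero (CfG_slit hγ (mem_ball_zero_iff.1 hw))

theorem CfG_reg0 (z : Zs γ) (e : Fin γ × Bool) :
    3 / 4 * z.eh e.1 + CfG_reg z e 0 = z.fc e - if e.2 then 0 else (γ + 1 / 2 + z.mean.re) := by
  have h1 : ∀ a b c : ℂ, c / (1 - exp (b - a)) = c * exp a / (exp a - exp b) := fun a b c => by
    have h2 : exp a - exp b = exp a * (1 - exp (b - a)) := by
      rw [exp_sub]
      field_simp
    rw [h2, mul_comm c, mul_div_mul_left _ _ (exp_ne_zero a)]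
  simp only [CfG_reg, Zs.fc, add_zero, div_one, h1]
  split_ifs <;> push_cast <;> ring

theorem Zs.av_Psi {z : Zs γ} (hγ : 0 < γ) (h : ‖z‖ ≤ 1 / (100 * γ)) (e : Fin γ × Bool) :
    ContinuousOn (z.Psi e) {w | ‖w‖ = 1 / (16 * γ)} ∧
    av (1 / (16 * γ)) (fun w => z.Psi e w * w) = z.eh e.1 ∧
    av (1 / (16 * γ)) (fun w => (exp (3 / 4 * log (1 + w)) * z.Psi e w) ^ 2 * w) =
      2 * z.eh e.1 * (z.fc e - if e.2 then 0 else (γ + 1 / 2 + z.mean.re)) := by
  obtain ⟨h0, h1, h2⟩ := CfG_lt hγ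
  have hr := CfG_hol hγ h e
  have hP : ∀ w, z.Psi e w = z.eh e.1 / w + CfG_reg z e w := fun w => by
    simp only [Zs.Psi, CfG_reg]
    ring
  have hne : ∀ w : ℂ, ‖w‖ = 1 / (16 * γ) → w ≠ 0 := fun w hw => norm_pos_iff.1 (hw ▸ h0)
  have hg : DifferentiableOn ℂ (fun w => z.eh e.1 + w * CfG_reg z e w) (ball 0 (1 / (8 * γ))) :=
    (differentiableOn_const _).add (differentiableOn_id.mul hr)
  refine ⟨?_, ?_, ?_⟩
  · rw [funext hP]
    exact (continuousOn_const.div continuousOn_id hne).add (hr.continuousOn.mono fun w hw =>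
      mem_ball_zero_iff.2 (lt_of_eq_of_lt hw h1))
  · rw [av_congr h0.le (g := fun w => z.eh e.1 + w * CfG_reg z e w) fun w hw => by
      rw [hP]; field_simp [hne w hw], av_center h0.le h1 hg]
    simp
  · have hm : DifferentiableOn ℂ (fun w => exp (3 / 4 * log (1 + w))) (ball 0 (1 / (8 * γ))) :=
      (((differentiableOn_const _).add differentiableOn_id).clog fun w hw =>
        CfG_slit hγ (mem_ball_zero_iff.1 hw)).const_mul _ |>.cexp
    rw [av_congr h0.le (g := fun w => (exp (3 / 4 * log (1 + w)) *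
      (z.eh e.1 + w * CfG_reg z e w)) ^ 2 / w) fun w hw => by
        rw [hP]; field_simp [hne w hw], av_deriv h0 h1 ((hm.fun_mul hg).fun_pow 2), ← CfG_reg0]
    have d1 : HasDerivAt (fun w : ℂ => exp (3 / 4 * log (1 + w))) (3 / 4) 0 := by
      have := ((((hasDerivAt_id (0 : ℂ)).const_add 1).clog (by simp)).const_mul (3 / 4)).cexp
      simpa using this
    have d2 := (hr.differentiableAt (ball_mem_nhds 0 (h0.trans h1))).hasDerivAt
    have d3 := ((d1.mul (((hasDerivAt_id (0 : ℂ)).mul d2).const_add (z.eh e.1))).pow 2).deriv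
    refine (congrArg (deriv · 0) (funext fun w => ?_)).trans (d3.trans ?_)
    · rfl
    · simp

theorem CfG_rs [l.NeBot] (h : Lim l C D₀ z₀) (e : Fin γ × Bool) {d : α → ℂ} {n₀ : ℂ}
    (hn : Tendsto (fun x => d x * (if e.2 then ((C x).Ge e 0 * (C x).c e)⁻¹ else
      (C x).Ge e 0 / (C x).c e) / ((C x).τ e * (C x).L ^ 2)) l (𝓝 n₀)) :
    Tendsto (fun x => d x * (C x).pl.rs (C x).wd.fs e) l
      (𝓝 (n₀ * ((if e.2 then -D₀.b 1 else D₀.b 0) * (cf D₀ z₀).E) ^ 2 *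
        (2 * z₀.eh e.1 * (z₀.fc e - if e.2 then 0 else (γ + 1 / 2 + z₀.mean.re))))) := by
  have hγ := h.adm₀.pos
  obtain ⟨h0, h1, h2⟩ := CfG_lt hγ
  obtain ⟨p1, -, p3⟩ := Zs.av_Psi (z := z₀) hγ h.adm₀.small e
  simp only [Pl.rs, ← av_const_mul]
  erw [← p3, ← av_const_mul]
  refine av_tendsto (s := fun x => (C x).τ e) h0.le ?_ ?_ fun w hw => ?_
  · filter_upwards [h.ok] with x hx
    refine ⟨by simp only [Cfg.pl]; ring, continuousOn_const.mul (ContinuousOn.mul ?_ continuousOn_id)⟩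
    unfold Wd.fs
    split_ifs
    · exact (hx.m2.hol e).continuousOn.mono fun _ hv => hx.pl.circ_mem hv
    · exact (hx.m1.hol e).continuousOn.mono fun _ hv => hx.pl.circ_mem hv
  · refine continuousOn_const.mul (((ContinuousOn.mul ?_ p1).pow 2).mul continuousOn_id)
    exact (continuousOn_const.mul ((continuousOn_const.add continuousOn_id).clog fun w hw =>
      CfG_slit hγ (lt_of_eq_of_lt hw h1))).cexp
  · have h' := h.comp (l' := l ×ˢ 𝓝[{w : ℂ | ‖w‖ = 1 / (16 * γ)}] w) tendsto_fst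
    have hw' : Tendsto (fun z : α × ℂ => z.2) (l ×ˢ 𝓝[{w : ℂ | ‖w‖ = 1 / (16 * γ)}] w) (𝓝 w) :=
      tendsto_snd.mono_right nhdsWithin_le_nhds
    have q1 := (h'.psi_sc e hw' (norm_pos_iff.1 (hw ▸ h0)) (hw ▸ h1)).1
    have q2 := h'.m_sc e hw' (hw ▸ h1)
    have q3 : Tendsto (fun z : α × ℂ => if e.2 then (C z.1).m2 e ((C z.1).τ e * z.2) else
        (C z.1).m1 e ((C z.1).τ e * z.2)) (l ×ˢ 𝓝[{w : ℂ | ‖w‖ = 1 / (16 * γ)}] w)
        (𝓝 (exp (3 / 4 * log (1 + w)))) := by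
      split_ifs with hb
      · simpa [hb, jj, sg] using q2.2
      · simpa [hb, jj, sg] using q2.1
    have q4 := (hn.comp tendsto_fst).mul (((q3.mul q1).pow 2).mul hw')
    refine (q4.congr' ?_).mono_right (le_of_eq (congrArg _ (by ring)))
    filter_upwards [h'.g0, tendsto_snd.eventually self_mem_nhdsWithin] with z hz hz2
    have hv : ‖(C z.1).τ e * z.2‖ ≤ 2 * (C z.1).pl.ρ e := by
      have : ‖z.2‖ = 1 / (16 * γ) := hz2
      have h3 : (C z.1).pl.ρ e = ‖(C z.1).τ e‖ * (1 / (16 * γ)) := by simp only [Cfg.pl]; ring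
      rw [norm_mul, this, h3]
      linarith [mul_nonneg (norm_nonneg ((C z.1).τ e)) h0.le]
    have h4 := hz.1.f_eq hv
    have h5 := Cfg.τ_ne (C := C z.1) e
    have h6 : ((C z.1).L : ℂ) ≠ 0 := ofReal_ne_zero.2 (by linarith [hz.1.L])
    simp only [Function.comp, Wd.fs, Wd.ψs]
    split_ifs
    · rw [h4.2.1]
      field_simp
    · rw [h4.1]
      field_simp

theorem CfG_Ge (C : Cfg γ) (k : Fin γ) :
    C.Ge (k, false) 0 = -I * Real.exp (C.D.A 0) * exp (C.lg (k, false) / 2) * C.τ (k, false) *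
      exp (C.D.lam 0 (C.τ (k, false))) ∧
    C.Ge (k, true) 0 * C.τ (k, true) * exp (C.lg (k, true) / 2) =
      -Real.exp (C.D.A 1) * exp (C.D.lam 1 (C.τ (k, true))) := by
  have e1 : exp (((-(Real.pi / 2) : ℝ) : ℂ) * I) = -I := by
    rw [← exp_neg_pi_div_two_mul_I]
    congr 1
    push_cast
    ring
  constructor
  · rw [Cfg.Ge, (Cfg.dG_zero _).1, ← e1, ofReal_exp, Cfg.τ]
    simp only [← exp_add, jj, sg, ph]
    congr 1
    simp
    ring
  · rw [Cfg.Ge, (Cfg.dG_zero _).1, ofReal_exp, ← neg_one_mul, ← exp_pi_mul_I]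
    nth_rw 2 [Cfg.τ]
    simp only [← exp_add, jj, sg, ph]
    congr 1
    simp
    ring

theorem CfG_conj {C : Cfg γ} (h : C.Adm) (k : Fin γ) :
    (C.D.b 1 : ℂ) * conj (exp (C.lg (k, true) / 2)) =
      -(Real.exp (C.D.A 1) * C.θ0 k * conj (exp (C.z.2.2.2 k / 2))) := by
  obtain ⟨h0, -, h1⟩ := h.bb true
  have h2 : 0 < C.D.b 1 := by linarith
  have e0 : conj (C.lg (k, true) / 2) = ((C.lk true / 2 : ℝ) : ℂ) + -Real.pi / 2 * I +
      C.lg (k, false) / 2 + conj (C.z.2.2.2 k / 2) := by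
    simp only [Cfg.lg, Zs.lu, Cfg.lk, map_div₀, map_add, map_mul, map_sub, conj_I, conj_ofReal,
      conj_conj, map_ofNat]
    simp
    ring
  have e1 : C.D.b 1 * Real.exp (C.lk true / 2) =
      C.D.b 0 * Real.exp (C.D.A 0) * Real.exp (C.D.A 1) := by
    have : C.lk true / 2 = C.D.A 0 + C.D.A 1 + Real.log (C.D.b 0) - Real.log (C.D.b 1) := by
      simp [Cfg.lk]
    rw [this, Real.exp_sub, Real.exp_add, Real.exp_add, Real.exp_log h0, Real.exp_log h2]
    field_simp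
  have e2 := congrArg ofReal e1
  rw [← exp_conj, ← exp_conj, e0, exp_add, exp_add, exp_add, exp_neg_pi_div_two_mul_I,
    ← ofReal_exp, Cfg.θ0]
  simp only [ofReal_mul] at e2 ⊢
  linear_combination (-I * exp (C.lg (k, false) / 2) * exp (conj (C.z.2.2.2 k / 2))) * e2

theorem Lim.eF (h : Lim l C D₀ z₀) (k : Fin γ) :
    Tendsto (fun x => (C x).eF k) l (𝓝 (z₀.lim.1 k)) := by
  rcases l.eq_or_neBot with rfl | hl
  · exact tendsto_bot
  have a₀ := h.adm₀
  obtain ⟨b0, -, b1⟩ := a₀.bb true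
  have hb0 : (D₀.b 0 : ℂ) ≠ 0 := ofReal_ne_zero.2 b0.ne'
  have hb1 : (D₀.b 1 : ℂ) ≠ 0 := ofReal_ne_zero.2 (show (0 : ℝ) < D₀.b 1 from by
    change 0 < D₀.b 0 at b0
    change 5 * D₀.b 0 < D₀.b 1 at b1
    linarith).ne'
  have hE0 : ((cf D₀ z₀).E : ℂ) ≠ 0 := ofReal_ne_zero.2 a₀.E_pos.ne'
  have hE : Tendsto (fun x => ((C x).E : ℂ)) l (𝓝 (cf D₀ z₀).E) :=
    (continuous_ofReal.tendsto _).comp h.E
  have hB : ∀ b, Tendsto (fun x => ((C x).D.b (jj b) : ℂ)) l (𝓝 (D₀.b (jj b))) := fun b =>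
    (continuous_ofReal.tendsto _).comp (h.bb b)
  have hlam : ∀ b, Tendsto (fun x => exp ((C x).D.lam (jj b) ((C x).τ (k, b)))) l (𝓝 1) :=
    fun b => by
      have := (h.D.lam (a₀.jj_lt b) (h.tau0 (k, b)).1 (by rw [norm_zero]; exact half_pos b0)).cexp
      rwa [Dat.lam_zero, exp_zero] at this
  have t1 := CfG_rs h (k, false)
    (d := fun x => (2 * (C x).θ0 k * (((C x).E / (C x).L : ℝ) : ℂ) ^ 2)⁻¹)
    (n₀ := -1 / (2 * D₀.b 0 * (cf D₀ z₀).E ^ 2 * -D₀.b 0)) (by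
      refine ((hlam false).neg.div (((tendsto_const_nhds.mul (hB false)).mul (hE.pow 2)).mul
        (h.tau0 (k, false)).2.2.1) (by simp [jj, hb0, hE0])).congr' ?_
      filter_upwards [h.g0] with x hx
      have h1 := (hx.1.c_bd (k, false)).1
      have h2 := Cfg.τ_ne (C := C x) (k, false)
      have h3 : ((C x).L : ℂ) ≠ 0 := ofReal_ne_zero.2 (by linarith [hx.1.L])
      have h4 : ((C x).E : ℂ) ≠ 0 := ofReal_ne_zero.2 hx.1.E_pos.ne'
      have h5 : ((C x).D.b 0 : ℂ) ≠ 0 := ofReal_ne_zero.2 (hx.1.bb false).1.ne'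
      have h6 : ((Real.exp ((C x).D.A 0) : ℝ) : ℂ) ≠ 0 := ofReal_ne_zero.2 (Real.exp_ne_zero _)
      simp only [Pi.div_apply, (CfG_Ge _ k).1, Cfg.θ0, jj, ofReal_mul, ofReal_div,
        Bool.false_eq_true, if_false]
      field_simp)
  have t2 := CfG_rs h (k, true)
    (d := fun x => exp ((C x).z.2.2.2 k / 2) * Real.exp ((C x).D.A 1) /
      (2 * ((C x).D.b 1 * exp ((C x).lg (k, true) / 2)) * (((C x).E / (C x).L : ℝ) : ℂ) ^ 2))
    (n₀ := -exp (z₀.2.2.2 k / 2) / (2 * D₀.b 1 * (cf D₀ z₀).E ^ 2 * -D₀.b 1 * 1)) (by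
      refine (((h.zs.2.2.2 k).div_const 2).cexp.neg.div ((((tendsto_const_nhds.mul (hB true)).mul
        (hE.pow 2)).mul (h.tau0 (k, true)).2.2.1).mul (hlam true))
        (by simp [jj, hb1, hE0])).congr' ?_
      filter_upwards [h.g0] with x hx
      have h1 := (hx.1.c_bd (k, true)).1
      have h2 := Cfg.τ_ne (C := C x) (k, true)
      have h3 : ((C x).L : ℂ) ≠ 0 := ofReal_ne_zero.2 (by linarith [hx.1.L])
      have h4 : ((C x).E : ℂ) ≠ 0 := ofReal_ne_zero.2 hx.1.E_pos.ne'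
      have h5 : ((C x).D.b 1 : ℂ) ≠ 0 :=
        ofReal_ne_zero.2 (by linarith [(hx.1.bb true).1, (hx.1.bb true).2.2])
      have h6 : ((Real.exp ((C x).D.A 1) : ℝ) : ℂ) ≠ 0 := ofReal_ne_zero.2 (Real.exp_ne_zero _)
      have h7 : (C x).Ge (k, true) 0 = -Real.exp ((C x).D.A 1) *
          exp ((C x).D.lam 1 ((C x).τ (k, true))) /
            ((C x).τ (k, true) * exp ((C x).lg (k, true) / 2)) := by
        rw [← (CfG_Ge _ k).2]
        field_simp
      simp only [Pi.div_apply, h7, jj, ofReal_div, if_true]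
      field_simp)
  have t3 := t1.add ((continuous_conj.tendsto _).comp t2)
  refine (t3.congr' ?_).mono_right (le_of_eq (congrArg _ ?_))
  · filter_upwards [h.g0] with x hx
    have h3 : ((C x).L : ℂ) ≠ 0 := ofReal_ne_zero.2 (by linarith [hx.1.L])
    have h4 : ((C x).E : ℂ) ≠ 0 := ofReal_ne_zero.2 hx.1.E_pos.ne'
    have h5 : ((C x).D.b 0 : ℂ) ≠ 0 := ofReal_ne_zero.2 (hx.1.bb false).1.ne'
    have h6 : ((Real.exp ((C x).D.A 1) : ℝ) : ℂ) ≠ 0 := ofReal_ne_zero.2 (Real.exp_ne_zero _)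
    have h7 : (C x).θ0 k ≠ 0 := mul_ne_zero (mul_ne_zero I_ne_zero
      (ofReal_ne_zero.2 (mul_pos (hx.1.bb false).1 (Real.exp_pos _)).ne')) (exp_ne_zero _)
    have h8 : conj (exp ((C x).z.2.2.2 k / 2)) ≠ 0 := (map_ne_zero _).2 (exp_ne_zero _)
    have e1 : (C x).pl.rs (C x).wd.fs (k, false) = (C x).pl.rs (C x).wd.f1 (k, false) := rfl
    have e2 : (C x).pl.rs (C x).wd.fs (k, true) = (C x).pl.rs (C x).wd.f2 (k, true) := rfl
    simp only [Function.comp, Cfg.eF, e1, e2, map_mul, map_div₀, map_pow, conj_ofReal, map_ofNat,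
      CfG_conj hx.1.toAdm k]
    simp only [ofReal_div]
    field_simp
    ring
  · have hm : z₀.mean.im = 0 := a₀.mean_im
    simp only [Zs.lim, hm, Bool.false_eq_true, if_false, if_true, sub_zero, ofReal_zero, mul_zero,
      add_zero]
    congr 1
    · push_cast
      field_simp
      ring
    · congr 1
      push_cast
      field_simp

end Pool.Agent.MP_92463a_gt
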