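import Pool.Agent.MP_92463a_gt.PlB
import Pool.Agent.MP_92463a_gt.Cau2

open Set Complex Filter Metric
open scoped Topology ComplexConjugate ContDiff Manifold

noncomputable section

namespace Pool.Agent.MP_92463a_gt

namespace Pl

variable {ι : Type} {P : Pl ι} {φ : ι × Bool → ℂ → ℂ}

theorem MFa_lt (h : P.Ok) (e : ι × Bool) : P.rin e < P.mu e ∧ P.mu e < P.ρ e := by
  have h1 := h.rin_pos e
  have h2 := h.rin_mu e
  have h3 := h.mu_ρ e
  constructor <;> linarith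

theorem MFa_cont (hφ : P.MF φ) (h : P.Ok) (e : ι × Bool) :
    ContinuousOn (fun v => φ e v * v) {v | ‖v‖ = P.ρ e} :=
  ((hφ.hol e).continuousOn.mono fun _ hv => h.circ_mem hv).mul continuousOn_id

theorem MFa_ne (h : P.Ok) {e : ι × Bool} {v : ℂ} (hv : ‖v‖ = P.ρ e) : v ≠ 0 := by
  rw [← norm_pos_iff, hv]
  exact h.ρ_pos e

theorem MFa_sub_ne (h : P.Ok) {e : ι × Bool} {v u : ℂ} (hv : ‖v‖ = P.ρ (op e))
    (hu : P.rin e < ‖u‖) : u - P.s e.1 / v ≠ 0 := by
  intro h0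
  rw [sub_eq_zero.mp h0, h.circ_rin hv] at hu
  exact lt_irrefl _ hu

theorem MFa_slit (h : P.Ok) {e : ι × Bool} {v u : ℂ} (hv : ‖v‖ = P.ρ (op e))
    (hu : P.rin e < ‖u‖) : 1 - P.s e.1 / v / u ∈ slitPlane := by
  rw [sub_eq_add_neg]
  refine mem_slitPlane_of_norm_lt_one ?_
  rw [norm_neg, norm_div, h.circ_rin hv, div_lt_one ((h.rin_pos e).trans hu)]
  exact hu

theorem MFa_open (r : ℝ) : IsOpen {u : ℂ | r < ‖u‖} := isOpen_lt continuous_const continuous_norm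

theorem MFa_cont2 (hφ : P.MF φ) (h : P.Ok) (e : ι × Bool) (U : Set ℂ) :
    ContinuousOn (fun z : ℂ × ℂ => φ e z.1 * z.1) {z | ‖z.1‖ = P.ρ e ∧ z.2 ∈ U} :=
  (MFa_cont hφ h e).comp continuousOn_fst fun _ hz => hz.1

theorem MFa_cont3 (h : P.Ok) (e : ι × Bool) (a : ℂ) (U : Set ℂ) :
    ContinuousOn (fun z : ℂ × ℂ => a / z.1) {z | ‖z.1‖ = P.ρ e ∧ z.2 ∈ U} :=
  continuousOn_const.div continuousOn_fst fun _ hz => MFa_ne h hz.1

theorem MF.rs_op (hφ : P.MF φ) (h : P.Ok) (e : ι × Bool) : P.rs φ (op e) = -P.rs φ e := by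
  have key : ∀ e, P.rs φ e = av (P.mu e) fun v => φ e v * v := fun e =>
    av_radius (r₂ := 2 * P.ρ e) (h.rin_pos e).le ((hφ.hol e).mul differentiableOn_id)
      ((MFa_lt h e).1.trans (MFa_lt h e).2) (by linarith [h.ρ_pos e]) (MFa_lt h e).1
      (by linarith [h.ρ_pos e, (MFa_lt h e).2])
  have hm : 0 < P.mu e := (h.rin_pos e).trans (MFa_lt h e).1
  have h1 : P.mu (op e) = ‖P.s e.1‖ / P.mu e := by
    rw [← h.mu_mul e, mul_div_cancel_left₀ _ hm.ne']
  rw [key, key, h1, ← av_inv (h.s_ne _) hm, ← neg_one_mul, ← av_const_mul]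
  refine av_congr hm.le fun v hv => ?_
  have hv' : v ∈ P.Ann e := ⟨hv ▸ (MFa_lt h e).1, hv ▸ (MFa_lt h e).2⟩
  have h0 := h.ann_ne hv'
  rw [hφ.mt e v hv']
  field_simp

theorem MF.pf_hol (hφ : P.MF φ) (h : P.Ok) (e : ι × Bool) :
    DifferentiableOn ℂ (P.pf φ e) {u | P.rin e < ‖u‖} := by
  refine (av_hol (h.ρ_pos _).le (MFa_open _)
    (k := fun v u => φ (op e) v * v / (u - P.s e.1 / v)) ?_ fun v hv => ?_).neg
  · exact (MFa_cont2 hφ h _ _).div (continuousOn_snd.sub (MFa_cont3 h _ _ _))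
      fun z hz => MFa_sub_ne h hz.1 hz.2
  · exact (differentiableOn_const _).div (differentiableOn_id.sub_const _)
      fun u hu => MFa_sub_ne h hv hu

theorem MF.pf_ext (hφ : P.MF φ) (h : P.Ok) (e : ι × Bool) :
    ∃ k : ℂ → ℂ, DifferentiableOn ℂ k (ball 0 (2 * P.ρ e)) ∧
      ∀ v ∈ P.Ann2 e, φ e v = k v + P.pf φ e v := by
  obtain ⟨g, hg, hg'⟩ := laurent (k := fun v => -1 * (φ (op e) v * v)) (r₂ := 2 * P.ρ (op e))
    (h.s_ne e.1) (h.rin_pos (op e)) ((MFa_lt h _).1.trans (MFa_lt h _).2)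
    (by linarith [h.ρ_pos (op e)]) (((hφ.hol _).mul differentiableOn_id).const_mul _)
  have h1 : ‖P.s e.1‖ / P.rin (op e) = P.ρ e := by
    have := h.rin_mul (op e)
    rw [op_op, op_fst] at this
    rw [← this, mul_div_cancel_left₀ _ (h.rin_pos _).ne']
  rw [h1] at hg hg'
  have key := fill_discs (ι := Unit) (V := ball 0 (2 * P.ρ e)) isOpen_ball
    (c := fun _ => 0) (r := fun _ => P.rin e) (ρ := fun _ => P.ρ e)
    (fun _ => (MFa_lt h _).1.trans (MFa_lt h _).2) (fun _ _ hne => absurd rfl hne)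
    (f := fun v => φ e v - P.pf φ e v) (h := fun _ => g)
  refine (key ?_ (fun _ => hg) ?_).imp fun k ⟨hk, hk'⟩ => ⟨hk, fun v hv => ?_⟩
  rotate_left 2
  · rw [hk' v (mem_ball_zero_iff.mpr hv.2) fun _ => by simpa using hv.1, sub_add_cancel]
  · refine ((hφ.hol e).mono fun v hv => ⟨by simpa using hv.2 (), mem_ball_zero_iff.mp hv.1⟩).sub
      ((hφ.pf_hol h e).mono fun v hv => by simpa using hv.2 ())
  · intro _ v h2 h3 _
    have h4 := hg' v h2 h3
    have h0 := h.ann_ne (e := e) ⟨h2, h3⟩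
    simp only [mul_div_assoc (-1 : ℂ), av_const_mul] at h4
    rw [zero_add, hφ.mt e v ⟨h2, h3⟩, pf, sub_neg_eq_add]
    have h5 : -(P.s e.1 / v ^ 2) * φ (op e) (P.s e.1 / v) =
        -1 * (φ (op e) (P.s e.1 / v) * (P.s e.1 / v) / v) := by
      field_simp
    rw [h5, h4]
    ring

theorem MF.th_der (hφ : P.MF φ) (h : P.Ok) (e : ι × Bool) {u : ℂ} (hu : P.rin e < ‖u‖) :
    HasDerivAt (P.th φ e) (P.pf φ e u - P.rs φ e / u) u := by
  have hne : ∀ {w : ℂ}, P.rin e < ‖w‖ → w ≠ 0 := fun hw =>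
    norm_pos_iff.mp ((h.rin_pos e).trans hw)
  have c1 : ContinuousOn (fun z : ℂ × ℂ => φ (op e) z.1 * z.1 / (z.2 - P.s e.1 / z.1))
      {z | ‖z.1‖ = P.ρ (op e) ∧ z.2 ∈ {u : ℂ | P.rin e < ‖u‖}} :=
    (MFa_cont2 hφ h _ _).div (continuousOn_snd.sub (MFa_cont3 h _ _ _))
      fun z hz => MFa_sub_ne h hz.1 hz.2
  have h1 := av_hasDerivAt (h.ρ_pos (op e)).le (MFa_open (P.rin e))
    (k := fun v u => φ (op e) v * v * log (1 - P.s e.1 / v / u))
    (k' := fun v u => φ (op e) v * v / (u - P.s e.1 / v) - u⁻¹ * (φ (op e) v * v)) ?_ ?_ ?_ hu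
  · refine h1.neg.congr_deriv ?_
    rw [av_sub (h.ρ_pos _).le _ ((MFa_cont hφ h _).const_mul _), av_const_mul]
    · have h2 := hφ.rs_op h e
      rw [rs] at h2
      rw [h2, pf]
      ring
    · exact (MFa_cont hφ h _).div (continuousOn_const.sub (continuousOn_const.div continuousOn_id
        fun _ hz => MFa_ne h hz)) fun z hz => MFa_sub_ne h hz hu
  · exact (MFa_cont2 hφ h _ _).mul ((continuousOn_const.sub ((MFa_cont3 h _ _ _).div
      continuousOn_snd fun z hz => hne hz.2)).clog fun z hz => MFa_slit h hz.1 hz.2)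
  · exact c1.sub ((continuousOn_snd.inv₀ fun z hz => hne hz.2).mul (MFa_cont2 hφ h _ _))
  · intro v hv w hw
    have h0 := hne hw
    have h2 := MFa_sub_ne h hv hw
    have h3 := (((hasDerivAt_const w (P.s e.1 / v)).div (hasDerivAt_id w) h0).const_sub 1).clog
      (MFa_slit h hv hw)
    refine (h3.const_mul (φ (op e) v * v)).congr_deriv ?_
    generalize P.s e.1 / v = a at h2 ⊢
    have h4 : 1 - a / w = (w - a) / w := by field_simp
    simp only [Pi.div_apply, id]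
    rw [h4]
    field_simp
    ring

theorem th_bd (h : P.Ok) {e : ι × Bool} {M : ℝ}
    (hM : ∀ v, ‖v‖ = P.ρ (op e) → ‖φ (op e) v * v‖ ≤ M) {u : ℂ} (hu : 2 * P.rin e ≤ ‖u‖) :
    ‖P.th φ e u‖ ≤ 2 * M * P.rin e / ‖u‖ := by
  have h1 := h.rin_pos e
  have h0 : 0 < ‖u‖ := by linarith
  rw [th, norm_neg]
  refine av_norm_le (h.ρ_pos _).le fun v hv => ?_
  have h2 : ‖-(P.s e.1 / v / u)‖ = P.rin e / ‖u‖ := by rw [norm_neg, norm_div, h.circ_rin hv]
  have h3 := norm_log_one_add_half_le_self (z := -(P.s e.1 / v / u))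
    (by rw [h2, div_le_iff₀ h0]; linarith)
  have h4 := hM v hv
  have h5 := div_pos h1 h0
  rw [h2, ← sub_eq_add_neg] at h3
  rw [norm_mul, mul_div_assoc]
  refine (mul_le_mul h4 h3 (norm_nonneg _) ((norm_nonneg _).trans h4)).trans ?_
  nlinarith [(norm_nonneg _).trans h4]

theorem MF.pf_infty (hφ : P.MF φ) (h : P.Ok) (e : ι × Bool) :
    Tendsto (fun t => P.pf φ e (t - P.c e) * t) (Bornology.cobounded ℂ) (𝓝 (P.rs φ e)) := by
  have h1 := h.rin_pos e
  set δ := (‖P.c e‖ + P.rin e)⁻¹ with hδ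
  have hp : 0 < ‖P.c e‖ + P.rin e := by positivity
  have hδ0 : 0 < δ := inv_pos.mpr hp
  have hne : ∀ x ∈ ball (0 : ℂ) δ, ∀ v, ‖v‖ = P.ρ (op e) →
      1 - (P.c e + P.s e.1 / v) * x ≠ 0 := by
    intro x hx v hv h0
    have h2 : ‖(P.c e + P.s e.1 / v) * x‖ < 1 := by
      rw [norm_mul]
      have h3 := norm_add_le (P.c e) (P.s e.1 / v)
      rw [h.circ_rin hv] at h3
      refine (mul_le_mul_of_nonneg_right h3 (norm_nonneg _)).trans_lt ?_
      rw [← mul_inv_cancel₀ hp.ne']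
      exact mul_lt_mul_of_pos_left (mem_ball_zero_iff.mp hx) hp
    rw [← sub_eq_zero.mp h0, norm_one] at h2
    exact lt_irrefl _ h2
  have h2 := av_contOn (S := ball (0 : ℂ) δ) (r := fun _ => P.ρ (op e))
    (k := fun x v => φ (op e) v * v / (1 - (P.c e + P.s e.1 / v) * x)) continuousOn_const
    (fun _ _ => (h.ρ_pos _).le)
    (((MFa_cont hφ h _).comp continuousOn_snd fun _ hz => hz.2).div (continuousOn_const.sub
      ((continuousOn_const.add (continuousOn_const.div continuousOn_snd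
        fun _ hz => MFa_ne h hz.2)).mul continuousOn_fst)) fun z hz => hne _ hz.1 _ hz.2)
  have h3 := ((h2.continuousAt (ball_mem_nhds 0 hδ0)).tendsto.comp tendsto_inv₀_cobounded).neg
  have h4 := hφ.rs_op h e
  rw [rs] at h4
  simp only [mul_zero, sub_zero, div_one, h4, neg_neg] at h3
  refine h3.congr' ?_
  filter_upwards [tendsto_inv₀_cobounded (ball_mem_nhds (0 : ℂ) hδ0),
    Bornology.eventually_ne_cobounded (0 : ℂ)] with t ht h0
  rw [pf, neg_mul, mul_comm, ← av_const_mul]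
  refine congrArg Neg.neg (av_congr (h.ρ_pos _).le fun v hv => ?_)
  have h5 := hne _ ht v hv
  generalize P.s e.1 / v = a at h5 ⊢
  have h6 : t - P.c e - a = (1 - (P.c e + a) * t⁻¹) * t := by
    field_simp
    ring
  rw [h6]
  field_simp

theorem MF.th_infty (hφ : P.MF φ) (h : P.Ok) (e : ι × Bool) :
    Tendsto (fun t => P.th φ e (t - P.c e)) (Bornology.cobounded ℂ) (𝓝 0) := by
  have hc : IsCompact {v : ℂ | ‖v‖ = P.ρ (op e)} := by
    simpa [sphere] using isCompact_sphere (0 : ℂ) (P.ρ (op e))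
  obtain ⟨M, hM⟩ := hc.exists_bound_of_continuousOn (MFa_cont hφ h (op e))
  have h1 := (tendsto_norm_cobounded_atTop (E := ℂ)).comp (tendsto_sub_const_cobounded (P.c e))
  refine squeeze_zero_norm' ?_ (tendsto_const_nhds.div_atTop (a := 2 * M * P.rin e) h1)
  filter_upwards [h1.eventually_ge_atTop (2 * P.rin e)] with t ht
  exact th_bd h hM ht

theorem rs_conj (h : P.Ok) {κ : ι → ι} (hs : P.Sy κ) {σ : ℝ}
    (hc : ∀ e : ι × Bool, ∀ v, ‖v‖ = P.ρ e → φ (κ e.1, e.2) (conj v) = σ * conj (φ e v))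
    (e : ι × Bool) : P.rs φ (κ e.1, e.2) = σ * conj (P.rs φ e) := by
  rw [rs, rs, hs.ρ, ← av_conj, ← av_const_mul]
  refine av_congr (h.ρ_pos _).le fun v hv => ?_
  have := hc e (conj v) (by rwa [norm_conj])
  rw [conj_conj] at this
  rw [this, map_mul, conj_conj, mul_assoc]

theorem th_conj (h : P.Ok) {κ : ι → ι} (hs : P.Sy κ) {σ : ℝ}
    (hc : ∀ e : ι × Bool, ∀ v, ‖v‖ = P.ρ e → φ (κ e.1, e.2) (conj v) = σ * conj (φ e v))
    (e : ι × Bool) {u : ℂ} (hu : P.rin e < ‖u‖) :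
    P.th φ (κ e.1, e.2) (conj u) = σ * conj (P.th φ e u) := by
  have h1 : op (κ e.1, e.2) = (κ (op e).1, (op e).2) := rfl
  rw [th, th, h1, hs.ρ, map_neg, ← av_conj, mul_neg, ← av_const_mul]
  refine congrArg Neg.neg (av_congr (h.ρ_pos _).le fun v hv => ?_)
  have hv' : ‖conj v‖ = P.ρ (op e) := by rwa [norm_conj]
  have := hc (op e) (conj v) hv'
  rw [conj_conj] at this
  rw [this, map_mul, map_mul, conj_conj, ← log_conj _ (slitPlane_arg_ne_pi (MFa_slit h hv' hu)),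
    hs.s]
  simp only [map_sub, map_one, map_div₀, conj_conj, mul_assoc]

theorem MF.decomp [Fintype ι] (hφ : P.MF φ) (h : P.Ok) {V : Set ℂ} (hV : IsOpen V) {f : ℂ → ℂ}
    (hf : DifferentiableOn ℂ f (V ∩ P.Om))
    (he : ∀ e, ∀ v ∈ P.Ann2 e, P.c e + v ∈ V → f (P.c e + v) = φ e v) :
    ∃ k : ℂ → ℂ, DifferentiableOn ℂ k V ∧
      ∀ t ∈ V ∩ P.Om, f t = k t + ∑ e, P.pf φ e (t - P.c e) := by
  classical
  choose g hg hg' using hφ.pf_ext h
  have key := fill_discs hV (c := P.c) (r := P.rin) (ρ := fun e => 2 * P.ρ e)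
    (fun e => by linarith [(MFa_lt h e).1, (MFa_lt h e).2, h.ρ_pos e]) h.sep
    (f := fun t => f t - ∑ e, P.pf φ e (t - P.c e))
    (h := fun e v => g e v - ∑ e' ∈ Finset.univ.erase e, P.pf φ e' (P.c e + v - P.c e'))
  refine (key ?_ ?_ ?_).imp fun k ⟨hk, hk'⟩ => ⟨hk, fun t ht => ?_⟩
  rotate_left 3
  · rw [hk' t ht.1 ht.2, sub_add_cancel]
  · exact hf.sub (DifferentiableOn.fun_sum fun e _ => (hφ.pf_hol h e).comp
      (differentiableOn_id.sub_const _) fun t ht => ht.2 e)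
  · refine fun e => (hg e).sub (DifferentiableOn.fun_sum fun e' he' => (hφ.pf_hol h e').comp
      ((differentiableOn_id.const_add _).sub_const _) fun v hv => ?_)
    have h1 := h.far (Finset.ne_of_mem_erase he').symm (mem_ball_zero_iff.mp hv).le
    change P.rin e' < ‖P.c e + v - P.c e'‖
    linarith [(MFa_lt h e').1, (MFa_lt h e').2, h.ρ_pos e']
  · intro e v h1 h2 h3
    rw [he e v ⟨h1, h2⟩ h3, hg' e v ⟨h1, h2⟩, ← Finset.add_sum_erase _ _ (Finset.mem_univ e),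
      add_sub_cancel_left]
    ring

end Pl

end Pool.Agent.MP_92463a_gt
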