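import Pool.Agent.MP_92463a_gt.CfG
import Pool.Agent.MP_92463a_gt.MFa

open Set Complex Filter Metric
open scoped Topology ComplexConjugate ContDiff Manifold

noncomputable section

namespace Pool.Agent.MP_92463a_gt

variable {γ : ℕ} {α : Type} {l : Filter α} {C : α → Cfg γ} {D₀ : Dat} {z₀ : Zs γ}

theorem CfH1_b (h : Lim l C D₀ z₀) (b : Bool) : 0 < D₀.b (jj b) := by
  have h1 := h.q
  refine h.D.ok₀.b_pos _ ?_
  cases b <;> simp [jj] <;> omega

theorem CfH1_one {f : α → ℂ} (h : ∀ ε > 0, ∀ᶠ x in l, ‖f x - 1‖ ≤ ε) : Tendsto f l (𝓝 1) := by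
  refine Metric.tendsto_nhds.2 fun ε hε => (h (ε / 2) (by positivity)).mono fun x hx => ?_
  rw [dist_eq_norm]
  linarith

theorem CfH1_r {γ : ℕ} (hγ : 0 < γ) {w : ℂ} (hw : ‖w‖ = 1 / (16 * γ)) :
    w ≠ 0 ∧ ‖w‖ < 1 / (8 * γ) := by
  have h1 : (0 : ℝ) < γ := by exact_mod_cast hγ
  refine ⟨fun h0 => ?_, ?_⟩
  · rw [h0, norm_zero] at hw
    have : (0 : ℝ) < 1 / (16 * γ) := by positivity
    linarith
  · rw [hw]
    exact one_div_lt_one_div_of_lt (by positivity) (by linarith)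

theorem Lim.f3_sc (h : Lim l C D₀ z₀) (e : Fin γ × Bool) {w : α → ℂ} {w₀ : ℂ}
    (hw : Tendsto w l (𝓝 w₀)) (h₀ : w₀ ≠ 0) (h₁ : ‖w₀‖ < 1 / (8 * γ)) :
    Tendsto (fun x => (C x).L * ((C x).wd.f3 e ((C x).τ e * w x) * ((C x).τ e * w x))) l
      (𝓝 ((if e.2 then 1 else -1) * (cf D₀ z₀).E * (z₀.Psi e w₀ * w₀))) := by
  obtain ⟨a1, a2⟩ := h.psi_sc e hw h₀ h₁
  obtain ⟨t1, -, t2, -⟩ := h.tau0 e
  have hb : ((D₀.b (jj e.2) : ℝ) : ℂ) ≠ 0 := by exact_mod_cast (CfH1_b h e.2).ne'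
  have a3 := ((a1.mul a2).mul hw).div (t2.add (t1.mul hw)) (by simpa using hb)
  convert a3 using 2 with x
  · rcases e with ⟨k, _ | _⟩
    · simp only [Wd.f3, Wd.F3, Wd.ψs, Wd.ψr, Pi.div_apply, Bool.false_eq_true, if_false]
      change _ * ((C x).wd.ψ₁ ((C x).c _ + _) * (C x).wd.ψ₂ ((C x).c _ + _) / ((C x).c _ + _) * _) = _
      ring
    · simp only [Wd.f3, Wd.F3, Wd.ψs, Wd.ψr, Pi.div_apply, if_true]
      change _ * ((C x).wd.ψ₁ ((C x).c _ + _) * (C x).wd.ψ₂ ((C x).c _ + _) / ((C x).c _ + _) * _) = _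
      ring
  · rcases e with ⟨k, _ | _⟩
    · simp only [jj, Bool.false_eq_true, if_false, zero_mul, add_zero] at hb ⊢
      field_simp
    · simp only [jj, if_true, zero_mul, add_zero, ofReal_neg] at hb ⊢
      field_simp

theorem Lim.rs3 (h : Lim l C D₀ z₀) (e : Fin γ × Bool) :
    Tendsto (fun x => (C x).L * (C x).pl.rs (C x).wd.f3 e) l
      (𝓝 ((if e.2 then 1 else -1) * (cf D₀ z₀).E * z₀.eh e.1)) := by
  rcases l.eq_or_neBot with rfl | hl
  · exact tendsto_bot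
  have ha := h.adm₀
  obtain ⟨c1, c2, -⟩ := Zs.av_Psi (z := z₀) ha.pos ha.small e
  have h1 := av_tendsto (l := l) (R := fun x => (C x).pl.ρ e)
    (f := fun x v => (C x).L * ((C x).wd.f3 e v * v))
    (g := fun w => (if e.2 then 1 else -1) * (cf D₀ z₀).E * (z₀.Psi e w * w))
    (s := fun x => (C x).τ e) (r := 1 / (16 * γ)) (by positivity)
    (h.ok.mono fun x hx => ⟨by simp only [Cfg.pl]; ring,
      continuousOn_const.mul (Pl.MFa_cont hx.m3 hx.pl e)⟩)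
    (continuousOn_const.mul (c1.mul continuousOn_id))
    fun w hw => (h.comp tendsto_fst).f3_sc e (tendsto_snd.mono_right nhdsWithin_le_nhds)
      (CfH1_r ha.pos hw).1 (CfH1_r ha.pos hw).2
  rw [av_const_mul, c2] at h1
  simpa only [av_const_mul, Pl.rs] using h1

theorem Lim.q0 (h : Lim l C D₀ z₀) : Tendsto (fun x => (C x).L * (C x).wd.q0) l
    (𝓝 ((cf D₀ z₀).E * (γ + 1 / 2 + z₀.mean.re))) := by
  have h1 : Tendsto (fun x => (C x).wd.ψ₂ (-(C x).D.b 0)) l (𝓝 1) := CfH1_one fun ε hε =>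
    ((h.psr ε hε).and (h.ok.and h.adm)).mono fun x ⟨hx, ho, ha⟩ => by
      have h2 : (C x).wd.D.P (-((C x).D.b 0 : ℂ)) = 0 := by
        have h3 : ∏ j ∈ Finset.range (C x).D.q, (-((C x).D.b 0 : ℂ) + (C x).D.b j) = 0 :=
          Finset.prod_eq_zero (i := 0) (Finset.mem_range.2 ho.q_pos) (by simp)
        change (C x).D.P _ = 0
        rw [Dat.P, h3, mul_zero, zero_mul]
      have h4 := hx false 0 (by simpa using (ha.bb false).1.le)
        (by rw [add_zero]; exact (ho.toOk0.zero_fd h2).1)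
      rw [add_zero] at h4
      exact h4
  have h2 := h.ell.neg.mul ((continuous_re.tendsto 1).comp h1)
  convert h2 using 2 with x
  · simp only [Wd.q0, Function.comp_apply, neg_mul, neg_re, re_ofReal_mul]
    change _ * -((C x).ℓ * ((C x).wd.ψ₂ (-(C x).D.b 0)).re) = _
    ring
  · simp

theorem Lim.c0 (h : Lim l C D₀ z₀) : Tendsto (fun x => (C x).wd.c0) l (𝓝 1) := by
  have hb := CfH1_b h false
  have h0 : ∀ ε > 0, ∀ᶠ x in l, ‖(C x).wd.ψ₁ 0 - 1‖ ≤ ε ∧ ‖(C x).wd.ψ₂ 0 - 1‖ ≤ ε := fun ε hε =>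
    ((h.psi_near _ (half_pos hb) ε hε).and (h.ok.and (h.adm.and
      ((h.bb false).eventually (lt_mem_nhds (half_lt_self hb)))))).mono fun x ⟨hx, ho, ha, h1⟩ => by
      obtain ⟨b1, -, b2⟩ := ha.bb false
      have h2 : (C x).wd.D.P 0 = 0 := by simp [Dat.P]
      obtain ⟨h3, h4⟩ := hx 0 (ho.toOk0.zero_fd h2).1
      have h5 : D₀.b (jj false) / 2 < (C x).D.b 0 := h1
      refine ⟨h3 ?_, h4 ?_⟩
      · rw [zero_add, norm_real, Real.norm_of_nonneg b1.le]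
        exact h5.le
      · rw [zero_add, norm_real, Real.norm_of_nonneg (by linarith)]
        linarith
  have h1 := (CfH1_one fun ε hε => (h0 ε hε).mono fun _ hx => hx.1).mul
    (CfH1_one fun ε hε => (h0 ε hε).mono fun _ hx => hx.2)
  have h2 := (continuous_re.tendsto _).comp h1
  rw [mul_one, one_re] at h2
  exact h2

theorem Lim.th (h : Lim l C D₀ z₀) : ∀ ε > 0, ∀ᶠ x in l, ∀ e, ∀ u : ℂ, (C x).pl.mu e ≤ ‖u‖ →
    ‖(C x).pl.th (C x).wd.f3 e u‖ ≤ ε := by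
  intro ε hε
  have h1 : ∀ e, ∀ᶠ x in l, ∀ w ∈ sphere (0 : ℂ) (1 / (16 * γ)),
      ‖(C x).wd.f3 e ((C x).τ e * w) * ((C x).τ e * w)‖ ≤ ε := fun e => by
    refine ev_compact (isCompact_sphere _ _) fun w hw => ?_
    obtain ⟨w1, w2⟩ := CfH1_r e.1.pos (mem_sphere_zero_iff_norm.1 hw)
    have h' := h.comp (tendsto_fst (f := l) (g := 𝓝[sphere (0 : ℂ) (1 / (16 * γ))] w))
    have h2 := h'.f3_sc e (tendsto_snd.mono_right nhdsWithin_le_nhds) w1 w2
    have h3 := ((Dat.DatC_re h'.L.inv_tendsto_atTop).mul h2).norm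
    rw [ofReal_zero, zero_mul, norm_zero] at h3
    filter_upwards [h3.eventually (ge_mem_nhds hε), h'.L.eventually_gt_atTop 0] with z hz hL
    have h4 : (((C z.1).L : ℝ) : ℂ) ≠ 0 := by exact_mod_cast hL.ne'
    rwa [Pi.inv_apply, ofReal_inv, inv_mul_cancel_left₀ h4] at hz
  filter_upwards [eventually_all.2 h1, h.ok] with x hx ho e u hu
  have hp : (C x).pl.Ok := ho.pl
  have r1 := hp.rin_pos e
  have r2 := hp.rin_mu e
  have h2 := Pl.th_bd (φ := (C x).wd.f3) (e := e) (M := ε) hp (fun v hv => by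
    have t1 := Cfg.τ_ne (C := C x) (op e)
    have h3 := hx (op e) (v / (C x).τ (op e)) (by
      rw [mem_sphere_zero_iff_norm, norm_div, hv]
      have := norm_ne_zero_iff.2 t1
      simp only [Cfg.pl]
      field_simp)
    rwa [mul_div_cancel₀ _ t1] at h3) (u := u) (by linarith)
  refine h2.trans ?_
  rw [div_le_iff₀ (by linarith)]
  nlinarith

theorem Lim.eA (h : Lim l C D₀ z₀) (k : Fin γ) :
    Tendsto (fun x => (C x).eA k) l (𝓝 (z₀.lim.2.2.1 k)) := by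
  rcases l.eq_or_neBot with rfl | hl
  · exact tendsto_bot
  have hE := h.adm₀.E_pos
  have h1 := (h.E.inv₀ hE.ne').neg.mul ((continuous_im.tendsto _).comp (h.rs3 (k, false)))
  convert h1 using 2 with x
  · simp only [Cfg.eA, Function.comp_apply, im_ofReal_mul]
    ring
  · change z₀.2.2.1 k = _
    simp [Zs.eh]
    field_simp

end Pool.Agent.MP_92463a_gt
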