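import Pool.Agent.MP_92463a_gt.CfH1

open Set Complex Filter Metric
open scoped Topology ComplexConjugate ContDiff Manifold

noncomputable section

namespace Pool.Agent.MP_92463a_gt

variable {γ : ℕ} {α : Type} {l : Filter α} {C : α → Cfg γ} {D₀ : Dat} {z₀ : Zs γ}

theorem CfH2_zero {L f : α → ℝ} {a : ℝ} (hL : Tendsto L l atTop)
    (hf : Tendsto (fun x => L x * f x) l (𝓝 a)) : Tendsto f l (𝓝 0) := by
  refine (hf.div_atTop hL).congr' ?_
  filter_upwards [hL.eventually_gt_atTop 0] with x hx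
  exact mul_div_cancel_left₀ _ hx.ne'

theorem CfH2_log {β : Type} {l : Filter β} {u : β → ℂ} {u₀ : ℂ} (hu : Tendsto u l (𝓝 u₀))
    (h₀ : u₀ ≠ 0) : Tendsto (fun x => Real.log ‖u x‖) l (𝓝 (Real.log ‖u₀‖)) :=
  hu.norm.log (norm_ne_zero_iff.2 h₀)

theorem CfH2_two {L : α → ℝ} {u : α → ℂ} {u₀ : ℂ} (hL : Tendsto L l atTop)
    (hu : Tendsto (fun x => Real.exp (2 * L x) * u x) l (𝓝 u₀)) (h₀ : u₀ ≠ 0) :
    Tendsto (fun x => Real.log ‖u x‖ / L x) l (𝓝 (-2)) := by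
  have h1 := ((CfH2_log hu h₀).div_atTop hL).sub_const 2
  rw [zero_sub] at h1
  refine h1.congr' ?_
  filter_upwards [hL.eventually_gt_atTop 0, hu.eventually_ne h₀] with x hx h2
  rw [norm_mul, norm_real, Real.norm_of_nonneg (Real.exp_pos _).le, Real.log_mul
    (Real.exp_pos _).ne' (norm_ne_zero_iff.2 (right_ne_zero_of_mul h2)), Real.log_exp]
  field_simp
  ring

theorem CfH2_bd {t c : ℂ} {η M : ℝ} (hη : 0 < η) (h1 : η ≤ ‖t - c‖) (h2 : ‖c‖ ≤ M) (ht : t ≠ 0) :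
    |Real.log ‖t - c‖| ≤ (|Real.log η| + M + 1) * (1 + |Real.log ‖t‖|) := by
  have hM := (norm_nonneg c).trans h2
  have a1 := Real.log_le_log hη h1
  have a2 : ‖t‖ ≤ Real.exp |Real.log ‖t‖| :=
    (Real.exp_log (norm_pos_iff.2 ht)).ge.trans (Real.exp_le_exp.2 (le_abs_self _))
  have a3 := Real.one_le_exp (abs_nonneg (Real.log ‖t‖))
  have a4 : ‖t - c‖ ≤ Real.exp (M + |Real.log ‖t‖|) := by
    rw [Real.exp_add]
    nlinarith [norm_sub_le t c, Real.add_one_le_exp M]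
  have a5 := (Real.log_le_iff_le_exp (hη.trans_le h1)).2 a4
  have a6 := abs_nonneg (Real.log η)
  have a7 := abs_nonneg (Real.log ‖t‖)
  rw [abs_le]
  constructor <;> nlinarith [neg_abs_le (Real.log η)]

theorem CfH2_rs (h : Lim l C D₀ z₀) (e : Fin γ × Bool) :
    Tendsto (fun x => (C x).L * ((C x).pl.rs (C x).wd.f3 e).re) l
      (𝓝 ((if e.2 then 1 else -1) * (cf D₀ z₀).E * (1 + z₀.2.1 e.1))) := by
  have h1 := (continuous_re.tendsto _).comp (h.rs3 e)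
  simp only [Function.comp_def, re_ofReal_mul] at h1
  convert h1 using 2
  cases e.2 <;> simp [Zs.eh]

theorem CfH2_th (h : Lim l C D₀ z₀) {ε : ℝ} (hε : 0 < ε) : ∀ᶠ x in l, ∀ t ∈ (C x).pl.Fd,
    |∑ e, ((C x).pl.th (C x).wd.f3 e (t - (C x).c e)).re| ≤ ε := by
  filter_upwards [h.th (ε / (2 * γ + 1)) (by positivity)] with x hx t ht
  refine (Finset.abs_sum_le_sum_abs _ _).trans ((Finset.sum_le_card_nsmul _ _ _ fun e _ =>
    (abs_re_le_norm _).trans (hx e _ (ht e))).trans ?_)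
  rw [Finset.card_univ, Fintype.card_prod, Fintype.card_fin, Fintype.card_bool, nsmul_eq_mul,
    ← mul_div_assoc, div_le_iff₀ (by positivity)]
  push_cast
  nlinarith

theorem CfH2_b (h : Lim l C D₀ z₀) : 0 < D₀.b 0 ∧ D₀.b 0 < D₀.b 1 := by
  have h1 := h.D.ok₀.b_pos 0 (by have := h.q; omega)
  have h2 := h.D.ok₀.b_gap 0 1 one_pos (by have := h.q; omega)
  exact ⟨h1, by linarith⟩

theorem CfH2_hh (W : Cfg γ) (t : ℂ) : W.wd.hh t = 2 * (W.wd.c0 * Real.log ‖t‖ +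
    W.wd.q0 * Real.log ‖t + W.D.b 0‖ + ∑ e, (W.pl.rs W.wd.f3 e).re * Real.log ‖t - W.c e‖ +
    ∑ e, (W.pl.th W.wd.f3 e (t - W.c e)).re) := by
  rw [Wd.hh, Finset.sum_add_distrib, ← add_assoc]
  rfl

theorem CfH2_split (W : Cfg γ) (b : Bool) (τ : ℂ) (B : ℝ) :
    W.wd.hh (-W.bb b + τ) - 2 * B - W.hs b τ = 2 * (W.wd.c0 * Real.log ‖-W.bb b + τ‖ - B +
      (if b then W.wd.q0 * Real.log ‖-W.bb b + τ + W.bb false‖ else 0) +
      ∑ k, (W.pl.rs W.wd.f3 (k, !b)).re * Real.log ‖-W.bb b + τ - W.c (k, !b)‖) +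
      2 * ∑ e, (W.pl.th W.wd.f3 e (-W.bb b + τ - W.c e)).re := by
  have h1 : ∀ k, -W.bb b + τ - W.c (k, b) = τ - W.τ (k, b) := fun k => by
    simp only [Cfg.c]
    ring
  rw [CfH2_hh, Fintype.sum_prod_type_right' fun k b' =>
    (W.pl.rs W.wd.f3 (k, b')).re * Real.log ‖-W.bb b + τ - W.c (k, b')‖, Fintype.sum_bool, Cfg.hs]
  cases b
  · have h2 : -(W.bb false : ℂ) + τ + W.D.b 0 = τ := by simp [Cfg.bb, jj]
    simp only [h1, h2, Bool.not_false, Bool.false_eq_true, if_false]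
    ring
  · have h2 : W.D.b 0 = W.bb false := rfl
    simp only [h1, h2, Bool.not_true, if_true]
    ring

theorem Lim.hh_sheet (h : Lim l C D₀ z₀) : ∀ ε > 0, ∀ᶠ δ in 𝓝[>] (0 : ℝ), ∀ᶠ x in l, ∀ b,
    ∀ τ : ℂ, ‖τ‖ < δ → -(C x).bb b + τ ∈ (C x).pl.Fd →
      |(C x).wd.hh (-(C x).bb b + τ) - 2 * Real.log (D₀.b (jj b)) - (C x).hs b τ| ≤ ε := by
  intro ε hε
  obtain ⟨h0, h1⟩ := CfH2_b h
  have hp : ∀ b, 0 < D₀.b (jj b) := by
    rintro (_ | _)
    exacts [h0, h0.trans h1]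
  have hn : ∀ b, -(D₀.b (jj b) : ℂ) + D₀.b (jj !b) ≠ 0 := by
    rintro (_ | _) <;> rw [neg_add_eq_sub, sub_ne_zero, Ne, ofReal_inj]
    exacts [h1.ne', h1.ne]
  have key : ∀ b, Tendsto (fun p : α × ℂ => (C p.1).wd.c0 * Real.log ‖-(C p.1).bb b + p.2‖ -
      Real.log (D₀.b (jj b)) +
      (if b then (C p.1).wd.q0 * Real.log ‖-(C p.1).bb b + p.2 + (C p.1).bb false‖ else 0) +
      ∑ k, ((C p.1).pl.rs (C p.1).wd.f3 (k, !b)).re *
        Real.log ‖-(C p.1).bb b + p.2 - (C p.1).c (k, !b)‖) (l ×ˢ 𝓝 0) (𝓝 0) := by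
    intro b
    have a1 : Tendsto (fun p : α × ℂ => -((C p.1).bb b : ℂ) + p.2) (l ×ˢ 𝓝 0)
        (𝓝 (-(D₀.b (jj b) : ℂ))) := by
      simpa using ((h.bb b).comp tendsto_fst).ofReal.neg.add (tendsto_snd (g := 𝓝 (0 : ℂ)))
    have a2 := ((h.c0.comp tendsto_fst).mul (CfH2_log a1 (by simpa using (hp b).ne'))).sub_const
      (Real.log (D₀.b (jj b)))
    rw [norm_neg, norm_real, Real.norm_of_nonneg (hp b).le, one_mul, sub_self] at a2
    have a3 : Tendsto (fun p : α × ℂ => if b then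
        (C p.1).wd.q0 * Real.log ‖-(C p.1).bb b + p.2 + (C p.1).bb false‖ else 0) (l ×ˢ 𝓝 0)
        (𝓝 0) := by
      cases b
      · exact tendsto_const_nhds
      · simpa using ((CfH2_zero h.L h.q0).comp tendsto_fst).mul
          (CfH2_log (a1.add ((h.bb false).comp tendsto_fst).ofReal) (hn true))
    have a4 := tendsto_finsetSum Finset.univ fun k _ =>
      ((CfH2_zero h.L (CfH2_rs h (k, !b))).comp tendsto_fst).mul
        (CfH2_log (a1.sub ((h.tau0 (k, !b)).2.2.1.comp tendsto_fst))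
          (by rw [sub_neg_eq_add]; exact hn b))
    simpa using (a2.add a3).add a4
  obtain ⟨pa, ha, pb, hb, hab⟩ := eventually_prod_iff.1 (eventually_all.2 fun b =>
    (key b).abs.eventually_le_const (show |(0 : ℝ)| < ε / 4 by simpa using hε))
  obtain ⟨δ₀, hδ₀, hδ⟩ := Metric.eventually_nhds_iff.1 hb
  filter_upwards [Ioo_mem_nhdsGT hδ₀] with δ hδ'
  filter_upwards [ha, CfH2_th h (show 0 < ε / 4 by positivity)] with x hx ht b τ hτ hF
  have a1 := hab hx (hδ (y := τ) (by rw [dist_zero_right]; exact hτ.trans hδ'.2)) b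
  have a2 := ht _ hF
  rw [CfH2_split]
  rw [abs_le] at a1 a2 ⊢
  constructor <;> linarith [a1.1, a1.2, a2.1, a2.2]

theorem Lim.hh_far (h : Lim l C D₀ z₀) : ∀ δ > 0, ∀ ε > 0, ∀ᶠ x in l, ∀ t, (C x).wd.Away δ t →
    t ≠ 0 → |(C x).wd.hh t - 2 * Real.log ‖t‖| ≤ ε * (1 + |Real.log ‖t‖|) := by
  intro δ hδ ε hε
  obtain ⟨h0, h1⟩ := CfH2_b h
  set K := |Real.log (δ / 2)| + (D₀.b 1 + 1) + 1 with hK
  have hK1 : 1 ≤ K := by linarith [abs_nonneg (Real.log (δ / 2))]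
  have a1 : Tendsto (fun x => (|(C x).wd.c0 - 1| + |(C x).wd.q0| +
      ∑ e, |((C x).pl.rs (C x).wd.f3 e).re|) * K) l (𝓝 0) := by
    simpa using (((h.c0.sub_const 1).abs.add (CfH2_zero h.L h.q0).abs).add
      (tendsto_finsetSum Finset.univ fun e _ => (CfH2_zero h.L (CfH2_rs h e)).abs)).mul_const K
  have a2 : ∀ᶠ x in l, ∀ e, ‖(C x).τ e‖ ≤ δ / 2 := eventually_all.2 fun e =>
    (h.tau0 e).1.norm.eventually_le_const (by simpa using hδ)
  have a3 : ∀ᶠ x in l, ∀ e, ‖(C x).c e‖ ≤ D₀.b 1 + 1 := eventually_all.2 fun e =>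
    (h.tau0 e).2.2.1.norm.eventually_le_const (by
      rw [norm_neg, norm_real, Real.norm_eq_abs, abs_lt]
      cases e.2 <;> simp only [jj, Bool.false_eq_true, if_false, if_true] <;>
        constructor <;> linarith)
  have a4 : ∀ᶠ x in l, ‖-((C x).bb false : ℂ)‖ ≤ D₀.b 1 + 1 :=
    (h.bb false).ofReal.neg.norm.eventually_le_const (by
      rw [norm_neg, norm_real, Real.norm_eq_abs, abs_lt]
      simp only [jj, Bool.false_eq_true, if_false]
      constructor <;> linarith)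
  filter_upwards [a1.eventually_le_const (show 0 < ε / 4 by positivity), a2, a3, a4,
    CfH2_th h (show 0 < ε / 4 by positivity), h.wlim.near δ hδ 1 one_pos]
    with x b1 b2 b3 b4 b5 b6 t ht ht0
  have c1 := b5 t (b6 t ht).1
  set P := 1 + |Real.log ‖t‖| with hP
  have hP1 : 1 ≤ P := by linarith [abs_nonneg (Real.log ‖t‖)]
  have c2 : |Real.log ‖t + (C x).D.b 0‖| ≤ K * P := by
    rw [← sub_neg_eq_add]
    exact CfH2_bd (half_pos hδ) (by rw [sub_neg_eq_add]; exact (half_le_self hδ.le).trans ht.1)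
      b4 ht0
  have c3 : ∀ e, |Real.log ‖t - (C x).c e‖| ≤ K * P := fun e => by
    refine CfH2_bd (half_pos hδ) ?_ (b3 e) ht0
    have d1 : δ ≤ ‖t + (C x).bb e.2‖ := by
      cases e.2
      exacts [ht.1, ht.2]
    have d2 : t - (C x).c e = t + (C x).bb e.2 - (C x).τ e := by
      simp only [Cfg.c]
      ring
    rw [d2]
    linarith [norm_sub_norm_le (t + (C x).bb e.2) ((C x).τ e), b2 e]
  have c4 : |Real.log ‖t‖| ≤ K * P := by nlinarith
  have c5 : |((C x).wd.c0 - 1) * Real.log ‖t‖ + (C x).wd.q0 * Real.log ‖t + (C x).D.b 0‖ +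
      ∑ e, ((C x).pl.rs (C x).wd.f3 e).re * Real.log ‖t - (C x).c e‖| ≤ ε / 4 * P := by
    refine le_trans ?_ (mul_le_mul_of_nonneg_right b1 (by linarith))
    rw [mul_assoc, add_mul, add_mul, Finset.sum_mul]
    refine (abs_add_three _ _ _).trans (add_le_add (add_le_add ?_ ?_)
      ((Finset.abs_sum_le_sum_abs _ _).trans (Finset.sum_le_sum fun e _ => ?_))) <;>
      rw [abs_mul] <;> refine mul_le_mul_of_nonneg_left ?_ (abs_nonneg _)
    exacts [c4, c2, c3 e]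
  have c6 : ε ≤ ε * P := le_mul_of_one_le_right hε.le hP1
  rw [CfH2_hh]
  rw [abs_le] at c1 c5 ⊢
  constructor <;> linarith [c1.1, c1.2, c5.1, c5.2]

theorem CfH2_wp (h : Lim l C D₀ z₀) (k : Fin γ) (b : Bool) :
    Tendsto (fun x => (C x).wd.hh ((C x).wp (k, b)) - 2 * Real.log (D₀.b (jj b)) -
      (C x).hs b ((C x).τ (k, b) + (C x).τ (k, b) * (C x).vs k)) l (𝓝 0) := by
  rw [Metric.tendsto_nhds]
  intro ε hε
  obtain ⟨δ, h1, hδ⟩ := ((h.hh_sheet (ε / 2) (half_pos hε)).and self_mem_nhdsWithin).exists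
  have h2 := ((h.tau0 (k, b)).1.add ((h.tau0 (k, b)).1.mul (h.vs0 k).1)).norm
  filter_upwards [h1, h.g0, h2.eventually_lt_const (by simpa using hδ)] with x a1 a2 a3
  have a4 : (C x).wp (k, b) = -(C x).bb b + ((C x).τ (k, b) + (C x).τ (k, b) * (C x).vs k) :=
    add_assoc _ _ _
  have a5 : (C x).wp (k, b) ∈ (C x).pl.Fd := a2.1.pl_ok.mem_fd (e := (k, b))
    (by rw [a2.1.mu_eq, norm_mul]) (a2.1.pl_ok.ann_sub _ (a2.1.s_div (k, b)).2).2.le
  rw [Real.dist_eq, sub_zero, a4]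
  exact (a1 b _ a3 (a4 ▸ a5)).trans_lt (half_lt_self hε)

theorem CfH2_hs [l.NeBot] (h : Lim l C D₀ z₀) (k : Fin γ) (b : Bool) :
    Tendsto (fun x => (C x).hs b ((C x).τ (k, b) + (C x).τ (k, b) * (C x).vs k)) l
      (𝓝 (2 * ((if b then 0 else (cf D₀ z₀).E * (γ + 1 / 2 + z₀.mean.re) * (-2)) +
        ∑ j, (if b then 1 else -1) * (cf D₀ z₀).E * (1 + z₀.2.1 j) *
          (-2 - if j = k then 1 else 0)))) := by
  have a1 : Tendsto (fun x => Real.exp (2 * (C x).L) *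
      ((C x).τ (k, b) + (C x).τ (k, b) * (C x).vs k)) l (𝓝 ((cf D₀ z₀).τ (k, b))) := by
    simpa only [mul_add, mul_assoc, mul_zero, add_zero] using
      (h.tau (k, b)).add ((h.tau (k, b)).mul (h.vs0 k).1)
  have a2 : ∀ j, Tendsto (fun x => Real.log ‖(C x).τ (k, b) + (C x).τ (k, b) * (C x).vs k -
      (C x).τ (j, b)‖ / (C x).L) l (𝓝 (-2 - if j = k then 1 else 0)) := by
    intro j
    split_ifs with hj
    · subst hj
      refine ((CfH2_two h.L (h.tau (j, b)) (Cfg.τ_ne _)).add (h.vs0 j).2).congr' ?_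
      filter_upwards [h.g0] with x hx
      rw [add_sub_cancel_left, norm_mul, Real.log_mul (norm_ne_zero_iff.2 (Cfg.τ_ne _))
        (norm_ne_zero_iff.2 (hx.1.vs_ne j)), add_div]
    · rw [sub_zero]
      refine CfH2_two (u₀ := (cf D₀ z₀).τ (k, b) - (cf D₀ z₀).τ (j, b)) h.L
        (by simpa only [mul_sub] using a1.sub (h.tau (j, b))) (norm_pos_iff.1 ?_)
      have b1 := (h.adm₀.sep (Ne.symm hj) b).2
      have b2 : (0 : ℝ) < γ := by exact_mod_cast h.adm₀.pos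
      have b3 := norm_pos_iff.2 (Cfg.τ_ne (C := cf D₀ z₀) (j, b))
      exact lt_of_lt_of_le (by positivity) b1
  have a3 : Tendsto (fun x => if b then 0 else (C x).L * (C x).wd.q0 *
      (Real.log ‖(C x).τ (k, b) + (C x).τ (k, b) * (C x).vs k‖ / (C x).L)) l
      (𝓝 (if b then 0 else (cf D₀ z₀).E * (γ + 1 / 2 + z₀.mean.re) * (-2))) := by
    cases b
    · exact h.q0.mul (CfH2_two h.L a1 (Cfg.τ_ne _))
    · exact tendsto_const_nhds
  refine ((a3.add (tendsto_finsetSum Finset.univ fun j _ =>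
    (CfH2_rs h (j, b)).mul (a2 j))).const_mul 2).congr' ?_
  filter_upwards [h.L.eventually_gt_atTop 0] with x hx
  have e : ∀ u v : ℝ, (C x).L * u * (v / (C x).L) = u * v := fun u v => by field_simp
  simp only [e, Cfg.hs]

theorem Lim.eV (h : Lim l C D₀ z₀) (k : Fin γ) :
    Tendsto (fun x => (C x).eV k) l (𝓝 (z₀.lim.2.1 k)) := by
  rcases l.eq_or_neBot with rfl | hl
  · exact tendsto_bot
  obtain ⟨h0, h1⟩ := CfH2_b h
  have hE := h.adm₀.E_pos.ne'
  have a1 := (((CfH2_wp h k true).add (CfH2_hs h k true)).sub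
    ((CfH2_wp h k false).add (CfH2_hs h k false))).add_const
    (2 * Real.log (D₀.b 1) - 2 * Real.log (D₀.b 0))
  have a2 := a1.div (h.E.const_mul 4) (mul_ne_zero four_ne_zero hE)
  convert a2 using 2
  · simp only [Cfg.eV, jj, Pi.div_apply, Bool.false_eq_true, if_false, if_true]
    ring
  · have a3 : Real.log (D₀.b 1) = Real.log (D₀.b 0) + (2 * γ + 1) * (cf D₀ z₀).E := by
      rw [Cfg.E, mul_div_cancel₀ _ (by positivity)]
      change _ = _ + Real.log (D₀.b 1 / D₀.b 0)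
      rw [Real.log_div (h0.trans h1).ne' h0.ne']
      ring
    simp only [Zs.lim, Bool.false_eq_true, if_false, if_true, mul_sub, mul_ite, mul_one, mul_zero,
      Finset.sum_sub_distrib, Finset.sum_ite_eq', Finset.mem_univ, ← Finset.sum_mul,
      ← Finset.mul_sum, Finset.sum_add_distrib, Finset.sum_const, Finset.card_univ,
      Fintype.card_fin, nsmul_eq_mul, a3]
    field_simp
    ring

end Pool.Agent.MP_92463a_gt
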