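import Pool.Agent.MP_92463a_gt.CfF2

open Set Complex Filter Metric
open scoped Topology ComplexConjugate ContDiff Manifold

noncomputable section

namespace Pool.Agent.MP_92463a_gt

variable {γ : ℕ} {α : Type} {l : Filter α} {C : α → Cfg γ} {D₀ : Dat} {z₀ : Zs γ}

theorem CfI1_pw (τ : ℂ) : pw (-3 / 2) τ = (pw (3 / 2) τ)⁻¹ := by
  rw [pw, pw, ← exp_neg]
  congr 1
  push_cast
  ring

theorem Cfg.Adm.fM_eq {C : Cfg γ} (h : C.Adm) (b : Bool) {τ : ℂ} (hi : 0 ≤ τ.im) (h₀ : τ ≠ 0)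
    (h₁ : ‖τ‖ < C.D.b 0 / 2) :
    C.fM b τ = C.wd.ψr b (-C.bb b + τ) ^ 2 * (C.cm b * pw (-3 / 2) τ) *
        (exp (-(sg (jj b) * C.D.lam (jj b) τ)) * (C.bb b / (C.bb b - τ))) ∧
      C.fm b τ = C.wd.ψs b (-C.bb b + τ) ^ 2 * pw (3 / 2) τ / C.cm b *
        (exp (sg (jj b) * C.D.lam (jj b) τ) / (C.bb b * (C.bb b - τ))) := by
  have hG := h.d.G_loc (h.jj_lt b) hi h₀ h₁
  obtain ⟨b1, b2, -⟩ := h.bb b
  have hB : ((C.bb b : ℝ) : ℂ) ≠ 0 := by exact_mod_cast (b1.trans_le b2).ne'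
  have hB' : ((C.bb b : ℝ) : ℂ) - τ ≠ 0 := fun e => by
    rw [← sub_eq_zero.1 e, norm_real, Real.norm_of_nonneg (b1.le.trans b2)] at h₁
    linarith
  have ht : -((C.bb b : ℝ) : ℂ) + τ = -(C.bb b - τ) := by ring
  have hp := pw_ne (3 / 2) τ
  have hD : C.wd.D = C.D := rfl
  rw [CfI1_pw]
  cases b
  · have hG' : C.D.G (-C.bb false + τ) =
        exp (C.D.A 0) * -I * pw (3 / 2) τ * exp (C.D.lam 0 τ) := by
      have e : exp (((-(Real.pi / 2) : ℝ) : ℂ) * I) = -I := by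
        rw [← exp_neg_pi_div_two_mul_I]
        congr 1
        push_cast
        ring
      refine hG.trans ?_
      rw [exp_add, exp_add, exp_add, ← e]
      simp [jj, ph, sg, pw]
    simp only [Cfg.fM, Cfg.fm, Wd.ψr, Wd.ψs, Wd.F1, Wd.F2, Cfg.cm, hD, hG', jj, sg,
      Bool.false_eq_true, if_false, pow_zero, ofReal_one, one_mul, exp_neg, ofReal_div,
      ofReal_exp, ofReal_neg]
    have hb : ((C.D.b 0 : ℝ) : ℂ) = C.bb false := rfl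
    have e1 := exp_ne_zero (C.D.A 0)
    have e2 := exp_ne_zero (C.D.lam 0 τ)
    generalize C.wd.ψ₁ _ = p₁
    generalize C.wd.ψ₂ _ = p₂
    rw [hb, ht]
    constructor <;> field_simp <;> simp
  · have hG' : C.D.G (-C.bb true + τ) =
        exp (C.D.A 1) * -1 * (pw (3 / 2) τ)⁻¹ * exp (C.D.lam 1 τ) := by
      refine hG.trans ?_
      rw [exp_add, exp_add, exp_add, ← exp_pi_mul_I, pw, ← exp_neg]
      simp [jj, ph, sg]
    simp only [Cfg.fM, Cfg.fm, Wd.ψr, Wd.ψs, Wd.F1, Wd.F2, Cfg.cm, hD, hG', jj, sg,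
      if_true, pow_one, ofReal_one, one_mul, neg_mul, neg_neg, exp_neg, ofReal_div,
      ofReal_exp, ofReal_neg]
    have hb : ((C.D.b 1 : ℝ) : ℂ) = C.bb true := rfl
    have e1 := exp_ne_zero (C.D.A 1)
    have e2 := exp_ne_zero (C.D.lam 1 τ)
    generalize C.wd.ψ₁ _ = p₁
    generalize C.wd.ψ₂ _ = p₂
    rw [hb, ht]
    constructor <;> field_simp

theorem CfI1_cont {ε : ℝ} (hε : 0 < ε) : ∃ η > 0, ∀ p u w : ℂ, ‖p - 1‖ ≤ η → ‖u‖ ≤ η → ‖w‖ ≤ η →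
    ‖p ^ 2 * (exp u * (1 - w)⁻¹) - 1‖ ≤ ε := by
  have hc : ContinuousAt (fun z : ℂ × ℂ × ℂ => z.1 ^ 2 * (exp z.2.1 * (1 - z.2.2)⁻¹)) (1, 0, 0) := by
    fun_prop (disch := simp)
  obtain ⟨η, h0, h1⟩ := Metric.continuousAt_iff.1 hc ε hε
  refine ⟨η / 2, by positivity, fun p u w hp hu hw => ?_⟩
  have h2 := h1 (x := (p, u, w)) (by
    rw [Prod.dist_eq, Prod.dist_eq, dist_eq_norm, dist_zero_right, dist_zero_right, max_lt_iff,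
      max_lt_iff]
    exact ⟨by linarith, by linarith, by linarith⟩)
  simpa [dist_eq_norm] using h2.le

theorem CfI1_b0 (h : Lim l C D₀ z₀) : ∃ β > 0, ∀ᶠ x in l, β ≤ (C x).D.b 0 := by
  have hq : 0 < D₀.q := by have := h.q; omega
  have h0 := h.D.ok₀.b_pos 0 hq
  exact ⟨D₀.b 0 / 2, by positivity, (h.D.b 0 hq).eventually_const_le (by linarith)⟩

theorem CfI1_lt {c : ℝ} (hc : 0 < c) : ∀ᶠ δ in 𝓝[>] (0 : ℝ), δ < c :=
  nhdsWithin_le_nhds (Iio_mem_nhds hc)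

theorem Lim.fM (h : Lim l C D₀ z₀) : ∀ ε > 0, ∀ᶠ δ in 𝓝[>] (0 : ℝ), ∀ᶠ x in l, ∀ b,
    ∀ τ ∈ SS ((C x).TT b) ((C x).mm b) δ,
      ‖(C x).fM b τ - (C x).cm b * pw (-3 / 2) τ‖ ≤ ε * ‖(C x).cm b‖ * ‖τ‖ ^ (-3 / 2 : ℝ) := by
  intro ε hε
  obtain ⟨η, η0, hη⟩ := CfI1_cont hε
  obtain ⟨β, β0, hβ⟩ := CfI1_b0 h
  have hq := h.q
  filter_upwards [h.D.lam_small (j := 0) (by omega) η η0, h.D.lam_small (j := 1) (by omega) η η0,
    CfI1_lt (half_pos β0), CfI1_lt (mul_pos η0 β0)] with δ l0 l1 d1 d2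
  filter_upwards [l0, l1, hβ, h.psr η η0, h.g0] with x l0 l1 hβ hr hg b τ hτ
  have hf := (hg.1.ss (by linarith) hτ).2
  obtain ⟨t1, t2, t3, -⟩ := hτ
  obtain ⟨b1, b2, -⟩ := hg.1.toAdm.bb b
  have hB : (((C x).bb b : ℝ) : ℂ) ≠ 0 := by exact_mod_cast (b1.trans_le b2).ne'
  have h1 := hη _ (-(sg (jj b) * (C x).D.lam (jj b) τ)) (τ / (C x).bb b) (hr b τ (by linarith) hf)
    (by cases b
        · simpa [jj, sg] using l0 τ t3.le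
        · simpa [jj, sg] using l1 τ t3.le)
    (by rw [norm_div, norm_real, Real.norm_of_nonneg (b1.le.trans b2), div_le_iff₀ (by linarith)]
        nlinarith)
  have e : (1 - τ / (C x).bb b)⁻¹ = (C x).bb b / ((C x).bb b - τ) := by
    rw [one_sub_div hB, inv_div]
  rw [(hg.1.toAdm.fM_eq b t1 t2 (by linarith)).1, ← e, mul_right_comm, ← sub_one_mul, norm_mul,
    norm_mul, norm_pw _ t2, mul_assoc]
  exact mul_le_mul_of_nonneg_right h1 (by positivity)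

theorem CfI1_term {a r s d κ : ℝ} (ha : 0 ≤ a) (hr : 0 ≤ r) (hs : 0 < s) (hκ : 0 < κ)
    (h1 : r ^ 2 ≤ s ^ 2 + d) (h2 : κ * s ^ 2 ≤ d) : a / d * r ^ 3 ≤ 2 * a * r + 4 * (a * s / κ) := by
  have hd : 0 < d := lt_of_lt_of_le (by positivity) h2
  have p1 : 0 ≤ 2 * a * r := by positivity
  have p2 : 0 ≤ 4 * (a * s / κ) := by positivity
  rcases le_total (r ^ 2) (2 * d) with h3 | h3
  · refine le_trans ?_ (le_add_of_nonneg_right p2)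
    rw [div_mul_eq_mul_div, div_le_iff₀ hd]
    nlinarith [mul_nonneg ha hr]
  · refine le_trans ?_ (le_add_of_nonneg_left p1)
    have h4 : r ≤ 3 / 2 * s := by nlinarith
    have h5 : r ^ 3 ≤ 4 * s ^ 3 :=
      (pow_le_pow_left₀ hr h4 3).trans (by nlinarith [pow_pos hs 3])
    calc a / d * r ^ 3 ≤ a / (κ * s ^ 2) * (4 * s ^ 3) := by gcongr
      _ = 4 * (a * s / κ) := by field_simp

theorem CfI1_main {C : Cfg γ} {b : Bool} {τ ψ : ℂ} {M A : ℝ} (κ : Fin γ → ℝ) (h₀ : τ ≠ 0)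
    (h₁ : ‖τ‖ ≤ 1) (hM : 0 ≤ M) (hl : |C.ℓ| * |C.D.b 0| ≤ M) (hr : ∀ k, ‖C.rr (k, b)‖ ≤ M)
    (hκ : ∀ k, 0 < κ k ∧ κ k * ‖C.τ (k, b)‖ ≤ ‖τ - C.τ (k, b)‖ ∧
      ‖C.rr (k, b)‖ * √‖C.τ (k, b)‖ / κ k ≤ A)
    (hψ : ‖ψ - (1 + (if b then 0 else C.ℓ * C.D.b 0 / τ) + ∑ k, C.rr (k, b) / (τ - C.τ (k, b)))‖ ≤
      1 * (1 + ∑ k, ‖C.rr (k, b)‖ / ‖τ - C.τ (k, b)‖)) :
    ‖ψ‖ * √‖τ‖ ^ 3 ≤ √‖τ‖ * (2 + M + 4 * γ * M) + 8 * γ * A := by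
  have hn := norm_pos_iff.2 h₀
  have hr0 := Real.sqrt_nonneg ‖τ‖
  have hr1 : √‖τ‖ ≤ 1 := Real.sqrt_le_one.2 h₁
  have hr2 := Real.sq_sqrt hn.le
  have h1 : ‖(if b then 0 else C.ℓ * C.D.b 0 / τ : ℂ)‖ ≤ M / ‖τ‖ := by
    split_ifs
    · rw [norm_zero]
      positivity
    · rw [norm_div, norm_mul, norm_real, norm_real]
      exact div_le_div_of_nonneg_right hl hn.le
  have h2 : ‖∑ k, C.rr (k, b) / (τ - C.τ (k, b))‖ ≤ ∑ k, ‖C.rr (k, b)‖ / ‖τ - C.τ (k, b)‖ :=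
    (norm_sum_le _ _).trans (le_of_eq (by simp only [norm_div]))
  have h3 : ‖ψ‖ ≤ 2 + M / ‖τ‖ + 2 * ∑ k, ‖C.rr (k, b)‖ / ‖τ - C.τ (k, b)‖ := by
    have h4 := norm_le_norm_add_norm_sub' ψ
      (1 + (if b then 0 else C.ℓ * C.D.b 0 / τ) + ∑ k, C.rr (k, b) / (τ - C.τ (k, b)))
    have h5 := norm_add₃_le (a := (1 : ℂ)) (b := if b then 0 else C.ℓ * C.D.b 0 / τ)
      (c := ∑ k, C.rr (k, b) / (τ - C.τ (k, b)))
    rw [norm_one] at h5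
    linarith
  have h6 : (∑ k, ‖C.rr (k, b)‖ / ‖τ - C.τ (k, b)‖) * √‖τ‖ ^ 3 ≤ γ * (2 * M * √‖τ‖ + 4 * A) := by
    rw [Finset.sum_mul]
    refine (Finset.sum_le_card_nsmul _ _ (2 * M * √‖τ‖ + 4 * A) fun k _ => ?_).trans
      (by rw [Finset.card_univ, Fintype.card_fin, nsmul_eq_mul])
    obtain ⟨k1, k2, k3⟩ := hκ k
    have hs := Real.sq_sqrt (norm_nonneg (C.τ (k, b)))
    refine (CfI1_term (norm_nonneg _) hr0 (Real.sqrt_pos.2 (norm_pos_iff.2 (Cfg.τ_ne _))) k1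
      (by rw [hr2, hs]; exact norm_le_norm_add_norm_sub' _ _) (by rwa [hs])).trans ?_
    have := mul_le_mul_of_nonneg_right (hr k) hr0
    linarith
  have h7 : M / ‖τ‖ * √‖τ‖ ^ 3 = M * √‖τ‖ := by
    rw [pow_succ, hr2]
    field_simp
  have h8 : √‖τ‖ ^ 3 ≤ √‖τ‖ := pow_le_of_le_one hr0 hr1 (by norm_num)
  have h9 := mul_le_mul_of_nonneg_right h3 (pow_nonneg hr0 3)
  nlinarith

theorem Lim.ps_bd (h : Lim l C D₀ z₀) : ∃ K, ∀ ε > 0, ∀ᶠ δ in 𝓝[>] (0 : ℝ), ∀ᶠ x in l, ∀ b,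
    ∀ τ ∈ SS ((C x).TT b) ((C x).mm b) δ,
      ‖(C x).wd.ψs b (-(C x).bb b + τ)‖ ^ 2 * ‖τ‖ ^ 3 ≤ K ∧
      ((∀ k, ε * ‖(C x).τ (k, b)‖ ≤ ‖τ - (C x).τ (k, b)‖) →
        ‖(C x).wd.ψs b (-(C x).bb b + τ)‖ ^ 2 * ‖τ‖ ^ 3 ≤ ε) := by
  obtain ⟨m, m0, M₀, hM⟩ := h.bds
  obtain ⟨β, β0, hβ⟩ := CfI1_b0 h
  obtain ⟨M, M1, M2, M3⟩ : ∃ M : ℝ, 0 ≤ M ∧ M₀ ≤ M ∧ M₀ * M₀ ≤ M :=
    ⟨M₀ * M₀ + 1, by nlinarith, by nlinarith, by linarith⟩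
  refine ⟨(2 + M + 4 * γ * M + 8 * γ * (M * (M + 1) / m)) ^ 2, fun ε hε => ?_⟩
  have η0 : 0 < min ε 1 / 2 := half_pos (lt_min hε one_pos)
  have t1 : Tendsto (fun δ : ℝ => √δ * (2 + M + 4 * γ * M)) (𝓝[>] 0) (𝓝 0) := by
    refine Tendsto.mono_left (Continuous.tendsto' (by fun_prop) _ _ (by simp)) nhdsWithin_le_nhds
  have t2 : ∀ᶠ x in l, ∀ e, M * √‖(C x).τ e‖ / ε ≤ min ε 1 / 2 / (8 * γ + 1) := by
    refine eventually_all.2 fun e => ?_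
    have := ((h.tau0 e).1.norm.sqrt.const_mul M).div_const ε
    exact this.eventually_le_const (by simpa using by positivity)
  filter_upwards [t1.eventually_le_const η0, CfI1_lt (half_pos β0), CfI1_lt one_pos]
    with δ d1 d2 d3
  filter_upwards [hM, hβ, t2, h.pss 1 one_pos, h.g0] with x hM hβ t2 hs hg b τ hτ
  have hψ := hs b τ (hg.1.ss (by linarith) hτ).2
  obtain ⟨-, t3, t4, t5⟩ := hτ
  have hL := hg.1.L
  have hr : ∀ k, ‖(C x).rr (k, b)‖ ≤ M := fun k => by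
    have := (hM.2 (k, b)).2.2.1.2
    nlinarith [norm_nonneg ((C x).rr (k, b))]
  have hl : |(C x).ℓ| * |(C x).D.b 0| ≤ M := by
    have a1 : (C x).D.b 0 ≤ M₀ := (hM.2 (⟨0, hg.1.pos⟩, false)).2.2.2.2.2.2
    have a2 : |(C x).ℓ| ≤ M₀ := by nlinarith [hM.1, abs_nonneg (C x).ℓ]
    rw [abs_of_pos (β0.trans_le hβ)]
    exact (mul_le_mul a2 a1 (by linarith) (by linarith)).trans M3
  have e : ‖(C x).wd.ψs b (-(C x).bb b + τ)‖ ^ 2 * ‖τ‖ ^ 3 =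
      (‖(C x).wd.ψs b (-(C x).bb b + τ)‖ * √‖τ‖ ^ 3) ^ 2 := by
    rw [mul_pow, ← pow_mul, mul_comm 3 2, pow_mul, Real.sq_sqrt (norm_nonneg τ)]
  have p0 : 0 ≤ 2 + M + 4 * γ * M := by positivity
  rw [e]
  refine ⟨pow_le_pow_left₀ (by positivity) ?_ 2, fun hf => ?_⟩
  · refine (CfI1_main (A := M * (M + 1) / m) (fun k => ‖(C x).vs k‖) t3 (by linarith) M1 hl hr
      (fun k => ⟨norm_pos_iff.2 (hg.1.vs_ne k), ?_, ?_⟩) hψ).trans ?_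
    · have := t5 k
      rwa [Cfg.mm, hg.1.mu_eq, mul_comm] at this
    · obtain ⟨⟨-, a1⟩, ⟨a2, -⟩, ⟨-, a3⟩, -⟩ := hM.2 (k, b)
      have a4 : Real.exp (C x).L * √‖(C x).τ (k, b)‖ ≤ M + 1 := by
        have a5 : (Real.exp (C x).L * √‖(C x).τ (k, b)‖) ^ 2 ≤ M₀ := by
          rwa [mul_pow, Real.sq_sqrt (norm_nonneg _), ← Real.exp_nat_mul, Nat.cast_ofNat]
        nlinarith
      have a6 := Real.exp_pos (C x).L
      have a7 := norm_pos_iff.2 (hg.1.vs_ne k)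
      calc ‖(C x).rr (k, b)‖ * √‖(C x).τ (k, b)‖ / ‖(C x).vs k‖ =
            (C x).L * ‖(C x).rr (k, b)‖ * (Real.exp (C x).L * √‖(C x).τ (k, b)‖) /
              ((C x).L * Real.exp (C x).L * ‖(C x).vs k‖) := by field_simp
        _ ≤ M * (M + 1) / m := by gcongr; linarith
    · have := mul_le_mul_of_nonneg_right (Real.sqrt_le_one.2 (t4.le.trans d3.le)) p0
      linarith
  · have a1 := CfI1_main (A := min ε 1 / 2 / (8 * γ + 1)) (fun _ => ε) t3 (by linarith) M1 hl hr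
      (fun k => ⟨hε, hf k, le_trans (by gcongr; exact hr k) (t2 (k, b))⟩) hψ
    have a2 := mul_le_mul_of_nonneg_right (Real.sqrt_le_sqrt t4.le) p0
    have a3 : 8 * γ * (min ε 1 / 2 / (8 * γ + 1)) ≤ min ε 1 / 2 := by
      rw [← mul_div_assoc, div_le_iff₀ (by positivity)]
      nlinarith
    have a4 := pow_le_pow_left₀ (by positivity) (a1.trans (add_le_add (a2.trans d1) a3)) 2
    nlinarith [min_le_left ε 1, min_le_right ε 1]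

end Pool.Agent.MP_92463a_gt
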