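import Pool.Agent.MP_92463a_gt.Setup

open Set Complex Filter Metric
open scoped Topology ComplexConjugate ContDiff Manifold

noncomputable section

namespace Pool.Agent.MP_92463a_gt

theorem Tool1_im {w : ℂ} (hw : w ∈ ball (0 : ℂ) 1) : 0 < (I * (1 + w) / (1 - w)).im := by
  rw [mem_ball_zero_iff] at hw
  have h1 : (1 : ℂ) - w ≠ 0 := by
    intro h
    rw [← sub_eq_zero.1 h] at hw
    simp at hw
  have h2 : normSq w < 1 := by
    rw [Complex.normSq_eq_norm_sq]
    nlinarith [norm_nonneg w]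
  have h3 : 0 < normSq (1 - w) := normSq_pos.2 h1
  rw [normSq_apply] at h2
  rw [div_im, ← sub_div]
  refine div_pos ?_ h3
  simp
  nlinarith

theorem prim_upper {f : ℂ → ℂ} (hf : DifferentiableOn ℂ f {t | 0 < t.im}) :
    ∃ F : ℂ → ℂ, ∀ t : ℂ, 0 < t.im → HasDerivAt F (f t) t := by
  have hne : ∀ w ∈ ball (0 : ℂ) 1, (1 : ℂ) - w ≠ 0 := by
    intro w hw h
    rw [← sub_eq_zero.1 h] at hw
    simp at hw
  have hg : DifferentiableOn ℂ (fun w => f (I * (1 + w) / (1 - w)) * (2 * I / (1 - w) ^ 2))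
      (ball 0 1) := by
    refine DifferentiableOn.mul (hf.comp (DifferentiableOn.div (by fun_prop) (by fun_prop) hne)
      fun w hw => Tool1_im hw) (DifferentiableOn.div (by fun_prop) (by fun_prop)
        fun w hw => pow_ne_zero _ (hne w hw))
  obtain ⟨G, hG⟩ := hg.isExactOn_ball
  refine ⟨fun t => G ((t - I) / (t + I)), fun t ht => ?_⟩
  have h0 : t + I ≠ 0 := by
    intro h
    have := congrArg im h
    simp at this
    linarith
  have hb : (t - I) / (t + I) ∈ ball (0 : ℂ) 1 := by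
    rw [mem_ball_zero_iff, norm_div, div_lt_one (norm_pos_iff.2 h0),
      ← sq_lt_sq₀ (norm_nonneg _) (norm_nonneg _), ← Complex.normSq_eq_norm_sq,
      ← Complex.normSq_eq_norm_sq, normSq_apply, normSq_apply]
    simp
    nlinarith
  have hc : HasDerivAt (fun t : ℂ => (t - I) / (t + I)) ((1 * (t + I) - (t - I) * 1) / (t + I) ^ 2)
      t := ((hasDerivAt_id t).sub_const I).div ((hasDerivAt_id t).add_const I) h0
  have e1 : 1 - (t - I) / (t + I) = 2 * I / (t + I) := by field_simp; ring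
  have e2 : I * (1 + (t - I) / (t + I)) / (1 - (t - I) / (t + I)) = t := by
    rw [e1]; field_simp; ring
  refine ((hG _ hb).comp t hc).congr_deriv ?_
  simp only
  rw [e2, e1]
  field_simp
  ring

theorem loc_sqrt {f : ℂ → ℂ} {y₀ : ℂ} (hf : AnalyticAt ℂ f 0) (h0 : y₀ ^ 2 = f 0) (hy : y₀ ≠ 0) :
    ∃ δ > 0, ∃ h : ℂ → ℂ, DifferentiableOn ℂ h (ball 0 δ) ∧ h 0 = y₀ ∧
      ∀ w ∈ ball (0 : ℂ) δ, h w ≠ 0 ∧ h w ^ 2 = f w := by
  have hf0 : f 0 ≠ 0 := h0 ▸ pow_ne_zero 2 hy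
  have h1 : ∀ᶠ w in 𝓝 (0 : ℂ), f w / f 0 ∈ slitPlane := by
    have : ContinuousAt (fun w => f w / f 0) 0 := hf.continuousAt.div_const _
    refine this.eventually (isOpen_slitPlane.mem_nhds ?_)
    simp only [div_self hf0]
    exact one_mem_slitPlane
  obtain ⟨δ, hδ, h⟩ := Metric.eventually_nhds_iff_ball.1 (h1.and hf.eventually_analyticAt)
  refine ⟨δ, hδ, fun w => y₀ * exp (log (f w / f 0) / 2), fun w hw => ?_, ?_, fun w hw => ⟨?_, ?_⟩⟩
  · refine DifferentiableAt.differentiableWithinAt ?_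
    exact ((((h w hw).2.differentiableAt.div_const _).clog (h w hw).1).div_const 2).cexp.const_mul _
  · simp [div_self hf0]
  · exact mul_ne_zero hy (exp_ne_zero _)
  · rw [mul_pow, h0, ← exp_nat_mul, Nat.cast_ofNat, mul_div_cancel₀ _ two_ne_zero,
      exp_log (slitPlane_ne_zero (h w hw).1), mul_div_cancel₀ _ hf0]

theorem sign_const {α : Type} [TopologicalSpace α] {s : Set α} (hs : IsPreconnected s)
    {u v : α → ℂ} (hu : ContinuousOn u s) (hv : ContinuousOn v s) (hne : ∀ x ∈ s, v x ≠ 0)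
    (hsq : ∀ x ∈ s, u x ^ 2 = v x ^ 2) : (∀ x ∈ s, u x = v x) ∨ ∀ x ∈ s, u x = -v x :=
  hs.eq_or_eq_neg_of_sq_eq hu hv (fun x hx => hsq x hx) fun {x} hx => hne x hx

theorem odd_prim {k : ℂ → ℂ} {δ : ℝ} (hδ : 0 < δ) (hk : DifferentiableOn ℂ k (ball 0 (δ ^ 2))) :
    ∃ Ψ : ℂ → ℂ, DifferentiableOn ℂ Ψ (ball 0 δ) ∧ Ψ 0 = 0 ∧
      (∀ w ∈ ball (0 : ℂ) δ, Ψ (-w) = -Ψ w) ∧
      ∀ w ∈ ball (0 : ℂ) δ, w ≠ 0 →
        HasDerivAt (fun v => -k 0 / v + Ψ v) (k (w ^ 2) / w ^ 2) w := by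
  have hd : DifferentiableOn ℂ (dslope k 0) (ball 0 (δ ^ 2)) :=
    (differentiableOn_dslope (ball_mem_nhds _ (by positivity))).2 hk
  have hg : DifferentiableOn ℂ (fun w : ℂ => dslope k 0 (w ^ 2)) (ball 0 δ) := by
    refine hd.comp (by fun_prop) fun w hw => ?_
    rw [mem_ball_zero_iff] at hw ⊢
    rw [norm_pow]
    exact pow_lt_pow_left₀ hw (norm_nonneg _) two_ne_zero
  obtain ⟨Ψ, h0, hΨ⟩ := hg.isExactOn_ball.with_val_at 0 0
  have hneg : ∀ w ∈ ball (0 : ℂ) δ, -w ∈ ball (0 : ℂ) δ := fun w hw => by simpa using hw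
  have hs : ∀ w ∈ ball (0 : ℂ) δ, HasDerivAt (fun v => Ψ (-v) + Ψ v) 0 w := by
    intro w hw
    refine (((hΨ _ (hneg w hw)).comp w (hasDerivAt_neg w)).add (hΨ w hw)).congr_deriv ?_
    simp
  refine ⟨Ψ, fun w hw => (hΨ w hw).differentiableAt.differentiableWithinAt, h0,
    fun w hw => ?_, fun w hw hw0 => ?_⟩
  · have := isOpen_ball.is_const_of_deriv_eq_zero (convex_ball (0 : ℂ) δ).isPreconnected
      (fun w hw => (hs w hw).differentiableAt.differentiableWithinAt)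
      (fun w hw => (hs w hw).deriv) hw (mem_ball_self hδ)
    simp only [neg_zero, h0, add_zero] at this
    exact eq_neg_of_add_eq_zero_left this
  · refine (((hasDerivAt_const w (-k 0)).div (hasDerivAt_id w) hw0).add (hΨ w hw)).congr_deriv ?_
    rw [dslope_of_ne _ (pow_ne_zero 2 hw0), slope_def_field]
    simp only [id]
    field_simp
    ring

theorem no_max {Φ : ℂ → ℂ} {w₀ : ℂ} (hΦ : AnalyticAt ℂ Φ w₀)
    (hm : IsLocalMax (fun w => (Φ w).re) w₀) : ∀ᶠ w in 𝓝 w₀, deriv Φ w = 0 := by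
  have h1 : IsLocalMax (norm ∘ fun w => exp (Φ w)) w₀ := by
    filter_upwards [hm] with w hw
    simp only [Function.comp, norm_exp]
    exact Real.exp_le_exp.2 hw
  have h2 := Complex.eventually_eq_of_isLocalMax_norm
    (hΦ.eventually_analyticAt.mono fun w hw => hw.differentiableAt.cexp) h1
  filter_upwards [h2.eventually_nhds, hΦ.eventually_analyticAt] with w hw ha
  have h3 : deriv (fun w => exp (Φ w)) w = 0 := by
    rw [Filter.EventuallyEq.deriv_eq (f := fun _ => exp (Φ w₀)) hw, deriv_const]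
  rw [ha.differentiableAt.hasDerivAt.cexp.deriv] at h3
  exact (mul_eq_zero.1 h3).resolve_left (exp_ne_zero _)

end Pool.Agent.MP_92463a_gt
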