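import Pool.Agent.MP_92463a_gt.Phase
import Pool.Agent.MP_92463a_gt.Tool1

open Set Complex Filter Metric
open scoped Topology ComplexConjugate ContDiff Manifold

noncomputable section

namespace Pool.Agent.MP_92463a_gt

namespace Dat

variable {D : Dat} {X : ℂ → ℂ}

theorem Sol.X_a (hD : D.Ok) (hX : D.Sol X) {t : ℂ} (ha : D.IsA t) : X t = 0 := by
  obtain ⟨i, hi, rfl⟩ := ha
  have h0 := hD.a_pos i hi
  have hc : ContinuousAt (fun x : ℝ => X x) (D.a i) :=
    (hX.cont.comp continuous_ofReal.continuousOn (s := Ioi 0) fun x hx => ⟨le_rfl, by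
      rintro (h | ⟨j, hj, h⟩)
      · exact (ne_of_gt hx) (ofReal_eq_zero.1 h)
      · have h1 : x = -D.b j := by exact_mod_cast h
        have := hD.b_pos j hj
        have : 0 < x := hx
        linarith⟩).continuousAt (Ioi_mem_nhds h0)
  have him : ∀ s : Set ℝ, (𝓝[s] D.a i).NeBot → (∀ᶠ x : ℝ in 𝓝[s] D.a i, 0 < (D.P x).re) →
      (X (D.a i)).im = 0 := fun s _ h => tendsto_nhds_unique
    ((continuous_im.tendsto _).comp (hc.tendsto.mono_left (nhdsWithin_le_nhds (s := s))))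
    (tendsto_const_nhds.congr' (h.mono fun x hx => (hX.im0 x hx).symm))
  have hre : ∀ s : Set ℝ, (𝓝[s] D.a i).NeBot → (∀ᶠ x : ℝ in 𝓝[s] D.a i, (D.P x).re < 0) →
      (X (D.a i)).re = 0 := fun s _ h => tendsto_nhds_unique
    ((continuous_re.tendsto _).comp (hc.tendsto.mono_left (nhdsWithin_le_nhds (s := s))))
    (tendsto_const_nhds.congr' (h.mono fun x hx => (hX.re0 x hx).symm))
  have hle : ∀ j k, j ≤ k → k < D.p → D.a j ≤ D.a k := fun j k h hk =>
    h.eq_or_lt.elim (fun e => e ▸ le_rfl) fun h => (hD.a_lt j k h hk).le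
  have hl : ∀ᶠ x : ℝ in 𝓝[<] D.a i, 0 < sg i * (D.P x).re := by
    have h1 : ∀ᶠ x : ℝ in 𝓝 (D.a i), ∀ j ∈ Finset.range i, D.a j < x :=
      (Finset.eventually_all _).2 fun j hj =>
        eventually_gt_nhds (hD.a_lt j i (Finset.mem_range.1 hj) hi)
    filter_upwards [self_mem_nhdsWithin, h1.filter_mono nhdsWithin_le_nhds,
      (eventually_gt_nhds h0).filter_mono nhdsWithin_le_nhds] with x a1 a2 a3
    exact (hD.sign_pos a3 hi.le (fun j hj => a2 j (Finset.mem_range.2 hj))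
      fun j hj hj' => lt_of_lt_of_le a1 (hle i j hj hj')).1
  have hr : ∀ᶠ x : ℝ in 𝓝[>] D.a i, 0 < sg (i + 1) * (D.P x).re := by
    have h1 : ∀ᶠ x : ℝ in 𝓝 (D.a i), ∀ j ∈ Finset.Ico (i + 1) D.p, x < D.a j :=
      (Finset.eventually_all _).2 fun j hj =>
        eventually_lt_nhds (hD.a_lt i j (Finset.mem_Ico.1 hj).1 (Finset.mem_Ico.1 hj).2)
    filter_upwards [self_mem_nhdsWithin, h1.filter_mono nhdsWithin_le_nhds] with x a1 a2
    exact (hD.sign_pos (h0.trans a1) hi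
      (fun j hj => lt_of_le_of_lt (hle j i (Nat.le_of_lt_succ hj) hi) a1)
      fun j hj hj' => a2 j (Finset.mem_Ico.2 ⟨hj, hj'⟩)).1
  simp only [sg, pow_succ] at hl hr
  rcases neg_one_pow_eq_or ℝ i with e | e <;> rw [e] at hl hr
  · exact Complex.ext (hre _ inferInstance (hr.mono fun x hx => by linarith))
      (him _ inferInstance (hl.mono fun x hx => by linarith))
  · exact Complex.ext (hre _ inferInstance (hl.mono fun x hx => by linarith))
      (him _ inferInstance (hr.mono fun x hx => by linarith))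

theorem Xg_neg (t y : ℂ) : D.Xg X t (-y) = -D.Xg X t y := by
  unfold Xg
  split_ifs <;> simp [neg_div]

theorem Xg_Y {t : ℂ} (ht : 0 ≤ t.im) : D.Xg X t (D.Y t) = X t := by
  rw [Xg, if_pos ht, div_self (Y_ne t), one_mul]

theorem Sol.Xg_conj (hD : D.Ok) (hX : D.Sol X) {t y : ℂ} (hy : y ^ 2 = D.P t) :
    D.Xg X (conj t) (conj y) = conj (D.Xg X t y) := by
  rcases lt_trichotomy t.im 0 with h | h | h
  · rw [Xg, Xg, if_pos (by rw [conj_im]; linarith), if_neg h.not_ge, conj_conj]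
  · obtain ⟨x, rfl⟩ : ∃ x : ℝ, t = x := ⟨t.re, Complex.ext rfl h⟩
    rw [conj_ofReal, Xg, Xg, if_pos h.ge, if_pos h.ge, map_mul, map_div₀]
    rcases lt_trichotomy (D.P x).re 0 with h1 | h1 | h1
    · have e1 : conj (D.Y x) = -D.Y x := Complex.ext (by simp [Y_re h1]) (by simp)
      have e2 : conj (X x) = -X x := Complex.ext (by simp [hX.re0 x h1]) (by simp)
      rw [e1, e2]
      ring
    · have : y = 0 := pow_eq_zero_iff two_ne_zero |>.1 (hy.trans (Complex.ext h1 (P_im x)))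
      simp [this]
    · rw [conj_eq_iff_im.2 (Y_im h1), conj_eq_iff_im.2 (hX.im0 x h1)]
  · rw [Xg, Xg, if_neg (by rw [conj_im]; linarith), if_pos h.le, conj_conj, conj_conj]

theorem Xg_sq {t y : ℂ} (hy : y ^ 2 = D.P t) : conj y ^ 2 = D.P (conj t) := by
  rw [P_conj, ← hy, map_pow]

theorem Xg_isE {t : ℂ} (h : D.IsE (conj t)) : D.IsE t := by
  rcases h with h | ⟨j, hj, h⟩
  · exact Or.inl ((map_eq_zero _).1 h)
  · exact Or.inr ⟨j, hj, by rw [← conj_conj t, h, map_neg, conj_ofReal]⟩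

theorem Xg_nrm (hD : D.Ok) (hX : D.Sol X) {t y : ℂ} (hy : y ^ 2 = D.P t) (hE : ¬ D.IsE t) :
    ‖y / D.Y t * X t‖ = ‖X t‖ := by
  by_cases hP : D.P t = 0
  · rw [hX.X_a hD ((P_eq_zero.1 hP).resolve_left hE), mul_zero]
  · rcases sq_eq_sq_iff_eq_or_eq_neg.1 (hy.trans (Y_sq hP).symm) with e | e <;>
      simp [e, Y_ne]

theorem Sol.Xg_norm (hD : D.Ok) (hX : D.Sol X) {t y : ℂ} (hy : y ^ 2 = D.P t) (hE : ¬ D.IsE t) :
    ‖D.Xg X t y‖ = ‖X (if 0 ≤ t.im then t else conj t)‖ := by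
  unfold Xg
  split_ifs with h
  · exact Xg_nrm hD hX hy hE
  · rw [norm_conj]
    exact Xg_nrm hD hX (Xg_sq hy) fun h => hE (Xg_isE h)

theorem Sol.Xg_cont (hD : D.Ok) (hX : D.Sol X) :
    ContinuousOn (fun z : ℂ × ℂ => D.Xg X z.1 z.2) {z | z.2 ^ 2 = D.P z.1 ∧ ¬ D.IsE z.1} := by
  set S : Set (ℂ × ℂ) := {z | z.2 ^ 2 = D.P z.1 ∧ ¬ D.IsE z.1}
  have h1 : ContinuousOn (fun z : ℂ × ℂ => D.Xg X z.1 z.2) (S ∩ {z | 0 ≤ z.1.im}) := by
    refine ContinuousOn.congr (f := fun z : ℂ × ℂ => z.2 / D.Y z.1 * X z.1) (fun z hz => ?_)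
      fun z hz => if_pos hz.2
    have hx : ContinuousWithinAt (fun z : ℂ × ℂ => X z.1) (S ∩ {z | 0 ≤ z.1.im}) z :=
      (hX.cont.comp continuousOn_fst fun z hz => ⟨hz.2, hz.1.2⟩) z hz
    by_cases hP : D.P z.1 = 0
    · have h0 := hX.X_a hD ((P_eq_zero.1 hP).resolve_left hz.1.2)
      rw [ContinuousWithinAt, h0] at hx
      rw [ContinuousWithinAt, h0, mul_zero]
      rw [tendsto_zero_iff_norm_tendsto_zero] at hx ⊢
      exact hx.congr' (eventually_mem_nhdsWithin.mono fun u hu =>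
        (Xg_nrm hD hX hu.1.1 hu.1.2).symm)
    · have hy : ContinuousWithinAt D.Y {t | 0 ≤ t.im} z.1 :=
        (Y_cont z.1 ⟨hz.2, hP⟩).mono_of_mem_nhdsWithin
          (inter_mem_nhdsWithin _ (P_diff.continuous.continuousAt.eventually_ne hP))
      exact (continuousWithinAt_snd.div (hy.comp continuousWithinAt_fst fun u hu => hu.2)
        (Y_ne _)).mul hx
  have h2 : ContinuousOn (fun z : ℂ × ℂ => D.Xg X z.1 z.2) (S ∩ {z | z.1.im ≤ 0}) := by
    have hc : Continuous fun z : ℂ × ℂ => (conj z.1, conj z.2) := by fun_prop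
    refine (continuous_conj.comp_continuousOn (h1.comp hc.continuousOn fun z hz =>
      ⟨⟨Xg_sq hz.1.1, fun h => hz.1.2 (Xg_isE h)⟩, ?_⟩)).congr fun z hz => ?_
    · have : z.1.im ≤ 0 := hz.2
      change 0 ≤ (conj z.1).im
      rw [conj_im]
      linarith
    · simp only [Function.comp_apply]
      rw [hX.Xg_conj hD hz.1.1, conj_conj]
  have key : ∀ K : Set (ℂ × ℂ), IsClosed K →
      ContinuousOn (fun z : ℂ × ℂ => D.Xg X z.1 z.2) (S ∩ K) → ∀ z ∈ S,
      ContinuousWithinAt (fun z : ℂ × ℂ => D.Xg X z.1 z.2) (S ∩ K) z := fun K hK h z hz => by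
    by_cases hz' : z ∈ K
    · exact h z ⟨hz, hz'⟩
    · exact continuousWithinAt_of_notMem_closure fun c =>
        hz' (closure_minimal inter_subset_right hK c)
  intro z hz
  refine ((key _ (isClosed_le (by fun_prop) (by fun_prop)) h1 z hz).union
    (key _ (isClosed_le (by fun_prop) (by fun_prop)) h2 z hz)).mono fun u hu => ?_
  exact (le_total 0 u.1.im).imp (fun h => ⟨hu, h⟩) fun h => ⟨hu, h⟩

theorem Xg_up (hD : D.Ok) (hX : D.Pre X) {T Yl : ℂ → ℂ} {L : ℂ →L[ℝ] ℂ} {w : ℂ}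
    (hT : HasFDerivAt T L w) (hY : ContinuousAt Yl w)
    (hsq : ∀ᶠ v in 𝓝 w, Yl v ^ 2 = D.P (T v)) (him : 0 < (T w).im) :
    HasFDerivAt (fun v => Yl v / D.Y (T v) * X (T v))
      ((wl (Yl w * D.R (T w) / T w) (Yl w * D.R (T w) * T w)⁻¹).comp L) w := by
  have hu : ContinuousAt (fun v => Yl v / D.Y (T v)) w :=
    hY.div ((Y_diff him).continuousAt.comp hT.continuousAt) (Y_ne _)
  have h1 : ∀ᶠ v in 𝓝 w, (Yl v / D.Y (T v)) ^ 2 = 1 := by
    filter_upwards [hsq, continuousAt_const.eventually_lt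
      (continuous_im.continuousAt.comp hT.continuousAt) him] with v a1 a2
    rw [div_pow, a1, Y_sq (ne_of_im a2.ne'), div_self (ne_of_im a2.ne')]
  have h2 := h1.self_of_nhds
  obtain ⟨s, hs⟩ : ∃ s, s = Yl w / D.Y (T w) := ⟨_, rfl⟩
  have h3 : ∀ᶠ v in 𝓝 w, Yl v / D.Y (T v) ≠ -s := hu.eventually_ne (by
    rw [← hs] at h2 ⊢
    intro e
    have : s = 0 := by linear_combination e / 2
    simp [this] at h2)
  have h4 : Yl w * D.R (T w) = s * D.G (T w) := by
    rw [hD.G_eq (ne_of_im him.ne'), hs, ← mul_assoc, div_mul_cancel₀ _ (Y_ne _)]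
  rw [← hs] at h2
  refine ((((hX.der _ him).comp w hT).const_mul s).congr_fderiv ?_).congr_of_eventuallyEq ?_
  · refine ContinuousLinearMap.ext fun v => ?_
    rw [h4]
    rcases sq_eq_one_iff.1 h2 with e | e <;> simp [e, wl_apply, neg_div]
    ring
  · filter_upwards [h1, h3] with v a1 a2
    rw [(sq_eq_sq_iff_eq_or_eq_neg.1 (a1.trans h2.symm)).resolve_right a2]
    rfl

theorem Pre.Xg_der (hD : D.Ok) (hX : D.Pre X) {T Yl : ℂ → ℂ} {T' w : ℂ} (hT : HasDerivAt T T' w)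
    (hY : ContinuousAt Yl w) (hsq : ∀ᶠ v in 𝓝 w, Yl v ^ 2 = D.P (T v)) (him : (T w).im ≠ 0) :
    HasFDerivAt (fun v => D.Xg X (T v) (Yl v))
      (wl (Yl w * D.R (T w) / T w * T') ((Yl w * D.R (T w) * T w)⁻¹ * T')) w := by
  have hT' := hT.hasFDerivAt.restrictScalars ℝ
  rcases him.lt_or_gt with h | h
  · have h1 := Xg_up hD hX (T := fun v => conj (T v)) (Yl := fun v => conj (Yl v))
      ((conjCLE : ℂ →L[ℝ] ℂ).hasFDerivAt.comp w hT') (continuous_conj.continuousAt.comp hY)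
      (hsq.mono fun v hv => Xg_sq hv) (by rw [conj_im]; linarith)
    have h2 := (conjCLE : ℂ →L[ℝ] ℂ).hasFDerivAt.comp w h1
    refine (h2.congr_fderiv ?_).congr_of_eventuallyEq ?_
    · refine ContinuousLinearMap.ext fun v => ?_
      simp [wl_apply, R_conj]
      ring
    · filter_upwards [(continuous_im.continuousAt.comp hT.continuousAt).eventually_lt
        continuousAt_const h] with v hv
      exact if_neg (not_le.2 hv)
  · refine ((Xg_up hD hX hT' hY hsq h).congr_fderiv ?_).congr_of_eventuallyEq ?_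
    · refine ContinuousLinearMap.ext fun v => ?_
      simp [wl_apply]
      ring
    · filter_upwards [continuousAt_const.eventually_lt
        (continuous_im.continuousAt.comp hT.continuousAt) h] with v hv
      exact if_pos hv.le

end Dat

end Pool.Agent.MP_92463a_gt
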