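import Pool.Agent.MP_92463a_gt.WBas
import Pool.Agent.MP_92463a_gt.Xg

open Set Complex Filter Metric
open scoped Topology ComplexConjugate ContDiff Manifold

noncomputable section

namespace Pool.Agent.MP_92463a_gt

namespace Wd

variable {ι : Type} [Fintype ι] {W : Wd ι} {X : ℂ → ℂ}

theorem SolX.X_a (h : W.Ok1) (hX : W.SolX X) {t : ℂ} (ha : W.D.IsA t) : X t = 0 := by
  have hO : t ∈ W.Om := (h.zero_fd (Dat.P_eq_zero.2 (Or.inr ha))).2
  have hD := h.d
  obtain ⟨i, hi, rfl⟩ := ha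
  have h0 := hD.a_pos i hi
  have hOe : ∀ᶠ x : ℝ in 𝓝 (W.D.a i), (x : ℂ) ∈ W.Om :=
    continuous_ofReal.continuousAt.eventually_mem (Pl.isOpen_om.mem_nhds hO)
  have hc : ContinuousAt (fun x : ℝ => X x) (W.D.a i) :=
    (hX.cont.comp continuous_ofReal.continuousOn (s := {x : ℝ | 0 < x ∧ (x : ℂ) ∈ W.Om})
      fun x hx => ⟨⟨le_rfl, by
      rintro (h | ⟨j, hj, h⟩)
      · exact (ne_of_gt hx.1) (ofReal_eq_zero.1 h)
      · have h1 : x = -W.D.b j := by exact_mod_cast h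
        have := hD.b_pos j hj
        have : 0 < x := hx.1
        linarith⟩, hx.2⟩).continuousAt ((eventually_gt_nhds h0).and hOe)
  have him : ∀ s : Set ℝ, (𝓝[s] W.D.a i).NeBot →
      (∀ᶠ x : ℝ in 𝓝[s] W.D.a i, 0 < (W.D.P x).re) →
      (X (W.D.a i)).im = 0 := fun s _ h => tendsto_nhds_unique
    ((continuous_im.tendsto _).comp (hc.tendsto.mono_left (nhdsWithin_le_nhds (s := s))))
    (tendsto_const_nhds.congr' ((h.and (hOe.filter_mono nhdsWithin_le_nhds)).mono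
      fun x hx => (hX.im0 x hx.2 hx.1).symm))
  have hre : ∀ s : Set ℝ, (𝓝[s] W.D.a i).NeBot →
      (∀ᶠ x : ℝ in 𝓝[s] W.D.a i, (W.D.P x).re < 0) →
      (X (W.D.a i)).re = 0 := fun s _ h => tendsto_nhds_unique
    ((continuous_re.tendsto _).comp (hc.tendsto.mono_left (nhdsWithin_le_nhds (s := s))))
    (tendsto_const_nhds.congr' ((h.and (hOe.filter_mono nhdsWithin_le_nhds)).mono
      fun x hx => (hX.re0 x hx.2 hx.1).symm))
  have hle : ∀ j k, j ≤ k → k < W.D.p → W.D.a j ≤ W.D.a k := fun j k h hk =>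
    h.eq_or_lt.elim (fun e => e ▸ le_rfl) fun h => (hD.a_lt j k h hk).le
  have hl : ∀ᶠ x : ℝ in 𝓝[<] W.D.a i, 0 < sg i * (W.D.P x).re := by
    have h1 : ∀ᶠ x : ℝ in 𝓝 (W.D.a i), ∀ j ∈ Finset.range i, W.D.a j < x :=
      (Finset.eventually_all _).2 fun j hj =>
        eventually_gt_nhds (hD.a_lt j i (Finset.mem_range.1 hj) hi)
    filter_upwards [self_mem_nhdsWithin, h1.filter_mono nhdsWithin_le_nhds,
      (eventually_gt_nhds h0).filter_mono nhdsWithin_le_nhds] with x a1 a2 a3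
    exact (hD.sign_pos a3 hi.le (fun j hj => a2 j (Finset.mem_range.2 hj))
      fun j hj hj' => lt_of_lt_of_le a1 (hle i j hj hj')).1
  have hr : ∀ᶠ x : ℝ in 𝓝[>] W.D.a i, 0 < sg (i + 1) * (W.D.P x).re := by
    have h1 : ∀ᶠ x : ℝ in 𝓝 (W.D.a i), ∀ j ∈ Finset.Ico (i + 1) W.D.p, x < W.D.a j :=
      (Finset.eventually_all _).2 fun j hj =>
        eventually_lt_nhds (hD.a_lt i j (Finset.mem_Ico.1 hj).1 (Finset.mem_Ico.1 hj).2)
    filter_upwards [self_mem_nhdsWithin, h1.filter_mono nhdsWithin_le_nhds] with x a1 a2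
    exact (hD.sign_pos (h0.trans a1) hi
      (fun j hj => lt_of_le_of_lt (hle j i (Nat.le_of_lt_succ hj) hi) a1)
      fun j hj hj' => a2 j (Finset.mem_Ico.2 ⟨hj, hj'⟩)).1
  simp only [sg, pow_succ] at hl hr
  rcases neg_one_pow_eq_or ℝ i with e | e <;> rw [e] at hl hr
  · exact Complex.ext (hre _ inferInstance (hr.mono fun x hx => by linarith))
      (him _ inferInstance (hl.mono fun x hx => by linarith))
  · exact Complex.ext (hre _ inferInstance (hl.mono fun x hx => by linarith))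
      (him _ inferInstance (hr.mono fun x hx => by linarith))

theorem SolX.Xg_conj (h : W.Ok1) (hX : W.SolX X) {t y : ℂ} (ht : t ∈ W.Om)
    (hy : y ^ 2 = W.D.P t) : W.D.Xg X (conj t) (conj y) = conj (W.D.Xg X t y) := by
  rcases lt_trichotomy t.im 0 with h | h | h
  · rw [Dat.Xg, Dat.Xg, if_pos (by rw [conj_im]; linarith), if_neg h.not_ge, conj_conj]
  · obtain ⟨x, rfl⟩ : ∃ x : ℝ, t = x := ⟨t.re, Complex.ext rfl h⟩
    rw [conj_ofReal, Dat.Xg, Dat.Xg, if_pos h.ge, if_pos h.ge, map_mul, map_div₀]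
    rcases lt_trichotomy (W.D.P x).re 0 with h1 | h1 | h1
    · have e1 : conj (W.D.Y x) = -W.D.Y x := Complex.ext (by simp [Dat.Y_re h1]) (by simp)
      have e2 : conj (X x) = -X x := Complex.ext (by simp [hX.re0 x ht h1]) (by simp)
      rw [e1, e2]
      ring
    · have : y = 0 := pow_eq_zero_iff two_ne_zero |>.1 (hy.trans (Complex.ext h1 (Dat.P_im x)))
      simp [this]
    · rw [conj_eq_iff_im.2 (Dat.Y_im h1), conj_eq_iff_im.2 (hX.im0 x ht h1)]
  · rw [Dat.Xg, Dat.Xg, if_neg (by rw [conj_im]; linarith), if_pos h.le, conj_conj, conj_conj]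

theorem WXg_nrm (h : W.Ok1) (hX : W.SolX X) {t y : ℂ} (hy : y ^ 2 = W.D.P t)
    (hE : ¬ W.D.IsE t) : ‖y / W.D.Y t * X t‖ = ‖X t‖ := by
  by_cases hP : W.D.P t = 0
  · rw [hX.X_a h ((Dat.P_eq_zero.1 hP).resolve_left hE), mul_zero]
  · rcases sq_eq_sq_iff_eq_or_eq_neg.1 (hy.trans (Dat.Y_sq hP).symm) with e | e <;>
      simp [e, Dat.Y_ne]

theorem SolX.Xg_norm (h : W.Ok1) (hX : W.SolX X) {t y : ℂ} (hy : y ^ 2 = W.D.P t)
    (hE : ¬ W.D.IsE t) : ‖W.D.Xg X t y‖ = ‖X (if 0 ≤ t.im then t else conj t)‖ := by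
  unfold Dat.Xg
  split_ifs with h1
  · exact WXg_nrm h hX hy hE
  · rw [norm_conj]
    exact WXg_nrm h hX (Dat.Xg_sq hy) fun h => hE (Dat.Xg_isE h)

theorem SolX.Xg_cont (h : W.Ok1) (hX : W.SolX X) :
    ContinuousOn (fun z : ℂ × ℂ => W.D.Xg X z.1 z.2)
      {z | z.2 ^ 2 = W.D.P z.1 ∧ ¬ W.D.IsE z.1 ∧ z.1 ∈ W.Om} := by
  set S : Set (ℂ × ℂ) := {z | z.2 ^ 2 = W.D.P z.1 ∧ ¬ W.D.IsE z.1 ∧ z.1 ∈ W.Om}
  have h1 : ContinuousOn (fun z : ℂ × ℂ => W.D.Xg X z.1 z.2) (S ∩ {z | 0 ≤ z.1.im}) := by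
    refine ContinuousOn.congr (f := fun z : ℂ × ℂ => z.2 / W.D.Y z.1 * X z.1) (fun z hz => ?_)
      fun z hz => if_pos hz.2
    have hx : ContinuousWithinAt (fun z : ℂ × ℂ => X z.1) (S ∩ {z | 0 ≤ z.1.im}) z :=
      (hX.cont.comp continuousOn_fst fun z hz => ⟨⟨hz.2, hz.1.2.1⟩, hz.1.2.2⟩) z hz
    by_cases hP : W.D.P z.1 = 0
    · have h0 := hX.X_a h ((Dat.P_eq_zero.1 hP).resolve_left hz.1.2.1)
      rw [ContinuousWithinAt, h0] at hx
      rw [ContinuousWithinAt, h0, mul_zero]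
      rw [tendsto_zero_iff_norm_tendsto_zero] at hx ⊢
      exact hx.congr' (eventually_mem_nhdsWithin.mono fun u hu =>
        (WXg_nrm h hX hu.1.1 hu.1.2.1).symm)
    · have hy : ContinuousWithinAt W.D.Y {t | 0 ≤ t.im} z.1 :=
        (Dat.Y_cont z.1 ⟨hz.2, hP⟩).mono_of_mem_nhdsWithin
          (inter_mem_nhdsWithin _ (Dat.P_diff.continuous.continuousAt.eventually_ne hP))
      exact (continuousWithinAt_snd.div (hy.comp continuousWithinAt_fst fun u hu => hu.2)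
        (Dat.Y_ne _)).mul hx
  have h2 : ContinuousOn (fun z : ℂ × ℂ => W.D.Xg X z.1 z.2) (S ∩ {z | z.1.im ≤ 0}) := by
    have hc : Continuous fun z : ℂ × ℂ => (conj z.1, conj z.2) := by fun_prop
    refine (continuous_conj.comp_continuousOn (h1.comp hc.continuousOn fun z hz =>
      ⟨⟨Dat.Xg_sq hz.1.1, fun h => hz.1.2.1 (Dat.Xg_isE h), h.sy.om hz.1.2.2⟩, ?_⟩)).congr
      fun z hz => ?_
    · have : z.1.im ≤ 0 := hz.2
      change 0 ≤ (conj z.1).im
      rw [conj_im]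
      linarith
    · simp only [Function.comp_apply]
      rw [hX.Xg_conj h hz.1.2.2 hz.1.1, conj_conj]
  have key : ∀ K : Set (ℂ × ℂ), IsClosed K →
      ContinuousOn (fun z : ℂ × ℂ => W.D.Xg X z.1 z.2) (S ∩ K) → ∀ z ∈ S,
      ContinuousWithinAt (fun z : ℂ × ℂ => W.D.Xg X z.1 z.2) (S ∩ K) z := fun K hK h z hz => by
    by_cases hz' : z ∈ K
    · exact h z ⟨hz, hz'⟩
    · exact continuousWithinAt_of_notMem_closure fun c =>
        hz' (closure_minimal inter_subset_right hK c)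
  intro z hz
  refine ((key _ (isClosed_le (by fun_prop) (by fun_prop)) h1 z hz).union
    (key _ (isClosed_le (by fun_prop) (by fun_prop)) h2 z hz)).mono fun u hu => ?_
  exact (le_total 0 u.1.im).imp (fun h => ⟨hu, h⟩) fun h => ⟨hu, h⟩

theorem WXg_up (h : W.Ok1) (hX : W.Pre X) {T Yl : ℂ → ℂ} {L : ℂ →L[ℝ] ℂ} {w : ℂ}
    (hT : HasFDerivAt T L w) (hY : ContinuousAt Yl w)
    (hsq : ∀ᶠ v in 𝓝 w, Yl v ^ 2 = W.D.P (T v)) (him : 0 < (T w).im) (hO : T w ∈ W.Om) :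
    HasFDerivAt (fun v => Yl v / W.D.Y (T v) * X (T v))
      ((wl (W.ψ₁ (T w) ^ 2 * (Yl w * W.D.R (T w) / T w))
        (W.ψ₂ (T w) ^ 2 * (Yl w * W.D.R (T w) * T w)⁻¹)).comp L) w := by
  have hu : ContinuousAt (fun v => Yl v / W.D.Y (T v)) w :=
    hY.div ((Dat.Y_diff him).continuousAt.comp hT.continuousAt) (Dat.Y_ne _)
  have h1 : ∀ᶠ v in 𝓝 w, (Yl v / W.D.Y (T v)) ^ 2 = 1 := by
    filter_upwards [hsq, continuousAt_const.eventually_lt
      (continuous_im.continuousAt.comp hT.continuousAt) him] with v a1 a2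
    rw [div_pow, a1, Dat.Y_sq (Dat.ne_of_im a2.ne'), div_self (Dat.ne_of_im a2.ne')]
  have h2 := h1.self_of_nhds
  obtain ⟨s, hs⟩ : ∃ s, s = Yl w / W.D.Y (T w) := ⟨_, rfl⟩
  have h3 : ∀ᶠ v in 𝓝 w, Yl v / W.D.Y (T v) ≠ -s := hu.eventually_ne (by
    rw [← hs] at h2 ⊢
    intro e
    have : s = 0 := by linear_combination e / 2
    simp [this] at h2)
  have h4 : Yl w * W.D.R (T w) = s * W.D.G (T w) := by
    rw [h.d.G_eq (Dat.ne_of_im him.ne'), hs, ← mul_assoc, div_mul_cancel₀ _ (Dat.Y_ne _)]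
  rw [← hs] at h2
  refine ((((hX.der _ hO him).comp w hT).const_mul s).congr_fderiv ?_).congr_of_eventuallyEq ?_
  · refine ContinuousLinearMap.ext fun v => ?_
    rw [h4]
    rcases sq_eq_one_iff.1 h2 with e | e <;> simp [e, wl_apply, neg_div, F1, F2]
    ring
  · filter_upwards [h1, h3] with v a1 a2
    rw [(sq_eq_sq_iff_eq_or_eq_neg.1 (a1.trans h2.symm)).resolve_right a2]
    rfl

theorem Pre.Xg_der (h : W.Ok1) (hX : W.Pre X) {T Yl : ℂ → ℂ} {T' w : ℂ} (hT : HasDerivAt T T' w)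
    (hY : ContinuousAt Yl w) (hsq : ∀ᶠ v in 𝓝 w, Yl v ^ 2 = W.D.P (T v)) (him : (T w).im ≠ 0)
    (hO : T w ∈ W.Om) :
    HasFDerivAt (fun v => W.D.Xg X (T v) (Yl v))
      (wl (W.ψ₁ (T w) ^ 2 * (Yl w * W.D.R (T w) / T w) * T')
        (W.ψ₂ (T w) ^ 2 * (Yl w * W.D.R (T w) * T w)⁻¹ * T')) w := by
  have hT' := hT.hasFDerivAt.restrictScalars ℝ
  rcases him.lt_or_gt with h0 | h0
  · have h1 := WXg_up h hX (T := fun v => conj (T v)) (Yl := fun v => conj (Yl v))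
      ((conjCLE : ℂ →L[ℝ] ℂ).hasFDerivAt.comp w hT') (continuous_conj.continuousAt.comp hY)
      (hsq.mono fun v hv => Dat.Xg_sq hv) (by rw [conj_im]; linarith) (h.sy.om hO)
    have h2 := (conjCLE : ℂ →L[ℝ] ℂ).hasFDerivAt.comp w h1
    refine (h2.congr_fderiv ?_).congr_of_eventuallyEq ?_
    · refine ContinuousLinearMap.ext fun v => ?_
      simp [wl_apply, Dat.R_conj, h.ψ₁_conj hO, h.ψconj _ hO]
      ring
    · filter_upwards [(continuous_im.continuousAt.comp hT.continuousAt).eventually_lt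
        continuousAt_const h0] with v hv
      exact if_neg (not_le.2 hv)
  · refine ((WXg_up h hX hT' hY hsq h0 hO).congr_fderiv ?_).congr_of_eventuallyEq ?_
    · refine ContinuousLinearMap.ext fun v => ?_
      simp [wl_apply]
      ring
    · filter_upwards [continuousAt_const.eventually_lt
        (continuous_im.continuousAt.comp hT.continuousAt) h0] with v hv
      exact if_pos hv.le

end Wd

end Pool.Agent.MP_92463a_gt
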