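import Pool.Agent.MP_92463a_gt.CfI1
import Pool.Agent.MP_92463a_gt.WXg

open Set Complex Filter Metric
open scoped Topology ComplexConjugate ContDiff Manifold

noncomputable section

namespace Pool.Agent.MP_92463a_gt

variable {γ : ℕ} {α : Type} {l : Filter α} {C : α → Cfg γ} {D₀ : Dat} {z₀ : Zs γ}

theorem CfI2_fm {C : Cfg γ} (h : C.Adm) {b : Bool} {τ : ℂ} (hi : 0 ≤ τ.im) (h₀ : τ ≠ 0)
    (h₁ : ‖τ‖ < C.D.b 0 / 2) (hl : ‖C.D.lam (jj b) τ‖ ≤ 1) {m A : ℝ} (hm : 0 < m)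
    (hc : m ≤ ‖C.cm b‖) (hb : m ≤ C.bb b) (hA : ‖C.wd.ψs b (-C.bb b + τ)‖ ^ 2 * ‖τ‖ ^ 3 ≤ A) :
    ‖C.fm b τ‖ ≤ A * (6 / m ^ 4) * ‖C.cm b‖ * ‖τ‖ ^ (-3 / 2 : ℝ) := by
  have hτ : 0 < ‖τ‖ := norm_pos_iff.2 h₀
  have ht : 0 < ‖τ‖ ^ (-3 / 2 : ℝ) := Real.rpow_pos_of_pos hτ _
  have e : ‖τ‖ ^ (3 / 2 : ℝ) = ‖τ‖ ^ 3 * ‖τ‖ ^ (-3 / 2 : ℝ) := by
    rw [← Real.rpow_natCast, ← Real.rpow_add hτ]
    norm_num
  have h2 : ‖exp (sg (jj b) * C.D.lam (jj b) τ)‖ ≤ 3 := by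
    refine (norm_exp_le_exp_norm _).trans (le_trans (Real.exp_le_exp.2 ?_) Real.exp_one_lt_three.le)
    rw [norm_mul, norm_real, sg, norm_pow, norm_neg, norm_one, one_pow, one_mul]
    exact hl
  have h3 : m / 2 ≤ ‖(C.bb b : ℂ) - τ‖ := by
    have := norm_sub_norm_le (C.bb b : ℂ) τ
    rw [norm_real, Real.norm_of_nonneg (hm.le.trans hb)] at this
    linarith [(h.bb b).2.1]
  have h4 : ‖exp (sg (jj b) * C.D.lam (jj b) τ) / (C.bb b * (C.bb b - τ))‖ ≤ 6 / m ^ 2 := by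
    rw [norm_div, norm_mul, norm_real, Real.norm_of_nonneg (hm.le.trans hb)]
    have hb0 : 0 ≤ C.bb b := hm.le.trans hb
    calc _ ≤ 3 / (m * (m / 2)) := by gcongr
      _ = 6 / m ^ 2 := by field_simp; norm_num
  have hA0 : 0 ≤ A := le_trans (by positivity) hA
  have hc0 : 0 < ‖C.cm b‖ := hm.trans_le hc
  rw [(h.fM_eq b hi h₀ h₁).2, norm_mul, norm_div, norm_mul, norm_pow, norm_pw _ h₀, e,
    ← mul_assoc]
  calc _ ≤ A * ‖τ‖ ^ (-3 / 2 : ℝ) / m * (6 / m ^ 2) := by gcongr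
    _ = A * (6 / m ^ 4) * m * ‖τ‖ ^ (-3 / 2 : ℝ) := by field_simp
    _ ≤ _ := by gcongr

theorem CfI2_cont {C : Cfg γ} (h : C.Good) (b : Bool) {δ : ℝ} (hδ : δ ≤ C.D.b 0 / 2) :
    ContinuousOn (C.fM b) (SS (C.TT b) (C.mm b) δ) ∧
      ContinuousOn (C.fm b) (SS (C.TT b) (C.mm b) δ) := by
  have h1 : ContinuousOn (fun τ => C.wd.F1 (-C.bb b + τ)) (SS (C.TT b) (C.mm b) δ) :=
    h.ok1.F_cont.1.comp (by fun_prop) fun τ hτ => (h.g0.ss hδ hτ).1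
  have h2 : ContinuousOn (fun τ => C.wd.F2 (-C.bb b + τ)) (SS (C.TT b) (C.mm b) δ) :=
    h.ok1.F_cont.2.comp (by fun_prop) fun τ hτ => (h.g0.ss hδ hτ).1
  cases b
  · exact ⟨h2, h1⟩
  · exact ⟨h1, h2⟩

theorem CfI2_pos {C : Cfg γ} (h : C.Adm) (b : Bool) {ε : ℝ} (hε : ε ≤ 1 / γ) (k : Fin γ) :
    (C.τ (k, b)).im = 0 ∨ ε * ‖C.τ (k, b)‖ ≤ |(C.τ (k, b)).im| := by
  have h1 : ε * ‖C.τ (k, b)‖ ≤ ‖C.τ (k, b)‖ / γ := by
    rw [div_eq_inv_mul, ← one_div]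
    gcongr
  rcases lt_trichotomy (2 * (k : ℕ) + 1) γ with hk | hk | hk
  · exact Or.inr (h1.trans ((le_neg.1 (h.im_low hk b)).trans (neg_le_abs _)))
  · left
    cases b
    · rw [(h.mid hk).2.2.2.1, ofReal_im]
    · rw [(h.mid hk).2.2.2.2, neg_im, ofReal_im, neg_zero]
  · exact Or.inr (h1.trans ((h.im_up hk b).trans (le_abs_self _)))

theorem CfI2_sign {D : Dat} (hD : D.Ok) {j : ℕ} (hj : j < D.q) {r : ℝ} (h0 : 0 < r)
    (hr : r < D.b 0 / 2) : sg j * (D.P (-D.b j + r : ℝ)).re < 0 ∧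
      sg (j + 1) * (D.P (-D.b j + -r : ℝ)).re < 0 := by
  have h1 := hD.b0_le hj
  have h2 := hD.b_pos j hj
  constructor
  · refine (hD.sign_neg (by linarith) hj.le (fun i hi => ?_) fun i hi hi' => ?_).1
    · have := hD.b_gap i j hi hj
      have := hD.b0_le (hi.trans hj)
      linarith
    · rcases hi.eq_or_lt with rfl | hi
      · linarith
      · have := hD.b_gap j i hi hi'
        linarith
  · refine (hD.sign_neg (by linarith) hj (fun i hi => ?_) fun i hi hi' => ?_).1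
    · rcases (Nat.lt_succ_iff.1 hi).eq_or_lt with rfl | hi
      · linarith
      · have := hD.b_gap i j hi hj
        have := hD.b_pos i (hi.trans hj)
        linarith
    · have := hD.b_gap j i hi hi'
      linarith

theorem CfI2_small (h : Lim l C D₀ z₀) [l.NeBot] : ∀ᶠ δ in 𝓝[>] (0 : ℝ), ∀ᶠ x in l,
    δ ≤ (C x).D.b 0 / 2 := by
  obtain ⟨m, hm, M, hb⟩ := h.bds
  have hγ : 0 < γ := h.adm.exists.choose_spec.pos
  filter_upwards [Ioo_mem_nhdsGT (half_pos hm)] with δ hδ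
  filter_upwards [hb] with x hx
  have : m ≤ (C x).D.b 0 := (hx.2 (⟨0, hγ⟩, false)).2.2.2.2.2.1
  linarith [hδ.2]

theorem Lim.sh0 (h : Lim l C D₀ z₀) : ∃ K, ∀ᶠ ε in 𝓝[>] (0 : ℝ), ∀ᶠ δ in 𝓝[>] (0 : ℝ),
    ∀ᶠ x in l, ∀ b, Sh0 ((C x).TT b) ((C x).mm b) ((C x).RR b) δ ε K ((C x).cm b) ((C x).fM b)
      ((C x).fm b) := by
  rcases l.eq_or_neBot with rfl | hl
  · exact ⟨0, Eventually.of_forall fun _ => Eventually.of_forall fun _ => eventually_bot⟩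
  obtain ⟨m, hm, M, hb⟩ := h.bds
  obtain ⟨K, hK⟩ := h.ps_bd
  have hγ : 0 < γ := h.adm.exists.choose_spec.pos
  have hγ' : (0 : ℝ) < γ := by exact_mod_cast hγ
  refine ⟨max 1 (K * (6 / m ^ 4)), ?_⟩
  filter_upwards [Ioo_mem_nhdsGT (show (0 : ℝ) < 1 / 100 by norm_num),
    Ioo_mem_nhdsGT (show (0 : ℝ) < 1 / γ / 2 by positivity)] with ε hε hε'
  have hq := h.q
  filter_upwards [self_mem_nhdsWithin, CfI2_small h, h.fM ε hε.1,
    hK (min ε (ε * (m ^ 4 / 6))) (lt_min hε.1 (by have := hε.1; positivity)),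
    h.D.lam_small (j := 0) (by omega) 1 one_pos, h.D.lam_small (j := 1) (by omega) 1 one_pos]
    with δ hδ e1 e2 e3 e4 e5
  have e6 : ∀ᶠ x in l, ∀ b, 4 * (C x).RR b ≤ δ := eventually_all.2 fun b => by
    have := (h.tau0 (⟨0, hγ⟩, b)).2.2.2.const_mul 4
    rw [mul_zero] at this
    exact (this.eventually_lt_const hδ).mono fun _ => le_of_lt
  have e7 : ∀ᶠ x in l, ∀ k, ‖(C x).vs k‖ ≤ ε := eventually_all.2 fun k => by
    have := (h.vs0 k).1.norm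
    rw [norm_zero] at this
    exact (this.eventually_lt_const hε.1).mono fun _ => le_of_lt
  filter_upwards [h.fine, hb, e1, e2, e3, e4, e5, e6, e7] with x f0 f1 f2 f3 f4 f5 f6 f7 f8 b
  have g0 := f0.toGood.g0
  have ha := g0.toAdm
  have hfm : ∀ τ ∈ SS ((C x).TT b) ((C x).mm b) δ, ∀ A : ℝ,
      ‖(C x).wd.ψs b (-(C x).bb b + τ)‖ ^ 2 * ‖τ‖ ^ 3 ≤ A →
      ‖(C x).fm b τ‖ ≤ A * (6 / m ^ 4) * ‖(C x).cm b‖ * ‖τ‖ ^ (-3 / 2 : ℝ) := fun τ hτ A hA => by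
    refine CfI2_fm ha hτ.1 hτ.2.1 (hτ.2.2.1.trans_le f2) ?_ hm
      (f1.2 (⟨0, hγ⟩, b)).2.2.2.2.1.1 (f1.2 (⟨0, hγ⟩, b)).2.2.2.2.2.1 hA
    cases b
    · exact f5 τ hτ.2.2.1.le
    · exact f6 τ hτ.2.2.1.le
  refine ⟨hε.1, hε.2.le, le_max_left _ _, ha.cm.1 b, Cfg.RR_pos b, f7 b, fun k => ha.rad (k, b),
    fun k => ?_, fun j k hjk => le_trans ?_ (ha.sep hjk b).1, fun k => CfI2_pos ha b ?_ k,
    (CfI2_cont f0.toGood b f2).1, (CfI2_cont f0.toGood b f2).2, f3 b, fun τ hτ hf => ?_,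
    fun τ hτ => ?_⟩
  · rw [Cfg.mm, g0.mu_eq, Cfg.TT, mul_comm ε]
    exact ⟨mul_pos (norm_pos_iff.2 (Cfg.τ_ne _)) (norm_pos_iff.2 (g0.vs_ne k)),
      mul_le_mul_of_nonneg_left (f8 k) (norm_nonneg _)⟩
  · have e : (3 : ℝ) / γ = 3 * (1 / γ) := by ring
    have := hε'.2
    have := hε.1
    linarith
  · have := hε'.2
    have := hε.1
    linarith
  · refine (hfm τ hτ _ (((f4 b τ hτ).2 fun k => le_trans ?_ (hf k)).trans
      (min_le_right _ _))).trans (le_of_eq ?_)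
    · exact mul_le_mul_of_nonneg_right (min_le_left _ _) (norm_nonneg _)
    · congr 2
      field_simp
  · refine (hfm τ hτ _ (f4 b τ hτ).1).trans ?_
    gcongr
    exact le_max_right _ _

theorem Cfg.Good.sheet {C : Cfg γ} (h : C.Good) {X : ℂ → ℂ} (hX : C.wd.SolX X) {b : Bool}
    {δ ε K : ℝ} (hδ : δ ≤ C.D.b 0 / 2)
    (hs : Sh0 (C.TT b) (C.mm b) (C.RR b) δ ε K (C.cm b) (C.fM b) (C.fm b)) :
    Sheet (C.TT b) (C.mm b) (C.RR b) δ ε K (C.cm b) (C.fM b) (C.fm b) (C.Xh X b) := by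
  have hP := ((hX.toPre.pathP h.ok1).shift (-C.bb b)).mono fun τ hτ => (h.g0.ss hδ hτ).1
  refine ⟨hs, ?_, fun r hr h1 h2 => ?_⟩
  · cases b
    · exact hP.swap
    · exact hP
  · have h3 : r < C.D.b 0 / 2 := by
      have := h1.2.2.1
      rw [norm_real, Real.norm_of_nonneg hr.le] at this
      exact this.trans_le hδ
    obtain ⟨s1, s2⟩ := CfI2_sign h.d (h.toAdm.jj_lt b) hr h3
    have o1 := (h.g0.ss hδ h1).1.2.2
    have o2 := (h.g0.ss hδ h2).1.2.2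
    have e1 : (-C.bb b + r : ℂ) = (-C.D.b (jj b) + r : ℝ) := by rw [Cfg.bb]; push_cast; rfl
    have e2 : (-C.bb b + -r : ℂ) = (-C.D.b (jj b) + -r : ℝ) := by rw [Cfg.bb]; push_cast; rfl
    rw [e1] at o1
    rw [e2] at o2
    cases b
    · refine Or.inr ⟨h.toAdm.cm.2.2.1, ?_, ?_⟩
      · have := hX.re0 _ o1 (by simpa [sg, jj, Cfg.wd] using s1)
        rw [← e1] at this
        simpa [Cfg.Xh] using this
      · have := hX.im0 _ o2 (by simpa [sg, jj, Cfg.wd] using s2)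
        rw [← e2] at this
        simpa [Cfg.Xh] using this
    · refine Or.inl ⟨h.toAdm.cm.2.1, ?_, ?_⟩
      · have := hX.im0 _ o1 (by simpa [sg, jj, Cfg.wd] using s1)
        rw [← e1] at this
        simpa [Cfg.Xh] using this
      · have := hX.re0 _ o2 (by simpa [sg, jj, Cfg.wd] using s2)
        rw [← e2] at this
        simpa [Cfg.Xh] using this

theorem Lim.sheet (h : Lim l C D₀ z₀) : ∃ K, ∀ᶠ ε in 𝓝[>] (0 : ℝ), ∀ᶠ δ in 𝓝[>] (0 : ℝ),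
    ∀ᶠ x in l, ∀ X, (C x).wd.SolX X → ∀ b, Sheet ((C x).TT b) ((C x).mm b) ((C x).RR b) δ ε K
      ((C x).cm b) ((C x).fM b) ((C x).fm b) ((C x).Xh X b) := by
  rcases l.eq_or_neBot with rfl | hl
  · exact ⟨0, Eventually.of_forall fun _ => Eventually.of_forall fun _ => eventually_bot⟩
  obtain ⟨K, hK⟩ := h.sh0
  refine ⟨K, hK.mono fun ε hε => ?_⟩
  filter_upwards [hε, CfI2_small h] with δ e1 e2
  filter_upwards [e1, e2, h.fine] with x f1 f2 f3 X hX b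
  exact f3.toGood.sheet hX f2 (f1 b)

end Pool.Agent.MP_92463a_gt
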