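import Pool.Agent.MP_92463a_gt.Emb3

open Set Complex Filter Metric
open scoped Topology ComplexConjugate ContDiff Manifold

noncomputable section

namespace Pool.Agent.MP_92463a_gt

variable {κ : Type} {T : κ → ℂ} {μ : κ → ℝ} {R δ ε K : ℝ} {c : ℂ} {f₁ f₂ X : ℂ → ℂ}

theorem Emb5_rat {P P' a b : ℂ} {η : ℝ} (h₀ : P ≠ 0) (hη : η ≤ 1 / 10)
    (h : ‖P - P'‖ ≤ η / 2 * (‖P‖ + ‖P'‖)) (hb : b ≠ 0) (he : P ^ 2 * b = P' ^ 2 * a) :
    ‖a - b‖ ≤ 3 * η * ‖b‖ := by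
  obtain ⟨h1, h2⟩ := ratio_sq h₀ hη h
  have h3 : a - b = ((P / P') ^ 2 - 1) * b := by
    rw [sub_mul, div_pow, div_mul_eq_mul_div, he]
    field_simp
  rw [h3, norm_mul]
  exact mul_le_mul_of_nonneg_right h2 (norm_nonneg _)

theorem Emb5_sq {τ : ℂ} (h : τ ≠ 0) : pw (-1 / 2) τ ^ 2 * τ = 1 := by
  have h1 : pw (-1 / 2) τ ^ 2 * pw 1 τ = pw 0 τ := by
    rw [sq, pw_mul, pw_mul]
    norm_num
  rw [pw_one h] at h1
  rw [h1]
  simp [pw]

theorem Emb5_mod (h : Sheet T μ R δ ε K c f₁ f₂ X) {τ : ℂ} (hτ : τ ∈ SS T μ δ) :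
    ‖X τ + 2 * c * pw (-1 / 2) τ‖ ≤ 100 * K * ε / 2 * ‖2 * c * pw (-1 / 2) τ‖ := by
  refine (h.model hτ).trans (le_of_eq ?_)
  rw [norm_mul, norm_mul, norm_pw _ hτ.2.1, Complex.norm_two]
  ring

theorem Emb5_near (h : Sheet T μ R δ ε K c f₁ f₂ X) (h₁ : 1000 * K * ε ≤ 1) {τ τ' : ℂ}
    (hτ : τ ∈ SS T μ δ) (hτ' : τ' ∈ SS T μ δ) (he : X τ = X τ') :
    ‖τ' - τ‖ ≤ 300 * K * ε * ‖τ‖ := by
  have h1 := Emb5_mod h hτ
  have h2 := Emb5_mod h hτ'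
  rw [← he] at h2
  refine (Emb5_rat (P := 2 * c * pw (-1 / 2) τ) (P' := 2 * c * pw (-1 / 2) τ') (η := 100 * K * ε)
    (mul_ne_zero (mul_ne_zero two_ne_zero h.c_ne) (pw_ne _ _)) (by linarith) ?_ hτ.2.1 ?_).trans
    (le_of_eq (by ring))
  · have h3 := norm_sub_le (X τ + 2 * c * pw (-1 / 2) τ) (X τ + 2 * c * pw (-1 / 2) τ')
    rw [add_sub_add_left_eq_sub] at h3
    linarith
  · linear_combination (2 * c) ^ 2 * (Emb5_sq hτ.2.1 - Emb5_sq hτ'.2.1)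

theorem Emb5_dir {u w : ℂ} (hu : ‖u‖ = 1) (hw : ‖w‖ = 1) {s t : ℝ} (hs : 0 ≤ s) (ht : 0 ≤ t) :
    (s + t) * ‖u - w‖ ≤ 4 * ‖s * u - t * w‖ := by
  have h1 := abs_norm_sub_norm_le (t * w) (s * u)
  rw [norm_mul, norm_mul, hu, hw, norm_real, norm_real, Real.norm_of_nonneg hs,
    Real.norm_of_nonneg ht, mul_one, mul_one, norm_sub_rev] at h1
  have h2 := norm_add_le (s * u - t * w) (((t - s : ℝ) : ℂ) * w)
  have h3 := norm_add_le (s * u - t * w) (((t - s : ℝ) : ℂ) * u)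
  rw [show s * u - t * w + ((t - s : ℝ) : ℂ) * w = s * (u - w) by push_cast; ring, norm_mul,
    norm_mul, hw, norm_real, norm_real, Real.norm_of_nonneg hs, Real.norm_eq_abs] at h2
  rw [show s * u - t * w + ((t - s : ℝ) : ℂ) * u = t * (u - w) by push_cast; ring, norm_mul,
    norm_mul, hu, norm_real, norm_real, Real.norm_of_nonneg ht, Real.norm_eq_abs] at h3
  linarith

theorem Emb5_err (h : Sh0 T μ R δ ε K c f₁ f₂) {γ γ' : ℝ → ℂ} {a b M : ℝ}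
    (hd : ∀ x ∈ uIcc a b, HasDerivAt γ (γ' x) x) (hc : ContinuousOn γ' (uIcc a b))
    (hS : ∀ x ∈ uIcc a b, γ x ∈ SS T μ δ)
    (hM : ∀ x ∈ uIcc a b, (‖f₁ (γ x) - c * pw (-3 / 2) (γ x)‖ + ‖f₂ (γ x)‖) * ‖γ' x‖ ≤ M) :
    IntervalIntegrable (fun x => f₁ (γ x) * γ' x - conj (f₂ (γ x) * γ' x))
      MeasureTheory.volume a b ∧
    ‖(∫ x in a..b, (f₁ (γ x) * γ' x - conj (f₂ (γ x) * γ' x))) +
      (2 * c * pw (-1 / 2) (γ b) - 2 * c * pw (-1 / 2) (γ a))‖ ≤ M * |b - a| := by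
  have hγ : ContinuousOn γ (uIcc a b) := fun x hx => (hd x hx).continuousAt.continuousWithinAt
  have hS' : ∀ x ∈ uIcc a b, γ x ∈ {τ : ℂ | 0 ≤ τ.im ∧ τ ≠ 0} := fun x hx =>
    ⟨(hS x hx).1, (hS x hx).2.1⟩
  have h1 : IntervalIntegrable (fun x => f₁ (γ x) * γ' x - conj (f₂ (γ x) * γ' x))
      MeasureTheory.volume a b :=
    (((h.c₁.comp hγ hS).mul hc).sub
      (continuous_conj.comp_continuousOn ((h.c₂.comp hγ hS).mul hc))).intervalIntegrable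
  have h2 : IntervalIntegrable (fun x => c * pw (-3 / 2) (γ x) * γ' x) MeasureTheory.volume a b :=
    ((continuousOn_const.mul ((pw_cont _).comp hγ hS')).mul hc).intervalIntegrable
  have h3 := (pw_pathP (σ := -1 / 2) c (by norm_num)).ftc γ γ' a b hd hc hS'
  simp only [zero_mul, map_zero, sub_zero, show (-1 / 2 - 1 : ℝ) = -3 / 2 by norm_num] at h3
  have h4 : 2 * c * pw (-1 / 2) (γ b) - 2 * c * pw (-1 / 2) (γ a) =
      -∫ x in a..b, c * pw (-3 / 2) (γ x) * γ' x := by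
    rw [← h3]
    push_cast
    ring
  refine ⟨h1, ?_⟩
  rw [h4, ← sub_eq_add_neg, ← intervalIntegral.integral_sub h1 h2]
  refine intervalIntegral.norm_integral_le_of_norm_le_const fun x hx => ?_
  refine le_trans ?_ (hM x (uIoc_subset_uIcc hx))
  rw [show f₁ (γ x) * γ' x - conj (f₂ (γ x) * γ' x) - c * pw (-3 / 2) (γ x) * γ' x =
    (f₁ (γ x) - c * pw (-3 / 2) (γ x)) * γ' x - conj (f₂ (γ x) * γ' x) by ring]
  refine (norm_sub_le _ _).trans (le_of_eq ?_)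
  rw [norm_conj, norm_mul, norm_mul, add_mul]

theorem Emb5_rpow {r s : ℝ} (hr : 0 < r) (hs : r ≤ s) :
    s ^ (-3 / 2 : ℝ) * r ≤ r ^ (-1 / 2 : ℝ) := by
  rw [show (-1 / 2 : ℝ) = -3 / 2 + 1 by norm_num, Real.rpow_add hr, Real.rpow_one]
  exact mul_le_mul_of_nonneg_right (Real.rpow_le_rpow_of_nonpos hr hs (by norm_num)) hr.le

theorem Emb5_arc (h : Sh0 T μ R δ ε K c f₁ f₂) (k : κ) {a b : ℝ} (ha : a ∈ Icc 0 Real.pi)
    (hb : b ∈ Icc 0 Real.pi) :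
    ‖arcI f₁ f₂ 0 (2 * ‖T k‖) a b + (2 * c * pw (-1 / 2) ((2 * ‖T k‖ : ℝ) * exp (b * I)) -
      2 * c * pw (-1 / 2) ((2 * ‖T k‖ : ℝ) * exp (a * I)))‖ ≤
      16 * (ε * ‖c‖ * ‖T k‖ ^ (-1 / 2 : ℝ)) := by
  have hR := h.R_pos
  have hε := h.ε_pos
  have hε' := h.ε_le
  have hδ := h.R_le
  obtain ⟨r1, r2⟩ := h.rad k
  have hr : 0 < ‖T k‖ := by linarith
  have hn : ∀ x : ℝ, ‖(0 : ℂ) + (2 * ‖T k‖ : ℝ) * exp (x * I)‖ = 2 * ‖T k‖ := fun x => by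
    rw [zero_add, norm_mul, norm_exp_ofReal_mul_I, mul_one, norm_real,
      Real.norm_of_nonneg (by linarith)]
  have hf : ∀ (x : ℝ) j, ε * ‖T j‖ ≤ ‖(0 : ℂ) + (2 * ‖T k‖ : ℝ) * exp (x * I) - T j‖ := by
    intro x j
    have h1 := norm_sub_norm_le ((0 : ℂ) + (2 * ‖T k‖ : ℝ) * exp (x * I)) (T j)
    obtain ⟨h2, h3⟩ := h.rad j
    rw [hn] at h1
    nlinarith
  have hS : ∀ x ∈ uIcc a b, (0 : ℂ) + (2 * ‖T k‖ : ℝ) * exp (x * I) ∈ SS T μ δ := by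
    intro x hx
    have h1 := uIcc_subset_Icc ha hb hx
    refine ⟨?_, norm_pos_iff.1 (by rw [hn]; linarith), by rw [hn]; linarith,
      fun j => (h.mu j).2.trans (hf x j)⟩
    rw [zero_add, im_ofReal_mul, exp_ofReal_mul_I_im]
    exact mul_nonneg (by linarith) (Real.sin_nonneg_of_mem_Icc h1)
  have h1 := (Emb5_err h (γ := fun x : ℝ => (0 : ℂ) + (2 * ‖T k‖ : ℝ) * exp (x * I))
    (γ' := fun x : ℝ => (2 * ‖T k‖ : ℝ) * exp (x * I) * I)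
    (M := 4 * (ε * ‖c‖ * ‖T k‖ ^ (-1 / 2 : ℝ))) (fun x _ => Tool3_der 0 _ x) (by fun_prop) hS
    fun x hx => by
      have h2 := h.main _ (hS x hx)
      have h3 := h.far _ (hS x hx) (hf x)
      have h4 := hn x
      rw [h4] at h2 h3
      rw [zero_add] at h4
      rw [norm_mul _ I, norm_I, mul_one, h4]
      have h5 := mul_le_mul_of_nonneg_left (Emb5_rpow hr (s := 2 * ‖T k‖) (by linarith))
        (by positivity : 0 ≤ ε * ‖c‖)
      have h6 := mul_le_mul_of_nonneg_right (add_le_add h2 h3) (by linarith : 0 ≤ 2 * ‖T k‖)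
      linarith).2
  simp only [zero_add] at h1
  simp only [arcI, zero_add]
  refine h1.trans ?_
  have h2 : |b - a| ≤ 4 := by
    have := Real.pi_le_four
    rw [abs_le]
    constructor <;> linarith [ha.1, ha.2, hb.1, hb.2]
  have h3 := mul_le_mul_of_nonneg_left h2
    (by positivity : 0 ≤ 4 * (ε * ‖c‖ * ‖T k‖ ^ (-1 / 2 : ℝ)))
  linarith

theorem Emb5_pt (h : Sh0 T μ R δ ε K c f₁ f₂) {k : κ} {v : ℂ} (hT : 0 ≤ (T k).im)
    (hv : μ k = ‖T k‖ * ‖v‖) (hd : ‖v‖ ^ 2 ≤ v.re) (hi : 0 ≤ (T k + T k * v).im) {x : ℝ}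
    (h0 : 0 ≤ x) (h1 : x ≤ 1) {t : ℂ} (ht : t = 2 * T k + x * (T k + T k * v - 2 * T k)) :
    t ∈ SS T μ δ ∧ ‖T k‖ ≤ ‖t‖ ∧ (x ≤ 1 - ε → ∀ j, ε * ‖T j‖ ≤ ‖t - T j‖) := by
  have hR := h.R_pos
  have hε := h.ε_pos
  have hε' := h.ε_le
  have hδ := h.R_le
  obtain ⟨r1, r2⟩ := h.rad k
  have hr : 0 < ‖T k‖ := by linarith
  have hvε : ‖v‖ ≤ ε := by
    have := (h.mu k).2
    rw [hv, mul_comm] at this
    exact le_of_mul_le_mul_right this hr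
  have hre : 0 ≤ v.re := (sq_nonneg _).trans hd
  have hxv : ‖x * v‖ ≤ ε := by
    rw [norm_mul, norm_real, Real.norm_of_nonneg h0]
    nlinarith [norm_nonneg v]
  have e1 : t = T k * (((2 - x : ℝ) : ℂ) + x * v) := by rw [ht]; push_cast; ring
  have e2 : t - T k = T k * (((1 - x : ℝ) : ℂ) + x * v) := by rw [ht]; push_cast; ring
  have hl : ∀ y : ℝ, y ≤ ‖(y : ℂ) + x * v‖ := fun y => by
    refine le_trans ?_ (re_le_norm _)
    rw [add_re, ofReal_re, re_ofReal_mul]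
    nlinarith
  have h2 : ‖T k‖ ≤ ‖t‖ := by
    rw [e1, norm_mul]
    nlinarith [hl (2 - x)]
  have h3 : ∀ j, j ≠ k → ε * ‖T j‖ ≤ ‖t - T j‖ := by
    intro j hj
    have hj0 : 0 < ‖T j‖ := by linarith [(h.rad j).1]
    have hu : ∀ i, 0 < ‖T i‖ → ‖T i / (‖T i‖ : ℂ)‖ = 1 := fun i hi => by
      rw [norm_div, norm_real, Real.norm_of_nonneg hi.le, div_self hi.ne']
    have h4 := Emb5_dir (hu j hj0) (hu k hr) hj0.le (t := (2 - x) * ‖T k‖) (by nlinarith)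
    have h5 : (‖T j‖ : ℂ) * (T j / (‖T j‖ : ℂ)) - (((2 - x) * ‖T k‖ : ℝ) : ℂ) *
        (T k / (‖T k‖ : ℂ)) = T k * (x * v) - (t - T j) := by
      have := ofReal_ne_zero.2 hj0.ne'
      have := ofReal_ne_zero.2 hr.ne'
      rw [e1]
      push_cast
      field_simp
      ring
    have h6 := norm_sub_le (T k * (x * v)) (t - T j)
    rw [← h5, norm_mul (T k)] at h6
    have h7 := mul_le_mul_of_nonneg_left (h.sep j k hj)
      (by nlinarith : 0 ≤ ‖T j‖ + (2 - x) * ‖T k‖)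
    have h8 := mul_le_mul_of_nonneg_left hxv hr.le
    have h9 : 0 ≤ (1 - x) * (ε * ‖T k‖) := mul_nonneg (by linarith) (by positivity)
    nlinarith
  refine ⟨⟨?_, norm_pos_iff.1 (by linarith), ?_, fun j => ?_⟩, h2, fun hx j => ?_⟩
  · rw [show t = ((2 * (1 - x) : ℝ) : ℂ) * T k + x * (T k + T k * v) by rw [ht]; push_cast; ring,
      add_im, im_ofReal_mul, im_ofReal_mul]
    exact add_nonneg (mul_nonneg (by linarith) hT) (mul_nonneg h0 hi)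
  · have h4 := norm_add_le ((2 - x : ℝ) : ℂ) (x * v)
    rw [norm_real, Real.norm_of_nonneg (by linarith)] at h4
    rw [e1, norm_mul]
    nlinarith
  · by_cases hj : j = k
    · rw [hj, e2, hv, norm_mul]
      refine mul_le_mul_of_nonneg_left (le_of_sq_le_sq ?_ (norm_nonneg _)) hr.le
      have h4 : ‖((1 - x : ℝ) : ℂ) + x * v‖ ^ 2 =
          (1 - x) ^ 2 + 2 * x * (1 - x) * v.re + x ^ 2 * ‖v‖ ^ 2 := by
        rw [Complex.sq_norm, Complex.sq_norm, normSq_apply, normSq_apply]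
        simp only [add_re, add_im, ofReal_re, ofReal_im, re_ofReal_mul, im_ofReal_mul]
        ring
      have h5 : ‖v‖ ^ 2 ≤ 1 := pow_le_one₀ (norm_nonneg _) (by linarith)
      have h6 := mul_le_mul_of_nonneg_left hd (mul_nonneg h0 (sub_nonneg.2 h1))
      have h7 := mul_le_mul_of_nonneg_left h5 (sq_nonneg (1 - x))
      rw [h4]
      nlinarith
    · exact (h.mu j).2.trans (h3 j hj)
  · by_cases hj : j = k
    · rw [hj, e2, norm_mul]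
      nlinarith [hl (1 - x)]
    · exact h3 j hj

theorem Emb5_seg (h : Sh0 T μ R δ ε K c f₁ f₂) {k : κ} {v : ℂ} (hT : 0 ≤ (T k).im)
    (hv : μ k = ‖T k‖ * ‖v‖) (hd : ‖v‖ ^ 2 ≤ v.re) (hi : 0 ≤ (T k + T k * v).im) :
    ‖segI f₁ f₂ (2 * T k) (T k + T k * v) + (2 * c * pw (-1 / 2) (T k + T k * v) -
      2 * c * pw (-1 / 2) (2 * T k))‖ ≤ 8 * K * (ε * ‖c‖ * ‖T k‖ ^ (-1 / 2 : ℝ)) := by
  have hε := h.ε_pos
  have hε' := h.ε_le
  have hK := h.K_ge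
  have hr : 0 < ‖T k‖ := by linarith [(h.rad k).1, h.R_pos]
  have hvε : ‖v‖ ≤ ε := by
    have := (h.mu k).2
    rw [hv, mul_comm] at this
    exact le_of_mul_le_mul_right this hr
  set d := T k + T k * v - 2 * T k with hdd
  have hd2 : ‖d‖ ≤ 2 * ‖T k‖ := by
    rw [show d = T k * (v - 1) by rw [hdd]; ring, norm_mul]
    have := norm_sub_le v 1
    rw [norm_one] at this
    nlinarith
  set A := ‖c‖ * ‖T k‖ ^ (-1 / 2 : ℝ) with hA
  have hA0 : 0 ≤ A := by positivity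
  have key : ∀ a b L : ℝ, 0 ≤ a → a ≤ b → b ≤ 1 → 0 ≤ L →
      (∀ x ∈ Icc a b, ‖f₂ (2 * T k + x * d)‖ ≤ L * ‖c‖ * ‖2 * T k + x * d‖ ^ (-3 / 2 : ℝ)) →
      IntervalIntegrable (fun x : ℝ => f₁ (2 * T k + x * d) * d - conj (f₂ (2 * T k + x * d) * d))
        MeasureTheory.volume a b ∧
      ‖(∫ x in a..b, (f₁ (2 * T k + x * d) * d - conj (f₂ (2 * T k + x * d) * d))) +
        (2 * c * pw (-1 / 2) (2 * T k + b * d) - 2 * c * pw (-1 / 2) (2 * T k + a * d))‖ ≤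
        2 * (ε + L) * A * |b - a| := by
    intro a b L ha hab hb hL hf
    have hp := fun x (hx : x ∈ Icc a b) => Emb5_pt h hT hv hd hi (ha.trans hx.1) (hx.2.trans hb) rfl
    rw [← uIcc_of_le hab] at hf hp
    refine Emb5_err h (γ := fun x : ℝ => 2 * T k + x * d) (γ' := fun _ => d) (fun x _ => ?_)
      continuousOn_const (fun x hx => (hp x hx).1) fun x hx => ?_
    · simpa using ((ofRealCLM.hasDerivAt (x := x)).mul_const d).const_add (2 * T k)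
    · have h2 := add_le_add (h.main _ (hp x hx).1) (hf x hx)
      have h3 := mul_le_mul_of_nonneg_left (Emb5_rpow hr (hp x hx).2.1)
        (by positivity : 0 ≤ 2 * (ε + L) * ‖c‖)
      refine (mul_le_mul h2 hd2 (norm_nonneg _) (by positivity)).trans ?_
      rw [hA]
      linarith
  obtain ⟨i1, b1⟩ := key 0 (1 - ε) ε le_rfl (by linarith) (by linarith) hε.le fun x hx => by
    have := Emb5_pt h hT hv hd hi hx.1 (by linarith [hx.2]) rfl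
    exact h.far _ this.1 (this.2.2 hx.2)
  obtain ⟨i2, b2⟩ := key (1 - ε) 1 K (by linarith) (by linarith) le_rfl (by linarith) fun x hx =>
    h.near _ (Emb5_pt h hT hv hd hi (by linarith [hx.1]) hx.2 rfl).1
  rw [sub_zero, abs_of_nonneg (by linarith), ofReal_zero, zero_mul, add_zero] at b1
  rw [sub_sub_cancel, abs_of_pos hε, ofReal_one, one_mul,
    show 2 * T k + d = T k + T k * v by rw [hdd]; ring] at b2
  have h4 := (norm_add_le _ _).trans (add_le_add b1 b2)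
  rw [add_add_add_comm, intervalIntegral.integral_add_adjacent_intervals i1 i2,
    sub_add_sub_cancel'] at h4
  refine h4.trans ?_
  have h5 : 0 ≤ ε * A := by positivity
  have h6 := mul_le_mul_of_nonneg_right hK h5
  have h7 := mul_le_mul_of_nonneg_right hε' h5
  have h8 : 0 ≤ ε * (ε * A) := by positivity
  rw [mul_assoc ε, ← hA]
  nlinarith

theorem Sheet.inj (h : Sheet T μ R δ ε K c f₁ f₂ X) {θ : ℝ} (h₁ : 1000 * K * ε ≤ θ)
    (h₂ : θ ≤ 1 / 10) {τ τ' : ℂ} (hτ : τ ∈ SS T μ δ) (hτ' : τ' ∈ SS T μ δ) (he : X τ = X τ') :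
    τ = τ' ∨ ∃ k, ‖τ - T k‖ ≤ θ * ‖T k‖ ∧ ‖τ' - T k‖ ≤ θ * ‖T k‖ := by
  have hε := h.ε_pos
  have hε' := h.ε_le
  have hK := h.K_ge
  have hKε : ε ≤ K * ε := le_mul_of_one_le_left hε.le hK
  have n1 := Emb5_near h (by linarith) hτ hτ' he
  have n2 := Emb5_near h (by linarith) hτ' hτ he.symm
  refine or_iff_not_imp_right.2 fun hk => seg_inj h.path (a := c * pw (-3 / 2) τ)
    (mul_ne_zero h.c_ne (pw_ne _ _)) (fun x hx => ?_) he
  set t := τ + x * (τ' - τ) with ht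
  have d1 : ‖t - τ‖ ≤ 300 * K * ε * ‖τ‖ := by
    rw [ht, add_sub_cancel_left, norm_mul, norm_real, Real.norm_of_nonneg hx.1]
    exact (mul_le_of_le_one_left (norm_nonneg _) hx.2).trans n1
  have d2 : ‖t - τ'‖ ≤ 300 * K * ε * ‖τ'‖ := by
    rw [show t - τ' = ((1 - x : ℝ) : ℂ) * (τ - τ') by rw [ht]; push_cast; ring, norm_mul, norm_real,
      Real.norm_of_nonneg (sub_nonneg.2 hx.2)]
    exact (mul_le_of_le_one_left (norm_nonneg _) (by linarith [hx.1])).trans n2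
  have hf : ∀ k, ε * ‖T k‖ ≤ ‖t - T k‖ := by
    intro k
    have key : ∀ s : ℂ, ‖t - s‖ ≤ 300 * K * ε * ‖s‖ → θ * ‖T k‖ < ‖s - T k‖ →
        ε * ‖T k‖ ≤ ‖t - T k‖ := by
      intro s h1 h2
      have h3 := norm_sub_le_norm_sub_add_norm_sub s t (T k)
      rw [norm_sub_rev s t] at h3
      have h4 := norm_le_norm_add_norm_sub' s (T k)
      have h5 : 300 * K * ε * ‖s‖ ≤ 3 / 10 * θ * (‖T k‖ + ‖s - T k‖) :=
        mul_le_mul (by linarith) h4 (norm_nonneg _) (by linarith)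
      have h6 := mul_le_mul_of_nonneg_right h₂ (norm_nonneg (s - T k))
      have h7 := mul_le_mul_of_nonneg_right (show 1000 * ε ≤ θ by linarith) (norm_nonneg (T k))
      have h8 : 0 ≤ ε * ‖T k‖ := by positivity
      nlinarith
    by_cases h1 : ‖τ - T k‖ ≤ θ * ‖T k‖
    · exact key τ' d2 (not_le.1 fun h2 => hk ⟨k, h1, h2⟩)
    · exact key τ d1 (not_le.1 h1)
  have e : t = ((1 - x : ℝ) : ℂ) * τ + x * τ' := by rw [ht]; push_cast; ring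
  have hτ0 := norm_pos_iff.2 hτ.2.1
  have hi : 0 ≤ t.im := by
    rw [e, add_im, im_ofReal_mul, im_ofReal_mul]
    exact add_nonneg (mul_nonneg (sub_nonneg.2 hx.2) hτ.1) (mul_nonneg hx.1 hτ'.1)
  have ht0 : t ≠ 0 := by
    intro h0
    rw [h0, zero_sub, norm_neg] at d1
    nlinarith
  have hS : t ∈ SS T μ δ := by
    refine ⟨hi, ht0, ?_, fun k => (h.mu k).2.trans (hf k)⟩
    have := convex_ball (0 : ℂ) δ (mem_ball_zero_iff.2 hτ.2.2.1) (mem_ball_zero_iff.2 hτ'.2.2.1)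
      (sub_nonneg.2 hx.2) hx.1 (sub_add_cancel 1 x)
    rwa [mem_ball_zero_iff, real_smul, real_smul, ← e] at this
  refine ⟨hS, ?_⟩
  have h1 := pw_close (σ := -3 / 2) hτ.2.1 hτ.1 hi d1 (by linarith) (by norm_num [abs_le])
  have h2 := h.main t hS
  have h3 := h.far t hS hf
  have h4 := norm_le_norm_add_norm_sub' (pw (-3 / 2) t) (pw (-3 / 2) τ)
  have h5 := norm_sub_le_norm_sub_add_norm_sub (f₁ t) (c * pw (-3 / 2) t) (c * pw (-3 / 2) τ)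
  rw [norm_pw _ ht0, norm_pw _ hτ.2.1] at h4
  rw [← mul_sub, norm_mul] at h5
  rw [norm_mul, norm_pw _ hτ.2.1]
  have h6 : 0 ≤ ‖τ‖ ^ (-3 / 2 : ℝ) := by positivity
  have h7 : ‖pw (-3 / 2) t - pw (-3 / 2) τ‖ ≤ 1 / 4 * ‖τ‖ ^ (-3 / 2 : ℝ) :=
    h1.trans (mul_le_mul_of_nonneg_right (by linarith) h6)
  have h8 := mul_le_mul_of_nonneg_left h7 (norm_nonneg c)
  have h9 : ε * ‖c‖ * ‖t‖ ^ (-3 / 2 : ℝ) ≤ 1 / 100 * ‖c‖ * (2 * ‖τ‖ ^ (-3 / 2 : ℝ)) := by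
    gcongr
    linarith
  have h10 : 0 ≤ ‖c‖ * ‖τ‖ ^ (-3 / 2 : ℝ) := by positivity
  linarith

theorem Sheet.cross (h : Sheet T μ R δ ε K c f₁ f₂ X) {T' : κ → ℂ} {μ' : κ → ℝ} {R' : ℝ} {c' : ℂ}
    {f₁' f₂' X' : ℂ → ℂ} (h' : Sheet T' μ' R' δ ε K c' f₁' f₂' X') (h₁ : 1000 * K * ε ≤ 1)
    {τ τ' : ℂ} (hτ : τ ∈ SS T μ δ) (hτ' : τ' ∈ SS T' μ' δ) (he : X' τ' = -conj (X τ)) :
    ‖τ' - (c' / conj c) ^ 2 * conj τ‖ ≤ 300 * K * ε * ‖(c' / conj c) ^ 2 * conj τ‖ := by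
  have h1 := Emb5_mod h hτ
  have h2 := Emb5_mod h' hτ'
  have hc : conj c ≠ 0 := (map_ne_zero _).2 h.c_ne
  rw [← norm_conj, ← norm_conj (2 * c * _), map_add] at h1
  rw [he, ← norm_neg (2 * c' * _)] at h2
  refine (Emb5_rat (P := conj (2 * c * pw (-1 / 2) τ)) (P' := -(2 * c' * pw (-1 / 2) τ'))
    (η := 100 * K * ε) ((map_ne_zero _).2 (mul_ne_zero (mul_ne_zero two_ne_zero h.c_ne)
    (pw_ne _ _))) (by linarith) ?_ (mul_ne_zero (pow_ne_zero _ (div_ne_zero h'.c_ne hc))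
    ((map_ne_zero _).2 hτ.2.1)) ?_).trans (le_of_eq (by ring))
  · have h3 := (norm_add_le _ _).trans (add_le_add h1 h2)
    rw [sub_neg_eq_add, mul_add]
    refine le_of_eq_of_le (congrArg norm (by ring)) h3
  · have h3 := congrArg conj (Emb5_sq hτ.2.1)
    have h4 := Emb5_sq hτ'.2.1
    simp only [map_mul, map_pow, map_one, map_ofNat] at h3 ⊢
    have h5 : conj c * (c' / conj c) = c' := mul_div_cancel₀ _ hc
    generalize c' / conj c = z at h5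
    subst h5
    linear_combination (2 * conj c * z) ^ 2 * (h3 - h4)

/-- the position of the waist -/
theorem Sh0.xm (h : Sh0 T μ R δ ε K c f₁ f₂) {k : κ} {v : ℂ} {θ a₁ a₂ : ℝ}
    (hT : T k = (‖T k‖ : ℂ) * exp (θ * I)) (hθ : θ ∈ Icc 0 Real.pi)
    (hc : (c.im = 0 ∧ a₁ = Real.pi ∧ a₂ = 0) ∨ (c.re = 0 ∧ a₁ = 0 ∧ a₂ = Real.pi))
    (hv : μ k = ‖T k‖ * ‖v‖) (hd : ‖v‖ ^ 2 ≤ v.re) (hi : 0 ≤ (T k + T k * v).im) :
    ‖(arcI f₁ f₂ 0 (2 * ‖T k‖) a₁ θ).re + (arcI f₁ f₂ 0 (2 * ‖T k‖) a₂ θ).im * I +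
        segI f₁ f₂ (2 * T k) (T k + T k * v) + 2 * c * pw (-1 / 2) (T k)‖ ≤
      100 * K * ε * ‖c‖ * ‖T k‖ ^ (-1 / 2 : ℝ) := by
  have hε := h.ε_pos
  have hK := h.K_ge
  have hr : 0 < ‖T k‖ := by linarith [(h.rad k).1, h.R_pos]
  have hT0 : 0 ≤ (T k).im := by
    rw [hT, im_ofReal_mul, exp_ofReal_mul_I_im]
    exact mul_nonneg hr.le (Real.sin_nonneg_of_mem_Icc hθ)
  have hvε : ‖v‖ ≤ ε := by
    have := (h.mu k).2
    rw [hv, mul_comm] at this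
    exact le_of_mul_le_mul_right this hr
  have m0 : (0 : ℝ) ∈ Icc 0 Real.pi := ⟨le_rfl, Real.pi_pos.le⟩
  have m1 : Real.pi ∈ Icc 0 Real.pi := ⟨Real.pi_pos.le, le_rfl⟩
  have e2 : ((2 * ‖T k‖ : ℝ) : ℂ) * exp (θ * I) = 2 * T k := by
    conv_rhs => rw [hT]
    push_cast
    ring
  obtain ⟨ρ, p0, p1⟩ : ∃ ρ : ℝ, pw (-1 / 2) ((2 * ‖T k‖ : ℝ) * exp ((0 : ℝ) * I)) = ρ ∧
      pw (-1 / 2) ((2 * ‖T k‖ : ℝ) * exp (Real.pi * I)) = -(ρ * I) := by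
    refine ⟨(2 * ‖T k‖) ^ (-1 / 2 : ℝ), ?_, ?_⟩
    · rw [pw_polar _ (by linarith) m0]
      simp
    · rw [pw_polar _ (by linarith) m1,
        show ((-1 / 2 : ℝ) : ℂ) * Real.pi * I = -(Real.pi / 2 * I) by push_cast; ring, exp_neg,
        exp_pi_div_two_mul_I, inv_I, mul_neg]
  obtain ⟨ha₁, ha₂, z1, z2⟩ : a₁ ∈ Icc 0 Real.pi ∧ a₂ ∈ Icc 0 Real.pi ∧
      (2 * c * pw (-1 / 2) ((2 * ‖T k‖ : ℝ) * exp (a₁ * I))).re = 0 ∧
      (2 * c * pw (-1 / 2) ((2 * ‖T k‖ : ℝ) * exp (a₂ * I))).im = 0 := by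
    rcases hc with ⟨h1, rfl, rfl⟩ | ⟨h1, rfl, rfl⟩
    · exact ⟨m1, m0, by rw [p1]; simp [h1], by rw [p0]; simp [h1]⟩
    · exact ⟨m0, m1, by rw [p0]; simp [h1], by rw [p1]; simp [h1]⟩
  have b1 := (abs_re_le_norm _).trans (Emb5_arc h k ha₁ hθ)
  have b2 := (abs_im_le_norm _).trans (Emb5_arc h k ha₂ hθ)
  rw [add_re, sub_re, z1, sub_zero, e2] at b1
  rw [add_im, sub_im, z2, sub_zero, e2] at b2
  have b3 := Emb5_seg h hT0 hv hd hi
  have b4 := pw_close (σ := -1 / 2) (η := ε) (norm_pos_iff.1 hr) hT0 hi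
    (by rw [add_sub_cancel_left, norm_mul, mul_comm]; gcongr) (by linarith [h.ε_le])
    (by norm_num [abs_le])
  generalize arcI f₁ f₂ 0 (2 * ‖T k‖) a₁ θ = A₁ at b1 ⊢
  generalize arcI f₁ f₂ 0 (2 * ‖T k‖) a₂ θ = A₂ at b2 ⊢
  generalize 2 * c * pw (-1 / 2) (2 * T k) = G at b1 b2 b3
  have e : (A₁.re : ℂ) + A₂.im * I + segI f₁ f₂ (2 * T k) (T k + T k * v) +
      2 * c * pw (-1 / 2) (T k) = ((A₁.re + G.re : ℝ) : ℂ) + ((A₂.im + G.im : ℝ) : ℂ) * I +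
      (segI f₁ f₂ (2 * T k) (T k + T k * v) + (2 * c * pw (-1 / 2) (T k + T k * v) - G)) -
      2 * c * (pw (-1 / 2) (T k + T k * v) - pw (-1 / 2) (T k)) := by
    have := re_add_im G
    push_cast
    linear_combination -this
  rw [e]
  refine (norm_sub_le _ _).trans ((add_le_add norm_add₃_le le_rfl).trans ?_)
  rw [norm_mul _ I, norm_I, mul_one, norm_real, norm_real, Real.norm_eq_abs, Real.norm_eq_abs,
    norm_mul, norm_mul, Complex.norm_two]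
  have h1 := mul_le_mul_of_nonneg_left b4 (by positivity : 0 ≤ 2 * ‖c‖)
  have h2 : 0 ≤ ε * ‖c‖ * ‖T k‖ ^ (-1 / 2 : ℝ) := by positivity
  have h3 := mul_le_mul_of_nonneg_right hK h2
  nlinarith

end Pool.Agent.MP_92463a_gt
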