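import Pool.Agent.MP_92463a_gt.CfI2
import Pool.Agent.MP_92463a_gt.Emb5
import Pool.Agent.MP_92463a_gt.CfH2

open Set Complex Filter Metric
open scoped Topology ComplexConjugate ContDiff Manifold

noncomputable section

namespace Pool.Agent.MP_92463a_gt

variable {γ : ℕ} {α : Type} {l : Filter α} {C : α → Cfg γ} {D₀ : Dat} {z₀ : Zs γ}

/-- the position of the waist in the coordinates of the sheet -/
def CfJ_xs (C : Cfg γ) (b : Bool) (k : Fin γ) : ℂ :=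
  (arcI (C.fM b) (C.fm b) 0 (2 * ‖C.TT b k‖) (if b then Real.pi else 0) (C.lg (k, b)).im).re +
    (arcI (C.fM b) (C.fm b) 0 (2 * ‖C.TT b k‖) (if b then 0 else Real.pi) (C.lg (k, b)).im).im
      * I + segI (C.fM b) (C.fm b) (2 * C.TT b k) (C.TT b k + C.TT b k * C.vs k)

theorem CfJ_wp (C : Cfg γ) (b : Bool) (k : Fin γ) :
    C.wp (k, b) = -C.bb b + (C.TT b k + C.TT b k * C.vs k) := by
  simp only [Cfg.wp, Cfg.c, Cfg.TT]
  ring

theorem CfJ_true (C : Cfg γ) (k : Fin γ) : C.XM (k, true) = CfJ_xs C true k := by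
  unfold Cfg.XM CfJ_xs
  rw [CfJ_wp, segI_shift, arcI_shift,
    arcI_shift (f₁ := C.wd.F1) (a := if (k, true).2 then 0 else Real.pi)]
  rfl

theorem CfJ_false (C : Cfg γ) (k : Fin γ) : C.XM (k, false) = -conj (CfJ_xs C false k) := by
  have e (a b s : ℂ) : ((-conj a).re : ℂ) + (-conj b).im * I + -conj s =
      -conj ((a.re : ℂ) + b.im * I + s) := by
    simp only [neg_re, neg_im, conj_re, conj_im, neg_neg, map_add, map_mul, conj_ofReal, conj_I,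
      ofReal_neg]
    ring
  unfold Cfg.XM CfJ_xs
  rw [CfJ_wp, segI_shift, arcI_shift,
    arcI_shift (f₁ := C.wd.F1) (a := if (k, false).2 then 0 else Real.pi), ← e, ← segI_swap,
    ← arcI_swap, ← arcI_swap]
  rfl

theorem CfJ_err {C : Cfg γ} (h : C.G0) {k : Fin γ} (hk : γ ≤ 2 * (k : ℕ) + 1)
    (hd : ‖C.vs k‖ ^ 2 ≤ (C.vs k).re) (b : Bool) {δ ε K : ℝ}
    (hs : Sh0 (C.TT b) (C.mm b) (C.RR b) δ ε K (C.cm b) (C.fM b) (C.fm b)) :
    ‖CfJ_xs C b k + 2 * (C.cm b * exp (-C.lg (k, b) / 2))‖ ≤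
      100 * K * ε * ‖C.cm b * exp (-C.lg (k, b) / 2)‖ := by
  have h1 := h.toAdm.lg_im hk b
  have h2 : pw (-1 / 2) (C.TT b k) = exp (-C.lg (k, b) / 2) := by
    unfold pw Cfg.TT
    rw [h1.2]
    congr 1
    push_cast
    ring
  have h3 := hs.xm (k := k) (v := C.vs k) (θ := (C.lg (k, b)).im)
    (a₁ := if b then Real.pi else 0) (a₂ := if b then 0 else Real.pi) (Cfg.polar (k, b)) h1.1
    (by
      cases b
      · exact Or.inr ⟨h.toAdm.cm.2.2.1, rfl, rfl⟩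
      · exact Or.inl ⟨h.toAdm.cm.2.1, rfl, rfl⟩)
    (h.mu_eq (k, b)) hd (h.wp_im hk b)
  have h4 : C.TT b k ≠ 0 := Cfg.τ_ne (k, b)
  rw [← norm_pw _ h4, h2, mul_assoc 2, mul_assoc _ ‖C.cm b‖, ← norm_mul] at h3
  exact h3

theorem CfJ_θ {C : Cfg γ} (h : C.Adm) (k : Fin γ) :
    2 / C.θ0 k = 2 * (C.cm false * exp (-C.lg (k, false) / 2)) := by
  have h0 : ((C.D.b 0 : ℝ) : ℂ) ≠ 0 := ofReal_ne_zero.2 (h.bb true).1.ne'
  have h1 := exp_ne_zero (C.lg (k, false) / 2)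
  have h2 := exp_ne_zero (C.D.A 0 : ℂ)
  simp only [Cfg.θ0, Cfg.cm, Bool.false_eq_true, if_false, neg_div]
  rw [exp_neg]
  push_cast
  rw [exp_neg]
  field_simp
  simp

theorem CfJ_rel {C : Cfg γ} (h : C.Adm) (k : Fin γ) :
    C.cm true * exp (-C.lg (k, true) / 2) =
      -(conj (C.cm false * exp (-C.lg (k, false) / 2)) * exp (-C.z.2.2.2 k / 2)) := by
  have h0 : 0 < C.D.b 0 := (h.bb true).1
  have h1 : 0 < C.D.b 1 := by linarith [(h.bb true).2.2]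
  have e1 : -C.lg (k, true) / 2 = conj (-C.lg (k, false) / 2) + -C.z.2.2.2 k / 2 +
      ((-(C.D.A 0 + C.D.A 1 + Real.log (C.D.b 0) - Real.log (C.D.b 1)) : ℝ) : ℂ) +
      -(Real.pi / 2 * I) := by
    simp only [Cfg.lg, Cfg.lk, Zs.lu, if_true, Bool.false_eq_true, if_false, map_div₀, map_neg,
      map_add, map_mul, conj_ofReal, conj_I, map_ofNat]
    push_cast
    ring
  have e2 : Real.exp (C.D.A 1) / C.D.b 1 *
      Real.exp (-(C.D.A 0 + C.D.A 1 + Real.log (C.D.b 0) - Real.log (C.D.b 1))) =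
      Real.exp (-C.D.A 0) / C.D.b 0 := by
    rw [Real.exp_neg, Real.exp_neg, Real.exp_sub, Real.exp_add, Real.exp_add, Real.exp_log h0,
      Real.exp_log h1]
    field_simp
  rw [e1, exp_add, exp_add, exp_add, exp_neg (Real.pi / 2 * I), exp_pi_div_two_mul_I, inv_I,
    exp_conj, ← ofReal_exp]
  simp only [Cfg.cm, if_true, Bool.false_eq_true, if_false, map_mul, map_neg, conj_I, conj_ofReal]
  rw [← e2, ofReal_mul]
  ring

theorem CfJ_bd {C : Cfg γ} (h : C.G0) {k : Fin γ} (hk : γ ≤ 2 * (k : ℕ) + 1)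
    (hd : ‖C.vs k‖ ^ 2 ≤ (C.vs k).re) {δ ε K : ℝ}
    (hs : ∀ b, Sh0 (C.TT b) (C.mm b) (C.RR b) δ ε K (C.cm b) (C.fM b) (C.fm b)) :
    ‖C.eB k - (exp (-C.z.2.2.2 k / 2) - 1)‖ ≤ 50 * K * ε * (‖exp (-C.z.2.2.2 k / 2)‖ + 1) := by
  have h1 := CfJ_err h hk hd true (hs true)
  have h2 := CfJ_err h hk hd false (hs false)
  rw [CfJ_rel h.toAdm] at h1
  have h0 : C.cm false * exp (-C.lg (k, false) / 2) ≠ 0 :=
    mul_ne_zero (h.toAdm.cm.1 false) (exp_ne_zero _)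
  unfold Cfg.eB
  rw [CfJ_θ h.toAdm, CfJ_true, CfJ_false]
  generalize C.cm false * exp (-C.lg (k, false) / 2) = P at h0 h1 h2 ⊢
  generalize exp (-C.z.2.2.2 k / 2) = w at h1 ⊢
  generalize CfJ_xs C true k = u at h1 ⊢
  generalize CfJ_xs C false k = v at h2 ⊢
  have h3 : conj P ≠ 0 := (map_ne_zero _).2 h0
  have h4 : 0 < ‖P‖ := norm_pos_iff.2 h0
  have e : (u - -conj v) / conj (2 * P) - (w - 1) =
      ((u + 2 * -(conj P * w)) + conj (v + 2 * P)) / (2 * conj P) := by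
    simp only [map_mul, map_add, map_ofNat]
    field_simp
    ring
  rw [norm_neg, norm_mul, norm_conj] at h1
  rw [e, norm_div, norm_mul, norm_conj, Complex.norm_ofNat, div_le_iff₀ (by positivity)]
  refine (norm_add_le _ _).trans ?_
  rw [norm_conj]
  linarith

theorem Lim.eB (h : Lim l C D₀ z₀) {k : Fin γ} (hk : γ ≤ 2 * (k : ℕ) + 1) :
    Tendsto (fun x => (C x).eB k) l (𝓝 (z₀.lim.2.2.2 k)) := by
  have h1 : Tendsto (fun x => exp (-(C x).z.2.2.2 k / 2)) l (𝓝 (exp (-z₀.2.2.2 k / 2))) :=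
    ((h.zs.2.2.2 k).neg.div_const 2).cexp
  have h2 : Tendsto (fun x => (C x).eB k - (exp (-(C x).z.2.2.2 k / 2) - 1)) l (𝓝 0) := by
    obtain ⟨K, hK⟩ := h.sh0
    refine NormedAddGroup.tendsto_nhds_zero.2 fun η hη => ?_
    have h3 : Tendsto (fun ε : ℝ => 50 * K * ε * (‖exp (-z₀.2.2.2 k / 2)‖ + 1 + 1)) (𝓝[>] 0)
        (𝓝 0) := by
      have : Continuous fun ε : ℝ => 50 * K * ε * (‖exp (-z₀.2.2.2 k / 2)‖ + 1 + 1) := by
        fun_prop
      simpa using (this.tendsto 0).mono_left (nhdsWithin_le_nhds (s := Ioi 0))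
    obtain ⟨ε, h4, h5⟩ := (hK.and (h3.eventually (gt_mem_nhds hη))).exists
    obtain ⟨δ, h6⟩ := h4.exists
    filter_upwards [h6, h.g0, h1.norm.eventually (gt_mem_nhds (lt_add_one _))] with x h7 h8 h9
    refine (CfJ_bd h8.1 hk (h8.2 k) h7).trans_lt (lt_of_le_of_lt ?_ h5)
    have := (h7 true).ε_pos
    have := (h7 true).K_ge
    gcongr
  have h3 := h2.add (h1.sub_const 1)
  simpa [Zs.lim] using h3

theorem Lim.eq (h : Lim l C D₀ z₀) : Tendsto (fun x => (C x).eq) l (𝓝 z₀.lim) := by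
  rcases l.eq_or_neBot with rfl | hl
  · exact tendsto_bot
  have hs : z₀.rf = z₀ := h.adm₀.sym
  refine (tendsto_pi_nhds.2 h.eF).prodMk_nhds ((tendsto_pi_nhds.2 h.eV).prodMk_nhds
    ((tendsto_pi_nhds.2 h.eA).prodMk_nhds (tendsto_pi_nhds.2 fun k => ?_)))
  show Tendsto (fun x => sy (C x).eB k) l (𝓝 (z₀.lim.2.2.2 k))
  unfold sy
  split_ifs with hk
  · exact h.eB hk
  · have h1 : γ ≤ 2 * (k.rev : ℕ) + 1 := by
      rw [Fin.val_rev]
      omega
    have h2 : z₀.lim.2.2.2 k = conj (z₀.lim.2.2.2 k.rev) := by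
      conv_lhs => rw [← hs, Zs.lim_rf]
      rfl
    rw [h2]
    exact (continuous_conj.tendsto _).comp (h.eB h1)

end Pool.Agent.MP_92463a_gt
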