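import Pool.Agent.MP_92463a_gt.CfC

open Set Complex Filter Metric
open scoped Topology ComplexConjugate ContDiff Manifold

noncomputable section

namespace Pool.Agent.MP_92463a_gt

variable {γ : ℕ} {T : Type} [TopologicalSpace T] {S : Set T} {C : T → Cfg γ} {L : ℝ} {p q : ℕ}

theorem CfK1_g0 (h : CC S C L p q) {x : T} (hx : x ∈ S) : (C x).G0 := (h.fine x hx).1.toGood.g0

theorem CC.tends (h : CC S C L p q) {x₀ : T} (hx : x₀ ∈ S) :
    Dat.Tends (𝓝[S] x₀) (fun x => (C x).D) (C x₀).D := by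
  obtain ⟨-, -, hp, hq⟩ := h.fine x₀ hx
  refine ⟨(CfK1_g0 h hx).d, ?_, fun i hi => h.a i (hp ▸ hi) x₀ hx,
    fun j hj => h.b j (hq ▸ hj) x₀ hx, h.ρ x₀ hx⟩
  filter_upwards [self_mem_nhdsWithin] with x hx'
  exact ⟨(CfK1_g0 h hx').d, (h.fine x hx').2.2.1.trans hp.symm, (h.fine x hx').2.2.2.trans hq.symm⟩

theorem CfK1_mean : Continuous fun z : Zs γ => z.mean := by
  unfold Zs.mean
  fun_prop

theorem CfK1_eh (k : Fin γ) : Continuous fun z : Zs γ => z.eh k := by
  unfold Zs.eh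
  fun_prop

theorem CfK1_lu (e : Fin γ × Bool) : Continuous fun z : Zs γ => z.lu e := by
  have := CfK1_mean (γ := γ)
  obtain ⟨k, _ | _⟩ := e <;> simp only [Zs.lu, Zs.ξ] <;> fun_prop

theorem CfK1_b (h : CC S C L p q) (b : Bool) : ContinuousOn (fun x => (C x).bb b) S :=
  fun _ hx => (h.tends hx).b _ ((CfK1_g0 h hx).toAdm.jj_lt b)

theorem CfK1_A (h : CC S C L p q) (b : Bool) : ContinuousOn (fun x => (C x).D.A (jj b)) S :=
  fun _ hx => (h.tends hx).A ((CfK1_g0 h hx).toAdm.jj_lt b)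

theorem CfK1_L (h : CC S C L p q) : ContinuousOn (fun x => (C x).L) S :=
  continuousOn_const.congr fun x hx => (h.fine x hx).2.1

theorem CfK1_bpos (h : CC S C L p q) (b : Bool) {x : T} (hx : x ∈ S) : 0 < (C x).bb b :=
  ((CfK1_g0 h hx).toAdm.bb b).1.trans_le ((CfK1_g0 h hx).toAdm.bb b).2.1

theorem CfK1_E (h : CC S C L p q) : ContinuousOn (fun x => (C x).E) S :=
  (((CfK1_b h true).div (CfK1_b h false) fun _ hx => (CfK1_bpos h false hx).ne').log
    fun _ hx => (div_pos (CfK1_bpos h true hx) (CfK1_bpos h false hx)).ne').div_const _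

theorem CfK1_re {f : T → ℝ} (hf : ContinuousOn f S) : ContinuousOn (fun x => (f x : ℂ)) S :=
  continuous_ofReal.comp_continuousOn hf

theorem CfK1_lg (h : CC S C L p q) (e : Fin γ × Bool) : ContinuousOn (fun x => (C x).lg e) S := by
  have hk : ContinuousOn (fun x => (C x).lk e.2) S := by
    unfold Cfg.lk
    split_ifs
    · exact continuousOn_const.mul ((((CfK1_A h false).add (CfK1_A h true)).add
        ((CfK1_b h false).log fun _ hx => (CfK1_bpos h false hx).ne')).sub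
        ((CfK1_b h true).log fun _ hx => (CfK1_bpos h true hx).ne'))
    · exact continuousOn_const
  exact (CfK1_re ((continuousOn_const.mul (CfK1_L h)).add hk)).add
    ((CfK1_lu e).comp_continuousOn h.z)

theorem CfK1_τ (h : CC S C L p q) (e : Fin γ × Bool) : ContinuousOn (fun x => (C x).τ e) S :=
  (CfK1_lg h e).cexp

theorem CfK1_c (h : CC S C L p q) (e : Fin γ × Bool) : ContinuousOn (fun x => (C x).c e) S :=
  (CfK1_re (CfK1_b h e.2)).neg.add (CfK1_τ h e)

theorem CfK1_lam (h : CC S C L p q) (e : Fin γ × Bool) :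
    ContinuousOn (fun x => (C x).D.lam (jj e.2) ((C x).τ e)) S := fun x hx => by
  have g := CfK1_g0 h hx
  refine (h.tends hx).lam (g.toAdm.jj_lt e.2) (CfK1_τ h e x hx) ?_
  have := g.τ e
  have := (g.toAdm.bb e.2).1
  linarith

theorem CfK1_Res (h : CC S C L p q) (k : Fin γ) : ContinuousOn (fun x => (C x).Res k) S :=
  (CfK1_re ((CfK1_b h false).mul ((CfK1_E h).div (CfK1_L h)
    fun _ hx => (zero_lt_one.trans_le (CfK1_g0 h hx).L).ne'))).mul
      ((CfK1_eh k).comp_continuousOn h.z)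

theorem CfK1_lc (h : CC S C L p q) (e : Fin γ × Bool) :
    ContinuousOn (fun x => log (-(C x).c e)) S :=
  (CfK1_c h e).neg.clog fun x hx => Or.inl <| by
    have := ((CfK1_g0 h hx).c_bd e).2.1
    have := CfK1_bpos h e.2 hx
    exact lt_of_lt_of_le (by positivity) ‹99 / 100 * (C x).bb e.2 ≤ _›

theorem CfK1_vs (h : CC S C L p q) (k : Fin γ) : ContinuousOn (fun x => (C x).vs k) S :=
  (CfK1_Res h k).mul ((((continuousOn_const.add
    (CfK1_re (((CfK1_A h false).sub (CfK1_A h true)).div_const 2))).add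
    (((CfK1_lg h (k, false)).add (CfK1_lg h (k, true))).div_const 4)).add
    (((CfK1_lam h (k, false)).sub (CfK1_lam h (k, true))).div_const 2)).add
    (((CfK1_lc h (k, true)).sub (CfK1_lc h (k, false))).div_const 2)).cexp

theorem CfK1_s (h : CC S C L p q) (k : Fin γ) : ContinuousOn (fun x => (C x).pl.s k) S :=
  ((CfK1_τ h (k, false)).mul (CfK1_τ h (k, true))).mul ((CfK1_vs h k).pow 2)

theorem CfK1_q (h : CC S C L p q) (k : Fin γ) :
    ContinuousOn (fun x => -((C x).c (k, true) / (C x).c (k, false)) * (C x).Res k) S :=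
  ((CfK1_c h (k, true)).div (CfK1_c h (k, false))
    fun _ hx => ((CfK1_g0 h hx).c_bd _).1).neg.mul (CfK1_Res h k)

theorem CC.basic (h : CC S C L p q) (e : Fin γ × Bool) :
    ContinuousOn (fun x => (C x).E) S ∧ ContinuousOn (fun x => (C x).bb e.2) S ∧
    ContinuousOn (fun x => (C x).lg e) S ∧ ContinuousOn (fun x => (C x).τ e) S ∧
    ContinuousOn (fun x => (C x).c e) S ∧ ContinuousOn (fun x => (C x).vs e.1) S ∧
    ContinuousOn (fun x => (C x).pl.s e.1) S ∧ ContinuousOn (fun x => (C x).pl.ρ e) S ∧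
    ContinuousOn (fun x => (C x).r1 e) S ∧ ContinuousOn (fun x => (C x).r2 e) S ∧
    ContinuousOn (fun x => (C x).ℓ) S ∧ ContinuousOn (fun x => (C x).θ0 e.1) S ∧
    ContinuousOn (fun x => (C x).wp e) S ∧ ContinuousOn (fun x => (C x).Ge e 0) S := by
  refine ⟨CfK1_E h, CfK1_b h _, CfK1_lg h e, CfK1_τ h e, CfK1_c h e, CfK1_vs h _, CfK1_s h _,
    (CfK1_τ h e).norm.div_const _, ?_, ?_, ?_, ?_,
    (CfK1_c h e).add ((CfK1_τ h e).mul (CfK1_vs h _)), ?_⟩
  · obtain ⟨k, _ | _⟩ := e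
    · exact CfK1_Res h k
    · exact (CfK1_s h k).div (CfK1_Res h k) fun _ hx => (CfK1_g0 h hx).Res_ne k
  · obtain ⟨k, _ | _⟩ := e
    · exact (CfK1_s h k).div (CfK1_q h k) fun _ hx => mul_ne_zero (neg_ne_zero.2
        (div_ne_zero ((CfK1_g0 h hx).c_bd _).1 ((CfK1_g0 h hx).c_bd _).1)) ((CfK1_g0 h hx).Res_ne k)
    · exact CfK1_q h k
  · exact (((CfK1_E h).mul (continuousOn_const.add (continuous_re.comp_continuousOn
      (CfK1_mean.comp_continuousOn h.z)))).div (CfK1_L h)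
      fun _ hx => (zero_lt_one.trans_le (CfK1_g0 h hx).L).ne').neg
  · exact (continuousOn_const.mul (CfK1_re ((CfK1_b h false).mul (CfK1_A h false).rexp))).mul
      ((CfK1_lg h _).div_const 2).cexp
  · simp only [Cfg.Ge, (Cfg.dG_zero e).1]
    exact (((((CfK1_re (CfK1_A h e.2)).add continuousOn_const).add
      (continuousOn_const.mul (CfK1_lg h e))).add (CfK1_lam h e)).add continuousOn_const).cexp

theorem CfK1_slit {w : ℂ} (hw : ‖w‖ < 1) : 1 + w ∈ slitPlane := mem_slitPlane_of_norm_lt_one hw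

theorem CC.m (h : CC S C L p q) (e : Fin γ × Bool) :
    ContinuousOn (fun z : T × ℂ => (C z.1).m1 e z.2) {z | z.1 ∈ S ∧ ‖z.2‖ < 2 * (C z.1).pl.ρ e} ∧
    ContinuousOn (fun z : T × ℂ => (C z.1).m2 e z.2)
      {z | z.1 ∈ S ∧ ‖z.2‖ < 2 * (C z.1).pl.ρ e} := by
  set U : Set (T × ℂ) := {z | z.1 ∈ S ∧ ‖z.2‖ < 2 * (C z.1).pl.ρ e} with hU
  have hf : ∀ {f : T → ℂ}, ContinuousOn f S → ContinuousOn (fun z : T × ℂ => f z.1) U :=
    fun hf => hf.comp continuousOn_fst fun z hz => hz.1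
  have hτ := hf (CfK1_τ h e)
  have h1 : ContinuousOn (fun z : T × ℂ => log (1 + z.2 / (C z.1).τ e)) U :=
    (continuousOn_const.add (continuousOn_snd.div hτ fun z _ => Cfg.τ_ne e)).clog fun z hz => by
      refine CfK1_slit ?_
      have := ((CfK1_g0 h hz.1).disc hz.2.le).1
      have h0 : 0 < ‖(C z.1).τ e‖ := norm_pos_iff.2 (Cfg.τ_ne e)
      change ‖z.2 / (C z.1).τ e‖ < 1
      rw [norm_div, div_lt_one h0]
      linarith
  have h2 : ContinuousOn (fun z : T × ℂ => log (1 + z.2 / (C z.1).c e)) U :=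
    (continuousOn_const.add (continuousOn_snd.div (hf (CfK1_c h e))
      fun z hz => ((CfK1_g0 h hz.1).c_bd e).1)).clog fun z hz =>
        CfK1_slit (((CfK1_g0 h hz.1).disc hz.2.le).2.2.2.1.trans_lt (by norm_num))
  have h3 : ContinuousOn (fun z : T × ℂ => (C z.1).D.lam (jj e.2) ((C z.1).τ e + z.2)) U :=
    fun z hz => ((h.tends hz.1).comp (φ := Prod.fst) (l' := 𝓝[U] z)
      (continuousWithinAt_fst.tendsto_nhdsWithin fun z hz => hz.1)).lam
      ((CfK1_g0 h hz.1).toAdm.jj_lt e.2) ((hτ.add continuousOn_snd) z hz)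
      ((CfK1_g0 h hz.1).disc hz.2.le).2.2.1
  have h4 : ContinuousOn (fun z : T × ℂ => (C z.1).dG e z.2) U :=
    (continuousOn_const.mul h1).add (h3.sub (hf (CfK1_lam h e)))
  exact ⟨((h4.sub h2).div_const 2).cexp, ((h4.neg.sub h2).div_const 2).cexp⟩

theorem CC.G (h : CC S C L p q) : ContinuousOn (fun z : T × ℂ => (C z.1).D.G z.2)
    {z | z.1 ∈ S ∧ 0 ≤ z.2.im ∧ (C z.1).D.P z.2 ≠ 0} := fun _ hz =>
  ((h.tends hz.1).comp (φ := Prod.fst)
    (continuousWithinAt_fst.tendsto_nhdsWithin fun _ hz => hz.1)).G continuousWithinAt_snd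
    (eventually_nhdsWithin_of_forall fun _ hz => hz.2.1) hz.2.1 hz.2.2

end Pool.Agent.MP_92463a_gt
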