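import Pool.Agent.MP_92463a_gt.CfK1
import Pool.Agent.MP_92463a_gt.CfD

open Set Complex Filter Metric
open scoped Topology ComplexConjugate ContDiff Manifold

noncomputable section

namespace Pool.Agent.MP_92463a_gt

variable {γ : ℕ} {T : Type} [TopologicalSpace T] {S : Set T} {C : T → Cfg γ} {L : ℝ} {p q : ℕ}
  [FirstCountableTopology T]

theorem CfK2_sum {ι : Type} [Fintype ι] {P : T → Pl ι} {m : T → ι × Bool → ℂ → ℂ}
    {r : T → ι × Bool → ℂ} {F : T → ℂ → ℂ} {B : ℝ} {W : ι × Bool → ℝ}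
    (h : ∀ x ∈ S, (P x).Ok ∧ (P x).Wt (m x) ∧ (P x).Con (r x) W ∧ (P x).FB (F x) B W)
    (hc : ∀ e, ContinuousOn (fun x => (P x).c e) S) (hρ : ∀ e, ContinuousOn (fun x => (P x).ρ e) S)
    (hs : ∀ e : ι × Bool, ContinuousOn (fun x => (P x).s e.1) S)
    (hr : ∀ e, ContinuousOn (fun x => r x e) S)
    (hm : ∀ e, ContinuousOn (fun z : T × ℂ => m z.1 e z.2) {z | z.1 ∈ S ∧ ‖z.2‖ < 2 * (P z.1).ρ e})
    (hF : ∀ e, ContinuousOn (fun z : T × ℂ => F z.1 ((P z.1).c e + z.2))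
      {z | z.1 ∈ S ∧ ‖z.2‖ = (P z.1).ρ e}) :
    ContinuousOn (fun z : T × ℂ => 1 + ∑ e, (P z.1).pk ((P z.1).k1 (m z.1) (r z.1))
      ((P z.1).psi ((P z.1).k1 (m z.1) (r z.1)) (F z.1)) e z.2)
      {z | z.1 ∈ S ∧ z.2 ∈ (P z.1).Om} := by
  refine continuousOn_const.add (continuousOn_finsetSum _ fun e _ => (Pl.psi_cont
    (κ := fun x => (P x).k1 (m x) (r x)) (fun x hx => ⟨(h x hx).1, Pl.k1_kb (h x hx).1 (h x hx).2.1
      (h x hx).2.2.1, (h x hx).2.2.2⟩) hc hρ (fun e => ?_) hF e).mono fun z hz => ⟨hz.1, hz.2 e⟩)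
  have hw : ContinuousOn (fun z : T × ℂ × ℂ => (P z.1).s e.1 / z.2.1)
      {z | z.1 ∈ S ∧ ‖z.2.1‖ = (P z.1).ρ (op e) ∧ (P z.1).rin e < ‖z.2.2‖} :=
    ((hs e).comp continuousOn_fst fun z hz => hz.1).div (by fun_prop) fun z hz =>
      norm_pos_iff.1 (hz.2.1 ▸ (h _ hz.1).1.ρ_pos (op e))
  exact (((hr e).comp continuousOn_fst fun z hz => hz.1).mul
    ((hm (op e)).comp (f := fun z : T × ℂ × ℂ => (z.1, z.2.1)) (by fun_prop) fun z hz =>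
      ⟨hz.1, Pl.Ker_v (h _ hz.1).1 hz.2.1⟩)).div
    (((hm e).comp (continuousOn_fst.prodMk hw) fun z hz =>
      ⟨hz.1, Pl.Ker_w (h _ hz.1).1 hz.2.1⟩).mul (ContinuousOn.sub (by fun_prop) hw)) fun z hz =>
    mul_ne_zero ((h _ hz.1).2.1.ne (Pl.Ker_w (h _ hz.1).1 hz.2.1)).1
      (Pl.Ker_ne (h _ hz.1).1 hz.2.1 hz.2.2)

omit [FirstCountableTopology T] in
theorem CfK2_bg (h : CC S C L p q) :
    ContinuousOn (fun z : T × ℂ => ((C z.1).ℓ * (C z.1).D.b 0 / (z.2 + (C z.1).D.b 0) : ℂ))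
      {z | z.1 ∈ S ∧ (C z.1).D.P z.2 ≠ 0} := by
  intro z hz
  have e : Fin γ × Bool := (⟨0, (h.fine _ hz.1).1.pos⟩, false)
  revert z
  have h1 : ContinuousOn (fun z : T × ℂ => ((C z.1).ℓ : ℂ)) {z | z.1 ∈ S ∧ (C z.1).D.P z.2 ≠ 0} :=
    continuous_ofReal.comp_continuousOn ((h.basic e).2.2.2.2.2.2.2.2.2.2.1.comp continuousOn_fst
      fun z hz => hz.1)
  have h2 : ContinuousOn (fun z : T × ℂ => ((C z.1).D.b 0 : ℂ))
      {z | z.1 ∈ S ∧ (C z.1).D.P z.2 ≠ 0} :=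
    continuous_ofReal.comp_continuousOn ((h.basic (e.1, false)).2.1.comp continuousOn_fst
      fun z hz => hz.1)
  exact (h1.mul h2).div (continuousOn_snd.add h2) fun z hz =>
    ((h.fine _ hz.1).1.ok0.b0 fun he => hz.2 (Dat.P_eq_zero.2 (Or.inl he))).1

theorem CC.psi (h : CC S C L p q) :
    ContinuousOn (fun z : T × ℂ => (C z.1).wd.χ z.2) {z | z.1 ∈ S ∧ z.2 ∈ (C z.1).pl.Om} ∧
    ContinuousOn (fun z : T × ℂ => (C z.1).wd.ψ₂ z.2) {z | z.1 ∈ S ∧ z.2 ∈ (C z.1).pl.Om} := by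
  have hc := fun e => (h.basic e).2.2.2.2.1
  have hs := fun e => (h.basic e).2.2.2.2.2.2.1
  have hρ := fun e => (h.basic e).2.2.2.2.2.2.2.1
  constructor
  · refine CfK2_sum (P := fun x => (C x).pl) (m := fun x => (C x).m1) (r := fun x => (C x).r1)
      (F := fun x => (C x).bg) (B := 2) (W := fun e => if e.2 then 1 else Real.exp (2 * L))
      (fun x hx => ?_) hc hρ hs (fun e => (h.basic e).2.2.2.2.2.2.2.2.1) (fun e => (h.m e).1)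
      fun e => ?_
    · obtain ⟨g, rfl, -⟩ := h.fine x hx
      exact ⟨g.g0.pl_ok, g.w1, g.c1, g.fb1⟩
    · exact continuousOn_const.add ((CfK2_bg h).comp
        (f := fun z : T × ℂ => (z.1, (C z.1).c e + z.2)) (continuousOn_fst.prodMk
          (((hc e).comp continuousOn_fst fun z hz => hz.1).add continuousOn_snd)) fun z hz =>
        ⟨hz.1, (h.fine _ hz.1).1.g0.free ((h.fine _ hz.1).1.g0.pl_ok.circ_mem hz.2).2.le⟩)
  · refine (CfK2_sum (P := fun x => (C x).pl) (m := fun x => (C x).m2) (r := fun x => (C x).r2)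
      (F := fun _ _ => 1) (B := 1) (W := fun e => if e.2 then Real.exp (2 * L) else 1)
      (fun x hx => ?_) hc hρ hs (fun e => (h.basic e).2.2.2.2.2.2.2.2.2.1) (fun e => (h.m e).2)
      fun e => continuousOn_const).congr fun z hz => (h.fine _ hz.1).1.ψ₂_eq z.2
    obtain ⟨g, rfl, -⟩ := h.fine x hx
    exact ⟨g.g0.pl_ok, g.w2, g.c2, g.fb2⟩

theorem CfK2_psi (h : CC S C L p q) : ContinuousOn (fun z : T × ℂ => (C z.1).wd.ψ₁ z.2)
    {z | z.1 ∈ S ∧ z.2 ∈ (C z.1).pl.Om ∧ (C z.1).D.P z.2 ≠ 0} :=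
  (h.psi.1.mono fun _ hz => ⟨hz.1, hz.2.1⟩).add ((CfK2_bg h).mono fun _ hz => ⟨hz.1, hz.2.2⟩)

theorem CC.F (h : CC S C L p q) :
    ContinuousOn (fun z : T × ℂ => (C z.1).wd.F1 z.2) {z | z.1 ∈ S ∧ z.2 ∈ (C z.1).wd.Qr} ∧
    ContinuousOn (fun z : T × ℂ => (C z.1).wd.F2 z.2) {z | z.1 ∈ S ∧ z.2 ∈ (C z.1).wd.Qr} := by
  have hG : ContinuousOn (fun z : T × ℂ => (C z.1).D.G z.2)
      {z | z.1 ∈ S ∧ z.2 ∈ (C z.1).wd.Qr} := h.G.mono fun _ hz => ⟨hz.1, hz.2.1, hz.2.2.1⟩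
  have h0 : ∀ z ∈ {z : T × ℂ | z.1 ∈ S ∧ z.2 ∈ (C z.1).wd.Qr}, z.2 ≠ 0 := fun z hz he =>
    hz.2.2.1 (Dat.P_eq_zero.2 (Or.inl (Or.inl he)))
  exact ⟨(((CfK2_psi h).mono fun _ hz => ⟨hz.1, hz.2.2.2, hz.2.2.1⟩).pow 2).mul
    (hG.div continuousOn_snd h0), ((h.psi.2.mono fun _ hz => ⟨hz.1, hz.2.2.2⟩).pow 2).mul
    ((hG.mul continuousOn_snd).inv₀ fun z hz => mul_ne_zero (Dat.G_ne _) (h0 z hz))⟩

theorem CC.f (h : CC S C L p q) (e : Fin γ × Bool) :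
    ContinuousOn (fun z : T × ℂ => (C z.1).wd.f1 e z.2) {z | z.1 ∈ S ∧ z.2 ∈ (C z.1).pl.Ann2 e} ∧
    ContinuousOn (fun z : T × ℂ => (C z.1).wd.f2 e z.2) {z | z.1 ∈ S ∧ z.2 ∈ (C z.1).pl.Ann2 e} ∧
    ContinuousOn (fun z : T × ℂ => (C z.1).wd.f3 e z.2)
      {z | z.1 ∈ S ∧ z.2 ∈ (C z.1).pl.Ann2 e} := by
  set A : Set (T × ℂ) := {z | z.1 ∈ S ∧ z.2 ∈ (C z.1).pl.Ann2 e}
  have g : ∀ z ∈ A, (C z.1).G0 := fun z hz => (h.fine _ hz.1).1.g0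
  have hc : ContinuousOn (fun z : T × ℂ => (C z.1).c e) A :=
    (h.basic e).2.2.2.2.1.comp continuousOn_fst fun z hz => hz.1
  have hG : ContinuousOn (fun z : T × ℂ => (C z.1).Ge e 0) A :=
    (h.basic e).2.2.2.2.2.2.2.2.2.2.2.2.2.comp continuousOn_fst fun z hz => hz.1
  have ht : ContinuousOn (fun z : T × ℂ => (z.1, (C z.1).c e + z.2)) A :=
    continuousOn_fst.prodMk (hc.add continuousOn_snd)
  have a1 := (CfK2_psi h).comp ht fun z hz =>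
    ⟨hz.1, (g z hz).pl_ok.ann2_mem hz.2, (g z hz).free hz.2.2.le⟩
  have a2 := h.psi.2.comp ht fun z hz => ⟨hz.1, (g z hz).pl_ok.ann2_mem hz.2⟩
  simp only [Function.comp_def] at a1 a2
  have h1 := ((h.m e).1.mono (t := A) fun _ hz => ⟨hz.1, hz.2.2⟩).mul a1
  have h2 := ((h.m e).2.mono (t := A) fun _ hz => ⟨hz.1, hz.2.2⟩).mul a2
  have h0 : ∀ z ∈ A, (C z.1).c e ≠ 0 := fun z hz => ((g z hz).c_bd e).1
  exact ⟨((h1.pow 2).mul (hG.div hc h0)).congr fun z hz => ((g z hz).f_eq hz.2.2.le).1,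
    ((h2.pow 2).mul ((hG.mul hc).inv₀ fun z hz => mul_ne_zero (exp_ne_zero _) (h0 z hz))).congr
      fun z hz => ((g z hz).f_eq hz.2.2.le).2.1,
    ((h1.mul h2).div hc h0).congr fun z hz => ((g z hz).f_eq hz.2.2.le).2.2⟩

theorem CC.rs (h : CC S C L p q) (e : Fin γ × Bool) :
    ContinuousOn (fun x => (C x).pl.rs (C x).wd.f1 e) S ∧
    ContinuousOn (fun x => (C x).pl.rs (C x).wd.f2 e) S ∧
    ContinuousOn (fun x => (C x).pl.rs (C x).wd.f3 e) S := by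
  have key : ∀ φ : T → Fin γ × Bool → ℂ → ℂ, ContinuousOn (fun z : T × ℂ => φ z.1 e z.2)
      {z | z.1 ∈ S ∧ z.2 ∈ (C z.1).pl.Ann2 e} → ContinuousOn (fun x => (C x).pl.rs (φ x) e) S :=
    fun φ hφ => av_contOn (k := fun x v => φ x e v * v) (h.basic e).2.2.2.2.2.2.2.1
      (fun x hx => ((h.fine x hx).1.g0.pl_ok.ρ_pos e).le)
      ((hφ.mono fun z hz => ⟨hz.1, (h.fine _ hz.1).1.g0.pl_ok.circ_mem hz.2⟩).mul continuousOn_snd)
  exact ⟨key _ (h.f e).1, key _ (h.f e).2.1, key _ (h.f e).2.2⟩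

theorem CC.lk (h : CC S C L p q) {u v : T → ℝ} (hu : ContinuousOn u S) (hv : ContinuousOn v S)
    (hQ : ∀ x ∈ S, ∀ θ ∈ Icc 0 Real.pi,
      ((u x + v x) / 2 + (u x - v x) / 2 * exp (θ * I) : ℂ) ∈ (C x).wd.Qr) (ty : Bool) :
    ContinuousOn (fun x => Lk (C x).wd.F1 (C x).wd.F2 ty (u x) (v x)) S := by
  set A : Set (T × ℝ) := {z | z.1 ∈ S ∧ z.2 ∈ uIcc 0 Real.pi}
  have h1 : ContinuousOn (fun z : T × ℝ => (u z.1 : ℂ)) A :=
    continuous_ofReal.comp_continuousOn (hu.comp continuousOn_fst fun z hz => hz.1)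
  have h2 : ContinuousOn (fun z : T × ℝ => (v z.1 : ℂ)) A :=
    continuous_ofReal.comp_continuousOn (hv.comp continuousOn_fst fun z hz => hz.1)
  have h3 : ContinuousOn (fun z : T × ℝ => ((u z.1 - v z.1) / 2 * exp (z.2 * I) : ℂ)) A :=
    ((h1.sub h2).div_const _).mul (Continuous.continuousOn (by fun_prop))
  have ht : ContinuousOn (fun z : T × ℝ =>
      (z.1, ((u z.1 + v z.1) / 2 + (u z.1 - v z.1) / 2 * exp (z.2 * I) : ℂ))) A :=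
    continuousOn_fst.prodMk (((h1.add h2).div_const _).add h3)
  have hd : ContinuousOn (fun z : T × ℝ => ((u z.1 - v z.1) / 2 * exp (z.2 * I) * I : ℂ)) A :=
    h3.mul continuousOn_const
  have hm : MapsTo (fun z : T × ℝ =>
      (z.1, ((u z.1 + v z.1) / 2 + (u z.1 - v z.1) / 2 * exp (z.2 * I) : ℂ))) A
      {z | z.1 ∈ S ∧ z.2 ∈ (C z.1).wd.Qr} := fun z hz =>
    ⟨hz.1, hQ _ hz.1 _ (uIcc_of_le Real.pi_pos.le ▸ hz.2)⟩
  refine (show Continuous (if ty then im else re) by cases ty <;> simp <;> fun_prop).comp_continuousOn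
    (int_contOn (a := fun _ => 0) (b := fun _ => Real.pi) continuousOn_const continuousOn_const ?_)
  exact ((h.F.1.comp ht hm).mul hd).sub
    (continuous_conj.comp_continuousOn ((h.F.2.comp ht hm).mul hd))

end Pool.Agent.MP_92463a_gt
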