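import Pool.Agent.MP_92463a_gt.CfK2

open Set Complex Filter Metric
open scoped Topology ComplexConjugate ContDiff Manifold

noncomputable section

namespace Pool.Agent.MP_92463a_gt

variable {γ : ℕ} {T : Type} [TopologicalSpace T] {S : Set T} {C : T → Cfg γ} {L : ℝ} {p q : ℕ}
  [FirstCountableTopology T]

theorem CfK3_wp {C : Cfg γ} (h : C.Good) (e : Fin γ × Bool) :
    C.wp e ∈ C.pl.Om ∧ C.wp e ≠ 0 ∧ C.wp e + C.D.b 0 ≠ 0 ∧ (0 : ℂ) ∈ C.pl.Om ∧
      -(C.D.b 0 : ℂ) ∈ C.pl.Om := by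
  have hp := h.g0.pl_ok
  have ha := hp.ann_sub e (h.g0.s_div e).2
  have hP : C.D.P (C.wp e) ≠ 0 := h.g0.free ha.2.le
  have h0 : C.D.P 0 = 0 := Dat.P_eq_zero.2 (.inl (.inl rfl))
  have h1 : C.D.P (-C.D.b 0) = 0 :=
    Dat.P_eq_zero.2 (.inl (.inr ⟨0, h.toAdm.jj_lt false, rfl⟩))
  exact ⟨hp.ann2_mem ha, fun h2 => hP (h2 ▸ h0), fun h2 => hP (eq_neg_of_add_eq_zero_left h2 ▸ h1),
    (h.ok0.zero_fd h0).2, (h.ok0.zero_fd h1).2⟩

omit [FirstCountableTopology T] in
theorem CfK3_fst {X Y : Type} [TopologicalSpace X] [TopologicalSpace Y] {f : T → Y}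
    (hf : ContinuousOn f S) {U : Set (T × X)} (hU : ∀ z ∈ U, z.1 ∈ S) :
    ContinuousOn (fun z : T × X => f z.1) U :=
  hf.comp continuousOn_fst hU

omit [FirstCountableTopology T] in
theorem CfK3_b0 (h : CC S C L p q) : ContinuousOn (fun x => ((C x).D.b 0 : ℂ)) S := by
  intro x hx
  have h1 := (h.fine x hx).1.toAdm.q
  rw [(h.fine x hx).2.2.2] at h1
  exact continuous_ofReal.comp_continuousOn (h.b 0 (by omega)) x hx

theorem CfK3_th (h : CC S C L p q) (e : Fin γ × Bool) {t : T → ℂ} (ht : ContinuousOn t S)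
    (hO : ∀ x ∈ S, t x ∈ (C x).pl.Om) :
    ContinuousOn (fun x => (C x).pl.th (C x).wd.f3 e (t x - (C x).c e)) S := by
  have hp : ∀ x ∈ S, (C x).pl.Ok := fun x hx => (h.fine x hx).1.toGood.g0.pl_ok
  obtain ⟨-, -, -, -, hc, -, hs, -⟩ := h.basic e
  obtain ⟨-, -, -, -, -, -, -, hρ, -⟩ := h.basic (op e)
  unfold Pl.th
  refine (av_contOn (r := fun x => (C x).pl.ρ (op e))
    (k := fun x v => (C x).wd.f3 (op e) v * v * log (1 - (C x).pl.s e.1 / v / (t x - (C x).c e)))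
    hρ (fun x hx => ((hp x hx).ρ_pos _).le) ?_).neg
  have hu : ∀ x ∈ S, 0 < ‖t x - (C x).c e‖ := fun x hx => ((hp x hx).rin_pos e).trans (hO x hx e)
  refine (((h.f (op e)).2.2.mono fun z hz => ⟨hz.1, (hp _ hz.1).circ_mem hz.2⟩).mul
    continuousOn_snd).mul (ContinuousOn.clog (continuousOn_const.sub
      (((CfK3_fst hs fun z hz => hz.1).div continuousOn_snd fun z hz => ?_).div
        (CfK3_fst (ht.sub hc) fun z hz => hz.1) fun z hz => norm_pos_iff.1 (hu _ hz.1)))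
      fun z hz => ?_)
  · exact norm_pos_iff.1 (((hp _ hz.1).ρ_pos _).trans_eq hz.2.symm)
  · rw [sub_eq_add_neg]
    refine mem_slitPlane_of_norm_lt_one ?_
    rw [norm_neg, norm_div, (hp _ hz.1).circ_rin hz.2, div_lt_one (hu _ hz.1)]
    exact hO _ hz.1 e

theorem CC.hh (h : CC S C L p q) (e : Fin γ × Bool) :
    ContinuousOn (fun x => (C x).wd.hh ((C x).wp e)) S := by
  have hw := fun x hx => CfK3_wp (h.fine x hx).1.toGood e
  have hp : ∀ x ∈ S, (C x).pl.Ok := fun x hx => (h.fine x hx).1.toGood.g0.pl_ok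
  obtain ⟨-, -, -, -, -, -, -, -, -, -, hl, -, ht, -⟩ := h.basic e
  have hl' : ContinuousOn (fun x => ((C x).ℓ : ℂ)) S := continuous_ofReal.comp_continuousOn hl
  have hb := CfK3_b0 h
  have h1 : ContinuousOn (fun x => (C x).wd.χ 0) S :=
    h.psi.1.comp (f := fun x => (x, (0 : ℂ))) (by fun_prop) fun x hx => ⟨hx, (hw x hx).2.2.2.1⟩
  have h2 : ContinuousOn (fun x => (C x).wd.ψ₂ 0) S :=
    h.psi.2.comp (f := fun x => (x, (0 : ℂ))) (by fun_prop) fun x hx => ⟨hx, (hw x hx).2.2.2.1⟩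
  have h3 : ContinuousOn (fun x => (C x).wd.ψ₂ (-(C x).D.b 0)) S :=
    h.psi.2.comp (f := fun x => (x, -((C x).D.b 0 : ℂ))) (continuousOn_id.prodMk hb.neg)
      fun x hx => ⟨hx, (hw x hx).2.2.2.2⟩
  have h4 : ContinuousOn (fun x => (C x).wd.c0) S :=
    continuous_re.comp_continuousOn ((h1.add ((hl'.mul hb).div (continuousOn_const.add hb)
      fun x hx => (zero_add _).trans_ne
        (ofReal_ne_zero.2 ((h.fine x hx).1.toAdm.bb true).1.ne'))).mul h2)
  have h5 : ContinuousOn (fun x => (C x).wd.q0) S :=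
    continuous_re.comp_continuousOn (hl'.neg.mul h3)
  unfold Wd.hh
  refine continuousOn_const.mul (((h4.mul (ht.norm.log fun x hx => ?_)).add
    (h5.mul ((ht.add hb).norm.log fun x hx => ?_))).add
      (continuousOn_finsetSum _ fun e' _ => ((continuous_re.comp_continuousOn (h.rs e').2.2).mul
        ((ht.sub (h.basic e').2.2.2.2.1).norm.log fun x hx => ?_)).add
          (continuous_re.comp_continuousOn (CfK3_th h e' ht fun x hx => (hw x hx).1))))
  · exact norm_ne_zero_iff.2 (hw x hx).2.1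
  · exact norm_ne_zero_iff.2 (hw x hx).2.2.1
  · exact (((hp x hx).rin_pos e').trans ((hw x hx).1 e')).ne'

theorem CfK3_int (h : CC S C L p q) {a b : T → ℝ} {g g' : T → ℝ → ℂ} (ha : ContinuousOn a S)
    (hb : ContinuousOn b S)
    (hg : ContinuousOn (fun z : T × ℝ => g z.1 z.2) {z | z.1 ∈ S ∧ z.2 ∈ uIcc (a z.1) (b z.1)})
    (hg' : ContinuousOn (fun z : T × ℝ => g' z.1 z.2) {z | z.1 ∈ S ∧ z.2 ∈ uIcc (a z.1) (b z.1)})
    (hQ : ∀ x ∈ S, ∀ θ ∈ uIcc (a x) (b x), g x θ ∈ (C x).wd.Qr) :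
    ContinuousOn (fun x => ∫ θ in a x..b x,
      ((C x).wd.F1 (g x θ) * g' x θ - conj ((C x).wd.F2 (g x θ) * g' x θ))) S :=
  int_contOn (f := fun x θ => (C x).wd.F1 (g x θ) * g' x θ - conj ((C x).wd.F2 (g x θ) * g' x θ))
    ha hb (((h.F.1.comp (continuousOn_fst.prodMk hg) fun _ hz => ⟨hz.1, hQ _ hz.1 _ hz.2⟩).mul
      hg').sub (continuous_conj.comp_continuousOn ((h.F.2.comp (continuousOn_fst.prodMk hg)
        fun _ hz => ⟨hz.1, hQ _ hz.1 _ hz.2⟩).mul hg')))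

theorem CfK3_two {C : Cfg γ} (h : C.G0) (e : Fin γ × Bool) : 2 * ‖C.τ e‖ < C.D.b 0 / 2 := by
  have h1 := h.τ e
  have h2 := (h.toAdm.bb true).1
  linarith

theorem CfK3_arc (h : CC S C L p q) {k : Fin γ} (hk : γ ≤ 2 * (k : ℕ) + 1) (b : Bool) {a : ℝ}
    (ha : a ∈ Icc 0 Real.pi) :
    ContinuousOn (fun x => arcI (C x).wd.F1 (C x).wd.F2 (-(C x).bb b) (2 * ‖(C x).τ (k, b)‖) a
      ((C x).lg (k, b)).im) S := by
  obtain ⟨-, hb, hl, hτ, -⟩ := h.basic (k, b)
  have hR : ContinuousOn (fun z : T × ℝ => ((2 * ‖(C z.1).τ (k, b)‖ : ℝ) : ℂ) * exp (z.2 * I))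
      {z | z.1 ∈ S ∧ z.2 ∈ uIcc a ((C z.1).lg (k, b)).im} :=
    (CfK3_fst (continuous_ofReal.comp_continuousOn (continuousOn_const.mul hτ.norm))
      fun z hz => hz.1).mul (by fun_prop)
  unfold arcI
  refine CfK3_int h (a := fun _ => a)
    (g := fun x θ => -((C x).bb b : ℂ) + ((2 * ‖(C x).τ (k, b)‖ : ℝ) : ℂ) * exp (θ * I))
    (g' := fun x θ => ((2 * ‖(C x).τ (k, b)‖ : ℝ) : ℂ) * exp (θ * I) * I) continuousOn_const
    (continuous_im.comp_continuousOn hl)
    ((CfK3_fst (continuous_ofReal.comp_continuousOn hb).neg fun z hz => hz.1).add hR)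
    (hR.mul continuousOn_const) fun x hx θ hθ => ?_
  have hG := (h.fine x hx).1.toGood.g0
  exact (hG.ss le_rfl (hG.arc (CfK3_two hG (k, b))
    (uIcc_subset_Icc ha (hG.toAdm.lg_im hk b).1 hθ))).1

theorem CC.XM (h : CC S C L p q) {k : Fin γ} (hk : γ ≤ 2 * (k : ℕ) + 1) (b : Bool) :
    ContinuousOn (fun x => (C x).XM (k, b)) S := by
  have h0 : (0 : ℝ) ∈ Icc 0 Real.pi := ⟨le_rfl, Real.pi_pos.le⟩
  have h1 : Real.pi ∈ Icc 0 Real.pi := ⟨Real.pi_pos.le, le_rfl⟩
  obtain ⟨-, hb, -, hτ, -, -, -, -, -, -, -, -, hw, -⟩ := h.basic (k, b)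
  have ht : ContinuousOn (fun x => -((C x).bb b : ℂ) + 2 * (C x).τ (k, b)) S :=
    (continuous_ofReal.comp_continuousOn hb).neg.add (continuousOn_const.mul hτ)
  unfold Cfg.XM
  refine ((continuous_ofReal.comp_continuousOn (continuous_re.comp_continuousOn
    (CfK3_arc h hk b (by cases b <;> assumption)))).add ((continuous_ofReal.comp_continuousOn
      (continuous_im.comp_continuousOn (CfK3_arc h hk b (by cases b <;> assumption)))).mul
        continuousOn_const)).add ?_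
  unfold segI
  refine CfK3_int h (a := fun _ => 0) (b := fun _ => 1)
    (g := fun x θ => -((C x).bb b : ℂ) + 2 * (C x).τ (k, b) +
      θ * ((C x).wp (k, b) - (-((C x).bb b : ℂ) + 2 * (C x).τ (k, b))))
    (g' := fun x _ => (C x).wp (k, b) - (-((C x).bb b : ℂ) + 2 * (C x).τ (k, b)))
    continuousOn_const continuousOn_const
    ((CfK3_fst ht fun z hz => hz.1).add ((by fun_prop : ContinuousOn (fun z : T × ℝ => (z.2 : ℂ)) _).mul
      (CfK3_fst (hw.sub ht) fun z hz => hz.1)))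
    (CfK3_fst (hw.sub ht) fun z hz => hz.1) fun x hx θ hθ => ?_
  have hF := (h.fine x hx).1
  rw [uIcc_of_le zero_le_one] at hθ
  convert (hF.toGood.g0.ss le_rfl (hF.seg hk (CfK3_two hF.toGood.g0 (k, b)) hθ)).1 using 1
  simp only [Cfg.wp, Cfg.c]
  ring

theorem CC.eq (h : CC S C L p q) : ContinuousOn (fun x => (C x).eq) S := by
  have hE : ∀ x ∈ S, 0 < (C x).E := fun x hx => (h.fine x hx).1.toAdm.E_pos
  have hL : ∀ x ∈ S, 0 < (C x).L := fun x hx => one_pos.trans_le (h.fine x hx).1.L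
  have cL : ContinuousOn (fun x => (C x).L) S :=
    continuousOn_const.congr fun x hx => (h.fine x hx).2.1
  have hθ : ∀ k, ∀ x ∈ S, (C x).θ0 k ≠ 0 := fun k x hx =>
    mul_ne_zero (mul_ne_zero I_ne_zero (ofReal_ne_zero.2
      (mul_pos ((h.fine x hx).1.toAdm.bb true).1 (Real.exp_pos _)).ne')) (exp_ne_zero _)
  have cE : ∀ k : Fin γ, ContinuousOn (fun x => (C x).E) S := fun k => (h.basic (k, true)).1
  have cθ : ∀ k : Fin γ, ContinuousOn (fun x => (C x).θ0 k) S := fun k =>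
    (h.basic (k, true)).2.2.2.2.2.2.2.2.2.2.2.1
  have cB : ∀ k : Fin γ, γ ≤ 2 * (k : ℕ) + 1 → ContinuousOn (fun x => (C x).eB k) S := fun k hk =>
    ((h.XM hk true).sub (h.XM hk false)).div (continuous_conj.comp_continuousOn
      (continuousOn_const.div (cθ k) (hθ k))) fun x hx =>
        (map_ne_zero _).2 (div_ne_zero two_ne_zero (hθ k x hx))
  refine (continuousOn_pi.2 fun k => ?_).prodMk ((continuousOn_pi.2 fun k => ?_).prodMk
    ((continuousOn_pi.2 fun k => ?_).prodMk (continuousOn_pi.2 fun k => ?_)))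
  · exact ((h.rs (k, false)).1.sub (continuous_conj.comp_continuousOn (h.rs (k, true)).2.1)).div
      ((continuousOn_const.mul (cθ k)).mul ((continuous_ofReal.comp_continuousOn
        ((cE k).div cL fun x hx => (hL x hx).ne')).pow 2)) fun x hx =>
      mul_ne_zero (mul_ne_zero two_ne_zero (hθ k x hx))
        (pow_ne_zero 2 (ofReal_ne_zero.2 (div_pos (hE x hx) (hL x hx)).ne'))
  · exact ((h.hh (k, true)).sub (h.hh (k, false))).div (continuousOn_const.mul (cE k))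
      fun x hx => (mul_pos four_pos (hE x hx)).ne'
  · exact (cL.div (cE k) fun x hx => (hE x hx).ne').neg.mul
      (continuous_im.comp_continuousOn (h.rs (k, false)).2.2)
  · unfold sy
    split_ifs with hk
    · exact cB k hk
    · exact continuous_conj.comp_continuousOn (cB k.rev (by rw [Fin.val_rev]; omega))

end Pool.Agent.MP_92463a_gt
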