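import Pool.Agent.MP_92463a_gt.WLF
import Pool.Agent.MP_92463a_gt.MFa

open Set Complex Filter Metric
open scoped Topology ComplexConjugate ContDiff Manifold

noncomputable section

namespace Pool.Agent.MP_92463a_gt

theorem WH_inv (b : ℂ) : Tendsto (fun t : ℂ => b / t) (Bornology.cobounded ℂ) (𝓝 0) := by
  simpa [div_eq_mul_inv] using (tendsto_inv₀_cobounded (α := ℂ)).const_mul b

theorem WH_ne : ∀ᶠ t : ℂ in Bornology.cobounded ℂ, t ≠ 0 :=
  Bornology.eventually_ne_cobounded 0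

theorem WH_lin {K : ℂ → ℂ} {A : ℂ} (hK : Differentiable ℂ K)
    (hA : Tendsto (fun t => K t / t) (Bornology.cobounded ℂ) (𝓝 A)) (t : ℂ) :
    K t = K 0 + A * t := by
  have h1 : Differentiable ℂ (dslope K 0) := differentiableOn_univ.1
    ((differentiableOn_dslope univ_mem).2 hK.differentiableOn)
  have h2 : Tendsto (dslope K 0) (cocompact ℂ) (𝓝 A) := by
    rw [← Metric.cobounded_eq_cocompact]
    have := hA.sub (WH_inv (K 0))
    rw [sub_zero] at this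
    refine this.congr' (WH_ne.mono fun t ht => ?_)
    simp only [dslope_of_ne _ ht, slope_def_field, sub_zero, sub_div]
  have h3 := sub_smul_dslope K 0 t
  rw [h1.apply_eq_of_tendsto_cocompact t h2, sub_zero, smul_eq_mul] at h3
  linear_combination -h3

theorem WH_re {Φ : ℂ → ℂ} {φ t : ℂ} (h : HasDerivAt Φ φ t) :
    HasFDerivAt (fun w => 2 * (Φ w).re) (hl φ) t := by
  have := (reCLM.hasFDerivAt.comp t (h.hasFDerivAt.restrictScalars ℝ)).const_mul (2 : ℝ)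
  refine this.congr_fderiv (ContinuousLinearMap.ext fun v => ?_)
  simp [hl_apply, mul_comm]

theorem WH_log {c t : ℂ} (h : t - c ≠ 0) : ∃ Φ : ℂ → ℂ, HasDerivAt Φ (t - c)⁻¹ t ∧
    ∀ᶠ w in 𝓝 t, (Φ w).re = Real.log ‖w - c‖ := by
  refine ⟨fun w => log ((w - c) / (t - c)) + (Real.log ‖t - c‖ : ℝ), ?_, ?_⟩
  · have := ((((hasDerivAt_id t).sub_const c).div_const (t - c)).clog
      (by simp [div_self h])).add_const ((Real.log ‖t - c‖ : ℝ) : ℂ)
    refine this.congr_deriv ?_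
    simp [div_self h]
  · have : ∀ᶠ w in 𝓝 t, w - c ≠ 0 := (continuous_id.sub continuous_const).continuousAt.eventually_ne h
    filter_upwards [this] with w hw
    rw [add_re, log_re, ofReal_re, norm_div, Real.log_div (norm_ne_zero_iff.2 hw)
      (norm_ne_zero_iff.2 h), sub_add_cancel]

theorem WH_logd (c : ℂ) : Tendsto (fun t : ℂ => Real.log ‖t - c‖ - Real.log ‖t‖)
    (Bornology.cobounded ℂ) (𝓝 0) := by
  have h1 : Tendsto (fun t : ℂ => ‖1 - c / t‖) (Bornology.cobounded ℂ) (𝓝 1) := by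
    simpa using ((WH_inv c).const_sub 1).norm
  have h2 := h1.log one_ne_zero
  rw [Real.log_one] at h2
  refine h2.congr' ?_
  filter_upwards [WH_ne, h1.eventually_ne one_ne_zero] with t ht hc
  have e : 1 - c / t = (t - c) / t := by field_simp
  rw [e, norm_div] at hc ⊢
  exact Real.log_div (div_ne_zero_iff.1 hc).1 (norm_ne_zero_iff.2 ht)

namespace Wd

variable {ι : Type} [Fintype ι] {W : Wd ι} {X : ℂ → ℂ}

theorem Ok0.WH_b (h : W.Ok0) : (W.D.b 0 : ℂ) ≠ 0 ∧ (0 : ℂ) ∈ W.Om ∧ (-W.D.b 0 : ℂ) ∈ W.Om :=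
  ⟨ofReal_ne_zero.2 (h.d.b_pos 0 h.q_pos).ne', (h.zero_fd (Dat.P_eq_zero.2 (.inl (.inl rfl)))).2,
    (h.zero_fd (Dat.P_eq_zero.2 (.inl (.inr ⟨0, h.q_pos, rfl⟩)))).2⟩

theorem Ok1.WH_c (h : W.Ok1) : (W.c0 : ℂ) = W.ψ₁ 0 * W.ψ₂ 0 ∧
    (W.q0 : ℂ) = -W.ℓ * W.ψ₂ (-W.D.b 0) := by
  obtain ⟨-, h0, hb⟩ := h.toOk0.WH_b
  have e1 := h.ψ₁_conj h0
  have e2 := h.ψconj _ h0
  have e3 := h.ψconj _ hb
  simp only [map_zero, map_neg, conj_ofReal] at e1 e2 e3
  refine ⟨conj_eq_iff_re.1 ?_, conj_eq_iff_re.1 ?_⟩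
  · rw [map_mul, ← e1, ← e2]
  · rw [map_mul, ← e3, map_neg, conj_ofReal]

/-- the numerator of the height differential without its principal parts -/
def WHN (W : Wd ι) (t : ℂ) : ℂ :=
  (W.χ t * (t + W.D.b 0) + W.ℓ * W.D.b 0) * W.ψ₂ t -
    t * (t + W.D.b 0) * ∑ e, W.pf W.f3 e (t - W.c e)

theorem WH_N {t : ℂ} (h0 : t ≠ 0) (hb : t + W.D.b 0 ≠ 0) :
    W.WHN t = t * (t + W.D.b 0) * (W.F3 t - ∑ e, W.pf W.f3 e (t - W.c e)) := by
  simp only [WHN, F3, ψ₁]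
  field_simp

theorem Ok1.WH_core (h : W.Ok1) {t : ℂ} (ht : t ∈ W.Om) :
    W.WHN t = W.D.b 0 * W.c0 + (1 - ∑ e, W.rs W.f3 e) * t := by
  classical
  obtain ⟨hb, h0, hb'⟩ := h.toOk0.WH_b
  have hV : IsOpen {t : ℂ | t ≠ 0 ∧ t + W.D.b 0 ≠ 0} :=
    isOpen_ne.inter (isOpen_ne_fun (by fun_prop) continuous_const)
  obtain ⟨k, hk, ek⟩ := h.m3.decomp h.pl hV (f := W.F3) (fun t ht =>
    (((h.ψ₁_diff ht.2 ht.1.2).mul (h.ψ₂_diff ht.2)).div differentiableAt_id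
      ht.1.1).differentiableWithinAt) fun _ _ _ _ => rfl
  have hN : ∀ t ∈ W.Om, DifferentiableAt ℂ W.WHN t := fun t ht => by
    have h1 := h.χhol.differentiableAt (Pl.isOpen_om.mem_nhds ht)
    have h2 := h.ψ₂_diff ht
    have h3 : ∀ e, DifferentiableAt ℂ (fun t => W.pf W.f3 e (t - W.c e)) t := fun e =>
      DifferentiableAt.comp (g := W.pf W.f3 e) (f := fun t => t - W.c e) t
        ((h.m3.pf_hol h.pl e).differentiableAt ((isOpen_lt continuous_const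
          continuous_norm).mem_nhds (ht e))) (differentiableAt_id.sub_const _)
    unfold WHN
    fun_prop
  set K : ℂ → ℂ := fun t => if t ∈ W.Om then W.WHN t else t * (t + W.D.b 0) * k t with hK
  have e1 : ∀ t ∈ W.Om, K t = W.WHN t := fun t ht => if_pos ht
  have dK : Differentiable ℂ K := fun t => by
    by_cases ht : t ∈ W.Om
    · exact (hN t ht).congr_of_eventuallyEq
        (eventually_of_mem (Pl.isOpen_om.mem_nhds ht) e1)
    have tV : t ≠ 0 ∧ t + W.D.b 0 ≠ 0 := ⟨fun e => ht (e ▸ h0),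
      fun e => ht (eq_neg_of_add_eq_zero_left e ▸ hb')⟩
    have h1 := hk.differentiableAt (hV.mem_nhds tV)
    refine DifferentiableAt.congr_of_eventuallyEq
      (f := fun t => t * (t + W.D.b 0) * k t) (by fun_prop) ?_
    filter_upwards [hV.mem_nhds tV] with w hw
    by_cases hw' : w ∈ W.Om
    · rw [e1 w hw', WH_N hw.1 hw.2, ek w ⟨hw, hw'⟩, add_sub_cancel_right]
    · exact if_neg hw'
  have lim : Tendsto (fun t => K t / t) (Bornology.cobounded ℂ)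
      (𝓝 (1 - ∑ e, W.rs W.f3 e)) := by
    have a1 := (WH_inv (W.D.b 0)).const_add 1
    have a2 := (((h.χinf.mul a1).add (WH_inv (W.ℓ * W.D.b 0))).mul h.ψinf).sub
      (a1.mul (tendsto_finsetSum Finset.univ fun e _ => h.m3.pf_infty h.pl e))
    simp only [add_zero, mul_one, one_mul] at a2
    obtain ⟨R, hR⟩ := Pl.om_far (P := W.toPl)
    refine a2.congr' ?_
    filter_upwards [WH_ne, (tendsto_norm_cobounded_atTop (E := ℂ)).eventually
      (eventually_gt_atTop R)] with t h1 h2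
    rw [e1 t (hR t h2).2, WHN, ← Finset.sum_mul]
    field_simp
  rw [← e1 t ht, WH_lin dK lim t, e1 0 h0, h.WH_c.1]
  simp only [WHN, ψ₁, zero_add, zero_mul, sub_zero]
  field_simp

theorem Ok1.WH_res (h : W.Ok1) : (W.c0 : ℂ) + W.q0 + ∑ e, W.rs W.f3 e = 1 := by
  obtain ⟨hb, -, hb'⟩ := h.toOk0.WH_b
  have := h.WH_core hb'
  simp only [WHN, neg_add_cancel, mul_zero, zero_mul, zero_add, sub_zero] at this
  rw [h.WH_c.2]
  apply mul_left_cancel₀ hb
  linear_combination -this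

theorem Ok1.F3_eq (h : W.Ok1) {t : ℂ} (ht : t ∈ W.Om) (h0 : t ≠ 0) (hb : t + W.D.b 0 ≠ 0) :
    W.F3 t = W.c0 / t + W.q0 / (t + W.D.b 0) + ∑ e, W.pf W.f3 e (t - W.c e) := by
  have := h.WH_core ht
  rw [WH_N h0 hb, ← h.WH_res] at this
  rw [← sub_eq_iff_eq_add]
  field_simp
  linear_combination this

theorem Ok1.res_sum (h : W.Ok1) : (W.c0 : ℂ) + W.q0 + ∑ e, W.rs W.f3 e = 1 := h.WH_res

theorem Ok1.hh_der (h : W.Ok1) (hr : ∀ e, (W.rs W.f3 e).im = 0) {t : ℂ} (ht : t ∈ W.Om)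
    (he : ¬ W.D.IsE t) : HasFDerivAt W.hh (hl (W.F3 t)) t := by
  obtain ⟨hb, h0⟩ := h.toOk0.b0 he
  obtain ⟨Φ, a1, a2⟩ := WH_log (c := 0) (t := t) (by rwa [sub_zero])
  obtain ⟨Ψ, b1, b2⟩ := WH_log (c := -W.D.b 0) (t := t) (by rwa [sub_neg_eq_add])
  have hc : ∀ e, t - W.c e ≠ 0 := fun e => norm_pos_iff.1 ((h.pl.rin_pos e).trans (ht e))
  choose Θ c1 c2 using fun e => WH_log (hc e)
  have d : ∀ e, HasDerivAt (fun w => W.rs W.f3 e * Θ e w + W.th W.f3 e (w - W.c e))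
      (W.pf W.f3 e (t - W.c e)) t := fun e => by
    refine (((c1 e).const_mul (W.rs W.f3 e)).add ((h.m3.th_der h.pl e (ht e)).comp_sub_const
      t (W.c e))).congr_deriv ?_
    rw [div_eq_mul_inv, add_sub_cancel]
  have D := WH_re (((a1.const_mul (W.c0 : ℂ)).add (b1.const_mul (W.q0 : ℂ))).add
    (HasDerivAt.fun_sum (u := Finset.univ) fun e _ => d e))
  rw [sub_zero, sub_neg_eq_add, ← div_eq_mul_inv, ← div_eq_mul_inv, ← h.F3_eq ht h0 hb] at D
  refine D.congr_of_eventuallyEq ?_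
  filter_upwards [a2, b2, eventually_all.2 c2] with w e1 e2 e3
  simp only [hh, Pi.add_apply, add_re, re_sum, mul_re, ofReal_re, ofReal_im, hr, zero_mul,
    sub_zero, e1, e2, e3, sub_neg_eq_add]

theorem Ok1.hh_conj (h : W.Ok1) {t : ℂ} (ht : t ∈ W.Om) : W.hh (conj t) = W.hh t := by
  have hc : ∀ e : ι × Bool, ∀ v, ‖v‖ = W.ρ e →
      W.f3 (W.κ e.1, e.2) (conj v) = (1 : ℝ) * conj (W.f3 e v) := fun e v hv => by
    rw [(h.f_conj (h.pl.circ_mem hv)).2.2, ofReal_one, one_mul]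
  have hi : Function.Involutive fun e : ι × Bool => (W.κ e.1, e.2) := fun e => by
    simp only [h.sy.inv]
  have e1 : ‖conj t + W.D.b 0‖ = ‖t + W.D.b 0‖ := by
    rw [← norm_conj (t + _), map_add, conj_ofReal]
  simp only [hh, norm_conj, e1]
  congr 2
  rw [← hi.bijective.sum_comp]
  refine Finset.sum_congr rfl fun e _ => ?_
  rw [h.sy.c, ← map_sub, norm_conj, Pl.rs_conj h.pl h.sy hc, Pl.th_conj h.pl h.sy hc e (ht e)]
  simp

theorem Ok1.hh_top (h : W.Ok1) : Tendsto W.hh (Bornology.cobounded ℂ) atTop := by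
  have hs := congrArg re h.res_sum
  simp only [add_re, ofReal_re, re_sum, one_re] at hs
  have a1 : Tendsto (fun t : ℂ => Real.log ‖t‖) (Bornology.cobounded ℂ) atTop :=
    Real.tendsto_log_atTop.comp tendsto_norm_cobounded_atTop
  have a2 := ((WH_logd (-W.D.b 0)).const_mul W.q0).add (tendsto_finsetSum Finset.univ fun e _ =>
    ((WH_logd (W.c e)).const_mul (W.rs W.f3 e).re).add
      ((continuous_re.tendsto _).comp (h.m3.th_infty h.pl e)))
  refine ((a1.atTop_add a2).const_mul_atTop two_pos).congr fun t => ?_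
  simp only [hh, Function.comp, sub_neg_eq_add, mul_sub, Finset.sum_add_distrib,
    Finset.sum_sub_distrib, ← Finset.sum_mul]
  linear_combination (-2 * Real.log ‖t‖) * hs

theorem Ok1.WH_glue (h : W.Ok1) (hr : ∀ e, (W.rs W.f3 e).im = 0) {e : ι × Bool} {v₀ : ℂ}
    (h₀ : v₀ ∈ W.Ann e) (he : W.hh (W.c e + v₀) = W.hh (W.c (op e) + W.s e.1 / v₀)) :
    ∀ v ∈ W.Ann e, W.hh (W.c e + v) = W.hh (W.c (op e) + W.s e.1 / v) := fun v hv => by
  have a : ∀ e, ∀ v ∈ W.Ann e, HasFDerivAt W.hh (hl (W.f3 e v)) (W.c e + v) := fun e v hv =>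
    h.hh_der hr (h.pl.ann2_mem (h.pl.ann_sub e hv)) (Dat.LF_notE (h.free e v
      (mem_ball_zero_iff.2 (h.pl.ann_sub e hv).2)))
  have d : ∀ v ∈ W.Ann e, HasFDerivAt (fun v => W.hh (W.c e + v) -
      W.hh (W.c (op e) + W.s e.1 / v)) (0 : ℂ →L[ℝ] ℝ) v := fun v hv => by
    have b1 := (a e v hv).comp v ((hasFDerivAt_id v).const_add (W.c e))
    have b2 := (a _ _ (h.pl.ann_op hv)).comp v (((((hasDerivAt_id v).inv
      (h.pl.ann_ne hv)).const_mul (W.s e.1)).const_add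
        (W.c (op e))).hasFDerivAt.restrictScalars ℝ)
    refine (b1.sub b2).congr_fderiv (ContinuousLinearMap.ext fun w => ?_)
    have : W.f3 (op e) (W.s e.1 / v) * (w * (W.s e.1 * (-1 / v ^ 2))) = W.f3 e v * w := by
      rw [h.m3.mt e v hv]
      ring
    simp [hl_apply, this]
  have := (Pl.isOpen_ann e).is_const_of_fderiv_eq_zero (𝕜 := ℝ)
    (ann_preconn (h.pl.rin_pos e).le) (fun v hv => (d v hv).differentiableAt.differentiableWithinAt)
    (fun v hv => (d v hv).fderiv) hv h₀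
  rw [he, sub_self] at this
  exact sub_eq_zero.1 this

omit [Fintype ι] in
theorem WH_op (h : W.toPl.Ok) {Z : Type} {A : ι × Bool → ℂ → Z} {k : ι}
    (hA : ∀ v ∈ W.Ann (k, false), A (k, false) v = A (k, true) (W.s k / v)) (b : Bool) :
    ∀ v ∈ W.Ann (k, b), A (k, b) v = A (op (k, b)) (W.s k / v) := fun v hv => by
  cases b
  · exact hA v hv
  · have := hA _ (h.ann_op hv)
    rw [div_div_cancel₀ (h.s_ne k)] at this
    exact this.symm

theorem SolX.sol (h : W.Ok1) (hX : W.SolX X) (hr : ∀ k, (W.rs W.f3 (k, false)).im = 0)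
    (hV : ∀ k, ∃ v ∈ W.Ann (k, false),
      W.hh (W.c (k, false) + v) = W.hh (W.c (k, true) + W.s k / v))
    (hB : ∀ k, ¬ W.Low k → ∃ v ∈ W.Ann (k, false), 0 ≤ (W.c (k, false) + v).im ∧
      X (W.c (k, false) + v) = X (W.c (k, true) + W.s k / v)) : W.Sol X W.hh := by
  have hr' : ∀ e, (W.rs W.f3 e).im = 0 := by
    rintro ⟨k, _ | _⟩
    · exact hr k
    · rw [show (k, true) = op (k, false) from rfl, h.m3.rs_op h.pl, neg_im, hr, neg_zero]
  have eq : ∀ e, ∀ v ∈ W.Ann e, 0 ≤ (W.c e + v).im → W.XA X e v = X (W.c e + v) ∧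
      W.XA X (op e) (W.s e.1 / v) = X (W.c (op e) + W.s e.1 / v) := fun e v hv hi =>
    ⟨XA_eq h.toOk0 (h.pl.ann_sub e hv).2 hi,
      XA_eq h.toOk0 (h.pl.ann_sub _ (h.pl.ann_op hv)).2 ((h.toOk0.partner hv).1 hi)⟩
  refine ⟨hX, fun ⟨k, b⟩ v hv hc hi => ?_, fun t ht he => h.hh_der hr' ht he,
    fun t ht => h.hh_conj ht, fun ⟨k, b⟩ => ?_, h.hh_top⟩
  · obtain ⟨v₀, h₀, i₀, e₀⟩ := hB k ((h.toOk0.not_low (k, b)).2 hc)
    rw [← (eq _ v hv hi).1, ← (eq _ v hv hi).2]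
    exact WH_op h.pl (hX.XA_glue h h₀ ((eq _ _ h₀ i₀).1.trans (e₀.trans (eq _ _ h₀ i₀).2.symm)))
      b v hv
  · obtain ⟨v₀, h₀, e₀⟩ := hV k
    exact WH_op h.pl (A := fun e v => W.hh (W.c e + v)) (h.WH_glue hr' h₀ e₀) b

end Wd

end Pool.Agent.MP_92463a_gt
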