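import Pool.Agent.MP_92463a_gt.CfD
import Pool.Agent.MP_92463a_gt.WH

open Set Complex Filter Metric
open scoped Topology ComplexConjugate ContDiff Manifold

noncomputable section

namespace Pool.Agent.MP_92463a_gt

theorem CfL1_int {g : ℝ → ℂ} (h : ∀ x ∈ Icc (0 : ℝ) 1, (g x).re = 0) :
    (∫ x in (0 : ℝ)..1, g x).re = 0 := by
  rw [intervalIntegral.integral_congr (g := fun x => I * ((g x).im : ℂ)) fun x hx =>
    Complex.ext (by simpa using h x (by simpa using hx)) (by simp),
    intervalIntegral.integral_const_mul, intervalIntegral.integral_ofReal]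
  simp

namespace Cfg

variable {γ : ℕ} {C : Cfg γ}

theorem CfL1_rs (h : C.Good) (e : Fin γ × Bool) :
    C.pl.rs C.wd.f1 (e.1.rev, e.2) = -conj (C.pl.rs C.wd.f1 e) ∧
      C.pl.rs C.wd.f2 (e.1.rev, e.2) = -conj (C.pl.rs C.wd.f2 e) ∧
      C.pl.rs C.wd.f3 (e.1.rev, e.2) = conj (C.pl.rs C.wd.f3 e) := by
  have h1 := h.ok1
  have hp := h.g0.pl_ok
  refine ⟨?_, ?_, ?_⟩
  · simpa using Pl.rs_conj hp h.g0.psy (σ := -1) (φ := C.wd.f1) (fun e v hv =>
      (h1.f_conj (hp.circ_mem hv)).1.trans (by simp)) e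
  · simpa using Pl.rs_conj hp h.g0.psy (σ := -1) (φ := C.wd.f2) (fun e v hv =>
      (h1.f_conj (hp.circ_mem hv)).2.1.trans (by simp)) e
  · simpa using Pl.rs_conj hp h.g0.psy (σ := 1) (φ := C.wd.f3) (fun e v hv =>
      (h1.f_conj (hp.circ_mem hv)).2.2.trans (by simp)) e

theorem CfL1_θ (h : C.Adm) (k : Fin γ) : C.θ0 k.rev = -conj (C.θ0 k) := by
  rw [θ0, θ0, (h.lg_conj k).1, map_mul, map_mul, conj_I, conj_ofReal, ← exp_conj, map_div₀,
    conj_ofNat]
  ring

theorem Good.eF_conj (h : C.Good) (k : Fin γ) : C.eF k.rev = conj (C.eF k) := by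
  rw [eF, eF, (CfL1_rs h (k, false)).1, (CfL1_rs h (k, true)).2.1, CfL1_θ h.toAdm, map_div₀,
    map_sub, map_mul, map_mul, map_pow, conj_ofReal, conj_ofNat, map_neg, ← neg_div_neg_eq]
  congr 1 <;> ring

theorem Good.eV_rev (h : C.Good) (k : Fin γ) : C.eV k.rev = C.eV k := by
  have key : ∀ b, C.wd.hh (C.wp (k.rev, b)) = C.wd.hh (C.wp (k, b)) := fun b => by
    have h1 : C.wp (k.rev, b) = conj (C.wp (k, b)) := by
      rw [wp, wp, h.toAdm.c_conj (k, b), h.toAdm.τ_conj (k, b), h.g0.vs_conj, map_add, map_mul]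
    rw [h1]
    exact h.ok1.hh_conj (h.g0.pl_ok.ann2_mem (h.g0.pl_ok.ann_sub _ (h.g0.s_div (k, b)).2))
  rw [eV, eV, key, key]

theorem Good.eA_rev (h : C.Good) (k : Fin γ) : C.eA k.rev = -C.eA k := by
  rw [eA, eA, (CfL1_rs h (k, false)).2.2, conj_im]
  ring

theorem CfL1_G (h : C.Adm) {b : Bool} {y : ℝ} (h0 : 0 < y) (h1 : y ≤ C.D.b 0 / 2) :
    (C.D.G ((-C.bb b + (if b then -y else y) : ℝ) : ℂ)).re = 0 := by
  obtain ⟨a0, -, a1⟩ := h.bb b
  cases b with
  | false =>
    rw [(h.d.sign_neg (k := 0) (by simp only [bb, jj]; norm_num; linarith) (Nat.zero_le _)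
      (fun j hj => absurd hj (Nat.not_lt_zero _)) fun j _ hj => by
        have := h.d.b0_le hj
        simp only [bb, jj]
        norm_num
        linarith).2]
    simp
  | true =>
    rw [(h.d.sign_neg (k := 2) (by simp only [bb, jj]; norm_num; linarith) h.q
      (fun j hj => by
        simp only [bb, jj]
        interval_cases j <;> norm_num <;> linarith) fun j hj hq => by
        have := h.d.b_gap 1 j (by omega) hq
        simp only [bb, jj]
        norm_num
        linarith).2]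
    simp

theorem CfL1_XM (h : C.Fine) {k : Fin γ} (hk : 2 * (k : ℕ) + 1 = γ) (b : Bool) :
    (C.XM (k, b)).re = 0 := by
  have hg := h.toGood.g0
  have hA := hg.toAdm
  obtain ⟨m1, m2, m3, m4, m5⟩ := hA.mid hk
  have h1 : (if b then Real.pi else 0) = (C.lg (k, b)).im := by
    cases b
    · exact m2.symm
    · exact m3.symm
  have hv : C.vs k = (C.vs k).re := by
    have := hg.vs_conj k
    rw [m1] at this
    exact (conj_eq_iff_re.1 this.symm).symm
  have hv1 : |(C.vs k).re| ≤ 1 / 100 := by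
    refine (abs_re_le_norm _).trans ((hg.vs k).trans ?_)
    have : (1 : ℝ) ≤ γ := by exact_mod_cast hA.pos
    exact one_div_le_one_div_of_le (by norm_num) (by linarith)
  have hr : 0 < ‖C.τ (k, b)‖ := norm_pos_iff.2 (τ_ne _)
  have hr1 := hg.τ (k, b)
  have hb0 := (hA.bb b).1
  have hseg : (segI C.wd.F1 C.wd.F2 (-C.bb b + 2 * C.τ (k, b)) (C.wp (k, b))).re = 0 := by
    refine CfL1_int fun x hx => ?_
    have hO := (hg.ss le_rfl (h.seg hk.ge (b := b) (δ := C.D.b 0 / 2) (by linarith) hx)).1.2.2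
    set v := (C.vs k).re
    set r := ‖C.τ (k, b)‖
    have hτ : C.τ (k, b) = if b then -(r : ℂ) else r := by
      cases b
      · exact m4
      · exact m5
    have hw := abs_le.1 hv1
    have hG := CfL1_G hA (b := b) (y := r * (2 + x * (v - 1)))
      (mul_pos hr (by nlinarith [hx.1, hx.2])) (by
        have : 2 + x * (v - 1) ≤ 2 := by nlinarith [hx.1, hx.2]
        nlinarith)
    set s := -C.bb b + (if b then -(r * (2 + x * (v - 1))) else r * (2 + x * (v - 1))) with hs
    have e1 : C.wp (k, b) - (-C.bb b + 2 * C.τ (k, b)) =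
        ((if b then -(r * (v - 1)) else r * (v - 1) : ℝ) : ℂ) := by
      rw [wp, c, hv, hτ]
      cases b <;> simp <;> ring
    have e2 : -C.bb b + 2 * C.τ (k, b) + x * (C.wp (k, b) - (-C.bb b + 2 * C.τ (k, b))) = s := by
      rw [e1, hτ, hs]
      cases b <;> simp <;> ring
    have e3 : -C.bb b + (2 * C.τ (k, b) + x * (C.τ (k, b) + C.τ (k, b) * C.vs k -
        2 * C.τ (k, b))) = s := by
      rw [← e2, wp, c]
      ring
    rw [e3] at hO
    have a1 := h.toGood.ok1.ψ₁_conj hO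
    have a2 := h.toGood.ok1.ψconj _ hO
    rw [conj_ofReal] at a1 a2
    have b1 := conj_eq_iff_im.1 a1.symm
    have b2 := conj_eq_iff_im.1 a2.symm
    have hG' : (C.wd.D.G s).re = 0 := hG
    rw [e2, e1]
    generalize (if b then -(r * (v - 1)) else r * (v - 1) : ℝ) = d
    simp [Wd.F1, Wd.F2, div_re, inv_re, hG', pow_two, b1, b2]
  rw [XM, add_re, hseg, h1, arcI, intervalIntegral.integral_same]
  simp

theorem Fine.eB_mid (h : C.Fine) {k : Fin γ} (hk : 2 * (k : ℕ) + 1 = γ) : (C.eB k).im = 0 := by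
  have h1 := CfL1_θ h.toAdm k
  rw [(h.toAdm.mid hk).1] at h1
  have h2 : (C.θ0 k).re = 0 := by
    have := congrArg re h1
    rw [neg_re, conj_re] at this
    linarith
  rw [eB, div_im, sub_re, CfL1_XM h hk, CfL1_XM h hk, conj_re, div_re, h2]
  simp

theorem Fine.eq_rf (h : C.Fine) : C.eq.rf = C.eq := by
  refine Prod.ext (funext fun k => ?_) (Prod.ext (funext fun k => h.toGood.eV_rev k)
    (Prod.ext (funext fun k => ?_) (funext fun k => ?_)))
  · change conj (C.eF k.rev) = C.eF k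
    rw [h.toGood.eF_conj, conj_conj]
  · change -C.eA k.rev = C.eA k
    rw [h.toGood.eA_rev, neg_neg]
  · change conj (sy C.eB k.rev) = sy C.eB k
    have hr := Fin.val_rev k
    have hk := k.2
    rcases lt_trichotomy (2 * (k : ℕ) + 1) γ with c | c | c
    · rw [sy, sy, if_pos (by omega), if_neg (by omega)]
    · rw [(h.toAdm.mid c).1, sy, if_pos c.ge]
      exact conj_eq_iff_im.2 (h.eB_mid c)
    · rw [sy, sy, if_neg (by omega), if_pos c.le, Fin.rev_rev, conj_conj]

end Cfg

end Pool.Agent.MP_92463a_gt
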