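import Pool.Agent.MP_92463a_gt.Setup

open Set Complex Filter Metric
open scoped Topology ComplexConjugate ContDiff Manifold

noncomputable section

namespace Pool.Agent.MP_92463a_gt

/-! The circle `|s - 1| = 1 / √p`, `p = 1 / (1 + β)`, separates `0, 1` from `-β, ∞`; on it
`ds / √(s (s - 1) (s + β)) = i √p dθ / Dl p θ`. -/

def Dl (p θ : ℝ) : ℝ := √(1 - p * Real.cos θ ^ 2)

def zc (p θ : ℝ) : ℂ :=
  (((Real.cos θ - √p : ℝ) : ℂ) + ((√(1 - p) * Real.sin θ : ℝ) : ℂ) * I) /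
    ((1 - √p * Real.cos θ : ℝ) : ℂ)

def sc (p θ : ℝ) : ℂ := 1 + zc p θ / ((√p : ℝ) : ℂ)

def Yc (p θ : ℝ) : ℂ := zc p θ / ((√p : ℝ) : ℂ) * ((‖sc p θ‖ : ℝ) : ℂ)

def Av (p : ℝ) (φ : ℂ → ℂ) : ℝ := ∫ θ in (0 : ℝ)..Real.pi, (φ (sc p θ)).re / Dl p θ

def e0 (p : ℝ) : ℝ := Av p fun _ => 1

def xb (p : ℝ) : ℝ := Av p (fun s => s) / e0 p

/-- polynomial approximation of `xb` -/
def qx (p : ℝ) : ℝ :=
  0.457 + (p - 1 / 2) * (-0.1224 + (p - 1 / 2) * (-0.126 + (p - 1 / 2) * (-0.167)))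

/-- the period of one level -/
def Per (U D : ℝ) (L : ℂ → ℂ) : ℝ :=
  Av (U / (U + D)) fun s => (U : ℂ) ^ 2 * ((s + (D / U : ℝ)) ^ 2 / s * exp (L s)) +
    (D : ℂ) * ((s - 1) / (s + (D / U : ℝ)) * exp (-L s))

section
variable (β X : ℝ)

def mE2 : ℝ := (β - 2 * (β - 1) * X) / 3
def mE3 : ℝ := (3 * β * X - 4 * (β - 1) * mE2 β X) / 5
def mA0 : ℝ := 2 * β + (1 - β) * X
def mA1 : ℝ := mE2 β X + 2 * β * X + β ^ 2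
def mA2 : ℝ := mE3 β X + 2 * β * mE2 β X + β ^ 2 * X
def nA1 : ℝ := 1 - 2 * X + mE2 β X
def nA2 : ℝ := (2 * mE2 β X - X - mE3 β X) / β
def mH1 : ℝ := 2 * X + β
def mH2 : ℝ := 2 * mE2 β X + 2 * mH1 β X + 4 * β * X + β ^ 2
def nH1 : ℝ := mH1 β X / β ^ 2
def nH2 : ℝ := mH2 β X / β ^ 4
def mB0 : ℝ := -X / β
def mB1 : ℝ := 2 * X - 1
def mB2 : ℝ := mE2 β X - X - β * mB1 X
def nB2 : ℝ := -(mE2 β X + mH1 β X + β * X) / β ^ 3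

def mainA (k m l n : ℝ) : ℝ :=
  mA0 β X * (1 + k * m) + k * nA1 β X + m * mA1 β X + (k ^ 2 / 2 + l) * nA2 β X +
    (m ^ 2 / 2 + n) * mA2 β X

def mainB (k m l n : ℝ) : ℝ :=
  mB0 β X * (1 + k * m) - k * nH1 β X - m * mB1 X + (k ^ 2 / 2 - l) * nB2 β X +
    (m ^ 2 / 2 - n) * mB2 β X

end

def c30 (X1 X2 X3 : ℝ) : ℝ := X3 + X1 * X2 + 0.21 * X1 ^ 3

def c21 (X1 X2 Y1 : ℝ) : ℝ := Y1 * X2 + 0.63 * X1 ^ 2 * Y1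

def errA (β X X1 X2 X3 Y1 Y2 Y3 : ℝ) : ℝ :=
  (1 + β) * (c30 X1 X2 X3 * nH1 β X + c21 X1 X2 Y1 + c21 Y1 Y2 X1 * mH1 β X +
    c30 Y1 Y2 Y3 * mH2 β X)

def errB (β X X1 X2 X3 Y1 Y2 Y3 : ℝ) : ℝ :=
  c30 X1 X2 X3 * nH2 β X + c21 X1 X2 Y1 * nH1 β X + c21 Y1 Y2 X1 + c30 Y1 Y2 Y3 * mH1 β X

/-- the boxes; `lo`, `up` say whether the level has a lower, an upper neighbour -/
def dLo : Bool → Bool → ℝ
  | true, true => 0.15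
  | false, true => 0.248
  | true, false => 0.128
  | false, false => 0.2

def dHi : Bool → Bool → ℝ
  | true, true => 0.235
  | false, true => 0.31
  | true, false => 0.187
  | false, false => 0.26

def InBox (lo up : Bool) (U D : ℝ) : Prop :=
  D ∈ Icc (dLo lo up) (dHi lo up) ∧ U ∈ Icc (dLo up lo) (dHi up lo)

def Fc : Bool → ℝ → ℝ → Prop
  | true, x, x2 => x ∈ Icc (0.218 : ℝ) 0.532 ∧ x2 ∈ Icc (0.007 : ℝ) 0.028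
  | false, x, x2 => x = 0 ∧ x2 = 0

def h2 : Bool → ℝ
  | true => 0.05
  | false => 0

def h3 : Bool → ℝ
  | true => 0.022
  | false => 0

def smain (U D X x x2 y y2 : ℝ) : ℝ :=
  U ^ 2 * mainA (D / U) X (-x * (D ^ 2 / U)) (-y * (U ^ 2 / D)) (x2 * (D ^ 2 / U) ^ 2)
      (y2 * (U ^ 2 / D) ^ 2) +
    D * mainB (D / U) X (-x * (D ^ 2 / U)) (-y * (U ^ 2 / D)) (x2 * (D ^ 2 / U) ^ 2)
      (y2 * (U ^ 2 / D) ^ 2)

def serr (lo up : Bool) (U D X x y : ℝ) : ℝ :=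
  U ^ 2 * errA (D / U) X ((x + h2 lo) * (D ^ 2 / U)) (h2 lo * (D ^ 2 / U) ^ 2)
      (h3 lo * (D ^ 2 / U) ^ 3) ((y + h2 up) * (U ^ 2 / D)) (h2 up * (U ^ 2 / D) ^ 2)
      (h3 up * (U ^ 2 / D) ^ 3) +
    D * errB (D / U) X ((x + h2 lo) * (D ^ 2 / U)) (h2 lo * (D ^ 2 / U) ^ 2)
      (h3 lo * (D ^ 2 / U) ^ 3) ((y + h2 up) * (U ^ 2 / D)) (h2 up * (U ^ 2 / D) ^ 2)
      (h3 up * (U ^ 2 / D) ^ 3)

/-- second order expansion of a field -/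
def Cls (lo : Bool) (Λ : ℂ → ℂ) (x x2 : ℝ) : Prop :=
  Fc lo x x2 ∧ ∀ v : ℂ, (lo = true → ‖v‖ ≤ 1) → ‖Λ v + x * v - x2 * v ^ 2‖ ≤ h3 lo * ‖v‖ ^ 3

/-- the logarithm of the factor of `G` coming from the levels below level `j` -/
def fld (U D : ℕ → ℝ) : ℕ → ℂ → ℂ
  | 0 => fun _ => 0
  | j + 1 => fun v =>
    -(3 / 2 * log (1 + (U j : ℂ) * v) - 1 / 2 * log (1 - ((U j ^ 2 / D j : ℝ) : ℂ) * v)) -
      fld U D j (((U j * D j : ℝ) : ℂ) * v)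

def rev (g : ℕ) (f : ℕ → ℝ) (i : ℕ) : ℝ := f (g - 1 - i)

/-- the waists -/
def tW (U D : ℕ → ℝ) : ℕ → ℝ
  | 0 => 1
  | j + 1 => tW U D j / (U j * D j)

def tB (U D : ℕ → ℝ) (j : ℕ) : ℝ := tW U D j / D j

def tA (U D : ℕ → ℝ) (j : ℕ) : ℝ := tW U D j * U j / D j ^ 2

/-- the tower with `g` levels -/
def tw (g : ℕ) (U D : ℕ → ℝ) : Dat where
  p := g
  q := g
  a := tA U D
  b := tB U D
  ρ := Real.exp (∑ i ∈ Finset.range g, sg i * (Real.log (tA U D i) - 3 * Real.log (tB U D i)) / 2)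

def Box (g : ℕ) (U D : ℕ → ℝ) : Prop :=
  ∀ i < g, InBox (decide (0 < i)) (decide (i + 1 < g)) (U i) (D i)

def Ld (g : ℕ) (U D : ℕ → ℝ) (j : ℕ) (s : ℂ) : ℂ :=
  fld U D j (((D j ^ 2 / U j : ℝ) : ℂ) / s) +
    fld (rev g D) (rev g U) (g - 1 - j) (((U j ^ 2 / D j : ℝ) : ℂ) * s)

def Lu (g : ℕ) (U D : ℕ → ℝ) (j : ℕ) (s : ℂ) : ℂ :=
  fld (rev g D) (rev g U) (g - 1 - j) (((U j ^ 2 / D j : ℝ) : ℂ) / s) +
    fld U D j (((D j ^ 2 / U j : ℝ) : ℂ) * s)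

/-- `x` lies on the `k`-th segment of the positive axis -/
def Dat.InA (D : Dat) (k : ℕ) (x : ℝ) : Prop :=
  0 < x ∧ (∀ i < k, D.a i < x) ∧ ∀ i, k ≤ i → i < D.p → x < D.a i

/-- `x` lies on the `k`-th segment of the negative axis -/
def Dat.InB (D : Dat) (k : ℕ) (x : ℝ) : Prop :=
  x < 0 ∧ (∀ j < k, D.b j < -x) ∧ ∀ j, k ≤ j → j < D.q → -x < D.b j

end Pool.Agent.MP_92463a_gt
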