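import Pool.Agent.MP_92463a_gt.Seg
import Pool.Agent.MP_92463a_gt.Num0

open Set Complex Filter Metric
open scoped Topology ComplexConjugate ContDiff Manifold

noncomputable section

namespace Pool.Agent.MP_92463a_gt

theorem Chain_A {D : Dat} {X : ℂ → ℂ} (hD : D.Ok) (hX : D.Pre X) {k : ℕ} {x x' : ℝ}
    (h : D.InA k x) (h' : D.InA k x') : D.cst X x = D.cst X x' := by
  rcases le_total x x' with hle | hle
  · exact hX.seg hD hle (hD.seg_pos h.1 h.2.1 h'.2.2)
  · exact (hX.seg hD hle (hD.seg_pos h'.1 h'.2.1 h.2.2)).symm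

theorem Chain_B {D : Dat} {X : ℂ → ℂ} (hD : D.Ok) (hX : D.Pre X) {k : ℕ} {x x' : ℝ}
    (h : D.InB k x) (h' : D.InB k x') : D.cst X x = D.cst X x' := by
  rcases le_total x x' with hle | hle
  · exact hX.seg hD hle (hD.seg_neg h'.1 h'.2.1 h.2.2)
  · exact (hX.seg hD hle (hD.seg_neg h.1 h.2.1 h'.2.2)).symm

theorem Chain_sg (k : ℕ) : (Even k ∧ sg k = 1) ∨ (¬ Even k ∧ sg k = -1) := by
  rcases Nat.even_or_odd k with h | h
  · exact Or.inl ⟨h, h.neg_one_pow⟩
  · exact Or.inr ⟨Nat.not_even_iff_odd.2 h, h.neg_one_pow⟩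

theorem Dat.Pre.chain {D : Dat} {X : ℂ → ℂ} (hD : D.Ok) (hX : D.Pre X) (hpq : D.p = D.q)
    (hd : ∀ j < D.p, ∃ x x', D.InA (j + 1) x ∧ D.InB j x' ∧ D.cst X x = D.cst X x')
    (hu : ∀ j < D.p, ∃ x x', D.InA j x ∧ D.InB (j + 1) x' ∧ D.cst X x = D.cst X x') :
    ∃ X', D.Sol X' := by
  obtain ⟨a, -, ha, -, -⟩ := hu 0 hD.p_pos
  obtain ⟨-, b, -, hb, -⟩ := hd 0 hD.p_pos
  have key : ∀ k ≤ D.p,
      (∀ x, D.InA k x → D.cst X x = if Even k then D.cst X a else D.cst X b) ∧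
      ∀ x, D.InB k x → D.cst X x = if Even k then D.cst X b else D.cst X a := by
    intro k
    induction k with
    | zero =>
      exact fun _ => ⟨fun x hx => by rw [if_pos Even.zero]; exact Chain_A hD hX hx ha,
        fun x hx => by rw [if_pos Even.zero]; exact Chain_B hD hX hx hb⟩
    | succ k ih =>
      intro hk
      obtain ⟨iA, iB⟩ := ih (by omega)
      obtain ⟨y, y', hy, hy', e⟩ := hd k hk
      obtain ⟨z, z', hz, hz', e'⟩ := hu k hk
      refine ⟨fun x hx => ?_, fun x hx => ?_⟩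
      · rw [Chain_A hD hX hx hy, e, iB y' hy']
        by_cases h : Even k <;> simp [Nat.even_add_one, h]
      · rw [Chain_B hD hX hx hz', ← e', iA z hz]
        by_cases h : Even k <;> simp [Nat.even_add_one, h]
  have fin : ∀ x : ℝ, D.P x ≠ 0 →
      D.cst X x = if 0 < (D.P x).re then D.cst X a else D.cst X b := by
    intro x hx
    have h0 : x ≠ 0 := fun h => Dat.Seg_ne hx (by rw [h, ofReal_zero])
    rcases lt_or_gt_of_ne h0 with h | h
    · obtain ⟨k, hk, h1, h2⟩ := hD.exists_neg h hx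
      have h3 := (hD.sign_neg h hk h1 h2).1
      rw [(key k (hpq ▸ hk)).2 x ⟨h, h1, h2⟩]
      rcases Chain_sg k with ⟨h4, h5⟩ | ⟨h4, h5⟩ <;> rw [h5] at h3
      · rw [if_pos h4, if_neg (by linarith)]
      · rw [if_neg h4, if_pos (by linarith)]
    · obtain ⟨k, hk, h1, h2⟩ := hD.exists_pos h hx
      have h3 := (hD.sign_pos h hk h1 h2).1
      rw [(key k hk).1 x ⟨h, h1, h2⟩]
      rcases Chain_sg k with ⟨h4, h5⟩ | ⟨h4, h5⟩ <;> rw [h5] at h3
      · rw [if_pos h4, if_pos (by linarith)]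
      · rw [if_neg h4, if_neg (by linarith)]
  refine hX.sol fun x x' hx hx' h => ?_
  rw [fin x hx, fin x' hx']
  exact if_congr h rfl rfl

end Pool.Agent.MP_92463a_gt
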