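import Pool.Agent.MP_92463a_gt.Alg
import Pool.Agent.MP_92463a_gt.Tool1

open Set Complex Filter Metric
open scoped Topology ComplexConjugate ContDiff Manifold

noncomputable section

namespace Pool.Agent.MP_92463a_gt

namespace Dat

variable {D : Dat}

theorem par1 {t₀ y₀ : ℂ} (h0 : y₀ ^ 2 = D.P t₀) (hy : y₀ ≠ 0) :
    ∃ δ h, D.Par1 t₀ δ h ∧ h 0 = y₀ := by
  have hd : Differentiable ℂ fun w => D.P (t₀ + w) :=
    P_diff.comp ((differentiable_const t₀).add differentiable_id)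
  obtain ⟨δ, hδ, h, hh, hh0, hw⟩ :=
    loc_sqrt (f := fun w => D.P (t₀ + w)) (hd.analyticAt 0) (by simpa using h0) hy
  exact ⟨δ, h, ⟨hδ, hh, fun w hw' => (hw w hw').1, fun w hw' => (hw w hw').2⟩, hh0⟩

theorem par1_Y {x₀ : ℝ} (hx : D.P x₀ ≠ 0) :
    ∃ δ h, D.Par1 x₀ δ h ∧ (∀ w ∈ ball (0 : ℂ) δ, 0 ≤ w.im → h w = D.Y (x₀ + w)) ∧
      ∀ w ∈ ball (0 : ℂ) δ, h (conj w) = (if 0 < (D.P x₀).re then 1 else -1) * conj (h w) := by
  obtain ⟨δ, h, H, h0⟩ := par1 (D := D) (Y_sq hx) (Y_ne _)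
  have hz : (0 : ℂ) ∈ ball (0 : ℂ) δ := mem_ball_self H.pos
  have hP : ∀ w ∈ ball (0 : ℂ) δ, D.P (x₀ + w) ≠ 0 := fun w hw => by
    rw [← H.sq w hw]; exact pow_ne_zero _ (H.ne w hw)
  have hne0 : h 0 ≠ 0 := H.ne 0 hz
  refine ⟨δ, h, H, ?_, ?_⟩
  · have hconv : Convex ℝ (ball (0 : ℂ) δ ∩ {w : ℂ | 0 ≤ w.im}) :=
      (convex_ball _ _).inter (convex_halfSpace_im_ge 0)
    have hv : ContinuousOn (fun w => D.Y (x₀ + w)) (ball (0 : ℂ) δ ∩ {w : ℂ | 0 ≤ w.im}) := by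
      refine Y_cont.comp (continuous_const.add continuous_id).continuousOn fun w hw => ?_
      refine ⟨?_, hP w hw.1⟩
      simpa using hw.2
    rcases sign_const hconv.isPreconnected (H.hol.continuousOn.mono inter_subset_left) hv
      (fun w _ => Y_ne _) (fun w hw => by rw [H.sq w hw.1, Y_sq (hP w hw.1)]) with h1 | h1
    · exact fun w hw hw' => h1 w ⟨hw, hw'⟩
    · exfalso
      have := h1 0 ⟨hz, by simp⟩
      rw [add_zero, ← h0] at this
      exact hne0 (by linear_combination this / 2)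
  · have hc : ∀ w ∈ ball (0 : ℂ) δ, conj w ∈ ball (0 : ℂ) δ := fun w hw => by
      simpa using hw
    have hu : ContinuousOn (fun w => h (conj w)) (ball (0 : ℂ) δ) :=
      H.hol.continuousOn.comp continuous_conj.continuousOn hc
    have hv : ContinuousOn (fun w => conj (h w)) (ball (0 : ℂ) δ) :=
      continuous_conj.comp_continuousOn H.hol.continuousOn
    have hsq : ∀ w ∈ ball (0 : ℂ) δ, h (conj w) ^ 2 = conj (h w) ^ 2 := fun w hw => by
      rw [H.sq _ (hc w hw), ← map_pow, H.sq w hw, ← P_conj]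
      simp
    have key := sign_const (convex_ball (0 : ℂ) δ).isPreconnected hu hv
      (fun w hw => by simpa using H.ne w hw) hsq
    split_ifs with hp
    · have hi : conj (h 0) = h 0 := by
        rw [h0]; exact conj_eq_iff_im.2 (Y_im hp)
      rcases key with h1 | h1
      · intro w hw
        rw [one_mul]; exact h1 w hw
      · exfalso
        have := h1 0 hz
        rw [map_zero, hi] at this
        exact hne0 (by linear_combination this / 2)
    · have hlt : (D.P x₀).re < 0 := by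
        rcases lt_or_eq_of_le (not_lt.1 hp) with h2 | h2
        · exact h2
        · exact absurd (Complex.ext (by simpa using h2) (by simpa using P_im (D := D) x₀)) hx
      have hi : conj (h 0) = -h 0 := by
        rw [h0]
        exact Complex.ext (by simp [Y_re hlt]) (by simp)
      rcases key with h1 | h1
      · exfalso
        have := h1 0 hz
        rw [map_zero, hi] at this
        exact hne0 (by linear_combination this / 2)
      · intro w hw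
        rw [neg_one_mul]; exact h1 w hw

theorem sq_mem_ball {δ : ℝ} {w : ℂ} (hw : w ∈ ball (0 : ℂ) δ) : w ^ 2 ∈ ball (0 : ℂ) (δ ^ 2) := by
  rw [mem_ball_zero_iff] at hw ⊢
  rw [norm_pow]
  exact pow_lt_pow_left₀ hw (norm_nonneg _) two_ne_zero

theorem Par2.on {x₀ : ℂ} {δ : ℝ} {h : ℂ → ℂ} (H : D.Par2 x₀ δ h) {w : ℂ}
    (hw : w ∈ ball (0 : ℂ) δ) :
    (w * h (w ^ 2)) ^ 2 = D.P (x₀ + w ^ 2) ∧ (w ≠ 0 → D.P (x₀ + w ^ 2) ≠ 0) := by
  have h1 := H.sq _ (sq_mem_ball hw)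
  refine ⟨by rw [← h1]; ring, fun h0 => ?_⟩
  rw [← h1]
  exact mul_ne_zero (pow_ne_zero _ h0) (pow_ne_zero _ (H.ne _ (sq_mem_ball hw)))

theorem Par3.on {δ : ℝ} {h : ℂ → ℂ} (H : D.Par3 δ h) {w : ℂ} (hw : w ∈ ball (0 : ℂ) δ)
    (h0 : w ≠ 0) :
    (h (w ^ 2) / w ^ (D.p + D.q + 1)) ^ 2 = D.P (w ^ 2)⁻¹ ∧ D.P (w ^ 2)⁻¹ ≠ 0 := by
  have h1 := H.sq _ (sq_mem_ball hw) (pow_ne_zero _ h0)
  have h2 : (h (w ^ 2) / w ^ (D.p + D.q + 1)) ^ 2 = D.P (w ^ 2)⁻¹ := by
    rw [div_pow, h1, ← pow_mul, ← pow_mul, mul_comm 2]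
    field_simp
  refine ⟨h2, ?_⟩
  rw [← h2]
  exact pow_ne_zero _ (div_ne_zero (H.ne _ (sq_mem_ball hw)) (pow_ne_zero _ h0))

theorem Ok.par_b_ne (hD : D.Ok) {i j : ℕ} (hi : i < D.q) (hj : j < D.q) (hij : i ≠ j) :
    D.b i ≠ D.b j := by
  have h1 := hD.b_pos i hi
  have h2 := hD.b_pos j hj
  rcases lt_or_gt_of_ne hij with h | h
  · have := hD.b_gap i j h hj
    intro e; linarith
  · have := hD.b_gap j i h hi
    intro e; linarith

theorem Ok.par_a_ne (hD : D.Ok) {i j : ℕ} (hi : i < D.p) (hj : j < D.p) (hij : i ≠ j) :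
    D.a i ≠ D.a j := by
  rcases lt_or_gt_of_ne hij with h | h
  · exact (hD.a_lt i j h hj).ne
  · exact (hD.a_lt j i h hi).ne'

/-- the roots of `P` are simple -/
theorem Ok.par_simple (hD : D.Ok) {x₀ : ℂ} (hx : D.P x₀ = 0) :
    ∃ f : ℂ → ℂ, Differentiable ℂ f ∧ f 0 ≠ 0 ∧ ∀ s, s * f s = D.P (x₀ + s) := by
  rcases P_eq_zero.1 hx with (rfl | ⟨j₀, hj₀, rfl⟩) | ⟨i₀, hi₀, rfl⟩
  · refine ⟨fun s => (∏ j ∈ Finset.range D.q, (s + D.b j)) * ∏ i ∈ Finset.range D.p, (D.a i - s),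
      by fun_prop, ?_, fun s => by simp only [P, zero_add]; ring⟩
    refine mul_ne_zero (Finset.prod_ne_zero_iff.2 fun j hj => ?_)
      (Finset.prod_ne_zero_iff.2 fun i hi => ?_)
    · rw [zero_add]
      exact_mod_cast (hD.b_pos j (Finset.mem_range.1 hj)).ne'
    · rw [sub_zero]
      exact_mod_cast (hD.a_pos i (Finset.mem_range.1 hi)).ne'
  · have hb := hD.b_pos j₀ hj₀
    refine ⟨fun s => (-D.b j₀ + s) *
        (∏ j ∈ (Finset.range D.q).erase j₀, (-D.b j₀ + s + D.b j)) *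
        ∏ i ∈ Finset.range D.p, (D.a i - (-D.b j₀ + s)), by fun_prop, ?_, fun s => ?_⟩
    · refine mul_ne_zero (mul_ne_zero ?_ (Finset.prod_ne_zero_iff.2 fun j hj => ?_))
        (Finset.prod_ne_zero_iff.2 fun i hi => ?_)
      · rw [add_zero, neg_ne_zero]
        exact_mod_cast hb.ne'
      · obtain ⟨h1, h2⟩ := Finset.mem_erase.1 hj
        have := hD.par_b_ne (Finset.mem_range.1 h2) hj₀ h1
        rw [add_zero, neg_add_eq_sub, sub_ne_zero]
        exact_mod_cast this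
      · have := hD.a_pos i (Finset.mem_range.1 hi)
        rw [add_zero, sub_neg_eq_add]
        exact_mod_cast (add_pos this hb).ne'
    · simp only [P]
      rw [← Finset.mul_prod_erase _ _ (Finset.mem_range.2 hj₀)]
      ring
  · have ha := hD.a_pos i₀ hi₀
    refine ⟨fun s => -((D.a i₀ + s) * (∏ j ∈ Finset.range D.q, (D.a i₀ + s + D.b j)) *
        ∏ i ∈ (Finset.range D.p).erase i₀, (D.a i - (D.a i₀ + s))), by fun_prop, ?_, fun s => ?_⟩
    · refine neg_ne_zero.2 (mul_ne_zero (mul_ne_zero ?_ (Finset.prod_ne_zero_iff.2 fun j hj => ?_))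
        (Finset.prod_ne_zero_iff.2 fun i hi => ?_))
      · rw [add_zero]
        exact_mod_cast ha.ne'
      · have := hD.b_pos j (Finset.mem_range.1 hj)
        rw [add_zero]
        exact_mod_cast (add_pos ha this).ne'
      · obtain ⟨h1, h2⟩ := Finset.mem_erase.1 hi
        have := hD.par_a_ne (Finset.mem_range.1 h2) hi₀ h1
        rw [add_zero, sub_ne_zero]
        exact_mod_cast this
    · simp only [P]
      rw [← Finset.mul_prod_erase _ (fun i => (D.a i : ℂ) - (D.a i₀ + s))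
        (Finset.mem_range.2 hi₀)]
      ring

theorem par_quad (ε : ℝ) (hε : ε = 1 ∨ ε = -1) (δ : ℝ) :
    Convex ℝ {w : ℂ | w ∈ ball (0 : ℂ) δ ∧ w ≠ 0 ∧ 0 ≤ w.re ∧ 0 ≤ ε * w.im} := by
  have e : {w : ℂ | w ∈ ball (0 : ℂ) δ ∧ w ≠ 0 ∧ 0 ≤ w.re ∧ 0 ≤ ε * w.im} =
      ball (0 : ℂ) δ ∩ {w : ℂ | 0 < w.re + ε * w.im ∧ 0 ≤ w.re ∧ 0 ≤ ε * w.im} := by
    ext w
    simp only [mem_ofPred_eq, mem_inter_iff]
    refine and_congr_right fun _ => ⟨fun ⟨h0, h1, h2⟩ => ⟨?_, h1, h2⟩,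
      fun ⟨h0, h1, h2⟩ => ⟨?_, h1, h2⟩⟩
    · by_contra hc
      have a1 : w.re = 0 := by linarith
      have a2 : ε * w.im = 0 := by linarith
      have a3 : w.im = 0 := by
        rcases hε with rfl | rfl <;> linarith
      exact h0 (Complex.ext a1 a3)
    · rintro rfl
      simp at h0
  rw [e]
  refine (convex_ball _ _).inter ?_
  intro x hx y hy a b ha hb hab
  obtain ⟨x1, x2, x3⟩ := hx
  obtain ⟨y1, y2, y3⟩ := hy
  simp only [mem_ofPred_eq, add_re, add_im, real_smul, mul_re, mul_im, ofReal_re, ofReal_im,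
    zero_mul, sub_zero, add_zero]
  refine ⟨?_, by positivity, ?_⟩
  · have e1 : a * x.re + b * y.re + ε * (a * x.im + b * y.im) =
        a * (x.re + ε * x.im) + b * (y.re + ε * y.im) := by ring
    rw [e1]
    rcases ha.eq_or_lt with h | h
    · have : b = 1 := by linarith
      rw [← h, this]; linarith
    · have := mul_pos h x1
      have := mul_nonneg hb y1.le
      linarith
  · have e1 : ε * (a * x.im + b * y.im) = a * (ε * x.im) + b * (ε * y.im) := by ring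
    rw [e1]; positivity

theorem Ok.par2 (hD : D.Ok) {x₀ : ℂ} (hx : D.P x₀ = 0) :
    ∃ δ h, D.Par2 x₀ δ h ∧ ∀ w ∈ ball (0 : ℂ) δ, w ≠ 0 → 0 ≤ w.re → 0 ≤ w.im →
      w * h (w ^ 2) = D.Y (x₀ + w ^ 2) := by
  obtain ⟨f, hf, hf0, hs⟩ := hD.par_simple hx
  obtain ⟨y₀, hy₀⟩ := IsAlgClosed.exists_pow_nat_eq (f 0) two_pos
  have hy : y₀ ≠ 0 := by
    rintro rfl
    exact hf0 (by simpa using hy₀.symm)
  obtain ⟨δ, hδ, h, hh, -, hw⟩ := loc_sqrt (hf.analyticAt 0) hy₀ hy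
  have e : Real.sqrt δ ^ 2 = δ := Real.sq_sqrt hδ.le
  have H : D.Par2 x₀ (Real.sqrt δ) h :=
    ⟨Real.sqrt_pos.2 hδ, hx, by rwa [e], fun s hs' => (hw s (by rwa [e] at hs')).1,
      fun s hs' => by rw [(hw s (by rwa [e] at hs')).2, hs]⟩
  have him : x₀.im = 0 := by
    by_contra hc
    exact ne_of_im hc hx
  have hu : ContinuousOn (fun w => w * h (w ^ 2))
      {w : ℂ | w ∈ ball (0 : ℂ) (Real.sqrt δ) ∧ w ≠ 0 ∧ 0 ≤ w.re ∧ 0 ≤ 1 * w.im} :=
    continuousOn_id.mul (H.hol.continuousOn.comp (continuous_pow 2).continuousOn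
      fun w hw' => sq_mem_ball hw'.1)
  have hv : ContinuousOn (fun w => D.Y (x₀ + w ^ 2))
      {w : ℂ | w ∈ ball (0 : ℂ) (Real.sqrt δ) ∧ w ≠ 0 ∧ 0 ≤ w.re ∧ 0 ≤ 1 * w.im} := by
    refine Y_cont.comp (continuous_const.add (continuous_pow 2)).continuousOn fun w hw' => ?_
    obtain ⟨h1, h2, h3, h4⟩ := hw'
    refine ⟨?_, (H.on h1).2 h2⟩
    rw [one_mul] at h4
    simp only [add_im, him, pow_two, mul_im, zero_add]
    positivity
  rcases sign_const (par_quad 1 (Or.inl rfl) (Real.sqrt δ)).isPreconnected hu hv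
    (fun w _ => Y_ne _)
    (fun w hw' => by rw [(H.on hw'.1).1, Y_sq ((H.on hw'.1).2 hw'.2.1)]) with h1 | h1
  · exact ⟨_, h, H, fun w a b c d => h1 w ⟨a, b, c, by rwa [one_mul]⟩⟩
  · refine ⟨Real.sqrt δ, fun s => -h s, ⟨H.pos, hx, H.hol.neg,
      fun s hs' => neg_ne_zero.2 (H.ne s hs'), fun s hs' => by rw [neg_sq]; exact H.sq s hs'⟩,
      fun w a b c d => ?_⟩
    have := h1 w ⟨a, b, c, by rwa [one_mul]⟩
    simp only at this ⊢
    linear_combination -this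

theorem Ok.par3 (hD : D.Ok) :
    ∃ δ h, D.Par3 δ h ∧ ∀ w ∈ ball (0 : ℂ) δ, w ≠ 0 → 0 ≤ w.re → w.im ≤ 0 →
      h (w ^ 2) / w ^ (D.p + D.q + 1) = D.Y (w ^ 2)⁻¹ := by
  set f : ℂ → ℂ := fun s =>
    (∏ j ∈ Finset.range D.q, (1 + D.b j * s)) * ∏ i ∈ Finset.range D.p, (D.a i * s - 1) with hfd
  have hf : Differentiable ℂ f := by rw [hfd]; fun_prop
  have hf0 : f 0 ≠ 0 := by simp [hfd]
  have hs : ∀ s : ℂ, s ≠ 0 → f s = s ^ (D.p + D.q + 1) * D.P s⁻¹ := fun s h0 => by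
    have e1 : ∏ j ∈ Finset.range D.q, (1 + D.b j * s) =
        s ^ D.q * ∏ j ∈ Finset.range D.q, (s⁻¹ + D.b j) := by
      rw [← Finset.card_range D.q, ← Finset.prod_const, Finset.card_range,
        ← Finset.prod_mul_distrib]
      exact Finset.prod_congr rfl fun j _ => by field_simp
    have e2 : ∏ i ∈ Finset.range D.p, (D.a i * s - 1) =
        s ^ D.p * ∏ i ∈ Finset.range D.p, (D.a i - s⁻¹) := by
      rw [← Finset.card_range D.p, ← Finset.prod_const, Finset.card_range,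
        ← Finset.prod_mul_distrib]
      exact Finset.prod_congr rfl fun j _ => by field_simp
    simp only [hfd, P]
    rw [e1, e2]
    field_simp
    ring
  obtain ⟨y₀, hy₀⟩ := IsAlgClosed.exists_pow_nat_eq (f 0) two_pos
  have hy : y₀ ≠ 0 := by
    rintro rfl
    exact hf0 (by simpa using hy₀.symm)
  obtain ⟨δ, hδ, h, hh, -, hw⟩ := loc_sqrt (hf.analyticAt 0) hy₀ hy
  have e : Real.sqrt δ ^ 2 = δ := Real.sq_sqrt hδ.le
  have H : D.Par3 (Real.sqrt δ) h :=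
    ⟨Real.sqrt_pos.2 hδ, by rwa [e], fun s hs' => (hw s (by rwa [e] at hs')).1,
      fun s hs' h0 => by rw [(hw s (by rwa [e] at hs')).2, hs s h0]⟩
  have hu : ContinuousOn (fun w => h (w ^ 2) / w ^ (D.p + D.q + 1))
      {w : ℂ | w ∈ ball (0 : ℂ) (Real.sqrt δ) ∧ w ≠ 0 ∧ 0 ≤ w.re ∧ 0 ≤ -1 * w.im} :=
    (H.hol.continuousOn.comp (continuous_pow 2).continuousOn
      fun w hw' => sq_mem_ball hw'.1).div (continuous_pow _).continuousOn
      fun w hw' => pow_ne_zero _ hw'.2.1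
  have hv : ContinuousOn (fun w => D.Y (w ^ 2)⁻¹)
      {w : ℂ | w ∈ ball (0 : ℂ) (Real.sqrt δ) ∧ w ≠ 0 ∧ 0 ≤ w.re ∧ 0 ≤ -1 * w.im} := by
    refine Y_cont.comp ((continuous_pow 2).continuousOn.inv₀ fun w hw' => pow_ne_zero _ hw'.2.1)
      fun w hw' => ?_
    obtain ⟨h1, h2, h3, h4⟩ := hw'
    refine ⟨?_, (H.on h1 h2).2⟩
    rw [inv_im]
    refine div_nonneg ?_ (normSq_nonneg _)
    simp only [pow_two, mul_im]
    nlinarith [mul_nonneg h3 h4]
  rcases sign_const (par_quad (-1) (Or.inr rfl) (Real.sqrt δ)).isPreconnected hu hv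
    (fun w _ => Y_ne _)
    (fun w hw' => by rw [(H.on hw'.1 hw'.2.1).1, Y_sq (H.on hw'.1 hw'.2.1).2]) with h1 | h1
  · exact ⟨_, h, H, fun w a b c d => h1 w ⟨a, b, c, by linarith⟩⟩
  · refine ⟨Real.sqrt δ, fun s => -h s, ⟨H.pos, H.hol.neg,
      fun s hs' => neg_ne_zero.2 (H.ne s hs'),
      fun s hs' h0 => by rw [neg_sq]; exact H.sq s hs' h0⟩, fun w a b c d => ?_⟩
    have := h1 w ⟨a, b, c, by linarith⟩
    simp only at this ⊢
    rw [neg_div, this, neg_neg]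

end Dat

end Pool.Agent.MP_92463a_gt
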