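import Pool.Agent.MP_92463a_gt.Pt
import Pool.Agent.MP_92463a_gt.Par

open Set Complex Filter Metric
open scoped Topology ComplexConjugate ContDiff Manifold

noncomputable section

namespace Pool.Agent.MP_92463a_gt

open Classical in
/-- the branch of `y` on the closed upper half plane, extended by zero -/
def Conn_Y (D : Dat) (t : ℂ) : ℂ := if D.P t = 0 then 0 else D.Y t

theorem Conn_sq (D : Dat) (t : ℂ) : Conn_Y D t ^ 2 = D.P t := by
  unfold Conn_Y
  split_ifs with h
  · simp [h]
  · exact Dat.Y_sq h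

theorem Conn_cont (D : Dat) : ContinuousOn (Conn_Y D) {t | 0 ≤ t.im} := by
  intro t ht
  have hP := (Dat.P_diff (D := D)).continuous
  by_cases h : D.P t = 0
  · refine ContinuousAt.continuousWithinAt ?_
    rw [ContinuousAt, show Conn_Y D t = 0 from if_pos h, tendsto_zero_iff_norm_tendsto_zero]
    have h1 : (fun x => ‖Conn_Y D x‖) = fun x => √‖D.P x‖ := funext fun x => by
      rw [← Conn_sq, norm_pow, Real.sqrt_sq (norm_nonneg _)]
    rw [h1]
    exact hP.norm.sqrt.tendsto' _ _ (by simp [h])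
  · have hn : {x | D.P x ≠ 0} ∈ 𝓝 t := (isOpen_ne_fun hP continuous_const).mem_nhds h
    refine ((Dat.Y_cont t ⟨ht, h⟩).mono_of_mem_nhdsWithin
      (inter_mem_nhdsWithin _ hn)).congr_of_eventuallyEq ?_ (if_neg h)
    filter_upwards [mem_nhdsWithin_of_mem_nhds hn] with x hx
    exact if_neg hx

theorem Dat.Ok.connected {D : Dat} (hD : D.Ok) : ConnectedSpace D.N := by
  have hH : IsPreconnected {t : ℂ | 0 ≤ t.im} := (convex_halfSpace_im_ge 0).isPreconnected
  have h0 : Conn_Y D 0 = 0 := if_pos (by simp [Dat.P])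
  have hc := Conn_cont D
  have hs := Conn_sq D
  have hs' : ∀ t, conj (Conn_Y D t) ^ 2 = D.P (conj t) := fun t => by
    rw [← map_pow, hs, Dat.P_conj]
  have c1 := hH.image _ (Dat.pt_cont continuousOn_id hc fun t _ => hs t)
  have c2 := hH.image _ (Dat.pt_cont continuousOn_id hc.neg fun t _ => (neg_sq _).trans (hs t))
  have c3 := hH.image _ (Dat.pt_cont continuous_conj.continuousOn
    (continuous_conj.comp_continuousOn hc) fun t _ => hs' t)
  have c4 := hH.image _ (Dat.pt_cont continuous_conj.continuousOn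
    (continuous_conj.comp_continuousOn hc).neg fun t _ => (neg_sq _).trans (hs' t))
  have m : ∀ f : ℂ → D.N, f 0 = D.pt 0 0 → D.pt 0 0 ∈ f '' {t : ℂ | 0 ≤ t.im} :=
    fun f hf => ⟨0, le_refl (0 : ℝ), hf⟩
  have c5 := IsPreconnected.union (D.pt 0 0) (Or.inr (m _ (by simp [h0]))) (m _ (by simp [h0]))
    (IsPreconnected.union (D.pt 0 0) (Or.inl (m _ (by simp [h0]))) (m _ (by simp [h0]))
      (IsPreconnected.union (D.pt 0 0) (m _ (by simp [h0])) (m _ (by simp [h0])) c1 c2) c3) c4
  have : PreconnectedSpace D.N := by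
    refine ⟨c5.subset_closure (subset_univ _) fun z _ => ?_⟩
    by_cases hz : z = OnePoint.infty
    · subst hz
      refine mem_closure_of_tendsto (Dat.pt_tendsto (l := atTop) (T := fun n : ℕ => (n : ℂ))
        (Yl := fun n => Conn_Y D n) (Eventually.of_forall fun n => hs _) ?_)
        (Eventually.of_forall fun n => Or.inl (Or.inl (Or.inl ⟨n, by simp, rfl⟩)))
      simpa using tendsto_natCast_atTop_atTop (R := ℝ)
    refine subset_closure ?_
    have h1 := Dat.pt_tt hz
    have h2 := Dat.yy_sq z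
    rcases le_total 0 (D.tt z).im with h | h
    · rcases sq_eq_sq_iff_eq_or_eq_neg.1 (h2.trans (hs _).symm) with h3 | h3
      · exact Or.inl (Or.inl (Or.inl ⟨D.tt z, h, by rw [← h1]; simp [← h3, h1]⟩))
      · exact Or.inl (Or.inl (Or.inr ⟨D.tt z, h, by rw [← h1]; simp [← h3, h1]⟩))
    · have h4 := hs' (conj (D.tt z))
      rw [conj_conj] at h4
      have h5 : conj (D.tt z) ∈ {t : ℂ | 0 ≤ t.im} := by simpa using h
      rcases sq_eq_sq_iff_eq_or_eq_neg.1 (h2.trans h4.symm) with h3 | h3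
      · exact Or.inl (Or.inr ⟨_, h5, by simp [← h3, h1]⟩)
      · exact Or.inr ⟨_, h5, by simp [← h3, h1]⟩
  exact ⟨⟨OnePoint.infty⟩⟩

end Pool.Agent.MP_92463a_gt
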