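import Pool.Agent.MP_92463a_gt.Gen2

open Set Complex Filter Metric
open scoped Topology ComplexConjugate ContDiff Manifold

noncomputable section

namespace Pool.Agent.MP_92463a_gt

theorem Dat.Gen3_zero {D : Dat} (A : D.Atl) {om : D.N → ℂ → ℂ}
    (h1 : ∀ x, DifferentiableOn ℂ (om x) (A.ch x).target)
    (h2 : ∀ x, ∀ w ∉ (A.ch x).target, om x w = 0) (h : A.Rep 0 om) : om = 0 := by
  funext z w
  have h3 : ∀ w ∈ ball (0 : ℂ) (A.δ z), w ≠ 0 → om z w = 0 := fun w hw h0 => by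
    rw [h z w hw fun e => h0 (A.center z hw e)]
    simp
  by_cases hw : w ∈ ball (0 : ℂ) (A.δ z)
  · by_cases h0 : w = 0
    · subst h0
      have h4 := isOpen_ball.mem_nhds hw
      have h5 : Tendsto (om z) (𝓝[≠] 0) (𝓝 (om z 0)) :=
        ((h1 z).continuousOn.continuousAt (by rwa [A.tgt])).tendsto.mono_left nhdsWithin_le_nhds
      refine tendsto_nhds_unique h5 (tendsto_const_nhds.congr' ?_)
      filter_upwards [mem_nhdsWithin_of_mem_nhds h4, self_mem_nhdsWithin] with v hv hv'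
      exact (h3 v hv hv').symm
    · exact h3 w hw h0
  · exact h2 z w (by rwa [A.tgt])

theorem Dat.Gen3_coef {D : Dat} (A : D.Atl) {c : ℕ → ℂ} (h : A.Rep c 0) :
    ∀ k < (D.p + D.q) / 2, c k = 0 := by
  have h1 : ∀ t, D.P t ≠ 0 → ∑ k ∈ Finset.range ((D.p + D.q) / 2), c k * t ^ k = 0 := by
    intro t ht
    obtain ⟨z, h2, h3⟩ : ∃ z, D.tt z = t ∧ D.yy z ≠ 0 :=
      ⟨D.pt t (D.Y t), Dat.tt_pt (Dat.Y_sq ht), by rw [Dat.yy_pt (Dat.Y_sq ht)]; exact Dat.Y_ne t⟩
    have h0 := Dat.Gen1_zero A z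
    have h4 := h z 0 h0 (by rwa [Dat.Gen1_symm])
    rcases A.kind z with ⟨t₀, u, H, e⟩ | ⟨x₀, u, H, e⟩ | ⟨u, H, e0, e⟩
    · have h5 : (fun v => D.tt ((A.ch z).symm v)) =ᶠ[𝓝 0] fun v => t₀ + v := by
        filter_upwards [isOpen_ball.mem_nhds h0] with v hv
        rw [e v hv, Dat.tt_pt (H.sq v hv)]
      rw [h5.deriv_eq, ((hasDerivAt_id' 0).const_add t₀).deriv, Dat.Gen1_symm, h2, mul_one] at h4
      exact (div_eq_zero_iff.1 h4.symm).resolve_right h3
    · refine absurd ?_ h3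
      rw [← Dat.Gen1_symm A z, e 0 h0, Dat.yy_pt (H.on h0).1, zero_mul]
    · refine absurd ?_ h3
      rw [← Dat.Gen1_symm A z, e0, Dat.yy_infty]
  have h2 : ∑ k ∈ Finset.range ((D.p + D.q) / 2), Polynomial.monomial k (c k) = 0 := by
    refine Polynomial.eq_zero_of_infinite_isRoot _ ((Dat.P_finite (D := D)).infinite_compl.mono
      fun t ht => ?_)
    simpa [Polynomial.eval_finsetSum] using h1 t ht
  intro k hk
  have h3 := congrArg (Polynomial.coeff · k) h2
  simpa [Polynomial.coeff_monomial, hk] using h3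

/-- extension by zero -/
def Gen3_ext {g : ℕ} (c : Fin g → ℂ) (k : ℕ) : ℂ := if h : k < g then c ⟨k, h⟩ else 0

theorem Dat.Atl.genus_eq {D : Dat} (hD : D.Ok) (A : D.Atl) :
    letI := A.charted
    genus D.N = (D.p + D.q) / 2 := by
  let := A.charted
  let W : Submodule ℂ ((Fin ((D.p + D.q) / 2) → ℂ) × holForms D.N) :=
    { carrier := {x | A.Rep (Gen3_ext x.1) x.2}
      add_mem' := fun {x y} hx hy z w hw h0 => by
        change x.2.1 z w + y.2.1 z w = _
        rw [hx z w hw h0, hy z w hw h0, ← add_div, ← add_mul, ← Finset.sum_add_distrib]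
        congr 2
        exact Finset.sum_congr rfl fun k hk => by
          simp [Gen3_ext, Finset.mem_range.1 hk, add_mul]
      zero_mem' := fun z w hw h0 => by simp [Gen3_ext]
      smul_mem' := fun a x hx z w hw h0 => by
        change a * x.2.1 z w = _
        rw [hx z w hw h0, ← mul_div_assoc, ← mul_assoc, Finset.mul_sum]
        congr 2
        exact Finset.sum_congr rfl fun k hk => by
          simp [Gen3_ext, Finset.mem_range.1 hk, mul_assoc] }
  have h1 : Function.Bijective ((LinearMap.fst ℂ _ _).comp W.subtype) := by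
    refine ⟨(injective_iff_map_eq_zero _).2 ?_, fun c => ?_⟩
    · rintro ⟨⟨c, om⟩, h⟩ (rfl : c = 0)
      have h2 : Gen3_ext (0 : Fin ((D.p + D.q) / 2) → ℂ) = 0 := by
        funext k
        simp [Gen3_ext]
      obtain rfl : om = 0 := Subtype.ext (Dat.Gen3_zero A om.2.1 om.2.2.1 (h2 ▸ h))
      rfl
    · obtain ⟨om, h2, h3⟩ := A.exists_form hD (Gen3_ext c)
      exact ⟨⟨(c, ⟨om, h2⟩), h3⟩, rfl⟩
  have h2 : Function.Bijective ((LinearMap.snd ℂ _ _).comp W.subtype) := by
    refine ⟨(injective_iff_map_eq_zero _).2 ?_, fun om => ?_⟩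
    · rintro ⟨⟨c, om⟩, h⟩ (rfl : om = 0)
      obtain rfl : c = 0 := funext fun k => by
        simpa [Gen3_ext] using Dat.Gen3_coef A h k k.2
      rfl
    · obtain ⟨c, h3⟩ := A.exists_rep hD om.1 om.2
      refine ⟨⟨(fun k => c k, om), fun z w hw h0 => ?_⟩, rfl⟩
      rw [h3 z w hw h0]
      congr 2
      exact Finset.sum_congr rfl fun k hk => by simp [Gen3_ext, Finset.mem_range.1 hk]
  rw [genus, ← (LinearEquiv.ofBijective _ h2).finrank_eq, (LinearEquiv.ofBijective _ h1).finrank_eq,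
    Module.finrank_fin_fun]

end Pool.Agent.MP_92463a_gt
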