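import Pool.Agent.MP_92463a_gt.Par

open Set Complex Filter Metric
open scoped Topology ComplexConjugate ContDiff Manifold

noncomputable section

namespace Pool.Agent.MP_92463a_gt

/-- holomorphic without zeros on `B` -/
def FormNz (B : Set ℂ) (f : ℂ → ℂ) : Prop := DifferentiableOn ℂ f B ∧ ∀ s ∈ B, f s ≠ 0

namespace FormNz

variable {B : Set ℂ} {f g : ℂ → ℂ}

theorem const {c : ℂ} (hc : c ≠ 0) : FormNz B fun _ => c :=
  ⟨differentiableOn_const c, fun _ _ => hc⟩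

theorem mul (hf : FormNz B f) (hg : FormNz B g) : FormNz B fun s => f s * g s :=
  ⟨hf.1.mul hg.1, fun s hs => mul_ne_zero (hf.2 s hs) (hg.2 s hs)⟩

theorem inv (hf : FormNz B f) : FormNz B fun s => (f s)⁻¹ :=
  ⟨hf.1.inv hf.2, fun s hs => inv_ne_zero (hf.2 s hs)⟩

theorem neg (hf : FormNz B f) : FormNz B fun s => -f s :=
  ⟨hf.1.neg, fun s hs => neg_ne_zero.2 (hf.2 s hs)⟩

theorem pow (hf : FormNz B f) (n : ℕ) : FormNz B fun s => f s ^ n :=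
  ⟨hf.1.pow n, fun s hs => pow_ne_zero n (hf.2 s hs)⟩

theorem prod (T : Finset ℕ) {F : ℕ → ℂ → ℂ} (hF : ∀ i ∈ T, FormNz B (F i)) :
    FormNz B fun s => ∏ i ∈ T, F i s :=
  ⟨DifferentiableOn.fun_finsetProd fun i hi => (hF i hi).1,
    fun s hs => Finset.prod_ne_zero_iff.2 fun i hi => (hF i hi).2 s hs⟩

end FormNz

namespace Dat

variable {D : Dat} {δ : ℝ} {h : ℂ → ℂ}

theorem Form_a_inj (hD : D.Ok) {i j : ℕ} (hi : i < D.p) (hj : j < D.p)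
    (e : (D.a i : ℂ) = D.a j) : i = j := by
  have e' : D.a i = D.a j := by exact_mod_cast e
  rcases lt_trichotomy i j with l | l | l
  · exact absurd e' (hD.a_lt i j l hj).ne
  · exact l
  · exact absurd e' (hD.a_lt j i l hi).ne'

theorem Form_b_inj (hD : D.Ok) {i j : ℕ} (hi : i < D.q) (hj : j < D.q)
    (e : -(D.b i : ℂ) = -D.b j) : i = j := by
  have e' : D.b i = D.b j := by exact_mod_cast neg_injective e
  have h1 := hD.b_pos i hi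
  rcases lt_trichotomy i j with l | l | l
  · have := hD.b_gap i j l hj
    linarith
  · exact l
  · have := hD.b_gap j i l hi
    linarith

theorem Form_b_ne (hD : D.Ok) {j : ℕ} (hj : j < D.q) : -(D.b j : ℂ) ≠ 0 :=
  neg_ne_zero.2 (ofReal_ne_zero.2 (hD.b_pos j hj).ne')

variable {x₀ : ℂ}

theorem Form_lin (H : D.Par2 x₀ δ h) {c : ℂ} (hc : D.IsE c ∨ D.IsA c) (hne : x₀ ≠ c) :
    FormNz (ball 0 (δ ^ 2)) fun s => x₀ + s - c := by
  refine ⟨by fun_prop, fun s hs e => ?_⟩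
  have e' : x₀ + s = c := sub_eq_zero.1 e
  have h1 := H.sq s hs
  rw [e', P_eq_zero.2 hc] at h1
  rcases mul_eq_zero.1 h1 with h2 | h2
  · exact hne (by rw [← e', h2, add_zero])
  · exact pow_ne_zero 2 (H.ne s hs) h2

theorem Form_T (H : D.Par2 x₀ δ h) (hne : x₀ ≠ 0) :
    FormNz (ball 0 (δ ^ 2)) fun s => x₀ + s := by
  simpa only [sub_zero] using Form_lin H (Or.inl (Or.inl rfl)) hne

theorem Form_B (H : D.Par2 x₀ δ h) (T : Finset ℕ) (hT : ∀ j ∈ T, j < D.q ∧ x₀ ≠ -D.b j) :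
    FormNz (ball 0 (δ ^ 2)) fun s =>
      ∏ j ∈ T, if Even j then x₀ + s + D.b j else ((x₀ + s + D.b j) ^ 2)⁻¹ := by
  refine FormNz.prod T fun j hj => ?_
  have h1 : FormNz (ball 0 (δ ^ 2)) fun s => x₀ + s + D.b j := by
    simpa only [sub_neg_eq_add] using
      Form_lin H (Or.inl (Or.inr ⟨j, (hT j hj).1, rfl⟩)) (hT j hj).2
  by_cases e : Even j
  · simpa only [if_pos e] using h1
  · simpa only [if_neg e] using (h1.pow 2).inv

theorem Form_A (H : D.Par2 x₀ δ h) (T : Finset ℕ) (hT : ∀ i ∈ T, i < D.p ∧ x₀ ≠ D.a i) :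
    FormNz (ball 0 (δ ^ 2)) fun s =>
      ∏ i ∈ T, if Even i then (D.a i - (x₀ + s))⁻¹ else 1 := by
  refine FormNz.prod T fun i hi => ?_
  have h1 : FormNz (ball 0 (δ ^ 2)) fun s => D.a i - (x₀ + s) := by
    simpa only [neg_sub] using (Form_lin H (Or.inr ⟨i, (hT i hi).1, rfl⟩) (hT i hi).2).neg
  by_cases e : Even i
  · simpa only [if_pos e] using h1.inv
  · simpa only [if_neg e] using FormNz.const one_ne_zero

theorem Form_rho (hD : D.Ok) (B : Set ℂ) : FormNz B fun _ => (D.ρ : ℂ) :=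
  FormNz.const (ofReal_ne_zero.2 hD.ρ_pos.ne')

theorem Form_RA (hD : D.Ok) (H : D.Par2 x₀ δ h) (ha : D.IsA x₀) :
    ∃ U, FormNz (ball 0 (δ ^ 2)) U ∧
      ((∀ s, h s * D.R (x₀ + s) = U s * s⁻¹) ∨ ∀ s, h s * D.R (x₀ + s) = U s) := by
  have hE := hD.not_E ha
  obtain ⟨i, hi, e⟩ := ha
  have h1 := (Form_T H fun e0 => hE (Or.inl e0)).inv
  have h2 := Form_B H (Finset.range D.q) fun j hj =>
    ⟨Finset.mem_range.1 hj, fun e0 => hE (Or.inr ⟨j, Finset.mem_range.1 hj, e0⟩)⟩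
  have h3 := Form_A H ((Finset.range D.p).erase i) fun j hj =>
    ⟨Finset.mem_range.1 (Finset.mem_of_mem_erase hj), fun e0 => Finset.ne_of_mem_erase hj
      (Form_a_inj hD (Finset.mem_range.1 (Finset.mem_of_mem_erase hj)) hi (e0.symm.trans e))⟩
  have h4 := (FormNz.mul ⟨H.hol, H.ne⟩ ((((Form_rho hD _).mul h1).mul h2).mul h3))
  by_cases ev : Even i
  · refine ⟨_, h4.neg, Or.inl fun s => ?_⟩
    rw [R, ← Finset.mul_prod_erase _ _ (Finset.mem_range.2 hi), if_pos ev, ← e,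
      sub_add_cancel_left, inv_neg, div_eq_mul_inv]
    ring
  · refine ⟨_, h4, Or.inr fun s => ?_⟩
    rw [R, ← Finset.mul_prod_erase _ _ (Finset.mem_range.2 hi), if_neg ev, one_mul, div_eq_mul_inv]

theorem Form_R0 (hD : D.Ok) (H : D.Par2 0 δ h) :
    ∃ U, FormNz (ball 0 (δ ^ 2)) U ∧ ∀ s, h s * D.R (0 + s) = U s * s⁻¹ := by
  have h2 := Form_B H (Finset.range D.q) fun j hj =>
    ⟨Finset.mem_range.1 hj, (Form_b_ne hD (Finset.mem_range.1 hj)).symm⟩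
  have h3 := Form_A H (Finset.range D.p) fun j hj =>
    ⟨Finset.mem_range.1 hj, fun e0 => hD.not_E ⟨j, Finset.mem_range.1 hj, e0⟩ (Or.inl rfl)⟩
  refine ⟨_, FormNz.mul ⟨H.hol, H.ne⟩ (((Form_rho hD _).mul h2).mul h3), fun s => ?_⟩
  rw [R, div_eq_mul_inv, zero_add]
  ring

theorem Form_RB (hD : D.Ok) (H : D.Par2 x₀ δ h) {j : ℕ} (hj : j < D.q) (e : x₀ = -D.b j) :
    ∃ U, FormNz (ball 0 (δ ^ 2)) U ∧
      ∀ s, h s * D.R (x₀ + s) = U s * if Even j then s else (s ^ 2)⁻¹ := by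
  have h1 := (Form_T H (e ▸ Form_b_ne hD hj)).inv
  have h2 := Form_B H ((Finset.range D.q).erase j) fun i hi =>
    ⟨Finset.mem_range.1 (Finset.mem_of_mem_erase hi), fun e0 => Finset.ne_of_mem_erase hi
      (Form_b_inj hD (Finset.mem_range.1 (Finset.mem_of_mem_erase hi)) hj (e0.symm.trans e))⟩
  have h3 := Form_A H (Finset.range D.p) fun i hi =>
    ⟨Finset.mem_range.1 hi, fun e0 => hD.not_E ⟨i, Finset.mem_range.1 hi, e0⟩ (Or.inr ⟨j, hj, e⟩)⟩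
  refine ⟨_, FormNz.mul ⟨H.hol, H.ne⟩ ((((Form_rho hD _).mul h1).mul h2).mul h3), fun s => ?_⟩
  have e1 : x₀ + s + D.b j = s := by rw [e]; ring
  rw [R, ← Finset.mul_prod_erase _ _ (Finset.mem_range.2 hj), e1, div_eq_mul_inv]
  ring

end Dat

namespace Dat

variable {D : Dat} {δ : ℝ} {h : ℂ → ℂ}

theorem Par1.form (hD : D.Ok) {t₀ : ℂ} (H : D.Par1 t₀ δ h) :
    DifferentiableOn ℂ (fun w => h w * D.R (t₀ + w) / (t₀ + w)) (ball 0 δ) ∧
    DifferentiableOn ℂ (fun w => (h w * D.R (t₀ + w) * (t₀ + w))⁻¹) (ball 0 δ) ∧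
    ∀ w ∈ ball (0 : ℂ) δ, D.P (t₀ + w) ≠ 0 ∧ t₀ + w ≠ 0 ∧ D.R (t₀ + w) ≠ 0 := by
  have hP : ∀ w ∈ ball (0 : ℂ) δ, D.P (t₀ + w) ≠ 0 := fun w hw => by
    rw [← H.sq w hw]
    exact pow_ne_zero 2 (H.ne w hw)
  have hT : FormNz (ball 0 δ) fun w => t₀ + w :=
    ⟨by fun_prop, fun w hw e => hP w hw (P_eq_zero.2 (Or.inl (Or.inl e)))⟩
  have hR : FormNz (ball 0 δ) fun w => D.R (t₀ + w) :=
    ⟨fun w hw => ((R_diff (hP w hw)).comp w (by fun_prop)).differentiableWithinAt,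
      fun w hw => hD.R_ne (hP w hw)⟩
  have hU := FormNz.mul ⟨H.hol, H.ne⟩ hR
  exact ⟨hU.1.div hT.1 hT.2, (hU.mul hT).inv.1, fun w hw => ⟨hP w hw, hT.2 w hw, hR.2 w hw⟩⟩

theorem Par2.formA (hD : D.Ok) {x₀ : ℂ} (H : D.Par2 x₀ δ h) (ha : D.IsA x₀) :
    ∃ φ₁ φ₂ : ℂ → ℂ, DifferentiableOn ℂ φ₁ (ball 0 δ) ∧ DifferentiableOn ℂ φ₂ (ball 0 δ) ∧
      (φ₁ 0 ≠ 0 ∨ φ₂ 0 ≠ 0) ∧
      (∀ w ∈ ball (0 : ℂ) δ, x₀ + w ^ 2 ≠ 0 ∧ φ₁ w * φ₂ w = (2 * w / (x₀ + w ^ 2)) ^ 2) ∧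
      ∀ w ∈ ball (0 : ℂ) δ, w ≠ 0 →
        φ₁ w = w * h (w ^ 2) * D.R (x₀ + w ^ 2) / (x₀ + w ^ 2) * (2 * w) ∧
        φ₂ w = (w * h (w ^ 2) * D.R (x₀ + w ^ 2) * (x₀ + w ^ 2))⁻¹ * (2 * w) := by
  obtain ⟨U, hU, hR⟩ := Form_RA hD H ha
  have hT := Form_T H fun e0 => hD.not_E ha (Or.inl e0)
  have hsq : ∀ {f : ℂ → ℂ}, FormNz (ball 0 (δ ^ 2)) f → FormNz (ball 0 δ) fun w => f (w ^ 2) :=
    fun hf => ⟨hf.1.comp (by fun_prop) fun w hw => sq_mem_ball hw,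
      fun w hw => hf.2 _ (sq_mem_ball hw)⟩
  have hU' := hsq hU
  have hT' := hsq hT
  have h2 : FormNz (ball (0 : ℂ) δ) fun _ => (2 : ℂ) := FormNz.const two_ne_zero
  have h1 := h2.mul (hU'.mul hT'.inv)
  have h3 := h2.mul (hU'.mul hT').inv
  have hw2 : DifferentiableOn ℂ (fun w : ℂ => w ^ 2) (ball 0 δ) := by fun_prop
  rcases hR with hR | hR
  · refine ⟨_, _, h1.1, hw2.mul h3.1, Or.inl (h1.2 0 (mem_ball_self H.pos)), fun w hw => ?_,
      fun w hw w0 => ?_⟩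
    · have a1 := hU'.2 w hw
      have a2 := hT'.2 w hw
      refine ⟨a2, ?_⟩
      simp only [Pi.mul_apply]
      field_simp
    · have a1 := hU'.2 w hw
      have a2 := hT'.2 w hw
      simp only [Pi.mul_apply, mul_assoc w, hR]
      constructor <;> field_simp
  · refine ⟨_, _, hw2.mul h1.1, h3.1, Or.inr (h3.2 0 (mem_ball_self H.pos)), fun w hw => ?_,
      fun w hw w0 => ?_⟩
    · have a1 := hU'.2 w hw
      have a2 := hT'.2 w hw
      refine ⟨a2, ?_⟩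
      simp only [Pi.mul_apply]
      field_simp
    · have a1 := hU'.2 w hw
      have a2 := hT'.2 w hw
      simp only [Pi.mul_apply, mul_assoc w, hR]
      constructor <;> field_simp

theorem Par2.formE (hD : D.Ok) {x₀ : ℂ} (H : D.Par2 x₀ δ h) (he : D.IsE x₀) :
    ∃ k₁ k₂ : ℂ → ℂ, DifferentiableOn ℂ k₁ (ball 0 (δ ^ 2)) ∧
      DifferentiableOn ℂ k₂ (ball 0 (δ ^ 2)) ∧ (k₁ 0 ≠ 0 ∨ k₂ 0 ≠ 0) ∧ (x₀ = 0 → k₂ 0 = 0) ∧
      (∀ j < D.q, x₀ = -D.b j → (Even j → k₁ 0 = 0) ∧ (Odd j → k₂ 0 = 0)) ∧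
      ∀ w ∈ ball (0 : ℂ) δ, w ≠ 0 →
        k₁ (w ^ 2) / w ^ 2 = w * h (w ^ 2) * D.R (x₀ + w ^ 2) / (x₀ + w ^ 2) * (2 * w) ∧
        k₂ (w ^ 2) / w ^ 2 = (w * h (w ^ 2) * D.R (x₀ + w ^ 2) * (x₀ + w ^ 2))⁻¹ * (2 * w) := by
  have h2 : FormNz (ball (0 : ℂ) (δ ^ 2)) fun _ => (2 : ℂ) := FormNz.const two_ne_zero
  have h0 : (0 : ℂ) ∈ ball (0 : ℂ) (δ ^ 2) := mem_ball_self (pow_pos H.pos 2)
  rcases he with rfl | ⟨j, hj, e⟩
  · obtain ⟨U, hU, hR⟩ := Form_R0 hD H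
    refine ⟨fun s => 2 * U s, fun s => s * (2 * (U s)⁻¹), (h2.mul hU).1,
      differentiableOn_id.mul (h2.mul hU.inv).1, Or.inl ((h2.mul hU).2 0 h0),
      fun _ => zero_mul _, fun j hj e => absurd e.symm (Form_b_ne hD hj), fun w hw w0 => ?_⟩
    have a1 := hU.2 _ (sq_mem_ball hw)
    simp only [mul_assoc w, hR]
    rw [zero_add]
    constructor <;> field_simp
  · obtain ⟨U, hU, hR⟩ := Form_RB hD H hj e
    have hx : x₀ ≠ 0 := e ▸ Form_b_ne hD hj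
    have hT := Form_T H hx
    have h1 := h2.mul (hU.mul hT.inv)
    have h3 := h2.mul (hU.mul hT).inv
    have hw3 : DifferentiableOn ℂ (fun s : ℂ => s ^ 3) (ball 0 (δ ^ 2)) := by fun_prop
    have hi : ∀ i < D.q, x₀ = -D.b i → i = j := fun i hi e0 =>
      Form_b_inj hD hi hj (e0.symm.trans e)
    by_cases ev : Even j
    · refine ⟨fun s => s ^ 3 * (2 * (U s * (x₀ + s)⁻¹)), _, hw3.mul h1.1, h3.1,
        Or.inr (h3.2 0 h0), fun e0 => absurd e0 hx, fun i hi' e0 => ⟨fun _ => by simp, fun o => ?_⟩,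
        fun w hw w0 => ?_⟩
      · rw [hi i hi' e0] at o
        exact absurd ev (Nat.not_even_iff_odd.2 o)
      · have a1 := hU.2 _ (sq_mem_ball hw)
        have a2 := hT.2 _ (sq_mem_ball hw)
        simp only [mul_assoc w, hR, if_pos ev]
        constructor <;> field_simp
    · refine ⟨_, fun s => s ^ 3 * (2 * (U s * (x₀ + s))⁻¹), h1.1, hw3.mul h3.1,
        Or.inl (h1.2 0 h0), fun e0 => absurd e0 hx, fun i hi' e0 => ⟨fun o => ?_, fun _ => by simp⟩,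
        fun w hw w0 => ?_⟩
      · rw [hi i hi' e0] at o
        exact absurd o ev
      · have a1 := hU.2 _ (sq_mem_ball hw)
        have a2 := hT.2 _ (sq_mem_ball hw)
        simp only [mul_assoc w, hR, if_neg ev]
        constructor <;> field_simp

end Dat

end Pool.Agent.MP_92463a_gt
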