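import Pool.Agent.MP_92463a_gt.Setup

open Set Complex Filter Metric
open scoped Topology ComplexConjugate ContDiff Manifold

noncomputable section

namespace Pool.Agent.MP_92463a_gt

theorem Tool2_open {F : ℂ → ℂ} {V T : Set ℂ} (hV : IsOpen V) (hVc : Convex ℝ V) (hVT : V ⊆ T)
    (hT : T ⊆ closure V) (hc : ContinuousOn F T)
    (hd : ∀ w ∈ V, HasFDerivAt F (0 : ℂ →L[ℝ] ℂ) w) {x y : ℂ} (hx : x ∈ T) (hy : y ∈ T) :
    F x = F y := by
  obtain ⟨a, ha⟩ : V.Nonempty := closure_nonempty_iff.1 ⟨x, hT hx⟩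
  have h1 : EqOn F (fun _ => F a) V := fun w hw =>
    hV.is_const_of_fderiv_eq_zero (𝕜 := ℝ) hVc.isPreconnected
      (fun z hz => (hd z hz).differentiableAt.differentiableWithinAt)
      (fun z hz => (hd z hz).fderiv) hw ha
  have h2 := h1.of_subset_closure hc continuousOn_const hVT hT
  exact (h2 hx).trans (h2 hy).symm

theorem const_convex {F : ℂ → ℂ} {s : Set ℂ} (hs : Convex ℝ s) (hc : ContinuousOn F s)
    (hi : (interior s).Nonempty) (hd : ∀ w ∈ interior s, HasFDerivAt F (0 : ℂ →L[ℝ] ℂ) w) :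
    ∃ k, ∀ w ∈ s, F w = k := by
  obtain ⟨a, ha⟩ := hi
  refine ⟨F a, fun w hw => Tool2_open isOpen_interior hs.interior interior_subset ?_ hc hd hw
    (interior_subset ha)⟩
  rw [hs.closure_interior_eq_closure_of_nonempty_interior ⟨a, ha⟩]
  exact subset_closure

theorem Tool2_box {F : ℂ → ℂ} {δ : ℝ} {A B : Set ℝ} {U : Set ℂ} (hA : IsOpen A) (hB : IsOpen B)
    (hAc : Convex ℝ A) (hBc : Convex ℝ B) (hU : U ⊆ ball 0 δ)
    (hU' : ∀ w ∈ ball (0 : ℂ) δ, w.re ∈ A → w.im ∈ B → w ∈ U) (hc : ContinuousOn F U)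
    (hd : ∀ w ∈ ball (0 : ℂ) δ, w.re ∈ A → w.im ∈ B → HasFDerivAt F (0 : ℂ →L[ℝ] ℂ) w)
    {x y : ℂ} (hx : x ∈ U) (hx1 : x.re ∈ closure A) (hx2 : x.im ∈ closure B)
    (hy : y ∈ U) (hy1 : y.re ∈ closure A) (hy2 : y.im ∈ closure B) : F x = F y := by
  refine Tool2_open (V := ball 0 δ ∩ (A ×ℂ B)) (T := U ∩ (closure A ×ℂ closure B))
    (isOpen_ball.inter (hA.reProdIm hB))
    ((convex_ball 0 δ).inter ((hAc.linear_preimage reLm).inter (hBc.linear_preimage imLm)))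
    (fun w hw => ⟨hU' w hw.1 hw.2.1 hw.2.2, subset_closure hw.2.1, subset_closure hw.2.2⟩)
    (fun w hw => isOpen_ball.inter_closure ⟨hU hw.1, ?_⟩) (hc.mono inter_subset_left)
    (fun w hw => hd w hw.1 hw.2.1 hw.2.2) ⟨hx, hx1, hx2⟩ ⟨hy, hy1, hy2⟩
  rw [closure_reProdIm]
  exact hw.2

theorem const_line {F : ℂ → ℂ} {δ c : ℝ} (hc : ContinuousOn F (ball 0 δ))
    (hd : ∀ w ∈ ball (0 : ℂ) δ, w.im ≠ c → HasFDerivAt F (0 : ℂ →L[ℝ] ℂ) w) :
    ∃ k, ∀ w ∈ ball (0 : ℂ) δ, F w = k := by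
  by_cases h : ∃ z ∈ ball (0 : ℂ) δ, z.im = c
  · obtain ⟨z, hz, hzc⟩ := h
    refine ⟨F z, fun w hw => ?_⟩
    rcases le_total c w.im with hw' | hw'
    · exact Tool2_box isOpen_univ (isOpen_Ioi (a := c)) convex_univ (convex_Ioi c) subset_rfl
        (fun w hw _ _ => hw) hc (fun w hw _ h => hd w hw (ne_of_gt h)) hw (by simp)
        (by simpa using hw') hz (by simp) (by simp [hzc])
    · exact Tool2_box isOpen_univ (isOpen_Iio (a := c)) convex_univ (convex_Iio c) subset_rfl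
        (fun w hw _ _ => hw) hc (fun w hw _ h => hd w hw (ne_of_lt h)) hw (by simp)
        (by simpa using hw') hz (by simp) (by simp [hzc])
  · refine ⟨F 0, fun w hw => Tool2_open isOpen_ball (convex_ball 0 δ) subset_rfl subset_closure hc
      (fun z hz => hd z hz fun e => h ⟨z, hz, e⟩) hw (mem_ball_self (pos_of_mem_ball hw))⟩

theorem const_quad {F : ℂ → ℂ} {δ : ℝ} (hc : ContinuousOn F (ball 0 δ \ {0}))
    (hd : ∀ w ∈ ball (0 : ℂ) δ, w.re ≠ 0 → w.im ≠ 0 → HasFDerivAt F (0 : ℂ →L[ℝ] ℂ) w) :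
    ∃ k, ∀ w ∈ ball (0 : ℂ) δ, w ≠ 0 → F w = k := by
  have key : ∀ {A B : Set ℝ}, IsOpen A → IsOpen B → Convex ℝ A → Convex ℝ B → (0 : ℝ) ∉ A →
      (0 : ℝ) ∉ B → ∀ {x y : ℂ}, x ∈ ball (0 : ℂ) δ \ {0} → x.re ∈ closure A → x.im ∈ closure B →
      y ∈ ball (0 : ℂ) δ \ {0} → y.re ∈ closure A → y.im ∈ closure B → F x = F y := by
    intro A B hA hB hAc hBc hA0 hB0 x y hx hx1 hx2 hy hy1 hy2
    refine Tool2_box hA hB hAc hBc sdiff_subset (fun w hw h1 _ => ⟨hw, fun e => hA0 ?_⟩) hc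
      (fun w hw h1 h2 => hd w hw (fun e => hA0 (e ▸ h1)) fun e => hB0 (e ▸ h2))
      hx hx1 hx2 hy hy1 hy2
    rw [mem_singleton_iff.1 e] at h1
    exact h1
  refine ⟨F ((δ / 2 : ℝ) : ℂ), fun w hw hw0 => ?_⟩
  have hδ : 0 < δ := pos_of_mem_ball hw
  have hδ2 : 0 ≤ δ / 2 := by positivity
  have hm : ∀ z : ℂ, ‖z‖ = δ / 2 → z ∈ ball (0 : ℂ) δ \ {0} := fun z hz =>
    ⟨mem_ball_zero_iff.2 (by linarith), fun e => by
      rw [mem_singleton_iff.1 e, norm_zero] at hz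
      linarith⟩
  have ha := hm ((δ / 2 : ℝ) : ℂ) (by rw [norm_real, Real.norm_of_nonneg hδ2])
  have hb := hm (((δ / 2 : ℝ) : ℂ) * I) (by
    rw [norm_mul, norm_I, mul_one, norm_real, Real.norm_of_nonneg hδ2])
  have hb' := hm (-(((δ / 2 : ℝ) : ℂ) * I)) (by
    rw [norm_neg, norm_mul, norm_I, mul_one, norm_real, Real.norm_of_nonneg hδ2])
  have hw' : w ∈ ball (0 : ℂ) δ \ {0} := ⟨hw, hw0⟩
  have p0 : (0 : ℝ) ∉ Ioi (0 : ℝ) := fun h => lt_irrefl (0 : ℝ) h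
  have n0 : (0 : ℝ) ∉ Iio (0 : ℝ) := fun h => lt_irrefl (0 : ℝ) h
  have pp := @key _ _ isOpen_Ioi isOpen_Ioi (convex_Ioi 0) (convex_Ioi 0) p0 p0
  have pn := @key _ _ isOpen_Ioi isOpen_Iio (convex_Ioi 0) (convex_Iio 0) p0 n0
  have np := @key _ _ isOpen_Iio isOpen_Ioi (convex_Iio 0) (convex_Ioi 0) n0 p0
  have nn := @key _ _ isOpen_Iio isOpen_Iio (convex_Iio 0) (convex_Iio 0) n0 n0
  simp only [closure_Ioi, closure_Iio, mem_Ici, mem_Iic] at pp pn np nn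
  have a1 : 0 ≤ ((δ / 2 : ℝ) : ℂ).re := by rw [ofReal_re]; exact hδ2
  have a2 : ((δ / 2 : ℝ) : ℂ).im = 0 := ofReal_im _
  have b1 : (((δ / 2 : ℝ) : ℂ) * I).re = 0 := by rw [mul_I_re, a2, neg_zero]
  have b2 : 0 ≤ (((δ / 2 : ℝ) : ℂ) * I).im := by rw [mul_I_im]; exact a1
  have c1 : (-(((δ / 2 : ℝ) : ℂ) * I)).re = 0 := by rw [neg_re, b1, neg_zero]
  have c2 : (-(((δ / 2 : ℝ) : ℂ) * I)).im ≤ 0 := by rw [neg_im]; exact neg_nonpos.2 b2
  rcases le_total 0 w.re with h1 | h1 <;> rcases le_total 0 w.im with h2 | h2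
  · exact pp hw' h1 h2 ha a1 a2.ge
  · exact pn hw' h1 h2 ha a1 a2.le
  · exact (np hw' h1 h2 hb b1.le b2).trans (pp hb b1.ge b2 ha a1 a2.ge)
  · exact (nn hw' h1 h2 hb' c1.le c2).trans (pn hb' c1.ge c2 ha a1 a2.le)

theorem poly_growth {f : ℂ → ℂ} (hf : Differentiable ℂ f) (n : ℕ) {C r : ℝ}
    (hb : ∀ z : ℂ, r ≤ ‖z‖ → ‖f z‖ * ‖z‖ ≤ C * ‖z‖ ^ n) :
    ∃ c : ℕ → ℂ, ∀ z, f z = ∑ k ∈ Finset.range n, c k * z ^ k := by
  induction n generalizing f C r with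
  | zero =>
    refine ⟨fun _ => 0, fun z => ?_⟩
    rw [Finset.sum_range_zero]
    refine hf.apply_eq_of_tendsto_cocompact z ?_
    have hn : Tendsto (fun z : ℂ => ‖z‖) (cocompact ℂ) atTop := tendsto_norm_cocompact_atTop
    refine squeeze_zero_norm' ?_ (hn.const_div_atTop C)
    filter_upwards [hn.eventually_ge_atTop r, hn.eventually_gt_atTop 0] with w h1 h2
    have := hb w h1
    rw [pow_zero, mul_one] at this
    exact (le_div_iff₀ h2).2 this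
  | succ n ih =>
    have hg : Differentiable ℂ (dslope f 0) :=
      differentiableOn_univ.1 ((differentiableOn_dslope univ_mem).2 hf.differentiableOn)
    have he : ∀ z, z * dslope f 0 z = f z - f 0 := fun z => by
      have := sub_smul_dslope f 0 z
      rwa [sub_zero, smul_eq_mul] at this
    obtain ⟨c, hc⟩ := ih hg (C := C + ‖f 0‖) (r := max r 1) fun z hz => by
      have h1 : 1 ≤ ‖z‖ := (le_max_right _ _).trans hz
      have h2 := hb z ((le_max_left _ _).trans hz)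
      rw [pow_succ, ← mul_assoc] at h2
      have h3 := le_of_mul_le_mul_right h2 (by linarith)
      have h4 : ‖f 0‖ ≤ ‖f 0‖ * ‖z‖ ^ n :=
        le_mul_of_one_le_right (norm_nonneg _) (one_le_pow₀ h1)
      rw [mul_comm, ← norm_mul, he, add_mul]
      exact (norm_sub_le _ _).trans (add_le_add h3 h4)
    refine ⟨fun k => Nat.casesOn k (f 0) c, fun z => ?_⟩
    rw [Finset.sum_range_succ', pow_zero, mul_one, ← sub_eq_iff_eq_add]
    change f z - f 0 = ∑ k ∈ Finset.range n, c k * z ^ (k + 1)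
    rw [← he, hc, Finset.mul_sum]
    exact Finset.sum_congr rfl fun k _ => by ring

theorem fill_finite {f : ℂ → ℂ} {s : Set ℂ} (hs : s.Finite) (hf : DifferentiableOn ℂ f sᶜ)
    (hb : ∀ x ∈ s, ∃ C : ℝ, ∀ᶠ z in 𝓝[≠] x, ‖f z‖ ≤ C) :
    ∃ F : ℂ → ℂ, Differentiable ℂ F ∧ ∀ z ∉ s, F z = f z := by
  classical
  refine ⟨fun z => if z ∈ s then limUnder (𝓝[≠] z) f else f z, fun x => ?_,
    fun z hz => if_neg hz⟩
  by_cases hx : x ∈ s
  · obtain ⟨C, hC⟩ := hb x hx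
    have h1 : (s \ {x})ᶜ ∈ 𝓝 x :=
      (hs.subset sdiff_subset).isClosed.isOpen_compl.mem_nhds fun h => h.2 rfl
    have h2 : {z | z ≠ x → ‖f z‖ ≤ C} ∈ 𝓝 x := eventually_nhdsWithin_iff.1 hC
    have h3 := inter_mem h1 h2
    have h4 := differentiableOn_update_limUnder_of_bddAbove (f := f) h3
      (hf.mono fun z hz hzs => hz.1.1 ⟨hzs, hz.2⟩) ⟨C, by
        rintro _ ⟨z, hz, rfl⟩
        exact hz.1.2 hz.2⟩
    refine (h4.differentiableAt h3).congr_of_eventuallyEq ?_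
    filter_upwards [h1] with z hz
    by_cases e : z = x
    · rw [e, if_pos hx, Function.update_self]
    · rw [if_neg fun h => hz ⟨h, e⟩, Function.update_of_ne e]
  · have h1 : sᶜ ∈ 𝓝 x := hs.isClosed.isOpen_compl.mem_nhds hx
    refine (hf.differentiableAt h1).congr_of_eventuallyEq ?_
    filter_upwards [h1] with z hz
    exact if_neg hz

end Pool.Agent.MP_92463a_gt
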