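import Pool.Agent.MP_92463a_gt.Xg
import Pool.Agent.MP_92463a_gt.Form
import Pool.Agent.MP_92463a_gt.Tool2

open Set Complex Filter Metric
open scoped Topology ComplexConjugate ContDiff Manifold

noncomputable section

namespace Pool.Agent.MP_92463a_gt

namespace Dat

variable {D : Dat} {X : ℂ → ℂ} {δ : ℝ} {h : ℂ → ℂ}

theorem LF_notE {t : ℂ} (ht : D.P t ≠ 0) : ¬ D.IsE t := fun h => ht (P_eq_zero.2 (Or.inl h))

theorem LF_cont (hD : D.Ok) (hX : D.Sol X) {s : Set ℂ} {T Yl Φ₁ Φ₂ : ℂ → ℂ}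
    (hT : ContinuousOn T s) (hY : ContinuousOn Yl s) (h₁ : ContinuousOn Φ₁ s)
    (h₂ : ContinuousOn Φ₂ s) (hs : ∀ w ∈ s, Yl w ^ 2 = D.P (T w) ∧ ¬ D.IsE (T w)) :
    ContinuousOn (fun w => D.Xg X (T w) (Yl w) - (Φ₁ w - conj (Φ₂ w))) s :=
  ((hX.Xg_cont hD).comp (hT.prodMk hY) hs).sub (h₁.sub (continuous_conj.comp_continuousOn h₂))

theorem LF_der (hD : D.Ok) (hX : D.Sol X) {s : Set ℂ} (ho : IsOpen s) {T Yl Φ₁ Φ₂ : ℂ → ℂ}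
    {T' w : ℂ} (hw : w ∈ s) (hT : HasDerivAt T T' w) (hY : ContinuousOn Yl s)
    (hs : ∀ v ∈ s, Yl v ^ 2 = D.P (T v)) (him : (T w).im ≠ 0)
    (h₁ : HasDerivAt Φ₁ (Yl w * D.R (T w) / T w * T') w)
    (h₂ : HasDerivAt Φ₂ ((Yl w * D.R (T w) * T w)⁻¹ * T') w) :
    HasFDerivAt (fun v => D.Xg X (T v) (Yl v) - (Φ₁ v - conj (Φ₂ v))) (0 : ℂ →L[ℝ] ℂ) w := by
  have a := Pre.Xg_der hD hX.toPre hT (hY.continuousAt (ho.mem_nhds hw))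
    (mem_of_superset (ho.mem_nhds hw) hs) him
  have b := a.sub (hasFDerivAt_wl h₁ h₂)
  rwa [sub_self] at b

theorem Sol.lf1 (hD : D.Ok) (hX : D.Sol X) {t₀ : ℂ} (H : D.Par1 t₀ δ h) :
    ∃ Φ₁ Φ₂ : ℂ → ℂ, ∀ w ∈ ball (0 : ℂ) δ,
      HasDerivAt Φ₁ (h w * D.R (t₀ + w) / (t₀ + w)) w ∧
      HasDerivAt Φ₂ (h w * D.R (t₀ + w) * (t₀ + w))⁻¹ w ∧
      D.Xg X (t₀ + w) (h w) = Φ₁ w - conj (Φ₂ w) := by
  obtain ⟨f1, f2, f3⟩ := H.form hD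
  obtain ⟨Φ₁, d1⟩ := f1.isExactOn_ball
  obtain ⟨Φ₂, d2⟩ := f2.isExactOn_ball
  have c1 : ContinuousOn Φ₁ (ball 0 δ) := fun w hw => (d1 w hw).continuousAt.continuousWithinAt
  have c2 : ContinuousOn Φ₂ (ball 0 δ) := fun w hw => (d2 w hw).continuousAt.continuousWithinAt
  obtain ⟨k, hk⟩ := const_line (c := -t₀.im)
    (LF_cont hD hX (T := fun w => t₀ + w) (by fun_prop) H.hol.continuousOn c1 c2
      fun w hw => ⟨H.sq w hw, LF_notE (f3 w hw).1⟩) fun w hw him =>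
    LF_der hD hX isOpen_ball (T := fun w => t₀ + w) hw ((hasDerivAt_id w).const_add t₀)
      H.hol.continuousOn H.sq (fun h0 => him (by rw [add_im] at h0; linarith))
      (by rw [mul_one]; exact d1 w hw) (by rw [mul_one]; exact d2 w hw)
  refine ⟨fun w => Φ₁ w + k, Φ₂, fun w hw => ⟨(d1 w hw).add_const k, d2 w hw, ?_⟩⟩
  rw [← hk w hw]
  ring

theorem Sol.lfA (hD : D.Ok) (hX : D.Sol X) {x₀ : ℂ} (H : D.Par2 x₀ δ h) (ha : D.IsA x₀) :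
    ∃ Φ₁ Φ₂ φ₁ φ₂ : ℂ → ℂ, (φ₁ 0 ≠ 0 ∨ φ₂ 0 ≠ 0) ∧ ∀ w ∈ ball (0 : ℂ) δ,
      HasDerivAt Φ₁ (φ₁ w) w ∧ HasDerivAt Φ₂ (φ₂ w) w ∧ x₀ + w ^ 2 ≠ 0 ∧
      φ₁ w * φ₂ w = (2 * w / (x₀ + w ^ 2)) ^ 2 ∧
      D.Xg X (x₀ + w ^ 2) (w * h (w ^ 2)) = Φ₁ w - conj (Φ₂ w) := by
  obtain ⟨φ₁, φ₂, f1, f2, f3, f4, f5⟩ := H.formA hD ha
  obtain ⟨Φ₁, d1⟩ := f1.isExactOn_ball
  obtain ⟨Φ₂, d2⟩ := f2.isExactOn_ball
  have c1 : ContinuousOn Φ₁ (ball 0 δ) := fun w hw => (d1 w hw).continuousAt.continuousWithinAt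
  have c2 : ContinuousOn Φ₂ (ball 0 δ) := fun w hw => (d2 w hw).continuousAt.continuousWithinAt
  have cY : ContinuousOn (fun w => w * h (w ^ 2)) (ball 0 δ) :=
    continuousOn_id.mul (H.hol.continuousOn.comp (by fun_prop) fun w hw => sq_mem_ball hw)
  have hx : x₀.im = 0 := by
    obtain ⟨i, -, rfl⟩ := ha
    exact ofReal_im _
  have cF := LF_cont hD hX (T := fun w => x₀ + w ^ 2) (by fun_prop) cY c1 c2 fun w hw =>
    ⟨(H.on hw).1, by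
      by_cases h0 : w = 0
      · rw [h0, zero_pow two_ne_zero, add_zero]
        exact hD.not_E ha
      · exact LF_notE ((H.on hw).2 h0)⟩
  obtain ⟨k, hk⟩ := const_quad (cF.mono sdiff_subset) fun w hw hre him => by
    have h0 : w ≠ 0 := fun h0 => hre (by rw [h0, zero_re])
    have hT : HasDerivAt (fun w : ℂ => x₀ + w ^ 2) (2 * w) w := by
      simpa using (hasDerivAt_pow 2 w).const_add x₀
    refine LF_der hD hX isOpen_ball (T := fun w => x₀ + w ^ 2) hw hT cY (fun v hv => (H.on hv).1)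
      ?_ ((f5 w hw h0).1 ▸ d1 w hw) ((f5 w hw h0).2 ▸ d2 w hw)
    rw [add_im, hx, zero_add, sq, mul_im]
    intro e
    rw [mul_comm w.im, ← two_mul] at e
    exact mul_ne_zero two_ne_zero (mul_ne_zero hre him) e
  have hk' : ∀ w ∈ ball (0 : ℂ) δ,
      D.Xg X (x₀ + w ^ 2) (w * h (w ^ 2)) - (Φ₁ w - conj (Φ₂ w)) = k := fun w hw => by
    by_cases h0 : w = 0
    · subst h0
      have hb : ball (0 : ℂ) δ ∈ 𝓝 (0 : ℂ) := isOpen_ball.mem_nhds hw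
      refine tendsto_nhds_unique ((cF.continuousAt hb).tendsto.mono_left
        (nhdsWithin_le_nhds (s := {0}ᶜ))) (tendsto_const_nhds.congr' ?_)
      filter_upwards [mem_nhdsWithin_of_mem_nhds hb, self_mem_nhdsWithin] with v h1 h2
      exact (hk v h1 h2).symm
    · exact hk w hw h0
  refine ⟨fun w => Φ₁ w + k, Φ₂, φ₁, φ₂, f3, fun w hw =>
    ⟨(d1 w hw).add_const k, d2 w hw, (f4 w hw).1, (f4 w hw).2, ?_⟩⟩
  rw [← hk' w hw]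
  ring

theorem Sol.lfE (hD : D.Ok) (hX : D.Sol X) (hδ : 0 < δ) {T T' Yl k₁ k₂ : ℂ → ℂ}
    (h₁ : DifferentiableOn ℂ k₁ (ball 0 (δ ^ 2))) (h₂ : DifferentiableOn ℂ k₂ (ball 0 (δ ^ 2)))
    (hY : ContinuousOn Yl (ball 0 δ \ {0}))
    (hw : ∀ w ∈ ball (0 : ℂ) δ, w ≠ 0 → HasDerivAt T (T' w) w ∧ Yl w ^ 2 = D.P (T w) ∧
      D.P (T w) ≠ 0 ∧ T (-w) = T w ∧ Yl (-w) = -Yl w ∧ (w.re ≠ 0 → w.im ≠ 0 → (T w).im ≠ 0) ∧
      k₁ (w ^ 2) / w ^ 2 = Yl w * D.R (T w) / T w * T' w ∧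
      k₂ (w ^ 2) / w ^ 2 = (Yl w * D.R (T w) * T w)⁻¹ * T' w) :
    Tendsto (fun w => D.Xg X (T w) (Yl w) - (-k₁ 0 / w - conj (-k₂ 0 / w))) (𝓝[≠] 0) (𝓝 0) := by
  obtain ⟨Ψ₁, a1, a2, a3, a4⟩ := odd_prim hδ h₁
  obtain ⟨Ψ₂, b1, b2, b3, b4⟩ := odd_prim hδ h₂
  have ho : IsOpen (ball (0 : ℂ) δ \ {0}) := isOpen_ball.sdiff isClosed_singleton
  obtain ⟨k, hk⟩ := const_quad (δ := δ)
    (LF_cont hD hX (T := T) (Φ₁ := fun v => -k₁ 0 / v + Ψ₁ v) (Φ₂ := fun v => -k₂ 0 / v + Ψ₂ v)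
      (fun w h => (hw w h.1 h.2).1.continuousAt.continuousWithinAt) hY
      (fun w h => (a4 w h.1 h.2).continuousAt.continuousWithinAt)
      (fun w h => (b4 w h.1 h.2).continuousAt.continuousWithinAt)
      fun w h => ⟨(hw w h.1 h.2).2.1, LF_notE (hw w h.1 h.2).2.2.1⟩) fun w hb hre him => by
    have h0 : w ≠ 0 := fun h0 => hre (by rw [h0, zero_re])
    obtain ⟨e1, -, -, -, -, e6, e7, e8⟩ := hw w hb h0
    exact LF_der hD hX ho ⟨hb, h0⟩ e1 hY (fun v h => (hw v h.1 h.2).2.1) (e6 hre him)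
      (e7 ▸ a4 w hb h0) (e8 ▸ b4 w hb h0)
  have hk0 : k = 0 := by
    have hb : ((δ / 2 : ℝ) : ℂ) ∈ ball (0 : ℂ) δ := by
      rw [mem_ball_zero_iff, norm_real, Real.norm_eq_abs, abs_of_pos (by positivity)]
      linarith
    have h0 : ((δ / 2 : ℝ) : ℂ) ≠ 0 := ofReal_ne_zero.2 (by positivity)
    generalize ((δ / 2 : ℝ) : ℂ) = w at hb h0
    have e1 := hk w hb h0
    have e2 := hk (-w) (by rwa [mem_ball_zero_iff, norm_neg, ← mem_ball_zero_iff])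
      (neg_ne_zero.2 h0)
    obtain ⟨-, -, -, e4, e5, -⟩ := hw w hb h0
    simp only [e4, e5, Xg_neg, a3 w hb, b3 w hb, div_neg, map_add, map_neg] at e1 e2
    linear_combination (-1 / 2 : ℂ) * (e1 + e2)
  have hb : ball (0 : ℂ) δ ∈ 𝓝 (0 : ℂ) := ball_mem_nhds 0 hδ
  have t1 : Tendsto Ψ₁ (𝓝 0) (𝓝 0) := by
    simpa [a2] using (a1.continuousOn.continuousAt hb).tendsto
  have t2 : Tendsto Ψ₂ (𝓝 0) (𝓝 0) := by
    simpa [b2] using (b1.continuousOn.continuousAt hb).tendsto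
  have t3 : Tendsto (fun w => Ψ₁ w - conj (Ψ₂ w)) (𝓝 0) (𝓝 0) := by
    simpa using t1.sub ((continuous_conj.tendsto 0).comp t2)
  refine (t3.mono_left nhdsWithin_le_nhds).congr' ?_
  filter_upwards [mem_nhdsWithin_of_mem_nhds hb, self_mem_nhdsWithin] with v h1 h2
  have e := hk v h1 h2
  rw [hk0, map_add] at e
  linear_combination -e

end Dat

end Pool.Agent.MP_92463a_gt
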