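import Pool.Agent.MP_92463a_gt.Alg

open Set Complex Filter Metric
open scoped Topology ComplexConjugate ContDiff Manifold

noncomputable section

namespace Pool.Agent.MP_92463a_gt

namespace Dat

variable {D : Dat}

theorem tt_pt {t y : ℂ} (h : y ^ 2 = D.P t) : D.tt (D.pt t y) = t := by
  rw [pt, dif_pos h]
  rfl

theorem yy_pt {t y : ℂ} (h : y ^ 2 = D.P t) : D.yy (D.pt t y) = y := by
  rw [pt, dif_pos h]
  rfl

theorem pt_ne {t y : ℂ} (h : y ^ 2 = D.P t) : D.pt t y ≠ OnePoint.infty := by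
  rw [pt, dif_pos h]
  exact OnePoint.coe_ne_infty _

theorem tt_infty : D.tt OnePoint.infty = 0 := rfl

theorem yy_infty : D.yy OnePoint.infty = 0 := rfl

theorem yy_sq (z : D.N) : D.yy z ^ 2 = D.P (D.tt z) := by
  induction z using OnePoint.rec with
  | infty => simp [tt_infty, yy_infty, P]
  | coe c => exact c.2

theorem pt_tt {z : D.N} (hz : z ≠ OnePoint.infty) : D.pt (D.tt z) (D.yy z) = z := by
  induction z using OnePoint.rec with
  | infty => exact absurd rfl hz
  | coe c => exact dif_pos c.2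

theorem tt_cont : ContinuousOn D.tt {OnePoint.infty}ᶜ := by
  intro z hz
  induction z using OnePoint.rec with
  | infty => exact absurd rfl hz
  | coe c =>
    exact (OnePoint.continuousAt_coe.2
      (continuous_fst.comp continuous_subtype_val).continuousAt).continuousWithinAt

theorem yy_cont : ContinuousOn D.yy {OnePoint.infty}ᶜ := by
  intro z hz
  induction z using OnePoint.rec with
  | infty => exact absurd rfl hz
  | coe c =>
    exact (OnePoint.continuousAt_coe.2
      (continuous_snd.comp continuous_subtype_val).continuousAt).continuousWithinAt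

theorem pt_cont {α : Type} [TopologicalSpace α] {T Yl : α → ℂ} {s : Set α}
    (hT : ContinuousOn T s) (hY : ContinuousOn Yl s) (hsq : ∀ x ∈ s, Yl x ^ 2 = D.P (T x)) :
    ContinuousOn (fun x => D.pt (T x) (Yl x)) s := by
  rw [continuousOn_iff_continuous_domRestrict] at *
  have : s.domRestrict (fun x => D.pt (T x) (Yl x)) =
      fun x : s => ((⟨(T x, Yl x), hsq x x.2⟩ : D.C) : D.N) := funext fun x => dif_pos (hsq x x.2)
  rw [this]
  exact OnePoint.continuous_coe.comp ((hT.prodMk hY).subtype_mk _)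

theorem Pt_closed : IsClosed {z : ℂ × ℂ | z.2 ^ 2 = D.P z.1} :=
  isClosed_eq (continuous_snd.pow 2) (P_diff.continuous.comp continuous_fst)

theorem Pt_compact (r : ℝ) : IsCompact {c : D.C | ‖c.1.1‖ ≤ r} := by
  obtain ⟨M, hM⟩ := (isCompact_closedBall (0 : ℂ) r).exists_bound_of_continuousOn
    (P_diff (D := D)).continuous.continuousOn
  refine (Pt_closed.isClosedEmbedding_subtypeVal.isCompact_preimage
    ((isCompact_closedBall (0 : ℂ) r).prod (isCompact_closedBall (0 : ℂ) (M + 1)))).of_isClosed_subset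
    (isClosed_le (continuous_fst.comp continuous_subtype_val).norm continuous_const) fun c hc => ?_
  have h1 : c.1.1 ∈ closedBall (0 : ℂ) r := mem_closedBall_zero_iff.2 hc
  refine ⟨h1, mem_closedBall_zero_iff.2 ?_⟩
  have h2 := hM _ h1
  rw [← c.2, norm_pow] at h2
  nlinarith [sq_nonneg (‖c.1.2‖ - 1)]

theorem Pt_open (r : ℝ) : IsOpen {z : D.N | z = OnePoint.infty ∨ r < ‖D.tt z‖} := by
  have h : ((↑) ⁻¹' {z : D.N | z = OnePoint.infty ∨ r < ‖D.tt z‖} : Set D.C)ᶜ =
      {c : D.C | ‖c.1.1‖ ≤ r} := by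
    ext c
    simp [tt]
  rw [OnePoint.isOpen_iff_of_mem (Or.inl rfl), h]
  exact ⟨(Pt_compact r).isClosed, Pt_compact r⟩

theorem tt_tendsto : Tendsto (fun z => ‖D.tt z‖) (𝓝[≠] OnePoint.infty) atTop := by
  refine tendsto_atTop.2 fun r => ?_
  filter_upwards [mem_nhdsWithin_of_mem_nhds ((Pt_open r).mem_nhds (Or.inl rfl)),
    self_mem_nhdsWithin] with z h1 h2
  exact (h1.resolve_left h2).le

theorem pt_tendsto {α : Type} {l : Filter α} {T Yl : α → ℂ}
    (hsq : ∀ᶠ x in l, Yl x ^ 2 = D.P (T x)) (hT : Tendsto (fun x => ‖T x‖) l atTop) :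
    Tendsto (fun x => D.pt (T x) (Yl x)) l (𝓝 OnePoint.infty) := by
  refine OnePoint.hasBasis_nhds_infty.tendsto_right_iff.2 fun K hK => ?_
  obtain ⟨r, hr⟩ := hK.2.exists_bound_of_continuousOn (f := fun c : D.C => c.1.1)
    (continuous_fst.comp continuous_subtype_val).continuousOn
  filter_upwards [hsq, hT.eventually_gt_atTop r] with x h1 h2
  exact Or.inl ⟨⟨(T x, Yl x), h1⟩, fun h => (hr _ h).not_gt h2, by rw [pt, dif_pos h1]⟩

theorem isOpen_far (r : ℝ) : IsOpen {z : D.N | z = OnePoint.infty ∨ r < ‖D.tt z‖} := by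
  exact Pt_open r

theorem t2 : T2Space D.N := by
  have : LocallyCompactSpace D.C := Pt_closed.isClosedEmbedding_subtypeVal.locallyCompactSpace
  infer_instance

theorem mem_S {z : D.N} : z ∈ D.S ↔ D.IsE (D.tt z) := by
  have h0 : ∀ t, D.IsE t → (0 : ℂ) ^ 2 = D.P t := fun t ht => by
    rw [P_eq_zero.2 (Or.inl ht)]
    simp
  simp only [S, Finset.mem_insert, Finset.mem_image, Finset.mem_range]
  constructor
  · rintro (rfl | rfl | ⟨j, hj, rfl⟩)
    · exact Or.inl rfl
    · exact Or.inl (tt_pt (h0 _ (Or.inl rfl)))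
    · exact Or.inr ⟨j, hj, tt_pt (h0 _ (Or.inr ⟨j, hj, rfl⟩))⟩
  · intro h
    by_cases hz : z = OnePoint.infty
    · exact Or.inl hz
    have h1 : D.yy z = 0 := by
      have := yy_sq z
      rw [P_eq_zero.2 (Or.inl h)] at this
      exact pow_eq_zero_iff two_ne_zero |>.1 this
    have h2 := pt_tt hz
    rw [h1] at h2
    rcases h with h | ⟨j, hj, h⟩
    · exact Or.inr (Or.inl (by rw [← h2, h]))
    · exact Or.inr (Or.inr ⟨j, hj, by rw [← h2, h]⟩)

theorem Ok.card_S (hD : D.Ok) : D.S.card = D.q + 2 := by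
  classical
  have h0 : ∀ t, D.IsE t → (0 : ℂ) ^ 2 = D.P t := fun t ht => by
    rw [P_eq_zero.2 (Or.inl ht)]
    simp
  have h1 : ∀ j < D.q, (0 : ℂ) ^ 2 = D.P (-D.b j) := fun j hj => h0 _ (Or.inr ⟨j, hj, rfl⟩)
  have h2 := h0 0 (Or.inl rfl)
  rw [S, Finset.card_insert_of_notMem, Finset.card_insert_of_notMem, Finset.card_image_of_injOn,
    Finset.card_range]
  · intro i hi j hj h
    have hi : i < D.q := by simpa using hi
    have hj : j < D.q := by simpa using hj
    have h3 := congrArg D.tt h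
    rw [tt_pt (h1 i hi), tt_pt (h1 j hj), neg_inj, ofReal_inj] at h3
    have a := hD.b_pos i hi
    rcases lt_trichotomy i j with h4 | h4 | h4
    · have := hD.b_gap i j h4 hj
      linarith
    · exact h4
    · have := hD.b_gap j i h4 hi
      linarith
  · simp only [Finset.mem_image, Finset.mem_range, not_exists, not_and]
    intro j hj h
    have h3 := congrArg D.tt h
    rw [tt_pt (h1 j hj), tt_pt h2, neg_eq_zero, ofReal_eq_zero] at h3
    exact (hD.b_pos j hj).ne' h3
  · simp only [Finset.mem_insert, Finset.mem_image, Finset.mem_range, not_or, not_exists, not_and]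
    exact ⟨(pt_ne h2).symm, fun j hj => pt_ne (h1 j hj)⟩

end Dat

end Pool.Agent.MP_92463a_gt
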