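import Pool.Agent.MP_92463a_gt.Min1
import Pool.Agent.MP_92463a_gt.LF
import Pool.Agent.MP_92463a_gt.Pt

open Set Complex Filter Metric
open scoped Topology ComplexConjugate ContDiff Manifold

noncomputable section

namespace Pool.Agent.MP_92463a_gt

theorem Min2_log {T T' : ℂ → ℂ} (hT : ∀ᶠ w in 𝓝 (0 : ℂ), HasDerivAt T (T' w) w) (h0 : T 0 ≠ 0) :
    ∃ Φ : ℂ → ℂ, ∀ᶠ w in 𝓝 (0 : ℂ),
      HasDerivAt Φ (T' w / T w) w ∧ (Φ w).re = Real.log ‖T w‖ := by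
  refine ⟨fun w => log (T w / T 0) + (Real.log ‖T 0‖ : ℝ), ?_⟩
  have hc : ContinuousAt (fun w => T w / T 0) 0 := hT.self_of_nhds.continuousAt.div_const _
  have hs : ∀ᶠ w in 𝓝 (0 : ℂ), T w / T 0 ∈ slitPlane :=
    hc.eventually (isOpen_slitPlane.mem_nhds (by simp only [div_self h0]; exact one_mem_slitPlane))
  filter_upwards [hT, hs] with w h1 h2
  have h3 : T w ≠ 0 := fun h => slitPlane_ne_zero h2 (by rw [h, zero_div])
  constructor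
  · have := ((h1.div_const (T 0)).clog h2).add_const ((Real.log ‖T 0‖ : ℝ) : ℂ)
    have e : T' w / T w = T' w / T 0 / (T w / T 0) := by field_simp
    rw [e]
    exact this
  · rw [add_re, log_re, ofReal_re, norm_div,
      Real.log_div (norm_ne_zero_iff.2 h3) (norm_ne_zero_iff.2 h0), sub_add_cancel]

theorem Dat.Sol.minimal {D : Dat} {X : ℂ → ℂ} (hD : D.Ok) (hX : D.Sol X) (A : D.Atl) :
    letI := A.charted
    ∀ z ∉ D.S, IsMinimalAt (D.ff X) z := by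
  letI := A.charted
  intro z hz
  have hc : chartAt ℂ z z = 0 := A.ctr z
  have hz0 : (A.ch z).symm 0 = z := by
    rw [← A.ctr z]
    exact (A.ch z).left_inv (A.mem z)
  have hl : ∀ w, loc (D.ff X) z w = D.ff X ((A.ch z).symm w) := fun _ => rfl
  rcases A.kind z with ⟨t₀, h, H, he⟩ | ⟨x₀, h, H, he⟩ | ⟨h, H, he, -⟩
  · obtain ⟨Φ₁, Φ₂, hΦ⟩ := hX.lf1 hD H
    have hf := (H.form hD).2.2
    have hb : ∀ᶠ w in 𝓝 (0 : ℂ), w ∈ ball (0 : ℂ) (A.δ z) := ball_mem_nhds _ H.pos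
    have h0 : (0 : ℂ) ∈ ball (0 : ℂ) (A.δ z) := mem_ball_self H.pos
    obtain ⟨Φ₃, h3⟩ := Min2_log (T := fun w => t₀ + w) (T' := fun _ => 1)
      (Eventually.of_forall fun w => (hasDerivAt_id w).const_add t₀) (hf 0 h0).2.1
    refine minimal_of_loc (Φ₁ := Φ₁) (Φ₂ := Φ₂) (Φ₃ := Φ₃)
      (φ₁ := fun w => h w * D.R (t₀ + w) / (t₀ + w))
      (φ₂ := fun w => (h w * D.R (t₀ + w) * (t₀ + w))⁻¹) (φ₃ := fun w => 1 / (t₀ + w)) ?_ ?_
    · rw [hc]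
      filter_upwards [hb, h3] with w hw h4
      refine ⟨(hΦ w hw).1, (hΦ w hw).2.1, h4.1, ?_, ?_⟩
      · have a1 := H.ne w hw
        have a2 := (hf w hw).2.1
        have a3 := (hf w hw).2.2
        field_simp
      · rw [hl, he w hw, Dat.ff, Dat.tt_pt (H.sq w hw), Dat.yy_pt (H.sq w hw), (hΦ w hw).2.2, h4.2]
    · rw [hc]
      exact Or.inl (div_ne_zero (mul_ne_zero (H.ne 0 h0) (hf 0 h0).2.2) (hf 0 h0).2.1)
  · have hb : ∀ᶠ w in 𝓝 (0 : ℂ), w ∈ ball (0 : ℂ) (A.δ z) := ball_mem_nhds _ H.pos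
    have h0 : (0 : ℂ) ∈ ball (0 : ℂ) (A.δ z) := mem_ball_self H.pos
    have ht : D.tt z = x₀ := by
      rw [← hz0, he 0 h0, Dat.tt_pt (H.on h0).1]
      simp
    have ha : D.IsA x₀ := (Dat.P_eq_zero.1 H.br).resolve_left fun hE =>
      hz (Dat.mem_S.2 (ht ▸ hE))
    obtain ⟨Φ₁, Φ₂, φ₁, φ₂, hne, hΦ⟩ := hX.lfA hD H ha
    obtain ⟨Φ₃, h3⟩ := Min2_log (T := fun w => x₀ + w ^ 2) (T' := fun w => 2 * w)
      (Eventually.of_forall fun w => by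
        simpa using (hasDerivAt_pow 2 w).const_add x₀) (hΦ 0 h0).2.2.1
    refine minimal_of_loc (Φ₁ := Φ₁) (Φ₂ := Φ₂) (Φ₃ := Φ₃) (φ₁ := φ₁) (φ₂ := φ₂)
      (φ₃ := fun w => 2 * w / (x₀ + w ^ 2)) ?_ ?_
    · rw [hc]
      filter_upwards [hb, h3] with w hw h4
      refine ⟨(hΦ w hw).1, (hΦ w hw).2.1, h4.1, (hΦ w hw).2.2.2.1, ?_⟩
      rw [hl, he w hw, Dat.ff, Dat.tt_pt (H.on hw).1, Dat.yy_pt (H.on hw).1,
        (hΦ w hw).2.2.2.2, h4.2]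
    · rw [hc]
      exact hne
  · refine absurd (Dat.mem_S.2 ?_) hz
    rw [← hz0, he]
    exact Or.inl rfl

end Pool.Agent.MP_92463a_gt
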