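import Pool.Agent.MP_92463a_gt.Ends
import Pool.Agent.MP_92463a_gt.Pt

open Set Complex Filter Metric
open scoped Topology ComplexConjugate ContDiff Manifold

noncomputable section

namespace Pool.Agent.MP_92463a_gt

theorem Proper_sq (z : ℂ) (h : ℝ) : ‖mk3 z h‖ ^ 2 = ‖z‖ ^ 2 + h ^ 2 := by
  rw [EuclideanSpace.real_norm_sq_eq, Fin.sum_univ_three, Complex.sq_norm, normSq_apply]
  simp only [mk3, PiLp.toLp_apply, Matrix.cons_val_zero, Matrix.cons_val_one, Matrix.cons_val]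
  ring

theorem Proper_le1 (z : ℂ) (h : ℝ) : ‖z‖ ≤ ‖mk3 z h‖ :=
  (abs_le_of_sq_le_sq' (by rw [Proper_sq]; nlinarith [sq_nonneg h]) (norm_nonneg _)).2

theorem Proper_le2 (z : ℂ) (h : ℝ) : h ≤ ‖mk3 z h‖ :=
  (abs_le_of_sq_le_sq' (by rw [Proper_sq]; nlinarith [sq_nonneg ‖z‖]) (norm_nonneg _)).2

theorem Proper_mk3 : Continuous fun p : ℂ × ℝ => mk3 p.1 p.2 := by
  unfold mk3
  fun_prop

theorem Proper_conj {D : Dat} {t : ℂ} (h : D.IsE t) : conj t = t := by
  rcases h with rfl | ⟨j, -, rfl⟩ <;> simp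

theorem Proper_ne {D : Dat} {z : D.N} (hz : z ∉ D.S) : z ≠ OnePoint.infty := by
  rintro rfl
  exact hz (Dat.mem_S.2 (Or.inl rfl))

theorem Proper_cont {D : Dat} {X : ℂ → ℂ} (hD : D.Ok) (hX : D.Sol X) :
    ContinuousOn (D.ff X) {z | z ∉ D.S} := by
  have ht : ContinuousOn D.tt {z | z ∉ D.S} := Dat.tt_cont.mono fun z hz => Proper_ne hz
  have hy : ContinuousOn D.yy {z | z ∉ D.S} := Dat.yy_cont.mono fun z hz => Proper_ne hz
  have h1 : ContinuousOn (fun z => D.Xg X (D.tt z) (D.yy z)) {z | z ∉ D.S} :=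
    (hX.Xg_cont hD).comp (ht.prodMk hy) fun z hz => ⟨Dat.yy_sq z, fun h => hz (Dat.mem_S.2 h)⟩
  have h2 : ContinuousOn (fun z => 2 * Real.log ‖D.tt z‖) {z | z ∉ D.S} :=
    continuousOn_const.mul (ht.norm.log fun z hz h =>
      hz (Dat.mem_S.2 (Or.inl (norm_eq_zero.1 h))))
  exact Proper_mk3.comp_continuousOn (h1.prodMk h2)

theorem Proper_big {D : Dat} {X : ℂ → ℂ} (hD : D.Ok) (hX : D.Sol X) {z : D.N} (hz : z ∈ D.S) :
    Tendsto (fun w => ‖D.ff X w‖) (𝓝[{w | w ∉ D.S}] z) atTop := by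
  by_cases h : z = OnePoint.infty
  · subst h
    have h1 : Tendsto (fun w => 2 * Real.log ‖D.tt w‖) (𝓝[{w | w ∉ D.S}] OnePoint.infty) atTop :=
      ((Real.tendsto_log_atTop.comp Dat.tt_tendsto).const_mul_atTop two_pos).mono_left
        (nhdsWithin_mono _ fun w hw => Proper_ne hw)
    exact tendsto_atTop_mono (fun w => Proper_le2 _ _) h1
  · have hE := Dat.mem_S.1 hz
    have ht : Tendsto D.tt (𝓝[{w | w ∉ D.S}] z) (𝓝 (D.tt z)) :=
      (Dat.tt_cont z h).mono fun w hw => Proper_ne hw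
    have h1 : Tendsto (fun w => if 0 ≤ (D.tt w).im then D.tt w else conj (D.tt w))
        (𝓝[{w | w ∉ D.S}] z) (𝓝[D.Q] (D.tt z)) := by
      refine tendsto_nhdsWithin_iff.2 ⟨?_, ?_⟩
      · refine ht.if' ?_
        have := (continuous_conj.tendsto _).comp ht
        rwa [Proper_conj hE] at this
      · filter_upwards [self_mem_nhdsWithin] with w hw
        have hw' : ¬ D.IsE (D.tt w) := fun h => hw (Dat.mem_S.2 h)
        split_ifs with hi
        · exact ⟨hi, hw'⟩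
        · refine ⟨by rw [conj_im]; linarith, fun h => hw' ?_⟩
          have := Proper_conj h
          rw [conj_conj] at this
          rwa [this]
    refine tendsto_atTop_mono' _ ?_ ((hX.end_big hD hE).comp h1)
    filter_upwards [self_mem_nhdsWithin] with w hw
    have hw' : ¬ D.IsE (D.tt w) := fun h => hw (Dat.mem_S.2 h)
    rw [Function.comp, ← hX.Xg_norm hD (Dat.yy_sq w) hw']
    exact Proper_le1 _ _

theorem Dat.Sol.proper {D : Dat} {X : ℂ → ℂ} (hD : D.Ok) (hX : D.Sol X) :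
    IsProperMap (fun z : {z // z ∉ D.S} => D.ff X z) := by
  have hc := Proper_cont hD hX
  refine isProperMap_iff_isCompact_preimage.2 ⟨hc.restrict, fun K hK => ?_⟩
  rw [Subtype.isCompact_iff]
  refine IsClosed.isCompact (isClosed_of_closure_subset fun z hz => ?_)
  have hB : ∀ w ∈ Subtype.val '' ((fun z : {z // z ∉ D.S} => D.ff X z) ⁻¹' K),
      w ∉ D.S ∧ D.ff X w ∈ K := by
    rintro _ ⟨w, hw, rfl⟩
    exact ⟨w.2, hw⟩
  haveI := mem_closure_iff_nhdsWithin_neBot.1 hz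
  have hle := nhdsWithin_mono z (show _ ⊆ {w | w ∉ D.S} from fun w hw => (hB w hw).1)
  have hev : ∀ᶠ w in 𝓝[Subtype.val '' ((fun z : {z // z ∉ D.S} => D.ff X z) ⁻¹' K)] z,
      D.ff X w ∈ K := by
    filter_upwards [self_mem_nhdsWithin] with w hw using (hB w hw).2
  by_cases h : z ∈ D.S
  · obtain ⟨r, hr⟩ := hK.isBounded.exists_norm_le
    have h1 := ((Proper_big hD hX h).mono_left hle).eventually (eventually_gt_atTop r)
    obtain ⟨w, a, b⟩ := (h1.and hev).exists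
    exact absurd (hr _ b) (not_le.2 a)
  · exact ⟨⟨z, h⟩, hK.isClosed.mem_of_tendsto ((hc z h).tendsto.mono_left hle) hev, rfl⟩

end Pool.Agent.MP_92463a_gt
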