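import Pool.Agent.MP_92463a_gt.Inj
import Pool.Agent.MP_92463a_gt.Proper
import Pool.Agent.MP_92463a_gt.Min2
import Pool.Agent.MP_92463a_gt.Gen3
import Pool.Agent.MP_92463a_gt.Conn

open Set Complex Filter Metric
open scoped Topology ComplexConjugate ContDiff Manifold

noncomputable section

namespace Pool.Agent.MP_92463a_gt

theorem Dat.Sol.realized {D : Dat} {X : ℂ → ℂ} (hD : D.Ok) (hX : D.Sol X) :
    Realized ((D.p + D.q) / 2) (D.q + 2) := by
  obtain ⟨A⟩ := hD.atl
  have hp := hX.proper hD
  exact ⟨D.N, inferInstance, A.charted, Dat.t2, inferInstance, hD.connected, A.isManifold hD,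
    A.genus_eq hD, D.S, D.ff X, hD.card_S, hX.minimal hD A,
    (Topology.IsClosedEmbedding.of_continuous_injective_isClosedMap hp.continuous (hX.inj hD)
      hp.isClosedMap).isEmbedding, hp⟩

end Pool.Agent.MP_92463a_gt
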