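import Pool.Agent.MP_92463a_gt.Phase

open Set Complex Filter Metric
open scoped Topology ComplexConjugate ContDiff Manifold

noncomputable section

namespace Pool.Agent.MP_92463a_gt

namespace Dat

variable {D : Dat} {X : ℂ → ℂ}

theorem Seg_memQ {t : ℂ} (h0 : 0 ≤ t.im) (hP : D.P t ≠ 0) : t ∈ D.Q :=
  ⟨h0, fun h => hP (P_eq_zero.2 (Or.inl h))⟩

theorem Seg_ne {t : ℂ} (hP : D.P t ≠ 0) : t ≠ 0 :=
  fun h => hP (P_eq_zero.2 (Or.inl (Or.inl h)))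

theorem Seg_cont₁ : ContinuousOn (fun t => D.G t / t) {t | 0 ≤ t.im ∧ D.P t ≠ 0} :=
  G_cont.div continuousOn_id fun _ ht => Seg_ne ht.2

theorem Seg_cont₂ : ContinuousOn (fun t => (D.G t * t)⁻¹) {t | 0 ≤ t.im ∧ D.P t ≠ 0} :=
  (G_cont.mul continuousOn_id).inv₀ fun t ht => mul_ne_zero (G_ne t) (Seg_ne ht.2)

theorem Seg_path (hX : D.Pre X) {a b : ℝ} (hab : a ≤ b) {γ γ' : ℝ → ℂ}
    (hγ : ∀ θ ∈ Icc a b, HasDerivAt γ (γ' θ) θ) (hγ' : ContinuousOn γ' (Icc a b))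
    (hin : ∀ θ ∈ Ioo a b, 0 < (γ θ).im)
    (hP : ∀ θ ∈ Icc a b, 0 ≤ (γ θ).im ∧ D.P (γ θ) ≠ 0) :
    X (γ b) - X (γ a) = ∫ θ in a..b,
      (D.G (γ θ) / γ θ * γ' θ - conj ((D.G (γ θ) * γ θ)⁻¹ * γ' θ)) := by
  have hc : ContinuousOn γ (Icc a b) := fun θ hθ => (hγ θ hθ).continuousAt.continuousWithinAt
  have h1 : ContinuousOn (fun θ => D.G (γ θ) / γ θ) (Icc a b) := Seg_cont₁.comp hc hP
  have h2 : ContinuousOn (fun θ => (D.G (γ θ) * γ θ)⁻¹) (Icc a b) := Seg_cont₂.comp hc hP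
  symm
  refine intervalIntegral.integral_eq_sub_of_hasDerivAt_of_le (f := fun θ => X (γ θ)) hab
    (hX.cont.comp hc fun θ hθ => Seg_memQ (hP θ hθ).1 (hP θ hθ).2) (fun θ hθ => ?_) ?_
  · have h3 := (hX.der (γ θ) (hin θ hθ)).comp_hasDerivAt θ (hγ θ (Ioo_subset_Icc_self hθ))
    rw [wl_apply] at h3
    exact h3
  · refine ContinuousOn.intervalIntegrable ?_
    rw [uIcc_of_le hab]
    exact (h1.mul hγ').sub (continuous_conj.comp_continuousOn (h2.mul hγ'))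

theorem Seg_lin (hX : D.Pre X) {x x' : ℝ} (hle : x ≤ x') (hP : ∀ s ∈ Icc x x', D.P s ≠ 0)
    (L : ℂ →L[ℝ] ℝ) (hL : ∀ s ∈ Icc x x', L (D.G s / s - conj (D.G s * s)⁻¹) = 0) :
    L (X x) = L (X x') := by
  have hm : ∀ (s : ℝ), s ∈ Icc x x' → ∀ ε : ℝ, 0 ≤ ((s : ℂ) + (|ε| : ℝ) * I).im ∧
      D.P ((s : ℂ) + (|ε| : ℝ) * I) ≠ 0 := by
    intro s hs ε
    have h1 : ((s : ℂ) + (|ε| : ℝ) * I).im = |ε| := by simp
    refine ⟨by rw [h1]; exact abs_nonneg ε, ?_⟩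
    by_cases h0 : |ε| = 0
    · rw [h0]
      simpa using hP s hs
    · exact ne_of_im (by rw [h1]; exact h0)
  let c : ℝ → ℝ := fun s => max x (min x' s)
  have hc : ∀ s, c s ∈ Icc x x' := fun s => ⟨le_max_left _ _, max_le hle (min_le_left _ _)⟩
  have hc' : ∀ s ∈ Icc x x', c s = s := fun s hs => by
    simp only [c]
    rw [min_eq_right hs.2, max_eq_right hs.1]
  let F : ℂ → ℂ := fun t => D.G t / t - conj (D.G t * t)⁻¹
  have hF : ContinuousOn F {t | 0 ≤ t.im ∧ D.P t ≠ 0} :=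
    Seg_cont₁.sub (continuous_conj.comp_continuousOn Seg_cont₂)
  have hg : Continuous (Function.uncurry fun (ε s : ℝ) => F ((c s : ℂ) + (|ε| : ℝ) * I)) := by
    refine hF.comp_continuous (f := fun z : ℝ × ℝ => (c z.2 : ℂ) + (|z.1| : ℝ) * I) ?_
      fun z => hm _ (hc _) _
    simp only [c]
    fun_prop
  have hΦ := intervalIntegral.continuous_parametric_intervalIntegral_of_continuous'
    (μ := MeasureTheory.volume) hg x x'
  have hX' : ∀ s ∈ Icc x x', Continuous fun ε : ℝ => X ((s : ℂ) + (|ε| : ℝ) * I) := fun s hs =>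
    hX.cont.comp_continuous (f := fun ε : ℝ => (s : ℂ) + (|ε| : ℝ) * I) (by fun_prop)
      fun ε => Seg_memQ (hm s hs ε).1 (hm s hs ε).2
  have hΨ := (hX' x' ⟨hle, le_rfl⟩).sub (hX' x ⟨le_rfl, hle⟩)
  have heq : EqOn (fun ε : ℝ => X ((x' : ℂ) + (|ε| : ℝ) * I) - X ((x : ℂ) + (|ε| : ℝ) * I))
      (fun ε : ℝ => ∫ s in x..x', F ((c s : ℂ) + (|ε| : ℝ) * I)) (Ioi 0) := by
    intro ε hε
    have h1 := Seg_path hX hle (γ := fun s : ℝ => (s : ℂ) + (|ε| : ℝ) * I) (γ' := fun _ => 1)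
      (fun θ _ => (ofRealCLM.hasDerivAt (x := θ)).add_const _) continuousOn_const
      (fun θ _ => by simpa using ne_of_gt hε) fun θ hθ => hm θ hθ ε
    refine h1.trans (intervalIntegral.integral_congr fun s hs => ?_)
    rw [uIcc_of_le hle] at hs
    simp only [F, hc' s hs, mul_one]
  have h0 := heq.closure hΨ hΦ (x := 0) (by rw [closure_Ioi]; exact mem_Ici.2 le_rfl)
  simp only [abs_zero, ofReal_zero, zero_mul, add_zero] at h0
  have hi : IntervalIntegrable (fun s : ℝ => F (c s)) MeasureTheory.volume x x' := by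
    have := (hg.comp (f := fun s : ℝ => ((0 : ℝ), s)) (by fun_prop)).intervalIntegrable
      (μ := MeasureTheory.volume) x x'
    simpa [Function.comp_def] using this
  have h2 := L.intervalIntegral_comp_comm hi
  rw [← h0, map_sub, intervalIntegral.integral_congr (g := fun _ => 0)] at h2
  · simp only [intervalIntegral.integral_zero] at h2
    linarith
  · intro s hs
    rw [uIcc_of_le hle] at hs
    simp only [F, hc' s hs]
    exact hL s hs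

theorem Seg_re_ne {s : ℝ} (h : D.P s ≠ 0) : (D.P s).re ≠ 0 :=
  fun h0 => h (Complex.ext h0 (P_im s))

theorem Seg_sign {x x' : ℝ} (hP : ∀ s ∈ Icc x x', D.P s ≠ 0) {s s' : ℝ} (hs : s ∈ Icc x x')
    (hs' : s' ∈ Icc x x') (h : 0 < (D.P s).re) : 0 < (D.P s').re := by
  by_contra h'
  have hc : Continuous fun u : ℝ => (D.P u).re :=
    continuous_re.comp (P_diff.continuous.comp continuous_ofReal)
  obtain ⟨u, hu, h0⟩ := isPreconnected_Icc.intermediate_value hs' hs hc.continuousOn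
    (show (0 : ℝ) ∈ Icc _ _ from ⟨not_lt.1 h', h.le⟩)
  exact Seg_re_ne (hP u hu) h0

theorem Pre.path (hD : D.Ok) (hX : D.Pre X) {γ γ' : ℝ → ℂ}
    (hγ : ∀ θ ∈ Icc 0 Real.pi, HasDerivAt γ (γ' θ) θ) (hγ' : ContinuousOn γ' (Icc 0 Real.pi))
    (hin : ∀ θ ∈ Ioo 0 Real.pi, 0 < (γ θ).im)
    (hP : ∀ θ ∈ Icc 0 Real.pi, 0 ≤ (γ θ).im ∧ D.P (γ θ) ≠ 0) :
    X (γ Real.pi) - X (γ 0) = ∫ θ in (0 : ℝ)..Real.pi,
      (D.G (γ θ) / γ θ * γ' θ - conj ((D.G (γ θ) * γ θ)⁻¹ * γ' θ)) := by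
  have _ := hD
  exact Seg_path hX Real.pi_pos.le hγ hγ' hin hP

theorem Pre.seg (hD : D.Ok) (hX : D.Pre X) {x x' : ℝ} (hle : x ≤ x')
    (hP : ∀ s ∈ Icc x x', D.P s ≠ 0) : D.cst X x = D.cst X x' := by
  have hx : x ∈ Icc x x' := ⟨le_rfl, hle⟩
  have hx' : x' ∈ Icc x x' := ⟨hle, le_rfl⟩
  by_cases h : 0 < (D.P x).re
  · rw [cst, cst, if_pos h, if_pos (Seg_sign hP hx hx' h)]
    refine Seg_lin hX hle hP imCLM fun s hs => ?_
    have h1 : (D.G s).im = 0 := by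
      rw [hD.G_eq (hP s hs), mul_im, Y_im (Seg_sign hP hx hs h), R_im]
      simp
    simp [div_im, inv_im, h1]
  · rw [cst, cst, if_neg h, if_neg fun h' => h (Seg_sign hP hx' hx h')]
    refine Seg_lin hX hle hP reCLM fun s hs => ?_
    have h2 : (D.P s).re < 0 :=
      lt_of_le_of_ne (not_lt.1 fun h' => h (Seg_sign hP hs hx h')) (Seg_re_ne (hP s hs))
    have h1 : (D.G s).re = 0 := by
      rw [hD.G_eq (hP s hs), mul_re, Y_re h2, R_im]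
      simp
    simp [div_re, inv_re, h1]

theorem Pre.sol (hX : D.Pre X)
    (hc : ∀ x x' : ℝ, D.P x ≠ 0 → D.P x' ≠ 0 → (0 < (D.P x).re ↔ 0 < (D.P x').re) →
      D.cst X x = D.cst X x') : ∃ X', D.Sol X' := by
  have hne : ∀ x : ℝ, (D.P x).re ≠ 0 → D.P x ≠ 0 := fun x h h0 => h (by rw [h0, zero_re])
  have h2 : ∃ c₂ : ℝ, ∀ x : ℝ, 0 < (D.P x).re → (X x).im = c₂ := by
    by_cases h : ∃ x : ℝ, 0 < (D.P x).re
    · obtain ⟨x₀, h₀⟩ := h
      refine ⟨(X x₀).im, fun x hx => ?_⟩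
      have := hc x x₀ (hne x hx.ne') (hne x₀ h₀.ne') (iff_of_true hx h₀)
      rwa [cst, cst, if_pos hx, if_pos h₀] at this
    · exact ⟨0, fun x hx => absurd ⟨x, hx⟩ h⟩
  have h1 : ∃ c₁ : ℝ, ∀ x : ℝ, (D.P x).re < 0 → (X x).re = c₁ := by
    by_cases h : ∃ x : ℝ, (D.P x).re < 0
    · obtain ⟨x₀, h₀⟩ := h
      refine ⟨(X x₀).re, fun x hx => ?_⟩
      have := hc x x₀ (hne x hx.ne) (hne x₀ h₀.ne) (iff_of_false hx.le.not_gt h₀.le.not_gt)
      rwa [cst, cst, if_neg hx.le.not_gt, if_neg h₀.le.not_gt] at this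
    · exact ⟨0, fun x hx => absurd ⟨x, hx⟩ h⟩
  obtain ⟨c₁, h1⟩ := h1
  obtain ⟨c₂, h2⟩ := h2
  refine ⟨fun t => X t - ((c₁ : ℂ) + c₂ * I), ⟨hX.cont.sub continuousOn_const,
    fun t ht => (hX.der t ht).sub_const _⟩, fun x hx => ?_, fun x hx => ?_⟩
  · simp [h2 x hx]
  · simp [h1 x hx]

end Dat

end Pool.Agent.MP_92463a_gt
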