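import Pool.Agent.MP_92463a_gt.WPre
import Pool.Agent.MP_92463a_gt.Seg
import Pool.Agent.MP_92463a_gt.Chain
import Pool.Agent.MP_92463a_gt.Geo
import Pool.Agent.MP_92463a_gt.DatC
import Pool.Agent.MP_efb2da_gt.Contract

open Set Complex Filter Metric
open scoped Topology ComplexConjugate ContDiff Manifold

noncomputable section

namespace Pool.Agent.MP_92463a_gt

theorem WSeg_ne {D : Dat} (hD : D.Ok) {s : Sg} {x x' : ℝ} (hx : D.InS s x) (hx' : D.InS s x') :
    ∀ y ∈ Icc x x', D.P y ≠ 0 := by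
  rcases s with ⟨_ | _, k⟩
  · have h : D.InA k x := by simpa [Dat.InS] using hx
    have h' : D.InA k x' := by simpa [Dat.InS] using hx'
    exact hD.seg_pos h.1 h.2.1 h'.2.2
  · have h : D.InB k x := by simpa [Dat.InS] using hx
    have h' : D.InB k x' := by simpa [Dat.InS] using hx'
    exact hD.seg_neg h'.1 h'.2.1 h.2.2

theorem Dat.Ok.inS_sign {D : Dat} (hD : D.Ok) {s : Sg} (hs : s.Val D.p D.q) {x : ℝ}
    (hx : D.InS s x) : D.P x ≠ 0 ∧ (0 < (D.P x).re ↔ s.ty = true) := by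
  refine ⟨WSeg_ne hD hx hx x ⟨le_rfl, le_rfl⟩, ?_⟩
  rcases s with ⟨_ | _, k⟩
  · have h : D.InA k x := by simpa [Dat.InS] using hx
    have hk : k ≤ D.p := by simpa [Sg.Val] using hs
    have h3 := (hD.sign_pos h.1 hk h.2.1 h.2.2).1
    rcases Chain_sg k with ⟨h4, h5⟩ | ⟨h4, h5⟩ <;> rw [h5] at h3
    · exact iff_of_true (by linarith) (by simpa [Sg.ty] using h4)
    · exact iff_of_false (by linarith) (by simpa [Sg.ty] using h4)
  · have h : D.InB k x := by simpa [Dat.InS] using hx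
    have hk : k ≤ D.q := by simpa [Sg.Val] using hs
    have h3 := (hD.sign_neg h.1 hk h.2.1 h.2.2).1
    rcases Chain_sg k with ⟨h4, h5⟩ | ⟨h4, h5⟩ <;> rw [h5] at h3
    · exact iff_of_false (by linarith) (by simpa [Sg.ty] using h4)
    · exact iff_of_true (by linarith) (by simpa [Sg.ty] using h4)

theorem Dat.Ok.exists_inS {D : Dat} (hD : D.Ok) {x : ℝ} (hx : D.P x ≠ 0) :
    ∃ s : Sg, s.Val D.p D.q ∧ D.InS s x := by
  have h0 : x ≠ 0 := fun h => Dat.Seg_ne hx (by rw [h, ofReal_zero])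
  rcases lt_or_gt_of_ne h0 with h | h
  · obtain ⟨k, hk, h1, h2⟩ := hD.exists_neg h hx
    exact ⟨(true, k), by simpa [Sg.Val] using hk, by
      simp only [Dat.InS, if_true]; exact ⟨h, h1, h2⟩⟩
  · obtain ⟨k, hk, h1, h2⟩ := hD.exists_pos h hx
    exact ⟨(false, k), by simpa [Sg.Val] using hk, by
      simp only [Dat.InS, Bool.false_eq_true, if_false]; exact ⟨h, h1, h2⟩⟩

theorem WSeg_chain {D : Dat} (hD : D.Ok) {X : ℂ → ℂ} {O : ℝ → Prop}
    (seg : ∀ s x x', D.InS s x → D.InS s x' → O x → O x' → D.cst X x = D.cst X x') {J : Type}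
    {su sv : J → Sg} {u v : J → ℝ}
    (val : ∀ i, (su i).Val D.p D.q ∧ (sv i).Val D.p D.q ∧ (sv i).ty = (su i).ty)
    (mem : ∀ i, D.InS (su i) (u i) ∧ D.InS (sv i) (v i) ∧ v i < u i)
    (chain : ∀ α : Sg → ℝ, (∀ i, α (su i) = α (sv i)) →
      ∀ s s' : Sg, s.Val D.p D.q → s'.Val D.p D.q → s.ty = s'.ty → α s = α s')
    (hO : ∀ i, O (u i) ∧ O (v i))
    (hL : ∀ i, (if (su i).ty then im else re) (X (v i) - X (u i)) = 0) :
    ∃ c : ℂ, (∀ x : ℝ, O x → 0 < (D.P x).re → (X x - c).im = 0) ∧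
      ∀ x : ℝ, O x → (D.P x).re < 0 → (X x - c).re = 0 := by
  classical
  let α : Sg → ℝ := fun s => if h : ∃ x, D.InS s x ∧ O x then D.cst X h.choose else 0
  have hα : ∀ s x, D.InS s x → O x → α s = D.cst X x := fun s x h1 h2 => by
    have h : ∃ x, D.InS s x ∧ O x := ⟨x, h1, h2⟩
    simp only [α, dif_pos h]
    exact seg s _ _ h.choose_spec.1 h1 h.choose_spec.2 h2
  have key := chain α fun i => by
    rw [hα _ _ (mem i).1 (hO i).1, hα _ _ (mem i).2.1 (hO i).2]
    have h1 := (hD.inS_sign (val i).1 (mem i).1).2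
    have h2 := (hD.inS_sign (val i).2.1 (mem i).2.1).2
    rw [(val i).2.2] at h2
    have h3 := hL i
    by_cases h : (su i).ty = true
    · rw [if_pos h, sub_im] at h3
      rw [Dat.cst, Dat.cst, if_pos (h1.2 h), if_pos (h2.2 h)]
      linarith
    · rw [if_neg h, sub_re] at h3
      rw [Dat.cst, Dat.cst, if_neg (fun h' => h (h1.1 h')), if_neg (fun h' => h (h2.1 h'))]
      linarith
  have hne : ∀ x : ℝ, (D.P x).re ≠ 0 → D.P x ≠ 0 := fun x h h0 => h (by rw [h0, zero_re])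
  have hc : ∀ x x' : ℝ, O x → O x' → (D.P x).re ≠ 0 → (D.P x').re ≠ 0 →
      (0 < (D.P x).re ↔ 0 < (D.P x').re) → D.cst X x = D.cst X x' := by
    intro x x' o o' h h' hi
    obtain ⟨s, a, b⟩ := hD.exists_inS (hne x h)
    obtain ⟨s', a', b'⟩ := hD.exists_inS (hne x' h')
    rw [← hα s x b o, ← hα s' x' b' o']
    refine key s s' a a' (Bool.eq_iff_iff.2 ?_)
    rw [← (hD.inS_sign a b).2, ← (hD.inS_sign a' b').2]
    exact hi
  have h2 : ∃ c₂ : ℝ, ∀ x : ℝ, O x → 0 < (D.P x).re → (X x).im = c₂ := by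
    by_cases h : ∃ x : ℝ, O x ∧ 0 < (D.P x).re
    · obtain ⟨x₀, o₀, h₀⟩ := h
      refine ⟨(X x₀).im, fun x o hx => ?_⟩
      have := hc x x₀ o o₀ hx.ne' h₀.ne' (iff_of_true hx h₀)
      rwa [Dat.cst, Dat.cst, if_pos hx, if_pos h₀] at this
    · exact ⟨0, fun x o hx => absurd ⟨x, o, hx⟩ h⟩
  have h1 : ∃ c₁ : ℝ, ∀ x : ℝ, O x → (D.P x).re < 0 → (X x).re = c₁ := by
    by_cases h : ∃ x : ℝ, O x ∧ (D.P x).re < 0
    · obtain ⟨x₀, o₀, h₀⟩ := h
      refine ⟨(X x₀).re, fun x o hx => ?_⟩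
      have := hc x x₀ o o₀ hx.ne h₀.ne (iff_of_false hx.le.not_gt h₀.le.not_gt)
      rwa [Dat.cst, Dat.cst, if_neg hx.le.not_gt, if_neg h₀.le.not_gt] at this
    · exact ⟨0, fun x o hx => absurd ⟨x, o, hx⟩ h⟩
  obtain ⟨c₁, h1⟩ := h1
  obtain ⟨c₂, h2⟩ := h2
  exact ⟨(c₁ : ℂ) + c₂ * I, fun x o hx => by simp [h2 x o hx], fun x o hx => by simp [h1 x o hx]⟩

theorem WSeg_half {g : ℝ → ℂ} (hg : Continuous g) (hs : ∀ θ, g (-θ) = conj (g θ))
    (h0 : ∫ θ in (-Real.pi)..Real.pi, g θ = 0) : (∫ θ in (0 : ℝ)..Real.pi, g θ).re = 0 := by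
  have h1 := intervalIntegral.integral_add_adjacent_intervals (μ := MeasureTheory.volume)
    (hg.intervalIntegrable (-Real.pi) 0) (hg.intervalIntegrable 0 Real.pi)
  have h2 : ∫ θ in (-Real.pi)..0, g θ = conj (∫ θ in (0 : ℝ)..Real.pi, g θ) := by
    have := intervalIntegral.integral_comp_neg (a := 0) (b := Real.pi) g
    rw [neg_zero] at this
    rw [← this]
    simp only [hs]
    exact (conjCLE : ℂ →L[ℝ] ℂ).intervalIntegral_comp_comm (hg.intervalIntegrable 0 Real.pi)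
  rw [h0, h2] at h1
  have h3 := congrArg re h1
  simp only [add_re, conj_re, zero_re] at h3
  linarith

namespace Wd

variable {ι : Type} [Fintype ι] {W : Wd ι} {X : ℂ → ℂ}

theorem WSeg_lin (h : W.Ok1) (hX : W.Pre X) {x x' : ℝ} (hle : x ≤ x')
    (hP : ∀ s ∈ Icc x x', W.D.P s ≠ 0) (hO : ∀ s ∈ Icc x x', (s : ℂ) ∈ W.Om) :
    W.D.cst X x = W.D.cst X x' := by
  have hp := hX.pathP h
  have hm : ∀ s ∈ uIcc x x', (s : ℂ) ∈ W.Qr := fun s hs => by
    rw [uIcc_of_le hle] at hs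
    exact ⟨by simp, hP s hs, hO s hs⟩
  have h1 := hp.ftc (fun s : ℝ => (s : ℂ)) (fun _ => 1) x x'
    (fun s _ => ofRealCLM.hasDerivAt (x := s)) continuousOn_const hm
  have hi : IntervalIntegrable (fun s : ℝ => W.F1 s * 1 - conj (W.F2 s * 1))
      MeasureTheory.volume x x' := by
    refine ContinuousOn.intervalIntegrable ?_
    exact ((hp.c₁.comp continuous_ofReal.continuousOn hm).mul continuousOn_const).sub
      (continuous_conj.comp_continuousOn
        ((hp.c₂.comp continuous_ofReal.continuousOn hm).mul continuousOn_const))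
  have key : ∀ L : ℂ →L[ℝ] ℝ, (∀ s ∈ Icc x x', L (W.F1 s * 1 - conj (W.F2 s * 1)) = 0) →
      L (X x) = L (X x') := fun L hL => by
    have h2 := L.intervalIntegral_comp_comm hi
    rw [← h1, map_sub, intervalIntegral.integral_congr (g := fun _ => 0)] at h2
    · simp only [intervalIntegral.integral_zero] at h2
      linarith
    · intro s hs
      rw [uIcc_of_le hle] at hs
      exact hL s hs
  have hψ : ∀ s ∈ Icc x x', (W.ψ₁ s).im = 0 ∧ (W.ψ₂ s).im = 0 := fun s hs => by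
    have a := h.ψ₁_conj (hO s hs)
    have b := h.ψconj _ (hO s hs)
    rw [conj_ofReal] at a b
    exact ⟨conj_eq_iff_im.1 a.symm, conj_eq_iff_im.1 b.symm⟩
  have hx : x ∈ Icc x x' := ⟨le_rfl, hle⟩
  have hx' : x' ∈ Icc x x' := ⟨hle, le_rfl⟩
  by_cases h0 : 0 < (W.D.P x).re
  · rw [Dat.cst, Dat.cst, if_pos h0, if_pos (Dat.Seg_sign hP hx hx' h0)]
    refine key imCLM fun s hs => ?_
    have h1 : (W.D.G s).im = 0 := by
      rw [h.d.G_eq (hP s hs), mul_im, Dat.Y_im (Dat.Seg_sign hP hx hs h0), Dat.R_im]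
      simp
    simp [F1, F2, div_im, inv_im, h1, pow_two, (hψ s hs).1, (hψ s hs).2]
  · rw [Dat.cst, Dat.cst, if_neg h0, if_neg fun h' => h0 (Dat.Seg_sign hP hx' hx h')]
    refine key reCLM fun s hs => ?_
    have h2 : (W.D.P s).re < 0 := lt_of_le_of_ne
      (not_lt.1 fun h' => h0 (Dat.Seg_sign hP hs hx h')) (Dat.Seg_re_ne (hP s hs))
    have h1 : (W.D.G s).re = 0 := by
      rw [h.d.G_eq (hP s hs), mul_re, Dat.Y_re h2, Dat.R_im]
      simp
    simp [F1, F2, div_re, inv_re, h1, pow_two, (hψ s hs).1, (hψ s hs).2]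

theorem WSeg_cross (h : W.Ok1) (hX : W.Pre X) {e : ι × Bool} (he : W.Mid e.1)
    (hA : W.rs W.f1 e + conj (W.rs W.f2 e) = 0) {R : ℝ} (h1 : W.rin e < R)
    (h2 : R < 2 * W.ρ e) : (X (W.c e - R)).re = (X (W.c e + R)).re := by
  have hr := h.pl.rin_pos e
  have hR : 0 < R := hr.trans h1
  have hn : ∀ θ : ℝ, ‖(R : ℂ) * exp (θ * I)‖ = R := fun θ => by
    rw [norm_mul, norm_exp_ofReal_mul_I, norm_real, Real.norm_of_nonneg hR.le, mul_one]
  have ha : ∀ θ : ℝ, (R : ℂ) * exp (θ * I) ∈ W.Ann2 e := fun θ =>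
    ⟨by rw [hn]; exact h1, by rw [hn]; exact h2⟩
  have hc : (W.c e).im = 0 := he.2.1 e.2
  have hi : ∀ θ ∈ uIcc 0 Real.pi, 0 ≤ (W.c e + R * exp (θ * I)).im := fun θ hθ => by
    rw [uIcc_of_le Real.pi_pos.le] at hθ
    rw [add_im, hc, zero_add, im_ofReal_mul, exp_ofReal_mul_I_im]
    exact mul_nonneg hR.le (Real.sin_nonneg_of_nonneg_of_le_pi hθ.1 hθ.2)
  have h3 := (hX.pathP h).arc (x₀ := W.c e) (R := R) (a := 0) (b := Real.pi) fun θ hθ =>
    ⟨hi θ hθ, h.free e _ (mem_ball_zero_iff.2 (ha θ).2), h.pl.ann2_mem (ha θ)⟩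
  have hcv : Continuous fun θ : ℝ => (R : ℂ) * exp (θ * I) := by fun_prop
  have hcf : ∀ {φ}, W.MF φ → Continuous fun θ : ℝ =>
      φ e (R * exp (θ * I)) * (R * exp (θ * I)) := fun hφ =>
    ((hφ.hol e).continuousOn.comp_continuous hcv ha).mul hcv
  have hav : ∀ {φ}, W.MF φ → ∫ θ in (-Real.pi)..Real.pi,
      φ e (R * exp (θ * I)) * (R * exp (θ * I)) = 2 * Real.pi * W.rs φ e := fun {φ} hφ => by
    have hρ := h.pl.ρ_pos e
    rw [av_eq_integral (f := fun v => φ e v * v), Pl.rs,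
      av_radius (f := fun v => φ e v * v) (R' := W.ρ e) hr.le
        ((hφ.hol e).mul differentiableOn_id) h1 h2
        (by linarith [h.pl.rin_mu e, h.pl.mu_ρ e]) (by linarith)]
  have c1 : Continuous fun θ : ℝ => W.f1 e (R * exp (θ * I)) * (R * exp (θ * I)) * I :=
    (hcf h.m1).mul continuous_const
  have c2 : Continuous fun θ : ℝ => W.f2 e (R * exp (θ * I)) * (R * exp (θ * I)) * I :=
    (hcf h.m2).mul continuous_const
  have c3 : Continuous fun θ : ℝ => conj (W.f2 e (R * exp (θ * I)) * (R * exp (θ * I)) * I) :=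
    continuous_conj.comp c2
  have h4 := WSeg_half (g := fun θ : ℝ => W.f1 e (R * exp (θ * I)) * (R * exp (θ * I)) * I -
      conj (W.f2 e (R * exp (θ * I)) * (R * exp (θ * I)) * I)) (c1.sub c3)
    (fun θ => by
      have a := h.f_conj (ha θ)
      have b : conj ((R : ℂ) * exp (θ * I)) = R * exp ((-θ : ℝ) * I) := by
        rw [map_mul, conj_ofReal, ← exp_conj]
        simp
      rw [he.1] at a
      have a1 : W.f1 e _ = _ := a.1
      have a2 : W.f2 e _ = _ := a.2.1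
      simp only [← b]
      rw [a1, a2]
      simp only [map_sub, map_mul, map_neg, conj_conj, conj_I]
      ring)
    (by
      rw [intervalIntegral.integral_sub (c1.intervalIntegrable _ _) (c3.intervalIntegrable _ _)]
      have a := (conjCLE : ℂ →L[ℝ] ℂ).intervalIntegral_comp_comm (μ := MeasureTheory.volume)
        (c2.intervalIntegrable (-Real.pi) Real.pi)
      simp only [ContinuousLinearEquiv.coe_coe, conjCLE_apply] at a
      rw [a, intervalIntegral.integral_mul_const, intervalIntegral.integral_mul_const,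
        hav h.m1, hav h.m2]
      simp only [map_mul, conj_ofReal, conj_I, map_ofNat]
      linear_combination 2 * Real.pi * I * hA)
  have h5 : arcI W.F1 W.F2 (W.c e) R 0 Real.pi = ∫ θ in (0 : ℝ)..Real.pi,
      (W.f1 e (R * exp (θ * I)) * (R * exp (θ * I)) * I -
        conj (W.f2 e (R * exp (θ * I)) * (R * exp (θ * I)) * I)) := by
    refine intervalIntegral.integral_congr fun θ hθ => ?_
    have a := h.f_eq (ha θ).2 (hi θ hθ)
    simp only [a.1, a.2, mul_assoc]
  rw [← h5, ← h3, exp_pi_mul_I, sub_re] at h4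
  simp only [ofReal_zero, zero_mul, exp_zero, mul_one, mul_neg, ← sub_eq_add_neg] at h4
  linarith

theorem WSeg_ind (h : W.Ok1) (hX : W.Pre X)
    (hA : ∀ k, W.Mid k → W.rs W.f1 (k, false) + conj (W.rs W.f2 (k, false)) = 0)
    (T : Finset (ι × Bool)) : ∀ x x' : ℝ, x ≤ x' → (∀ s ∈ Icc x x', W.D.P s ≠ 0) →
      (x : ℂ) ∈ W.Om → (x' : ℂ) ∈ W.Om →
      (∀ e, W.Mid e.1 → x < (W.c e).re → (W.c e).re < x' → e ∈ T) →
      W.D.cst X x = W.D.cst X x' := by
  classical
  induction T using Finset.induction_on with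
  | empty =>
    intro x x' hle hP hO hO' hT
    refine WSeg_lin h hX hle hP fun s hs e => ?_
    have hρ := h.pl.ρ_pos e
    have hr : W.rin e < 2 * W.ρ e := by linarith [h.pl.rin_mu e, h.pl.mu_ρ e, h.pl.rin_pos e]
    have hi := abs_im_le_norm ((s : ℂ) - W.c e)
    rw [sub_im, ofReal_im, zero_sub, abs_neg] at hi
    rcases h.pos e.1 with hm | hm | hm
    · have hc : W.c e = ((W.c e).re : ℂ) := Complex.ext rfl (hm.2.1 e.2)
      have a := hO e
      have b := hO' e
      rw [hc, ← ofReal_sub, norm_real, Real.norm_eq_abs] at a b ⊢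
      by_cases h1 : x < (W.c e).re
      · have h2 : x' ≤ (W.c e).re := not_lt.1 fun h2 => Finset.notMem_empty _ (hT e hm h1 h2)
        rw [abs_of_nonpos (by linarith)] at b
        rw [abs_of_nonpos (by linarith [hs.2])]
        linarith [hs.2]
      · rw [abs_of_nonneg (by linarith)] at a
        rw [abs_of_nonneg (by linarith [hs.1])]
        linarith [hs.1]
    · exact hr.trans_le ((hm e.2).trans ((le_abs_self _).trans hi))
    · have := hm e.2
      exact hr.trans_le (le_trans (by linarith) ((neg_le_abs _).trans hi))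
  | insert e T _ ih =>
    intro x x' hle hP hO hO' hT
    by_cases he : W.Mid e.1 ∧ x < (W.c e).re ∧ (W.c e).re < x'
    · obtain ⟨hm, h1, h2⟩ := he
      have hρ := h.pl.ρ_pos e
      have hr0 := h.pl.rin_pos e
      have hr : W.rin e < W.ρ e := by linarith [h.pl.rin_mu e, h.pl.mu_ρ e]
      have hc : W.c e = ((W.c e).re : ℂ) := Complex.ext rfl (hm.2.1 e.2)
      have a := hO e
      have b := hO' e
      rw [hc, ← ofReal_sub, norm_real, Real.norm_eq_abs] at a b
      rw [abs_of_nonpos (by linarith)] at a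
      rw [abs_of_nonneg (by linarith)] at b
      obtain ⟨R, r1, r2, r3, r4⟩ : ∃ R, W.rin e < R ∧ R ≤ W.ρ e ∧ R ≤ (W.c e).re - x ∧
          R ≤ x' - (W.c e).re :=
        ⟨min (W.ρ e) (min ((W.c e).re - x) (x' - (W.c e).re)), lt_min hr (lt_min (by linarith) b),
          min_le_left _ _, (min_le_right _ _).trans (min_le_left _ _),
          (min_le_right _ _).trans (min_le_right _ _)⟩
      have hn : ‖(R : ℂ)‖ = R := by rw [norm_real, Real.norm_of_nonneg (by linarith)]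
      have e1 : (((W.c e).re - R : ℝ) : ℂ) = W.c e - R := by rw [ofReal_sub, ← hc]
      have e2 : (((W.c e).re + R : ℝ) : ℂ) = W.c e + R := by rw [ofReal_add, ← hc]
      have o1 : (((W.c e).re - R : ℝ) : ℂ) ∈ W.Om := by
        rw [e1, sub_eq_add_neg]
        exact h.pl.ann2_mem ⟨by rw [norm_neg, hn]; exact r1, by rw [norm_neg, hn]; linarith⟩
      have o2 : (((W.c e).re + R : ℝ) : ℂ) ∈ W.Om := by
        rw [e2]
        exact h.pl.ann2_mem ⟨by rw [hn]; exact r1, by rw [hn]; linarith⟩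
      have n1 := h.mid_neg hm (x := (W.c e).re - R)
        (by rw [e1, sub_sub_cancel_left, norm_neg, hn]; linarith)
      have n2 := h.mid_neg hm (x := (W.c e).re + R)
        (by rw [e2, add_sub_cancel_left, hn]; linarith)
      have hA' : W.rs W.f1 e + conj (W.rs W.f2 e) = 0 := by
        rcases e with ⟨k, _ | _⟩
        · exact hA k hm
        · have p1 := h.m1.rs_op h.pl (k, false)
          have p2 := h.m2.rs_op h.pl (k, false)
          simp only [op, Bool.not_false] at p1 p2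
          rw [p1, p2, map_neg]
          linear_combination -hA k hm
      rw [ih x _ (by linarith) (fun s hs => hP s ⟨hs.1, by linarith [hs.2]⟩) hO o1
          fun e' m l1 l2 => (Finset.mem_insert.1 (hT e' m l1 (by linarith))).resolve_left
            fun hh => by rw [hh] at l2; linarith,
        ← ih _ x' (by linarith) (fun s hs => hP s ⟨by linarith [hs.1], hs.2⟩) o2 hO'
          fun e' m l1 l2 => (Finset.mem_insert.1 (hT e' m (by linarith) l2)).resolve_left
            fun hh => by rw [hh] at l1; linarith,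
        Dat.cst, Dat.cst, if_neg n1.le.not_gt, if_neg n2.le.not_gt, e1, e2]
      exact WSeg_cross h hX hm hA' r1 (by linarith)
    · exact ih x x' hle hP hO hO' fun e' m l1 l2 =>
        (Finset.mem_insert.1 (hT e' m l1 l2)).resolve_left fun hh => he (hh ▸ ⟨m, l1, l2⟩)

theorem Pre.seg (h : W.Ok1) (hX : W.Pre X)
    (hA : ∀ k, W.Mid k → W.rs W.f1 (k, false) + conj (W.rs W.f2 (k, false)) = 0) {s : Sg}
    {x x' : ℝ} (hx : W.D.InS s x) (hx' : W.D.InS s x') (hO : (x : ℂ) ∈ W.Om)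
    (hO' : (x' : ℂ) ∈ W.Om) : W.D.cst X x = W.D.cst X x' := by
  rcases le_total x x' with hle | hle
  · exact WSeg_ind h hX hA Finset.univ x x' hle (WSeg_ne h.d hx hx') hO hO'
      fun _ _ _ _ => Finset.mem_univ _
  · exact (WSeg_ind h hX hA Finset.univ x' x hle (WSeg_ne h.d hx' hx) hO' hO
      fun _ _ _ _ => Finset.mem_univ _).symm

theorem Ok1.solX (h : W.Ok1)
    (hA : ∀ k, ¬ W.Low k → W.rs W.f1 (k, false) + conj (W.rs W.f2 (k, false)) = 0) {J : Type}
    {su sv : J → Sg} {u v : J → ℝ}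
    (val : ∀ i, (su i).Val W.D.p W.D.q ∧ (sv i).Val W.D.p W.D.q ∧ (sv i).ty = (su i).ty)
    (mem : ∀ i, W.D.InS (su i) (u i) ∧ W.D.InS (sv i) (v i) ∧ v i < u i)
    (chain : ∀ α : Sg → ℝ, (∀ i, α (su i) = α (sv i)) →
      ∀ s s' : Sg, s.Val W.D.p W.D.q → s'.Val W.D.p W.D.q → s.ty = s'.ty → α s = α s')
    (hO : ∀ i, ∀ θ ∈ Icc 0 Real.pi, ((u i + v i) / 2 + (u i - v i) / 2 * exp (θ * I) : ℂ) ∈ W.Om)
    (hL : ∀ i, Lk W.F1 W.F2 (su i).ty (u i) (v i) = 0) : ∃ X, W.SolX X := by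
  obtain ⟨X, hX⟩ := h.exists_pre fun k hk => hA k fun hl => by
    linarith [hk false, hl false, h.pl.ρ_pos (k, false)]
  have hM : ∀ k, W.Mid k → W.rs W.f1 (k, false) + conj (W.rs W.f2 (k, false)) = 0 :=
    fun k hk => hA k fun hl => by linarith [hk.2.1 false, hl false, h.pl.ρ_pos (k, false)]
  obtain ⟨c, h1, h2⟩ := WSeg_chain h.d (X := X) (O := fun x => (x : ℂ) ∈ W.Om)
    (fun s x x' a b o o' => hX.seg h hM a b o o') val mem chain (fun i => by
      have a := hO i 0 ⟨le_rfl, Real.pi_pos.le⟩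
      have b := hO i Real.pi ⟨Real.pi_pos.le, le_rfl⟩
      rw [exp_pi_mul_I] at b
      simp only [ofReal_zero, zero_mul, exp_zero] at a
      exact ⟨by convert a using 1; ring, by convert b using 1; ring⟩) fun i => by
      rw [← (hX.pathP h).lk (su i).ty fun θ hθ => ?_, hL i]
      have a := Dat.Ok.semi (h.d.inS_ne (mem i).1) (h.d.inS_ne (mem i).2.1) (mem i).2.2 hθ
      exact ⟨a.1, a.2, hO i θ hθ⟩
  exact ⟨fun t => X t - c, ⟨hX.cont.sub continuousOn_const,
    fun t ht hi => (hX.der t ht hi).sub_const _⟩, h1, h2⟩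

end Wd

theorem Fam.realized {J : Type} [Fintype J] {p q : ℕ} (F : Fam J p q) :
    Realized ((p + q) / 2) (q + 2) := by
  obtain ⟨x, hx, h0⟩ := MP_efb2da_gt.miranda
    (fun x i => ∑ j, F.A x i j * Lk (F.D x).F1 (F.D x).F2 (F.su j).ty (F.u j x) (F.v j x))
    (continuousOn_pi.2 fun i => continuousOn_finsetSum _ fun j _ =>
      (F.cA i j).mul (F.lk_cont j)) F.face
  have hL := F.inj x hx _ fun i => congrFun h0 i
  obtain ⟨hD, hp, hq⟩ := F.ok x hx
  obtain ⟨X, hX⟩ := hD.exists_pre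
  obtain ⟨c, h1, h2⟩ := WSeg_chain hD (X := X) (O := fun _ => True) (su := F.su) (sv := F.sv)
    (u := fun i => F.u i x) (v := fun i => F.v i x)
    (fun s y y' a b _ _ => (le_total y y').elim (fun hle => hX.seg hD hle (WSeg_ne hD a b))
      fun hle => (hX.seg hD hle (WSeg_ne hD b a)).symm) (by rw [hp, hq]; exact F.val)
    (fun i => F.mem i x hx) (by rw [hp, hq]; exact F.chain) (fun _ => ⟨trivial, trivial⟩)
    fun i => by
      have m := F.mem i x hx
      rw [← (hX.pathP hD).lk (F.su i).ty fun θ hθ =>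
        Dat.Ok.semi (hD.inS_ne m.1) (hD.inS_ne m.2.1) m.2.2 hθ]
      exact congrFun hL i
  have hS : (F.D x).Sol fun t => X t - c := ⟨⟨hX.cont.sub continuousOn_const,
    fun t ht => (hX.der t ht).sub_const _⟩, fun y => h1 y trivial, fun y => h2 y trivial⟩
  have := hS.realized hD
  rwa [hp, hq] at this

end Pool.Agent.MP_92463a_gt
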