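import Pool.Agent.MP_92463a_gt.CfD
import Pool.Agent.MP_92463a_gt.WH
import Pool.Agent.MP_92463a_gt.WSeg

open Set Complex Filter Metric
open scoped Topology ComplexConjugate ContDiff Manifold

noncomputable section

namespace Pool.Agent.MP_92463a_gt

theorem CfL2_sign {D : Dat} (hD : D.Ok) {j : ℕ} (hj : j < D.q) {R : ℝ} (h0 : 0 < R)
    (hR : R < D.b 0) : sg j * (D.P ((-D.b j + R : ℝ) : ℂ)).re < 0 ∧
      sg (j + 1) * (D.P ((-D.b j - R : ℝ) : ℂ)).re < 0 := by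
  have hb := hD.b0_le hj
  have hp : ∀ i < D.q, 0 < D.b i := hD.b_pos
  have h00 := hp 0 (by omega)
  refine ⟨(hD.sign_neg (by linarith) hj.le (fun i hi => ?_) fun i h1 h2 => ?_).1,
    (hD.sign_neg (by linarith) hj (fun i hi => ?_) fun i h1 h2 => ?_).1⟩
  · linarith [hD.b_gap i j hi hj, hp i (hi.trans hj), hD.b0_le (hi.trans hj)]
  · rcases h1.eq_or_lt with h | h
    · subst h; linarith
    · linarith [hD.b_gap j i h h2]
  · rcases (Nat.lt_succ_iff.1 hi).eq_or_lt with h | h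
    · subst h; linarith
    · linarith [hD.b_gap i j h hj, hp i (h.trans hj)]
  · linarith [hD.b_gap j i h1 h2]

namespace Cfg

variable {γ : ℕ} {C : Cfg γ}

theorem Fine.XM_eq (h : C.Fine) {X : ℂ → ℂ} (hX : C.wd.SolX X) {k : Fin γ}
    (hk : γ ≤ 2 * (k : ℕ) + 1) (b : Bool) : X (C.wp (k, b)) = C.XM (k, b) := by
  have g := h.toGood.g0
  have hP := hX.toPre.pathP h.toGood.ok1
  have hb := (g.toAdm.bb b).1
  have hτ := g.τ (k, b)
  have h0 : 0 < ‖C.τ (k, b)‖ := norm_pos_iff.2 (τ_ne _)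
  have hδ : 2 * ‖C.τ (k, b)‖ < C.D.b 0 / 2 := by linarith
  have hS : ∀ θ ∈ Icc 0 Real.pi,
      (-C.bb b + ((2 * ‖C.τ (k, b)‖ : ℝ) : ℂ) * exp (θ * I) : ℂ) ∈ C.wd.Qr :=
    fun θ hθ => (g.ss le_rfl (g.arc (e := (k, b)) hδ hθ)).1
  have hφ := (g.toAdm.lg_im hk b).1
  have e0 : (0 : ℝ) ∈ Icc 0 Real.pi := ⟨le_rfl, Real.pi_pos.le⟩
  have eπ : Real.pi ∈ Icc 0 Real.pi := ⟨Real.pi_pos.le, le_rfl⟩
  have A1 := hP.arc fun θ hθ => hS θ (uIcc_subset_Icc e0 hφ hθ)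
  have A2 := hP.arc fun θ hθ => hS θ (uIcc_subset_Icc eπ hφ hθ)
  have p1 : (-C.bb b + ((2 * ‖C.τ (k, b)‖ : ℝ) : ℂ) * exp ((C.lg (k, b)).im * I) : ℂ) =
      -C.bb b + 2 * C.τ (k, b) := by
    rw [ofReal_mul, mul_assoc, ← polar, ofReal_ofNat]
  have p2 : (-C.bb b + ((2 * ‖C.τ (k, b)‖ : ℝ) : ℂ) * exp ((0 : ℝ) * I) : ℂ) =
      ((-C.bb b + 2 * ‖C.τ (k, b)‖ : ℝ) : ℂ) := by simp
  have p3 : (-C.bb b + ((2 * ‖C.τ (k, b)‖ : ℝ) : ℂ) * exp (Real.pi * I) : ℂ) =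
      ((-C.bb b - 2 * ‖C.τ (k, b)‖ : ℝ) : ℂ) := by
    rw [exp_pi_mul_I]; push_cast; ring
  have o2 := (hS 0 e0).2.2
  have o3 := (hS _ eπ).2.2
  rw [p2] at o2 A1
  rw [p3] at o3 A2
  rw [p1] at A1 A2
  have A3 := hP.seg (t₀ := -C.bb b + 2 * C.τ (k, b)) (t₁ := C.wp (k, b)) fun x hx => by
    have := (g.ss le_rfl (h.seg hk hδ hx)).1
    convert this using 1
    simp only [wp, c]
    ring
  obtain ⟨s1, s2⟩ := CfL2_sign g.d (g.toAdm.jj_lt b) (R := 2 * ‖C.τ (k, b)‖) (by linarith)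
    (by linarith)
  cases b
  · have r1 := hX.re0 _ o2 (by simpa [sg, jj, bb, wd] using s1)
    have r2 := hX.im0 _ o3 (by simpa [sg, jj, bb, wd] using s2)
    simp only [XM, Bool.false_eq_true, if_false]
    rw [← A1, ← A2, ← A3, sub_re, sub_im, r1, r2, sub_zero, sub_zero, re_add_im]
    ring
  · have r1 := hX.im0 _ o2 (by simpa [sg, jj, bb, wd] using s1)
    have r2 := hX.re0 _ o3 (by simpa [sg, jj, bb, wd] using s2)
    simp only [XM, if_true]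
    rw [← A1, ← A2, ← A3, sub_re, sub_im, r1, r2, sub_zero, sub_zero, re_add_im]
    ring

theorem Fine.sol (h : C.Fine) (he : C.eq = 0) {J : Type} {su sv : J → Sg} {u v : J → ℝ}
    (val : ∀ i, (su i).Val C.D.p C.D.q ∧ (sv i).Val C.D.p C.D.q ∧ (sv i).ty = (su i).ty)
    (mem : ∀ i, C.D.InS (su i) (u i) ∧ C.D.InS (sv i) (v i) ∧ v i < u i)
    (chain : ∀ α : Sg → ℝ, (∀ i, α (su i) = α (sv i)) →
      ∀ s s' : Sg, s.Val C.D.p C.D.q → s'.Val C.D.p C.D.q → s.ty = s'.ty → α s = α s')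
    (hO : ∀ i, ∀ θ ∈ Icc 0 Real.pi,
      ((u i + v i) / 2 + (u i - v i) / 2 * exp (θ * I) : ℂ) ∈ C.wd.Om)
    (hL : ∀ i, Lk C.wd.F1 C.wd.F2 (su i).ty (u i) (v i) = 0) : ∃ X, C.wd.Sol X C.wd.hh := by
  have g := h.toGood.g0
  have o := h.toGood.ok1
  have hE := g.toAdm.E_pos
  have hL' : 0 < C.L := by linarith [g.L]
  have hb := (g.toAdm.bb false).1
  have hθ : ∀ k, C.θ0 k ≠ 0 := fun k => mul_ne_zero (mul_ne_zero I_ne_zero
    (ofReal_ne_zero.2 (mul_pos hb (Real.exp_pos _)).ne')) (exp_ne_zero _)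
  have hF : ∀ k, C.eF k = 0 := fun k => congrFun (congrArg Prod.fst he) k
  have hV : ∀ k, C.eV k = 0 := fun k => congrFun (congrArg (fun z => z.2.1) he) k
  have hA : ∀ k, C.eA k = 0 := fun k => congrFun (congrArg (fun z => z.2.2.1) he) k
  have hB : ∀ k, sy C.eB k = 0 := fun k => congrFun (congrArg (fun z => z.2.2.2) he) k
  have w : ∀ k, C.wd.c (k, true) + C.wd.s k / (C.τ (k, false) * C.vs k) = C.wp (k, true) :=
    fun k => congrArg (C.c (k, true) + ·) (g.s_div (k, false)).1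
  obtain ⟨X, hX⟩ := o.solX (fun k _ => by
    have a := (div_eq_zero_iff.1 (hF k)).resolve_right (mul_ne_zero (mul_ne_zero two_ne_zero (hθ k))
      (pow_ne_zero _ (ofReal_ne_zero.2 (div_pos hE hL').ne')))
    have r : C.pl.rs C.wd.f2 (k, true) = -C.pl.rs C.wd.f2 (k, false) :=
      o.m2.rs_op o.pl (k, false)
    rw [r, map_neg, sub_neg_eq_add] at a
    exact a) val mem chain hO hL
  refine ⟨X, hX.sol o (fun k => ?_) (fun k => ⟨_, (g.s_div (k, false)).2, ?_⟩)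
    fun k hk => ⟨_, (g.s_div (k, false)).2, ?_, ?_⟩⟩
  · exact (mul_eq_zero.1 (hA k)).resolve_left (neg_ne_zero.2 (div_pos hL' hE).ne')
  · rw [w]
    exact (sub_eq_zero.1 ((div_eq_zero_iff.1 (hV k)).resolve_right (by positivity))).symm
  · have := g.wp_im (not_lt.1 (mt (g.place k).2.2.2 hk)) false
    simpa [wd, pl, c] using this
  · have hk' : γ ≤ 2 * (k : ℕ) + 1 := not_lt.1 (mt (g.place k).2.2.2 hk)
    have a := hB k
    rw [sy, if_pos hk'] at a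
    rw [w, h.XM_eq hX hk' true]
    refine (h.XM_eq hX hk' false).trans (sub_eq_zero.1 ((div_eq_zero_iff.1 a).resolve_right ?_)).symm
    exact (map_ne_zero _).2 (div_ne_zero two_ne_zero (hθ k))

end Cfg

end Pool.Agent.MP_92463a_gt
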