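import Pool.Agent.MP_92463a_gt.PlB

open Set Complex Filter Metric
open scoped Topology ComplexConjugate ContDiff Manifold

noncomputable section

namespace Pool.Agent.MP_92463a_gt

theorem plc_polar {r₁ r₂ : ℝ} {A : Set ℝ} (hA : IsPreconnected A) :
    IsPreconnected ((fun z : ℝ × ℝ => (z.1 : ℂ) * exp (z.2 * I)) '' (Ioo r₁ r₂ ×ˢ A)) :=
  (isPreconnected_Ioo.prod hA).image _ (by fun_prop)

theorem plc_norm {r θ : ℝ} (h : 0 ≤ r) : ‖(r : ℂ) * exp (θ * I)‖ = r := by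
  rw [norm_mul, norm_exp_ofReal_mul_I, mul_one, norm_real, Real.norm_of_nonneg h]

theorem ann_preconn {r₁ r₂ : ℝ} (h : 0 ≤ r₁) : IsPreconnected {v : ℂ | r₁ < ‖v‖ ∧ ‖v‖ < r₂} := by
  convert plc_polar (r₁ := r₁) (r₂ := r₂) isPreconnected_univ using 1
  ext v
  constructor
  · intro hv
    exact ⟨(‖v‖, arg v), ⟨hv, trivial⟩, norm_mul_exp_arg_mul_I v⟩
  · rintro ⟨⟨r, θ⟩, ⟨hr, -⟩, rfl⟩
    simp only [mem_ofPred_eq, plc_norm (h.trans hr.1.le)]
    exact hr

theorem half_ann_preconn {r₁ r₂ : ℝ} (h : 0 ≤ r₁) :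
    IsPreconnected {v : ℂ | r₁ < ‖v‖ ∧ ‖v‖ < r₂ ∧ 0 < v.im} := by
  convert plc_polar (r₁ := r₁) (r₂ := r₂) (isPreconnected_Ioo (a := 0) (b := Real.pi)) using 1
  ext v
  constructor
  · rintro ⟨h1, h2, h3⟩
    refine ⟨(‖v‖, arg v), ⟨⟨h1, h2⟩, ?_, arg_lt_pi_iff.2 (Or.inr h3.ne')⟩,
      norm_mul_exp_arg_mul_I v⟩
    exact (arg_nonneg_iff.2 h3.le).lt_of_ne' fun h0 => h3.ne' (arg_eq_zero_iff.1 h0).2
  · rintro ⟨⟨r, θ⟩, ⟨hr, hθ⟩, rfl⟩
    simp only [mem_ofPred_eq, plc_norm (h.trans hr.1.le), im_ofReal_mul, exp_ofReal_mul_I_im]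
    exact ⟨hr.1, hr.2, mul_pos (h.trans_lt hr.1) (Real.sin_pos_of_pos_of_lt_pi hθ.1 hθ.2)⟩

theorem plc_diff {X : Type} [TopologicalSpace X] {U K N : Set X} (hU : IsPreconnected U)
    (hK : IsClosed K) (hN : IsOpen N) (hKN : K ⊆ N) (hNU : N ⊆ U) (h : IsPreconnected (N \ K)) :
    IsPreconnected (U \ K) := by
  have key : ∀ u v : Set X, IsOpen u → IsOpen v → U \ K ⊆ u ∪ v → (U \ K) ∩ (u ∩ v) = ∅ →
      N \ K ⊆ u → U \ K ⊆ u ∨ U \ K ⊆ v := by
    intro u v hu hv h1 h2 h3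
    have h4 := isPreconnected_iff_subset_of_disjoint.1 hU (u ∪ N) (v \ K) (hu.union hN)
      (hv.sdiff hK) (fun x hx => by
        by_cases hx' : x ∈ K
        · exact Or.inl (Or.inr (hKN hx'))
        · exact (h1 ⟨hx, hx'⟩).imp Or.inl fun h5 => ⟨h5, hx'⟩)
      (eq_empty_of_forall_notMem fun x ⟨hx, h5, h6, h7⟩ =>
        eq_empty_iff_forall_notMem.1 h2 x ⟨⟨hx, h7⟩, h5.elim id fun h8 => h3 ⟨h8, h7⟩, h6⟩)
    exact h4.imp (fun h5 x hx => (h5 hx.1).elim id fun h8 => h3 ⟨h8, hx.2⟩)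
      fun h5 x hx => (h5 hx.1).1
  refine isPreconnected_iff_subset_of_disjoint.2 fun u v hu hv h1 h2 => ?_
  have hs : N \ K ⊆ U \ K := sdiff_subset_sdiff_left hNU
  rcases isPreconnected_iff_subset_of_disjoint.1 h u v hu hv (hs.trans h1)
    (subset_eq_empty (inter_subset_inter_left _ hs) h2) with h3 | h3
  · exact key u v hu hv h1 h2 h3
  · exact (key v u hv hu (union_comm u v ▸ h1) (inter_comm u v ▸ h2) h3).symm

theorem plc_ball {U : Set ℂ} (hU : IsPreconnected U) {c : ℂ} {r R : ℝ} (h0 : 0 ≤ r) (hr : r < R)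
    (h : ball c R ⊆ U) : IsPreconnected (U \ closedBall c r) := by
  refine plc_diff hU isClosed_closedBall isOpen_ball (closedBall_subset_ball hr) h ?_
  convert (ann_preconn (r₂ := R) h0).image (fun v => c + v) (by fun_prop) using 1
  ext t
  simp only [Set.mem_sdiff, mem_ball_iff_norm, mem_closedBall_iff_norm, not_le, mem_image,
    mem_ofPred_eq]
  constructor
  · exact fun ht => ⟨t - c, ⟨ht.2, ht.1⟩, add_sub_cancel c t⟩
  · rintro ⟨v, hv, rfl⟩
    rw [add_sub_cancel_left]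
    exact ⟨hv.2, hv.1⟩

theorem plc_finite {U : Set ℂ} (hU : IsPreconnected U) (ho : IsOpen U) {Z : Set ℂ}
    (hZ : Z.Finite) : IsPreconnected (U \ Z) := by
  induction Z, hZ using Set.Finite.induction_on with
  | empty => rwa [sdiff_empty]
  | @insert z Z _ hZ ih =>
    rw [insert_eq, union_comm, ← Set.sdiff_sdiff]
    by_cases hz : z ∈ U \ Z
    · obtain ⟨R, hR, hb⟩ := Metric.isOpen_iff.1 (ho.sdiff hZ.isClosed) z hz
      simpa only [closedBall_zero] using plc_ball ih le_rfl hR hb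
    · rwa [sdiff_singleton_eq_self hz]

theorem Pl.Ok.preconn {ι : Type} [Finite ι] {P : Pl ι} (h : P.Ok) {Z : Set ℂ} (hZ : Z.Finite) :
    IsPreconnected (P.Om \ Z) := by
  refine plc_finite ?_ Pl.isOpen_om hZ
  have hr : ∀ e, P.rin e < 2 * P.ρ e := fun e => by
    linarith [h.rin_pos e, h.rin_mu e, h.mu_ρ e]
  have key : ∀ s : Set (ι × Bool), s.Finite →
      IsPreconnected {t : ℂ | ∀ e ∈ s, P.rin e < ‖t - P.c e‖} := by
    intro s hs
    induction s, hs using Set.Finite.induction_on with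
    | empty => simpa using isPreconnected_univ
    | @insert e s he _ ih =>
      convert plc_ball ih (c := P.c e) (h.rin_pos e).le (hr e) ?_ using 1
      · ext t
        simp only [forall_mem_insert, mem_ofPred_eq, Set.mem_sdiff, mem_closedBall_iff_norm,
          not_le, and_comm]
      · intro t ht e' he'
        have h1 := h.far (e := e) (e' := e') (fun h2 => he (h2 ▸ he'))
          (mem_ball_iff_norm.1 ht).le
        rw [add_sub_cancel] at h1
        exact (hr e').trans_le h1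
  simpa [Pl.Om] using key univ finite_univ

end Pool.Agent.MP_92463a_gt
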