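import Pool.Agent.MP_92463a_gt.Par

open Set Complex Filter Metric
open scoped Topology ComplexConjugate ContDiff Manifold

noncomputable section

namespace Pool.Agent.MP_92463a_gt

/-- the product over the negative branch points, at infinity -/
def Form3_B (b : ℕ → ℝ) (q : ℕ) (s : ℂ) : ℂ :=
  ∏ j ∈ Finset.range q, if Even j then 1 + b j * s else ((1 + b j * s) ^ 2)⁻¹

/-- the product over the positive branch points, at infinity -/
def Form3_A (a : ℕ → ℝ) (p : ℕ) (s : ℂ) : ℂ :=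
  ∏ i ∈ Finset.range p, if Even i then (a i * s - 1)⁻¹ else 1

theorem Form3_B_eq (b : ℕ → ℝ) {s : ℂ} (hs : s ≠ 0) (u : ℕ) :
    (∏ j ∈ Finset.range (2 * u), if Even j then s⁻¹ + b j else ((s⁻¹ + b j) ^ 2)⁻¹) =
      Form3_B b (2 * u) s * s ^ u ∧
    (∏ j ∈ Finset.range (2 * u + 1), if Even j then s⁻¹ + b j else ((s⁻¹ + b j) ^ 2)⁻¹) =
      Form3_B b (2 * u + 1) s * s ^ u * s⁻¹ := by
  have h1 : ∀ j, s⁻¹ + b j = (1 + b j * s) * s⁻¹ := by
    intro j
    rw [add_mul, one_mul, mul_assoc, mul_inv_cancel₀ hs, mul_one]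
  have step : ∀ u : ℕ,
      (∏ j ∈ Finset.range (2 * u), if Even j then s⁻¹ + b j else ((s⁻¹ + b j) ^ 2)⁻¹) =
        Form3_B b (2 * u) s * s ^ u →
      (∏ j ∈ Finset.range (2 * u + 1), if Even j then s⁻¹ + b j else ((s⁻¹ + b j) ^ 2)⁻¹) =
        Form3_B b (2 * u + 1) s * s ^ u * s⁻¹ := by
    intro u hu
    rw [Finset.prod_range_succ, hu, Form3_B, Form3_B, Finset.prod_range_succ,
      if_pos (even_two_mul u), if_pos (even_two_mul u), h1]
    ring
  induction u with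
  | zero => exact ⟨by simp [Form3_B], step 0 (by simp [Form3_B])⟩
  | succ u ih =>
    have ho : ¬ Even (2 * u + 1) := Nat.not_even_iff_odd.2 (odd_two_mul_add_one u)
    have h2 : (∏ j ∈ Finset.range (2 * (u + 1)),
        if Even j then s⁻¹ + b j else ((s⁻¹ + b j) ^ 2)⁻¹) =
        Form3_B b (2 * (u + 1)) s * s ^ (u + 1) := by
      rw [show 2 * (u + 1) = 2 * u + 1 + 1 by ring, Finset.prod_range_succ, ih.2, Form3_B,
        Form3_B, Finset.prod_range_succ _ (2 * u + 1), if_neg ho, if_neg ho, h1, mul_pow, mul_inv,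
        inv_pow, inv_inv]
      have h3 : s⁻¹ * s ^ 2 = s := by rw [pow_two, ← mul_assoc, inv_mul_cancel₀ hs, one_mul]
      generalize ((1 + (b (2 * u + 1) : ℂ) * s) ^ 2)⁻¹ = z
      linear_combination (∏ j ∈ Finset.range (2 * u + 1),
        if Even j then 1 + b j * s else ((1 + b j * s) ^ 2)⁻¹) * s ^ u * z * h3
    exact ⟨h2, step _ h2⟩

theorem Form3_A_eq (a : ℕ → ℝ) {s : ℂ} (hs : s ≠ 0) (v : ℕ) :
    (∏ i ∈ Finset.range (2 * v), if Even i then (a i - s⁻¹)⁻¹ else 1) =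
      Form3_A a (2 * v) s * s ^ v ∧
    (∏ i ∈ Finset.range (2 * v + 1), if Even i then (a i - s⁻¹)⁻¹ else 1) =
      Form3_A a (2 * v + 1) s * s ^ (v + 1) := by
  have h1 : ∀ i, (a i - s⁻¹)⁻¹ = (a i * s - 1)⁻¹ * s := by
    intro i
    have h2 : a i - s⁻¹ = (a i * s - 1) * s⁻¹ := by
      rw [sub_mul, one_mul, mul_assoc, mul_inv_cancel₀ hs, mul_one]
    rw [h2, mul_inv, inv_inv]
  have step : ∀ v : ℕ,
      (∏ i ∈ Finset.range (2 * v), if Even i then (a i - s⁻¹)⁻¹ else 1) =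
        Form3_A a (2 * v) s * s ^ v →
      (∏ i ∈ Finset.range (2 * v + 1), if Even i then (a i - s⁻¹)⁻¹ else 1) =
        Form3_A a (2 * v + 1) s * s ^ (v + 1) := by
    intro v hv
    rw [Finset.prod_range_succ, hv, Form3_A, Form3_A, Finset.prod_range_succ,
      if_pos (even_two_mul v), if_pos (even_two_mul v), h1]
    ring
  induction v with
  | zero => exact ⟨by simp [Form3_A], step 0 (by simp [Form3_A])⟩
  | succ v ih =>
    have ho : ¬ Even (2 * v + 1) := Nat.not_even_iff_odd.2 (odd_two_mul_add_one v)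
    have h2 : (∏ i ∈ Finset.range (2 * (v + 1)), if Even i then (a i - s⁻¹)⁻¹ else 1) =
        Form3_A a (2 * (v + 1)) s * s ^ (v + 1) := by
      rw [show 2 * (v + 1) = 2 * v + 1 + 1 by ring, Finset.prod_range_succ, ih.2, Form3_A,
        Form3_A, Finset.prod_range_succ _ (2 * v + 1), if_neg ho, if_neg ho, mul_one, mul_one]
    exact ⟨h2, step _ h2⟩

/-- the unit part of `R` at infinity -/
def Form3_R (D : Dat) (s : ℂ) : ℂ := D.ρ * Form3_B D.b D.q s * Form3_A D.a D.p s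

theorem Form3_R_eq {D : Dat} (hD : D.Ok) :
    ∃ m, D.p + D.q = 2 * m ∧ ∀ s : ℂ, s ≠ 0 →
      (Even D.q → D.R s⁻¹ = Form3_R D s * s ^ (m + 1)) ∧
      (Odd D.q → D.R s⁻¹ = Form3_R D s * s ^ m) := by
  obtain ⟨c, hc⟩ := hD.par
  rcases Nat.even_or_odd' D.q with ⟨u, hu | hu⟩
  · have hp : D.p = 2 * (c - u) := by omega
    refine ⟨c - u + u, by omega, fun s hs => ⟨fun _ => ?_, fun h => ?_⟩⟩
    · rw [Dat.R, Form3_R, hp, hu, (Form3_B_eq D.b hs u).1, (Form3_A_eq D.a hs _).1,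
        div_inv_eq_mul]
      ring
    · exact absurd h (by rw [hu]; exact Nat.not_odd_iff_even.2 (even_two_mul u))
  · have hp : D.p = 2 * (c - u - 1) + 1 := by omega
    refine ⟨c - u - 1 + u + 1, by omega, fun s hs => ⟨fun h => ?_, fun _ => ?_⟩⟩
    · exact absurd h (by rw [hu]; exact Nat.not_even_iff_odd.2 (odd_two_mul_add_one u))
    · rw [Dat.R, Form3_R, hp, hu, (Form3_B_eq D.b hs u).2, (Form3_A_eq D.a hs _).2,
        div_inv_eq_mul]
      have h1 := mul_inv_cancel₀ hs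
      generalize c - u - 1 = v
      linear_combination D.ρ * Form3_B D.b (2 * u + 1) s * Form3_A D.a (2 * v + 1) s *
        s ^ u * s ^ (v + 1) * h1

theorem Form3_fac {D : Dat} {δ : ℝ} {h : ℂ → ℂ} (H : D.Par3 δ h) {s : ℂ}
    (hs : s ∈ ball (0 : ℂ) (δ ^ 2)) :
    (∀ j < D.q, 1 + D.b j * s ≠ 0) ∧ ∀ i < D.p, D.a i * s - 1 ≠ 0 := by
  by_cases h0 : s = 0
  · rw [h0]
    exact ⟨fun _ _ => by simp, fun _ _ => by simp⟩
  have h1 : D.P s⁻¹ ≠ 0 := by
    intro h2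
    have h3 := H.sq s hs h0
    rw [h2, mul_zero] at h3
    exact H.ne s hs (pow_eq_zero_iff two_ne_zero |>.1 h3)
  rw [Dat.P] at h1
  obtain ⟨h2, h3⟩ := mul_ne_zero_iff.1 h1
  have h4 := Finset.prod_ne_zero_iff.1 (mul_ne_zero_iff.1 h2).2
  have h5 := Finset.prod_ne_zero_iff.1 h3
  have h6 := inv_mul_cancel₀ h0
  constructor
  · intro j hj h7
    apply mul_ne_zero (h4 j (Finset.mem_range.2 hj)) h0
    linear_combination h7 + h6
  · intro i hi h7
    apply mul_ne_zero (h5 i (Finset.mem_range.2 hi)) h0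
    linear_combination h7 - h6

theorem Form3_R_hol {D : Dat} {δ : ℝ} {h : ℂ → ℂ} (hD : D.Ok) (H : D.Par3 δ h) :
    DifferentiableOn ℂ (Form3_R D) (ball 0 (δ ^ 2)) ∧
      ∀ s ∈ ball (0 : ℂ) (δ ^ 2), Form3_R D s ≠ 0 := by
  constructor
  · intro s hs
    obtain ⟨h1, h2⟩ := Form3_fac H hs
    refine DifferentiableAt.differentiableWithinAt ?_
    have hB : DifferentiableAt ℂ (Form3_B D.b D.q) s := by
      refine DifferentiableAt.fun_finsetProd fun j hj => ?_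
      have h3 : DifferentiableAt ℂ (fun s : ℂ => 1 + D.b j * s) s := by fun_prop
      split_ifs
      · exact h3
      · exact (h3.pow 2).inv (pow_ne_zero _ (h1 j (Finset.mem_range.1 hj)))
    have hA : DifferentiableAt ℂ (Form3_A D.a D.p) s := by
      refine DifferentiableAt.fun_finsetProd fun i hi => ?_
      have h3 : DifferentiableAt ℂ (fun s : ℂ => D.a i * s - 1) s := by fun_prop
      split_ifs
      · exact h3.inv (h2 i (Finset.mem_range.1 hi))
      · exact differentiableAt_const _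
    exact ((differentiableAt_const _).mul hB).mul hA
  · intro s hs
    obtain ⟨h1, h2⟩ := Form3_fac H hs
    refine mul_ne_zero (mul_ne_zero (ofReal_ne_zero.2 hD.ρ_pos.ne') ?_) ?_
    · refine Finset.prod_ne_zero_iff.2 fun j hj => ?_
      split_ifs
      · exact h1 j (Finset.mem_range.1 hj)
      · exact inv_ne_zero (pow_ne_zero _ (h1 j (Finset.mem_range.1 hj)))
    · refine Finset.prod_ne_zero_iff.2 fun i hi => ?_
      split_ifs
      · exact inv_ne_zero (h2 i (Finset.mem_range.1 hi))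
      · exact one_ne_zero

theorem Dat.Par3.form {D : Dat} {δ : ℝ} {h : ℂ → ℂ} (hD : D.Ok) (H : D.Par3 δ h) :
    ∃ k₁ k₂ : ℂ → ℂ, DifferentiableOn ℂ k₁ (ball 0 (δ ^ 2)) ∧
      DifferentiableOn ℂ k₂ (ball 0 (δ ^ 2)) ∧ (Even D.q → k₁ 0 = 0) ∧ (Odd D.q → k₂ 0 = 0) ∧
      ∀ w ∈ ball (0 : ℂ) δ, w ≠ 0 →
        k₁ (w ^ 2) / w ^ 2 =
          h (w ^ 2) / w ^ (D.p + D.q + 1) * D.R (w ^ 2)⁻¹ / (w ^ 2)⁻¹ * (-2 / w ^ 3) ∧
        k₂ (w ^ 2) / w ^ 2 =
          (h (w ^ 2) / w ^ (D.p + D.q + 1) * D.R (w ^ 2)⁻¹ * (w ^ 2)⁻¹)⁻¹ * (-2 / w ^ 3) := by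
  obtain ⟨m, hm, hR⟩ := Form3_R_eq hD
  obtain ⟨h1, h2⟩ := Form3_R_hol hD H
  have h3 : DifferentiableOn ℂ (fun s => h s * Form3_R D s) (ball 0 (δ ^ 2)) := H.hol.mul h1
  have h4 : DifferentiableOn ℂ (fun s => (h s * Form3_R D s)⁻¹) (ball 0 (δ ^ 2)) :=
    h3.inv fun s hs => mul_ne_zero (H.ne s hs) (h2 s hs)
  have h5 : ∀ w : ℂ, w ^ (D.p + D.q + 1) = (w ^ 2) ^ m * w := by
    intro w
    rw [hm, pow_succ, pow_mul]
  rcases Nat.even_or_odd D.q with hq | hq
  · refine ⟨fun s => -2 * (h s * Form3_R D s) * s, fun s => -2 * (h s * Form3_R D s)⁻¹,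
      (h3.const_mul _).mul differentiableOn_id, h4.const_mul _, fun _ => mul_zero _,
      fun ho => absurd ho (Nat.not_odd_iff_even.2 hq), fun w hw h0 => ?_⟩
    have h6 := H.ne _ (Dat.sq_mem_ball hw)
    have h7 := h2 _ (Dat.sq_mem_ball hw)
    have h8 : (w ^ 2) ^ m ≠ 0 := pow_ne_zero _ (pow_ne_zero _ h0)
    rw [(hR _ (pow_ne_zero 2 h0)).1 hq, h5, pow_succ _ m]
    generalize (w ^ 2) ^ m = z at h8
    constructor <;> field_simp
  · refine ⟨fun s => -2 * (h s * Form3_R D s), fun s => -2 * (h s * Form3_R D s)⁻¹ * s,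
      h3.const_mul _, (h4.const_mul _).mul differentiableOn_id,
      fun he => absurd he (Nat.not_even_iff_odd.2 hq), fun _ => mul_zero _, fun w hw h0 => ?_⟩
    have h6 := H.ne _ (Dat.sq_mem_ball hw)
    have h7 := h2 _ (Dat.sq_mem_ball hw)
    have h8 : (w ^ 2) ^ m ≠ 0 := pow_ne_zero _ (pow_ne_zero _ h0)
    rw [(hR _ (pow_ne_zero 2 h0)).2 hq, h5]
    generalize (w ^ 2) ^ m = z at h8
    constructor <;> field_simp

end Pool.Agent.MP_92463a_gt
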