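import Pool.Agent.MP_92463a_gt.WBas
import Pool.Agent.MP_92463a_gt.Form
import Pool.Agent.MP_92463a_gt.Form3
import Pool.Agent.MP_92463a_gt.Cau2

open Set Complex Filter Metric
open scoped Topology ComplexConjugate ContDiff Manifold

noncomputable section

namespace Pool.Agent.MP_92463a_gt

theorem Dat.Par1.mono {D : Dat} {t₀ : ℂ} {δ δ' : ℝ} {h : ℂ → ℂ} (H : D.Par1 t₀ δ h) (h0 : 0 < δ')
    (hle : δ' ≤ δ) : D.Par1 t₀ δ' h := by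
  have hb : ball (0 : ℂ) δ' ⊆ ball 0 δ := ball_subset_ball hle
  exact ⟨h0, H.hol.mono hb, fun w hw => H.ne w (hb hw), fun w hw => H.sq w (hb hw)⟩

theorem Dat.Par2.mono {D : Dat} {x₀ : ℂ} {δ δ' : ℝ} {h : ℂ → ℂ} (H : D.Par2 x₀ δ h) (h0 : 0 < δ')
    (hle : δ' ≤ δ) : D.Par2 x₀ δ' h := by
  have hb : ball (0 : ℂ) (δ' ^ 2) ⊆ ball 0 (δ ^ 2) :=
    ball_subset_ball (pow_le_pow_left₀ h0.le hle 2)
  exact ⟨h0, H.br, H.hol.mono hb, fun w hw => H.ne w (hb hw), fun w hw => H.sq w (hb hw)⟩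

theorem Dat.Par3.mono {D : Dat} {δ δ' : ℝ} {h : ℂ → ℂ} (H : D.Par3 δ h) (h0 : 0 < δ')
    (hle : δ' ≤ δ) : D.Par3 δ' h := by
  have hb : ball (0 : ℂ) (δ' ^ 2) ⊆ ball 0 (δ ^ 2) :=
    ball_subset_ball (pow_le_pow_left₀ h0.le hle 2)
  exact ⟨h0, H.hol.mono hb, fun w hw => H.ne w (hb hw), fun w hw => H.sq w (hb hw)⟩

theorem WForm_small {δ ε : ℝ} (hδ : 0 < δ) (hε : 0 < ε) : ∃ δ' > 0, δ' ≤ δ ∧ δ' ^ 2 ≤ ε :=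
  ⟨min δ √ε, lt_min hδ (Real.sqrt_pos.2 hε), min_le_left _ _,
    (pow_le_pow_left₀ (le_min hδ.le (Real.sqrt_nonneg _)) (min_le_right _ _) 2).trans
      (Real.sq_sqrt hε.le).le⟩

namespace Wd

variable {ι : Type} [Fintype ι] {W : Wd ι} {δ : ℝ} {h : ℂ → ℂ}

theorem WForm_shrink (hW : W.Ok0) {x₀ : ℂ} (H : W.D.Par2 x₀ δ h) :
    ∃ δ' > 0, δ' ≤ δ ∧ ∀ s ∈ ball (0 : ℂ) (δ' ^ 2), x₀ + s ∈ W.Om := by
  obtain ⟨ε, hε, hb⟩ := Metric.isOpen_iff.1 Pl.isOpen_om x₀ (hW.zero_fd H.br).2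
  obtain ⟨δ', d0, d1, d2⟩ := WForm_small H.pos hε
  refine ⟨δ', d0, d1, fun s hs => hb ?_⟩
  rw [mem_ball_iff_norm, add_sub_cancel_left]
  exact (mem_ball_zero_iff.1 hs).trans_le d2

theorem Ok1.formA (hW : W.Ok1) {x₀ : ℂ} (H : W.D.Par2 x₀ δ h) (ha : W.D.IsA x₀) :
    ∃ δ' > 0, δ' ≤ δ ∧ ∃ φ₁ φ₂ : ℂ → ℂ, DifferentiableOn ℂ φ₁ (ball 0 δ') ∧
      DifferentiableOn ℂ φ₂ (ball 0 δ') ∧ (W.Ok → φ₁ 0 ≠ 0 ∨ φ₂ 0 ≠ 0) ∧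
      (∀ w ∈ ball (0 : ℂ) δ', x₀ + w ^ 2 ∈ W.Om ∧ ¬ W.D.IsE (x₀ + w ^ 2) ∧
        φ₁ w * φ₂ w = (W.F3 (x₀ + w ^ 2) * (2 * w)) ^ 2) ∧
      ∀ w ∈ ball (0 : ℂ) δ', w ≠ 0 →
        φ₁ w = W.ψ₁ (x₀ + w ^ 2) ^ 2 * (w * h (w ^ 2) * W.D.R (x₀ + w ^ 2) / (x₀ + w ^ 2)) *
          (2 * w) ∧
        φ₂ w = W.ψ₂ (x₀ + w ^ 2) ^ 2 * (w * h (w ^ 2) * W.D.R (x₀ + w ^ 2) * (x₀ + w ^ 2))⁻¹ *
          (2 * w) := by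
  obtain ⟨δ', d0, d1, hm⟩ := WForm_shrink hW.toOk0 H
  have H' := H.mono d0 d1
  obtain ⟨φ₁, φ₂, a1, a2, a3, a4, a5⟩ := H'.formA hW.d ha
  have hm' : ∀ w ∈ ball (0 : ℂ) δ', x₀ + w ^ 2 ∈ W.Om := fun w hw => hm _ (Dat.sq_mem_ball hw)
  have hE : ∀ w ∈ ball (0 : ℂ) δ', ¬ W.D.IsE (x₀ + w ^ 2) := fun w hw he => by
    by_cases h0 : w = 0
    · rw [h0, zero_pow two_ne_zero, add_zero] at he
      exact hW.d.not_E ha he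
    · exact (H'.on hw).2 h0 (Dat.P_eq_zero.2 (Or.inl he))
  have hT : ∀ w : ℂ, DifferentiableAt ℂ (fun w : ℂ => x₀ + w ^ 2) w := fun w => by fun_prop
  have b1 : DifferentiableOn ℂ (fun w => W.ψ₁ (x₀ + w ^ 2)) (ball 0 δ') := fun w hw =>
    (DifferentiableAt.comp (f := fun w : ℂ => x₀ + w ^ 2) w
      (hW.ψ₁_diff (hm' w hw) (hW.toOk0.b0 (hE w hw)).1) (hT w)).differentiableWithinAt
  have b2 : DifferentiableOn ℂ (fun w => W.ψ₂ (x₀ + w ^ 2)) (ball 0 δ') := fun w hw =>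
    (DifferentiableAt.comp (f := fun w : ℂ => x₀ + w ^ 2) w
      (hW.ψ₂_diff (hm' w hw)) (hT w)).differentiableWithinAt
  refine ⟨δ', d0, d1, fun w => W.ψ₁ (x₀ + w ^ 2) ^ 2 * φ₁ w, fun w => W.ψ₂ (x₀ + w ^ 2) ^ 2 * φ₂ w,
    (b1.pow 2).mul a1, (b2.pow 2).mul a2, fun hO => ?_, fun w hw => ⟨hm' w hw, hE w hw, ?_⟩,
    fun w hw h0 => ?_⟩
  · obtain ⟨i, hi, rfl⟩ := ha
    simp only [zero_pow two_ne_zero, add_zero]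
    exact a3.imp (mul_ne_zero (pow_ne_zero 2 (hO.neA i hi).1))
      (mul_ne_zero (pow_ne_zero 2 (hO.neA i hi).2))
  · rw [mul_mul_mul_comm, (a4 w hw).2, F3]
    ring
  · simp only [(a5 w hw h0).1, (a5 w hw h0).2, mul_assoc, and_self]

theorem Ok.formE (hW : W.Ok) {x₀ : ℂ} (H : W.D.Par2 x₀ δ h) (he : W.D.IsE x₀) :
    ∃ δ' > 0, δ' ≤ δ ∧ ∃ k₁ k₂ : ℂ → ℂ, DifferentiableOn ℂ k₁ (ball 0 (δ' ^ 2)) ∧
      DifferentiableOn ℂ k₂ (ball 0 (δ' ^ 2)) ∧ (k₁ 0 ≠ 0 ∨ k₂ 0 ≠ 0) ∧ (x₀ = 0 → k₂ 0 = 0) ∧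
      (∀ j < W.D.q, x₀ = -W.D.b j → (Even j → k₁ 0 = 0) ∧ (Odd j → k₂ 0 = 0)) ∧
      ∀ w ∈ ball (0 : ℂ) δ', x₀ + w ^ 2 ∈ W.Om ∧ (w ≠ 0 →
        k₁ (w ^ 2) / w ^ 2 =
          W.ψ₁ (x₀ + w ^ 2) ^ 2 * (w * h (w ^ 2) * W.D.R (x₀ + w ^ 2) / (x₀ + w ^ 2)) * (2 * w) ∧
        k₂ (w ^ 2) / w ^ 2 =
          W.ψ₂ (x₀ + w ^ 2) ^ 2 * (w * h (w ^ 2) * W.D.R (x₀ + w ^ 2) * (x₀ + w ^ 2))⁻¹ *
            (2 * w)) := by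
  obtain ⟨δ', d0, d1, hm⟩ := WForm_shrink hW.toOk0 H
  have H' := H.mono d0 d1
  obtain ⟨k₁, k₂, a1, a2, a3, a4, a5, a6⟩ := H'.formE hW.d he
  have hT : ∀ s : ℂ, DifferentiableAt ℂ (fun s : ℂ => x₀ + s) s := fun w => by fun_prop
  have b2 : DifferentiableOn ℂ (fun s => W.ψ₂ (x₀ + s)) (ball 0 (δ' ^ 2)) := fun w hw =>
    ((hW.toOk1.ψ₂_diff (hm w hw)).comp w (hT w)).differentiableWithinAt
  obtain ⟨k, c1, c2, c3, c4⟩ : ∃ k : ℂ → ℂ, DifferentiableOn ℂ k (ball 0 (δ' ^ 2)) ∧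
      (k₁ 0 = 0 → k 0 = 0) ∧ (k₁ 0 ≠ 0 → W.ψ₁ x₀ ≠ 0 → k 0 ≠ 0) ∧
      ∀ w ∈ ball (0 : ℂ) δ', w ≠ 0 → k (w ^ 2) / w ^ 2 = W.ψ₁ (x₀ + w ^ 2) ^ 2 *
        (w * h (w ^ 2) * W.D.R (x₀ + w ^ 2) / (x₀ + w ^ 2)) * (2 * w) := by
    by_cases e : x₀ = -W.D.b 0
    · obtain ⟨U, hU, hR⟩ := Dat.Form_RB hW.d H' hW.q_pos e
      have hx := Dat.Form_T H' (e ▸ Dat.Form_b_ne hW.d hW.q_pos)
      have b1 : DifferentiableOn ℂ (fun s => W.χ (x₀ + s)) (ball 0 (δ' ^ 2)) :=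
        hW.χhol.comp (fun w _ => (hT w).differentiableWithinAt) hm
      refine ⟨fun s => s * (2 * U s * (s * W.χ (x₀ + s) + W.ℓ * W.D.b 0) ^ 2 * (x₀ + s)⁻¹),
        differentiableOn_id.mul (((hU.1.const_mul 2).mul
          (((differentiableOn_id.mul b1).add_const _).pow 2)).mul hx.inv.1),
        fun _ => zero_mul _, fun h1 => absurd ((a5 0 hW.q_pos e).1 Even.zero) h1,
        fun w hw h0 => ?_⟩
      have e1 : x₀ + w ^ 2 + W.D.b 0 = w ^ 2 := by rw [e]; ring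
      have e2 := hx.2 _ (Dat.sq_mem_ball hw)
      simp only [mul_assoc w, hR, if_pos Even.zero, ψ₁, e1]
      field_simp
    · have hx := Dat.Form_lin H' (Or.inl (Or.inr ⟨0, hW.q_pos, rfl⟩)) e
      have b1 : DifferentiableOn ℂ (fun s => W.ψ₁ (x₀ + s)) (ball 0 (δ' ^ 2)) := fun w hw =>
        ((hW.toOk1.ψ₁_diff (hm w hw) (by simpa only [sub_neg_eq_add] using hx.2 w hw)).comp w
          (hT w)).differentiableWithinAt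
      refine ⟨fun s => W.ψ₁ (x₀ + s) ^ 2 * k₁ s, (b1.pow 2).mul a1, fun h1 => ?_,
        fun h1 h2 => ?_, fun w hw h0 => ?_⟩
      · simp only [h1, mul_zero]
      · simp only [add_zero]
        exact mul_ne_zero (pow_ne_zero 2 h2) h1
      · simp only [mul_div_assoc, (a6 w hw h0).1, mul_assoc]
  refine ⟨δ', d0, d1, k, fun s => W.ψ₂ (x₀ + s) ^ 2 * k₂ s, c1, (b2.pow 2).mul a2, ?_,
    fun e => ?_, fun j hj e => ⟨fun o => c2 ((a5 j hj e).1 o), fun o => ?_⟩,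
    fun w hw => ⟨hm _ (Dat.sq_mem_ball hw), fun h0 => ⟨c4 w hw h0, ?_⟩⟩⟩
  · rcases he with e | ⟨j, hj, e⟩
    · exact Or.inl (c3 (a3.resolve_right (not_not.2 (a4 e))) (e ▸ hW.ne0))
    · rcases Nat.even_or_odd j with o | o
      · refine Or.inr (mul_ne_zero (pow_ne_zero 2 ?_)
          (a3.resolve_left (not_not.2 ((a5 j hj e).1 o))))
        rw [add_zero, e]
        exact (hW.neB j hj).1 o
      · exact Or.inl (c3 (a3.resolve_right (not_not.2 ((a5 j hj e).2 o)))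
          (e ▸ (hW.neB j hj).2 o))
  · simp only [a4 e, mul_zero]
  · simp only [(a5 j hj e).2 o, mul_zero]
  · simp only [mul_div_assoc, (a6 w hw h0).2, mul_assoc]

theorem Ok1.form3 (hW : W.Ok1) (H : W.D.Par3 δ h) :
    ∃ δ' > 0, δ' ≤ δ ∧ ∃ k₁ k₂ : ℂ → ℂ, DifferentiableOn ℂ k₁ (ball 0 (δ' ^ 2)) ∧
      DifferentiableOn ℂ k₂ (ball 0 (δ' ^ 2)) ∧ (Even W.D.q → k₁ 0 = 0) ∧ (Odd W.D.q → k₂ 0 = 0) ∧
      ∀ w ∈ ball (0 : ℂ) δ', w ≠ 0 → (w ^ 2)⁻¹ ∈ W.Om ∧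
        k₁ (w ^ 2) / w ^ 2 = W.ψ₁ (w ^ 2)⁻¹ ^ 2 *
          (h (w ^ 2) / w ^ (W.D.p + W.D.q + 1) * W.D.R (w ^ 2)⁻¹ / (w ^ 2)⁻¹) * (-2 / w ^ 3) ∧
        k₂ (w ^ 2) / w ^ 2 = W.ψ₂ (w ^ 2)⁻¹ ^ 2 *
          (h (w ^ 2) / w ^ (W.D.p + W.D.q + 1) * W.D.R (w ^ 2)⁻¹ * (w ^ 2)⁻¹)⁻¹ *
            (-2 / w ^ 3) := by
  obtain ⟨R, hR⟩ := Pl.om_far (P := W.toPl)
  obtain ⟨δ₁, p1, g₁, b1, -, c1⟩ := hol_infty (R := max R ‖(W.D.b 0 : ℂ)‖)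
    (fun t (ht : max R ‖(W.D.b 0 : ℂ)‖ < ‖t‖) =>
      (hW.ψ₁_diff (hR t (max_lt_iff.1 ht).1).2 fun e => (max_lt_iff.1 ht).2.ne
        (by rw [eq_neg_of_add_eq_zero_left e, norm_neg])).differentiableWithinAt) hW.ψ₁_inf
  obtain ⟨δ₂, p2, g₂, b2, -, c2⟩ := hol_infty (R := R)
    (fun t ht => (hW.ψ₂_diff (hR t ht).2).differentiableWithinAt) hW.ψinf
  have p3 : 0 < max R 1 := lt_max_of_lt_right one_pos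
  obtain ⟨δ', d0, d1, d2⟩ := WForm_small H.pos (lt_min (lt_min p1 p2) (inv_pos.2 p3))
  obtain ⟨k₁, k₂, a1, a2, a3, a4, a5⟩ := (H.mono d0 d1).form hW.d
  have s1 : ball (0 : ℂ) (δ' ^ 2) ⊆ ball 0 δ₁ :=
    ball_subset_ball (d2.trans ((min_le_left _ _).trans (min_le_left _ _)))
  have s2 : ball (0 : ℂ) (δ' ^ 2) ⊆ ball 0 δ₂ :=
    ball_subset_ball (d2.trans ((min_le_left _ _).trans (min_le_right _ _)))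
  refine ⟨δ', d0, d1, fun s => g₁ s ^ 2 * k₁ s, fun s => g₂ s ^ 2 * k₂ s,
    ((b1.mono s1).pow 2).mul a1, ((b2.mono s2).pow 2).mul a2, fun o => ?_, fun o => ?_,
    fun w hw h0 => ⟨(hR _ ?_).2, ?_, ?_⟩⟩
  · simp only [a3 o, mul_zero]
  · simp only [a4 o, mul_zero]
  · have h1 := (mem_ball_zero_iff.1 (Dat.sq_mem_ball hw)).trans_le (d2.trans (min_le_right _ _))
    rw [norm_inv]
    exact (le_max_left R 1).trans_lt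
      ((lt_inv_comm₀ (norm_pos_iff.2 (pow_ne_zero 2 h0)) p3).1 h1)
  · rw [mul_assoc, ← (a5 w hw h0).1, ← c1 _ (s1 (Dat.sq_mem_ball hw)) (pow_ne_zero 2 h0),
      mul_div_assoc]
  · rw [mul_assoc, ← (a5 w hw h0).2, ← c2 _ (s2 (Dat.sq_mem_ball hw)) (pow_ne_zero 2 h0),
      mul_div_assoc]

end Wd

end Pool.Agent.MP_92463a_gt
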