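import Pool.Agent.MP_92463a_gt.WXg
import Pool.Agent.MP_92463a_gt.WForm
import Pool.Agent.MP_92463a_gt.LF
import Pool.Agent.MP_92463a_gt.PlC

open Set Complex Filter Metric
open scoped Topology ComplexConjugate ContDiff Manifold

noncomputable section

namespace Pool.Agent.MP_92463a_gt

namespace Wd

variable {ι : Type} [Fintype ι] {W : Wd ι} {X : ℂ → ℂ} {H : ℂ → ℝ} {δ : ℝ} {h : ℂ → ℂ}

theorem WLF_cont (hW : W.Ok1) (hX : W.SolX X) {s : Set ℂ} {T Yl Φ₁ Φ₂ : ℂ → ℂ}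
    (hT : ContinuousOn T s) (hY : ContinuousOn Yl s) (h₁ : ContinuousOn Φ₁ s)
    (h₂ : ContinuousOn Φ₂ s)
    (hs : ∀ w ∈ s, Yl w ^ 2 = W.D.P (T w) ∧ ¬ W.D.IsE (T w) ∧ T w ∈ W.Om) :
    ContinuousOn (fun w => W.D.Xg X (T w) (Yl w) - (Φ₁ w - conj (Φ₂ w))) s :=
  ((hX.Xg_cont hW).comp (hT.prodMk hY) hs).sub (h₁.sub (continuous_conj.comp_continuousOn h₂))

theorem WLF_der (hW : W.Ok1) (hX : W.SolX X) {s : Set ℂ} (ho : IsOpen s) {T Yl Φ₁ Φ₂ : ℂ → ℂ}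
    {T' w : ℂ} (hw : w ∈ s) (hT : HasDerivAt T T' w) (hY : ContinuousOn Yl s)
    (hs : ∀ v ∈ s, Yl v ^ 2 = W.D.P (T v)) (him : (T w).im ≠ 0) (hO : T w ∈ W.Om)
    (h₁ : HasDerivAt Φ₁ (W.ψ₁ (T w) ^ 2 * (Yl w * W.D.R (T w) / T w) * T') w)
    (h₂ : HasDerivAt Φ₂ (W.ψ₂ (T w) ^ 2 * (Yl w * W.D.R (T w) * T w)⁻¹ * T') w) :
    HasFDerivAt (fun v => W.D.Xg X (T v) (Yl v) - (Φ₁ v - conj (Φ₂ v))) (0 : ℂ →L[ℝ] ℂ) w := by
  have a := Pre.Xg_der hW hX.toPre hT (hY.continuousAt (ho.mem_nhds hw))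
    (mem_of_superset (ho.mem_nhds hw) hs) him hO
  have b := a.sub (hasFDerivAt_wl h₁ h₂)
  rwa [sub_self] at b

theorem SolX.lf1 (hW : W.Ok1) (hX : W.SolX X) {t₀ : ℂ} (H : W.D.Par1 t₀ δ h)
    (hO : ∀ w ∈ ball (0 : ℂ) δ, t₀ + w ∈ W.Om) :
    ∃ Φ₁ Φ₂ : ℂ → ℂ, ∀ w ∈ ball (0 : ℂ) δ,
      HasDerivAt Φ₁ (W.ψ₁ (t₀ + w) ^ 2 * (h w * W.D.R (t₀ + w) / (t₀ + w))) w ∧
      HasDerivAt Φ₂ (W.ψ₂ (t₀ + w) ^ 2 * (h w * W.D.R (t₀ + w) * (t₀ + w))⁻¹) w ∧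
      W.D.Xg X (t₀ + w) (h w) = Φ₁ w - conj (Φ₂ w) := by
  obtain ⟨f1, f2, f3⟩ := H.form hW.d
  have hE : ∀ w ∈ ball (0 : ℂ) δ, ¬ W.D.IsE (t₀ + w) := fun w hw => Dat.LF_notE (f3 w hw).1
  have g1 : DifferentiableOn ℂ (fun w => W.ψ₁ (t₀ + w)) (ball 0 δ) := fun w hw =>
    ((hW.ψ₁_diff (hO w hw) (hW.toOk0.b0 (hE w hw)).1).comp w
      (differentiableAt_id.const_add t₀)).differentiableWithinAt
  have g2 : DifferentiableOn ℂ (fun w => W.ψ₂ (t₀ + w)) (ball 0 δ) := fun w hw =>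
    ((hW.ψ₂_diff (hO w hw)).comp w (differentiableAt_id.const_add t₀)).differentiableWithinAt
  obtain ⟨Φ₁, d1⟩ := ((g1.pow 2).mul f1).isExactOn_ball
  obtain ⟨Φ₂, d2⟩ := ((g2.pow 2).mul f2).isExactOn_ball
  have c1 : ContinuousOn Φ₁ (ball 0 δ) := fun w hw => (d1 w hw).continuousAt.continuousWithinAt
  have c2 : ContinuousOn Φ₂ (ball 0 δ) := fun w hw => (d2 w hw).continuousAt.continuousWithinAt
  obtain ⟨k, hk⟩ := const_line (c := -t₀.im)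
    (WLF_cont hW hX (T := fun w => t₀ + w) (by fun_prop) H.hol.continuousOn c1 c2
      fun w hw => ⟨H.sq w hw, hE w hw, hO w hw⟩) fun w hw him =>
    WLF_der hW hX isOpen_ball (T := fun w => t₀ + w) hw ((hasDerivAt_id w).const_add t₀)
      H.hol.continuousOn H.sq (fun h0 => him (by rw [add_im] at h0; linarith)) (hO w hw)
      (by rw [mul_one]; exact d1 w hw) (by rw [mul_one]; exact d2 w hw)
  refine ⟨fun w => Φ₁ w + k, Φ₂, fun w hw => ⟨(d1 w hw).add_const k, d2 w hw, ?_⟩⟩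
  rw [← hk w hw]
  ring

theorem SolX.lfA (hW : W.Ok) (hX : W.SolX X) {x₀ : ℂ} (H : W.D.Par2 x₀ δ h) (ha : W.D.IsA x₀) :
    ∃ δ' > 0, ∃ Φ₁ Φ₂ φ₁ φ₂ : ℂ → ℂ, (φ₁ 0 ≠ 0 ∨ φ₂ 0 ≠ 0) ∧ ∀ w ∈ ball (0 : ℂ) δ',
      HasDerivAt Φ₁ (φ₁ w) w ∧ HasDerivAt Φ₂ (φ₂ w) w ∧ x₀ + w ^ 2 ∈ W.Om ∧
      ¬ W.D.IsE (x₀ + w ^ 2) ∧ φ₁ w * φ₂ w = (W.F3 (x₀ + w ^ 2) * (2 * w)) ^ 2 ∧
      W.D.Xg X (x₀ + w ^ 2) (w * h (w ^ 2)) = Φ₁ w - conj (Φ₂ w) := by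
  obtain ⟨δ', h1, h2, φ₁, φ₂, f1, f2, f3, f4, f5⟩ := hW.toOk1.formA H ha
  have H' := H.mono h1 h2
  obtain ⟨Φ₁, d1⟩ := f1.isExactOn_ball
  obtain ⟨Φ₂, d2⟩ := f2.isExactOn_ball
  have c1 : ContinuousOn Φ₁ (ball 0 δ') := fun w hw => (d1 w hw).continuousAt.continuousWithinAt
  have c2 : ContinuousOn Φ₂ (ball 0 δ') := fun w hw => (d2 w hw).continuousAt.continuousWithinAt
  have cY : ContinuousOn (fun w => w * h (w ^ 2)) (ball 0 δ') :=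
    continuousOn_id.mul (H'.hol.continuousOn.comp (by fun_prop) fun w hw => Dat.sq_mem_ball hw)
  have hx : x₀.im = 0 := by
    obtain ⟨i, -, rfl⟩ := ha
    exact ofReal_im _
  have cF := WLF_cont hW.toOk1 hX (T := fun w => x₀ + w ^ 2) (by fun_prop) cY c1 c2 fun w hw =>
    ⟨(H'.on hw).1, (f4 w hw).2.1, (f4 w hw).1⟩
  obtain ⟨k, hk⟩ := const_quad (cF.mono sdiff_subset) fun w hw hre him => by
    have h0 : w ≠ 0 := fun h0 => hre (by rw [h0, zero_re])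
    have hT : HasDerivAt (fun w : ℂ => x₀ + w ^ 2) (2 * w) w := by
      simpa using (hasDerivAt_pow 2 w).const_add x₀
    refine WLF_der hW.toOk1 hX isOpen_ball (T := fun w => x₀ + w ^ 2) hw hT cY
      (fun v hv => (H'.on hv).1) ?_ (f4 w hw).1 ((f5 w hw h0).1 ▸ d1 w hw)
      ((f5 w hw h0).2 ▸ d2 w hw)
    rw [add_im, hx, zero_add, sq, mul_im]
    intro e
    rw [mul_comm w.im, ← two_mul] at e
    exact mul_ne_zero two_ne_zero (mul_ne_zero hre him) e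
  have hk' : ∀ w ∈ ball (0 : ℂ) δ',
      W.D.Xg X (x₀ + w ^ 2) (w * h (w ^ 2)) - (Φ₁ w - conj (Φ₂ w)) = k := fun w hw => by
    by_cases h0 : w = 0
    · subst h0
      have hb : ball (0 : ℂ) δ' ∈ 𝓝 (0 : ℂ) := isOpen_ball.mem_nhds hw
      refine tendsto_nhds_unique ((cF.continuousAt hb).tendsto.mono_left
        (nhdsWithin_le_nhds (s := {0}ᶜ))) (tendsto_const_nhds.congr' ?_)
      filter_upwards [mem_nhdsWithin_of_mem_nhds hb, self_mem_nhdsWithin] with v h1 h2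
      exact (hk v h1 h2).symm
    · exact hk w hw h0
  refine ⟨δ', h1, fun w => Φ₁ w + k, Φ₂, φ₁, φ₂, f3 hW, fun w hw =>
    ⟨(d1 w hw).add_const k, d2 w hw, (f4 w hw).1, (f4 w hw).2.1, (f4 w hw).2.2, ?_⟩⟩
  rw [← hk' w hw]
  ring

theorem SolX.lfE (hW : W.Ok1) (hX : W.SolX X) (hδ : 0 < δ) {T T' Yl k₁ k₂ : ℂ → ℂ}
    (h₁ : DifferentiableOn ℂ k₁ (ball 0 (δ ^ 2))) (h₂ : DifferentiableOn ℂ k₂ (ball 0 (δ ^ 2)))
    (hY : ContinuousOn Yl (ball 0 δ \ {0}))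
    (hw : ∀ w ∈ ball (0 : ℂ) δ, w ≠ 0 → HasDerivAt T (T' w) w ∧ Yl w ^ 2 = W.D.P (T w) ∧
      W.D.P (T w) ≠ 0 ∧ T w ∈ W.Om ∧ T (-w) = T w ∧ Yl (-w) = -Yl w ∧
      (w.re ≠ 0 → w.im ≠ 0 → (T w).im ≠ 0) ∧
      k₁ (w ^ 2) / w ^ 2 = W.ψ₁ (T w) ^ 2 * (Yl w * W.D.R (T w) / T w) * T' w ∧
      k₂ (w ^ 2) / w ^ 2 = W.ψ₂ (T w) ^ 2 * (Yl w * W.D.R (T w) * T w)⁻¹ * T' w) :
    Tendsto (fun w => W.D.Xg X (T w) (Yl w) - (-k₁ 0 / w - conj (-k₂ 0 / w))) (𝓝[≠] 0) (𝓝 0) := by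
  obtain ⟨Ψ₁, a1, a2, a3, a4⟩ := odd_prim hδ h₁
  obtain ⟨Ψ₂, b1, b2, b3, b4⟩ := odd_prim hδ h₂
  have ho : IsOpen (ball (0 : ℂ) δ \ {0}) := isOpen_ball.sdiff isClosed_singleton
  obtain ⟨k, hk⟩ := const_quad (δ := δ)
    (WLF_cont hW hX (T := T) (Φ₁ := fun v => -k₁ 0 / v + Ψ₁ v) (Φ₂ := fun v => -k₂ 0 / v + Ψ₂ v)
      (fun w h => (hw w h.1 h.2).1.continuousAt.continuousWithinAt) hY
      (fun w h => (a4 w h.1 h.2).continuousAt.continuousWithinAt)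
      (fun w h => (b4 w h.1 h.2).continuousAt.continuousWithinAt)
      fun w h => ⟨(hw w h.1 h.2).2.1, Dat.LF_notE (hw w h.1 h.2).2.2.1, (hw w h.1 h.2).2.2.2.1⟩)
    fun w hb hre him => by
      have h0 : w ≠ 0 := fun h0 => hre (by rw [h0, zero_re])
      obtain ⟨e1, -, -, e3, -, -, e6, e7, e8⟩ := hw w hb h0
      exact WLF_der hW hX ho ⟨hb, h0⟩ e1 hY (fun v h => (hw v h.1 h.2).2.1) (e6 hre him) e3
        (e7 ▸ a4 w hb h0) (e8 ▸ b4 w hb h0)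
  have hk0 : k = 0 := by
    have hb : ((δ / 2 : ℝ) : ℂ) ∈ ball (0 : ℂ) δ := by
      rw [mem_ball_zero_iff, norm_real, Real.norm_eq_abs, abs_of_pos (by positivity)]
      linarith
    have h0 : ((δ / 2 : ℝ) : ℂ) ≠ 0 := ofReal_ne_zero.2 (by positivity)
    generalize ((δ / 2 : ℝ) : ℂ) = w at hb h0
    have e1 := hk w hb h0
    have e2 := hk (-w) (by rwa [mem_ball_zero_iff, norm_neg, ← mem_ball_zero_iff])
      (neg_ne_zero.2 h0)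
    obtain ⟨-, -, -, -, e4, e5, -⟩ := hw w hb h0
    simp only [e4, e5, Dat.Xg_neg, a3 w hb, b3 w hb, div_neg, map_add, map_neg] at e1 e2
    linear_combination (-1 / 2 : ℂ) * (e1 + e2)
  have hb : ball (0 : ℂ) δ ∈ 𝓝 (0 : ℂ) := ball_mem_nhds 0 hδ
  have t1 : Tendsto Ψ₁ (𝓝 0) (𝓝 0) := by
    simpa [a2] using (a1.continuousOn.continuousAt hb).tendsto
  have t2 : Tendsto Ψ₂ (𝓝 0) (𝓝 0) := by
    simpa [b2] using (b1.continuousOn.continuousAt hb).tendsto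
  have t3 : Tendsto (fun w => Ψ₁ w - conj (Ψ₂ w)) (𝓝 0) (𝓝 0) := by
    simpa using t1.sub ((continuous_conj.tendsto 0).comp t2)
  refine (t3.mono_left nhdsWithin_le_nhds).congr' ?_
  filter_upwards [mem_nhdsWithin_of_mem_nhds hb, self_mem_nhdsWithin] with v h1 h2
  have e := hk v h1 h2
  rw [hk0, map_add] at e
  linear_combination -e

theorem SolX.XA_der (hW : W.Ok1) (hX : W.SolX X) {e : ι × Bool} {v : ℂ} (hv : v ∈ W.Ann2 e) :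
    HasFDerivAt (W.XA X e) (wl (W.f1 e v) (W.f2 e v)) v := by
  obtain ⟨ε, h0, hε⟩ := Metric.isOpen_iff.1 (Pl.isOpen_ann2 e) v hv
  have hm : ∀ w ∈ ball (0 : ℂ) ε, v + w ∈ W.Ann2 e := fun w hw => hε (by simpa using hw)
  have hb : ∀ w ∈ ball (0 : ℂ) ε, v + w ∈ ball (0 : ℂ) (2 * W.ρ e) := fun w hw =>
    mem_ball_zero_iff.2 (hm w hw).2
  obtain ⟨Φ₁, Φ₂, hΦ⟩ := hX.lf1 hW (t₀ := W.c e + v) (δ := ε) (h := fun w => W.yb e (v + w))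
    ⟨h0, (hW.yhol e).comp (by fun_prop) hb, fun w hw => hW.toOk0.yb_ne (hm w hw).2,
      fun w hw => by rw [hW.ysq e _ (hb w hw), add_assoc]⟩
    fun w hw => by rw [add_assoc]; exact hW.pl.ann2_mem (hm w hw)
  obtain ⟨d1, d2, -⟩ := hΦ 0 (mem_ball_self h0)
  simp only [add_zero] at d1 d2
  rw [← sub_self v] at d1 d2
  refine (hasFDerivAt_wl (d1.comp_sub_const v v) (d2.comp_sub_const v v)).congr_of_eventuallyEq ?_
  filter_upwards [ball_mem_nhds v h0] with u hu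
  have e1 := (hΦ (u - v) (by simpa [dist_eq_norm] using hu)).2.2
  rwa [add_assoc, add_sub_cancel] at e1

theorem XA_eq (hW : W.Ok0) {e : ι × Bool} {v : ℂ} (hv : ‖v‖ < 2 * W.ρ e)
    (ht : 0 ≤ (W.c e + v).im) : W.XA X e v = X (W.c e + v) := by
  rw [XA, hW.yup e v (mem_ball_zero_iff.2 hv) (hW.im_nonneg hv ht) ht, Dat.Xg_Y ht]

theorem SolX.XA_glue (hW : W.Ok1) (hX : W.SolX X) {e : ι × Bool} {v₀ : ℂ} (h₀ : v₀ ∈ W.Ann e)
    (he : W.XA X e v₀ = W.XA X (op e) (W.s e.1 / v₀)) :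
    ∀ v ∈ W.Ann e, W.XA X e v = W.XA X (op e) (W.s e.1 / v) := by
  have d1 : ∀ v ∈ W.Ann e, HasFDerivAt (W.XA X e) (wl (W.f1 e v) (W.f2 e v)) v := fun v hv =>
    hX.XA_der hW (hW.pl.ann_sub e hv)
  have d2 : ∀ v ∈ W.Ann e, HasFDerivAt (fun v => W.XA X (op e) (W.s e.1 / v))
      (wl (W.f1 e v) (W.f2 e v)) v := fun v hv => by
    have h1 : HasDerivAt (fun v => W.s e.1 / v) (-(W.s e.1 / v ^ 2)) v := by
      simpa [div_eq_mul_inv] using (hasDerivAt_inv (hW.pl.ann_ne hv)).const_mul (W.s e.1)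
    refine ((hX.XA_der hW (hW.pl.ann_sub _ (hW.pl.ann_op hv))).comp v
      (h1.hasFDerivAt.restrictScalars ℝ)).congr_fderiv (ContinuousLinearMap.ext fun u => ?_)
    rw [hW.m1.mt e v hv, hW.m2.mt e v hv]
    simp [wl_apply]
    ring
  exact (Pl.isOpen_ann e).eqOn_of_fderiv_eq (𝕜 := ℝ) (ann_preconn (hW.pl.rin_pos e).le)
    (fun v hv => (d1 v hv).differentiableAt.differentiableWithinAt)
    (fun v hv => (d2 v hv).differentiableAt.differentiableWithinAt)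
    (fun v hv => (d1 v hv).fderiv.trans (d2 v hv).fderiv.symm) h₀ he

theorem Sol.XA_glue (hW : W.Ok1) (hX : W.Sol X H) (e : ι × Bool) :
    ∀ v ∈ W.Ann e, W.XA X e v = W.XA X (op e) (W.s e.1 / v) := by
  have hn : ∀ {e v}, v ∈ W.Ann e → ‖v‖ < 2 * W.ρ e := fun hv => (hW.pl.ann_sub _ hv).2
  have key : ∀ e, 0 ≤ (W.c e).im → ∀ v ∈ W.Ann e,
      W.XA X e v = W.XA X (op e) (W.s e.1 / v) := fun e he => by
    have h1 := hW.pl.rin_pos e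
    have h2 := hW.pl.rin_mu e
    have h3 := hW.pl.mu_ρ e
    have h4 : ‖(W.mu e : ℂ) * I‖ = W.mu e := by
      rw [norm_mul, norm_I, mul_one, norm_real, Real.norm_of_nonneg (by linarith)]
    have h5 : (W.mu e : ℂ) * I ∈ W.Ann e := ⟨by rw [h4]; linarith, by rw [h4]; linarith⟩
    have h6 : 0 ≤ (W.c e + W.mu e * I).im := by
      simp only [add_im, mul_im, ofReal_re, I_im, mul_one, ofReal_im, I_re, mul_zero, add_zero]
      linarith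
    refine hX.toSolX.XA_glue hW h5 ?_
    rw [XA_eq hW.toOk0 (hn h5) h6, XA_eq hW.toOk0 (hn (hW.pl.ann_op h5))
      ((hW.toOk0.partner h5).1 h6), hX.glueX e _ h5 he h6]
  have cj : ∀ e, ∀ v ∈ W.Ann e, W.XA X (W.κ e.1, e.2) (conj v) = -conj (W.XA X e v) :=
    fun e v hv => by
      have hb := mem_ball_zero_iff.2 (hn hv)
      rw [XA, XA, hW.sy.c, hW.yconj e v hb, Dat.Xg_neg, ← map_add,
        hX.toSolX.Xg_conj hW (hW.pl.ann2_mem (hW.pl.ann_sub e hv)) (hW.ysq e v hb)]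
  intro v hv
  rcases le_total 0 (W.c e).im with he | he
  · exact key e he v hv
  · have h1 := key (W.κ e.1, e.2) (by rw [hW.sy.c, conj_im]; linarith) _ (hW.sy.ann hv)
    have h2 := cj (op e) _ (hW.pl.ann_op hv)
    rw [map_div₀, ← hW.sy.s] at h2
    rw [cj e v hv] at h1
    exact (starRingEnd ℂ).injective (neg_injective (h1.trans h2))

end Wd

end Pool.Agent.MP_92463a_gt
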