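import Pool.Agent.MP_92463a_gt.Emb2
import Pool.Agent.MP_92463a_gt.WLF

open Set Complex Filter Metric
open scoped Topology ComplexConjugate ContDiff Manifold

noncomputable section

namespace Pool.Agent.MP_92463a_gt

theorem WNeck_near {a a' x x₀ : ℂ} (h1 : ‖x₀ - a‖ ≤ ‖a‖ / 1000) (h2 : ‖x₀ - a'‖ ≤ ‖a'‖ / 1000)
    (h3 : ‖x - a'‖ ≤ ‖a'‖ / 1000) : ‖x - a‖ ≤ ‖a‖ / 100 := by
  have e1 : ‖a' - a‖ ≤ ‖x₀ - a‖ + ‖x₀ - a'‖ := by
    rw [show a' - a = (x₀ - a) - (x₀ - a') by ring]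
    exact norm_sub_le _ _
  have e2 : ‖a'‖ ≤ ‖a' - a‖ + ‖a‖ := by simpa using norm_add_le (a' - a) a
  have e3 : ‖x - a‖ ≤ ‖x - a'‖ + ‖a' - a‖ := by simpa using norm_add_le (x - a') (a' - a)
  linarith [norm_nonneg a]

theorem WNeck_mul {a x : ℂ} (c : ℂ) (h : ‖x - a‖ ≤ ‖a‖ / 1000) :
    ‖c * x - c * a‖ ≤ ‖c * a‖ / 1000 := by
  rw [← mul_sub, norm_mul, norm_mul, mul_div_assoc]
  exact mul_le_mul_of_nonneg_left h (norm_nonneg c)

theorem Wd.Sol.neck {ι : Type} [Fintype ι] {W : Wd ι} {X : ℂ → ℂ} {H : ℂ → ℝ} (hW : W.Ok1)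
    (hX : W.Sol X H) (k : ι) {R m : Bool → ℝ} {α β : Bool → ℂ}
    (hR : ∀ b, W.mu (k, b) ≤ R b ∧ R b < W.ρ (k, b)) (hm : ∀ b, m b ≠ 0)
    (h : ∀ b, ∀ v : ℂ, W.mu (k, b) ≤ ‖v‖ → ‖v‖ ≤ R b →
      ‖W.fs (k, b) v * v ^ 2 - α b‖ ≤ ‖α b‖ / 1000 ∧ ‖W.fr (k, b) v - β b‖ ≤ ‖β b‖ / 1000 ∧
        ‖W.f3 (k, b) v * v - m b‖ ≤ |m b| / 1000)
    {b b' : Bool} {t t' : ℂ} (ht : t ∈ W.Q) (ht' : t' ∈ W.Q) (hf : t ∈ W.Fd) (hf' : t' ∈ W.Fd)
    (hb : ‖t - W.c (k, b)‖ ≤ R b) (hb' : ‖t' - W.c (k, b')‖ ≤ R b') (he : X t = X t')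
    (hH : H t = H t') : W.Same t t' := by
  have hP := hW.pl
  have hs : W.s k ≠ 0 := hP.s_ne k
  have hs' : 0 < ‖W.s k‖ := norm_pos_iff.2 hs
  have hμ : ∀ e, 0 < W.mu e := fun e => by linarith [hP.rin_pos e, hP.rin_mu e]
  have hμμ : W.mu (k, false) * W.mu (k, true) = ‖W.s k‖ := hP.mu_mul (k, false)
  have hR1 : 0 < R true := (hμ _).trans_le (hR true).1
  have hr : 0 < ‖W.s k‖ / R true := div_pos hs' hR1
  have hrμ : ‖W.s k‖ / R true ≤ W.mu (k, false) := by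
    rw [div_le_iff₀ hR1, ← hμμ]
    exact mul_le_mul_of_nonneg_left (hR true).1 (hμ _).le
  have hA : ∀ v : ℂ, ‖W.s k‖ / R true ≤ ‖v‖ → ‖v‖ ≤ R false → v ∈ W.Ann (k, false) :=
    fun v h1 h2 => ⟨(div_lt_div_of_pos_left hs' hR1 (hR true).2).trans_le h1,
      h2.trans_lt (hR false).2⟩
  have inn : ∀ v : ℂ, ‖W.s k‖ / R true ≤ ‖v‖ → ‖v‖ ≤ W.mu (k, false) →
      ‖W.f1 (k, false) v * v ^ 2 - -W.s k * β true‖ ≤ ‖-W.s k * β true‖ / 1000 ∧
      ‖W.f2 (k, false) v - -(W.s k)⁻¹ * α true‖ ≤ ‖-(W.s k)⁻¹ * α true‖ / 1000 ∧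
      ‖W.f3 (k, false) v * v - -1 * (m true : ℂ)‖ ≤ ‖-1 * (m true : ℂ)‖ / 1000 := by
    intro v h1 h2
    have hv := hA v h1 (h2.trans (hR false).1)
    have h0 : v ≠ 0 := hP.ann_ne hv
    have h0' : 0 < ‖v‖ := norm_pos_iff.2 h0
    obtain ⟨a1, a2, a3⟩ := h true (W.s k / v)
      (by
        rw [norm_div, le_div_iff₀ h0', ← hμμ, mul_comm]
        exact mul_le_mul_of_nonneg_right h2 (hμ _).le)
      (by
        rw [norm_div, div_le_iff₀ h0', mul_comm]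
        exact (div_le_iff₀ hR1).1 h1)
    have e1 : W.f1 (k, false) v = -(W.s k / v ^ 2) * W.f1 (k, true) (W.s k / v) := hW.m1.mt _ v hv
    have e2 : W.f2 (k, false) v = -(W.s k / v ^ 2) * W.f2 (k, true) (W.s k / v) := hW.m2.mt _ v hv
    have e3 : W.f3 (k, false) v = -(W.s k / v ^ 2) * W.f3 (k, true) (W.s k / v) := hW.m3.mt _ v hv
    rw [← Real.norm_eq_abs, ← norm_real] at a3
    refine ⟨?_, ?_, ?_⟩
    · convert WNeck_mul (-W.s k) a2 using 3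
      rw [e1, show W.fr (k, true) = W.f1 (k, true) from rfl]
      field_simp
    · convert WNeck_mul (-(W.s k)⁻¹) a1 using 3
      rw [e2, show W.fs (k, true) = W.f2 (k, true) from rfl]
      field_simp
    · convert WNeck_mul (-1) a3 using 3
      rw [e3]
      field_simp
  have hn : ‖(W.mu (k, false) : ℂ)‖ = W.mu (k, false) := by
    rw [norm_real, Real.norm_of_nonneg (hμ _).le]
  obtain ⟨b1, b2, b3⟩ := inn (W.mu (k, false)) (hn.symm ▸ hrμ) hn.le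
  obtain ⟨c1, c2, c3⟩ := h false (W.mu (k, false)) hn.ge (hn.symm ▸ (hR false).1)
  rw [← Real.norm_eq_abs, ← norm_real] at c3
  have key : ∀ b t, t ∈ W.Q → t ∈ W.Fd → ‖t - W.c (k, b)‖ ≤ R b → ∃ v : ℂ,
      ‖W.s k‖ / R true ≤ ‖v‖ ∧ ‖v‖ ≤ R false ∧ W.XA X (k, false) v = X t ∧
        H (W.c (k, false) + v) = H t ∧
        (t = W.c (k, false) + v ∨ t = W.c (k, true) + W.s k / v) := by
    intro b t ht hf hb
    have h1 := hf (k, b)
    have h2 : t - W.c (k, b) ∈ W.Ann (k, b) :=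
      ⟨by linarith [hP.rin_pos (k, b), hP.rin_mu (k, b)], hb.trans_lt (hR b).2⟩
    have h3 : W.XA X (k, b) (t - W.c (k, b)) = X t := by
      rw [Wd.XA_eq hW.toOk0 (hP.ann_sub _ h2).2 (by simpa using ht.1.1), add_sub_cancel]
    have h0 : t - W.c (k, b) ≠ 0 := hP.ann_ne h2
    have h0' := norm_pos_iff.2 h0
    cases b
    · exact ⟨_, hrμ.trans h1, hb, h3, by rw [add_sub_cancel], Or.inl (by ring)⟩
    · refine ⟨W.s k / (t - W.c (k, true)), ?_, ?_, ?_, ?_, Or.inr ?_⟩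
      · rw [norm_div]
        exact div_le_div_of_nonneg_left hs'.le h0' hb
      · rw [norm_div, div_le_iff₀ h0', ← hμμ]
        exact mul_le_mul (hR false).1 h1 (hμ _).le ((hμ _).le.trans (hR false).1)
      · exact (hX.XA_glue hW _ _ h2).symm.trans h3
      · have h4 := hX.glueH _ _ h2
        rw [add_sub_cancel] at h4
        exact h4.symm
      · field_simp
        ring
  obtain ⟨v, v1, v2, v3, v4, v5⟩ := key b t ht hf hb
  obtain ⟨v', w1, w2, w3, w4, w5⟩ := key b' t' ht' hf' hb'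
  have hv := hA v v1 v2
  obtain rfl : v = v' := by
    refine neck_inj (X := W.XA X (k, false)) (H := fun v => H (W.c (k, false) + v))
      (f₁ := W.f1 (k, false)) (f₂ := W.f2 (k, false)) (f₃ := W.f3 (k, false)) (α := α false)
      (β := β false) hr (hm false) (fun u h1 h2 => ?_) v1 v2 w1 w2 (by rw [v3, w3, he])
      (by simp only [v4, w4, hH])
    have hu := hP.ann_sub _ (hA u h1 h2)
    refine ⟨hX.toSolX.XA_der hW hu, ?_, hW.toOk0.f_mul hu.2, ?_⟩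
    · exact (hasFDerivAt_comp_add_left _).2 (hX.derH _ (hP.ann2_mem hu)
        (Dat.LF_notE (hW.free _ u (mem_ball_zero_iff.2 hu.2))))
    · rcases le_total ‖u‖ (W.mu (k, false)) with h3 | h3
      · obtain ⟨a1, a2, a3⟩ := inn u h1 h3
        refine ⟨WNeck_near c1 b1 a1, WNeck_near c2 b2 a2, ?_⟩
        rw [← Real.norm_eq_abs, ← norm_real]
        exact WNeck_near c3 b3 a3
      · obtain ⟨a1, a2, a3⟩ := h false u h3 h2
        exact ⟨a1.trans (by linarith [norm_nonneg (α false)]),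
          a2.trans (by linarith [norm_nonneg (β false)]),
          a3.trans (by linarith [abs_nonneg (m false)])⟩
  rcases v5 with rfl | rfl <;> rcases w5 with rfl | rfl
  · exact Or.inl rfl
  · exact Or.inr ⟨_, v, hv, rfl, rfl⟩
  · refine Or.inr ⟨(k, true), _, hP.ann_op hv, rfl, ?_⟩
    have h0 := hP.ann_ne hv
    change W.c (k, false) + v = W.c (k, false) + W.s k / (W.s k / v)
    field_simp
  · exact Or.inl rfl

end Pool.Agent.MP_92463a_gt
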