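import Pool.Agent.MP_92463a_gt.CfF2
import Pool.Agent.MP_92463a_gt.WNeck

open Set Complex Filter Metric
open scoped Topology ComplexConjugate ContDiff Manifold

noncomputable section

namespace Pool.Agent.MP_92463a_gt

theorem CfM_mul {x y a b : ℂ} {ε₁ ε₂ ε : ℝ} (h1 : ‖x - a‖ ≤ ε₁ * ‖a‖) (h2 : ‖y - b‖ ≤ ε₂ * ‖b‖)
    (h : ε₁ + ε₂ + ε₁ * ε₂ ≤ ε) : ‖x * y - a * b‖ ≤ ε * ‖a * b‖ := by
  have e : x * y - a * b = (x - a) * (y - b) + (x - a) * b + a * (y - b) := by ring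
  have h3 := mul_le_mul h1 h2 (norm_nonneg _) ((norm_nonneg _).trans h1)
  have h4 := mul_le_mul_of_nonneg_right h1 (norm_nonneg b)
  have h5 := mul_le_mul_of_nonneg_left h2 (norm_nonneg a)
  have h6 := mul_le_mul_of_nonneg_right h (mul_nonneg (norm_nonneg a) (norm_nonneg b))
  rw [e]
  refine norm_add₃_le.trans ?_
  simp only [norm_mul]
  linarith

theorem CfM_alg {s r m m' ρ c v κ κ' μ : ℂ} (h1 : ‖s * v - ρ‖ ≤ 1 / 10000 * ‖ρ‖)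
    (h2 : ‖r - 1‖ ≤ 1 / 10000) (h3 : ‖m - 1‖ ≤ 1 / 10000) (h4 : ‖m' - 1‖ ≤ 1 / 10000)
    (h5 : ‖ρ / c - μ‖ ≤ 1 / 10000 * ‖μ‖) :
    ‖(m * s) ^ 2 * κ * v ^ 2 - ρ ^ 2 * κ‖ ≤ ‖ρ ^ 2 * κ‖ / 1000 ∧
      ‖(m' * r) ^ 2 * κ' - κ'‖ ≤ ‖κ'‖ / 1000 ∧ ‖m * s * (m' * r) / c * v - μ‖ ≤ ‖μ‖ / 1000 := by
  have o : ∀ {z : ℂ}, ‖z - 1‖ ≤ 1 / 10000 → ‖z - 1‖ ≤ 1 / 10000 * ‖(1 : ℂ)‖ := fun h => by
    simpa using h
  have z : ∀ a : ℂ, ‖a - a‖ ≤ 0 * ‖a‖ := fun a => by simp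
  have a1 := CfM_mul (o h3) h1 (ε := 3 / 10000) (by norm_num)
  have a2 := CfM_mul (o h4) (o h2) (ε := 3 / 10000) (by norm_num)
  have a3 := CfM_mul (CfM_mul a1 a1 (ε := 1 / 1000) (by norm_num)) (z κ) (ε := 1 / 1000)
    (by norm_num)
  have a4 := CfM_mul (CfM_mul a2 a2 (ε := 1 / 1000) (by norm_num)) (z κ') (ε := 1 / 1000)
    (by norm_num)
  have a5 := CfM_mul (CfM_mul a1 a2 (ε := 7 / 10000) (by norm_num)) (z c⁻¹) (ε := 7 / 10000)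
    (by norm_num)
  simp only [one_mul, mul_one, ← div_eq_mul_inv] at a3 a4 a5
  refine ⟨?_, ?_, ?_⟩
  · convert a3 using 2
    · ring
    · rw [sq]
      ring
  · convert a4 using 2
    · ring
    · ring
  · have b1 := norm_sub_le_norm_sub_add_norm_sub (m * (s * v) * (m' * r) / c) (ρ / c) μ
    have b2 := norm_le_norm_add_norm_sub' (ρ / c) μ
    have b3 := norm_nonneg μ
    rw [show m * s * (m' * r) / c * v = m * (s * v) * (m' * r) / c by ring]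
    linarith

theorem CfM_est {γ : ℕ} {ψ v a : ℂ} {ρ d : Fin γ → ℂ} {k : Fin γ} {ε η : ℝ}
    (hψ : ‖ψ - (1 + a + ∑ j, ρ j / d j)‖ ≤ ε * (1 + ∑ j, ‖ρ j‖ / ‖d j‖)) (hk : d k = v)
    (hv : v ≠ 0) (hε : ε ≤ 1) (h1 : ‖v‖ ≤ η) (h2 : ‖a * v‖ ≤ η)
    (h3 : ∀ j, j ≠ k → ‖ρ j‖ / ‖d j‖ * ‖v‖ ≤ η) :
    ‖ψ * v - ρ k‖ ≤ ε * ‖ρ k‖ + (3 + 2 * γ) * η := by
  have hv' : ‖v‖ ≠ 0 := norm_ne_zero_iff.2 hv
  have hη := (norm_nonneg v).trans h1
  rw [← Finset.add_sum_erase _ _ (Finset.mem_univ k),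
    ← Finset.add_sum_erase _ _ (Finset.mem_univ k), hk] at hψ
  have s1 : ‖∑ j ∈ Finset.univ.erase k, ρ j / d j‖ ≤ ∑ j ∈ Finset.univ.erase k, ‖ρ j‖ / ‖d j‖ :=
    (norm_sum_le _ _).trans_eq (by simp only [norm_div])
  have s2 : (∑ j ∈ Finset.univ.erase k, ‖ρ j‖ / ‖d j‖) * ‖v‖ ≤ γ * η := by
    rw [Finset.sum_mul]
    refine (Finset.sum_le_card_nsmul _ _ η fun j hj => h3 j (Finset.ne_of_mem_erase hj)).trans ?_
    rw [nsmul_eq_mul]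
    refine mul_le_mul_of_nonneg_right ?_ hη
    exact_mod_cast (Finset.card_le_univ _).trans_eq (Fintype.card_fin γ)
  generalize ∑ j ∈ Finset.univ.erase k, ρ j / d j = S at *
  generalize ∑ j ∈ Finset.univ.erase k, ‖ρ j‖ / ‖d j‖ = S' at *
  have e : ψ * v - ρ k = (ψ - (1 + a + (ρ k / v + S))) * v + v + (a * v + S * v) := by
    field_simp
    ring
  have s3 := mul_le_mul_of_nonneg_right hψ (norm_nonneg v)
  have s4 : ε * (1 + (‖ρ k‖ / ‖v‖ + S')) * ‖v‖ = ε * ‖ρ k‖ + ε * (‖v‖ + S' * ‖v‖) := by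
    field_simp
    ring
  have s5 := mul_le_mul_of_nonneg_right s1 (norm_nonneg v)
  have s6 : ε * (‖v‖ + S' * ‖v‖) ≤ ‖v‖ + S' * ‖v‖ := mul_le_of_le_one_left
    (add_nonneg (norm_nonneg v) ((mul_nonneg (norm_nonneg S) (norm_nonneg v)).trans s5)) hε
  have s7 := norm_add_le (a * v) (S * v)
  rw [e]
  refine norm_add₃_le.trans ?_
  rw [norm_mul S] at s7
  rw [norm_mul]
  linarith

theorem CfM_small (K : ℝ) {ε : ℝ} (hε : 0 < ε) : ∀ᶠ θ in 𝓝[>] (0 : ℝ), θ * K < ε := by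
  have : Tendsto (fun θ : ℝ => θ * K) (𝓝 0) (𝓝 (0 * K)) := tendsto_id.mul_const K
  exact nhdsWithin_le_nhds (this.eventually_lt_const (by simpa using hε))

variable {γ : ℕ} {α : Type} {l : Filter α} {C : α → Cfg γ} {D₀ : Dat} {z₀ : Zs γ}

theorem CfM_geo {C : Cfg γ} (h : C.G0) {θ : ℝ} (hθ : θ * (16 * γ) < 1) {e : Fin γ × Bool} {v : ℂ}
    (h1 : C.pl.mu e ≤ ‖v‖) (h2 : ‖v‖ ≤ θ * ‖C.τ e‖) :
    v ≠ 0 ∧ ‖v‖ / ‖C.τ e + v‖ ≤ 2 * θ ∧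
      (∀ j, j ≠ e.1 → ‖v‖ / ‖C.τ e + v - C.τ (j, e.2)‖ ≤ γ * θ) ∧ ‖C.τ e + v‖ ≤ C.D.b 0 ∧
      -C.bb e.2 + (C.τ e + v) ∈ C.pl.Fd := by
  obtain ⟨k, b⟩ := e
  have hγ : (1 : ℝ) ≤ γ := by exact_mod_cast h.pos
  have hτ : 0 < ‖C.τ (k, b)‖ := norm_pos_iff.2 (Cfg.τ_ne _)
  have hv : 0 < ‖v‖ := by
    refine lt_of_lt_of_le ?_ h1
    rw [h.mu_eq]
    exact mul_pos hτ (norm_pos_iff.2 (h.vs_ne _))
  have hθ0 : 0 < θ := (mul_pos_iff_of_pos_right hτ).1 (hv.trans_le h2)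
  have h3 : ‖v‖ ≤ ‖C.τ (k, b)‖ / γ := by
    rw [le_div_iff₀ (by linarith)]
    nlinarith [mul_le_mul_of_nonneg_right h2 (show (0 : ℝ) ≤ γ by linarith)]
  have h4 : ‖v‖ ≤ ‖C.τ (k, b)‖ / 2 := by nlinarith
  have h5 : ∀ j, j ≠ k → ‖C.τ (k, b)‖ / γ ≤ ‖C.τ (k, b) + v - C.τ (j, b)‖ := fun j hj => by
    have a1 := (h.sep hj b).2
    have a2 := norm_sub_le v (C.τ (k, b) + v - C.τ (j, b))
    rw [show v - (C.τ (k, b) + v - C.τ (j, b)) = C.τ (j, b) - C.τ (k, b) by ring] at a2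
    have a3 : 2 / (γ : ℝ) * ‖C.τ (k, b)‖ = 2 * (‖C.τ (k, b)‖ / γ) := by ring
    linarith
  have h6 := norm_sub_le (C.τ (k, b) + v) v
  rw [add_sub_cancel_right] at h6
  have h7 : ‖C.τ (k, b) + v‖ ≤ C.D.b 0 := by
    linarith [norm_add_le (C.τ (k, b)) v, h.τ (k, b)]
  refine ⟨norm_pos_iff.1 hv, ?_, fun j hj => ?_, h7, h.mem_fd h7 fun j => ?_⟩
  · rw [div_le_iff₀ (by linarith)]
    nlinarith
  · have a1 := h5 j hj
    have a2 : 0 < ‖C.τ (k, b)‖ / γ := by positivity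
    rw [div_le_iff₀ (a2.trans_le a1)]
    rw [div_le_iff₀ (by linarith)] at a1
    nlinarith
  · rcases eq_or_ne j k with rfl | hj
    · rwa [add_sub_cancel_left]
    · refine le_trans ?_ (h5 j hj)
      have a1 := (h.rad (j, b)).2
      have a2 := (h.rad (k, b)).1
      have a3 := mul_le_mul_of_nonneg_left (h.vs j) (norm_nonneg (C.τ (j, b)))
      rw [Cfg.mm, h.mu_eq]
      refine a3.trans ?_
      rw [mul_one_div, div_le_div_iff₀ (by linarith) (by linarith)]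
      nlinarith

theorem CfM_m {C : Cfg γ} (h : C.G0) {m : Fin γ × Bool → ℂ → ℂ} (hm : C.pl.Wt m) {θ : ℝ}
    (hθ : θ * (16 * γ) < 1) {e : Fin γ × Bool} {v : ℂ} (h2 : ‖v‖ ≤ θ * ‖C.τ e‖) :
    ‖v‖ < C.pl.ρ e ∧ ‖m e v - 1‖ ≤ θ * (4 * γ) := by
  have hγ : (0 : ℝ) < γ := by exact_mod_cast h.pos
  have hτ : 0 < ‖C.τ e‖ := norm_pos_iff.2 (Cfg.τ_ne _)
  have e1 : C.pl.ρ e = ‖C.τ e‖ / (16 * γ) := rfl
  have h3 : ‖v‖ < C.pl.ρ e := by
    rw [e1, lt_div_iff₀ (by positivity)]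
    nlinarith [mul_le_mul_of_nonneg_right h2 (show (0 : ℝ) ≤ 16 * γ by positivity)]
  refine ⟨h3, (hm.schwarz (by linarith [norm_nonneg v])).trans ?_⟩
  rw [div_le_iff₀ (by linarith [norm_nonneg v]), e1]
  refine h2.trans_eq ?_
  field_simp
  ring

theorem CfM_rc [l.NeBot] (h : Lim l C D₀ 0) {ε : ℝ} (hε : 0 < ε) (e : Fin γ × Bool) : ∀ᶠ x in l,
    ‖(C x).rr e / (C x).c e - (if e.2 then 1 else -1) * ((C x).E / (C x).L : ℝ)‖ ≤
      ε * ((C x).E / (C x).L) := by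
  have hb : (D₀.b (jj e.2) : ℂ) ≠ 0 :=
    ofReal_ne_zero.2 ((h.adm₀.bb e.2).1.trans_le (h.adm₀.bb e.2).2.1).ne'
  have h1 := (((h.rr e).div (h.tau0 e).2.2.1 (neg_ne_zero.2 hb)).sub
    (((continuous_ofReal.tendsto _).comp h.E).const_mul (if e.2 then (1 : ℂ) else -1))).norm
  have h2 : ((if e.2 then -D₀.b 1 else D₀.b 0 : ℝ) : ℂ) * (cf D₀ (0 : Zs γ)).E *
      (0 : Zs γ).eh e.1 / -(D₀.b (jj e.2) : ℂ) -
      (if e.2 then (1 : ℂ) else -1) * (cf D₀ (0 : Zs γ)).E = 0 := by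
    rw [ZsB_eh_zero]
    obtain ⟨k, _ | _⟩ := e
    · simp only [jj, Bool.false_eq_true, if_false] at hb ⊢
      field_simp
      ring
    · simp only [jj, if_true, ofReal_neg] at hb ⊢
      field_simp
      ring
  rw [h2, norm_zero] at h1
  filter_upwards [h1.eventually_lt (h.E.const_mul ε) (mul_pos hε h.adm₀.E_pos),
    h.L.eventually_gt_atTop 0] with x h3 h4
  have h5 : ((C x).L : ℂ) ≠ 0 := ofReal_ne_zero.2 h4.ne'
  have e1 : (C x).rr e / (C x).c e - (if e.2 then 1 else -1) * ((C x).E / (C x).L : ℝ) =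
      ((C x).L * (C x).rr e / (C x).c e - (if e.2 then 1 else -1) * ((C x).E : ℂ)) / (C x).L := by
    push_cast
    field_simp
  rw [e1, norm_div, Complex.norm_real, Real.norm_of_nonneg h4.le, ← mul_div_assoc ε]
  exact div_le_div_of_nonneg_right h3.le h4.le

theorem Lim.neck_est (h : Lim l C D₀ 0) : ∀ ε > 0, ∀ᶠ θ in 𝓝[>] (0 : ℝ), ∀ᶠ x in l, ∀ e,
    ∀ v : ℂ, (C x).pl.mu e ≤ ‖v‖ → ‖v‖ ≤ θ * ‖(C x).τ e‖ →
      ‖(C x).wd.ψs e.2 ((C x).c e + v) * v - (C x).rr e‖ ≤ ε * ‖(C x).rr e‖ ∧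
      ‖(C x).wd.ψr e.2 ((C x).c e + v) - 1‖ ≤ ε ∧ ‖(C x).m1 e v - 1‖ ≤ ε ∧
      ‖(C x).m2 e v - 1‖ ≤ ε ∧
      ‖(C x).rr e / (C x).c e - (if e.2 then 1 else -1) * ((C x).E / (C x).L : ℝ)‖ ≤
        ε * ((C x).E / (C x).L) := by
  intro ε hε
  rcases l.eq_or_neBot with rfl | hl
  · exact Eventually.of_forall fun _ => eventually_bot
  obtain ⟨m, hm, M, hM⟩ := h.bds
  have hL : ∀ᶠ x in l, ∀ e, ‖(C x).L * (C x).τ e‖ < 1 := eventually_all.2 fun e =>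
    (h.tau0 e).2.1.norm.eventually_lt_const (by simp)
  filter_upwards [CfM_small (16 * γ) one_pos, CfM_small (4 * γ) hε,
    CfM_small ((3 + 2 * γ) * (1 + 2 * M ^ 2 + γ * M)) (half_pos (mul_pos hε hm)),
    self_mem_nhdsWithin] with θ t1 t2 t3 t4
  filter_upwards [hM, hL, h.g0, h.w12, h.psr ε hε,
    h.pss (min 1 (ε / 2)) (lt_min one_pos (half_pos hε)),
    eventually_all.2 (CfM_rc h hε)] with x a1 a2 a3 a4 a5 a6 a7 e v h1 h2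
  obtain ⟨b1, b2, b3, b4, b5⟩ := CfM_geo a3.1 t1 h1 h2
  have e1 : (C x).c e + v = -(C x).bb e.2 + ((C x).τ e + v) := add_assoc _ _ _
  refine ⟨?_, e1 ▸ a5 _ _ b4 b5, (CfM_m a3.1 a4.1 t1 h2).2.trans t2.le,
    (CfM_m a3.1 a4.2 t1 h2).2.trans t2.le, a7 e⟩
  have hθ : 0 < θ := t4
  have hγ : (0 : ℝ) ≤ γ := γ.cast_nonneg
  have hL0 : 0 < (C x).L := one_pos.trans_le a3.1.L
  have hb := a3.1.bb e.2
  have c1 := (a1.2 e).2.2.1.1
  have hM0 : 0 < M := hm.trans_le (c1.trans (a1.2 e).2.2.1.2)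
  have c2 : (C x).D.b 0 ≤ M := hb.2.1.trans (a1.2 e).2.2.2.2.2.2
  have k1 : 0 ≤ θ * (2 * M ^ 2) := by positivity
  have k2 : 0 ≤ θ * (γ * M) := by positivity
  have h3 := CfM_est (k := e.1) (v := v) (η := θ * (1 + 2 * M ^ 2 + γ * M) / (C x).L)
    (a6 _ _ b5) (add_sub_cancel_left _ _) b1 (min_le_left _ _) ?_ ?_ fun j hj => ?_
  · rw [e1]
    refine h3.trans ?_
    have c3 := mul_le_mul_of_nonneg_right (min_le_right 1 (ε / 2)) (norm_nonneg ((C x).rr e))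
    have c4 : (3 + 2 * γ) * (θ * (1 + 2 * M ^ 2 + γ * M) / (C x).L) ≤ ε / 2 * ‖(C x).rr e‖ := by
      rw [← mul_div_assoc, div_le_iff₀ hL0]
      nlinarith [mul_le_mul_of_nonneg_left c1 hε.le]
    linarith
  · have c3 := a2 e
    rw [norm_mul, Complex.norm_real, Real.norm_of_nonneg hL0.le] at c3
    rw [le_div_iff₀ hL0]
    nlinarith [mul_le_mul_of_nonneg_right h2 hL0.le, mul_le_mul_of_nonneg_left c3.le hθ.le]
  · rw [le_div_iff₀ hL0]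
    split_ifs
    · rw [zero_mul, norm_zero, zero_mul]
      positivity
    · have c3 := mul_le_mul (mul_le_mul a1.1 c2 hb.1.le hM0.le) b2 (by positivity) (by positivity)
      rw [norm_mul, norm_div, norm_mul, Complex.norm_real, Complex.norm_real,
        Real.norm_of_nonneg hb.1.le, Real.norm_eq_abs]
      refine le_trans (le_of_eq ?_) (c3.trans ?_)
      · ring
      · linarith
  · rw [le_div_iff₀ hL0]
    have c3 := mul_le_mul (a1.2 (j, e.2)).2.2.1.2 (b3 j hj) (by positivity) hM0.le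
    refine le_trans (le_of_eq ?_) (c3.trans ?_)
    · ring
    · linarith

theorem Lim.neck (h : Lim l C D₀ 0) : ∀ᶠ θ in 𝓝[>] (0 : ℝ), ∀ᶠ x in l, ∀ X H,
    (C x).wd.Sol X H → ∀ k b b' t t', t ∈ (C x).wd.Q → t' ∈ (C x).wd.Q → t ∈ (C x).pl.Fd →
      t' ∈ (C x).pl.Fd → ‖t - (C x).c (k, b)‖ ≤ θ * ‖(C x).τ (k, b)‖ →
      ‖t' - (C x).c (k, b')‖ ≤ θ * ‖(C x).τ (k, b')‖ → X t = X t' → H t = H t' →
      (C x).wd.Same t t' := by
  filter_upwards [h.neck_est (1 / 10000) (by norm_num), CfM_small (16 * γ) one_pos,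
    self_mem_nhdsWithin] with θ t1 t2 t3
  have hv : ∀ᶠ x in l, ∀ k, ‖(C x).vs k‖ < θ := eventually_all.2 fun k =>
    (h.vs0 k).1.norm.eventually_lt_const (by simpa using t3)
  filter_upwards [t1, hv, h.fine] with x a1 a2 a3 X H hX k b b' t t' h1 h2 h3 h4 h5 h6 h7 h8
  have g0 := a3.toGood.g0
  have hθ : 0 < θ := t3
  have hE : 0 < (C x).E / (C x).L := div_pos g0.E_pos (one_pos.trans_le g0.L)
  refine hX.neck a3.toGood.ok1 k (R := fun b => θ * ‖(C x).τ (k, b)‖)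
    (m := fun b => (if b then 1 else -1) * ((C x).E / (C x).L))
    (α := fun b => (C x).rr (k, b) ^ 2 * if b then ((C x).Ge (k, b) 0 * (C x).c (k, b))⁻¹
      else (C x).Ge (k, b) 0 / (C x).c (k, b))
    (β := fun b => if b then (C x).Ge (k, b) 0 / (C x).c (k, b)
      else ((C x).Ge (k, b) 0 * (C x).c (k, b))⁻¹)
    (fun b => ⟨?_, ?_⟩) (fun b => ?_) (fun b v h9 h10 => ?_) h1 h2 h3 h4 h5 h6 h7 h8
  · refine (g0.mu_eq (k, b)).trans_le ?_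
    rw [mul_comm]
    exact mul_le_mul_of_nonneg_right (a2 k).le (norm_nonneg _)
  · have e1 : ‖(θ : ℂ) * (C x).τ (k, b)‖ = θ * ‖(C x).τ (k, b)‖ := by
      rw [norm_mul, Complex.norm_real, Real.norm_of_nonneg hθ.le]
    exact e1 ▸ (CfM_m g0 a3.w1 t2 e1.le).1
  · cases b <;> simpa using hE.ne'
  · obtain ⟨b1, b2, b3, b4, b5⟩ := a1 (k, b) v h9 h10
    have c1 := (CfM_m g0 a3.w1 t2 h10).1
    obtain ⟨f1, f2, f3⟩ := g0.f_eq (e := (k, b)) (v := v) (by linarith [norm_nonneg v])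
    have e1 : ‖(if b then (1 : ℂ) else -1) * ((C x).E / (C x).L : ℝ)‖ = (C x).E / (C x).L := by
      rw [norm_mul, Complex.norm_real, Real.norm_of_nonneg hE.le]
      cases b <;> simp
    have e2 : |(if b then (1 : ℝ) else -1) * ((C x).E / (C x).L)| = (C x).E / (C x).L := by
      rw [abs_mul, abs_of_pos hE]
      cases b <;> simp
    have e3 : (((if b then (1 : ℝ) else -1) * ((C x).E / (C x).L) : ℝ) : ℂ) =
        (if b then (1 : ℂ) else -1) * ((C x).E / (C x).L : ℝ) := by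
      cases b <;> simp
    rw [e2, e3, f3]
    nth_rewrite 2 [← e1] at b5
    nth_rewrite 2 [← e1]
    cases b
    · simp only [Wd.fs, Wd.fr, Bool.false_eq_true, if_false, f1, f2]
      exact CfM_alg b1 b2 b3 b4 b5
    · simp only [Wd.fs, Wd.fr, if_true, f1, f2]
      rw [mul_comm ((C x).m1 (k, true) v * _)]
      exact CfM_alg b1 b2 b4 b3 b5

end Pool.Agent.MP_92463a_gt
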