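import Pool.Agent.MP_92463a_gt.Emb4

open Set Complex Filter Metric
open scoped Topology ComplexConjugate ContDiff Manifold

noncomputable section

namespace Pool.Agent.MP_92463a_gt

variable {κ : Type} {T : κ → ℂ} {μ : κ → ℝ} {R δ ε K : ℝ} {c : ℂ} {f₁ f₂ X : ℂ → ℂ}

theorem Emb3_dir {a b : ℂ} (ha : a ≠ 0) (hb : b ≠ 0) :
    ‖a / (‖a‖ : ℂ) - b / (‖b‖ : ℂ)‖ * ‖b‖ ≤ 2 * ‖a - b‖ := by
  have ha' : (‖a‖ : ℂ) ≠ 0 := by simpa using ha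
  have hb' : (‖b‖ : ℂ) ≠ 0 := by simpa using hb
  have e : (a / (‖a‖ : ℂ) - b / (‖b‖ : ℂ)) * (‖b‖ : ℂ) =
      (a - b) + a / (‖a‖ : ℂ) * ((‖b‖ - ‖a‖ : ℝ) : ℂ) := by
    push_cast
    field_simp
    ring
  have e2 := congrArg norm e
  rw [norm_mul, norm_real, norm_norm] at e2
  rw [e2]
  refine (norm_add_le _ _).trans ?_
  rw [norm_mul, norm_div, norm_real, norm_norm, div_self (norm_ne_zero_iff.2 ha), one_mul,
    norm_real, Real.norm_eq_abs]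
  have := abs_norm_sub_norm_le b a
  rw [norm_sub_rev] at this
  linarith

theorem Emb3_T (h : Sh0 T μ R δ ε K c f₁ f₂) (k : κ) : 0 < ‖T k‖ := by
  linarith [(h.rad k).1, h.R_pos]

theorem Emb3_one (h : Sh0 T μ R δ ε K c f₁ f₂) {t : ℂ} (ht : t ≠ 0) {s s' : ℝ} (hs : 0 < s)
    (hs' : 0 < s') {j k : κ} (h1 : ‖s * t - T j‖ < ε * ‖T j‖) (h2 : ‖s' * t - T k‖ ≤ ε * ‖T k‖) :
    j = k := by
  by_contra hne
  have key : ∀ (u : ℝ) (i : κ), 0 < u →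
      ‖t / (‖t‖ : ℂ) - T i / (‖T i‖ : ℂ)‖ * ‖T i‖ ≤ 2 * ‖u * t - T i‖ := fun u i hu => by
    have hu' : (u : ℂ) ≠ 0 := ofReal_ne_zero.2 hu.ne'
    have := Emb3_dir (mul_ne_zero hu' ht) (norm_pos_iff.1 (Emb3_T h i))
    rwa [norm_mul (u : ℂ), norm_real, Real.norm_of_nonneg hu.le, ofReal_mul,
      mul_div_mul_left _ _ hu'] at this
  have a1 : ‖t / (‖t‖ : ℂ) - T j / (‖T j‖ : ℂ)‖ < 2 * ε :=
    lt_of_mul_lt_mul_right (by linarith [key s j hs]) (Emb3_T h j).le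
  have a2 : ‖t / (‖t‖ : ℂ) - T k / (‖T k‖ : ℂ)‖ ≤ 2 * ε :=
    le_of_mul_le_mul_right (by linarith [key s' k hs']) (Emb3_T h k)
  rw [norm_sub_rev] at a1
  linarith [h.sep j k hne, norm_sub_le_norm_sub_add_norm_sub (T j / (‖T j‖ : ℂ)) (t / (‖t‖ : ℂ))
    (T k / (‖T k‖ : ℂ))]

theorem Emb3_zero (h : Sheet T μ R δ ε K c f₁ f₂ X) {τ : ℂ} (h₁ : 0 ≤ τ.im) (h₀ : τ ≠ 0)
    (hr : ‖τ‖ ≤ R / 2 ∨ 2 * R ≤ ‖τ‖ ∧ ‖τ‖ < δ) :
    ‖X τ + 2 * c * pw (-1 / 2) τ‖ ≤ 14 * ε * ‖c‖ * ‖τ‖ ^ (-1 / 2 : ℝ) := by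
  have hp := norm_pos_iff.2 h₀
  have hR := h.R_pos
  have far : ∀ t : ℂ, ‖t‖ = ‖τ‖ → ∀ k, ε * ‖T k‖ ≤ ‖t - T k‖ := fun t ht k => by
    have a := abs_le.1 (abs_norm_sub_norm_le t (T k))
    have b := h.rad k
    have : ε * ‖T k‖ ≤ 1 / 100 * ‖T k‖ := mul_le_mul_of_nonneg_right h.ε_le (norm_nonneg _)
    rcases hr with hr | hr <;> linarith [a.1, a.2, b.1, b.2, hr]
  have mem : ∀ t : ℂ, 0 ≤ t.im → ‖t‖ = ‖τ‖ → t ∈ SS T μ δ := fun t h1 ht =>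
    ⟨h1, norm_pos_iff.1 (ht ▸ hp), by rcases hr with hr | hr <;> linarith [h.R_le, hr],
      fun k => (h.mu k).2.trans (far t ht k)⟩
  have := arc_model (c := c) (ε := 2 * ε) h.path (Or.inr rfl) hp (fun t h1 ht => ⟨mem t h1 ht, ?_⟩)
    (h.bd _ hp (mem _ (by simp) (by simp)) (mem _ (by simp) (by simp))) h₁ rfl
  · convert this using 2
    · push_cast
      ring
    · ring
  · rw [Mod, show (-1 / 2 : ℝ) - 1 = -3 / 2 by norm_num]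
    linarith [h.main t (mem t h1 ht), h.far t (mem t h1 ht) (far t ht)]

theorem Emb3_seg (h : Sheet T μ R δ ε K c f₁ f₂ X) {t₀ t₁ : ℂ} {M L : ℝ} (hM : 0 ≤ M)
    (hL : ‖t₁ - t₀‖ ≤ L * R) (hS : ∀ x ∈ Icc (0 : ℝ) 1, ∀ t, t = t₀ + x * (t₁ - t₀) →
      t ∈ SS T μ δ ∧ R / 2 ≤ ‖t‖ ∧ ‖f₂ t‖ ≤ M * ‖c‖ * ‖t‖ ^ (-3 / 2 : ℝ)) :
    ‖X t₀ + 2 * c * pw (-1 / 2) t₀‖ ≤
      ‖X t₁ + 2 * c * pw (-1 / 2) t₁‖ + 3 * L * (ε + M) * (‖c‖ * R ^ (-1 / 2 : ℝ)) := by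
  have hR := h.R_pos
  have hε := h.ε_pos
  have hP := h.path.sub ((pw_pathP c (σ := -1 / 2) (by norm_num)).mono fun t ht => ⟨ht.1, ht.2.1⟩)
  have e := hP.seg fun x hx => (hS x hx _ rfl).1
  have h3 : (R / 2) ^ (-3 / 2 : ℝ) * R ≤ 3 * R ^ (-1 / 2 : ℝ) := by
    rw [Real.div_rpow hR.le two_pos.le, div_mul_eq_mul_div, ← Real.rpow_add_one hR.ne',
      show (-3 / 2 : ℝ) + 1 = -1 / 2 by norm_num, div_eq_mul_inv, ← Real.rpow_neg two_pos.le,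
      mul_comm]
    refine mul_le_mul_of_nonneg_right (abs_le_of_sq_le_sq' ?_ (by norm_num)).2 (by positivity)
    rw [← Real.rpow_two, ← Real.rpow_mul two_pos.le]
    norm_num
  have h1 := segI_le (f₁ := fun τ => f₁ τ - c * pw (-1 / 2 - 1) τ) (f₂ := fun τ => f₂ τ - 0)
    (t₀ := t₀) (t₁ := t₁) (M := (ε + M) * ‖c‖ * (R / 2) ^ (-3 / 2 : ℝ)) fun x hx => by
      obtain ⟨a, b, d⟩ := hS x hx _ rfl
      have := mul_le_mul_of_nonneg_left (Real.rpow_le_rpow_of_nonpos (half_pos hR) b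
        (show (-3 / 2 : ℝ) ≤ 0 by norm_num)) (show 0 ≤ (ε + M) * ‖c‖ by positivity)
      rw [show (-1 / 2 : ℝ) - 1 = -3 / 2 by norm_num, sub_zero]
      linarith [h.main _ a]
  rw [← e] at h1
  have hL0 : 0 ≤ L := nonneg_of_mul_nonneg_left ((norm_nonneg _).trans hL) hR
  have h2 : (ε + M) * ‖c‖ * (R / 2) ^ (-3 / 2 : ℝ) * ‖t₁ - t₀‖ ≤
      3 * L * (ε + M) * (‖c‖ * R ^ (-1 / 2 : ℝ)) :=
    calc _ ≤ (ε + M) * ‖c‖ * (R / 2) ^ (-3 / 2 : ℝ) * (L * R) := by gcongr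
      _ = L * (ε + M) * ‖c‖ * ((R / 2) ^ (-3 / 2 : ℝ) * R) := by ring
      _ ≤ L * (ε + M) * ‖c‖ * (3 * R ^ (-1 / 2 : ℝ)) := by gcongr
      _ = _ := by ring
  have e2 : ∀ t, X t - c / ((-1 / 2 : ℝ) : ℂ) * pw (-1 / 2) t = X t + 2 * c * pw (-1 / 2) t :=
    fun t => by
      push_cast
      ring
  rw [e2, e2, norm_sub_rev] at h1
  linarith [norm_sub_norm_le (X t₀ + 2 * c * pw (-1 / 2) t₀) (X t₁ + 2 * c * pw (-1 / 2) t₁)]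

theorem Emb3_half {a b : ℝ} (hb : 0 < b) (h : b ≤ 2 * a) :
    a ^ (-1 / 2 : ℝ) ≤ 3 / 2 * b ^ (-1 / 2 : ℝ) := by
  refine (Real.rpow_le_rpow_of_nonpos (half_pos hb) (by linarith) (by norm_num)).trans ?_
  rw [Real.div_rpow hb.le two_pos.le, div_eq_mul_inv, ← Real.rpow_neg two_pos.le, mul_comm]
  refine mul_le_mul_of_nonneg_right (abs_le_of_sq_le_sq' ?_ (by norm_num)).2 (by positivity)
  rw [← Real.rpow_two, ← Real.rpow_mul two_pos.le]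
  norm_num

theorem Emb3_ray (h : Sheet T μ R δ ε K c f₁ f₂ X) {τ : ℂ} (h₁ : 0 ≤ τ.im) (ha : R / 2 ≤ ‖τ‖)
    (hb : ‖τ‖ ≤ 2 * R) {ρ : ℝ} (hρ : ρ = R / 2 ∨ ρ = 2 * R)
    (far : ∀ s ∈ uIcc 1 (ρ / ‖τ‖), ∀ k, ε * ‖T k‖ ≤ ‖s * τ - T k‖) :
    ‖X τ + 2 * c * pw (-1 / 2) τ‖ ≤ 30 * ε * (‖c‖ * R ^ (-1 / 2 : ℝ)) := by
  have hR := h.R_pos
  have hε := h.ε_pos
  have hδ := h.R_le
  have hp : 0 < ‖τ‖ := by linarith
  have hr : R / 2 ≤ ρ ∧ ρ ≤ 2 * R := by rcases hρ with rfl | rfl <;> constructor <;> linarith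
  obtain ⟨a, ea⟩ : ∃ a, a = ρ / ‖τ‖ := ⟨_, rfl⟩
  rw [← ea] at far
  have ea' : a * ‖τ‖ = ρ := by rw [ea, div_mul_cancel₀ _ hp.ne']
  have nrm : ∀ s : ℝ, 0 ≤ s → ‖s * τ‖ = s * ‖τ‖ := fun s hs => by
    rw [norm_mul, norm_real, Real.norm_of_nonneg hs]
  have a0 : 0 < a := ea ▸ div_pos (by linarith [hr.1]) hp
  have n1 : ‖a * τ‖ = ρ := by rw [nrm a a0.le, ea']
  have z := Emb3_zero h (τ := a * τ) (by simpa using mul_nonneg a0.le h₁)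
    (norm_pos_iff.1 (by linarith [hr.1])) (by
      rw [n1]
      rcases hρ with rfl | rfl
      · exact Or.inl le_rfl
      · exact Or.inr ⟨le_rfl, by linarith⟩)
  have s := Emb3_seg h (t₀ := τ) (t₁ := a * τ) (M := ε) (L := 3 / 2) hε.le (by
    rw [← sub_one_mul, ← ofReal_one, ← ofReal_sub, norm_mul, norm_real, Real.norm_eq_abs,
      ← abs_norm τ, ← abs_mul, sub_one_mul, ea', abs_le]
    constructor <;> linarith [hr.1, hr.2]) fun x hx t ht => by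
      have et : t = ((1 + x * (a - 1) : ℝ) : ℂ) * τ := by
        rw [ht]
        push_cast
        ring
      have s0 : 0 ≤ 1 + x * (a - 1) := by nlinarith [hx.1, hx.2]
      have nt : ‖t‖ = (1 - x) * ‖τ‖ + x * ρ := by
        rw [et, nrm _ s0, ← ea']
        ring
      have hf := far _ (Tool3_mem hx)
      rw [← et] at hf
      have b1 : R / 2 ≤ ‖t‖ := by nlinarith [hx.1, hx.2, hr.1]
      have m : t ∈ SS T μ δ := ⟨by rw [et, im_ofReal_mul]; positivity, norm_pos_iff.1 (by linarith),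
        by nlinarith [hx.1, hx.2, hr.2], fun k => (h.mu k).2.trans (hf k)⟩
      exact ⟨m, b1, h.far t m hf⟩
  rw [n1] at z
  have := mul_le_mul_of_nonneg_left (Emb3_half (a := ρ) hR (by linarith [hr.1]))
    (show 0 ≤ 14 * ε * ‖c‖ by positivity)
  linarith

theorem Emb3_far (h : Sheet T μ R δ ε K c f₁ f₂ X) {τ : ℂ} (h₁ : 0 ≤ τ.im) (ha : R / 2 ≤ ‖τ‖)
    (hb : ‖τ‖ ≤ 2 * R) (far : ∀ k, ε * ‖T k‖ ≤ ‖τ - T k‖) :
    ‖X τ + 2 * c * pw (-1 / 2) τ‖ ≤ 30 * ε * (‖c‖ * R ^ (-1 / 2 : ℝ)) := by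
  have hR := h.R_pos
  have hp : 0 < ‖τ‖ := by linarith
  by_cases h2 : ∀ s ∈ uIcc 1 (2 * R / ‖τ‖), ∀ k, ε * ‖T k‖ ≤ ‖s * τ - T k‖
  · exact Emb3_ray h h₁ ha hb (Or.inr rfl) h2
  refine Emb3_ray h h₁ ha hb (Or.inl rfl) fun s hs k => not_lt.1 fun hk => h2 fun s' hs' j =>
    not_lt.1 fun hj => ?_
  rw [uIcc_of_ge ((div_le_one hp).2 ha)] at hs
  rw [uIcc_of_le ((one_le_div hp).2 hb)] at hs'
  obtain rfl := Emb3_one h.toSh0 (norm_pos_iff.1 hp) ((div_pos (half_pos hR) hp).trans_le hs.1)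
    (one_pos.trans_le hs'.1) hk hj.le
  have := ((convex_ball (T k) (ε * ‖T k‖)).linear_preimage
    (LinearMap.toSpanSingleton ℝ ℂ τ)).ordConnected.out (x := s) (y := s')
      (by simpa [dist_eq_norm] using hk) (by simpa [dist_eq_norm] using hj) ⟨hs.2, hs'.1⟩
  exact (far k).not_gt (by simpa [dist_eq_norm] using this)

theorem Emb3_near (h : Sheet T μ R δ ε K c f₁ f₂ X) {τ : ℂ} (hτ : τ ∈ SS T μ δ) {k : κ}
    (hk : ‖τ - T k‖ < ε * ‖T k‖) :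
    ‖X τ + 2 * c * pw (-1 / 2) τ‖ ≤ (30 * ε + 3 * (2 * ε) * (ε + K)) * (‖c‖ * R ^ (-1 / 2 : ℝ)) := by
  have hR := h.R_pos
  have hε := h.ε_pos
  have hδ := h.R_le
  have hT := h.rad k
  have hε' : ε * ‖T k‖ ≤ 1 / 100 * ‖T k‖ := mul_le_mul_of_nonneg_right h.ε_le (norm_nonneg _)
  obtain ⟨v, ev⟩ : ∃ v, v = τ - T k := ⟨_, rfl⟩
  have hμ := hτ.2.2.2 k
  rw [← ev] at hk hμ
  have hv : 0 < ‖v‖ := (h.mu k).1.trans_le hμ
  obtain ⟨b, eb⟩ : ∃ b, b = ε * ‖T k‖ / ‖v‖ := ⟨_, rfl⟩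
  have eb' : b * ‖v‖ = ε * ‖T k‖ := by rw [eb, div_mul_cancel₀ _ hv.ne']
  have b1 : 1 ≤ b := eb ▸ (one_le_div hv).2 hk.le
  have key : ∀ s ∈ Icc 1 b, ∀ t, t = T k + s * v → ‖t - T k‖ = s * ‖v‖ ∧ 0 ≤ t.im ∧ R / 2 ≤ ‖t‖ ∧
      ‖t‖ ≤ 2 * R ∧ ∀ j, j ≠ k → ε * ‖T j‖ ≤ ‖t - T j‖ := fun s hs t ht => by
    have s0 : 0 ≤ s := zero_le_one.trans hs.1
    have n : ‖t - T k‖ = s * ‖v‖ := by
      rw [ht, add_sub_cancel_left, norm_mul, norm_real, Real.norm_of_nonneg s0]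
    have n' : ‖t - T k‖ ≤ ε * ‖T k‖ := by
      rw [n, ← eb']
      exact mul_le_mul_of_nonneg_right hs.2 hv.le
    have a := abs_le.1 ((abs_norm_sub_norm_le t (T k)).trans n')
    have t1 : R / 2 ≤ ‖t‖ := by linarith [a.1, hT.1]
    refine ⟨n, ?_, t1, by linarith [a.2, hT.2], fun j hj => not_lt.1 fun hlt => hj
      (Emb3_one h.toSh0 (t := t) (norm_pos_iff.1 (by linarith)) one_pos one_pos
        (by simpa using hlt) (by simpa using n'))⟩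
    have i1 := hτ.1
    rcases h.pos k with h0 | h0
    · rw [ht, add_im, im_ofReal_mul, ev, sub_im, h0, sub_zero, zero_add]
      positivity
    · have i2 := abs_le.1 ((abs_im_le_norm _).trans n')
      have i3 := abs_lt.1 ((abs_im_le_norm _).trans_lt hk)
      rw [sub_im] at i2
      rw [ev, sub_im] at i3
      rcases le_abs.1 h0 with h0 | h0 <;> linarith [i2.1, i3.2]
  obtain ⟨k1, k2, k3, k4, k5⟩ := key b ⟨b1, le_rfl⟩ _ rfl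
  have z := Emb3_far h k2 k3 k4 fun j => by
    rcases eq_or_ne j k with rfl | hj
    · rw [k1, eb']
    · exact k5 j hj
  have ed : T k + b * v - τ = ((b - 1 : ℝ) : ℂ) * v := by
    rw [ev]
    push_cast
    ring
  have s := Emb3_seg h (t₀ := τ) (t₁ := T k + b * v) (M := K) (L := 2 * ε)
    (zero_le_one.trans h.K_ge) (by
      rw [ed, norm_mul, norm_real, Real.norm_of_nonneg (sub_nonneg.2 b1), sub_one_mul, eb']
      nlinarith [hT.2]) fun x hx t ht => by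
      have hs : 1 + x * (b - 1) ∈ Icc 1 b := uIcc_of_le b1 ▸ Tool3_mem hx
      obtain ⟨l1, l2, l3, l4, l5⟩ := key _ hs t (by
        rw [ht, ed, ev]
        push_cast
        ring)
      have m : t ∈ SS T μ δ := ⟨l2, norm_pos_iff.1 (by linarith), by linarith, fun j => by
        rcases eq_or_ne j k with rfl | hj
        · rw [l1]
          exact hμ.trans (le_mul_of_one_le_left hv.le hs.1)
        · exact (h.mu j).2.trans (l5 j hj)⟩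
      exact ⟨m, l3, h.near t m⟩
  linarith

theorem Sheet.model (h : Sheet T μ R δ ε K c f₁ f₂ X) {τ : ℂ} (hτ : τ ∈ SS T μ δ) :
    ‖X τ + 2 * c * pw (-1 / 2) τ‖ ≤ 100 * K * ε * ‖c‖ * ‖τ‖ ^ (-1 / 2 : ℝ) := by
  have hε := h.ε_pos
  have hε' := h.ε_le
  have hK := h.K_ge
  have hR := h.R_pos
  have hp := norm_pos_iff.2 hτ.2.1
  have hKε : ε ≤ K * ε := le_mul_of_one_le_left hε.le hK
  by_cases hr : ‖τ‖ ≤ R / 2 ∨ 2 * R ≤ ‖τ‖ ∧ ‖τ‖ < δ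
  · refine (Emb3_zero h hτ.1 hτ.2.1 hr).trans ?_
    gcongr ?_ * _ * _
    linarith
  have ha : R / 2 ≤ ‖τ‖ := (not_le.1 fun h => hr (Or.inl h)).le
  have hb : ‖τ‖ ≤ 2 * R := (not_le.1 fun h => hr (Or.inr ⟨h, hτ.2.2.1⟩)).le
  have key : ‖X τ + 2 * c * pw (-1 / 2) τ‖ ≤ 60 * K * ε * (‖c‖ * R ^ (-1 / 2 : ℝ)) := by
    by_cases far : ∀ k, ε * ‖T k‖ ≤ ‖τ - T k‖
    · refine (Emb3_far h hτ.1 ha hb far).trans ?_
      gcongr ?_ * _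
      linarith
    · obtain ⟨k, hk⟩ := not_forall.1 far
      refine (Emb3_near h hτ (not_le.1 hk)).trans ?_
      gcongr ?_ * _
      nlinarith
  have := mul_le_mul_of_nonneg_left (Emb3_half (a := R) hp hb)
    (show 0 ≤ 60 * K * ε * ‖c‖ by positivity)
  have h0 : 0 ≤ K * ε * ‖c‖ * ‖τ‖ ^ (-1 / 2 : ℝ) := by positivity
  linarith

end Pool.Agent.MP_92463a_gt
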