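import Pool.Agent.MP_92463a_gt.CfI2
import Pool.Agent.MP_92463a_gt.CfH2
import Pool.Agent.MP_92463a_gt.Emb3

open Set Complex Filter Metric
open scoped Topology ComplexConjugate ContDiff Manifold

noncomputable section

namespace Pool.Agent.MP_92463a_gt

variable {γ : ℕ} {α : Type} {l : Filter α} {C : α → Cfg γ} {D₀ : Dat} {z₀ : Zs γ}

theorem CfN_sum {r y : Fin γ → ℝ} {L A B : ℝ} (hL : 0 < L) (hA : 0 ≤ A)
    (hr : ∀ k, 0 ≤ L * r k ∧ L * r k ≤ A) (hy : ∀ k, 0 ≤ y k) (hs : ∑ k, y k ≤ B * L) :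
    0 ≤ ∑ k, r k * y k ∧ ∑ k, r k * y k ≤ A * B := by
  refine ⟨Finset.sum_nonneg fun k _ =>
    mul_nonneg (nonneg_of_mul_nonneg_right (hr k).1 hL) (hy k), le_of_mul_le_mul_left ?_ hL⟩
  calc L * ∑ k, r k * y k = ∑ k, L * r k * y k := by simp only [Finset.mul_sum, mul_assoc]
    _ ≤ ∑ k, A * y k := Finset.sum_le_sum fun k _ => mul_le_mul_of_nonneg_right (hr k).2 (hy k)
    _ = A * ∑ k, y k := by rw [Finset.mul_sum]
    _ ≤ A * (B * L) := mul_le_mul_of_nonneg_left hs hA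
    _ = L * (A * B) := by ring

/-- at most one port is close to a given point -/
theorem CfN_one {C : Cfg γ} (h : C.Adm) (b : Bool) (τ : ℂ) :
    ∃ k₀, ∀ k, k ≠ k₀ → ‖C.τ (k, b)‖ / γ ≤ ‖τ - C.τ (k, b)‖ := by
  by_cases h1 : ∃ k₀, ‖τ - C.τ (k₀, b)‖ < ‖C.τ (k₀, b)‖ / γ
  · obtain ⟨k₀, h1⟩ := h1
    refine ⟨k₀, fun k hk => not_lt.1 fun h2 => ?_⟩
    have h3 := (h.sep hk b).2
    have h4 := (h.sep hk.symm b).2
    have h5 := norm_sub_le_norm_sub_add_norm_sub (C.τ (k, b)) τ (C.τ (k₀, b))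
    rw [norm_sub_rev] at h2 h4
    have e1 : 2 / (γ : ℝ) * ‖C.τ (k₀, b)‖ = 2 * (‖C.τ (k₀, b)‖ / γ) := by ring
    have e2 : 2 / (γ : ℝ) * ‖C.τ (k, b)‖ = 2 * (‖C.τ (k, b)‖ / γ) := by ring
    linarith
  · exact ⟨⟨0, h.pos⟩, fun k _ => not_lt.1 fun h2 => h1 ⟨k, h2⟩⟩

theorem CfN_y (h : Lim l C D₀ z₀) {η : ℝ} (hη : 0 < η) : ∀ᶠ x in l, ∀ b, ∀ τ : ℂ, ‖τ‖ ≤ 1 / 2 →
    (∀ k, (C x).mm b k ≤ ‖τ - (C x).τ (k, b)‖) →
    (∀ k, 0 ≤ -Real.log ‖τ - (C x).τ (k, b)‖) ∧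
      ∑ k, -Real.log ‖τ - (C x).τ (k, b)‖ ≤ (γ * (2 + η) + 1) * (C x).L := by
  obtain ⟨K, hK⟩ := h.log_tau
  have h1 : ∀ᶠ x in l, ∀ e, ‖(C x).τ e‖ ≤ 1 / 2 := eventually_all.2 fun e =>
    (h.tau0 e).1.norm.eventually_le_const (by simp)
  have h2 : ∀ᶠ x in l, ∀ k, -1 - η / 2 ≤ Real.log ‖(C x).vs k‖ / (C x).L :=
    eventually_all.2 fun k => (h.vs0 k).2.eventually_const_le (by linarith)
  have h3 := (h.L.const_mul_atTop (half_pos hη)).eventually_ge_atTop (|K| + |Real.log γ|)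
  filter_upwards [hK, h1, h2, h3, h.g0] with x hK h1 h2 h3 ⟨g, _⟩ b τ hτ hm
  have hL : 0 < (C x).L := by linarith [g.L]
  have hγ : (0 : ℝ) < γ := Nat.cast_pos.2 g.pos
  have hT := fun k => norm_pos_iff.2 (Cfg.τ_ne (C := C x) (k, b))
  have hv := fun k => norm_pos_iff.2 (g.vs_ne k)
  have hm' : ∀ k, ‖(C x).τ (k, b)‖ * ‖(C x).vs k‖ ≤ ‖τ - (C x).τ (k, b)‖ := fun k =>
    (g.mu_eq (k, b)).symm.trans_le (hm k)
  refine ⟨fun k => neg_nonneg.2 (Real.log_nonpos (norm_nonneg _) ?_), ?_⟩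
  · linarith [norm_sub_le τ ((C x).τ (k, b)), h1 (k, b)]
  obtain ⟨k₀, h4⟩ := CfN_one g.toAdm b τ
  have h5 : ∀ k, -Real.log ‖τ - (C x).τ (k, b)‖ ≤
      (2 + η) * (C x).L + if k = k₀ then (C x).L else 0 := by
    intro k
    have a1 := (abs_le.1 (hK (k, b))).1
    have a2 := le_abs_self K
    have a3 := le_abs_self (Real.log γ)
    have a4 := abs_nonneg (Real.log γ)
    have a5 := mul_pos hη hL
    split_ifs with hk
    · have a6 := Real.log_le_log (mul_pos (hT k) (hv k)) (hm' k)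
      rw [Real.log_mul (hT k).ne' (hv k).ne'] at a6
      have a7 := (le_div_iff₀ hL).1 (h2 k)
      linarith
    · have a6 := Real.log_le_log (div_pos (hT k) hγ) (h4 k hk)
      rw [Real.log_div (hT k).ne' hγ.ne'] at a6
      linarith
  refine (Finset.sum_le_sum fun k _ => h5 k).trans_eq ?_
  rw [Finset.sum_add_distrib, Finset.sum_ite_eq', Finset.sum_const, Finset.card_univ,
    Fintype.card_fin, if_pos (Finset.mem_univ _), nsmul_eq_mul]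
  ring

theorem Lim.size (h : Lim l C D₀ z₀) : ∃ m > 0, ∀ᶠ δ in 𝓝[>] (0 : ℝ), ∀ᶠ x in l, ∀ X,
    (C x).wd.SolX X → ∀ b, ∀ τ ∈ SS ((C x).TT b) ((C x).mm b) δ,
      m * ‖τ‖ ^ (-1 / 2 : ℝ) ≤ ‖X (-(C x).bb b + τ)‖ := by
  obtain ⟨K, hK⟩ := h.sheet
  have h1 : ∀ᶠ ε in 𝓝[>] (0 : ℝ), 100 * K * ε ≤ 1 :=
    nhdsWithin_le_nhds (((continuous_const.mul continuous_id).tendsto' (0 : ℝ) 0
      (by simp)).eventually_le_const one_pos)
  obtain ⟨ε, h2, h3⟩ := (hK.and h1).exists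
  obtain ⟨m, hm, M, h4⟩ := h.bds
  refine ⟨m, hm, ?_⟩
  filter_upwards [h2] with δ hδ
  filter_upwards [hδ, h4, h.adm] with x h5 h6 h7 X hX b τ hτ
  have a1 := (h5 X hX b).model hτ
  have a2 : m ≤ ‖(C x).cm b‖ := (h6.2 (⟨0, h7.pos⟩, b)).2.2.2.2.1.1
  have a3 : ‖(C x).Xh X b τ‖ = ‖X (-(C x).bb b + τ)‖ := by cases b <;> simp [Cfg.Xh]
  have a4 : ‖2 * (C x).cm b * pw (-1 / 2) τ‖ = 2 * (‖(C x).cm b‖ * ‖τ‖ ^ (-1 / 2 : ℝ)) := by
    rw [norm_mul, norm_mul, norm_pw _ hτ.2.1, mul_assoc, Complex.norm_two]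
  have a5 := norm_le_add_norm_add' ((C x).Xh X b τ) (2 * (C x).cm b * pw (-1 / 2) τ)
  have a6 : 0 ≤ ‖τ‖ ^ (-1 / 2 : ℝ) := by positivity
  have a7 := mul_le_mul_of_nonneg_right a2 a6
  have a8 := mul_le_mul_of_nonneg_right h3 (mul_nonneg (norm_nonneg ((C x).cm b)) a6)
  linarith

theorem Lim.s1 (h : Lim l C D₀ z₀) {X : α → ℂ → ℂ} (hX : ∀ᶠ x in l, (C x).wd.SolX (X x)) (M : ℝ) :
    ∃ δ > 0, ∀ᶠ x in l, ∀ t, (C x).wd.OnS δ t → M ≤ ‖X x t‖ := by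
  obtain ⟨m, hm, h1⟩ := h.size
  have h2 := ((tendsto_rpow_neg_nhdsGT_zero (y := -1 / 2) (by norm_num)).const_mul_atTop
    hm).eventually_ge_atTop M
  obtain ⟨δ, ⟨h3, h4⟩, h5⟩ := ((h1.and h2).and self_mem_nhdsWithin).exists
  refine ⟨δ, h5, ?_⟩
  filter_upwards [h3, hX, h.adm] with x a1 a2 a3 t ht
  obtain ⟨b, τ, hτ, rfl⟩ := a3.onS ht
  refine (h4.trans (mul_le_mul_of_nonneg_left ?_ hm.le)).trans (a1 _ a2 b τ hτ)
  exact Real.rpow_le_rpow_of_nonpos (norm_pos_iff.2 hτ.2.1) hτ.2.2.1.le (by norm_num)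

theorem Lim.hs_bd (h : Lim l C D₀ 0) : ∀ ε > 0, ∀ᶠ δ in 𝓝[>] (0 : ℝ), ∀ᶠ x in l,
    (∀ τ ∈ SS ((C x).TT false) ((C x).mm false) δ, Real.log ‖τ‖ / 2 ≤ (C x).hs false τ ∧
      (C x).hs false τ ≤ 2 * Real.log (D₀.b 1 / D₀.b 0) + ε) ∧
    ∀ τ ∈ SS ((C x).TT true) ((C x).mm true) δ,
      -(6 * γ * (cf D₀ (0 : Zs γ)).E + ε) ≤ (C x).hs true τ ∧ (C x).hs true τ ≤ 0 := by
  intro ε hε
  rcases l.eq_or_neBot with rfl | hl
  · simp
  have hE := h.adm₀.E_pos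
  have hγ : (1 : ℝ) ≤ γ := Nat.one_le_cast.2 h.adm₀.pos
  have hE' : Real.log (D₀.b 1 / D₀.b 0) = (2 * γ + 1) * (cf D₀ (0 : Zs γ)).E := by
    change _ = _ * (Real.log (D₀.b 1 / D₀.b 0) / (2 * γ + 1))
    field_simp
  have hq := h.q0
  have hr := fun e => (continuous_re.tendsto _).comp (h.rs3 e)
  rw [hE']
  generalize (cf D₀ (0 : Zs γ)).E = E at hE hq hr ⊢
  have h1 : ∀ᶠ η in 𝓝[>] (0 : ℝ),
      2 * ((E + η) * (γ * (2 + η) + 1)) ≤ 2 * ((2 * γ + 1) * E) + ε :=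
    nhdsWithin_le_nhds ((Continuous.tendsto' (by fun_prop) (0 : ℝ) (2 * ((2 * γ + 1) * E))
      (by ring)).eventually_le_const (by linarith))
  obtain ⟨η, h2, hη⟩ := (h1.and self_mem_nhdsWithin).exists
  replace hη : 0 < η := hη
  have h3 : ∀ᶠ x in l, ∀ k, 0 ≤ (C x).L * ((C x).pl.rs (C x).wd.f3 (k, true)).re ∧
      (C x).L * ((C x).pl.rs (C x).wd.f3 (k, true)).re ≤ E + η := by
    refine eventually_all.2 fun k => ?_
    have a1 : Tendsto (fun x => (C x).L * ((C x).pl.rs (C x).wd.f3 (k, true)).re) l (𝓝 E) := by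
      simpa [ZsB_eh_zero, Function.comp_def] using hr (k, true)
    exact (a1.eventually_const_le hE).and (a1.eventually_le_const (by linarith))
  have h4 : ∀ᶠ x in l, ∀ k, 0 ≤ (C x).L * -((C x).pl.rs (C x).wd.f3 (k, false)).re ∧
      (C x).L * -((C x).pl.rs (C x).wd.f3 (k, false)).re ≤ E + η := by
    refine eventually_all.2 fun k => ?_
    have a1 : Tendsto (fun x => (C x).L * -((C x).pl.rs (C x).wd.f3 (k, false)).re) l (𝓝 E) := by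
      simpa [ZsB_eh_zero, Function.comp_def] using (hr (k, false)).neg
    exact (a1.eventually_const_le hE).and (a1.eventually_le_const (by linarith))
  rw [ZsB_mean_zero, zero_re, add_zero] at hq
  have h5 := hq.eventually_const_le (u := 0) (by positivity)
  have h6 := hq.eventually_le_const (lt_add_one _)
  have h7 := h.L.eventually_ge_atTop (4 * (E * (γ + 1 / 2) + 1))
  filter_upwards [Ioc_mem_nhdsGT (one_half_pos (α := ℝ))] with δ hδ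
  filter_upwards [h3, h4, h5, h6, h7, CfN_y h hη] with x h3 h4 h5 h6 h7 h8
  have hL : 0 < (C x).L := lt_of_lt_of_le (by positivity) h7
  have q1 : 0 ≤ (C x).wd.q0 := nonneg_of_mul_nonneg_right h5 hL
  have q2 : (C x).wd.q0 ≤ 1 / 4 := le_of_mul_le_mul_left (by linarith) hL
  refine ⟨fun τ hτ => ?_, fun τ hτ => ?_⟩
  · have a1 : ‖τ‖ ≤ 1 / 2 := hτ.2.2.1.le.trans hδ.2
    obtain ⟨a2, a3⟩ := h8 false τ a1 hτ.2.2.2
    obtain ⟨a4, a5⟩ := CfN_sum hL (by linarith) h4 a2 a3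
    have a6 : Real.log ‖τ‖ ≤ 0 := Real.log_nonpos (norm_nonneg _) (by linarith)
    have a7 := mul_le_mul_of_nonpos_right q2 a6
    have a8 := mul_nonpos_of_nonneg_of_nonpos q1 a6
    simp only [neg_mul_neg] at a4 a5
    simp only [Cfg.hs, Bool.false_eq_true, if_false]
    constructor <;> linarith
  · obtain ⟨a2, a3⟩ := h8 true τ (hτ.2.2.1.le.trans hδ.2) hτ.2.2.2
    obtain ⟨a4, a5⟩ := CfN_sum hL (by linarith) h3 a2 a3
    have a6 := mul_le_mul_of_nonneg_right hγ hE.le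
    simp only [mul_neg, Finset.sum_neg_distrib] at a4 a5
    simp only [Cfg.hs, if_true]
    constructor <;> linarith

theorem Lim.s2 (h : Lim l C D₀ 0) {X : α → ℂ → ℂ} (hX : ∀ᶠ x in l, (C x).wd.SolX (X x)) :
    ∃ δ > 0, ∃ K : ℝ, ∀ᶠ x in l, ∀ t, (C x).wd.OnS δ t →
      -K - Real.log ‖X x t‖ ≤ (C x).wd.hh t ∧ (C x).wd.hh t ≤ 2 * Real.log (D₀.b 1) + 1 := by
  obtain ⟨m, hm, h1⟩ := h.size
  obtain ⟨δ, ⟨⟨h1, h2⟩, h3⟩, hδ⟩ := (((h1.and (h.hs_bd _ one_half_pos)).and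
    (h.hh_sheet _ one_half_pos)).and (Ioc_mem_nhdsGT (one_pos (α := ℝ)))).exists
  have b0 := h.D.ok₀.b_pos 0 (by linarith [h.q])
  have b1 := h.D.ok₀.b_pos 1 (by linarith [h.q])
  rw [Real.log_div b1.ne' b0.ne'] at h2
  refine ⟨δ, hδ.1, 2 * |Real.log (D₀.b 0)| + 2 * |Real.log (D₀.b 1)| + |Real.log m| +
    |6 * γ * (cf D₀ (0 : Zs γ)).E| + 1, ?_⟩
  filter_upwards [h1, h2, h3, hX, h.adm] with x a1 a2 a3 a4 a5 t ht
  obtain ⟨b, τ, hτ, rfl⟩ := a5.onS ht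
  have hn := norm_pos_iff.2 hτ.2.1
  have c1 := Real.log_le_log (by positivity) (a1 _ a4 b τ hτ)
  rw [Real.log_mul hm.ne' (by positivity), Real.log_rpow hn] at c1
  have c2 := abs_le.1 (a3 b τ hτ.2.2.1 ht.2.1)
  have c3 : Real.log ‖τ‖ ≤ 0 := Real.log_nonpos hn.le (hτ.2.2.1.le.trans hδ.2)
  have d1 := neg_abs_le (Real.log (D₀.b 0))
  have d2 := neg_abs_le (Real.log (D₀.b 1))
  have d3 := neg_abs_le (Real.log m)
  have d4 := le_abs_self (6 * γ * (cf D₀ (0 : Zs γ)).E)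
  have d5 := abs_nonneg (Real.log (D₀.b 0))
  have d6 := abs_nonneg (Real.log (D₀.b 1))
  have d7 := abs_nonneg (6 * γ * (cf D₀ (0 : Zs γ)).E)
  cases b
  · have c4 := a2.1 τ hτ
    rw [show jj false = 0 from rfl] at c2
    constructor <;> linarith [c2.1, c2.2, c4.1, c4.2]
  · have c4 := a2.2 τ hτ
    rw [show jj true = 1 from rfl] at c2
    constructor <;> linarith [c2.1, c2.2, c4.1, c4.2]

end Pool.Agent.MP_92463a_gt
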