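import Pool.Agent.MP_92463a_gt.CfH2

open Set Complex Filter Metric
open scoped Topology ComplexConjugate ContDiff Manifold

noncomputable section

namespace Pool.Agent.MP_92463a_gt

variable {γ : ℕ} {α : Type} {l : Filter α} {C : α → Cfg γ} {D₀ : Dat} {z₀ : Zs γ}

theorem CfO1_y {θ : ℝ} (hθ : 0 < θ) {τ T : ℂ} (hτ : τ ≠ 0) (hT : T ≠ 0)
    (h : θ * ‖T‖ ≤ ‖τ - T‖) : Real.log θ + Real.log ‖T‖ ≤ Real.log ‖τ - T‖ ∧
      Real.log ‖τ‖ ≤ Real.log (1 + θ⁻¹) + Real.log ‖τ - T‖ := by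
  have h1 : 0 < ‖T‖ := norm_pos_iff.2 hT
  have h2 : 0 < ‖τ - T‖ := (mul_pos hθ h1).trans_le h
  constructor
  · rw [← Real.log_mul hθ.ne' h1.ne']
    exact Real.log_le_log (mul_pos hθ h1) h
  · rw [← Real.log_mul (by positivity) h2.ne']
    refine Real.log_le_log (norm_pos_iff.2 hτ) ?_
    have h3 : ‖T‖ ≤ θ⁻¹ * ‖τ - T‖ := (le_inv_mul_iff₀ hθ).2 h
    have h4 : ‖τ‖ ≤ ‖τ - T‖ + ‖T‖ := by simpa using norm_add_le (τ - T) T
    linarith

theorem CfO1_real (hγ : 0 < γ) {E e L K lam q : ℝ} {a a' y y' : Fin γ → ℝ} (he : 0 < e)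
    (hE : E = (8 * γ + 4) * e) (hK : 0 ≤ K) (hL : 0 < L) (hLK : 8 * γ * K ≤ L) (hlam : 0 ≤ lam)
    (hq : E * (γ + 1 / 2) - e ≤ L * q) (ha : ∀ k, -(E + e) ≤ L * a k ∧ L * a k ≤ 0)
    (ha' : ∀ k, 0 ≤ L * a' k ∧ L * a' k ≤ E + e) (hy : ∀ k, -(min lam (2 * L) + K) ≤ y k)
    (hy' : ∀ k, -(min lam (2 * L) + K) ≤ y' k) :
    2 * (q * -lam + ∑ k, a k * y k) ≤ 2 * (0 + ∑ k, a' k * y' k) + 4 * γ * E := by
  have hg : (1 : ℝ) ≤ γ := by exact_mod_cast hγ
  have m0 : 0 ≤ min lam (2 * L) := le_min hlam (by positivity)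
  have m1 := min_le_left lam (2 * L)
  have m2 := min_le_right lam (2 * L)
  generalize min lam (2 * L) = m at *
  have h1 : L * ∑ k, a k * y k ≤ γ * ((E + e) * (m + K)) := by
    rw [Finset.mul_sum]
    refine (Finset.sum_le_card_nsmul _ _ ((E + e) * (m + K)) fun k _ => ?_).trans (by simp)
    nlinarith [mul_nonneg (neg_nonneg.2 (ha k).2) (sub_nonneg.2 (hy k)),
      mul_nonneg (sub_nonneg.2 (ha k).1) (add_nonneg m0 hK)]
  have h2 : -(γ * ((E + e) * (m + K))) ≤ L * ∑ k, a' k * y' k := by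
    rw [Finset.mul_sum]
    refine le_trans (by simp) (Finset.card_nsmul_le_sum _ _ (-((E + e) * (m + K))) fun k _ => ?_)
    nlinarith [mul_nonneg (ha' k).1 (sub_nonneg.2 (hy' k)),
      mul_nonneg (sub_nonneg.2 (ha' k).2) (add_nonneg m0 hK)]
  have h3 : 0 ≤ E * (γ + 1 / 2) - e := by
    rw [hE]
    nlinarith [mul_nonneg he.le (sub_nonneg.2 hg), mul_nonneg he.le (sq_nonneg (γ : ℝ))]
  have h4 : (E * (γ + 1 / 2) - e) * m ≤ L * q * lam := mul_le_mul hq m1 m0 (h3.trans hq)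
  have hE0 : 0 ≤ E := by rw [hE]; positivity
  have h5 : 0 ≤ E * (γ - 1 / 2) + (2 * γ + 1) * e :=
    add_nonneg (mul_nonneg hE0 (by linarith)) (by positivity)
  have h6 := mul_le_mul_of_nonneg_left m2 h5
  have h7 : e ≤ E := by
    rw [hE]
    nlinarith
  have h8 : (E + e) * (8 * γ * K) ≤ (E + E) * L :=
    mul_le_mul (by linarith) hLK (by positivity) (by linarith)
  have h9 : L * E = L * ((8 * γ + 4) * e) := by rw [← hE]
  refine le_of_mul_le_mul_left ?_ hL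
  nlinarith

/-- away from the necks the second sheet lies above the first one -/
theorem Lim.cross (h : Lim l C D₀ 0) {θ : ℝ} (hθ : 0 < θ) : ∀ᶠ δ in 𝓝[>] (0 : ℝ), ∀ᶠ x in l,
    ∀ τ ∈ SS ((C x).TT false) ((C x).mm false) δ, ∀ τ' ∈ SS ((C x).TT true) ((C x).mm true) δ,
      Real.exp ((C x).lk true) * ‖τ‖ ≤ 2 * ‖τ'‖ →
      (∀ k, θ * ‖(C x).τ (k, false)‖ ≤ ‖τ - (C x).τ (k, false)‖) →
      (∀ k, θ * ‖(C x).τ (k, true)‖ ≤ ‖τ' - (C x).τ (k, true)‖) →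
      (C x).wd.hh (-(C x).bb false + τ) < (C x).wd.hh (-(C x).bb true + τ') := by
  rcases l.eq_or_neBot with rfl | hl
  · simp
  have h₀ := h.adm₀
  have hγ := h₀.pos
  have hb : 0 < D₀.b 0 ∧ 5 * D₀.b 0 < D₀.b 1 := ⟨(h₀.bb true).1, (h₀.bb true).2.2⟩
  have hE := h₀.E_pos
  have hlog : Real.log (D₀.b 1) - Real.log (D₀.b 0) = (2 * γ + 1) * (cf D₀ (0 : Zs γ)).E := by
    rw [← Real.log_div (by linarith) hb.1.ne', Cfg.E, mul_div_cancel₀ _ (by positivity)]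
    rfl
  have hr := h.rs3
  have hq := h.q0
  have heh : ∀ k, (0 : Zs γ).eh k = 1 := fun k => by simp [Zs.eh]
  have hm : (0 : Zs γ).mean = 0 := by simp [Zs.mean]
  simp only [heh, hm, mul_one, zero_re, add_zero] at hr hq
  obtain ⟨K₀, hK₀⟩ := h.log_tau
  have hlk := h.lk true
  generalize (cf D₀ (0 : Zs γ)).E = E at *
  generalize (cf D₀ (0 : Zs γ)).lk true = lk₀ at *
  obtain ⟨e, he, hEe⟩ : ∃ e : ℝ, 0 < e ∧ E = (8 * γ + 4) * e :=
    ⟨E / (8 * γ + 4), by positivity, by rw [mul_div_cancel₀ _ (by positivity)]⟩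
  have heE : e < E := by
    have : (0 : ℝ) ≤ γ := by positivity
    rw [hEe]
    nlinarith
  obtain ⟨K, hK⟩ : ∃ K, K = |Real.log θ| + |K₀| + |Real.log (1 + θ⁻¹)| + |Real.log 2| +
    |lk₀| + 1 := ⟨_, rfl⟩
  have hra : ∀ k, ∀ᶠ x in l, -(E + e) ≤ (C x).L * ((C x).pl.rs (C x).wd.f3 (k, false)).re ∧
      (C x).L * ((C x).pl.rs (C x).wd.f3 (k, false)).re ≤ 0 := fun k => by
    have h1 := (continuous_re.tendsto _).comp (hr (k, false))
    simp only [Function.comp_def, re_ofReal_mul, Bool.false_eq_true, if_false, neg_mul, one_mul,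
      neg_re, ofReal_re] at h1
    exact (h1.eventually (le_mem_nhds (by linarith))).and
      (h1.eventually (ge_mem_nhds (by linarith)))
  have hra' : ∀ k, ∀ᶠ x in l, 0 ≤ (C x).L * ((C x).pl.rs (C x).wd.f3 (k, true)).re ∧
      (C x).L * ((C x).pl.rs (C x).wd.f3 (k, true)).re ≤ E + e := fun k => by
    have h1 := (continuous_re.tendsto _).comp (hr (k, true))
    simp only [Function.comp_def, re_ofReal_mul, if_true, one_mul, ofReal_re] at h1
    exact (h1.eventually (le_mem_nhds hE)).and (h1.eventually (ge_mem_nhds (by linarith)))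
  filter_upwards [h.hh_sheet (E / 2) (by positivity),
    Ioo_mem_nhdsGT (lt_min one_pos (show 0 < D₀.b 0 / 4 by linarith))] with δ hδ hδ'
  have d1 : δ < 1 := hδ'.2.trans_le (min_le_left _ _)
  have d2 : δ < D₀.b 0 / 4 := hδ'.2.trans_le (min_le_right _ _)
  filter_upwards [hδ, h.g0, eventually_all.2 hra, eventually_all.2 hra', hK₀,
    hq.eventually (le_mem_nhds (sub_lt_self _ he)), hlk.eventually (le_mem_nhds (sub_one_lt _)),
    h.L.eventually_ge_atTop (8 * γ * K),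
    (h.bb false).eventually (le_mem_nhds (show D₀.b 0 / 2 < D₀.b 0 by linarith))]
    with x x1 ⟨x2, _⟩ x3 x4 x5 x6 x7 x8 x9 τ hτ τ' hτ' g1 g2 g3
  have d3 : δ ≤ (C x).D.b 0 / 2 := by
    have : D₀.b 0 / 2 ≤ (C x).D.b 0 := x9
    linarith
  have e1 := (abs_le.1 (x1 false τ hτ.2.2.1 (x2.ss d3 hτ).2)).2
  have e2 := (abs_le.1 (x1 true τ' hτ'.2.2.1 (x2.ss d3 hτ').2)).1
  have n1 : 0 < ‖τ‖ := norm_pos_iff.2 hτ.2.1
  have n2 : (C x).lk true + Real.log ‖τ‖ ≤ Real.log 2 + Real.log ‖τ'‖ := by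
    have := Real.log_le_log (by positivity) g1
    rwa [Real.log_mul (Real.exp_ne_zero _) n1.ne', Real.log_exp,
      Real.log_mul two_ne_zero (norm_ne_zero_iff.2 hτ'.2.1)] at this
  have a1 := neg_abs_le (Real.log θ)
  have a2 := le_abs_self K₀
  have a3 := le_abs_self (Real.log (1 + θ⁻¹))
  have a4 := le_abs_self (Real.log 2)
  have a5 := neg_abs_le lk₀
  have b1 := abs_nonneg (Real.log θ)
  have b2 := abs_nonneg K₀
  have b3 := abs_nonneg (Real.log (1 + θ⁻¹))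
  have b4 := abs_nonneg (Real.log 2)
  have b5 := abs_nonneg lk₀
  have key := CfO1_real (lam := -Real.log ‖τ‖) (K := K) (q := (C x).wd.q0)
    (y := fun k => Real.log ‖τ - (C x).τ (k, false)‖)
    (y' := fun k => Real.log ‖τ' - (C x).τ (k, true)‖) hγ he hEe (by linarith)
    (one_pos.trans_le x2.L) x8 (neg_nonneg.2 (Real.log_nonpos n1.le (hτ.2.2.1.trans d1).le)) x6 x3
    x4 (fun k => by
      obtain ⟨c1, c2⟩ := CfO1_y hθ hτ.2.1 (Cfg.τ_ne _) (g2 k)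
      have c3 := (abs_le.1 (x5 (k, false))).1
      rw [neg_le, ← sub_le_iff_le_add, le_min_iff]
      constructor <;> linarith) fun k => by
      obtain ⟨c1, c2⟩ := CfO1_y hθ hτ'.2.1 (Cfg.τ_ne _) (g3 k)
      have c3 := (abs_le.1 (x5 (k, true))).1
      rw [neg_le, ← sub_le_iff_le_add, le_min_iff]
      constructor <;> linarith
  rw [neg_neg] at key
  change (C x).hs false τ ≤ (C x).hs true τ' + _ at key
  change _ - 2 * Real.log (D₀.b 0) - _ ≤ _ at e1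
  change _ ≤ _ - 2 * Real.log (D₀.b 1) - _ at e2
  linarith

end Pool.Agent.MP_92463a_gt
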