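import Pool.Agent.MP_92463a_gt.CfO1
import Pool.Agent.MP_92463a_gt.CfI2
import Pool.Agent.MP_92463a_gt.CfM
import Pool.Agent.MP_92463a_gt.Emb5

open Set Complex Filter Metric
open scoped Topology ComplexConjugate ContDiff Manifold

noncomputable section

namespace Pool.Agent.MP_92463a_gt

variable {γ : ℕ} {α : Type} {l : Filter α} {C : α → Cfg γ} {D₀ : Dat} {z₀ : Zs γ}

theorem CfO2_geo {Z W a b : ℂ} {θ : ℝ} (h₀ : 0 < θ) (h₁ : θ ≤ 1 / 10)
    (ha : ‖a - Z‖ ≤ θ / 20 * ‖Z‖) (hb : ‖b - W‖ ≤ θ / 20 * ‖W‖)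
    (h : ‖Z - W‖ ≤ θ / 4 * ‖W‖ ∨ ‖a - b‖ ≤ θ / 4 * ‖b‖) :
    ‖Z - W‖ ≤ θ * ‖W‖ ∧ ‖a - b‖ ≤ θ * ‖b‖ := by
  have h1 := mul_le_mul_of_nonneg_left (norm_le_norm_add_norm_sub' Z W) h₀.le
  have h2 := mul_le_mul_of_nonneg_left (norm_le_norm_add_norm_sub' b W) h₀.le
  have h3 := mul_le_mul_of_nonneg_left (norm_le_norm_add_norm_sub b W) h₀.le
  have h4 := mul_le_mul_of_nonneg_right h₁ (norm_nonneg (Z - W))
  have h5 := mul_le_mul_of_nonneg_right h₁ (norm_nonneg (b - W))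
  have h6 := norm_add₃_le (a := a - Z) (b := Z - W) (c := -(b - W))
  have h7 := norm_add₃_le (a := -(a - Z)) (b := a - b) (c := b - W)
  rw [norm_neg, show a - Z + (Z - W) + -(b - W) = a - b by ring] at h6
  rw [norm_neg, show -(a - Z) + (a - b) + (b - W) = Z - W by ring] at h7
  have h8 : 0 ≤ θ * ‖W‖ := by positivity
  rcases h with h | h <;> constructor <;> linarith

theorem Lim.s3 (h : Lim l C D₀ 0) {X : α → ℂ → ℂ}
    (hX : ∀ᶠ x in l, (C x).wd.Sol (X x) (C x).wd.hh) :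
    ∃ δ > 0, ∀ᶠ x in l, ∀ t t', (C x).wd.OnS δ t → (C x).wd.OnS δ t' → X x t = X x t' →
      (C x).wd.hh t = (C x).wd.hh t' → (C x).wd.Same t t' := by
  obtain ⟨θ, hn, h₀, h₁⟩ := (h.neck.and (Ioc_mem_nhdsGT (by norm_num : (0 : ℝ) < 1 / 10))).exists
  obtain ⟨K, hK⟩ := h.sheet
  have h2 : ∀ᶠ ε in 𝓝[>] (0 : ℝ), 10000 * K * ε ≤ θ :=
    (((continuous_const.mul continuous_id).tendsto' 0 0 (mul_zero _)).eventually
      (eventually_le_nhds h₀)).filter_mono nhdsWithin_le_nhds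
  obtain ⟨ε, hs, hε⟩ := (hK.and h2).exists
  obtain ⟨δ, ⟨hs, hc⟩, hδ⟩ :=
    ((hs.and (h.cross (θ := θ / 4) (by positivity))).and self_mem_nhdsWithin).exists
  have hz : ∀ᶠ x in l, ∀ k, ‖exp ((C x).z.2.2.2 k) - 1‖ ≤ θ / 20 := eventually_all.2 fun k =>
    (((show Continuous fun z : Zs γ => ‖exp (z.2.2.2 k) - 1‖ by fun_prop).tendsto' 0 0
      (by simp)).comp h.z).eventually (eventually_le_nhds (by positivity))
  refine ⟨δ, hδ, ?_⟩
  filter_upwards [hn, hs, hc, hz, hX, h.adm] with x hn hs hc hz hX ha t t' ht ht' e1 e2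
  replace hs := hs _ hX.toSolX
  have hKε : 0 ≤ K * ε := mul_nonneg (by linarith [(hs true).K_ge]) (hs true).ε_pos.le
  have key : ∀ τ ∈ SS ((C x).TT false) ((C x).mm false) δ,
      ∀ τ' ∈ SS ((C x).TT true) ((C x).mm true) δ,
      X x (-(C x).bb false + τ) = X x (-(C x).bb true + τ') →
      (C x).wd.hh (-(C x).bb false + τ) = (C x).wd.hh (-(C x).bb true + τ') →
      ∃ k, ‖τ - (C x).τ (k, false)‖ ≤ θ * ‖(C x).τ (k, false)‖ ∧
        ‖τ' - (C x).τ (k, true)‖ ≤ θ * ‖(C x).τ (k, true)‖ := by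
    intro τ hτ τ' hτ' e1 e2
    have h3 := (hs false).cross (hs true) (by linarith) hτ hτ' (by simp [Cfg.Xh, e1])
    rw [ha.cm.2.2.2] at h3
    have hE := Real.exp_pos ((C x).lk true)
    have hT := fun k => (Cfg.τ_true (C := C x) k).trans (congrArg (· * _) (neg_mul _ _).symm)
    generalize Real.exp ((C x).lk true) = E at h3 hc hE hT
    have hZ : ∀ w : ℂ, ‖-(E : ℂ) * conj w‖ = E * ‖w‖ := fun w => by
      rw [norm_mul, norm_neg, norm_conj, norm_real, Real.norm_of_nonneg hE.le]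
    replace h3 := h3.trans (mul_le_mul_of_nonneg_right (show _ ≤ θ / 20 by linarith) (norm_nonneg _))
    by_contra hk
    have h4 : ∀ k, ¬(‖τ - (C x).τ (k, false)‖ ≤ θ / 4 * ‖(C x).τ (k, false)‖ ∨
        ‖τ' - (C x).τ (k, true)‖ ≤ θ / 4 * ‖(C x).τ (k, true)‖) := fun k h4 => by
      have h5 : ‖-(E : ℂ) * conj τ - -(E : ℂ) * conj ((C x).τ (k, false))‖ =
          E * ‖τ - (C x).τ (k, false)‖ := by rw [← mul_sub, ← map_sub, hZ]
      have h6 := CfO2_geo (W := -(E : ℂ) * conj ((C x).τ (k, false))) (b := (C x).τ (k, true))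
        h₀ h₁ h3 (by
          rw [hT, ← mul_sub_one, norm_mul, mul_comm]
          exact mul_le_mul_of_nonneg_right (hz k) (norm_nonneg _))
        (h4.imp_left fun h4 => by
          rw [h5, hZ, mul_left_comm]
          exact mul_le_mul_of_nonneg_left h4 hE.le)
      rw [h5, hZ, mul_left_comm] at h6
      exact hk ⟨k, le_of_mul_le_mul_left h6.1 hE, h6.2⟩
    refine (hc τ hτ τ' hτ' ?_ (fun k => (not_le.1 (not_or.1 (h4 k)).1).le)
      fun k => (not_le.1 (not_or.1 (h4 k)).2).le).ne e2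
    have h5 := norm_le_norm_add_norm_sub τ' (-(E : ℂ) * conj τ)
    have h6 := mul_le_mul_of_nonneg_right h₁ (norm_nonneg (-(E : ℂ) * conj τ))
    rw [← hZ]
    linarith [norm_nonneg (-(E : ℂ) * conj τ)]
  obtain ⟨b, τ, hτ, rfl⟩ := ha.onS ht
  obtain ⟨b', τ', hτ', rfl⟩ := ha.onS ht'
  suffices h3 : τ = τ' ∧ b = b' ∨ ∃ k, ‖τ - (C x).τ (k, b)‖ ≤ θ * ‖(C x).τ (k, b)‖ ∧
      ‖τ' - (C x).τ (k, b')‖ ≤ θ * ‖(C x).τ (k, b')‖ by
    rcases h3 with ⟨rfl, rfl⟩ | ⟨k, h3, h4⟩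
    · exact Or.inl rfl
    · exact hn _ _ hX k b b' _ _ ht.1 ht'.1 ht.2.1 ht'.2.1
        (by rwa [Cfg.c, add_sub_add_left_eq_sub]) (by rwa [Cfg.c, add_sub_add_left_eq_sub]) e1 e2
  by_cases hb : b = b'
  · subst hb
    exact ((hs b).inj (by linarith) h₁ hτ hτ' (by simp only [Cfg.Xh, e1])).imp_left fun h => ⟨h, rfl⟩
  · right
    cases b <;> cases b'
    · exact absurd rfl hb
    · exact key τ hτ τ' hτ' e1 e2
    · exact (key τ' hτ' τ hτ e1.symm e2.symm).imp fun _ => And.symm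
    · exact absurd rfl hb

end Pool.Agent.MP_92463a_gt
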