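import Pool.Agent.MP_92463a_gt.Pt
import Pool.Agent.MP_92463a_gt.Par

open Set Complex Filter Metric
open scoped Topology ComplexConjugate ContDiff Manifold

noncomputable section

namespace Pool.Agent.MP_92463a_gt

namespace Dat

variable {D : Dat} {δ : ℝ} {h : ℂ → ℂ}

theorem Chart1_open (t₀ : ℂ) (r : ℝ) :
    IsOpen (({OnePoint.infty}ᶜ : Set D.N) ∩ (fun z => D.tt z - t₀) ⁻¹' ball 0 r) := by
  have := t2 (D := D)
  exact (tt_cont.sub continuousOn_const).isOpen_inter_preimage isOpen_compl_singleton isOpen_ball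

theorem Chart1_cont {t₀ : ℂ} {r : ℝ} (hol : DifferentiableOn ℂ h (ball 0 r))
    (ne : ∀ w ∈ ball (0 : ℂ) r, h w ≠ 0) : ContinuousOn (fun z => D.yy z / h (D.tt z - t₀))
      (({OnePoint.infty}ᶜ : Set D.N) ∩ (fun z => D.tt z - t₀) ⁻¹' ball 0 r) :=
  (yy_cont.mono inter_subset_left).div
    (hol.continuousOn.comp ((tt_cont.sub continuousOn_const).mono inter_subset_left)
      fun _ hz => hz.2) fun _ hz => ne _ hz.2

theorem Par1.chart {t₀ : ℂ} (H : D.Par1 t₀ δ h) : ∃ e : OpenPartialHomeomorph D.N ℂ,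
    e.target = ball 0 δ ∧ ∀ w ∈ ball (0 : ℂ) δ, e.symm w = D.pt (t₀ + w) (h w) := by
  have key : ∀ z : D.N, D.tt z - t₀ ∈ ball (0 : ℂ) δ → 0 < (D.yy z / h (D.tt z - t₀)).re →
      D.yy z = h (D.tt z - t₀) := by
    intro z hz hr
    have h1 := H.sq _ hz
    rw [add_sub_cancel, ← yy_sq] at h1
    rcases sq_eq_sq_iff_eq_or_eq_neg.1 h1.symm with h2 | h2
    · exact h2
    · rw [h2, neg_div, div_self (H.ne _ hz)] at hr
      norm_num at hr
  refine ⟨{ toFun := fun z => D.tt z - t₀
            invFun := fun w => D.pt (t₀ + w) (h w)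
            source := (({OnePoint.infty}ᶜ : Set D.N) ∩ (fun z => D.tt z - t₀) ⁻¹' ball 0 δ) ∩
              (fun z => D.yy z / h (D.tt z - t₀)) ⁻¹' {u | 0 < u.re}
            target := ball 0 δ
            map_source' := fun z hz => hz.1.2
            map_target' := fun w hw => ?_
            left_inv' := fun z hz => ?_
            right_inv' := fun w hw => ?_
            open_source := (Chart1_cont H.hol H.ne).isOpen_inter_preimage (Chart1_open t₀ δ)
              (isOpen_lt continuous_const continuous_re)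
            open_target := isOpen_ball
            continuousOn_toFun := (tt_cont.sub continuousOn_const).mono fun z hz => hz.1.1
            continuousOn_invFun := pt_cont (by fun_prop) H.hol.continuousOn H.sq },
    rfl, fun w _ => rfl⟩
  · have h1 := H.sq w hw
    refine ⟨⟨pt_ne h1, ?_⟩, ?_⟩
    · simpa only [mem_preimage, tt_pt h1, add_sub_cancel_left] using hw
    · simp only [mem_preimage, tt_pt h1, yy_pt h1, add_sub_cancel_left, div_self (H.ne w hw),
        mem_ofPred_eq, one_re, one_pos]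
  · rw [add_sub_cancel, ← key z hz.1.2 hz.2]
    exact pt_tt hz.1.1
  · rw [tt_pt (H.sq w hw), add_sub_cancel_left]

theorem Par2.chart {x₀ : ℂ} (H : D.Par2 x₀ δ h) : ∃ e : OpenPartialHomeomorph D.N ℂ,
    e.target = ball 0 δ ∧ ∀ w ∈ ball (0 : ℂ) δ, e.symm w = D.pt (x₀ + w ^ 2) (w * h (w ^ 2)) := by
  have key : ∀ z : D.N, D.tt z - x₀ ∈ ball (0 : ℂ) (δ ^ 2) →
      (D.yy z / h (D.tt z - x₀)) ^ 2 = D.tt z - x₀ := by
    intro z hz
    have h1 := H.sq _ hz
    rw [add_sub_cancel, ← yy_sq] at h1
    rw [div_pow, ← h1, mul_div_cancel_right₀ _ (pow_ne_zero _ (H.ne _ hz))]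
  refine ⟨{ toFun := fun z => D.yy z / h (D.tt z - x₀)
            invFun := fun w => D.pt (x₀ + w ^ 2) (w * h (w ^ 2))
            source := ({OnePoint.infty}ᶜ : Set D.N) ∩ (fun z => D.tt z - x₀) ⁻¹' ball 0 (δ ^ 2)
            target := ball 0 δ
            map_source' := fun z hz => ?_
            map_target' := fun w hw => ?_
            left_inv' := fun z hz => ?_
            right_inv' := fun w hw => ?_
            open_source := Chart1_open x₀ _
            open_target := isOpen_ball
            continuousOn_toFun := Chart1_cont H.hol H.ne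
            continuousOn_invFun := pt_cont (by fun_prop) (continuousOn_id.mul
              (H.hol.continuousOn.comp (by fun_prop) fun w hw => sq_mem_ball hw))
              fun w hw => (H.on hw).1 },
    rfl, fun w _ => rfl⟩
  · have h1 : D.tt z - x₀ ∈ ball (0 : ℂ) (δ ^ 2) := hz.2
    rw [← key z h1, mem_ball_zero_iff, norm_pow] at h1
    rw [mem_ball_zero_iff]
    exact lt_of_pow_lt_pow_left₀ 2 H.pos.le h1
  · have h1 := (H.on hw).1
    refine ⟨pt_ne h1, ?_⟩
    simpa only [mem_preimage, tt_pt h1, add_sub_cancel_left] using sq_mem_ball hw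
  · rw [key z hz.2, add_sub_cancel, div_mul_cancel₀ _ (H.ne _ hz.2)]
    exact pt_tt hz.1
  · have h1 := (H.on hw).1
    rw [tt_pt h1, yy_pt h1, add_sub_cancel_left,
      mul_div_cancel_right₀ _ (H.ne _ (sq_mem_ball hw))]

end Dat

end Pool.Agent.MP_92463a_gt
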