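import Pool.Agent.MP_92463a_gt.Chart1

open Set Complex Filter Metric
open scoped Topology ComplexConjugate ContDiff Manifold

noncomputable section

namespace Pool.Agent.MP_92463a_gt

namespace Dat

variable {D : Dat} {δ : ℝ} {h : ℂ → ℂ}

theorem chart3_ball (hδ : 0 < δ) {t : ℂ} (ht : (δ ^ 2)⁻¹ < ‖t‖) :
    t ≠ 0 ∧ t⁻¹ ∈ ball (0 : ℂ) (δ ^ 2) := by
  have h1 : 0 < (δ ^ 2)⁻¹ := by positivity
  have h2 : 0 < ‖t‖ := h1.trans ht
  refine ⟨norm_pos_iff.1 h2, ?_⟩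
  rw [mem_ball_zero_iff, norm_inv]
  exact inv_lt_of_inv_lt₀ (by positivity) ht

theorem chart3_sq (H : D.Par3 δ h) {m : ℕ} (hm : D.p + D.q = m + m) {z : D.N}
    (hz : (δ ^ 2)⁻¹ < ‖D.tt z‖) :
    D.yy z ≠ 0 ∧ (h (D.tt z)⁻¹ * D.tt z ^ m / D.yy z) ^ 2 = (D.tt z)⁻¹ := by
  obtain ⟨h0, h1⟩ := chart3_ball H.pos hz
  have h2 := H.sq _ h1 (inv_ne_zero h0)
  rw [inv_inv, ← yy_sq, hm] at h2
  have h3 : D.yy z ≠ 0 := by
    intro h3
    rw [h3] at h2
    exact H.ne _ h1 (by simpa using h2)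
  refine ⟨h3, ?_⟩
  rw [div_pow, mul_pow, h2, inv_pow]
  field_simp
  ring

theorem Par3.chart (hD : D.Ok) (H : D.Par3 δ h) : ∃ e : OpenPartialHomeomorph D.N ℂ,
    e.target = ball 0 δ ∧ e.symm 0 = OnePoint.infty ∧ ∀ w ∈ ball (0 : ℂ) δ, w ≠ 0 →
      e.symm w = D.pt (w ^ 2)⁻¹ (h (w ^ 2) / w ^ (D.p + D.q + 1)) := by
  classical
  obtain ⟨m, hm⟩ := hD.par
  have hδ := H.pos
  let f : D.N → ℂ := fun z => h (D.tt z)⁻¹ * D.tt z ^ m / D.yy z
  let g : ℂ → D.N := fun w =>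
    if w = 0 then OnePoint.infty else D.pt (w ^ 2)⁻¹ (h (w ^ 2) / w ^ (D.p + D.q + 1))
  have f0 : f OnePoint.infty = 0 := by simp only [f, yy_infty, div_zero]
  have g0 : g 0 = OnePoint.infty := if_pos rfl
  have g1 : ∀ w, w ≠ 0 → g w = D.pt (w ^ 2)⁻¹ (h (w ^ 2) / w ^ (D.p + D.q + 1)) :=
    fun w hw => if_neg hw
  have hsrc : IsOpen {z : D.N | z = OnePoint.infty ∨ (δ ^ 2)⁻¹ < ‖D.tt z‖} := isOpen_far _
  have := t2 (D := D)
  refine ⟨⟨⟨⟨f, g, {z | z = OnePoint.infty ∨ (δ ^ 2)⁻¹ < ‖D.tt z‖}, ball 0 δ, ?_, ?_, ?_, ?_⟩,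
    ?_, ?_⟩, hsrc, isOpen_ball⟩, rfl, g0, fun w _ hw => g1 w hw⟩
  · rintro z (rfl | hz)
    · rw [f0]; exact mem_ball_self hδ
    · have h1 := (chart3_ball hδ hz).2
      rw [← (chart3_sq H hm hz).2, mem_ball_zero_iff, norm_pow] at h1
      rw [mem_ball_zero_iff]
      exact lt_of_pow_lt_pow_left₀ 2 hδ.le h1
  · intro w hw
    by_cases h0 : w = 0
    · exact Or.inl (h0 ▸ g0)
    · refine Or.inr ?_
      rw [g1 w h0, tt_pt (H.on hw h0).1, norm_inv]
      exact inv_strictAnti₀ (norm_pos_iff.2 (pow_ne_zero _ h0))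
        (mem_ball_zero_iff.1 (sq_mem_ball hw))
  · rintro z (rfl | hz)
    · rw [f0, g0]
    · obtain ⟨h0, h1⟩ := chart3_ball hδ hz
      obtain ⟨h2, h3⟩ := chart3_sq H hm hz
      have h4 : f z ^ 2 = (D.tt z)⁻¹ := h3
      have h5 : f z ≠ 0 := fun h5 => inv_ne_zero h0 (by rw [← h4, h5]; simp)
      have h6 : z ≠ OnePoint.infty := by
        rintro rfl
        exact h0 tt_infty
      have h7 := H.ne _ h1
      have h8 : h (D.tt z)⁻¹ / f z ^ (D.p + D.q + 1) = D.yy z := by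
        rw [hm, ← two_mul, pow_succ, pow_mul, h4, inv_pow]
        simp only [f]
        generalize h (D.tt z)⁻¹ = c at h7
        field_simp
      rw [g1 _ h5, h4, inv_inv, h8, pt_tt h6]
  · intro w hw
    by_cases h0 : w = 0
    · rw [h0, g0, f0]
    · have h1 := H.ne _ (sq_mem_ball hw)
      rw [g1 w h0]
      simp only [f]
      rw [tt_pt (H.on hw h0).1, yy_pt (H.on hw h0).1, inv_inv, hm, inv_pow]
      field_simp
      ring
  · intro z hz
    by_cases hi : z = OnePoint.infty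
    · subst hi
      refine ContinuousAt.continuousWithinAt (f := f) ?_
      rw [← continuousWithinAt_compl_self, ContinuousWithinAt, f0,
        tendsto_zero_iff_norm_tendsto_zero]
      have h1 : Tendsto (fun z => √(‖D.tt z‖⁻¹)) (𝓝[≠] OnePoint.infty) (𝓝 0) := by
        simpa using (tt_tendsto (D := D)).inv_tendsto_atTop.sqrt
      refine h1.congr' ?_
      filter_upwards [(tt_tendsto (D := D)).eventually_gt_atTop (δ ^ 2)⁻¹] with z hz
      have h4 : f z ^ 2 = (D.tt z)⁻¹ := (chart3_sq H hm hz).2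
      rw [← norm_inv, ← h4, norm_pow, Real.sqrt_sq (norm_nonneg _)]
    · have hz' : (δ ^ 2)⁻¹ < ‖D.tt z‖ := hz.resolve_left hi
      obtain ⟨h0, h1⟩ := chart3_ball hδ hz'
      have hn : ({OnePoint.infty}ᶜ : Set D.N) ∈ 𝓝 z := isOpen_compl_singleton.mem_nhds hi
      have ht := (tt_cont (D := D)).continuousAt hn
      have hy := (yy_cont (D := D)).continuousAt hn
      have hh : ContinuousAt h (D.tt z)⁻¹ :=
        H.hol.continuousOn.continuousAt (isOpen_ball.mem_nhds h1)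
      exact (((ContinuousAt.comp (f := fun z => (D.tt z)⁻¹) hh (ht.inv₀ h0)).mul (ht.pow m)).div hy
        (chart3_sq H hm hz').1).continuousWithinAt
  · intro w hw
    change w ∈ ball (0 : ℂ) δ at hw
    refine ContinuousAt.continuousWithinAt (f := g) ?_
    by_cases h0 : w = 0
    · subst h0
      rw [← continuousWithinAt_compl_self, ContinuousWithinAt, g0]
      have h1 : Tendsto (fun w : ℂ => ‖(w ^ 2)⁻¹‖) (𝓝[≠] 0) atTop := by
        have := (tendsto_norm_inv_nhdsNE_zero_atTop (α := ℂ))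
        refine ((tendsto_pow_atTop two_ne_zero).comp this).congr fun w => ?_
        simp
      have h2 : ∀ᶠ w in 𝓝[≠] (0 : ℂ), w ∈ ball (0 : ℂ) δ :=
        mem_nhdsWithin_of_mem_nhds (ball_mem_nhds 0 hδ)
      refine (pt_tendsto (Yl := fun w => h (w ^ 2) / w ^ (D.p + D.q + 1)) ?_ h1).congr' ?_
      · filter_upwards [h2, self_mem_nhdsWithin] with w h3 h4
        exact (H.on h3 h4).1
      · filter_upwards [self_mem_nhdsWithin] with w h4
        exact (g1 w h4).symm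
    · have hn : ball (0 : ℂ) δ ∩ {0}ᶜ ∈ 𝓝 w :=
        (isOpen_ball.inter isOpen_compl_singleton).mem_nhds ⟨hw, h0⟩
      have h1 : ContinuousOn (fun w : ℂ => D.pt (w ^ 2)⁻¹ (h (w ^ 2) / w ^ (D.p + D.q + 1)))
          (ball (0 : ℂ) δ ∩ {0}ᶜ) := by
        refine pt_cont ((continuousOn_pow 2).inv₀ fun w hw => pow_ne_zero _ hw.2)
          ((H.hol.continuousOn.comp (continuousOn_pow 2) fun w hw => sq_mem_ball hw.1).div
            (continuousOn_pow _) fun w hw => pow_ne_zero _ hw.2) fun w hw => (H.on hw.1 hw.2).1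
      exact (h1.congr fun w hw => g1 w hw.2).continuousAt hn

theorem Ok.atl (hD : D.Ok) : Nonempty D.Atl := by
  have key : ∀ z : D.N, ∃ (e : OpenPartialHomeomorph D.N ℂ) (δ : ℝ), 0 < δ ∧
      e.target = ball 0 δ ∧ e.symm 0 = z ∧ D.Kind e δ := by
    intro z
    by_cases hi : z = OnePoint.infty
    · obtain ⟨δ, h, H, -⟩ := hD.par3
      obtain ⟨e, h1, h2, h3⟩ := H.chart hD
      exact ⟨e, δ, H.pos, h1, hi ▸ h2, Or.inr (Or.inr ⟨h, H, h2, h3⟩)⟩
    by_cases hy : D.yy z = 0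
    · obtain ⟨δ, h, H, -⟩ := hD.par2 (x₀ := D.tt z) (by rw [← yy_sq, hy]; simp)
      obtain ⟨e, h1, h2⟩ := H.chart
      refine ⟨e, δ, H.pos, h1, ?_, Or.inr (Or.inl ⟨_, h, H, h2⟩)⟩
      rw [h2 0 (mem_ball_self H.pos), zero_mul, zero_pow two_ne_zero, add_zero, ← hy, pt_tt hi]
    · obtain ⟨δ, h, H, h0⟩ := par1 (yy_sq z) hy
      obtain ⟨e, h1, h2⟩ := H.chart
      refine ⟨e, δ, H.pos, h1, ?_, Or.inl ⟨_, h, H, h2⟩⟩
      rw [h2 0 (mem_ball_self H.pos), add_zero, h0, pt_tt hi]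
  choose e δ h0 h1 h2 h3 using key
  have h4 : ∀ z, (0 : ℂ) ∈ (e z).target := fun z => by
    rw [h1]; exact mem_ball_self (h0 z)
  refine ⟨⟨e, δ, h1, fun z => ?_, fun z => ?_, h3⟩⟩
  · have := (e z).map_target (h4 z)
    rwa [h2] at this
  · have := (e z).right_inv (h4 z)
    rwa [h2] at this

end Dat

end Pool.Agent.MP_92463a_gt
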