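import Pool.Agent.MP_92463a_gt.Num0

open Set Complex Filter Metric
open scoped Topology ComplexConjugate ContDiff Manifold

noncomputable section

namespace Pool.Agent.MP_92463a_gt

variable {p : ℝ}

theorem Circ_s_pos (h0 : 0 < p) : 0 < √p := Real.sqrt_pos.2 h0

theorem Circ_s_lt (h1 : p < 1) : √p < 1 := by
  rw [Real.sqrt_lt' one_pos]; simpa using h1

theorem Circ_s_sq (h0 : 0 < p) : √p ^ 2 = p := Real.sq_sqrt h0.le

theorem Circ_g_pos (h1 : p < 1) : 0 < √(1 - p) := Real.sqrt_pos.2 (by linarith)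

theorem Circ_g_sq (h1 : p < 1) : √(1 - p) ^ 2 = 1 - p := Real.sq_sqrt (by linarith)

theorem Circ_d_pos (h0 : 0 < p) (h1 : p < 1) (θ : ℝ) : 0 < 1 - √p * Real.cos θ := by
  have h2 := Circ_s_pos h0
  have h3 := Circ_s_lt h1
  have h4 := Real.cos_le_one θ
  nlinarith

theorem Circ_rad_pos (h0 : 0 < p) (h1 : p < 1) (θ : ℝ) : 0 < 1 - p * Real.cos θ ^ 2 := by
  have h4 := Real.cos_sq_le_one θ
  nlinarith

theorem Dl_pos (h0 : 0 < p) (h1 : p < 1) (θ : ℝ) : 0 < Dl p θ :=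
  Real.sqrt_pos.2 (Circ_rad_pos h0 h1 θ)

theorem Circ_Dl_sq (h0 : 0 < p) (h1 : p < 1) (θ : ℝ) : Dl p θ ^ 2 = 1 - p * Real.cos θ ^ 2 :=
  Real.sq_sqrt (Circ_rad_pos h0 h1 θ).le

theorem Circ_zc_re (θ : ℝ) :
    (zc p θ).re = (Real.cos θ - √p) / (1 - √p * Real.cos θ) := by
  rw [zc, Complex.div_ofReal_re]
  simp only [add_re, ofReal_re, mul_re, I_re, mul_zero, ofReal_im, I_im, mul_one, sub_self,
    add_zero]

theorem Circ_zc_im (θ : ℝ) :
    (zc p θ).im = √(1 - p) * Real.sin θ / (1 - √p * Real.cos θ) := by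
  rw [zc, Complex.div_ofReal_im]
  simp only [add_im, ofReal_re, mul_im, I_re, mul_zero, ofReal_im, I_im, mul_one, add_zero,
    zero_add]

theorem Circ_zc_normSq (h0 : 0 < p) (h1 : p < 1) (θ : ℝ) :
    (zc p θ).re ^ 2 + (zc p θ).im ^ 2 = 1 := by
  have hd := Circ_d_pos h0 h1 θ
  have hs := Circ_s_sq h0
  have hg := Circ_g_sq h1
  have ht := Real.sin_sq_add_cos_sq θ
  rw [Circ_zc_re, Circ_zc_im, div_pow, div_pow, ← add_div, div_eq_one_iff_eq (pow_pos hd 2).ne']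
  generalize √p = σ at *
  generalize √(1 - p) = γ at *
  generalize Real.sin θ = S at *
  generalize Real.cos θ = c at *
  linear_combination S ^ 2 * hg + (1 - p) * ht + (1 - c ^ 2) * hs

theorem norm_zc (h0 : 0 < p) (h1 : p < 1) (θ : ℝ) : ‖zc p θ‖ = 1 := by
  have h := Circ_zc_normSq h0 h1 θ
  have h2 : ‖zc p θ‖ ^ 2 = 1 := by
    rw [Complex.sq_norm, Complex.normSq_apply]; linarith
  have h3 := norm_nonneg (zc p θ)
  nlinarith

theorem Circ_sc_re' (θ : ℝ) : (sc p θ).re = 1 + (zc p θ).re / √p := by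
  rw [sc, add_re, Complex.div_ofReal_re, one_re]

theorem Circ_sc_im' (θ : ℝ) : (sc p θ).im = (zc p θ).im / √p := by
  rw [sc, add_im, Complex.div_ofReal_im, one_im, zero_add]

theorem Circ_sc_im (θ : ℝ) :
    (sc p θ).im = √(1 - p) * Real.sin θ / (√p * (1 - √p * Real.cos θ)) := by
  rw [Circ_sc_im', Circ_zc_im, div_div, mul_comm (1 - √p * Real.cos θ)]

theorem sc_zero (h0 : 0 < p) (h1 : p < 1) : sc p 0 = ((1 + 1 / √p : ℝ) : ℂ) := by
  have hd := Circ_d_pos h0 h1 0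
  apply Complex.ext
  · rw [Circ_sc_re', Circ_zc_re, ofReal_re]
    rw [Real.cos_zero, mul_one] at *
    rw [div_self hd.ne']
  · rw [Circ_sc_im, ofReal_im, Real.sin_zero, mul_zero, zero_div]

theorem sc_pi (h0 : 0 < p) (h1 : p < 1) : sc p Real.pi = ((1 - 1 / √p : ℝ) : ℂ) := by
  have hs := Circ_s_pos h0
  apply Complex.ext
  · rw [Circ_sc_re', Circ_zc_re, ofReal_re, Real.cos_pi]
    have : (-1 - √p) / (1 - √p * -1) = -1 := by
      rw [div_eq_iff (by linarith)]; ring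
    rw [this]; ring
  · rw [Circ_sc_im, ofReal_im, Real.sin_pi, mul_zero, zero_div]

theorem sc_im (h0 : 0 < p) (h1 : p < 1) {θ : ℝ} (hθ : θ ∈ Ioo 0 Real.pi) : 0 < (sc p θ).im := by
  rw [Circ_sc_im]
  exact div_pos (mul_pos (Circ_g_pos h1) (Real.sin_pos_of_mem_Ioo hθ))
    (mul_pos (Circ_s_pos h0) (Circ_d_pos h0 h1 θ))

theorem sc_re (h0 : 0 < p) (h1 : p < 1) (θ : ℝ) :
    (sc p θ).re = (1 - p) * Real.cos θ / (√p * (1 - √p * Real.cos θ)) := by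
  have hd := Circ_d_pos h0 h1 θ
  have hp := Circ_s_pos h0
  have hs := Circ_s_sq h0
  rw [Circ_sc_re', Circ_zc_re, div_div, mul_comm (1 - √p * Real.cos θ),
    eq_div_iff (mul_pos hp hd).ne', add_mul, div_mul_cancel₀ _ (mul_pos hp hd).ne']
  generalize √p = σ at *
  linear_combination (-Real.cos θ) * hs

theorem Circ_sub_one (θ : ℝ) : sc p θ - 1 = zc p θ / ((√p : ℝ) : ℂ) := by
  rw [sc]; ring

theorem Circ_norm_sub_one (h0 : 0 < p) (h1 : p < 1) (θ : ℝ) : ‖sc p θ - 1‖ = 1 / √p := by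
  rw [Circ_sub_one, norm_div, norm_zc h0 h1, Complex.norm_real, Real.norm_eq_abs,
    abs_of_pos (Circ_s_pos h0)]

theorem Circ_one_lt (h0 : 0 < p) (h1 : p < 1) : 1 < 1 / √p :=
  one_lt_one_div (Circ_s_pos h0) (Circ_s_lt h1)

theorem sc_norm (h0 : 0 < p) (h1 : p < 1) (θ : ℝ) :
    1 / √p - 1 ≤ ‖sc p θ‖ ∧ ‖sc p θ‖ ≤ 1 / √p + 1 ∧
      ‖sc p θ‖ ^ 2 = 2 * (sc p θ).re + (1 - p) / p := by
  have hn := Circ_norm_sub_one h0 h1 θ
  refine ⟨?_, ?_, ?_⟩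
  · have := norm_sub_le (sc p θ) 1
    rw [hn, norm_one] at this
    linarith
  · have := norm_add_le (sc p θ - 1) 1
    rw [hn, norm_one, sub_add_cancel] at this
    exact this
  · have h2 : ‖sc p θ - 1‖ ^ 2 = 1 / p := by
      rw [hn, div_pow, Circ_s_sq h0, one_pow]
    rw [Complex.sq_norm, Complex.normSq_apply] at h2 ⊢
    simp only [sub_re, one_re, sub_im, one_im, sub_zero] at h2
    have h3 : (1 - p) / p = 1 / p - 1 := by field_simp
    rw [h3]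
    linarith

theorem Circ_norm_pos (h0 : 0 < p) (h1 : p < 1) (θ : ℝ) : 0 < ‖sc p θ‖ := by
  have := (sc_norm h0 h1 θ).1
  have := Circ_one_lt h0 h1
  linarith

theorem sc_add (h0 : 0 < p) (h1 : p < 1) (θ : ℝ) :
    sc p θ + ((1 - p) / p : ℝ) = (sc p θ - 1) * conj (sc p θ) := by
  have h := (sc_norm h0 h1 θ).2.2
  have h2 : sc p θ * conj (sc p θ) = ((‖sc p θ‖ ^ 2 : ℝ) : ℂ) := by
    rw [Complex.mul_conj, Complex.normSq_eq_norm_sq]
  have h3 : sc p θ + conj (sc p θ) = ((2 * (sc p θ).re : ℝ) : ℂ) := Complex.add_conj _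
  rw [sub_mul, h2, h, ofReal_add, ← h3]
  ring

theorem sc_ne (h0 : 0 < p) (h1 : p < 1) (θ : ℝ) :
    sc p θ ≠ 0 ∧ sc p θ - 1 ≠ 0 ∧ sc p θ + ((1 - p) / p : ℝ) ≠ 0 ∧ Yc p θ ≠ 0 := by
  have ha : sc p θ ≠ 0 := norm_pos_iff.1 (Circ_norm_pos h0 h1 θ)
  have hb : sc p θ - 1 ≠ 0 := by
    apply norm_pos_iff.1
    rw [Circ_norm_sub_one h0 h1]
    exact one_div_pos.2 (Circ_s_pos h0)
  refine ⟨ha, hb, ?_, ?_⟩
  · rw [sc_add h0 h1]
    exact mul_ne_zero hb ((map_ne_zero _).2 ha)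
  · rw [Yc, ← Circ_sub_one]
    exact mul_ne_zero hb (ofReal_ne_zero.2 (Circ_norm_pos h0 h1 θ).ne')

theorem Circ_norm_add (h0 : 0 < p) (h1 : p < 1) (θ : ℝ) :
    ‖sc p θ + ((1 - p) / p : ℝ)‖ = 1 / √p * ‖sc p θ‖ := by
  rw [sc_add h0 h1, norm_mul, Circ_norm_sub_one h0 h1, Complex.norm_conj]

theorem norm_wA (h0 : 0 < p) (h1 : p < 1) (θ : ℝ) :
    ‖(sc p θ + ((1 - p) / p : ℝ)) ^ 2 / sc p θ‖ = (1 + (1 - p) / p) * ‖sc p θ‖ := by
  have hn := Circ_norm_pos h0 h1 θ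
  rw [norm_div, norm_pow, Circ_norm_add h0 h1, mul_pow, div_pow, Circ_s_sq h0]
  field_simp
  ring

theorem norm_wB (h0 : 0 < p) (h1 : p < 1) (θ : ℝ) :
    ‖(sc p θ - 1) / (sc p θ + ((1 - p) / p : ℝ))‖ = 1 / ‖sc p θ‖ := by
  have hn := Circ_norm_pos h0 h1 θ
  have hs := Circ_s_pos h0
  rw [norm_div, Circ_norm_add h0 h1, Circ_norm_sub_one h0 h1]
  field_simp

theorem Yc_sq (h0 : 0 < p) (h1 : p < 1) (θ : ℝ) :
    Yc p θ ^ 2 = sc p θ * (sc p θ - 1) * (sc p θ + ((1 - p) / p : ℝ)) := by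
  have h2 : sc p θ * conj (sc p θ) = ((‖sc p θ‖ : ℝ) : ℂ) ^ 2 := by
    rw [Complex.mul_conj, Complex.normSq_eq_norm_sq, ofReal_pow]
  rw [sc_add h0 h1, Yc, ← Circ_sub_one, mul_pow, ← h2]
  ring

theorem Yc_im (h0 : 0 < p) (h1 : p < 1) : (Yc p 0).im = 0 ∧ (Yc p Real.pi).im = 0 := by
  constructor
  · rw [Yc, ← Circ_sub_one, sc_zero h0 h1, Complex.mul_im, ofReal_im, sub_im, ofReal_im, one_im]
    ring
  · rw [Yc, ← Circ_sub_one, sc_pi h0 h1, Complex.mul_im, ofReal_im, sub_im, ofReal_im, one_im]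
    ring

theorem Circ_norm_sc (h0 : 0 < p) (h1 : p < 1) (θ : ℝ) :
    ‖sc p θ‖ = √(1 - p) * Dl p θ / (√p * (1 - √p * Real.cos θ)) := by
  have hd := Circ_d_pos h0 h1 θ
  have hp := Circ_s_pos h0
  have hg := Circ_g_sq h1
  have hg0 := Circ_g_pos h1
  have hD := Circ_Dl_sq h0 h1 θ
  have hD0 := Dl_pos h0 h1 θ
  have ht := Real.sin_sq_add_cos_sq θ
  have h : ‖sc p θ‖ ^ 2 = (√(1 - p) * Dl p θ / (√p * (1 - √p * Real.cos θ))) ^ 2 := by
    rw [Complex.sq_norm, Complex.normSq_apply, sc_re h0 h1, Circ_sc_im, ← sq, ← sq, div_pow,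
      div_pow, div_pow, ← add_div, mul_pow (√(1 - p)), mul_pow (√(1 - p)), hD, hg]
    congr 1
    linear_combination (1 - p) * ht
  exact (pow_left_inj₀ (norm_nonneg _) (by positivity) two_ne_zero).1 h

theorem Circ_zc_der (h0 : 0 < p) (h1 : p < 1) (θ : ℝ) :
    HasDerivAt (zc p) (I * ((√(1 - p) / (1 - √p * Real.cos θ) : ℝ) : ℂ) * zc p θ) θ := by
  have hd := Circ_d_pos h0 h1 θ
  have hs := Circ_s_sq h0
  have hg := Circ_g_sq h1
  have ht := Real.sin_sq_add_cos_sq θ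
  have a1 : HasDerivAt (fun x => Real.cos x - √p) (-Real.sin θ) θ :=
    (Real.hasDerivAt_cos θ).sub_const _
  have a2 : HasDerivAt (fun x => √(1 - p) * Real.sin x) (√(1 - p) * Real.cos θ) θ :=
    (Real.hasDerivAt_sin θ).const_mul _
  have a3 : HasDerivAt (fun x => 1 - √p * Real.cos x) (-(√p * -Real.sin θ)) θ :=
    ((Real.hasDerivAt_cos θ).const_mul _).const_sub _
  have hdc : ((1 - √p * Real.cos θ : ℝ) : ℂ) ≠ 0 := ofReal_ne_zero.2 hd.ne'
  have b := ((a1.ofReal_comp).add ((a2.ofReal_comp).mul_const I)).div a3.ofReal_comp hdc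
  refine HasDerivAt.congr_deriv b ?_
  simp only [Pi.add_apply, zc]
  have hs' : ((√p : ℝ) : ℂ) ^ 2 = p := by exact_mod_cast hs
  have hg' : ((√(1 - p) : ℝ) : ℂ) ^ 2 = 1 - p := by exact_mod_cast hg
  have ht' : ((Real.sin θ : ℝ) : ℂ) ^ 2 + ((Real.cos θ : ℝ) : ℂ) ^ 2 = 1 := by exact_mod_cast ht
  rw [ofReal_div, ← mul_div_assoc I, div_mul_div_comm, ← sq]
  congr 1
  simp only [ofReal_sub, ofReal_mul, ofReal_neg, ofReal_one]
  generalize ((√p : ℝ) : ℂ) = σ at *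
  generalize ((√(1 - p) : ℝ) : ℂ) = γ at *
  generalize ((Real.sin θ : ℝ) : ℂ) = S at *
  generalize ((Real.cos θ : ℝ) : ℂ) = c at *
  linear_combination S * hg' + S * hs' - (I * γ * σ) * ht' - (γ ^ 2 * S) * I_sq

theorem sc_der (h0 : 0 < p) (h1 : p < 1) (θ : ℝ) :
    HasDerivAt (sc p) (I * ((√p / Dl p θ : ℝ) : ℂ) * Yc p θ) θ := by
  have b := ((Circ_zc_der h0 h1 θ).div_const ((√p : ℝ) : ℂ)).const_add 1
  refine HasDerivAt.congr_deriv b ?_
  have hdc : ((1 - √p * Real.cos θ : ℝ) : ℂ) ≠ 0 := ofReal_ne_zero.2 (Circ_d_pos h0 h1 θ).ne'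
  have hs : ((√p : ℝ) : ℂ) ≠ 0 := ofReal_ne_zero.2 (Circ_s_pos h0).ne'
  have hD : ((Dl p θ : ℝ) : ℂ) ≠ 0 := ofReal_ne_zero.2 (Dl_pos h0 h1 θ).ne'
  rw [Yc, Circ_norm_sc h0 h1, ofReal_div, ofReal_div, ofReal_div, ofReal_mul, ofReal_mul]
  generalize ((1 - √p * Real.cos θ : ℝ) : ℂ) = d at *
  field_simp

theorem Yc_der (h0 : 0 < p) (h1 : p < 1) (θ : ℝ) :
    HasDerivAt (Yc p) (I * ((√p / Dl p θ : ℝ) : ℂ) *
      ((3 * sc p θ ^ 2 + 2 * (((1 - p) / p : ℝ) - 1) * sc p θ - ((1 - p) / p : ℝ)) / 2)) θ := by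
  have hsd := sc_der h0 h1 θ
  obtain ⟨ha, -, -, hY⟩ := sc_ne h0 h1 θ
  have hn : DifferentiableAt ℝ (fun x => ‖sc p x‖) θ := hsd.differentiableAt.norm ℝ ha
  have hYd : DifferentiableAt ℝ (Yc p) θ :=
    (((Circ_zc_der h0 h1 θ).div_const ((√p : ℝ) : ℂ)).mul
      hn.hasDerivAt.ofReal_comp).differentiableAt
  have e1 := hYd.hasDerivAt.mul hYd.hasDerivAt
  have e2 := (hsd.mul (hsd.sub_const 1)).mul (hsd.add_const (((1 - p) / p : ℝ) : ℂ))
  have e3 : Yc p * Yc p =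
      (sc p * fun x => sc p x - 1) * fun x => sc p x + (((1 - p) / p : ℝ) : ℂ) := by
    funext x; simp only [Pi.mul_apply]; rw [← sq]; exact Yc_sq h0 h1 x
  rw [e3] at e1
  have e4 := e1.unique e2
  simp only [Pi.mul_apply] at e4
  refine HasDerivAt.congr_deriv hYd.hasDerivAt ?_
  apply mul_left_cancel₀ (mul_ne_zero two_ne_zero hY)
  linear_combination e4

theorem sc_symm (h0 : 0 < p) (h1 : p < 1) (θ : ℝ) :
    sc p (Real.pi - θ) = -((1 - p) / p : ℝ) / sc p θ := by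
  have ha := (sc_ne h0 h1 θ).1
  have hd := Circ_d_pos h0 h1 θ
  have hd' := Circ_d_pos h0 h1 (Real.pi - θ)
  have hp := Circ_s_pos h0
  have hs := Circ_s_sq h0
  have hg := Circ_g_sq h1
  have ht := Real.sin_sq_add_cos_sq θ
  rw [eq_div_iff ha]
  apply Complex.ext
  · rw [mul_re, sc_re h0 h1, sc_re h0 h1, Circ_sc_im, Circ_sc_im, neg_re, ofReal_re]
    rw [Real.cos_pi_sub] at *
    rw [Real.sin_pi_sub]
    rw [div_mul_div_comm, div_mul_div_comm, ← sub_div, ← neg_div,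
      div_eq_div_iff (mul_pos (mul_pos hp hd') (mul_pos hp hd)).ne' h0.ne']
    generalize √p = σ at *
    generalize √(1 - p) = γ at *
    generalize Real.sin θ = S at *
    generalize Real.cos θ = c at *
    subst hs
    linear_combination (-(σ ^ 2 * S ^ 2)) * hg - (σ ^ 2 * (1 - σ ^ 2)) * ht
  · rw [mul_im, sc_re h0 h1, sc_re h0 h1, Circ_sc_im, Circ_sc_im, neg_im, ofReal_im]
    rw [Real.cos_pi_sub] at *
    rw [Real.sin_pi_sub, div_mul_div_comm, div_mul_div_comm, ← add_div]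
    ring

theorem Dl_cont : Continuous fun z : ℝ × ℝ => Dl z.1 z.2 := by
  unfold Dl
  fun_prop

theorem sc_cont : ContinuousOn (fun z : ℝ × ℝ => sc z.1 z.2) (Ioo 0 1 ×ˢ univ) := by
  unfold sc zc
  refine continuousOn_const.add (ContinuousOn.div (ContinuousOn.div ?_ ?_ ?_) ?_ ?_)
  · fun_prop
  · fun_prop
  · intro z hz
    exact ofReal_ne_zero.2 (Circ_d_pos hz.1.1 hz.1.2 z.2).ne'
  · fun_prop
  · intro z hz
    exact ofReal_ne_zero.2 (Circ_s_pos hz.1.1).ne'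

theorem Circ_Dl_cont : Continuous (Dl p) := by
  unfold Dl
  fun_prop

theorem Av_symm (h0 : 0 < p) (h1 : p < 1) (φ : ℂ → ℂ) :
    Av p φ = Av p fun s => φ (-((1 - p) / p : ℝ) / s) := by
  have h := intervalIntegral.integral_comp_sub_left (a := 0) (b := Real.pi)
    (fun θ => (φ (sc p θ)).re / Dl p θ) Real.pi
  rw [sub_self, sub_zero] at h
  unfold Av
  rw [← h]
  congr 1
  funext θ
  rw [sc_symm h0 h1, Dl, Dl, Real.cos_pi_sub, neg_sq]

theorem Av_congr {φ ψ : ℂ → ℂ} (h : ∀ θ ∈ Icc 0 Real.pi, (φ (sc p θ)).re = (ψ (sc p θ)).re) :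
    Av p φ = Av p ψ := by
  unfold Av
  apply intervalIntegral.integral_congr
  intro θ hθ
  rw [uIcc_of_le Real.pi_pos.le] at hθ
  simp only [h θ hθ]

theorem Circ_int (h0 : 0 < p) (h1 : p < 1) {φ : ℂ → ℂ}
    (hφ : ContinuousOn (fun θ => φ (sc p θ)) (Icc 0 Real.pi)) :
    IntervalIntegrable (fun θ => (φ (sc p θ)).re / Dl p θ) MeasureTheory.volume 0 Real.pi := by
  apply ContinuousOn.intervalIntegrable_of_Icc Real.pi_pos.le
  exact (Complex.continuous_re.comp_continuousOn hφ).div Circ_Dl_cont.continuousOn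
    fun θ _ => (Dl_pos h0 h1 θ).ne'

theorem Av_add (h0 : 0 < p) (h1 : p < 1) {φ ψ : ℂ → ℂ}
    (hφ : ContinuousOn (fun θ => φ (sc p θ)) (Icc 0 Real.pi))
    (hψ : ContinuousOn (fun θ => ψ (sc p θ)) (Icc 0 Real.pi)) :
    Av p (fun s => φ s + ψ s) = Av p φ + Av p ψ := by
  unfold Av
  rw [← intervalIntegral.integral_add (Circ_int h0 h1 hφ) (Circ_int h0 h1 hψ)]
  congr 1
  funext θ
  rw [add_re, add_div]

theorem Av_mul (c : ℝ) (φ : ℂ → ℂ) : Av p (fun s => (c : ℂ) * φ s) = c * Av p φ := by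
  unfold Av
  rw [← intervalIntegral.integral_const_mul]
  congr 1
  funext θ
  rw [Complex.re_ofReal_mul, mul_div_assoc]

theorem Av_le (h0 : 0 < p) (h1 : p < 1) {φ ψ : ℂ → ℂ}
    (hψ : ContinuousOn (fun θ => ψ (sc p θ)) (Icc 0 Real.pi))
    (h : ∀ θ ∈ Icc 0 Real.pi, ‖φ (sc p θ)‖ ≤ (ψ (sc p θ)).re) : |Av p φ| ≤ Av p ψ := by
  unfold Av
  rw [← Real.norm_eq_abs]
  refine intervalIntegral.norm_integral_le_of_norm_le Real.pi_pos.le
    (Eventually.of_forall fun θ hθ => ?_) (Circ_int h0 h1 hψ)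
  have hD := Dl_pos h0 h1 θ
  rw [norm_div, Real.norm_eq_abs, Real.norm_eq_abs, abs_of_pos hD]
  exact div_le_div_of_nonneg_right
    ((Complex.abs_re_le_norm _).trans (h θ (Ioc_subset_Icc_self hθ))) hD.le

theorem e0_pos (h0 : 0 < p) (h1 : p < 1) : 0 < e0 p := by
  unfold e0 Av
  apply intervalIntegral.intervalIntegral_pos_of_pos_on
    (Circ_int h0 h1 (φ := fun _ => 1) continuousOn_const) _ Real.pi_pos
  intro θ _
  rw [one_re]
  exact one_div_pos.2 (Dl_pos h0 h1 θ)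

end Pool.Agent.MP_92463a_gt
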