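import Pool.Agent.MP_92463a_gt.Fld
import Pool.Agent.MP_92463a_gt.App

open Set Complex Filter Metric
open scoped Topology ComplexConjugate ContDiff Manifold

noncomputable section

namespace Pool.Agent.MP_92463a_gt

section Aux

variable {α : Type} [TopologicalSpace α] {lo up : Bool} {u d θ : α → ℝ}

theorem Cont_p {u d : ℝ} (h : InBox lo up u d) :
    0 < u ∧ 0 < d ∧ 0 < u / (u + d) ∧ u / (u + d) < 1 ∧
      (1 - u / (u + d)) / (u / (u + d)) = d / u := by
  obtain ⟨h1, -, h2, -, h3, h4⟩ := h.bd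
  have hu : 0 < u := by linarith
  have hd : 0 < d := by linarith
  refine ⟨hu, hd, by linarith, by linarith, ?_⟩
  field_simp
  ring

theorem Cont_pc (h : ∀ a, InBox lo up (u a) (d a)) (hu : Continuous u) (hd : Continuous d) :
    Continuous fun a => u a / (u a + d a) :=
  hu.div (hu.add hd) fun a => (add_pos (Cont_p (h a)).1 (Cont_p (h a)).2.1).ne'

theorem Cont_sc (h : ∀ a, InBox lo up (u a) (d a)) (hu : Continuous u) (hd : Continuous d)
    (hθ : Continuous θ) : Continuous fun a => sc (u a / (u a + d a)) (θ a) := by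
  have h1 : Continuous fun a => (u a / (u a + d a), θ a) := (Cont_pc h hu hd).prodMk hθ
  have h2 := ContinuousOn.comp_continuous sc_cont h1 fun a =>
    mk_mem_prod ⟨(Cont_p (h a)).2.2.1, (Cont_p (h a)).2.2.2.1⟩ (mem_univ _)
  simpa only [Function.comp_def] using h2

theorem Cont_two {U₁ D₁ U₂ D₂ : α → ℕ → ℝ} {j₁ j₂ : ℕ} (h : ∀ a, InBox lo up (u a) (d a))
    (hu : Continuous u) (hd : Continuous d) (hθ : Continuous θ)
    (h₁ : ∀ a, ∀ i < j₁, InBox (decide (0 < i)) true (U₁ a i) (D₁ a i))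
    (h₂ : ∀ a, ∀ i < j₂, InBox (decide (0 < i)) true (U₂ a i) (D₂ a i))
    (cU₁ : ∀ i, Continuous fun a => U₁ a i) (cD₁ : ∀ i, Continuous fun a => D₁ a i)
    (cU₂ : ∀ i, Continuous fun a => U₂ a i) (cD₂ : ∀ i, Continuous fun a => D₂ a i)
    (hup : 0 < j₂ → up = true) :
    Continuous fun a =>
      fld (U₁ a) (D₁ a) j₁ (((d a ^ 2 / u a : ℝ) : ℂ) / sc (u a / (u a + d a)) (θ a)) +
        fld (U₂ a) (D₂ a) j₂ (((u a ^ 2 / d a : ℝ) : ℂ) * sc (u a / (u a + d a)) (θ a)) := by
  have hs := Cont_sc h hu hd hθ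
  refine Continuous.add (continuousOn_univ.1 ?_) (continuousOn_univ.1 ?_)
  · refine fld_cont (fun a _ => h₁ a) (fun i _ => (cU₁ i).continuousOn)
      (fun i _ => (cD₁ i).continuousOn) (Continuous.continuousOn ?_)
      fun a _ _ => ((h a).arg (θ a)).1
    exact (continuous_ofReal.comp ((hd.pow 2).div hu fun a => (Cont_p (h a)).1.ne')).div hs
      fun a => (sc_ne (Cont_p (h a)).2.2.1 (Cont_p (h a)).2.2.2.1 _).1
  · refine fld_cont (fun a _ => h₂ a) (fun i _ => (cU₂ i).continuousOn)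
      (fun i _ => (cD₂ i).continuousOn) (Continuous.continuousOn ?_)
      fun a _ hj => ((h a).arg (θ a)).2 (hup hj)
    exact (continuous_ofReal.comp ((hu.pow 2).div hd fun a => (Cont_p (h a)).2.1.ne')).mul hs

theorem Cont_Ld {g j : ℕ} {U D : α → ℕ → ℝ} (h : ∀ a, Box g (U a) (D a)) (hj : j < g)
    (cU : ∀ i, Continuous fun a => U a i) (cD : ∀ i, Continuous fun a => D a i)
    (hθ : Continuous θ) :
    Continuous fun a => Ld g (U a) (D a) j (sc (U a j / (U a j + D a j)) (θ a)) :=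
  Cont_two (U₂ := fun a => rev g (D a)) (D₂ := fun a => rev g (U a)) (fun a => h a j hj) (cU j)
    (cD j) hθ (fun a => (h a).low hj) (fun a => (h a).upp hj) cU cD (fun _ => cD _)
    (fun _ => cU _) fun h0 => decide_eq_true (by omega)

theorem Cont_Lu {g j : ℕ} {U D : α → ℕ → ℝ} (h : ∀ a, Box g (U a) (D a)) (hj : j < g)
    (cU : ∀ i, Continuous fun a => U a i) (cD : ∀ i, Continuous fun a => D a i)
    (hθ : Continuous θ) :
    Continuous fun a => Lu g (U a) (D a) j (sc (D a j / (D a j + U a j)) (θ a)) :=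
  Cont_two (U₁ := fun a => rev g (D a)) (D₁ := fun a => rev g (U a)) (fun a => (h a j hj).symm)
    (cD j) (cU j) hθ (fun a => (h a).upp hj) (fun a => (h a).low hj) (fun _ => cD _)
    (fun _ => cU _) cU cD fun h0 => decide_eq_true h0

theorem Cont_per {L : α → ℂ → ℂ} (h : ∀ a, InBox lo up (u a) (d a)) (hu : Continuous u)
    (hd : Continuous d)
    (hL : Continuous fun z : α × ℝ => L z.1 (sc (u z.1 / (u z.1 + d z.1)) z.2)) :
    Continuous fun a => Per (u a) (d a) (L a) := by
  unfold Per Av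
  refine intervalIntegral.continuous_parametric_intervalIntegral_of_continuous' ?_ _ _
  have hu' : Continuous fun z : α × ℝ => u z.1 := hu.comp continuous_fst
  have hd' : Continuous fun z : α × ℝ => d z.1 := hd.comp continuous_fst
  have hs := Cont_sc (fun z : α × ℝ => h z.1) hu' hd' continuous_snd
  have hp := Cont_pc (fun z : α × ℝ => h z.1) hu' hd'
  have hb : Continuous fun z : α × ℝ => ((d z.1 / u z.1 : ℝ) : ℂ) :=
    continuous_ofReal.comp (hd'.div hu' fun z => (Cont_p (h z.1)).1.ne')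
  have hn := fun z : α × ℝ => sc_ne (Cont_p (h z.1)).2.2.1 (Cont_p (h z.1)).2.2.2.1 z.2
  refine Continuous.div (continuous_re.comp (Continuous.add ?_ ?_))
    (Dl_cont.comp (hp.prodMk continuous_snd))
    fun z => (Dl_pos (Cont_p (h z.1)).2.2.1 (Cont_p (h z.1)).2.2.2.1 z.2).ne'
  · exact ((continuous_ofReal.comp hu').pow 2).mul
      ((((hs.add hb).pow 2).div hs fun z => (hn z).1).mul hL.cexp)
  · refine (continuous_ofReal.comp hd').mul
      (((hs.sub continuous_const).div (hs.add hb) fun z => ?_).mul hL.neg.cexp)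
    have h3 := (hn z).2.2.1
    rwa [(Cont_p (h z.1)).2.2.2.2] at h3

end Aux

variable {g j : ℕ}

theorem Ld_cont {U D : ℕ → ℝ} (h : Box g U D) (hj : j < g) :
    ContinuousOn (fun θ => Ld g U D j (sc (U j / (U j + D j)) θ)) (Icc 0 Real.pi) :=
  (Cont_Ld (U := fun _ => U) (D := fun _ => D) (fun _ => h) hj (fun _ => continuous_const)
    (fun _ => continuous_const) continuous_id).continuousOn

theorem Lu_cont {U D : ℕ → ℝ} (h : Box g U D) (hj : j < g) :
    ContinuousOn (fun θ => Lu g U D j (sc (D j / (D j + U j)) θ)) (Icc 0 Real.pi) :=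
  (Cont_Lu (U := fun _ => U) (D := fun _ => D) (fun _ => h) hj (fun _ => continuous_const)
    (fun _ => continuous_const) continuous_id).continuousOn

theorem perd_cont (hj : j < g) :
    ContinuousOn (fun z : (ℕ → ℝ) × (ℕ → ℝ) => Per (z.1 j) (z.2 j) (Ld g z.1 z.2 j))
      {z | Box g z.1 z.2} := by
  refine continuousOn_iff_continuous_domRestrict.2 ?_
  exact Cont_per (α := {z : (ℕ → ℝ) × (ℕ → ℝ) | Box g z.1 z.2}) (u := fun a => a.1.1 j)
    (d := fun a => a.1.2 j) (L := fun a => Ld g a.1.1 a.1.2 j) (fun a => a.2 j hj) (by fun_prop)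
    (by fun_prop) (Cont_Ld (fun z => z.1.2) hj (fun _ => by fun_prop) (fun _ => by fun_prop)
      continuous_snd)

theorem peru_cont (hj : j < g) :
    ContinuousOn (fun z : (ℕ → ℝ) × (ℕ → ℝ) => Per (z.2 j) (z.1 j) (Lu g z.1 z.2 j))
      {z | Box g z.1 z.2} := by
  refine continuousOn_iff_continuous_domRestrict.2 ?_
  exact Cont_per (α := {z : (ℕ → ℝ) × (ℕ → ℝ) | Box g z.1 z.2}) (u := fun a => a.1.2 j)
    (d := fun a => a.1.1 j) (L := fun a => Lu g a.1.1 a.1.2 j) (fun a => (a.2 j hj).symm)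
    (by fun_prop) (by fun_prop) (Cont_Lu (fun z => z.1.2) hj (fun _ => by fun_prop)
      (fun _ => by fun_prop) continuous_snd)

end Pool.Agent.MP_92463a_gt
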