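import Mathlib

/-! Definitions used in the statement: genus of a compact Riemann surface, minimal immersions
into `ℝ³`, proper minimal embeddings of a closed surface with finitely many points removed. -/

open scoped Manifold ContDiff RealInnerProductSpace
open Set

noncomputable section

namespace Pool.Agent.MP_92463a_gt

abbrev E3 := EuclideanSpace ℝ (Fin 3)

section
variable (N : Type) [TopologicalSpace N] [ChartedSpace ℂ N]

/-- Holomorphic 1-forms on `N`: `f x` is the coefficient of `dz` in the chart at `x`. -/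
def holForms : Submodule ℂ (N → ℂ → ℂ) where
  carrier := {f | (∀ x, DifferentiableOn ℂ (f x) (chartAt ℂ x).target) ∧
    (∀ x, ∀ z ∉ (chartAt ℂ x).target, f x z = 0) ∧
    ∀ x y, ∀ q ∈ (chartAt ℂ x).source ∩ (chartAt ℂ y).source,
      f x (chartAt ℂ x q) =
        f y (chartAt ℂ y q) * deriv (chartAt ℂ y ∘ (chartAt ℂ x).symm) (chartAt ℂ x q)}
  add_mem' := fun ha hb => ⟨fun x => (ha.1 x).add (hb.1 x),
    fun x z hz => by simp [ha.2.1 x z hz, hb.2.1 x z hz],
    fun x y q hq => by simp [ha.2.2 x y q hq, hb.2.2 x y q hq, add_mul]⟩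
  zero_mem' := ⟨fun _ => differentiableOn_const 0, fun _ _ _ => rfl, fun _ _ _ _ => by simp⟩
  smul_mem' := fun c _ ha => ⟨fun x => (ha.1 x).const_smul c,
    fun x z hz => by simp [ha.2.1 x z hz],
    fun x y q hq => by simp [ha.2.2 x y q hq, mul_assoc]⟩

/-- The genus of a compact connected Riemann surface: the dimension of the space of holomorphic
1-forms. -/
def genus : ℕ := Module.finrank ℂ (holForms N)

variable {N}

/-- The map `f` read in the chart at `p`. -/
def loc (f : N → E3) (p : N) : ℂ → E3 := f ∘ (chartAt ℂ p).symm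

/-- The first derivative of `f` at `p` in the direction `v` of the chart at `p`. -/
def d1 (f : N → E3) (p : N) (v : ℂ) : E3 := fderiv ℝ (loc f p) (chartAt ℂ p p) v

/-- The second derivative of `f` at `p` in the directions `v`, `w` of the chart at `p`. -/
def d2 (f : N → E3) (p : N) (v w : ℂ) : E3 :=
  fderiv ℝ (fun z => fderiv ℝ (loc f p) z v) (chartAt ℂ p p) w

/-- At `p` the map `f` is smooth, is an immersion, and its mean curvature
`(e G - 2 f F + g E) / (2 (E G - F²))` vanishes. -/
structure IsMinimalAt (f : N → E3) (p : N) : Prop where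
  smooth : ContDiffAt ℝ ∞ (loc f p) (chartAt ℂ p p)
  immersion : LinearIndependent ℝ ![d1 f p 1, d1 f p Complex.I]
  mean : ∀ ν : E3, ⟪d1 f p 1, ν⟫ = 0 → ⟪d1 f p Complex.I, ν⟫ = 0 →
    ⟪d2 f p 1 1, ν⟫ * ⟪d1 f p Complex.I, d1 f p Complex.I⟫ -
      2 * ⟪d2 f p 1 Complex.I, ν⟫ * ⟪d1 f p 1, d1 f p Complex.I⟫ +
      ⟪d2 f p Complex.I Complex.I, ν⟫ * ⟪d1 f p 1, d1 f p 1⟫ = 0

end

/-- A closed orientable surface of genus `g` with `r` points removed has a proper minimal
embedding in `ℝ³`. -/
def Realized (g r : ℕ) : Prop :=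
  ∃ (N : Type) (_ : TopologicalSpace N) (_ : ChartedSpace ℂ N),
    T2Space N ∧ CompactSpace N ∧ ConnectedSpace N ∧ IsManifold 𝓘(ℂ) ω N ∧ genus N = g ∧
    ∃ (S : Finset N) (f : N → E3), S.card = r ∧ (∀ p ∉ S, IsMinimalAt f p) ∧
      Topology.IsEmbedding (fun p : {p // p ∉ S} => f p) ∧
      IsProperMap (fun p : {p // p ∉ S} => f p)

end Pool.Agent.MP_92463a_gt
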