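import Pool.Agent.MP_92463a_gt.Cf0

open Set Complex Filter Metric
open scoped Topology ComplexConjugate ContDiff Manifold

noncomputable section

namespace Pool.Agent.MP_92463a_gt

/-! Models of the surface near singular points, on the two sheets and in the limit. -/

def pw (σ : ℝ) (τ : ℂ) : ℂ := exp (σ * log τ)

/-- a half annulus -/
def HA (r₀ r₁ : ℝ) : Set ℂ := {τ | 0 ≤ τ.im ∧ r₀ < ‖τ‖ ∧ ‖τ‖ < r₁}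

/-- `f₁` is close to `c τ ^ (σ - 1)` and `f₂` is small -/
def Mod (f₁ f₂ : ℂ → ℂ) (c : ℂ) (σ ε : ℝ) (τ : ℂ) : Prop :=
  ‖f₁ τ - c * pw (σ - 1) τ‖ + ‖f₂ τ‖ ≤ ε * ‖c‖ * ‖τ‖ ^ (σ - 1)

/-- boundary conditions at `r` and `-r` -/
def Bd (X : ℂ → ℂ) (c : ℂ) (r : ℝ) : Prop :=
  (c.im = 0 ∧ (X r).im = 0 ∧ (X (-r)).re = 0) ∨ (c.re = 0 ∧ (X r).re = 0 ∧ (X (-r)).im = 0)

/-- the data near the real point `x₀` follow a power law -/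
def Dat.Sing (D : Dat) (x₀ σ r₀ r₁ ε m M : ℝ) : Prop :=
  (∀ τ : ℂ, r₀ < ‖τ‖ → ‖τ‖ < r₁ → D.P (x₀ + τ) ≠ 0) ∧ ∃ c : ℂ, m ≤ ‖c‖ ∧ ‖c‖ ≤ M ∧
    ((c.im = 0 ∧ ∀ r ∈ Ioo r₀ r₁, 0 < (D.P (x₀ + r)).re ∧ (D.P (x₀ + -r)).re < 0) ∨
      (c.re = 0 ∧ ∀ r ∈ Ioo r₀ r₁, (D.P (x₀ + r)).re < 0 ∧ 0 < (D.P (x₀ + -r)).re)) ∧
    ((∀ τ ∈ HA r₀ r₁, Mod (fun τ => D.F1 (x₀ + τ)) (fun τ => D.F2 (x₀ + τ)) c σ ε τ) ∨
      ∀ τ ∈ HA r₀ r₁, Mod (fun τ => D.F2 (x₀ + τ)) (fun τ => D.F1 (x₀ + τ)) c σ ε τ)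

/-- a sheet: a punctured half disc without small discs around the ports `T k` -/
def SS {κ : Type} (T : κ → ℂ) (μ : κ → ℝ) (δ : ℝ) : Set ℂ :=
  {τ | 0 ≤ τ.im ∧ τ ≠ 0 ∧ ‖τ‖ < δ ∧ ∀ k, μ k ≤ ‖τ - T k‖}

structure Sh0 {κ : Type} (T : κ → ℂ) (μ : κ → ℝ) (R δ ε K : ℝ) (c : ℂ) (f₁ f₂ : ℂ → ℂ) :
    Prop where
  ε_pos : 0 < ε
  ε_le : ε ≤ 1 / 100
  K_ge : 1 ≤ K
  c_ne : c ≠ 0
  R_pos : 0 < R
  R_le : 4 * R ≤ δ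
  rad : ∀ k, 9 / 10 * R ≤ ‖T k‖ ∧ ‖T k‖ ≤ 11 / 10 * R
  mu : ∀ k, 0 < μ k ∧ μ k ≤ ε * ‖T k‖
  sep : ∀ j k, j ≠ k → 4 * ε ≤ ‖T j / (‖T j‖ : ℂ) - T k / (‖T k‖ : ℂ)‖
  pos : ∀ k, (T k).im = 0 ∨ ε * ‖T k‖ ≤ |(T k).im|
  c₁ : ContinuousOn f₁ (SS T μ δ)
  c₂ : ContinuousOn f₂ (SS T μ δ)
  main : ∀ τ ∈ SS T μ δ, ‖f₁ τ - c * pw (-3 / 2) τ‖ ≤ ε * ‖c‖ * ‖τ‖ ^ (-3 / 2 : ℝ)
  far : ∀ τ ∈ SS T μ δ, (∀ k, ε * ‖T k‖ ≤ ‖τ - T k‖) → ‖f₂ τ‖ ≤ ε * ‖c‖ * ‖τ‖ ^ (-3 / 2 : ℝ)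
  near : ∀ τ ∈ SS T μ δ, ‖f₂ τ‖ ≤ K * ‖c‖ * ‖τ‖ ^ (-3 / 2 : ℝ)

structure Sheet {κ : Type} (T : κ → ℂ) (μ : κ → ℝ) (R δ ε K : ℝ) (c : ℂ) (f₁ f₂ X : ℂ → ℂ) :
    Prop extends Sh0 T μ R δ ε K c f₁ f₂ where
  path : PathP (SS T μ δ) X f₁ f₂
  bd : ∀ r : ℝ, 0 < r → (r : ℂ) ∈ SS T μ δ → -(r : ℂ) ∈ SS T μ δ → Bd X c r

namespace Wd

variable {ι : Type} (W : Wd ι)

/-- far from the two sheets -/
def Away (δ : ℝ) (t : ℂ) : Prop := δ ≤ ‖t + W.D.b 0‖ ∧ δ ≤ ‖t + W.D.b 1‖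

/-- on one of the two sheets -/
def OnS (δ : ℝ) (t : ℂ) : Prop :=
  t ∈ W.Q ∧ t ∈ W.Fd ∧ (‖t + W.D.b 0‖ < δ ∨ ‖t + W.D.b 1‖ < δ)

/-- equal or glued -/
def Same (t t' : ℂ) : Prop :=
  t = t' ∨ ∃ e, ∃ v ∈ W.Ann e, t = W.c e + v ∧ t' = W.c (op e) + W.s e.1 / v

/-- the form with a double pole at the port, and the regular form -/
def fs (e : ι × Bool) : ℂ → ℂ := if e.2 then W.f2 e else W.f1 e

def fr (e : ι × Bool) : ℂ → ℂ := if e.2 then W.f1 e else W.f2 e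

/-- the spinor with poles at the ports of the sheet `b`, and the regular one -/
def ψs (b : Bool) : ℂ → ℂ := if b then W.ψ₂ else W.ψ₁

def ψr (b : Bool) : ℂ → ℂ := if b then W.ψ₁ else W.ψ₂

end Wd

/-- the necks disappear in the limit -/
structure WLim {α ι : Type} [Fintype ι] (l : Filter α) (W : α → Wd ι) (D₀ : Dat) : Prop where
  D : Dat.Tends l (fun x => (W x).D) D₀
  q : 2 ≤ D₀.q
  ok : ∀ᶠ x in l, (W x).Ok1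
  near : ∀ δ > 0, ∀ ε > 0, ∀ᶠ x in l, ∀ t, (W x).Away δ t →
    t ∈ (W x).Fd ∧ ‖(W x).ψ₁ t - 1‖ ≤ ε ∧ ‖(W x).ψ₂ t - 1‖ ≤ ε

/-- solutions of the period problem along the limit -/
structure SLim {α ι : Type} [Fintype ι] (l : Filter α) (W : α → Wd ι) (D₀ : Dat)
    (X : α → ℂ → ℂ) (H : α → ℂ → ℝ) : Prop extends WLim l W D₀ where
  sol : ∀ᶠ x in l, (W x).Sol (X x) (H x)
  ht : ∀ δ > 0, ∀ ε > 0, ∀ᶠ x in l, ∀ t, (W x).Away δ t → t ≠ 0 →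
    |H x t - 2 * Real.log ‖t‖| ≤ ε * (1 + |Real.log ‖t‖|)

/-- the rescaled singular spinor near the port `e` -/
def Zs.Psi {γ : ℕ} (z : Zs γ) (e : Fin γ × Bool) (w : ℂ) : ℂ :=
  z.eh e.1 / w + ∑ j ∈ Finset.univ.erase e.1, z.eh j / (1 + w - exp (z.lu (j, e.2) - z.lu e)) -
    if e.2 then 0 else (γ + 1 / 2 + z.mean.re) / (1 + w)

namespace Cfg

variable {γ : ℕ} (C : Cfg γ)

structure Fine : Prop extends C.Good where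
  dir : ∀ k, ‖C.vs k‖ ^ 2 ≤ (C.vs k).re

/-- the radius of the ring of ports -/
def RR (b : Bool) : ℝ := Real.exp (-2 * C.L + C.lk b)

/-- the residue of the singular spinor -/
def rr (e : Fin γ × Bool) : ℂ := if e.2 then C.r2 e else C.r1 e

/-- the main and the small form, and the horizontal position on the sheet `b` -/
def fM (b : Bool) (τ : ℂ) : ℂ := if b then C.wd.F1 (-C.bb b + τ) else C.wd.F2 (-C.bb b + τ)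

def fm (b : Bool) (τ : ℂ) : ℂ := if b then C.wd.F2 (-C.bb b + τ) else C.wd.F1 (-C.bb b + τ)

def Xh (X : ℂ → ℂ) (b : Bool) (τ : ℂ) : ℂ :=
  if b then X (-C.bb b + τ) else -conj (X (-C.bb b + τ))

def TT (b : Bool) (k : Fin γ) : ℂ := C.τ (k, b)

def mm (b : Bool) (k : Fin γ) : ℝ := C.pl.mu (k, b)

/-- the logarithmic part of the height on the sheet `b` -/
def hs (b : Bool) (τ : ℂ) : ℝ :=
  2 * ((if b then 0 else C.wd.q0 * Real.log ‖τ‖) +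
    ∑ k, (C.pl.rs C.wd.f3 (k, b)).re * Real.log ‖τ - C.τ (k, b)‖)

end Cfg

/-- configurations depending continuously on a parameter -/
structure CC {γ : ℕ} {T : Type} [TopologicalSpace T] (S : Set T) (C : T → Cfg γ) (L : ℝ)
    (p q : ℕ) : Prop where
  fine : ∀ x ∈ S, (C x).Fine ∧ (C x).L = L ∧ (C x).D.p = p ∧ (C x).D.q = q
  a : ∀ i < p, ContinuousOn (fun x => (C x).D.a i) S
  b : ∀ j < q, ContinuousOn (fun x => (C x).D.b j) S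
  ρ : ContinuousOn (fun x => (C x).D.ρ) S
  z : ContinuousOn (fun x => (C x).z) S

end Pool.Agent.MP_92463a_gt
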