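import Pool.Agent.MP_92463a_gt.Em0

open Set Complex Filter Metric
open scoped Topology ComplexConjugate ContDiff Manifold

noncomputable section

namespace Pool.Agent.MP_92463a_gt

/-- the limit configuration -/
def cf {γ : ℕ} (D : Dat) (z : Zs γ) : Cfg γ := ⟨D, 0, z⟩

namespace Cfg

variable {γ : ℕ} {C : Cfg γ}

/-- the ports and the necks are small -/
structure G0 (C : Cfg γ) : Prop extends C.Adm where
  L : 1 ≤ C.L
  τ : ∀ e, ‖C.τ e‖ ≤ C.D.b 0 / 100
  vs : ∀ k, ‖C.vs k‖ ≤ 1 / (100 * γ)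

theorem Good.g0 (h : C.Good) : C.G0 := ⟨h.toAdm, h.L, h.τ, h.vs⟩

end Cfg

end Pool.Agent.MP_92463a_gt
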