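import Pool.Agent.MP_92463a_gt.Em0

open Set Complex Filter Metric
open scoped Topology ComplexConjugate ContDiff Manifold

noncomputable section

namespace Pool.Agent.MP_92463a_gt

lemma Emb2_path {E : Type} [NormedAddCommGroup E] [NormedSpace ℝ E] {f : ℝ → E} {K : ℝ}
    (h : ∀ x ∈ Icc (0 : ℝ) 1, ∃ f', HasDerivAt f f' x ∧ ‖f'‖ ≤ K) : ‖f 1 - f 0‖ ≤ K := by
  choose! g hg using h
  exact norm_image_sub_le_of_norm_deriv_le_segment_01' (f' := g)
    (fun x hx => (hg x hx).1.hasDerivWithinAt) (fun x hx => (hg x (Ico_subset_Icc_self hx)).2)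

lemma Emb2_exp (p w : ℂ) (x : ℝ) :
    HasDerivAt (fun s : ℝ => p * exp (s * w)) (p * exp (x * w) * w) x := by
  have h1 : HasDerivAt (fun s : ℝ => (s : ℂ) * w) w x := by
    simpa using ((hasDerivAt_id (x : ℂ)).mul_const w).comp_ofReal
  simpa [mul_assoc] using h1.cexp.const_mul p

lemma Emb2_re {w : ℂ} (hθ : |w.im| ≤ Real.pi) (h1 : |w.re| ≤ ‖w‖ / 100) :
    |w.re| ≤ |w.im| / 99 ∧ |w.re| ≤ 1 / 2 := by
  have h2 := norm_le_abs_re_add_abs_im w
  have h3 := Real.pi_lt_four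
  constructor <;> linarith

lemma Emb2_exp_le {x : ℝ} (h : |x| ≤ 1 / 2) : Real.exp x ≤ 2 := by
  have h1 := Real.abs_exp_sub_one_le (x := x) (by linarith)
  have h2 := le_abs_self (Real.exp x - 1)
  linarith

/-- The model catenoid is injective. -/
lemma Emb2_core {p q w : ℂ} {A : ℝ} (hA : 0 < A) (h0 : ‖p‖ + ‖q‖ = A) (h0' : A / 2 ≤ ‖p + q‖)
    (hθ : |w.im| ≤ Real.pi) (h1 : |w.re| ≤ ‖w‖ / 100)
    (h2 : ‖p * exp w + q * exp (-conj w) - (p + q)‖ ≤ ‖w‖ * A / 50) : w = 0 := by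
  obtain ⟨r1, r2⟩ := Emb2_re hθ h1
  have hn := norm_le_abs_re_add_abs_im w
  have e1 : exp w = (Real.exp w.re : ℝ) * exp (I * w.im) := by
    rw [ofReal_exp, ← exp_add]
    congr 1
    apply Complex.ext <;> simp
  have e2 : exp (-conj w) = (Real.exp (-w.re) : ℝ) * exp (I * w.im) := by
    rw [ofReal_exp, ← exp_add]
    congr 1
    apply Complex.ext <;> simp
  have n1 : ‖exp (I * w.im)‖ = 1 := by
    rw [norm_exp]
    simp
  have l1 : 2 / Real.pi * |w.im| ≤ ‖exp (I * w.im) - 1‖ := by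
    rw [norm_exp_I_mul_ofReal_sub_one, Real.norm_eq_abs, abs_mul, abs_two]
    have := Real.mul_abs_le_abs_sin (x := w.im / 2) (by rw [abs_div, abs_two]; linarith)
    rw [abs_div, abs_two] at this
    linarith
  have l2 : 1 / 2 ≤ 2 / Real.pi := by
    rw [div_le_div_iff₀ (by norm_num) Real.pi_pos]
    linarith [Real.pi_lt_four]
  have l3 : 1 / 2 * |w.im| ≤ ‖exp (I * w.im) - 1‖ :=
    (mul_le_mul_of_nonneg_right l2 (abs_nonneg _)).trans l1
  have b1 : ‖((Real.exp w.re : ℝ) : ℂ) - 1‖ ≤ 2 * |w.re| := by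
    rw [← ofReal_one, ← ofReal_sub, norm_real, Real.norm_eq_abs]
    exact Real.abs_exp_sub_one_le (by linarith)
  have b2 : ‖((Real.exp (-w.re) : ℝ) : ℂ) - 1‖ ≤ 2 * |w.re| := by
    rw [← ofReal_one, ← ofReal_sub, norm_real, Real.norm_eq_abs, ← abs_neg w.re]
    exact Real.abs_exp_sub_one_le (by rw [abs_neg]; linarith)
  rw [e1, e2] at h2
  generalize ((Real.exp w.re : ℝ) : ℂ) = x at *
  generalize ((Real.exp (-w.re) : ℝ) : ℂ) = y at *
  generalize exp (I * w.im) = u at *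
  have e3 : (p + q) * (u - 1) =
      (p * (x * u) + q * (y * u) - (p + q)) - (p * (x - 1) + q * (y - 1)) * u := by ring
  have b3 : ‖(p * (x - 1) + q * (y - 1)) * u‖ ≤ A * (2 * |w.re|) := by
    rw [norm_mul, n1, mul_one, ← h0, add_mul]
    refine (norm_add_le _ _).trans ?_
    rw [norm_mul, norm_mul]
    gcongr
  have b4 : A / 2 * ‖u - 1‖ ≤ ‖w‖ * A / 50 + A * (2 * |w.re|) := by
    refine (mul_le_mul_of_nonneg_right h0' (norm_nonneg _)).trans ?_
    rw [← norm_mul, e3]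
    exact (norm_sub_le _ _).trans (add_le_add h2 b3)
  have b5 : ‖u - 1‖ / 2 ≤ ‖w‖ / 50 + 2 * |w.re| := by
    refine le_of_mul_le_mul_left (le_trans (le_of_eq ?_) (b4.trans (le_of_eq ?_))) hA <;> ring
  have b6 := abs_nonneg w.im
  have b7 : ‖w‖ ≤ 0 := by linarith
  exact norm_le_zero_iff.1 b7

lemma Emb2_between {a b r σ x : ℝ} (hr : 0 < r) (h1 : a ≤ r) (h2 : r ≤ b)
    (h1' : a ≤ r * Real.exp σ) (h2' : r * Real.exp σ ≤ b) (hx : x ∈ Icc (0 : ℝ) 1) :
    a ≤ r * Real.exp (x * σ) ∧ r * Real.exp (x * σ) ≤ b := by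
  rcases le_total 0 σ with hs | hs
  · have l1 : 1 ≤ Real.exp (x * σ) := Real.one_le_exp (mul_nonneg hx.1 hs)
    have l2 : Real.exp (x * σ) ≤ Real.exp σ := Real.exp_le_exp.2 (by nlinarith [hx.2])
    constructor <;> nlinarith
  · have l1 : Real.exp (x * σ) ≤ 1 := Real.exp_le_one_iff.2 (mul_nonpos_of_nonneg_of_nonpos hx.1 hs)
    have l2 : Real.exp σ ≤ Real.exp (x * σ) := Real.exp_le_exp.2 (by nlinarith [hx.2])
    constructor <;> nlinarith

lemma Emb2_mul {x y α β : ℂ} (hx : ‖x - α‖ ≤ ‖α‖ / 100) (hy : ‖y - β‖ ≤ ‖β‖ / 100) :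
    ‖x * y - α * β‖ ≤ ‖α * β‖ / 40 := by
  have e : x * y - α * β = (x - α) * (y - β) + (x - α) * β + α * (y - β) := by ring
  have := mul_nonneg (norm_nonneg α) (norm_nonneg β)
  rw [e]
  refine (norm_add₃_le).trans ?_
  simp only [norm_mul]
  calc _ ≤ ‖α‖ / 100 * (‖β‖ / 100) + ‖α‖ / 100 * ‖β‖ + ‖α‖ * (‖β‖ / 100) := by gcongr
    _ ≤ _ := by linarith

lemma Emb2_pos {x y z α β : ℂ} {m : ℝ} (hm : m ≠ 0) (e : x * y = z * z)
    (hx : ‖x - α‖ ≤ ‖α‖ / 100) (hy : ‖y - β‖ ≤ ‖β‖ / 100) (hz : ‖z - m‖ ≤ |m| / 100) :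
    0 < (α * β).re := by
  have hz' : ‖z - m‖ ≤ ‖(m : ℂ)‖ / 100 := by rwa [norm_real, Real.norm_eq_abs]
  have h1 := Emb2_mul hx hy
  have h2 := Emb2_mul hz' hz'
  have h0 : 0 < m * m := mul_self_pos.2 hm
  have h3 : ‖(m : ℂ) * m‖ = m * m := by
    rw [← ofReal_mul, norm_real, Real.norm_eq_abs, abs_of_pos h0]
  have h4 : ‖(m : ℂ) * m - α * β‖ ≤ ‖α * β‖ / 40 + m * m / 40 := by
    have e' : (m : ℂ) * m - α * β = (x * y - α * β) - (z * z - m * m) := by rw [e]; ring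
    rw [e', ← h3]
    exact (norm_sub_le _ _).trans (add_le_add h1 h2)
  have h5 := norm_sub_norm_le (α * β) ((m : ℂ) * m)
  rw [norm_sub_rev, h3] at h5
  have h6 := re_le_norm ((m : ℂ) * m - α * β)
  rw [sub_re, ← ofReal_mul, ofReal_re, ofReal_mul] at h6
  linarith

lemma Emb2_half {p q : ℂ} (h : 0 ≤ (p * conj q).re) : (‖p‖ + ‖q‖) / 2 ≤ ‖p + q‖ := by
  refine le_of_sq_le_sq ?_ (norm_nonneg _)
  have e := normSq_add p q
  simp only [normSq_eq_norm_sq] at e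
  nlinarith [sq_nonneg (‖p‖ - ‖q‖)]

/-- a neck close to a catenoid is embedded -/
theorem neck_inj {X f₁ f₂ f₃ : ℂ → ℂ} {H : ℂ → ℝ} {r₁ r₂ m : ℝ} {α β : ℂ} (hr : 0 < r₁)
    (hm : m ≠ 0)
    (h : ∀ v : ℂ, r₁ ≤ ‖v‖ → ‖v‖ ≤ r₂ → HasFDerivAt X (wl (f₁ v) (f₂ v)) v ∧
      HasFDerivAt H (hl (f₃ v)) v ∧ f₁ v * f₂ v = f₃ v ^ 2 ∧ ‖f₁ v * v ^ 2 - α‖ ≤ ‖α‖ / 100 ∧
      ‖f₂ v - β‖ ≤ ‖β‖ / 100 ∧ ‖f₃ v * v - m‖ ≤ |m| / 100)
    {v v' : ℂ} (h₁ : r₁ ≤ ‖v‖) (h₂ : ‖v‖ ≤ r₂) (h₃ : r₁ ≤ ‖v'‖) (h₄ : ‖v'‖ ≤ r₂)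
    (hX : X v = X v') (hH : H v = H v') : v = v' := by
  have hv : 0 < ‖v‖ := hr.trans_le h₁
  have hv' : 0 < ‖v'‖ := hr.trans_le h₃
  have hv0 : v ≠ 0 := norm_pos_iff.1 hv
  obtain ⟨w, hθ, rfl⟩ : ∃ w : ℂ, |w.im| ≤ Real.pi ∧ v' = v * exp w := by
    refine ⟨log (v' / v), by rw [log_im]; exact abs_arg_le_pi _, ?_⟩
    rw [exp_log (div_ne_zero (norm_pos_iff.1 hv') hv0)]
    field_simp
  have nu : ∀ x : ℝ, ‖v * exp (x * w)‖ = ‖v‖ * Real.exp (x * w.re) := fun x => by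
    rw [norm_mul, norm_exp, re_ofReal_mul]
  rw [norm_mul, norm_exp] at h₃ h₄
  have loc := fun (x : ℝ) (hx : x ∈ Icc (0 : ℝ) 1) => h (v * exp (x * w))
    (nu x ▸ (Emb2_between hv h₁ h₂ h₃ h₄ hx).1) (nu x ▸ (Emb2_between hv h₁ h₂ h₃ h₄ hx).2)
  have hre : |w.re| ≤ ‖w‖ / 100 := by
    have key := Emb2_path (f := fun s : ℝ => H (v * exp (s * w)) - 2 * m * w.re * s)
      (K := 2 * |m| * (‖w‖ / 100)) (fun x hx => by
        obtain ⟨-, hL, -, -, -, hz⟩ := loc x hx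
        refine ⟨_, (hL.comp_hasDerivAt x (Emb2_exp v w x)).sub
          ((hasDerivAt_id x).const_mul (2 * m * w.re)), ?_⟩
        rw [hl_apply, ← mul_assoc]
        generalize f₃ (v * exp (x * w)) * (v * exp (x * w)) = z at hz
        have e2 : 2 * (z * w).re - 2 * m * w.re * 1 = 2 * ((z - m) * w).re := by
          rw [sub_mul, sub_re, re_ofReal_mul]
          ring
        rw [e2, norm_mul, Real.norm_eq_abs, Real.norm_eq_abs, abs_two, mul_assoc]
        refine mul_le_mul_of_nonneg_left ((abs_re_le_norm _).trans ?_) zero_le_two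
        rw [norm_mul]
        exact (mul_le_mul_of_nonneg_right hz (norm_nonneg _)).trans (le_of_eq (by ring)))
    simp only [ofReal_one, one_mul, ofReal_zero, zero_mul, exp_zero, mul_one, mul_zero,
      sub_zero] at key
    rw [← hH, sub_sub_cancel_left, norm_neg, norm_mul, norm_mul, Real.norm_eq_abs,
      Real.norm_eq_abs, Real.norm_eq_abs, abs_two] at key
    exact le_of_mul_le_mul_left key (by positivity)
  obtain ⟨-, r2⟩ := Emb2_re hθ hre
  have hpos : 0 < (α * β).re := by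
    obtain ⟨-, -, e, b1, b2, b3⟩ := h v h₁ h₂
    exact Emb2_pos hm (by linear_combination v ^ 2 * e) b1 b2 b3
  have hα : α ≠ 0 := by
    rintro rfl
    simp at hpos
  have hw : -w = 0 := by
    refine Emb2_core (p := α / v) (q := conj (β * v)) (A := ‖α / v‖ + ‖conj (β * v)‖)
      (add_pos_of_pos_of_nonneg (norm_pos_iff.2 (div_ne_zero hα hv0)) (norm_nonneg _)) rfl
      (Emb2_half ?_) (by simpa using hθ) (by simpa using hre) ?_
    · have e : α / v * conj (conj (β * v)) = α * β := by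
        rw [conj_conj]
        field_simp
      rw [e]
      exact hpos.le
    have key := Emb2_path (f := fun s : ℝ => X (v * exp (s * w)) +
      (α / v * exp (s * -w) + conj (β * v) * exp (s * -conj (-w))))
      (K := ‖-w‖ * (‖α / v‖ + ‖conj (β * v)‖) / 50) (fun x hx => by
        obtain ⟨hL, -, -, b1, b2, -⟩ := loc x hx
        refine ⟨_, (hL.comp_hasDerivAt x (Emb2_exp v w x)).add
          ((Emb2_exp (α / v) (-w) x).add (Emb2_exp (conj (β * v)) (-conj (-w)) x)), ?_⟩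
        have hx1 : |x * w.re| ≤ 1 / 2 := by
          rw [abs_mul, abs_of_nonneg hx.1]
          nlinarith [hx.1, hx.2, abs_nonneg w.re]
        have n1 : ‖α / v * exp (x * -w)‖ ≤ ‖α / v‖ * 2 := by
          rw [norm_mul, norm_exp, re_ofReal_mul, neg_re, mul_neg]
          exact mul_le_mul_of_nonneg_left (Emb2_exp_le (by rwa [abs_neg])) (norm_nonneg _)
        have n2 : ‖conj (β * v) * exp (x * -conj (-w))‖ ≤ ‖conj (β * v)‖ * 2 := by
          rw [norm_mul, norm_exp, re_ofReal_mul, neg_re, conj_re, neg_re, neg_neg]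
          exact mul_le_mul_of_nonneg_left (Emb2_exp_le hx1) (norm_nonneg _)
        have e0 : α / v * exp (x * -w) = α / (v * exp (x * w)) := by
          rw [← div_div, div_eq_mul_inv _ (exp _), ← exp_neg, mul_neg]
        have e0' : conj (β * v) * exp (x * -conj (-w)) = conj (β * (v * exp (x * w))) := by
          rw [← mul_assoc, map_mul _ _ (exp _), ← exp_conj]
          simp
        rw [wl_apply]
        rw [e0] at n1 ⊢
        rw [e0'] at n2 ⊢
        have hu : v * exp (x * w) ≠ 0 := mul_ne_zero hv0 (exp_ne_zero _)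
        generalize v * exp (x * w) = u at hu n1 n2 b1 b2
        have e2 : f₁ u * (u * w) - conj (f₂ u * (u * w)) +
            (α / u * -w + conj (β * u) * -conj (-w)) =
            (f₁ u * u ^ 2 - α) / u * w - conj ((f₂ u - β) * u * w) := by
          simp only [map_mul, map_sub, map_neg]
          field_simp
          ring
        rw [e2]
        rw [norm_conj, norm_mul] at n2
        rw [norm_div] at n1
        refine (norm_sub_le _ _).trans ?_
        rw [norm_conj, norm_mul, norm_mul, norm_mul, norm_div, norm_neg]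
        calc _ ≤ ‖α‖ / 100 / ‖u‖ * ‖w‖ + ‖β‖ / 100 * ‖u‖ * ‖w‖ := by gcongr
          _ = (‖α‖ / ‖u‖ + ‖β‖ * ‖u‖) * (‖w‖ / 100) := by ring
          _ ≤ (‖α / v‖ * 2 + ‖conj (β * v)‖ * 2) * (‖w‖ / 100) := by gcongr
          _ = _ := by ring)
    simp only [ofReal_one, one_mul, ofReal_zero, zero_mul, exp_zero, mul_one] at key
    rw [← hX, add_sub_add_left_eq_sub] at key
    exact key
  rw [neg_eq_zero.1 hw, exp_zero, mul_one]

end Pool.Agent.MP_92463a_gt
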