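import Pool.Agent.MP_92463a_gt.Emb1

open Set Complex Filter Metric
open scoped Topology ComplexConjugate ContDiff Manifold

noncomputable section

namespace Pool.Agent.MP_92463a_gt

variable {S : Set ℂ} {X f₁ f₂ : ℂ → ℂ} {c : ℂ} {σ ε : ℝ}

theorem Emb4_exp (hσ : σ = 1 / 2 ∨ σ = -1 / 2) : (exp (σ * Real.pi * I)).re = 0 := by
  rw [← ofReal_mul, exp_ofReal_mul_I_re]
  rcases hσ with rfl | rfl
  · rw [show 1 / 2 * Real.pi = Real.pi / 2 by ring, Real.cos_pi_div_two]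
  · rw [show -1 / 2 * Real.pi = -(Real.pi / 2) by ring, Real.cos_neg, Real.cos_pi_div_two]

theorem Emb4_norm (hσ : σ = 1 / 2 ∨ σ = -1 / 2) (c : ℂ) {τ : ℂ} (h : τ ≠ 0) :
    ‖c / σ * pw σ τ‖ = 2 * ‖c‖ * ‖τ‖ ^ σ := by
  rw [norm_mul, norm_div, norm_pw σ h, norm_real, Real.norm_eq_abs]
  have : |σ| = 1 / 2 := by
    rcases hσ with rfl | rfl
    · exact abs_of_pos (by norm_num)
    · rw [abs_of_neg (by norm_num)]
      norm_num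
  rw [this]
  ring

theorem arc_model (h : PathP S X f₁ f₂) (hσ : σ = 1 / 2 ∨ σ = -1 / 2) {r : ℝ} (hr : 0 < r)
    (hS : ∀ τ : ℂ, 0 ≤ τ.im → ‖τ‖ = r → τ ∈ S ∧ Mod f₁ f₂ c σ ε τ) (hb : Bd X c r) {τ : ℂ}
    (h₁ : 0 ≤ τ.im) (h₂ : ‖τ‖ = r) : ‖X τ - c / σ * pw σ τ‖ ≤ 7 * ε * ‖c‖ * r ^ σ := by
  have hσ0 : σ ≠ 0 := by rcases hσ with rfl | rfl <;> norm_num
  have hP := (h.mono (S' := {τ | 0 ≤ τ.im ∧ ‖τ‖ = r}) fun t ht => (hS t ht.1 ht.2).1).sub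
    ((pw_pathP c hσ0).mono fun t ht => ⟨ht.1, norm_ne_zero_iff.1 (ht.2.trans_ne hr.ne')⟩)
  have hm : ∀ θ ∈ Icc 0 Real.pi, 0 ≤ ((0 : ℂ) + r * exp (θ * I)).im ∧
      ‖(0 : ℂ) + r * exp (θ * I)‖ = r := fun θ hθ => by
    rw [zero_add, im_ofReal_mul, exp_ofReal_mul_I_im, norm_mul, norm_exp_ofReal_mul_I, mul_one,
      norm_real, Real.norm_of_nonneg hr.le]
    exact ⟨mul_nonneg hr.le (Real.sin_nonneg_of_mem_Icc hθ), rfl⟩
  have hN : ε * ‖c‖ * r ^ (σ - 1) * r = ε * ‖c‖ * r ^ σ := by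
    rw [mul_assoc, ← Real.rpow_add_one hr.ne', sub_add_cancel]
  have hN0 : 0 ≤ ε * ‖c‖ * r ^ σ := by
    have := (hS τ h₁ h₂).2
    rw [Mod, h₂] at this
    exact hN ▸ mul_nonneg (le_trans (by positivity) this) hr.le
  have key : ∀ a ∈ Icc 0 Real.pi, ∀ b ∈ Icc 0 Real.pi,
      ‖(X (r * exp (b * I)) - c / σ * pw σ (r * exp (b * I))) -
        (X (r * exp (a * I)) - c / σ * pw σ (r * exp (a * I)))‖ ≤ ε * ‖c‖ * r ^ σ * (7 / 2) := by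
    intro a ha b hb
    have hsub := uIcc_subset_Icc ha hb
    have e := hP.arc (x₀ := 0) (R := r) (a := a) (b := b) fun θ hθ => hm θ (hsub hθ)
    simp only [zero_add] at e
    rw [e]
    refine (arcI_le (M := ε * ‖c‖ * r ^ (σ - 1)) hr.le fun θ hθ => ?_).trans ?_
    · have h3 := hm θ (hsub hθ)
      have h4 := (hS _ h3.1 h3.2).2
      rw [Mod, h3.2] at h4
      simpa only [sub_zero] using h4
    · rw [hN]
      refine mul_le_mul_of_nonneg_left (abs_le.2 ⟨?_, ?_⟩) hN0 <;>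
        linarith [ha.1, ha.2, hb.1, hb.2, Real.pi_lt_d2]
  have hθ : arg τ ∈ Icc 0 Real.pi := ⟨arg_nonneg_iff.2 h₁, arg_le_pi τ⟩
  have hτ : (r : ℂ) * exp (arg τ * I) = τ := by rw [← h₂, norm_mul_exp_arg_mul_I]
  have k0 := key 0 ⟨le_rfl, Real.pi_pos.le⟩ _ hθ
  have k1 := key Real.pi ⟨Real.pi_pos.le, le_rfl⟩ _ hθ
  rw [hτ, pw_polar σ hr ⟨le_rfl, Real.pi_pos.le⟩] at k0
  rw [hτ, pw_polar σ hr ⟨Real.pi_pos.le, le_rfl⟩, exp_pi_mul_I, mul_neg_one] at k1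
  simp only [ofReal_zero, mul_zero, zero_mul, exp_zero, mul_one] at k0
  have hE := Emb4_exp hσ
  generalize exp (σ * Real.pi * I) = E at k1 hE
  generalize X τ - c / σ * pw σ τ = Y at k0 k1 ⊢
  refine (norm_le_abs_re_add_abs_im Y).trans ?_
  rcases hb with ⟨b1, b2, b3⟩ | ⟨b1, b2, b3⟩
  · have e0 := (abs_im_le_norm _).trans k0
    have e1 := (abs_re_le_norm _).trans k1
    simp only [sub_im, sub_re, b1, b2, b3, hE, mul_re, mul_im, div_ofReal_im, ofReal_im, ofReal_re,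
      zero_div, mul_zero, zero_mul, sub_zero, add_zero] at e0 e1
    linarith
  · have e0 := (abs_re_le_norm _).trans k0
    have e1 := (abs_im_le_norm _).trans k1
    simp only [sub_im, sub_re, b1, b2, b3, hE, mul_re, mul_im, div_ofReal_re, ofReal_im, ofReal_re,
      zero_div, mul_zero, zero_mul, sub_zero, add_zero] at e0 e1
    linarith

theorem Emb4_lin (S : Set ℂ) (a₁ a₂ : ℂ) :
    PathP S (fun t => a₁ * t - conj (a₂ * t)) (fun _ => a₁) fun _ => a₂ := by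
  refine ⟨continuousOn_const, continuousOn_const, fun γ γ' a b hγ hγ' _ => ?_⟩
  refine (intervalIntegral.integral_eq_sub_of_hasDerivAt
    (f := fun x => a₁ * γ x - conj (a₂ * γ x)) (fun x hx => ?_)
    ((continuousOn_const.mul hγ').sub (continuous_conj.comp_continuousOn
      (continuousOn_const.mul hγ'))).intervalIntegrable).symm
  exact ((hγ x hx).const_mul a₁).sub ((hγ x hx).const_mul a₂).star

theorem Emb4_seg (h : PathP S X f₁ f₂) {t₀ t₁ a₁ a₂ : ℂ} {M : ℝ}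
    (hS : ∀ x ∈ Icc (0 : ℝ) 1, t₀ + x * (t₁ - t₀) ∈ S ∧
      ‖f₁ (t₀ + x * (t₁ - t₀)) - a₁‖ + ‖f₂ (t₀ + x * (t₁ - t₀)) - a₂‖ ≤ M)
    (he : X t₀ = X t₁) : ‖a₁ * (t₁ - t₀) - conj (a₂ * (t₁ - t₀))‖ ≤ M * ‖t₁ - t₀‖ := by
  have e := (h.sub (Emb4_lin S a₁ a₂)).seg fun x hx => (hS x hx).1
  have h1 := segI_le (f₁ := fun τ => f₁ τ - a₁) (f₂ := fun τ => f₂ τ - a₂) fun x hx => (hS x hx).2
  rw [← e, he, ← norm_neg] at h1
  refine le_trans (le_of_eq (congrArg norm ?_)) h1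
  simp only [map_mul, map_sub]
  ring

theorem seg_inj (h : PathP S X f₁ f₂) {t₀ t₁ a : ℂ} (ha : a ≠ 0)
    (hS : ∀ x ∈ Icc (0 : ℝ) 1, t₀ + x * (t₁ - t₀) ∈ S ∧
      ‖f₁ (t₀ + x * (t₁ - t₀)) - a‖ + ‖f₂ (t₀ + x * (t₁ - t₀))‖ ≤ ‖a‖ / 2)
    (he : X t₀ = X t₁) : t₀ = t₁ := by
  have h1 := Emb4_seg h (a₁ := a) (a₂ := 0) (by simpa only [sub_zero] using hS) he
  rw [zero_mul, map_zero, sub_zero, norm_mul] at h1
  by_contra hne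
  have := mul_pos (norm_pos_iff.2 ha) (norm_pos_iff.2 (sub_ne_zero.2 (Ne.symm hne)))
  linarith

theorem seg_inj3 (h : PathP S X f₁ f₂) {H : ℂ → ℝ} {f₃ : ℂ → ℂ} {t₀ t₁ a₁ a₂ a₃ : ℂ}
    (ha : a₁ * a₂ = a₃ ^ 2) (h₀ : a₁ ≠ 0)
    (hS : ∀ x ∈ Icc (0 : ℝ) 1, ∀ t, t = t₀ + x * (t₁ - t₀) → t ∈ S ∧
      HasFDerivAt H (hl (f₃ t)) t ∧ ‖f₁ t - a₁‖ ≤ ‖a₁‖ / 4 ∧ ‖f₂ t - a₂‖ ≤ ‖a₁‖ / 4 ∧
        ‖f₃ t - a₃‖ ≤ ‖a₁‖ / 4)
    (he : X t₀ = X t₁) (hH : H t₀ = H t₁) : t₀ = t₁ := by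
  have h1 := Emb4_seg h (a₁ := a₁) (a₂ := a₂) (M := ‖a₁‖ / 2) (fun x hx =>
    ⟨(hS x hx _ rfl).1, by linarith [(hS x hx _ rfl).2.2.1, (hS x hx _ rfl).2.2.2.1]⟩) he
  obtain ⟨v, hv⟩ : ∃ v, v = t₁ - t₀ := ⟨_, rfl⟩
  rw [← hv] at h1 hS
  have h2 := norm_image_sub_le_of_norm_deriv_le_segment_01'
    (f := fun x : ℝ => H (t₀ + x * v) - 2 * (a₃ * v).re * x)
    (f' := fun x : ℝ => 2 * ((f₃ (t₀ + x * v) - a₃) * v).re) (C := ‖a₁‖ / 2 * ‖v‖)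
    (fun x hx => by
      have d1 : HasDerivAt (fun x : ℝ => t₀ + x * v) v x := by
        simpa using ((ofRealCLM.hasDerivAt (x := x)).mul_const v).const_add t₀
      have d2 := ((hS x hx _ rfl).2.1.comp_hasDerivAt x d1).sub
        ((hasDerivAt_id x).const_mul (2 * (a₃ * v).re))
      rw [hl_apply] at d2
      refine (d2.congr_deriv ?_).hasDerivWithinAt
      rw [sub_mul, sub_re]
      ring)
    fun x hx => by
      rw [norm_mul, Real.norm_two, Real.norm_eq_abs]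
      have := (abs_re_le_norm ((f₃ (t₀ + x * v) - a₃) * v)).trans ((norm_mul_le _ _).trans
        (mul_le_mul_of_nonneg_right (hS x (Ico_subset_Icc_self hx) _ rfl).2.2.2.2 (norm_nonneg v)))
      linarith
  have e1 : t₀ + v = t₁ := by rw [hv, add_sub_cancel]
  simp only [ofReal_one, one_mul, mul_one, ofReal_zero, zero_mul, mul_zero, add_zero, sub_zero, e1,
    hH, sub_sub_cancel_left, norm_neg] at h2
  have e2 : ‖a₁‖ / 2 * ‖v‖ = ‖a₁ * v‖ / 2 := by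
    rw [norm_mul]
    ring
  have e3 : (a₁ * v * (a₂ * v)).re = (a₃ * v * (a₃ * v)).re := by
    congr 1
    linear_combination v ^ 2 * ha
  rw [e2] at h1 h2
  by_contra hne
  have hp : 0 < ‖a₁ * v‖ := norm_pos_iff.2 (mul_ne_zero h₀ (hv ▸ sub_ne_zero.2 (Ne.symm hne)))
  generalize a₁ * v = p at h1 h2 e3 hp
  generalize a₂ * v = q at h1 e3
  generalize a₃ * v = s at h2 e3
  have h3 := pow_le_pow_left₀ (norm_nonneg _) h1 2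
  have h4 := pow_le_pow_left₀ (norm_nonneg _) h2 2
  have h5 := pow_pos hp 2
  rw [div_pow] at h3 h4
  rw [Real.norm_eq_abs, sq_abs] at h4
  simp only [Complex.sq_norm, normSq_apply, sub_re, sub_im, conj_re, conj_im, mul_re] at h3 h4 h5 e3
  nlinarith [mul_self_nonneg q.re, mul_self_nonneg q.im, mul_self_nonneg s.re, mul_self_nonneg s.im]

theorem Emb4_sq {τ : ℂ} (h : τ ≠ 0) : pw (1 / 2) τ ^ 2 = τ ∧ pw (-1 / 2) τ ^ 2 = τ⁻¹ := by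
  constructor
  · rw [sq, pw_mul, add_halves, pw_one h]
  · refine eq_inv_of_mul_eq_one_left ?_
    conv_lhs => rw [sq, pw_mul, ← pw_one h]
    rw [pw_one h]
    nth_rewrite 2 [← pw_one h]
    rw [pw_mul]
    norm_num [pw]

theorem sing_inj {r₀ r₁ : ℝ} (h : PathP (HA r₀ r₁) X f₁ f₂) (hσ : σ = 1 / 2 ∨ σ = -1 / 2)
    (hr : 0 ≤ r₀) (hc : c ≠ 0) (hε : ε ≤ 1 / 1000) (hm : ∀ τ ∈ HA r₀ r₁, Mod f₁ f₂ c σ ε τ)
    (hb : ∀ r ∈ Ioo r₀ r₁, Bd X c r) :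
    (∀ τ ∈ HA r₀ r₁, ‖c‖ * ‖τ‖ ^ σ ≤ ‖X τ‖ ∧ ‖X τ‖ ≤ 3 * ‖c‖ * ‖τ‖ ^ σ) ∧
      InjOn X (HA (2 * r₀) r₁) := by
  have hσ0 : (σ : ℂ) ≠ 0 := by rcases hσ with rfl | rfl <;> norm_num
  have hn : ∀ τ ∈ HA r₀ r₁, τ ≠ 0 := fun τ hτ => norm_pos_iff.1 (hr.trans_lt hτ.2.1)
  have key : ∀ τ ∈ HA r₀ r₁, ‖X τ - c / σ * pw σ τ‖ ≤ 7 / 1000 * (‖c‖ * ‖τ‖ ^ σ) := by
    intro τ hτ
    have hA : ∀ t : ℂ, 0 ≤ t.im → ‖t‖ = ‖τ‖ → t ∈ HA r₀ r₁ := fun t h1 h2 =>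
      ⟨h1, h2 ▸ hτ.2.1, h2 ▸ hτ.2.2⟩
    refine (arc_model h hσ (hr.trans_lt hτ.2.1) (fun t h1 h2 => ⟨hA t h1 h2, hm t (hA t h1 h2)⟩)
      (hb _ hτ.2) hτ.1 rfl).trans ?_
    rw [mul_assoc]
    exact mul_le_mul_of_nonneg_right (by linarith) (by positivity)
  refine ⟨fun τ hτ => ?_, fun τ hτ τ' hτ' he => ?_⟩
  · have h1 := (abs_norm_sub_norm_le _ _).trans (key τ hτ)
    have h2 : 0 ≤ ‖c‖ * ‖τ‖ ^ σ := by positivity
    rw [Emb4_norm hσ c (hn τ hτ), abs_le] at h1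
    constructor <;> linarith [h1.1, h1.2]
  have hsub : HA (2 * r₀) r₁ ⊆ HA r₀ r₁ := fun t ht => ⟨ht.1, by linarith [ht.2.1], ht.2.2⟩
  have n1 := hn τ (hsub hτ)
  have n2 := hn τ' (hsub hτ')
  have hP : ‖c / σ * pw σ τ - c / σ * pw σ τ'‖ ≤
      7 / 1000 / 2 * (‖c / σ * pw σ τ‖ + ‖c / σ * pw σ τ'‖) := by
    have h1 := key τ (hsub hτ)
    have h2 := key τ' (hsub hτ')
    rw [he, norm_sub_rev] at h1
    rw [Emb4_norm hσ c n1, Emb4_norm hσ c n2]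
    linarith [norm_sub_le_norm_sub_add_norm_sub (c / σ * pw σ τ) (X τ') (c / σ * pw σ τ')]
  have hcσ : c / σ ≠ 0 := div_ne_zero hc hσ0
  have hq : ‖τ' / τ - 1‖ ≤ 3 * (7 / 1000) := by
    rcases hσ with rfl | rfl
    · rw [norm_sub_rev, add_comm] at hP
      have := (ratio_sq (mul_ne_zero hcσ (pw_ne _ _)) (by norm_num) hP).2
      rwa [mul_div_mul_left _ _ hcσ, div_pow, (Emb4_sq n1).1, (Emb4_sq n2).1] at this
    · have := (ratio_sq (mul_ne_zero hcσ (pw_ne _ _)) (by norm_num) hP).2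
      rwa [mul_div_mul_left _ _ hcσ, div_pow, (Emb4_sq n1).2, (Emb4_sq n2).2, inv_div_inv]
        at this
  have hτ0 : 0 < ‖τ‖ := norm_pos_iff.2 n1
  rw [div_sub_one n1, norm_div, div_le_iff₀ hτ0] at hq
  refine seg_inj h (a := c * pw (σ - 1) τ) (mul_ne_zero hc (pw_ne _ _)) (fun x hx => ?_) he
  obtain ⟨t, ht⟩ : ∃ t, t = τ + x * (τ' - τ) := ⟨_, rfl⟩
  rw [← ht]
  have h1 : ‖t - τ‖ ≤ 1 / 40 * ‖τ‖ := by
    rw [ht, add_sub_cancel_left, norm_mul, norm_real, Real.norm_of_nonneg hx.1]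
    linarith [mul_le_of_le_one_left (norm_nonneg (τ' - τ)) hx.2]
  have h2 : 0 ≤ t.im := by
    rw [ht, add_im, im_ofReal_mul, sub_im]
    linarith [mul_nonneg hx.1 hτ'.1, mul_nonneg (sub_nonneg.2 hx.2) hτ.1]
  have h3 : t ∈ HA r₀ r₁ := by
    refine ⟨h2, ?_, ?_⟩
    · have := (abs_le.1 ((abs_norm_sub_norm_le _ _).trans h1)).1
      linarith [hτ.2.1]
    · have := (convex_ball (0 : ℂ) r₁).add_smul_sub_mem (mem_ball_zero_iff.2 hτ.2.2)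
        (mem_ball_zero_iff.2 hτ'.2.2) hx
      rwa [mem_ball_zero_iff, real_smul, ← ht] at this
  have h4 := pw_close (σ := σ - 1) n1 hτ.1 h2 h1 (by norm_num)
    (by rcases hσ with rfl | rfl <;> rw [abs_le] <;> constructor <;> norm_num)
  have h5 := hm t h3
  have h6 := (abs_le.1 ((abs_norm_sub_norm_le _ _).trans h4)).2
  rw [norm_pw _ (hn t h3), norm_pw _ n1] at h6
  have h7 := mul_le_mul_of_nonneg_left h4 (norm_nonneg c)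
  have h8 := mul_le_mul_of_nonneg_left h6 (norm_nonneg c)
  have h9 : 0 ≤ ‖c‖ * ‖τ‖ ^ (σ - 1) := by positivity
  have h10 : ε * (‖c‖ * ‖t‖ ^ (σ - 1)) ≤ 1 / 1000 * (‖c‖ * ‖t‖ ^ (σ - 1)) :=
    mul_le_mul_of_nonneg_right hε (by positivity)
  rw [← norm_mul, mul_sub] at h7
  rw [Mod] at h5
  refine ⟨h3, ?_⟩
  rw [norm_mul, norm_pw _ n1]
  linarith [norm_sub_le_norm_sub_add_norm_sub (f₁ t) (c * pw (σ - 1) t) (c * pw (σ - 1) τ)]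

end Pool.Agent.MP_92463a_gt
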