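import Pool.Agent.MP_92463a_gt.LF

open Set Complex Filter Metric
open scoped Topology ComplexConjugate ContDiff Manifold

noncomputable section

namespace Pool.Agent.MP_92463a_gt

theorem Ends_lim {k : ℂ → ℂ} (hk : ContinuousAt k 0)
    (h : ∀ᶠ w : ℝ in 𝓝[>] 0, ∃ r : ℝ, 0 ≤ r ∧ k ((w : ℂ) ^ 2) = r) :
    ∃ r : ℝ, 0 ≤ r ∧ k 0 = r := by
  have h0 : Tendsto (fun w : ℝ => (w : ℂ) ^ 2) (𝓝[>] 0) (𝓝 0) := by
    have h1 : Continuous fun w : ℝ => (w : ℂ) ^ 2 := by fun_prop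
    have h2 := h1.tendsto 0
    rw [ofReal_zero, zero_pow two_ne_zero] at h2
    exact h2.mono_left nhdsWithin_le_nhds
  have h1 := hk.tendsto.comp h0
  have hc : IsClosed {z : ℂ | 0 ≤ z.re ∧ z.im = 0} :=
    (isClosed_le continuous_const continuous_re).inter (isClosed_eq continuous_im continuous_const)
  obtain ⟨h2, h3⟩ := hc.mem_of_tendsto h1 (h.mono fun w hw => by
    obtain ⟨r, hr, e⟩ := hw
    show 0 ≤ (k ((w : ℂ) ^ 2)).re ∧ (k ((w : ℂ) ^ 2)).im = 0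
    rw [e]
    exact ⟨hr, rfl⟩)
  exact ⟨(k 0).re, h2, Complex.ext rfl h3⟩

theorem Ends_small {δ c : ℝ} (hδ : 0 < δ) (hc : 0 < c) :
    ∀ᶠ w : ℝ in 𝓝[>] 0, 0 < w ∧ (w : ℂ) ∈ ball (0 : ℂ) δ ∧ w ^ 2 < c := by
  have h1 : ∀ᶠ w : ℝ in 𝓝 0, w ^ 2 < c :=
    (continuous_pow 2).continuousAt.eventually_lt continuousAt_const (by simpa using hc)
  filter_upwards [self_mem_nhdsWithin, nhdsWithin_le_nhds h1,
    nhdsWithin_le_nhds (gt_mem_nhds hδ)] with w h2 h3 h4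
  refine ⟨h2, ?_, h3⟩
  rw [mem_ball_zero_iff, norm_real, Real.norm_eq_abs, abs_of_pos h2]
  exact h4

theorem Ends_lead {a b : ℂ} {c : ℝ} (hc : 0 ≤ c) (h : (a = c ∧ b = 0) ∨ (a = 0 ∧ I * b = c))
    (w : ℂ) : ‖-a / w - conj (-b / w)‖ = c * ‖w⁻¹‖ ∧ (0 ≤ w.re → 0 ≤ w.im →
      (-a / w - conj (-b / w)).re ≤ 0 ∧ 0 ≤ (-a / w - conj (-b / w)).im) := by
  have hn := normSq_nonneg w
  rcases h with ⟨rfl, rfl⟩ | ⟨rfl, h⟩
  · have e : -(c : ℂ) / w - conj (-0 / w) = -(c * w⁻¹) := by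
      rw [neg_zero, zero_div, map_zero, sub_zero, div_eq_mul_inv, neg_mul]
    rw [e, norm_neg, norm_mul, norm_real, Real.norm_eq_abs, abs_of_nonneg hc]
    refine ⟨rfl, fun h1 h2 => ?_⟩
    rw [neg_re, neg_im, re_ofReal_mul, im_ofReal_mul, inv_re, inv_im, neg_div, mul_neg, neg_neg,
      neg_nonpos]
    exact ⟨mul_nonneg hc (div_nonneg h1 hn), mul_nonneg hc (div_nonneg h2 hn)⟩
  · have hb : b = -(I * c) := by
      rw [← h, ← mul_assoc, I_mul_I]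
      ring
    have e : -(0 : ℂ) / w - conj (-b / w) = -conj (c * (I * w⁻¹)) := by
      rw [hb, neg_zero, zero_div, zero_sub, neg_neg, div_eq_mul_inv, mul_comm I, mul_assoc]
    rw [e, norm_neg, norm_conj, norm_mul, norm_mul, norm_I, one_mul, norm_real, Real.norm_eq_abs,
      abs_of_nonneg hc]
    refine ⟨rfl, fun h1 h2 => ?_⟩
    rw [neg_re, neg_im, conj_re, conj_im, re_ofReal_mul, im_ofReal_mul, I_mul_re, I_mul_im, inv_re,
      inv_im, neg_div, neg_neg, neg_neg, neg_nonpos]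
    exact ⟨mul_nonneg hc (div_nonneg h2 hn), mul_nonneg hc (div_nonneg h1 hn)⟩

namespace Dat

variable {D : Dat} {X : ℂ → ℂ}

theorem Ends_sign (hD : D.Ok) {x₀ : ℂ} (he : D.IsE x₀) {δ : ℝ} (hδ : 0 < δ) {k₁ k₂ : ℂ → ℂ}
    (c₁ : ContinuousAt k₁ 0) (c₂ : ContinuousAt k₂ 0) (h0 : x₀ = 0 → k₂ 0 = 0)
    (hj : ∀ j < D.q, x₀ = -D.b j → (Even j → k₁ 0 = 0) ∧ (Odd j → k₂ 0 = 0))
    (hk : ∀ w : ℝ, 0 < w → (w : ℂ) ∈ ball (0 : ℂ) δ →
      k₁ (w ^ 2) / w ^ 2 = D.G (x₀ + w ^ 2) / (x₀ + w ^ 2) * (2 * w) ∧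
      k₂ (w ^ 2) / w ^ 2 = (D.G (x₀ + w ^ 2) * (x₀ + w ^ 2))⁻¹ * (2 * w)) :
    ∃ c : ℝ, 0 ≤ c ∧ ((k₁ 0 = c ∧ k₂ 0 = 0) ∨ (k₁ 0 = 0 ∧ I * k₂ 0 = c)) := by
  rcases he with rfl | ⟨j, hjq, rfl⟩
  · obtain ⟨c, hc, e⟩ := Ends_lim c₁ ((Ends_small hδ (hD.a_pos 0 hD.p_pos)).mono fun w hw => by
      obtain ⟨h1, h2, h3⟩ := hw
      have h4 := (hD.sign_pos (x := w ^ 2) (k := 0) (pow_pos h1 2) (Nat.zero_le _)
        (fun i hi => absurd hi (Nat.not_lt_zero i)) fun i _ hi => by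
          rcases Nat.eq_zero_or_pos i with rfl | h5
          · exact h3
          · exact h3.trans (hD.a_lt 0 i h5 hi)).2
      rw [if_pos Even.zero, one_mul, ofReal_pow] at h4
      have h5 := (hk w h1 h2).1
      have h6 : (w : ℂ) ≠ 0 := ofReal_ne_zero.2 h1.ne'
      rw [zero_add, div_eq_iff (pow_ne_zero 2 h6), h4] at h5
      refine ⟨‖D.G ((w : ℂ) ^ 2)‖ * (2 * w), by positivity, ?_⟩
      rw [h5]
      push_cast
      field_simp)
    exact ⟨c, hc, Or.inl ⟨e, h0 rfl⟩⟩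
  · have hb := hD.b_pos j hjq
    have hs : ∀ w : ℝ, 0 < w → w ^ 2 < D.b j / 2 → -D.b j + w ^ 2 < 0 ∧
        D.G (-D.b j + w ^ 2) = (if Even j then -I else -1) * (‖D.G (-D.b j + w ^ 2)‖ : ℂ) := by
      intro w h1 h3
      have h2 : -D.b j + w ^ 2 < 0 := by linarith
      have h4 := (hD.sign_neg (x := -D.b j + w ^ 2) (k := j) h2 hjq.le
        (fun i hi => by
          have := hD.b_gap i j hi hjq
          have := hD.b_pos i (hi.trans hjq)
          linarith)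
        fun i hi hq => by
          have h5 := pow_pos h1 2
          rcases hi.eq_or_lt with rfl | hi
          · linarith
          · have := hD.b_gap j i hi hq
            linarith).2
      rw [ofReal_add, ofReal_neg, ofReal_pow] at h4
      exact ⟨h2, h4⟩
    rcases Nat.even_or_odd j with hje | hje
    · obtain ⟨c, hc, e⟩ := Ends_lim (k := fun s => I * k₂ s) (continuousAt_const.mul c₂)
        ((Ends_small hδ (half_pos hb)).mono fun w hw => by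
          obtain ⟨h1, h2, h3⟩ := hw
          obtain ⟨h7, h4⟩ := hs w h1 h3
          rw [if_pos hje] at h4
          have h5 := (hk w h1 h2).2
          have h6 : (w : ℂ) ≠ 0 := ofReal_ne_zero.2 h1.ne'
          rw [div_eq_iff (pow_ne_zero 2 h6), h4] at h5
          refine ⟨(‖D.G (-D.b j + w ^ 2)‖ * -(-D.b j + w ^ 2))⁻¹ * (2 * w) * w ^ 2,
            mul_nonneg (mul_nonneg (inv_nonneg.2 (mul_nonneg (norm_nonneg _) (by linarith)))
              (by positivity)) (by positivity), ?_⟩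
          show I * k₂ ((w : ℂ) ^ 2) = _
          rw [h5]
          push_cast
          rw [mul_inv, mul_inv, mul_inv, inv_neg, inv_neg, inv_I]
          linear_combination (‖D.G (-D.b j + w ^ 2)‖ : ℂ)⁻¹ * (-(D.b j : ℂ) + w ^ 2)⁻¹ *
            (2 * w) * w ^ 2 * I_mul_I)
      exact ⟨c, hc, Or.inr ⟨(hj j hjq rfl).1 hje, e⟩⟩
    · obtain ⟨c, hc, e⟩ := Ends_lim c₁
        ((Ends_small hδ (half_pos hb)).mono fun w hw => by
          obtain ⟨h1, h2, h3⟩ := hw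
          obtain ⟨h7, h4⟩ := hs w h1 h3
          rw [if_neg (Nat.not_even_iff_odd.2 hje)] at h4
          have h5 := (hk w h1 h2).1
          have h6 : (w : ℂ) ≠ 0 := ofReal_ne_zero.2 h1.ne'
          rw [div_eq_iff (pow_ne_zero 2 h6), h4] at h5
          refine ⟨‖D.G (-D.b j + w ^ 2)‖ / -(-D.b j + w ^ 2) * (2 * w) * w ^ 2,
            mul_nonneg (mul_nonneg (div_nonneg (norm_nonneg _) (by linarith))
              (by positivity)) (by positivity), ?_⟩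
          rw [h5]
          push_cast
          rw [div_neg, neg_one_mul, neg_div])
      exact ⟨c, hc, Or.inl ⟨e, (hj j hjq rfl).2 hje⟩⟩

theorem Ends_core (hD : D.Ok) (hX : D.Sol X) {x₀ : ℂ} (he : D.IsE x₀) :
    ∃ L : ℂ → ℂ, Tendsto (fun t => X t - L t) (𝓝[D.Q] x₀) (𝓝 0) ∧
      (∀ t ∈ D.Q, (L t).re ≤ 0 ∧ 0 ≤ (L t).im) ∧
      Tendsto (fun t => ‖L t‖) (𝓝[D.Q] x₀) atTop := by
  obtain ⟨δ, h, H, hY⟩ := hD.par2 (P_eq_zero.2 (Or.inl he))
  obtain ⟨k₁, k₂, d₁, d₂, hne, h0, hj, hk⟩ := H.formE hD he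
  have him : x₀.im = 0 := by
    rcases he with rfl | ⟨j, -, rfl⟩
    · rfl
    · rw [neg_im, ofReal_im, neg_zero]
  have hb : ball (0 : ℂ) (δ ^ 2) ∈ 𝓝 (0 : ℂ) := ball_mem_nhds _ (pow_pos H.pos 2)
  obtain ⟨c, hc, hcase⟩ := Ends_sign hD he H.pos (d₁.continuousOn.continuousAt hb)
    (d₂.continuousOn.continuousAt hb) h0 hj fun w h1 h2 => by
      have h6 : (w : ℂ) ≠ 0 := ofReal_ne_zero.2 h1.ne'
      rw [hD.G_eq ((H.on h2).2 h6), ← hY w h2 h6 h1.le le_rfl]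
      exact hk w h2 h6
  have hc0 : 0 < c := by
    refine hc.lt_of_ne fun e => ?_
    subst e
    rcases hcase with ⟨e1, e2⟩ | ⟨e1, e2⟩
    · exact hne.elim (fun h => h e1) fun h => h e2
    · exact hne.elim (fun h => h e1) fun h => mul_ne_zero I_ne_zero h e2
  have hT := hX.lfE hD H.pos (T := fun w => x₀ + w ^ 2) (T' := fun w => 2 * w)
    (Yl := fun w => w * h (w ^ 2)) d₁ d₂
    (continuousOn_id.mul (H.hol.continuousOn.comp (continuous_pow 2).continuousOn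
      fun w hw => sq_mem_ball hw.1))
    fun w hw h1 => ⟨by simpa using (hasDerivAt_pow 2 w).const_add x₀, (H.on hw).1, (H.on hw).2 h1,
      by rw [neg_sq], by rw [neg_sq, neg_mul], fun h2 h3 => by
        rw [add_im, him, zero_add, sq, mul_im, mul_comm w.im, ← two_mul]
        exact mul_ne_zero two_ne_zero (mul_ne_zero h2 h3), hk w hw h1⟩
  obtain ⟨W, hWd⟩ : ∃ W : ℂ → ℂ, ∀ t, W t = (t - x₀) ^ (2⁻¹ : ℂ) := ⟨_, fun _ => rfl⟩
  have hsq : ∀ t, W t ^ 2 = t - x₀ := fun t => by rw [hWd, cpow_ofNat_inv_pow]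
  have hq : ∀ t ∈ D.Q, W t ≠ 0 ∧ 0 ≤ (W t).re ∧ 0 ≤ (W t).im := fun t ht => by
    refine ⟨fun h1 => ht.2 ?_, ?_, ?_⟩
    · have h2 := hsq t
      rw [h1, zero_pow two_ne_zero, eq_comm, sub_eq_zero] at h2
      rwa [h2]
    · rw [hWd, cpow_inv_two_re]
      exact Real.sqrt_nonneg _
    · rw [hWd, cpow_inv_two_im_eq_sqrt (by rw [sub_im, him, sub_zero]; exact ht.1)]
      exact Real.sqrt_nonneg _
  have hW0 : Tendsto W (𝓝[D.Q] x₀) (𝓝 0) := by
    rw [tendsto_zero_iff_norm_tendsto_zero]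
    have h1 : Continuous fun t : ℂ => √‖t - x₀‖ := by fun_prop
    have h2 := h1.tendsto x₀
    rw [sub_self, norm_zero, Real.sqrt_zero] at h2
    refine (h2.mono_left nhdsWithin_le_nhds).congr fun t => ?_
    rw [← hsq, norm_pow, Real.sqrt_sq (norm_nonneg _)]
  have hW : Tendsto W (𝓝[D.Q] x₀) (𝓝[≠] 0) :=
    tendsto_nhdsWithin_iff.2 ⟨hW0, eventually_nhdsWithin_of_forall fun t ht => (hq t ht).1⟩
  refine ⟨fun t => -k₁ 0 / W t - conj (-k₂ 0 / W t), (hT.comp hW).congr' ?_,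
    fun t ht => (Ends_lead hc hcase (W t)).2 (hq t ht).2.1 (hq t ht).2.2, ?_⟩
  · filter_upwards [self_mem_nhdsWithin, hW0.eventually (ball_mem_nhds _ H.pos)] with t ht h1
    have h2 : x₀ + W t ^ 2 = t := by rw [hsq, add_sub_cancel]
    show D.Xg X (x₀ + W t ^ 2) (W t * h (W t ^ 2)) - _ = _
    rw [hY _ h1 (hq t ht).1 (hq t ht).2.1 (hq t ht).2.2, h2, Xg_Y ht.1]
  · refine ((tendsto_norm_inv_nhdsNE_zero_atTop.comp hW).const_mul_atTop hc0).congr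
      fun t => ?_
    exact (Ends_lead hc hcase (W t)).1.symm

theorem Sol.end_sign (hD : D.Ok) (hX : D.Sol X) {x₀ : ℂ} (he : D.IsE x₀) {ε : ℝ} (hε : 0 < ε) :
    ∀ᶠ t in 𝓝[D.Q] x₀, (X t).re < ε ∧ -ε < (X t).im := by
  obtain ⟨L, h1, h2, -⟩ := Ends_core hD hX he
  filter_upwards [self_mem_nhdsWithin, h1.eventually (ball_mem_nhds _ hε)] with t ht h3
  rw [dist_zero_right] at h3
  have h4 := (abs_le.1 (abs_re_le_norm (X t - L t))).2
  have h5 := (abs_le.1 (abs_im_le_norm (X t - L t))).1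
  rw [sub_re] at h4
  rw [sub_im] at h5
  obtain ⟨h6, h7⟩ := h2 t ht
  exact ⟨by linarith, by linarith⟩

theorem Sol.end_big (hD : D.Ok) (hX : D.Sol X) {x₀ : ℂ} (he : D.IsE x₀) :
    Tendsto (fun t => ‖X t‖) (𝓝[D.Q] x₀) atTop := by
  obtain ⟨L, h1, -, h2⟩ := Ends_core hD hX he
  refine tendsto_atTop_mono' _ ?_ (tendsto_atTop_add_const_right _ (-1) h2)
  filter_upwards [h1.eventually (ball_mem_nhds _ one_pos)] with t h3
  rw [dist_zero_right, norm_sub_rev] at h3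
  have h4 := norm_sub_norm_le (L t) (X t)
  linarith

end Dat

end Pool.Agent.MP_92463a_gt
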