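import Pool.Agent.MP_92463a_gt.LF
import Pool.Agent.MP_92463a_gt.Form3

open Set Complex Filter Metric
open scoped Topology ComplexConjugate ContDiff Manifold

noncomputable section

namespace Pool.Agent.MP_92463a_gt

theorem Ends3_lim {k : ℂ → ℂ} {δ : ℝ} (hδ : 0 < δ) (hk : DifferentiableOn ℂ k (ball 0 (δ ^ 2))) :
    Tendsto (fun w : ℝ => -k ((w : ℂ) ^ 2)) (𝓝[>] 0) (𝓝 (-k 0)) := by
  have h1 : ContinuousAt k 0 :=
    (hk.differentiableAt (ball_mem_nhds 0 (pow_pos hδ 2))).continuousAt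
  have h2 : Tendsto (fun w : ℝ => (w : ℂ) ^ 2) (𝓝 0) (𝓝 0) := by
    have h3 : Continuous fun w : ℝ => (w : ℂ) ^ 2 := by fun_prop
    simpa using h3.tendsto 0
  exact ((h1.tendsto.comp h2).neg).mono_left nhdsWithin_le_nhds

theorem Ends3_ev {D : Dat} (hD : D.Ok) {δ : ℝ} (hδ : 0 < δ) :
    ∀ᶠ w : ℝ in 𝓝[>] 0, 0 < w ∧ (w : ℂ) ∈ ball (0 : ℂ) δ ∧
      D.G ((w : ℂ) ^ 2)⁻¹ = (if Even D.p then 1 else I) * (‖D.G ((w : ℂ) ^ 2)⁻¹‖ : ℂ) := by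
  have h1 : Tendsto (fun w : ℝ => (w ^ 2)⁻¹) (𝓝[>] 0) atTop := by
    refine tendsto_inv_nhdsGT_zero.comp (tendsto_nhdsWithin_iff.2 ⟨?_, ?_⟩)
    · have h3 : Continuous fun w : ℝ => w ^ 2 := by fun_prop
      simpa using (h3.tendsto 0).mono_left nhdsWithin_le_nhds
    · filter_upwards [self_mem_nhdsWithin] with w hw
      exact pow_pos (mem_Ioi.1 hw) 2
  have h2 : ∀ᶠ w : ℝ in 𝓝[>] 0, ∀ i ∈ Finset.range D.p, D.a i < (w ^ 2)⁻¹ :=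
    (eventually_all_finset _).2 fun i _ => h1.eventually (eventually_gt_atTop _)
  filter_upwards [Ioo_mem_nhdsGT hδ, h2] with w hw h3
  refine ⟨hw.1, ?_, ?_⟩
  · rw [mem_ball_zero_iff, norm_real, Real.norm_eq_abs, abs_of_pos hw.1]
    exact hw.2
  · have h4 := (hD.sign_pos (x := (w ^ 2)⁻¹) (k := D.p) (inv_pos.2 (pow_pos hw.1 2)) le_rfl
      (fun i hi => h3 i (Finset.mem_range.2 hi)) fun i h5 h6 => absurd h6 (not_lt.2 h5)).2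
    rwa [ofReal_inv, ofReal_pow] at h4

theorem Ends3_quad {c₁ c₂ v : ℂ} (h1 : c₁.re = 0) (h2 : 0 ≤ c₁.im) (h3 : c₂.im = 0)
    (h4 : 0 ≤ c₂.re) (h5 : 0 ≤ v.re) (h6 : 0 ≤ v.im) :
    (c₁ / v⁻¹ - conj (c₂ / v⁻¹)).re ≤ 0 ∧ 0 ≤ (c₁ / v⁻¹ - conj (c₂ / v⁻¹)).im := by
  rw [div_inv_eq_mul, div_inv_eq_mul, sub_re, sub_im, conj_re, conj_im, mul_re, mul_re, mul_im,
    mul_im, h1, h3]
  have := mul_nonneg h2 h5
  have := mul_nonneg h2 h6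
  have := mul_nonneg h4 h5
  have := mul_nonneg h4 h6
  constructor <;> linarith

theorem Ends3_sqrt {t : ℂ} (ht : 0 ≤ t.im) : ∃ v : ℂ, v ^ 2 = t ∧ 0 ≤ v.re ∧ 0 ≤ v.im := by
  refine ⟨t ^ (2⁻¹ : ℂ), cpow_ofNat_inv_pow t 2, ?_, ?_⟩
  · rw [cpow_inv_two_re]
    exact Real.sqrt_nonneg _
  · rw [cpow_inv_two_im_eq_sqrt ht]
    exact Real.sqrt_nonneg _

theorem Dat.Sol.inf_sign {D : Dat} {X : ℂ → ℂ} (hD : D.Ok) (hX : D.Sol X) {ε : ℝ} (hε : 0 < ε) :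
    ∃ r : ℝ, ∀ t ∈ D.Q, r < ‖t‖ → (X t).re < ε ∧ -ε < (X t).im := by
  obtain ⟨δ, h, H, hY⟩ := hD.par3
  obtain ⟨k₁, k₂, hk₁, hk₂, he, ho, hk⟩ := H.form hD
  have hodd : Odd (D.p + D.q + 1) := hD.par.add_one
  have hlim := hX.lfE hD H.pos (T := fun w => (w ^ 2)⁻¹) (T' := fun w => -2 / w ^ 3)
    (Yl := fun w => h (w ^ 2) / w ^ (D.p + D.q + 1)) hk₁ hk₂ (by
      refine ContinuousOn.div ?_ (by fun_prop) fun w hw => pow_ne_zero _ hw.2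
      exact H.hol.continuousOn.comp (by fun_prop) fun w hw => Dat.sq_mem_ball hw.1) (by
      intro w hw h0
      refine ⟨?_, (H.on hw h0).1, (H.on hw h0).2, by rw [neg_sq], ?_, ?_, hk w hw h0⟩
      · refine ((hasDerivAt_pow 2 w).inv (pow_ne_zero 2 h0)).congr_deriv ?_
        field_simp
        norm_num
        ring
      · rw [neg_sq, hodd.neg_pow, div_neg]
      · intro h1 h2
        rw [inv_im, pow_two, mul_im]
        refine div_ne_zero (neg_ne_zero.2 ?_) (normSq_eq_zero.not.2 (mul_ne_zero h0 h0))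
        rw [mul_comm w.im, ← two_mul]
        exact mul_ne_zero two_ne_zero (mul_ne_zero h1 h2))
  have hG : ∀ᶠ w : ℝ in 𝓝[>] 0, 0 < w ∧
      -k₁ ((w : ℂ) ^ 2) = 2 * w * ((if Even D.p then 1 else I) * (‖D.G ((w : ℂ) ^ 2)⁻¹‖ : ℂ)) ∧
      -k₂ ((w : ℂ) ^ 2) =
        2 * w * ((if Even D.p then 1 else I) * (‖D.G ((w : ℂ) ^ 2)⁻¹‖ : ℂ))⁻¹ := by
    filter_upwards [Ends3_ev hD H.pos] with w ⟨hw0, hw, hG⟩
    have h0 : (w : ℂ) ≠ 0 := ofReal_ne_zero.2 hw0.ne'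
    obtain ⟨h1, h2⟩ := hk w hw h0
    rw [hY w hw h0 (by rw [ofReal_re]; exact hw0.le) (by rw [ofReal_im]),
      ← hD.G_eq (H.on hw h0).2] at h1 h2
    rw [← hG]
    have h3 := D.G_ne ((w : ℂ) ^ 2)⁻¹
    generalize D.G ((w : ℂ) ^ 2)⁻¹ = g at h1 h2 h3
    rw [div_eq_iff (pow_ne_zero 2 h0)] at h1 h2
    refine ⟨hw0, ?_, ?_⟩
    · rw [h1]; field_simp
    · rw [h2]; field_simp
  have hpq : Even D.p ↔ Even D.q := Nat.even_add.1 hD.par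
  have c₁ : (-k₁ 0).re = 0 ∧ 0 ≤ (-k₁ 0).im := by
    rcases Nat.even_or_odd D.q with hq | hq
    · rw [he hq]; simp
    · have hp : ¬ Even D.p := fun hp => Nat.not_even_iff_odd.2 hq (hpq.1 hp)
      have hc : IsClosed {z : ℂ | z.re = 0 ∧ 0 ≤ z.im} :=
        (isClosed_eq continuous_re continuous_const).inter
          (isClosed_le continuous_const continuous_im)
      refine hc.mem_of_tendsto (Ends3_lim H.pos hk₁) ?_
      filter_upwards [hG] with w ⟨hw0, h1, _⟩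
      rw [h1, if_neg hp]
      have h2 : (2 : ℂ) * w * (I * (‖D.G ((w : ℂ) ^ 2)⁻¹‖ : ℂ)) =
          ((2 * w * ‖D.G ((w : ℂ) ^ 2)⁻¹‖ : ℝ) : ℂ) * I := by
        push_cast
        ring
      rw [h2, mul_I_re, mul_I_im, ofReal_re, ofReal_im, neg_zero]
      exact ⟨rfl, by positivity⟩
  have c₂ : (-k₂ 0).im = 0 ∧ 0 ≤ (-k₂ 0).re := by
    rcases Nat.even_or_odd D.q with hq | hq
    · have hc : IsClosed {z : ℂ | z.im = 0 ∧ 0 ≤ z.re} :=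
        (isClosed_eq continuous_im continuous_const).inter
          (isClosed_le continuous_const continuous_re)
      refine hc.mem_of_tendsto (Ends3_lim H.pos hk₂) ?_
      filter_upwards [hG] with w ⟨hw0, _, h1⟩
      rw [h1, if_pos (hpq.2 hq)]
      have h2 : (2 : ℂ) * w * (1 * (‖D.G ((w : ℂ) ^ 2)⁻¹‖ : ℂ))⁻¹ =
          ((2 * w * ‖D.G ((w : ℂ) ^ 2)⁻¹‖⁻¹ : ℝ) : ℂ) := by
        push_cast
        ring
      rw [h2, ofReal_re, ofReal_im]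
      exact ⟨rfl, by positivity⟩
    · rw [ho hq]; simp
  have hev := (Metric.tendsto_nhds.1 hlim ε hε).and
    (mem_nhdsWithin_of_mem_nhds (ball_mem_nhds (0 : ℂ) H.pos))
  obtain ⟨η, hη, hb⟩ := Metric.mem_nhdsWithin_iff.1 hev
  refine ⟨η⁻¹ ^ 2, fun t ht hr => ?_⟩
  obtain ⟨v, hv, hre, him⟩ := Ends3_sqrt ht.1
  have hv1 : η⁻¹ < ‖v‖ := by
    rw [← hv, norm_pow] at hr
    exact lt_of_pow_lt_pow_left₀ 2 (norm_nonneg v) hr
  have hv2 : 0 < ‖v‖ := (inv_pos.2 hη).trans hv1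
  have h0 : v⁻¹ ≠ 0 := inv_ne_zero (norm_pos_iff.1 hv2)
  obtain ⟨h1, h2⟩ := hb (a := v⁻¹) ⟨by
    rw [mem_ball_zero_iff, norm_inv]
    exact inv_lt_of_inv_lt₀ hη hv1, h0⟩
  have h3 : (v⁻¹ ^ 2)⁻¹ = t := by rw [inv_pow, inv_inv, hv]
  rw [hY _ h2 h0 (by rw [inv_re]; exact div_nonneg hre (normSq_nonneg v))
    (by rw [inv_im]; exact div_nonpos_of_nonpos_of_nonneg (neg_nonpos.2 him) (normSq_nonneg v)),
    h3, Dat.Xg_Y ht.1, dist_zero_right] at h1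
  obtain ⟨h4, h5⟩ := Ends3_quad c₁.1 c₁.2 c₂.1 c₂.2 hre him
  generalize -k₁ 0 / v⁻¹ - conj (-k₂ 0 / v⁻¹) = z at h1 h4 h5
  have h6 := abs_lt.1 ((abs_re_le_norm _).trans_lt h1)
  have h7 := abs_lt.1 ((abs_im_le_norm _).trans_lt h1)
  rw [sub_re] at h6
  rw [sub_im] at h7
  constructor <;> linarith [h6.2, h7.1]

end Pool.Agent.MP_92463a_gt
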