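import Pool.Agent.MP_92463a_gt.Mom

open Set Complex Filter Metric
open scoped Topology ComplexConjugate ContDiff Manifold

noncomputable section

namespace Pool.Agent.MP_92463a_gt

theorem Est_exp {z : ℂ} (h : ‖z‖ ≤ 4 / 5) : ‖exp z - (1 + z + z ^ 2 / 2)‖ ≤ 0.21 * ‖z‖ ^ 3 := by
  have h1 := Complex.exp_bound (x := z) (by linarith) (n := 4) (by norm_num)
  have h2 : exp z - (1 + z + z ^ 2 / 2) =
      (exp z - ∑ m ∈ Finset.range 4, z ^ m / (m.factorial : ℂ)) + z ^ 3 / 6 := by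
    simp only [Finset.sum_range_succ, Finset.sum_range_zero, Nat.factorial]
    push_cast
    ring
  have h3 : ‖z ^ 3 / 6‖ = ‖z‖ ^ 3 / 6 := by
    rw [norm_div, norm_pow]
    norm_num
  have h4 : ((Nat.succ 4 : ℕ) : ℝ) * ((Nat.factorial 4 : ℕ) * (4 : ℕ) : ℝ)⁻¹ = 5 / 96 := by
    norm_num [Nat.factorial]
  rw [h4] at h1
  have h5 : 0 ≤ ‖z‖ ^ 3 := by positivity
  have h6 : ‖z‖ ^ 4 ≤ ‖z‖ ^ 3 * (4 / 5) := by
    rw [pow_succ]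
    exact mul_le_mul_of_nonneg_left h h5
  rw [h2]
  refine (norm_add_le _ _).trans ?_
  rw [h3]
  linarith

theorem Est_pt {z a b : ℂ} {T Q r : ℝ} (h1 : ‖z - (a + b)‖ ≤ r) (h2 : ‖z - a‖ ≤ Q) (h3 : ‖z‖ ≤ T)
    (h4 : ‖a‖ ≤ T) (h5 : T ≤ 4 / 5) :
    ‖exp z - (1 + a + a ^ 2 / 2 + b)‖ ≤ 0.21 * T ^ 3 + r + T * Q := by
  have e : exp z - (1 + a + a ^ 2 / 2 + b) =
      (exp z - (1 + z + z ^ 2 / 2)) + (z - (a + b)) + (z + a) / 2 * (z - a) := by ring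
  have h6 := Est_exp (h3.trans h5)
  have h7 : ‖z‖ ^ 3 ≤ T ^ 3 := pow_le_pow_left₀ (norm_nonneg _) h3 3
  have h8 : ‖(z + a) / 2‖ ≤ T := by
    have := norm_add_le z a
    rw [norm_div, Complex.norm_two]
    linarith
  have h9 : ‖(z + a) / 2 * (z - a)‖ ≤ T * Q := by
    rw [norm_mul]
    exact mul_le_mul h8 h2 (norm_nonneg _) ((norm_nonneg _).trans h3)
  rw [e]
  refine (norm_add₃_le).trans ?_
  linarith

/-- the second order polynomial -/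
def Est_P (c0 c1 c2 n1 n2 : ℝ) (s : ℂ) : ℂ := c0 + n1 / s + c1 * s + n2 / s ^ 2 + c2 * s ^ 2

/-- the bound of the remainder -/
def Est_R (X1 X2 X3 Y1 Y2 Y3 a : ℝ) : ℝ :=
  c30 X1 X2 X3 / a ^ 3 + c21 X1 X2 Y1 / a + c21 Y1 Y2 X1 * a + c30 Y1 Y2 Y3 * a ^ 3

theorem Est_rem {z s : ℂ} (hs : s ≠ 0) {k m l n X1 X2 X3 Y1 Y2 Y3 : ℝ}
    (h1 : ‖z - (k / s + m * s + l / s ^ 2 + n * s ^ 2)‖ ≤ X3 / ‖s‖ ^ 3 + Y3 * ‖s‖ ^ 3)
    (h2 : ‖z - (k / s + m * s)‖ ≤ X2 / ‖s‖ ^ 2 + Y2 * ‖s‖ ^ 2)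
    (h3 : ‖z‖ ≤ X1 / ‖s‖ + Y1 * ‖s‖) (h4 : ‖k / s + m * s‖ ≤ X1 / ‖s‖ + Y1 * ‖s‖)
    (h5 : X1 / ‖s‖ + Y1 * ‖s‖ ≤ 4 / 5) :
    ‖exp z - Est_P (1 + k * m) m (m ^ 2 / 2 + n) k (k ^ 2 / 2 + l) s‖ ≤
      Est_R X1 X2 X3 Y1 Y2 Y3 ‖s‖ := by
  have ha : ‖s‖ ≠ 0 := norm_ne_zero_iff.2 hs
  rw [add_assoc (k / s + m * s)] at h1
  have h := Est_pt h1 h2 h3 h4 h5
  have e1 : Est_P (1 + k * m) m (m ^ 2 / 2 + n) k (k ^ 2 / 2 + l) s =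
      1 + (k / s + m * s) + (k / s + m * s) ^ 2 / 2 + (l / s ^ 2 + n * s ^ 2) := by
    rw [Est_P]
    push_cast
    field_simp
    ring
  have e2 : Est_R X1 X2 X3 Y1 Y2 Y3 ‖s‖ = 0.21 * (X1 / ‖s‖ + Y1 * ‖s‖) ^ 3 +
      (X3 / ‖s‖ ^ 3 + Y3 * ‖s‖ ^ 3) +
      (X1 / ‖s‖ + Y1 * ‖s‖) * (X2 / ‖s‖ ^ 2 + Y2 * ‖s‖ ^ 2) := by
    rw [Est_R, c30, c30, c21, c21]
    field_simp
    ring
  rw [e1, e2]
  exact h

theorem Est_rem' {z s : ℂ} (hs : s ≠ 0) {k m l n X1 X2 X3 Y1 Y2 Y3 : ℝ}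
    (h1 : ‖z - (k / s + m * s + l / s ^ 2 + n * s ^ 2)‖ ≤ X3 / ‖s‖ ^ 3 + Y3 * ‖s‖ ^ 3)
    (h2 : ‖z - (k / s + m * s)‖ ≤ X2 / ‖s‖ ^ 2 + Y2 * ‖s‖ ^ 2)
    (h3 : ‖z‖ ≤ X1 / ‖s‖ + Y1 * ‖s‖) (h4 : ‖k / s + m * s‖ ≤ X1 / ‖s‖ + Y1 * ‖s‖)
    (h5 : X1 / ‖s‖ + Y1 * ‖s‖ ≤ 4 / 5) :
    ‖exp (-z) - Est_P (1 + k * m) (-m) (m ^ 2 / 2 - n) (-k) (k ^ 2 / 2 - l) s‖ ≤
      Est_R X1 X2 X3 Y1 Y2 Y3 ‖s‖ := by
  have h := Est_rem (z := -z) (k := -k) (m := -m) (l := -l) (n := -n) (X1 := X1) (X2 := X2)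
    (X3 := X3) (Y1 := Y1) (Y2 := Y2) (Y3 := Y3) hs
    (by rw [← norm_neg] at h1; exact (congrArg norm (by push_cast; ring)).trans_le h1)
    (by rw [← norm_neg] at h2; exact (congrArg norm (by push_cast; ring)).trans_le h2)
    (by rwa [norm_neg])
    (by rw [← norm_neg] at h4; exact (congrArg norm (by push_cast; ring)).trans_le h4) h5
  rwa [neg_mul_neg, neg_sq, neg_sq, ← sub_eq_add_neg, ← sub_eq_add_neg] at h

theorem Est_gen {p β U D : ℝ} (h0 : 0 < p) (h1 : p < 1) (hβ : β = (1 - p) / p) (hD : 0 ≤ D)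
    {L : ℂ → ℂ} {k m l n X1 X2 X3 Y1 Y2 Y3 : ℝ}
    (hc : ContinuousOn (fun θ => L (sc p θ)) (Icc 0 Real.pi))
    (hL : ∀ θ ∈ Icc 0 Real.pi, ∀ s, s = sc p θ →
      ‖L s - (k / s + m * s + l / s ^ 2 + n * s ^ 2)‖ ≤ X3 / ‖s‖ ^ 3 + Y3 * ‖s‖ ^ 3 ∧
      ‖L s - (k / s + m * s)‖ ≤ X2 / ‖s‖ ^ 2 + Y2 * ‖s‖ ^ 2 ∧
      ‖L s‖ ≤ X1 / ‖s‖ + Y1 * ‖s‖ ∧ ‖k / s + m * s‖ ≤ X1 / ‖s‖ + Y1 * ‖s‖ ∧
      X1 / ‖s‖ + Y1 * ‖s‖ ≤ 4 / 5) :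
    |(Av p fun s => (U : ℂ) ^ 2 * ((s + β) ^ 2 / s * exp (L s)) +
        (D : ℂ) * ((s - 1) / (s + β) * exp (-L s))) -
      e0 p * (U ^ 2 * mainA β (xb p) k m l n + D * mainB β (xb p) k m l n)| ≤
      e0 p * (U ^ 2 * errA β (xb p) X1 X2 X3 Y1 Y2 Y3 +
        D * errB β (xb p) X1 X2 X3 Y1 Y2 Y3) := by
  have hs : Continuous (sc p) :=
    continuous_iff_continuousAt.2 fun θ => (sc_der h0 h1 θ).continuousAt
  have n0 : ∀ θ, sc p θ ≠ 0 := fun θ => (sc_ne h0 h1 θ).1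
  have nb : ∀ θ, sc p θ + β ≠ 0 := fun θ => hβ ▸ (sc_ne h0 h1 θ).2.2.1
  have cP : ∀ c0 c1 c2 n1 n2 : ℝ, Continuous fun θ => Est_P c0 c1 c2 n1 n2 (sc p θ) := by
    intro c0 c1 c2 n1 n2
    exact (((continuous_const.add (continuous_const.div hs n0)).add
      (continuous_const.mul hs)).add (continuous_const.div (hs.pow 2)
        fun θ => pow_ne_zero 2 (n0 θ))).add (continuous_const.mul (hs.pow 2))
  have cA : Continuous fun θ => (sc p θ + β) ^ 2 / sc p θ :=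
    ((hs.add continuous_const).pow 2).div hs n0
  have cB : Continuous fun θ => (sc p θ - 1) / (sc p θ + β) :=
    (hs.sub continuous_const).div (hs.add continuous_const) nb
  set PA := Est_P (1 + k * m) m (m ^ 2 / 2 + n) k (k ^ 2 / 2 + l) with hPA
  set PB := Est_P (1 + k * m) (-m) (m ^ 2 / 2 - n) (-k) (k ^ 2 / 2 - l) with hPB
  have cPA : Continuous fun θ => PA (sc p θ) := cP _ _ _ _ _
  have cPB : Continuous fun θ => PB (sc p θ) := cP _ _ _ _ _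
  have e1 : (fun s => (U : ℂ) ^ 2 * ((s + β) ^ 2 / s * exp (L s)) +
        (D : ℂ) * ((s - 1) / (s + β) * exp (-L s))) = fun s =>
      (((U ^ 2 : ℝ) : ℂ) * ((s + β) ^ 2 / s * PA s) + (D : ℂ) * ((s - 1) / (s + β) * PB s)) +
        (((U ^ 2 : ℝ) : ℂ) * ((s + β) ^ 2 / s * (exp (L s) - PA s)) +
          (D : ℂ) * ((s - 1) / (s + β) * (exp (-L s) - PB s))) := by
    funext s
    push_cast
    ring
  have c1 : Continuous fun θ => ((U ^ 2 : ℝ) : ℂ) * ((sc p θ + β) ^ 2 / sc p θ * PA (sc p θ)) :=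
    continuous_const.mul (cA.mul cPA)
  have c2 : Continuous fun θ => (D : ℂ) * ((sc p θ - 1) / (sc p θ + β) * PB (sc p θ)) :=
    continuous_const.mul (cB.mul cPB)
  have c3 : ContinuousOn (fun θ =>
      ((U ^ 2 : ℝ) : ℂ) * ((sc p θ + β) ^ 2 / sc p θ * (exp (L (sc p θ)) - PA (sc p θ))) +
        (D : ℂ) * ((sc p θ - 1) / (sc p θ + β) * (exp (-L (sc p θ)) - PB (sc p θ))))
      (Icc 0 Real.pi) :=
    (continuousOn_const.mul (cA.continuousOn.mul (hc.cexp.sub cPA.continuousOn))).add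
      (continuousOn_const.mul (cB.continuousOn.mul (hc.neg.cexp.sub cPB.continuousOn)))
  have mA : Av p (fun s => (s + β) ^ 2 / s * PA s) = _ := mom_A h0 h1 hβ _ _ _ _ _
  have mB : Av p (fun s => (s - 1) / (s + β) * PB s) = _ := mom_B h0 h1 hβ _ _ _ _ _
  have mH := mom_H h0 h1 hβ (U ^ 2 * (1 + β) * c21 X1 X2 Y1 + D * c21 Y1 Y2 X1)
    (U ^ 2 * (1 + β) * c21 Y1 Y2 X1 + D * c30 Y1 Y2 Y3) (U ^ 2 * (1 + β) * c30 Y1 Y2 Y3)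
    (U ^ 2 * (1 + β) * c30 X1 X2 X3 + D * c21 X1 X2 Y1) (D * c30 X1 X2 X3)
  have hn : Continuous fun θ => ‖sc p θ‖ := hs.norm
  have nn : ∀ θ, ‖sc p θ‖ ≠ 0 := fun θ => norm_ne_zero_iff.2 (n0 θ)
  have hle := Av_le h0 h1 (φ := fun s =>
      ((U ^ 2 : ℝ) : ℂ) * ((s + β) ^ 2 / s * (exp (L s) - PA s)) +
        (D : ℂ) * ((s - 1) / (s + β) * (exp (-L s) - PB s)))
    (ψ := fun s => (((U ^ 2 * (1 + β) * c21 X1 X2 Y1 + D * c21 Y1 Y2 X1) +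
      (U ^ 2 * (1 + β) * c30 X1 X2 X3 + D * c21 X1 X2 Y1) / ‖s‖ ^ 2 +
      (U ^ 2 * (1 + β) * c21 Y1 Y2 X1 + D * c30 Y1 Y2 Y3) * ‖s‖ ^ 2 +
      (D * c30 X1 X2 X3) / ‖s‖ ^ 4 + (U ^ 2 * (1 + β) * c30 Y1 Y2 Y3) * ‖s‖ ^ 4 : ℝ) : ℂ))
    (continuous_ofReal.comp ((((continuous_const.add (continuous_const.div (hn.pow 2)
      fun θ => pow_ne_zero 2 (nn θ))).add (continuous_const.mul (hn.pow 2))).add
      (continuous_const.div (hn.pow 4) fun θ => pow_ne_zero 4 (nn θ))).add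
      (continuous_const.mul (hn.pow 4)))).continuousOn
    (by
      intro θ hθ
      obtain ⟨b1, b2, b3, b4, b5⟩ := hL θ hθ _ rfl
      have r1 := Est_rem (n0 θ) b1 b2 b3 b4 b5
      have r2 := Est_rem' (n0 θ) b1 b2 b3 b4 b5
      have wA := norm_wA h0 h1 θ
      have wB := norm_wB h0 h1 θ
      rw [← hβ] at wA wB
      have hb : 0 ≤ 1 + β := by
        rw [hβ]
        have := div_pos (sub_pos.2 h1) h0
        linarith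
      have ha := nn θ
      rw [ofReal_re]
      refine (norm_add_le _ _).trans ?_
      rw [norm_mul, norm_mul, norm_mul, norm_mul, wA, wB, norm_real, norm_real,
        Real.norm_of_nonneg (sq_nonneg U), Real.norm_of_nonneg hD]
      refine (add_le_add (mul_le_mul_of_nonneg_left (mul_le_mul_of_nonneg_left r1
        (mul_nonneg hb (norm_nonneg _))) (sq_nonneg U)) (mul_le_mul_of_nonneg_left
        (mul_le_mul_of_nonneg_left r2 (by positivity)) hD)).trans (le_of_eq ?_)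
      rw [Est_R]
      field_simp
      ring)
  rw [mH] at hle
  rw [e1, Av_add h0 h1 (c1.add c2).continuousOn c3, Av_add h0 h1 c1.continuousOn c2.continuousOn,
    Av_mul, Av_mul, mA, mB]
  convert hle using 2
  · rw [mainA, mainB]
    ring
  · rw [errA, errB]
    ring

theorem per_est {U D : ℝ} (hU : 0 < U) (hD : 0 < D) {L : ℂ → ℂ} {k m l n X1 X2 X3 Y1 Y2 Y3 : ℝ}
    (hc : ContinuousOn (fun θ => L (sc (U / (U + D)) θ)) (Icc 0 Real.pi))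
    (hL : ∀ θ ∈ Icc 0 Real.pi, ∀ s, s = sc (U / (U + D)) θ →
      ‖L s - (k / s + m * s + l / s ^ 2 + n * s ^ 2)‖ ≤ X3 / ‖s‖ ^ 3 + Y3 * ‖s‖ ^ 3 ∧
      ‖L s - (k / s + m * s)‖ ≤ X2 / ‖s‖ ^ 2 + Y2 * ‖s‖ ^ 2 ∧
      ‖L s‖ ≤ X1 / ‖s‖ + Y1 * ‖s‖ ∧ ‖k / s + m * s‖ ≤ X1 / ‖s‖ + Y1 * ‖s‖ ∧
      X1 / ‖s‖ + Y1 * ‖s‖ ≤ 4 / 5) :
    |Per U D L - e0 (U / (U + D)) * (U ^ 2 * mainA (D / U) (xb (U / (U + D))) k m l n +
        D * mainB (D / U) (xb (U / (U + D))) k m l n)| ≤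
      e0 (U / (U + D)) * (U ^ 2 * errA (D / U) (xb (U / (U + D))) X1 X2 X3 Y1 Y2 Y3 +
        D * errB (D / U) (xb (U / (U + D))) X1 X2 X3 Y1 Y2 Y3) := by
  have hs : 0 < U + D := add_pos hU hD
  refine Est_gen (div_pos hU hs) ((div_lt_one hs).2 (by linarith)) ?_ hD.le hc hL
  field_simp
  ring

end Pool.Agent.MP_92463a_gt
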