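import Mathlib

/-! A verified interval checker: straight-line programs, midpoint-radius arithmetic, bisection. -/

namespace Pool.Agent.MP_92463a_gt.FaceX

/-- expressions in registers -/
inductive Ex
  | var (i : ℕ)
  | cst (n : ℤ) (d : ℕ)
  | add (a b : Ex)
  | sub (a b : Ex)
  | mul (a b : Ex)
  | inv (a : Ex)

/-- midpoint and radius, in units of `2 ^ (-40)` -/
structure Iv where
  m : ℤ
  r : ℕ

/-- membership in an interval -/
def Mem (x : ℝ) (I : Iv) : Prop := |x * 2 ^ 40 - (I.m : ℝ)| ≤ (I.r : ℝ)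

/-- the value of an expression; the argument of an inverse is cut off below -/
noncomputable def Ex.ev (l : List ℝ) : Ex → ℝ
  | var i => l.getD i 0
  | cst n d => n / d
  | add a b => a.ev l + b.ev l
  | sub a b => a.ev l - b.ev l
  | mul a b => a.ev l * b.ev l
  | inv a => (max (a.ev l) (2 ^ 40)⁻¹)⁻¹

def Iv.cst (n : ℤ) (d : ℕ) : Iv := ⟨n * 2 ^ 40 / d, 1⟩

def Iv.add (a b : Iv) : Iv := ⟨a.m + b.m, a.r + b.r⟩

def Iv.sub (a b : Iv) : Iv := ⟨a.m - b.m, a.r + b.r⟩

def Iv.mul (a b : Iv) : Iv :=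
  ⟨(a.m * b.m) >>> (40 : ℕ), (a.m.natAbs * b.r + (b.m.natAbs + b.r) * a.r) >>> 40 + 2⟩

/-- the interval with given integer end points -/
def Iv.ofEnds (a b : ℤ) : Iv := ⟨(a + b) / 2, ((b - a) / 2 + 1).toNat⟩

def Iv.inv (a : Iv) : Iv :=
  .ofEnds (2 ^ 80 / max (a.m + a.r) 1) (2 ^ 80 / max (a.m - a.r) 1 + 1)

/-- the interval `[a / 1000, b / 1000]` -/
def Iv.mil (a b : ℤ) : Iv := .ofEnds (a * 2 ^ 40 / 1000) (b * 2 ^ 40 / 1000 + 1)

/-- interval evaluation -/
def Ex.iv (l : List Iv) : Ex → Iv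
  | var i => l.getD i ⟨0, 0⟩
  | cst n d => .cst n d
  | add a b => (a.iv l).add (b.iv l)
  | sub a b => (a.iv l).sub (b.iv l)
  | mul a b => (a.iv l).mul (b.iv l)
  | inv a => (a.iv l).inv

/-- every instruction puts a new register in front -/
noncomputable def run : List Ex → List ℝ → List ℝ
  | [], l => l
  | e :: p, l => run p (e.ev l :: l)

def runI : List Ex → List Iv → List Iv
  | [], l => l
  | e :: p, l => runI p (e.iv l :: l)

/-- bisection trees -/
inductive Tr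
  | leaf
  | node (i : ℕ) (a b : Tr)

def Iv.lo (I : Iv) : Iv := ⟨I.m - ((I.r + 1) / 2 : ℕ), (I.r + 1) / 2⟩

def Iv.hi (I : Iv) : Iv := ⟨I.m + ((I.r + 1) / 2 : ℕ), (I.r + 1) / 2⟩

def Iv.neg (I : Iv) : Bool := decide (I.m + I.r < 0)

/-- the last register is negative on all leaves -/
def check (p : List Ex) : Tr → List Iv → Bool
  | .leaf, l => ((runI p l).headD ⟨0, 0⟩).neg
  | .node i a b, l => check p a (l.modify i Iv.lo) && check p b (l.modify i Iv.hi)

theorem div_spec (n : ℤ) {d : ℤ} (hd : 0 < d) :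
    ((n / d : ℤ) : ℝ) ≤ n / d ∧ (n : ℝ) / d < (n / d : ℤ) + 1 := by
  have h : (0 : ℝ) < d := by exact_mod_cast hd
  rw [le_div_iff₀ h, div_lt_iff₀ h]
  exact ⟨by exact_mod_cast Int.ediv_mul_le n hd.ne', by exact_mod_cast Int.lt_ediv_add_one_mul_self n hd⟩

theorem mem_ofEnds {x : ℝ} {a b : ℤ} (h1 : a ≤ x * 2 ^ 40) (h2 : x * 2 ^ 40 ≤ b) :
    Mem x (.ofEnds a b) := by
  have h3 : (((a + b) / 2 : ℤ) : ℝ) - (((b - a) / 2 + 1).toNat : ℤ) ≤ a := by
    exact_mod_cast (by omega)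
  have h4 : (b : ℝ) ≤ (((a + b) / 2 : ℤ) : ℝ) + (((b - a) / 2 + 1).toNat : ℤ) := by
    exact_mod_cast (by omega)
  rw [Int.cast_natCast] at h3 h4
  exact abs_le.2 ⟨by simp only [Iv.ofEnds]; linarith, by simp only [Iv.ofEnds]; linarith⟩

theorem mem_mil {x : ℝ} {a b : ℤ} (h1 : a / 1000 ≤ x) (h2 : x ≤ b / 1000) : Mem x (.mil a b) := by
  have h3 := (div_spec (a * 2 ^ 40) (d := 1000) (by norm_num)).1
  have h4 := (div_spec (b * 2 ^ 40) (d := 1000) (by norm_num)).2
  rw [Int.cast_mul, Int.cast_pow, Int.cast_ofNat, Int.cast_ofNat] at h3 h4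
  exact mem_ofEnds (by linarith) (by rw [Int.cast_add, Int.cast_one]; linarith)

theorem mem_cst (n : ℤ) (d : ℕ) : Mem (n / d) (.cst n d) := by
  rcases d.eq_zero_or_pos with rfl | hd
  · simp [Mem, Iv.cst]
  have h := div_spec (n * 2 ^ 40) (d := d) (by exact_mod_cast hd)
  have e : (n : ℝ) / d * 2 ^ 40 = ((n * 2 ^ 40 : ℤ) : ℝ) / (d : ℤ) := by push_cast; ring
  simp only [Mem, Iv.cst, e, Nat.cast_one]
  exact abs_le.2 ⟨by linarith [h.1], by linarith [h.2]⟩

variable {x y : ℝ} {a b : Iv}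

theorem Mem.add (hx : Mem x a) (hy : Mem y b) : Mem (x + y) (a.add b) := by
  simp only [Mem, Iv.add, abs_le] at *
  push_cast
  constructor <;> linarith [hx.1, hx.2, hy.1, hy.2]

theorem Mem.sub (hx : Mem x a) (hy : Mem y b) : Mem (x - y) (a.sub b) := by
  simp only [Mem, Iv.sub, abs_le] at *
  push_cast
  constructor <;> linarith [hx.1, hx.2, hy.1, hy.2]

theorem Mem.mul (hx : Mem x a) (hy : Mem y b) : Mem (x * y) (a.mul b) := by
  have h1 := div_spec (a.m * b.m) (d := 2 ^ 40) (by norm_num)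
  have h2 := (div_spec (a.m.natAbs * b.r + (b.m.natAbs + b.r) * a.r : ℕ) (d := 2 ^ 40)
    (by norm_num)).2
  have h3 : |x * 2 ^ 40 * (y * 2 ^ 40) - a.m * b.m| ≤ |(a.m : ℝ)| * b.r + (|(b.m : ℝ)| + b.r) * a.r := by
    have e : x * 2 ^ 40 * (y * 2 ^ 40) - a.m * b.m =
        a.m * (y * 2 ^ 40 - b.m) + (b.m + (y * 2 ^ 40 - b.m)) * (x * 2 ^ 40 - a.m) := by ring
    rw [e]
    refine (abs_add_le _ _).trans ?_
    rw [abs_mul, abs_mul]
    exact add_le_add (mul_le_mul_of_nonneg_left hy (abs_nonneg _))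
      (mul_le_mul ((abs_add_le _ _).trans (add_le_add_right hy _)) hx (abs_nonneg _) (by positivity))
  simp only [Mem, Iv.mul, Int.shiftRight_eq_div_pow, Nat.shiftRight_eq_div_pow]
  rw [Nat.cast_add, ← Int.cast_natCast (_ / _), Int.natCast_div]
  rw [abs_le] at h3 ⊢
  simp only [Nat.cast_pow, Nat.cast_ofNat, Int.cast_natCast, Int.cast_pow, Int.cast_ofNat,
    Int.cast_mul] at h1 h2 ⊢
  rw [Nat.cast_add, Nat.cast_mul, Nat.cast_mul, Nat.cast_add, Nat.cast_natAbs, Nat.cast_natAbs,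
    Int.cast_abs, Int.cast_abs] at h2
  constructor <;> linarith [h1.1, h1.2, h3.1, h3.2]

theorem Mem.inv (hx : Mem x a) : Mem (max x (2 ^ 40)⁻¹)⁻¹ a.inv := by
  have h1 := (div_spec (2 ^ 80) (d := max (a.m + a.r) 1) (by omega)).1
  have h2 := (div_spec (2 ^ 80) (d := max (a.m - a.r) 1) (by omega)).2
  obtain ⟨h3, h4⟩ := abs_le.1 hx
  have e : (max x (2 ^ 40)⁻¹)⁻¹ * 2 ^ 40 = 2 ^ 80 / max (x * 2 ^ 40) 1 := by
    rw [← inv_mul_cancel₀ (a := (2 : ℝ) ^ 40) (by positivity),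
      ← max_mul_of_nonneg _ _ (by positivity)]
    field_simp
  refine mem_ofEnds (h1.trans ?_) (le_trans ?_ (h2.le.trans_eq (by simp))) <;> rw [e] <;>
    simp only [Int.cast_pow, Int.cast_ofNat, Int.cast_max, Int.cast_add, Int.cast_sub,
      Int.cast_natCast, Int.cast_one] <;> gcongr <;> linarith

theorem Mem.split (hx : Mem x a) : Mem x a.lo ∨ Mem x a.hi := by
  have h : (a.r : ℝ) ≤ 2 * ((a.r + 1) / 2 : ℕ) := by exact_mod_cast (by omega)
  simp only [Mem, Iv.lo, Iv.hi, abs_le, Int.cast_sub, Int.cast_add, Int.cast_natCast] at *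
  rcases le_total (x * 2 ^ 40) (a.m : ℝ) with h1 | h1
  · exact Or.inl ⟨by linarith [hx.1], by linarith⟩
  · exact Or.inr ⟨by linarith, by linarith [hx.2]⟩

variable {l : List ℝ} {L : List Iv}

theorem mem_getD (h : List.Forall₂ Mem l L) (i : ℕ) : Mem (l.getD i 0) (L.getD i ⟨0, 0⟩) := by
  induction h generalizing i with
  | nil => simp [Mem]
  | cons h _ ih => cases i with
    | zero => exact h
    | succ i => exact ih i

theorem mem_ev (h : List.Forall₂ Mem l L) (e : Ex) : Mem (e.ev l) (e.iv L) := by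
  induction e with
  | var i => exact mem_getD h i
  | cst n d => exact mem_cst n d
  | add a b ha hb => exact ha.add hb
  | sub a b ha hb => exact ha.sub hb
  | mul a b ha hb => exact ha.mul hb
  | inv a ha => exact ha.inv

theorem mem_run (p : List Ex) (h : List.Forall₂ Mem l L) : List.Forall₂ Mem (run p l) (runI p L) := by
  induction p generalizing l L with
  | nil => exact h
  | cons e p ih => exact ih (.cons (mem_ev h e) h)

theorem mem_modify (h : List.Forall₂ Mem l L) (i : ℕ) :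
    List.Forall₂ Mem l (L.modify i Iv.lo) ∨ List.Forall₂ Mem l (L.modify i Iv.hi) := by
  induction h generalizing i with
  | nil => simp
  | cons h h' ih => cases i with
    | zero => exact h.split.imp (fun k => .cons k h') fun k => .cons k h'
    | succ i => exact (ih i).imp (fun k => .cons h k) fun k => .cons h k

/-- soundness of the checker -/
theorem sound (p : List Ex) (T : Tr) (h : List.Forall₂ Mem l L) (hc : check p T L = true) :
    (run p l).headD 0 < 0 := by
  induction T generalizing L with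
  | leaf =>
    have h1 := mem_getD (mem_run p h) 0
    have h2 : ((runI p L).getD 0 ⟨0, 0⟩).m + ((runI p L).getD 0 ⟨0, 0⟩).r < 0 := by
      rw [← List.headD_eq_getD]
      exact of_decide_eq_true hc
    have h3 : ((((runI p L).getD 0 ⟨0, 0⟩).m : ℤ) : ℝ) + ((runI p L).getD 0 ⟨0, 0⟩).r < 0 := by
      exact_mod_cast h2
    rw [List.headD_eq_getD]
    nlinarith [(abs_le.1 h1).2]
  | node i a b ha hb =>
    rw [check, Bool.and_eq_true] at hc
    exact (mem_modify h i).elim (ha · hc.1) (hb · hc.2)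

end Pool.Agent.MP_92463a_gt.FaceX
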