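import Pool.Agent.MP_92463a_gt.PlB
import Pool.Agent.MP_92463a_gt.Cau1

open Set Complex Filter Metric
open scoped Topology ComplexConjugate ContDiff Manifold

noncomputable section

namespace Pool.Agent.MP_92463a_gt

namespace Pl

variable {ι : Type} [Fintype ι] {P : Pl ι} {κ : ι × Bool → ℂ → ℂ → ℂ} {W : ι × Bool → ℝ}
  {F : ℂ → ℂ} {B : ℝ}

/-- continuity on the circles -/
def FixCC (P : Pl ι) (f : ℂ → ℂ) : Prop :=
  ∀ e, ContinuousOn (fun v => f (P.c e + v)) {v | ‖v‖ = P.ρ e}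

/-- joint continuity on the circles -/
def FixCP {T : Type} [TopologicalSpace T] (S : Set T) (P : T → Pl ι) (f : T → ℂ → ℂ) : Prop :=
  ∀ e, ContinuousOn (fun z : T × ℂ => f z.1 ((P z.1).c e + z.2))
    {z | z.1 ∈ S ∧ ‖z.2‖ = (P z.1).ρ e}

omit [Fintype ι] in
theorem Fix_rin (h : P.Ok) {e : ι × Bool} (e' : ι × Bool) {v : ℂ} (hv : ‖v‖ = P.ρ e) :
    P.rin e' < ‖P.c e + v - P.c e'‖ := by
  have h1 := h.circ_far e' hv
  have h2 := h.rin_mu e'
  have h3 := h.mu_ρ e'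
  have h4 := h.rin_pos e'
  linarith

theorem Fix_key (h : P.Ok) (hκ : P.KB κ W) {f g : ℂ → ℂ} (hf : FixCC P f) (hg : FixCC P g) {M : ℝ}
    (hM : ∀ e v, ‖v‖ = P.ρ e → ‖f (P.c e + v) - g (P.c e + v)‖ ≤ M * W e) :
    ∀ e v, ‖v‖ = P.ρ e → ‖P.step κ F f (P.c e + v) - P.step κ F g (P.c e + v)‖ ≤ M / 2 * W e := by
  intro e v hv
  have hM0 : 0 ≤ M :=
    nonneg_of_mul_nonneg_left ((norm_nonneg _).trans (hM e v hv)) (hκ.pos e)
  obtain ⟨β, hβ, hs⟩ := hκ.bd e v hv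
  have hk : ∀ e', ContinuousOn (fun v' => κ e' v' (P.c e + v - P.c e'))
      {v' | ‖v'‖ = P.ρ (op e')} := fun e' =>
    (hκ.cont e').comp (f := fun v' : ℂ => (v', P.c e + v - P.c e')) (by fun_prop)
      fun v' hv' => ⟨hv', Fix_rin h e' hv⟩
  have h1 : ∀ e', ‖P.pk κ f e' (P.c e + v) - P.pk κ g e' (P.c e + v)‖ ≤
      β e' * W (op e') * M := by
    intro e'
    unfold pk
    rw [← av_sub (h.ρ_pos _).le ((hk e').fun_mul (hf _)) ((hk e').fun_mul (hg _))]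
    refine av_norm_le (h.ρ_pos _).le fun v' hv' => ?_
    rw [← mul_sub, norm_mul, mul_assoc, mul_comm (W _)]
    exact mul_le_mul (hβ e' v' hv') (hM _ v' hv') (norm_nonneg _)
      ((norm_nonneg _).trans (hβ e' v' hv'))
  unfold step
  rw [add_sub_add_left_eq_sub, ← Finset.sum_sub_distrib]
  refine (norm_sum_le _ _).trans ((Finset.sum_le_sum fun e' _ => h1 e').trans ?_)
  rw [← Finset.sum_mul]
  nlinarith [mul_le_mul_of_nonneg_right hs hM0]

section par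
variable {T : Type} [TopologicalSpace T] [FirstCountableTopology T] {S : Set T}
  {P : T → Pl ι} {κ : T → ι × Bool → ℂ → ℂ → ℂ} {F : T → ℂ → ℂ}

omit [Fintype ι] in
theorem Fix_pk_par (h : ∀ x ∈ S, (P x).Ok)
    (hc : ∀ e, ContinuousOn (fun x => (P x).c e) S) (hρ : ∀ e, ContinuousOn (fun x => (P x).ρ e) S)
    (hκ : ∀ e, ContinuousOn (fun z : T × ℂ × ℂ => κ z.1 e z.2.1 z.2.2)
      {z | z.1 ∈ S ∧ ‖z.2.1‖ = (P z.1).ρ (op e) ∧ (P z.1).rin e < ‖z.2.2‖})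
    {f : T → ℂ → ℂ} (hf : FixCP S P f) (e : ι × Bool) :
    ContinuousOn (fun z : T × ℂ => (P z.1).pk (κ z.1) (f z.1) e z.2)
      {z | z.1 ∈ S ∧ (P z.1).rin e < ‖z.2 - (P z.1).c e‖} := by
  unfold pk
  refine av_contOn (T := T × ℂ) (r := fun z => (P z.1).ρ (op e))
    (k := fun z v => κ z.1 e v (z.2 - (P z.1).c e) * f z.1 ((P z.1).c (op e) + v))
    ((hρ _).comp continuousOn_fst fun z hz => hz.1) (fun z hz => ((h _ hz.1).ρ_pos _).le) ?_
  refine ContinuousOn.mul ?_ ?_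
  · refine (hκ e).comp (f := fun y : (T × ℂ) × ℂ => (y.1.1, y.2, y.1.2 - (P y.1.1).c e)) ?_
      fun y hy => ⟨hy.1.1, hy.2, hy.1.2⟩
    refine ContinuousOn.prodMk (by fun_prop) (ContinuousOn.prodMk (by fun_prop)
      (ContinuousOn.sub (by fun_prop) ?_))
    exact (hc e).comp (f := fun y : (T × ℂ) × ℂ => y.1.1) (by fun_prop) fun y hy => hy.1.1
  · exact (hf (op e)).comp (f := fun y : (T × ℂ) × ℂ => (y.1.1, y.2)) (by fun_prop)
      fun y hy => ⟨hy.1.1, hy.2⟩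

theorem Fix_step_par (h : ∀ x ∈ S, (P x).Ok)
    (hc : ∀ e, ContinuousOn (fun x => (P x).c e) S) (hρ : ∀ e, ContinuousOn (fun x => (P x).ρ e) S)
    (hκ : ∀ e, ContinuousOn (fun z : T × ℂ × ℂ => κ z.1 e z.2.1 z.2.2)
      {z | z.1 ∈ S ∧ ‖z.2.1‖ = (P z.1).ρ (op e) ∧ (P z.1).rin e < ‖z.2.2‖})
    (hF : FixCP S P F) {f : T → ℂ → ℂ} (hf : FixCP S P f) :
    FixCP S P fun x => (P x).step (κ x) (F x) (f x) := by
  intro e
  unfold step
  refine (hF e).add (continuousOn_finsetSum _ fun e' _ => ?_)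
  refine (Fix_pk_par h hc hρ hκ hf e').comp
    (f := fun z : T × ℂ => (z.1, (P z.1).c e + z.2)) ?_
    fun z hz => ⟨hz.1, Fix_rin (h _ hz.1) e' hz.2⟩
  exact continuousOn_fst.prodMk
    (((hc e).comp continuousOn_fst fun z hz => hz.1).add continuousOn_snd)

theorem Fix_iter_par (h : ∀ x ∈ S, (P x).Ok)
    (hc : ∀ e, ContinuousOn (fun x => (P x).c e) S) (hρ : ∀ e, ContinuousOn (fun x => (P x).ρ e) S)
    (hκ : ∀ e, ContinuousOn (fun z : T × ℂ × ℂ => κ z.1 e z.2.1 z.2.2)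
      {z | z.1 ∈ S ∧ ‖z.2.1‖ = (P z.1).ρ (op e) ∧ (P z.1).rin e < ‖z.2.2‖})
    (hF : FixCP S P F) (n : ℕ) : FixCP S P fun x => ((P x).step (κ x) (F x))^[n] 0 := by
  induction n with
  | zero => exact fun e => continuousOn_const
  | succ n ih =>
    simp only [Function.iterate_succ_apply']
    exact Fix_step_par h hc hρ hκ hF ih

omit [Fintype ι] [FirstCountableTopology T] in
theorem FixCP.pt {f : T → ℂ → ℂ} (hf : FixCP S P f) {x : T} (hx : x ∈ S) : FixCC (P x) (f x) :=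
  fun e => (hf e).comp (f := fun v : ℂ => (x, v)) (by fun_prop) fun _ hv => ⟨hx, hv⟩

end par

omit [Fintype ι] in
theorem FixCC.unit {f : ℂ → ℂ} (hf : FixCC P f) :
    FixCP (univ : Set Unit) (fun _ => P) fun _ => f :=
  fun e => (hf e).comp continuousOn_snd fun _ hz => hz.2

theorem Fix_unit (hκ : P.KB κ W) (e : ι × Bool) :
    ContinuousOn (fun z : Unit × ℂ × ℂ => κ e z.2.1 z.2.2)
      {z | z.1 ∈ (univ : Set Unit) ∧ ‖z.2.1‖ = P.ρ (op e) ∧ P.rin e < ‖z.2.2‖} :=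
  (hκ.cont e).comp continuousOn_snd fun _ hz => hz.2

theorem Fix_iter_cc (h : P.Ok) (hκ : P.KB κ W) (hF : P.FB F B W) (n : ℕ) :
    FixCC P ((P.step κ F)^[n] 0) :=
  (Fix_iter_par (S := (univ : Set Unit)) (P := fun _ => P) (κ := fun _ => κ) (F := fun _ => F)
    (fun _ _ => h) (fun _ => continuousOn_const) (fun _ => continuousOn_const) (Fix_unit hκ)
    (FixCC.unit fun e => (hF e).1) n).pt (mem_univ ())

theorem Fix_diff (h : P.Ok) (hκ : P.KB κ W) (hF : P.FB F B W) (n : ℕ) : ∀ e v, ‖v‖ = P.ρ e →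
    ‖(P.step κ F)^[n + 1] 0 (P.c e + v) - (P.step κ F)^[n] 0 (P.c e + v)‖ ≤
      B * (1 / 2) ^ n * W e := by
  induction n with
  | zero =>
    intro e v hv
    have h1 : ∀ e' t, P.pk κ 0 e' t = 0 := fun e' t => by
      unfold pk
      simpa using av_const (R := P.ρ (op e')) 0
    simpa [step, h1] using (hF e).2 v hv
  | succ n ih =>
    intro e v hv
    have h1 := Fix_key (F := F) h hκ (Fix_iter_cc h hκ hF (n + 1)) (Fix_iter_cc h hκ hF n) ih e v hv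
    rw [Function.iterate_succ_apply' _ (n + 1)]
    conv_lhs => arg 1; arg 2; rw [Function.iterate_succ_apply']
    refine h1.trans (le_of_eq ?_)
    ring

theorem Fix_lim (h : P.Ok) (hκ : P.KB κ W) (hF : P.FB F B W) (n : ℕ) : ∀ e v, ‖v‖ = P.ρ e →
    ‖(P.step κ F)^[n] 0 (P.c e + v) -
      limUnder atTop fun n : ℕ => (P.step κ F)^[n] 0 (P.c e + v)‖ ≤
      2 * B * (1 / 2) ^ n * W e := by
  intro e v hv
  have h1 : ∀ n, dist ((P.step κ F)^[n] 0 (P.c e + v)) ((P.step κ F)^[n + 1] 0 (P.c e + v)) ≤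
      B * W e * (1 / 2) ^ n := fun n => by
    rw [dist_comm, dist_eq_norm]
    exact (Fix_diff h hκ hF n e v hv).trans (le_of_eq (by ring))
  have h2 := cauchySeq_of_le_geometric (1 / 2) _ (by norm_num) h1
  have h3 := dist_le_of_le_geometric_of_tendsto (1 / 2) _ (by norm_num) h1 h2.tendsto_limUnder n
  rw [dist_eq_norm] at h3
  exact h3.trans (le_of_eq (by ring))

theorem Fix_geo (a : ℝ) : Tendsto (fun n : ℕ => a * (1 / 2) ^ n) atTop (𝓝 0) := by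
  simpa using (tendsto_pow_atTop_nhds_zero_of_lt_one (r := (1 / 2 : ℝ)) (by norm_num)
    (by norm_num)).const_mul a

theorem Fix_lim_par {T : Type} [TopologicalSpace T] [FirstCountableTopology T] {S : Set T}
    {P : T → Pl ι} {κ : T → ι × Bool → ℂ → ℂ → ℂ} {F : T → ℂ → ℂ}
    (h : ∀ x ∈ S, (P x).Ok ∧ (P x).KB (κ x) W ∧ (P x).FB (F x) B W)
    (hc : ∀ e, ContinuousOn (fun x => (P x).c e) S) (hρ : ∀ e, ContinuousOn (fun x => (P x).ρ e) S)
    (hκ : ∀ e, ContinuousOn (fun z : T × ℂ × ℂ => κ z.1 e z.2.1 z.2.2)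
      {z | z.1 ∈ S ∧ ‖z.2.1‖ = (P z.1).ρ (op e) ∧ (P z.1).rin e < ‖z.2.2‖})
    (hF : FixCP S P F) :
    FixCP S P fun x t => limUnder atTop fun n : ℕ => ((P x).step (κ x) (F x))^[n] 0 t := by
  intro e
  refine TendstoUniformlyOn.continuousOn (p := atTop)
    (F := fun (n : ℕ) (z : T × ℂ) => ((P z.1).step (κ z.1) (F z.1))^[n] 0 ((P z.1).c e + z.2)) ?_
    (Eventually.frequently (Eventually.of_forall fun n =>
      Fix_iter_par (fun x hx => (h x hx).1) hc hρ hκ hF n e))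
  rw [Metric.tendstoUniformlyOn_iff]
  intro ε hε
  filter_upwards [(Fix_geo (2 * B * W e)).eventually (gt_mem_nhds hε)] with n hn z hz
  obtain ⟨h1, h2, h3⟩ := h _ hz.1
  rw [dist_comm, dist_eq_norm]
  exact ((Fix_lim h1 h2 h3 n e _ hz.2).trans (le_of_eq (by ring))).trans_lt hn

theorem Fix_lim_cc (h : P.Ok) (hκ : P.KB κ W) (hF : P.FB F B W) :
    FixCC P fun t => limUnder atTop fun n : ℕ => (P.step κ F)^[n] 0 t :=
  (Fix_lim_par (S := (univ : Set Unit)) (P := fun _ => P) (κ := fun _ => κ) (F := fun _ => F)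
    (fun _ _ => ⟨h, hκ, hF⟩) (fun _ => continuousOn_const) (fun _ => continuousOn_const)
    (Fix_unit hκ) (FixCC.unit fun e => (hF e).1)).pt (mem_univ ())

theorem Fix_psi_cc (h : P.Ok) (hκ : P.KB κ W) (hF : P.FB F B W) : FixCC P (P.psi κ F) :=
  (Fix_step_par (S := (univ : Set Unit)) (P := fun _ => P) (κ := fun _ => κ) (F := fun _ => F)
    (fun _ _ => h) (fun _ => continuousOn_const) (fun _ => continuousOn_const) (Fix_unit hκ)
    (FixCC.unit fun e => (hF e).1) (Fix_lim_cc h hκ hF).unit).pt (mem_univ ())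

theorem Fix_zero {z : ℂ} {a : ℝ} (h : ∀ n : ℕ, ‖z‖ ≤ a * (1 / 2) ^ n) : z = 0 :=
  norm_le_zero_iff.1 (ge_of_tendsto' (Fix_geo a) h)

theorem Fix_psi_lim (h : P.Ok) (hκ : P.KB κ W) (hF : P.FB F B W) (e : ι × Bool) (v : ℂ)
    (hv : ‖v‖ = P.ρ e) :
    P.psi κ F (P.c e + v) = limUnder atTop fun n : ℕ => (P.step κ F)^[n] 0 (P.c e + v) := by
  refine sub_eq_zero.1 (Fix_zero (a := 2 * B * W e) fun n => ?_)
  have h1 := Fix_key (F := F) h hκ (Fix_iter_cc h hκ hF n) (Fix_lim_cc h hκ hF)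
    (Fix_lim h hκ hF n) e v hv
  have h2 := Fix_lim h hκ hF (n + 1) e v hv
  rw [Function.iterate_succ_apply'] at h2
  rw [norm_sub_rev] at h1
  refine (norm_sub_le_norm_sub_add_norm_sub _ _ _).trans ((add_le_add h1 h2).trans (le_of_eq ?_))
  ring

theorem psi_eq (h : P.Ok) (hκ : P.KB κ W) (hF : P.FB F B W) (t : ℂ) :
    P.psi κ F t = F t + ∑ e, P.pk κ (P.psi κ F) e t := by
  conv_lhs => unfold psi step
  congr 1
  refine Finset.sum_congr rfl fun e _ => ?_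
  unfold pk
  refine av_congr (h.ρ_pos _).le fun v hv => ?_
  rw [Fix_psi_lim h hκ hF _ v hv]
  rfl

theorem psi_fb (h : P.Ok) (hκ : P.KB κ W) (hF : P.FB F B W) : P.FB (P.psi κ F) (2 * B) W := by
  refine fun e => ⟨Fix_psi_cc h hκ hF e, fun v hv => ?_⟩
  rw [Fix_psi_lim h hκ hF e v hv]
  simpa using Fix_lim h hκ hF 0 e v hv

theorem psi_uniq (h : P.Ok) (hκ : P.KB κ W) (hF : P.FB F B W) {f : ℂ → ℂ}
    (hc : ∀ e, ContinuousOn (fun v => f (P.c e + v)) {v | ‖v‖ = P.ρ e})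
    (hf : ∀ e v, ‖v‖ = P.ρ e → f (P.c e + v) = F (P.c e + v) + ∑ e', P.pk κ f e' (P.c e + v)) :
    ∀ e v, ‖v‖ = P.ρ e → f (P.c e + v) = P.psi κ F (P.c e + v) := by
  have hb : ∀ e, ∃ C, ∀ v ∈ sphere (0 : ℂ) (P.ρ e),
      ‖f (P.c e + v) - P.psi κ F (P.c e + v)‖ ≤ C := fun e =>
    (isCompact_sphere _ _).exists_bound_of_continuousOn
      (((hc e).sub (Fix_psi_cc h hκ hF e)).mono fun v hv => by simpa using hv)
  choose C hC using hb
  have key : ∀ n : ℕ, ∀ e v, ‖v‖ = P.ρ e → ‖f (P.c e + v) - P.psi κ F (P.c e + v)‖ ≤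
      (∑ e', |C e'| / W e') * (1 / 2) ^ n * W e := by
    intro n
    induction n with
    | zero =>
      intro e v hv
      have h1 : |C e| / W e ≤ ∑ e', |C e'| / W e' :=
        Finset.single_le_sum (f := fun e' => |C e'| / W e')
          (fun e' _ => div_nonneg (abs_nonneg _) (hκ.pos e').le) (Finset.mem_univ e)
      rw [div_le_iff₀ (hκ.pos e)] at h1
      rw [pow_zero, mul_one]
      exact ((hC e v (by simpa using hv)).trans (le_abs_self _)).trans h1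
    | succ n ih =>
      intro e v hv
      have h1 := Fix_key (F := F) h hκ hc (Fix_psi_cc h hκ hF) ih e v hv
      rw [hf e v hv, psi_eq h hκ hF]
      exact h1.trans (le_of_eq (by ring))
  intro e v hv
  exact sub_eq_zero.1 (Fix_zero (a := (∑ e', |C e'| / W e') * W e) fun n =>
    (key n e v hv).trans (le_of_eq (by ring)))

theorem psi_cont {T : Type} [TopologicalSpace T] [FirstCountableTopology T] {S : Set T}
    {P : T → Pl ι} {κ : T → ι × Bool → ℂ → ℂ → ℂ} {F : T → ℂ → ℂ}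
    (h : ∀ x ∈ S, (P x).Ok ∧ (P x).KB (κ x) W ∧ (P x).FB (F x) B W)
    (hc : ∀ e, ContinuousOn (fun x => (P x).c e) S) (hρ : ∀ e, ContinuousOn (fun x => (P x).ρ e) S)
    (hκ : ∀ e, ContinuousOn (fun z : T × ℂ × ℂ => κ z.1 e z.2.1 z.2.2)
      {z | z.1 ∈ S ∧ ‖z.2.1‖ = (P z.1).ρ (op e) ∧ (P z.1).rin e < ‖z.2.2‖})
    (hF : ∀ e, ContinuousOn (fun z : T × ℂ => F z.1 ((P z.1).c e + z.2))
      {z | z.1 ∈ S ∧ ‖z.2‖ = (P z.1).ρ e}) (e : ι × Bool) :
    ContinuousOn (fun z : T × ℂ => (P z.1).pk (κ z.1) ((P z.1).psi (κ z.1) (F z.1)) e z.2)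
      {z | z.1 ∈ S ∧ (P z.1).rin e < ‖z.2 - (P z.1).c e‖} := by
  exact Fix_pk_par (fun x hx => (h x hx).1) hc hρ hκ
    (Fix_step_par (fun x hx => (h x hx).1) hc hρ hκ hF (Fix_lim_par h hc hρ hκ hF)) e

end Pl

end Pool.Agent.MP_92463a_gt
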