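import Pool.Agent.MP_92463a_gt.Num0

open Set Complex Filter Metric
open scoped Topology ComplexConjugate ContDiff Manifold

noncomputable section

namespace Pool.Agent.MP_92463a_gt

variable {U D : ℕ → ℝ} {j : ℕ}

theorem Fld_box {b : Bool} {U D : ℝ} (h : InBox b true U D) :
    0 < D ∧ |U| ≤ 0.235 ∧ |U ^ 2 / D| ≤ 0.3682 ∧ |U * D| ≤ 0.058 := by
  have key : 0 < D ∧ 0 ≤ U ∧ U ≤ 0.235 ∧ U ^ 2 ≤ 0.3682 * D ∧ U * D ≤ 0.058 := by
    obtain ⟨⟨h1, h2⟩, h3, h4⟩ := h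
    cases b <;> simp only [dLo, dHi] at h1 h2 h3 h4 <;>
      exact ⟨by linarith, by linarith, by linarith, by nlinarith, by nlinarith⟩
  obtain ⟨h1, h2, h3, h4, h5⟩ := key
  refine ⟨h1, by rwa [abs_of_nonneg h2], ?_, by rwa [abs_of_nonneg (by positivity)]⟩
  rwa [abs_of_nonneg (by positivity), div_le_iff₀ h1]

theorem Fld_num {b : Bool} {U D x x2 : ℝ} (h : InBox b true U D) (hx : Fc b x x2) :
    Fc true ((3 * U + U ^ 2 / D) / 2 - U * D * x)
      ((3 * U ^ 2 - (U ^ 2 / D) ^ 2) / 4 - (U * D) ^ 2 * x2) := by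
  obtain ⟨⟨h1, h2⟩, h3, h4⟩ := h
  have hD := (Fld_box ⟨⟨h1, h2⟩, h3, h4⟩).1
  have hl : 0 < dLo b true := by cases b <;> norm_num [dLo]
  have hA : 0 ≤ U ^ 2 / D := div_nonneg (sq_nonneg U) hD.le
  have a1 : U ^ 2 ≤ U ^ 2 / D * dHi b true :=
    (div_mul_cancel₀ _ hD.ne').ge.trans (mul_le_mul_of_nonneg_left h2 hA)
  have a2 : U ^ 2 / D * dLo b true ≤ U ^ 2 :=
    (mul_le_mul_of_nonneg_left h1 hA).trans (div_mul_cancel₀ _ hD.ne').le
  have a3 := pow_le_pow_left₀ (sq_nonneg U) a1 2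
  have a4 := pow_le_pow_left₀ (mul_nonneg hA hl.le) a2 2
  have w1 : dLo true b ^ 2 ≤ U ^ 2 :=
    pow_le_pow_left₀ (by cases b <;> norm_num [dLo]) h3 2
  have w2 : U ^ 2 ≤ dHi true b ^ 2 :=
    pow_le_pow_left₀ (le_trans (by cases b <;> norm_num [dLo]) h3) h4 2
  generalize U ^ 2 / D = A at *
  generalize U ^ 2 = w at *
  cases b
  · obtain ⟨rfl, rfl⟩ := hx
    simp only [dLo, dHi] at h1 h2 h3 h4 a1 a2 a3 a4 w1 w2
    refine ⟨⟨?_, ?_⟩, ?_, ?_⟩
    · linarith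
    · linarith
    · nlinarith [mul_nonneg (sub_nonneg.2 w1) (sub_nonneg.2 w2)]
    · nlinarith [sq_nonneg A]
  · obtain ⟨⟨x1, x3⟩, y1, y3⟩ := hx
    simp only [dLo, dHi] at h1 h2 h3 h4 a1 a2 a3 a4 w1 w2
    have q1 : 0.0225 ≤ U * D := by nlinarith
    have q2 : U * D ≤ 0.0553 := by nlinarith
    generalize U * D = q at *
    have q3 : 0.0049 ≤ q * x := by nlinarith
    have q4 : q * x ≤ 0.03 := by nlinarith
    have q5 : 0 ≤ q ^ 2 * x2 := mul_nonneg (sq_nonneg q) (by linarith)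
    have q6 : q ^ 2 ≤ 0.0031 := by nlinarith
    have q7 : q ^ 2 * x2 ≤ 0.0001 := by nlinarith [sq_nonneg q]
    refine ⟨⟨?_, ?_⟩, ?_, ?_⟩
    · linarith
    · linarith
    · nlinarith [mul_nonneg (sub_nonneg.2 w1) (sub_nonneg.2 w2)]
    · nlinarith [mul_nonneg (sub_nonneg.2 w2) (sub_nonneg.2 (w2.trans
        (by norm_num : (0.235 : ℝ) ^ 2 ≤ 2 * 0.235 ^ 2)))]

theorem Fld_norm {B c : ℝ} {v : ℂ} (hB : |B| ≤ c) : ‖(B : ℂ) * v‖ ≤ c * ‖v‖ := by
  rw [norm_mul, norm_real, Real.norm_eq_abs]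
  gcongr

theorem Fld_le {B c : ℝ} {v : ℂ} (hB : |B| ≤ c) (hv : ‖v‖ ≤ 1) : ‖(B : ℂ) * v‖ ≤ c :=
  (Fld_norm hB).trans (mul_le_of_le_one_right ((abs_nonneg B).trans hB) hv)

theorem Fld_log {B c : ℝ} {v : ℂ} (hB : |B| ≤ c) (hc : c < 1) (hv : ‖v‖ ≤ 1) :
    ‖log (1 + B * v) - (B * v - (B * v) ^ 2 / 2)‖ ≤ c ^ 3 * (1 - c)⁻¹ / 3 * ‖v‖ ^ 3 := by
  have h1 := Fld_le hB hv
  have h2 := Complex.norm_log_sub_logTaylor_le 2 (h1.trans_lt hc)
  have e : logTaylor (2 + 1) ((B : ℂ) * v) = B * v - (B * v) ^ 2 / 2 := by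
    simp only [logTaylor, Finset.sum_range_succ, Finset.range_zero, Finset.sum_empty]
    push_cast
    ring
  rw [e] at h2
  refine h2.trans ?_
  have h3 : (1 - ‖(B : ℂ) * v‖)⁻¹ ≤ (1 - c)⁻¹ := inv_anti₀ (by linarith) (by linarith)
  have h4 := pow_le_pow_left₀ (norm_nonneg _) (Fld_norm (v := v) hB) 3
  have h5 := mul_le_mul h4 h3 (inv_nonneg.2 (by linarith)) ((by positivity : (0 : ℝ) ≤ _).trans h4)
  calc _ = ‖(B : ℂ) * v‖ ^ 3 * (1 - ‖(B : ℂ) * v‖)⁻¹ / 3 := by norm_num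
    _ ≤ (c * ‖v‖) ^ 3 * (1 - c)⁻¹ / 3 := by gcongr
    _ = _ := by ring

theorem fld_cls (h : ∀ i < j, InBox (decide (0 < i)) true (U i) (D i)) :
    ∃ x x2, Cls (decide (0 < j)) (fld U D j) x x2 := by
  induction j with
  | zero => exact ⟨0, 0, ⟨rfl, rfl⟩, fun v _ => by simp [fld, h3]⟩
  | succ j ih =>
    obtain ⟨x, x2, hx, hr⟩ := ih fun i hi => h i (by omega)
    have hj := h j (Nat.lt_succ_self j)
    obtain ⟨-, b1, b2, b3⟩ := Fld_box hj
    rw [show decide (0 < j + 1) = true from decide_eq_true (Nat.succ_pos j)]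
    refine ⟨_, _, Fld_num hj hx, fun v hv => ?_⟩
    have hv := hv rfl
    have r1 := Fld_log b1 (by norm_num) hv
    have r2 := Fld_log ((abs_neg _).trans_le b2) (by norm_num) hv
    have r3 := hr _ fun _ => (Fld_le b3 hv).trans (by norm_num)
    have r4 := pow_le_pow_left₀ (norm_nonneg _) (Fld_norm (v := v) b3) 3
    have r5 : h3 (decide (0 < j)) * ‖((U j * D j : ℝ) : ℂ) * v‖ ^ 3 ≤
        0.022 * (0.058 * ‖v‖) ^ 3 :=
      mul_le_mul (by cases decide (0 < j) <;> norm_num [h3]) r4 (by positivity) (by norm_num)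
    rw [ofReal_neg, neg_mul, ← sub_eq_add_neg] at r2
    rw [fld, h3]
    beta_reduce
    generalize U j ^ 2 / D j = A at *
    generalize U j * D j = q at *
    generalize fld U D j (q * v) = F at *
    generalize log (1 + U j * v) = L₁ at *
    generalize log (1 - A * v) = L₂ at *
    have e : -(3 / 2 * L₁ - 1 / 2 * L₂) - F + (((3 * U j + A) / 2 - q * x : ℝ) : ℂ) * v -
        (((3 * U j ^ 2 - A ^ 2) / 4 - q ^ 2 * x2 : ℝ) : ℂ) * v ^ 2 =
        (-(3 / 2) : ℝ) * (L₁ - (U j * v - (U j * v) ^ 2 / 2)) +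
          (1 / 2 : ℝ) * (L₂ - (-(A * v) - (-(A * v)) ^ 2 / 2)) -
          (F + x * (q * v) - x2 * (q * v) ^ 2) := by
      push_cast
      ring
    rw [e]
    refine (norm_sub_le _ _).trans ((add_le_add (norm_add_le _ _) (r3.trans r5)).trans ?_)
    rw [norm_mul, norm_mul, norm_real, norm_real, Real.norm_eq_abs, Real.norm_eq_abs, abs_neg,
      abs_of_pos (by norm_num : (0 : ℝ) < 3 / 2), abs_of_pos (by norm_num : (0 : ℝ) < 1 / 2),
      mul_pow (0.058 : ℝ)]
    have := pow_nonneg (norm_nonneg v) 3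
    norm_num at r1 r2 ⊢
    linarith

theorem Fld_slit {b : Bool} {U D : ℝ} (h : InBox b true U D) {v : ℂ} (hv : ‖v‖ ≤ 1) :
    1 + (U : ℂ) * v ∈ slitPlane ∧ 1 - ((U ^ 2 / D : ℝ) : ℂ) * v ∈ slitPlane ∧
      ‖((U * D : ℝ) : ℂ) * v‖ ≤ 1 := by
  obtain ⟨-, b1, b2, b3⟩ := Fld_box h
  refine ⟨mem_slitPlane_of_norm_lt_one ((Fld_le b1 hv).trans_lt (by norm_num)), ?_,
    (Fld_le b3 hv).trans (by norm_num)⟩
  rw [sub_eq_add_neg]
  exact mem_slitPlane_of_norm_lt_one
    ((norm_neg _).trans_lt ((Fld_le b2 hv).trans_lt (by norm_num)))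

theorem fld_conj (h : ∀ i < j, InBox (decide (0 < i)) true (U i) (D i)) {v : ℂ}
    (hv : 0 < j → ‖v‖ ≤ 1) : fld U D j (conj v) = conj (fld U D j v) := by
  induction j generalizing v with
  | zero => simp [fld]
  | succ j ih =>
    obtain ⟨s1, s2, s3⟩ := Fld_slit (h j (Nat.lt_succ_self j)) (hv (Nat.succ_pos j))
    have e1 := log_conj _ (slitPlane_arg_ne_pi s1)
    have e2 := log_conj _ (slitPlane_arg_ne_pi s2)
    have e3 := ih (fun i hi => h i (by omega)) fun _ => s3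
    simp only [map_add, map_sub, map_mul, map_one, conj_ofReal] at e1 e2 e3
    simp only [fld, e1, e2, e3, map_sub, map_neg, map_mul, map_div₀, map_ofNat, map_one]

theorem fld_cont {α : Type} [TopologicalSpace α] {U D : α → ℕ → ℝ} {v : α → ℂ} {s : Set α}
    (h : ∀ a ∈ s, ∀ i < j, InBox (decide (0 < i)) true (U a i) (D a i))
    (hU : ∀ i < j, ContinuousOn (fun a => U a i) s) (hD : ∀ i < j, ContinuousOn (fun a => D a i) s)
    (hv : ContinuousOn v s) (hn : ∀ a ∈ s, 0 < j → ‖v a‖ ≤ 1) :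
    ContinuousOn (fun a => fld (U a) (D a) j (v a)) s := by
  induction j generalizing v with
  | zero => exact continuousOn_const
  | succ j ih =>
    have hj := fun a ha => h a ha j (Nat.lt_succ_self j)
    have hs := fun a ha => Fld_slit (hj a ha) (hn a ha (Nat.succ_pos j))
    have cU := hU j (Nat.lt_succ_self j)
    have cD := hD j (Nat.lt_succ_self j)
    have c1 := (continuousOn_const.add ((continuous_ofReal.comp_continuousOn cU).mul hv)).clog
      fun a ha => (hs a ha).1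
    have c2 := (continuousOn_const.sub ((continuous_ofReal.comp_continuousOn
      ((cU.pow 2).div cD fun a ha => (Fld_box (hj a ha)).1.ne')).mul hv)).clog
      fun a ha => (hs a ha).2.1
    have c3 := ih (fun a ha i hi => h a ha i (by omega)) (fun i hi => hU i (by omega))
      (fun i hi => hD i (by omega)) ((continuous_ofReal.comp_continuousOn (cU.mul cD)).mul hv)
      fun a ha _ => (hs a ha).2.2
    exact ((continuousOn_const.mul c1).sub (continuousOn_const.mul c2)).neg.sub c3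

theorem Box.low {g : ℕ} (h : Box g U D) (hj : j < g) :
    ∀ i < j, InBox (decide (0 < i)) true (U i) (D i) := by
  intro i hi
  have := h i (hi.trans hj)
  rwa [show decide (i + 1 < g) = true from decide_eq_true (by omega)] at this

theorem Box.upp {g : ℕ} (h : Box g U D) (hj : j < g) :
    ∀ i < g - 1 - j, InBox (decide (0 < i)) true (rev g D i) (rev g U i) := by
  intro i hi
  have := h (g - 1 - i) (by omega)
  rw [show decide (0 < g - 1 - i) = true from decide_eq_true (by omega),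
    show decide (g - 1 - i + 1 < g) = decide (0 < i) from decide_eq_decide.2 (by omega)] at this
  exact ⟨this.2, this.1⟩

end Pool.Agent.MP_92463a_gt
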