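import Pool.Agent.MP_92463a_gt.Fix
import Pool.Agent.MP_92463a_gt.Ker
import Pool.Agent.MP_92463a_gt.Cau2
import Pool.Agent.MP_92463a_gt.Tool2

open Set Complex Filter Metric
open scoped Topology ComplexConjugate ContDiff Manifold

noncomputable section

namespace Pool.Agent.MP_92463a_gt

/-- functions of growth `t ^ (N - 1)` -/
def FsA_gr (N : ℕ) : Submodule ℂ (ℂ → ℂ) where
  carrier := {f | ∃ C R : ℝ, ∀ t, R ≤ ‖t‖ → ‖f t‖ * ‖t‖ ≤ C * ‖t‖ ^ N}
  add_mem' := by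
    rintro f g ⟨C, R, a4⟩ ⟨C', R', b4⟩
    refine ⟨C + C', max R R', fun t ht => ?_⟩
    have h1 := a4 t ((le_max_left _ _).trans ht)
    have h2 := b4 t ((le_max_right _ _).trans ht)
    have h3 := mul_le_mul_of_nonneg_right (norm_add_le (f t) (g t)) (norm_nonneg t)
    simp only [Pi.add_apply]
    linarith
  zero_mem' := ⟨0, 0, fun t _ => by simp⟩
  smul_mem' := by
    rintro a f ⟨C, R, a4⟩
    refine ⟨‖a‖ * C, R, fun t ht => ?_⟩
    simp only [Pi.smul_apply, smul_eq_mul, norm_mul, mul_assoc]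
    exact mul_le_mul_of_nonneg_left (a4 t ht) (norm_nonneg a)

theorem FsA_gr_sum {κ : Type} (s : Finset κ) {N : ℕ} {q : κ → ℂ → ℂ}
    (hq : ∀ i ∈ s, q i ∈ FsA_gr N) : (fun t => ∑ i ∈ s, q i t) ∈ FsA_gr N := by
  have := Submodule.sum_mem (FsA_gr N) hq
  rwa [Finset.sum_fn] at this

theorem FsA_gr_pow {N k : ℕ} (hk : k < N) (a : ℂ) : (fun t => a * t ^ k) ∈ FsA_gr N := by
  refine ⟨‖a‖, 1, fun t ht => ?_⟩
  rw [norm_mul, norm_pow, mul_assoc, ← pow_succ]
  exact mul_le_mul_of_nonneg_left (pow_le_pow_right₀ ht hk) (norm_nonneg a)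

theorem FsA_gr_dec {N : ℕ} {q : ℂ → ℂ} {c : ℂ} {K R : ℝ} (hK : 0 ≤ K)
    (hq : ∀ t, R ≤ ‖t - c‖ → ‖q t‖ ≤ K / ‖t - c‖) : q ∈ FsA_gr N := by
  refine ⟨2 * K, max (max 1 (2 * ‖c‖)) (R + ‖c‖), fun t ht => ?_⟩
  have h1 : 1 ≤ ‖t‖ := ((le_max_left _ _).trans (le_max_left _ _)).trans ht
  have h2 : 2 * ‖c‖ ≤ ‖t‖ := ((le_max_right _ _).trans (le_max_left _ _)).trans ht
  have h3 : R + ‖c‖ ≤ ‖t‖ := (le_max_right _ _).trans ht
  have h4 := norm_sub_norm_le t c
  have h5 := (le_div_iff₀ (by linarith)).1 (hq t (by linarith))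
  have h6 : 2 * K ≤ 2 * K * ‖t‖ ^ N := le_mul_of_one_le_right (by linarith) (one_le_pow₀ h1)
  have h7 : ‖q t‖ * ‖t‖ ≤ ‖q t‖ * (2 * ‖t - c‖) :=
    mul_le_mul_of_nonneg_left (by linarith) (norm_nonneg _)
  linarith

theorem FsA_bd {g : ℂ → ℂ} {R : ℝ} (hg : ContinuousOn g {v | ‖v‖ = R}) :
    ∃ M, 0 ≤ M ∧ ∀ v, ‖v‖ = R → ‖g v‖ ≤ M := by
  have e : {v : ℂ | ‖v‖ = R} = sphere 0 R := by
    ext v
    simp
  obtain ⟨M, hM⟩ := (e ▸ isCompact_sphere (0 : ℂ) R).exists_bound_of_continuousOn hg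
  exact ⟨max M 0, le_max_right _ _, fun v hv => (hM v hv).trans (le_max_left _ _)⟩

namespace Pl

variable {ι : Type} [Fintype ι] {P : Pl ι} {m : ι × Bool → ℂ → ℂ} {r : ι × Bool → ℂ} {N : ℕ}

/-- the weighted residue -/
def wr (P : Pl ι) (m : ι × Bool → ℂ → ℂ) (f : ℂ → ℂ) (e : ι × Bool) : ℂ :=
  av (P.ρ e) fun v => m e v * f (P.c e + v) * v

/-- the sum of the principal parts -/
def FsA_T (P : Pl ι) (m : ι × Bool → ℂ → ℂ) (r α : ι × Bool → ℂ) (f : ℂ → ℂ) (t : ℂ) : ℂ :=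
  ∑ e, α e / (t - P.c e) + ∑ e, P.pk (P.k2 m r) f e t

omit [Fintype ι] in
theorem FsA_rin_lt (h : P.Ok) (e : ι × Bool) : P.rin e < P.mu e ∧ P.mu e < P.ρ e := by
  have h1 := h.rin_pos e
  have h2 := h.rin_mu e
  have h3 := h.mu_ρ e
  constructor <;> linarith

omit [Fintype ι] in
theorem FsA_loc (h : P.Ok) {f : ℂ → ℂ} (hf : DifferentiableOn ℂ f P.Om) (e : ι × Bool) :
    DifferentiableOn ℂ (fun v => f (P.c e + v)) (P.Ann2 e) :=
  hf.comp (by fun_prop) fun _ hv => h.ann2_mem hv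

omit [Fintype ι] in
theorem FsA_circ (h : P.Ok) {f : ℂ → ℂ} (hf : DifferentiableOn ℂ f P.Om) (e : ι × Bool) :
    ContinuousOn (fun v => f (P.c e + v)) {v | ‖v‖ = P.ρ e} :=
  (FsA_loc h hf e).continuousOn.mono fun _ hv => h.circ_mem hv

omit [Fintype ι] in
theorem FsA_g (h : P.Ok) (hm : P.Wt m) {f : ℂ → ℂ} (hf : DifferentiableOn ℂ f P.Om)
    (e : ι × Bool) : DifferentiableOn ℂ (fun v => m e v * f (P.c e + v) * v) (P.Ann2 e) :=
  (((hm.hol e).mono fun _ hv => mem_ball_zero_iff.2 hv.2).mul (FsA_loc h hf e)).mul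
    differentiableOn_id

omit [Fintype ι] in
theorem FsA_wr_mu (h : P.Ok) (hm : P.Wt m) {f : ℂ → ℂ} (hf : DifferentiableOn ℂ f P.Om)
    (e : ι × Bool) : av (P.mu e) (fun v => m e v * f (P.c e + v) * v) = P.wr m f e := by
  obtain ⟨h1, h2⟩ := FsA_rin_lt h e
  have h3 := h.ρ_pos e
  exact av_radius (h.rin_pos e).le (FsA_g h hm hf e) h1 (by linarith) (h1.trans h2) (by linarith)

omit [Fintype ι] in
theorem FsA_wr_op (h : P.Ok) (hm : P.Wt m) {f : ℂ → ℂ} (hf : DifferentiableOn ℂ f P.Om)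
    (e : ι × Bool) : av (P.mu e) (fun v => r e / v ^ 2 *
      (m (op e) (P.s e.1 / v) * f (P.c (op e) + P.s e.1 / v)) * v) =
      r e / P.s e.1 * P.wr m f (op e) := by
  have h0 : 0 < P.mu e := (h.rin_pos e).trans (FsA_rin_lt h e).1
  have hs := h.s_ne e.1
  have e1 : ‖P.s e.1‖ / P.mu e = P.mu (op e) := by
    rw [← h.mu_mul e, mul_div_cancel_left₀ _ h0.ne']
  rw [← FsA_wr_mu h hm hf (op e), ← av_const_mul, ← e1, ← av_inv hs h0]
  refine av_congr h0.le fun v hv => ?_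
  have hv0 : v ≠ 0 := norm_pos_iff.1 (hv ▸ h0)
  field_simp

omit [Fintype ι] in
/-- the Laurent splitting of the transported function -/
theorem FsA_laurent (h : P.Ok) (hm : P.Wt m) {f : ℂ → ℂ} (hf : DifferentiableOn ℂ f P.Om)
    (e : ι × Bool) : ∃ H : ℂ → ℂ, DifferentiableOn ℂ H (ball 0 (P.ρ e)) ∧ ∀ u ∈ P.Ann e,
      r e / u ^ 2 * (m (op e) (P.s e.1 / u) * f (P.c (op e) + P.s e.1 / u)) =
        m e u * (H u + P.pk (P.k2 m r) f e (P.c e + u) + r e / P.s e.1 * P.wr m f (op e) / u) := by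
  have hs := h.s_ne e.1
  have hρ := h.ρ_pos e
  have hρ' := h.ρ_pos (op e)
  have hi := h.rin_pos (op e)
  have e1 : ‖P.s e.1‖ / P.rin (op e) = P.ρ e := by
    have := h.rin_mul (op e)
    rw [op_op, op_fst] at this
    rw [← this, mul_div_cancel_left₀ _ hi.ne']
  have hlt : ∀ v ∈ P.Ann2 (op e), v ≠ 0 ∧ ‖P.s e.1 / v‖ < 2 * P.ρ e := fun v hv => by
    have h0 : 0 < ‖v‖ := hi.trans hv.1
    refine ⟨norm_pos_iff.1 h0, ?_⟩
    have : ‖P.s e.1‖ / ‖v‖ ≤ ‖P.s e.1‖ / P.rin (op e) :=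
      div_le_div_of_nonneg_left (norm_nonneg _) hi hv.1.le
    rw [norm_div]
    linarith
  have hd : DifferentiableOn ℂ (fun v => P.s e.1 / v) (P.Ann2 (op e)) :=
    (differentiableOn_const _).div differentiableOn_id fun v hv => (hlt v hv).1
  have hmi : DifferentiableOn ℂ (fun v => m e (P.s e.1 / v)) (P.Ann2 (op e)) :=
    (hm.hol e).comp hd fun v hv => mem_ball_zero_iff.2 (hlt v hv).2
  have hg := (FsA_g h hm hf (op e)).const_mul (r e / P.s e.1)
  have hk := hg.div hmi fun v hv => (hm.ne (hlt v hv).2).1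
  obtain ⟨h1, h2⟩ := FsA_rin_lt h (op e)
  obtain ⟨H, hH, hu⟩ := laurent (R := P.ρ (op e)) hs hi (h1.trans h2) (by linarith) hk
  rw [e1] at hH hu
  refine ⟨H, hH, fun u hu' => ?_⟩
  have hu0 := h.ann_ne hu'
  have hm0 : m e u ≠ 0 := (hm.ne (by linarith [hu'.2])).1
  have h3 := hu u hu'.1 hu'.2
  have hsub : {v : ℂ | ‖v‖ = P.ρ (op e)} ⊆ P.Ann2 (op e) := fun v hv => h.circ_mem hv
  have hne : ∀ v ∈ {v : ℂ | ‖v‖ = P.ρ (op e)}, u - P.s e.1 / v ≠ 0 := fun v hv e0 => by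
    have := h.circ_rin hv
    rw [← sub_eq_zero.1 e0] at this
    exact hu'.1.ne' this
  have c1 := (hk.continuousOn.mono hsub).div
    (continuousOn_const.sub (hd.continuousOn.mono hsub)) hne
  have c2 := (hg.continuousOn.mono hsub).const_smul u⁻¹
  have h4 := av_sub hρ'.le c1 c2
  have h5 : P.pk (P.k2 m r) f e (P.c e + u) = _ := (av_congr hρ'.le fun v hv => ?_).trans h4
  · simp only [Pi.div_apply] at h3
    rw [div_div_cancel₀ hs] at h3
    have h6 : av (P.ρ (op e)) (u⁻¹ • fun v => r e / P.s e.1 *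
        (m (op e) v * f (P.c (op e) + v) * v)) = u⁻¹ * (r e / P.s e.1 * P.wr m f (op e)) := by
      rw [wr, ← av_const_mul, ← av_const_mul]
      rfl
    rw [h5, h6]
    have h7 : ∀ x y z : ℂ, x + (y - u⁻¹ * z) + z / u = x + y := fun x y z => by ring
    rw [h7]
    erw [← h3]
    field_simp
  · have := hne v hv
    have := (hm.ne (hlt v (hsub hv)).2).1
    simp only [k2, add_sub_cancel_left, Pi.div_apply, Pi.smul_apply, smul_eq_mul, Pi.sub_apply]
    field_simp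

theorem FsA_T_hol (h : P.Ok) (hm : P.Wt m) {f : ℂ → ℂ} (α : ι × Bool → ℂ)
    (hf : ∀ e, ContinuousOn (fun v => f (P.c e + v)) {v | ‖v‖ = P.ρ e}) :
    DifferentiableOn ℂ (P.FsA_T m r α f) P.Om :=
  (DifferentiableOn.fun_sum fun e _ => (differentiableOn_const _).div (by fun_prop)
    fun t (ht : t ∈ P.Om) => norm_pos_iff.1 ((h.rin_pos e).trans (ht e))).add
    (DifferentiableOn.fun_sum fun e _ => (pk2_hol h hm (hf _)).mono fun _ ht => ht e)

theorem FsA_T_gr (h : P.Ok) (hm : P.Wt m) {f : ℂ → ℂ} (α : ι × Bool → ℂ)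
    (hf : ∀ e, ContinuousOn (fun v => f (P.c e + v)) {v | ‖v‖ = P.ρ e}) :
    P.FsA_T m r α f ∈ FsA_gr N := by
  refine add_mem (FsA_gr_sum _ fun e _ => FsA_gr_dec (c := P.c e) (R := 0) (norm_nonneg (α e))
    fun t _ => (norm_div _ _).le) (FsA_gr_sum _ fun e _ => ?_)
  obtain ⟨M, hM, hb⟩ := FsA_bd (hf (op e))
  have h1 := h.ρ_pos e
  have h2 := h.rin_pos e
  refine FsA_gr_dec (c := P.c e) (R := 2 * P.rin e)
    (K := 12 * ‖r e‖ * M * ((P.ρ e)⁻¹ + (2 * P.rin e)⁻¹)) (by positivity) fun t ht =>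
    (pk2_bd h hm hb ht).trans ?_
  gcongr

theorem FsA_T_loc (h : P.Ok) (hm : P.Wt m) {f : ℂ → ℂ} (α : ι × Bool → ℂ)
    (hf : ∀ e, ContinuousOn (fun v => f (P.c e + v)) {v | ‖v‖ = P.ρ e}) (e : ι × Bool) :
    ∃ O : ℂ → ℂ, DifferentiableOn ℂ O (ball 0 (P.ρ e)) ∧ ∀ u, P.FsA_T m r α f (P.c e + u) =
      α e / u + P.pk (P.k2 m r) f e (P.c e + u) + O u := by
  classical
  have hfar : ∀ e' ∈ Finset.univ.erase e, ∀ u ∈ ball (0 : ℂ) (P.ρ e),
      P.rin e' < ‖P.c e + u - P.c e'‖ := fun e' he' u hu => by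
    have h1 := mem_ball_zero_iff.1 hu
    have h2 := h.far (Finset.ne_of_mem_erase he').symm (v := u) (by linarith [h.ρ_pos e])
    obtain ⟨h3, h4⟩ := FsA_rin_lt h e'
    linarith [h.ρ_pos e']
  refine ⟨fun u => ∑ e' ∈ Finset.univ.erase e, α e' / (P.c e + u - P.c e') +
    ∑ e' ∈ Finset.univ.erase e, P.pk (P.k2 m r) f e' (P.c e + u), ?_, fun u => ?_⟩
  · exact (DifferentiableOn.fun_sum fun e' he' => (differentiableOn_const _).div (by fun_prop)
      fun u hu => norm_pos_iff.1 ((h.rin_pos e').trans (hfar e' he' u hu))).add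
      (DifferentiableOn.fun_sum fun e' he' => (pk2_hol h hm (hf _)).comp (by fun_prop)
        fun u hu => hfar e' he' u hu)
  · rw [FsA_T, ← Finset.add_sum_erase _ _ (Finset.mem_univ e),
      ← Finset.add_sum_erase _ (fun e' => P.pk (P.k2 m r) f e' (P.c e + u)) (Finset.mem_univ e),
      add_sub_cancel_left]
    ring

theorem fs_rep (h : P.Ok) (hm : P.Wt m) {f : ℂ → ℂ} (hf : f ∈ P.Fs m r N) :
    (∀ e, P.wr m f e = r e / P.s e.1 * P.wr m f (op e)) ∧
    ∃ a : ℕ → ℂ, ∀ t ∈ P.Om, f t = ∑ k ∈ Finset.range N, a k * t ^ k +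
      ∑ e, P.wr m f e / (t - P.c e) + ∑ e, P.pk (P.k2 m r) f e t := by
  obtain ⟨hd, -, hM, hg⟩ := hf
  have hw : ∀ e, P.wr m f e = r e / P.s e.1 * P.wr m f (op e) := fun e => by
    rw [← FsA_wr_op h hm hd e, ← FsA_wr_mu h hm hd e]
    obtain ⟨h1, h2⟩ := FsA_rin_lt h e
    refine av_congr ((h.rin_pos e).trans h1).le fun v hv => ?_
    rw [hM e v ⟨hv ▸ h1, hv ▸ h2⟩]
  refine ⟨hw, ?_⟩
  have hc := FsA_circ h hd
  choose H hH eH using FsA_laurent (r := r) h hm hd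
  choose O hO eO using FsA_T_loc (r := r) h hm (P.wr m f) hc
  obtain ⟨F, hF, eF⟩ := fill_discs (V := univ) isOpen_univ (c := P.c) (r := P.rin) (ρ := P.ρ)
    (fun e => (FsA_rin_lt h e).1.trans (FsA_rin_lt h e).2)
    (fun e e' hne => by linarith [h.sep e e' hne, h.ρ_pos e, h.ρ_pos e'])
    (f := fun t => f t - P.FsA_T m r (P.wr m f) f t)
    ((hd.sub (FsA_T_hol h hm _ hc)).mono inter_subset_right) (h := fun e u => H e u - O e u)
    (fun e => (hH e).sub (hO e)) fun e v h1 h2 _ => by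
      have h3 := (hM e v ⟨h1, h2⟩).trans (eH e v ⟨h1, h2⟩)
      have h4 := mul_left_cancel₀ (hm.ne (e := e) (by linarith [h.ρ_pos e])).1 h3
      rw [eO, h4, ← hw]
      ring
  obtain ⟨C, R, hC⟩ := sub_mem (show f ∈ FsA_gr N from hg) (FsA_T_gr (r := r) h hm (P.wr m f) hc)
  obtain ⟨R', hR'⟩ := om_far (P := P)
  obtain ⟨a, ha⟩ := poly_growth (differentiableOn_univ.1 hF) N (C := C) (r := max R (R' + 1))
    fun z hz => by
      rw [eF z trivial (hR' z (by linarith [le_max_right R (R' + 1)])).2]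
      exact hC z ((le_max_left _ _).trans hz)
  refine ⟨a, fun t ht => ?_⟩
  rw [← ha, eF t trivial ht, FsA_T]
  ring

/-- a solution of the fixed point equation is matched -/
theorem FsA_match (h : P.Ok) (hm : P.Wt m) (hrr : ∀ e, r e * r (op e) = P.s e.1 ^ 2)
    {α : ι × Bool → ℂ} (hα : ∀ e, α e = r e / P.s e.1 * α (op e)) {f Q : ℂ → ℂ}
    (hd : DifferentiableOn ℂ f P.Om) (hQ : Differentiable ℂ Q)
    (hf : ∀ t ∈ P.Om, f t = Q t + P.FsA_T m r α f t) :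
    (∀ e, P.wr m f e = α e) ∧ P.Mt 2 m r f := by
  have hc := FsA_circ h hd
  choose H hH eH using FsA_laurent (r := r) h hm hd
  choose O hO eO using FsA_T_loc (r := r) h hm α hc
  have hmb : ∀ e, DifferentiableOn ℂ (m e) (ball 0 (P.ρ e)) := fun e =>
    (hm.hol e).mono (ball_subset_ball (by linarith [h.ρ_pos e]))
  have hE : ∀ e, DifferentiableOn ℂ (fun u => Q (P.c e + u) + O e u - H e u) (ball 0 (P.ρ e)) :=
    fun e => (DifferentiableOn.add (by fun_prop) (hO e)).sub (hH e)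
  have hD : ∀ e, ∀ u ∈ P.Ann e, m e u * f (P.c e + u) -
      r e / u ^ 2 * (m (op e) (P.s e.1 / u) * f (P.c (op e) + P.s e.1 / u)) =
      m e u * (Q (P.c e + u) + O e u - H e u) +
        m e u * (α e - r e / P.s e.1 * P.wr m f (op e)) / u := fun e u hu => by
    rw [eH e u hu, hf _ (h.ann2_mem (h.ann_sub e hu)), eO]
    ring
  have hw : ∀ e, P.wr m f e = α e := fun e => by
    obtain ⟨h1, h2⟩ := FsA_rin_lt h e
    have h0 := (h.rin_pos e).trans h1
    have hsub : {v : ℂ | ‖v‖ = P.mu e} ⊆ P.Ann e := fun v hv =>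
      ⟨(show ‖v‖ = P.mu e from hv) ▸ h1, (show ‖v‖ = P.mu e from hv) ▸ h2⟩
    have hb := (((hmb e).mul (hE e)).mul differentiableOn_id).add
      ((hmb e).mul_const (α e - r e / P.s e.1 * P.wr m f (op e)))
    have c1 := (FsA_g h hm hd e).continuousOn.mono (hsub.trans (h.ann_sub e))
    have c2 := hb.continuousOn.mono fun v hv => mem_ball_zero_iff.2 (hsub hv).2
    have h3 := av_sub h0.le c1 c2
    rw [FsA_wr_mu h hm hd, av_center h0.le h2 hb] at h3
    have h4 := (FsA_wr_op (r := r) h hm hd e).symm.trans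
      ((av_congr h0.le fun v hv => ?_).trans h3)
    · simp only [Pi.add_apply, Pi.mul_apply, id, hm.zero] at h4
      linear_combination -h4
    · have h5 := hD e v (hsub hv)
      have h6 := h.ann_ne (hsub hv)
      simp only [Pi.add_apply, Pi.mul_apply, id]
      rw [← sub_eq_zero] at h5 ⊢
      rw [← neg_eq_zero, ← mul_eq_zero_iff_right h6] at h5
      rw [← h5]
      field_simp
      ring
  refine ⟨hw, fun e v hv => ?_⟩
  have hD' : ∀ e, ∀ u ∈ P.Ann e, m e u * (Q (P.c e + u) + O e u - H e u) = m e u * f (P.c e + u) -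
      r e / u ^ 2 * (m (op e) (P.s e.1 / u) * f (P.c (op e) + P.s e.1 / u)) := fun e u hu => by
    rw [hD e u hu, hw, ← hα, sub_self, mul_zero, zero_div, add_zero]
  have hs := h.s_ne e.1
  have h1 := liouville_glue (a := -r e) two_pos (h.ρ_pos (op e)) hs
    (by linarith [h.s_small e, norm_pos_iff.2 hs]) ((hmb e).mul (hE e))
    ((hmb (op e)).mul (hE (op e))) (fun u h1 h2 => ?_) v (mem_ball_zero_iff.2 hv.2)
  · exact sub_eq_zero.1 ((hD' e v hv).symm.trans h1)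
  · have hu : u ∈ P.Ann e := ⟨h1, h2⟩
    have hu0 := h.ann_ne hu
    have e1 : r (op e) / (P.s e.1 / u) ^ 2 * (r e / u ^ 2) = 1 := by
      field_simp
      linear_combination hrr e
    simp only [Pi.mul_apply]
    rw [hD' e u hu, hD' _ _ (h.ann_op hu), op_op, op_fst, div_div_cancel₀ hs]
    linear_combination -(m e u * f (P.c e + u)) * e1

theorem fs_ex (h : P.Ok) (hm : P.Wt m) (hr : P.Con2 r)
    (hrr : ∀ e, r e * r (op e) = P.s e.1 ^ 2) (a : ℕ → ℂ) {α : ι × Bool → ℂ}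
    (hα : ∀ e, α e = r e / P.s e.1 * α (op e)) :
    ∃ f ∈ P.Fs m r N, (∀ e, P.wr m f e = α e) ∧
      ∀ t ∈ P.Om, f t = ∑ k ∈ Finset.range N, a k * t ^ k +
        ∑ e, α e / (t - P.c e) + ∑ e, P.pk (P.k2 m r) f e t := by
  classical
  set Q : ℂ → ℂ := fun t => ∑ k ∈ Finset.range N, a k * t ^ k with hQ
  have hQd : Differentiable ℂ Q := by
    rw [hQ]
    fun_prop
  have hFd : DifferentiableOn ℂ (fun t => Q t + ∑ e, α e / (t - P.c e)) P.Om :=
    hQd.differentiableOn.add (DifferentiableOn.fun_sum fun e _ => (differentiableOn_const _).div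
      (by fun_prop) fun t ht => norm_pos_iff.1 ((h.rin_pos e).trans (ht e)))
  choose M hM bM using fun e => FsA_bd (FsA_circ h hFd e)
  have hF : P.FB (fun t => Q t + ∑ e, α e / (t - P.c e)) (∑ e, M e) fun _ => 1 := fun e =>
    ⟨FsA_circ h hFd e, fun v hv => (bM e v hv).trans ((Finset.single_le_sum (fun i _ => hM i)
      (Finset.mem_univ e)).trans (mul_one _).ge)⟩
  have hk := k2_kb h hm hr
  have hc := fun e => (psi_fb h hk hF e).1
  have he := psi_eq h hk hF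
  generalize P.psi (P.k2 m r) (fun t => Q t + ∑ e, α e / (t - P.c e)) = ψ at hc he
  have he' : ψ = Q + P.FsA_T m r α ψ := funext fun t => (he t).trans (add_assoc _ _ _)
  have hT : P.FsA_T m r α (P.Om.indicator ψ) = P.FsA_T m r α ψ := funext fun t => by
    refine congrArg _ (Finset.sum_congr rfl fun e _ => av_congr (h.ρ_pos _).le fun v hv => ?_)
    rw [indicator_of_mem (h.ann2_mem (h.circ_mem hv))]
  have hψ : DifferentiableOn ℂ ψ P.Om := by
    rw [he']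
    exact hQd.differentiableOn.add (FsA_T_hol h hm α hc)
  have hd : DifferentiableOn ℂ (P.Om.indicator ψ) P.Om := hψ.congr fun t ht => indicator_of_mem ht _
  have hf : ∀ t ∈ P.Om, P.Om.indicator ψ t = Q t + P.FsA_T m r α (P.Om.indicator ψ) t :=
    fun t ht => by rw [hT, indicator_of_mem ht]; exact congrFun he' t
  obtain ⟨h1, h2⟩ := FsA_match h hm hrr hα hd hQd hf
  obtain ⟨C, R, hC⟩ : ψ ∈ FsA_gr N := by
    rw [he']
    exact add_mem (FsA_gr_sum _ fun k hk => FsA_gr_pow (Finset.mem_range.1 hk) _)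
      (FsA_T_gr h hm α hc)
  exact ⟨_, ⟨hd, fun t ht => indicator_of_notMem ht _, h2, C, R, fun t ht =>
    (mul_le_mul_of_nonneg_right (norm_indicator_le_norm_self _ _) (norm_nonneg _)).trans
      (hC t ht)⟩, h1, fun t ht => (hf t ht).trans (add_assoc _ _ _).symm⟩

end Pl

end Pool.Agent.MP_92463a_gt
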