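import Pool.Agent.MP_92463a_gt.FsA

open Set Complex Filter Metric
open scoped Topology ComplexConjugate ContDiff Manifold

noncomputable section

namespace Pool.Agent.MP_92463a_gt

namespace Pl

variable {ι : Type} [Fintype ι] {P : Pl ι} {m : ι × Bool → ℂ → ℂ} {r : ι × Bool → ℂ}

omit [Fintype ι] in
theorem FsB_cont (h : P.Ok) {N : ℕ} {f : ℂ → ℂ} (hf : f ∈ P.Fs m r N) (e : ι × Bool) :
    ContinuousOn (fun v => f (P.c e + v)) {v | ‖v‖ = P.ρ e} :=
  hf.1.continuousOn.comp (by fun_prop) fun _ hv => h.ann2_mem (h.circ_mem hv)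

omit [Fintype ι] in
theorem FsB_mcont (h : P.Ok) (hm : P.Wt m) (e : ι × Bool) :
    ContinuousOn (m e) {v | ‖v‖ = P.ρ e} :=
  (hm.hol e).continuousOn.mono fun _ hv => mem_ball_zero_iff.2 (h.circ_mem hv).2

/-- the weighted residue as a linear form -/
def FsB_wr (h : P.Ok) (hm : P.Wt m) (r : ι × Bool → ℂ) (N : ℕ) (e : ι × Bool) :
    P.Fs m r N →ₗ[ℂ] ℂ where
  toFun f := P.wr m f e
  map_add' f g := by
    have h1 := ((FsB_mcont h hm e).mul (FsB_cont h f.2 e)).mul continuousOn_id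
    have h2 := ((FsB_mcont h hm e).mul (FsB_cont h g.2 e)).mul continuousOn_id
    refine Eq.trans ?_ (av_add (h.ρ_pos e).le h1 h2)
    refine av_congr (h.ρ_pos e).le fun v _ => ?_
    simp only [Submodule.coe_add, Pi.add_apply]
    ring
  map_smul' a f := by
    refine Eq.trans ?_ (av_const_mul a)
    refine av_congr (h.ρ_pos e).le fun v _ => ?_
    simp only [Submodule.coe_smul, Pi.smul_apply, smul_eq_mul]
    ring

/-- the principal part as a linear form -/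
def FsB_pk (h : P.Ok) (hm : P.Wt m) (hr : P.Con2 r) (N : ℕ) (e : ι × Bool) (t : P.Om) :
    P.Fs m r N →ₗ[ℂ] ℂ where
  toFun f := P.pk (P.k2 m r) f e t
  map_add' f g := by
    have h0 : ContinuousOn (fun v => P.k2 m r e v (t - P.c e)) {v | ‖v‖ = P.ρ (op e)} :=
      ((k2_kb h hm hr).cont e).comp (f := fun v => (v, (t : ℂ) - P.c e)) (by fun_prop)
        fun v hv => ⟨hv, t.2 e⟩
    have h1 := h0.mul (FsB_cont h f.2 (op e))
    have h2 := h0.mul (FsB_cont h g.2 (op e))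
    refine Eq.trans ?_ (av_add (h.ρ_pos _).le h1 h2)
    refine av_congr (h.ρ_pos _).le fun v _ => ?_
    simp only [Submodule.coe_add, Pi.add_apply]
    ring
  map_smul' a f := by
    refine Eq.trans ?_ (av_const_mul a)
    refine av_congr (h.ρ_pos _).le fun v _ => ?_
    simp only [Submodule.coe_smul, Pi.smul_apply, smul_eq_mul]
    ring

/-- the polynomial part and the free residues -/
def FsB_T (h : P.Ok) (hm : P.Wt m) (hr : P.Con2 r) (N : ℕ) :
    P.Fs m r N →ₗ[ℂ] (P.Om → ℂ) × (ι → ℂ) :=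
  LinearMap.prod
    (LinearMap.pi fun t => (LinearMap.proj (t : ℂ)).comp (P.Fs m r N).subtype -
      ∑ e, ((t : ℂ) - P.c e)⁻¹ • FsB_wr h hm r N e - ∑ e, FsB_pk h hm hr N e t)
    (LinearMap.pi fun k => FsB_wr h hm r N (k, false))

theorem FsB_T_apply (h : P.Ok) (hm : P.Wt m) (hr : P.Con2 r) (N : ℕ) (f : P.Fs m r N) :
    FsB_T h hm hr N f = (fun t : P.Om => (f : ℂ → ℂ) t - ∑ e, P.wr m f e / ((t : ℂ) - P.c e) -
      ∑ e, P.pk (P.k2 m r) f e t, fun k => P.wr m f (k, false)) := by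
  refine Prod.ext (funext fun t => ?_) rfl
  simp only [FsB_T, LinearMap.prod_apply, Function.prod, LinearMap.pi_apply, LinearMap.sub_apply,
    LinearMap.sum_apply, LinearMap.smul_apply, smul_eq_mul, div_eq_inv_mul]
  rfl

/-- polynomials of degree `< N` as functions on the domain -/
def FsB_Q (P : Pl ι) (N : ℕ) : (Fin N → ℂ) →ₗ[ℂ] (P.Om → ℂ) :=
  LinearMap.pi fun t => ∑ k : Fin N, ((t : ℂ) ^ (k : ℕ)) • LinearMap.proj k

omit [Fintype ι] in
theorem FsB_Q_apply (N : ℕ) (a : Fin N → ℂ) (t : P.Om) :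
    FsB_Q P N a t = ∑ k : Fin N, a k * (t : ℂ) ^ (k : ℕ) := by
  simp [FsB_Q, mul_comm]

theorem FsB_inf : P.Om.Infinite := by
  obtain ⟨R, hR⟩ := om_far (P := P)
  refine (infinite_of_injective_forall_mem (f := fun n : ℕ => ((|R| + 1 + n : ℝ) : ℂ))
    (fun a b e => ?_) fun n => (hR _ ?_).2)
  · simpa using e
  · rw [norm_real, Real.norm_of_nonneg (by positivity)]
    linarith [le_abs_self R, Nat.cast_nonneg (α := ℝ) n]

theorem FsB_Q_inj (N : ℕ) : Function.Injective (FsB_Q P N) := by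
  rw [injective_iff_map_eq_zero]
  intro a ha
  have h2 : ∑ k : Fin N, Polynomial.monomial (k : ℕ) (a k) = 0 := by
    refine Polynomial.eq_zero_of_infinite_isRoot _ ((FsB_inf (P := P)).mono fun t ht => ?_)
    have := congrFun ha ⟨t, ht⟩
    rw [FsB_Q_apply] at this
    simpa [Polynomial.eval_finsetSum] using this
  funext k
  have h3 := congrArg (Polynomial.coeff · k) h2
  simpa [Polynomial.coeff_monomial, Fin.val_inj] using h3

theorem FsB_T_inj (h : P.Ok) (hm : P.Wt m) (hr : P.Con2 r) (N : ℕ) :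
    Function.Injective (FsB_T h hm hr N) := by
  rw [injective_iff_map_eq_zero]
  intro f hf
  rw [FsB_T_apply, Prod.mk_eq_zero] at hf
  have h1 : ∀ e, P.wr m f e = 0 := by
    rintro ⟨k, _ | _⟩
    · exact congrFun hf.2 k
    · rw [(fs_rep h hm f.2).1]
      exact mul_eq_zero_of_right _ (congrFun hf.2 k)
  have h2 : ∀ t ∈ P.Om, (f : ℂ → ℂ) t = ∑ e, P.pk (P.k2 m r) f e t := fun t ht => by
    have := congrFun hf.1 ⟨t, ht⟩
    simpa [h1, sub_eq_zero] using this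
  have h3 : P.FB (fun _ => 0) 0 fun _ => 1 := fun e => ⟨continuousOn_const, fun v _ => by simp⟩
  have h4 : ∀ e v, ‖v‖ = P.ρ e → (f : ℂ → ℂ) (P.c e + v) = 0 := fun e v hv => by
    rw [psi_uniq h (k2_kb h hm hr) h3 (FsB_cont h f.2)
      (fun e v hv => by rw [zero_add, h2 _ (h.ann2_mem (h.circ_mem hv))]) e v hv]
    simpa using (psi_fb h (k2_kb h hm hr) h3 e).2 v hv
  refine Subtype.ext (funext fun t => ?_)
  by_cases ht : t ∈ P.Om
  · rw [h2 t ht]
    refine Finset.sum_eq_zero fun e _ => Eq.trans ?_ (av_const (R := P.ρ (op e)) 0)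
    exact av_congr (h.ρ_pos _).le fun v hv => by rw [h4 _ v hv, mul_zero]
  · exact f.2.2.1 t ht

theorem FsB_range (h : P.Ok) (hm : P.Wt m) (hr : P.Con2 r)
    (hrr : ∀ e, r e * r (op e) = P.s e.1 ^ 2) (N : ℕ) :
    LinearMap.range (FsB_T h hm hr N) =
      LinearMap.range ((FsB_Q P N).prodMap (LinearMap.id : (ι → ℂ) →ₗ[ℂ] (ι → ℂ))) := by
  apply le_antisymm
  · rintro _ ⟨f, rfl⟩
    obtain ⟨a, ha⟩ := (fs_rep h hm f.2).2
    refine ⟨(fun k => a k, fun k => P.wr m f (k, false)), ?_⟩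
    rw [FsB_T_apply]
    refine Prod.ext (funext fun t => ?_) rfl
    change FsB_Q P N (fun k => a k) t = _
    rw [FsB_Q_apply, Fin.sum_univ_eq_sum_range (fun k => a k * (t : ℂ) ^ k)]
    simp only [ha t t.2]
    ring
  · rintro _ ⟨⟨a, β⟩, rfl⟩
    obtain ⟨f, hf, h1, h2⟩ := fs_ex (N := N) h hm hr hrr
      (fun k => if hk : k < N then a ⟨k, hk⟩ else 0)
      (α := fun e => if e.2 then r e / P.s e.1 * β e.1 else β e.1) (by
        rintro ⟨k, _ | _⟩
        · have h1 := hrr (k, false)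
          have h2 := h.s_ne k
          simp only [op, Bool.not_false, Bool.false_eq_true, if_false, if_true] at h1 ⊢
          field_simp
          rw [← h1, mul_assoc]
        · simp [op])
    refine ⟨⟨f, hf⟩, ?_⟩
    rw [FsB_T_apply]
    refine Prod.ext (funext fun t => ?_) (funext fun k => by simp [h1])
    change _ = FsB_Q P N a t
    rw [FsB_Q_apply]
    simp only [h1, h2 t t.2, ← Fin.sum_univ_eq_sum_range (fun k =>
      (if hk : k < N then a ⟨k, hk⟩ else 0) * (t : ℂ) ^ k), Fin.is_lt, dif_pos]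
    ring

theorem fs_finrank (h : P.Ok) (hm : P.Wt m) (hr : P.Con2 r)
    (hrr : ∀ e, r e * r (op e) = P.s e.1 ^ 2) (N : ℕ) :
    Module.Finite ℂ (P.Fs m r N) ∧ Module.finrank ℂ (P.Fs m r N) = N + Fintype.card ι := by
  have hQ : Function.Injective
      ((FsB_Q P N).prodMap (LinearMap.id : (ι → ℂ) →ₗ[ℂ] (ι → ℂ))) :=
    (FsB_Q_inj N).prodMap Function.injective_id
  have E := (LinearEquiv.ofInjective _ hQ).trans ((LinearEquiv.ofEq _ _
    (FsB_range h hm hr hrr N).symm).trans (LinearEquiv.ofInjective _ (FsB_T_inj h hm hr N)).symm)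
  refine ⟨Module.Finite.equiv E, ?_⟩
  rw [← E.finrank_eq, Module.finrank_prod, Module.finrank_fin_fun,
    Module.finrank_fintype_fun_eq_card]

theorem FsB_diff {u w : ℂ} {T : ℝ} (hT : 0 < T) (h1 : T ≤ ‖u‖) (h2 : T ≤ ‖u - w‖) :
    ‖(u - w)⁻¹ - u⁻¹‖ ≤ ‖w‖ / T ^ 2 := by
  have hu : u ≠ 0 := norm_pos_iff.1 (hT.trans_le h1)
  have hw : u - w ≠ 0 := norm_pos_iff.1 (hT.trans_le h2)
  have e : (u - w)⁻¹ - u⁻¹ = w / (u * (u - w)) := by
    field_simp
    ring
  rw [e, norm_div, norm_mul, sq]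
  gcongr

theorem fs_decay (h : P.Ok) {f : ℂ → ℂ} (hf : f ∈ P.Fs (fun _ _ => 1) (fun e => -P.s e.1) 0) :
    ∃ C R : ℝ, ∀ t, R ≤ ‖t‖ → ‖f t‖ * ‖t‖ ^ 2 ≤ C := by
  obtain ⟨h1, a, h2⟩ := fs_rep h wt_one hf
  set w := P.wr (fun _ _ => 1) f
  have h3 : ∑ e, w e = 0 := by
    have e1 : ∑ e, w (op e) = ∑ e, w e :=
      Equiv.sum_comp (Function.Involutive.toPerm op op_op) w
    have e2 : ∑ e, w e = -∑ e, w (op e) := by
      rw [← Finset.sum_neg_distrib]
      refine Finset.sum_congr rfl fun e _ => ?_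
      rw [h1 e, neg_div, div_self (h.s_ne _), neg_one_mul]
    linear_combination (e2 - e1) / 2
  have h4 : ∀ e, ∃ M : ℝ, ∀ v, ‖v‖ = P.ρ e → ‖f (P.c e + v)‖ ≤ M := fun e => by
    obtain ⟨M, hM⟩ := (isCompact_sphere (0 : ℂ) (P.ρ e)).exists_bound_of_continuousOn
      ((FsB_cont h hf e).mono fun v hv => mem_sphere_zero_iff_norm.1 hv)
    exact ⟨M, fun v hv => hM v (mem_sphere_zero_iff_norm.2 hv)⟩
  choose M hM using h4
  obtain ⟨R, hR⟩ := om_far (P := P)
  refine ⟨∑ e, (‖w e‖ * ‖P.c e‖ + P.ρ (op e) * P.rin e * M (op e)) * 4,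
    |R| + 1 + 2 * ∑ e, (‖P.c e‖ + P.rin e), fun t ht => ?_⟩
  have h5 : ∀ e, 0 ≤ ‖P.c e‖ + P.rin e := fun e => add_nonneg (norm_nonneg _) (h.rin_pos e).le
  have h6 : ∀ e, ‖P.c e‖ + P.rin e ≤ ∑ e, (‖P.c e‖ + P.rin e) := fun e =>
    Finset.single_le_sum (fun e _ => h5 e) (Finset.mem_univ e)
  have h7 : 0 ≤ ∑ e, (‖P.c e‖ + P.rin e) := Finset.sum_nonneg fun e _ => h5 e
  have h8 : 0 < ‖t‖ / 2 := by linarith [abs_nonneg R]
  have h9 : f t = ∑ e, (w e * ((t - P.c e)⁻¹ - t⁻¹) +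
      P.pk (P.k2 (fun _ _ => 1) fun e => -P.s e.1) f e t) := by
    rw [h2 t (hR t (by linarith [le_abs_self R])).2]
    simp only [Finset.sum_add_distrib, mul_sub, Finset.sum_sub_distrib, ← Finset.sum_mul, h3,
      Finset.sum_range_zero, div_eq_mul_inv]
    ring
  rw [h9]
  refine (mul_le_mul_of_nonneg_right (norm_sum_le _ _) (by positivity)).trans ?_
  rw [Finset.sum_mul]
  refine Finset.sum_le_sum fun e _ => ?_
  have g0 := h6 e
  have g1 := h.rin_pos e
  have g2 : ‖t‖ - ‖P.c e‖ ≤ ‖t - P.c e‖ := norm_sub_norm_le _ _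
  have g3 := norm_nonneg (P.c e)
  have g4 := abs_nonneg R
  have b1 : ‖w e * ((t - P.c e)⁻¹ - t⁻¹)‖ ≤ ‖w e‖ * (‖P.c e‖ / (‖t‖ / 2) ^ 2) := by
    rw [norm_mul]
    exact mul_le_mul_of_nonneg_left (FsB_diff h8 (by linarith) (by linarith)) (norm_nonneg _)
  have b2 : ‖P.pk (P.k2 (fun _ _ => 1) fun e => -P.s e.1) f e t‖ ≤
      P.ρ (op e) * (P.rin e / (‖t‖ / 2) ^ 2) * M (op e) := by
    refine av_norm_le (h.ρ_pos _).le fun v hv => ?_
    have g5 := h.circ_rin hv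
    have g6 : ‖t - P.c e‖ - ‖P.s e.1 / v‖ ≤ ‖t - P.c e - P.s e.1 / v‖ := norm_sub_norm_le _ _
    have g7 := FsB_diff (u := t - P.c e) (w := P.s e.1 / v) h8 (by linarith) (by linarith)
    rw [g5] at g7
    simp only [k2, neg_div, div_self (h.s_ne _), one_mul, mul_one, norm_mul, norm_neg, norm_one, hv]
    have g8 := (h.ρ_pos (op e)).le
    exact mul_le_mul (mul_le_mul_of_nonneg_left g7 g8) (hM _ v hv) (norm_nonneg _) (by positivity)
  refine (mul_le_mul_of_nonneg_right ((norm_add_le _ _).trans (add_le_add b1 b2))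
    (by positivity)).trans (le_of_eq ?_)
  have : ‖t‖ ≠ 0 := by linarith
  field_simp
  ring

end Pl

end Pool.Agent.MP_92463a_gt
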