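import Pool.Agent.MP_92463a_gt.Mfd

open Set Complex Filter Metric
open scoped Topology ComplexConjugate ContDiff Manifold

noncomputable section

namespace Pool.Agent.MP_92463a_gt

namespace Dat

variable {D : Dat}

/-- `om` is the form `(∑ c k t ^ k) dt / y` -/
def Atl.Rep (A : D.Atl) (c : ℕ → ℂ) (om : D.N → ℂ → ℂ) : Prop :=
  ∀ z, ∀ w ∈ ball (0 : ℂ) (A.δ z), D.yy ((A.ch z).symm w) ≠ 0 →
    om z w = (∑ k ∈ Finset.range ((D.p + D.q) / 2), c k * D.tt ((A.ch z).symm w) ^ k) *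
      deriv (fun v => D.tt ((A.ch z).symm v)) w / D.yy ((A.ch z).symm w)

theorem Gen1_symm (A : D.Atl) (z : D.N) : (A.ch z).symm 0 = z := by
  rw [← A.ctr z, (A.ch z).left_inv (A.mem z)]

theorem Gen1_zero (A : D.Atl) (z : D.N) : (0 : ℂ) ∈ ball (0 : ℂ) (A.δ z) := by
  have := (A.ch z).map_source (A.mem z)
  rwa [A.ctr, A.tgt] at this

theorem Gen1_sq {h : ℂ → ℂ} {δ : ℝ} (H : DifferentiableOn ℂ h (ball 0 (δ ^ 2))) :
    DifferentiableOn ℂ (fun w => h (w ^ 2)) (ball 0 δ) :=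
  H.comp (differentiable_pow 2).differentiableOn fun _ hw => sq_mem_ball hw

theorem Gen1_loc (hD : D.Ok) (A : D.Atl) (c : ℕ → ℂ) (z : D.N) :
    ∃ F : ℂ → ℂ, DifferentiableOn ℂ F (ball 0 (A.δ z)) ∧
      ∀ w ∈ ball (0 : ℂ) (A.δ z), D.yy ((A.ch z).symm w) ≠ 0 →
        F w = (∑ k ∈ Finset.range ((D.p + D.q) / 2), c k * D.tt ((A.ch z).symm w) ^ k) *
          deriv (fun v => D.tt ((A.ch z).symm v)) w / D.yy ((A.ch z).symm w) := by
  obtain ⟨g, hg⟩ := hD.par
  have hg' : (D.p + D.q) / 2 = g := by omega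
  rw [hg']
  rcases A.kind z with ⟨t₀, h, H, e⟩ | ⟨x₀, h, H, e⟩ | ⟨h, H, e0, e⟩
  · refine ⟨fun w => (∑ k ∈ Finset.range g, c k * (t₀ + w) ^ k) / h w,
      DifferentiableOn.div (by fun_prop) H.hol H.ne, fun w hw _ => ?_⟩
    have h1 : (fun v => D.tt ((A.ch z).symm v)) =ᶠ[𝓝 w] fun v => t₀ + v := by
      filter_upwards [isOpen_ball.mem_nhds hw] with v hv
      rw [e v hv, tt_pt (H.sq v hv)]
    rw [h1.deriv_eq, ((hasDerivAt_id' w).const_add t₀).deriv, e w hw, tt_pt (H.sq w hw),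
      yy_pt (H.sq w hw), mul_one]
  · refine ⟨fun w => (∑ k ∈ Finset.range g, c k * (x₀ + w ^ 2) ^ k) * 2 / h (w ^ 2),
      DifferentiableOn.div (by fun_prop) (Gen1_sq H.hol) fun w hw => H.ne _ (sq_mem_ball hw),
      fun w hw h0 => ?_⟩
    have h1 : (fun v => D.tt ((A.ch z).symm v)) =ᶠ[𝓝 w] fun v => x₀ + v ^ 2 := by
      filter_upwards [isOpen_ball.mem_nhds hw] with v hv
      rw [e v hv, tt_pt (H.on hv).1]
    rw [e w hw, yy_pt (H.on hw).1] at h0
    rw [h1.deriv_eq, ((hasDerivAt_pow 2 w).const_add x₀).deriv, e w hw, tt_pt (H.on hw).1,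
      yy_pt (H.on hw).1]
    have h2 := left_ne_zero_of_mul h0
    have h3 := right_ne_zero_of_mul h0
    simp only [Nat.cast_ofNat, Nat.add_one_sub_one, pow_one]
    field_simp
  · refine ⟨fun w => (∑ k ∈ Finset.range g, c k * (w ^ 2) ^ (g - 1 - k)) * (-2) / h (w ^ 2),
      DifferentiableOn.div (by fun_prop) (Gen1_sq H.hol) fun w hw => H.ne _ (sq_mem_ball hw),
      fun w hw h0 => ?_⟩
    have h2 : w ≠ 0 := by
      rintro rfl
      exact h0 (by rw [e0, yy_infty])
    have h1 : (fun v => D.tt ((A.ch z).symm v)) =ᶠ[𝓝 w] fun v => (v ^ 2)⁻¹ := by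
      filter_upwards [isOpen_ball.mem_nhds hw, isOpen_ne.mem_nhds h2] with v hv hv'
      rw [e v hv hv', tt_pt (H.on hv hv').1]
    rw [h1.deriv_eq, ((hasDerivAt_pow 2 w).fun_inv (pow_ne_zero 2 h2)).deriv, e w hw h2,
      tt_pt (H.on hw h2).1, yy_pt (H.on hw h2).1, hg]
    have h3 := H.ne _ (sq_mem_ball hw)
    simp only [Finset.sum_mul, Finset.sum_div]
    refine Finset.sum_congr rfl fun k hk => ?_
    obtain ⟨j, rfl⟩ := Nat.exists_eq_add_of_lt (Finset.mem_range.1 hk)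
    rw [show k + j + 1 - 1 - k = j by omega]
    simp only [Nat.cast_ofNat, Nat.add_one_sub_one, pow_one, inv_pow]
    field_simp
    ring

theorem Atl.exists_form (hD : D.Ok) (A : D.Atl) (c : ℕ → ℂ) :
    letI := A.charted
    ∃ om ∈ holForms D.N, A.Rep c om := by
  let := A.charted
  choose F hF hR using Gen1_loc hD A c
  refine ⟨fun z => (ball 0 (A.δ z)).indicator (F z), ⟨fun x => ?_, fun x w hw => ?_,
    fun x y q hq => ?_⟩, fun z w hw h0 => ?_⟩
  · change DifferentiableOn ℂ _ (A.ch x).target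
    rw [A.tgt]
    exact (hF x).congr fun w hw => indicator_of_mem hw _
  · change w ∉ (A.ch x).target at hw
    rw [A.tgt] at hw
    exact indicator_of_notMem hw _
  · obtain ⟨hx, hy⟩ : q ∈ (A.ch x).source ∧ q ∈ (A.ch y).source := hq
    change (ball 0 (A.δ x)).indicator (F x) (A.ch x q) =
      (ball 0 (A.δ y)).indicator (F y) (A.ch y q) * deriv (A.ch y ∘ (A.ch x).symm) (A.ch x q)
    have bx : A.ch x q ∈ ball (0 : ℂ) (A.δ x) := A.tgt x ▸ (A.ch x).map_source hx
    have b2 : A.ch y q ∈ ball (0 : ℂ) (A.δ y) := A.tgt y ▸ (A.ch y).map_source hy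
    have ex := (A.ch x).left_inv hx
    have ey := (A.ch y).left_inv hy
    rw [indicator_of_mem bx, indicator_of_mem b2]
    by_cases h0 : D.yy q = 0
    · have h1 := A.center x bx (by rw [ex, h0])
      have h2 := A.center y b2 (by rw [ey, h0])
      rw [h1, Gen1_symm] at ex
      rw [h2, Gen1_symm] at ey
      subst ex
      subst ey
      have h3 : (A.ch y ∘ (A.ch y).symm) =ᶠ[𝓝 (A.ch y y)] id :=
        (A.ch y).eventually_right_inverse' hx
      rw [h3.deriv_eq, deriv_id, mul_one]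
    · have hq' : q ≠ OnePoint.infty := by
        rintro rfl
        exact h0 yy_infty
      have h1 : (fun v => D.tt ((A.ch x).symm v)) =ᶠ[𝓝 (A.ch x q)]
          (fun v => D.tt ((A.ch y).symm v)) ∘ (A.ch y ∘ (A.ch x).symm) := by
        have h2 := (A.ch x).continuousAt_symm ((A.ch x).map_source hx)
        rw [ContinuousAt, ex] at h2
        filter_upwards [h2 ((A.ch y).open_source.mem_nhds hy)] with v hv
        simp only [Function.comp_apply]
        rw [(A.ch y).left_inv hv]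
      have h3 := (A.trans hD x y bx (by rwa [ex])).differentiableAt
      have h4 := (A.hol y b2 (by rwa [ey])).1.differentiableAt
      have h5 : (A.ch y ∘ (A.ch x).symm) (A.ch x q) = A.ch y q := by
        rw [Function.comp_apply, ex]
      rw [hR x _ bx (by rwa [ex]), hR y _ b2 (by rwa [ey]), h1.deriv_eq,
        deriv_comp _ (by rwa [h5]) h3, h5, ex, ey]
      ring
  · exact (indicator_of_mem hw _).trans (hR z w hw h0)

end Dat

end Pool.Agent.MP_92463a_gt
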