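import Pool.Agent.MP_92463a_gt.Gen1
import Pool.Agent.MP_92463a_gt.Tool2
import Pool.Agent.MP_92463a_gt.Chart3

open Set Complex Filter Metric
open scoped Topology ComplexConjugate ContDiff Manifold

noncomputable section

namespace Pool.Agent.MP_92463a_gt

theorem Gen2_pull {Q : ℂ → Prop} {x₀ : ℂ} (h : ∀ᶠ w in 𝓝[≠] (0 : ℂ), Q (x₀ + w ^ 2)) :
    ∀ᶠ t in 𝓝[≠] x₀, Q t := by
  obtain ⟨ε, hε, hb⟩ := Metric.eventually_nhds_iff_ball.1 (eventually_nhdsWithin_iff.1 h)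
  refine eventually_nhdsWithin_iff.2 (Metric.eventually_nhds_iff_ball.2
    ⟨ε ^ 2, by positivity, fun t ht h0 => ?_⟩)
  obtain ⟨w, hw⟩ := IsAlgClosed.exists_pow_nat_eq (t - x₀) two_pos
  have h1 : w ≠ 0 := by
    rintro rfl
    exact h0 (sub_eq_zero.1 (by rw [← hw]; simp))
  have h2 : w ∈ ball (0 : ℂ) ε := by
    rw [mem_ball_iff_norm, ← hw, norm_pow] at ht
    rw [mem_ball_zero_iff]
    exact lt_of_pow_lt_pow_left₀ 2 hε.le ht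
  have h3 := hb w h2 h1
  rwa [hw, add_sub_cancel] at h3

theorem Gen2_far {Q : ℂ → Prop} (h : ∀ᶠ w in 𝓝[≠] (0 : ℂ), Q (w ^ 2)⁻¹) :
    ∃ r : ℝ, ∀ t, r ≤ ‖t‖ → Q t := by
  obtain ⟨ε, hε, hb⟩ := Metric.eventually_nhds_iff_ball.1 (eventually_nhdsWithin_iff.1 h)
  refine ⟨(ε ^ 2)⁻¹ + 1, fun t ht => ?_⟩
  have h0 : 0 < (ε ^ 2)⁻¹ := by positivity
  have h1 : 0 < ‖t‖ := by linarith
  obtain ⟨w, hw⟩ := IsAlgClosed.exists_pow_nat_eq t⁻¹ two_pos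
  have h2 : w ≠ 0 := by
    rintro rfl
    exact inv_ne_zero (norm_pos_iff.1 h1) (by rw [← hw]; simp)
  have h3 : w ∈ ball (0 : ℂ) ε := by
    rw [mem_ball_zero_iff]
    refine lt_of_pow_lt_pow_left₀ 2 hε.le ?_
    rw [← norm_pow, hw, norm_inv]
    exact inv_lt_of_inv_lt₀ (by positivity) (by linarith)
  have h4 := hb w h3 h2
  rwa [hw, inv_inv] at h4

theorem Gen2_bdd {g : ℂ → ℂ} (h : ContinuousAt g 0) : ∃ C : ℝ, ∀ᶠ w in 𝓝 (0 : ℂ), ‖g w‖ ≤ C :=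
  ⟨‖g 0‖ + 1, h.norm.eventually_le_const (lt_add_one _)⟩

theorem Gen2_neg {φ : ℂ → ℂ} (h : DifferentiableAt ℂ φ 0) :
    DifferentiableAt ℂ (fun w => φ (-w)) 0 :=
  DifferentiableAt.comp (g := φ) (f := fun w : ℂ => -w) 0 (by simpa using h) (by fun_prop)

theorem Gen2_sq {φ : ℂ → ℂ} (h : DifferentiableAt ℂ φ 0) :
    DifferentiableAt ℂ (fun w => φ (w ^ 2)) 0 :=
  DifferentiableAt.comp (g := φ) (f := fun w : ℂ => w ^ 2) 0 (by simpa using h) (by fun_prop)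

theorem Gen2_odd {φ : ℂ → ℂ} (h : DifferentiableAt ℂ φ 0) :
    ∃ C : ℝ, ∀ᶠ w in 𝓝[≠] (0 : ℂ), ‖(φ w - φ (-w)) / (2 * w)‖ ≤ C := by
  obtain ⟨C, hC⟩ := (h.sub (Gen2_neg h)).isBigO_sub.bound
  refine ⟨C / 2, ?_⟩
  filter_upwards [nhdsWithin_le_nhds hC, self_mem_nhdsWithin] with w h1 h2
  have h3 : 0 < ‖w‖ := norm_pos_iff.2 h2
  simp only [Pi.sub_apply, neg_zero, sub_self, sub_zero] at h1
  rw [norm_div, norm_mul, Complex.norm_ofNat, div_le_iff₀ (mul_pos two_pos h3)]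
  linarith

theorem Gen2_sym {G : ℂ → ℂ} {r y : ℂ} (h : y ^ 2 = r ^ 2) : G r + G (-r) = G y + G (-y) := by
  rcases sq_eq_sq_iff_eq_or_eq_neg.1 h with rfl | rfl
  · rfl
  · rw [neg_neg, add_comm]

namespace Dat

variable {D : Dat} (A : D.Atl)

theorem Atl.Gen2_zero (z : D.N) : (A.ch z).symm 0 = z := by
  have := (A.ch z).left_inv (A.mem z)
  rwa [A.ctr] at this

theorem Atl.Gen2_k1 {u : D.N} (hu : D.yy u ≠ 0) : ∃ h, D.Par1 (D.tt u) (A.δ u) h ∧ h 0 = D.yy u ∧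
    ∀ w ∈ ball (0 : ℂ) (A.δ u), (A.ch u).symm w = D.pt (D.tt u + w) (h w) := by
  rcases A.kind u with ⟨t₀, h, H, he⟩ | ⟨x₀, h, H, he⟩ | ⟨h, H, he, -⟩
  · have h0 := mem_ball_self (x := (0 : ℂ)) H.pos
    have h1 := he 0 h0
    rw [A.Gen2_zero] at h1
    have h2 : D.tt u = t₀ := by rw [h1, tt_pt (H.sq 0 h0), add_zero]
    have h3 : D.yy u = h 0 := by rw [h1, yy_pt (H.sq 0 h0)]
    rw [h2]
    exact ⟨h, H, h3.symm, he⟩
  · have h0 := mem_ball_self (x := (0 : ℂ)) H.pos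
    have h1 := he 0 h0
    rw [A.Gen2_zero] at h1
    exact absurd (by rw [h1, yy_pt (H.on h0).1, zero_mul]) hu
  · rw [A.Gen2_zero] at he
    exact absurd (by rw [he, yy_infty]) hu

theorem Atl.Gen2_k2 {x₀ : ℂ} (hx : D.P x₀ = 0) : ∃ z h, D.Par2 x₀ (A.δ z) h ∧
    ∀ w ∈ ball (0 : ℂ) (A.δ z), (A.ch z).symm w = D.pt (x₀ + w ^ 2) (w * h (w ^ 2)) := by
  have hs : (0 : ℂ) ^ 2 = D.P x₀ := by rw [hx, zero_pow two_ne_zero]
  rcases A.kind (D.pt x₀ 0) with ⟨t₀, h, H, he⟩ | ⟨x, h, H, he⟩ | ⟨h, H, he, -⟩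
  · have h0 := mem_ball_self (x := (0 : ℂ)) H.pos
    have h1 := he 0 h0
    rw [A.Gen2_zero] at h1
    have h2 := congrArg D.yy h1
    rw [yy_pt hs, yy_pt (H.sq 0 h0)] at h2
    exact absurd h2.symm (H.ne 0 h0)
  · have h0 := mem_ball_self (x := (0 : ℂ)) H.pos
    have h1 := he 0 h0
    rw [A.Gen2_zero] at h1
    have h2 := congrArg D.tt h1
    rw [tt_pt hs, tt_pt (H.on h0).1, zero_pow two_ne_zero, add_zero] at h2
    subst h2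
    exact ⟨_, h, H, he⟩
  · rw [A.Gen2_zero] at he
    exact absurd he (pt_ne hs)

theorem Atl.Gen2_k3 : ∃ z h, D.Par3 (A.δ z) h ∧ ∀ w ∈ ball (0 : ℂ) (A.δ z), w ≠ 0 →
    (A.ch z).symm w = D.pt (w ^ 2)⁻¹ (h (w ^ 2) / w ^ (D.p + D.q + 1)) := by
  rcases A.kind OnePoint.infty with ⟨t₀, h, H, he⟩ | ⟨x, h, H, he⟩ | ⟨h, H, -, he⟩
  · have h0 := mem_ball_self (x := (0 : ℂ)) H.pos
    have h1 := he 0 h0
    rw [A.Gen2_zero] at h1
    exact absurd h1.symm (pt_ne (H.sq 0 h0))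
  · have h0 := mem_ball_self (x := (0 : ℂ)) H.pos
    have h1 := he 0 h0
    rw [A.Gen2_zero] at h1
    exact absurd h1.symm (pt_ne (H.on h0).1)
  · exact ⟨_, h, H, he⟩

/-- a holomorphic form, in terms of the coefficient of `dt` -/
structure Atl.Gen2_H (om : D.N → ℂ → ℂ) : Prop where
  hol : ∀ z, DifferentiableOn ℂ (om z) (ball 0 (A.δ z))
  cmp : ∀ z, ∀ w ∈ ball (0 : ℂ) (A.δ z), D.yy ((A.ch z).symm w) ≠ 0 →
    om z w = om ((A.ch z).symm w) 0 * deriv (fun v => D.tt ((A.ch z).symm v)) w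

theorem Atl.Gen2_of {om : D.N → ℂ → ℂ} (H1 : ∀ x, DifferentiableOn ℂ (om x) (A.ch x).target)
    (H3 : ∀ x y, ∀ q ∈ (A.ch x).source ∩ (A.ch y).source,
      om x (A.ch x q) = om y (A.ch y q) * deriv (A.ch y ∘ (A.ch x).symm) (A.ch x q)) :
    A.Gen2_H om := by
  refine ⟨fun z => A.tgt z ▸ H1 z, fun z w hw hy => ?_⟩
  rw [← A.tgt] at hw
  have h1 := H3 z _ _ ⟨(A.ch z).map_target hw, A.mem _⟩
  rw [(A.ch z).right_inv hw, A.ctr] at h1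
  obtain ⟨h, H, -, he⟩ := A.Gen2_k1 hy
  have h2 : A.ch ((A.ch z).symm w) ∘ (A.ch z).symm =ᶠ[𝓝 w]
      fun v => D.tt ((A.ch z).symm v) - D.tt ((A.ch z).symm w) := by
    filter_upwards [((A.ch z).continuousAt_symm hw).eventually
      ((A.ch ((A.ch z).symm w)).open_source.mem_nhds (A.mem _))] with v hv
    have h3 := (A.ch _).map_source hv
    rw [A.tgt] at h3
    have h4 := he _ h3
    rw [(A.ch _).left_inv hv] at h4
    rw [Function.comp_apply, eq_sub_iff_add_eq']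
    conv_rhs => rw [h4, tt_pt (H.sq _ h3)]
  rw [h1, h2.deriv_eq, deriv_sub_const]

variable {A} {om : D.N → ℂ → ℂ}

theorem Atl.Gen2_H.val (H : A.Gen2_H om) {z : D.N} {w T' : ℂ} {T Yl : ℂ → ℂ}
    (hw : w ∈ ball (0 : ℂ) (A.δ z))
    (he : ∀ᶠ v in 𝓝 w, (A.ch z).symm v = D.pt (T v) (Yl v) ∧ Yl v ^ 2 = D.P (T v))
    (hy : D.P (T w) ≠ 0) (hT : HasDerivAt T T' w) : om z w = om (D.pt (T w) (Yl w)) 0 * T' := by
  obtain ⟨h1, h2⟩ := he.self_of_nhds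
  have h3 : (fun v => D.tt ((A.ch z).symm v)) =ᶠ[𝓝 w] T := by
    filter_upwards [he] with v hv
    rw [hv.1, tt_pt hv.2]
  rw [H.cmp z w hw (by
    rw [h1, yy_pt h2]
    intro h0
    exact hy (by rw [← h2, h0, zero_pow two_ne_zero])), h3.deriv_eq, hT.deriv, h1]

theorem Atl.Gen2_H.one (H : A.Gen2_H om) {t₀ y₀ : ℂ} (hs : y₀ ^ 2 = D.P t₀) (hy : y₀ ≠ 0) :
    ∃ h φ : ℂ → ℂ, DifferentiableAt ℂ h 0 ∧ DifferentiableAt ℂ φ 0 ∧ h 0 = y₀ ∧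
      ∀ᶠ w in 𝓝 (0 : ℂ), h w ^ 2 = D.P (t₀ + w) ∧ om (D.pt (t₀ + w) (h w)) 0 = φ w := by
  obtain ⟨h, P, h0, he⟩ := A.Gen2_k1 (u := D.pt t₀ y₀) (by rwa [yy_pt hs])
  rw [tt_pt hs] at P he
  rw [yy_pt hs] at h0
  have hb := ball_mem_nhds (0 : ℂ) P.pos
  refine ⟨h, om (D.pt t₀ y₀), P.hol.differentiableAt hb, (H.hol _).differentiableAt hb, h0, ?_⟩
  filter_upwards [hb] with w hw
  refine ⟨P.sq w hw, ?_⟩
  rw [H.val (T := fun v => t₀ + v) (Yl := h) hw ?_ ?_ ((hasDerivAt_id w).const_add t₀), mul_one]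
  · filter_upwards [isOpen_ball.mem_nhds hw] with v hv
    exact ⟨he v hv, P.sq v hv⟩
  · rw [← P.sq w hw]
    exact pow_ne_zero 2 (P.ne w hw)

theorem Atl.Gen2_H.reg (H : A.Gen2_H om) {t₀ : ℂ} (ht : D.P t₀ ≠ 0) :
    ∃ h φ ψ : ℂ → ℂ, DifferentiableAt ℂ h t₀ ∧ DifferentiableAt ℂ φ t₀ ∧ DifferentiableAt ℂ ψ t₀ ∧
      ∀ᶠ t in 𝓝 t₀, h t ^ 2 = D.P t ∧ om (D.pt t (h t)) 0 = φ t ∧ om (D.pt t (-h t)) 0 = ψ t := by
  obtain ⟨y, hy⟩ := IsAlgClosed.exists_pow_nat_eq (D.P t₀) two_pos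
  have hy0 : y ≠ 0 := by
    rintro rfl
    exact ht (by rw [← hy, zero_pow two_ne_zero])
  obtain ⟨h, φ, a1, a2, a3, a4⟩ := H.one hy hy0
  obtain ⟨h', ψ, b1, b2, b3, b4⟩ := H.one (y₀ := -y) (by rw [neg_sq, hy]) (neg_ne_zero.2 hy0)
  have c1 : ∀ᶠ w in 𝓝 (0 : ℂ), h' w - h w ≠ 0 :=
    (b1.sub a1).continuousAt.eventually_ne (by
      rw [Pi.sub_apply, a3, b3]
      intro h0
      exact hy0 (by linear_combination (-1 / 2 : ℂ) * h0))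
  have c2 : ∀ {g : ℂ → ℂ}, DifferentiableAt ℂ g 0 → DifferentiableAt ℂ (fun t => g (t - t₀)) t₀ :=
    fun {g} hg => DifferentiableAt.comp (g := g) (f := fun t : ℂ => t - t₀) t₀
      (by simpa using hg) (by fun_prop)
  have c3 : Tendsto (fun t : ℂ => t - t₀) (𝓝 t₀) (𝓝 0) := by
    have : Continuous fun t : ℂ => t - t₀ := by fun_prop
    simpa using this.tendsto t₀
  refine ⟨_, _, _, c2 a1, c2 a2, c2 b2, ?_⟩
  filter_upwards [c3.eventually a4, c3.eventually b4, c3.eventually c1] with t d1 d2 d3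
  rw [add_sub_cancel] at d1 d2
  have d4 : h' (t - t₀) = -h (t - t₀) :=
    (sq_eq_sq_iff_eq_or_eq_neg.1 (d2.1.trans d1.1.symm)).resolve_left (sub_ne_zero.1 d3)
  exact ⟨d1.1, d1.2, d4 ▸ d2.2⟩

theorem Atl.Gen2_H.two (H : A.Gen2_H om) {x₀ : ℂ} (hx : D.P x₀ = 0) :
    ∃ h φ : ℂ → ℂ, DifferentiableAt ℂ h 0 ∧ DifferentiableAt ℂ φ 0 ∧
      ∀ᶠ w in 𝓝[≠] (0 : ℂ), (w * h (w ^ 2)) ^ 2 = D.P (x₀ + w ^ 2) ∧
        om (D.pt (x₀ + w ^ 2) (w * h (w ^ 2))) 0 = φ w / (2 * w) ∧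
        om (D.pt (x₀ + w ^ 2) (-(w * h (w ^ 2)))) 0 = -φ (-w) / (2 * w) := by
  obtain ⟨z, h, P, he⟩ := A.Gen2_k2 hx
  have hb := ball_mem_nhds (0 : ℂ) P.pos
  have key : ∀ w ∈ ball (0 : ℂ) (A.δ z), w ≠ 0 →
      om z w = om (D.pt (x₀ + w ^ 2) (w * h (w ^ 2))) 0 * (2 * w) := fun w hw h0 => by
    refine H.val (T := fun v => x₀ + v ^ 2) (Yl := fun v => v * h (v ^ 2)) hw ?_ ((P.on hw).2 h0)
      (by simpa using (hasDerivAt_pow 2 w).const_add x₀)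
    filter_upwards [isOpen_ball.mem_nhds hw] with v hv
    exact ⟨he v hv, (P.on hv).1⟩
  refine ⟨h, om z, P.hol.differentiableAt (ball_mem_nhds _ (pow_pos P.pos 2)),
    (H.hol _).differentiableAt hb, ?_⟩
  filter_upwards [nhdsWithin_le_nhds hb, self_mem_nhdsWithin] with w hw h0
  have h1 : w ≠ 0 := h0
  have h2 := key (-w) (by simpa using hw) (neg_ne_zero.2 h1)
  rw [neg_sq, neg_mul] at h2
  refine ⟨(P.on hw).1, ?_, ?_⟩
  · rw [key w hw h1]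
    field_simp
  · rw [h2]
    field_simp

theorem Atl.Gen2_H.three (hD : D.Ok) (H : A.Gen2_H om) :
    ∃ h φ : ℂ → ℂ, DifferentiableAt ℂ h 0 ∧ DifferentiableAt ℂ φ 0 ∧
      ∀ᶠ w in 𝓝[≠] (0 : ℂ), D.P (w ^ 2)⁻¹ ≠ 0 ∧
        (h (w ^ 2) / w ^ (D.p + D.q + 1)) ^ 2 = D.P (w ^ 2)⁻¹ ∧
        om (D.pt (w ^ 2)⁻¹ (h (w ^ 2) / w ^ (D.p + D.q + 1))) 0 = -(w ^ 3 * φ w / 2) ∧
        om (D.pt (w ^ 2)⁻¹ (-(h (w ^ 2) / w ^ (D.p + D.q + 1)))) 0 = w ^ 3 * φ (-w) / 2 := by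
  obtain ⟨z, h, P, he⟩ := A.Gen2_k3
  have hb := ball_mem_nhds (0 : ℂ) P.pos
  have key : ∀ w ∈ ball (0 : ℂ) (A.δ z), w ≠ 0 → om z w =
      om (D.pt (w ^ 2)⁻¹ (h (w ^ 2) / w ^ (D.p + D.q + 1))) 0 * (-2 / w ^ 3) := fun w hw h0 => by
    refine H.val (T := fun v => (v ^ 2)⁻¹) (Yl := fun v => h (v ^ 2) / v ^ (D.p + D.q + 1)) hw ?_
      (P.on hw h0).2 (((hasDerivAt_pow 2 w).inv (pow_ne_zero 2 h0)).congr_deriv ?_)
    · filter_upwards [isOpen_ball.mem_nhds hw, isOpen_compl_singleton.mem_nhds h0] with v hv h1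
      exact ⟨he v hv h1, (P.on hv h1).1⟩
    · simp only [Nat.cast_ofNat, Nat.add_one_sub_one, pow_one]
      field_simp
  refine ⟨h, om z, P.hol.differentiableAt (ball_mem_nhds _ (pow_pos P.pos 2)),
    (H.hol _).differentiableAt hb, ?_⟩
  filter_upwards [nhdsWithin_le_nhds hb, self_mem_nhdsWithin] with w hw h0
  have h1 : w ≠ 0 := h0
  have h2 := key (-w) (by simpa using hw) (neg_ne_zero.2 h1)
  rw [neg_sq, hD.par.add_one.neg_pow, div_neg] at h2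
  refine ⟨(P.on hw h1).2, (P.on hw h1).1, ?_, ?_⟩
  · rw [key w hw h1]
    field_simp
  · rw [h2]
    field_simp

theorem Atl.Gen2_H.odd (hD : D.Ok) (H : A.Gen2_H om) {r : ℂ → ℂ} (hr : ∀ t, r t ^ 2 = D.P t)
    {t : ℂ} (ht : D.P t ≠ 0) : om (D.pt t (r t)) 0 + om (D.pt t (-r t)) 0 = 0 := by
  have hs : ∀ {t y : ℂ}, y ^ 2 = D.P t → om (D.pt t (r t)) 0 + om (D.pt t (-r t)) 0 =
      om (D.pt t y) 0 + om (D.pt t (-y)) 0 := fun {t y} h =>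
    Gen2_sym (G := fun y => om (D.pt t y) 0) (h.trans (hr t).symm)
  obtain ⟨F, hF, hFe⟩ := fill_finite (f := fun t => om (D.pt t (r t)) 0 + om (D.pt t (-r t)) 0)
    D.P_finite (fun x hx => by
      obtain ⟨h, φ, ψ, -, a2, a3, a4⟩ := H.reg hx
      refine ((a2.add a3).congr_of_eventuallyEq ?_).differentiableWithinAt
      filter_upwards [a4] with t h1
      rw [hs h1.1, h1.2.1, h1.2.2, Pi.add_apply]) (fun x hx => by
      obtain ⟨h, φ, -, a2, a3⟩ := H.two hx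
      obtain ⟨C, hC⟩ := Gen2_odd a2
      refine ⟨C, Gen2_pull ?_⟩
      filter_upwards [a3, hC] with w h1 h2
      rwa [hs h1.1, h1.2.1, h1.2.2, ← add_div, ← sub_eq_add_neg])
  obtain ⟨h, φ, -, a2, a3⟩ := H.three hD
  obtain ⟨C, hC⟩ := Gen2_bdd (g := fun w => w * (φ (-w) - φ w) / 2)
    (((differentiableAt_id.mul ((Gen2_neg a2).sub a2)).div_const 2).continuousAt)
  obtain ⟨ρ, hρ⟩ := Gen2_far (Q := fun z => ‖F z‖ * ‖z‖ ≤ C * ‖z‖ ^ 0) (by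
    filter_upwards [a3, nhdsWithin_le_nhds hC, self_mem_nhdsWithin] with w h1 h2 h3
    have h4 : w ≠ 0 := h3
    rw [hFe _ h1.1, hs h1.2.1, h1.2.2.1, h1.2.2.2, pow_zero, mul_one, ← norm_mul]
    refine le_of_eq_of_le (congrArg _ ?_) h2
    field_simp
    ring)
  obtain ⟨c, hc⟩ := poly_growth hF 0 hρ
  rw [← hFe t ht, hc, Finset.sum_range_zero]

theorem Atl.Gen2_H.even (hD : D.Ok) (H : A.Gen2_H om) {r : ℂ → ℂ} (hr : ∀ t, r t ^ 2 = D.P t) :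
    ∃ c : ℕ → ℂ, ∀ t, D.P t ≠ 0 → om (D.pt t (r t)) 0 * r t + om (D.pt t (-r t)) 0 * -r t =
      ∑ k ∈ Finset.range ((D.p + D.q) / 2), c k * t ^ k := by
  have hs : ∀ {t y : ℂ}, y ^ 2 = D.P t → om (D.pt t (r t)) 0 * r t + om (D.pt t (-r t)) 0 * -r t =
      om (D.pt t y) 0 * y + om (D.pt t (-y)) 0 * -y := fun {t y} h =>
    Gen2_sym (G := fun y => om (D.pt t y) 0 * y) (h.trans (hr t).symm)
  obtain ⟨F, hF, hFe⟩ := fill_finite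
    (f := fun t => om (D.pt t (r t)) 0 * r t + om (D.pt t (-r t)) 0 * -r t)
    D.P_finite (fun x hx => by
      obtain ⟨h, φ, ψ, a1, a2, a3, a4⟩ := H.reg hx
      refine (((a2.mul a1).add (a3.mul a1.neg)).congr_of_eventuallyEq ?_).differentiableWithinAt
      filter_upwards [a4] with t h1
      rw [hs h1.1, h1.2.1, h1.2.2]
      rfl) (fun x hx => by
      obtain ⟨h, φ, a1, a2, a3⟩ := H.two hx
      obtain ⟨C, hC⟩ := Gen2_bdd (g := fun w => (φ w + φ (-w)) * h (w ^ 2) / 2)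
        ((((a2.add (Gen2_neg a2)).mul (Gen2_sq a1)).div_const 2).continuousAt)
      refine ⟨C, Gen2_pull ?_⟩
      filter_upwards [a3, nhdsWithin_le_nhds hC, self_mem_nhdsWithin] with w h1 h2 h3
      have h4 : w ≠ 0 := h3
      rw [hs h1.1, h1.2.1, h1.2.2]
      refine le_of_eq_of_le (congrArg _ ?_) h2
      field_simp)
  obtain ⟨h, φ, a1, a2, a3⟩ := H.three hD
  obtain ⟨C, hC⟩ := Gen2_bdd (g := fun w => -((φ w + φ (-w)) * h (w ^ 2) / 2))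
    ((((a2.add (Gen2_neg a2)).mul (Gen2_sq a1)).div_const 2).neg.continuousAt)
  obtain ⟨ρ, hρ⟩ := Gen2_far (Q := fun z => ‖F z‖ * ‖z‖ ≤ C * ‖z‖ ^ ((D.p + D.q) / 2)) (by
    filter_upwards [a3, nhdsWithin_le_nhds hC, self_mem_nhdsWithin] with w h1 h2 h3
    have h4 : w ≠ 0 := h3
    rw [hFe _ h1.1, hs h1.2.1, h1.2.2.1, h1.2.2.2, ← norm_mul]
    refine le_of_eq_of_le ?_ (mul_le_mul_of_nonneg_right h2 (by positivity))
    rw [← norm_pow, ← norm_mul]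
    congr 1
    obtain ⟨g, hg⟩ := hD.par
    rw [hg, show (g + g) / 2 = g by omega, inv_pow, ← pow_mul, two_mul, pow_succ w (g + g)]
    field_simp
    ring)
  obtain ⟨c, hc⟩ := poly_growth hF _ hρ
  exact ⟨c, fun t ht => by rw [← hFe t ht, hc]⟩

end Dat

theorem Dat.Atl.exists_rep {D : Dat} (hD : D.Ok) (A : D.Atl) :
    letI := A.charted
    ∀ om ∈ holForms D.N, ∃ c, A.Rep c om := by
  intro om hom
  have H := A.Gen2_of hom.1 hom.2.2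
  choose r hr using fun t => IsAlgClosed.exists_pow_nat_eq (D.P t) two_pos
  obtain ⟨c, hc⟩ := H.even hD hr
  refine ⟨fun k => c k / 2, fun z w hw hy => ?_⟩
  rw [H.cmp z w hw hy]
  generalize (A.ch z).symm w = u at hy
  have h1 : u ≠ OnePoint.infty := by
    rintro rfl
    exact hy Dat.yy_infty
  have h2 : D.P (D.tt u) ≠ 0 := by
    rw [← Dat.yy_sq]
    exact pow_ne_zero 2 hy
  have h3 := (Dat.yy_sq u).trans (hr _).symm
  have h4 := hc _ h2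
  have h5 := H.odd hD hr h2
  rw [Gen2_sym (G := fun y => om (D.pt (D.tt u) y) 0 * y) h3, Dat.pt_tt h1] at h4
  rw [Gen2_sym (G := fun y => om (D.pt (D.tt u) y) 0) h3, Dat.pt_tt h1] at h5
  have h6 : ∑ k ∈ Finset.range ((D.p + D.q) / 2), c k / 2 * D.tt u ^ k = om u 0 * D.yy u := by
    simp only [div_mul_eq_mul_div]
    rw [← Finset.sum_div, ← h4]
    linear_combination (-D.yy u / 2) * h5
  rw [h6]
  field_simp

end Pool.Agent.MP_92463a_gt
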