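import Pool.Agent.MP_92463a_gt.Pb3X1

open Set Complex Filter Metric
open scoped Topology ComplexConjugate ContDiff Manifold

noncomputable section

namespace Pool.Agent.MP_92463a_gt

section
variable {M N : Type} [TopologicalSpace M] [ChartedSpace ℂ M] [TopologicalSpace N]
  [ChartedSpace ℂ N] {U O Cp : Set M} {g : M → M} {π : M → N} {σ : N → M}

open Classical in
/-- the pull-back of a form -/
def pb3Fw (U : Set M) (π : M → N) (f : N → ℂ → ℂ) (z : M) : ℂ :=
  if z ∈ U then f (π z) (chartAt ℂ (π z) (π z)) * pb3D π z (π z) z else 0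

open Classical in
/-- the push-forward of an invariant form -/
def pb3Bw (σ : N → M) (om : M → ℂ) (n : N) (w : ℂ) : ℂ :=
  if w ∈ (chartAt ℂ n).target then
    om ((chartAt ℂ (σ n)).symm w) *
      pb3D id (σ n) ((chartAt ℂ (σ n)).symm w) ((chartAt ℂ (σ n)).symm w)
  else 0

theorem Plumbed.pb3_fw [IsManifold 𝓘(ℂ) ω M] (h : Plumbed U O g π σ) (hg : Glue U O g Cp)
    {f : N → ℂ → ℂ} (hf : f ∈ holForms N) {z x : M} {n : N} (hz : z ∈ U)
    (hx : z ∈ (chartAt ℂ x).source) (hn : π z ∈ (chartAt ℂ n).source) :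
    pb3Fw U π f z = f n (chartAt ℂ n (π z)) * pb3D π x n z * pb3D id z x z := by
  have := h.isManifold hg
  have e1 : f (π z) (chartAt ℂ (π z) (π z)) = f n (chartAt ℂ n (π z)) * pb3D id (π z) n (π z) :=
    hf.2.2 (π z) n (π z) ⟨mem_chart_source ℂ _, hn⟩
  have e2 : pb3D π z n z = pb3D id (π z) n (π z) * pb3D π z (π z) z :=
    pb3D_comp (G := id) (mem_chart_source ℂ z) (h.pb3_cont hg hz) (mem_chart_source ℂ _)
      (h.pb3_an hg hz (mem_chart_source ℂ z) (mem_chart_source ℂ _))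
      (pb3A_id (mem_chart_source ℂ _) hn)
  have e3 : pb3D π z n z = pb3D π x n z * pb3D id z x z :=
    pb3D_comp (F := id) (mem_chart_source ℂ z) continuousAt_id hx
      (pb3A_id (mem_chart_source ℂ z) hx) (h.pb3_an hg hz hx hn)
  rw [pb3Fw, if_pos hz, e1, mul_assoc, ← e2, e3, mul_assoc]

theorem Plumbed.pb3_fw_mem [IsManifold 𝓘(ℂ) ω M] (h : Plumbed U O g π σ) (hg : Glue U O g Cp)
    {f : N → ℂ → ℂ} (hf : f ∈ holForms N) : pb3Fw U π f ∈ formsU U O g := by
  refine ⟨fun z hz => if_neg hz, fun z hz => ?_, fun z hz => ?_⟩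
  · have a1 : pb3A π z (π z) z := h.pb3_an hg hz (mem_chart_source ℂ z) (mem_chart_source ℂ _)
    have a2 : AnalyticAt ℂ (f (π z)) (chartAt ℂ (π z) (π z)) :=
      (hf.1 (π z)).analyticAt ((chartAt ℂ (π z)).open_target.mem_nhds (mem_chart_target ℂ _))
    refine ⟨fun w => f (π z) (pb3L π z (π z) w) * deriv (pb3L π z (π z)) w,
      (AnalyticAt.comp_of_eq a2 a1 (pb3L_apply π _ (mem_chart_source ℂ z))).mul a1.deriv, ?_⟩
    filter_upwards [hg.oU.mem_nhds hz, (chartAt ℂ z).open_source.mem_nhds (mem_chart_source ℂ z),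
      (h.pb3_cont hg hz).eventually
        ((chartAt ℂ (π z)).open_source.mem_nhds (mem_chart_source ℂ (π z)))] with z' h1 h2 h3
    rw [h.pb3_fw hg hf h1 h2 h3, pb3L_apply π _ h2]
    rfl
  · have e := h.pb3_glue hg hz
    rw [pb3Fw, pb3Fw, if_pos (hg.sub hz), if_pos (hg.sub (hg.maps hz)), e,
      h.pb3_glueD hg hz (mem_chart_source ℂ _), mul_assoc]

theorem Plumbed.pb3_fw_inj [IsManifold 𝓘(ℂ) ω M] (h : Plumbed U O g π σ) (hg : Glue U O g Cp)
    {f : N → ℂ → ℂ} (hf : f ∈ holForms N) (h0 : pb3Fw U π f = 0) : f = 0 := by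
  funext n w
  by_cases hw : w ∈ (chartAt ℂ n).target
  · have hq := (chartAt ℂ n).map_target hw
    obtain ⟨h1, h2, h3⟩ := h.pb3_lift hq
    rw [(chartAt ℂ n).right_inv hw] at h1 h2 h3
    have e := h.pb3_fw hg hf h1 h2 (h3 ▸ hq)
    rw [h0, h3, (chartAt ℂ n).right_inv hw, h.pb3_liftD hw h2, pb3D_id h2, mul_one] at e
    have e' := pb3D_inv h2 (mem_chart_source ℂ _)
    exact (mul_eq_zero.1 e.symm).resolve_right (left_ne_zero_of_mul_eq_one e')
  · exact hf.2.1 n w hw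

theorem Plumbed.pb3_bw [IsManifold 𝓘(ℂ) ω M] (h : Plumbed U O g π σ) (hg : Glue U O g Cp)
    {om : M → ℂ} (ho : om ∈ formsU U O g) {z : M} {n : N} (hz : z ∈ U)
    (hn : π z ∈ (chartAt ℂ n).source) :
    om z = pb3Bw σ om n (chartAt ℂ n (π z)) * pb3D π z n z := by
  obtain ⟨h1, h2, h3⟩ := h.pb3_lift hn
  have hw := (chartAt ℂ n).map_source hn
  have key := h.pb3_liftD hw (mem_chart_source ℂ _)
  have e' := pb3D_inv (mem_chart_source ℂ _) h2
  rw [pb3Bw, if_pos hw]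
  rcases (h.eq z hz _ h1).1 h3.symm with e | ⟨hO, e⟩
  · rw [← e] at key e' ⊢
    rw [key, mul_assoc, e', mul_one]
  · rw [e] at key e' ⊢
    rw [h.pb3_glueD hg hO hn, key, ho.2.2 z hO]
    linear_combination (-(om (g z) * tr g z (g z))) * e'

theorem Plumbed.pb3_bw_mem [IsManifold 𝓘(ℂ) ω M] (h : Plumbed U O g π σ) (hg : Glue U O g Cp)
    {om : M → ℂ} (ho : om ∈ formsU U O g) : pb3Bw σ om ∈ holForms N := by
  have := h.isManifold hg
  refine ⟨fun n w hw => ?_, fun n w hw => if_neg hw, fun x y q hq => ?_⟩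
  · obtain ⟨h1, h2, -⟩ := h.tgt n w hw
    have h3 := (chartAt ℂ (σ n)).map_target h1
    obtain ⟨φ, a1, a2⟩ := ho.2.1 _ h2
    have a3 : pb3A id (σ n) ((chartAt ℂ (σ n)).symm w) ((chartAt ℂ (σ n)).symm w) :=
      pb3A_id h3 (mem_chart_source ℂ _)
    have a4 := pb3L_apply id ((chartAt ℂ (σ n)).symm w) h3
    have t := pb3_tend h3
    rw [pb3A] at a3
    rw [(chartAt ℂ (σ n)).right_inv h1] at a3 a4 t
    have a5 := (AnalyticAt.comp_of_eq a1 a3 a4).mul a3.deriv
    refine (a5.differentiableAt.congr_of_eventuallyEq ?_).differentiableWithinAt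
    filter_upwards [(chartAt ℂ n).open_target.mem_nhds hw, t.eventually a2,
      t.eventually ((chartAt ℂ _).open_source.mem_nhds (mem_chart_source ℂ _))] with u b1 b2 b3
    have b4 := (h.tgt n u b1).1
    have b5 := pb3D_trans ((chartAt ℂ (σ n)).map_target b4) (mem_chart_source ℂ _) b3
    rw [pb3Bw, if_pos b1, b2, mul_assoc]
    erw [b5]
    rw [pb3D, (chartAt ℂ (σ n)).right_inv b4]
    rfl
  · obtain ⟨h1, h2, h3⟩ := h.pb3_lift hq.1
    have e1 := h.pb3_bw hg ho h1 (h3.symm ▸ hq.1)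
    have e2 := h.pb3_bw hg ho h1 (h3.symm ▸ hq.2)
    have e3 := pb3D_comp (G := id) (w := y) (mem_chart_source ℂ _) (h.pb3_cont hg h1)
      (h3.symm ▸ hq.1) (h.pb3_an hg h1 (mem_chart_source ℂ _) (h3.symm ▸ hq.1))
      (pb3A_id (h3.symm ▸ hq.1) (h3.symm ▸ hq.2))
    have e4 := h.pb3_liftD ((chartAt ℂ x).map_source hq.1) (mem_chart_source ℂ _)
    have e5 := left_ne_zero_of_mul_eq_one (pb3D_inv h2 (mem_chart_source ℂ _))
    rw [Function.id_comp, h3] at e3
    rw [h3] at e1 e2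
    rw [← e4] at e5
    refine mul_right_cancel₀ e5 ?_
    rw [← e1, e2, e3, mul_assoc]
    rfl

end

theorem Plumbed.genus_eq {M N : Type} [TopologicalSpace M] [ChartedSpace ℂ M] [TopologicalSpace N]
    [ChartedSpace ℂ N] [IsManifold 𝓘(ℂ) ω M] {U O Cp : Set M} {g : M → M} {π : M → N} {σ : N → M}
    (h : Plumbed U O g π σ) (hg : Glue U O g Cp) :
    genus N = Module.finrank ℂ (formsU U O g) := by
  let Φ : holForms N →ₗ[ℂ] formsU U O g :=
    { toFun := fun f => ⟨pb3Fw U π f.1, h.pb3_fw_mem hg f.2⟩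
      map_add' := fun f f' => by
        ext z
        by_cases hz : z ∈ U <;> simp [pb3Fw, hz, add_mul]
      map_smul' := fun c f => by
        ext z
        by_cases hz : z ∈ U <;> simp [pb3Fw, hz, mul_assoc] }
  refine (LinearEquiv.ofBijective Φ ⟨?_, fun om => ?_⟩).finrank_eq
  · rw [injective_iff_map_eq_zero]
    intro f hf
    exact Subtype.ext (h.pb3_fw_inj hg f.2 (congrArg Subtype.val hf))
  · refine ⟨⟨pb3Bw σ om.1, h.pb3_bw_mem hg om.2⟩, Subtype.ext (funext fun z => ?_)⟩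
    change pb3Fw U π (pb3Bw σ om.1) z = om.1 z
    by_cases hz : z ∈ U
    · rw [pb3Fw, if_pos hz, ← h.pb3_bw hg om.2 hz (mem_chart_source ℂ _)]
    · rw [pb3Fw, if_neg hz, om.2.1 z hz]

end Pool.Agent.MP_92463a_gt
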