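import Pool.Agent.MP_92463a_gt.Pb1
import Pool.Agent.MP_92463a_gt.Pb3

open Set Complex Filter Metric
open scoped Topology ComplexConjugate ContDiff Manifold

noncomputable section

namespace Pool.Agent.MP_92463a_gt

theorem Pb4_congr {M N : Type} [TopologicalSpace M] [ChartedSpace ℂ M] [TopologicalSpace N]
    [ChartedSpace ℂ N] {f : M → E3} {f' : N → E3} {p : M} {n : N}
    (hc : chartAt ℂ n n = chartAt ℂ p p) (he : loc f' n =ᶠ[𝓝 (chartAt ℂ p p)] loc f p)
    (h : IsMinimalAt f p) : IsMinimalAt f' n := by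
  have h1 : ∀ v, d1 f' n v = d1 f p v := fun v => by
    unfold d1
    rw [hc, he.fderiv_eq]
  have h2 : ∀ v w, d2 f' n v w = d2 f p v w := fun v w => by
    unfold d2
    have : (fun z => fderiv ℝ (loc f' n) z v) =ᶠ[𝓝 (chartAt ℂ p p)]
        fun z => fderiv ℝ (loc f p) z v := by
      filter_upwards [he.fderiv (𝕜 := ℝ)] with z hz
      rw [hz]
    rw [hc, this.fderiv_eq]
  refine ⟨?_, ?_, ?_⟩
  · rw [hc]
    exact h.smooth.congr_of_eventuallyEq he
  · rw [h1, h1]
    exact h.immersion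
  · simp only [h1, h2]
    exact h.mean

theorem Pb4_cont {N : Type} [TopologicalSpace N] [ChartedSpace ℂ N] {f : N → E3} {n : N}
    (h : IsMinimalAt f n) : ContinuousAt f n := by
  have h1 : ContinuousAt (loc f n ∘ chartAt ℂ n) n :=
    h.smooth.continuousAt.comp ((chartAt ℂ n).continuousAt (mem_chart_source ℂ n))
  refine h1.congr ?_
  filter_upwards [chart_source_mem_nhds ℂ n] with x hx
  simp only [loc, Function.comp_apply, (chartAt ℂ n).left_inv hx]

theorem Pb4_proper {N : Type} [TopologicalSpace N] [CompactSpace N] (S : Finset N) {f : N → E3}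
    (hc : ContinuousOn f {z | z ∉ S})
    (hb : ∀ z ∈ S, Tendsto (fun w => ‖f w‖) (𝓝[{w | w ∉ S}] z) atTop) :
    IsProperMap (fun z : {z // z ∉ S} => f z) := by
  refine isProperMap_iff_isCompact_preimage.2 ⟨hc.domRestrict, fun K hK => ?_⟩
  rw [Subtype.isCompact_iff]
  refine IsClosed.isCompact (isClosed_of_closure_subset fun z hz => ?_)
  have hB : ∀ w ∈ Subtype.val '' ((fun z : {z // z ∉ S} => f z) ⁻¹' K), w ∉ S ∧ f w ∈ K := by
    rintro _ ⟨w, hw, rfl⟩
    exact ⟨w.2, hw⟩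
  have := mem_closure_iff_nhdsWithin_neBot.1 hz
  have hle := nhdsWithin_mono z (show _ ⊆ {w | w ∉ S} from fun w hw => (hB w hw).1)
  have hev : ∀ᶠ w in 𝓝[Subtype.val '' ((fun z : {z // z ∉ S} => f z) ⁻¹' K)] z, f w ∈ K := by
    filter_upwards [self_mem_nhdsWithin] with w hw using (hB w hw).2
  by_cases h : z ∈ S
  · obtain ⟨r, hr⟩ := hK.isBounded.exists_norm_le
    have h1 := ((hb z h).mono_left hle).eventually (eventually_gt_atTop r)
    obtain ⟨w, a, b⟩ := (h1.and hev).exists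
    exact absurd (hr _ b) (not_le.2 a)
  · exact ⟨⟨z, h⟩, hK.isClosed.mem_of_tendsto ((hc z h).tendsto.mono_left hle) hev, rfl⟩

theorem Glue.realized {M : Type} [TopologicalSpace M] [ChartedSpace ℂ M] [T2Space M]
    [IsManifold 𝓘(ℂ) ω M] {U O Cp : Set M} {g : M → M} (h : Glue U O g Cp) (S : Finset M)
    (hS : ∀ z ∈ S, z ∈ U ∧ z ∉ O) {f : M → E3} (hg : ∀ z ∈ O, f (g z) = f z)
    (hm : ∀ z ∈ U, z ∉ S → IsMinimalAt f z)
    (hi : ∀ z ∈ U, z ∉ S → ∀ z' ∈ U, z' ∉ S → f z = f z' → z = z' ∨ (z ∈ O ∧ z' = g z))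
    (hb : ∀ z ∈ S, Tendsto (fun x => ‖f x‖) (𝓝[≠] z) atTop) :
    Realized (Module.finrank ℂ (formsU U O g)) S.card := by
  classical
  obtain ⟨N, _, _, π, σ, h2, hc, hcon, hP⟩ := h.exists_plumbed
  have e1 : ∀ z ∈ U, f (σ (π z)) = f z := fun z hz => by
    rcases (hP.eq _ (hP.mem (π z)) z hz).1 (hP.sec _) with e | ⟨a, b⟩
    · rw [e]
    · rw [← hg _ a, ← b]
  have e2 : ∀ s ∈ S, ∀ z ∈ U, π s = π z → s = z := fun s hs z hz e =>
    ((hP.eq s (hS s hs).1 z hz).1 e).resolve_right fun a => (hS s hs).2 a.1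
  have e3 : ∀ n, n ∉ S.image π → σ n ∉ S := fun n hn hs =>
    hn (Finset.mem_image.2 ⟨σ n, hs, hP.sec n⟩)
  have hmin : ∀ n, n ∉ S.image π → IsMinimalAt (fun n => f (σ n)) n := fun n hn => by
    refine Pb4_congr (hP.ctr n) ?_ (hm _ (hP.mem n) (e3 n hn))
    rw [← hP.ctr n]
    filter_upwards [(chartAt ℂ n).open_target.mem_nhds (mem_chart_target ℂ n)] with w hw
    obtain ⟨-, a, b⟩ := hP.tgt n w hw
    simp only [loc, Function.comp_apply]
    rw [b, e1 _ a]
  have hp := Pb4_proper (S.image π) (f := fun n => f (σ n))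
    (fun n hn => (Pb4_cont (hmin n hn)).continuousWithinAt) fun n hn => by
      obtain ⟨z, hz, rfl⟩ := Finset.mem_image.1 hn
      refine tendsto_atTop.2 fun r => ?_
      obtain ⟨V, hV1, hV2, hV3⟩ := mem_nhdsWithin.1 (tendsto_atTop.1 (hb z hz) r)
      refine mem_nhdsWithin.2 ⟨π '' (V ∩ U), hP.opn _ inter_subset_right (hV1.inter h.oU),
        ⟨z, ⟨hV2, (hS z hz).1⟩, rfl⟩, ?_⟩
      rintro _ ⟨⟨x, hx, rfl⟩, hx'⟩
      have : x ≠ z := by
        rintro rfl
        exact hx' hn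
      have a := hV3 ⟨hx.1, this⟩
      rw [mem_ofPred_eq, e1 x hx.2]
      exact a
  have hinj : Function.Injective fun n : {n // n ∉ S.image π} => f (σ n) := fun n n' e => by
    have := (hP.eq _ (hP.mem n) _ (hP.mem n')).2
      (hi _ (hP.mem n) (e3 _ n.2) _ (hP.mem n') (e3 _ n'.2) e)
    rw [hP.sec, hP.sec] at this
    exact Subtype.ext this
  exact ⟨N, inferInstance, inferInstance, h2, hc, hcon, hP.isManifold h, hP.genus_eq h,
    S.image π, fun n => f (σ n),
    Finset.card_image_of_injOn fun s hs z hz e => e2 s hs z (hS z hz).1 e, hmin,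
    (Topology.IsClosedEmbedding.of_continuous_injective_isClosedMap hp.continuous hinj
      hp.isClosedMap).isEmbedding, hp⟩

end Pool.Agent.MP_92463a_gt
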