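import Pool.Agent.MP_92463a_gt.WGl2
import Pool.Agent.MP_92463a_gt.WForm

open Set Complex Filter Metric
open scoped Topology ComplexConjugate ContDiff Manifold

noncomputable section

namespace Pool.Agent.MP_92463a_gt

theorem WGen2_fill {f : ℂ → ℂ} {U s : Set ℂ} (hU : IsOpen U) (hs : s.Finite)
    (hf : ∀ x ∈ U, x ∉ s → DifferentiableAt ℂ f x)
    (hb : ∀ x ∈ s, ∃ C : ℝ, ∀ᶠ z in 𝓝[≠] x, ‖f z‖ ≤ C) :
    ∃ F : ℂ → ℂ, DifferentiableOn ℂ F U ∧ (∀ z ∉ U, F z = 0) ∧ ∀ z ∈ U, z ∉ s → F z = f z := by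
  classical
  refine ⟨fun z => if z ∈ U then if z ∈ s then limUnder (𝓝[≠] z) f else f z else 0,
    fun x hxU => DifferentiableAt.differentiableWithinAt ?_, fun z hz => if_neg hz,
    fun z hz hz' => (if_pos hz).trans (if_neg hz')⟩
  have h0 := hU.mem_nhds hxU
  by_cases hx : x ∈ s
  · obtain ⟨C, hC⟩ := hb x hx
    have h1 : (s \ {x})ᶜ ∈ 𝓝 x :=
      (hs.subset sdiff_subset).isClosed.isOpen_compl.mem_nhds fun h => h.2 rfl
    have h2 : {z | z ≠ x → ‖f z‖ ≤ C} ∈ 𝓝 x := eventually_nhdsWithin_iff.1 hC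
    have h3 := inter_mem (inter_mem h0 h1) h2
    have h4 := differentiableOn_update_limUnder_of_bddAbove (f := f) h3
      (fun z hz => (hf z hz.1.1.1 fun hzs => hz.1.1.2 ⟨hzs, hz.2⟩).differentiableWithinAt) ⟨C, by
        rintro _ ⟨z, hz, rfl⟩
        exact hz.1.2 hz.2⟩
    refine (h4.differentiableAt h3).congr_of_eventuallyEq ?_
    filter_upwards [h0, h1] with z hz0 hz
    rw [if_pos hz0]
    by_cases e : z = x
    · rw [e, if_pos hx, Function.update_self]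
    · rw [if_neg fun h => hz ⟨h, e⟩, Function.update_of_ne e]
  · have h1 : sᶜ ∈ 𝓝 x := hs.isClosed.isOpen_compl.mem_nhds hx
    refine (hf x hxU hx).congr_of_eventuallyEq ?_
    filter_upwards [h0, h1] with z hz0 hz
    rw [if_pos hz0, if_neg hz]

namespace Dat

variable {D : Dat} (A : D.Atl)

theorem Atl.WGen2_tr {z : D.N} {w T' : ℂ} {T Yl : ℂ → ℂ} (hw : w ∈ ball (0 : ℂ) (A.δ z))
    (he : ∀ᶠ v in 𝓝 w, (A.ch z).symm v = D.pt (T v) (Yl v) ∧ Yl v ^ 2 = D.P (T v))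
    (hy : D.P (T w) ≠ 0) (hT : HasDerivAt T T' w) (hT' : T' ≠ 0) :
    deriv (A.ch z ∘ id ∘ (A.ch ((A.ch z).symm w)).symm)
      (A.ch ((A.ch z).symm w) ((A.ch z).symm w)) = T'⁻¹ := by
  obtain ⟨h1, h2⟩ := he.self_of_nhds
  rw [← A.tgt] at hw
  have hu : (A.ch z).symm w ∈ (A.ch z).source := (A.ch z).map_target hw
  have hw' : A.ch z ((A.ch z).symm w) = w := (A.ch z).right_inv hw
  have ht : D.tt ((A.ch z).symm w) = T w := by rw [h1, tt_pt h2]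
  have hy' : D.yy ((A.ch z).symm w) ≠ 0 := by
    rw [h1, yy_pt h2]
    intro h0
    exact hy (by rw [← h2, h0, zero_pow two_ne_zero])
  generalize (A.ch z).symm w = u at hu hw' ht hy'
  obtain ⟨h, H, -, he'⟩ := A.Gen2_k1 hy'
  have hb := ball_mem_nhds (0 : ℂ) H.pos
  have c1 : ContinuousAt (A.ch u).symm 0 :=
    (A.ch u).continuousAt_symm (by rw [A.tgt]; exact mem_ball_self H.pos)
  have c2 : Tendsto (A.ch u).symm (𝓝 0) (𝓝 u) := by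
    have := c1.tendsto
    rwa [A.Gen2_zero] at this
  have c3 : ContinuousAt (A.ch z ∘ id ∘ (A.ch u).symm) 0 :=
    ContinuousAt.comp (by
      rw [Function.comp_apply, id, A.Gen2_zero]
      exact (A.ch z).continuousAt hu) c1
  have c4 : (A.ch z ∘ id ∘ (A.ch u).symm) 0 = w := by
    rw [Function.comp_apply, Function.comp_apply, id, A.Gen2_zero, hw']
  rw [A.ctr]
  refine (HasDerivAt.of_local_left_inverse (f := fun v => T v - T w) c3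
    (by rw [c4]; exact hT.sub_const _) hT' ?_).deriv
  have c5 := c3.tendsto
  rw [c4] at c5
  filter_upwards [hb, c5.eventually he, c2.eventually ((A.ch z).open_source.mem_nhds hu)]
    with v h3 h4 h5
  simp only [Function.comp_apply, id] at h4 ⊢
  have h6 := congrArg D.tt h4.1
  rw [(A.ch z).left_inv h5, tt_pt h4.2] at h6
  rw [← h6, he' v h3, tt_pt (H.sq v h3), ht, add_sub_cancel_left]

/-- the form is holomorphic at `z` -/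
def Atl.WGen2_L (om : D.N → ℂ) (z : D.N) : Prop :=
  ∃ φ : ℂ → ℂ, DifferentiableAt ℂ φ 0 ∧ ∀ᶠ w in 𝓝 (0 : ℂ), ∀ (T Yl : ℂ → ℂ) (T' : ℂ),
    (∀ᶠ v in 𝓝 w, (A.ch z).symm v = D.pt (T v) (Yl v) ∧ Yl v ^ 2 = D.P (T v)) →
    D.P (T w) ≠ 0 → HasDerivAt T T' w → T' ≠ 0 → om (D.pt (T w) (Yl w)) = φ w / T'

theorem Atl.WGen2_of {om : D.N → ℂ} {z : D.N} {φ : ℂ → ℂ} (h1 : AnalyticAt ℂ φ (A.ch z z))
    (h2 : ∀ᶠ z' in 𝓝 z, om z' =
      φ (A.ch z z') * deriv (A.ch z ∘ id ∘ (A.ch z').symm) (A.ch z' z')) : A.WGen2_L om z := by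
  rw [A.ctr] at h1
  refine ⟨φ, h1.differentiableAt, ?_⟩
  have h0 := Gen1_zero A z
  have c2 : Tendsto (A.ch z).symm (𝓝 0) (𝓝 z) := by
    have := ((A.ch z).continuousAt_symm (by rw [A.tgt]; exact h0)).tendsto
    rwa [A.Gen2_zero] at this
  filter_upwards [isOpen_ball.mem_nhds h0, c2.eventually h2] with w hw h3 T Yl T' he hy hT hT'
  rw [A.WGen2_tr hw he hy hT hT', (A.ch z).right_inv (by rw [A.tgt]; exact hw),
    he.self_of_nhds.1] at h3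
  rw [h3, div_eq_mul_inv]

variable {A} {om : D.N → ℂ}

theorem Atl.WGen2_one {t₀ y₀ : ℂ} (H : A.WGen2_L om (D.pt t₀ y₀)) (hs : y₀ ^ 2 = D.P t₀)
    (hy : y₀ ≠ 0) : ∃ h φ : ℂ → ℂ, DifferentiableAt ℂ h 0 ∧ DifferentiableAt ℂ φ 0 ∧ h 0 = y₀ ∧
      ∀ᶠ w in 𝓝 (0 : ℂ), h w ^ 2 = D.P (t₀ + w) ∧ om (D.pt (t₀ + w) (h w)) = φ w := by
  obtain ⟨h, P, h0, he⟩ := A.Gen2_k1 (u := D.pt t₀ y₀) (by rwa [yy_pt hs])
  rw [tt_pt hs] at P he
  rw [yy_pt hs] at h0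
  have hb := ball_mem_nhds (0 : ℂ) P.pos
  obtain ⟨φ, h1, h2⟩ := H
  refine ⟨h, φ, P.hol.differentiableAt hb, h1, h0, ?_⟩
  filter_upwards [hb, h2] with w hw h3
  refine ⟨P.sq w hw, ?_⟩
  rw [h3 (fun v => t₀ + v) h 1 ?_ ?_ ((hasDerivAt_id w).const_add t₀) one_ne_zero, div_one]
  · filter_upwards [isOpen_ball.mem_nhds hw] with v hv
    exact ⟨he v hv, P.sq v hv⟩
  · rw [← P.sq w hw]
    exact pow_ne_zero 2 (P.ne w hw)

theorem Atl.WGen2_reg {t₀ : ℂ} (H : ∀ z, D.tt z = t₀ → A.WGen2_L om z) (ht : D.P t₀ ≠ 0) :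
    ∃ h φ ψ : ℂ → ℂ, DifferentiableAt ℂ h t₀ ∧ DifferentiableAt ℂ φ t₀ ∧ DifferentiableAt ℂ ψ t₀ ∧
      ∀ᶠ t in 𝓝 t₀, h t ^ 2 = D.P t ∧ om (D.pt t (h t)) = φ t ∧ om (D.pt t (-h t)) = ψ t := by
  obtain ⟨y, hy⟩ := IsAlgClosed.exists_pow_nat_eq (D.P t₀) two_pos
  have hy0 : y ≠ 0 := by
    rintro rfl
    exact ht (by rw [← hy, zero_pow two_ne_zero])
  have hy' : (-y) ^ 2 = D.P t₀ := by rw [neg_sq, hy]
  obtain ⟨h, φ, a1, a2, a3, a4⟩ := Atl.WGen2_one (H _ (tt_pt hy)) hy hy0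
  obtain ⟨h', ψ, b1, b2, b3, b4⟩ := Atl.WGen2_one (H _ (tt_pt hy')) hy' (neg_ne_zero.2 hy0)
  have c1 : ∀ᶠ w in 𝓝 (0 : ℂ), h' w - h w ≠ 0 :=
    (b1.sub a1).continuousAt.eventually_ne (by
      rw [Pi.sub_apply, a3, b3]
      intro h0
      exact hy0 (by linear_combination (-1 / 2 : ℂ) * h0))
  have c2 : ∀ {g : ℂ → ℂ}, DifferentiableAt ℂ g 0 → DifferentiableAt ℂ (fun t => g (t - t₀)) t₀ :=
    fun {g} hg => DifferentiableAt.comp (g := g) (f := fun t : ℂ => t - t₀) t₀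
      (by simpa using hg) (by fun_prop)
  have c3 : Tendsto (fun t : ℂ => t - t₀) (𝓝 t₀) (𝓝 0) := by
    have : Continuous fun t : ℂ => t - t₀ := by fun_prop
    simpa using this.tendsto t₀
  refine ⟨_, _, _, c2 a1, c2 a2, c2 b2, ?_⟩
  filter_upwards [c3.eventually a4, c3.eventually b4, c3.eventually c1] with t d1 d2 d3
  rw [add_sub_cancel] at d1 d2
  have d4 : h' (t - t₀) = -h (t - t₀) :=
    (sq_eq_sq_iff_eq_or_eq_neg.1 (d2.1.trans d1.1.symm)).resolve_left (sub_ne_zero.1 d3)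
  exact ⟨d1.1, d1.2, d4 ▸ d2.2⟩

theorem WGen2_neg {p : ℂ → Prop} (h : ∀ᶠ w in 𝓝 (0 : ℂ), p w) : ∀ᶠ w in 𝓝 (0 : ℂ), p (-w) := by
  have : Tendsto (fun w : ℂ => -w) (𝓝 0) (𝓝 0) := by simpa using continuous_neg.tendsto (0 : ℂ)
  exact this.eventually h

theorem Atl.WGen2_two {x₀ : ℂ} (H : ∀ z, D.tt z = x₀ → A.WGen2_L om z) (hx : D.P x₀ = 0) :
    ∃ h φ : ℂ → ℂ, DifferentiableAt ℂ h 0 ∧ DifferentiableAt ℂ φ 0 ∧
      ∀ᶠ w in 𝓝[≠] (0 : ℂ), (w * h (w ^ 2)) ^ 2 = D.P (x₀ + w ^ 2) ∧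
        om (D.pt (x₀ + w ^ 2) (w * h (w ^ 2))) = φ w / (2 * w) ∧
        om (D.pt (x₀ + w ^ 2) (-(w * h (w ^ 2)))) = -φ (-w) / (2 * w) := by
  obtain ⟨z, h, P, he⟩ := A.Gen2_k2 hx
  have hb := ball_mem_nhds (0 : ℂ) P.pos
  obtain ⟨φ, h1, h2⟩ := H z (by
    have h0 := mem_ball_self (x := (0 : ℂ)) P.pos
    rw [← A.Gen2_zero z, he 0 h0, tt_pt (P.on h0).1, zero_pow two_ne_zero, add_zero])
  have key : ∀ᶠ w in 𝓝 (0 : ℂ), w ≠ 0 →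
      om (D.pt (x₀ + w ^ 2) (w * h (w ^ 2))) = φ w / (2 * w) := by
    filter_upwards [hb, h2] with w hw h3 h0
    refine h3 (fun v => x₀ + v ^ 2) (fun v => v * h (v ^ 2)) _ ?_ ((P.on hw).2 h0)
      (by simpa using (hasDerivAt_pow 2 w).const_add x₀) (mul_ne_zero two_ne_zero h0)
    filter_upwards [isOpen_ball.mem_nhds hw] with v hv
    exact ⟨he v hv, (P.on hv).1⟩
  refine ⟨h, φ, P.hol.differentiableAt (ball_mem_nhds _ (pow_pos P.pos 2)), h1, ?_⟩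
  filter_upwards [nhdsWithin_le_nhds hb, self_mem_nhdsWithin, nhdsWithin_le_nhds key,
    nhdsWithin_le_nhds (WGen2_neg key)] with w hw h0 k1 k2
  have h3 : w ≠ 0 := h0
  have h4 := k2 (neg_ne_zero.2 h3)
  rw [neg_sq, neg_mul, mul_neg, div_neg, ← neg_div] at h4
  exact ⟨(P.on hw).1, k1 h3, h4⟩

theorem Atl.WGen2_three (hD : D.Ok) (H : A.WGen2_L om OnePoint.infty) :
    ∃ h φ : ℂ → ℂ, DifferentiableAt ℂ h 0 ∧ DifferentiableAt ℂ φ 0 ∧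
      ∀ᶠ w in 𝓝[≠] (0 : ℂ), D.P (w ^ 2)⁻¹ ≠ 0 ∧
        (h (w ^ 2) / w ^ (D.p + D.q + 1)) ^ 2 = D.P (w ^ 2)⁻¹ ∧
        om (D.pt (w ^ 2)⁻¹ (h (w ^ 2) / w ^ (D.p + D.q + 1))) = -(w ^ 3 * φ w / 2) ∧
        om (D.pt (w ^ 2)⁻¹ (-(h (w ^ 2) / w ^ (D.p + D.q + 1)))) = w ^ 3 * φ (-w) / 2 := by
  obtain ⟨h, P, he⟩ : ∃ h, D.Par3 (A.δ OnePoint.infty) h ∧
      ∀ w ∈ ball (0 : ℂ) (A.δ OnePoint.infty), w ≠ 0 → (A.ch OnePoint.infty).symm w =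
        D.pt (w ^ 2)⁻¹ (h (w ^ 2) / w ^ (D.p + D.q + 1)) := by
    rcases A.kind OnePoint.infty with ⟨t₀, h, H, he⟩ | ⟨x, h, H, he⟩ | ⟨h, H, -, he⟩
    · have h0 := mem_ball_self (x := (0 : ℂ)) H.pos
      have h1 := he 0 h0
      rw [A.Gen2_zero] at h1
      exact absurd h1.symm (pt_ne (H.sq 0 h0))
    · have h0 := mem_ball_self (x := (0 : ℂ)) H.pos
      have h1 := he 0 h0
      rw [A.Gen2_zero] at h1
      exact absurd h1.symm (pt_ne (H.on h0).1)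
    · exact ⟨h, H, he⟩
  have hb := ball_mem_nhds (0 : ℂ) P.pos
  obtain ⟨φ, h1, h2⟩ := H
  have key : ∀ᶠ w in 𝓝 (0 : ℂ), w ≠ 0 →
      om (D.pt (w ^ 2)⁻¹ (h (w ^ 2) / w ^ (D.p + D.q + 1))) = φ w / (-2 / w ^ 3) := by
    filter_upwards [hb, h2] with w hw h3 h0
    refine h3 (fun v => (v ^ 2)⁻¹) (fun v => h (v ^ 2) / v ^ (D.p + D.q + 1)) _ ?_
      (P.on hw h0).2 (((hasDerivAt_pow 2 w).inv (pow_ne_zero 2 h0)).congr_deriv ?_)
      (div_ne_zero (by norm_num) (pow_ne_zero 3 h0))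
    · filter_upwards [isOpen_ball.mem_nhds hw, isOpen_compl_singleton.mem_nhds h0] with v hv h1
      exact ⟨he v hv h1, (P.on hv h1).1⟩
    · simp only [Nat.cast_ofNat, Nat.add_one_sub_one, pow_one]
      field_simp
  refine ⟨h, φ, P.hol.differentiableAt (ball_mem_nhds _ (pow_pos P.pos 2)), h1, ?_⟩
  filter_upwards [nhdsWithin_le_nhds hb, self_mem_nhdsWithin, nhdsWithin_le_nhds key,
    nhdsWithin_le_nhds (WGen2_neg key)] with w hw h0 k1 k2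
  have h3 : w ≠ 0 := h0
  have h4 := k2 (neg_ne_zero.2 h3)
  rw [neg_sq, hD.par.add_one.neg_pow, div_neg] at h4
  refine ⟨(P.on hw h3).2, (P.on hw h3).1, ?_, ?_⟩
  · rw [k1 h3]
    field_simp
  · rw [h4]
    field_simp

theorem Atl.WGen2_odd (hD : D.Ok) {U : Set ℂ} (hU : IsOpen U) (h0 : ∀ x, D.P x = 0 → x ∈ U)
    (hR : ∃ R : ℝ, ∀ t : ℂ, R < ‖t‖ → t ∈ U) (H : ∀ z, D.tt z ∈ U → A.WGen2_L om z) :
    ∃ F : ℂ → ℂ, DifferentiableOn ℂ F U ∧ (∀ z ∉ U, F z = 0) ∧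
      (∀ t ∈ U, ∀ y, y ^ 2 = D.P t → D.P t ≠ 0 → F t = (om (D.pt t y) + om (D.pt t (-y))) / 2) ∧
      ∃ C R : ℝ, ∀ t, R ≤ ‖t‖ → ‖F t‖ * ‖t‖ ≤ C * ‖t‖ ^ 0 := by
  choose r hr using fun t => IsAlgClosed.exists_pow_nat_eq (D.P t) two_pos
  have hs : ∀ {t y : ℂ}, y ^ 2 = D.P t → om (D.pt t (r t)) + om (D.pt t (-r t)) =
      om (D.pt t y) + om (D.pt t (-y)) := fun {t y} h =>
    Gen2_sym (G := fun y => om (D.pt t y)) (h.trans (hr t).symm)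
  obtain ⟨F, hF, hF0, hFe⟩ := WGen2_fill
    (f := fun t => (om (D.pt t (r t)) + om (D.pt t (-r t))) / 2) hU D.P_finite
    (fun x hxU hx => by
      obtain ⟨h, φ, ψ, -, a2, a3, a4⟩ := Atl.WGen2_reg (fun z hz => H z (hz ▸ hxU)) hx
      refine ((a2.add a3).div_const 2).congr_of_eventuallyEq ?_
      filter_upwards [a4] with t h1
      rw [hs h1.1, h1.2.1, h1.2.2, Pi.add_apply]) (fun x hx => by
      obtain ⟨h, φ, -, a2, a3⟩ := Atl.WGen2_two (fun z hz => H z (hz ▸ h0 x hx)) hx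
      obtain ⟨C, hC⟩ := Gen2_odd a2
      refine ⟨C / 2, Gen2_pull ?_⟩
      filter_upwards [a3, hC] with w h1 h2
      rw [hs h1.1, h1.2.1, h1.2.2, ← add_div, ← sub_eq_add_neg, norm_div, Complex.norm_ofNat]
      linarith)
  refine ⟨F, hF, hF0, fun t ht y hy hP => by rw [hFe t ht hP, hs hy], ?_⟩
  obtain ⟨h, φ, -, a2, a3⟩ := Atl.WGen2_three hD (H _ (h0 0 (by simp [P])))
  obtain ⟨C, hC⟩ := Gen2_bdd (g := fun w => w * (φ (-w) - φ w) / 4)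
    (((differentiableAt_id.mul ((Gen2_neg a2).sub a2)).div_const 4).continuousAt)
  obtain ⟨ρ, hρ⟩ := Gen2_far (Q := fun z => z ∈ U → ‖F z‖ * ‖z‖ ≤ C * ‖z‖ ^ 0) (by
    filter_upwards [a3, nhdsWithin_le_nhds hC, self_mem_nhdsWithin] with w h1 h2 h3 h5
    have h4 : w ≠ 0 := h3
    rw [hFe _ h5 h1.1, hs h1.2.1, h1.2.2.1, h1.2.2.2, pow_zero, mul_one, ← norm_mul]
    refine le_of_eq_of_le (congrArg _ ?_) h2
    field_simp
    ring)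
  obtain ⟨R, hR⟩ := hR
  exact ⟨C, max ρ (R + 1), fun t ht => hρ t ((le_max_left _ _).trans ht)
    (hR t ((lt_add_one R).trans_le ((le_max_right _ _).trans ht)))⟩

theorem Atl.WGen2_even (hD : D.Ok) {U : Set ℂ} (hU : IsOpen U) (h0 : ∀ x, D.P x = 0 → x ∈ U)
    (hR : ∃ R : ℝ, ∀ t : ℂ, R < ‖t‖ → t ∈ U) (H : ∀ z, D.tt z ∈ U → A.WGen2_L om z) :
    ∃ F : ℂ → ℂ, DifferentiableOn ℂ F U ∧ (∀ z ∉ U, F z = 0) ∧
      (∀ t ∈ U, ∀ y, y ^ 2 = D.P t → D.P t ≠ 0 →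
        F t = (om (D.pt t y) * y + om (D.pt t (-y)) * -y) / 2) ∧
      ∃ C R : ℝ, ∀ t, R ≤ ‖t‖ → ‖F t‖ * ‖t‖ ≤ C * ‖t‖ ^ ((D.p + D.q) / 2) := by
  choose r hr using fun t => IsAlgClosed.exists_pow_nat_eq (D.P t) two_pos
  have hs : ∀ {t y : ℂ}, y ^ 2 = D.P t → om (D.pt t (r t)) * r t + om (D.pt t (-r t)) * -r t =
      om (D.pt t y) * y + om (D.pt t (-y)) * -y := fun {t y} h =>
    Gen2_sym (G := fun y => om (D.pt t y) * y) (h.trans (hr t).symm)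
  obtain ⟨F, hF, hF0, hFe⟩ := WGen2_fill
    (f := fun t => (om (D.pt t (r t)) * r t + om (D.pt t (-r t)) * -r t) / 2) hU D.P_finite
    (fun x hxU hx => by
      obtain ⟨h, φ, ψ, a1, a2, a3, a4⟩ := Atl.WGen2_reg (fun z hz => H z (hz ▸ hxU)) hx
      refine (((a2.mul a1).add (a3.mul a1.neg)).div_const 2).congr_of_eventuallyEq ?_
      filter_upwards [a4] with t h1
      rw [hs h1.1, h1.2.1, h1.2.2]
      rfl) (fun x hx => by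
      obtain ⟨h, φ, a1, a2, a3⟩ := Atl.WGen2_two (fun z hz => H z (hz ▸ h0 x hx)) hx
      obtain ⟨C, hC⟩ := Gen2_bdd (g := fun w => (φ w + φ (-w)) * h (w ^ 2) / 4)
        ((((a2.add (Gen2_neg a2)).mul (Gen2_sq a1)).div_const 4).continuousAt)
      refine ⟨C, Gen2_pull ?_⟩
      filter_upwards [a3, nhdsWithin_le_nhds hC, self_mem_nhdsWithin] with w h1 h2 h3
      have h4 : w ≠ 0 := h3
      rw [hs h1.1, h1.2.1, h1.2.2]
      refine le_of_eq_of_le (congrArg _ ?_) h2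
      field_simp
      ring)
  refine ⟨F, hF, hF0, fun t ht y hy hP => by rw [hFe t ht hP, hs hy], ?_⟩
  obtain ⟨h, φ, a1, a2, a3⟩ := Atl.WGen2_three hD (H _ (h0 0 (by simp [P])))
  obtain ⟨C, hC⟩ := Gen2_bdd (g := fun w => -((φ w + φ (-w)) * h (w ^ 2) / 4))
    ((((a2.add (Gen2_neg a2)).mul (Gen2_sq a1)).div_const 4).neg.continuousAt)
  obtain ⟨ρ, hρ⟩ := Gen2_far
    (Q := fun z => z ∈ U → ‖F z‖ * ‖z‖ ≤ C * ‖z‖ ^ ((D.p + D.q) / 2)) (by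
    filter_upwards [a3, nhdsWithin_le_nhds hC, self_mem_nhdsWithin] with w h1 h2 h3 h5
    have h4 : w ≠ 0 := h3
    rw [hFe _ h5 h1.1, hs h1.2.1, h1.2.2.1, h1.2.2.2, ← norm_mul]
    refine le_of_eq_of_le ?_ (mul_le_mul_of_nonneg_right h2 (by positivity))
    rw [← norm_pow, ← norm_mul]
    congr 1
    obtain ⟨g, hg⟩ := hD.par
    rw [hg, show (g + g) / 2 = g by omega, inv_pow, ← pow_mul, two_mul, pow_succ w (g + g)]
    field_simp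
    ring)
  obtain ⟨R, hR⟩ := hR
  exact ⟨C, max ρ (R + 1), fun t ht => hρ t ((le_max_left _ _).trans ht)
    (hR t ((lt_add_one R).trans_le ((le_max_right _ _).trans ht)))⟩

end Dat

theorem Wd.Ok0.exists_rep {ι : Type} [Fintype ι] {W : Wd ι} (h : W.Ok0) (A : W.D.Atl) :
    letI := A.charted
    ∀ om ∈ formsU W.U W.O W.g, ∃ a ∈ W.Fs (fun _ _ => 1) (fun e => -W.s e.1) 0,
      ∃ b ∈ W.Fs W.my W.ry ((W.D.p + W.D.q) / 2), W.Rep a b om := by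
  intro om hom
  have H : ∀ z, W.D.tt z ∈ W.Om → A.WGen2_L om z := fun z hz => by
    obtain ⟨φ, h1, h2⟩ := hom.2.1 z hz
    exact A.WGen2_of h1 h2
  have hR : ∃ R : ℝ, ∀ t : ℂ, R < ‖t‖ → t ∈ W.Om :=
    (Pl.om_far (P := W.toPl)).imp fun R hR t ht => (hR t ht).2
  obtain ⟨a, a1, a2, a3, a4⟩ := Dat.Atl.WGen2_odd h.d Pl.isOpen_om
    (fun x hx => (h.zero_fd hx).2) hR H
  obtain ⟨b, b1, b2, b3, b4⟩ := Dat.Atl.WGen2_even h.d Pl.isOpen_om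
    (fun x hx => (h.zero_fd hx).2) hR H
  have k1 : ∀ e, ∀ v ∈ W.Ann e, W.c e + v ∈ W.Om ∧ W.yb e v ^ 2 = W.D.P (W.c e + v) ∧
      W.D.P (W.c e + v) ≠ 0 ∧ W.yb e v ≠ 0 ∧ W.yb e 0 ≠ 0 ∧ v ≠ 0 := fun e v hv => by
    have h1 := h.pl.ann_sub e hv
    have h2 : v ∈ ball (0 : ℂ) (2 * W.ρ e) := mem_ball_zero_iff.2 h1.2
    refine ⟨h.pl.ann2_mem h1, h.ysq e v h2, h.free e v h2, h.yb_ne h1.2, h.yb_ne ?_,
      h.pl.ann_ne hv⟩
    have := h.pl.ρ_pos e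
    rw [norm_zero]
    positivity
  have k2 : ∀ e, ∀ v ∈ W.Ann e, ∀ ε : ℂ, ε = 1 ∨ ε = -1 →
      om (W.D.pt (W.c e + v) (ε * W.yb e v)) =
        om (W.D.pt (W.c (op e) + W.s e.1 / v) (ε * W.yb (op e) (W.s e.1 / v))) *
          -(W.s e.1 / v ^ 2) := fun e v hv ε hε => by
    have h1 := hom.2.2 _ (h.g_pt hv hε).1
    rwa [h.tr_g A hv hε rfl, (h.g_pt hv hε).2] at h1
  refine ⟨a, ⟨a1, a2, fun e v hv => ?_, a4⟩, b, ⟨b1, b2, fun e v hv => ?_, b4⟩,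
    fun t ht y hy hP => ?_⟩
  · obtain ⟨c1, c2, c3, -⟩ := k1 e v hv
    obtain ⟨d1, d2, d3, -⟩ := k1 _ _ (h.pl.ann_op hv)
    have e1 := k2 e v hv 1 (Or.inl rfl)
    have e2 := k2 e v hv (-1) (Or.inr rfl)
    simp only [one_mul, neg_mul] at e1 e2
    rw [a3 _ c1 _ c2 c3, a3 _ d1 _ d2 d3, e1, e2]
    ring
  · obtain ⟨c1, c2, c3, c4, c5, c6⟩ := k1 e v hv
    obtain ⟨d1, d2, d3, d4, d5, -⟩ := k1 _ _ (h.pl.ann_op hv)
    have e1 := k2 e v hv 1 (Or.inl rfl)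
    have e2 := k2 e v hv (-1) (Or.inr rfl)
    simp only [one_mul, neg_mul] at e1 e2
    rw [b3 _ c1 _ c2 c3, b3 _ d1 _ d2 d3, e1, e2]
    simp only [Wd.my, Wd.ry]
    field_simp
    ring
  · have hy0 : y ≠ 0 := by
      rintro rfl
      exact hP (by rw [← hy, zero_pow two_ne_zero])
    rw [a3 t ht y hy hP, b3 t ht y hy hP]
    field_simp
    ring

end Pool.Agent.MP_92463a_gt
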