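import Pool.Agent.MP_92463a_gt.WGen1
import Pool.Agent.MP_92463a_gt.WGen2

open Set Complex Filter Metric
open scoped Topology ComplexConjugate ContDiff Manifold

noncomputable section

namespace Pool.Agent.MP_92463a_gt

theorem Dat.WGen3_tr {D : Dat} (hD : D.Ok) (A : D.Atl) {z z' : D.N} (hz : z' ∈ (A.ch z).source) :
    deriv (A.ch z ∘ (A.ch z').symm) 0 ≠ 0 := by
  have h0 := Dat.Gen1_zero A z'
  have e0 := Dat.Gen1_symm A z'
  have h1 := A.trans hD z' z h0 (by rwa [e0])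
  have h2 := A.trans hD z z' (A.tgt z ▸ (A.ch z).map_source hz)
    (by rw [(A.ch z).left_inv hz]; exact A.mem z')
  have h3 : (A.ch z' ∘ (A.ch z).symm) ∘ (A.ch z ∘ (A.ch z').symm) =ᶠ[𝓝 0] id := by
    have ht : (0 : ℂ) ∈ (A.ch z').target := by rwa [A.tgt]
    have hc : ContinuousAt (A.ch z').symm 0 := (A.ch z').continuousAt_symm ht
    filter_upwards [hc ((A.ch z).open_source.mem_nhds (by rwa [e0])),
      (A.ch z').open_target.mem_nhds ht] with v hv1 hv2
    simp only [Function.comp, id]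
    rw [(A.ch z).left_inv hv1, (A.ch z').right_inv hv2]
  have h4 : (A.ch z ∘ (A.ch z').symm) 0 = A.ch z z' := by simp only [Function.comp, e0]
  have h5 := deriv_comp 0 (h4 ▸ h2.differentiableAt) h1.differentiableAt
  rw [h3.deriv_eq, deriv_id] at h5
  intro h6
  rw [h6, mul_zero] at h5
  exact one_ne_zero h5

theorem Wd.Ok0.WGen3_zero {ι : Type} [Fintype ι] {W : Wd ι} (h : W.Ok0) (A : W.D.Atl)
    {om : W.D.N → ℂ} (h1 : letI := A.charted; om ∈ formsU W.U W.O W.g) (h2 : W.Rep 0 0 om) :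
    om = 0 := by
  let := A.charted
  have h3 : ∀ z, W.D.yy z ≠ 0 → om z = 0 := fun z hz => by
    by_cases hU : z ∈ W.U
    · have h4 : z ≠ OnePoint.infty := fun e => hz (by rw [e, Dat.yy_infty])
      have h5 := h2 _ hU _ (Dat.yy_sq z) (Dat.yy_sq z ▸ pow_ne_zero 2 hz)
      rw [Dat.pt_tt h4] at h5
      simpa using h5
    · exact h1.1 z hU
  funext z
  by_cases hU : z ∈ W.U
  · obtain ⟨φ, h4, h5⟩ := h1.2.1 z hU
    have h0 := Dat.Gen1_zero A z
    have ht : (0 : ℂ) ∈ (A.ch z).target := by rwa [A.tgt]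
    have hc : ContinuousAt (A.ch z).symm 0 := (A.ch z).continuousAt_symm ht
    have e1 : chartAt ℂ z z = 0 := A.ctr z
    rw [e1] at h4
    have h6 : φ 0 = 0 := by
      refine tendsto_nhds_unique (h4.continuousAt.tendsto.mono_left
        (nhdsWithin_le_nhds (s := {0}ᶜ))) (tendsto_const_nhds.congr' ?_)
      rw [← Dat.Gen1_symm A z] at h5
      filter_upwards [mem_nhdsWithin_of_mem_nhds (isOpen_ball.mem_nhds h0),
        mem_nhdsWithin_of_mem_nhds (hc h5), self_mem_nhdsWithin] with v hv1 hv2 hv3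
      have hv : v ∈ (A.ch z).target := by rwa [A.tgt]
      have h7 := h3 _ fun e => hv3 (A.center z hv1 e)
      have h8 := Dat.WGen3_tr h.d A ((A.ch z).map_target hv)
      simp only [mem_preimage, mem_ofPred_eq, Dat.Gen1_symm] at hv2
      rw [h7] at hv2
      have h9 : chartAt ℂ z ((A.ch z).symm v) = v := (A.ch z).right_inv hv
      have h10 : tr id ((A.ch z).symm v) z = deriv (A.ch z ∘ (A.ch ((A.ch z).symm v)).symm) 0 := by
        rw [← A.ctr ((A.ch z).symm v)]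
        rfl
      rw [h9, h10] at hv2
      exact ((mul_eq_zero.1 hv2.symm).resolve_right h8).symm
    rw [h5.self_of_nhds, e1, h6, zero_mul]
    rfl
  · exact h1.1 z hU

theorem WGen3_fun {D : Dat} {S : Set ℂ} (hS : IsOpen S) {a : ℂ → ℂ} (h1 : DifferentiableOn ℂ a S)
    (h2 : ∀ t ∉ S, a t = 0) (h3 : ∀ t ∈ S, D.P t ≠ 0 → a t = 0) : a = 0 := by
  funext t
  by_cases ht : t ∈ S
  · refine tendsto_nhds_unique ((h1.continuousOn.continuousAt
      (hS.mem_nhds ht)).tendsto.mono_left (nhdsWithin_le_nhds (s := {t}ᶜ)))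
      (tendsto_const_nhds.congr' ?_)
    have h4 : IsClosed ({t | D.P t = 0} \ {t}) := (Dat.P_finite.subset sdiff_subset).isClosed
    filter_upwards [mem_nhdsWithin_of_mem_nhds (hS.mem_nhds ht), self_mem_nhdsWithin,
      mem_nhdsWithin_of_mem_nhds (h4.isOpen_compl.mem_nhds fun e => e.2 rfl)] with v hv1 hv2 hv3
    exact (h3 v hv1 fun e => hv3 ⟨e, hv2⟩).symm
  · exact h2 t ht

theorem Wd.Ok0.finrank_forms {ι : Type} [Fintype ι] {W : Wd ι} (h : W.Ok0) (A : W.D.Atl) :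
    letI := A.charted
    Module.finrank ℂ (formsU W.U W.O W.g) = (W.D.p + W.D.q) / 2 + 2 * Fintype.card ι := by
  let := A.charted
  let V : Submodule ℂ ((W.Fs (fun _ _ => 1) (fun e => -W.s e.1) 0 ×
      W.Fs W.my W.ry ((W.D.p + W.D.q) / 2)) × formsU W.U W.O W.g) :=
    { carrier := {x | W.Rep x.1.1 x.1.2 x.2}
      add_mem' := fun {x y} hx hy t ht u hu h0 => by
        change x.2.1 _ + y.2.1 _ = x.1.1.1 t + y.1.1.1 t + (x.1.2.1 t + y.1.2.1 t) / u
        rw [hx t ht u hu h0, hy t ht u hu h0]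
        ring
      zero_mem' := fun t ht u hu h0 => by simp
      smul_mem' := fun a x hx t ht u hu h0 => by
        change a * x.2.1 _ = a * x.1.1.1 t + a * x.1.2.1 t / u
        rw [hx t ht u hu h0]
        ring }
  have h1 : Function.Bijective ((LinearMap.fst ℂ _ _).comp V.subtype) := by
    refine ⟨(injective_iff_map_eq_zero _).2 ?_, fun c => ?_⟩
    · rintro ⟨⟨c, om⟩, h'⟩ (rfl : c = 0)
      obtain rfl : om = 0 := Subtype.ext (h.WGen3_zero A om.2 h')
      rfl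
    · obtain ⟨om, h2, h3⟩ := h.exists_form A c.1.2 c.2.2
      exact ⟨⟨(c, ⟨om, h2⟩), h3⟩, rfl⟩
  have h2 : Function.Bijective ((LinearMap.snd ℂ _ _).comp V.subtype) := by
    refine ⟨(injective_iff_map_eq_zero _).2 ?_, fun om => ?_⟩
    · rintro ⟨⟨⟨a, b⟩, om⟩, h'⟩ (rfl : om = 0)
      have h3 : ∀ t ∈ W.Om, W.D.P t ≠ 0 → a.1 t = 0 ∧ b.1 t = 0 := fun t ht h0 => by
        have e1 : 0 = a.1 t + b.1 t / W.D.Y t := h' t ht _ (Dat.Y_sq h0) h0
        have e2 : 0 = a.1 t + b.1 t / -W.D.Y t := h' t ht _ (by rw [neg_sq, Dat.Y_sq h0]) h0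
        rw [div_neg] at e2
        have e3 : b.1 t / W.D.Y t = 0 := by linear_combination (e2 - e1) / 2
        exact ⟨by linear_combination -(e1 + e2) / 2,
          (div_eq_zero_iff.1 e3).resolve_right (Dat.Y_ne t)⟩
      obtain rfl : a = 0 := Subtype.ext
        (WGen3_fun Pl.isOpen_om a.2.1 a.2.2.1 fun t ht h0 => (h3 t ht h0).1)
      obtain rfl : b = 0 := Subtype.ext
        (WGen3_fun Pl.isOpen_om b.2.1 b.2.2.1 fun t ht h0 => (h3 t ht h0).2)
      rfl
    · obtain ⟨a, ha, b, hb, h3⟩ := h.exists_rep A om.1 om.2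
      exact ⟨⟨((⟨a, ha⟩, ⟨b, hb⟩), om), h3⟩, rfl⟩
  obtain ⟨f1, e1⟩ := Pl.fs_finrank h.pl Pl.wt_one h.ce (fun e => by simp [sq]) 0
  obtain ⟨f2, e2⟩ := Pl.fs_finrank h.pl h.wy h.co h.ry_mul ((W.D.p + W.D.q) / 2)
  rw [← (LinearEquiv.ofBijective _ h2).finrank_eq, (LinearEquiv.ofBijective _ h1).finrank_eq,
    Module.finrank_prod, e1, e2]
  ring

end Pool.Agent.MP_92463a_gt
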