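import Pool.Agent.MP_92463a_gt.WBas
import Pool.Agent.MP_92463a_gt.Pt

open Set Complex Filter Metric
open scoped Topology ComplexConjugate ContDiff Manifold

noncomputable section

namespace Pool.Agent.MP_92463a_gt

namespace Wd

variable {ι : Type} [Fintype ι] {W : Wd ι}

theorem WGl1_lt (h : W.Ok0) {e : ι × Bool} {v : ℂ} (hv : v ∈ W.Ann e) : ‖v‖ < 2 * W.ρ e := by
  have := h.pl.ρ_pos e
  have := hv.2
  linarith

theorem WGl1_P0 : W.D.P (W.D.tt OnePoint.infty) = 0 :=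
  Dat.P_eq_zero.2 (Or.inl (Or.inl rfl))

theorem WGl1_ne (h : W.Ok0) {e : ι × Bool} {z : W.D.N} (hz : ‖W.D.tt z - W.c e‖ < 2 * W.ρ e) :
    z ≠ OnePoint.infty := by
  rintro rfl
  exact (h.zero_far WGl1_P0 e).not_gt hz

theorem WGl1_g (h : W.Ok0) {e : ι × Bool} {z : W.D.N} (hz : W.D.tt z - W.c e ∈ W.Ann e) :
    W.g z = W.D.pt (W.c (op e) + W.s e.1 / (W.D.tt z - W.c e))
      (W.D.yy z / W.yb e (W.D.tt z - W.c e) * W.yb (op e) (W.s e.1 / (W.D.tt z - W.c e))) := by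
  have hex : ∃ e, W.D.tt z - W.c e ∈ W.Ann e := ⟨e, hz⟩
  have he : hex.choose = e := h.pl.port_eq (WGl1_lt h hex.choose_spec) (WGl1_lt h hz)
  rw [g, dif_pos hex, he]

theorem WGl1_eps (h : W.Ok0) {e : ι × Bool} {z : W.D.N} (hz : ‖W.D.tt z - W.c e‖ < 2 * W.ρ e) :
    W.D.yy z / W.yb e (W.D.tt z - W.c e) = 1 ∨ W.D.yy z / W.yb e (W.D.tt z - W.c e) = -1 := by
  have h1 := h.ysq e _ (mem_ball_zero_iff.2 hz)
  rw [add_sub_cancel, ← Dat.yy_sq] at h1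
  rw [← sq_eq_one_iff, div_pow, ← h1, div_self (pow_ne_zero _ (h.yb_ne hz))]

theorem WGl1_sq (h : W.Ok0) {e : ι × Bool} {v : ℂ} (hv : ‖v‖ < 2 * W.ρ e) {ε : ℂ}
    (hε : ε = 1 ∨ ε = -1) : (ε * W.yb e v) ^ 2 = W.D.P (W.c e + v) := by
  rw [← h.ysq e v (mem_ball_zero_iff.2 hv)]
  rcases hε with rfl | rfl <;> ring

theorem WGl1_open (e : ι × Bool) : IsOpen (({OnePoint.infty}ᶜ : Set W.D.N) ∩
    W.D.tt ⁻¹' {t | t - W.c e ∈ W.Ann e}) :=
  Dat.tt_cont.isOpen_inter_preimage OnePoint.isClosed_infty.isOpen_compl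
    ((Pl.isOpen_ann e).preimage (continuous_id.sub continuous_const))

theorem WGl1_closed (e : ι × Bool) :
    IsClosed {z : W.D.N | z ≠ OnePoint.infty ∧ ‖W.D.tt z - W.c e‖ ≤ W.ρ e} := by
  have h1 : IsOpen (({OnePoint.infty}ᶜ : Set W.D.N) ∩ W.D.tt ⁻¹' {t | W.ρ e < ‖t - W.c e‖}) :=
    Dat.tt_cont.isOpen_inter_preimage OnePoint.isClosed_infty.isOpen_compl
      (isOpen_lt continuous_const (continuous_id.sub continuous_const).norm)
  rw [← isOpen_compl_iff]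
  convert (Dat.Pt_open (‖W.c e‖ + W.ρ e)).union h1 using 1
  ext z
  by_cases hz : z = OnePoint.infty
  · simp [hz]
  simp only [mem_compl_iff, mem_setOf_eq, ne_eq, hz, not_false_eq_true, true_and, not_le,
    mem_union, false_or, mem_inter_iff, mem_singleton_iff, mem_preimage]
  refine ⟨Or.inr, fun h => h.elim (fun h => ?_) id⟩
  have := norm_sub_norm_le (W.D.tt z) (W.c e)
  linarith

theorem Ok0.g_pt (h : W.Ok0) {e : ι × Bool} {v : ℂ} (hv : v ∈ W.Ann e) {ε : ℂ}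
    (hε : ε = 1 ∨ ε = -1) :
    W.D.pt (W.c e + v) (ε * W.yb e v) ∈ W.O ∧ W.g (W.D.pt (W.c e + v) (ε * W.yb e v)) =
      W.D.pt (W.c (op e) + W.s e.1 / v) (ε * W.yb (op e) (W.s e.1 / v)) := by
  have hs := WGl1_sq h (WGl1_lt h hv) hε
  have h1 : W.D.tt (W.D.pt (W.c e + v) (ε * W.yb e v)) - W.c e = v := by
    rw [Dat.tt_pt hs, add_sub_cancel_left]
  have h2 : W.D.tt (W.D.pt (W.c e + v) (ε * W.yb e v)) - W.c e ∈ W.Ann e := by rwa [h1]
  refine ⟨⟨e, h2⟩, ?_⟩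
  rw [WGl1_g h h2, h1, Dat.yy_pt hs, mul_div_cancel_right₀ _ (h.yb_ne (WGl1_lt h hv))]

theorem Ok0.mem_O (h : W.Ok0) {z : W.D.N} (hz : z ∈ W.O) : ∃ e, ∃ v ∈ W.Ann e, ∃ ε : ℂ,
    (ε = 1 ∨ ε = -1) ∧ z = W.D.pt (W.c e + v) (ε * W.yb e v) := by
  obtain ⟨e, he⟩ := hz
  have h1 := WGl1_lt h he
  refine ⟨e, _, he, _, WGl1_eps h h1, ?_⟩
  rw [add_sub_cancel, div_mul_cancel₀ _ (h.yb_ne h1), Dat.pt_tt (WGl1_ne h h1)]

theorem Ok0.sq_pt (h : W.Ok0) {e : ι × Bool} {v : ℂ} (hv : ‖v‖ < 2 * W.ρ e) {ε : ℂ}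
    (hε : ε = 1 ∨ ε = -1) : (ε * W.yb e v) ^ 2 = W.D.P (W.c e + v) :=
  WGl1_sq h hv hε

theorem Ok0.S_mem (h : W.Ok0) {z : W.D.N} (hz : z ∈ W.D.S) : z ∈ W.U ∧ z ∉ W.O := by
  have h0 : W.D.P (W.D.tt z) = 0 := Dat.P_eq_zero.2 (Or.inl (Dat.mem_S.1 hz))
  exact ⟨(h.zero_fd h0).2, fun ⟨e, he⟩ => (h.zero_far h0 e).not_gt (WGl1_lt h he)⟩

theorem Ok0.isOpen_U (h : W.Ok0) : IsOpen W.U := by
  obtain ⟨R, hR⟩ := Pl.om_far (P := W.toPl)
  have h1 : IsOpen (({OnePoint.infty}ᶜ : Set W.D.N) ∩ W.D.tt ⁻¹' W.Om) :=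
    Dat.tt_cont.isOpen_inter_preimage OnePoint.isClosed_infty.isOpen_compl Pl.isOpen_om
  convert (Dat.Pt_open R).union h1 using 1
  ext z
  refine ⟨fun hz => ?_, ?_⟩
  · by_cases h2 : z = OnePoint.infty
    · exact Or.inl (Or.inl h2)
    · exact Or.inr ⟨h2, hz⟩
  · rintro ((rfl | h2) | h2)
    · exact (h.zero_fd WGl1_P0).2
    · exact (hR _ h2).2
    · exact h2.2

theorem Ok0.isOpen_O (h : W.Ok0) : IsOpen W.O := by
  convert isOpen_iUnion fun e => WGl1_open (W := W) e using 1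
  ext z
  simp only [mem_iUnion]
  exact ⟨fun ⟨e, he⟩ => ⟨e, WGl1_ne h (WGl1_lt h he), he⟩, fun ⟨e, he⟩ => ⟨e, he.2⟩⟩

theorem Ok0.isCompact_Cp (h : W.Ok0) : IsCompact W.Cp := by
  have h1 : IsOpen (({OnePoint.infty}ᶜ : Set W.D.N) ∩ W.D.tt ⁻¹' W.Fdᶜ) :=
    Dat.tt_cont.isOpen_inter_preimage OnePoint.isClosed_infty.isOpen_compl
      Pl.isClosed_fd.isOpen_compl
  refine IsClosed.isCompact ?_
  rw [← isOpen_compl_iff]
  convert h1 using 1
  ext z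
  refine ⟨fun hz => ⟨?_, hz⟩, fun hz => hz.2⟩
  rintro rfl
  exact hz (h.zero_fd WGl1_P0).1

theorem Ok0.g_cont (h : W.Ok0) : ContinuousOn W.g W.O := by
  rintro z ⟨e, he⟩
  set V := ({OnePoint.infty}ᶜ : Set W.D.N) ∩ W.D.tt ⁻¹' {t | t - W.c e ∈ W.Ann e}
  have hv : ContinuousOn (fun z => W.D.tt z - W.c e) V :=
    (Dat.tt_cont.mono inter_subset_left).sub continuousOn_const
  have hs : ContinuousOn (fun z => W.s e.1 / (W.D.tt z - W.c e)) V :=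
    continuousOn_const.div hv fun z hz => h.pl.ann_ne hz.2
  have h1 : ContinuousOn (fun z => W.yb e (W.D.tt z - W.c e)) V :=
    (h.yhol e).continuousOn.comp hv fun z hz => mem_ball_zero_iff.2 (WGl1_lt h hz.2)
  have h2 : ContinuousOn (fun z => W.yb (op e) (W.s e.1 / (W.D.tt z - W.c e))) V :=
    (h.yhol (op e)).continuousOn.comp hs fun z hz =>
      mem_ball_zero_iff.2 (WGl1_lt h (h.pl.ann_op hz.2))
  have h3 := Dat.pt_cont (D := W.D) (continuousOn_const.add hs (f := fun _ => W.c (op e)))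
    (((Dat.yy_cont.mono inter_subset_left).div h1 fun z hz => h.yb_ne (WGl1_lt h hz.2)).mul h2)
    fun z hz => WGl1_sq h (WGl1_lt h (h.pl.ann_op hz.2)) (WGl1_eps h (WGl1_lt h hz.2))
  have h4 : ContinuousOn W.g V := h3.congr fun z hz => WGl1_g h hz.2
  exact (h4.continuousAt ((WGl1_open e).mem_nhds
    ⟨WGl1_ne h (WGl1_lt h he), he⟩)).continuousWithinAt

theorem Ok0.g_closed (h : W.Ok0) : ∀ z ∈ W.U, ∀ z' ∈ W.U,
    (z, z') ∈ closure {x : W.D.N × W.D.N | x.1 ∈ W.O ∧ x.2 = W.g x.1} → z ∈ W.O ∧ z' = W.g z := by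
  intro z hz z' hz' hc
  let A : ι × Bool → Set W.D.N := fun e =>
    {z | z ≠ OnePoint.infty ∧ ‖W.D.tt z - W.c e‖ ≤ W.ρ e}
  have hK : IsClosed (⋃ e, (A e ×ˢ A (op e)) ∩ (fun x : W.D.N × W.D.N =>
      (W.D.tt x.1 - W.c e) * (W.D.tt x.2 - W.c (op e))) ⁻¹' {W.s e.1}) := by
    refine isClosed_iUnion_of_finite fun e => ContinuousOn.preimage_isClosed_of_isClosed ?_
      ((WGl1_closed e).prod (WGl1_closed (op e))) isClosed_singleton
    exact ((Dat.tt_cont.comp continuousOn_fst fun x hx => hx.1.1).sub continuousOn_const).mul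
      ((Dat.tt_cont.comp continuousOn_snd fun x hx => hx.2.1).sub continuousOn_const)
  have hO : z ∈ W.O := by
    obtain ⟨e, ⟨-, -⟩, h3⟩ := mem_iUnion.1 (closure_minimal (fun x hx => by
      obtain ⟨⟨e, he⟩, hx⟩ := hx
      have h1 := h.pl.ann_op he
      have h2 : W.D.tt x.2 - W.c (op e) = W.s e.1 / (W.D.tt x.1 - W.c e) := by
        rw [hx, WGl1_g h he, Dat.tt_pt (WGl1_sq h (WGl1_lt h h1) (WGl1_eps h (WGl1_lt h he))),
          add_sub_cancel_left]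
      refine mem_iUnion.2 ⟨e, ⟨⟨WGl1_ne h (WGl1_lt h he), he.2.le⟩,
        WGl1_ne h (e := op e) (by rw [h2]; exact WGl1_lt h h1), by rw [h2]; exact h1.2.le⟩, ?_⟩
      change _ * _ = _
      rw [h2, mul_div_cancel₀ _ (h.pl.ann_ne he)]) hK hc)
    have h4 : ‖W.D.tt z - W.c e‖ * ‖W.D.tt z' - W.c (op e)‖ = W.rin (op e) * W.ρ e := by
      have := h.pl.rin_mul (op e)
      rw [op_op, op_fst] at this
      rw [this, ← norm_mul]
      exact congrArg norm h3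
    have h5 := hz e
    have h6 := hz' (op e)
    have h7 := h.pl.rin_pos e
    have h8 := h.pl.rin_pos (op e)
    refine ⟨e, h5, ?_⟩
    by_contra h9
    have := h.pl.ρ_pos e
    nlinarith [not_lt.1 h9]
  refine ⟨hO, ?_⟩
  have := Dat.t2 (D := W.D)
  have h1 : ContinuousAt (fun x : W.D.N × W.D.N => (x.2, W.g x.1)) (z, z') :=
    continuousAt_snd.prodMk (ContinuousAt.comp (g := W.g)
      (h.g_cont.continuousAt (h.isOpen_O.mem_nhds hO)) continuousAt_fst)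
  have h2 := h1.continuousWithinAt.mem_closure hc (t := diagonal W.D.N) fun x hx => hx.2
  rwa [isClosed_diagonal.closure_eq] at h2

end Wd

end Pool.Agent.MP_92463a_gt
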