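import Pool.Agent.MP_92463a_gt.WEnds
import Pool.Agent.MP_92463a_gt.WGl1
import Pool.Agent.MP_92463a_gt.Min2
import Pool.Agent.MP_92463a_gt.Proper

open Set Complex Filter Metric
open scoped Topology ComplexConjugate ContDiff Manifold

noncomputable section

namespace Pool.Agent.MP_92463a_gt

namespace Wd

variable {ι : Type} [Fintype ι] {W : Wd ι} {X : ℂ → ℂ} {H : ℂ → ℝ}

theorem WMin_prim (hW : W.Ok1) (hX : W.Sol X H) {T T' : ℂ → ℂ} {δ : ℝ} (hδ : 0 < δ)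
    (hT : ∀ w ∈ ball (0 : ℂ) δ, HasDerivAt T (T' w) w ∧ T w ∈ W.Om ∧ ¬ W.D.IsE (T w))
    (hT' : DifferentiableOn ℂ T' (ball 0 δ)) :
    ∃ Φ : ℂ → ℂ, ∀ w ∈ ball (0 : ℂ) δ,
      HasDerivAt Φ (W.F3 (T w) * T' w) w ∧ H (T w) = 2 * (Φ w).re := by
  have h1 : DifferentiableOn ℂ (fun w => W.F3 (T w) * T' w) (ball 0 δ) := fun w hw =>
    (((hW.F3_diff (hT w hw).2.1 (hT w hw).2.2).comp w
      (hT w hw).1.differentiableAt).differentiableWithinAt).mul (hT' w hw)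
  obtain ⟨Φ, h0, hΦ⟩ := h1.isExactOn_ball.with_val_at 0 ((H (T 0) / 2 : ℝ) : ℂ)
  have h2 : ∀ w ∈ ball (0 : ℂ) δ,
      HasFDerivAt (fun w => H (T w) - 2 * (Φ w).re) (0 : ℂ →L[ℝ] ℝ) w := fun w hw => by
    have a := (hX.derH _ (hT w hw).2.1 (hT w hw).2.2).comp w
      ((hT w hw).1.hasFDerivAt.restrictScalars ℝ)
    have b := (reCLM.hasFDerivAt.comp w ((hΦ w hw).hasFDerivAt.restrictScalars ℝ)).const_mul 2
    refine (a.sub b).congr_fderiv (ContinuousLinearMap.ext fun v => ?_)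
    simp [hl_apply]
    ring
  refine ⟨Φ, fun w hw => ⟨hΦ w hw, ?_⟩⟩
  have h3 := isOpen_ball.is_const_of_fderiv_eq_zero (𝕜 := ℝ) (convex_ball (0 : ℂ) δ).isPreconnected
    (fun w hw => (h2 w hw).differentiableAt.differentiableWithinAt)
    (fun w hw => (h2 w hw).fderiv) hw (mem_ball_self hδ)
  simp only [h0, ofReal_re] at h3
  linarith

theorem Sol.minimal (hW : W.Ok) (hX : W.Sol X H) (A : W.D.Atl) :
    letI := A.charted
    ∀ z ∈ W.U, z ∉ W.D.S → IsMinimalAt (W.ff X H) z := by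
  letI := A.charted
  intro z hU hz
  have hD := hW.d
  have hc : chartAt ℂ z z = 0 := A.ctr z
  have hz0 : (A.ch z).symm 0 = z := by
    rw [← A.ctr z]
    exact (A.ch z).left_inv (A.mem z)
  have hl : ∀ w, loc (W.ff X H) z w = W.ff X H ((A.ch z).symm w) := fun _ => rfl
  rcases A.kind z with ⟨t₀, h, H₀, he⟩ | ⟨x₀, h, H₀, he⟩ | ⟨h, H₀, he, -⟩
  · have h0 : (0 : ℂ) ∈ ball (0 : ℂ) (A.δ z) := mem_ball_self H₀.pos
    have ht : W.D.tt z = t₀ := by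
      rw [← hz0, he 0 h0, Dat.tt_pt (H₀.sq 0 h0), add_zero]
    have hO : t₀ ∈ W.Om := ht ▸ hU
    obtain ⟨ε, hε, hb⟩ := Metric.isOpen_iff.1 Pl.isOpen_om t₀ hO
    have hδ : 0 < min ε (A.δ z) := lt_min hε H₀.pos
    have H₁ := H₀.mono hδ (min_le_right _ _)
    have hO' : ∀ w ∈ ball (0 : ℂ) (min ε (A.δ z)), t₀ + w ∈ W.Om := fun w hw => hb (by
      rw [mem_ball_iff_norm, add_sub_cancel_left]
      exact (mem_ball_zero_iff.1 hw).trans_le (min_le_left _ _))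
    obtain ⟨Φ₁, Φ₂, hΦ⟩ := hX.toSolX.lf1 hW.toOk1 H₁ hO'
    have hf := (H₁.form hD).2.2
    obtain ⟨Φ₃, h3⟩ := WMin_prim hW.toOk1 hX (T := fun w => t₀ + w) (T' := fun _ => 1) hδ
      (fun w hw => ⟨(hasDerivAt_id w).const_add t₀, hO' w hw,
        fun hE => (hf w hw).1 (Dat.P_eq_zero.2 (Or.inl hE))⟩) (differentiableOn_const 1)
    have h1 := mem_ball_self (x := (0 : ℂ)) hδ
    refine minimal_of_loc (Φ₁ := Φ₁) (Φ₂ := Φ₂) (Φ₃ := Φ₃)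
      (φ₁ := fun w => W.ψ₁ (t₀ + w) ^ 2 * (h w * W.D.R (t₀ + w) / (t₀ + w)))
      (φ₂ := fun w => W.ψ₂ (t₀ + w) ^ 2 * (h w * W.D.R (t₀ + w) * (t₀ + w))⁻¹)
      (φ₃ := fun w => W.F3 (t₀ + w) * 1) ?_ ?_
    · rw [hc]
      filter_upwards [ball_mem_nhds (0 : ℂ) hδ] with w hw
      refine ⟨(hΦ w hw).1, (hΦ w hw).2.1, (h3 w hw).1, ?_, ?_⟩
      · have a1 := H₁.ne w hw
        have a2 := (hf w hw).2.1
        have a3 := (hf w hw).2.2
        rw [F3]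
        field_simp
      · rw [hl, he w (ball_subset_ball (min_le_right _ _) hw), ff, Dat.tt_pt (H₁.sq w hw),
          Dat.yy_pt (H₁.sq w hw), (hΦ w hw).2.2, (h3 w hw).2]
    · rw [hc]
      have a1 := mul_ne_zero (H₁.ne 0 h1) (hf 0 h1).2.2
      exact (hW.ne _ (hO' 0 h1) (hf 0 h1).1).imp
        (fun a => mul_ne_zero (pow_ne_zero 2 a) (div_ne_zero a1 (hf 0 h1).2.1))
        fun a => mul_ne_zero (pow_ne_zero 2 a) (inv_ne_zero (mul_ne_zero a1 (hf 0 h1).2.1))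
  · have h0 : (0 : ℂ) ∈ ball (0 : ℂ) (A.δ z) := mem_ball_self H₀.pos
    have ht : W.D.tt z = x₀ := by
      rw [← hz0, he 0 h0, Dat.tt_pt (H₀.on h0).1]
      simp
    have ha : W.D.IsA x₀ := (Dat.P_eq_zero.1 H₀.br).resolve_left fun hE =>
      hz (Dat.mem_S.2 (ht ▸ hE))
    obtain ⟨δ', hδ, Φ₁, Φ₂, φ₁, φ₂, hne, hΦ⟩ := hX.toSolX.lfA hW H₀ ha
    obtain ⟨Φ₃, h3⟩ := WMin_prim hW.toOk1 hX (T := fun w => x₀ + w ^ 2) (T' := fun w => 2 * w) hδ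
      (fun w hw => ⟨by simpa using (hasDerivAt_pow 2 w).const_add x₀, (hΦ w hw).2.2.1,
        (hΦ w hw).2.2.2.1⟩) (by fun_prop)
    refine minimal_of_loc (Φ₁ := Φ₁) (Φ₂ := Φ₂) (Φ₃ := Φ₃) (φ₁ := φ₁) (φ₂ := φ₂)
      (φ₃ := fun w => W.F3 (x₀ + w ^ 2) * (2 * w)) ?_ ?_
    · rw [hc]
      filter_upwards [ball_mem_nhds (0 : ℂ) H₀.pos, ball_mem_nhds (0 : ℂ) hδ] with w hw hw'
      refine ⟨(hΦ w hw').1, (hΦ w hw').2.1, (h3 w hw').1, (hΦ w hw').2.2.2.2.1, ?_⟩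
      rw [hl, he w hw, ff, Dat.tt_pt (H₀.on hw).1, Dat.yy_pt (H₀.on hw).1,
        (hΦ w hw').2.2.2.2.2, (h3 w hw').2]
    · rw [hc]
      exact hne
  · refine absurd (Dat.mem_S.2 ?_) hz
    rw [← hz0, he]
    exact Or.inl rfl

theorem Sol.ff_glue (hW : W.Ok) (hX : W.Sol X H) : ∀ z ∈ W.O, W.ff X H (W.g z) = W.ff X H z := by
  intro z hz
  obtain ⟨e, v, hv, ε, hε, rfl⟩ := hW.toOk0.mem_O hz
  have h1 := hW.toOk0.sq_pt (hW.pl.ann_sub e hv).2 hε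
  have h2 := hW.toOk0.sq_pt (hW.pl.ann_sub _ (hW.pl.ann_op hv)).2 hε
  have h3 := hX.XA_glue hW.toOk1 e v hv
  rw [(hW.toOk0.g_pt hv hε).2, ff, ff, Dat.tt_pt h1, Dat.yy_pt h1, Dat.tt_pt h2, Dat.yy_pt h2,
    hX.glueH e v hv]
  rw [XA, XA] at h3
  rcases hε with rfl | rfl
  · rw [one_mul, one_mul, h3]
  · rw [neg_one_mul, neg_one_mul, Dat.Xg_neg, Dat.Xg_neg, h3]

theorem Sol.ff_big (hW : W.Ok) (hX : W.Sol X H) :
    ∀ z ∈ W.D.S, Tendsto (fun x => ‖W.ff X H x‖) (𝓝[≠] z) atTop := by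
  intro z hz
  by_cases h : z = OnePoint.infty
  · subst h
    exact tendsto_atTop_mono (fun w => Proper_le2 _ _)
      (hX.top.comp (tendsto_norm_atTop_iff_cobounded.1 Dat.tt_tendsto))
  · classical
    have := Dat.t2 (D := W.D)
    have hE := Dat.mem_S.1 hz
    have hS : ∀ᶠ w in 𝓝[≠] z, ¬ W.D.IsE (W.D.tt w) := by
      have h1 : ((W.D.S.erase z : Finset W.D.N) : Set W.D.N)ᶜ ∈ 𝓝 z :=
        (Finset.finite_toSet _).isClosed.isOpen_compl.mem_nhds (by simp)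
      filter_upwards [self_mem_nhdsWithin, nhdsWithin_le_nhds h1] with w h2 h3 h4
      exact h3 (Finset.mem_coe.2 (Finset.mem_erase.2 ⟨h2, Dat.mem_S.2 h4⟩))
    have hU : ∀ᶠ w in 𝓝[≠] z, W.D.tt w ∈ W.Om :=
      nhdsWithin_le_nhds (hW.toOk0.isOpen_U.mem_nhds (hW.toOk0.S_mem hz).1)
    have ht : Tendsto W.D.tt (𝓝[≠] z) (𝓝 (W.D.tt z)) :=
      ((Dat.tt_cont z h).continuousAt (isOpen_compl_singleton.mem_nhds h)).tendsto.mono_left
        nhdsWithin_le_nhds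
    have h1 : Tendsto (fun w => if 0 ≤ (W.D.tt w).im then W.D.tt w else conj (W.D.tt w))
        (𝓝[≠] z) (𝓝[W.Q] (W.D.tt z)) := by
      refine tendsto_nhdsWithin_iff.2 ⟨?_, ?_⟩
      · refine ht.if' ?_
        have := (continuous_conj.tendsto _).comp ht
        rwa [Proper_conj hE] at this
      · filter_upwards [hS, hU] with w hw hw'
        split_ifs with hi
        · exact ⟨⟨hi, hw⟩, hw'⟩
        · exact ⟨⟨by rw [conj_im]; linarith, fun h => hw (Dat.Xg_isE h)⟩, hW.sy.om hw'⟩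
    refine tendsto_atTop_mono' _ ?_ ((hX.toSolX.end_big hW hE).comp h1)
    filter_upwards [hS] with w hw
    rw [Function.comp, ← hX.toSolX.Xg_norm hW.toOk1 (Dat.yy_sq w) hw]
    exact Proper_le1 _ _

end Wd

end Pool.Agent.MP_92463a_gt
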