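import Pool.Agent.MP_92463a_gt.WInj
import Pool.Agent.MP_92463a_gt.WMin
import Pool.Agent.MP_92463a_gt.WGen3
import Pool.Agent.MP_92463a_gt.Pb4

open Set Complex Filter Metric
open scoped Topology ComplexConjugate ContDiff Manifold

noncomputable section

namespace Pool.Agent.MP_92463a_gt

theorem Wd.Sol.realized {ι : Type} [Fintype ι] {W : Wd ι} {X : ℂ → ℂ} {H : ℂ → ℝ} (hW : W.Ok)
    (hX : W.Sol X H) (hQ : W.QInj X H) :
    Realized ((W.D.p + W.D.q) / 2 + 2 * Fintype.card ι) (W.D.q + 2) := by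
  obtain ⟨A⟩ := hW.d.atl
  letI := A.charted
  have : T2Space W.D.N := Dat.t2
  have := A.isManifold hW.d
  have h := (hW.toOk0.glue A).realized W.D.S (fun z hz => hW.toOk0.S_mem hz) (hX.ff_glue hW)
    (hX.minimal hW A) (hX.inj hW hQ) (hX.ff_big hW)
  rwa [hW.toOk0.finrank_forms A, hW.d.card_S] at h

end Pool.Agent.MP_92463a_gt
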