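import Pool.Agent.MP_92463a_gt.Wd0

open Set Complex Filter Metric
open scoped Topology ComplexConjugate ContDiff Manifold

noncomputable section

namespace Pool.Agent.MP_92463a_gt

/-! Chains of levels and handles. -/

/-- a level `(U, D)` or a handle `(κ, ν)` -/
structure RC where
  H : Bool
  x : ℝ
  y : ℝ

namespace RC

variable (c : RC)

def flip : RC := if c.H then ⟨true, c.x, c.y⁻¹⟩ else ⟨false, c.y, c.x⟩

def a1 : ℝ := if c.H then c.y⁻¹ else -c.y

def a2 : ℝ := if c.H then (c.x * c.y)⁻¹ else c.y ^ 2 / c.x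

def lam : ℝ := if c.H then c.x⁻¹ else c.x * c.y

def Ps : Prop := 0 < c.x ∧ 0 < c.y

/-- the boxes of the cells far away -/
def Far : Prop :=
  if c.H then 0.45 ≤ c.x ∧ 0.8 ≤ c.y else
    0 < c.x ∧ 0 < c.y ∧ c.y ≤ 0.22 ∧ c.y ^ 2 ≤ 0.35 * c.x ∧ c.x * c.y ≤ 0.045

end RC

/-- the factor of `G²` coming from a chain -/
def Phi : List RC → ℂ → ℂ
  | [], _ => 1
  | c :: l, z =>
    if c.H then (1 - c.a1 * z) / (1 - c.a2 * z) * Phi l (c.lam * z)
    else (1 - c.a1 * z) ^ 3 / (1 - c.a2 * z) / Phi l (c.lam * z)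

/-- half its logarithm -/
def Tl : List RC → ℂ → ℂ
  | [], _ => 0
  | c :: l, z =>
    if c.H then (log (1 - c.a1 * z) - log (1 - c.a2 * z)) / 2 + Tl l (c.lam * z)
    else (3 * log (1 - c.a1 * z) - log (1 - c.a2 * z)) / 2 - Tl l (c.lam * z)

def lamP (l : List RC) : ℝ := (l.map RC.lam).prod

def aL : List RC → ℝ → List ℝ
  | [], _ => []
  | c :: l, Λ =>
    if c.H then (Λ * c.a2)⁻¹ :: (Λ * c.a1)⁻¹ :: aL l (Λ * c.lam) else (Λ * c.a2)⁻¹ :: aL l (Λ * c.lam)

def bL : List RC → ℝ → List ℝ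
  | [], _ => []
  | c :: l, Λ => if c.H then bL l (Λ * c.lam) else (Λ * c.y)⁻¹ :: bL l (Λ * c.lam)

def nA : List Bool → ℕ
  | [] => 0
  | H :: l => if H then nA l + 2 else nA l + 1

def nB : List Bool → ℕ
  | [] => 0
  | H :: l => if H then nB l else nB l + 1

/-- the Weierstrass data of a chain -/
def dat (L : List RC) : Dat where
  p := nA (L.map RC.H)
  q := nB (L.map RC.H)
  a i := (aL L 1).getD i 1
  b j := (bL L 1).getD j 1
  ρ := Real.exp (∑ i ∈ Finset.range (nA (L.map RC.H)), sg i * Real.log ((aL L 1).getD i 1) / 2 -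
    ∑ j ∈ Finset.range (nB (L.map RC.H)), sg j * 3 * Real.log ((bL L 1).getD j 1) / 2)

/-- the normalised square of the Gauss map at a waist; `dn` is the lower chain, reversed and
flipped -/
def ZZ (up dn : List RC) (s : ℂ) : ℂ := s⁻¹ * Phi up s / Phi dn s⁻¹

def rf (l : List RC) : List RC := l.reverse.map RC.flip

/-- the ends are far apart; `g` bounds the last end below -/
def Gap : ℝ → List RC → Prop
  | _, [] => True
  | g, c :: l => if c.H then Gap (g / c.x) l else 5 * g * c.y < 1 ∧ Gap c.x l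

def Good : List RC → Prop
  | [] => True
  | c :: l => c.Far ∧ (c.H = true → ∀ d ∈ l.head?, d.H = false) ∧ Good l

def Tail (t : Bool) (l : List RC) : Prop := (t = false → l = []) ∧ Good l

/-- all points of the chain `l` are smaller than `r` -/
def Sm : List RC → ℝ → ℝ → Prop
  | [], _, _ => True
  | c :: l, Λ, r => |Λ * c.a1| < r ∧ |Λ * c.a2| < r ∧ Sm l (Λ * c.lam) r

/-- position of a point: inside, left of, right of the circle, near the origin -/
inductive Dp
  | ins
  | lef
  | rig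
  | low
  deriving DecidableEq

/-- `j = 0`: above the cell of the link, `j = 1`: the cell itself; `f`: first point of the cell -/
def disp (zin kd : Bool) : ℕ → Bool → Bool → Dp
  | 0, H, f => if f && !H then .lef else .rig
  | 1, H, f => if f then (if kd then .ins else if H then .rig else .lef) else
      (if kd && !H then .rig else .ins)
  | _ + 2, _, _ => if zin then .ins else .lef

def Dp.At : Dp → ℝ → ℝ → ℝ → Prop
  | .ins, e, u, v => v < e ∧ e < u
  | .lef, e, _, v => e < v
  | .rig, e, u, _ => u < e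
  | .low, e, u, v => |e| < u ∧ |e| < |v|

def PosU (zin kd : Bool) (u v : ℝ) : ℕ → List RC → ℝ → Prop
  | _, [], _ => True
  | j, c :: l, Λ => (disp zin kd j c.H true).At (Λ * c.a1)⁻¹ u v ∧
      (disp zin kd j c.H false).At (Λ * c.a2)⁻¹ u v ∧ PosU zin kd u v (j - 1) l (Λ * c.lam)

/-- the segments joined by the link `kd` of a cell of type `H` above the cells `pre` -/
def lsu (pre : List Bool) (H kd : Bool) : ℕ :=
  if kd then (if H then nA pre + 2 else nA pre) else nA pre + 1

def lsv (pre : List Bool) (H kd : Bool) : Sg :=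
  if kd then (if H then (false, nA pre) else (true, nB pre + 1)) else (true, nB pre)

/-- the integrand of a link -/
def fI (Γ : ℂ → ℂ) (c : ℝ) (w : ℂ) : ℂ := (Γ w + (Γ w)⁻¹) * (w / (c + w))

def Fv (Γ : ℂ → ℂ) (c R : ℝ) : ℝ := (Real.circleAverage (fI Γ c) 0 R).re

end Pool.Agent.MP_92463a_gt
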