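import Pool.Agent.MP_92463a_gt.Hd0

/-! A checker for the periods of chains: exact arithmetic at the nodes of the trapezoidal rule. -/

namespace Pool.Agent.MP_92463a_gt

/-- the Gaussian integer `(a - b) + (c - d) i` -/
structure G4 where
  a : ℕ
  b : ℕ
  c : ℕ
  d : ℕ

namespace G4

noncomputable def val (z : G4) : ℂ := (((z.a : ℝ) - z.b : ℝ) : ℂ) + (((z.c : ℝ) - z.d : ℝ) : ℂ) * Complex.I

def nat (n : ℕ) : G4 := ⟨n, 0, 0, 0⟩

def int (n : ℤ) : G4 := ⟨n.toNat, (-n).toNat, 0, 0⟩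

def add (u v : G4) : G4 := ⟨Nat.add u.a v.a, Nat.add u.b v.b, Nat.add u.c v.c, Nat.add u.d v.d⟩

def neg (u : G4) : G4 := ⟨u.b, u.a, u.d, u.c⟩

def sub (u v : G4) : G4 := ⟨Nat.add u.a v.b, Nat.add u.b v.a, Nat.add u.c v.d, Nat.add u.d v.c⟩

def cj (u : G4) : G4 := ⟨u.a, u.b, u.d, u.c⟩

def sm (n : ℕ) (u : G4) : G4 := ⟨Nat.mul n u.a, Nat.mul n u.b, Nat.mul n u.c, Nat.mul n u.d⟩

def nz (u : G4) : G4 := ⟨Nat.sub u.a u.b, Nat.sub u.b u.a, Nat.sub u.c u.d, Nat.sub u.d u.c⟩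

/-- positive and negative part of the real part of a product -/
def rp (u v : G4) : ℕ :=
  Nat.add (Nat.add (Nat.mul u.a v.a) (Nat.mul u.b v.b)) (Nat.add (Nat.mul u.c v.d) (Nat.mul u.d v.c))

def rn (u v : G4) : ℕ :=
  Nat.add (Nat.add (Nat.mul u.a v.b) (Nat.mul u.b v.a)) (Nat.add (Nat.mul u.c v.c) (Nat.mul u.d v.d))

def mul (u v : G4) : G4 := nz ⟨rp u v, rn u v,
  Nat.add (Nat.add (Nat.mul u.a v.c) (Nat.mul u.b v.d)) (Nat.add (Nat.mul u.c v.a) (Nat.mul u.d v.b)),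
  Nat.add (Nat.add (Nat.mul u.a v.d) (Nat.mul u.b v.c)) (Nat.add (Nat.mul u.c v.b) (Nat.mul u.d v.a))⟩

def pw (u : G4) : ℕ → G4
  | 0 => nat 1
  | n + 1 => mul (pw u n) u

def dv (u : G4) (n : ℕ) : G4 :=
  ⟨Nat.div (Nat.sub u.a u.b) n, Nat.div (Nat.sub u.b u.a) n, Nat.div (Nat.sub u.c u.d) n,
    Nat.div (Nat.sub u.d u.c) n⟩

def ax (u : G4) : ℕ := Nat.add (Nat.sub u.a u.b) (Nat.sub u.b u.a)

def ay (u : G4) : ℕ := Nat.add (Nat.sub u.c u.d) (Nat.sub u.d u.c)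

/-- the square of the norm -/
def n2 (u : G4) : ℕ := Nat.add (Nat.mul u.ax u.ax) (Nat.mul u.ay u.ay)

/-- an upper bound of the norm -/
def nr (u : G4) : ℕ :=
  Nat.add (Nat.add u.ax (Nat.sub u.ay u.ax))
    (Nat.add (Nat.div (Nat.mul 5 (Nat.sub u.ax (Nat.sub u.ax u.ay))) 12) 1)

/-- `2 ^ k u / v`, rounded -/
def qt (k : ℕ) (u v : G4) : G4 := dv (sm (Nat.pow 2 k) (mul u v.cj)) v.n2

end G4

def isqI (n : ℕ) : ℕ → ℕ → ℕ
  | 0, x => x
  | k + 1, x => isqI n k (Nat.shiftRight (Nat.add x (Nat.div n x)) 1)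

/-- an approximate square root -/
def isq (n : ℕ) : ℕ := isqI n 7 (Nat.pow 2 (Nat.add (Nat.div (Nat.log2 n) 2) 1))

def csq2 (p : G4) (g : ℕ) : G4 := ⟨g, 0, Nat.div p.c (Nat.mul 2 g), Nat.div p.d (Nat.mul 2 g)⟩

def csq1 (p : G4) : G4 := csq2 p (isq (Nat.shiftRight (Nat.sub (Nat.add (isq p.n2) p.a) p.b) 1))

/-- an approximation of `2 ^ 64 √(N / D)` -/
def csq (N D : G4) : G4 := csq1 (G4.qt 128 N D)

def sqOk (g N D : G4) : Bool :=
  Nat.blt g.b g.a && Nat.blt 0 D.n2 &&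
    Nat.ble (Nat.mul (((g.mul g).mul D).sub (G4.sm (Nat.pow 2 128) N)).n2 (Nat.pow 2 64))
      (Nat.mul (Nat.pow (Nat.sub g.a g.b) 4) D.n2)

/-- a point `± en / ed` with exponent `± 1/2` or `± 3/2` -/
structure AN where
  en : ℕ
  ed : ℕ
  ng : Bool
  dp : Dp
  up : Bool
  cube : Bool
  kk : ℕ

/-- its values at a node -/
structure AO where
  up : Bool
  cube : Bool
  ps : G4
  dl : G4
  w : G4
  r : ℕ

def AN.psi (a : AN) (S : G4) : G4 :=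
  G4.nz (cond a.ng ((G4.sm a.ed S).add (G4.nat (Nat.shiftLeft a.en 52)))
    ((G4.sm a.ed S).sub (G4.nat (Nat.shiftLeft a.en 52))))

def AN.u1 (a : AN) (p : G4) : G4 :=
  (G4.sm (Nat.shiftLeft a.en 92) (cond a.ng p.cj p.cj.neg)).dv p.n2

def AN.uu (a : AN) (p : G4) : G4 :=
  match a.dp with
  | .low => a.u1 p
  | _ => (G4.nat (Nat.pow 2 40)).sub (a.u1 p)

def AN.ww (a : AN) (u : G4) : G4 :=
  cond a.up (cond a.cube (G4.sm 3 u) u) (cond a.cube (G4.sm 3 u) u).neg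

def AN.ev2 (a : AN) (S Om : G4) (ns : ℕ) (p : G4) : AO where
  up := a.up
  cube := a.cube
  ps := match a.dp with
    | .rig => p.neg
    | _ => p
  dl := match a.dp with
    | .ins => G4.sm a.en Om
    | .low => G4.sm a.ed S
    | _ => G4.nat (Nat.shiftLeft a.en 52)
  w := a.ww (a.uu p)
  r := Nat.add (Nat.div (Nat.mul a.kk ns) p.n2) 4194304

def AN.ev (S Om : G4) (ns : ℕ) (a : AN) : AO := a.ev2 S Om ns (a.psi S)

/-- products of numerators and denominators -/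
structure PS where
  np : G4
  dp : G4
  nm : G4
  dm : G4
  a : G4
  b : G4
  r : ℕ

def PS.step (o : AO) (s : PS) : PS :=
  cond o.up
    ⟨s.np.mul o.ps, s.dp.mul o.dl, s.nm, s.dm, cond o.cube (s.a.mul o.ps) s.a,
      cond o.cube (s.b.mul o.dl) s.b, Nat.add s.r o.r⟩
    ⟨s.np, s.dp, s.nm.mul o.ps, s.dm.mul o.dl, cond o.cube (s.a.mul o.dl) s.a,
      cond o.cube (s.b.mul o.ps) s.b, Nat.add s.r o.r⟩

/-- a box of cells: centre `(x, y)`, logarithmic half widths `hx / 2 ^ 40`, `hy / 2 ^ 40` -/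
structure CB where
  H : Bool
  x : ℚ
  y : ℚ
  hx : ℕ
  hy : ℕ
  deriving DecidableEq

/-- the linear part: total weight, coefficients, bound -/
structure DR where
  t : G4
  ds : List G4
  lam : ℕ

def DR.cons (hx hy : ℕ) (t dx dy : G4) (s : DR) : DR :=
  ⟨t, dx :: dy :: s.ds, Nat.add (Nat.add (Nat.mul dx.nr hx) (Nat.mul dy.nr hy)) s.lam⟩

def DR.step (b : CB) (w1 w2 : G4) (s : DR) : DR :=
  cond b.H (DR.cons b.hx b.hy ((w1.add w2).add s.t) (s.t.add w2).neg (w1.add w2).neg s)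
    (DR.cons b.hx b.hy ((w1.add w2).add s.t) (s.t.sub w2) (((w1.add w2).add s.t).add w2) s)

def dRec : List CB → List AO → DR
  | b :: l, o1 :: o2 :: m => DR.step b o1.w o2.w (dRec l m)
  | _, _ => ⟨G4.nat 0, [], 0⟩

/-- the data of a link that the nodes use -/
structure LN where
  c : G4
  R : ℕ
  zin : Bool
  np : ℕ
  nm : ℕ
  bu : List CB
  bd : List CB
  au : List AN
  ad : List AN
  tu : ℕ
  td : ℕ

/-- the result at a node, or the sum over the nodes -/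
structure NO where
  ok : Bool
  fp : ℕ
  fn : ℕ
  ju : List (ℕ × ℕ)
  jd : List (ℕ × ℕ)
  r : ℕ

def errN (gp gm : G4) (ρ σ : ℕ) : ℕ :=
  Nat.add (Nat.add (Nat.pow 2 62)
    (Nat.add (Nat.shiftRight (Nat.mul (Nat.mul (Nat.add gp.nr 2) 9) (Nat.mul σ σ)) 64) 1))
    (Nat.mul (Nat.add gm.nr 2)
      (Nat.add (Nat.add (Nat.shiftRight (Nat.mul 3 (Nat.mul σ (Nat.mul σ σ))) 124) 1) ρ))

def node5 (ok : Bool) (gp gm : G4) (du dd : DR) (ρ σ : ℕ) : NO where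
  ok := ok && Nat.ble σ (Nat.pow 2 60)
  fp := gp.a
  fn := gp.b
  ju := du.ds.map fun d => (gm.rp d, gm.rn d)
  jd := dd.ds.map fun d => (gm.rp d, gm.rn d)
  r := errN gp gm ρ σ

def node4 (ok : Bool) (Om a b den : G4) (du dd : DR) (ρ : ℕ) : NO :=
  node5 (ok && Nat.blt 0 den.n2) (G4.qt 40 (((a.mul a).add (b.mul b)).mul Om) den)
    (G4.qt 40 (((a.mul a).sub (b.mul b)).mul Om) den) du dd ρ
    (Nat.add (Nat.add (Nat.shiftRight (Nat.add du.lam dd.lam) 21) 1) ρ)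

def node3 (ok : Bool) (S Om a b : G4) (du dd : DR) (ρ : ℕ) : NO :=
  node4 ok Om a b ((a.mul b).mul S) du dd ρ

def rhoN (L : LN) (S : G4) (ns r : ℕ) : ℕ :=
  Nat.add (Nat.add r 1073741826) (Nat.add (Nat.shiftRight (Nat.mul L.tu ns) 52)
    (Nat.div (Nat.shiftLeft (Nat.mul L.td ns) 52) S.n2))

def node2 (L : LN) (S Om : G4) (ns : ℕ) (p : PS) (gp gm : G4) (du dd : DR) : NO :=
  node3 (sqOk gp p.np p.dp && sqOk gm p.nm p.dm) S Om
    (G4.sm (Nat.pow 2 (Nat.mul 52 L.nm)) ((gp.mul p.a).mul (Om.pw L.np)))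
    (G4.sm (Nat.pow 2 (Nat.mul 52 L.np)) ((gm.mul p.b).mul (Om.pw L.nm))) du dd (rhoN L S ns p.r)

def node1 (L : LN) (S Om : G4) (ns : ℕ) (p : PS) (ou od : List AO) : NO :=
  node2 L S Om ns p (csq p.np p.dp) (csq p.nm p.dm) (dRec L.bu ou) (dRec L.bd od)

def ps0 (zin : Bool) (S Om : G4) : PS :=
  ⟨G4.nat 1, G4.nat 1, S, cond zin Om (G4.nat (Nat.pow 2 52)), G4.nat 1, G4.nat 1, 0⟩

def node0 (L : LN) (S Om : G4) (ns : ℕ) (ou od : List AO) : NO :=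
  node1 L S Om ns (ou.foldr PS.step (od.foldr PS.step (ps0 L.zin S Om))) ou od

def nodeS (L : LN) (S Om : G4) : NO :=
  node0 L S Om S.nr (L.au.map (AN.ev S Om S.nr)) (L.ad.map (AN.ev S Om S.nr))

/-- the node `ω = R Z / 2 ^ 52` -/
def node (L : LN) (Z : G4) : NO := nodeS L (L.c.add (G4.sm L.R Z)).nz (G4.sm L.R Z)

def addP (p q : ℕ × ℕ) : ℕ × ℕ := (Nat.add p.1 q.1, Nat.add p.2 q.2)

def NO.add (s t : NO) : NO :=
  ⟨s.ok && t.ok, Nat.add s.fp t.fp, Nat.add s.fn t.fn, List.zipWith addP s.ju t.ju,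
    List.zipWith addP s.jd t.jd, Nat.add s.r t.r⟩

def nodes (L : LN) : List G4 → NO
  | [] => ⟨true, 0, 0, List.replicate (2 * L.bu.length) (0, 0), List.replicate (2 * L.bd.length) (0, 0), 0⟩
  | Z :: l => (node L Z).add (nodes L l)

/-! The conditions on a link that do not depend on the node. -/

namespace CB

variable (b : CB)

def flip : CB := if b.H then ⟨true, b.x, b.y⁻¹, b.hx, b.hy⟩ else ⟨false, b.y, b.x, b.hy, b.hx⟩

def a1 : ℚ := if b.H then b.y⁻¹ else -b.y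

def a2 : ℚ := if b.H then (b.x * b.y)⁻¹ else b.y ^ 2 / b.x

def lam : ℚ := if b.H then b.x⁻¹ else b.x * b.y

def h1 : ℕ := b.hy

def h2 : ℕ := if b.H then b.hx + b.hy else b.hx + 2 * b.hy

def hl : ℕ := if b.H then b.hx else b.hx + b.hy

end CB

/-- the factor `1 - al z`, with `log al` known up to `h / 2 ^ 40` -/
structure AQ where
  al : ℚ
  dp : Dp
  up : Bool
  cube : Bool
  h : ℕ

def atQ (f : ℕ → Bool → Bool → Dp) : ℕ → List CB → ℚ → ℕ → Bool → List AQ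
  | _, [], _, _, _ => []
  | j, b :: l, Λ, h, ε => ⟨Λ * b.a1, f j b.H true, ε, !b.H, h + b.h1⟩ ::
      ⟨Λ * b.a2, f j b.H false, !ε, false, h + b.h2⟩ ::
      atQ f (j - 1) l (Λ * b.lam) (h + b.hl) (if b.H then ε else !ε)

/-- the circles `|s - c| = r1, R, r2` -/
structure Ge where
  c : ℚ
  R : ℚ
  r1 : ℚ
  r2 : ℚ
  zin : Bool

/-- bound of `exp (h / 2 ^ 40) - 1` -/
def eh (h : ℕ) : ℚ := h / 2 ^ 40 + (h / 2 ^ 40) ^ 2

/-- bound of `arcsin z` -/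
def az (z : ℚ) : ℚ := z + 3 / 5 * z ^ 3

def qs (x : ℚ) : ℚ := ((isq ⌈x * 2 ^ 40⌉₊ + 1 : ℕ) : ℚ) / 2 ^ 20

namespace Ge

variable (g : Ge)

/-- lower and upper bound of `|s|` on the circle of radius `r` -/
def sl (r : ℚ) : ℚ := if g.zin then r - |g.c| else g.c - r

def sh (r : ℚ) : ℚ := |g.c| + r

def smin : ℚ := if g.zin then g.r1 - |g.c| else g.c - g.r2

def Rlo : ℚ := g.R * (1 - 1 / 2 ^ 30)

def Rhi : ℚ := g.R * (1 + 1 / 2 ^ 30)

def z0 : ℚ := if g.zin then |g.c| / g.Rlo else g.Rhi / g.c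

end Ge

namespace AQ

variable (a : AQ) (g : Ge)

def e : ℚ := if a.dp = .low then a.al else a.al⁻¹

def dist : ℚ :=
  match a.dp with
  | .ins => g.r1 - |g.c - a.e|
  | .lef => g.c - a.e - g.r2
  | .rig => a.e - g.c - g.r2
  | .low => g.smin - |a.e|

def um : ℚ :=
  match a.dp with
  | .ins => 1 + |a.e| / a.dist g
  | .low => |a.e| / a.dist g
  | _ => g.sh g.r2 / a.dist g

def xx : ℚ := a.um g * eh a.h

def ex : ℚ := if a.cube then 3 else 1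

def kap : ℚ := a.ex / 4 * (a.h / 2 ^ 40) ^ 2 * (1 + eh a.h) / (1 - a.xx g) ^ 2

def zR : ℚ :=
  match a.dp with
  | .ins => |g.c - a.e| / g.Rlo
  | .low => |a.e| / min (g.sl g.Rlo) (g.sl g.Rhi)
  | _ => g.Rhi / |g.c - a.e|

def ok : Bool :=
  decide (a.al ≠ 0 ∧ a.h ≤ 2 ^ 40 ∧ 0 < a.dist g ∧ a.xx g ≤ 1 / 2 ∧ a.zR g ≤ 47 / 50)

def lo (r : ℚ) : ℚ := if a.dp = .low then 1 - |a.e| / g.sl r else abs (r - |g.c - a.e|) / |a.e|

def hi (r : ℚ) : ℚ := if a.dp = .low then 1 + |a.e| / g.sl r else (r + |g.c - a.e|) / |a.e|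

def pw (x : ℚ) : ℚ := if a.cube then x ^ 3 else x

/-- bounds of the factor and of its inverse on the circle of radius `r` -/
def bp (r : ℚ) : ℚ := a.pw (if a.up then a.hi g r else (a.lo g r)⁻¹)

def bm (r : ℚ) : ℚ := a.pw (if a.up then (a.lo g r)⁻¹ else a.hi g r)

def an : AN :=
  ⟨a.e.num.natAbs, a.e.den, decide (a.e < 0), a.dp, a.up, a.cube,
    ⌈a.kap g * 2 ^ 60⌉₊ * a.e.num.natAbs * a.e.den * 2 ^ 52⟩

/-- the exponent of `ω` -/
def wn : ℤ := if a.dp = .ins then (if a.up then 1 else -1) * (if a.cube then 3 else 1) else 0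

end AQ

/-- the data of a link: reference cell, centre and radii in units of `2 ^ (-12)`, exponent -/
structure LK where
  ref : ℕ
  c : ℤ
  R : ℕ
  r1 : ℕ
  r2 : ℕ
  np : ℕ
  nm : ℕ

def LK.ge (k : LK) (zin : Bool) : Ge := ⟨k.c / 2 ^ 12, k.R / 2 ^ 12, k.r1 / 2 ^ 12, k.r2 / 2 ^ 12, zin⟩

/-- bound of the scale of the tail -/
def lamT (t : Bool) (l : List CB) : ℚ :=
  if t then (l.map CB.lam).prod * (1 + eh (l.map CB.hl).sum) else 0

def sbd (g : Ge) (as : List AQ) (lu ld : ℚ) : ℚ :=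
  (as.map fun a => 3 / 4 * a.ex * a.xx g).sum + 6 * (lu * g.sh g.r2 + ld / g.smin)

def g2p (g : Ge) (as : List AQ) (r : ℚ) : ℚ := (as.map fun a => a.bp g r).prod / g.sl r

def g2m (g : Ge) (as : List AQ) (r : ℚ) : ℚ := (as.map fun a => a.bm g r).prod * g.sh r

def mbd (g : Ge) (as : List AQ) (sb r : ℚ) : ℚ :=
  (qs (g2p g as r) + qs (g2m g as r)) * (1 - sb / 4)⁻¹ ^ 4 * (r / g.sl r)

def sqQ (x : ℚ) : Bool := decide (x ≤ qs x ^ 2)

def quad (g : Ge) (n : ℕ) (M1 M2 : ℚ) : ℚ :=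
  M1 * ((g.r1 / g.R) ^ (2 * n) / (1 - (g.r1 / g.R) ^ (2 * n))) +
    M2 * ((g.R / g.r2) ^ (2 * n) / (1 - (g.R / g.r2) ^ (2 * n))) +
    3 * (M1 + M2) * (g.R / 2 ^ 38) / min (g.R - g.r1) (g.r2 - g.R)

def linkOk (g : Ge) (k : LK) (as : List AQ) (hu hd : ℕ) (lu ld : ℚ) : Bool :=
  as.all (fun a => a.ok g) &&
  decide (0 < g.r1 ∧ g.r1 < g.Rlo ∧ g.Rhi < g.r2 ∧ 0 < g.smin ∧ g.z0 ≤ 47 / 50 ∧
    hu ≤ 2 ^ 40 ∧ hd ≤ 2 ^ 40 ∧ 16 * (lu * g.sh g.r2) ≤ 1 ∧ 16 * ld ≤ g.smin ∧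
    sbd g as lu ld ≤ 2 ∧
    ((as.filter fun a => a.up).map fun a => az (a.zR g)).sum ≤ 31 / 10 ∧
    az g.z0 + ((as.filter fun a => !a.up).map fun a => az (a.zR g)).sum ≤ 31 / 10 ∧
    2 * ((k.np : ℤ) - k.nm) = (as.map AQ.wn).sum - (if g.zin then 1 else 0)) &&
  sqQ (g2p g as g.r1) && sqQ (g2m g as g.r1) && sqQ (g2p g as g.r2) && sqQ (g2m g as g.r2)

/-- value, gradient and error of a link, in units of `1 / (n 2 ^ 81)` -/
structure Out where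
  F : ℤ
  J : List ℤ
  r : ℕ
  deriving DecidableEq

def pz (p : ℕ × ℕ) : ℤ := (p.1 : ℤ) - p.2

/-- the gradient with respect to the lower cells, in the order of the chain -/
def unfl : List CB → List ℤ → List ℤ
  | b :: l, x :: y :: m => unfl l m ++ (if b.H then [x, -y] else [y, x])
  | _, _ => []

def link3 (n : ℕ) (ok : Bool) (bd : List CB) (q : ℚ) (o : NO) : Option Out :=
  if ok && o.ok then
    some ⟨((o.fp : ℤ) - o.fn) * 2 ^ 41, unfl bd (o.jd.map pz) ++ o.ju.map pz,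
      o.r / 2 ^ 19 + 1 + ⌈q * (n * 2 ^ 81)⌉₊⟩
  else none

def link2 (tb : List G4) (k : LK) (g : Ge) (bu bd : List CB) (au ad : List AQ) (lu ld : ℚ) :
    Option Out :=
  link3 tb.length (linkOk g k (au ++ ad) (bu.map CB.hl).sum (bd.map CB.hl).sum lu ld) bd
    (quad g tb.length (mbd g (au ++ ad) (sbd g (au ++ ad) lu ld) g.r1)
      (mbd g (au ++ ad) (sbd g (au ++ ad) lu ld) g.r2))
    (nodes ⟨G4.int (k.c * 2 ^ 40), k.R, g.zin, k.np, k.nm, bu, bd, au.map fun a => a.an g,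
      ad.map fun a => a.an g, ⌈6 * lu * 2 ^ 60⌉₊, ⌈6 * ld * 2 ^ 60⌉₊⟩ tb)

def link1 (tb : List G4) (tl tu : Bool) (j : ℕ) (zin kd : Bool) (k : LK) (bu bd : List CB) :
    Option Out :=
  link2 tb k (k.ge zin) bu bd (atQ (disp zin kd) j bu 1 0 true)
    (atQ (fun _ _ _ => .low) 0 bd 1 0 false) (lamT tu bu) (lamT tl bd)

def cb0 : CB := ⟨false, 1, 1, 0, 0⟩

def zinB (cells : List CB) (m : ℕ) (kd : Bool) : Bool := !((cells.getD m cb0).H && kd)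

/-- the link `kd` of the cell `m` -/
def linkOut (tb : List G4) (cells : List CB) (tl tu : Bool) (m : ℕ) (kd : Bool) (k : LK) :
    Option Out :=
  if k.ref ≤ m ∧ m < cells.length then
    link1 tb tl tu (m - k.ref + 1) (zinB cells m kd) kd k (cells.drop k.ref)
      ((cells.take k.ref).reverse.map CB.flip)
  else none

/-! Blocks. -/

structure Blk where
  cells : List CB
  lo : ℕ
  cnt : ℕ
  tl : Bool
  tu : Bool
  lks : List LK
  outs : List Out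
  A : List (List ℤ)

def hLs : List CB → List ℕ
  | [] => []
  | b :: l => b.hx :: b.hy :: hLs l

def comb (n : ℕ) : List ℤ → List Out → Out
  | a :: l, o :: m =>
    ⟨a * o.F + (comb n l m).F, List.zipWith (fun x y => a * x + y) o.J (comb n l m).J,
      a.natAbs * o.r + (comb n l m).r⟩
  | _, _ => ⟨0, List.replicate n 0, 0⟩

def rowOk (hs : List ℕ) (i : ℕ) (o : Out) : Bool :=
  decide ((((o.F.natAbs + o.r) * 2 ^ 40 + (List.zipWith (fun x h => x.natAbs * h) o.J hs).sum : ℕ) : ℤ) <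
    2 * o.J.getD i 0 * (hs.getD i 0 : ℕ))

def Blk.chk (B : Blk) : Bool :=
  decide (B.lo + B.cnt ≤ B.cells.length ∧ B.outs.length = 2 * B.cnt ∧ B.A.length = 2 * B.cnt) &&
  B.cells.all (fun b => decide (0 < b.x ∧ 0 < b.y)) &&
  B.outs.all (fun o => decide (o.J.length = 2 * B.cells.length)) &&
  B.A.all (fun a => decide (a.length = 2 * B.cnt)) &&
  (List.range (2 * B.cnt)).all fun i =>
    rowOk (hLs B.cells) (2 * B.lo + i) (comb (2 * B.cells.length) (B.A.getD i []) B.outs)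

def lk0 : LK := ⟨0, 0, 0, 0, 0, 0, 0⟩

def out0 : Out := ⟨0, [], 0⟩

/-- the `i`-th link of a block has the recorded output -/
def Blk.lk (B : Blk) (tb : List G4) (i : ℕ) : Bool :=
  decide (linkOut tb B.cells B.tl B.tu (B.lo + i / 2) (decide (i % 2 = 1)) (B.lks.getD i lk0) =
    some (B.outs.getD i out0))

/-- the box `b` lies in the box `b'` -/
def CB.sub (b b' : CB) : Bool :=
  decide (b.H = b'.H ∧ b.hx ≤ b'.hx ∧ b.hy ≤ b'.hy ∧
    b.x ≤ b'.x * (1 + ((b'.hx - b.hx : ℕ) : ℚ) / 2 ^ 40) ∧ b'.x ≤ b.x * (1 + ((b'.hx - b.hx : ℕ) : ℚ) / 2 ^ 40) ∧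
    b.y ≤ b'.y * (1 + ((b'.hy - b.hy : ℕ) : ℚ) / 2 ^ 40) ∧ b'.y ≤ b.y * (1 + ((b'.hy - b.hy : ℕ) : ℚ) / 2 ^ 40))

def CB.small (b : CB) : Bool := decide (0 < b.x ∧ 0 < b.y ∧ b.hx ≤ 2 ^ 33 ∧ b.hy ≤ 2 ^ 33)

def CB.far (b : CB) : Bool :=
  if b.H then decide (46 / 100 ≤ b.x ∧ 81 / 100 ≤ b.y)
  else decide (b.y ≤ 217 / 1000 ∧ b.y ^ 2 ≤ 336 / 1000 * b.x ∧ b.x * b.y ≤ 44 / 1000)

/-- conditions on three consecutive boxes -/
def CB.gap1 (a b : CB) : Bool := !(a.H && b.H) && (a.H || b.H || decide (52 / 10 * a.x * b.y < 1))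

def CB.gap2 (a b c : CB) : Bool := !b.H || decide (52 / 10 * a.x * c.y < b.x)

def finChk (l : List CB) : Bool :=
  l.all CB.small && ((List.range l.length).all fun m =>
    (decide (l.length ≤ m + 1) || (l.getD m cb0).gap1 (l.getD (m + 1) cb0)) &&
    (decide (l.length ≤ m + 2) || (l.getD m cb0).gap2 (l.getD (m + 1) cb0) (l.getD (m + 2) cb0)))

end Pool.Agent.MP_92463a_gt
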