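import Pool.Agent.MP_92463a_gt.Hd1

open Set Complex Filter Metric
open scoped Topology ComplexConjugate ContDiff Manifold

noncomputable section

namespace Pool.Agent.MP_92463a_gt

/-! The meaning of the data of the checker. -/

/-- a cell in a box, given by its logarithmic deviations from the centre -/
structure DC where
  b : CB
  ξ : ℝ
  ζ : ℝ

namespace DC

variable (d : DC)

def cell : RC := ⟨d.b.H, d.b.x * Real.exp d.ξ, d.b.y * Real.exp d.ζ⟩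

def Ok : Prop := 0 < d.b.x ∧ 0 < d.b.y ∧ |d.ξ| ≤ d.b.hx / 2 ^ 40 ∧ |d.ζ| ≤ d.b.hy / 2 ^ 40

def flip : DC := if d.b.H then ⟨d.b.flip, d.ξ, -d.ζ⟩ else ⟨d.b.flip, d.ζ, d.ξ⟩

def e1 : ℝ := if d.b.H then -d.ζ else d.ζ

def e2 : ℝ := if d.b.H then -d.ξ - d.ζ else 2 * d.ζ - d.ξ

def el : ℝ := if d.b.H then -d.ξ else d.ξ + d.ζ

end DC

def devL : List DC → List ℝ
  | [] => []
  | d :: l => d.ξ :: d.ζ :: devL l

/-- the deviations of the points -/
def etas : List DC → ℝ → List ℝ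
  | [], _ => []
  | d :: l, η => (η + d.e1) :: (η + d.e2) :: etas l (η + d.el)

def dotZ (J : List ℤ) (v : List ℝ) : ℝ := (List.zipWith (fun (a : ℤ) x => (a : ℝ) * x) J v).sum

def dotG (J : List G4) (v : List ℝ) : ℂ := (List.zipWith (fun (a : G4) (x : ℝ) => a.val * (x : ℂ)) J v).sum

def TabOk (tb : List G4) : Prop :=
  0 < tb.length ∧ ∀ (k : ℕ) (hk : k < tb.length),
    ‖tb[k].val / 2 ^ 40 - exp (Real.pi * (2 * k + 1) / (2 * tb.length) * I)‖ ≤ 1 / 2 ^ 38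

def pm (ε : Bool) (z : ℂ) : ℂ := if ε then z else z⁻¹

def pmS (ε : Bool) (z : ℂ) : ℂ := if ε then z else -z

def epsL : List CB → Bool → Bool
  | [], ε => ε
  | b :: l, ε => epsL l (if b.H then ε else !ε)

namespace Ge

variable (g : Ge)

structure Ok : Prop where
  r1_pos : 0 < g.r1
  r1_lt : g.r1 < g.Rlo
  r2_gt : g.Rhi < g.r2
  smin_pos : 0 < g.smin
  z0_le : g.z0 ≤ 47 / 50

def Ann (w : ℂ) : Prop := (g.r1 : ℝ) ≤ ‖w‖ ∧ ‖w‖ ≤ (g.r2 : ℝ)

def Thin (w : ℂ) : Prop := (g.Rlo : ℝ) ≤ ‖w‖ ∧ ‖w‖ ≤ (g.Rhi : ℝ)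

def phi0 (w : ℂ) : ℂ := if g.zin then (g.c + w) / w else g.c + w

end Ge

namespace AQ

variable (a : AQ)

/-- twice the exponent -/
def sx : ℝ := (if a.up then 1 else -1) * a.ex

def zz (s : ℂ) : ℂ := if a.dp = .low then s⁻¹ else s

def F0 (s : ℂ) : ℂ := 1 - a.al * a.zz s

def phi (g : Ge) (w : ℂ) : ℂ :=
  match a.dp with
  | .ins => (g.c + w - a.e) / (((|a.e| : ℚ) : ℂ) * w)
  | .lef => (g.c + w - a.e) / ((|a.e| : ℚ) : ℂ)
  | .rig => -(g.c + w - a.e) / ((|a.e| : ℚ) : ℂ)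
  | .low => (g.c + w - a.e) / (g.c + w)

def uu (s : ℂ) : ℂ := if a.dp = .low then -a.e / (s - a.e) else s / (s - a.e)

def lg (η : ℝ) (s : ℂ) : ℂ := log (1 + a.uu s * ((Real.exp η - 1 : ℝ) : ℂ))

def zp (z : ℂ) : ℂ := pm a.up (if a.cube then z ^ 3 else z)

/-- the true point -/
def et (η : ℝ) : ℝ := if a.dp = .low then a.al * Real.exp η else (a.al * Real.exp η)⁻¹

end AQ

def L0 (g : Ge) (as : List AQ) (w : ℂ) : ℂ :=
  -log (g.phi0 w) / 2 + (as.map fun a => (a.sx : ℂ) / 2 * log (a.phi g w)).sum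

def SSum (as : List AQ) (es : List ℝ) (s : ℂ) : ℂ :=
  (List.zipWith (fun (a : AQ) η => (a.sx : ℂ) / 2 * a.lg η s) as es).sum

def Gam0 (g : Ge) (k : LK) (as : List AQ) (w : ℂ) : ℂ := w ^ k.np / w ^ k.nm * exp (L0 g as w)

/-- a link in a chain: explicit cells above and (flipped) below the waist, tails -/
structure LC where
  k : LK
  zin : Bool
  kd : Bool
  j : ℕ
  tl : Bool
  tu : Bool
  du : List DC
  dd : List DC
  tU : List RC
  tD : List RC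

namespace LC

variable (C : LC)

def g : Ge := C.k.ge C.zin

def bu : List CB := C.du.map DC.b

def bd : List CB := C.dd.map DC.b

def au : List AQ := atQ (disp C.zin C.kd) C.j C.bu 1 0 true

def ad : List AQ := atQ (fun _ _ _ => .low) 0 C.bd 1 0 false

def as : List AQ := C.au ++ C.ad

def es : List ℝ := etas C.du 0 ++ etas C.dd 0

def up : List RC := C.du.map DC.cell ++ C.tU

def dn : List RC := C.dd.map DC.cell ++ C.tD

def lu : ℚ := lamT C.tu C.bu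

def ld : ℚ := lamT C.tl C.bd

def T (s : ℂ) : ℂ :=
  pmS (epsL C.bu true) (Tl C.tU (lamP (C.du.map DC.cell) * s)) +
    pmS (epsL C.bd false) (Tl C.tD (lamP (C.dd.map DC.cell) * s⁻¹))

def Gam (w : ℂ) : ℂ := Gam0 C.g C.k C.as w * exp (SSum C.as C.es (C.g.c + w) + C.T (C.g.c + w))

def sb : ℚ := sbd C.g C.as C.lu C.ld

def ln : LN :=
  ⟨G4.int (C.k.c * 2 ^ 40), C.k.R, C.g.zin, C.k.np, C.k.nm, C.bu, C.bd, C.au.map fun a => a.an C.g,
    C.ad.map fun a => a.an C.g, ⌈6 * C.lu * 2 ^ 60⌉₊, ⌈6 * C.ld * 2 ^ 60⌉₊⟩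

structure Ok : Prop where
  oku : ∀ d ∈ C.du, d.Ok
  okd : ∀ d ∈ C.dd, d.Ok
  tlu : Tail C.tu C.tU
  tld : Tail C.tl C.tD
  jle : C.j ≤ C.du.length
  ge : C.g.Ok
  at' : ∀ a ∈ C.as, a.ok C.g = true
  hu : (C.bu.map CB.hl).sum ≤ 2 ^ 40
  hd : (C.bd.map CB.hl).sum ≤ 2 ^ 40
  lu' : 16 * (C.lu * C.g.sh C.g.r2) ≤ 1
  ld' : 16 * C.ld ≤ C.g.smin
  sb' : C.sb ≤ 2
  gp : ((C.as.filter fun a => a.up).map fun a => az (a.zR C.g)).sum ≤ 31 / 10
  gm : az C.g.z0 + ((C.as.filter fun a => !a.up).map fun a => az (a.zR C.g)).sum ≤ 31 / 10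
  wn : 2 * ((C.k.np : ℤ) - C.k.nm) = (C.as.map AQ.wn).sum - (if C.g.zin then 1 else 0)
  sq : ∀ r, r = C.g.r1 ∨ r = C.g.r2 →
    g2p C.g C.as r ≤ qs (g2p C.g C.as r) ^ 2 ∧ g2m C.g C.as r ≤ qs (g2m C.g C.as r) ^ 2

end LC

/-- the products represent `P`, `M`, `C` -/
structure PS.Rep (p : PS) (P M C : ℂ) : Prop where
  dp : p.dp.val ≠ 0
  dm : p.dm.val ≠ 0
  b : p.b.val ≠ 0
  np : p.np.val = P * p.dp.val
  nm : p.nm.val = M * p.dm.val
  a : p.a.val = C * p.b.val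

/-- the output of a point represents the factor `φ` -/
structure AO.Rep (o : AO) (a : AQ) (φ : ℂ) : Prop where
  up : o.up = a.up
  cube : o.cube = a.cube
  ne : φ ≠ 0
  dl : o.dl.val ≠ 0
  ps : o.ps.val = φ * o.dl.val

def NO.ev (o : NO) (vu vd : List ℝ) : ℝ :=
  ((o.fp : ℝ) - o.fn) / 2 ^ 40 + (dotZ (o.ju.map pz) vu + dotZ (o.jd.map pz) vd) / 2 ^ 81

/-- what is known about a link -/
structure LF (up dn : List RC) (zin kd : Bool) (j : ℕ) (c R F : ℝ) : Prop where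
  R_pos : 0 < R
  u_pos : 0 < c + R
  v_sg : if zin then c - R < 0 else 0 < c - R
  pu : PosU zin kd (c + R) (c - R) j up 1
  sm : Sm dn 1 (min (c + R) |c - R|)
  ex : ∃ Γ : ℂ → ℂ, ContinuousOn Γ (sphere 0 R) ∧
    (∀ w ∈ sphere (0 : ℂ) R, Γ w ≠ 0 ∧ Γ w ^ 4 = ZZ up dn (c + w) ^ 2) ∧
    0 < (Γ R).re ∧ (Γ R).im = 0 ∧ Fv Γ c R = F

def Blk.Ok (B : Blk) : Prop := B.chk = true ∧ ∃ tb, TabOk tb ∧ ∀ i < 2 * B.cnt, B.lk tb i = true

/-- a chain of `n` boxes covered by blocks -/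
structure Cert (n : ℕ) (Bx : ℕ → CB) (blk : ℕ → Blk) (off : ℕ → ℕ) : Prop where
  n_pos : 0 < n
  box : ∀ m < n, (Bx m).small = true
  gap1 : ∀ m, m + 1 < n → (Bx m).gap1 (Bx (m + 1)) = true
  gap2 : ∀ m, m + 2 < n → (Bx m).gap2 (Bx (m + 1)) (Bx (m + 2)) = true
  ok : ∀ m < n, (blk m).Ok
  fit : ∀ m < n, off m + (blk m).lo ≤ m ∧ m < off m + (blk m).lo + (blk m).cnt ∧
    off m + (blk m).cells.length ≤ n
  same : ∀ m < n, ∀ m', off m + (blk m).lo ≤ m' → m' < off m + (blk m).lo + (blk m).cnt →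
    blk m' = blk m ∧ off m' = off m
  inn : ∀ m < n, (blk m).cells.getD (m - off m) cb0 = Bx m
  sub : ∀ m < n, ∀ j < (blk m).cells.length, (Bx (off m + j)).sub ((blk m).cells.getD j cb0) = true
  low : ∀ m < n, ((blk m).tl = false → off m = 0) ∧ ∀ i < off m, (Bx i).flip.far = true
  upp : ∀ m < n, ((blk m).tu = false → off m + (blk m).cells.length = n) ∧
    ∀ i, off m + (blk m).cells.length ≤ i → i < n → (Bx i).far = true

section
variable (n : ℕ) (Bx : ℕ → CB) (blk : ℕ → Blk) (off : ℕ → ℕ)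

def gx (x : Fin n × Bool → ℝ) (m : ℕ) (b : Bool) : ℝ := if h : m < n then x (⟨m, h⟩, b) else 0

def gC (x : Fin n × Bool → ℝ) (m : ℕ) : RC :=
  DC.cell ⟨Bx m, (Bx m).hx / 2 ^ 40 * gx n x m false, (Bx m).hy / 2 ^ 40 * gx n x m true⟩

def gL (x : Fin n × Bool → ℝ) (m : ℕ) : List RC := (List.range m).map (gC n Bx x)

def gH (m : ℕ) : List Bool := (List.range m).map fun i => (Bx i).H

/-- the number of a link or a variable in its block -/
def gi (m : ℕ) (b : Bool) : ℕ := 2 * (m - off m - (blk m).lo) + b.toNat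

def gk (m : ℕ) (b : Bool) : LK := (blk m).lks.getD (gi blk off m b) lk0

def gu (x : Fin n × Bool → ℝ) (m : ℕ) (b : Bool) : ℝ :=
  (((gk blk off m b).c : ℝ) / 2 ^ 12 + ((gk blk off m b).R : ℝ) / 2 ^ 12) /
    lamP (gL n Bx x (off m + (gk blk off m b).ref))

def gv (x : Fin n × Bool → ℝ) (m : ℕ) (b : Bool) : ℝ :=
  (((gk blk off m b).c : ℝ) / 2 ^ 12 - ((gk blk off m b).R : ℝ) / 2 ^ 12) /
    lamP (gL n Bx x (off m + (gk blk off m b).ref))

def gsu (m : ℕ) (b : Bool) : ℕ := lsu (gH Bx m) (Bx m).H b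

def gsv (m : ℕ) (b : Bool) : Sg := lsv (gH Bx m) (Bx m).H b

/-- the period of a link -/
def gLk (x : Fin n × Bool → ℝ) (m : ℕ) (b : Bool) : ℝ :=
  Lk (dat (gL n Bx x n)).F1 (dat (gL n Bx x n)).F2 (Sg.ty (false, gsu Bx m b))
    (gu n Bx blk off x m b) (gv n Bx blk off x m b)

/-- what is known about a link of the chain -/
def gLF (x : Fin n × Bool → ℝ) (m : ℕ) (b : Bool) (F : ℝ) : Prop :=
  off m + (gk blk off m b).ref ≤ m ∧
    LF ((List.range' (off m + (gk blk off m b).ref) (n - (off m + (gk blk off m b).ref))).map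
        (gC n Bx x)) (rf (gL n Bx x (off m + (gk blk off m b).ref))) (!((Bx m).H && b)) b
      (m - (off m + (gk blk off m b).ref) + 1) (((gk blk off m b).c : ℝ) / 2 ^ 12)
      (((gk blk off m b).R : ℝ) / 2 ^ 12) F

def gA (i j : Fin n × Bool) : ℝ :=
  if off i.1 + (blk i.1).lo = off j.1 + (blk j.1).lo then
    ((((blk i.1).A.getD (gi blk off i.1 i.2) []).getD (gi blk off j.1 j.2) 0 : ℤ) : ℝ) *
      sg (gsu Bx j.1 j.2)
  else 0

end

end Pool.Agent.MP_92463a_gt
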