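import Pool.Agent.MP_92463a_gt.Hd2

open Set Complex Filter Metric
open scoped Topology ComplexConjugate ContDiff Manifold

noncomputable section

namespace Pool.Agent.MP_92463a_gt

theorem root4_const {f : ℝ → ℂ} {a b : ℝ} (hf : ContinuousOn f (Icc a b))
    (h4 : ∀ θ ∈ Icc a b, f θ ^ 4 = 1) (ha : f a = 1) : ∀ θ ∈ Icc a b, f θ = 1 := by
  intro θ hθ
  have hT : ({1, -1, I, -I} : Set ℂ).Finite := Set.toFinite _
  have hm : MapsTo f (Icc a b) {1, -1, I, -I} := fun t ht => by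
    have h : (f t - 1) * (f t + 1) * (f t - I) * (f t + I) = 0 := by
      linear_combination h4 t ht - (f t ^ 2 - 1) * I_sq
    simp only [mul_eq_zero, sub_eq_zero, add_eq_zero_iff_eq_neg] at h
    simp only [mem_insert_iff, mem_singleton_iff]
    tauto
  rw [← ha]
  exact isPreconnected_Icc.constant_of_mapsTo hT.isDiscrete hf hm hθ ⟨le_rfl, hθ.1.trans hθ.2⟩

theorem HdA1_mem {R : ℝ} (hR : 0 < R) (θ : ℝ) : (R * exp (θ * I) : ℂ) ∈ sphere (0 : ℂ) R := by
  simp [abs_of_pos hR]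

theorem HdA1_conj_mem {R : ℝ} {w : ℂ} (hw : w ∈ sphere (0 : ℂ) R) : conj w ∈ sphere (0 : ℂ) R := by
  simpa using hw

theorem sym_circ {Γ Ψ : ℂ → ℂ} {R : ℝ} (hR : 0 < R) (hc : ContinuousOn Γ (sphere 0 R))
    (h4 : ∀ w ∈ sphere (0 : ℂ) R, Γ w ≠ 0 ∧ Γ w ^ 4 = Ψ w)
    (hs : ∀ w ∈ sphere (0 : ℂ) R, Ψ (conj w) = conj (Ψ w)) (h0 : (Γ R).im = 0) :
    ∀ w ∈ sphere (0 : ℂ) R, Γ (conj w) = conj (Γ w) := by
  intro w hw
  have hcw : Continuous fun θ : ℝ => (R * exp (θ * I) : ℂ) := by fun_prop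
  have h1 : Continuous fun θ : ℝ => Γ (R * exp (θ * I)) :=
    hc.comp_continuous hcw (HdA1_mem hR)
  have h2 : Continuous fun θ : ℝ => Γ (conj (R * exp (θ * I))) :=
    hc.comp_continuous (continuous_conj.comp hcw) fun θ => HdA1_conj_mem (HdA1_mem hR θ)
  have hne : ∀ θ : ℝ, conj (Γ (R * exp (θ * I))) ≠ 0 := fun θ =>
    (map_ne_zero _).2 (h4 _ (HdA1_mem hR θ)).1
  have key := root4_const (f := fun θ : ℝ => Γ (conj (R * exp (θ * I))) / conj (Γ (R * exp (θ * I))))
    (a := 0) (b := 2 * Real.pi) ((h2.div (continuous_conj.comp h1) hne).continuousOn)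
    (fun θ _ => by
      have hm := HdA1_mem hR θ
      rw [div_pow, div_eq_one_iff_eq (pow_ne_zero _ (hne θ)), (h4 _ (HdA1_conj_mem hm)).2, hs _ hm,
        ← map_pow, (h4 _ hm).2])
    (by
      have := hne 0
      simp only [ofReal_zero, zero_mul, exp_zero, mul_one, conj_ofReal] at this ⊢
      rw [div_eq_one_iff_eq this, conj_eq_iff_im.2 h0])
  have hn : ‖w‖ = R := by simpa using hw
  obtain ⟨θ, hθ, rfl⟩ : ∃ θ ∈ Icc (0 : ℝ) (2 * Real.pi), w = R * exp (θ * I) := by
    have h5 : w = R * exp (arg w * I) := by rw [← hn, norm_mul_exp_arg_mul_I]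
    by_cases h : 0 ≤ arg w
    · exact ⟨arg w, ⟨h, (arg_le_pi w).trans (by linarith [Real.pi_pos])⟩, h5⟩
    · refine ⟨arg w + 2 * Real.pi, ⟨by linarith [neg_pi_lt_arg w, Real.pi_pos], by linarith⟩, ?_⟩
      push_cast
      rw [add_mul, exp_add, exp_two_pi_mul_I, mul_one]
      exact h5
  exact (div_eq_one_iff_eq (hne θ)).1 (key θ hθ)

theorem Phi_conj (l : List RC) (z : ℂ) : Phi l (conj z) = conj (Phi l z) := by
  induction l generalizing z with
  | nil => simp [Phi]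
  | cons c l ih =>
    have h : (c.lam : ℂ) * conj z = conj (c.lam * z) := by simp
    rw [Phi, Phi, h, ih]
    split_ifs <;> simp

theorem ZZ_conj (up dn : List RC) (s : ℂ) : ZZ up dn (conj s) = conj (ZZ up dn s) := by
  rw [ZZ, ZZ, ← map_inv₀, Phi_conj, Phi_conj]
  simp

/-- the average over the circle of a symmetric function -/
theorem avg_half {f : ℂ → ℂ} {R : ℝ} (hR : 0 < R) (hc : ContinuousOn f (sphere 0 R))
    (hs : ∀ w ∈ sphere (0 : ℂ) R, f (conj w) = conj (f w)) :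
    ∫ θ in (0 : ℝ)..Real.pi, (f (R * exp (θ * I))).re = Real.pi * (Real.circleAverage f 0 R).re := by
  have hcw : Continuous fun θ : ℝ => (R * exp (θ * I) : ℂ) := by fun_prop
  have h1 : Continuous fun θ : ℝ => f (R * exp (θ * I)) := hc.comp_continuous hcw (HdA1_mem hR)
  have h2 : Continuous fun θ : ℝ => (f (R * exp (θ * I))).re := continuous_re.comp h1
  have h3 : (∫ θ in (0 : ℝ)..2 * Real.pi, f (R * exp (θ * I))).re =
      ∫ θ in (0 : ℝ)..2 * Real.pi, (f (R * exp (θ * I))).re :=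
    (reCLM.intervalIntegral_comp_comm (h1.intervalIntegrable _ _)).symm
  have h4 : ∫ θ in Real.pi..2 * Real.pi, (f (R * exp (θ * I))).re =
      ∫ θ in (0 : ℝ)..Real.pi, (f (R * exp (θ * I))).re := by
    have h5 := intervalIntegral.integral_comp_sub_left (a := 0) (b := Real.pi)
      (fun θ : ℝ => (f (R * exp (θ * I))).re) (2 * Real.pi)
    rw [show 2 * Real.pi - Real.pi = Real.pi by ring, sub_zero] at h5
    rw [← h5]
    refine intervalIntegral.integral_congr fun θ _ => ?_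
    have h6 : (R * exp (((2 * Real.pi - θ : ℝ) : ℂ) * I) : ℂ) = conj (R * exp (θ * I)) := by
      push_cast
      rw [sub_mul, exp_sub, exp_two_pi_mul_I, map_mul, conj_ofReal, ← exp_conj, one_div, ← exp_neg]
      simp
    simp only [h6, hs _ (HdA1_mem hR θ), conj_re]
  rw [Real.circleAverage_def]
  simp only [circleMap, zero_add, smul_re, smul_eq_mul]
  rw [h3, ← intervalIntegral.integral_add_adjacent_intervals (b := Real.pi) (c := 2 * Real.pi)
    (h2.intervalIntegrable _ _) (h2.intervalIntegrable _ _), h4]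
  generalize ∫ θ in (0 : ℝ)..Real.pi, (f (R * exp (θ * I))).re = J
  field_simp
  ring

end Pool.Agent.MP_92463a_gt
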