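import Pool.Agent.MP_92463a_gt.HdA1
import Pool.Agent.MP_92463a_gt.DatC

open Set Complex Filter Metric
open scoped Topology ComplexConjugate ContDiff Manifold

noncomputable section

namespace Pool.Agent.MP_92463a_gt

theorem G_at {D : Dat} (hD : D.Ok) {i : ℕ} (hi : i ≤ D.p) {x : ℝ} (hx : D.InA i x) :
    D.G x = (if Even i then 1 else I) * (‖D.G x‖ : ℂ) :=
  (hD.sign_pos hx.1 hi hx.2.1 hx.2.2).2

theorem HdA2_ne {ε : Bool} {z : ℂ} (h : pm ε z ≠ 0) : z ≠ 0 := by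
  rintro rfl
  cases ε <;> simp [pm] at h

theorem HdA2_pow {ε : Bool} {z u : ℂ} (h : z ^ 4 = pm ε u) : pm ε z ^ 4 = u := by
  cases ε
  · simp only [pm, Bool.false_eq_true, if_false] at h ⊢
    rw [inv_pow, h, inv_inv]
  · exact h

theorem HdA2_sum (ε : Bool) (z : ℂ) : pm ε z + (pm ε z)⁻¹ = z + z⁻¹ := by
  cases ε
  · simp only [pm, Bool.false_eq_true, if_false, inv_inv, add_comm]
  · rfl

theorem HdA2_conj (ε : Bool) (z : ℂ) : pm ε (conj z) = conj (pm ε z) := by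
  cases ε <;> simp [pm]

theorem HdA2_pos (ε : Bool) {z : ℂ} (h1 : 0 < z.re) (h2 : z.im = 0) :
    ∃ r : ℝ, 0 < r ∧ pm ε z = r := by
  have e : z = z.re := Complex.ext (by simp) (by simp [h2])
  cases ε
  · refine ⟨z.re⁻¹, inv_pos.2 h1, ?_⟩
    rw [ofReal_inv, ← e]
    rfl
  · exact ⟨z.re, h1, e⟩

theorem HdA2_pt (i : ℕ) {G V t d q : ℂ} (hG : G = (if Even i then 1 else I) * V)
    (hd : d / t = I * q) :
    (if Sg.ty (false, i) then im else re) (G / t * d - conj ((G * t)⁻¹ * d)) =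
      sg i * ((V + V⁻¹) * q).re := by
  have e1 : G / t * d = G * (I * q) := by rw [← hd]; ring
  have e2 : (G * t)⁻¹ * d = G⁻¹ * (I * q) := by rw [← hd, mul_inv]; ring
  rw [e1, e2, hG, add_mul, add_re]
  by_cases h : Even i
  · have a1 : (1 : ℂ) * V * (I * q) = I * (V * q) := by ring
    have a2 : ((1 : ℂ) * V)⁻¹ * (I * q) = I * (V⁻¹ * q) := by rw [one_mul]; ring
    simp only [Sg.ty, h, Bool.false_eq_true, if_false, decide_true, if_true, sg, h.neg_one_pow]
    rw [a1, a2, sub_im, conj_im, I_mul_im, I_mul_im]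
    ring
  · have a1 : I * V * (I * q) = -(V * q) := by linear_combination V * q * I_mul_I
    have a2 : (I * V)⁻¹ * (I * q) = V⁻¹ * q := by
      rw [mul_inv, mul_mul_mul_comm, inv_mul_cancel₀ I_ne_zero, one_mul]
    simp only [Sg.ty, h, Bool.false_eq_true, if_false, decide_false, sg,
      (Nat.not_even_iff_odd.1 h).neg_one_pow]
    rw [a1, a2, sub_re, conj_re, neg_re]
    ring

theorem HdA2_int (ty : Bool) {F : ℝ → ℂ} (hF : ContinuousOn F (Icc 0 Real.pi)) :
    (if ty then im else re) (∫ θ in (0 : ℝ)..Real.pi, F θ) =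
      ∫ θ in (0 : ℝ)..Real.pi, (if ty then im else re) (F θ) := by
  have h : IntervalIntegrable F MeasureTheory.volume 0 Real.pi :=
    (uIcc_of_le Real.pi_pos.le ▸ hF).intervalIntegrable
  cases ty
  · exact (reCLM.intervalIntegral_comp_comm h).symm
  · exact (imCLM.intervalIntegral_comp_comm h).symm

theorem lk_eq {D : Dat} (hD : D.Ok) {i : ℕ} (hi : i ≤ D.p) {sv : Sg} {W c R : ℝ} (hW : 0 < W)
    (hR : 0 < R) (hu : D.InA i (W * (c + R))) (hv : D.InS sv (W * (c - R))) {Γ : ℂ → ℂ}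
    (hc : ContinuousOn Γ (sphere 0 R)) (ε : Bool)
    (h4 : ∀ w ∈ sphere (0 : ℂ) R, Γ w ≠ 0 ∧
      Γ w ^ 4 = pm ε ((D.P (W * (c + w)) * D.R (W * (c + w)) ^ 2) ^ 2))
    (h1 : 0 < (Γ R).re) (h2 : (Γ R).im = 0) :
    Lk D.F1 D.F2 (Sg.ty (false, i)) (W * (c + R)) (W * (c - R)) = sg i * Real.pi * Fv Γ c R := by
  have hP : ∀ w ∈ sphere (0 : ℂ) R, D.P (W * (c + w)) ≠ 0 := fun w hw =>
    left_ne_zero_of_mul (pow_ne_zero_iff two_ne_zero |>.1
      (HdA2_ne ((h4 w hw).2 ▸ pow_ne_zero 4 (h4 w hw).1)))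
  have hcw : ∀ w ∈ sphere (0 : ℂ) R, (c : ℂ) + w ≠ 0 := fun w hw =>
    right_ne_zero_of_mul (Dat.Alg_ne (hP w hw)).1
  have hs : ∀ θ : ℝ, (R : ℂ) * exp (θ * I) ∈ sphere (0 : ℂ) R := fun θ => by
    rw [mem_sphere_zero_iff_norm, norm_mul, norm_exp_ofReal_mul_I, mul_one, norm_real,
      Real.norm_of_nonneg hR.le]
  have et : ∀ θ : ℝ, (((W * (c + R) : ℝ) : ℂ) + (W * (c - R) : ℝ)) / 2 +
      (((W * (c + R) : ℝ) : ℂ) - (W * (c - R) : ℝ)) / 2 * exp (θ * I) =
        W * (c + R * exp (θ * I)) := fun θ => by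
    push_cast
    ring
  have h₀ : D.P (W * (c + R) : ℝ) ≠ 0 := hD.inS_ne (s := (false, i)) hu
  have h₁ := hD.inS_ne hv
  have hlt : W * (c - R) < W * (c + R) := mul_lt_mul_of_pos_left (by linarith) hW
  have hι : (if Even i then 1 else I : ℂ) ^ 4 = 1 := by
    split_ifs
    · exact one_pow _
    · exact I_pow_four
  have hι0 : (if Even i then 1 else I : ℂ) ≠ 0 := fun h => by
    rw [h, zero_pow four_ne_zero] at hι
    exact zero_ne_one hι
  have hV : ∀ θ : ℝ, pm ε (Γ (R * exp (θ * I))) ≠ 0 := fun θ => by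
    cases ε
    · exact inv_ne_zero (h4 _ (hs θ)).1
    · exact (h4 _ (hs θ)).1
  have cΓ : Continuous fun θ : ℝ => Γ (R * exp (θ * I)) :=
    hc.comp_continuous (by fun_prop) hs
  have cV : Continuous fun θ : ℝ => pm ε (Γ (R * exp (θ * I))) := by
    cases ε
    · exact cΓ.inv₀ fun θ => (h4 _ (hs θ)).1
    · exact cΓ
  have cG : ContinuousOn (fun θ : ℝ => D.G (W * (c + R * exp (θ * I)))) (Icc 0 Real.pi) :=
    Dat.G_cont.comp (f := fun θ : ℝ => (W * (c + R * exp (θ * I)) : ℂ)) (by fun_prop)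
      fun θ hθ => by
        have := Dat.Ok.semi h₀ h₁ hlt hθ
        rw [et] at this
        exact this
  have q4 : ∀ θ : ℝ, (D.G (W * (c + R * exp (θ * I))) /
      ((if Even i then 1 else I) * pm ε (Γ (R * exp (θ * I))))) ^ 4 = 1 := fun θ => by
    have a := hP _ (hs θ)
    rw [div_pow, mul_pow, hι, one_mul, div_eq_one_iff_eq (pow_ne_zero _ (hV θ)),
      HdA2_pow (h4 _ (hs θ)).2, hD.G_eq a, ← Dat.Y_sq a]
    ring
  have key := root4_const (a := 0) (b := Real.pi) (f := fun θ : ℝ =>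
      D.G (W * (c + R * exp (θ * I))) / ((if Even i then 1 else I) * pm ε (Γ (R * exp (θ * I)))))
    (cG.div (continuous_const.mul cV).continuousOn fun θ _ => mul_ne_zero hι0 (hV θ))
    (fun θ _ => q4 θ) (by
      obtain ⟨r, hr, e⟩ := HdA2_pos ε h1 h2
      have a := q4 0
      have b := G_at hD hi hu
      simp only [ofReal_zero, zero_mul, exp_zero, mul_one] at a ⊢
      rw [ofReal_mul, ofReal_add] at b
      rw [b, e, mul_div_mul_left _ _ hι0, ← ofReal_div] at a ⊢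
      have a' : (‖D.G (W * (c + R))‖ / r) ^ 4 = 1 := by exact_mod_cast a
      rw [(pow_eq_one_iff_of_nonneg (by positivity) four_ne_zero).1 a', ofReal_one])
  have sy := sym_circ (Ψ := fun w => pm ε ((D.P (W * (c + w)) * D.R (W * (c + w)) ^ 2) ^ 2))
    hR hc h4 (fun w _ => by
      have e : (W : ℂ) * (c + conj w) = conj (W * (c + w)) := by simp
      rw [e, Dat.P_conj, Dat.R_conj, ← map_pow, ← map_mul, ← map_pow, HdA2_conj]) h2
  have av := avg_half (f := fI Γ c) hR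
    ((hc.add (hc.inv₀ fun w hw => (h4 w hw).1)).mul
      (continuousOn_id.div (continuousOn_const.add continuousOn_id) hcw))
    fun w hw => by simp [fI, sy w hw]
  have cF := Dat.DatC_cont (ψ₁ := fun _ => 1) (ψ₂ := fun _ => 1) h₀ h₁ hlt
    fun _ _ _ _ => ⟨continuousAt_const, continuousAt_const⟩
  simp only [one_pow, one_mul] at cF
  rw [Lk, Fv, mul_assoc, ← av, ← intervalIntegral.integral_const_mul]
  refine (HdA2_int _ cF).trans (intervalIntegral.integral_congr fun θ hθ => ?_)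
  rw [uIcc_of_le Real.pi_pos.le] at hθ
  have k := key θ hθ
  rw [div_eq_one_iff_eq (mul_ne_zero hι0 (hV θ))] at k
  simp only [fI]
  rw [et, ← HdA2_sum ε]
  refine HdA2_pt i k ?_
  have n1 := hcw _ (hs θ)
  have n2 : (W : ℂ) ≠ 0 := ofReal_ne_zero.2 hW.ne'
  push_cast
  field_simp
  ring

end Pool.Agent.MP_92463a_gt
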