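import Pool.Agent.MP_92463a_gt.Hd2

open Set Complex Filter Metric
open scoped Topology ComplexConjugate ContDiff Manifold

noncomputable section

namespace Pool.Agent.MP_92463a_gt

theorem HdB1_int {f : ℂ → ℂ} {r : ℝ} (hr : 0 ≤ r) (hf : ∀ w : ℂ, ‖w‖ = r → DifferentiableAt ℂ f w)
    {z : ℂ} (hz : ‖z‖ ≠ r) : CircleIntegrable (fun w => (w - z)⁻¹ * f w) 0 r := by
  refine ContinuousOn.circleIntegrable hr fun w hw => ?_
  have hw' : ‖w‖ = r := by simpa using hw
  have hne : w - z ≠ 0 := fun h => hz (by rw [← sub_eq_zero.1 h, hw'])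
  exact (((continuousAt_id.sub continuousAt_const).inv₀ hne).mul
    (hf w hw').continuousAt).continuousWithinAt

/-- the Cauchy formula on an annulus -/
theorem HdB1_cauchy {f : ℂ → ℂ} {r1 r2 : ℝ} (h0 : 0 < r1)
    (hf : ∀ w : ℂ, r1 ≤ ‖w‖ → ‖w‖ ≤ r2 → DifferentiableAt ℂ f w) {z : ℂ} (h1 : r1 < ‖z‖)
    (h2 : ‖z‖ < r2) :
    2 * Real.pi * I * f z =
      (∮ w in C(0, r2), (w - z)⁻¹ * f w) - ∮ w in C(0, r1), (w - z)⁻¹ * f w := by
  have h12 : r1 ≤ r2 := (h1.trans h2).le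
  have hmem : ∀ w : ℂ, w ∈ closedBall (0 : ℂ) r2 \ ball 0 r1 → DifferentiableAt ℂ f w := by
    intro w hw
    refine hf w ?_ ?_
    · simpa using hw.2
    · simpa using hw.1
  have e := circleIntegral_eq_of_differentiable_on_annulus_off_countable (c := 0) (f := dslope f z)
    h0 h12 (countable_singleton z) (fun w hw => by
      by_cases hwz : w = z
      · subst hwz
        exact (continuousAt_dslope_same.2 (hmem w hw)).continuousWithinAt
      · exact ((continuousAt_dslope_of_ne hwz).2 (hmem w hw).continuousAt).continuousWithinAt)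
    (fun w hw => (differentiableAt_dslope_of_ne hw.2).2
      (hmem w ⟨ball_subset_closedBall hw.1.1, fun h => hw.1.2 (ball_subset_closedBall h)⟩))
  have split : ∀ r : ℝ, r1 ≤ r → r ≤ r2 → ‖z‖ ≠ r → (∮ w in C(0, r), dslope f z w) =
      (∮ w in C(0, r), (w - z)⁻¹ * f w) - (∮ w in C(0, r), (w - z)⁻¹) * f z := by
    intro r a b c
    have hr : 0 ≤ r := h0.le.trans a
    rw [← smul_eq_mul _ (f z), ← circleIntegral.integral_smul_const]
    simp only [smul_eq_mul]
    rw [← circleIntegral.integral_sub (HdB1_int hr (fun w hw => hf w (hw ▸ a) (hw ▸ b)) c)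
        (HdB1_int hr (f := fun _ => f z) (fun w _ => differentiableAt_const _) c)]
    refine circleIntegral.integral_congr hr fun w hw => ?_
    have hw' : ‖w‖ = r := by simpa using hw
    have hne : w ≠ z := fun h => c (by rw [← h, hw'])
    simp only [dslope_of_ne f hne, slope_def_module, smul_eq_mul]
    ring
  have z1 : (∮ w in C(0, r1), (w - z)⁻¹) = 0 := by
    have hd : ∀ w ∈ closedBall (0 : ℂ) r1, DifferentiableAt ℂ (fun w => (w - z)⁻¹) w := by
      intro w hw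
      have hw' : ‖w‖ ≤ r1 := by simpa using hw
      have hne : w - z ≠ 0 := fun h => by
        rw [sub_eq_zero.1 h] at hw'
        linarith
      exact (differentiableAt_id.sub_const z).inv hne
    exact circleIntegral_eq_zero_of_differentiable_on_off_countable h0.le countable_empty
      (fun w hw => (hd w hw).continuousAt.continuousWithinAt)
      fun w hw => hd w (ball_subset_closedBall hw.1)
  rw [split r2 h12 le_rfl h2.ne, split r1 le_rfl h12 h1.ne', z1,
    circleIntegral.integral_sub_inv_of_mem_ball (by simpa using h2)] at e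
  linear_combination -e

theorem HdB1_norm {R : ℝ} (hR : 0 ≤ R) (N k : ℕ) :
    ‖(R : ℂ) * exp (Real.pi * (2 * k + 1) / N * I)‖ = R := by
  have : (Real.pi : ℂ) * (2 * k + 1) / N * I = ((Real.pi * (2 * k + 1) / N : ℝ) : ℂ) * I := by
    push_cast
    ring
  rw [norm_mul, this, norm_exp_ofReal_mul_I, norm_real, Real.norm_of_nonneg hR, mul_one]

theorem HdB1_prod (R : ℝ) {N : ℕ} (hN : 0 < N) (w : ℂ) :
    ∏ k ∈ Finset.range N, (w - R * exp (Real.pi * (2 * k + 1) / N * I)) = w ^ N + (R : ℂ) ^ N := by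
  have hN' : (N : ℂ) ≠ 0 := Nat.cast_ne_zero.2 hN.ne'
  have e : ((R : ℂ) * exp (Real.pi / N * I)) ^ N = -(R : ℂ) ^ N := by
    rw [mul_pow, ← exp_nat_mul, show (N : ℂ) * (Real.pi / N * I) = Real.pi * I by field_simp,
      exp_pi_mul_I]
    ring
  have h := congrArg (Polynomial.eval w)
    (X_pow_sub_C_eq_prod (isPrimitiveRoot_exp N hN.ne') hN e)
  simp only [Polynomial.eval_sub, Polynomial.eval_pow, Polynomial.eval_X, Polynomial.eval_C,
    Polynomial.eval_prod, sub_neg_eq_add] at h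
  rw [h]
  refine Finset.prod_congr rfl fun k _ => ?_
  rw [← exp_nat_mul, mul_left_comm, ← exp_add]
  congr 3
  ring

theorem HdB1_ker {R : ℝ} (hR : 0 ≤ R) {N : ℕ} (hN : 0 < N) {w : ℂ} (hw : ‖w‖ ≠ R) :
    ∑ k ∈ Finset.range N, (w - R * exp (Real.pi * (2 * k + 1) / N * I))⁻¹ =
      N * w ^ (N - 1) / (w ^ N + (R : ℂ) ^ N) := by
  have hne : ∀ k ∈ Finset.range N, w - R * exp (Real.pi * (2 * k + 1) / N * I) ≠ 0 :=
    fun k _ h => hw (by rw [sub_eq_zero.1 h, HdB1_norm hR])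
  have h := logDeriv_prod (s := Finset.range N)
    (f := fun (k : ℕ) (w : ℂ) => w - R * exp (Real.pi * (2 * k + 1) / N * I)) (x := w) hne
    fun k _ => differentiableAt_id.sub_const _
  simp only [HdB1_prod R hN, logDeriv_apply, deriv_sub_const, deriv_id'', one_div,
    deriv_add_const, deriv_pow_field] at h
  exact h.symm

/-- the error of the trapezoidal rule on a circle -/
theorem alias_err {f : ℂ → ℂ} {r1 R r2 M1 M2 : ℝ} {N : ℕ} (hN : 0 < N) (h0 : 0 < r1) (h1 : r1 < R)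
    (h2 : R < r2) (hf : ∀ w : ℂ, r1 ≤ ‖w‖ → ‖w‖ ≤ r2 → DifferentiableAt ℂ f w)
    (hM1 : ∀ w : ℂ, ‖w‖ = r1 → ‖f w‖ ≤ M1) (hM2 : ∀ w : ℂ, ‖w‖ = r2 → ‖f w‖ ≤ M2) :
    ‖Real.circleAverage f 0 R -
      (∑ k ∈ Finset.range N, f (R * exp (Real.pi * (2 * k + 1) / N * I))) / N‖ ≤
      M1 * ((r1 / R) ^ N / (1 - (r1 / R) ^ N)) + M2 * ((R / r2) ^ N / (1 - (R / r2) ^ N)) := by
  have hR : 0 < R := h0.trans h1
  have hr2 : 0 < r2 := hR.trans h2
  have h12 : r1 ≤ r2 := (h1.trans h2).le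
  have hN' : (N : ℂ) ≠ 0 := Nat.cast_ne_zero.2 hN.ne'
  have hpi : (2 * Real.pi * I : ℂ) ≠ 0 := by simp [Real.pi_ne_zero]
  have hf1 : ∀ w : ℂ, ‖w‖ = r1 → DifferentiableAt ℂ f w := fun w hw => hf w hw.ge (hw ▸ h12)
  have hf2 : ∀ w : ℂ, ‖w‖ = r2 → DifferentiableAt ℂ f w := fun w hw => hf w (hw ▸ h12) hw.le
  obtain ⟨n, rfl⟩ : ∃ n, N = n + 1 := ⟨N - 1, by omega⟩
  set z : ℕ → ℂ := fun k => R * exp (Real.pi * (2 * k + 1) / (n + 1 : ℕ) * I) with hz
  have hzn : ∀ k, ‖z k‖ = R := fun k => HdB1_norm hR.le _ k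
  have hA : Real.circleAverage f 0 R =
      (2 * Real.pi * I : ℂ)⁻¹ * ∮ w in C(0, r2), (w - 0)⁻¹ * f w := by
    rw [Real.circleAverage_eq_circleIntegral hR.ne',
      ← circleIntegral_sub_center_inv_smul_eq_of_differentiable_on_annulus_off_countable hR h2.le
        countable_empty (fun w hw => (hf w (h1.le.trans (by simpa using hw.2))
          (by simpa using hw.1)).continuousAt.continuousWithinAt)
        (fun w hw => hf w (h1.le.trans (le_of_lt (by simpa using hw.1.2)))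
          (le_of_lt (by simpa using hw.1.1)))]
    rfl
  have hS : 2 * Real.pi * I * ∑ k ∈ Finset.range (n + 1), f (z k) =
      (∮ w in C(0, r2), ∑ k ∈ Finset.range (n + 1), (w - z k)⁻¹ * f w) -
        ∮ w in C(0, r1), ∑ k ∈ Finset.range (n + 1), (w - z k)⁻¹ * f w := by
    rw [circleIntegral.integral_fun_sum fun k _ => HdB1_int hr2.le hf2 (by rw [hzn]; exact h2.ne),
      circleIntegral.integral_fun_sum fun k _ => HdB1_int h0.le hf1 (by rw [hzn]; exact h1.ne'),
      Finset.mul_sum, ← Finset.sum_sub_distrib]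
    exact Finset.sum_congr rfl fun k _ =>
      HdB1_cauchy h0 hf (by rw [hzn]; exact h1) (by rw [hzn]; exact h2)
  have hI : CircleIntegrable (fun w => ((n + 1 : ℕ) : ℂ)⁻¹ *
      ∑ k ∈ Finset.range (n + 1), (w - z k)⁻¹ * f w) 0 r2 :=
    (CircleIntegrable.fun_sum _ fun k _ =>
      HdB1_int hr2.le hf2 (by rw [hzn]; exact h2.ne)).const_fun_smul (a := ((n + 1 : ℕ) : ℂ)⁻¹)
  have hE : Real.circleAverage f 0 R - (∑ k ∈ Finset.range (n + 1), f (z k)) / (n + 1 : ℕ) =
      (2 * Real.pi * I : ℂ)⁻¹ • (∮ w in C(0, r1), ((n + 1 : ℕ) : ℂ)⁻¹ *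
        ∑ k ∈ Finset.range (n + 1), (w - z k)⁻¹ * f w) +
      (2 * Real.pi * I : ℂ)⁻¹ • ∮ w in C(0, r2), ((w - 0)⁻¹ * f w - ((n + 1 : ℕ) : ℂ)⁻¹ *
        ∑ k ∈ Finset.range (n + 1), (w - z k)⁻¹ * f w) := by
    rw [circleIntegral.integral_sub (HdB1_int hr2.le hf2 (by simpa using hr2.ne)) hI,
      circleIntegral.integral_const_mul, circleIntegral.integral_const_mul, hA, smul_eq_mul,
      smul_eq_mul, (eq_inv_mul_iff_mul_eq₀ hpi).2 hS]
    ring
  have p1 : r1 ^ (n + 1) < R ^ (n + 1) := pow_lt_pow_left₀ h1 h0.le (by omega)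
  have p2 : R ^ (n + 1) < r2 ^ (n + 1) := pow_lt_pow_left₀ h2 hR.le (by omega)
  have nR : ‖(R : ℂ) ^ (n + 1)‖ = R ^ (n + 1) := by
    rw [norm_pow, norm_real, Real.norm_of_nonneg hR.le]
  change ‖Real.circleAverage f 0 R - (∑ k ∈ Finset.range (n + 1), f (z k)) / (n + 1 : ℕ)‖ ≤ _
  rw [hE]
  refine (norm_add_le _ _).trans (add_le_add ?_ ?_)
  · refine (circleIntegral.norm_two_pi_i_inv_smul_integral_le_of_norm_le_const
      (C := r1 ^ n / (R ^ (n + 1) - r1 ^ (n + 1)) * M1) h0.le fun w hw => ?_).trans (le_of_eq ?_)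
    · have hw' : ‖w‖ = r1 := by simpa using hw
      have hl : R ^ (n + 1) - r1 ^ (n + 1) ≤ ‖w ^ (n + 1) + (R : ℂ) ^ (n + 1)‖ := by
        have := norm_sub_norm_le ((R : ℂ) ^ (n + 1)) (-w ^ (n + 1))
        rwa [nR, norm_neg, norm_pow, hw', sub_neg_eq_add, add_comm ((R : ℂ) ^ (n + 1))] at this
      rw [← Finset.sum_mul, HdB1_ker hR.le hN (by rw [hw']; exact h1.ne), ← mul_assoc,
        ← mul_div_assoc, ← mul_assoc, inv_mul_cancel₀ hN', one_mul, norm_mul, norm_div, norm_pow,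
        hw', Nat.add_sub_cancel]
      exact mul_le_mul (div_le_div_of_nonneg_left (by positivity) (by linarith) hl) (hM1 w hw')
        (norm_nonneg _) (div_nonneg (by positivity) (by linarith))
    · have : R ^ (n + 1) - r1 ^ (n + 1) ≠ 0 := by linarith
      rw [div_pow, one_sub_div (by positivity), div_div_div_cancel_right₀ (by positivity)]
      ring
  · refine (circleIntegral.norm_two_pi_i_inv_smul_integral_le_of_norm_le_const
      (C := R ^ (n + 1) / (r2 * (r2 ^ (n + 1) - R ^ (n + 1))) * M2) hr2.le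
        fun w hw => ?_).trans (le_of_eq ?_)
    · have hw' : ‖w‖ = r2 := by simpa using hw
      have hl : r2 ^ (n + 1) - R ^ (n + 1) ≤ ‖w ^ (n + 1) + (R : ℂ) ^ (n + 1)‖ := by
        have := norm_sub_norm_le (w ^ (n + 1)) (-(R : ℂ) ^ (n + 1))
        rwa [norm_neg, nR, norm_pow, hw', sub_neg_eq_add] at this
      have hw0 : w ≠ 0 := norm_pos_iff.1 (hw' ▸ hr2)
      have hd : w ^ (n + 1) + (R : ℂ) ^ (n + 1) ≠ 0 := norm_pos_iff.1 (by linarith)
      have e : (w - 0)⁻¹ * f w - w ^ n / (w ^ (n + 1) + (R : ℂ) ^ (n + 1)) * f w =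
          (R : ℂ) ^ (n + 1) / (w * (w ^ (n + 1) + (R : ℂ) ^ (n + 1))) * f w := by
        rw [sub_zero]
        field_simp
        ring
      rw [← Finset.sum_mul, HdB1_ker hR.le hN (by rw [hw']; exact h2.ne'), ← mul_assoc,
        ← mul_div_assoc, ← mul_assoc, inv_mul_cancel₀ hN', one_mul, Nat.add_sub_cancel, e,
        norm_mul, norm_div, nR, norm_mul, hw']
      have hp : 0 < r2 * (r2 ^ (n + 1) - R ^ (n + 1)) := mul_pos hr2 (by linarith)
      exact mul_le_mul (div_le_div_of_nonneg_left (by positivity) hp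
        (mul_le_mul_of_nonneg_left hl hr2.le)) (hM2 w hw') (norm_nonneg _)
        (div_nonneg (by positivity) hp.le)
    · have : r2 ^ (n + 1) - R ^ (n + 1) ≠ 0 := by linarith
      rw [div_pow, one_sub_div (by positivity), div_div_div_cancel_right₀ (by positivity)]
      field_simp

end Pool.Agent.MP_92463a_gt
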