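import Pool.Agent.MP_92463a_gt.HdB1

open Set Complex Filter Metric
open scoped Topology ComplexConjugate ContDiff Manifold

noncomputable section

namespace Pool.Agent.MP_92463a_gt

theorem ann_lip {f : ℂ → ℂ} {r1 R r2 M1 M2 : ℝ} (h0 : 0 < r1) (h1 : r1 < R)
    (h2 : R < r2) (hf : ∀ w : ℂ, r1 ≤ ‖w‖ → ‖w‖ ≤ r2 → DifferentiableAt ℂ f w)
    (hM1 : ∀ w : ℂ, ‖w‖ = r1 → ‖f w‖ ≤ M1) (hM2 : ∀ w : ℂ, ‖w‖ = r2 → ‖f w‖ ≤ M2)
    {w z : ℂ} (hw : ‖w‖ = R) (hz : ‖z - w‖ < min (R - r1) (r2 - R)) :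
    ‖f z - f w‖ ≤ 3 * (M1 + M2) * ‖z - w‖ / min (R - r1) (r2 - R) := by
  have p1 : 0 ≤ M1 := (norm_nonneg _).trans (hM1 r1 (by simp [abs_of_pos h0]))
  have p2 : 0 ≤ M2 := (norm_nonneg _).trans (hM2 r2 (by simp [abs_of_pos (h0.trans (h1.trans h2))]))
  set d := min (R - r1) (r2 - R) with hd
  have d1 : d ≤ R - r1 := min_le_left _ _
  have d2 : d ≤ r2 - R := min_le_right _ _
  have d0 : 0 < d := lt_min (by linarith) (by linarith)
  let U : Set ℂ := (fun u : ℂ => ‖u‖) ⁻¹' Ioo r1 r2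
  have hc : closure U ⊆ (fun u : ℂ => ‖u‖) ⁻¹' Icc r1 r2 :=
    closure_minimal (preimage_mono Ioo_subset_Icc_self) (isClosed_Icc.preimage continuous_norm)
  have ho : IsOpen U := isOpen_Ioo.preimage continuous_norm
  have hb : ∀ u ∈ U, ‖f u‖ ≤ M1 + M2 := fun u hu => by
    refine norm_le_of_forall_mem_frontier_norm_le (U := U)
      ((isBounded_closedBall (x := (0 : ℂ)) (r := r2)).subset fun v hv => by simpa using hv.2.le)
      (DifferentiableOn.diffContOnCl fun v hv =>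
        (hf v (hc hv).1 (hc hv).2).differentiableWithinAt) (fun v hv => ?_) (subset_closure hu)
    rw [ho.frontier_eq] at hv
    have h3 := hc hv.1
    rcases h3.1.eq_or_lt with e | e
    · linarith [hM1 v e.symm]
    · rcases h3.2.eq_or_lt with e' | e'
      · linarith [hM2 v e']
      · exact absurd ⟨e, e'⟩ hv.2
  have hU : ball w d ⊆ U := fun u hu => by
    have h3 := abs_norm_sub_norm_le u w
    rw [mem_ball, dist_eq_norm] at hu
    rw [abs_le, hw] at h3
    exact ⟨by linarith [h3.1], by linarith [h3.2]⟩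
  have h4 := dist_le_div_mul_dist_of_mapsTo_ball (f := f) (c := w) (R₁ := d)
    (R₂ := 3 * (M1 + M2)) (z := z)
    (fun u hu => (hf u (hU hu).1.le (hU hu).2.le).differentiableWithinAt)
    (fun u hu => by
      rw [mem_closedBall, dist_eq_norm]
      linarith [norm_sub_le (f u) (f w), hb u (hU hu), hb w (hU (mem_ball_self d0))])
    (by rwa [mem_ball, dist_eq_norm])
  rw [dist_eq_norm, dist_eq_norm] at h4
  exact h4.trans_eq (by ring)

theorem quad_err {f : ℂ → ℂ} {r1 R r2 M1 M2 δ : ℝ} {n : ℕ} (hn : 0 < n) (h0 : 0 < r1) (h1 : r1 < R)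
    (h2 : R < r2) (hf : ∀ w : ℂ, r1 ≤ ‖w‖ → ‖w‖ ≤ r2 → DifferentiableAt ℂ f w)
    (hM1 : ∀ w : ℂ, ‖w‖ = r1 → ‖f w‖ ≤ M1) (hM2 : ∀ w : ℂ, ‖w‖ = r2 → ‖f w‖ ≤ M2)
    (hs : ∀ w ∈ sphere (0 : ℂ) R, f (conj w) = conj (f w)) (z : ℕ → ℂ)
    (hz : ∀ k < n, ‖z k - R * exp (Real.pi * (2 * k + 1) / (2 * n) * I)‖ ≤ δ)
    (hδ : δ < min (R - r1) (r2 - R)) :
    |(Real.circleAverage f 0 R).re - (∑ k ∈ Finset.range n, (f (z k)).re) / n| ≤
      M1 * ((r1 / R) ^ (2 * n) / (1 - (r1 / R) ^ (2 * n))) +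
        M2 * ((R / r2) ^ (2 * n) / (1 - (R / r2) ^ (2 * n))) +
        3 * (M1 + M2) * δ / min (R - r1) (r2 - R) := by
  have p1 : 0 ≤ M1 := (norm_nonneg _).trans (hM1 r1 (by simp [abs_of_pos h0]))
  have p2 : 0 ≤ M2 := (norm_nonneg _).trans (hM2 r2 (by simp [abs_of_pos (h0.trans (h1.trans h2))]))
  have d0 : 0 < min (R - r1) (r2 - R) := lt_min (by linarith) (by linarith)
  have n0 : (0 : ℝ) < n := Nat.cast_pos.2 hn
  have A := alias_err (N := 2 * n) (by omega) h0 h1 h2 hf hM1 hM2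
  let nd : ℕ → ℂ := fun k => R * exp (Real.pi * (2 * k + 1) / (2 * n) * I)
  have hnd : ∀ k, ‖nd k‖ = R := fun k => by
    have e : (Real.pi * (2 * k + 1) / (2 * n) * I : ℂ) =
        ((Real.pi * (2 * k + 1) / (2 * n) : ℝ) : ℂ) * I := by push_cast; ring
    simp only [nd]
    rw [e, norm_mul, norm_exp_ofReal_mul_I, mul_one, norm_real,
      Real.norm_of_nonneg (by linarith)]
  have hcj : ∀ k < n, nd (n + (n - 1 - k)) = conj (nd k) := fun k hk => by
    obtain ⟨j, rfl⟩ := Nat.exists_eq_add_of_lt hk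
    have e : k + j + 1 - 1 - k = j := by omega
    have n1 : ((k + j + 1 : ℕ) : ℂ) ≠ 0 := Nat.cast_ne_zero.2 (by omega)
    simp only [nd, e, map_mul, conj_ofReal, ← exp_conj, map_div₀, map_add, map_natCast, conj_I,
      map_one, map_ofNat]
    congr 1
    rw [← exp_periodic (_ * -I)]
    congr 1
    field_simp
    push_cast
    ring
  have hsum : (∑ k ∈ Finset.range (2 * n), f (nd k)).re =
      2 * ∑ k ∈ Finset.range n, (f (nd k)).re := by
    rw [two_mul n, Finset.sum_range_add, add_re, re_sum, re_sum, two_mul,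
      ← Finset.sum_range_reflect (fun k => (f (nd (n + k))).re)]
    congr 1
    refine Finset.sum_congr rfl fun k hk => ?_
    rw [hcj k (Finset.mem_range.1 hk), hs _ (by simpa using hnd k), conj_re]
  have B := (abs_re_le_norm _).trans A
  rw [sub_re, div_natCast_re] at B
  push_cast at B
  change |_ - (∑ k ∈ Finset.range (2 * n), f (nd k)).re / _| ≤ _ at B
  rw [hsum, mul_div_mul_left _ _ two_ne_zero] at B
  have C : |(∑ k ∈ Finset.range n, (f (nd k)).re) / n - (∑ k ∈ Finset.range n, (f (z k)).re) / n| ≤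
      3 * (M1 + M2) * δ / min (R - r1) (r2 - R) := by
    rw [← sub_div, abs_div, abs_of_pos n0, div_le_iff₀ n0, ← Finset.sum_sub_distrib]
    refine (Finset.abs_sum_le_sum_abs _ _).trans ((Finset.sum_le_card_nsmul _ _ _
      fun k hk => ?_).trans_eq (by rw [Finset.card_range, nsmul_eq_mul, mul_comm]))
    have h3 := hz k (Finset.mem_range.1 hk)
    rw [abs_sub_comm, ← sub_re]
    refine (abs_re_le_norm _).trans
      ((ann_lip h0 h1 h2 hf hM1 hM2 (hnd k) (h3.trans_lt hδ)).trans ?_)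
    gcongr
  exact (abs_sub_le _ _ _).trans (add_le_add B C)

end Pool.Agent.MP_92463a_gt
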