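import Pool.Agent.MP_92463a_gt.Hd2

open Set Complex Filter Metric
open scoped Topology ComplexConjugate ContDiff Manifold

noncomputable section

namespace Pool.Agent.MP_92463a_gt

theorem HdC1_exp {S : ℂ} (h : ‖S‖ ≤ 1) :
    ‖exp S - (1 + S + S ^ 2 / 2 + S ^ 3 / 6 + S ^ 4 / 24)‖ ≤ ‖S‖ ^ 5 / 100 := by
  have h1 := Complex.exp_bound h (n := 5) (by norm_num)
  simp only [Finset.sum_range_succ, Finset.sum_range_zero, Nat.factorial] at h1
  convert h1 using 2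
  · push_cast
    ring
  · norm_num
    ring

theorem HdC1_ch {S : ℂ} {σ : ℝ} (h : ‖S‖ ≤ σ) (hσ : σ ≤ 1) :
    ‖(exp S + exp (-S)) / 2 - 1‖ ≤ 9 / 16 * σ ^ 2 ∧
      ‖(exp S - exp (-S)) / 2 - S‖ ≤ 3 / 16 * σ ^ 3 := by
  have h0 := norm_nonneg S
  have h1 := HdC1_exp (h.trans hσ)
  have h2 := HdC1_exp (S := -S) (by rw [norm_neg]; exact h.trans hσ)
  rw [norm_neg] at h2
  generalize hA : exp S - (1 + S + S ^ 2 / 2 + S ^ 3 / 6 + S ^ 4 / 24) = A at h1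
  generalize hB : exp (-S) - (1 + -S + (-S) ^ 2 / 2 + (-S) ^ 3 / 6 + (-S) ^ 4 / 24) = B at h2
  have p2 : ‖S‖ ^ 2 ≤ σ ^ 2 := pow_le_pow_left₀ h0 h 2
  have p3 : ‖S‖ ^ 3 ≤ σ ^ 3 := pow_le_pow_left₀ h0 h 3
  have p4 : ‖S‖ ^ 4 ≤ ‖S‖ ^ 2 := pow_le_pow_of_le_one h0 (h.trans hσ) (by norm_num)
  have p5 : ‖S‖ ^ 5 ≤ ‖S‖ ^ 2 := pow_le_pow_of_le_one h0 (h.trans hσ) (by norm_num)
  have p6 : ‖S‖ ^ 5 ≤ ‖S‖ ^ 3 := pow_le_pow_of_le_one h0 (h.trans hσ) (by norm_num)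
  have q2 : 0 ≤ ‖S‖ ^ 2 := by positivity
  have q3 : 0 ≤ ‖S‖ ^ 3 := by positivity
  constructor
  · have e : (exp S + exp (-S)) / 2 - 1 = S ^ 2 / 2 + S ^ 4 / 24 + (A + B) / 2 := by
      rw [← hA, ← hB]
      ring
    have b1 := norm_add₃_le (a := S ^ 2 / 2) (b := S ^ 4 / 24) (c := (A + B) / 2)
    have b2 := norm_add_le A B
    simp only [norm_div, norm_pow, Complex.norm_ofNat] at b1
    rw [e]
    linarith
  · have e : (exp S - exp (-S)) / 2 - S = S ^ 3 / 6 + (A - B) / 2 := by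
      rw [← hA, ← hB]
      ring
    have b1 := norm_add_le (S ^ 3 / 6) ((A - B) / 2)
    have b2 := norm_sub_le A B
    simp only [norm_div, norm_pow, Complex.norm_ofNat] at b1
    rw [e]
    linarith

theorem HdC1_e1 {t h : ℝ} (ht : |t| ≤ h) :
    |Real.exp t - 1| ≤ Real.exp h - 1 ∧ |Real.exp t - 1| ≤ |t| * Real.exp h := by
  have h0 := (abs_nonneg t).trans ht
  have h1 := Real.add_one_le_exp t
  have h2 := Real.add_one_le_exp h
  have h3 := Real.exp_le_exp.2 (abs_le.1 ht).2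
  rcases le_total 0 t with h4 | h4
  · have h5 := mul_le_mul_of_nonneg_right (Real.add_one_le_exp (-t)) (Real.exp_pos t).le
    rw [← Real.exp_add, neg_add_cancel, Real.exp_zero] at h5
    have h6 := mul_le_mul_of_nonneg_left h3 h4
    rw [abs_of_nonneg h4, abs_of_nonneg (by linarith)]
    exact ⟨by linarith, by linarith⟩
  · have h5 := Real.exp_le_one_iff.2 h4
    rw [abs_of_nonpos h4] at ht ⊢
    have h6 := mul_le_mul_of_nonneg_left (show 1 ≤ Real.exp h by linarith) (neg_nonneg.2 h4)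
    rw [abs_of_nonpos (by linarith)]
    exact ⟨by linarith, by linarith⟩

theorem node_exp {γ q S L gp gm : ℂ} {δ ρ σ : ℝ} (hγ : γ ≠ 0) (hp : ‖gp - (γ + γ⁻¹) * q‖ ≤ δ)
    (hm : ‖gm - (γ - γ⁻¹) * q‖ ≤ δ) (hS : ‖S - L‖ ≤ ρ) (hL : ‖L‖ + ρ ≤ σ) (hσ : σ ≤ 1) :
    |((γ * exp S + (γ * exp S)⁻¹) * q).re - gp.re - (gm * L).re| ≤
      2 * δ + (‖gp‖ + δ) * (9 / 16 * σ ^ 2) + (‖gm‖ + δ) * (3 / 16 * σ ^ 3 + ρ) := by
  have l0 := norm_nonneg L
  have r0 := (norm_nonneg _).trans hS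
  have d0 := (norm_nonneg _).trans hp
  have h1 : ‖S‖ ≤ σ := by
    have := norm_le_insert' S L
    linarith
  obtain ⟨c1, c2⟩ := HdC1_ch h1 hσ
  have n1 : ‖(γ + γ⁻¹) * q‖ ≤ ‖gp‖ + δ := by
    have := norm_le_insert gp ((γ + γ⁻¹) * q)
    linarith
  have n2 : ‖(γ - γ⁻¹) * q‖ ≤ ‖gm‖ + δ := by
    have := norm_le_insert gm ((γ - γ⁻¹) * q)
    linarith
  have e : (γ * exp S + (γ * exp S)⁻¹) * q - gp - gm * L =
      -(gp - (γ + γ⁻¹) * q) + (γ + γ⁻¹) * q * ((exp S + exp (-S)) / 2 - 1) +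
        ((γ - γ⁻¹) * q * (((exp S - exp (-S)) / 2 - S) + (S - L)) +
          -(gm - (γ - γ⁻¹) * q) * L) := by
    rw [mul_inv, ← exp_neg]
    ring
  rw [← sub_re, ← sub_re, e]
  refine (abs_re_le_norm _).trans (norm_add₃_le.trans ?_)
  have b1 := norm_add_le ((γ - γ⁻¹) * q * (((exp S - exp (-S)) / 2 - S) + (S - L)))
    (-(gm - (γ - γ⁻¹) * q) * L)
  have b2 := mul_le_mul n1 c1 (norm_nonneg _) ((norm_nonneg _).trans n1)
  have b3 := mul_le_mul n2 ((norm_add_le _ _).trans (add_le_add c2 hS)) (norm_nonneg _)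
    ((norm_nonneg _).trans n2)
  have b4 := mul_le_mul hm (show ‖L‖ ≤ 1 by linarith) l0 d0
  rw [norm_mul _ (_ + _), norm_mul _ L, norm_neg] at b1
  rw [norm_neg, norm_mul _ (_ - _)]
  linarith

theorem atom_log {u : ℂ} {η h E x : ℝ} (hη : |η| ≤ h) (hE : Real.exp h - 1 ≤ E) (hx : ‖u‖ * E ≤ x)
    (hx1 : x < 1) : ‖log (1 + u * ((Real.exp η - 1 : ℝ) : ℂ)) - u * η‖ ≤
      h ^ 2 / 2 * ‖u * (1 - u)‖ * (1 + E) / (1 - x) ^ 2 := by
  have h0 := (abs_nonneg η).trans hη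
  have hE0 : 0 ≤ E := by linarith [Real.add_one_le_exp h]
  have hx0 : 0 ≤ x := (mul_nonneg (norm_nonneg u) hE0).trans hx
  have hb : ∀ s ∈ Icc (0 : ℝ) 1, |s * η| ≤ s * h := fun s hs => by
    rw [abs_mul, abs_of_nonneg hs.1]
    exact mul_le_mul_of_nonneg_left hη hs.1
  have hb' : ∀ s ∈ Icc (0 : ℝ) 1, |s * η| ≤ h := fun s hs =>
    (hb s hs).trans (mul_le_of_le_one_left h0 hs.2)
  have hn : ∀ s ∈ Icc (0 : ℝ) 1, ‖u * ((Real.exp (s * η) - 1 : ℝ) : ℂ)‖ ≤ x := fun s hs => by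
    rw [norm_mul, Complex.norm_real, Real.norm_eq_abs]
    exact (mul_le_mul_of_nonneg_left ((HdC1_e1 (hb' s hs)).1.trans hE) (norm_nonneg u)).trans hx
  have hd : ∀ s ∈ Icc (0 : ℝ) 1, HasDerivAt
      (fun s : ℝ => log (1 + u * ((Real.exp (s * η) - 1 : ℝ) : ℂ)) - u * ((s * η : ℝ) : ℂ))
      (η * (u * (1 - u)) * ((Real.exp (s * η) - 1 : ℝ) : ℂ) /
        (1 + u * ((Real.exp (s * η) - 1 : ℝ) : ℂ))) s := fun s hs => by
    have hsl := mem_slitPlane_of_norm_lt_one ((hn s hs).trans_lt hx1)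
    have d1 : HasDerivAt (fun s : ℝ => s * η) η s := hasDerivAt_mul_const η
    have d2 := ((((d1.exp.sub_const 1).ofReal_comp.const_mul u).const_add 1).clog_real hsl).sub
      (d1.ofReal_comp.const_mul u)
    have hne := slitPlane_ne_zero hsl
    refine d2.congr_deriv ?_
    rw [div_sub' hne]
    congr 1
    push_cast
    ring
  have h1 : 0 < 1 - x := by linarith
  obtain ⟨M, hM⟩ : ∃ M, M = h ^ 2 / 2 * ‖u * (1 - u)‖ * (1 + E) / (1 - x) ^ 2 := ⟨_, rfl⟩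
  have key := image_norm_le_of_norm_deriv_right_le_deriv_boundary
    (fun s hs => (hd s hs).continuousAt.continuousWithinAt)
    (fun s hs => (hd s (Ico_subset_Icc_self hs)).hasDerivWithinAt)
    (B := fun s => M * s ^ 2) (B' := fun s => M * (2 * s)) (by simp)
    (fun s => by simpa using (hasDerivAt_pow 2 s).const_mul M) (fun s hs => by
      have hs' := Ico_subset_Icc_self hs
      have a1 : 1 - x ≤ ‖1 + u * ((Real.exp (s * η) - 1 : ℝ) : ℂ)‖ := by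
        have := norm_le_add_norm_add (1 : ℂ) (u * ((Real.exp (s * η) - 1 : ℝ) : ℂ))
        rw [norm_one] at this
        linarith [hn s hs']
      have a2 : |Real.exp (s * η) - 1| ≤ s * h * (1 + E) :=
        (HdC1_e1 (hb' s hs')).2.trans (mul_le_mul (hb s hs') (by linarith) (Real.exp_pos h).le
          (mul_nonneg hs.1 h0))
      have a3 : (1 - x) ^ 2 ≤ 1 - x := by nlinarith
      have s0 := hs.1
      rw [norm_div, norm_mul, norm_mul, Complex.norm_real, Complex.norm_real, Real.norm_eq_abs,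
        Real.norm_eq_abs, hM, show h ^ 2 / 2 * ‖u * (1 - u)‖ * (1 + E) / (1 - x) ^ 2 * (2 * s) =
          h * ‖u * (1 - u)‖ * (s * h * (1 + E)) / (1 - x) ^ 2 by ring]
      refine div_le_div₀ (by positivity) ?_ (by positivity) (a3.trans a1)
      gcongr) (right_mem_Icc.2 zero_le_one)
  simpa [hM] using key

theorem eh_bound {h : ℕ} (hh : h ≤ 2 ^ 40) {η : ℝ} (hη : |η| ≤ h / 2 ^ 40) :
    |Real.exp η - 1| ≤ (eh h : ℝ) ∧ Real.exp (h / 2 ^ 40) - 1 ≤ (eh h : ℝ) := by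
  have h0 : (0 : ℝ) ≤ h / 2 ^ 40 := by positivity
  have h1 : (h / 2 ^ 40 : ℝ) ≤ 1 := by
    rw [div_le_one (by positivity)]
    exact_mod_cast hh
  have h2 : Real.exp (h / 2 ^ 40) - 1 ≤ (eh h : ℝ) := by
    have := (abs_le.1 (Real.abs_exp_sub_one_sub_id_le ((abs_of_nonneg h0).trans_le h1))).2
    rw [eh]
    push_cast
    linarith
  exact ⟨(HdC1_e1 hη).1.trans h2, h2⟩

theorem exp_sb {x : ℝ} (hx : x ≤ 2) : Real.exp x ≤ (1 - x / 4)⁻¹ ^ 4 := by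
  have h1 : Real.exp (x / 4) ≤ (1 - x / 4)⁻¹ := by
    rw [le_inv_comm₀ (Real.exp_pos _) (by linarith), ← Real.exp_neg]
    linarith [Real.add_one_le_exp (-(x / 4))]
  have h2 := pow_le_pow_left₀ (Real.exp_pos _).le h1 4
  rwa [← Real.exp_nat_mul, show ((4 : ℕ) : ℝ) * (x / 4) = x by push_cast; ring] at h2

end Pool.Agent.MP_92463a_gt
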