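import Pool.Agent.MP_92463a_gt.HdG1

open Set Complex Filter Metric
open scoped Topology ComplexConjugate ContDiff Manifold

noncomputable section

namespace Pool.Agent.MP_92463a_gt

theorem HdC2_im {z : ℂ} {r : ℝ} (hz : ‖z‖ ≤ r) (h0 : 1 + z ≠ 0) :
    |(1 + z).im / ‖1 + z‖| ≤ r := by
  have hp := norm_pos_iff.2 h0
  rw [abs_div, abs_of_pos hp, div_le_iff₀ hp]
  refine le_trans ?_ (mul_le_mul_of_nonneg_right hz hp.le)
  rw [← abs_of_nonneg (mul_nonneg (norm_nonneg z) hp.le), ← sq_le_sq, mul_pow, Complex.sq_norm,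
    Complex.sq_norm, normSq_apply, normSq_apply]
  simp only [add_re, add_im, one_re, one_im]
  nlinarith [sq_nonneg (z.re + z.re * z.re + z.im * z.im)]

theorem arg_az {z : ℂ} {t r : ℝ} (ht : 0 < t) (hz : ‖z‖ ≤ r) (hr : r ≤ 47 / 50) :
    |arg (t * (1 + z))| ≤ r + 3 / 5 * r ^ 3 := by
  have r0 := (norm_nonneg z).trans hz
  have h1 : 0 < (1 + z).re := by
    have := (abs_le.1 (abs_re_le_norm z)).1
    rw [add_re, one_re]
    linarith
  have h2 := abs_le.1 (HdC2_im hz fun h => by simp [h] at h1)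
  have r2 : r ^ 2 ≤ (47 / 50) ^ 2 := pow_le_pow_left₀ r0 hr 2
  have r3 : r ^ 3 ≤ (47 / 50) ^ 3 := pow_le_pow_left₀ r0 hr 3
  have a0 : 0 ≤ r + 3 / 5 * r ^ 3 := by positivity
  have a1 : r + 3 / 5 * r ^ 3 < Real.pi / 2 := by linarith [Real.pi_gt_three]
  have a2 : r ≤ Real.sin (r + 3 / 5 * r ^ 3) := by
    have b1 := Real.sin_ge_sub_cube a0
    have b2 : (1 + 3 / 5 * r ^ 2) ^ 3 ≤ (1 + 3 / 5 * (47 / 50) ^ 2) ^ 3 :=
      pow_le_pow_left₀ (by positivity) (by linarith) 3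
    have b3 := mul_le_mul_of_nonneg_left (b2.trans (show _ ≤ (18 / 5 : ℝ) by norm_num))
      (pow_nonneg r0 3)
    have e : (r + 3 / 5 * r ^ 3) ^ 3 = r ^ 3 * (1 + 3 / 5 * r ^ 2) ^ 3 := by ring
    linarith
  rw [arg_real_mul _ ht, arg_of_re_nonneg h1.le, abs_le,
    Real.le_arcsin_iff_sin_le' ⟨by linarith, by linarith⟩,
    Real.arcsin_le_iff_le_sin' ⟨by linarith, a1⟩, Real.sin_neg]
  exact ⟨by linarith, by linarith⟩

theorem sq_sound {g N D : G4} {Lg : ℂ} (h : sqOk g N D = true) (hN : N.val = exp Lg * D.val)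
    (hi : |Lg.im| ≤ 31 / 10) :
    g.val ≠ 0 ∧ ∃ δ : ℂ, ‖δ‖ ≤ 3 / 2 ^ 33 ∧ exp (Lg / 2) = g.val / 2 ^ 64 * exp δ := by
  simp only [sqOk, Bool.and_eq_true, Nat.blt_eq, Nat.ble_eq, Nat.mul_eq, Nat.pow_eq,
    Nat.sub_eq] at h
  obtain ⟨⟨h1, h2⟩, h3⟩ := h
  have p1 : 0 < g.val.re := by
    rw [G4.val_re, sub_pos]
    exact_mod_cast h1
  have g0 : g.val ≠ 0 := fun h => by simp [h] at p1
  have d0 := norm_pos_iff.2 ((G4.n2_pos D).1 h2)
  obtain ⟨ρ, hρ⟩ : ∃ ρ, ρ = 2 ^ 64 * exp (Lg / 2) := ⟨_, rfl⟩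
  have ρ0 : ρ ≠ 0 := hρ ▸ mul_ne_zero (by norm_num) (exp_ne_zero _)
  have ρ1 : 0 ≤ ρ.re := by
    have hc : 0 ≤ Real.cos (Lg / 2).im := by
      have := abs_le.1 hi
      have := Real.pi_gt_d2
      rw [div_ofNat_im]
      exact Real.cos_nonneg_of_neg_pi_div_two_le_of_le (by linarith) (by linarith)
    rw [hρ, show (2 : ℂ) ^ 64 = ((2 ^ 64 : ℝ) : ℂ) by push_cast; rfl, re_ofReal_mul, exp_re]
    positivity
  have e : g.val * g.val * D.val - ((2 ^ 128 : ℕ) : ℂ) * N.val =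
      (g.val - ρ) * (g.val + ρ) * D.val := by
    have : exp Lg = exp (Lg / 2) * exp (Lg / 2) := by rw [← exp_add, add_halves]
    rw [hN, hρ, this]
    push_cast
    ring
  have h4 := (Nat.cast_le (α := ℝ)).2 h3
  rw [Nat.cast_mul, Nat.cast_mul, G4.n2_eq, G4.n2_eq, G4.val_sub, G4.val_mul, G4.val_mul,
    G4.val_sm, e, Nat.cast_pow, Nat.cast_pow, Nat.cast_sub h1.le, ← G4.val_re, norm_mul, norm_mul,
    show ∀ a b c : ℝ, (a * b * c) ^ 2 * ((2 : ℕ) : ℝ) ^ 64 = (a * b * 2 ^ 32) ^ 2 * c ^ 2 from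
      fun a b c => by push_cast; ring,
    mul_le_mul_iff_left₀ (pow_pos d0 2), show g.val.re ^ 4 = (g.val.re ^ 2) ^ 2 by ring] at h4
  have h5 := (sq_le_sq₀ (by positivity) (by positivity)).1 h4
  have h6 : g.val.re ≤ ‖g.val + ρ‖ := by
    have := re_le_norm (g.val + ρ)
    rw [add_re] at this
    linarith
  have h7 : ‖g.val - ρ‖ * 2 ^ 32 ≤ ‖g.val‖ := by
    have b1 := mul_le_mul_of_nonneg_left h6 (norm_nonneg (g.val - ρ))
    refine le_trans (le_of_mul_le_mul_right ?_ p1) (re_le_norm _)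
    linarith
  have h8 : ‖ρ / g.val - 1‖ ≤ 1 / 2 ^ 32 := by
    rw [div_sub_one g0, norm_div, norm_sub_rev, div_le_div_iff₀ (norm_pos_iff.2 g0) (by positivity),
      one_mul]
    exact h7
  have h9 := norm_log_one_add_half_le_self (h8.trans (by norm_num))
  rw [add_sub_cancel] at h9
  refine ⟨g0, log (ρ / g.val), by linarith, ?_⟩
  rw [exp_log (div_ne_zero ρ0 g0), hρ]
  field_simp

end Pool.Agent.MP_92463a_gt
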