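import Pool.Agent.MP_92463a_gt.HdEa0

namespace Pool.Agent.MP_92463a_gt

theorem lkF3_3 : blkF3.lk tb64 3 = true := by decide +kernel

theorem lkF3_4 : blkF3.lk tb64 4 = true := by decide +kernel

theorem lkF3_5 : blkF3.lk tb64 5 = true := by decide +kernel

theorem lkF3_6 : blkF3.lk tb64 6 = true := by decide +kernel

theorem lkF3_7 : blkF3.lk tb64 7 = true := by decide +kernel

theorem lkF4_0 : blkF4.lk tb32 0 = true := by decide +kernel

theorem lkF4_1 : blkF4.lk tb32 1 = true := by decide +kernel

theorem lkF4_2 : blkF4.lk tb32 2 = true := by decide +kernel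

theorem lkF4_3 : blkF4.lk tb32 3 = true := by decide +kernel

theorem lkF4_4 : blkF4.lk tb32 4 = true := by decide +kernel

end Pool.Agent.MP_92463a_gt
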