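import Pool.Agent.MP_92463a_gt.HdEa0

namespace Pool.Agent.MP_92463a_gt

theorem lkF4_5 : blkF4.lk tb32 5 = true := by decide +kernel

theorem lkF4_6 : blkF4.lk tb32 6 = true := by decide +kernel

theorem lkF4_7 : blkF4.lk tb32 7 = true := by decide +kernel

theorem lkF4_8 : blkF4.lk tb32 8 = true := by decide +kernel

theorem lkF4_9 : blkF4.lk tb32 9 = true := by decide +kernel

theorem lkF5_0 : blkF5.lk tb64 0 = true := by decide +kernel

theorem lkF5_1 : blkF5.lk tb64 1 = true := by decide +kernel

theorem lkF5_2 : blkF5.lk tb64 2 = true := by decide +kernel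

theorem lkF5_3 : blkF5.lk tb64 3 = true := by decide +kernel

theorem lkF5_4 : blkF5.lk tb64 4 = true := by decide +kernel

end Pool.Agent.MP_92463a_gt
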