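import Pool.Agent.MP_92463a_gt.HdEa0

namespace Pool.Agent.MP_92463a_gt

theorem lkF5_5 : blkF5.lk tb64 5 = true := by decide +kernel

theorem lkF5_6 : blkF5.lk tb64 6 = true := by decide +kernel

theorem lkF5_7 : blkF5.lk tb64 7 = true := by decide +kernel

theorem lkF5_8 : blkF5.lk tb64 8 = true := by decide +kernel

theorem lkF5_9 : blkF5.lk tb64 9 = true := by decide +kernel

theorem lkF5_10 : blkF5.lk tb64 10 = true := by decide +kernel

theorem lkF5_11 : blkF5.lk tb64 11 = true := by decide +kernel

end Pool.Agent.MP_92463a_gt
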