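import Pool.Agent.MP_92463a_gt.HdEa0

namespace Pool.Agent.MP_92463a_gt

theorem lkF6_0 : blkF6.lk tb32 0 = true := by decide +kernel

theorem lkF6_1 : blkF6.lk tb32 1 = true := by decide +kernel

theorem lkF6_2 : blkF6.lk tb32 2 = true := by decide +kernel

theorem lkF6_3 : blkF6.lk tb32 3 = true := by decide +kernel

theorem lkF6_4 : blkF6.lk tb32 4 = true := by decide +kernel

theorem lkF6_5 : blkF6.lk tb32 5 = true := by decide +kernel

theorem lkF6_6 : blkF6.lk tb32 6 = true := by decide +kernel

theorem lkF6_7 : blkF6.lk tb32 7 = true := by decide +kernel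

theorem lkF6_8 : blkF6.lk tb32 8 = true := by decide +kernel

theorem lkF6_9 : blkF6.lk tb32 9 = true := by decide +kernel

end Pool.Agent.MP_92463a_gt
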