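import Pool.Agent.MP_92463a_gt.HdEa0

namespace Pool.Agent.MP_92463a_gt

theorem lkF6_10 : blkF6.lk tb32 10 = true := by decide +kernel

theorem lkF6_11 : blkF6.lk tb32 11 = true := by decide +kernel

theorem lkF6_12 : blkF6.lk tb32 12 = true := by decide +kernel

theorem lkF6_13 : blkF6.lk tb32 13 = true := by decide +kernel

theorem lkF7_0 : blkF7.lk tb32 0 = true := by decide +kernel

theorem lkF7_1 : blkF7.lk tb32 1 = true := by decide +kernel

theorem lkF7_2 : blkF7.lk tb32 2 = true := by decide +kernel

theorem lkF7_3 : blkF7.lk tb32 3 = true := by decide +kernel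

theorem lkF7_4 : blkF7.lk tb32 4 = true := by decide +kernel

theorem lkF7_5 : blkF7.lk tb32 5 = true := by decide +kernel

end Pool.Agent.MP_92463a_gt
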