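import Pool.Agent.MP_92463a_gt.HdEa0

namespace Pool.Agent.MP_92463a_gt

theorem lkF7_6 : blkF7.lk tb32 6 = true := by decide +kernel

theorem lkF7_7 : blkF7.lk tb32 7 = true := by decide +kernel

theorem lkF7_8 : blkF7.lk tb32 8 = true := by decide +kernel

theorem lkF7_9 : blkF7.lk tb32 9 = true := by decide +kernel

theorem lkF7_10 : blkF7.lk tb32 10 = true := by decide +kernel

theorem lkF7_11 : blkF7.lk tb32 11 = true := by decide +kernel

theorem lkF7_12 : blkF7.lk tb32 12 = true := by decide +kernel

theorem lkF7_13 : blkF7.lk tb32 13 = true := by decide +kernel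

theorem lkF7_14 : blkF7.lk tb32 14 = true := by decide +kernel

theorem lkF7_15 : blkF7.lk tb32 15 = true := by decide +kernel

end Pool.Agent.MP_92463a_gt
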