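import Pool.Agent.MP_92463a_gt.HdEa0

namespace Pool.Agent.MP_92463a_gt

theorem chkF2 : blkF2.chk = true := by decide +kernel

theorem finF2 : finChk blkF2.cells = true := by decide +kernel

theorem chkF3 : blkF3.chk = true := by decide +kernel

theorem finF3 : finChk blkF3.cells = true := by decide +kernel

theorem chkF4 : blkF4.chk = true := by decide +kernel

theorem finF4 : finChk blkF4.cells = true := by decide +kernel

theorem chkF5 : blkF5.chk = true := by decide +kernel

theorem finF5 : finChk blkF5.cells = true := by decide +kernel

theorem chkF6 : blkF6.chk = true := by decide +kernel

theorem finF6 : finChk blkF6.cells = true := by decide +kernel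

theorem chkF7 : blkF7.chk = true := by decide +kernel

theorem finF7 : finChk blkF7.cells = true := by decide +kernel

end Pool.Agent.MP_92463a_gt
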