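import Pool.Agent.MP_92463a_gt.HdEb0

namespace Pool.Agent.MP_92463a_gt

theorem lkF8_0 : blkF8.lk tb32 0 = true := by decide +kernel

theorem lkF8_1 : blkF8.lk tb32 1 = true := by decide +kernel

theorem lkF8_2 : blkF8.lk tb32 2 = true := by decide +kernel

theorem lkF8_3 : blkF8.lk tb32 3 = true := by decide +kernel

theorem lkF8_4 : blkF8.lk tb32 4 = true := by decide +kernel

theorem lkF8_5 : blkF8.lk tb32 5 = true := by decide +kernel

theorem lkF8_6 : blkF8.lk tb32 6 = true := by decide +kernel

theorem lkF8_7 : blkF8.lk tb32 7 = true := by decide +kernel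

theorem lkF8_8 : blkF8.lk tb32 8 = true := by decide +kernel

theorem lkF8_9 : blkF8.lk tb32 9 = true := by decide +kernel

theorem lkF8_10 : blkF8.lk tb32 10 = true := by decide +kernel

end Pool.Agent.MP_92463a_gt
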