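import Pool.Agent.MP_92463a_gt.HdEb0

namespace Pool.Agent.MP_92463a_gt

theorem chkF8 : blkF8.chk = true := by decide +kernel

theorem finF8 : finChk blkF8.cells = true := by decide +kernel

theorem chkF9 : blkF9.chk = true := by decide +kernel

theorem finF9 : finChk blkF9.cells = true := by decide +kernel

theorem chkF10 : blkF10.chk = true := by decide +kernel

theorem finF10 : finChk blkF10.cells = true := by decide +kernel

end Pool.Agent.MP_92463a_gt
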