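import Pool.Agent.MP_92463a_gt.HdEe0

namespace Pool.Agent.MP_92463a_gt

theorem lkW_8 : blkW.lk tb32 8 = true := by decide +kernel

theorem lkW_9 : blkW.lk tb32 9 = true := by decide +kernel

theorem lkW_10 : blkW.lk tb32 10 = true := by decide +kernel

theorem lkW_11 : blkW.lk tb32 11 = true := by decide +kernel

theorem lkW_12 : blkW.lk tb32 12 = true := by decide +kernel

theorem lkW_13 : blkW.lk tb32 13 = true := by decide +kernel

theorem lkW_14 : blkW.lk tb32 14 = true := by decide +kernel

theorem lkW_15 : blkW.lk tb32 15 = true := by decide +kernel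

end Pool.Agent.MP_92463a_gt
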