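import Pool.Agent.MP_92463a_gt.HdEe0

namespace Pool.Agent.MP_92463a_gt

theorem lkB_0 : blkB.lk tb32 0 = true := by decide +kernel

theorem lkB_1 : blkB.lk tb32 1 = true := by decide +kernel

theorem lkT_0 : blkT.lk tb32 0 = true := by decide +kernel

theorem lkT_1 : blkT.lk tb32 1 = true := by decide +kernel

theorem lkT_2 : blkT.lk tb32 2 = true := by decide +kernel

theorem lkT_3 : blkT.lk tb32 3 = true := by decide +kernel

theorem lkT_4 : blkT.lk tb32 4 = true := by decide +kernel

theorem lkT_5 : blkT.lk tb32 5 = true := by decide +kernel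

theorem lkT_6 : blkT.lk tb32 6 = true := by decide +kernel

theorem lkT_7 : blkT.lk tb32 7 = true := by decide +kernel

end Pool.Agent.MP_92463a_gt
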