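import Pool.Agent.MP_92463a_gt.HdEe0

namespace Pool.Agent.MP_92463a_gt

theorem chkW : blkW.chk = true := by decide +kernel

theorem chkB : blkB.chk = true := by decide +kernel

theorem chkT : blkT.chk = true := by decide +kernel

end Pool.Agent.MP_92463a_gt
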