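import Pool.Agent.MP_92463a_gt.Hd2

open Set Complex Filter Metric
open scoped Topology ComplexConjugate ContDiff Manifold

noncomputable section

namespace Pool.Agent.MP_92463a_gt

theorem HdG1_sub (a b : ℕ) : ((a - b : ℕ) : ℝ) - ((b - a : ℕ) : ℝ) = (a : ℝ) - b := by
  rcases le_total a b with h | h
  · rw [Nat.sub_eq_zero_of_le h, Nat.cast_sub h]; simp
  · rw [Nat.sub_eq_zero_of_le h, Nat.cast_sub h]; simp

theorem HdG1_abs (a b : ℕ) : ((a - b : ℕ) : ℝ) + ((b - a : ℕ) : ℝ) = |(a : ℝ) - b| := by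
  rcases le_total a b with h | h
  · have h' : (a : ℝ) ≤ b := by exact_mod_cast h
    rw [Nat.sub_eq_zero_of_le h, Nat.cast_sub h, abs_of_nonpos (by linarith)]; simp
  · have h' : (b : ℝ) ≤ a := by exact_mod_cast h
    rw [Nat.sub_eq_zero_of_le h, Nat.cast_sub h, abs_of_nonneg (by linarith)]; simp

theorem HdG1_div (x n : ℕ) (hn : 0 < n) :
    ((x / n : ℕ) : ℝ) ≤ (x : ℝ) / n ∧ (x : ℝ) / n ≤ ((x / n : ℕ) : ℝ) + 1 := by
  refine ⟨Nat.cast_div_le, ?_⟩
  have hn' : (0 : ℝ) < n := by exact_mod_cast hn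
  rw [div_le_iff₀ hn']
  have h1 : x ≤ (x / n + 1) * n := by
    have h2 := Nat.div_add_mod x n
    have h3 := Nat.mod_lt x hn
    nlinarith
  exact_mod_cast h1

theorem HdG1_dv (a b n : ℕ) (hn : 0 < n) :
    |(((a - b) / n : ℕ) : ℝ) - (((b - a) / n : ℕ) : ℝ) - ((a : ℝ) - b) / n| ≤ 1 := by
  rcases le_total a b with h | h
  · have := HdG1_div (b - a) n hn
    rw [Nat.cast_sub h] at this
    rw [Nat.sub_eq_zero_of_le h, Nat.zero_div, Nat.cast_zero, abs_le]
    have e : ((a : ℝ) - b) / n = -(((b : ℝ) - a) / n) := by ring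
    constructor <;> linarith [this.1, this.2]
  · have := HdG1_div (a - b) n hn
    rw [Nat.cast_sub h] at this
    rw [Nat.sub_eq_zero_of_le h, Nat.zero_div, Nat.cast_zero, abs_le]
    constructor <;> linarith [this.1, this.2]

namespace G4

variable (u v : G4)

theorem HdG1_re : u.val.re = (u.a : ℝ) - u.b := by simp [val]

theorem HdG1_im : u.val.im = (u.c : ℝ) - u.d := by simp [val]

theorem val_nat (n : ℕ) : (nat n).val = n := by simp [val, nat]

theorem val_int (n : ℤ) : (int n).val = n := by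
  have h : ((n.toNat : ℤ) - ((-n).toNat : ℤ)) = n := Int.toNat_sub_toNat_neg n
  have h' : ((n.toNat : ℝ) - ((-n).toNat : ℝ)) = n := by exact_mod_cast h
  apply Complex.ext
  · rw [HdG1_re]; simpa [int] using h'
  · rw [HdG1_im]; simp [int]

theorem val_add : (u.add v).val = u.val + v.val := by
  apply Complex.ext
  · simp only [Complex.add_re, HdG1_re, add, Nat.add_eq]; push_cast; ring
  · simp only [Complex.add_im, HdG1_im, add, Nat.add_eq]; push_cast; ring

theorem val_neg : u.neg.val = -u.val := by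
  apply Complex.ext
  · simp only [Complex.neg_re, HdG1_re, neg]; ring
  · simp only [Complex.neg_im, HdG1_im, neg]; ring

theorem val_sub : (u.sub v).val = u.val - v.val := by
  apply Complex.ext
  · simp only [Complex.sub_re, HdG1_re, sub, Nat.add_eq]; push_cast; ring
  · simp only [Complex.sub_im, HdG1_im, sub, Nat.add_eq]; push_cast; ring

theorem val_cj : u.cj.val = conj u.val := by
  apply Complex.ext
  · simp only [Complex.conj_re, HdG1_re, cj]
  · simp only [Complex.conj_im, HdG1_im, cj]; ring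

theorem val_sm (n : ℕ) : (sm n u).val = n * u.val := by
  apply Complex.ext
  · simp only [Complex.mul_re, HdG1_re, HdG1_im, sm, Nat.mul_eq, Complex.natCast_re,
      Complex.natCast_im]; push_cast; ring
  · simp only [Complex.mul_im, HdG1_re, HdG1_im, sm, Nat.mul_eq, Complex.natCast_re,
      Complex.natCast_im]; push_cast; ring

theorem val_nz : u.nz.val = u.val := by
  apply Complex.ext
  · simp only [HdG1_re, nz, Nat.sub_eq]; exact HdG1_sub _ _
  · simp only [HdG1_im, nz, Nat.sub_eq]; exact HdG1_sub _ _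

theorem val_mul : (u.mul v).val = u.val * v.val := by
  rw [mul, val_nz]
  apply Complex.ext
  · simp only [Complex.mul_re, HdG1_re, HdG1_im, rp, rn, Nat.mul_eq, Nat.add_eq]; push_cast; ring
  · simp only [Complex.mul_im, HdG1_re, HdG1_im, rp, rn, Nat.mul_eq, Nat.add_eq]; push_cast; ring

theorem val_pw (n : ℕ) : (u.pw n).val = u.val ^ n := by
  induction n with
  | zero => simp [pw, val_nat]
  | succ n ih => rw [pw, val_mul, ih, pow_succ]

theorem val_re : u.val.re = (u.a : ℝ) - u.b := HdG1_re u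

theorem rp_rn : (u.val * v.val).re = (u.rp v : ℝ) - u.rn v := by
  simp only [Complex.mul_re, HdG1_re, HdG1_im, rp, rn, Nat.mul_eq, Nat.add_eq]; push_cast; ring

theorem HdG1_ax : (u.ax : ℝ) = |u.val.re| := by
  rw [HdG1_re, ← HdG1_abs]; simp only [ax, Nat.add_eq, Nat.sub_eq, Nat.cast_add]

theorem HdG1_ay : (u.ay : ℝ) = |u.val.im| := by
  rw [HdG1_im, ← HdG1_abs]; simp only [ay, Nat.add_eq, Nat.sub_eq, Nat.cast_add]

theorem n2_eq : (u.n2 : ℝ) = ‖u.val‖ ^ 2 := by
  rw [Complex.sq_norm, Complex.normSq_apply]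
  simp only [n2, Nat.add_eq, Nat.mul_eq, Nat.cast_add, Nat.cast_mul, HdG1_ax, HdG1_ay,
    abs_mul_abs_self]

theorem n2_pos : 0 < u.n2 ↔ u.val ≠ 0 := by
  rw [← Nat.cast_pos (α := ℝ), n2_eq, sq_pos_iff, norm_ne_zero_iff]

theorem nr_ge : ‖u.val‖ ≤ u.nr := by
  have h2 : ‖u.val‖ ^ 2 = (u.ax : ℝ) ^ 2 + (u.ay : ℝ) ^ 2 := by
    rw [← n2_eq]; simp only [n2, Nat.add_eq, Nat.mul_eq]; push_cast; ring
  change ‖u.val‖ ≤ ((u.ax + (u.ay - u.ax) + (5 * (u.ax - (u.ax - u.ay)) / 12 + 1) : ℕ) : ℝ)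
  generalize u.ax = x at *
  generalize u.ay = y at *
  have key : ∀ M m : ℕ, m ≤ M → ‖u.val‖ ^ 2 = (M : ℝ) ^ 2 + (m : ℝ) ^ 2 →
      ‖u.val‖ ≤ ((M + (5 * m / 12 + 1) : ℕ) : ℝ) := by
    intro M m hm h
    have hm' : (m : ℝ) ≤ M := by exact_mod_cast hm
    have h0 : (0 : ℝ) ≤ m := Nat.cast_nonneg m
    have hd := (HdG1_div (5 * m) 12 (by norm_num)).2
    push_cast at hd ⊢
    have h3 : ‖u.val‖ ≤ (M : ℝ) + 5 * m / 12 := by
      refine (sq_le_sq₀ (norm_nonneg _) (by linarith)).1 ?_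
      rw [h]; nlinarith
    linarith
  rcases le_total x y with h | h
  · have e1 : x + (y - x) = y := by omega
    have e2 : x - (x - y) = x := by omega
    rw [e1, e2]
    exact key y x h (by rw [h2]; ring)
  · have e1 : x + (y - x) = x := by omega
    have e2 : x - (x - y) = y := by omega
    rw [e1, e2]
    exact key x y h h2

theorem dv_err {n : ℕ} (hn : 0 < n) : ‖(u.dv n).val - u.val / n‖ ≤ 2 := by
  refine (Complex.norm_le_abs_re_add_abs_im _).trans ?_
  have h1 := HdG1_dv u.a u.b n hn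
  have h2 := HdG1_dv u.c u.d n hn
  have e1 : ((u.dv n).val - u.val / n).re =
      (((u.a - u.b) / n : ℕ) : ℝ) - (((u.b - u.a) / n : ℕ) : ℝ) - ((u.a : ℝ) - u.b) / n := by
    rw [Complex.sub_re, Complex.div_natCast_re, HdG1_re, HdG1_re]; rfl
  have e2 : ((u.dv n).val - u.val / n).im =
      (((u.c - u.d) / n : ℕ) : ℝ) - (((u.d - u.c) / n : ℕ) : ℝ) - ((u.c : ℝ) - u.d) / n := by
    rw [Complex.sub_im, Complex.div_natCast_im, HdG1_im, HdG1_im]; rfl
  rw [e1, e2]; linarith

theorem qt_err (k : ℕ) (hv : 0 < v.n2) : ‖(qt k u v).val - 2 ^ k * u.val / v.val‖ ≤ 2 := by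
  have h := dv_err (sm (Nat.pow 2 k) (mul u v.cj)) hv
  have hv0 : v.val ≠ 0 := (n2_pos v).1 hv
  have e : (sm (Nat.pow 2 k) (mul u v.cj)).val / (v.n2 : ℂ) = 2 ^ k * u.val / v.val := by
    have e2 : (v.n2 : ℂ) = v.val * conj v.val := by
      rw [Complex.mul_conj, Complex.normSq_eq_norm_sq, ← n2_eq]; simp
    have hc : conj v.val ≠ 0 := by simpa using hv0
    rw [val_sm, val_mul, val_cj, e2, Nat.pow_eq]
    push_cast
    field_simp
  rw [e] at h
  exact h

end G4

end Pool.Agent.MP_92463a_gt
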