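import Pool.Agent.MP_92463a_gt.Hd2
import Pool.Agent.MP_92463a_gt.HdT0
import Pool.Agent.MP_92463a_gt.HdG1

open Set Complex Filter Metric
open scoped Topology ComplexConjugate ContDiff Manifold

noncomputable section

namespace Pool.Agent.MP_92463a_gt

/-- `2 ^ 60 exp (i π / 128)`, rounded -/
def HdT1w : G4 := ⟨1152574266204915290, 0, 28294110113536504, 0⟩

theorem HdT1_lip (a b : ℝ) : ‖exp (a * I) - exp (b * I)‖ ≤ |a - b| := by
  have h : exp (a * I) - exp (b * I) = exp (b * I) * (exp (I * (a - b : ℝ)) - 1) := by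
    rw [mul_sub, ← Complex.exp_add, mul_one]
    congr 2
    push_cast
    ring
  rw [h, norm_mul, Complex.norm_exp_ofReal_mul_I, one_mul]
  exact Real.norm_exp_I_mul_ofReal_sub_one_le

theorem HdT1_taylor (t : ℝ) (h0 : 0 ≤ t) (h1 : t ≤ 1) :
    ‖exp (t * I) - (((1 - t ^ 2 / 2 + t ^ 4 / 24 - t ^ 6 / 720 : ℝ) : ℂ) +
      ((t - t ^ 3 / 6 + t ^ 5 / 120 - t ^ 7 / 5040 : ℝ) : ℂ) * I)‖ ≤ t ^ 8 / 35840 := by
  have hn : ‖(t : ℂ) * I‖ = t := by simp [abs_of_nonneg h0]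
  have h := Complex.exp_bound (x := t * I) (by rw [hn]; exact h1) (n := 8) (by norm_num)
  rw [hn] at h
  have e : ∑ m ∈ Finset.range 8, ((t : ℂ) * I) ^ m / (m.factorial : ℂ) =
      ((1 - t ^ 2 / 2 + t ^ 4 / 24 - t ^ 6 / 720 : ℝ) : ℂ) +
      ((t - t ^ 3 / 6 + t ^ 5 / 120 - t ^ 7 / 5040 : ℝ) : ℂ) * I := by
    simp only [Finset.sum_range_succ, Finset.range_zero, Finset.sum_empty, Nat.factorial]
    push_cast
    linear_combination ((t : ℂ) ^ 2 / 2 + t ^ 3 * I / 6 + t ^ 4 * (I ^ 2 - 1) / 24 +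
      t ^ 5 * I * (I ^ 2 - 1) / 120 + t ^ 6 * (I ^ 4 - I ^ 2 + 1) / 720 +
      t ^ 7 * I * (I ^ 4 - I ^ 2 + 1) / 5040) * Complex.I_sq
  rw [e] at h
  refine h.trans (le_of_eq ?_)
  norm_num [Nat.factorial]
  ring

theorem HdT1_w : ‖HdT1w.val / 2 ^ 60 - exp ((Real.pi / 128 : ℝ) * I)‖ ≤ 1 / 2 ^ 56 := by
  have h1 := HdT1_lip (3.14159265358979323846 / 128) (Real.pi / 128)
  have h2 := HdT1_taylor (3.14159265358979323846 / 128) (by norm_num) (by norm_num)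
  have h3 : |(3.14159265358979323846 / 128 : ℝ) - Real.pi / 128| ≤ 1 / 2 ^ 60 := by
    have := Real.pi_gt_d20
    have := Real.pi_lt_d20
    rw [abs_le]
    constructor <;> linarith
  generalize ht : (3.14159265358979323846 / 128 : ℝ) = t at h1 h2 h3
  have h4 : t ^ 8 / 35840 ≤ 1 / 2 ^ 57 := by
    rw [← ht]
    norm_num
  have h5 : ‖HdT1w.val / 2 ^ 60 - (((1 - t ^ 2 / 2 + t ^ 4 / 24 - t ^ 6 / 720 : ℝ) : ℂ) +
      ((t - t ^ 3 / 6 + t ^ 5 / 120 - t ^ 7 / 5040 : ℝ) : ℂ) * I)‖ ≤ 2 / 2 ^ 60 := by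
    have e : HdT1w.val / 2 ^ 60 - (((1 - t ^ 2 / 2 + t ^ 4 / 24 - t ^ 6 / 720 : ℝ) : ℂ) +
        ((t - t ^ 3 / 6 + t ^ 5 / 120 - t ^ 7 / 5040 : ℝ) : ℂ) * I) =
        ((1152574266204915290 / 2 ^ 60 - (1 - t ^ 2 / 2 + t ^ 4 / 24 - t ^ 6 / 720) : ℝ) : ℂ) +
        ((28294110113536504 / 2 ^ 60 - (t - t ^ 3 / 6 + t ^ 5 / 120 - t ^ 7 / 5040) : ℝ) : ℂ) * I := by
      simp only [HdT1w, G4.val]
      push_cast
      ring
    rw [e]
    refine (norm_add_le _ _).trans ?_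
    rw [norm_mul, Complex.norm_I, mul_one, Complex.norm_real, Complex.norm_real, Real.norm_eq_abs,
      Real.norm_eq_abs, ← ht]
    have a1 : ∀ x y : ℝ, |x| ≤ 1 / 2 ^ 60 → |y| ≤ 1 / 2 ^ 60 → |x| + |y| ≤ 2 / 2 ^ 60 := by
      intro x y hx hy
      linarith
    refine a1 _ _ ?_ ?_ <;> rw [abs_le] <;> constructor <;> norm_num
  have h6 := norm_sub_le_norm_sub_add_norm_sub (HdT1w.val / 2 ^ 60) (exp (t * I))
    (exp ((Real.pi / 128 : ℝ) * I))
  have h7 := norm_sub_le_norm_sub_add_norm_sub (HdT1w.val / 2 ^ 60)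
    (((1 - t ^ 2 / 2 + t ^ 4 / 24 - t ^ 6 / 720 : ℝ) : ℂ) +
      ((t - t ^ 3 / 6 + t ^ 5 / 120 - t ^ 7 / 5040 : ℝ) : ℂ) * I) (exp (t * I))
  rw [norm_sub_rev] at h2
  linarith

theorem HdT1_pow {w z : ℂ} (hz : ‖z‖ = 1) (h : ‖w - z‖ ≤ 1 / 2 ^ 56) (j : ℕ) (hj : j ≤ 128) :
    ‖w ^ j - z ^ j‖ ≤ 2 * j / 2 ^ 56 := by
  induction j with
  | zero => simp
  | succ j ih =>
    have h1 := ih (by omega)
    have hw : ‖w‖ ≤ 1 + 1 / 2 ^ 56 := by
      have := norm_add_le (w - z) z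
      rw [sub_add_cancel] at this
      linarith
    have e : w ^ (j + 1) - z ^ (j + 1) = (w ^ j - z ^ j) * w + z ^ j * (w - z) := by ring
    have hj' : (j : ℝ) ≤ 128 := by exact_mod_cast (by omega : j ≤ 128)
    have h2 : ‖(w ^ j - z ^ j) * w‖ ≤ 2 * j / 2 ^ 56 * (1 + 1 / 2 ^ 56) := by
      rw [norm_mul]
      exact mul_le_mul h1 hw (norm_nonneg _) (by positivity)
    have h3 : ‖z ^ j * (w - z)‖ ≤ 1 / 2 ^ 56 := by
      rw [norm_mul, norm_pow, hz, one_pow, one_mul]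
      exact h
    rw [e]
    refine (norm_add_le _ _).trans ?_
    push_cast
    linarith

/-- walk along the table -/
def HdT1chk (s : G4) (S : ℕ) : List G4 → G4 → ℕ → Bool
  | [], _, _ => true
  | t :: l, p, P => Nat.ble ((G4.sm P t).sub (G4.sm (Nat.pow 2 40) p)).n2 (Nat.mul P P) &&
      HdT1chk s S l (p.mul s) (Nat.mul P S)

theorem HdT1_chk (s : G4) (S : ℕ) (hS : 0 < S) : ∀ (l : List G4) (p : G4) (P : ℕ), 0 < P →
    HdT1chk s S l p P = true → ∀ (k : ℕ) (hk : k < l.length),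
      ‖l[k].val / 2 ^ 40 - p.val / P * (s.val / S) ^ k‖ ≤ 1 / 2 ^ 40
  | [], _, _, _, _, k, hk => absurd hk (Nat.not_lt_zero k)
  | t :: l, p, P, hP, h, k, hk => by
    rw [HdT1chk, Bool.and_eq_true] at h
    have hP' : (0 : ℝ) < P := by exact_mod_cast hP
    have hPc : (P : ℂ) ≠ 0 := by exact_mod_cast hP.ne'
    have hSc : (S : ℂ) ≠ 0 := by exact_mod_cast hS.ne'
    rcases k with _ | k
    · have h1 : ((((G4.sm P t).sub (G4.sm (Nat.pow 2 40) p)).n2 : ℕ) : ℝ) ≤ (P * P : ℕ) := by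
        exact_mod_cast Nat.le_of_ble_eq_true h.1
      rw [G4.n2_eq, G4.val_sub, G4.val_sm, G4.val_sm, Nat.cast_mul, ← sq] at h1
      have h2 := (pow_le_pow_iff_left₀ (norm_nonneg _) hP'.le two_ne_zero).1 h1
      have e : t.val / 2 ^ 40 - p.val / P * (s.val / S) ^ 0 =
          (P * t.val - (Nat.pow 2 40 : ℕ) * p.val) / (P * 2 ^ 40) := by
        rw [Nat.pow_eq]
        push_cast
        field_simp
        ring
      rw [List.getElem_cons_zero, e, norm_div, norm_mul, Complex.norm_natCast, norm_pow,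
        Complex.norm_ofNat, div_le_div_iff₀ (by positivity) (by positivity)]
      nlinarith
    · have h1 := HdT1_chk s S hS l (p.mul s) (Nat.mul P S) (Nat.mul_pos hP hS) h.2 k
        (by simpa using hk)
      rw [List.getElem_cons_succ]
      convert h1 using 3
      rw [G4.val_mul, Nat.mul_eq, pow_succ', ← mul_assoc]
      congr 1
      push_cast
      field_simp

theorem HdT1_fin {u : ℂ} (j : ℕ) (hj : j ≤ 128) (h : ‖u - (HdT1w.val / 2 ^ 60) ^ j‖ ≤ 1 / 2 ^ 40) :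
    ‖u - exp (j * ((Real.pi / 128 : ℝ) * I))‖ ≤ 1 / 2 ^ 38 := by
  have h1 := HdT1_pow (Complex.norm_exp_ofReal_mul_I _) HdT1_w j hj
  rw [Complex.exp_nat_mul]
  have h2 := norm_sub_le_norm_sub_add_norm_sub u ((HdT1w.val / 2 ^ 60) ^ j)
    (exp ((Real.pi / 128 : ℝ) * I) ^ j)
  have hj' : (j : ℝ) ≤ 128 := by exact_mod_cast hj
  linarith

theorem tb64_ok : TabOk tb64 := by
  have hl : tb64.length = 64 := rfl
  refine ⟨by rw [hl]; norm_num, fun k hk => ?_⟩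
  have h := HdT1_chk (HdT1w.pw 2) (2 ^ 120) (by norm_num) tb64 HdT1w (2 ^ 60) (by norm_num)
    (by decide +kernel) k hk
  have h2 := HdT1_fin (u := tb64[k].val / 2 ^ 40) (2 * k + 1) (by omega) (by
    convert h using 3
    rw [G4.val_pw, pow_succ', pow_mul, div_pow, ← pow_mul]
    norm_num)
  convert h2 using 4
  rw [hl]
  push_cast
  ring

theorem tb32_ok : TabOk tb32 := by
  have hl : tb32.length = 32 := rfl
  refine ⟨by rw [hl]; norm_num, fun k hk => ?_⟩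
  have h := HdT1_chk (HdT1w.pw 4) (2 ^ 240) (by norm_num) tb32 (HdT1w.pw 2) (2 ^ 120) (by norm_num)
    (by decide +kernel) k hk
  have h2 := HdT1_fin (u := tb32[k].val / 2 ^ 40) (4 * k + 2) (by omega) (by
    convert h using 3
    rw [G4.val_pw, G4.val_pw, pow_add, mul_comm, pow_mul, div_pow, div_pow, ← pow_mul, ← pow_mul]
    norm_num)
  convert h2 using 4
  rw [hl]
  push_cast
  ring

end Pool.Agent.MP_92463a_gt
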