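import Pool.Agent.MP_92463a_gt.HdEa1
import Pool.Agent.MP_92463a_gt.HdEa2
import Pool.Agent.MP_92463a_gt.HdEa3
import Pool.Agent.MP_92463a_gt.HdEa4
import Pool.Agent.MP_92463a_gt.HdEa5
import Pool.Agent.MP_92463a_gt.HdEa6
import Pool.Agent.MP_92463a_gt.HdEa7
import Pool.Agent.MP_92463a_gt.HdEaK
import Pool.Agent.MP_92463a_gt.HdEb1
import Pool.Agent.MP_92463a_gt.HdEb2
import Pool.Agent.MP_92463a_gt.HdEb3
import Pool.Agent.MP_92463a_gt.HdEb4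
import Pool.Agent.MP_92463a_gt.HdEb5
import Pool.Agent.MP_92463a_gt.HdEb6
import Pool.Agent.MP_92463a_gt.HdEbK
import Pool.Agent.MP_92463a_gt.HdEe1
import Pool.Agent.MP_92463a_gt.HdEe2
import Pool.Agent.MP_92463a_gt.HdEe3
import Pool.Agent.MP_92463a_gt.HdEeK
import Pool.Agent.MP_92463a_gt.HdT1

namespace Pool.Agent.MP_92463a_gt

theorem okF2 : blkF2.Ok := by
  refine ⟨chkF2, tb64, tb64_ok, fun i hi => ?_⟩
  have hi' : i < 6 := hi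
  interval_cases i
  exacts [
    lkF2_0, lkF2_1, lkF2_2, lkF2_3, lkF2_4, lkF2_5]

theorem okF3 : blkF3.Ok := by
  refine ⟨chkF3, tb64, tb64_ok, fun i hi => ?_⟩
  have hi' : i < 8 := hi
  interval_cases i
  exacts [
    lkF3_0, lkF3_1, lkF3_2, lkF3_3, lkF3_4, lkF3_5, lkF3_6, lkF3_7]

theorem okF4 : blkF4.Ok := by
  refine ⟨chkF4, tb32, tb32_ok, fun i hi => ?_⟩
  have hi' : i < 10 := hi
  interval_cases i
  exacts [
    lkF4_0, lkF4_1, lkF4_2, lkF4_3, lkF4_4, lkF4_5, lkF4_6, lkF4_7, lkF4_8, lkF4_9]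

theorem okF5 : blkF5.Ok := by
  refine ⟨chkF5, tb64, tb64_ok, fun i hi => ?_⟩
  have hi' : i < 12 := hi
  interval_cases i
  exacts [
    lkF5_0, lkF5_1, lkF5_2, lkF5_3, lkF5_4, lkF5_5, lkF5_6, lkF5_7, lkF5_8, lkF5_9, lkF5_10,
    lkF5_11]

theorem okF6 : blkF6.Ok := by
  refine ⟨chkF6, tb32, tb32_ok, fun i hi => ?_⟩
  have hi' : i < 14 := hi
  interval_cases i
  exacts [
    lkF6_0, lkF6_1, lkF6_2, lkF6_3, lkF6_4, lkF6_5, lkF6_6, lkF6_7, lkF6_8, lkF6_9, lkF6_10,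
    lkF6_11, lkF6_12, lkF6_13]

theorem okF7 : blkF7.Ok := by
  refine ⟨chkF7, tb32, tb32_ok, fun i hi => ?_⟩
  have hi' : i < 16 := hi
  interval_cases i
  exacts [
    lkF7_0, lkF7_1, lkF7_2, lkF7_3, lkF7_4, lkF7_5, lkF7_6, lkF7_7, lkF7_8, lkF7_9, lkF7_10,
    lkF7_11, lkF7_12, lkF7_13, lkF7_14, lkF7_15]

theorem okF8 : blkF8.Ok := by
  refine ⟨chkF8, tb32, tb32_ok, fun i hi => ?_⟩
  have hi' : i < 18 := hi
  interval_cases i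
  exacts [
    lkF8_0, lkF8_1, lkF8_2, lkF8_3, lkF8_4, lkF8_5, lkF8_6, lkF8_7, lkF8_8, lkF8_9, lkF8_10,
    lkF8_11, lkF8_12, lkF8_13, lkF8_14, lkF8_15, lkF8_16, lkF8_17]

theorem okF9 : blkF9.Ok := by
  refine ⟨chkF9, tb32, tb32_ok, fun i hi => ?_⟩
  have hi' : i < 20 := hi
  interval_cases i
  exacts [
    lkF9_0, lkF9_1, lkF9_2, lkF9_3, lkF9_4, lkF9_5, lkF9_6, lkF9_7, lkF9_8, lkF9_9, lkF9_10,
    lkF9_11, lkF9_12, lkF9_13, lkF9_14, lkF9_15, lkF9_16, lkF9_17, lkF9_18, lkF9_19]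

theorem okF10 : blkF10.Ok := by
  refine ⟨chkF10, tb32, tb32_ok, fun i hi => ?_⟩
  have hi' : i < 22 := hi
  interval_cases i
  exacts [
    lkF10_0, lkF10_1, lkF10_2, lkF10_3, lkF10_4, lkF10_5, lkF10_6, lkF10_7, lkF10_8, lkF10_9,
    lkF10_10, lkF10_11, lkF10_12, lkF10_13, lkF10_14, lkF10_15, lkF10_16, lkF10_17, lkF10_18,
    lkF10_19, lkF10_20, lkF10_21]

theorem okW : blkW.Ok := by
  refine ⟨chkW, tb32, tb32_ok, fun i hi => ?_⟩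
  have hi' : i < 16 := hi
  interval_cases i
  exacts [
    lkW_0, lkW_1, lkW_2, lkW_3, lkW_4, lkW_5, lkW_6, lkW_7, lkW_8, lkW_9, lkW_10, lkW_11, lkW_12,
    lkW_13, lkW_14, lkW_15]

theorem okB : blkB.Ok := by
  refine ⟨chkB, tb32, tb32_ok, fun i hi => ?_⟩
  have hi' : i < 2 := hi
  interval_cases i
  exacts [
    lkB_0, lkB_1]

theorem okT : blkT.Ok := by
  refine ⟨chkT, tb32, tb32_ok, fun i hi => ?_⟩
  have hi' : i < 8 := hi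
  interval_cases i
  exacts [
    lkT_0, lkT_1, lkT_2, lkT_3, lkT_4, lkT_5, lkT_6, lkT_7]

end Pool.Agent.MP_92463a_gt
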