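import Pool.Agent.MP_92463a_gt.HdEa0

namespace Pool.Agent.MP_92463a_gt

theorem lkF2_0 : blkF2.lk tb64 0 = true := by decide +kernel

theorem lkF2_1 : blkF2.lk tb64 1 = true := by decide +kernel

theorem lkF2_2 : blkF2.lk tb64 2 = true := by decide +kernel

theorem lkF2_3 : blkF2.lk tb64 3 = true := by decide +kernel

theorem lkF2_4 : blkF2.lk tb64 4 = true := by decide +kernel

theorem lkF2_5 : blkF2.lk tb64 5 = true := by decide +kernel

theorem lkF3_0 : blkF3.lk tb64 0 = true := by decide +kernel

theorem lkF3_1 : blkF3.lk tb64 1 = true := by decide +kernel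

theorem lkF3_2 : blkF3.lk tb64 2 = true := by decide +kernel

end Pool.Agent.MP_92463a_gt
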