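import Pool.Agent.MP_92463a_gt.HdEb0

namespace Pool.Agent.MP_92463a_gt

theorem lkF9_14 : blkF9.lk tb32 14 = true := by decide +kernel

theorem lkF9_15 : blkF9.lk tb32 15 = true := by decide +kernel

theorem lkF9_16 : blkF9.lk tb32 16 = true := by decide +kernel

theorem lkF9_17 : blkF9.lk tb32 17 = true := by decide +kernel

theorem lkF9_18 : blkF9.lk tb32 18 = true := by decide +kernel

theorem lkF9_19 : blkF9.lk tb32 19 = true := by decide +kernel

theorem lkF10_0 : blkF10.lk tb32 0 = true := by decide +kernel

theorem lkF10_1 : blkF10.lk tb32 1 = true := by decide +kernel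

theorem lkF10_2 : blkF10.lk tb32 2 = true := by decide +kernel

theorem lkF10_3 : blkF10.lk tb32 3 = true := by decide +kernel

end Pool.Agent.MP_92463a_gt
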