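import Pool.Agent.MP_92463a_gt.Hd2

open Set Complex Filter Metric
open scoped Topology ComplexConjugate ContDiff Manifold

noncomputable section

namespace Pool.Agent.MP_92463a_gt

theorem HdTl2_han {c : RC} (h : c.Far) (hH : c.H = true) :
    0 < c.a1 ∧ c.a1 < 3 ∧ 0 < c.a2 ∧ c.a2 < 3 ∧ 0 < c.lam ∧ c.lam ≤ 8 := by
  simp only [RC.Far, RC.a1, RC.a2, RC.lam, hH, if_true] at h ⊢
  obtain ⟨hx, hy⟩ := h
  have hx0 : 0 < c.x := by linarith
  have hy0 : 0 < c.y := by linarith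
  refine ⟨by positivity, ?_, by positivity, ?_, by positivity, ?_⟩
  · rw [inv_lt_comm₀ hy0 (by norm_num)]
    linarith
  · rw [inv_lt_comm₀ (by positivity) (by norm_num)]
    nlinarith
  · rw [inv_le_comm₀ hx0 (by norm_num)]
    linarith

theorem HdTl2_lev {c : RC} (h : c.Far) (hH : c.H = false) :
    c.a1 < 0 ∧ -1 < c.a1 ∧ 0 < c.a2 ∧ c.a2 < 1 ∧ 0 < c.lam ∧ c.lam ≤ 1 / 8 := by
  simp only [RC.Far, RC.a1, RC.a2, RC.lam, hH, Bool.false_eq_true, if_false] at h ⊢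
  obtain ⟨hx, hy, h1, h2, h3⟩ := h
  refine ⟨by linarith, by linarith, by positivity, ?_, by positivity, by linarith⟩
  rw [div_lt_one hx]
  linarith

theorem HdTl2_sm {l : List RC} (h : Good l) {Λ r : ℝ} (h0 : 0 < Λ)
    (hr : 16 * Λ ≤ r ∨ (2 * Λ ≤ r ∧ ∀ d ∈ l.head?, d.H = false)) : Sm l Λ r := by
  induction l generalizing Λ with
  | nil => trivial
  | cons c l ih =>
    obtain ⟨hc, hn, hl⟩ := h
    cases hH : c.H
    · obtain ⟨h1, h2, h3, h4, h5, h6⟩ := HdTl2_lev hc hH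
      have h7 : 2 * Λ ≤ r := by
        rcases hr with hr | hr
        · linarith
        · exact hr.1
      refine ⟨abs_lt.2 ⟨by nlinarith, by nlinarith⟩, abs_lt.2 ⟨by nlinarith, by nlinarith⟩,
        ih hl (mul_pos h0 h5) (Or.inl (by nlinarith))⟩
    · obtain ⟨h1, h2, h3, h4, h5, h6⟩ := HdTl2_han hc hH
      have h7 : 16 * Λ ≤ r := hr.resolve_right fun hr => by simpa [hH] using hr.2 c rfl
      refine ⟨abs_lt.2 ⟨by nlinarith, by nlinarith⟩, abs_lt.2 ⟨by nlinarith, by nlinarith⟩,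
        ih hl (mul_pos h0 h5) (Or.inr ⟨by nlinarith, hn hH⟩)⟩

theorem HdTl2_lt {x r u : ℝ} (h0 : 0 < x) (h1 : |x| < r) (hu : r * |u| ≤ 1) : u < x⁻¹ := by
  rw [abs_of_pos h0] at h1
  by_contra hc
  have h2 : x⁻¹ ≤ |u| := (not_lt.1 hc).trans (le_abs_self u)
  have h3 : 0 < x⁻¹ := inv_pos.2 h0
  have h4 : x * x⁻¹ = 1 := mul_inv_cancel₀ h0.ne'
  nlinarith

theorem HdTl2_gt {x r v : ℝ} (h0 : x < 0) (h1 : |x| < r) (hv : r * |v| ≤ 1) : x⁻¹ < v := by
  have h := HdTl2_lt (u := -v) (neg_pos.2 h0) (by rwa [abs_neg]) (by rwa [abs_neg])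
  rwa [inv_neg, neg_lt_neg_iff] at h

theorem HdTl2_pos {l : List RC} (h : Good l) (zin kd : Bool) {Λ r u v : ℝ} (h0 : 0 < Λ)
    (hs : Sm l Λ r) (hu : r * |u| ≤ 1) (hv : r * |v| ≤ 1) : PosU zin kd u v 0 l Λ := by
  induction l generalizing Λ with
  | nil => trivial
  | cons c l ih =>
    obtain ⟨hc, -, hl⟩ := h
    obtain ⟨s1, s2, s3⟩ := hs
    cases hH : c.H
    · obtain ⟨h1, -, h3, -, h5, -⟩ := HdTl2_lev hc hH
      refine ⟨?_, ?_, ih hl (mul_pos h0 h5) s3⟩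
      · rw [hH]
        exact HdTl2_gt (mul_neg_of_pos_of_neg h0 h1) s1 hv
      · rw [hH]
        exact HdTl2_lt (mul_pos h0 h3) s2 hu
    · obtain ⟨h1, -, h3, -, h5, -⟩ := HdTl2_han hc hH
      refine ⟨?_, ?_, ih hl (mul_pos h0 h5) s3⟩
      · rw [hH]
        exact HdTl2_lt (mul_pos h0 h1) s1 hu
      · rw [hH]
        exact HdTl2_lt (mul_pos h0 h3) s2 hu

theorem HdTl2_exp {t : ℝ} {n : ℕ} (h : |t| ≤ n / 2 ^ 40) (hn : n ≤ 2 ^ 33) :
    0.992 ≤ Real.exp t ∧ Real.exp t ≤ 1.008 := by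
  have h1 : (n : ℝ) ≤ 2 ^ 33 := by exact_mod_cast hn
  have h2 : |t| ≤ 1 / 128 := h.trans (by rw [div_le_iff₀ (by positivity)]; linarith)
  obtain ⟨h3, h4⟩ := abs_le.1 h2
  have h5 := Real.add_one_le_exp t
  have h6 := Real.add_one_le_exp (-t)
  have h7 : Real.exp t * Real.exp (-t) = 1 := by rw [← Real.exp_add, add_neg_cancel, Real.exp_zero]
  have h8 := Real.exp_pos t
  exact ⟨by linarith, by nlinarith⟩

theorem Good.sm {l : List RC} (h : Good l) {Λ r : ℝ} (h0 : 0 < Λ) (hr : 16 * Λ ≤ r) :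
    Sm l Λ r := HdTl2_sm h h0 (Or.inl hr)

theorem Good.posU {l : List RC} (h : Good l) (zin kd : Bool) {Λ u v : ℝ} (h0 : 0 < Λ)
    (hu : 16 * Λ * |u| ≤ 1) (hv : 16 * Λ * |v| ≤ 1) : PosU zin kd u v 0 l Λ :=
  HdTl2_pos h zin kd h0 (h.sm h0 le_rfl) hu hv

theorem Sm.append {l t : List RC} {Λ r : ℝ} (h : Sm l Λ r) (ht : Sm t (Λ * lamP l) r) :
    Sm (l ++ t) Λ r := by
  induction l generalizing Λ with
  | nil => simpa [lamP] using ht
  | cons c l ih => exact ⟨h.1, h.2.1, ih h.2.2 (by simpa [lamP, mul_assoc] using ht)⟩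

theorem PosU.append {zin kd : Bool} {u v : ℝ} {j : ℕ} {l t : List RC} {Λ : ℝ}
    (h : PosU zin kd u v j l Λ) (hj : j ≤ l.length) (ht : PosU zin kd u v 0 t (Λ * lamP l)) :
    PosU zin kd u v j (l ++ t) Λ := by
  induction l generalizing j Λ with
  | nil =>
    obtain rfl : j = 0 := by simpa using hj
    simpa [lamP] using ht
  | cons c l ih =>
    exact ⟨h.1, h.2.1, ih h.2.2 (by simp only [List.length_cons] at hj; omega)
      (by simpa [lamP, mul_assoc] using ht)⟩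

theorem DC.far {d : DC} (h : d.Ok) (hs : d.b.small = true) (hf : d.b.far = true) : d.cell.Far := by
  simp only [CB.small, decide_eq_true_eq] at hs
  obtain ⟨hx, hy, h1, h2⟩ := h
  obtain ⟨p1, p2⟩ := HdTl2_exp h1 hs.2.2.1
  obtain ⟨q1, q2⟩ := HdTl2_exp h2 hs.2.2.2
  have hx' : (0 : ℝ) < d.b.x := by exact_mod_cast hx
  have hy' : (0 : ℝ) < d.b.y := by exact_mod_cast hy
  unfold CB.far at hf
  unfold RC.Far DC.cell
  generalize Real.exp d.ξ = p at *
  generalize Real.exp d.ζ = q at *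
  cases hH : d.b.H
  · simp only [hH, Bool.false_eq_true, if_false, decide_eq_true_eq] at hf ⊢
    have f1 := (Rat.cast_le (K := ℝ)).2 hf.1
    have f2 := (Rat.cast_le (K := ℝ)).2 hf.2.1
    have f3 := (Rat.cast_le (K := ℝ)).2 hf.2.2
    push_cast at f1 f2 f3
    generalize (d.b.x : ℝ) = x at *
    generalize (d.b.y : ℝ) = y at *
    have hq : q ^ 2 ≤ 1.017 := by nlinarith
    have hpq : p * q ≤ 1.017 := by nlinarith
    have hxy : 0 < x * y := mul_pos hx' hy'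
    refine ⟨by nlinarith, by nlinarith, by nlinarith, ?_, ?_⟩
    · rw [mul_pow]
      nlinarith [mul_le_mul f2 hq (by positivity) (by positivity)]
    · nlinarith [mul_le_mul f3 hpq (by nlinarith) (by positivity)]
  · simp only [hH, if_true, decide_eq_true_eq] at hf ⊢
    have f1 := (Rat.cast_le (K := ℝ)).2 hf.1
    have f2 := (Rat.cast_le (K := ℝ)).2 hf.2
    push_cast at f1 f2
    exact ⟨by nlinarith, by nlinarith⟩

theorem good_of {l : List RC} (h : ∀ c ∈ l, c.Far)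
    (hH : ∀ (i : ℕ) (hi : i + 1 < l.length), ¬ (l[i].H = true ∧ l[i + 1].H = true)) : Good l := by
  induction l with
  | nil => trivial
  | cons c l ih =>
    refine ⟨h c List.mem_cons_self, fun hc d hd => ?_,
      ih (fun c hc => h c (List.mem_cons_of_mem _ hc)) fun i hi => ?_⟩
    · cases l with
      | nil => simp at hd
      | cons e l =>
        obtain rfl : e = d := by simpa using hd
        simpa [hc] using hH 0 (by simp)
    · exact hH (i + 1) (by simpa using hi)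

end Pool.Agent.MP_92463a_gt
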