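import Pool.Agent.MP_92463a_gt.HdP3
import Pool.Agent.MP_92463a_gt.HdTl2

open Set Complex Filter Metric
open scoped Topology ComplexConjugate ContDiff Manifold

noncomputable section

namespace Pool.Agent.MP_92463a_gt

theorem hdF0_log {x x' : ℚ} {a a' : ℕ} {ξ : ℝ} (h0 : 0 < x) (ha : a ≤ a')
    (h1 : x ≤ x' * (1 + ((a' - a : ℕ) : ℚ) / 2 ^ 40))
    (h2 : x' ≤ x * (1 + ((a' - a : ℕ) : ℚ) / 2 ^ 40)) (hξ : |ξ| ≤ a / 2 ^ 40) :
    0 < x' ∧ |ξ + Real.log (x / x')| ≤ a' / 2 ^ 40 ∧
      x' * Real.exp (ξ + Real.log (x / x')) = x * Real.exp ξ := by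
  have p : 0 < x' := (mul_pos_iff_of_pos_right (by positivity)).1 (h0.trans_le h1)
  have h0' : (0 : ℝ) < x := by exact_mod_cast h0
  have p' : (0 : ℝ) < x' := by exact_mod_cast p
  rw [Nat.cast_sub ha] at h1 h2
  have h1' := (Rat.cast_le (K := ℝ)).2 h1
  have h2' := (Rat.cast_le (K := ℝ)).2 h2
  push_cast at h1' h2'
  have l1 := Real.log_le_sub_one_of_pos (div_pos h0' p')
  have l2 := Real.log_le_sub_one_of_pos (div_pos p' h0')
  rw [← div_le_iff₀' p'] at h1'
  rw [← div_le_iff₀' h0'] at h2'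
  rw [← inv_div, Real.log_inv, inv_div] at l2
  refine ⟨p, ?_, ?_⟩
  · rw [abs_le] at hξ ⊢
    constructor <;> linarith [hξ.1, hξ.2]
  · rw [Real.exp_add, Real.exp_log (div_pos h0' p')]
    field_simp

theorem hdF0_exp {t : ℝ} {a : ℕ} (ht : |t| ≤ a / 2 ^ 40) (ha : a ≤ 2 ^ 33) :
    Real.exp t ≤ 1.008 := by
  have h1 : (a : ℝ) ≤ 2 ^ 33 := by exact_mod_cast ha
  have h2 : |t| ≤ 1 / 128 := by linarith
  have h3 := (abs_le.1 (Real.abs_exp_sub_one_sub_id_le (x := t) (by linarith))).2
  have h4 := pow_le_pow_left₀ (abs_nonneg t) h2 2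
  rw [sq_abs] at h4
  linarith [le_abs_self t]

theorem hdF0_bd {d : DC} (h : d.Ok) (hs : d.b.small = true) :
    (0 : ℝ) < d.b.x ∧ (0 : ℝ) < d.b.y ∧ d.cell.x ≤ d.b.x * 1.008 ∧ d.b.x ≤ d.cell.x * 1.008 ∧
      d.cell.y ≤ d.b.y * 1.008 := by
  obtain ⟨h1, h2, h3, h4⟩ := of_decide_eq_true hs
  have h1' : (0 : ℝ) < d.b.x := by exact_mod_cast h1
  have h2' : (0 : ℝ) < d.b.y := by exact_mod_cast h2
  refine ⟨h1', h2', mul_le_mul_of_nonneg_left (hdF0_exp h.2.2.1 h3) h1'.le, ?_,
    mul_le_mul_of_nonneg_left (hdF0_exp h.2.2.2 h4) h2'.le⟩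
  have h5 := mul_le_mul_of_nonneg_left (hdF0_exp (t := -d.ξ) (by rw [abs_neg]; exact h.2.2.1) h3)
    (mul_pos h1' (Real.exp_pos d.ξ)).le
  rwa [mul_assoc, ← Real.exp_add, add_neg_cancel, Real.exp_zero, mul_one] at h5

/-- the bound of the last end below -/
def hdF0_g (c : ℕ → RC) : ℕ → ℝ
  | 0 => 0
  | o + 1 => if (c o).H then hdF0_g c o / (c o).x else (c o).x

theorem hdF0_small {b : CB} (h : b.small = true) : b.flip.small = true := by
  obtain ⟨h1, h2, h3, h4⟩ := of_decide_eq_true h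
  unfold CB.flip
  split_ifs
  · exact decide_eq_true ⟨h1, inv_pos.2 h2, h3, h4⟩
  · exact decide_eq_true ⟨h2, h1, h4, h3⟩

theorem hdF0_flip (c : RC) : c.flip.H = c.H := by
  unfold RC.flip
  split_ifs with h
  · exact h.symm
  · exact (eq_false_of_ne_true h).symm

theorem hdF0_adj {a b : CB} (h : a.gap1 b = true) (ha : a.H = true) (hb : b.H = true) : False := by
  simp [CB.gap1, ha, hb] at h

theorem hdF0_dev {ds : List DC} {j : ℕ} {d : DC} (h : ds[j]? = some d) (b : Bool) :
    (devL ds).getD (2 * j + b.toNat) 0 = if b then d.ζ else d.ξ := by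
  induction ds generalizing j with
  | nil => simp at h
  | cons e l ih =>
    rcases j with _ | j
    · obtain rfl : e = d := by simpa using h
      cases b <;> rfl
    · rw [show 2 * (j + 1) + b.toNat = 2 * j + b.toNat + 1 + 1 by omega]
      exact ih (by simpa using h)

theorem hdF0_hLs {l : List CB} {j : ℕ} {c : CB} (h : l[j]? = some c) (b : Bool) :
    (hLs l).getD (2 * j + b.toNat) 0 = if b then c.hy else c.hx := by
  induction l generalizing j with
  | nil => simp at h
  | cons e l ih =>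
    rcases j with _ | j
    · obtain rfl : e = c := by simpa using h
      cases b <;> rfl
    · rw [show 2 * (j + 1) + b.toNat = 2 * j + b.toNat + 1 + 1 by omega]
      exact ih (by simpa using h)

theorem gL_H (n : ℕ) (Bx : ℕ → CB) (x : Fin n × Bool → ℝ) (m : ℕ) :
    (gL n Bx x m).map RC.H = gH Bx m := by
  rw [gL, gH, List.map_map]
  rfl

theorem devL_le {ds : List DC} (h : ∀ d ∈ ds, d.Ok) :
    List.Forall₂ (fun (v : ℝ) (a : ℕ) => |v| ≤ a / 2 ^ 40) (devL ds) (hLs (ds.map DC.b)) := by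
  induction ds with
  | nil => exact List.Forall₂.nil
  | cons d l ih =>
    have hd := h d List.mem_cons_self
    exact List.Forall₂.cons hd.2.2.1 (List.Forall₂.cons hd.2.2.2
      (ih fun e he => h e (List.mem_cons_of_mem _ he)))

/-- a cell in a box is a cell in every larger box -/
theorem DC.Ok.sub {d : DC} (h : d.Ok) {b : CB} (hb : d.b.sub b = true) :
    ∃ d' : DC, d'.b = b ∧ d'.Ok ∧ d'.cell = d.cell ∧ (b = d.b → d' = d) := by
  obtain ⟨hH, h1, h2, h3, h4, h5, h6⟩ := of_decide_eq_true hb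
  obtain ⟨p1, q1, r1⟩ := hdF0_log h.1 h1 h3 h4 h.2.2.1
  obtain ⟨p2, q2, r2⟩ := hdF0_log h.2.1 h2 h5 h6 h.2.2.2
  refine ⟨⟨b, d.ξ + Real.log (d.b.x / b.x), d.ζ + Real.log (d.b.y / b.y)⟩, rfl,
    ⟨p1, p2, q1, q2⟩, ?_, ?_⟩
  · simp only [DC.cell, r1, r2, hH]
  · rintro rfl
    have e1 : (d.b.x : ℝ) ≠ 0 := by exact_mod_cast p1.ne'
    have e2 : (d.b.y : ℝ) ≠ 0 := by exact_mod_cast p2.ne'
    rw [div_self e1, div_self e2, Real.log_one, add_zero, add_zero]

namespace Cert

variable {n : ℕ} {Bx : ℕ → CB} {blk : ℕ → Blk} {off : ℕ → ℕ} (h : Cert n Bx blk off)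
  {x : Fin n × Bool → ℝ} (hx : x ∈ cube (Fin n × Bool))
include h hx

theorem dc {m : ℕ} (hm : m < n) : DC.Ok
    ⟨Bx m, (Bx m).hx / 2 ^ 40 * gx n x m false, (Bx m).hy / 2 ^ 40 * gx n x m true⟩ := by
  obtain ⟨h1, h2, -, -⟩ := of_decide_eq_true (h.box m hm)
  have key : ∀ (a : ℕ) (b : Bool), |(a : ℝ) / 2 ^ 40 * gx n x m b| ≤ (a : ℝ) / 2 ^ 40 := by
    intro a b
    rw [abs_mul, abs_of_nonneg (by positivity : (0 : ℝ) ≤ (a : ℝ) / 2 ^ 40), gx, dif_pos hm]
    exact mul_le_of_le_one_right (by positivity) (hx _)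
  exact ⟨h1, h2, key _ _, key _ _⟩

theorem ps {m : ℕ} (hm : m < n) : (gC n Bx x m).Ps := (h.dc hx hm).ps

theorem gap : Gap 0 (gL n Bx x n) := by
  have hb : ∀ m < n, (0 : ℝ) < (Bx m).x ∧ (0 : ℝ) < (Bx m).y ∧
      (gC n Bx x m).x ≤ (Bx m).x * 1.008 ∧ (Bx m).x ≤ (gC n Bx x m).x * 1.008 ∧
      (gC n Bx x m).y ≤ (Bx m).y * 1.008 := fun m hm => hdF0_bd (h.dc hx hm) (h.box m hm)
  have hc : ∀ m, (gC n Bx x m).H = (Bx m).H := fun _ => rfl
  have h1 : ∀ o < n, (Bx o).H = false →
      5 * hdF0_g (gC n Bx x) o * (gC n Bx x o).y < 1 := by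
    intro o ho hH
    rcases o with _ | o
    · simp [hdF0_g]
    have g1 := h.gap1 o ho
    obtain ⟨-, y0, -, -, y1⟩ := hb _ ho
    have y2 := (h.ps hx ho).2
    cases hH1 : (Bx o).H
    · have g2 : (52 / 10 * (Bx o).x * (Bx (o + 1)).y : ℚ) < 1 := by
        simpa [CB.gap1, hH, hH1] using g1
      have g3 := (Rat.cast_lt (K := ℝ)).2 g2
      push_cast at g3
      obtain ⟨x0, -, x1, -, -⟩ := hb o (by omega)
      rw [hdF0_g, hc, if_neg (ne_true_of_eq_false hH1)]
      have := mul_le_mul x1 y1 y2.le (by positivity)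
      have := mul_pos x0 y0
      linarith
    · rw [hdF0_g, hc, if_pos hH1]
      rcases o with _ | o
      · simp [hdF0_g]
      have hH0 : (Bx o).H = false := by
        have := h.gap1 o (by omega)
        cases hH0 : (Bx o).H
        · rfl
        · simp [CB.gap1, hH0, hH1] at this
      have g2 : (52 / 10 * (Bx o).x * (Bx (o + 2)).y : ℚ) < (Bx (o + 1)).x := by
        simpa [CB.gap2, hH1] using h.gap2 o ho
      have g3 := (Rat.cast_lt (K := ℝ)).2 g2
      push_cast at g3
      obtain ⟨x0, -, x1, -, -⟩ := hb o (by omega)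
      obtain ⟨-, -, -, x2, -⟩ := hb (o + 1) (by omega)
      rw [hdF0_g, hc, if_neg (ne_true_of_eq_false hH0), ← mul_div_assoc, div_mul_eq_mul_div,
        div_lt_one (h.ps hx (by omega : o + 1 < n)).1]
      have := mul_le_mul x1 y1 y2.le (by positivity)
      have := mul_pos x0 y0
      linarith
  have h2 : ∀ len o, o + len = n →
      Gap (hdF0_g (gC n Bx x) o) ((List.range' o len).map (gC n Bx x)) := by
    intro len
    induction len with
    | zero => exact fun _ _ => trivial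
    | succ len ih =>
      intro o ho
      have h3 := ih (o + 1) (by omega)
      rw [List.range'_succ, List.map_cons, Gap]
      rw [hdF0_g] at h3
      split_ifs at h3 ⊢ with hH
      · exact h3
      · exact ⟨h1 o (by omega) (eq_false_of_ne_true hH), h3⟩
  have h4 := h2 n 0 (Nat.zero_add n)
  rwa [← List.range_eq_range'] at h4

theorem tail_low {m : ℕ} (hm : m < n) : Tail (blk m).tl (rf (gL n Bx x (off m))) := by
  have hf := h.fit m hm
  refine ⟨fun ht => by rw [(h.low m hm).1 ht]; rfl, good_of ?_ ?_⟩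
  · intro c hc
    simp only [rf, gL, List.mem_map, List.mem_reverse, List.mem_range] at hc
    obtain ⟨_, ⟨i, hi, rfl⟩, rfl⟩ := hc
    have hi' : i < n := by omega
    have h1 := DC.far (h.dc hx hi').flip (by rw [DC.flip_b]; exact hdF0_small (h.box i hi'))
      (by rw [DC.flip_b]; exact (h.low m hm).2 i hi)
    rwa [DC.flip_cell] at h1
  · intro i hi
    simp only [rf, gL, List.length_map, List.length_reverse, List.length_range] at hi
    simp only [rf, gL, List.getElem_map, List.getElem_reverse, List.getElem_range, List.length_map,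
      List.length_range, hdF0_flip]
    rintro ⟨a, b⟩
    have h1 := h.gap1 (off m - 1 - (i + 1)) (by omega)
    rw [show off m - 1 - (i + 1) + 1 = off m - 1 - i by omega] at h1
    exact hdF0_adj h1 b a

theorem tail_up {m : ℕ} (hm : m < n) : Tail (blk m).tu
    ((List.range' (off m + (blk m).cells.length) (n - (off m + (blk m).cells.length))).map
      (gC n Bx x)) := by
  refine ⟨fun ht => by rw [(h.upp m hm).1 ht, Nat.sub_self]; rfl, good_of ?_ ?_⟩
  · intro c hc
    simp only [List.mem_map, List.mem_range'_1] at hc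
    obtain ⟨i, hi, rfl⟩ := hc
    have hi' : i < n := by omega
    exact DC.far (h.dc hx hi') (h.box i hi') ((h.upp m hm).2 i hi.1 hi')
  · intro i hi
    simp only [List.length_map, List.length_range'] at hi
    simp only [List.getElem_map, List.getElem_range', one_mul]
    rintro ⟨a, b⟩
    exact hdF0_adj (h.gap1 (off m + (blk m).cells.length + i) (by omega)) a b

theorem loc {m : ℕ} (hm : m < n) : ∃ ds : List DC, ds.map DC.b = (blk m).cells ∧ (∀ d ∈ ds, d.Ok) ∧
    ds.map DC.cell = (List.range' (off m) (blk m).cells.length).map (gC n Bx x) ∧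
    ∀ b : Bool, (devL ds).getD (2 * (m - off m) + b.toNat) 0 =
      ((hLs (blk m).cells).getD (2 * (m - off m) + b.toNat) 0 : ℕ) / 2 ^ 40 * gx n x m b := by
  have hf := h.fit m hm
  have hk : (blk m).lo + (blk m).cnt ≤ (blk m).cells.length := by
    have := (h.ok m hm).1
    simp only [Blk.chk, Bool.and_eq_true, decide_eq_true_eq] at this
    exact this.1.1.1.1.1
  have h1 := fun (j : ℕ) (hj : j < (blk m).cells.length) =>
    (h.dc hx (m := off m + j) (by omega)).sub (h.sub m hm j hj)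
  have : Nonempty DC := ⟨⟨cb0, 0, 0⟩⟩
  choose! f f1 f2 f3 f4 using h1
  have hj : m - off m < (blk m).cells.length := by omega
  refine ⟨(List.range (blk m).cells.length).map f, ?_, ?_, ?_, fun b => ?_⟩
  · refine List.ext_getElem (by simp) fun j _ hj => ?_
    simp only [List.getElem_map, List.getElem_range, f1 j hj, List.getD_eq_getElem _ _ hj]
  · intro d hd
    obtain ⟨j, hj, rfl⟩ := List.mem_map.1 hd
    exact f2 j (List.mem_range.1 hj)
  · rw [List.range'_eq_map_range, List.map_map, List.map_map]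
    exact List.map_congr_left fun j hj => f3 j (List.mem_range.1 hj)
  · have e : off m + (m - off m) = m := by omega
    have h2 := f4 _ hj (by rw [e]; exact h.inn m hm)
    rw [e] at h2
    have h3 := h.inn m hm
    rw [List.getD_eq_getElem _ _ hj] at h3
    rw [hdF0_dev (d := f (m - off m)) (by simp [hj]),
      hdF0_hLs (c := Bx m) (by rw [List.getElem?_eq_getElem hj, h3]), h2]
    cases b <;> rfl

end Cert

end Pool.Agent.MP_92463a_gt
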