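import Pool.Agent.MP_92463a_gt.HdQ1
import Pool.Agent.MP_92463a_gt.HdG1

open Set Complex Filter Metric
open scoped Topology ComplexConjugate ContDiff Manifold

noncomputable section

namespace Pool.Agent.MP_92463a_gt

lemma HdN1_shift (n k : ℕ) : ((Nat.shiftLeft n k : ℕ) : ℂ) = n * 2 ^ k := by
  rw [Nat.shiftLeft_eq', Nat.shiftLeft_eq]
  push_cast
  rfl

lemma HdN1_abs (q : ℚ) : (q.num.natAbs : ℚ) = q.den * |q| := by
  rw [Nat.cast_natAbs, Int.cast_abs, ← Rat.mul_den_eq_num, abs_mul, Nat.abs_cast, mul_comm]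

lemma HdN1_sg (q : ℚ) : cond (decide (q < 0)) (q.num.natAbs : ℂ) (-q.num.natAbs) = -(q.den * q) := by
  have h := HdN1_abs q
  by_cases h0 : q < 0
  · rw [abs_of_neg h0, mul_neg] at h
    rw [decide_eq_true h0, cond_true]
    exact_mod_cast h
  · rw [abs_of_nonneg (not_lt.1 h0)] at h
    rw [decide_eq_false h0, cond_false, neg_inj]
    exact_mod_cast h

lemma HdN1_psi (A : AN) (S : G4) :
    (A.psi S).val = A.ed * S.val + cond A.ng (A.en : ℂ) (-A.en) * 2 ^ 52 := by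
  rw [AN.psi, G4.val_nz]
  cases A.ng
  · rw [cond_false, cond_false, G4.val_sub, G4.val_sm, G4.val_nat, HdN1_shift]
    ring
  · rw [cond_true, cond_true, G4.val_add, G4.val_sm, G4.val_nat, HdN1_shift]

lemma HdN1_u1 (A : AN) {p : G4} (hp : p.val ≠ 0) :
    ‖(A.u1 p).val - cond A.ng (A.en : ℂ) (-A.en) * 2 ^ 92 / p.val‖ ≤ 2 := by
  have h1 : (p.n2 : ℂ) = p.val * conj p.val := by
    rw [mul_conj, normSq_eq_norm_sq, ← G4.n2_eq, ofReal_natCast]
  have h2 : conj p.val ≠ 0 := (map_ne_zero _).2 hp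
  refine le_of_eq_of_le (congrArg (fun z => ‖(A.u1 p).val - z‖) ?_)
    (G4.dv_err (G4.sm (Nat.shiftLeft A.en 92) (cond A.ng p.cj p.cj.neg)) (p.n2_pos.2 hp))
  rw [h1, G4.val_sm, HdN1_shift]
  cases A.ng
  · rw [cond_false, cond_false, G4.val_neg, G4.val_cj]
    field_simp
  · rw [cond_true, cond_true, G4.val_cj]
    field_simp

lemma HdN1_ww (g : Ge) (a : AQ) (u : G4) : ((a.an g).ww u).val = a.sx * u.val ∧ |a.sx| ≤ 3 := by
  simp only [AN.ww, AQ.an, AQ.sx, AQ.ex]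
  cases a.up <;> cases a.cube <;> norm_num [G4.val_neg, G4.val_sm]

theorem AQ.ev_spec {g : Ge} {a : AQ} (h : g.Ok) (ha : a.ok g = true) {w : ℂ} (hw : g.Ann w)
    {S Om : G4} (hS : S.val = 2 ^ 52 * (g.c + w)) (hO : Om.val = 2 ^ 52 * w) {ns : ℕ}
    (hn : ‖S.val‖ ≤ ns) {η : ℝ} (hη : |η| ≤ a.h / 2 ^ 40) :
    (AN.ev S Om ns (a.an g)).Rep a (a.phi g w) ∧
      ‖(a.sx : ℂ) / 2 * a.lg η (g.c + w) - (AN.ev S Om ns (a.an g)).w.val * η / 2 ^ 41‖ ≤
        (AN.ev S Om ns (a.an g)).r / 2 ^ 60 := by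
  have he := AQ.e_ne h ha
  have hd := AQ.dist_le h ha hw
  have hse : (g.c : ℂ) + w - a.e ≠ 0 := norm_pos_iff.1 (hd.1.trans_le hd.2)
  have hs := h.s_ne hw
  have hw0 := h.w_ne hw
  have hed : (a.e.den : ℂ) ≠ 0 := Nat.cast_ne_zero.2 a.e.den_nz
  have hae : ((|a.e| : ℚ) : ℂ) ≠ 0 := Rat.cast_ne_zero.2 (abs_ne_zero.2 he)
  have hen : (a.e.num.natAbs : ℂ) = a.e.den * ((|a.e| : ℚ) : ℂ) := by exact_mod_cast HdN1_abs a.e
  have hsg : cond (a.an g).ng ((a.an g).en : ℂ) (-(a.an g).en) = -(a.e.den * a.e) := HdN1_sg a.e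
  set p := (a.an g).psi S with hpd
  have hp : p.val = a.e.den * 2 ^ 52 * (g.c + w - a.e) := by
    rw [hpd, HdN1_psi, hsg, hS]
    change (a.e.den : ℂ) * _ + _ = _
    ring
  have hp0 : p.val ≠ 0 := by rw [hp]; exact mul_ne_zero (mul_ne_zero hed (by norm_num)) hse
  refine ⟨⟨rfl, rfl, fun e => by simpa [e] using AQ.phi_re h ha hw, ?_, ?_⟩, ?_⟩
  · cases hdp : a.dp <;>
      simp only [AN.ev, AN.ev2, AQ.an, hdp, G4.val_sm, G4.val_nat, HdN1_shift, hS, hO, hen] <;>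
      simp [hed, he, hs, hw0]
  · change (match a.dp with
      | .rig => p.neg
      | _ => p).val = _
    cases hdp : a.dp <;>
      simp only [AN.ev, AN.ev2, AQ.an, AQ.phi, hdp, G4.val_sm, G4.val_nat, G4.val_neg, HdN1_shift,
        hS, hO, hen, hp] <;>
      field_simp
  have h1 := HdN1_u1 (a.an g) hp0
  rw [hsg, hp, show -((a.e.den : ℂ) * a.e) * 2 ^ 92 / (a.e.den * 2 ^ 52 * (g.c + w - a.e)) =
    2 ^ 40 * (-a.e / (g.c + w - a.e)) by field_simp] at h1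
  have h2 : ‖2 ^ 40 * a.uu (g.c + w) - ((a.an g).uu p).val‖ ≤ 2 := by
    change ‖_ - (match a.dp with
      | .low => (a.an g).u1 p
      | _ => (G4.nat (Nat.pow 2 40)).sub ((a.an g).u1 p)).val‖ ≤ 2
    have e : 2 ^ 40 * ((g.c + w) / (g.c + w - a.e)) -
        ((G4.nat (Nat.pow 2 40)).sub ((a.an g).u1 p)).val =
        ((a.an g).u1 p).val - 2 ^ 40 * (-a.e / (g.c + w - a.e)) := by
      rw [G4.val_sub, G4.val_nat, Nat.pow_eq]
      push_cast
      field_simp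
      ring
    cases hdp : a.dp <;> simp only [AQ.uu, hdp, reduceCtorEq, if_false, if_true]
    exacts [e ▸ h1, e ▸ h1, e ▸ h1, (norm_sub_rev _ _).trans_le h1]
  obtain ⟨h3, h4⟩ := HdN1_ww g a ((a.an g).uu p)
  have h5 : |η| ≤ 1 := hη.trans (by
    have : a.h ≤ 2 ^ 40 := (of_decide_eq_true ha).2.1
    rw [div_le_one (by positivity)]
    exact_mod_cast this)
  have h6 : ‖(a.sx : ℂ) / 2 * a.uu (g.c + w) * η - a.sx * ((a.an g).uu p).val * η / 2 ^ 41‖ ≤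
      3 * 1 * 2 / 2 ^ 41 := by
    rw [show (a.sx : ℂ) / 2 * a.uu (g.c + w) * η - a.sx * ((a.an g).uu p).val * η / 2 ^ 41 =
      a.sx * η * (2 ^ 40 * a.uu (g.c + w) - ((a.an g).uu p).val) / 2 ^ 41 by ring,
      norm_div, norm_mul, norm_mul, norm_real, norm_real, Real.norm_eq_abs, Real.norm_eq_abs,
      norm_pow, Complex.norm_two]
    gcongr
  have h7 := AQ.lg_lin h ha hη hw
  have h8 : (((a.an g).kk * ns : ℕ) : ℝ) / p.n2 < ((a.an g).kk * ns / p.n2 : ℕ) + 1 := by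
    rw [← Nat.floor_div_eq_div (K := ℝ)]
    exact Nat.lt_floor_add_one _
  have h9 : (a.kap g : ℝ) * 2 ^ 60 * (|(a.e : ℝ)| * ‖(g.c : ℂ) + w‖ / ‖(g.c : ℂ) + w - a.e‖ ^ 2) ≤
      (((a.an g).kk * ns : ℕ) : ℝ) / p.n2 := by
    have e1 : (a.kap g : ℝ) * 2 ^ 60 ≤ (⌈a.kap g * 2 ^ 60⌉₊ : ℕ) := by
      have := (Rat.cast_le (K := ℝ)).2 (Nat.le_ceil (a.kap g * 2 ^ 60))
      rwa [Rat.cast_mul, Rat.cast_pow, Rat.cast_ofNat, Rat.cast_natCast] at this
    have e2 : (a.e.num.natAbs : ℝ) = a.e.den * |(a.e : ℝ)| := by exact_mod_cast HdN1_abs a.e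
    have e3 : (0 : ℝ) < a.e.den := Nat.cast_pos.2 a.e.den_pos
    have e4 := norm_pos_iff.2 hse
    rw [hS, norm_mul, norm_pow, Complex.norm_two] at hn
    refine (mul_le_mul_of_nonneg_right e1 (by positivity)).trans ?_
    rw [G4.n2_eq, hp, norm_mul, norm_mul, norm_pow, Complex.norm_two, Complex.norm_natCast]
    simp only [AQ.an]
    push_cast
    rw [e2]
    refine le_trans (le_of_eq ?_) (div_le_div_of_nonneg_right
      (mul_le_mul_of_nonneg_left hn (by positivity)) (by positivity))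
    field_simp
    norm_num
  have h10 := norm_sub_le_norm_sub_add_norm_sub ((a.sx : ℂ) / 2 * a.lg η (g.c + w))
    ((a.sx : ℂ) / 2 * a.uu (g.c + w) * η) (a.sx * ((a.an g).uu p).val * η / 2 ^ 41)
  change ‖_ - ((a.an g).ww ((a.an g).uu p)).val * η / 2 ^ 41‖ ≤
    (((a.an g).kk * ns / p.n2 + 4194304 : ℕ) : ℝ) / 2 ^ 60
  rw [h3, Nat.cast_add, le_div_iff₀ (by positivity)]
  rw [Nat.cast_ofNat]
  linarith

end Pool.Agent.MP_92463a_gt
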