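import Pool.Agent.MP_92463a_gt.HdG1

open Set Complex Filter Metric
open scoped Topology ComplexConjugate ContDiff Manifold

noncomputable section

namespace Pool.Agent.MP_92463a_gt

theorem HdN2_step {a : AQ} {o : AO} {z : ℂ} (h : o.Rep a z) {q : PS} {P M C : ℂ}
    (hq : q.Rep P M C) :
    (PS.step o q).Rep (P * if a.up then z else 1) (M * if a.up then 1 else z)
      (C * if a.cube then pm a.up z else 1) ∧ (PS.step o q).r = q.r + o.r := by
  obtain ⟨hu, hc, hz, hdl, hps⟩ := h
  obtain ⟨h1, h2, h3, h4, h5, h6⟩ := hq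
  rw [← hu, ← hc]
  unfold PS.step
  cases o.up <;> cases o.cube <;> refine ⟨⟨?_, ?_, ?_, ?_, ?_, ?_⟩, rfl⟩ <;>
    simp only [cond_true, cond_false, G4.val_mul, hps, h4, h5, h6, pm, if_true, if_false,
      Bool.false_eq_true, mul_one] <;>
    first
      | assumption
      | exact mul_ne_zero (by assumption) hdl
      | exact mul_ne_zero (by assumption) (mul_ne_zero hz hdl)
      | ring1
      | field_simp

theorem PS.Rep.fold {φ : AQ → ℂ} {as : List AQ} {os : List AO}
    (h : List.Forall₂ (fun (a : AQ) (o : AO) => o.Rep a (φ a)) as os) {p : PS} {P M C : ℂ}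
    (hp : p.Rep P M C) :
    (os.foldr PS.step p).Rep (P * ((as.filter fun a => a.up).map φ).prod)
      (M * ((as.filter fun a => !a.up).map φ).prod)
      (C * ((as.filter fun a => a.cube).map fun a => pm a.up (φ a)).prod) ∧
    (os.foldr PS.step p).r = p.r + (os.map AO.r).sum := by
  induction h with
  | nil => simpa using hp
  | @cons a o as os h _ ih =>
    obtain ⟨h1, h2⟩ := HdN2_step h ih.1
    rw [List.foldr_cons, h2, ih.2, List.map_cons, List.sum_cons]
    refine ⟨?_, by ring⟩
    convert h1 using 1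
    · cases hu : a.up <;> simp [hu, mul_comm, mul_left_comm]
    · cases hu : a.up <;> simp [hu, mul_comm, mul_left_comm]
    · cases hc : a.cube <;> simp [hc, mul_comm, mul_left_comm]

theorem exp_half {φ : AQ → ℂ} {as : List AQ} (h : ∀ a ∈ as, φ a ≠ 0) :
    exp (as.map fun a => (a.sx : ℂ) / 2 * log (φ a)).sum =
      ((as.filter fun a => a.cube).map fun a => pm a.up (φ a)).prod *
        exp (((as.filter fun a => a.up).map fun a => log (φ a)).sum / 2) /
        exp (((as.filter fun a => !a.up).map fun a => log (φ a)).sum / 2) := by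
  induction as with
  | nil => simp
  | cons a as ih =>
    have hz : φ a ≠ 0 := h a List.mem_cons_self
    have hE : exp (log (φ a) / 2) ≠ 0 := exp_ne_zero _
    have h1 : exp (1 / 2 * log (φ a)) = exp (log (φ a) / 2) := congrArg exp (by ring)
    have h3 : exp (3 / 2 * log (φ a)) = φ a * exp (log (φ a) / 2) := by
      rw [show 3 / 2 * log (φ a) = log (φ a) + log (φ a) / 2 by ring, exp_add, exp_log hz]
    have h1' : exp (-1 / 2 * log (φ a)) = (exp (log (φ a) / 2))⁻¹ := by
      rw [← h1, ← exp_neg]
      exact congrArg exp (by ring)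
    have h3' : exp (-3 / 2 * log (φ a)) = (φ a * exp (log (φ a) / 2))⁻¹ := by
      rw [← h3, ← exp_neg]
      exact congrArg exp (by ring)
    have hT := exp_ne_zero (((as.filter fun a => !a.up).map fun a => log (φ a)).sum / 2)
    rw [List.map_cons, List.sum_cons, exp_add, ih fun b hb => h b (List.mem_cons_of_mem _ hb)]
    have hs : (a.sx : ℂ) = (if a.up then 1 else -1) * (if a.cube then 3 else 1) := by
      unfold AQ.sx AQ.ex
      cases a.up <;> cases a.cube <;> simp
    rw [hs]
    cases hu : a.up <;> cases hc : a.cube <;>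
      simp only [List.filter_cons, hu, hc, pm, if_true, if_false, Bool.false_eq_true, Bool.not_true,
        Bool.not_false, List.map_cons, List.sum_cons, List.prod_cons, add_div, exp_add, mul_one,
        one_mul, neg_mul, h1, h3, h1', h3'] <;>
      field_simp

theorem exp_sum_log {φ : AQ → ℂ} {as : List AQ} (h : ∀ a ∈ as, φ a ≠ 0) :
    exp (as.map fun a => log (φ a)).sum = (as.map φ).prod := by
  induction as with
  | nil => simp
  | cons a as ih =>
    rw [List.map_cons, List.sum_cons, exp_add, ih fun b hb => h b (List.mem_cons_of_mem _ hb),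
      exp_log (h a List.mem_cons_self), List.map_cons, List.prod_cons]

theorem im_sum_log {φ : AQ → ℂ} {z : AQ → ℚ} {as : List AQ}
    (h : ∀ a ∈ as, |arg (φ a)| ≤ (z a : ℝ)) :
    |(as.map fun a => log (φ a)).sum.im| ≤ (((as.map z).sum : ℚ) : ℝ) := by
  induction as with
  | nil => simp
  | cons a as ih =>
    rw [List.map_cons, List.sum_cons, add_im, log_im, List.map_cons, List.sum_cons, Rat.cast_add]
    exact (abs_add_le _ _).trans
      (add_le_add (h a List.mem_cons_self) (ih fun b hb => h b (List.mem_cons_of_mem _ hb)))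

theorem HdN2_bd (u : G4) {x : ℝ} {n : ℕ} (hx : |x| ≤ n / 2 ^ 40) :
    ‖u.val * (x : ℂ)‖ ≤ (u.nr : ℝ) * n / 2 ^ 40 := by
  rw [norm_mul, norm_real, Real.norm_eq_abs, mul_div_assoc]
  exact mul_le_mul u.nr_ge hx (abs_nonneg _) (Nat.cast_nonneg _)

theorem HdN2_cons {d : DC} (hd : d.Ok) (t dx dy : G4) (s : DR) (v : List ℝ)
    (hs : ‖dotG s.ds v‖ ≤ s.lam / 2 ^ 40) :
    ‖dotG (DR.cons d.b.hx d.b.hy t dx dy s).ds (d.ξ :: d.ζ :: v)‖ ≤
      (DR.cons d.b.hx d.b.hy t dx dy s).lam / 2 ^ 40 := by
  have h1 := HdN2_bd dx hd.2.2.1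
  have h2 := HdN2_bd dy hd.2.2.2
  have h3 : dotG (DR.cons d.b.hx d.b.hy t dx dy s).ds (d.ξ :: d.ζ :: v) =
      dx.val * d.ξ + (dy.val * d.ζ + dotG s.ds v) := by simp [dotG, DR.cons]
  have h4 : ((DR.cons d.b.hx d.b.hy t dx dy s).lam : ℝ) =
      dx.nr * d.b.hx + dy.nr * d.b.hy + s.lam := by simp [DR.cons]
  rw [h3, h4, add_div, add_div, add_assoc]
  exact (norm_add_le _ _).trans (add_le_add h1 ((norm_add_le _ _).trans (add_le_add h2 hs)))

theorem dRec_spec {ds : List DC} (hd : ∀ d ∈ ds, d.Ok) {os : List AO}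
    (hl : os.length = 2 * ds.length) (η : ℝ) :
    (List.zipWith (fun (o : AO) (e : ℝ) => o.w.val * e) os (etas ds η)).sum =
        η * (dRec (ds.map DC.b) os).t.val + dotG (dRec (ds.map DC.b) os).ds (devL ds) ∧
      (dRec (ds.map DC.b) os).ds.length = 2 * ds.length ∧
      ‖dotG (dRec (ds.map DC.b) os).ds (devL ds)‖ ≤ (dRec (ds.map DC.b) os).lam / 2 ^ 40 := by
  induction ds generalizing os η with
  | nil => simp [etas, dRec, dotG, G4.val_nat]
  | cons d ds ih =>
    rcases os with _ | ⟨o1, _ | ⟨o2, m⟩⟩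
    · simp at hl
    · simp only [List.length_cons, List.length_nil] at hl
      omega
    obtain ⟨h1, h2, h3⟩ := ih (fun b hb => hd b (List.mem_cons_of_mem _ hb)) (os := m)
      (by simp only [List.length_cons] at hl; omega) (η + d.el)
    have hd0 := hd d List.mem_cons_self
    rw [List.map_cons, dRec, devL, etas, List.zipWith_cons_cons, List.zipWith_cons_cons,
      List.sum_cons, List.sum_cons, h1, DR.step, DC.e1, DC.e2, DC.el]
    cases d.b.H <;> refine ⟨?_, ?_, HdN2_cons hd0 _ _ _ _ _ h3⟩
    · simp only [cond_false, DR.cons, dotG, List.zipWith_cons_cons, List.sum_cons, G4.val_add,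
        G4.val_sub, Bool.false_eq_true, if_false]
      push_cast
      ring
    · simp only [cond_false, DR.cons, List.length_cons, h2]
      ring
    · simp only [cond_true, DR.cons, dotG, List.zipWith_cons_cons, List.sum_cons, G4.val_add,
        G4.val_neg, if_true]
      push_cast
      ring
    · simp only [cond_true, DR.cons, List.length_cons, h2]
      ring

end Pool.Agent.MP_92463a_gt
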