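import Pool.Agent.MP_92463a_gt.HdG1
import Pool.Agent.MP_92463a_gt.HdC1

open Set Complex Filter Metric
open scoped Topology ComplexConjugate ContDiff Manifold

noncomputable section

namespace Pool.Agent.MP_92463a_gt

theorem HdN3_shr (x k : ℕ) : (x : ℝ) / 2 ^ k ≤ ((Nat.shiftRight x k : ℕ) : ℝ) + 1 := by
  have h : Nat.shiftRight x k = x / 2 ^ k := Nat.shiftRight_eq_div_pow x k
  rw [h]
  have h2 : x < (x / 2 ^ k + 1) * 2 ^ k := by
    have := Nat.lt_div_mul_add (a := x) (b := 2 ^ k) (by positivity)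
    nlinarith
  rw [div_le_iff₀ (by positivity)]
  exact_mod_cast h2.le

theorem HdN3_dot (g : G4) (ds : List G4) (v : List ℝ) :
    dotZ ((ds.map fun d => (g.rp d, g.rn d)).map pz) v = (g.val * dotG ds v).re := by
  induction ds generalizing v with
  | nil => simp [dotZ, dotG]
  | cons d ds ih =>
    cases v with
    | nil => simp [dotZ, dotG]
    | cons x v =>
      have h1 := ih v
      simp only [dotZ, dotG, List.map_cons, List.zipWith_cons_cons, List.sum_cons] at h1 ⊢
      rw [h1, mul_add, add_re, ← mul_assoc, re_mul_ofReal, G4.rp_rn]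
      simp [pz]

theorem HdN3_err (gp gm : G4) (ρ σ : ℕ) :
    2 * (2 / 2 ^ 40 : ℝ) + (‖gp.val / 2 ^ 40‖ + 2 / 2 ^ 40) * (9 / 16 * ((σ : ℝ) / 2 ^ 60) ^ 2) +
      (‖gm.val / 2 ^ 40‖ + 2 / 2 ^ 40) * (3 / 16 * ((σ : ℝ) / 2 ^ 60) ^ 3 + (ρ : ℝ) / 2 ^ 60) ≤
      (errN gp gm ρ σ : ℝ) / 2 ^ 100 := by
  have h1 := HdN3_shr ((gp.nr + 2) * 9 * (σ * σ)) 64
  have h2 := HdN3_shr (3 * (σ * (σ * σ))) 124
  have hp := gp.nr_ge
  have hm := gm.nr_ge
  have e : (errN gp gm ρ σ : ℝ) = 2 ^ 62 +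
      (((Nat.shiftRight ((gp.nr + 2) * 9 * (σ * σ)) 64 : ℕ) : ℝ) + 1) +
      ((gm.nr : ℝ) + 2) * (((Nat.shiftRight (3 * (σ * (σ * σ))) 124 : ℕ) : ℝ) + 1 + ρ) := by
    simp only [errN, Nat.add_eq, Nat.mul_eq, Nat.pow_eq]
    push_cast
    ring
  rw [e]
  generalize ((Nat.shiftRight ((gp.nr + 2) * 9 * (σ * σ)) 64 : ℕ) : ℝ) = A at h1 ⊢
  generalize ((Nat.shiftRight (3 * (σ * (σ * σ))) 124 : ℕ) : ℝ) = B at h2 ⊢
  push_cast at h1 h2
  have n1 : ‖gp.val / 2 ^ 40‖ = ‖gp.val‖ / 2 ^ 40 := by simp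
  have n2 : ‖gm.val / 2 ^ 40‖ = ‖gm.val‖ / 2 ^ 40 := by simp
  rw [n1, n2]
  have hσ : (0 : ℝ) ≤ σ := Nat.cast_nonneg _
  have hρ : (0 : ℝ) ≤ ρ := Nat.cast_nonneg _
  have k1 : (‖gp.val‖ + 2) * 9 * ((σ : ℝ) * σ) / 2 ^ 64 ≤ A + 1 := by
    refine le_trans ?_ h1
    gcongr
  have k2 : (‖gm.val‖ + 2) * (3 * ((σ : ℝ) * (σ * σ)) / 2 ^ 124 + ρ) ≤
      ((gm.nr : ℝ) + 2) * (B + 1 + ρ) := by
    gcongr
  calc _ = (2 ^ 62 + (‖gp.val‖ + 2) * 9 * ((σ : ℝ) * σ) / 2 ^ 64 +
        (‖gm.val‖ + 2) * (3 * ((σ : ℝ) * (σ * σ)) / 2 ^ 124 + ρ)) / 2 ^ 100 := by ring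
    _ ≤ _ := by gcongr

theorem HdN3_qt {u den : G4} (hd : 0 < den.n2) {z : ℂ} (hz : u.val / den.val = z) :
    ‖(G4.qt 40 u den).val / 2 ^ 40 - z‖ ≤ 2 / 2 ^ 40 := by
  have h := G4.qt_err u den 40 hd
  have e : (G4.qt 40 u den).val / 2 ^ 40 - z =
      ((G4.qt 40 u den).val - 2 ^ 40 * u.val / den.val) / 2 ^ 40 := by
    rw [← hz]; ring
  rw [e, norm_div]
  have : ‖(2 : ℂ) ^ 40‖ = 2 ^ 40 := by simp
  rw [this]
  gcongr

theorem HdN3_zip (p q : List (ℕ × ℕ)) (h : p.length = q.length) (v : List ℝ) :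
    dotZ ((List.zipWith addP p q).map pz) v = dotZ (p.map pz) v + dotZ (q.map pz) v := by
  induction p generalizing q v with
  | nil =>
    cases q with
    | nil => simp [dotZ]
    | cons _ _ => simp at h
  | cons x p ih =>
    cases q with
    | nil => simp at h
    | cons y q =>
      cases v with
      | nil => simp [dotZ]
      | cons t v =>
        have h1 := ih q (by simpa using h) v
        simp only [dotZ, List.map_cons, List.zipWith_cons_cons, List.sum_cons] at h1 ⊢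
        rw [h1]
        simp only [pz, addP, Nat.add_eq]
        push_cast
        ring

theorem HdN3_rep (n : ℕ) (v : List ℝ) :
    dotZ ((List.replicate n ((0, 0) : ℕ × ℕ)).map pz) v = 0 := by
  induction n generalizing v with
  | zero => simp [dotZ]
  | succ n ih =>
    cases v with
    | nil => simp [dotZ]
    | cons t v =>
      have h1 := ih v
      simp only [dotZ, List.replicate_succ, List.map_cons, List.zipWith_cons_cons,
        List.sum_cons] at h1 ⊢
      rw [h1]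
      simp [pz]

theorem HdN3_len (l : List DC) : (devL l).length = 2 * l.length := by
  induction l with
  | nil => rfl
  | cons d l ih => simp [devL, ih]; ring

theorem HdN3_dev (l l' : List DC) : devL (l ++ l') = devL l ++ devL l' := by
  induction l with
  | nil => rfl
  | cons d l ih => simp [devL, ih]

theorem HdN3_app {J J' : List ℤ} {l l' : List DC} (h : J.length = 2 * l.length) :
    dotZ (J ++ J') (devL (l ++ l')) = dotZ J (devL l) + dotZ J' (devL l') := by
  rw [HdN3_dev]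
  unfold dotZ
  rw [List.zipWith_append (by rw [h, HdN3_len]), List.sum_append]

theorem HdN3_unfl (l : List DC) {J : List ℤ} (hJ : J.length = 2 * l.length) :
    (unfl ((l.map DC.flip).map DC.b) J).length = 2 * l.length ∧
      dotZ (unfl ((l.map DC.flip).map DC.b) J) (devL l.reverse) =
        dotZ J (devL (l.map DC.flip)) := by
  induction l generalizing J with
  | nil =>
    have : J = [] := by simpa using hJ
    subst this
    simp [unfl, dotZ]
  | cons d l ih =>
    match J, hJ with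
    | [], hJ => simp at hJ
    | [_], hJ => simp at hJ; omega
    | x :: y :: m, hJ =>
      have hm : m.length = 2 * l.length := by simp at hJ; omega
      obtain ⟨h1, h2⟩ := ih hm
      simp only [List.map_cons, unfl, List.reverse_cons]
      refine ⟨?_, ?_⟩
      · rw [List.length_append, h1]
        split_ifs <;> simp <;> ring
      · rw [HdN3_app (by rw [h1, List.length_reverse]), h2]
        by_cases hH : d.b.H = true
        · simp [DC.flip, CB.flip, hH, devL, dotZ]
          ring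
        · simp [DC.flip, CB.flip, hH, devL, dotZ]
          ring

theorem node3_spec {ok : Bool} {S Om a b : G4} {du dd : DR} {ρ : ℕ}
    (h : (node3 ok S Om a b du dd ρ).ok = true) {vu vd : List ℝ} {X : ℂ}
    (hX : ‖X - (dotG du.ds vu + dotG dd.ds vd) / 2 ^ 41‖ ≤ ρ / 2 ^ 60)
    (hu : ‖dotG du.ds vu‖ ≤ du.lam / 2 ^ 40) (hd : ‖dotG dd.ds vd‖ ≤ dd.lam / 2 ^ 40) :
    |((a.val / b.val * exp X + (a.val / b.val * exp X)⁻¹) * (Om.val / S.val)).re -
        (node3 ok S Om a b du dd ρ).ev vu vd| ≤ (node3 ok S Om a b du dd ρ).r / 2 ^ 100 := by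
  simp only [node3, node4, node5, Bool.and_eq_true, Nat.blt_eq, Nat.ble_eq, Nat.add_eq,
    Nat.pow_eq] at h
  obtain ⟨⟨-, hden⟩, hσ⟩ := h
  have hd0 := (G4.n2_pos _).1 hden
  rw [G4.val_mul, G4.val_mul] at hd0
  have ha : a.val ≠ 0 := fun e => hd0 (by rw [e]; ring)
  have hb : b.val ≠ 0 := fun e => hd0 (by rw [e]; ring)
  have hS : S.val ≠ 0 := fun e => hd0 (by rw [e]; ring)
  have hp := HdN3_qt (u := ((a.mul a).add (b.mul b)).mul Om) hden
    (z := (a.val / b.val + (a.val / b.val)⁻¹) * (Om.val / S.val)) (by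
      simp only [G4.val_mul, G4.val_add]
      field_simp)
  have hm := HdN3_qt (u := ((a.mul a).sub (b.mul b)).mul Om) hden
    (z := (a.val / b.val - (a.val / b.val)⁻¹) * (Om.val / S.val)) (by
      simp only [G4.val_mul, G4.val_sub]
      field_simp)
  have hsh := HdN3_shr (du.lam + dd.lam) 21
  have hL : ‖(dotG du.ds vu + dotG dd.ds vd) / 2 ^ 41‖ + (ρ : ℝ) / 2 ^ 60 ≤
      ((Nat.shiftRight (du.lam + dd.lam) 21 + 1 + ρ : ℕ) : ℝ) / 2 ^ 60 := by
    have n1 : ‖(dotG du.ds vu + dotG dd.ds vd) / 2 ^ 41‖ =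
        ‖dotG du.ds vu + dotG dd.ds vd‖ / 2 ^ 41 := by simp
    have n2 := norm_add_le (dotG du.ds vu) (dotG dd.ds vd)
    rw [n1]
    push_cast at hsh ⊢
    linarith
  have hσ' : ((Nat.shiftRight (du.lam + dd.lam) 21 + 1 + ρ : ℕ) : ℝ) / 2 ^ 60 ≤ 1 := by
    rw [div_le_one (by positivity)]
    exact_mod_cast hσ
  have key := node_exp (div_ne_zero ha hb) hp hm hX hL hσ'
  refine le_trans (le_of_eq ?_) (key.trans (HdN3_err _ _ _ _))
  congr 1
  simp only [node3, node4, node5, NO.ev, HdN3_dot]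
  generalize G4.qt 40 (((a.mul a).add (b.mul b)).mul Om) ((a.mul b).mul S) = gp
  generalize G4.qt 40 (((a.mul a).sub (b.mul b)).mul Om) ((a.mul b).mul S) = gm
  have e1 : (gp.val / 2 ^ 40).re = ((gp.a : ℝ) - gp.b) / 2 ^ 40 := by
    rw [← G4.val_re]
    have : (2 : ℂ) ^ 40 = ((2 ^ 40 : ℝ) : ℂ) := by push_cast; rfl
    rw [this, div_ofReal_re]
  have e2 : (gm.val / 2 ^ 40 * ((dotG du.ds vu + dotG dd.ds vd) / 2 ^ 41)).re =
      ((gm.val * dotG du.ds vu).re + (gm.val * dotG dd.ds vd).re) / 2 ^ 81 := by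
    have : gm.val / 2 ^ 40 * ((dotG du.ds vu + dotG dd.ds vd) / 2 ^ 41) =
        (gm.val * dotG du.ds vu + gm.val * dotG dd.ds vd) / ((2 ^ 81 : ℝ) : ℂ) := by
      push_cast; ring
    rw [this, div_ofReal_re, add_re]
  rw [e1, e2]
  ring

theorem node3_ok {ok : Bool} {S Om a b : G4} {du dd : DR} {ρ : ℕ}
    (h : (node3 ok S Om a b du dd ρ).ok = true) : ok = true := by
  simp only [node3, node4, node5, Bool.and_eq_true] at h
  exact h.1.1

theorem node3_len (ok : Bool) (S Om a b : G4) (du dd : DR) (ρ : ℕ) :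
    (node3 ok S Om a b du dd ρ).ju.length = du.ds.length ∧
      (node3 ok S Om a b du dd ρ).jd.length = dd.ds.length := by
  simp [node3, node4, node5]

theorem nodes_spec {L : LN} {tb : List G4} {φ : G4 → ℝ} {vu vd : List ℝ}
    (h : (nodes L tb).ok = true)
    (hφ : ∀ Z ∈ tb, (node L Z).ok = true → (node L Z).ju.length = 2 * L.bu.length ∧
      (node L Z).jd.length = 2 * L.bd.length ∧
      |φ Z - (node L Z).ev vu vd| ≤ (node L Z).r / 2 ^ 100) :
    (nodes L tb).ju.length = 2 * L.bu.length ∧ (nodes L tb).jd.length = 2 * L.bd.length ∧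
      |(tb.map φ).sum - (nodes L tb).ev vu vd| ≤ (nodes L tb).r / 2 ^ 100 := by
  induction tb with
  | nil => simp [nodes, NO.ev, HdN3_rep, -List.map_replicate]
  | cons Z tb ih =>
    simp only [nodes, NO.add, Bool.and_eq_true] at h
    obtain ⟨a1, a2, a3⟩ := hφ Z (by simp) h.1
    obtain ⟨b1, b2, b3⟩ := ih h.2 fun W hW => hφ W (by simp [hW])
    refine ⟨by simp [nodes, NO.add, a1, b1], by simp [nodes, NO.add, a2, b2], ?_⟩
    have e : (nodes L (Z :: tb)).ev vu vd = (node L Z).ev vu vd + (nodes L tb).ev vu vd := by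
      simp only [nodes, NO.add, NO.ev, Nat.add_eq]
      rw [HdN3_zip _ _ (a1.trans b1.symm), HdN3_zip _ _ (a2.trans b2.symm)]
      push_cast
      ring
    have er : ((nodes L (Z :: tb)).r : ℝ) = (node L Z).r + (nodes L tb).r := by
      simp only [nodes, NO.add, Nat.add_eq]
      push_cast
      ring
    rw [e, er, List.map_cons, List.sum_cons, add_div]
    calc _ = |(φ Z - (node L Z).ev vu vd) + ((tb.map φ).sum - (nodes L tb).ev vu vd)| := by
          congr 1; ring
      _ ≤ _ := (abs_add_le _ _).trans (add_le_add a3 b3)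

theorem unfl_spec (ds : List DC) {J : List ℤ} (hJ : J.length = 2 * ds.length) :
    (unfl ((ds.reverse.map DC.flip).map DC.b) J).length = 2 * ds.length ∧
      dotZ (unfl ((ds.reverse.map DC.flip).map DC.b) J) (devL ds) =
        dotZ J (devL (ds.reverse.map DC.flip)) := by
  have h := HdN3_unfl ds.reverse (J := J) (by rw [hJ, List.length_reverse])
  rwa [List.reverse_reverse, List.length_reverse] at h

theorem dotZ_append {J J' : List ℤ} {l l' : List DC} (h : J.length = 2 * l.length) :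
    dotZ (J ++ J') (devL (l ++ l')) = dotZ J (devL l) + dotZ J' (devL l') := HdN3_app h

end Pool.Agent.MP_92463a_gt
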