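import Pool.Agent.MP_92463a_gt.HdL1
import Pool.Agent.MP_92463a_gt.HdN1
import Pool.Agent.MP_92463a_gt.HdN2
import Pool.Agent.MP_92463a_gt.HdN3

open Set Complex Filter Metric
open scoped Topology ComplexConjugate ContDiff Manifold

noncomputable section

namespace Pool.Agent.MP_92463a_gt

theorem HdL4_sum {as : List AQ} {es : List ℝ} {f : AQ → ℝ → ℂ} {o : AQ → AO} {P : AQ → ℝ → Prop}
    (h : List.Forall₂ P as es)
    (hb : ∀ a ∈ as, ∀ e, P a e → ‖f a e - (o a).w.val * e / 2 ^ 41‖ ≤ (o a).r / 2 ^ 60) :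
    ‖(List.zipWith f as es).sum -
        (List.zipWith (fun (o : AO) (e : ℝ) => o.w.val * e) (as.map o) es).sum / 2 ^ 41‖ ≤
      ((((as.map o).map AO.r).sum : ℕ) : ℝ) / 2 ^ 60 := by
  induction h with
  | nil => simp
  | @cons a e as es hp _ ih =>
    have h1 := hb a (by simp) e hp
    have h2 := ih fun b hb' => hb b (by simp [hb'])
    simp only [List.map_cons, List.zipWith_cons_cons, List.sum_cons, Nat.cast_add]
    calc _ = ‖(f a e - (o a).w.val * e / 2 ^ 41) + ((List.zipWith f as es).sum -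
          (List.zipWith (fun (o : AO) (e : ℝ) => o.w.val * e) (as.map o) es).sum / 2 ^ 41)‖ := by
          congr 1; ring
      _ ≤ _ := norm_add_le _ _
      _ ≤ _ := by rw [add_div]; exact add_le_add h1 h2

theorem HdL4_div (x : ℕ) {n : ℕ} (hn : 0 < n) : (x : ℝ) / n ≤ ((x / n : ℕ) : ℝ) + 1 := by
  have h := Nat.lt_div_mul_add (a := x) hn
  have hn' : (0 : ℝ) < n := by exact_mod_cast hn
  rw [div_le_iff₀ hn']
  have : (x : ℝ) < ((x / n : ℕ) : ℝ) * n + n := by exact_mod_cast h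
  linarith

theorem HdL4_rho {L : LN} {S : G4} {s : ℂ} {lu ld : ℚ} (r : ℕ) (hS : S.val = 2 ^ 52 * s)
    (hs : s ≠ 0) (hu : L.tu = ⌈6 * lu * 2 ^ 60⌉₊) (hd : L.td = ⌈6 * ld * 2 ^ 60⌉₊) :
    (r : ℝ) / 2 ^ 60 + 6 * ((lu : ℝ) * ‖s‖ + (ld : ℝ) / ‖s‖) + 6 / 2 ^ 33 ≤
      (rhoN L S S.nr r : ℝ) / 2 ^ 60 := by
  have hs0 : 0 < ‖s‖ := norm_pos_iff.2 hs
  have hn : ‖S.val‖ = 2 ^ 52 * ‖s‖ := by rw [hS, norm_mul, norm_pow]; simp
  have hns : 2 ^ 52 * ‖s‖ ≤ S.nr := hn ▸ S.nr_ge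
  have h2 : (S.n2 : ℝ) = (2 ^ 52 * ‖s‖) ^ 2 := by rw [G4.n2_eq, hn]
  have h2p : 0 < S.n2 := by
    have : (0 : ℝ) < S.n2 := by rw [h2]; positivity
    exact_mod_cast this
  have htu : 6 * (lu : ℝ) * 2 ^ 60 ≤ L.tu := by
    have : 6 * lu * 2 ^ 60 ≤ (L.tu : ℚ) := hu ▸ Nat.le_ceil _
    exact_mod_cast this
  have htd : 6 * (ld : ℝ) * 2 ^ 60 ≤ L.td := by
    have : 6 * ld * 2 ^ 60 ≤ (L.td : ℚ) := hd ▸ Nat.le_ceil _
    exact_mod_cast this
  have e : rhoN L S S.nr r =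
      r + 1073741826 + (L.tu * S.nr / 2 ^ 52 + L.td * S.nr * 2 ^ 52 / S.n2) := by
    change r + 1073741826 + ((L.tu * S.nr) >>> 52 + ((L.td * S.nr) <<< 52) / S.n2) = _
    rw [Nat.shiftRight_eq_div_pow, Nat.shiftLeft_eq]
  have a1 := HdL4_div (L.tu * S.nr) (n := 2 ^ 52) (by positivity)
  have a2 := HdL4_div (L.td * S.nr * 2 ^ 52) h2p
  have b1 : 6 * ((lu : ℝ) * ‖s‖) * 2 ^ 60 ≤ ((L.tu * S.nr : ℕ) : ℝ) / ((2 ^ 52 : ℕ) : ℝ) := by
    rw [le_div_iff₀ (by positivity)]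
    push_cast
    calc _ = (6 * (lu : ℝ) * 2 ^ 60) * (2 ^ 52 * ‖s‖) := by ring
      _ ≤ (L.tu : ℝ) * (2 ^ 52 * ‖s‖) := by gcongr
      _ ≤ _ := by gcongr
  have b2 : 6 * ((ld : ℝ) / ‖s‖) * 2 ^ 60 ≤ ((L.td * S.nr * 2 ^ 52 : ℕ) : ℝ) / (S.n2 : ℝ) := by
    rw [h2, le_div_iff₀ (by positivity)]
    push_cast
    calc _ = (6 * (ld : ℝ) * 2 ^ 60) * (2 ^ 52 * ‖s‖) * 2 ^ 52 := by field_simp
      _ ≤ (L.td : ℝ) * (2 ^ 52 * ‖s‖) * 2 ^ 52 := by gcongr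
      _ ≤ (L.td : ℝ) * S.nr * 2 ^ 52 := by gcongr
      _ = _ := by norm_num
  rw [e, le_div_iff₀ (by positivity)]
  simp only [Nat.cast_add, Nat.cast_ofNat]
  have c : ((r : ℝ) / 2 ^ 60 + 6 * ((lu : ℝ) * ‖s‖ + (ld : ℝ) / ‖s‖) + 6 / 2 ^ 33) * 2 ^ 60 =
      r + 6 * ((lu : ℝ) * ‖s‖) * 2 ^ 60 + 6 * ((ld : ℝ) / ‖s‖) * 2 ^ 60 + 805306368 := by ring
  rw [c]
  linarith

theorem HdL4_ps0 {g : Ge} {S Om : G4} {w : ℂ} (hw : w ≠ 0) (hS : S.val = 2 ^ 52 * (g.c + w))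
    (hO : Om.val = 2 ^ 52 * w) : (ps0 g.zin S Om).Rep 1 (g.phi0 w) 1 := by
  refine ⟨?_, ?_, ?_, ?_, ?_, ?_⟩ <;> simp only [ps0, G4.val_nat, Ge.phi0]
  · simp
  · cases g.zin <;> simp [G4.val_nat, hO, hw]
  · simp
  · simp
  · cases g.zin
    · simp [G4.val_nat, hS]; ring
    · simp only [cond_true, hO, hS, if_true]; field_simp
  · simp

theorem HdL4_alg {x y A B b gp gm c P M l δ1 δ2 : ℂ} (hy : y ≠ 0) (hA : A ≠ 0) (hB : B ≠ 0)
    (hb : b ≠ 0) (hm : gm ≠ 0) (e1 : exp (P / 2) = gp / 2 ^ 64 * exp δ1)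
    (e2 : exp ((l + M) / 2) = gm / 2 ^ 64 * exp δ2) :
    x / y * (exp (-l / 2) * (c * exp (P / 2) / exp (M / 2))) =
      B * (gp * (1 * c * b) * (A * x)) / (A * (gm * b * (B * y))) * exp (δ1 - δ2) := by
  have e3 : exp (-l / 2) / exp (M / 2) = (gm / 2 ^ 64 * exp δ2)⁻¹ := by
    rw [← e2, ← exp_neg, ← exp_sub]; congr 1; ring
  have := exp_ne_zero δ2
  calc _ = x / y * (c * exp (P / 2) * (exp (-l / 2) / exp (M / 2))) := by ring
    _ = _ := by rw [e1, e3, exp_sub]; field_simp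

/-- the value of the explicit part at a node -/
theorem HdL4_gam {g : Ge} {k : LK} {as : List AQ} {w : ℂ} (h : g.Ok) (hw : g.Thin w)
    (ha : ∀ a ∈ as, a.ok g = true)
    (hp : ((as.filter fun a => a.up).map fun a => az (a.zR g)).sum ≤ 31 / 10)
    (hm : az g.z0 + ((as.filter fun a => !a.up).map fun a => az (a.zR g)).sum ≤ 31 / 10)
    {p : PS} {Om gp gm : G4} (hO : Om.val = 2 ^ 52 * w)
    (hr : p.Rep (1 * ((as.filter fun a => a.up).map fun a => a.phi g w).prod)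
      (g.phi0 w * ((as.filter fun a => !a.up).map fun a => a.phi g w).prod)
      (1 * ((as.filter fun a => a.cube).map fun a => pm a.up (a.phi g w)).prod))
    (h1 : sqOk gp p.np p.dp = true) (h2 : sqOk gm p.nm p.dm = true) :
    ∃ δ : ℂ, ‖δ‖ ≤ 6 / 2 ^ 33 ∧ Gam0 g k as w =
      (G4.sm (Nat.pow 2 (Nat.mul 52 k.nm)) ((gp.mul p.a).mul (Om.pw k.np))).val /
        (G4.sm (Nat.pow 2 (Nat.mul 52 k.np)) ((gm.mul p.b).mul (Om.pw k.nm))).val * exp δ := by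
  have hA := h.thin_ann hw
  have hw0 := h.w_ne hA
  have hne : ∀ a ∈ as, a.phi g w ≠ 0 := fun a ha' h0 => by
    have := AQ.phi_re h (ha a ha') hA
    rw [h0] at this
    simp at this
  have h0 : g.phi0 w ≠ 0 := fun h0 => by
    have := h.phi0_re hA
    rw [h0] at this
    simp at this
  have harg : ∀ a ∈ as, |arg (a.phi g w)| ≤ ((az (a.zR g) : ℚ) : ℝ) := fun a ha' =>
    AQ.phi_arg h (ha a ha') hw
  have i0 := im_sum_log (z := fun a => az (a.zR g)) (as := as.filter fun a => a.up)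
    fun a ha' => harg a (List.mem_of_mem_filter ha')
  have i1 := im_sum_log (z := fun a => az (a.zR g)) (as := as.filter fun a => !a.up)
    fun a ha' => harg a (List.mem_of_mem_filter ha')
  have c : ((31 / 10 : ℚ) : ℝ) = 31 / 10 := by norm_num
  have i2 := (Rat.cast_le (K := ℝ)).2 hp
  have i3 := (Rat.cast_le (K := ℝ)).2 hm
  rw [c] at i2
  rw [c, Rat.cast_add] at i3
  have j1 := hr.np
  have j2 := hr.nm
  rw [one_mul, ← exp_sum_log fun a ha' => hne a (List.mem_of_mem_filter ha')] at j1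
  rw [← exp_sum_log fun a ha' => hne a (List.mem_of_mem_filter ha'), ← exp_log h0, ← exp_add] at j2
  obtain ⟨-, δ1, d1, e1⟩ := sq_sound h1 j1 (i0.trans i2)
  obtain ⟨n2, δ2, d2, e2⟩ := sq_sound h2 j2 (by
    rw [add_im, log_im]
    exact (abs_add_le _ _).trans ((add_le_add (h.phi0_arg hw) i1).trans i3))
  refine ⟨δ1 - δ2, (norm_sub_le _ _).trans ((add_le_add d1 d2).trans (by norm_num)), ?_⟩
  have p1 : ∀ n : ℕ, ((Nat.pow 2 (Nat.mul 52 n) : ℕ) : ℂ) = (2 ^ 52) ^ n := fun n => by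
    rw [Nat.pow_eq, Nat.mul_eq, pow_mul, Nat.cast_pow, Nat.cast_pow, Nat.cast_ofNat]
  rw [G4.val_sm, G4.val_sm, G4.val_mul, G4.val_mul, G4.val_mul, G4.val_mul, G4.val_pw, G4.val_pw,
    p1, p1, hO, hr.a, Gam0, L0, exp_add, exp_half hne, mul_pow, mul_pow]
  exact HdL4_alg (pow_ne_zero _ hw0) (pow_ne_zero _ (by norm_num)) (pow_ne_zero _ (by norm_num))
    hr.b n2 e1 e2

theorem LC.Ok.node {C : LC} (h : C.Ok) {Z : G4} (hZ : C.g.Thin (C.g.R * (Z.val / 2 ^ 40)))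
    (ho : (node C.ln Z).ok = true) :
    (node C.ln Z).ju.length = 2 * C.ln.bu.length ∧ (node C.ln Z).jd.length = 2 * C.ln.bd.length ∧
      |(fI C.Gam C.g.c (C.g.R * (Z.val / 2 ^ 40))).re - (node C.ln Z).ev (devL C.du) (devL C.dd)| ≤
        (node C.ln Z).r / 2 ^ 100 := by
  generalize hw : (C.g.R : ℂ) * (Z.val / 2 ^ 40) = w at hZ ⊢
  have hA := h.ge.thin_ann hZ
  obtain ⟨Om, hOm⟩ : ∃ Om, Om = G4.sm C.ln.R Z := ⟨_, rfl⟩
  obtain ⟨S, hSd⟩ : ∃ S, S = (C.ln.c.add Om).nz := ⟨_, rfl⟩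
  have hO : Om.val = 2 ^ 52 * w := by
    rw [hOm, G4.val_sm, ← hw]
    simp only [LC.ln, LC.g, LK.ge]
    push_cast
    ring
  have hS : S.val = 2 ^ 52 * (C.g.c + w) := by
    rw [hSd, G4.val_nz, G4.val_add, hO]
    simp only [LC.ln, LC.g, LK.ge, G4.val_int]
    push_cast
    ring
  obtain ⟨o, hod⟩ : ∃ o : AQ → AO, o = fun a => AN.ev S Om S.nr (a.an C.g) := ⟨_, rfl⟩
  have hev := fun a (ha : a ∈ C.as) (η : ℝ) (hη : |η| ≤ a.h / 2 ^ 40) =>
    AQ.ev_spec h.ge (h.at' a ha) hA hS hO S.nr_ge hη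
  obtain ⟨p, hp⟩ : ∃ p, p = (C.as.map o).foldr PS.step (ps0 C.g.zin S Om) := ⟨_, rfl⟩
  have e : Pool.Agent.MP_92463a_gt.node C.ln Z = node2 C.ln S Om S.nr p (csq p.np p.dp)
      (csq p.nm p.dm) (dRec C.bu (C.au.map o)) (dRec C.bd (C.ad.map o)) := by
    rw [hp, LC.as, List.map_append, List.foldr_append, hod, hSd, hOm]
    simp only [Pool.Agent.MP_92463a_gt.node, nodeS, node0, node1, LC.ln, List.map_map]
    rfl
  rw [e] at ho ⊢
  unfold node2 at ho ⊢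
  have hok := node3_ok ho
  rw [Bool.and_eq_true] at hok
  have hf := PS.Rep.fold (φ := fun a => a.phi C.g w) (as := C.as) (os := C.as.map o)
    (by
      rw [List.forall₂_map_right_iff, List.forall₂_same]
      intro a ha
      rw [hod]
      exact (hev a ha 0 (by rw [abs_zero]; positivity)).1)
    (HdL4_ps0 (h.ge.w_ne hA) hS hO)
  rw [← hp] at hf
  obtain ⟨δ, hδ, hG⟩ := HdL4_gam (k := C.k) h.ge hZ h.at' h.gp h.gm hO hf.1 hok.1 hok.2
  have lu : (C.au.map o).length = 2 * C.du.length := by simp [LC.au, atQ_length, LC.bu]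
  have ld : (C.ad.map o).length = 2 * C.dd.length := by simp [LC.ad, atQ_length, LC.bd]
  obtain ⟨u1, u2, u3⟩ := dRec_spec h.oku lu 0
  obtain ⟨v1, v2, v3⟩ := dRec_spec h.okd ld 0
  refine ⟨?_, ?_, ?_⟩
  · rw [(node3_len ..).1]; simpa [LC.ln, LC.bu] using u2
  · rw [(node3_len ..).2]; simpa [LC.ln, LC.bd] using v2
  have hs := HdL4_sum (o := o) (f := fun a η => (a.sx : ℂ) / 2 * a.lg η (C.g.c + w)) h.es_le
    fun a ha η hη => by rw [hod]; exact (hev a ha η hη).2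
  have hz : (List.zipWith (fun (o : AO) (e : ℝ) => o.w.val * e) (C.as.map o) C.es).sum =
      dotG (dRec C.bu (C.au.map o)).ds (devL C.du) + dotG (dRec C.bd (C.ad.map o)).ds (devL C.dd) := by
    rw [LC.as, LC.es, List.map_append, List.zipWith_append (by rw [lu, etas_length]),
      List.sum_append, u1, v1]
    simp [LC.bu, LC.bd]
  have hr : p.r = ((C.as.map o).map AO.r).sum := by rw [hf.2]; simp [ps0]
  have hρ := HdL4_rho (L := C.ln) p.r hS (h.ge.s_ne hA) (lu := C.lu) (ld := C.ld) rfl rfl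
  have hT := (h.T_spec hA).2.1
  have hX : ‖SSum C.as C.es (C.g.c + w) + C.T (C.g.c + w) + δ -
      (dotG (dRec C.bu (C.au.map o)).ds (devL C.du) +
        dotG (dRec C.bd (C.ad.map o)).ds (devL C.dd)) / 2 ^ 41‖ ≤
      (rhoN C.ln S S.nr p.r : ℝ) / 2 ^ 60 := by
    rw [hz, ← hr] at hs
    refine le_trans ?_ hρ
    calc _ = ‖(SSum C.as C.es (C.g.c + w) - (dotG (dRec C.bu (C.au.map o)).ds (devL C.du) +
        dotG (dRec C.bd (C.ad.map o)).ds (devL C.dd)) / 2 ^ 41) + C.T (C.g.c + w) + δ‖ := by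
          congr 1; ring
      _ ≤ _ := norm_add₃_le.trans (add_le_add (add_le_add hs hT) hδ)
  have key := node3_spec ho hX u3 v3
  have hq : Om.val / S.val = w / (((C.g.c : ℝ) : ℂ) + w) := by
    rw [hO, hS, mul_div_mul_left _ _ (by norm_num), ofReal_ratCast]
  have hΓ : C.Gam w = Gam0 C.g C.k C.as w * exp (SSum C.as C.es (C.g.c + w) + C.T (C.g.c + w)) := rfl
  rw [hG, mul_assoc, ← exp_add, add_comm δ] at hΓ
  rw [fI, hΓ, ← hq]
  exact key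

end Pool.Agent.MP_92463a_gt
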