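import Pool.Agent.MP_92463a_gt.HdF0
import Pool.Agent.MP_92463a_gt.HdL5

open Set Complex Filter Metric
open scoped Topology ComplexConjugate ContDiff Manifold

noncomputable section

namespace Pool.Agent.MP_92463a_gt

theorem HdF1_rf (l t : List RC) : rf (l ++ t) = rf t ++ rf l := by
  simp [rf]

theorem HdF1_rng (a r s : ℕ) : List.range' a (r + s) = List.range' a r ++ List.range' (a + r) s :=
  List.range'_append_1.symm

theorem HdF1_gL (n : ℕ) (Bx : ℕ → CB) (x : Fin n × Bool → ℝ) (a r : ℕ) :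
    gL n Bx x (a + r) = gL n Bx x a ++ (List.range' a r).map (gC n Bx x) := by
  simp only [gL, List.range_eq_range', HdF1_rng, List.map_append, zero_add]

theorem Cert.lf {n : ℕ} {Bx : ℕ → CB} {blk : ℕ → Blk} {off : ℕ → ℕ} (h : Cert n Bx blk off)
    {x : Fin n × Bool → ℝ} (hx : x ∈ cube (Fin n × Bool)) {m : ℕ} (hm : m < n) :
    ∃ K : ℝ, 0 < K ∧ ∃ dv : List ℝ,
      List.Forall₂ (fun (v : ℝ) (a : ℕ) => |v| ≤ a / 2 ^ 40) dv (hLs (blk m).cells) ∧
      (∀ b : Bool, dv.getD (2 * (m - off m) + b.toNat) 0 =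
        ((hLs (blk m).cells).getD (2 * (m - off m) + b.toNat) 0 : ℕ) / 2 ^ 40 * gx n x m b) ∧
      ∀ (m' : ℕ) (b : Bool), off m + (blk m).lo ≤ m' → m' < off m + (blk m).lo + (blk m).cnt →
        ∃ F : ℝ, gLF n Bx blk off x m' b F ∧
          |K * F - ((blk m).outs.getD (gi blk off m' b) out0).F -
              dotZ ((blk m).outs.getD (gi blk off m' b) out0).J dv| ≤
            ((blk m).outs.getD (gi blk off m' b) out0).r := by
  obtain ⟨ds, hb, hok, hc, hd⟩ := h.loc hx hm
  obtain ⟨hchk, tb, htb, hlk⟩ := h.ok m hm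
  obtain ⟨hf1, hf2, hf3⟩ := h.fit m hm
  have hlen : (blk m).lo + (blk m).cnt ≤ (blk m).cells.length := by
    simp only [Blk.chk, Bool.and_eq_true, decide_eq_true_eq] at hchk
    exact hchk.1.1.1.1.1
  have hp : (0 : ℝ) < tb.length := Nat.cast_pos.2 htb.1
  refine ⟨tb.length * 2 ^ 81, by positivity, devL ds, hb ▸ devL_le hok, hd, ?_⟩
  intro m' b h1 h2
  obtain ⟨e1, e2⟩ := h.same m hm m' h1 h2
  have hm' : m' < n := by omega
  have hi : gi blk off m' b < 2 * (blk m).cnt := by
    unfold gi; rw [e1, e2]; cases b <;> simp <;> omega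
  have hl := hlk _ hi
  have q1 : (blk m).lo + gi blk off m' b / 2 = m' - off m := by
    unfold gi; rw [e1, e2]; cases b <;> simp <;> omega
  have q2 : decide (gi blk off m' b % 2 = 1) = b := by
    unfold gi; cases b <;> simp
  simp only [Blk.lk, decide_eq_true_eq, q1, q2] at hl
  have hl' := hl
  rw [← hb] at hl'
  obtain ⟨r1, r2, F, hF, hE⟩ := link_sound htb hok (h.tail_low hx hm) (h.tail_up hx hm) hl'
  refine ⟨F, ?_, hE⟩
  unfold gLF gk
  rw [e1, e2]
  generalize (blk m).lks.getD (gi blk off m' b) lk0 = k at r1 hF ⊢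
  refine ⟨by omega, ?_⟩
  have hl0 : ds.length = (blk m).cells.length := by rw [← hb, List.length_map]
  obtain ⟨s, hs⟩ : ∃ s, (blk m).cells.length = k.ref + s := ⟨_, (Nat.add_sub_cancel' (by omega)).symm⟩
  have a1 : (ds.drop k.ref).map DC.cell = (List.range' (off m + k.ref) s).map (gC n Bx x) := by
    rw [List.map_drop, hc, hs, HdF1_rng, List.map_append, List.drop_left' (by simp)]
  have a2 : (ds.take k.ref).map DC.cell = (List.range' (off m) k.ref).map (gC n Bx x) := by
    rw [List.map_take, hc, hs, HdF1_rng, List.map_append, List.take_left' (by simp)]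
  have a3 : zinB (ds.map DC.b) (m' - off m) b = !((Bx m').H && b) := by
    have := h.inn m' hm'
    rw [e1, e2] at this
    rw [zinB, hb, this]
  have a4 : n - (off m + k.ref) = s + (n - (off m + (blk m).cells.length)) := by omega
  have a5 : m' - (off m + k.ref) + 1 = m' - off m - k.ref + 1 := by omega
  rw [a1, a2, a3, ← HdF1_rf, ← HdF1_gL, ← List.map_append] at hF
  rw [a4, a5, HdF1_rng, add_assoc (off m) k.ref s, ← hs]
  exact hF

end Pool.Agent.MP_92463a_gt
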