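import Pool.Agent.MP_92463a_gt.HdP1

open Set Complex Filter Metric
open scoped Topology ComplexConjugate ContDiff Manifold

noncomputable section

namespace Pool.Agent.MP_92463a_gt

theorem HdM2_par (l : List Bool) : Even (nA l + nB l) := by
  induction l with
  | nil => simp [nA, nB]
  | cons H l ih =>
    rw [Nat.even_iff] at ih ⊢
    rw [nA, nB]
    split_ifs <;> omega

theorem HdM2_lsu (l : List Bool) : ∀ i < nA l, ∃ (m : ℕ) (hm : m < l.length) (kd : Bool),
    lsu (l.take m) l[m] kd = i + 1 := by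
  induction l with
  | nil => simp [nA]
  | cons H l ih =>
    intro i hi
    by_cases h0 : i = 0
    · exact ⟨0, Nat.succ_pos _, false, by simp [lsu, nA, h0]⟩
    cases H
    · obtain ⟨m, hm, kd, e⟩ := ih (i - 1) (by simp only [nA, Bool.false_eq_true, if_false] at hi; omega)
      refine ⟨m + 1, Nat.succ_lt_succ hm, kd, ?_⟩
      simp only [lsu, List.take_succ_cons, List.getElem_cons_succ, nA, Bool.false_eq_true,
        if_false] at e ⊢
      split_ifs at e ⊢ <;> omega
    · by_cases h1 : i = 1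
      · exact ⟨0, Nat.succ_pos _, true, by simp [lsu, nA, h1]⟩
      obtain ⟨m, hm, kd, e⟩ := ih (i - 2) (by simp only [nA, if_true] at hi; omega)
      refine ⟨m + 1, Nat.succ_lt_succ hm, kd, ?_⟩
      simp only [lsu, List.take_succ_cons, List.getElem_cons_succ, nA, if_true] at e ⊢
      split_ifs at e ⊢ <;> omega

theorem HdM2_gap (l : List RC) : ∀ g Λ : ℝ, (∀ c ∈ l, c.Ps) → 0 < Λ → Gap g l →
    (∀ b ∈ bL l Λ, 5 * g / Λ < b) ∧ (bL l Λ).Pairwise fun x y => 5 * x < y := by
  induction l with
  | nil => simp [bL]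
  | cons c l ih =>
    intro g Λ hp h0 hg
    have hc := hp c List.mem_cons_self
    have hx := hc.1
    have hy := hc.2
    have h1 := mul_pos h0 hc.lam_pos
    have hl : ∀ d ∈ l, d.Ps := fun d hd => hp d (List.mem_cons_of_mem _ hd)
    rw [Gap] at hg
    rw [bL]
    split_ifs at hg ⊢ with hH
    · have := ih _ _ hl h1 hg
      rwa [show 5 * (g / c.x) / (Λ * c.lam) = 5 * g / Λ by
        rw [RC.lam, if_pos hH]; field_simp] at this
    · obtain ⟨h2, h3⟩ := ih _ _ hl h1 hg.2
      rw [show 5 * c.x / (Λ * c.lam) = 5 * (Λ * c.y)⁻¹ by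
        rw [RC.lam, if_neg hH]; field_simp] at h2
      have h4 : 5 * g / Λ < (Λ * c.y)⁻¹ := by
        rw [div_lt_iff₀ h0, show (Λ * c.y)⁻¹ * Λ = 1 / c.y by field_simp, lt_div_iff₀ hy]
        exact hg.1
      have h5 : 0 < (Λ * c.y)⁻¹ := by positivity
      refine ⟨fun b hb => ?_, List.pairwise_cons.2 ⟨h2, h3⟩⟩
      rcases List.mem_cons.1 hb with rfl | hb
      · exact h4
      · linarith [h2 b hb]

theorem dat_ok {L : List RC} (hne : L ≠ []) (hp : ∀ c ∈ L, c.Ps) (hg : Gap 0 L)
    (hm : ∀ (m : ℕ) (hm : m < L.length) (kd : Bool),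
      ∃ u, (dat L).InA (lsu ((L.take m).map RC.H) L[m].H kd) u) : (dat L).Ok := by
  refine ⟨?_, HdM2_par _, Real.exp_pos _, fun i hi => ?_, fun i j hij hj => ?_, fun j hj => ?_,
    fun i j hij hj => ?_⟩
  · obtain ⟨c, l, rfl⟩ := List.exists_cons_of_ne_nil hne
    change 0 < nA (c.H :: l.map RC.H)
    rw [nA]
    split_ifs <;> omega
  · have hi' : i < (aL L 1).length := by rwa [aL_length]
    change 0 < (aL L 1).getD i 1
    rw [List.getD_eq_getElem _ _ hi']
    exact aL_pos hp one_pos _ (List.getElem_mem hi')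
  · obtain ⟨m, hm', kd, e⟩ := HdM2_lsu (L.map RC.H) i (hij.trans hj)
    obtain ⟨u, -, h1, h2⟩ := hm m (by simpa using hm') kd
    rw [List.map_take, ← List.getElem_map RC.H (h := hm'), e] at h1 h2
    exact (h1 i (Nat.lt_succ_self i)).trans (h2 j hij hj)
  · have hj' : j < (bL L 1).length := by rwa [bL_length]
    change 0 < (bL L 1).getD j 1
    rw [List.getD_eq_getElem _ _ hj']
    exact bL_pos hp one_pos _ (List.getElem_mem hj')
  · have hj' : j < (bL L 1).length := by rwa [bL_length]
    change 5 * (bL L 1).getD i 1 < (bL L 1).getD j 1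
    rw [List.getD_eq_getElem _ _ hj', List.getD_eq_getElem _ _ (hij.trans hj')]
    exact List.pairwise_iff_getElem.1 (HdM2_gap L 0 1 hp one_pos hg).2 i j _ _ hij

theorem link_val {Hs : List Bool} {m : ℕ} (hm : m < Hs.length) (kd : Bool) :
    Sg.Val (nA Hs) (nB Hs) (false, lsu (Hs.take m) Hs[m] kd) ∧
      Sg.Val (nA Hs) (nB Hs) (lsv (Hs.take m) Hs[m] kd) ∧
      (lsv (Hs.take m) Hs[m] kd).ty = Sg.ty (false, lsu (Hs.take m) Hs[m] kd) := by
  have hA := congrArg nA (List.take_append_drop m Hs)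
  have hB := congrArg nB (List.take_append_drop m Hs)
  rw [List.drop_eq_getElem_cons hm] at hA hB
  rw [nA_append, nA] at hA
  rw [nB_append, nB] at hB
  have hp := HdM2_par (Hs.take m)
  generalize Hs[m] = H at hA hB ⊢
  cases H <;> cases kd <;>
    simp only [Sg.Val, Sg.ty, lsu, lsv, Bool.false_eq_true, if_false, if_true, decide_eq_decide,
      Nat.even_iff, Nat.odd_iff] at hA hB hp ⊢ <;> omega

theorem link_chain {Hs : List Bool} (α : Sg → ℝ)
    (h : ∀ (m : ℕ) (hm : m < Hs.length) (kd : Bool),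
      α (false, lsu (Hs.take m) Hs[m] kd) = α (lsv (Hs.take m) Hs[m] kd)) :
    ∀ s s' : Sg, s.Val (nA Hs) (nB Hs) → s'.Val (nA Hs) (nB Hs) → s.ty = s'.ty → α s = α s' := by
  have key : ∀ m ≤ Hs.length, ∀ s : Sg, s.Val (nA (Hs.take m)) (nB (Hs.take m)) →
      α s = if s.ty then α (false, 0) else α (true, 0) := by
    intro m
    induction m with
    | zero =>
      rintro - ⟨_ | _, k⟩ hk
      · obtain rfl : k = 0 := by simpa [Sg.Val, nA] using hk
        simp [Sg.ty]
      · obtain rfl : k = 0 := by simpa [Sg.Val, nB] using hk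
        simp [Sg.ty]
    | succ m ih =>
      intro hm s hs
      have ih' := ih (by omega)
      have h0 := h m hm false
      have h1 := h m hm true
      have t0 := (link_val (Hs := Hs) hm false).2.2
      have t1 := (link_val (Hs := Hs) hm true).2.2
      rw [List.take_succ_eq_append_getElem hm, nA_append, nB_append] at hs
      have iA := ih' (false, nA (Hs.take m)) (by simp [Sg.Val])
      have iB := ih' (true, nB (Hs.take m)) (by simp [Sg.Val])
      by_cases hv : s.Val (nA (Hs.take m)) (nB (Hs.take m))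
      · exact ih' s hv
      generalize Hs[m] = H at hs h0 h1 t0 t1
      obtain ⟨_ | _, k⟩ := s <;> cases H <;>
        simp only [Sg.Val, lsu, lsv, nA, nB, Bool.false_eq_true, if_false, if_true] at hs hv h0 h1 t0 t1
      · obtain rfl : k = nA (Hs.take m) + 1 := by omega
        rw [h0, ← t0, iB]
      · obtain rfl | rfl : k = nA (Hs.take m) + 1 ∨ k = nA (Hs.take m) + 2 := by omega
        · rw [h0, ← t0, iB]
        · rw [h1, ← t1, iA]
      · obtain rfl : k = nB (Hs.take m) + 1 := by omega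
        rw [← h1, t1, iA]
      · omega
  intro s s' hs hs' e
  have k := key Hs.length le_rfl
  rw [List.take_length] at k
  rw [k s hs, k s' hs', e]

end Pool.Agent.MP_92463a_gt
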