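import Pool.Agent.MP_92463a_gt.HdM1
import Pool.Agent.MP_92463a_gt.HdM2
import Pool.Agent.MP_92463a_gt.HdA2

open Set Complex Filter Metric
open scoped Topology ComplexConjugate ContDiff Manifold

noncomputable section

namespace Pool.Agent.MP_92463a_gt

theorem LF.lk {pre mid post : List RC} {c0 : RC} (hp : ∀ c ∈ pre ++ (mid ++ c0 :: post), c.Ps)
    (hD : (dat (pre ++ (mid ++ c0 :: post))).Ok) {kd : Bool} {c R F : ℝ}
    (h : LF (mid ++ c0 :: post) (rf pre) (!(c0.H && kd)) kd (mid.length + 1) c R F) :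
    Lk (dat (pre ++ (mid ++ c0 :: post))).F1 (dat (pre ++ (mid ++ c0 :: post))).F2
        (Sg.ty (false, lsu ((pre ++ mid).map RC.H) c0.H kd)) ((c + R) / lamP pre)
        ((c - R) / lamP pre) =
      sg (lsu ((pre ++ mid).map RC.H) c0.H kd) * Real.pi * F := by
  have hpre : ∀ c ∈ pre, c.Ps := fun c hc => hp c (List.mem_append_left _ hc)
  have hl := lamP_pos hpre
  obtain ⟨m1, m2⟩ := h.mem hp
  obtain ⟨Γ, hc, h4, h1, h2, rfl⟩ := h.ex
  rw [div_eq_inv_mul] at m1 m2
  rw [div_eq_inv_mul, div_eq_inv_mul]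
  refine lk_eq hD ?_ (inv_pos.2 hl) h.R_pos m1 m2 hc (decide (Even (nB (pre.map RC.H))))
    (fun w hw => ⟨(h4 w hw).1, ?_⟩) h1 h2
  · change _ ≤ nA ((pre ++ (mid ++ c0 :: post)).map RC.H)
    rw [← List.append_assoc, List.map_append (l₂ := c0 :: post), nA_append, List.map_cons, nA, lsu]
    split_ifs <;> omega
  · have hP : (dat (pre ++ (mid ++ c0 :: post))).P ((((lamP pre)⁻¹ : ℝ) : ℂ) * (c + w)) ≠ 0 := by
      by_cases hw0 : w.im = 0
      · obtain ⟨x, rfl⟩ : ∃ x : ℝ, w = x := ⟨w.re, Complex.ext rfl (by simpa using hw0)⟩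
        have hx : |x| = R := by simpa using hw
        rcases (abs_eq h.R_pos.le).1 hx with rfl | rfl
        · have := hD.inS_ne (s := (false, _)) m1
          rwa [ofReal_mul, ofReal_add] at this
        · have := hD.inS_ne m2
          rwa [ofReal_mul, sub_eq_add_neg, ofReal_add] at this
      · refine Dat.ne_of_im ?_
        rw [im_ofReal_mul]
        exact mul_ne_zero (inv_pos.2 hl).ne' (by simpa using hw0)
    have ht : (((lamP pre)⁻¹ : ℝ) : ℂ) * (c + w) ≠ 0 := fun h0 =>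
      hP (by rw [h0, Dat.P, zero_mul, zero_mul])
    rw [(h4 w hw).2, dat_sq hp hP, ← ZZ_split hpre _ ht, ← mul_assoc, ← ofReal_mul,
      mul_inv_cancel₀ hl.ne', ofReal_one, one_mul]

end Pool.Agent.MP_92463a_gt
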