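import Pool.Agent.MP_92463a_gt.HdF1
import Pool.Agent.MP_92463a_gt.HdM4

open Set Complex Filter Metric
open scoped Topology ComplexConjugate ContDiff Manifold

noncomputable section

namespace Pool.Agent.MP_92463a_gt

/-- the chain cut at the reference cell `r` and at the cell `m` -/
theorem HdF2_cut {n : ℕ} (Bx : ℕ → CB) (x : Fin n × Bool → ℝ) {r m : ℕ} (hr : r ≤ m) (hm : m < n) :
    ∃ mid post : List RC, gL n Bx x n = gL n Bx x r ++ (mid ++ gC n Bx x m :: post) ∧
      (List.range' r (n - r)).map (gC n Bx x) = mid ++ gC n Bx x m :: post ∧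
      m - r = mid.length ∧ gH Bx m = (gL n Bx x r ++ mid).map RC.H := by
  obtain ⟨s, rfl⟩ := Nat.exists_eq_add_of_le hr
  obtain ⟨t, ht⟩ := Nat.exists_eq_add_of_lt hm
  have e : (List.range' r (n - r)).map (gC n Bx x) = (List.range' r s).map (gC n Bx x) ++
      gC n Bx x (r + s) :: (List.range' (r + s + 1) t).map (gC n Bx x) := by
    rw [show n - r = s + (t + 1) by omega, HdF1_rng, List.map_append, List.range'_succ, List.map_cons]
  refine ⟨_, _, ?_, e, by simp, by rw [← HdF1_gL, gL_H]⟩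
  rw [← e, ← HdF1_gL, Nat.add_sub_cancel' (by omega)]

namespace Cert

variable {n : ℕ} {Bx : ℕ → CB} {blk : ℕ → Blk} {off : ℕ → ℕ} (h : Cert n Bx blk off)
  {x : Fin n × Bool → ℝ} (hx : x ∈ cube (Fin n × Bool))
include h hx

theorem HdF2_ps {r : ℕ} (hr : r ≤ n) : ∀ c ∈ gL n Bx x r, c.Ps := by
  intro c hc
  obtain ⟨i, hi, rfl⟩ := List.mem_map.1 hc
  exact h.ps hx (lt_of_lt_of_le (List.mem_range.1 hi) hr)

theorem HdF2_lf {m : ℕ} (hm : m < n) (b : Bool) : ∃ F, gLF n Bx blk off x m b F := by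
  obtain ⟨K, -, dv, -, -, H⟩ := h.lf hx hm
  obtain ⟨F, hF, -⟩ := H m b (h.fit m hm).1 (h.fit m hm).2.1
  exact ⟨F, hF⟩

theorem mem {m : ℕ} (hm : m < n) (b : Bool) :
    (dat (gL n Bx x n)).InA (gsu Bx m b) (gu n Bx blk off x m b) ∧
      (dat (gL n Bx x n)).InS (gsv Bx m b) (gv n Bx blk off x m b) ∧
      gv n Bx blk off x m b < gu n Bx blk off x m b := by
  obtain ⟨F, hr, hF⟩ := h.HdF2_lf hx hm b
  obtain ⟨mid, post, e1, e2, e3, e4⟩ := HdF2_cut Bx x hr hm
  have hp := h.HdF2_ps hx le_rfl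
  have hl := lamP_pos (h.HdF2_ps hx (hr.trans hm.le))
  have hR := hF.R_pos
  rw [e2, e3] at hF
  rw [e1] at hp
  have H := LF.mem hp hF
  rw [← e1, ← e4] at H
  exact ⟨H.1, H.2, div_lt_div_of_pos_right (by linarith) hl⟩

theorem dat_ok : (dat (gL n Bx x n)).Ok := by
  refine Pool.Agent.MP_92463a_gt.dat_ok ?_ (h.HdF2_ps hx le_rfl) (h.gap hx) fun m hm kd => ?_
  · have := h.n_pos
    simp only [gL, ne_eq, List.map_eq_nil_iff, List.range_eq_nil]
    omega
  · have hm' : m < n := by simpa [gL] using hm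
    have e1 : (gL n Bx x n).take m = gL n Bx x m := by
      simp only [gL, ← List.map_take, List.take_range, min_eq_left hm'.le]
    have e2 : (gL n Bx x n)[m].H = (Bx m).H := by
      simp only [gL, List.getElem_map, List.getElem_range]
      rfl
    rw [e1, e2, gL_H]
    exact ⟨_, (h.mem hx hm' kd).1⟩

theorem lk {m : ℕ} (hm : m < n) {b : Bool} {F : ℝ} (hF : gLF n Bx blk off x m b F) :
    gLk n Bx blk off x m b = sg (gsu Bx m b) * Real.pi * F := by
  obtain ⟨hr, hF⟩ := hF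
  obtain ⟨mid, post, e1, e2, e3, e4⟩ := HdF2_cut Bx x hr hm
  have hp := h.HdF2_ps hx le_rfl
  have hD := h.dat_ok hx
  rw [e2, e3] at hF
  rw [e1] at hp hD
  have H := LF.lk hp hD hF
  rw [← e1, ← e4] at H
  exact H

theorem ref_le {m : ℕ} (hm : m < n) (b : Bool) : off m + (gk blk off m b).ref ≤ m :=
  (h.HdF2_lf hx hm b).choose_spec.1

end Cert

end Pool.Agent.MP_92463a_gt
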