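import Pool.Agent.MP_92463a_gt.Hd2

open Set Complex Filter Metric
open scoped Topology ComplexConjugate ContDiff Manifold

noncomputable section

namespace Pool.Agent.MP_92463a_gt

theorem Cert.rng {n : ℕ} {Bx : ℕ → CB} {blk : ℕ → Blk} {off : ℕ → ℕ} (h : Cert n Bx blk off)
    {m : ℕ} (hm : m < n) : off m + (blk m).lo + (blk m).cnt ≤ n ∧
      (∀ b, gi blk off m b < 2 * (blk m).cnt) ∧ ∀ t < 2 * (blk m).cnt,
        gi blk off (off m + (blk m).lo + t / 2) (decide (t % 2 = 1)) = t := by
  obtain ⟨f1, f2, f3⟩ := h.fit m hm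
  have hc : (blk m).lo + (blk m).cnt ≤ (blk m).cells.length := by
    have := (h.ok m hm).1
    simp only [Blk.chk, Bool.and_eq_true, decide_eq_true_eq] at this
    exact this.1.1.1.1.1
  refine ⟨by omega, fun b => ?_, fun t ht => ?_⟩
  · have := b.toNat_le
    unfold gi
    omega
  · obtain ⟨e1, e2⟩ := h.same m hm (off m + (blk m).lo + t / 2) (by omega) (by omega)
    rw [gi, e1, e2]
    by_cases h2 : t % 2 = 1
    · rw [decide_eq_true h2, Bool.toNat_true]
      omega
    · rw [decide_eq_false h2, Bool.toNat_false]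
      omega

/-- sums over a block -/
theorem Cert.sum_blk {n : ℕ} {Bx : ℕ → CB} {blk : ℕ → Blk} {off : ℕ → ℕ} (h : Cert n Bx blk off)
    (i : Fin n × Bool) (φ : ℕ → Bool → ℝ) :
    ∑ j : Fin n × Bool, gA n Bx blk off i j * φ j.1 j.2 =
      ∑ t ∈ Finset.range (2 * (blk i.1).cnt),
        ((((blk i.1).A.getD (gi blk off i.1 i.2) []).getD t 0 : ℤ) : ℝ) *
          (sg (gsu Bx (off i.1 + (blk i.1).lo + t / 2) (decide (t % 2 = 1))) *
            φ (off i.1 + (blk i.1).lo + t / 2) (decide (t % 2 = 1))) := by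
  obtain ⟨r1, -, r3⟩ := h.rng i.1.2
  have hs := h.same i.1 i.1.2
  obtain ⟨f1, f2, -⟩ := h.fit i.1 i.1.2
  symm
  refine Finset.sum_bij_ne_zero (fun t ht _ => (⟨off i.1 + (blk i.1).lo + t / 2, by
      have := Finset.mem_range.1 ht
      omega⟩, decide (t % 2 = 1))) (fun _ _ _ => Finset.mem_univ _) ?_ ?_ ?_
  · intro t ht _ t' ht' _ e
    have e1 : off i.1 + (blk i.1).lo + t / 2 = off i.1 + (blk i.1).lo + t' / 2 :=
      congrArg (fun z : Fin n × Bool => (z.1 : ℕ)) e
    have e2 : decide (t % 2 = 1) = decide (t' % 2 = 1) := congrArg Prod.snd e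
    rw [decide_eq_decide] at e2
    omega
  · rintro ⟨j, b⟩ - hne
    have hb : off i.1 + (blk i.1).lo = off j + (blk j).lo := by
      by_contra hb
      exact hne (by rw [gA, if_neg hb, zero_mul])
    obtain ⟨g1, g2, -⟩ := h.fit j j.2
    have a1 := hs (off i.1 + (blk i.1).lo) le_rfl (by omega)
    have a2 := h.same j j.2 (off i.1 + (blk i.1).lo) (by omega) (by omega)
    have e1 : blk j = blk i.1 := a2.1.symm.trans a1.1
    have e2 : off j = off i.1 := a2.2.symm.trans a1.2
    have hb2 := b.toNat_le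
    have k1 : off i.1 + (blk i.1).lo + gi blk off j b / 2 = j := by
      rw [gi, e1, e2]
      rw [e1, e2] at g1
      omega
    have k2 : decide (gi blk off j b % 2 = 1) = b := by
      unfold gi
      cases b
      · exact decide_eq_false (by rw [Bool.toNat_false]; omega)
      · exact decide_eq_true (by rw [Bool.toNat_true]; omega)
    refine ⟨gi blk off j b, Finset.mem_range.2 (e1 ▸ (h.rng j.2).2.1 b), ?_,
      Prod.ext (Fin.ext k1) k2⟩
    rw [k1, k2, ← mul_assoc]
    rwa [gA, if_pos hb] at hne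
  · intro t ht _
    have ht' := Finset.mem_range.1 ht
    obtain ⟨e1, e2⟩ := hs (off i.1 + (blk i.1).lo + t / 2) (by omega) (by omega)
    rw [gA, if_pos (by rw [e1, e2]), r3 t ht', mul_assoc]

end Pool.Agent.MP_92463a_gt
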