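import Pool.Agent.MP_92463a_gt.HdK1

open Set Complex Filter Metric
open scoped Topology ComplexConjugate ContDiff Manifold

noncomputable section

namespace Pool.Agent.MP_92463a_gt

theorem HdK2_zip (a : ℤ) : ∀ (x y : List ℤ), x.length = y.length → ∀ t,
    (List.zipWith (fun x y => a * x + y) x y).getD t 0 = a * x.getD t 0 + y.getD t 0
  | [], [], _, _ => by simp
  | _ :: _, _ :: _, _, 0 => rfl
  | _ :: x, _ :: y, h, t + 1 => HdK2_zip a x y (Nat.succ.inj h) t

theorem HdK2_comb (n : ℕ) : ∀ (l : List ℤ) (m : List Out), l.length = m.length →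
    (∀ o ∈ m, o.J.length = n) → (comb n l m).J.length = n ∧ ∀ t, (comb n l m).J.getD t 0 =
      ∑ j ∈ Finset.range m.length, l.getD j 0 * (m.getD j out0).J.getD t 0
  | [], [], _, _ => ⟨by simp [comb], fun t => by
      simp only [comb, List.getD_eq_getElem?_getD, List.getElem?_replicate]
      split_ifs <;> simp⟩
  | a :: l, o :: m, h, h' => by
    obtain ⟨h1, h2⟩ := HdK2_comb n l m (Nat.succ.inj h) fun o ho => h' o (List.mem_cons_of_mem _ ho)
    have h3 := h' o List.mem_cons_self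
    refine ⟨by simp [comb, h1, h3], fun t => ?_⟩
    rw [comb, HdK2_zip a _ _ (h3.trans h1.symm), h2, List.length_cons, Finset.sum_range_succ',
      add_comm]
    rfl

theorem HdK2_sum : ∀ (J : List ℤ) (hs : List ℕ) (K : ℕ),
    ∑ t ∈ Finset.range K, (J.getD t 0).natAbs * hs.getD t 0 ≤
      (List.zipWith (fun x h => x.natAbs * h) J hs).sum
  | [], _, _ => by simp
  | _ :: _, [], _ => by simp
  | _ :: _, _ :: _, 0 => by simp
  | x :: J, a :: hs, K + 1 => by
    rw [Finset.sum_range_succ', List.zipWith_cons_cons, List.sum_cons, add_comm]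
    exact Nat.add_le_add_left (HdK2_sum J hs K) _

theorem HdK2_row {hs : List ℕ} {a N : ℕ} {o : Out} (i : Fin N) (h : rowOk hs (a + i) o = true) :
    ∑ t ∈ Finset.univ.erase i, ‖((o.J.getD (a + t) 0 : ℤ) : ℝ) * (hs.getD (a + t) 0 : ℕ)‖ <
      ‖((o.J.getD (a + i) 0 : ℤ) : ℝ) * (hs.getD (a + i) 0 : ℕ)‖ := by
  have h1 := of_decide_eq_true h
  have h2 := HdK2_sum o.J hs (a + N)
  rw [Finset.sum_range_add, Finset.sum_range (n := N),
    ← Finset.add_sum_erase _ _ (Finset.mem_univ i)] at h2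
  have h3 := Int.le_natAbs (a := o.J.getD (a + i) 0)
  have e : ∀ (x : ℤ) (y : ℕ), ‖(x : ℝ) * y‖ = ((x.natAbs * y : ℕ) : ℝ) := fun x y => by
    simp [Nat.cast_natAbs]
  simp only [e]
  rw [← Nat.cast_sum, Nat.cast_lt]
  have h4 := mul_le_mul_of_nonneg_right h3 (Int.natCast_nonneg (hs.getD (a + i) 0))
  rw [mul_assoc] at h1
  rw [← Nat.cast_mul] at h4
  omega

theorem Blk.inj {B : Blk} (h : B.chk = true) {w : ℕ → ℝ}
    (hw : ∀ i < 2 * B.cnt,
      ∑ j ∈ Finset.range (2 * B.cnt), (((B.A.getD i []).getD j 0 : ℤ) : ℝ) * w j = 0) :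
    ∀ j < 2 * B.cnt, w j = 0 := by
  simp only [Blk.chk, Bool.and_eq_true, decide_eq_true_eq, List.all_eq_true, List.mem_range] at h
  obtain ⟨⟨⟨⟨⟨-, h1, h2⟩, -⟩, h3⟩, h4⟩, h5⟩ := h
  let A : Matrix (Fin (2 * B.cnt)) (Fin (2 * B.cnt)) ℝ :=
    Matrix.of fun i j => (((B.A.getD i []).getD j 0 : ℤ) : ℝ)
  let J : Matrix (Fin (2 * B.cnt)) (Fin (2 * B.cnt)) ℝ := Matrix.of fun j t =>
    (((B.outs.getD j out0).J.getD (2 * B.lo + t) 0 : ℤ) : ℝ) *
      ((hLs B.cells).getD (2 * B.lo + t) 0 : ℕ)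
  have h6 : (A * J).det ≠ 0 := det_ne_zero_of_sum_row_lt_diag fun i => by
    have h7 : (B.A.getD i []).length = B.outs.length := by
      rw [h1, List.getD_eq_getElem _ _ (i.2.trans_eq h2.symm)]
      exact h4 _ (List.getElem_mem _)
    have e : ∀ t, (A * J) i t =
        (((comb (2 * B.cells.length) (B.A.getD i []) B.outs).J.getD (2 * B.lo + t) 0 : ℤ) : ℝ) *
          ((hLs B.cells).getD (2 * B.lo + t) 0 : ℕ) := fun t => by
      rw [(HdK2_comb _ _ _ h7 h3).2, h1, Finset.sum_range, Matrix.mul_apply]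
      simp only [A, J, Matrix.of_apply, Int.cast_sum, Int.cast_mul, Finset.sum_mul, mul_assoc]
    simp only [e]
    exact HdK2_row i (h5 i i.2)
  rw [Matrix.det_mul] at h6
  have h8 : A.mulVec (fun j => w j) = 0 := funext fun i =>
    (Finset.sum_range fun j => (((B.A.getD i []).getD j 0 : ℤ) : ℝ) * w j).symm.trans (hw i i.2)
  exact fun j hj => congrFun (Matrix.eq_zero_of_mulVec_eq_zero (left_ne_zero_of_mul h6) h8) ⟨j, hj⟩

end Pool.Agent.MP_92463a_gt
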