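import Pool.Agent.MP_92463a_gt.HdF2
import Pool.Agent.MP_92463a_gt.HdF3
import Pool.Agent.MP_92463a_gt.HdK2

open Set Complex Filter Metric
open scoped Topology ComplexConjugate ContDiff Manifold

noncomputable section

namespace Pool.Agent.MP_92463a_gt

theorem HdF4_sq (j : ℕ) : sg j * sg j = 1 := by
  rw [sg, ← mul_pow]
  norm_num

theorem HdF4_gx {n : ℕ} (x : Fin n × Bool → ℝ) (i : Fin n × Bool) : gx n x i.1 i.2 = x i :=
  dif_pos i.1.2

namespace Cert

variable {n : ℕ} {Bx : ℕ → CB} {blk : ℕ → Blk} {off : ℕ → ℕ} (h : Cert n Bx blk off)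
include h

theorem face {x : Fin n × Bool → ℝ} (hx : x ∈ cube (Fin n × Bool)) (i : Fin n × Bool) :
    (x i = 1 → 0 < ∑ j : Fin n × Bool, gA n Bx blk off i j * gLk n Bx blk off x j.1 j.2) ∧
      (x i = -1 → ∑ j : Fin n × Bool, gA n Bx blk off i j * gLk n Bx blk off x j.1 j.2 < 0) := by
  obtain ⟨K, hK, dv, hdv, hget, hF⟩ := h.lf hx i.1.2
  obtain ⟨r1, r2, r3⟩ := h.rng i.1.2
  obtain ⟨f1, f2, -⟩ := h.fit i.1 i.1.2
  have e : ∀ t, ∃ F : ℝ, t < 2 * (blk i.1).cnt →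
      gLF n Bx blk off x (off i.1 + (blk i.1).lo + t / 2) (decide (t % 2 = 1)) F ∧
        |K * F - ((blk i.1).outs.getD t out0).F - dotZ ((blk i.1).outs.getD t out0).J dv| ≤
          ((blk i.1).outs.getD t out0).r := fun t => by
    by_cases ht : t < 2 * (blk i.1).cnt
    · obtain ⟨F, h1, h2⟩ := hF (off i.1 + (blk i.1).lo + t / 2) (decide (t % 2 = 1)) (by omega)
        (by omega)
      rw [r3 t ht] at h2
      exact ⟨F, fun _ => ⟨h1, h2⟩⟩
    · exact ⟨0, fun h => absurd h ht⟩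
  choose F hF' using e
  have hs := Blk.sound (h.ok i.1 i.1.2).1 hdv (F := fun t => K * F t) (fun t ht => (hF' t ht).2)
    (r2 i.2)
  have hi : 2 * (blk i.1).lo + gi blk off i.1 i.2 = 2 * (i.1 - off i.1) + i.2.toNat := by
    unfold gi
    omega
  rw [hi, hget i.2, HdF4_gx] at hs
  have e2 : ∑ j : Fin n × Bool, gA n Bx blk off i j * gLk n Bx blk off x j.1 j.2 =
      Real.pi / K * ∑ t ∈ Finset.range (2 * (blk i.1).cnt),
        ((((blk i.1).A.getD (gi blk off i.1 i.2) []).getD t 0 : ℤ) : ℝ) * (K * F t) := by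
    rw [h.sum_blk i (gLk n Bx blk off x), Finset.mul_sum]
    refine Finset.sum_congr rfl fun t ht => ?_
    have ht' := Finset.mem_range.1 ht
    rw [h.lk hx (by omega) (hF' t ht').1, mul_assoc (sg _), ← mul_assoc (sg _), HdF4_sq]
    field_simp
  have hp : 0 < Real.pi / K := div_pos Real.pi_pos hK
  rw [e2]
  exact ⟨fun h1 => mul_pos hp (hs.1 (by rw [h1, mul_one])),
    fun h1 => mul_neg_of_pos_of_neg hp (hs.2 (by rw [h1, mul_neg_one]))⟩

theorem inj {w : Fin n × Bool → ℝ} (hw : ∀ i, ∑ j, gA n Bx blk off i j * w j = 0) : w = 0 := by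
  funext i
  obtain ⟨r1, r2, r3⟩ := h.rng i.1.2
  obtain ⟨f1, f2, -⟩ := h.fit i.1 i.1.2
  have key := Blk.inj (h.ok i.1 i.1.2).1 (w := fun t =>
    sg (gsu Bx (off i.1 + (blk i.1).lo + t / 2) (decide (t % 2 = 1))) *
      gx n w (off i.1 + (blk i.1).lo + t / 2) (decide (t % 2 = 1))) (fun s hs => by
    have h1 := h.sum_blk (⟨off i.1 + (blk i.1).lo + s / 2, by omega⟩, decide (s % 2 = 1)) (gx n w)
    obtain ⟨e1, e2⟩ := h.same i.1 i.1.2 (off i.1 + (blk i.1).lo + s / 2) (by omega) (by omega)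
    simp only [HdF4_gx, hw] at h1
    rw [r3 s hs, e1, e2] at h1
    exact h1.symm) _ (r2 i.2)
  have e1 : off i.1 + (blk i.1).lo + gi blk off i.1 i.2 / 2 = i.1 := by
    have := i.2.toNat_le
    unfold gi
    omega
  have e2 : decide (gi blk off i.1 i.2 % 2 = 1) = i.2 := by
    unfold gi
    cases i.2 <;> simp
  rw [e1, e2, HdF4_gx] at key
  refine (mul_eq_zero.1 key).resolve_left fun h0 => ?_
  have := HdF4_sq (gsu Bx i.1 i.2)
  rw [h0, mul_zero] at this
  exact zero_ne_one this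

end Cert

end Pool.Agent.MP_92463a_gt
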