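import Pool.Agent.MP_92463a_gt.HdP1

open Set Complex Filter Metric
open scoped Topology ComplexConjugate ContDiff Manifold

noncomputable section

namespace Pool.Agent.MP_92463a_gt

theorem HdM3_getD {l : List ℝ} (h : ∀ a ∈ l, 0 < a) (i : ℕ) : 0 < l.getD i 1 := by
  rw [List.getD_eq_getElem?_getD]
  rcases hi : l[i]? with _ | a
  · exact one_pos
  · exact h a (List.mem_of_getElem? hi)

theorem HdM3_cell {X : Type} [TopologicalSpace X] {S : Set X} {c : X → RC} {H : Bool}
    (hH : ∀ x, (c x).H = H) (hx : ContinuousOn (fun x => (c x).x) S)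
    (hy : ContinuousOn (fun x => (c x).y) S) (hp : ∀ x ∈ S, (c x).Ps) :
    ContinuousOn (fun x => (c x).a1) S ∧ ContinuousOn (fun x => (c x).a2) S ∧
      ContinuousOn (fun x => (c x).lam) S ∧ ∀ x ∈ S, (c x).a1 ≠ 0 ∧ (c x).a2 ≠ 0 := by
  have h1 : ∀ x ∈ S, (c x).x ≠ 0 := fun x h => (hp x h).1.ne'
  have h2 : ∀ x ∈ S, (c x).y ≠ 0 := fun x h => (hp x h).2.ne'
  simp only [RC.a1, RC.a2, RC.lam, hH]
  cases H
  · simp only [Bool.false_eq_true, if_false]
    exact ⟨hy.neg, (hy.pow 2).div hx h1, hx.mul hy, fun x h =>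
      ⟨neg_ne_zero.2 (h2 x h), div_ne_zero (pow_ne_zero 2 (h2 x h)) (h1 x h)⟩⟩
  · simp only [if_true]
    exact ⟨hy.inv₀ h2, (hx.mul hy).inv₀ fun x h => mul_ne_zero (h1 x h) (h2 x h), hx.inv₀ h1,
      fun x h => ⟨inv_ne_zero (h2 x h), inv_ne_zero (mul_ne_zero (h1 x h) (h2 x h))⟩⟩

section
variable {X : Type} [TopologicalSpace X] {S : Set X} {C : X → ℕ → RC} {H : ℕ → Bool}
  (hH : ∀ x i, (C x i).H = H i) (l : List ℕ)
  (hx : ∀ i ∈ l, ContinuousOn (fun x => (C x i).x) S) (hy : ∀ i ∈ l, ContinuousOn (fun x => (C x i).y) S)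
  (hp : ∀ x ∈ S, ∀ i ∈ l, (C x i).Ps)
include hH hx hy hp

theorem HdM3_ab (Λ : X → ℝ) (hΛ : ContinuousOn Λ S) (h0 : ∀ x ∈ S, 0 < Λ x) (i : ℕ) :
    ContinuousOn (fun x => (aL (l.map (C x)) (Λ x)).getD i 1) S ∧
      ContinuousOn (fun x => (bL (l.map (C x)) (Λ x)).getD i 1) S := by
  induction l generalizing Λ i with
  | nil => exact ⟨continuousOn_const, continuousOn_const⟩
  | cons j l ih =>
    have hj : ∀ x ∈ S, (C x j).Ps := fun x h => hp x h j List.mem_cons_self
    obtain ⟨c1, c2, c3, c4⟩ := HdM3_cell (c := fun x => C x j) (fun x => hH x j)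
      (hx j List.mem_cons_self) (hy j List.mem_cons_self) hj
    have ih' := ih (fun i h => hx i (List.mem_cons_of_mem _ h))
      (fun i h => hy i (List.mem_cons_of_mem _ h))
      (fun x h i h' => hp x h i (List.mem_cons_of_mem _ h')) (fun x => Λ x * (C x j).lam)
      (hΛ.mul c3) fun x h => mul_pos (h0 x h) (hj x h).lam_pos
    have d1 := (hΛ.mul c1).inv₀ fun x h => mul_ne_zero (h0 x h).ne' (c4 x h).1
    have d2 := (hΛ.mul c2).inv₀ fun x h => mul_ne_zero (h0 x h).ne' (c4 x h).2
    have d3 := (hΛ.mul (hy j List.mem_cons_self)).inv₀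
      fun x h => mul_ne_zero (h0 x h).ne' (hj x h).2.ne'
    simp only [List.map_cons, aL, bL, hH]
    cases H j
    · simp only [Bool.false_eq_true, if_false]
      rcases i with _ | i
      · exact ⟨d2, d3⟩
      · exact ih' i
    · simp only [if_true]
      refine ⟨?_, (ih' i).2⟩
      rcases i with _ | _ | i
      · exact d2
      · exact d1
      · exact (ih' i).1

theorem cont_lamP : ContinuousOn (fun x => lamP (l.map (C x))) S := by
  induction l with
  | nil => exact continuousOn_const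
  | cons j l ih =>
    simp only [List.map_cons, lamP_cons]
    exact (HdM3_cell (c := fun x => C x j) (fun x => hH x j) (hx j List.mem_cons_self)
      (hy j List.mem_cons_self) fun x h => hp x h j List.mem_cons_self).2.2.1.mul
      (ih (fun i h => hx i (List.mem_cons_of_mem _ h)) (fun i h => hy i (List.mem_cons_of_mem _ h))
        fun x h i h' => hp x h i (List.mem_cons_of_mem _ h'))

theorem cont_a (i : ℕ) : ContinuousOn (fun x => (dat (l.map (C x))).a i) S :=
  (HdM3_ab hH l hx hy hp (fun _ => 1) continuousOn_const (fun _ _ => one_pos) i).1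

theorem cont_b (i : ℕ) : ContinuousOn (fun x => (dat (l.map (C x))).b i) S :=
  (HdM3_ab hH l hx hy hp (fun _ => 1) continuousOn_const (fun _ _ => one_pos) i).2

theorem cont_rho : ContinuousOn (fun x => (dat (l.map (C x))).ρ) S := by
  have e : ∀ x, (l.map (C x)).map RC.H = l.map H := fun x => by
    rw [List.map_map]
    exact List.map_congr_left fun i _ => hH x i
  have hP : ∀ x ∈ S, ∀ c ∈ l.map (C x), c.Ps := fun x h c hc => by
    obtain ⟨i, hi, rfl⟩ := List.mem_map.1 hc
    exact hp x h i hi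
  simp only [dat, e]
  refine Real.continuous_exp.comp_continuousOn (ContinuousOn.sub ?_ ?_)
  · exact continuousOn_finsetSum _ fun i _ => (continuousOn_const.mul ((cont_a hH l hx hy hp i).log
      fun x h => (HdM3_getD (aL_pos (hP x h) one_pos) i).ne')).div_const 2
  · exact continuousOn_finsetSum _ fun i _ => (continuousOn_const.mul ((cont_b hH l hx hy hp i).log
      fun x h => (HdM3_getD (bL_pos (hP x h) one_pos) i).ne')).div_const 2

end

end Pool.Agent.MP_92463a_gt
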