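import Pool.Agent.MP_92463a_gt.HdF4
import Pool.Agent.MP_92463a_gt.HdM3

open Set Complex Filter Metric
open scoped Topology ComplexConjugate ContDiff Manifold

noncomputable section

namespace Pool.Agent.MP_92463a_gt

theorem HdF5_gx (n m : ℕ) (b : Bool) : Continuous fun x => gx n x m b := by
  unfold gx
  split_ifs
  · exact continuous_apply _
  · exact continuous_const

theorem HdF5_x (n : ℕ) (Bx : ℕ → CB) (m : ℕ) :
    ContinuousOn (fun x => (gC n Bx x m).x) (cube (Fin n × Bool)) := by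
  have := HdF5_gx n m false
  simp only [gC, DC.cell]
  fun_prop

theorem HdF5_y (n : ℕ) (Bx : ℕ → CB) (m : ℕ) :
    ContinuousOn (fun x => (gC n Bx x m).y) (cube (Fin n × Bool)) := by
  have := HdF5_gx n m true
  simp only [gC, DC.cell]
  fun_prop

theorem HdF5_lam {l : List RC} (h : ∀ c ∈ l, c.Ps) : lamP l ≠ 0 := by
  refine List.prod_ne_zero fun h0 => ?_
  obtain ⟨c, hc, e⟩ := List.mem_map.1 h0
  obtain ⟨h1, h2⟩ := h c hc
  unfold RC.lam at e
  split_ifs at e
  · exact (inv_pos.2 h1).ne' e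
  · exact (mul_pos h1 h2).ne' e

theorem HdF5_len (Bx : ℕ → CB) (n : ℕ) : (gH Bx n).length = n := by simp [gH]

theorem HdF5_take (Bx : ℕ → CB) {n m : ℕ} (hm : m < (gH Bx n).length) :
    (gH Bx n).take m = gH Bx m ∧ (gH Bx n)[m] = (Bx m).H := by
  have hm' : m < n := by rwa [HdF5_len] at hm
  refine ⟨?_, by simp [gH]⟩
  rw [gH, ← List.map_take, List.take_range, min_eq_left hm'.le, gH]

theorem Cert.fam {n : ℕ} {Bx : ℕ → CB} {blk : ℕ → Blk} {off : ℕ → ℕ} (h : Cert n Bx blk off) :
    Nonempty (Fam (Fin n × Bool) (nA (gH Bx n)) (nB (gH Bx n))) := by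
  have hH : ∀ x i, (gC n Bx x i).H = (Bx i).H := fun _ _ => rfl
  have hp : ∀ m ≤ n, ∀ x ∈ cube (Fin n × Bool), ∀ i ∈ List.range m, (gC n Bx x i).Ps :=
    fun m hm x hx i hi => h.ps hx ((List.mem_range.1 hi).trans_le hm)
  have hr : ∀ i : Fin n × Bool, off i.1 + (gk blk off i.1 i.2).ref ≤ n := fun i =>
    (h.ref_le (x := 0) (fun _ => by simp) i.1.2 i.2).trans i.1.2.le
  have hl : ∀ (c : ℝ), ∀ m ≤ n,
      ContinuousOn (fun x => c / lamP (gL n Bx x m)) (cube (Fin n × Bool)) := fun c m hm =>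
    continuousOn_const.div (cont_lamP hH (List.range m) (fun i _ => HdF5_x n Bx i)
      (fun i _ => HdF5_y n Bx i) (hp m hm)) fun x hx => HdF5_lam fun c hc => by
        obtain ⟨i, hi, rfl⟩ := List.mem_map.1 hc
        exact hp m hm x hx i hi
  refine ⟨{
    D := fun x => dat (gL n Bx x n)
    su := fun i => (false, gsu Bx i.1 i.2)
    sv := fun i => gsv Bx i.1 i.2
    u := fun i x => gu n Bx blk off x i.1 i.2
    v := fun i x => gv n Bx blk off x i.1 i.2
    A := fun _ => gA n Bx blk off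
    ok := fun x hx => ⟨h.dat_ok hx, congrArg nA (gL_H n Bx x n), congrArg nB (gL_H n Bx x n)⟩
    ca := fun i _ => cont_a hH (List.range n) (fun i _ => HdF5_x n Bx i)
      (fun i _ => HdF5_y n Bx i) (hp n le_rfl) i
    cb := fun i _ => cont_b hH (List.range n) (fun i _ => HdF5_x n Bx i)
      (fun i _ => HdF5_y n Bx i) (hp n le_rfl) i
    cρ := cont_rho hH (List.range n) (fun i _ => HdF5_x n Bx i)
      (fun i _ => HdF5_y n Bx i) (hp n le_rfl)
    cu := fun i => hl _ _ (hr i)
    cv := fun i => hl _ _ (hr i)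
    cA := fun _ _ => continuousOn_const
    val := fun i => ?_
    mem := fun i x hx => h.mem hx i.1.2 i.2
    chain := fun α hα => link_chain α fun m hm kd => ?_
    inj := fun _ _ _ hw => h.inj hw
    face := fun x hx i => h.face hx i }⟩
  · have hm : (i.1 : ℕ) < (gH Bx n).length := by rw [HdF5_len]; exact i.1.2
    have := link_val hm i.2
    rwa [(HdF5_take Bx hm).1, (HdF5_take Bx hm).2] at this
  · rw [(HdF5_take Bx hm).1, (HdF5_take Bx hm).2]
    exact hα (⟨m, by rwa [HdF5_len] at hm⟩, kd)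

theorem cert_fin {B : Blk} (hB : B.Ok) (h0 : B.lo = 0) (hc : B.cnt = B.cells.length)
    (hp : 0 < B.cnt) (hf : finChk B.cells = true) :
    Cert B.cells.length (fun m => B.cells.getD m cb0) (fun _ => B) fun _ => 0 := by
  simp only [finChk, Bool.and_eq_true, List.all_eq_true, List.mem_range, Bool.or_eq_true,
    decide_eq_true_eq] at hf
  obtain ⟨h1, h2⟩ := hf
  refine ⟨hc ▸ hp, fun m hm => h1 _ ?_, fun m hm => (h2 m (by omega)).1.resolve_left (by omega),
    fun m hm => (h2 m (by omega)).2.resolve_left (by omega), fun _ _ => hB,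
    fun m hm => by omega, fun _ _ _ _ _ => ⟨rfl, rfl⟩, fun _ _ => rfl, fun _ _ j _ => ?_,
    fun _ _ => ⟨fun _ => rfl, fun i hi => absurd hi (Nat.not_lt_zero i)⟩,
    fun _ _ => ⟨fun _ => Nat.zero_add _, fun i h3 h4 => by omega⟩⟩
  · rw [List.getD_eq_getElem _ _ hm]
    exact List.getElem_mem hm
  · simp [CB.sub]

theorem fam_fin {B : Blk} (hB : B.Ok) (h0 : B.lo = 0) (hc : B.cnt = B.cells.length)
    (hp : 0 < B.cnt) (hf : finChk B.cells = true) :
    Nonempty (Fam (Fin B.cells.length × Bool) (nA (B.cells.map CB.H)) (nB (B.cells.map CB.H))) := by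
  have e : gH (fun m => B.cells.getD m cb0) B.cells.length = B.cells.map CB.H := by
    refine List.ext_getElem (by simp [gH]) fun i h1 h2 => ?_
    have : i < B.cells.length := by simpa using h2
    simp [gH, this]
  have := (cert_fin hB h0 hc hp hf).fam
  rwa [e] at this

end Pool.Agent.MP_92463a_gt
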