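import Pool.Agent.MP_92463a_gt.Hd2
import Pool.Agent.MP_92463a_gt.HdEe0

/-! The general chain: combinatorics of the covering by the three blocks. -/

namespace Pool.Agent.MP_92463a_gt

def HdF6B (n m : ℕ) : CB :=
  if m < 8 then blkW.cells.getD m cb0
  else if m + 4 < n then blkB.cells.getD 3 cb0 else blkT.cells.getD (m + 7 - n) cb0

def HdF6K (n m : ℕ) : Blk := if m < 8 then blkW else if m + 4 < n then blkB else blkT

def HdF6O (n m : ℕ) : ℕ := if m < 8 then 0 else if m + 4 < n then m - 3 else n - 7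

/-- the thirteen kinds of boxes -/
def HdF6box (k : ℕ) : CB :=
  if k < 8 then blkW.cells.getD k cb0
  else if k = 8 then blkB.cells.getD 3 cb0 else blkT.cells.getD (k - 6) cb0

def HdF6ix (n m : ℕ) : ℕ := if m < 8 then m else if m + 4 < n then 8 else m + 13 - n

theorem HdF6B_eq (n m : ℕ) : HdF6B n m = HdF6box (HdF6ix n m) := by
  unfold HdF6B HdF6box HdF6ix
  by_cases h1 : m < 8
  · simp only [if_pos h1]
  · by_cases h2 : m + 4 < n
    · simp only [if_neg h1, if_pos h2]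
      rfl
    · simp only [if_neg h1, if_neg h2]
      rw [if_neg (by omega), if_neg (by omega)]
      congr 1
      omega

theorem HdF6ix_spec (n m : ℕ) :
    (m < 8 ∧ HdF6ix n m = m) ∨ (8 ≤ m ∧ m + 4 < n ∧ HdF6ix n m = 8) ∨
      (8 ≤ m ∧ n ≤ m + 4 ∧ HdF6ix n m + n = m + 13) := by
  unfold HdF6ix
  split_ifs <;> omega

theorem HdF6K_spec (n m : ℕ) :
    (m < 8 ∧ HdF6K n m = blkW ∧ HdF6O n m = 0) ∨
      (8 ≤ m ∧ m + 4 < n ∧ HdF6K n m = blkB ∧ HdF6O n m = m - 3) ∨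
      (8 ≤ m ∧ n ≤ m + 4 ∧ HdF6K n m = blkT ∧ HdF6O n m = n - 7) := by
  unfold HdF6K HdF6O
  by_cases h1 : m < 8
  · exact Or.inl ⟨h1, if_pos h1, if_pos h1⟩
  · by_cases h2 : m + 4 < n
    · refine Or.inr (Or.inl ⟨by omega, h2, ?_, ?_⟩) <;> rw [if_neg h1, if_pos h2]
    · refine Or.inr (Or.inr ⟨by omega, by omega, ?_, ?_⟩) <;> rw [if_neg h1, if_neg h2]

theorem HdF6small : ∀ k < 13, (HdF6box k).small = true := by decide +kernel

theorem HdF6H : ∀ k < 13, (HdF6box k).H = decide (k = 3) := by decide +kernel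

theorem HdF6gap1 : ∀ k < 13, ∀ l < 13, (l = k + 1 ∨ (k = 8 ∧ l = 8) ∨ (k = 7 ∧ l = 9)) →
    (HdF6box k).gap1 (HdF6box l) = true := by decide +kernel

theorem HdF6gap3 : (HdF6box 2).gap2 (HdF6box 3) (HdF6box 4) = true := by decide +kernel

theorem HdF6gap2 (k l r : ℕ) (hl : l < 13) (h : l = 3 → k = 2 ∧ r = 4) :
    (HdF6box k).gap2 (HdF6box l) (HdF6box r) = true := by
  by_cases h3 : l = 3
  · obtain ⟨rfl, rfl⟩ := h h3
    subst h3
    exact HdF6gap3
  · unfold CB.gap2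
    rw [HdF6H l hl, decide_eq_false h3]
    rfl

theorem HdF6subW : ∀ j < 11, ∀ k < 13, ((j < 8 ∧ k = j) ∨ (8 ≤ j ∧ 8 ≤ k ∧ k ≤ j + 1)) →
    (HdF6box k).sub (blkW.cells.getD j cb0) = true := by decide +kernel

theorem HdF6subB : ∀ j < 7, ∀ k < 13,
    ((j ≤ 3 ∧ 5 + j ≤ k ∧ k ≤ 8) ∨ (3 < j ∧ 8 ≤ k ∧ k ≤ j + 5)) →
    (HdF6box k).sub (blkB.cells.getD j cb0) = true := by decide +kernel

theorem HdF6subT : ∀ j < 7, ∀ k < 13, ((j < 3 ∧ 5 + j ≤ k ∧ k ≤ 8) ∨ (3 ≤ j ∧ k = j + 6)) →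
    (HdF6box k).sub (blkT.cells.getD j cb0) = true := by decide +kernel

theorem HdF6low : ∀ k < 9, (HdF6box k).flip.far = true := by decide +kernel

theorem HdF6upp : ∀ k < 13, 8 ≤ k → (HdF6box k).far = true := by decide +kernel

theorem HdF6W : blkW.lo = 0 ∧ blkW.cnt = 8 ∧ blkW.cells.length = 11 ∧ blkW.tl = false ∧
    blkW.tu = true := ⟨rfl, rfl, rfl, rfl, rfl⟩

theorem HdF6Bk : blkB.lo = 3 ∧ blkB.cnt = 1 ∧ blkB.cells.length = 7 ∧ blkB.tl = true ∧
    blkB.tu = true := ⟨rfl, rfl, rfl, rfl, rfl⟩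

theorem HdF6T : blkT.lo = 3 ∧ blkT.cnt = 4 ∧ blkT.cells.length = 7 ∧ blkT.tl = true ∧
    blkT.tu = false := ⟨rfl, rfl, rfl, rfl, rfl⟩

theorem HdF6cert (hW : blkW.Ok) (hB : blkB.Ok) (hT : blkT.Ok) {n : ℕ} (hn : 12 ≤ n) :
    Cert n (HdF6B n) (HdF6K n) (HdF6O n) := by
  obtain ⟨w1, w2, w3, w4, w5⟩ := HdF6W
  obtain ⟨b1, b2, b3, b4, b5⟩ := HdF6Bk
  obtain ⟨t1, t2, t3, t4, t5⟩ := HdF6T
  refine ⟨by omega, ?_, ?_, ?_, ?_, ?_, ?_, ?_, ?_, ?_, ?_⟩
  · intro m hm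
    rw [HdF6B_eq]
    have := HdF6ix_spec n m
    exact HdF6small _ (by omega)
  · intro m hm
    rw [HdF6B_eq, HdF6B_eq]
    have h0 := HdF6ix_spec n m
    have h1 := HdF6ix_spec n (m + 1)
    exact HdF6gap1 _ (by omega) _ (by omega) (by omega)
  · intro m hm
    rw [HdF6B_eq, HdF6B_eq, HdF6B_eq]
    have h0 := HdF6ix_spec n m
    have h1 := HdF6ix_spec n (m + 1)
    have h2 := HdF6ix_spec n (m + 2)
    exact HdF6gap2 _ _ _ (by omega) (by omega)
  · intro m _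
    rcases HdF6K_spec n m with ⟨_, h, _⟩ | ⟨_, _, h, _⟩ | ⟨_, _, h, _⟩ <;> rw [h] <;> assumption
  · intro m hm
    rcases HdF6K_spec n m with ⟨_, h, h'⟩ | ⟨_, _, h, h'⟩ | ⟨_, _, h, h'⟩ <;> rw [h, h'] <;> omega
  · intro m hm m' h1 h2
    rcases HdF6K_spec n m with ⟨_, h, h'⟩ | ⟨_, _, h, h'⟩ | ⟨_, _, h, h'⟩ <;>
      rw [h, h'] at h1 h2 <;>
      rcases HdF6K_spec n m' with ⟨_, g, g'⟩ | ⟨_, _, g, g'⟩ | ⟨_, _, g, g'⟩ <;>
      first
      | exact ⟨g.trans h.symm, by omega⟩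
      | (exfalso; omega)
  · intro m hm
    rcases HdF6K_spec n m with ⟨p, h, h'⟩ | ⟨p, p', h, h'⟩ | ⟨p, p', h, h'⟩ <;> rw [h, h'] <;>
      unfold HdF6B
    · rw [if_pos p, Nat.sub_zero]
    · rw [if_neg (by omega), if_pos p']
      congr 1
      omega
    · rw [if_neg (by omega), if_neg (by omega)]
      congr 1
      omega
  · intro m hm j hj
    rw [HdF6B_eq]
    have h0 := HdF6ix_spec n (HdF6O n m + j)
    rcases HdF6K_spec n m with ⟨p, h, h'⟩ | ⟨p, p', h, h'⟩ | ⟨p, p', h, h'⟩ <;>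
      rw [h] at hj ⊢
    · exact HdF6subW _ (by omega) _ (by omega) (by omega)
    · exact HdF6subB _ (by omega) _ (by omega) (by omega)
    · exact HdF6subT _ (by omega) _ (by omega) (by omega)
  · intro m hm
    refine ⟨fun hl => ?_, fun i hi => ?_⟩
    · rcases HdF6K_spec n m with ⟨p, h, h'⟩ | ⟨p, p', h, h'⟩ | ⟨p, p', h, h'⟩
      · exact h'
      · rw [h, b4] at hl
        exact absurd hl (by decide)
      · rw [h, t4] at hl
        exact absurd hl (by decide)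
    · rw [HdF6B_eq]
      have h0 := HdF6ix_spec n i
      rcases HdF6K_spec n m with ⟨p, h, h'⟩ | ⟨p, p', h, h'⟩ | ⟨p, p', h, h'⟩ <;>
        exact HdF6low _ (by omega)
  · intro m hm
    refine ⟨fun hl => ?_, fun i hi hi' => ?_⟩
    · rcases HdF6K_spec n m with ⟨p, h, h'⟩ | ⟨p, p', h, h'⟩ | ⟨p, p', h, h'⟩
      · rw [h, w5] at hl
        exact absurd hl (by decide)
      · rw [h, b5] at hl
        exact absurd hl (by decide)
      · rw [h, h']
        omega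
    · rw [HdF6B_eq]
      have h0 := HdF6ix_spec n i
      rcases HdF6K_spec n m with ⟨p, h, h'⟩ | ⟨p, p', h, h'⟩ | ⟨p, p', h, h'⟩ <;>
        rw [h, h'] at hi <;> exact HdF6upp _ (by omega) (by omega)

theorem HdF6nA (l : List Bool) (b : Bool) : nA (l ++ [b]) = nA l + if b then 2 else 1 := by
  induction l with
  | nil => cases b <;> rfl
  | cons c l ih =>
    rw [List.cons_append, nA, nA, ih]
    cases c <;> simp <;> omega

theorem HdF6nB (l : List Bool) (b : Bool) : nB (l ++ [b]) = nB l + if b then 0 else 1 := by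
  induction l with
  | nil => cases b <;> rfl
  | cons c l ih =>
    rw [List.cons_append, nB, nB, ih]
    cases c
    · simp
      omega
    · simp

theorem HdF6cnt' {n : ℕ} (m : ℕ) (hm : m ≤ n) :
    nA (gH (HdF6B n) m) = m + (if 3 < m then 1 else 0) ∧
      nB (gH (HdF6B n) m) + (if 3 < m then 1 else 0) = m := by
  induction m with
  | zero => exact ⟨rfl, rfl⟩
  | succ m ih =>
    obtain ⟨h1, h2⟩ := ih (by omega)
    have h0 := HdF6ix_spec n m
    have hH : (HdF6B n m).H = decide (m = 3) := by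
      rw [HdF6B_eq, HdF6H _ (by omega)]
      exact decide_eq_decide.2 (by omega)
    have e : gH (HdF6B n) (m + 1) = gH (HdF6B n) m ++ [decide (m = 3)] := by
      unfold gH
      rw [List.range_succ, List.map_append, List.map_singleton, hH]
    rw [e, HdF6nA, HdF6nB]
    by_cases h3 : m = 3
    · subst h3
      simp at h1 h2 ⊢
      omega
    · simp only [h3, decide_false, Bool.false_eq_true, if_false]
      split_ifs at h1 h2 ⊢ <;> omega

theorem HdF6cnt {n : ℕ} (hn : 12 ≤ n) :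
    nA (gH (HdF6B n) n) = n + 1 ∧ nB (gH (HdF6B n) n) = n - 1 := by
  obtain ⟨h1, h2⟩ := HdF6cnt' (n := n) n le_rfl
  rw [if_pos (by omega)] at h1 h2
  omega

end Pool.Agent.MP_92463a_gt
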