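import Pool.Agent.MP_92463a_gt.HdF5
import Pool.Agent.MP_92463a_gt.HdE
import Pool.Agent.MP_92463a_gt.HdF6X1

open Set Complex Filter Metric
open scoped Topology ComplexConjugate ContDiff Manifold

noncomputable section

namespace Pool.Agent.MP_92463a_gt

def genB (n m : ℕ) : CB :=
  if m < 8 then blkW.cells.getD m cb0
  else if m + 4 < n then blkB.cells.getD 3 cb0 else blkT.cells.getD (m + 7 - n) cb0

def genK (n m : ℕ) : Blk := if m < 8 then blkW else if m + 4 < n then blkB else blkT

def genO (n m : ℕ) : ℕ := if m < 8 then 0 else if m + 4 < n then m - 3 else n - 7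

theorem cert_gen {n : ℕ} (hn : 12 ≤ n) : Cert n (genB n) (genK n) (genO n) :=
  HdF6cert okW okB okT hn

theorem gen_cnt {n : ℕ} (hn : 12 ≤ n) :
    nA (gH (genB n) n) = n + 1 ∧ nB (gH (genB n) n) = n - 1 :=
  HdF6cnt hn

end Pool.Agent.MP_92463a_gt
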