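import Pool.Agent.MP_92463a_gt.Hd2

open Set Complex Filter Metric
open scoped Topology ComplexConjugate ContDiff Manifold

noncomputable section

namespace Pool.Agent.MP_92463a_gt

theorem HdK1_cons (x : ℤ) (l : List ℤ) (v : ℝ) (m : List ℝ) :
    dotZ (x :: l) (v :: m) = x * v + dotZ l m := by simp [dotZ]

theorem HdK1_lin (a : ℤ) : ∀ (x y : List ℤ) (v : List ℝ), x.length = y.length →
    dotZ (List.zipWith (fun p q => a * p + q) x y) v = a * dotZ x v + dotZ y v
  | [], [], v, _ => by simp [dotZ]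
  | [], _ :: _, _, h => by simp at h
  | _ :: _, [], _, h => by simp at h
  | _ :: _, _ :: _, [], _ => by simp [dotZ]
  | p :: x, q :: y, w :: v, h => by
    rw [List.zipWith_cons_cons, HdK1_cons, HdK1_cons, HdK1_cons,
      HdK1_lin a x y v (by simpa using h)]
    push_cast
    ring

theorem HdK1_zero : ∀ (n : ℕ) (v : List ℝ), dotZ (List.replicate n 0) v = 0
  | 0, v => by simp [dotZ]
  | _ + 1, [] => by simp [dotZ]
  | n + 1, w :: v => by rw [List.replicate_succ, HdK1_cons, HdK1_zero n v]; simp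

theorem HdK1_comb (n : ℕ) (dv : List ℝ) : ∀ (a : List ℤ) (outs : List Out) (F : ℕ → ℝ),
    a.length = outs.length → (∀ o ∈ outs, o.J.length = n) →
    (∀ i < outs.length, |F i - (outs.getD i out0).F - dotZ (outs.getD i out0).J dv| ≤
      (outs.getD i out0).r) → (comb n a outs).J.length = n ∧
    |∑ j ∈ Finset.range outs.length, ((a.getD j 0 : ℤ) : ℝ) * F j - (comb n a outs).F -
      dotZ (comb n a outs).J dv| ≤ (comb n a outs).r
  | [], [], F, _, _, _ => by simp [comb, HdK1_zero]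
  | [], _ :: _, _, h, _, _ => by simp at h
  | _ :: _, [], _, h, _, _ => by simp at h
  | x :: a, o :: outs, F, h, hJ, hF => by
    obtain ⟨h1, h2⟩ := HdK1_comb n dv a outs (fun i => F (i + 1)) (by simpa using h)
      (fun o ho => hJ o (List.mem_cons_of_mem _ ho))
      (fun i hi => by simpa using hF (i + 1) (by simpa using hi))
    have h3 := hJ o List.mem_cons_self
    have h4 : |F 0 - o.F - dotZ o.J dv| ≤ o.r := by simpa using hF 0 (by simp)
    refine ⟨by simp [comb, h1, h3], ?_⟩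
    rw [List.length_cons, Finset.sum_range_succ']
    simp only [comb, List.getD_cons_succ, List.getD_cons_zero]
    rw [HdK1_lin x _ _ _ (h3.trans h1.symm)]
    have h5 : |(x : ℝ) * (F 0 - o.F - dotZ o.J dv)| ≤ |(x : ℝ)| * o.r := by
      rw [abs_mul]
      exact mul_le_mul_of_nonneg_left h4 (abs_nonneg _)
    have h6 := (abs_add_le _ _).trans (add_le_add h5 h2)
    push_cast [Nat.cast_natAbs]
    refine le_of_eq_of_le (congrArg _ ?_) h6
    ring

theorem HdK1_term {v : ℝ} {h : ℕ} (hv : |v| ≤ h / 2 ^ 40) (x : ℤ) :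
    |(x : ℝ) * v| ≤ |(x : ℝ)| * h / 2 ^ 40 := by
  rw [abs_mul, mul_div_assoc]
  exact mul_le_mul_of_nonneg_left hv (abs_nonneg _)

theorem HdK1_abs {dv : List ℝ} {hs : List ℕ}
    (hv : List.Forall₂ (fun (v : ℝ) (a : ℕ) => |v| ≤ a / 2 ^ 40) dv hs) (row : List ℤ) :
    |dotZ row dv| ≤ ((List.zipWith (fun x h => x.natAbs * h) row hs).sum : ℕ) / 2 ^ 40 := by
  induction hv generalizing row with
  | nil => simp [dotZ]
  | cons h1 _ ih =>
    rcases row with _ | ⟨x, row⟩
    · simp [dotZ]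
    · rw [HdK1_cons, List.zipWith_cons_cons, List.sum_cons]
      have h2 := (abs_add_le _ _).trans (add_le_add (HdK1_term h1 x) (ih row))
      rw [Nat.cast_add, Nat.cast_mul, Nat.cast_natAbs, Int.cast_abs, add_div]
      exact h2

theorem HdK1_off {dv : List ℝ} {hs : List ℕ}
    (hv : List.Forall₂ (fun (v : ℝ) (a : ℕ) => |v| ≤ a / 2 ^ 40) dv hs) (row : List ℤ) (k : ℕ) :
    |dotZ row dv - (row.getD k 0 : ℤ) * dv.getD k 0| ≤
      (((List.zipWith (fun x h => x.natAbs * h) row hs).sum : ℕ) -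
        |((row.getD k 0 : ℤ) : ℝ)| * (hs.getD k 0 : ℕ)) / 2 ^ 40 := by
  induction hv generalizing row k with
  | nil => simp [dotZ]
  | cons h1 h0 ih =>
    rcases row with _ | ⟨x, row⟩
    · simp [dotZ]
    · rw [HdK1_cons, List.zipWith_cons_cons, List.sum_cons, Nat.cast_add, Nat.cast_mul,
        Nat.cast_natAbs, Int.cast_abs]
      rcases k with _ | k
      · simp only [List.getD_cons_zero, add_sub_cancel_left]
        exact HdK1_abs h0 row
      · simp only [List.getD_cons_succ]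
        have h2 := (abs_add_le _ _).trans (add_le_add (HdK1_term h1 x) (ih row k))
        rw [add_sub_assoc, add_sub_assoc, add_div]
        exact h2

theorem Blk.sound {B : Blk} (h : B.chk = true) {dv : List ℝ}
    (hv : List.Forall₂ (fun (v : ℝ) (a : ℕ) => |v| ≤ a / 2 ^ 40) dv (hLs B.cells)) {F : ℕ → ℝ}
    (hF : ∀ i < 2 * B.cnt, |F i - (B.outs.getD i out0).F - dotZ (B.outs.getD i out0).J dv| ≤
      (B.outs.getD i out0).r) {i : ℕ} (hi : i < 2 * B.cnt) :
    (dv.getD (2 * B.lo + i) 0 = ((hLs B.cells).getD (2 * B.lo + i) 0 : ℕ) / 2 ^ 40 →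
      0 < ∑ j ∈ Finset.range (2 * B.cnt), (((B.A.getD i []).getD j 0 : ℤ) : ℝ) * F j) ∧
    (dv.getD (2 * B.lo + i) 0 = -(((hLs B.cells).getD (2 * B.lo + i) 0 : ℕ) / 2 ^ 40) →
      ∑ j ∈ Finset.range (2 * B.cnt), (((B.A.getD i []).getD j 0 : ℤ) : ℝ) * F j < 0) := by
  simp only [Blk.chk, Bool.and_eq_true, decide_eq_true_eq, List.all_eq_true, List.mem_range] at h
  obtain ⟨⟨⟨⟨⟨-, ho, hA⟩, -⟩, hJ⟩, ha⟩, hr⟩ := h
  have hl : (B.A.getD i []).length = B.outs.length := by
    rw [ho, List.getD_eq_getElem _ _ (hA ▸ hi)]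
    exact ha _ (List.getElem_mem _)
  obtain ⟨-, h2⟩ := HdK1_comb (2 * B.cells.length) dv (B.A.getD i []) B.outs F hl hJ (ho ▸ hF)
  have h3 := hr i hi
  rw [ho] at h2
  generalize comb (2 * B.cells.length) (B.A.getD i []) B.outs = o at h2 h3
  have h4 := HdK1_off hv o.J (2 * B.lo + i)
  simp only [rowOk, decide_eq_true_eq] at h3
  generalize (List.zipWith (fun (x : ℤ) (h : ℕ) => x.natAbs * h) o.J (hLs B.cells)).sum = S at h3 h4
  generalize o.J.getD (2 * B.lo + i) 0 = x at h3 h4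
  generalize (hLs B.cells).getD (2 * B.lo + i) 0 = w at h3 h4 ⊢
  have h5 : (|(o.F : ℝ)| + o.r) * 2 ^ 40 + S < 2 * x * w := by
    have h6 : ((((o.F.natAbs + o.r) * 2 ^ 40 + S : ℕ) : ℤ) : ℝ) < ((2 * x * (w : ℕ) : ℤ) : ℝ) :=
      Int.cast_lt.2 h3
    push_cast [Nat.cast_natAbs] at h6
    linarith
  have hw : (0 : ℝ) ≤ w := Nat.cast_nonneg _
  have hx : (0 : ℝ) ≤ x := by
    by_contra hx
    have h7 : (0 : ℝ) ≤ (|(o.F : ℝ)| + o.r) * 2 ^ 40 + S := by positivity
    nlinarith [not_le.1 hx]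
  rw [abs_of_nonneg hx, le_div_iff₀ (by positivity)] at h4
  have h8 := abs_le.1 h2
  have h9 := le_abs_self (o.F : ℝ)
  have h10 := neg_abs_le (o.F : ℝ)
  constructor <;> intro e <;> rw [e] at h4
  · have h11 := neg_abs_le (dotZ o.J dv - x * (w / 2 ^ 40))
    linarith [h8.1]
  · have h11 := le_abs_self (dotZ o.J dv - x * -(w / 2 ^ 40))
    linarith [h8.2]

end Pool.Agent.MP_92463a_gt
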