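import Pool.Agent.MP_92463a_gt.HdP1
import Pool.Agent.MP_92463a_gt.HdC1

open Set Complex Filter Metric
open scoped Topology ComplexConjugate ContDiff Manifold

noncomputable section

namespace Pool.Agent.MP_92463a_gt

namespace DC

variable {d : DC}

theorem flip_b : d.flip.b = d.b.flip := by
  unfold DC.flip
  split_ifs <;> rfl

theorem flip_cell : d.flip.cell = d.cell.flip := by
  rcases d with ⟨⟨H, x, y, hx, hy⟩, ξ, ζ⟩
  cases H
  · simp [DC.flip, DC.cell, RC.flip, CB.flip]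
  · simp [DC.flip, DC.cell, RC.flip, CB.flip, Real.exp_neg, mul_comm]

theorem Ok.flip (h : d.Ok) : d.flip.Ok := by
  rcases d with ⟨⟨H, x, y, hx, hy⟩, ξ, ζ⟩
  obtain ⟨h1, h2, h3, h4⟩ := h
  cases H
  · exact ⟨h2, h1, h4, h3⟩
  · exact ⟨h1, inv_pos.2 h2, h3, (abs_neg ζ).trans_le h4⟩

theorem Ok.ps (h : d.Ok) : d.cell.Ps :=
  ⟨mul_pos (Rat.cast_pos.2 h.1) (Real.exp_pos _), mul_pos (Rat.cast_pos.2 h.2.1) (Real.exp_pos _)⟩

theorem cell_a1 : d.cell.a1 = d.b.a1 * Real.exp d.e1 := by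
  rcases d with ⟨⟨H, x, y, hx, hy⟩, ξ, ζ⟩
  cases H
  · simp [DC.cell, RC.a1, CB.a1, DC.e1]
  · simp [DC.cell, RC.a1, CB.a1, DC.e1, Real.exp_neg, mul_comm]

theorem cell_a2 : d.cell.a2 = d.b.a2 * Real.exp d.e2 := by
  rcases d with ⟨⟨H, x, y, hx, hy⟩, ξ, ζ⟩
  cases H
  · simp only [DC.cell, RC.a2, CB.a2, DC.e2, Bool.false_eq_true, if_false, Real.exp_sub, two_mul,
      Real.exp_add]
    push_cast
    ring
  · simp only [DC.cell, RC.a2, CB.a2, DC.e2, if_true, Real.exp_sub, Real.exp_neg]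
    push_cast
    ring

theorem cell_lam : d.cell.lam = d.b.lam * Real.exp d.el := by
  rcases d with ⟨⟨H, x, y, hx, hy⟩, ξ, ζ⟩
  cases H
  · simp only [DC.cell, RC.lam, CB.lam, DC.el, Bool.false_eq_true, if_false, Real.exp_add]
    push_cast
    ring
  · simp only [DC.cell, RC.lam, CB.lam, DC.el, if_true, Real.exp_neg]
    push_cast
    ring

theorem HdP3_e (h : d.Ok) : |d.e1| ≤ d.b.h1 / 2 ^ 40 ∧ |d.e2| ≤ d.b.h2 / 2 ^ 40 ∧
    |d.el| ≤ d.b.hl / 2 ^ 40 := by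
  rcases d with ⟨⟨H, x, y, hx, hy⟩, ξ, ζ⟩
  obtain ⟨-, -, h3, h4⟩ := h
  simp only [abs_le] at h3 h4 ⊢
  cases H <;>
  · simp only [DC.e1, DC.e2, DC.el, CB.h1, CB.h2, CB.hl, Bool.false_eq_true, if_false, if_true]
    push_cast
    simp only [add_div, mul_div_assoc]
    refine ⟨⟨?_, ?_⟩, ⟨?_, ?_⟩, ?_, ?_⟩ <;> linarith [h3.1, h3.2, h4.1, h4.2]

theorem HdP3_lam (h : d.Ok) : 0 < d.b.lam := by
  unfold CB.lam
  split_ifs
  · exact inv_pos.2 h.1
  · exact mul_pos h.1 h.2.1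

theorem HdP3_m1 (d : DC) (Λ : ℚ) (η : ℝ) :
    Λ * Real.exp η * d.cell.a1 = (Λ * d.b.a1 : ℚ) * Real.exp (η + d.e1) := by
  rw [cell_a1, Real.exp_add]
  push_cast
  ring

theorem HdP3_m2 (d : DC) (Λ : ℚ) (η : ℝ) :
    Λ * Real.exp η * d.cell.a2 = (Λ * d.b.a2 : ℚ) * Real.exp (η + d.e2) := by
  rw [cell_a2, Real.exp_add]
  push_cast
  ring

theorem HdP3_ml (d : DC) (Λ : ℚ) (η : ℝ) :
    Λ * Real.exp η * d.cell.lam = (Λ * d.b.lam : ℚ) * Real.exp (η + d.el) := by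
  rw [cell_lam, Real.exp_add]
  push_cast
  ring

end DC

theorem atQ_length (f : ℕ → Bool → Bool → Dp) (j : ℕ) (l : List CB) (Λ : ℚ) (h : ℕ) (ε : Bool) :
    (atQ f j l Λ h ε).length = 2 * l.length := by
  induction l generalizing j Λ h ε with
  | nil => rfl
  | cons b l ih => simp only [atQ, List.length_cons, ih]; ring

theorem etas_length (l : List DC) (η : ℝ) : (etas l η).length = 2 * l.length := by
  induction l generalizing η with
  | nil => rfl
  | cons b l ih => simp only [etas, List.length_cons, ih]; ring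

theorem HdP3_add {η e : ℝ} {h k : ℕ} (h1 : |η| ≤ h / 2 ^ 40) (h2 : |e| ≤ k / 2 ^ 40) :
    |η + e| ≤ (h + k : ℕ) / 2 ^ 40 := by
  rw [Nat.cast_add, add_div]
  exact (abs_add_le _ _).trans (add_le_add h1 h2)

theorem etas_le (f : ℕ → Bool → Bool → Dp) (j : ℕ) {l : List DC} (hl : ∀ d ∈ l, d.Ok) (Λ : ℚ)
    (h : ℕ) (ε : Bool) {η : ℝ} (hη : |η| ≤ h / 2 ^ 40) :
    List.Forall₂ (fun (a : AQ) (e : ℝ) => |e| ≤ a.h / 2 ^ 40) (atQ f j (l.map DC.b) Λ h ε)
      (etas l η) := by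
  induction l generalizing j Λ h ε η with
  | nil => exact List.Forall₂.nil
  | cons d l ih =>
    obtain ⟨h1, h2, h3⟩ := DC.HdP3_e (hl d List.mem_cons_self)
    exact List.Forall₂.cons (HdP3_add hη h1) (List.Forall₂.cons (HdP3_add hη h2)
      (ih _ (fun e he => hl e (List.mem_cons_of_mem _ he)) _ _ _ (HdP3_add hη h3)))

theorem HdP3_lamP {l : List DC} (hl : ∀ d ∈ l, d.Ok) : ∃ η : ℝ,
    |η| ≤ (((l.map DC.b).map CB.hl).sum : ℕ) / 2 ^ 40 ∧ 0 < ((l.map DC.b).map CB.lam).prod ∧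
      lamP (l.map DC.cell) = (((l.map DC.b).map CB.lam).prod : ℚ) * Real.exp η := by
  induction l with
  | nil => exact ⟨0, by simp, by simp, by simp [lamP]⟩
  | cons d l ih =>
    obtain ⟨η, h1, h2, h3⟩ := ih fun e he => hl e (List.mem_cons_of_mem _ he)
    have hd := hl d List.mem_cons_self
    simp only [List.map_cons, List.sum_cons, List.prod_cons]
    refine ⟨d.el + η, HdP3_add (DC.HdP3_e hd).2.2 h1, mul_pos (DC.HdP3_lam hd) h2, ?_⟩
    rw [lamP_cons, h3, DC.cell_lam, Real.exp_add, Rat.cast_mul]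
    ring

theorem lamP_le {l : List DC} (hl : ∀ d ∈ l, d.Ok) (hh : ((l.map DC.b).map CB.hl).sum ≤ 2 ^ 40) :
    lamP (l.map DC.cell) ≤ (lamT true (l.map DC.b) : ℝ) := by
  obtain ⟨η, h1, h2, h3⟩ := HdP3_lamP hl
  have h4 := (abs_le.1 (eh_bound hh h1).1).2
  rw [h3, lamT, if_pos rfl, Rat.cast_mul, Rat.cast_add, Rat.cast_one]
  exact mul_le_mul_of_nonneg_left (by linarith) (Rat.cast_pos.2 h2).le

theorem phi_atoms (f : ℕ → Bool → Bool → Dp) (j : ℕ) (l : List DC) (t : List RC) (Λ : ℚ) (h : ℕ)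
    (ε : Bool) (η : ℝ) (z : ℂ) :
    pm ε (Phi (l.map DC.cell ++ t) (Λ * Real.exp η * z)) =
      (List.zipWith (fun (a : AQ) (e : ℝ) => a.zp (1 - a.al * Real.exp e * z))
        (atQ f j (l.map DC.b) Λ h ε) (etas l η)).prod *
      pm (epsL (l.map DC.b) ε) (Phi t (lamP (l.map DC.cell) * (Λ * Real.exp η * z))) := by
  induction l generalizing j Λ h ε η with
  | nil => simp [atQ, etas, epsL, lamP]
  | cons d l ih =>
    have e1 : (d.cell.a1 : ℂ) * (Λ * Real.exp η * z) =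
        (Λ * d.b.a1 : ℚ) * Real.exp (η + d.e1) * z := by
      have := congrArg Complex.ofReal (DC.HdP3_m1 d Λ η)
      simp only [Complex.ofReal_mul, Complex.ofReal_ratCast] at this
      rw [← this]
      ring
    have e2 : (d.cell.a2 : ℂ) * (Λ * Real.exp η * z) =
        (Λ * d.b.a2 : ℚ) * Real.exp (η + d.e2) * z := by
      have := congrArg Complex.ofReal (DC.HdP3_m2 d Λ η)
      simp only [Complex.ofReal_mul, Complex.ofReal_ratCast] at this
      rw [← this]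
      ring
    have e3 : (d.cell.lam : ℂ) * (Λ * Real.exp η * z) =
        (Λ * d.b.lam : ℚ) * Real.exp (η + d.el) * z := by
      have := congrArg Complex.ofReal (DC.HdP3_ml d Λ η)
      simp only [Complex.ofReal_mul, Complex.ofReal_ratCast] at this
      rw [← this]
      ring
    have hi := ih (j - 1) (Λ * d.b.lam) (h + d.b.hl) (if d.b.H then ε else !ε) (η + d.el)
    simp only [List.map_cons, List.cons_append, atQ, etas, List.zipWith_cons_cons, List.prod_cons,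
      epsL, Phi, lamP_cons, Complex.ofReal_mul]
    rw [mul_comm (d.cell.lam : ℂ) (lamP (l.map DC.cell) : ℂ), mul_assoc (lamP (l.map DC.cell) : ℂ),
      e1, e2, e3, mul_assoc (AQ.zp _ _), mul_assoc (AQ.zp _ _), ← hi]
    have hH : d.cell.H = d.b.H := rfl
    rw [hH]
    cases d.b.H <;> cases ε <;> simp [AQ.zp, pm, div_eq_mul_inv, mul_comm, mul_assoc]

theorem disp_ne (zin kd : Bool) (j : ℕ) (H f : Bool) : disp zin kd j H f ≠ .low := by
  rcases j with _ | _ | j <;> cases zin <;> cases kd <;> cases H <;> cases f <;> simp [disp]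

theorem atQ_dp (f : ℕ → Bool → Bool → Dp) (j : ℕ) (l : List CB) (Λ : ℚ) (h : ℕ) (ε : Bool) :
    ∀ a ∈ atQ f j l Λ h ε, ∃ i H b, a.dp = f i H b := by
  induction l generalizing j Λ h ε with
  | nil => simp [atQ]
  | cons c l ih =>
    intro a ha
    simp only [atQ, List.mem_cons] at ha
    rcases ha with rfl | rfl | ha
    · exact ⟨_, _, _, rfl⟩
    · exact ⟨_, _, _, rfl⟩
    · exact ih _ _ _ _ a ha

theorem posU_atoms (zin kd : Bool) (u v : ℝ) (j : ℕ) (l : List DC) (Λ : ℚ) (h : ℕ) (ε : Bool)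
    (η : ℝ) (ha : List.Forall₂ (fun (a : AQ) (e : ℝ) => a.dp.At (a.et e) u v)
      (atQ (disp zin kd) j (l.map DC.b) Λ h ε) (etas l η)) :
    PosU zin kd u v j (l.map DC.cell) (Λ * Real.exp η) := by
  induction l generalizing j Λ h ε η with
  | nil => trivial
  | cons d l ih =>
    simp only [List.map_cons, atQ, etas, List.forall₂_cons, AQ.et, if_neg (disp_ne _ _ _ _ _)] at ha
    simp only [List.map_cons, PosU, DC.HdP3_m1, DC.HdP3_m2, DC.HdP3_ml]
    exact ⟨ha.1, ha.2.1, ih _ _ _ _ _ ha.2.2⟩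

theorem sm_atoms (u v : ℝ) (j : ℕ) (l : List DC) (Λ : ℚ) (h : ℕ) (ε : Bool)
    (η : ℝ) (ha : List.Forall₂ (fun (a : AQ) (e : ℝ) => a.dp.At (a.et e) u v)
      (atQ (fun _ _ _ => .low) j (l.map DC.b) Λ h ε) (etas l η)) :
    Sm (l.map DC.cell) (Λ * Real.exp η) (min u |v|) := by
  induction l generalizing j Λ h ε η with
  | nil => trivial
  | cons d l ih =>
    simp only [List.map_cons, atQ, etas, List.forall₂_cons, AQ.et, if_true, Dp.At] at ha
    simp only [List.map_cons, Sm, DC.HdP3_m1, DC.HdP3_m2, DC.HdP3_ml]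
    exact ⟨lt_min ha.1.1 ha.1.2, lt_min ha.2.1.1 ha.2.1.2, ih _ _ _ _ _ ha.2.2⟩

end Pool.Agent.MP_92463a_gt
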