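import Pool.Agent.MP_92463a_gt.Hd2

open Set Complex Filter Metric
open scoped Topology ComplexConjugate ContDiff Manifold

noncomputable section

namespace Pool.Agent.MP_92463a_gt

theorem HdTl1_log (a b : ℝ) {z : ℂ} (ha : |a| ≤ b) (hz : b * ‖z‖ ≤ 1 / 2) :
    DifferentiableAt ℂ (fun z : ℂ => log (1 - a * z)) z ∧ ‖log (1 - a * z)‖ ≤ 3 / 2 * (b * ‖z‖) ∧
      exp (log (1 - a * z)) = 1 - a * z ∧ (z.im = 0 → (log (1 - a * z)).im = 0) := by
  have h0 : ‖(a : ℂ) * z‖ ≤ b * ‖z‖ := by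
    rw [norm_mul, norm_real, Real.norm_eq_abs]
    exact mul_le_mul_of_nonneg_right ha (norm_nonneg _)
  have h1 : ‖-((a : ℂ) * z)‖ ≤ 1 / 2 := by rw [norm_neg]; linarith
  have hre : 0 < (1 - (a : ℂ) * z).re := by
    have := (abs_le.1 ((abs_re_le_norm ((a : ℂ) * z)).trans (h0.trans hz))).2
    rw [sub_re, one_re]; linarith
  have hs : 1 - (a : ℂ) * z ∈ slitPlane := Or.inl hre
  refine ⟨?_, ?_, exp_log (slitPlane_ne_zero hs), fun him => ?_⟩
  · exact DifferentiableAt.clog (by fun_prop) hs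
  · have := norm_log_one_add_half_le_self h1
    rw [norm_neg, ← sub_eq_add_neg] at this
    linarith
  · rw [log_im, arg_eq_zero_iff]
    exact ⟨hre.le, by simp [him]⟩

/-- the four properties with constant `C` -/
def HdTl1P (l : List RC) (C : ℝ) (z : ℂ) : Prop :=
  DifferentiableAt ℂ (Tl l) z ∧ ‖Tl l z‖ ≤ C * ‖z‖ ∧ exp (2 * Tl l z) = Phi l z ∧
    (z.im = 0 → (Tl l z).im = 0)

theorem HdTl1_norm (a b : ℝ) (z : ℂ) (ha : |a| ≤ b) : ‖(a : ℂ) * z‖ ≤ b * ‖z‖ := by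
  rw [norm_mul, norm_real, Real.norm_eq_abs]
  exact mul_le_mul_of_nonneg_right ha (norm_nonneg _)

theorem HdTl1_level {c : RC} {l : List RC} (hH : c.H = false) (hc : c.Far)
    (ih : ∀ z : ℂ, ‖z‖ ≤ 1 / 16 → HdTl1P l 6 z) {z : ℂ} (hz : ‖z‖ ≤ 1 / 2) :
    HdTl1P (c :: l) (11 / 10) z := by
  simp only [RC.Far, hH, Bool.false_eq_true, if_false] at hc
  obtain ⟨hx, hy, h1, h2, h3⟩ := hc
  have hn := norm_nonneg z
  have ha1 : |c.a1| ≤ 0.22 := by
    simp only [RC.a1, hH, Bool.false_eq_true, if_false, abs_neg, abs_of_pos hy]; exact h1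
  have ha2 : |c.a2| ≤ 0.35 := by
    simp only [RC.a2, hH, Bool.false_eq_true, if_false]
    rw [abs_of_nonneg (by positivity), div_le_iff₀ hx]; exact h2
  have hl : |c.lam| ≤ 0.045 := by
    simp only [RC.lam, hH, Bool.false_eq_true, if_false]
    rw [abs_of_nonneg (by positivity)]; exact h3
  obtain ⟨d1, n1, e1, r1⟩ := HdTl1_log c.a1 0.22 (z := z) ha1 (by linarith)
  obtain ⟨d2, n2, e2, r2⟩ := HdTl1_log c.a2 0.35 (z := z) ha2 (by linarith)
  have hlz := HdTl1_norm c.lam 0.045 z hl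
  obtain ⟨d3, n3, e3, r3⟩ := ih (c.lam * z) (by linarith)
  have hT : Tl (c :: l) = fun z : ℂ =>
      (3 * log (1 - c.a1 * z) - log (1 - c.a2 * z)) / 2 - Tl l (c.lam * z) := by
    funext z; simp [Tl, hH]
  have hP : Phi (c :: l) z = (1 - c.a1 * z) ^ 3 / (1 - c.a2 * z) / Phi l (c.lam * z) := by
    simp [Phi, hH]
  refine ⟨?_, ?_, ?_, fun him => ?_⟩
  · rw [hT]
    exact (((d1.const_mul 3).sub d2).div_const 2).sub
      (d3.comp z (f := fun z : ℂ => (c.lam : ℂ) * z) (by fun_prop))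
  · rw [hT]
    refine (norm_sub_le _ _).trans ?_
    have := norm_sub_le (3 * log (1 - (c.a1 : ℂ) * z)) (log (1 - c.a2 * z))
    rw [norm_mul] at this
    rw [norm_div]
    simp only [Complex.norm_ofNat] at this ⊢
    linarith
  · rw [hP, hT, ← e3, ← e2]
    conv_rhs => rw [← e1]
    rw [← exp_nat_mul, ← exp_sub, ← exp_sub]
    congr 1; push_cast; ring
  · rw [hT]
    simp [r1 him, r2 him, r3 (by simp [him])]

theorem HdTl1_handle {c : RC} {l : List RC} (hH : c.H = true) (hc : c.Far)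
    (ih : ∀ z : ℂ, ‖z‖ ≤ 1 / 2 → HdTl1P l (11 / 10) z) {z : ℂ} (hz : ‖z‖ ≤ 1 / 16) :
    HdTl1P (c :: l) 6 z := by
  simp only [RC.Far, hH, if_true] at hc
  obtain ⟨hx, hy⟩ := hc
  have hx0 : 0 < c.x := by linarith
  have hy0 : 0 < c.y := by linarith
  have hn := norm_nonneg z
  have ha1 : |c.a1| ≤ 1.25 := by
    simp only [RC.a1, hH, if_true]
    rw [abs_of_nonneg (by positivity), inv_le_comm₀ hy0 (by norm_num)]; linarith
  have ha2 : |c.a2| ≤ 2.8 := by
    simp only [RC.a2, hH, if_true]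
    rw [abs_of_nonneg (by positivity), inv_le_comm₀ (by positivity) (by norm_num)]; nlinarith
  have hl : |c.lam| ≤ 2.25 := by
    simp only [RC.lam, hH, if_true]
    rw [abs_of_nonneg (by positivity), inv_le_comm₀ hx0 (by norm_num)]; linarith
  obtain ⟨d1, n1, e1, r1⟩ := HdTl1_log c.a1 1.25 (z := z) ha1 (by linarith)
  obtain ⟨d2, n2, e2, r2⟩ := HdTl1_log c.a2 2.8 (z := z) ha2 (by linarith)
  have hlz := HdTl1_norm c.lam 2.25 z hl
  obtain ⟨d3, n3, e3, r3⟩ := ih (c.lam * z) (by linarith)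
  have hT : Tl (c :: l) = fun z : ℂ =>
      (log (1 - c.a1 * z) - log (1 - c.a2 * z)) / 2 + Tl l (c.lam * z) := by
    funext z; simp [Tl, hH]
  have hP : Phi (c :: l) z = (1 - c.a1 * z) / (1 - c.a2 * z) * Phi l (c.lam * z) := by
    simp [Phi, hH]
  refine ⟨?_, ?_, ?_, fun him => ?_⟩
  · rw [hT]
    exact ((d1.sub d2).div_const 2).add
      (d3.comp z (f := fun z : ℂ => (c.lam : ℂ) * z) (by fun_prop))
  · rw [hT]
    refine (norm_add_le _ _).trans ?_
    have := norm_sub_le (log (1 - (c.a1 : ℂ) * z)) (log (1 - c.a2 * z))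
    rw [norm_div]
    simp only [Complex.norm_ofNat]
    linarith
  · rw [hP, hT, ← e3, ← e2]
    conv_rhs => rw [← e1]
    rw [← exp_sub, ← exp_add]
    congr 1; ring
  · rw [hT]
    simp [r1 him, r2 him, r3 (by simp [him])]

theorem HdTl1_both (l : List RC) (h : Good l) :
    ((∀ d ∈ l.head?, d.H = false) → ∀ z : ℂ, ‖z‖ ≤ 1 / 2 → HdTl1P l (11 / 10) z) ∧
      ∀ z : ℂ, ‖z‖ ≤ 1 / 16 → HdTl1P l 6 z := by
  induction l with
  | nil =>
    have : ∀ C : ℝ, 0 ≤ C → ∀ z : ℂ, HdTl1P [] C z := fun C hC z =>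
      ⟨by
        have : Tl [] = fun _ => 0 := rfl
        rw [this]; fun_prop,
       by simp only [Tl, norm_zero]; positivity, by simp [Tl, Phi], fun _ => by simp [Tl]⟩
    exact ⟨fun _ z _ => this _ (by norm_num) z, fun z _ => this _ (by norm_num) z⟩
  | cons c l ih =>
    obtain ⟨hc, hh, hl⟩ := h
    obtain ⟨ihA, ihB⟩ := ih hl
    cases hH : c.H with
    | false =>
      refine ⟨fun _ z hz => HdTl1_level hH hc ihB hz, fun z hz => ?_⟩
      obtain ⟨a, b, e⟩ := HdTl1_level hH hc ihB (z := z) (by linarith)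
      exact ⟨a, b.trans (mul_le_mul_of_nonneg_right (by norm_num) (norm_nonneg _)), e⟩
    | true =>
      refine ⟨fun h => ?_, fun z hz => HdTl1_handle hH hc (ihA (hh hH)) hz⟩
      have := h c (by simp)
      rw [hH] at this; exact absurd this (by simp)

theorem Good.tl {l : List RC} (h : Good l) {z : ℂ} (hz : ‖z‖ ≤ 1 / 16) :
    DifferentiableAt ℂ (Tl l) z ∧ ‖Tl l z‖ ≤ 6 * ‖z‖ ∧ exp (2 * Tl l z) = Phi l z ∧
      (z.im = 0 → (Tl l z).im = 0) := (HdTl1_both l h).2 z hz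

end Pool.Agent.MP_92463a_gt
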