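import Pool.Agent.MP_92463a_gt.HdQ2
import Pool.Agent.MP_92463a_gt.HdP3
import Pool.Agent.MP_92463a_gt.HdTl1
import Pool.Agent.MP_92463a_gt.HdTl2

open Set Complex Filter Metric
open scoped Topology ComplexConjugate ContDiff Manifold

noncomputable section

namespace Pool.Agent.MP_92463a_gt

theorem HdL1_lam {ds : List DC} (hd : ∀ d ∈ ds, d.Ok)
    (hh : ((ds.map DC.b).map CB.hl).sum ≤ 2 ^ 40) {t : Bool} {tl : List RC} (ht : Tail t tl) :
    0 < lamP (ds.map DC.cell) ∧ (0 : ℝ) ≤ lamT t (ds.map DC.b) ∧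
      (tl = [] ∨ lamP (ds.map DC.cell) ≤ lamT t (ds.map DC.b)) := by
  have h0 : 0 < lamP (ds.map DC.cell) := lamP_pos fun c hc => by
    obtain ⟨d, hd', rfl⟩ := List.mem_map.1 hc
    exact (hd d hd').ps
  cases t
  · exact ⟨h0, by simp [lamT], Or.inl (ht.1 rfl)⟩
  · exact ⟨h0, h0.le.trans (lamP_le hd hh), Or.inr (lamP_le hd hh)⟩

theorem HdL1_tail {tl : List RC} (hg : Good tl) {Λ l : ℝ} (h0 : 0 < Λ) (hl : 0 ≤ l)
    (h : tl = [] ∨ Λ ≤ l) (ε : Bool) {z : ℂ} (hz : l * ‖z‖ ≤ 1 / 16) :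
    DifferentiableAt ℂ (fun z => pmS ε (Tl tl (Λ * z))) z ∧ ‖pmS ε (Tl tl (Λ * z))‖ ≤ 6 * (l * ‖z‖) ∧
      exp (2 * pmS ε (Tl tl (Λ * z))) = pm ε (Phi tl (Λ * z)) ∧
      (z.im = 0 → (pmS ε (Tl tl (Λ * z))).im = 0) := by
  rcases h with rfl | h
  · have : 0 ≤ 6 * (l * ‖z‖) := by positivity
    cases ε <;> simpa [pmS, pm, Tl, Phi] using this
  · have hn : ‖(Λ : ℂ) * z‖ ≤ l * ‖z‖ := by
      rw [norm_mul, norm_real, Real.norm_of_nonneg h0.le]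
      exact mul_le_mul_of_nonneg_right h (norm_nonneg _)
    obtain ⟨h1, h2, h3, h4⟩ := hg.tl (hn.trans hz)
    have h5 : DifferentiableAt ℂ (fun z => Tl tl (Λ * z)) z :=
      h1.comp z (differentiableAt_id.const_mul _)
    have h6 : ‖Tl tl (Λ * z)‖ ≤ 6 * (l * ‖z‖) := h2.trans (by linarith)
    have h7 : z.im = 0 → (Tl tl (Λ * z)).im = 0 := fun hi => h4 (by simp [hi])
    cases ε
    · refine ⟨h5.neg, by simpa [pmS] using h6, ?_, fun hi => by simpa [pmS] using h7 hi⟩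
      simp only [pmS, pm, Bool.false_eq_true, if_false]
      rw [mul_neg, exp_neg, h3]
    · exact ⟨h5, h6, h3, h7⟩

theorem HdL1_ss {g : Ge} (h : g.Ok) {w : ℂ} (hw : g.Ann w) {as : List AQ} {es : List ℝ}
    (he : List.Forall₂ (fun (a : AQ) (e : ℝ) => |e| ≤ a.h / 2 ^ 40) as es)
    (ha : ∀ a ∈ as, a.ok g = true) :
    ‖SSum as es (g.c + w)‖ ≤ (((as.map fun a => 3 / 4 * a.ex * a.xx g).sum : ℚ) : ℝ) ∧
      DifferentiableAt ℂ (fun w => SSum as es (g.c + w)) w ∧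
      (w.im = 0 → (SSum as es (g.c + w)).im = 0) := by
  induction he with
  | nil => simp [SSum]
  | @cons a e as es h1 _ ih =>
    obtain ⟨i1, i2, i3⟩ := ih fun b hb => ha b (List.mem_cons_of_mem _ hb)
    have h2 := ha a List.mem_cons_self
    have e1 : ∀ s, SSum (a :: as) (e :: es) s = (a.sx : ℂ) / 2 * a.lg e s + SSum as es s :=
      fun s => by simp [SSum]
    simp only [e1]
    refine ⟨?_, ((AQ.lg_diff h h2 h1 hw).const_mul _).add i2, fun hi => ?_⟩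
    · rw [List.map_cons, List.sum_cons, Rat.cast_add]
      exact (norm_add_le _ _).trans (add_le_add (AQ.lg_le h h2 h1 hw) i1)
    · simp [AQ.lg_im h h2 h1 hw hi, i3 hi]

theorem HdL1_log_im {z : ℂ} (h : 0 < z.re) (hi : z.im = 0) : (log z).im = 0 := by
  rw [log_im, arg_eq_zero_iff]
  exact ⟨h.le, hi⟩

theorem HdL1_L0 {g : Ge} (h : g.Ok) {w : ℂ} (hw : g.Ann w) {as : List AQ}
    (ha : ∀ a ∈ as, a.ok g = true) :
    DifferentiableAt ℂ (L0 g as) w ∧ (w.im = 0 → (L0 g as w).im = 0) := by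
  induction as with
  | nil =>
    have e1 : L0 g [] = fun w => -log (g.phi0 w) / 2 := funext fun w => by simp [L0]
    rw [e1]
    refine ⟨((h.phi0_diff hw).clog (Or.inl (h.phi0_re hw))).neg.div_const _, fun hi => ?_⟩
    have : (g.phi0 w).im = 0 := by
      unfold Ge.phi0
      split_ifs <;> simp [div_im, hi]
    simp [HdL1_log_im (h.phi0_re hw) this]
  | cons a as ih =>
    obtain ⟨i1, i2⟩ := ih fun b hb => ha b (List.mem_cons_of_mem _ hb)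
    have h2 := ha a List.mem_cons_self
    have e1 : L0 g (a :: as) = fun w => (a.sx : ℂ) / 2 * log (a.phi g w) + L0 g as w :=
      funext fun w => by
        simp only [L0, List.map_cons, List.sum_cons]
        ring
    rw [e1]
    refine ⟨(((AQ.phi_diff h h2 hw).clog (Or.inl (AQ.phi_re h h2 hw))).const_mul _).add i1,
      fun hi => ?_⟩
    simp [HdL1_log_im (AQ.phi_re h h2 hw) (AQ.phi_im h h2 hi), i2 hi]

theorem HdL1_place {g : Ge} (h : g.Ok) {as : List AQ} {es : List ℝ}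
    (he : List.Forall₂ (fun (a : AQ) (e : ℝ) => |e| ≤ a.h / 2 ^ 40) as es)
    (ha : ∀ a ∈ as, a.ok g = true) :
    List.Forall₂ (fun (a : AQ) (e : ℝ) => a.dp.At (a.et e) ((g.c : ℝ) + g.R) ((g.c : ℝ) - g.R))
      as es := by
  induction he with
  | nil => exact .nil
  | cons h1 _ ih =>
    exact .cons (AQ.place h (ha _ List.mem_cons_self) h1)
      (ih fun b hb => ha b (List.mem_cons_of_mem _ hb))

namespace LC.Ok

variable {C : LC} (h : C.Ok) {w : ℂ}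
include h

theorem es_le : List.Forall₂ (fun (a : AQ) (e : ℝ) => |e| ≤ a.h / 2 ^ 40) C.as C.es :=
  List.rel_append (etas_le _ _ h.oku _ _ _ (by simp)) (etas_le _ _ h.okd _ _ _ (by simp))

theorem T_spec (hw : C.g.Ann w) : DifferentiableAt ℂ (fun w => C.T (C.g.c + w)) w ∧
    ‖C.T (C.g.c + w)‖ ≤ 6 * ((C.lu : ℝ) * ‖(C.g.c : ℂ) + w‖ + (C.ld : ℝ) / ‖(C.g.c : ℂ) + w‖) ∧
    (w.im = 0 → (C.T (C.g.c + w)).im = 0) ∧ 0 ≤ C.lu ∧ 0 ≤ C.ld ∧
    exp (2 * C.T (C.g.c + w)) =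
      pm (epsL C.bu true) (Phi C.tU (lamP (C.du.map DC.cell) * (C.g.c + w))) *
        pm (epsL C.bd false) (Phi C.tD (lamP (C.dd.map DC.cell) * (C.g.c + w)⁻¹)) := by
  obtain ⟨u0, u1, u2⟩ := HdL1_lam h.oku h.hu h.tlu
  obtain ⟨d0, d1, d2⟩ := HdL1_lam h.okd h.hd h.tld
  change (0 : ℝ) ≤ C.lu at u1
  change (0 : ℝ) ≤ C.ld at d1
  change _ ∨ _ ≤ (C.lu : ℝ) at u2
  change _ ∨ _ ≤ (C.ld : ℝ) at d2
  have hu : 16 * ((C.lu : ℝ) * (C.g.sh C.g.r2 : ℝ)) ≤ 1 := by exact_mod_cast h.lu'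
  have hd : 16 * (C.ld : ℝ) ≤ (C.g.smin : ℝ) := by exact_mod_cast h.ld'
  have hs := h.ge.s_ne hw
  have hp : 0 < ‖(C.g.c : ℂ) + w‖ := norm_pos_iff.2 hs
  obtain ⟨a1, a2, a3, a4⟩ := HdL1_tail h.tlu.2 u0 u1 u2 (epsL C.bu true) (z := C.g.c + w)
    (by linarith [mul_le_mul_of_nonneg_left (h.ge.s_le hw) u1])
  obtain ⟨b1, b2, b3, b4⟩ := HdL1_tail h.tld.2 d0 d1 d2 (epsL C.bd false) (z := (C.g.c + w)⁻¹)
    (by
      rw [norm_inv, ← div_eq_mul_inv, div_le_iff₀ hp]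
      linarith [h.ge.s_ge hw])
  have hc : DifferentiableAt ℂ (fun w : ℂ => (C.g.c : ℂ) + w) w := differentiableAt_id.const_add _
  have hc' : DifferentiableAt ℂ (fun w : ℂ => ((C.g.c : ℂ) + w)⁻¹) w := hc.inv hs
  have a5 := a1.comp w hc
  have b5 := b1.comp w hc'
  refine ⟨a5.add b5, ?_, fun hi => ?_, by exact_mod_cast u1,
    by exact_mod_cast d1, ?_⟩
  · rw [norm_inv] at b2
    rw [div_eq_mul_inv]
    exact (norm_add_le _ _).trans (by linarith)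
  · rw [LC.T, add_im, a4 (by simp [hi]), b4 (by simp [hi]), add_zero]
  · rw [LC.T, mul_add, exp_add, a3, b3]

theorem ST_le (hw : C.g.Ann w) :
    ‖SSum C.as C.es (C.g.c + w) + C.T (C.g.c + w)‖ ≤ (C.sb : ℝ) := by
  obtain ⟨-, h1, -, hu, hd, -⟩ := h.T_spec hw
  have h2 := (HdL1_ss h.ge hw h.es_le h.at').1
  have hu' : (0 : ℝ) ≤ C.lu := by exact_mod_cast hu
  have hd' : (0 : ℝ) ≤ C.ld := by exact_mod_cast hd
  have h3 := mul_le_mul_of_nonneg_left (h.ge.s_le hw) hu'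
  have h4 := div_le_div_of_nonneg_left hd' (by exact_mod_cast h.ge.smin_pos) (h.ge.s_ge hw)
  rw [LC.sb, sbd, Rat.cast_add, Rat.cast_mul, Rat.cast_add, Rat.cast_mul, Rat.cast_div,
    Rat.cast_ofNat]
  exact (norm_add_le _ _).trans (by linarith)

theorem diff (hw : C.g.Ann w) : DifferentiableAt ℂ C.Gam w ∧ C.Gam w ≠ 0 := by
  have h0 := h.ge.w_ne hw
  refine ⟨?_, mul_ne_zero (mul_ne_zero (div_ne_zero (pow_ne_zero _ h0) (pow_ne_zero _ h0))
    (exp_ne_zero _)) (exp_ne_zero _)⟩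
  have h1 : DifferentiableAt ℂ (fun w : ℂ => w ^ C.k.np / w ^ C.k.nm) w :=
    (differentiableAt_pow _).div (differentiableAt_pow _) (pow_ne_zero _ h0)
  exact (h1.mul (HdL1_L0 h.ge hw h.at').1.cexp).mul
    ((HdL1_ss h.ge hw h.es_le h.at').2.1.add (h.T_spec hw).1).cexp

theorem at_R : 0 < (C.Gam (C.g.R : ℝ)).re ∧ (C.Gam (C.g.R : ℝ)).im = 0 := by
  have hR : (0 : ℝ) < C.g.R := by exact_mod_cast h.ge.R_pos
  have hw : C.g.Ann ((C.g.R : ℝ) : ℂ) := h.ge.ann_R (by rw [norm_real, Real.norm_of_nonneg hR.le])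
  have hi : ((C.g.R : ℝ) : ℂ).im = 0 := ofReal_im _
  have key : ∀ z : ℂ, z.im = 0 → exp z = (Real.exp z.re : ℝ) := fun z hz => by
    rw [ofReal_exp]
    congr 1
    exact Complex.ext rfl hz
  have h1 := key _ ((HdL1_L0 h.ge hw h.at').2 hi)
  have h2 := key (SSum C.as C.es (C.g.c + (C.g.R : ℝ)) + C.T (C.g.c + (C.g.R : ℝ))) (by
    rw [add_im, (HdL1_ss h.ge hw h.es_le h.at').2.2 hi, (h.T_spec hw).2.2.1 hi, add_zero])
  rw [LC.Gam, Gam0, h1, h2, ← ofReal_pow, ← ofReal_pow, ← ofReal_div, ← ofReal_mul, ← ofReal_mul,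
    ofReal_re, ofReal_im]
  exact ⟨by positivity, rfl⟩

theorem place : PosU C.zin C.kd ((C.g.c : ℝ) + C.g.R) ((C.g.c : ℝ) - C.g.R) C.j C.up 1 ∧
    Sm C.dn 1 (min ((C.g.c : ℝ) + C.g.R) |(C.g.c : ℝ) - C.g.R|) := by
  obtain ⟨u0, u1, u2⟩ := HdL1_lam h.oku h.hu h.tlu
  obtain ⟨d0, d1, d2⟩ := HdL1_lam h.okd h.hd h.tld
  change (0 : ℝ) ≤ C.lu at u1
  change _ ∨ _ ≤ (C.lu : ℝ) at u2
  change _ ∨ _ ≤ (C.ld : ℝ) at d2
  have hu : 16 * ((C.lu : ℝ) * (C.g.sh C.g.r2 : ℝ)) ≤ 1 := by exact_mod_cast h.lu'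
  have hd : 16 * (C.ld : ℝ) ≤ (C.g.smin : ℝ) := by exact_mod_cast h.ld'
  have pu := posU_atoms C.zin C.kd _ _ C.j C.du 1 0 true 0
    (HdL1_place h.ge (etas_le _ _ h.oku _ _ _ (by simp))
      fun a ha => h.at' a (List.mem_append_left _ ha))
  have pd := sm_atoms _ _ 0 C.dd 1 0 false 0
    (HdL1_place h.ge (etas_le _ _ h.okd _ _ _ (by simp))
      fun a ha => h.at' a (List.mem_append_right _ ha))
  rw [Rat.cast_one, Real.exp_zero, one_mul] at pu pd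
  refine ⟨pu.append (by simpa using h.jle) ?_, pd.append ?_⟩
  · rcases u2 with e | u2
    · rw [e]
      trivial
    have hR : (0 : ℝ) < C.g.R := by exact_mod_cast h.ge.R_pos
    have hR2 : (C.g.R : ℝ) < C.g.r2 := by exact_mod_cast h.ge.R_lt_r2
    have hs : (C.g.sh C.g.r2 : ℝ) = |(C.g.c : ℝ)| + C.g.r2 := by simp [Ge.sh]
    have key : ∀ x : ℝ, |x| ≤ |(C.g.c : ℝ)| + |(C.g.R : ℝ)| →
        16 * (1 * lamP (C.du.map DC.cell)) * |x| ≤ 1 := fun x hx => by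
      rw [abs_of_pos hR] at hx
      have := mul_le_mul u2 (show |x| ≤ (C.g.sh C.g.r2 : ℝ) by linarith) (abs_nonneg _) u1
      linarith
    exact h.tlu.2.posU _ _ (by linarith) (key _ (abs_add_le _ _)) (key _ (abs_sub _ _))
  · rcases d2 with e | d2
    · rw [e]
      trivial
    exact h.tld.2.sm (by linarith) (by linarith [h.ge.ends.2.2])

end LC.Ok

end Pool.Agent.MP_92463a_gt
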