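import Pool.Agent.MP_92463a_gt.HdL1

open Set Complex Filter Metric
open scoped Topology ComplexConjugate ContDiff Manifold

noncomputable section

namespace Pool.Agent.MP_92463a_gt

/-- the exponent of a point -/
def HdL2_n (a : AQ) : ℤ := (if a.up then 1 else -1) * (if a.cube then 3 else 1)

theorem HdL2_zp (a : AQ) (z : ℂ) : a.zp z = z ^ HdL2_n a := by
  unfold AQ.zp pm HdL2_n
  cases a.up <;> cases a.cube <;> simp

theorem HdL2_exp (a : AQ) (u : ℂ) : exp ((a.sx : ℂ) / 2 * u) ^ 2 = a.zp (exp u) := by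
  have h : (a.sx : ℂ) = HdL2_n a := by
    unfold AQ.sx AQ.ex HdL2_n
    cases a.up <;> cases a.cube <;> simp
  rw [HdL2_zp, ← exp_int_mul, ← exp_nat_mul, h]
  congr 1
  push_cast
  ring

theorem HdL2_F0 {g : Ge} (h : g.Ok) {w : ℂ} (hw : g.Ann w) (as : List AQ)
    (ha : ∀ a ∈ as, a.ok g = true) :
    (as.map fun a => a.zp (a.F0 (g.c + w))).prod ^ 2 =
      exp (as.map fun a => (a.sx : ℂ) / 2 * log (a.phi g w)).sum ^ 4 *
        (w ^ (as.map AQ.wn).sum) ^ 2 := by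
  induction as with
  | nil => simp
  | cons a l ih =>
    have h1 := ha a List.mem_cons_self
    have h2 : a.phi g w ≠ 0 := fun e => by simpa [e] using AQ.phi_re h h1 hw
    have h3 : a.zp (a.F0 (g.c + w)) ^ 2 =
        (exp ((a.sx : ℂ) / 2 * log (a.phi g w)) ^ 2) ^ 2 * (w ^ a.wn) ^ 2 := by
      have c : ∀ (z : ℂ) (n : ℤ), (z ^ n) ^ 2 = (z ^ 2) ^ n := fun z n => by
        rw [pow_two, pow_two, mul_zpow]
      rw [HdL2_exp, exp_log h2, HdL2_zp, HdL2_zp, c, c, c, AQ.F0_sq h h1 hw, mul_zpow, AQ.wn]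
      split_ifs with e <;> simp [HdL2_n, *]
    simp only [List.map_cons, List.prod_cons, List.sum_cons]
    rw [mul_pow, ih fun b hb => ha b (List.mem_cons_of_mem _ hb), h3, exp_add,
      zpow_add₀ (h.w_ne hw)]
    ring

theorem HdL2_SS {g : Ge} (h : g.Ok) {w : ℂ} (hw : g.Ann w) {as : List AQ} {es : List ℝ}
    (he : List.Forall₂ (fun (a : AQ) (e : ℝ) => |e| ≤ a.h / 2 ^ 40) as es)
    (ha : ∀ a ∈ as, a.ok g = true) :
    (as.map fun a => a.zp (a.F0 (g.c + w))).prod * exp (SSum as es (g.c + w)) ^ 2 =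
      (List.zipWith (fun (a : AQ) (e : ℝ) => a.zp (1 - a.al * Real.exp e * a.zz (g.c + w)))
        as es).prod := by
  unfold SSum
  induction he with
  | nil => simp
  | @cons a e l m h1 _ ih =>
    simp only [List.map_cons, List.prod_cons, List.zipWith_cons_cons, List.sum_cons]
    rw [← ih fun b hb => ha b (List.mem_cons_of_mem _ hb),
      ← AQ.lg_exp h (ha a List.mem_cons_self) h1 hw, exp_add, mul_pow, HdL2_exp,
      HdL2_zp a (_ * _), mul_zpow, ← HdL2_zp, ← HdL2_zp]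
    ring

theorem HdL2_zip (as : List AQ) (s z : ℂ) (hz : ∀ a ∈ as, a.zz s = z) (es : List ℝ) :
    List.zipWith (fun (a : AQ) (e : ℝ) => a.zp (1 - a.al * Real.exp e * a.zz s)) as es =
      List.zipWith (fun (a : AQ) (e : ℝ) => a.zp (1 - a.al * Real.exp e * z)) as es := by
  induction as generalizing es with
  | nil => rfl
  | cons a l ih =>
    cases es with
    | nil => rfl
    | cons e m =>
      rw [List.zipWith_cons_cons, List.zipWith_cons_cons, hz a List.mem_cons_self,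
        ih fun b hb => hz b (List.mem_cons_of_mem _ hb)]

namespace LC.Ok

variable {C : LC} (h : C.Ok) {w : ℂ}
include h

theorem Gam0_pow (hw : C.g.Ann w) : Gam0 C.g C.k C.as w ^ 4 =
    (((C.g.c : ℂ) + w)⁻¹ * (C.as.map fun a => a.zp (a.F0 (C.g.c + w))).prod) ^ 2 := by
  have w0 := h.ge.w_ne hw
  have s0 := h.ge.s_ne hw
  have p0 : C.g.phi0 w ≠ 0 := fun e => by simpa [e] using h.ge.phi0_re hw
  have e1 : exp (-log (C.g.phi0 w) / 2) ^ 2 = (C.g.phi0 w)⁻¹ := by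
    rw [← exp_nat_mul, show ((2 : ℕ) : ℂ) * (-log (C.g.phi0 w) / 2) = -log (C.g.phi0 w) by
      push_cast; ring, exp_neg, exp_log p0]
  have e2 : (w ^ C.k.np / w ^ C.k.nm) ^ 2 * (C.g.phi0 w)⁻¹ =
      ((C.g.c : ℂ) + w)⁻¹ * w ^ (C.as.map AQ.wn).sum := by
    rw [← zpow_natCast w, ← zpow_natCast w, ← zpow_sub₀ w0, pow_two, ← zpow_add₀ w0, ← two_mul,
      h.wn, zpow_sub₀ w0, Ge.phi0]
    split_ifs
    · rw [zpow_one]
      field_simp
    · rw [zpow_zero, div_one, mul_comm]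
  rw [mul_pow _ _ 2, HdL2_F0 h.ge hw _ h.at', mul_left_comm, ← mul_pow, ← e2, ← e1, Gam0, L0,
    exp_add]
  ring

theorem Gam_pow (hw : C.g.Ann w) : C.Gam w ^ 4 = ZZ C.up C.dn (C.g.c + w) ^ 2 := by
  have hu := phi_atoms (disp C.zin C.kd) C.j C.du C.tU 1 0 true 0 (C.g.c + w)
  have hd := phi_atoms (fun _ _ _ => .low) 0 C.dd C.tD 1 0 false 0 (C.g.c + w)⁻¹
  rw [Real.exp_zero, Rat.cast_one, ofReal_one, one_mul, one_mul] at hu hd
  have zu : ∀ a ∈ C.au, a.zz (C.g.c + w) = C.g.c + w := fun a ha => by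
    obtain ⟨i, H, b, e⟩ := atQ_dp _ _ _ _ _ _ a ha
    exact if_neg (e ▸ disp_ne _ _ _ _ _)
  have zd : ∀ a ∈ C.ad, a.zz (C.g.c + w) = (C.g.c + w)⁻¹ := fun a ha => by
    obtain ⟨i, H, b, e⟩ := atQ_dp _ _ _ _ _ _ a ha
    exact if_pos e
  have e1 := HdL2_SS h.ge hw h.es_le h.at'
  have hl : C.au.length = (etas C.du 0).length := by
    rw [LC.au, atQ_length, etas_length, LC.bu, List.length_map]
  conv_rhs at e1 => rw [LC.as, LC.es, List.zipWith_append hl, List.prod_append,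
    HdL2_zip _ _ _ zu, HdL2_zip _ _ _ zd]
  have e2 : ZZ C.up C.dn (C.g.c + w) = ((C.g.c : ℂ) + w)⁻¹ * (pm true (Phi C.up (C.g.c + w)) *
      pm false (Phi C.dn (C.g.c + w)⁻¹)) := by
    rw [ZZ, div_eq_mul_inv, mul_assoc]
    rfl
  rw [e2, LC.up, LC.dn, hu, hd, mul_mul_mul_comm]
  change _ = (_ * ((List.zipWith _ C.au _).prod * (List.zipWith _ C.ad _).prod *
    (pm (epsL C.bu true) _ * pm (epsL C.bd false) _))) ^ 2
  rw [← e1, ← (h.T_spec hw).2.2.2.2.2, LC.Gam, mul_pow, h.Gam0_pow hw, exp_add, two_mul, exp_add]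
  ring

end LC.Ok

end Pool.Agent.MP_92463a_gt
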