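import Pool.Agent.MP_92463a_gt.HdL2

open Set Complex Filter Metric
open scoped Topology ComplexConjugate ContDiff Manifold

noncomputable section

namespace Pool.Agent.MP_92463a_gt

theorem HdL3_prod {α : Type} (l : List α) (f : α → ℂ) (p m : α → ℚ)
    (h : ∀ a ∈ l, 0 < ‖f a‖ ∧ ‖f a‖ ≤ (p a : ℝ) ∧ ‖f a‖⁻¹ ≤ (m a : ℝ)) :
    0 < ‖(l.map f).prod‖ ∧ ‖(l.map f).prod‖ ≤ ((l.map p).prod : ℚ) ∧
      ‖(l.map f).prod‖⁻¹ ≤ ((l.map m).prod : ℚ) := by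
  induction l with
  | nil => simp
  | cons a l ih =>
    obtain ⟨a0, a1, a2⟩ := h a List.mem_cons_self
    obtain ⟨b0, b1, b2⟩ := ih fun b hb => h b (List.mem_cons_of_mem _ hb)
    simp only [List.map_cons, List.prod_cons, norm_mul, Rat.cast_mul, mul_inv]
    exact ⟨mul_pos a0 b0, mul_le_mul a1 b1 b0.le (a0.le.trans a1),
      mul_le_mul a2 b2 (inv_pos.2 b0).le ((inv_pos.2 a0).le.trans a2)⟩

theorem HdL3_qs (x : ℚ) : (0 : ℝ) ≤ (qs x : ℚ) := by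
  have : 0 ≤ qs x := by unfold qs; positivity
  exact_mod_cast this

theorem LC.Ok.bound {C : LC} (h : C.Ok) {r : ℚ} (hr : r = C.g.r1 ∨ r = C.g.r2) {w : ℂ}
    (hw : ‖w‖ = (r : ℝ)) : ‖fI C.Gam C.g.c w‖ ≤ (mbd C.g C.as C.sb r : ℝ) := by
  have h12 : C.g.r1 < C.g.r2 := h.ge.r1_lt_R.trans h.ge.R_lt_r2
  have h1 : C.g.r1 ≤ r := by rcases hr with e | e <;> rw [e]; exact h12.le
  have h2 : r ≤ C.g.r2 := by
    rcases hr with e | e <;> rw [e]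
    exact h12.le
  have hA : C.g.Ann w := ⟨by rw [hw]; exact_mod_cast h1, by rw [hw]; exact_mod_cast h2⟩
  have hsl : (0 : ℝ) < (C.g.sl r : ℚ) := by exact_mod_cast h.ge.smin_pos.trans_le (h.ge.sl_ge h1 h2)
  obtain ⟨s1, s2⟩ := h.ge.s_circ hw
  have s0 : 0 < ‖(C.g.c : ℂ) + w‖ := hsl.trans_le s1
  obtain ⟨p0, p1, p2⟩ := HdL3_prod C.as (fun a => a.zp (a.F0 (C.g.c + w))) (fun a => a.bp C.g r)
    (fun a => a.bm C.g r) fun a ha => AQ.circ_le h.ge (h.at' a ha) h1 h2 hw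
  have hG : ‖Gam0 C.g C.k C.as w‖ ^ 2 =
      ‖(C.g.c : ℂ) + w‖⁻¹ * ‖(C.as.map fun a => a.zp (a.F0 (C.g.c + w))).prod‖ := by
    have e := congrArg norm (h.Gam0_pow hA)
    rw [norm_pow, norm_pow, norm_mul, norm_inv, show 4 = 2 * 2 from rfl, pow_mul] at e
    exact (pow_left_inj₀ (by positivity) (by positivity) two_ne_zero).1 e
  obtain ⟨q1, q2⟩ := h.sq r hr
  have q1' : (g2p C.g C.as r : ℝ) ≤ (qs (g2p C.g C.as r) : ℝ) ^ 2 := by exact_mod_cast q1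
  have q2' : (g2m C.g C.as r : ℝ) ≤ (qs (g2m C.g C.as r) : ℝ) ^ 2 := by exact_mod_cast q2
  have g1 : ‖Gam0 C.g C.k C.as w‖ ≤ (qs (g2p C.g C.as r) : ℝ) := by
    refine (pow_le_pow_iff_left₀ (norm_nonneg _) (HdL3_qs _) two_ne_zero).1 (le_trans ?_ q1')
    rw [hG, g2p, Rat.cast_div, div_eq_inv_mul]
    exact mul_le_mul (inv_anti₀ hsl s1) p1 p0.le (inv_pos.2 hsl).le
  have g2 : ‖Gam0 C.g C.k C.as w‖⁻¹ ≤ (qs (g2m C.g C.as r) : ℝ) := by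
    refine (pow_le_pow_iff_left₀ (inv_nonneg.2 (norm_nonneg _)) (HdL3_qs _) two_ne_zero).1
      (le_trans ?_ q2')
    rw [inv_pow, hG, g2m, Rat.cast_mul, mul_inv, inv_inv, mul_comm]
    exact mul_le_mul p2 s2 s0.le ((inv_pos.2 p0).le.trans p2)
  have hX := h.ST_le hA
  have hsb : (C.sb : ℝ) ≤ 2 := by exact_mod_cast h.sb'
  have hE := exp_sb hsb
  generalize hXX : SSum C.as C.es (C.g.c + w) + C.T (C.g.c + w) = X at hX
  have x1 : ‖exp X‖ ≤ (1 - (C.sb : ℝ) / 4)⁻¹ ^ 4 := by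
    rw [norm_exp]
    exact (Real.exp_le_exp.2 ((re_le_norm X).trans hX)).trans hE
  have x2 : ‖exp X‖⁻¹ ≤ (1 - (C.sb : ℝ) / 4)⁻¹ ^ 4 := by
    rw [norm_exp, ← Real.exp_neg]
    refine (Real.exp_le_exp.2 (le_trans ?_ hX)).trans hE
    exact (neg_le_abs _).trans (abs_re_le_norm X)
  have hE0 : (0 : ℝ) ≤ (1 - (C.sb : ℝ) / 4)⁻¹ ^ 4 := by positivity
  have y : ‖C.Gam w + (C.Gam w)⁻¹‖ ≤
      ((qs (g2p C.g C.as r) : ℝ) + (qs (g2m C.g C.as r) : ℝ)) * (1 - (C.sb : ℝ) / 4)⁻¹ ^ 4 := by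
    refine (norm_add_le _ _).trans ?_
    rw [norm_inv, LC.Gam, hXX, norm_mul, mul_inv, add_mul]
    exact add_le_add (mul_le_mul g1 x1 (norm_nonneg _) (HdL3_qs _))
      (mul_le_mul g2 x2 (inv_nonneg.2 (norm_nonneg _)) (HdL3_qs _))
  have z : ‖w / (((C.g.c : ℝ) : ℂ) + w)‖ ≤ (r : ℝ) / (C.g.sl r : ℚ) := by
    rw [norm_div, ofReal_ratCast, ← hw]
    exact div_le_div_of_nonneg_left (norm_nonneg _) hsl s1
  rw [fI, norm_mul, mbd]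
  push_cast
  exact mul_le_mul y (by simpa using z) (norm_nonneg _) ((norm_nonneg _).trans y)

end Pool.Agent.MP_92463a_gt
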