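import Pool.Agent.MP_92463a_gt.HdP2

open Set Complex Filter Metric
open scoped Topology ComplexConjugate ContDiff Manifold

noncomputable section

namespace Pool.Agent.MP_92463a_gt

theorem HdM1_getD {l1 l2 : List ℝ} {P Q : ℝ → Prop} (h1 : ∀ a ∈ l1, P a) (h2 : ∀ a ∈ l2, Q a) :
    (∀ i < l1.length, P ((l1 ++ l2).getD i 1)) ∧
      ∀ i, l1.length ≤ i → i < (l1 ++ l2).length → Q ((l1 ++ l2).getD i 1) := by
  refine ⟨fun i hi => ?_, fun i hi hi' => ?_⟩
  · rw [List.getD_append _ _ _ _ hi, List.getD_eq_getElem _ _ hi]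
    exact h1 _ (List.getElem_mem _)
  · have h3 : i - l1.length < l2.length := by
      rw [List.length_append] at hi'
      omega
    rw [List.getD_append_right _ _ _ _ hi, List.getD_eq_getElem _ _ h3]
    exact h2 _ (List.getElem_mem _)

theorem HdM1_inA {L : List RC} {l1 l2 : List ℝ} {k : ℕ} {x : ℝ} (e : aL L 1 = l1 ++ l2)
    (hk : l1.length = k) (hx : 0 < x) (h1 : ∀ a ∈ l1, a < x) (h2 : ∀ a ∈ l2, x < a) :
    (dat L).InA k x := by
  have h := HdM1_getD (P := fun a => a < x) (Q := fun a => x < a) h1 h2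
  rw [← e, hk, aL_length] at h
  exact ⟨hx, h⟩

theorem HdM1_inB {L : List RC} {l1 l2 : List ℝ} {k : ℕ} {x : ℝ} (e : bL L 1 = l1 ++ l2)
    (hk : l1.length = k) (hx : x < 0) (h1 : ∀ a ∈ l1, a < -x) (h2 : ∀ a ∈ l2, -x < a) :
    (dat L).InB k x := by
  have h := HdM1_getD (P := fun a => a < -x) (Q := fun a => -x < a) h1 h2
  rw [← e, hk, bL_length] at h
  exact ⟨hx, h⟩

theorem HdM1_at {d : Dp} {e u v t : ℝ} (ht : 0 < t) (h : d.At e u v) :
    d.At (e / t) (u / t) (v / t) := by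
  cases d
  · exact ⟨div_lt_div_of_pos_right h.1 ht, div_lt_div_of_pos_right h.2 ht⟩
  · exact div_lt_div_of_pos_right h ht
  · exact div_lt_div_of_pos_right h ht
  · change |e / t| < u / t ∧ |e / t| < |v / t|
    rw [abs_div, abs_div, abs_of_pos ht]
    exact ⟨div_lt_div_of_pos_right h.1 ht, div_lt_div_of_pos_right h.2 ht⟩

theorem HdM1_scale {zin kd : Bool} {u v t : ℝ} (ht : 0 < t) (l : List RC) (j : ℕ) (Λ : ℝ)
    (h : PosU zin kd u v j l Λ) : PosU zin kd (u / t) (v / t) j l (Λ * t) := by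
  induction l generalizing j Λ with
  | nil => trivial
  | cons c l ih =>
    have e : ∀ a : ℝ, (Λ * t * a)⁻¹ = (Λ * a)⁻¹ / t := fun a => by
      rw [mul_right_comm, mul_inv, div_eq_mul_inv]
    refine ⟨?_, ?_, ?_⟩
    · rw [e]
      exact HdM1_at ht h.1
    · rw [e]
      exact HdM1_at ht h.2.1
    · rw [mul_right_comm]
      exact ih _ _ h.2.2

theorem HdM1_a1 {c : RC} (hc : c.H = false) (Λ : ℝ) : (Λ * c.a1)⁻¹ = -(Λ * c.y)⁻¹ := by
  simp only [RC.a1, hc, Bool.false_eq_true, if_false, mul_neg, inv_neg]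

theorem HdM1_post {zin kd : Bool} {u v : ℝ} (l : List RC) (Λ : ℝ) (h : PosU zin kd u v 0 l Λ) :
    (∀ a ∈ aL l Λ, u < a) ∧ ∀ b ∈ bL l Λ, -v < b := by
  induction l generalizing Λ with
  | nil => simp [aL, bL]
  | cons c l ih =>
    obtain ⟨h1, h2, h3⟩ := h
    obtain ⟨k1, k2⟩ := ih _ h3
    cases hc : c.H
    · rw [hc] at h1 h2
      rw [HdM1_a1 hc] at h1
      simp only [aL, bL, hc, Bool.false_eq_true, if_false, List.forall_mem_cons]
      exact ⟨⟨h2, k1⟩, neg_lt.1 h1, k2⟩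
    · rw [hc] at h1 h2
      simp only [aL, bL, hc, if_true, List.forall_mem_cons]
      exact ⟨⟨h2, h1, k1⟩, k2⟩

theorem HdM1_mid {zin kd : Bool} {u v : ℝ} (l t : List RC) (Λ : ℝ)
    (h : PosU zin kd u v (l.length + 1) (l ++ t) Λ) :
    (∀ a ∈ aL l Λ, a < if zin then u else v) ∧ (zin = true → ∀ b ∈ bL l Λ, b < -v) ∧
      PosU zin kd u v 1 t (Λ * lamP l) := by
  induction l generalizing Λ with
  | nil => simpa [aL, bL, lamP] using h
  | cons c l ih =>
    obtain ⟨h1, h2, h3⟩ := h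
    obtain ⟨k1, k2, k3⟩ := ih _ h3
    rw [lamP_cons, ← mul_assoc]
    have q : ∀ e : ℝ, (if zin then Dp.ins else Dp.lef).At e u v →
        (e < if zin then u else v) ∧ (zin = true → v < e) := fun e he => by
      cases zin
      · exact ⟨he, fun hh => absurd hh (by simp)⟩
      · exact ⟨he.2, fun _ => he.1⟩
    have q1 := q _ h1
    have q2 := q _ h2
    cases hc : c.H
    · rw [HdM1_a1 hc] at q1
      simp only [aL, bL, hc, Bool.false_eq_true, if_false, List.forall_mem_cons]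
      exact ⟨⟨q2.1, k1⟩, fun hz => ⟨lt_neg.1 (q1.2 hz), k2 hz⟩, k3⟩
    · simp only [aL, bL, hc, if_true, List.forall_mem_cons]
      exact ⟨⟨q2.1, q1.1, k1⟩, k2, k3⟩

theorem LF.mem {pre mid post : List RC} {c0 : RC} (hp : ∀ c ∈ pre ++ (mid ++ c0 :: post), c.Ps)
    {kd : Bool} {c R F : ℝ}
    (h : LF (mid ++ c0 :: post) (rf pre) (!(c0.H && kd)) kd (mid.length + 1) c R F) :
    (dat (pre ++ (mid ++ c0 :: post))).InA (lsu ((pre ++ mid).map RC.H) c0.H kd)
        ((c + R) / lamP pre) ∧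
      (dat (pre ++ (mid ++ c0 :: post))).InS (lsv ((pre ++ mid).map RC.H) c0.H kd)
        ((c - R) / lamP pre) := by
  have hpre : ∀ c ∈ pre, c.Ps := fun c hc => hp c (List.mem_append_left _ hc)
  have h0 : 0 < lamP pre := lamP_pos hpre
  obtain ⟨s1, s2⟩ := Sm.below hpre one_pos h.sm
  obtain ⟨m1, m2, m3, m4, m5⟩ := HdM1_mid _ _ _ (HdM1_scale h0 _ _ _ h.pu)
  obtain ⟨p1, p2⟩ := HdM1_post _ _ m5
  have hu : 0 < (c + R) / lamP pre := div_pos h.u_pos h0
  have hvu : (c - R) / lamP pre < (c + R) / lamP pre :=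
    div_lt_div_of_pos_right (by linarith [h.R_pos]) h0
  have hv := h.v_sg
  have a1 : ∀ a ∈ aL pre 1, a < (c + R) / lamP pre ∧ a < |c - R| / lamP pre := fun a ha => by
    have := lt_min_iff.1 (s1 a ha)
    rwa [one_mul, ← lt_div_iff₀ h0, ← lt_div_iff₀ h0] at this
  have b1 : c - R < 0 → ∀ b ∈ bL pre 1, b < -((c - R) / lamP pre) := fun hv b hb => by
    have := (lt_min_iff.1 (s2 b hb)).2
    rwa [one_mul, ← lt_div_iff₀ h0, abs_of_neg hv, neg_div] at this
  have eA : aL (pre ++ (mid ++ c0 :: post)) 1 = aL pre 1 ++ aL mid (1 * lamP pre) ++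
      aL (c0 :: post) (1 * lamP pre * lamP mid) := by rw [aL_append, aL_append, List.append_assoc]
  have eB : bL (pre ++ (mid ++ c0 :: post)) 1 = bL pre 1 ++ bL mid (1 * lamP pre) ++
      bL (c0 :: post) (1 * lamP pre * lamP mid) := by rw [bL_append, bL_append, List.append_assoc]
  have lA : (aL pre 1 ++ aL mid (1 * lamP pre)).length = nA ((pre ++ mid).map RC.H) := by
    rw [← aL_append, aL_length]
  have lB : (bL pre 1 ++ bL mid (1 * lamP pre)).length = nB ((pre ++ mid).map RC.H) := by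
    rw [← bL_append, bL_length]
  have a2 : ∀ a ∈ aL pre 1 ++ aL mid (1 * lamP pre), a < (c + R) / lamP pre := by
    refine List.forall_mem_append.2 ⟨fun a ha => (a1 a ha).1, fun a ha => (m1 a ha).trans_le ?_⟩
    split_ifs
    exacts [le_rfl, hvu.le]
  have b2 : (!(c0.H && kd)) = true → (c - R) / lamP pre < 0 ∧
      ∀ b ∈ bL pre 1 ++ bL mid (1 * lamP pre), b < -((c - R) / lamP pre) := fun hz => by
    rw [if_pos hz] at hv
    exact ⟨div_neg_of_neg_of_pos hv h0, List.forall_mem_append.2 ⟨b1 hv, m2 hz⟩⟩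
  have a3 : (!(c0.H && kd)) = false →
      ∀ a ∈ aL pre 1 ++ aL mid (1 * lamP pre), a < (c - R) / lamP pre := fun hz => by
    rw [hz] at hv m1
    exact List.forall_mem_append.2 ⟨fun a ha => abs_of_pos (a := c - R) hv ▸ (a1 a ha).2, m1⟩
  generalize aL pre 1 ++ aL mid (1 * lamP pre) = A at eA lA a2 a3
  generalize bL pre 1 ++ bL mid (1 * lamP pre) = B at eB lB b2
  cases hc : c0.H <;> cases kd <;> rw [hc] at m3 m4 b2 a3 <;>
    simp only [aL, bL, hc, Bool.false_eq_true, if_false, if_true] at eA eB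
  · rw [HdM1_a1 hc] at m3
    exact ⟨HdM1_inA (eA.trans (List.append_assoc _ [_] _).symm) (by simp [lsu, lA]) hu
      (List.forall_mem_append.2 ⟨a2, List.forall_mem_singleton.2 m4.2⟩) p1,
      HdM1_inB eB lB (b2 rfl).1 (b2 rfl).2 (List.forall_mem_cons.2 ⟨neg_lt.1 m3, p2⟩)⟩
  · rw [HdM1_a1 hc] at m3
    exact ⟨HdM1_inA eA lA hu a2 (List.forall_mem_cons.2 ⟨m4, p1⟩),
      HdM1_inB (eB.trans (List.append_assoc _ [_] _).symm) (by simp [lsv, lB]) (b2 rfl).1
        (List.forall_mem_append.2 ⟨(b2 rfl).2, List.forall_mem_singleton.2 (lt_neg.1 m3.1)⟩) p2⟩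
  · exact ⟨HdM1_inA (eA.trans (List.append_assoc _ [_] _).symm) (by simp [lsu, lA]) hu
      (List.forall_mem_append.2 ⟨a2, List.forall_mem_singleton.2 m4.2⟩)
      (List.forall_mem_cons.2 ⟨m3, p1⟩), HdM1_inB eB lB (b2 rfl).1 (b2 rfl).2 p2⟩
  · rw [hc] at hv
    have hv' : 0 < c - R := hv
    refine ⟨HdM1_inA (eA.trans (List.append_assoc _ [_, _] _).symm) (by simp [lsu, lA]) hu
      (List.forall_mem_append.2 ⟨a2, List.forall_mem_cons.2
        ⟨m4.2, List.forall_mem_singleton.2 m3.2⟩⟩) p1,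
      HdM1_inA eA lA (div_pos hv' h0) (a3 rfl) (List.forall_mem_cons.2 ⟨m4.1,
        List.forall_mem_cons.2 ⟨m3.1, fun a ha => hvu.trans (p1 a ha)⟩⟩)⟩

end Pool.Agent.MP_92463a_gt
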