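import Pool.Agent.MP_92463a_gt.Hd2
import Pool.Agent.MP_92463a_gt.Alg

open Set Complex Filter Metric
open scoped Topology ComplexConjugate ContDiff Manifold

noncomputable section

namespace Pool.Agent.MP_92463a_gt

theorem aL_length (l : List RC) (Λ : ℝ) : (aL l Λ).length = nA (l.map RC.H) := by
  induction l generalizing Λ with
  | nil => rfl
  | cons c l ih => cases h : c.H <;> simp [aL, nA, h, ih]

theorem bL_length (l : List RC) (Λ : ℝ) : (bL l Λ).length = nB (l.map RC.H) := by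
  induction l generalizing Λ with
  | nil => rfl
  | cons c l ih => cases h : c.H <;> simp [bL, nB, h, ih]

theorem nA_append (l t : List Bool) : nA (l ++ t) = nA l + nA t := by
  induction l with
  | nil => simp [nA]
  | cons c l ih => cases c <;> simp [nA, ih] <;> omega

theorem nB_append (l t : List Bool) : nB (l ++ t) = nB l + nB t := by
  induction l with
  | nil => simp [nB]
  | cons c l ih => cases c <;> simp [nB, ih, Nat.add_right_comm]

theorem lamP_append (l t : List RC) : lamP (l ++ t) = lamP l * lamP t := by simp [lamP]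

theorem lamP_cons (c : RC) (l : List RC) : lamP (c :: l) = c.lam * lamP l := by simp [lamP]

theorem RC.Ps.lam_pos {c : RC} (h : c.Ps) : 0 < c.lam := by
  unfold RC.lam
  split_ifs
  · exact inv_pos.2 h.1
  · exact mul_pos h.1 h.2

theorem lamP_pos {l : List RC} (h : ∀ c ∈ l, c.Ps) : 0 < lamP l := by
  refine List.prod_pos fun a ha => ?_
  obtain ⟨c, hc, rfl⟩ := List.mem_map.1 ha
  exact (h c hc).lam_pos

theorem aL_append (l t : List RC) (Λ : ℝ) : aL (l ++ t) Λ = aL l Λ ++ aL t (Λ * lamP l) := by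
  induction l generalizing Λ with
  | nil => simp [aL, lamP]
  | cons c l ih => cases h : c.H <;> simp [aL, h, ih, lamP_cons, mul_assoc]

theorem bL_append (l t : List RC) (Λ : ℝ) : bL (l ++ t) Λ = bL l Λ ++ bL t (Λ * lamP l) := by
  induction l generalizing Λ with
  | nil => simp [bL, lamP]
  | cons c l ih => cases h : c.H <;> simp [bL, h, ih, lamP_cons, mul_assoc]

theorem aL_pos {l : List RC} (h : ∀ c ∈ l, c.Ps) {Λ : ℝ} (h0 : 0 < Λ) :
    ∀ a ∈ aL l Λ, 0 < a := by
  induction l generalizing Λ with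
  | nil => simp [aL]
  | cons c l ih =>
    obtain ⟨hx, hy⟩ := h c List.mem_cons_self
    have h1 := ih (fun d hd => h d (List.mem_cons_of_mem _ hd))
      (mul_pos h0 (h c List.mem_cons_self).lam_pos)
    cases hc : c.H
    · simp only [aL, RC.a2, hc, Bool.false_eq_true, if_false, List.forall_mem_cons]
      exact ⟨by positivity, h1⟩
    · simp only [aL, RC.a1, RC.a2, hc, if_true, List.forall_mem_cons]
      exact ⟨by positivity, by positivity, h1⟩

theorem bL_pos {l : List RC} (h : ∀ c ∈ l, c.Ps) {Λ : ℝ} (h0 : 0 < Λ) :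
    ∀ b ∈ bL l Λ, 0 < b := by
  induction l generalizing Λ with
  | nil => simp [bL]
  | cons c l ih =>
    obtain ⟨hx, hy⟩ := h c List.mem_cons_self
    have h1 := ih (fun d hd => h d (List.mem_cons_of_mem _ hd))
      (mul_pos h0 (h c List.mem_cons_self).lam_pos)
    cases hc : c.H
    · simp only [bL, hc, Bool.false_eq_true, if_false, List.forall_mem_cons]
      exact ⟨by positivity, h1⟩
    · simp only [bL, hc, if_true]
      exact h1

/-- `z` or its inverse -/
def HdP1_pw (i : ℕ) (z : ℂ) : ℂ := if Even i then z else z⁻¹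

theorem HdP1_zero (z : ℂ) : HdP1_pw 0 z = z := if_pos Even.zero

theorem HdP1_succ (i : ℕ) (z : ℂ) : HdP1_pw (i + 1) z = (HdP1_pw i z)⁻¹ := by
  unfold HdP1_pw
  by_cases h : Even i <;> simp [Nat.even_add_one, h]

theorem HdP1_exp (i : ℕ) (z : ℂ) : exp (sg i * z) = HdP1_pw i (exp z) := by
  unfold HdP1_pw sg
  split_ifs with h
  · simp [h.neg_one_pow]
  · simp [(Nat.not_even_iff_odd.1 h).neg_one_pow, exp_neg]

theorem HdP1_phi (t : ℂ) (l : List RC) (Λ : ℝ) :
    (∏ j ∈ Finset.range (nB (l.map RC.H)), HdP1_pw j ((1 + t / ((bL l Λ).getD j 1 : ℝ)) ^ 3)) *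
      ∏ i ∈ Finset.range (nA (l.map RC.H)), HdP1_pw i (1 - t / ((aL l Λ).getD i 1 : ℝ))⁻¹ =
      Phi l (Λ * t) := by
  induction l generalizing Λ with
  | nil => simp [nA, nB, Phi]
  | cons c l ih =>
    have h1 := ih (Λ * c.lam)
    rw [show ((Λ * c.lam : ℝ) : ℂ) * t = c.lam * (Λ * t) by push_cast; ring] at h1
    cases hc : c.H
    · simp only [aL, bL, nA, nB, Phi, RC.a1, List.map_cons, hc, Bool.false_eq_true, if_false,
        Finset.prod_range_succ', List.getD_cons_succ, List.getD_cons_zero, HdP1_succ, HdP1_zero,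
        Finset.prod_inv_distrib, ← h1, ofReal_inv, div_inv_eq_mul, ofReal_mul, ofReal_neg]
      rw [div_eq_mul_inv, div_eq_mul_inv, mul_inv]
      ring
    · simp only [aL, bL, nA, nB, Phi, List.map_cons, hc, if_true,
        Finset.prod_range_succ', List.getD_cons_succ, List.getD_cons_zero, HdP1_succ, HdP1_zero,
        inv_inv, ← h1, ofReal_inv, div_inv_eq_mul, ofReal_mul]
      rw [div_eq_mul_inv]
      ring

theorem HdP1_getD {l : List ℝ} (h : ∀ a ∈ l, 0 < a) (i : ℕ) : 0 < l.getD i 1 := by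
  rw [List.getD_eq_getElem?_getD]
  rcases hi : l[i]? with _ | a
  · exact one_pos
  · exact h a (List.mem_of_getElem? hi)

theorem HdP1_sq (D : Dat) (ha : ∀ i, 0 < D.a i) (hb : ∀ j, 0 < D.b j)
    (hρ : D.ρ = Real.exp (∑ i ∈ Finset.range D.p, sg i * Real.log (D.a i) / 2 -
      ∑ j ∈ Finset.range D.q, sg j * 3 * Real.log (D.b j) / 2)) {t : ℂ} (ht : D.P t ≠ 0) :
    D.P t * D.R t ^ 2 = t⁻¹ * ((∏ j ∈ Finset.range D.q, HdP1_pw j ((1 + t / D.b j) ^ 3)) *
      ∏ i ∈ Finset.range D.p, HdP1_pw i (1 - t / D.a i)⁻¹) := by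
  obtain ⟨h1, h2⟩ := mul_ne_zero_iff.1 ht
  obtain ⟨h0, h1⟩ := mul_ne_zero_iff.1 h1
  have e : (D.ρ : ℂ) ^ 2 = (∏ i ∈ Finset.range D.p, HdP1_pw i (D.a i)) *
      ∏ j ∈ Finset.range D.q, HdP1_pw j ((D.b j : ℂ) ^ 3)⁻¹ := by
    rw [hρ, ofReal_exp, ← exp_nat_mul, ofReal_sub, mul_sub, sub_eq_add_neg, exp_add, ofReal_sum,
      ofReal_sum, Finset.mul_sum, Finset.mul_sum, ← Finset.sum_neg_distrib, exp_sum, exp_sum]
    congr 1
    · refine Finset.prod_congr rfl fun i _ => ?_
      conv_rhs => rw [← Real.exp_log (ha i), ofReal_exp, ← HdP1_exp]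
      congr 1
      push_cast
      ring
    · refine Finset.prod_congr rfl fun j _ => ?_
      conv_rhs => rw [← Real.exp_log (hb j), ofReal_exp, ← exp_nat_mul, ← exp_neg, ← HdP1_exp]
      congr 1
      push_cast
      ring
  have e1 : ∏ j ∈ Finset.range D.q, HdP1_pw j ((1 + t / D.b j) ^ 3) =
      ∏ j ∈ Finset.range D.q, HdP1_pw j ((D.b j : ℂ) ^ 3)⁻¹ * ((t + D.b j) *
        (if Even j then t + D.b j else ((t + D.b j) ^ 2)⁻¹) ^ 2) :=
    Finset.prod_congr rfl fun j hj => by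
      have h3 := Finset.prod_ne_zero_iff.1 h1 j hj
      have h4 : (D.b j : ℂ) ≠ 0 := ofReal_ne_zero.2 (hb j).ne'
      rw [show 1 + t / D.b j = (t + D.b j) / D.b j by field_simp; ring]
      unfold HdP1_pw
      split_ifs <;> field_simp
  have e2 : ∏ i ∈ Finset.range D.p, HdP1_pw i (1 - t / D.a i)⁻¹ =
      ∏ i ∈ Finset.range D.p, HdP1_pw i (D.a i) * ((D.a i - t) *
        (if Even i then (D.a i - t)⁻¹ else 1) ^ 2) :=
    Finset.prod_congr rfl fun i hi => by
      have h3 := Finset.prod_ne_zero_iff.1 h2 i hi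
      have h4 : (D.a i : ℂ) ≠ 0 := ofReal_ne_zero.2 (ha i).ne'
      rw [show 1 - t / D.a i = (D.a i - t) / D.a i by field_simp]
      unfold HdP1_pw
      split_ifs <;> field_simp
  rw [e1, e2, Dat.P, Dat.R, mul_pow, mul_pow, div_pow, e]
  simp only [Finset.prod_mul_distrib, Finset.prod_pow]
  field_simp

theorem dat_sq {L : List RC} (h : ∀ c ∈ L, c.Ps) {t : ℂ} (ht : (dat L).P t ≠ 0) :
    (dat L).P t * (dat L).R t ^ 2 = t⁻¹ * Phi L t := by
  have h1 := HdP1_phi t L 1
  rw [ofReal_one, one_mul] at h1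
  rw [← h1]
  exact HdP1_sq (dat L) (HdP1_getD (aL_pos h one_pos)) (HdP1_getD (bL_pos h one_pos)) rfl ht

end Pool.Agent.MP_92463a_gt
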