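import Pool.Agent.MP_92463a_gt.HdP1

open Set Complex Filter Metric
open scoped Topology ComplexConjugate ContDiff Manifold

noncomputable section

namespace Pool.Agent.MP_92463a_gt

theorem ZZ_step {c : RC} (hc : c.Ps) (post dn : List RC) {s : ℂ} (hs : s ≠ 0) :
    ZZ post (c.flip :: dn) (c.lam * s) ^ 2 = pm c.H (ZZ (c :: post) dn s ^ 2) := by
  obtain ⟨H, x, y⟩ := c
  have hx : (x : ℂ) ≠ 0 := ofReal_ne_zero.2 hc.1.ne'
  have hy : (y : ℂ) ≠ 0 := ofReal_ne_zero.2 hc.2.ne'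
  cases H
  · have e0 : (y : ℂ) * x * (x * y * s)⁻¹ = s⁻¹ := by field_simp
    have e1 : 1 - -(x : ℂ) * (x * y * s)⁻¹ = (1 - -y * s) / (y * s) := by field_simp; ring
    have e2 : 1 - (x : ℂ) ^ 2 / y * (x * y * s)⁻¹ = -(1 - y ^ 2 / x * s) * (x / (y ^ 2 * s)) := by
      field_simp; ring
    simp only [ZZ, Phi, RC.flip, RC.a1, RC.a2, RC.lam, pm, Bool.false_eq_true, if_false]
    push_cast
    rw [e0, e1, e2, ← inv_pow, ← neg_sq]
    generalize 1 - -(y : ℂ) * s = A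
    generalize 1 - (y : ℂ) ^ 2 / x * s = B
    congr 1
    field_simp
  · have e0 : (x : ℂ)⁻¹ * ((x : ℂ)⁻¹ * s)⁻¹ = s⁻¹ := by field_simp
    have e1 : 1 - (y : ℂ)⁻¹⁻¹ * ((x : ℂ)⁻¹ * s)⁻¹ = -(1 - ((x : ℂ) * y)⁻¹ * s) * (x * y / s) := by
      field_simp; ring
    have e2 : 1 - ((x : ℂ) * (y : ℂ)⁻¹)⁻¹ * ((x : ℂ)⁻¹ * s)⁻¹ = -(1 - (y : ℂ)⁻¹ * s) * (y / s) := by
      field_simp; ring
    simp only [ZZ, Phi, RC.flip, RC.a1, RC.a2, RC.lam, pm, if_true]
    push_cast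
    rw [e0, e1, e2]
    generalize 1 - (y : ℂ)⁻¹ * s = A
    generalize 1 - ((x : ℂ) * y)⁻¹ * s = B
    congr 1
    field_simp

theorem HdP2_rf (l : List RC) (c : RC) : rf (l ++ [c]) = c.flip :: rf l := by simp [rf]

theorem HdP2_lamP (l : List RC) (c : RC) : lamP (l ++ [c]) = c.lam * lamP l := by
  simp [lamP, mul_comm]

theorem HdP2_pm (H : Bool) (n : ℕ) (z : ℂ) :
    pm H (pm (decide (Even n)) z) = pm (decide (Even (n + nB [H]))) z := by
  cases H <;> by_cases h : Even n <;> simp [pm, nB, Nat.even_add_one, h]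

theorem HdP2_lam (c : RC) : c.flip.lam = c.lam := by
  obtain ⟨H, x, y⟩ := c
  cases H <;> simp [RC.flip, RC.lam, mul_comm]

theorem ZZ_split {pre : List RC} (h : ∀ c ∈ pre, c.Ps) (post : List RC) {t : ℂ} (ht : t ≠ 0) :
    ZZ post (rf pre) (lamP pre * t) ^ 2 =
      pm (decide (Even (nB (pre.map RC.H)))) ((t⁻¹ * Phi (pre ++ post) t) ^ 2) := by
  induction pre using List.reverseRecOn generalizing post with
  | nil => simp [rf, lamP, ZZ, Phi, nB, pm]
  | append_singleton l c ih =>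
    have hl : ∀ d ∈ l, d.Ps := fun d hd => h d (List.mem_append_left _ hd)
    rw [HdP2_rf, HdP2_lamP, ofReal_mul, mul_assoc, ZZ_step (h c (by simp)) post _
      (mul_ne_zero (ofReal_ne_zero.2 (lamP_pos hl).ne') ht), ih hl, HdP2_pm, List.map_append,
      nB_append, List.append_assoc]
    rfl

theorem Sm.below {pre : List RC} (h : ∀ c ∈ pre, c.Ps) {Λ r : ℝ} (h0 : 0 < Λ)
    (hs : Sm (rf pre) Λ r) :
    (∀ a ∈ aL pre 1, Λ * (a * lamP pre) < r) ∧ ∀ b ∈ bL pre 1, Λ * (b * lamP pre) < r := by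
  induction pre using List.reverseRecOn generalizing Λ with
  | nil => simp [aL, bL]
  | append_singleton l c ih =>
    have hl : ∀ d ∈ l, d.Ps := fun d hd => h d (List.mem_append_left _ hd)
    have hc : c.Ps := h c (by simp)
    rw [HdP2_rf, Sm, HdP2_lam] at hs
    obtain ⟨h1, h2, h3⟩ := hs
    obtain ⟨i1, i2⟩ := ih hl (mul_pos h0 hc.lam_pos) h3
    have hp := (lamP_pos hl).ne'
    have e : ∀ a, Λ * (a * (c.lam * lamP l)) = Λ * c.lam * (a * lamP l) := fun a => by ring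
    simp only [HdP2_lamP, aL_append, bL_append, List.mem_append, e, or_imp, forall_and]
    refine ⟨⟨i1, ?_⟩, i2, ?_⟩ <;> obtain ⟨H, x, y⟩ := c <;> have hx : x ≠ 0 := hc.1.ne' <;>
      have hy : y ≠ 0 := hc.2.ne' <;> cases H <;>
      simp only [aL, bL, RC.flip, RC.a1, RC.a2, RC.lam, Bool.false_eq_true, if_false, if_true,
        List.mem_cons, List.not_mem_nil, or_false, forall_eq_or_imp, forall_eq, false_imp_iff,
        implies_true] at h1 h2 ⊢
    · exact lt_of_eq_of_lt (by field_simp) (lt_of_abs_lt h2)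
    · exact ⟨lt_of_eq_of_lt (by field_simp) (lt_of_abs_lt h1),
        lt_of_eq_of_lt (by field_simp) (lt_of_abs_lt h2)⟩
    · rw [← abs_neg] at h1
      exact lt_of_eq_of_lt (by field_simp) (lt_of_abs_lt h1)

end Pool.Agent.MP_92463a_gt
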