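import Pool.Agent.MP_92463a_gt.HdC2

open Set Complex Filter Metric
open scoped Topology ComplexConjugate ContDiff Manifold

noncomputable section

namespace Pool.Agent.MP_92463a_gt

theorem HdQ0_lo (g : Ge) : (g.Rlo : ℝ) = g.R * (1 - 1 / 2 ^ 30) := by
  unfold Ge.Rlo
  push_cast
  rfl

theorem HdQ0_hi (g : Ge) : (g.Rhi : ℝ) = g.R * (1 + 1 / 2 ^ 30) := by
  unfold Ge.Rhi
  push_cast
  rfl

theorem HdQ0_tri (c : ℚ) (w : ℂ) : ‖w‖ - |(c : ℝ)| ≤ ‖(c : ℂ) + w‖ ∧ (c : ℝ) - ‖w‖ ≤ ‖(c : ℂ) + w‖ ∧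
    ‖(c : ℂ) + w‖ ≤ |(c : ℝ)| + ‖w‖ := by
  have h1 := norm_sub_le ((c : ℂ) + w) c
  have h2 := norm_sub_le ((c : ℂ) + w) w
  have h3 := norm_add_le (c : ℂ) w
  rw [add_sub_cancel_left] at h1
  rw [add_sub_cancel_right] at h2
  rw [Complex.norm_ratCast] at h1 h2 h3
  exact ⟨by linarith, by linarith [le_abs_self (c : ℝ)], h3⟩

namespace Ge.Ok

variable {g : Ge} (h : g.Ok) {w : ℂ}
include h

theorem HdQ0_re : 0 < (g.r1 : ℝ) ∧ (g.r1 : ℝ) < g.R * (1 - 1 / 2 ^ 30) ∧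
    (g.R : ℝ) * (1 + 1 / 2 ^ 30) < g.r2 ∧ 0 < (g.R : ℝ) ∧
    (g.zin = true ∧ (g.smin : ℝ) = g.r1 - |(g.c : ℝ)| ∧ |(g.c : ℝ)| < g.r1 ∨
      ¬ g.zin = true ∧ (g.smin : ℝ) = g.c - g.r2 ∧ (g.r2 : ℝ) < g.c) := by
  have h1 : 0 < (g.r1 : ℝ) := by exact_mod_cast h.r1_pos
  have h2 : (g.r1 : ℝ) < g.Rlo := by exact_mod_cast h.r1_lt
  have h3 : (g.Rhi : ℝ) < g.r2 := by exact_mod_cast h.r2_gt
  have h4 : 0 < (g.smin : ℝ) := by exact_mod_cast h.smin_pos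
  rw [HdQ0_lo] at h2
  rw [HdQ0_hi] at h3
  refine ⟨h1, h2, h3, by linarith, ?_⟩
  by_cases hz : g.zin = true
  · have e : (g.smin : ℝ) = g.r1 - |(g.c : ℝ)| := by
      rw [Ge.smin, if_pos hz]
      push_cast
      rfl
    exact Or.inl ⟨hz, e, by linarith⟩
  · have e : (g.smin : ℝ) = g.c - g.r2 := by
      rw [Ge.smin, if_neg hz]
      push_cast
      rfl
    exact Or.inr ⟨hz, e, by linarith⟩

theorem R_pos : 0 < g.R := by exact_mod_cast h.HdQ0_re.2.2.2.1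

theorem r1_lt_R : g.r1 < g.R := by
  obtain ⟨h1, h2, h3, h4, -⟩ := h.HdQ0_re
  exact_mod_cast (by linarith : (g.r1 : ℝ) < g.R)

theorem R_lt_r2 : g.R < g.r2 := by
  obtain ⟨h1, h2, h3, h4, -⟩ := h.HdQ0_re
  exact_mod_cast (by linarith : (g.R : ℝ) < g.r2)

theorem thin_ann (hw : g.Thin w) : g.Ann w := by
  obtain ⟨h1, h2, h3, h4, -⟩ := h.HdQ0_re
  obtain ⟨a, b⟩ := hw
  rw [HdQ0_lo] at a
  rw [HdQ0_hi] at b
  exact ⟨by linarith, by linarith⟩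

theorem ann_R (hw : ‖w‖ = (g.R : ℝ)) : g.Ann w := by
  obtain ⟨h1, h2, h3, h4, -⟩ := h.HdQ0_re
  exact ⟨by linarith, by linarith⟩

theorem w_ne (hw : g.Ann w) : w ≠ 0 := norm_pos_iff.1 (h.HdQ0_re.1.trans_le hw.1)

theorem s_ge (hw : g.Ann w) : (g.smin : ℝ) ≤ ‖(g.c : ℂ) + w‖ := by
  obtain ⟨a, b, -⟩ := HdQ0_tri g.c w
  obtain ⟨-, -, -, -, ⟨-, e, -⟩ | ⟨-, e, -⟩⟩ := h.HdQ0_re <;> linarith [hw.1, hw.2]

theorem s_le (hw : g.Ann w) : ‖(g.c : ℂ) + w‖ ≤ (g.sh g.r2 : ℝ) := by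
  have _ := h
  unfold Ge.sh
  push_cast
  linarith [(HdQ0_tri g.c w).2.2, hw.2]

theorem s_ne (hw : g.Ann w) : (g.c : ℂ) + w ≠ 0 :=
  norm_pos_iff.1 (lt_of_lt_of_le (by exact_mod_cast h.smin_pos) (h.s_ge hw))

theorem sl_ge {r : ℚ} (h1 : g.r1 ≤ r) (h2 : r ≤ g.r2) : g.smin ≤ g.sl r := by
  have _ := h
  unfold Ge.smin Ge.sl
  split_ifs <;> linarith

theorem s_circ {r : ℚ} (hw : ‖w‖ = (r : ℝ)) :
    (g.sl r : ℝ) ≤ ‖(g.c : ℂ) + w‖ ∧ ‖(g.c : ℂ) + w‖ ≤ (g.sh r : ℝ) := by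
  have _ := h
  obtain ⟨a, b, c⟩ := HdQ0_tri g.c w
  unfold Ge.sl Ge.sh
  split_ifs <;> push_cast <;> exact ⟨by linarith, by linarith⟩

theorem phi0_re (hw : g.Ann w) : 0 < (g.phi0 w).re := by
  have w0 := h.w_ne hw
  obtain ⟨h1, -, -, -, ⟨hz, -, e⟩ | ⟨hz, -, e⟩⟩ := h.HdQ0_re
  · have n : ‖(g.c : ℂ) / w‖ < 1 := by
      rw [norm_div, Complex.norm_ratCast, div_lt_one (norm_pos_iff.2 w0)]
      exact e.trans_le hw.1
    rw [Ge.phi0, if_pos hz, add_div, div_self w0, add_re, one_re]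
    linarith [(abs_le.1 (abs_re_le_norm ((g.c : ℂ) / w))).1]
  · rw [Ge.phi0, if_neg hz, add_re, ratCast_re]
    linarith [(abs_le.1 (abs_re_le_norm w)).1, hw.2]

theorem phi0_diff (hw : g.Ann w) : DifferentiableAt ℂ g.phi0 w := by
  have w0 := h.w_ne hw
  by_cases hz : g.zin = true
  · rw [show g.phi0 = fun w : ℂ => (g.c + w) / w from funext fun _ => if_pos hz]
    fun_prop (disch := exact w0)
  · rw [show g.phi0 = fun w : ℂ => g.c + w from funext fun _ => if_neg hz]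
    fun_prop

theorem phi0_arg (hw : g.Thin w) : |arg (g.phi0 w)| ≤ (az g.z0 : ℝ) := by
  have w0 := h.w_ne (h.thin_ann hw)
  have hr : (g.z0 : ℝ) ≤ 47 / 50 := by
    have : (g.z0 : ℝ) ≤ ((47 / 50 : ℚ) : ℝ) := Rat.cast_le.2 h.z0_le
    rwa [Rat.cast_div, Rat.cast_ofNat, Rat.cast_ofNat] at this
  have ea : (az g.z0 : ℝ) = g.z0 + 3 / 5 * (g.z0 : ℝ) ^ 3 := by
    unfold az
    push_cast
    rfl
  rw [ea]
  obtain ⟨h1, h2, h3, h4, ⟨hz, -, e⟩ | ⟨hz, -, e⟩⟩ := h.HdQ0_re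
  · have e1 : g.phi0 w = ((1 : ℝ) : ℂ) * (1 + (g.c : ℂ) / w) := by
      rw [Ge.phi0, if_pos hz, add_div, div_self w0, ofReal_one, one_mul, add_comm]
    rw [e1]
    refine arg_az one_pos ?_ hr
    rw [Ge.z0, if_pos hz, norm_div, Complex.norm_ratCast, Rat.cast_div, Rat.cast_abs]
    exact div_le_div_of_nonneg_left (abs_nonneg _) (by rw [HdQ0_lo]; linarith) hw.1
  · have c0 : 0 < (g.c : ℝ) := by linarith
    have c1 : (g.c : ℂ) ≠ 0 := by exact_mod_cast c0.ne'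
    have e1 : g.phi0 w = ((g.c : ℝ) : ℂ) * (1 + w / (g.c : ℂ)) := by
      rw [Ge.phi0, if_neg hz, ofReal_ratCast, mul_add, mul_one, mul_div_cancel₀ _ c1]
    rw [e1]
    refine arg_az c0 ?_ hr
    rw [Ge.z0, if_neg hz, norm_div, Complex.norm_ratCast, Rat.cast_div, abs_of_pos c0]
    exact div_le_div_of_nonneg_right hw.2 c0.le

theorem ends : 0 < (g.c : ℝ) + g.R ∧ (if g.zin then (g.c : ℝ) - g.R < 0 else 0 < (g.c : ℝ) - g.R) ∧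
    (g.smin : ℝ) < min ((g.c : ℝ) + g.R) |(g.c : ℝ) - g.R| := by
  have a := le_abs_self (g.c : ℝ)
  have b := neg_abs_le (g.c : ℝ)
  have c := le_abs_self ((g.c : ℝ) - g.R)
  have d := neg_le_abs ((g.c : ℝ) - g.R)
  obtain ⟨h1, h2, h3, h4, ⟨hz, e, e'⟩ | ⟨hz, e, e'⟩⟩ := h.HdQ0_re
  · rw [if_pos hz]
    exact ⟨by linarith, by linarith, lt_min (by linarith) (by linarith)⟩
  · rw [if_neg hz]
    exact ⟨by linarith, by linarith, lt_min (by linarith) (by linarith)⟩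

theorem thin_of {z : ℂ} (hw : ‖w‖ = (g.R : ℝ)) (hz : ‖z - w‖ ≤ (g.R : ℝ) / 2 ^ 38) :
    g.Thin z := by
  have h4 := h.HdQ0_re.2.2.2.1
  obtain ⟨a, b⟩ := abs_le.1 ((abs_norm_sub_norm_le z w).trans hz)
  unfold Ge.Thin
  rw [HdQ0_lo, HdQ0_hi]
  exact ⟨by linarith, by linarith⟩

theorem tol : (g.R : ℝ) / 2 ^ 38 < min ((g.R : ℝ) - g.r1) ((g.r2 : ℝ) - g.R) := by
  obtain ⟨h1, h2, h3, h4, -⟩ := h.HdQ0_re
  exact lt_min (by linarith) (by linarith)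

end Ge.Ok

end Pool.Agent.MP_92463a_gt
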