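import Pool.Agent.MP_92463a_gt.HdQ0
import Pool.Agent.MP_92463a_gt.HdC1

open Set Complex Filter Metric
open scoped Topology ComplexConjugate ContDiff Manifold

noncomputable section

namespace Pool.Agent.MP_92463a_gt

theorem HdQ1_re {t : ℝ} (ht : 0 < t) {z p : ℂ} (hz : ‖z‖ < 1) (hp : p = t * (1 + z)) :
    0 < p.re := by
  have := (abs_le.1 (abs_re_le_norm z)).1
  rw [hp, re_ofReal_mul, add_re, one_re]
  exact mul_pos ht (by linarith)

theorem HdQ1_nrm (p q : ℚ) : ‖(p : ℂ) - q‖ = |(p : ℝ) - q| := by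
  rw [← Rat.cast_sub, norm_ratCast, Rat.cast_sub]

theorem HdQ1_abs (p : ℚ) : ((|p| : ℚ) : ℂ) = ((|(p : ℝ)| : ℝ) : ℂ) := by
  rw [← Rat.cast_abs, ofReal_ratCast]

namespace AQ

theorem HdQ1_sx (a : AQ) : ‖(a.sx : ℂ) / 2‖ = (a.ex : ℝ) / 2 ∧ (0 : ℝ) < a.ex := by
  rw [norm_div, norm_real, Real.norm_eq_abs]
  unfold sx ex
  split_ifs <;> norm_num

variable {g : Ge} {a : AQ} (h : g.Ok) (ha : a.ok g = true) {w : ℂ}

include ha in
theorem HdQ1_ok : a.al ≠ 0 ∧ a.h ≤ 2 ^ 40 ∧ (0 : ℝ) < a.dist g ∧ (a.xx g : ℝ) ≤ 1 / 2 := by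
  unfold ok at ha
  rw [decide_eq_true_eq] at ha
  refine ⟨ha.1, ha.2.1, by exact_mod_cast ha.2.2.1, ?_⟩
  have : ((a.xx g : ℚ) : ℝ) ≤ ((1 / 2 : ℚ) : ℝ) := Rat.cast_le.2 ha.2.2.2.1
  simpa using this

include h ha

theorem e_ne : a.e ≠ 0 := by
  have := (HdQ1_ok ha).1
  unfold e
  split_ifs
  · exact this
  · exact inv_ne_zero this

theorem dist_le (hw : g.Ann w) : 0 < (a.dist g : ℝ) ∧ (a.dist g : ℝ) ≤ ‖(g.c : ℂ) + w - a.e‖ := by
  refine ⟨(HdQ1_ok ha).2.2.1, ?_⟩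
  have h1 := hw.1
  have h2 := hw.2
  have h3 := h.s_ge hw
  have n1 := HdQ1_nrm g.c a.e
  have a1 : ‖w‖ - ‖(g.c : ℂ) - a.e‖ ≤ ‖(g.c : ℂ) + w - a.e‖ := by
    have := norm_sub_norm_le w (-((g.c : ℂ) - a.e))
    rwa [norm_neg, show w - -((g.c : ℂ) - a.e) = g.c + w - a.e by ring] at this
  have a2 : ‖(g.c : ℂ) - a.e‖ - ‖w‖ ≤ ‖(g.c : ℂ) + w - a.e‖ := by
    have := norm_sub_norm_le ((g.c : ℂ) - a.e) (-w)
    rwa [norm_neg, show (g.c : ℂ) - a.e - -w = g.c + w - a.e by ring] at this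
  have a3 := norm_sub_norm_le ((g.c : ℂ) + w) a.e
  rw [norm_ratCast] at a3
  rw [n1] at a1 a2
  have b1 := le_abs_self ((g.c : ℝ) - a.e)
  have b2 := neg_abs_le ((g.c : ℝ) - a.e)
  unfold dist
  cases a.dp <;> push_cast <;> linarith

theorem HdQ1_ne (hw : g.Ann w) : (g.c : ℂ) + w - a.e ≠ 0 := by
  have := dist_le h ha hw
  exact norm_pos_iff.1 (this.1.trans_le this.2)

theorem phi_re (hw : g.Ann w) : 0 < (a.phi g w).re := by
  have hd := (HdQ1_ok ha).2.2.1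
  have he : (0 : ℝ) < |(a.e : ℝ)| := abs_pos.2 (by exact_mod_cast e_ne h ha)
  have he' : ((|(a.e : ℝ)| : ℝ) : ℂ) ≠ 0 := by exact_mod_cast he.ne'
  have h1 := hw.1
  have h2 := hw.2
  have h3 := h.s_ge hw
  have w0 := h.w_ne hw
  have s0 := h.s_ne hw
  have r0 := abs_le.1 (abs_re_le_norm w)
  unfold dist at hd
  unfold phi
  rw [HdQ1_abs]
  revert hd
  cases a.dp <;> intro hd <;> push_cast at hd
  · refine HdQ1_re (z := ((g.c : ℂ) - a.e) / w) (inv_pos.2 he) ?_ ?_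
    · rw [norm_div, div_lt_one (norm_pos_iff.2 w0), HdQ1_nrm]; linarith
    · rw [ofReal_inv]; field_simp; ring
  · rw [div_ofReal_re]
    refine div_pos ?_ he
    simp only [sub_re, add_re, ratCast_re]; linarith
  · rw [div_ofReal_re]
    refine div_pos ?_ he
    simp only [neg_re, sub_re, add_re, ratCast_re]; linarith
  · refine HdQ1_re (z := -(a.e : ℂ) / (g.c + w)) one_pos ?_ ?_
    · rw [norm_div, div_lt_one (norm_pos_iff.2 s0), norm_neg, norm_ratCast]; linarith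
    · rw [ofReal_one]; field_simp; ring

theorem phi_diff (hw : g.Ann w) : DifferentiableAt ℂ (a.phi g) w := by
  have he : ((|a.e| : ℚ) : ℂ) ≠ 0 := by exact_mod_cast abs_ne_zero.2 (e_ne h ha)
  have w0 := h.w_ne hw
  have s0 := h.s_ne hw
  unfold phi
  cases a.dp
  · exact DifferentiableAt.div (by fun_prop) (by fun_prop) (mul_ne_zero he w0)
  · exact DifferentiableAt.div (by fun_prop) (by fun_prop) he
  · exact DifferentiableAt.div (by fun_prop) (by fun_prop) he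
  · exact DifferentiableAt.div (by fun_prop) (by fun_prop) s0

theorem phi_im (hw : w.im = 0) : (a.phi g w).im = 0 := by
  unfold phi
  cases a.dp <;> simp [div_im, hw]

theorem uu_le (hw : g.Ann w) : ‖a.uu (g.c + w)‖ ≤ (a.um g : ℝ) := by
  have hd := dist_le h ha hw
  have hn := HdQ1_ne h ha hw
  have h4 := h.s_le hw
  have k1 : ‖-(a.e : ℂ) / (g.c + w - a.e)‖ ≤ |(a.e : ℝ)| / a.dist g := by
    rw [norm_div, norm_neg, norm_ratCast]
    exact div_le_div_of_nonneg_left (abs_nonneg _) hd.1 hd.2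
  have k2 : ‖((g.c : ℂ) + w) / (g.c + w - a.e)‖ ≤ (g.sh g.r2 : ℝ) / a.dist g := by
    rw [norm_div]
    exact div_le_div₀ ((norm_nonneg _).trans h4) h4 hd.1 hd.2
  have k3 : ‖((g.c : ℂ) + w) / (g.c + w - a.e)‖ ≤ 1 + |(a.e : ℝ)| / a.dist g := by
    have : ((g.c : ℂ) + w) / (g.c + w - a.e) = 1 - -(a.e : ℂ) / (g.c + w - a.e) := by
      field_simp; ring
    rw [this]
    exact (norm_sub_le _ _).trans (by rw [norm_one]; linarith)
  unfold uu um
  cases a.dp <;> simp only [reduceCtorEq, if_true, if_false] <;> push_cast <;> assumption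

theorem F0_sq (hw : g.Ann w) :
    a.F0 (g.c + w) ^ 2 = a.phi g w ^ 2 * (if a.dp = .ins then w ^ 2 else 1) := by
  have hal : (a.al : ℂ) ≠ 0 := by exact_mod_cast (HdQ1_ok ha).1
  have w0 := h.w_ne hw
  have s0 := h.s_ne hw
  have hq : ((|a.e| : ℚ) : ℂ) ^ 2 = (a.e : ℂ) ^ 2 := by
    rw [← Rat.cast_pow, sq_abs, Rat.cast_pow]
  unfold F0 zz phi
  cases hd : a.dp <;> simp only [reduceCtorEq, if_true, if_false, div_pow, mul_pow, hq] <;>
    simp only [e, hd, reduceCtorEq, if_true, if_false, Rat.cast_inv] <;> field_simp <;> ring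

variable {η : ℝ} (hη : |η| ≤ a.h / 2 ^ 40)
include hη

theorem pert_le (hw : g.Ann w) :
    ‖a.uu (g.c + w) * ((Real.exp η - 1 : ℝ) : ℂ)‖ ≤ (a.xx g : ℝ) ∧ (a.xx g : ℝ) ≤ 1 / 2 := by
  refine ⟨?_, (HdQ1_ok ha).2.2.2⟩
  have hu := uu_le h ha hw
  rw [norm_mul, norm_real, Real.norm_eq_abs, xx, Rat.cast_mul]
  exact mul_le_mul hu (eh_bound (HdQ1_ok ha).2.1 hη).1 (abs_nonneg _) ((norm_nonneg _).trans hu)

theorem lg_le (hw : g.Ann w) :
    ‖(a.sx : ℂ) / 2 * a.lg η (g.c + w)‖ ≤ ((3 / 4 * a.ex * a.xx g : ℚ) : ℝ) := by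
  have hp := pert_le h ha hη hw
  have hl := norm_log_one_add_half_le_self (hp.1.trans hp.2)
  have hs := HdQ1_sx a
  rw [norm_mul, hs.1, lg]
  push_cast at hl hp ⊢
  nlinarith [hp.1, hs.2]

theorem lg_diff (hw : g.Ann w) : DifferentiableAt ℂ (fun w => a.lg η (g.c + w)) w := by
  have hp := pert_le h ha hη hw
  have hn := HdQ1_ne h ha hw
  have hu : DifferentiableAt ℂ (fun w => a.uu (g.c + w)) w := by
    unfold uu
    split_ifs <;> exact DifferentiableAt.div (by fun_prop) (by fun_prop) hn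
  unfold lg
  exact DifferentiableAt.clog ((hu.mul_const _).const_add _)
    (mem_slitPlane_of_norm_lt_one (by linarith [hp.1, hp.2]))

theorem lg_im (hw : g.Ann w) (hi : w.im = 0) : (a.lg η (g.c + w)).im = 0 := by
  have hp := pert_le h ha hη hw
  have hu : (a.uu (g.c + w)).im = 0 := by
    unfold uu
    split_ifs <;> simp [div_im, hi]
  have r0 := (abs_le.1 (abs_re_le_norm (a.uu (g.c + w) * ((Real.exp η - 1 : ℝ) : ℂ)))).1
  rw [lg, log_im, arg_eq_zero_iff]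
  refine ⟨?_, ?_⟩
  · rw [add_re, one_re]; linarith [hp.1, hp.2]
  · rw [add_im, one_im, mul_im, hu, ofReal_im]; ring

theorem lg_exp (hw : g.Ann w) : a.F0 (g.c + w) * exp (a.lg η (g.c + w)) =
    1 - a.al * Real.exp η * a.zz (g.c + w) := by
  have hp := pert_le h ha hη hw
  have hn := HdQ1_ne h ha hw
  have hal : (a.al : ℂ) ≠ 0 := by exact_mod_cast (HdQ1_ok ha).1
  have s0 := h.s_ne hw
  have hk : a.F0 (g.c + w) * a.uu (g.c + w) = -(a.al * a.zz (g.c + w)) := by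
    unfold F0 uu zz
    unfold e at hn ⊢
    split_ifs at hn ⊢
    · field_simp
    · rw [Rat.cast_inv] at hn ⊢
      rw [mul_div_assoc', div_eq_iff hn]
      field_simp
      ring
  rw [lg, exp_log (slitPlane_ne_zero (mem_slitPlane_of_norm_lt_one (by linarith [hp.1, hp.2]))),
    mul_add, ← mul_assoc, hk, F0]
  push_cast
  ring

theorem lg_lin (hw : g.Ann w) :
    ‖(a.sx : ℂ) / 2 * a.lg η (g.c + w) - (a.sx : ℂ) / 2 * a.uu (g.c + w) * η‖ ≤
      (a.kap g : ℝ) * (|(a.e : ℝ)| * ‖(g.c : ℂ) + w‖ / ‖(g.c : ℂ) + w - a.e‖ ^ 2) := by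
  have ho := HdQ1_ok ha
  have hn := HdQ1_ne h ha hw
  have hu := uu_le h ha hw
  have hb := eh_bound ho.2.1 hη
  have hx : ‖a.uu (g.c + w)‖ * (eh a.h : ℝ) ≤ (a.xx g : ℝ) := by
    rw [xx, Rat.cast_mul]
    exact mul_le_mul_of_nonneg_right hu ((abs_nonneg _).trans hb.1)
  have hl := atom_log hη hb.2 hx (by linarith [ho.2.2.2])
  have hs := HdQ1_sx a
  have hv : ‖a.uu (g.c + w) * (1 - a.uu (g.c + w))‖ =
      |(a.e : ℝ)| * ‖(g.c : ℂ) + w‖ / ‖(g.c : ℂ) + w - a.e‖ ^ 2 := by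
    have : a.uu (g.c + w) * (1 - a.uu (g.c + w)) =
        -((a.e : ℂ) * (g.c + w) / (g.c + w - a.e) ^ 2) := by
      unfold uu
      split_ifs <;> field_simp <;> ring
    rw [this, norm_neg, norm_div, norm_mul, norm_pow, norm_ratCast]
  rw [mul_assoc, ← mul_sub, norm_mul, hs.1, ← hv, lg]
  refine (mul_le_mul_of_nonneg_left hl (by linarith [hs.2])).trans_eq ?_
  unfold kap
  push_cast
  ring

end AQ

end Pool.Agent.MP_92463a_gt
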