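import Pool.Agent.MP_92463a_gt.HdQ1

open Set Complex Filter Metric
open scoped Topology ComplexConjugate ContDiff Manifold

noncomputable section

namespace Pool.Agent.MP_92463a_gt

theorem HdQ2_zp (a : AQ) {z : ℂ} {lo hi : ℚ} (h0 : 0 < lo) (h1 : (lo : ℝ) ≤ ‖z‖)
    (h2 : ‖z‖ ≤ (hi : ℝ)) :
    0 < ‖a.zp z‖ ∧ ‖a.zp z‖ ≤ (a.pw (if a.up then hi else lo⁻¹) : ℚ) ∧
      ‖a.zp z‖⁻¹ ≤ (a.pw (if a.up then lo⁻¹ else hi) : ℚ) := by
  have h3 : (0 : ℝ) < lo := by exact_mod_cast h0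
  have h4 : 0 < ‖z‖ := h3.trans_le h1
  have h5 : ‖z‖⁻¹ ≤ (lo : ℝ)⁻¹ := inv_anti₀ h3 h1
  have h6 : ‖z‖ ^ 3 ≤ (hi : ℝ) ^ 3 := by gcongr
  have h7 : ‖z‖⁻¹ ^ 3 ≤ (lo : ℝ)⁻¹ ^ 3 := by gcongr
  have h8 : 0 < ‖z‖ ^ 3 := by positivity
  rw [inv_pow] at h7
  unfold AQ.zp AQ.pw pm
  cases a.up <;> cases a.cube <;>
    simp only [Bool.false_eq_true, if_false, if_true, norm_inv, norm_pow, inv_inv, inv_pos,
      Rat.cast_pow, Rat.cast_inv] <;>
    refine ⟨?_, ?_, ?_⟩ <;> assumption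

theorem HdQ2_nq (x : ℚ) : ‖(x : ℂ)‖ = ((|x| : ℚ) : ℝ) := by
  rw [Complex.norm_ratCast, Rat.cast_abs]

theorem HdQ2_arg {z φ : ℂ} {t r : ℚ} (ht : 0 < t) (hz : ‖z‖ ≤ (r : ℝ)) (hr : r ≤ 47 / 50)
    (e : φ = t * (1 + z)) : |arg φ| ≤ (az r : ℝ) := by
  have h1 := arg_az (t := t) (by exact_mod_cast ht) hz (by
    have : (r : ℝ) ≤ ((47 / 50 : ℚ) : ℝ) := Rat.cast_le.2 hr
    simpa using this)
  rw [e, az]
  push_cast at h1 ⊢
  exact h1

theorem HdQ2_pert {x y d E u : ℝ} (hd : 0 < d) (hE : |u - 1| ≤ E) (hx : |x| ≤ y)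
    (h : y / d * E ≤ 1 / 2) : |x * u - x| ≤ d / 2 := by
  rw [div_mul_eq_mul_div, div_le_iff₀ hd] at h
  rw [← mul_sub_one, abs_mul]
  exact (mul_le_mul hx hE (abs_nonneg _) ((abs_nonneg _).trans hx)).trans (by linarith)

namespace AQ

variable {g : Ge} {a : AQ} (h : g.Ok) (ha : a.ok g = true) {w : ℂ}
include h ha

theorem circ_le {r : ℚ} (h1 : g.r1 ≤ r) (h2 : r ≤ g.r2) (hw : ‖w‖ = (r : ℝ)) :
    0 < ‖a.zp (a.F0 (g.c + w))‖ ∧ ‖a.zp (a.F0 (g.c + w))‖ ≤ (a.bp g r : ℝ) ∧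
      ‖a.zp (a.F0 (g.c + w))‖⁻¹ ≤ (a.bm g r : ℝ) := by
  obtain ⟨a1, -, a3, -, -⟩ := of_decide_eq_true ha
  have he := abs_pos.2 (e_ne h ha)
  by_cases hl : a.dp = .low
  · have b1 : |a.e| < g.sl r := by
      have := h.sl_ge h1 h2
      simp only [dist, hl] at a3
      linarith
    have b2 : 0 < g.sl r := he.trans b1
    have b3 : ‖(a.al : ℂ) * ((g.c : ℂ) + w)⁻¹‖ ≤ ((|a.e| / g.sl r : ℚ) : ℝ) := by
      rw [norm_mul, norm_inv, HdQ2_nq, Rat.cast_div, e, if_pos hl, ← div_eq_mul_inv]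
      exact div_le_div_of_nonneg_left (by positivity) (by exact_mod_cast b2) (h.s_circ hw).1
    refine HdQ2_zp a ?_ ?_ ?_
    · rw [lo, if_pos hl, sub_pos, div_lt_one b2]
      exact b1
    · rw [lo, if_pos hl, F0, zz, if_pos hl, Rat.cast_sub, Rat.cast_one]
      refine le_trans ?_ (norm_sub_norm_le _ _)
      rw [norm_one]
      exact sub_le_sub_left b3 _
    · rw [hi, if_pos hl, F0, zz, if_pos hl, Rat.cast_add, Rat.cast_one]
      refine (norm_sub_le _ _).trans ?_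
      rw [norm_one]
      exact add_le_add_right b3 _
  · have he' : (0 : ℝ) < ((|a.e| : ℚ) : ℝ) := by exact_mod_cast he
    have b1 : ‖a.F0 (g.c + w)‖ = ‖w - ((a.e - g.c : ℚ) : ℂ)‖ / ((|a.e| : ℚ) : ℝ) := by
      have : (a.al : ℂ) ≠ 0 := by exact_mod_cast a1
      rw [← HdQ2_nq, ← norm_div, ← norm_neg, F0, zz, if_neg hl, e, if_neg hl]
      congr 1
      push_cast
      field_simp
      ring
    have b2 : ‖((a.e - g.c : ℚ) : ℂ)‖ = ((|g.c - a.e| : ℚ) : ℝ) := by rw [HdQ2_nq, abs_sub_comm]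
    refine HdQ2_zp a ?_ ?_ ?_
    · rw [lo, if_neg hl]
      refine div_pos (abs_pos.2 (sub_ne_zero.2 ?_)) he
      have c1 := le_abs_self (g.c - a.e)
      have c2 := neg_le_abs (g.c - a.e)
      cases hd : a.dp <;> simp only [dist, hd] at a3
      · exact ne_of_gt (by linarith)
      · exact ne_of_lt (by linarith)
      · exact ne_of_lt (by linarith)
      · exact absurd hd hl
    · rw [lo, if_neg hl, b1, Rat.cast_div, Rat.cast_abs (r - _), Rat.cast_sub, ← hw, ← b2]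
      exact div_le_div_of_nonneg_right (abs_norm_sub_norm_le _ _) he'.le
    · rw [hi, if_neg hl, b1, Rat.cast_div, Rat.cast_add, ← hw, ← b2]
      exact div_le_div_of_nonneg_right (norm_sub_le _ _) he'.le

theorem phi_arg (hw : g.Thin w) : |arg (a.phi g w)| ≤ (az (a.zR g) : ℝ) := by
  obtain ⟨-, -, a3, -, a5⟩ := of_decide_eq_true ha
  have he := abs_pos.2 (e_ne h ha)
  have he' : ((|a.e| : ℚ) : ℂ) ≠ 0 := Rat.cast_ne_zero.2 he.ne'
  have hA := h.thin_ann hw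
  have w0 := h.w_ne hA
  have r0 : 0 < g.r2 := h.R_pos.trans h.R_lt_r2
  have out : g.c - a.e ≠ 0 →
      ‖w / ((g.c - a.e : ℚ) : ℂ)‖ ≤ ((g.Rhi / |g.c - a.e| : ℚ) : ℝ) := fun _ => by
    rw [norm_div, HdQ2_nq, Rat.cast_div]
    exact div_le_div_of_nonneg_right hw.2 (by positivity)
  cases hd : a.dp <;> simp only [dist, zR, phi, hd] at a3 a5 ⊢
  · refine HdQ2_arg (t := |a.e|⁻¹) (z := ((g.c - a.e : ℚ) : ℂ) / w) (inv_pos.2 he) ?_ a5 ?_
    · rw [norm_div, HdQ2_nq, Rat.cast_div]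
      exact div_le_div_of_nonneg_left (by positivity)
        (by exact_mod_cast h.r1_pos.trans h.r1_lt) hw.1
    · rw [Rat.cast_inv, Rat.cast_sub]
      field_simp
      ring
  · have b1 : 0 < g.c - a.e := by linarith
    have b2 : ((g.c - a.e : ℚ) : ℂ) ≠ 0 := Rat.cast_ne_zero.2 b1.ne'
    refine HdQ2_arg (t := (g.c - a.e) / |a.e|) (div_pos b1 he) (out b1.ne') a5 ?_
    rw [Rat.cast_div]
    field_simp
    push_cast
    ring
  · have b1 : 0 < -(g.c - a.e) := by linarith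
    have b0 : g.c - a.e ≠ 0 := neg_ne_zero.1 b1.ne'
    have b2 : ((g.c - a.e : ℚ) : ℂ) ≠ 0 := Rat.cast_ne_zero.2 b0
    refine HdQ2_arg (t := -(g.c - a.e) / |a.e|) (div_pos b1 he) (out b0) a5 ?_
    rw [Rat.cast_div, Rat.cast_neg]
    field_simp
    push_cast
    ring
  · have s0 := h.s_ne hA
    have b0 : g.Rlo ≤ g.Rhi := by
      have : (g.Rlo : ℝ) ≤ g.Rhi := hw.1.trans hw.2
      exact_mod_cast this
    have b1 : 0 < min (g.sl g.Rlo) (g.sl g.Rhi) := h.smin_pos.trans_le (le_min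
      (h.sl_ge h.r1_lt.le (b0.trans h.r2_gt.le)) (h.sl_ge (h.r1_lt.le.trans b0) h.r2_gt.le))
    have b2 : ((min (g.sl g.Rlo) (g.sl g.Rhi) : ℚ) : ℝ) ≤ ‖(g.c : ℂ) + w‖ := by
      rw [Rat.cast_min]
      have c1 := norm_sub_norm_le w (-(g.c : ℂ))
      have c2 := norm_sub_norm_le (g.c : ℂ) (-w)
      rw [norm_neg, sub_neg_eq_add, Complex.norm_ratCast] at c1 c2
      rw [add_comm] at c1
      have c3 := le_abs_self (g.c : ℝ)
      unfold Ge.sl
      split_ifs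
      · refine (min_le_left _ _).trans ?_
        push_cast
        linarith [hw.1]
      · refine (min_le_right _ _).trans ?_
        push_cast
        linarith [hw.2]
    refine HdQ2_arg (t := 1) (z := -(a.e : ℂ) / (g.c + w)) one_pos ?_ a5 ?_
    · rw [norm_div, norm_neg, HdQ2_nq, Rat.cast_div]
      exact div_le_div_of_nonneg_left (by positivity) (by exact_mod_cast b1) b2
    · rw [Rat.cast_one]
      field_simp
      ring

theorem place {η : ℝ} (hη : |η| ≤ a.h / 2 ^ 40) :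
    a.dp.At (a.et η) ((g.c : ℝ) + g.R) ((g.c : ℝ) - g.R) := by
  obtain ⟨-, a2, a3, a4, -⟩ := of_decide_eq_true ha
  have b3 : (0 : ℝ) < a.dist g := by exact_mod_cast a3
  have b4 : (a.um g : ℝ) * eh a.h ≤ 1 / 2 := by
    have : ((a.xx g : ℚ) : ℝ) ≤ ((1 / 2 : ℚ) : ℝ) := Rat.cast_le.2 a4
    rw [xx] at this
    push_cast at this
    exact this
  have E1 := (eh_bound a2 hη).1
  have E2 := (eh_bound a2 (η := -η) (by rwa [abs_neg])).1
  have E0 : (0 : ℝ) ≤ eh a.h := (abs_nonneg _).trans E1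
  have R0 : (0 : ℝ) < g.R := by exact_mod_cast h.R_pos
  have R1 : (g.r1 : ℝ) < g.R := by exact_mod_cast h.r1_lt_R
  have R2 : (g.R : ℝ) < g.r2 := by exact_mod_cast h.R_lt_r2
  have c1 := le_abs_self (g.c : ℝ)
  have c2 := neg_le_abs (g.c : ℝ)
  have x0 := Real.exp_pos η
  have key : a.dp ≠ .low → a.et η = a.e / Real.exp η := fun hl => by
    rw [et, if_neg hl, e, if_neg hl, mul_inv, Rat.cast_inv, div_eq_mul_inv]
  cases hd : a.dp <;> simp only [um, hd, Ge.sh] at b4 <;> push_cast at b4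
  · have b5 := abs_le.1 (HdQ2_pert (x := a.e) b3 E2 le_rfl (by linarith))
    rw [key (by simp [hd]), div_eq_mul_inv, ← Real.exp_neg]
    simp only [dist, hd] at b3 b5
    push_cast at b3 b5
    have d1 := le_abs_self ((g.c : ℝ) - a.e)
    have d2 := neg_le_abs ((g.c : ℝ) - a.e)
    constructor <;> linarith [b5.1, b5.2]
  · have b5 := abs_le.1 (HdQ2_pert (x := g.c - g.R) b3 E1
      (abs_le.2 ⟨by linarith, by linarith⟩) b4)
    rw [key (by simp [hd])]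
    simp only [dist, hd] at b3 b5
    push_cast at b3 b5
    exact (div_lt_iff₀ x0).2 (by linarith [b5.1])
  · have b5 := abs_le.1 (HdQ2_pert (x := g.c + g.R) b3 E1
      (abs_le.2 ⟨by linarith, by linarith⟩) b4)
    rw [key (by simp [hd])]
    simp only [dist, hd] at b3 b5
    push_cast at b3 b5
    exact (lt_div_iff₀ x0).2 (by linarith [b5.2])
  · have b5 := HdQ2_pert (x := a.e) b3 E1 le_rfl b4
    have b6 : a.et η = a.e * Real.exp η := by rw [et, if_pos hd, e, if_pos hd]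
    have b7 := abs_sub_abs_le_abs_sub (a.e * Real.exp η) a.e
    have b8 := lt_min_iff.1 h.ends.2.2
    rw [b6]
    simp only [dist, hd] at b3 b5
    push_cast at b3 b5
    constructor <;> linarith [b8.1, b8.2]

end AQ

end Pool.Agent.MP_92463a_gt
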