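import Pool.Agent.MP_92463a_gt.Tow1
import Pool.Agent.MP_92463a_gt.Chain

open Set Complex Filter Metric
open scoped Topology ComplexConjugate ContDiff Manifold

noncomputable section

namespace Pool.Agent.MP_92463a_gt

section

variable {g : ℕ}

theorem Tow2_U (g i : ℕ) : ContinuousOn (fun x => Zero_U g x i) (cube (Fin g × Bool)) :=
  ((continuous_apply i).comp (Zero_cont g).fst).continuousOn

theorem Tow2_D (g i : ℕ) : ContinuousOn (fun x => Zero_D g x i) (cube (Fin g × Bool)) :=
  ((continuous_apply i).comp (Zero_cont g).snd).continuousOn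

theorem Tow2_W : ∀ i ≤ g,
    ContinuousOn (fun x => tW (Zero_U g x) (Zero_D g x) i) (cube (Fin g × Bool)) := by
  intro i
  induction i with
  | zero => exact fun _ => continuousOn_const
  | succ i ih =>
    intro hi
    refine (ih (by omega)).div ((Tow2_U g i).mul (Tow2_D g i)) fun x hx => ?_
    obtain ⟨a, b⟩ := Link0_pos (Zero_box g hx) hi
    exact (mul_pos a b).ne'

theorem Tow2_A {i : ℕ} (hi : i < g) :
    ContinuousOn (fun x => tA (Zero_U g x) (Zero_D g x) i) (cube (Fin g × Bool)) :=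
  ((Tow2_W i hi.le).mul (Tow2_U g i)).div ((Tow2_D g i).pow 2) fun _ hx =>
    pow_ne_zero 2 (Link0_pos (Zero_box g hx) hi).2.ne'

theorem Tow2_B {i : ℕ} (hi : i < g) :
    ContinuousOn (fun x => tB (Zero_U g x) (Zero_D g x) i) (cube (Fin g × Bool)) :=
  (Tow2_W i hi.le).div (Tow2_D g i) fun _ hx => (Link0_pos (Zero_box g hx) hi).2.ne'

theorem Tow2_nu {α : Type} [TopologicalSpace α] {S : Set α} {u d : α → ℝ} (hu : ContinuousOn u S)
    (hd : ContinuousOn d S) (h : ∀ x ∈ S, 0 < u x ∧ 0 < d x) :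
    ContinuousOn (fun x => 1 / √(u x / (u x + d x))) S :=
  continuousOn_const.div (hu.div (hu.add hd) fun x hx => (add_pos (h x hx).1 (h x hx).2).ne').sqrt
    fun x hx => (Real.sqrt_pos.2 (div_pos (h x hx).1 (add_pos (h x hx).1 (h x hx).2))).ne'

theorem Tow2_chain (α : Sg → ℝ) (hd : ∀ j < g, α (false, j + 1) = α (true, j))
    (hu : ∀ j < g, α (false, j) = α (true, j + 1)) (s : Sg) (hs : s.Val g g) :
    α s = if s.ty then α (false, 0) else α (true, 0) := by
  have key : ∀ k ≤ g, α (false, k) = (if Even k then α (false, 0) else α (true, 0)) ∧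
      α (true, k) = if Even k then α (true, 0) else α (false, 0) := by
    intro k
    induction k with
    | zero => simp
    | succ k ih =>
      intro hk
      obtain ⟨a, b⟩ := ih (by omega)
      rw [hd k hk, ← hu k hk, a, b]
      by_cases h : Even k <;> simp [Nat.even_add_one, h]
  obtain ⟨b, k⟩ := s
  cases b
  · rw [(key k (by simpa [Sg.Val] using hs)).1]
    simp [Sg.ty]
  · rw [(key k (by simpa [Sg.Val] using hs)).2]
    by_cases h : Even k <;> simp [Sg.ty, ← Nat.not_even_iff_odd, h]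

theorem Tow2_sq (j : ℕ) : sg j * sg j = 1 := by
  rcases Chain_sg j with ⟨-, h⟩ | ⟨-, h⟩ <;> rw [h] <;> norm_num

def Tow2_su : Fin g × Bool → Sg
  | (j, false) => (false, j + 1)
  | (j, true) => (false, j)

def Tow2_sv : Fin g × Bool → Sg
  | (j, false) => (true, j)
  | (j, true) => (true, j + 1)

def Tow2_u (U D : ℕ → ℝ) : Fin g × Bool → ℝ
  | (j, false) => tA U D j * (1 + 1 / √(U j / (U j + D j)))
  | (j, true) => tA U D j / (1 + 1 / √(D j / (D j + U j)))

def Tow2_v (U D : ℕ → ℝ) : Fin g × Bool → ℝ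
  | (j, false) => tA U D j * (1 - 1 / √(U j / (U j + D j)))
  | (j, true) => tA U D j / (1 - 1 / √(D j / (D j + U j)))

def Tow2_s : Fin g × Bool → ℝ
  | (j, false) => -sg j
  | (j, true) => sg j

theorem Tow2_lk {U D : ℕ → ℝ} (h : Box g U D) (i : Fin g × Bool) : ∃ c > 0,
    Tow2_s i * Lk (tw g U D).F1 (tw g U D).F2 (Tow2_su i).ty (Tow2_u U D i) (Tow2_v U D i) =
      c * Zero_per g i.1 (U, D) i.2 := by
  obtain ⟨j, b⟩ := i
  obtain ⟨a, d⟩ := Link0_pos h j.2
  cases b
  · refine ⟨√(U j / (U j + D j)) / (U j * √(D j)), by positivity, ?_⟩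
    simp only [Tow2_s, Tow2_su, Tow2_u, Tow2_v, Zero_per]
    rw [h.lk_down j.2]
    linear_combination (√(U j / (U j + D j)) / (U j * √(D j)) *
      Per (U j) (D j) (Ld g U D j)) * Tow2_sq j
  · refine ⟨√(D j / (D j + U j)) / (D j * √(U j)), by positivity, ?_⟩
    simp only [Tow2_s, Tow2_su, Tow2_u, Tow2_v, Zero_per]
    rw [h.lk_up j.2]
    linear_combination (√(D j / (D j + U j)) / (D j * √(U j)) *
      Per (D j) (U j) (Lu g U D j)) * Tow2_sq j

theorem Tow2_face {z : Fin g × Bool → ℝ} (hz : z ∈ cube (Fin g × Bool)) (i : Fin g × Bool) :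
    (z i = 1 → 0 < Zero_per g i.1 (Zero_U g z, Zero_D g z) i.2) ∧
      (z i = -1 → Zero_per g i.1 (Zero_U g z, Zero_D g z) i.2 < 0) := by
  obtain ⟨j, b⟩ := i
  have hf := Zero_face (Zero_box g hz) j.2
  cases b
  · constructor
    · intro h1
      refine hf.1.2 ?_
      unfold Zero_D
      rw [dif_pos j.2, h1, Zero_one]
    · intro h1
      refine hf.1.1 ?_
      unfold Zero_D
      rw [dif_pos j.2, h1, Zero_neg]
  · constructor
    · intro h1
      refine hf.2.2 ?_
      unfold Zero_U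
      rw [dif_pos j.2, h1, Zero_one]
    · intro h1
      refine hf.2.1 ?_
      unfold Zero_U
      rw [dif_pos j.2, h1, Zero_neg]

end

theorem tower_fam {g : ℕ} (hg : 0 < g) : Nonempty (Fam (Fin g × Bool) g g) := by
  classical
  have hp : ∀ j : Fin g, ∀ x ∈ cube (Fin g × Bool), 0 < Zero_U g x j ∧ 0 < Zero_D g x j :=
    fun j x hx => Link0_pos (Zero_box g hx) j.2
  have n1 := fun j : Fin g => Tow2_nu (Tow2_U g j) (Tow2_D g j) (hp j)
  have n2 := fun j : Fin g => Tow2_nu (Tow2_D g j) (Tow2_U g j) fun x hx => (hp j x hx).symm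
  have n3 : ∀ j : Fin g, ∀ x ∈ cube (Fin g × Bool),
      1 < 1 / √(Zero_D g x j / (Zero_D g x j + Zero_U g x j)) :=
    fun j x hx => (Link0_nu (Zero_box g hx j j.2).symm).1
  refine ⟨{
    D := fun x => tw g (Zero_U g x) (Zero_D g x)
    su := Tow2_su
    sv := Tow2_sv
    u := fun i x => Tow2_u (Zero_U g x) (Zero_D g x) i
    v := fun i x => Tow2_v (Zero_U g x) (Zero_D g x) i
    A := fun _ i j => if i = j then Tow2_s j else 0
    ok := fun x hx => ⟨(Zero_box g hx).ok hg, rfl, rfl⟩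
    ca := fun i hi => Tow2_A hi
    cb := fun i hi => Tow2_B hi
    cρ := ?_
    cu := ?_
    cv := ?_
    cA := fun _ _ => continuousOn_const
    val := ?_
    mem := ?_
    chain := fun α h s s' hs hs' e => ?_
    inj := fun x _ w h => funext fun i => ?_
    face := fun x hx i => ?_ }⟩
  · refine ContinuousOn.rexp (continuousOn_finsetSum _ fun i hi => ?_)
    have hi' := Finset.mem_range.1 hi
    exact (continuousOn_const.mul (((Tow2_A hi').log fun x hx =>
      (Link0_ab (Zero_box g hx) hi').1.ne').sub (continuousOn_const.mul ((Tow2_B hi').log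
        fun x hx => (Link0_ab (Zero_box g hx) hi').2.ne')))).div_const 2
  · rintro ⟨j, _ | _⟩
    · exact (Tow2_A j.2).mul (continuousOn_const.add (n1 j))
    · exact (Tow2_A j.2).div (continuousOn_const.add (n2 j)) fun x hx => by
        have := n3 j x hx
        positivity
  · rintro ⟨j, _ | _⟩
    · exact (Tow2_A j.2).mul (continuousOn_const.sub (n1 j))
    · exact (Tow2_A j.2).div (continuousOn_const.sub (n2 j)) fun x hx =>
        (sub_neg.2 (n3 j x hx)).ne
  · rintro ⟨j, _ | _⟩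
    · simp [Tow2_su, Tow2_sv, Sg.Val, Sg.ty, Nat.even_add_one]
    · simp [Tow2_su, Tow2_sv, Sg.Val, Sg.ty, Nat.odd_add_one]
  · rintro ⟨j, _ | _⟩ x hx
    · obtain ⟨a, b⟩ := (Zero_box g hx).in_down j.2
      exact ⟨a, b, b.1.trans a.1⟩
    · obtain ⟨a, b⟩ := (Zero_box g hx).in_up j.2
      exact ⟨a, b, b.1.trans a.1⟩
  · have hd : ∀ j < g, α (false, j + 1) = α (true, j) := fun j hj => h (⟨j, hj⟩, false)
    have hu : ∀ j < g, α (false, j) = α (true, j + 1) := fun j hj => h (⟨j, hj⟩, true)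
    rw [Tow2_chain α hd hu s hs, Tow2_chain α hd hu s' hs', e]
  · have h1 := h i
    simp only [ite_mul, zero_mul, Finset.sum_ite_eq, Finset.mem_univ, if_true] at h1
    refine (mul_eq_zero.1 h1).resolve_left ?_
    obtain ⟨j, _ | _⟩ := i <;> simp [Tow2_s, sg]
  · simp only [ite_mul, zero_mul, Finset.sum_ite_eq, Finset.mem_univ, if_true]
    obtain ⟨c, hc, e⟩ := Tow2_lk (Zero_box g hx) i
    rw [e]
    exact ⟨fun h => mul_pos hc ((Tow2_face hx i).1 h),
      fun h => mul_neg_of_pos_of_neg hc ((Tow2_face hx i).2 h)⟩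

end Pool.Agent.MP_92463a_gt
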