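import Pool.Agent.MP_92463a_gt.Em0
import Pool.Agent.MP_92463a_gt.Emb1
import Pool.Agent.MP_92463a_gt.DatC

open Set Complex Filter Metric
open scoped Topology ComplexConjugate ContDiff Manifold

noncomputable section

namespace Pool.Agent.MP_92463a_gt

section

variable {α : Type} {l : Filter α}

theorem Sing1_gap {f : α → ℕ → ℝ} {f₀ : ℕ → ℝ} {s : Finset ℕ}
    (h : ∀ i ∈ s, Tendsto (fun x => f x i) l (𝓝 (f₀ i))) (h0 : ∀ i ∈ s, 0 < f₀ i) :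
    ∀ᶠ δ in 𝓝[>] (0 : ℝ), ∀ᶠ x in l, ∀ i ∈ s, δ < f x i := by
  simp only [eventually_all_finset]
  intro i hi
  filter_upwards [Ioo_mem_nhdsGT (h0 i hi)] with δ hδ using (h i hi).eventually (lt_mem_nhds hδ.2)

theorem Sing1_fs : Tendsto (fun z : α × ℂ => z.2) (l ×ˢ 𝓝[{τ : ℂ | 0 ≤ τ.im}] 0) (𝓝 0) ∧
    ∀ᶠ z : α × ℂ in l ×ˢ 𝓝[{τ : ℂ | 0 ≤ τ.im}] 0, 0 ≤ z.2.im :=
  tendsto_nhdsWithin_iff.1 tendsto_snd

theorem Sing1_mod {u v : α → ℂ → ℂ} {u₀ : ℂ} (h0 : u₀ ≠ 0)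
    (hu : Tendsto (fun z : α × ℂ => u z.1 z.2) (l ×ˢ 𝓝[{τ : ℂ | 0 ≤ τ.im}] 0) (𝓝 u₀))
    (hv : Tendsto (fun z : α × ℂ => v z.1 z.2) (l ×ˢ 𝓝[{τ : ℂ | 0 ≤ τ.im}] 0) (𝓝 0))
    {ε : ℝ} (hε : 0 < ε) : ∀ᶠ δ in 𝓝[>] (0 : ℝ), ∀ᶠ x in l, ‖u₀‖ / 2 ≤ ‖u x 0‖ ∧
      ‖u x 0‖ ≤ 2 * ‖u₀‖ ∧ ∀ τ ∈ HA 0 δ, ‖u x τ - u x 0‖ + ‖v x τ‖ ≤ ε * ‖u x 0‖ := by
  have hp := norm_pos_iff.2 h0
  have h1 : Tendsto (fun x => u x 0) l (𝓝 u₀) := hu.comp (f := fun x => (x, (0 : ℂ)))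
    (tendsto_id.prodMk (tendsto_const_pure.mono_right (pure_le_nhdsWithin zero_im.ge)))
  have h2 := h1.comp (tendsto_fst (g := 𝓝[{τ : ℂ | 0 ≤ τ.im}] (0 : ℂ)))
  have h3 := ((hu.sub h2).norm.add hv.norm).eventually_lt (h2.norm.const_mul ε)
    (by simpa using mul_pos hε hp)
  obtain ⟨pa, ha, pb, hb, h⟩ := eventually_prod_iff.1 h3
  obtain ⟨δ₀, hδ₀, hb⟩ := Metric.mem_nhdsWithin_iff.1 hb
  filter_upwards [Ioo_mem_nhdsGT hδ₀] with δ hδ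
  filter_upwards [ha, h1.norm.eventually (le_mem_nhds (half_lt_self hp)),
    h1.norm.eventually (ge_mem_nhds (lt_two_mul_self hp))] with x hx h4 h5
  exact ⟨h4, h5, fun τ hτ => (h hx (hb ⟨mem_ball_zero_iff.2 (hτ.2.2.trans hδ.2), hτ.1⟩)).le⟩

theorem Sing1_Mod {f₁ f₂ : ℂ → ℂ} {a b c τ : ℂ} {σ ε : ℝ} (h0 : τ ≠ 0)
    (h₁ : f₁ τ = a * pw (σ - 1) τ) (h₂ : f₂ τ = b * pw (σ - 1) τ)
    (h : ‖a - c‖ + ‖b‖ ≤ ε * ‖c‖) : Mod f₁ f₂ c σ ε τ := by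
  rw [Mod, h₁, h₂, ← sub_mul, norm_mul, norm_mul, norm_pw _ h0, ← add_mul]
  exact mul_le_mul_of_nonneg_right h (Real.rpow_nonneg (norm_nonneg _) _)

theorem Sing1_e1 (A t τ : ℂ) : exp A / t = exp (A + log τ / 2) / t * pw (1 / 2 - 1) τ := by
  rw [pw, div_mul_eq_mul_div, ← exp_add]
  congr 2
  push_cast
  ring

theorem Sing1_e2 (A t : ℂ) {τ : ℂ} (h : τ ≠ 0) :
    exp (-A) / t = τ * exp (-(A + log τ / 2)) / t * pw (1 / 2 - 1) τ := by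
  rw [pw, div_mul_eq_mul_div, mul_assoc, ← exp_add]
  nth_rw 1 [← exp_log h]
  rw [← exp_add]
  congr 2
  push_cast
  ring

theorem Sing1_e3 {τ : ℂ} (h : τ ≠ 0) : pw (-1 / 2 - 1) τ = pw (1 / 2 - 1) τ / τ := by
  rw [eq_div_iff h]
  nth_rw 2 [← pw_one h]
  rw [pw_mul]
  norm_num

end

namespace Dat

variable {α : Type} {l : Filter α} {D : α → Dat} {D₀ : Dat}

theorem Sing1_F2 (D : Dat) (t : ℂ) : D.F2 t = exp (-D.LG t) / t := by
  rw [F2, Dat.G, exp_neg, mul_inv, div_eq_mul_inv]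

/-- the part of `LG` without the singular logarithms -/
def Sing1_L (D : Dat) (n : ℕ) (s : Finset ℕ) (t : ℂ) : ℂ :=
  Real.log D.ρ + ∑ j ∈ Finset.range n, sg j * (3 / 2) * log (t + D.b j) -
    ∑ i ∈ s, sg i * (1 / 2) * lm (D.a i) t

theorem Tends.Sing1_L (h : Tends l D D₀) {s : Finset ℕ} (hs : s ⊆ Finset.range D₀.p) {t : α → ℂ}
    {t₀ : ℝ} (ht : Tendsto t l (𝓝 t₀)) (hi : ∀ᶠ x in l, 0 ≤ (t x).im) (h₀ : 0 ≤ t₀)
    (h2 : ∀ i ∈ s, t₀ ≠ D₀.a i) :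
    Tendsto (fun x => Sing1_L (D x) D₀.q s (t x)) l (𝓝 (Sing1_L D₀ D₀.q s t₀)) :=
  ((DatC_re (h.ρ.log h.ok₀.ρ_pos.ne')).add (tendsto_finsetSum _ fun j hj =>
    (DatC_log (ht.add (DatC_re (h.b j (Finset.mem_range.1 hj)))) (by simpa using hi) (by simp)
      (by exact_mod_cast (add_pos_of_nonneg_of_pos h₀
        (h.ok₀.b_pos j (Finset.mem_range.1 hj))).ne')).const_mul _)).sub
    (tendsto_finsetSum _ fun i hi' =>
      ((DatC_log (ht.sub (DatC_re (h.a i (Finset.mem_range.1 (hs hi'))))) (by simpa using hi)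
        (by simp) (by exact_mod_cast sub_ne_zero.2 (h2 i hi'))).sub_const _).const_mul _)

theorem Sing1_L0 (D : Dat) (t : ℂ) :
    D.LG t + log t / 2 = Sing1_L D D.q (Finset.range D.p) t := by
  rw [LG, Sing1_L]
  ring

theorem Sing1_La (D : Dat) {i : ℕ} (hi : i < D.p) (τ : ℂ) :
    sg i * D.LG (D.a i + τ) + log τ / 2 = sg i * (Sing1_L D D.q ((Finset.range D.p).erase i)
      (D.a i + τ) - log (D.a i + τ) / 2) + Real.pi * I / 2 := by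
  have h : (sg i : ℂ) * sg i = 1 := by
    rw [← ofReal_mul, sg, ← mul_pow]
    simp
  rw [LG, Sing1_L, ← Finset.add_sum_erase _ _ (Finset.mem_range.2 hi), lm, add_sub_cancel_left]
  linear_combination (-(log τ - Real.pi * I) / 2) * h

theorem Tends.Sing1_0 (h : Tends l D D₀) {τ : α → ℂ} (ht : Tendsto τ l (𝓝 0))
    (hi : ∀ᶠ x in l, 0 ≤ (τ x).im) :
    Tendsto (fun x => (D x).LG (τ x) + log (τ x) / 2) l (𝓝 (D₀.LG 0 + log 0 / 2)) := by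
  rw [Sing1_L0]
  refine (h.Sing1_L (t₀ := 0) subset_rfl ht hi le_rfl fun i hi =>
    (h.ok₀.a_pos i (Finset.mem_range.1 hi)).ne).congr' ?_
  filter_upwards [h.ok] with x hx
  rw [Sing1_L0, hx.2.1, hx.2.2]

theorem Ok.Sing1_ne {D : Dat} (hD : D.Ok) {i k : ℕ} (hi : i < D.p)
    (hk : k ∈ (Finset.range D.p).erase i) : D.a i ≠ D.a k := by
  obtain ⟨h1, h2⟩ := Finset.mem_erase.1 hk
  rcases lt_or_gt_of_ne h1 with h | h
  · exact (hD.a_lt k i h hi).ne'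
  · exact (hD.a_lt i k h (Finset.mem_range.1 h2)).ne

theorem Tends.Sing1_a (h : Tends l D D₀) {i : ℕ} (hi : i < D₀.p) {τ : α → ℂ}
    (ht : Tendsto τ l (𝓝 0)) (hτ : ∀ᶠ x in l, 0 ≤ (τ x).im) :
    Tendsto (fun x => sg i * (D x).LG ((D x).a i + τ x) + log (τ x) / 2) l
      (𝓝 (sg i * D₀.LG (D₀.a i + 0) + log 0 / 2)) := by
  have hp := h.ok₀.a_pos i hi
  have h1 : Tendsto (fun x => ((D x).a i : ℂ) + τ x) l (𝓝 (D₀.a i)) := by
    simpa using (DatC_re (h.a i hi)).add ht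
  have h2 : ∀ᶠ x in l, 0 ≤ (((D x).a i : ℂ) + τ x).im := by simpa using hτ
  rw [Sing1_La _ hi, add_zero]
  refine ((((h.Sing1_L (Finset.erase_subset i _) h1 h2 hp.le fun k hk =>
    h.ok₀.Sing1_ne hi hk).sub ((DatC_log h1 h2 (by simp)
      (by exact_mod_cast hp.ne')).div_const 2)).const_mul _).add_const _).congr' ?_
  filter_upwards [h.ok] with x hx
  rw [Sing1_La _ (hx.2.1 ▸ hi), hx.2.1, hx.2.2]

theorem Ok.Sing1_ph {D : Dat} (hD : D.Ok) {x : ℝ} {k : ℕ} (hx : 0 ≤ x) (hk : k ≤ D.p)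
    (h1 : ∀ i < k, D.a i ≤ x) (h2 : ∀ i, k ≤ i → i < D.p → x < D.a i) :
    (D.LG x).im = (if Even k then 0 else 1) * (Real.pi / 2) := by
  rw [Phase_im, arg_ofReal_of_nonneg hx, Finset.sum_eq_zero fun j hj => by
    rw [arg_ofReal_of_nonneg (add_nonneg hx (hD.b_pos j (Finset.mem_range.1 hj)).le), mul_zero,
      mul_zero], Phase_sum (c := Real.pi / 2) hk (fun i hi => by
      rw [arg_ofReal_of_nonneg (sub_nonneg.2 (h1 i hi))]; ring) fun i h3 h4 => by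
      rw [arg_ofReal_of_neg (sub_neg.2 (h2 i h3 h4))]; ring]
  ring

theorem Sing1_P {D : Dat} {x₀ δ : ℝ} (h0 : x₀ = 0 ∨ δ < |x₀|) (h1 : ∀ j < D.q, δ < x₀ + D.b j)
    (h2 : ∀ i < D.p, D.a i = x₀ ∨ δ < |D.a i - x₀|) (τ : ℂ) (h3 : 0 < ‖τ‖) (h4 : ‖τ‖ < δ) :
    D.P (x₀ + τ) ≠ 0 := by
  have key : ∀ y : ℝ, (x₀ : ℂ) + τ = y → y ≠ x₀ ∧ |y - x₀| < δ := fun y hy => by
    have h5 : τ = ((y - x₀ : ℝ) : ℂ) := by rw [ofReal_sub, ← hy, add_sub_cancel_left]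
    rw [h5, norm_real, Real.norm_eq_abs] at h3 h4
    exact ⟨sub_ne_zero.1 (abs_pos.1 h3), h4⟩
  intro h
  rcases P_eq_zero.1 h with (h | ⟨j, hj, h⟩) | ⟨i, hi, h⟩
  · obtain ⟨h5, h6⟩ := key 0 h
    rw [zero_sub, abs_neg] at h6
    exact h0.elim (fun e => h5 e.symm) h6.not_gt
  · obtain ⟨-, h6⟩ := key (-D.b j) (by rw [h, ofReal_neg])
    linarith [h1 j hj, (abs_lt.1 h6).1]
  · obtain ⟨h5, h6⟩ := key _ h
    exact (h2 i hi).elim h5 h6.not_gt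

theorem Ok.Sing1_sg {D : Dat} (hD : D.Ok) {i : ℕ} (hi : i < D.p) {δ : ℝ} (h1 : δ < D.a i)
    (h2 : ∀ k ∈ (Finset.range D.p).erase i, δ < |D.a k - D.a i|) {r : ℝ} (hr : r ∈ Ioo 0 δ) :
    sg i * (D.P (D.a i + r)).re < 0 ∧ 0 < sg i * (D.P (D.a i + -r)).re := by
  have h3 : ∀ k < i, D.a k < D.a i - δ := fun k hk => by
    have := h2 k (Finset.mem_erase.2 ⟨hk.ne, Finset.mem_range.2 (hk.trans hi)⟩)
    rw [abs_of_neg (sub_neg.2 (hD.a_lt k i hk hi))] at this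
    linarith
  have h4 : ∀ k, i < k → k < D.p → D.a i + δ < D.a k := fun k hk hp => by
    have := h2 k (Finset.mem_erase.2 ⟨hk.ne', Finset.mem_range.2 hp⟩)
    rw [abs_of_pos (sub_pos.2 (hD.a_lt i k hk hp))] at this
    linarith
  obtain ⟨r0, r1⟩ := hr
  have e1 := (hD.sign_pos (x := D.a i + r) (k := i + 1) (by linarith) hi (fun k hk => by
    rcases (Nat.lt_succ_iff.1 hk).lt_or_eq with h | rfl
    · linarith [h3 k h]
    · linarith) fun k hk hp => by linarith [h4 k hk hp]).1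
  have e2 := (hD.sign_pos (x := D.a i + -r) (k := i) (by linarith) hi.le
    (fun k hk => by linarith [h3 k hk]) fun k hk hp => by
    rcases hk.lt_or_eq with h | rfl
    · linarith [h4 k h hp]
    · linarith).1
  rw [sg, pow_succ, ← sg] at e1
  push_cast at e1 e2
  exact ⟨by linarith, e2⟩

theorem Tends.sing_a (h : Tends l D D₀) {i : ℕ} (hi : i < D₀.p) : ∃ m > 0, ∃ M, ∀ ε > 0,
    ∀ᶠ δ in 𝓝[>] (0 : ℝ), ∀ᶠ x in l, (D x).Sing ((D x).a i) (1 / 2) 0 δ ε m M := by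
  have hp : (D₀.a i : ℂ) + 0 ≠ 0 := by simpa using (h.ok₀.a_pos i hi).ne'
  have h1 := (h.comp tendsto_fst).Sing1_a hi Sing1_fs.1 Sing1_fs.2
  have h2 := (DatC_re ((h.comp tendsto_fst).a i hi)).add Sing1_fs.1
  have h0 := div_ne_zero (exp_ne_zero (sg i * D₀.LG (D₀.a i + 0) + log 0 / 2)) hp
  refine ⟨_, half_pos (norm_pos_iff.2 h0),
    2 * ‖exp (sg i * D₀.LG (D₀.a i + 0) + log 0 / 2) / (D₀.a i + 0)‖, fun ε hε => ?_⟩
  filter_upwards [Sing1_mod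
    (u := fun x τ => exp (sg i * (D x).LG ((D x).a i + τ) + log τ / 2) / ((D x).a i + τ))
    (v := fun x τ => τ * exp (-(sg i * (D x).LG ((D x).a i + τ) + log τ / 2)) / ((D x).a i + τ))
    h0 (h1.cexp.div h2 hp) (by
      have := (Sing1_fs.1.mul h1.neg.cexp).div h2 hp
      rwa [zero_mul, zero_div] at this) hε,
    Sing1_gap (s := {i}) (fun k hk => h.a k (Finset.mem_singleton.1 hk ▸ hi))
      fun k hk => h.ok₀.a_pos k (Finset.mem_singleton.1 hk ▸ hi),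
    Sing1_gap (s := (Finset.range D₀.p).erase i) (f := fun x k => |(D x).a k - (D x).a i|)
      (fun k hk => ((h.a k (Finset.mem_range.1 (Finset.mem_of_mem_erase hk))).sub (h.a i hi)).abs)
      fun k hk => abs_pos.2 (sub_ne_zero.2 (h.ok₀.Sing1_ne hi hk).symm)] with δ e1 e2 e3
  filter_upwards [e1, e2, e3, h.ok] with x ⟨m1, m2, m3⟩ g1 g2 ⟨hD, hp, _⟩
  rw [← hp] at hi g2
  have g3 := g1 i (Finset.mem_singleton_self i)
  have g4 := hD.a_pos i hi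
  have g5 := hD.Sing1_ph (k := i + 1) g4.le hi (fun k hk => by
    rcases (Nat.lt_succ_iff.1 hk).lt_or_eq with h | rfl
    · exact (hD.a_lt k i h hi).le
    · exact le_rfl) fun k hk hp => hD.a_lt i k hk hp
  refine ⟨Sing1_P (Or.inr (g3.trans_le (le_abs_self _)))
    (fun j hj => by linarith [hD.b_pos j hj]) fun k hk => (em (k = i)).imp (congrArg _) fun e =>
      g2 k (Finset.mem_erase.2 ⟨e, Finset.mem_range.2 hk⟩), _, m1, m2, ?_⟩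
  have g6 := fun r => hD.Sing1_sg hi g3 g2 (r := r)
  rcases Nat.even_or_odd i with he | he
  · have s1 : sg i = 1 := he.neg_one_pow
    rw [if_neg (Nat.not_even_iff_odd.2 he.add_one), one_mul] at g5
    simp only [s1, ofReal_one, one_mul] at m3 g6 ⊢
    refine ⟨Or.inr ⟨by simp [exp_re, g5], g6⟩, Or.inl fun τ hτ => ?_⟩
    have t0 := norm_pos_iff.1 hτ.2.1
    exact Sing1_Mod t0 (Sing1_e1 _ _ τ) ((Sing1_F2 _ _).trans (Sing1_e2 _ _ t0)) (m3 τ hτ)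
  · have s1 : sg i = -1 := he.neg_one_pow
    rw [if_pos he.add_one, zero_mul] at g5
    simp only [s1, ofReal_neg, ofReal_one, neg_mul, one_mul, neg_pos, neg_lt_zero] at m3 g6 ⊢
    refine ⟨Or.inl ⟨by simp [exp_im, g5], g6⟩, Or.inr fun τ hτ => ?_⟩
    have t0 := norm_pos_iff.1 hτ.2.1
    refine Sing1_Mod t0 ((Sing1_F2 _ _).trans (Sing1_e1 _ _ τ)) ?_ (m3 τ hτ)
    rw [← Sing1_e2 _ _ t0, neg_neg]
    rfl

theorem Tends.sing_0 (h : Tends l D D₀) : ∃ m > 0, ∃ M, ∀ ε > 0,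
    ∀ᶠ δ in 𝓝[>] (0 : ℝ), ∀ᶠ x in l, (D x).Sing 0 (-1 / 2) 0 δ ε m M := by
  have h1 := (h.comp tendsto_fst).Sing1_0 Sing1_fs.1 Sing1_fs.2
  have h0 := exp_ne_zero (D₀.LG 0 + log 0 / 2)
  refine ⟨_, half_pos (norm_pos_iff.2 h0), 2 * ‖exp (D₀.LG 0 + log 0 / 2)‖, fun ε hε => ?_⟩
  filter_upwards [Sing1_mod (u := fun x τ => exp ((D x).LG τ + log τ / 2))
    (v := fun x τ => τ * exp (-((D x).LG τ + log τ / 2)))
    h0 h1.cexp (by simpa using Sing1_fs.1.mul h1.neg.cexp) hε,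
    Sing1_gap (s := Finset.range D₀.p) (fun k hk => h.a k (Finset.mem_range.1 hk))
      fun k hk => h.ok₀.a_pos k (Finset.mem_range.1 hk),
    Sing1_gap (s := Finset.range D₀.q) (fun k hk => h.b k (Finset.mem_range.1 hk))
      fun k hk => h.ok₀.b_pos k (Finset.mem_range.1 hk)] with δ e1 e2 e3
  filter_upwards [e1, e2, e3, h.ok] with x ⟨m1, m2, m3⟩ g1 g2 ⟨hD, hp, hq⟩
  simp only [← hp, ← hq, Finset.mem_range] at g1 g2
  have g5 := hD.Sing1_ph (k := 0) le_rfl (Nat.zero_le _) (fun k hk => absurd hk (Nat.not_lt_zero _))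
    fun k _ hk => hD.a_pos k hk
  rw [if_pos Even.zero, zero_mul, ofReal_zero] at g5
  refine ⟨Sing1_P (Or.inl rfl) (by simpa using g2) fun k hk => Or.inr
    ((g1 k hk).trans_le (by simpa using le_abs_self _)), _, m1, m2,
    Or.inl ⟨by simp [exp_im, g5], fun r hr => ⟨?_, ?_⟩⟩, Or.inl fun τ hτ => ?_⟩
  · simpa [sg] using (hD.sign_pos (k := 0) hr.1 (Nat.zero_le _)
      (fun k hk => absurd hk (Nat.not_lt_zero _)) fun k _ hk => hr.2.trans (g1 k hk)).1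
  · simpa [sg] using (hD.sign_neg (k := 0) (neg_lt_zero.2 hr.1) (Nat.zero_le _)
      (fun k hk => absurd hk (Nat.not_lt_zero _)) fun k _ hk => by
        linarith [hr.2, g2 k hk]).1
  · have t0 := norm_pos_iff.1 hτ.2.1
    refine Sing1_Mod t0 ?_ ?_ (m3 τ hτ)
    · rw [ofReal_zero, zero_add, Sing1_e3 t0, mul_div_left_comm, mul_comm, ← Sing1_e1]
      rfl
    · rw [ofReal_zero, zero_add, Sing1_e3 t0, mul_div_left_comm, mul_comm, ← Sing1_e2 _ _ t0,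
        Sing1_F2]

end Dat

end Pool.Agent.MP_92463a_gt
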