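import Pool.Agent.MP_92463a_gt.Em0
import Pool.Agent.MP_92463a_gt.Emb1
import Pool.Agent.MP_92463a_gt.DatC

open Set Complex Filter Metric
open scoped Topology ComplexConjugate ContDiff Manifold

noncomputable section

namespace Pool.Agent.MP_92463a_gt

namespace Dat

variable {α : Type} {l : Filter α} {D : α → Dat} {D₀ : Dat}

/-- points of the upper half plane with norm along `k` -/
def Sing2_F (k : Filter ℝ) : Filter ℂ := comap norm k ⊓ 𝓟 {τ | 0 ≤ τ.im}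

theorem Sing2_norm (k : Filter ℝ) : Tendsto (fun z : α × ℂ => ‖z.2‖) (l ×ˢ Sing2_F k) k :=
  (tendsto_comap.mono_left inf_le_left).comp tendsto_snd

theorem Sing2_im (k : Filter ℝ) : ∀ᶠ z : α × ℂ in l ×ˢ Sing2_F k, 0 ≤ z.2.im :=
  tendsto_snd.eventually (mem_inf_of_right (mem_principal_self _))

theorem Sing2_core {k : Filter ℝ} {f₁ f₂ : α → ℂ → ℂ} {c : ℂ} {σ ε : ℝ} (hc : c ≠ 0)
    (hε : 0 < ε) (hk : ∀ᶠ r in k, 0 < r)
    (h₁ : Tendsto (fun z : α × ℂ => f₁ z.1 z.2 / pw (σ - 1) z.2) (l ×ˢ Sing2_F k) (𝓝 c))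
    (h₂ : Tendsto (fun z : α × ℂ => f₂ z.1 z.2 / pw (σ - 1) z.2) (l ×ˢ Sing2_F k) (𝓝 0)) :
    ∃ B ∈ k, ∀ᶠ x in l, ∀ τ : ℂ, 0 ≤ τ.im → ‖τ‖ ∈ B → Mod (f₁ x) (f₂ x) c σ ε τ := by
  have h₃ := (h₁.sub_const c).norm.add h₂.norm
  rw [sub_self, norm_zero, add_zero] at h₃
  have h₄ : ∀ᶠ z : α × ℂ in l ×ˢ Sing2_F k, Mod (f₁ z.1) (f₂ z.1) c σ ε z.2 := by
    filter_upwards [h₃.eventually (gt_mem_nhds (mul_pos hε (norm_pos_iff.2 hc))),
      (Sing2_norm k).eventually hk] with z h1 h2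
    have h3 := pw_ne (σ - 1) z.2
    have h4 : f₁ z.1 z.2 - c * pw (σ - 1) z.2 =
        (f₁ z.1 z.2 / pw (σ - 1) z.2 - c) * pw (σ - 1) z.2 := by field_simp
    have h5 : f₂ z.1 z.2 = f₂ z.1 z.2 / pw (σ - 1) z.2 * pw (σ - 1) z.2 := by field_simp
    rw [Mod, h4, h5, norm_mul, norm_mul, ← add_mul, ← norm_pw _ (norm_pos_iff.1 h2)]
    exact mul_le_mul_of_nonneg_right h1.le (norm_nonneg _)
  obtain ⟨pa, ha, pb, hb, h₅⟩ := eventually_prod_iff.1 h₄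
  rw [Sing2_F, eventually_inf_principal, eventually_comap] at hb
  exact ⟨_, hb, ha.mono fun x hx τ h1 h2 => h₅ hx (h2 τ rfl h1)⟩

theorem Sing2_ne {D : Dat} {x₀ r₀ r₁ s s' : ℝ}
    (h : ∀ r ∈ Ioo r₀ r₁, s * (D.P (x₀ + r)).re < 0 ∧ s' * (D.P (x₀ + -r)).re < 0)
    (τ : ℂ) (h₀ : r₀ < ‖τ‖) (h₁ : ‖τ‖ < r₁) : D.P (x₀ + τ) ≠ 0 := by
  by_cases h2 : τ.im = 0
  · obtain ⟨r, rfl⟩ : ∃ r : ℝ, τ = r := ⟨τ.re, Complex.ext rfl h2⟩
    rw [norm_real, Real.norm_eq_abs] at h₀ h₁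
    obtain ⟨h3, h4⟩ := h _ ⟨h₀, h₁⟩
    intro h5
    rcases abs_choice r with h6 | h6
    · rw [h6, h5, zero_re, mul_zero] at h3
      exact h3.false
    · rw [h6, ofReal_neg, neg_neg, h5, zero_re, mul_zero] at h4
      exact h4.false
  · exact ne_of_im (by simpa using h2)

/-- the regular part of the logarithm of the Gauss map at `-b j` -/
def Sing2_L (D : Dat) (j : ℕ) (t : ℂ) : ℂ :=
  Real.log D.ρ - log t / 2 + ∑ k ∈ (Finset.range D.q).erase j, sg k * (3 / 2) * log (t + D.b k) -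
    ∑ i ∈ Finset.range D.p, sg i * (1 / 2) * lm (D.a i) t

theorem Sing2_G {D : Dat} {j : ℕ} (hj : j < D.q) (τ : ℂ) :
    D.G ((-D.b j : ℝ) + τ) = pw (sg j * (3 / 2)) τ * exp (D.Sing2_L j ((-D.b j : ℝ) + τ)) := by
  rw [G, pw, ← exp_add, LG, Sing2_L, ← Finset.add_sum_erase _ _ (Finset.mem_range.2 hj),
    show ((-D.b j : ℝ) : ℂ) + τ + D.b j = τ by push_cast; ring]
  congr 1
  push_cast
  ring

theorem Sing2_tL (h : Tends l D D₀) {j : ℕ} (hj : j < D₀.q) {τ : α → ℂ} (ht : Tendsto τ l (𝓝 0))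
    (hi : ∀ᶠ x in l, 0 ≤ (τ x).im) :
    Tendsto (fun x => ((-(D x).b j : ℝ) + τ x : ℂ)) l (𝓝 (-D₀.b j : ℝ)) ∧
    Tendsto (fun x => exp ((D x).Sing2_L j ((-(D x).b j : ℝ) + τ x))) l
      (𝓝 (exp (D₀.Sing2_L j (-D₀.b j : ℝ)))) := by
  have h1 := (DatC_re (h.b j hj).neg).add ht
  rw [add_zero] at h1
  have hb := h.ok₀.b_pos j hj
  have e1 : ∀ k ∈ (Finset.range D₀.q).erase j, Tendsto
      (fun x => (sg k * (3 / 2) * log ((-(D x).b j : ℝ) + τ x + (D x).b k) : ℂ)) l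
      (𝓝 (sg k * (3 / 2) * log ((-D₀.b j : ℝ) + D₀.b k))) := fun k hk => by
    have h2 := Finset.mem_range.1 (Finset.mem_erase.1 hk).2
    refine (DatC_log (h1.add (DatC_re (h.b k h2))) (by simpa using hi) (by simp) ?_).const_mul _
    rw [← ofReal_add, ofReal_ne_zero]
    rcases lt_or_gt_of_ne (Finset.mem_erase.1 hk).1 with h3 | h3
    · exact ne_of_lt (by linarith [h.ok₀.b_gap k j h3 hj, h.ok₀.b_pos k h2])
    · exact ne_of_gt (by linarith [h.ok₀.b_gap j k h3 h2])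
  have e2 : ∀ i ∈ Finset.range D₀.p, Tendsto
      (fun x => (sg i * (1 / 2) * lm ((D x).a i) ((-(D x).b j : ℝ) + τ x) : ℂ)) l
      (𝓝 (sg i * (1 / 2) * lm (D₀.a i) (-D₀.b j : ℝ))) := fun i hi' => by
    have h2 := Finset.mem_range.1 hi'
    refine ((DatC_log (h1.sub (DatC_re (h.a i h2))) (by simpa using hi) (by simp) ?_).sub_const
      _).const_mul _
    rw [← ofReal_sub, ofReal_ne_zero]
    exact ne_of_lt (by linarith [h.ok₀.a_pos i h2])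
  refine ⟨h1, Tendsto.congr' ?_ (((((DatC_re (h.ρ.log h.ok₀.ρ_pos.ne')).sub
    ((DatC_log h1 (by simpa using hi) (by simp) (ofReal_ne_zero.2 (by linarith))).div_const 2)).add
      (tendsto_finsetSum _ e1)).sub (tendsto_finsetSum _ e2)).cexp)⟩
  filter_upwards [h.ok] with x hx
  rw [Sing2_L, hx.2.1, hx.2.2]

theorem Sing2_sb {D : Dat} (hD : D.Ok) {j : ℕ} (hj : j < D.q) {r : ℝ} (h₀ : 0 < r)
    (h₁ : r < D.b j / 2) : (sg j * (D.P ((-D.b j : ℝ) + r)).re < 0 ∧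
      sg (j + 1) * (D.P ((-D.b j : ℝ) + -r)).re < 0) ∧ D.G ((-D.b j : ℝ) + r) =
        (if Even j then -I else -1) * (‖D.G ((-D.b j : ℝ) + r)‖ : ℂ) := by
  have h2 := hD.sign_neg (x := -D.b j + r) (k := j) (by linarith) hj.le
    (fun i hi => by linarith [hD.b_gap i j hi hj, hD.b_pos i (hi.trans hj)]) fun i h3 h4 => by
      rcases h3.eq_or_lt with rfl | h5
      · linarith
      · linarith [hD.b_gap j i h5 h4]
  have h3 := hD.sign_neg (x := -D.b j + -r) (k := j + 1) (by linarith) hj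
    (fun i hi => by
      rcases (Nat.lt_succ_iff.1 hi).eq_or_lt with rfl | h5
      · linarith
      · linarith [hD.b_gap i j h5 hj, hD.b_pos i (h5.trans hj)])
    fun i h3 h4 => by linarith [hD.b_gap j i h3 h4]
  rw [ofReal_add] at h2 h3
  rw [ofReal_neg r] at h3
  exact ⟨⟨h2.1, h3.1⟩, h2.2⟩

theorem Sing2_ph (hD : D₀.Ok) {j : ℕ} (hj : j < D₀.q) :
    ((if Even j then I else 1) * exp (D₀.Sing2_L j (-D₀.b j : ℝ))).im = 0 := by
  have h : Tends (𝓝[>] (0 : ℝ)) (fun _ => D₀) D₀ := ⟨hD, Eventually.of_forall fun _ => ⟨hD, rfl, rfl⟩,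
    fun _ _ => tendsto_const_nhds, fun _ _ => tendsto_const_nhds, tendsto_const_nhds⟩
  have h1 := (continuous_im.tendsto _).comp ((Sing2_tL h hj (τ := fun r : ℝ => r)
    (DatC_re (c := 0) nhdsWithin_le_nhds) (by simp)).2.const_mul (if Even j then I else 1))
  refine tendsto_nhds_unique h1 (tendsto_const_nhds.congr' ?_)
  filter_upwards [Ioo_mem_nhdsGT (half_pos (hD.b_pos j hj))] with r hr
  have h2 := (Sing2_sb hD hj hr.1 hr.2).2
  have h3 := Sing2_G hj (r : ℂ)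
  rw [pw, ← ofReal_log hr.1.le, ← ofReal_mul, ← ofReal_exp, h2] at h3
  have h4 := (eq_div_iff (ofReal_ne_zero.2 (Real.exp_ne_zero _))).2 ((mul_comm _ _).trans h3.symm)
  simp only [Function.comp_apply, h4, ← mul_div_assoc, ← mul_assoc, div_ofReal_im]
  split_ifs <;> simp

theorem Sing2_sg (j : ℕ) : sg j = if Even j then 1 else -1 := neg_one_pow_eq_ite

theorem Sing2_mb (h : Tends l D D₀) {j : ℕ} (hj : j < D₀.q) :
    ∃ c : ℂ, c ≠ 0 ∧ (if Even j then c.re else c.im) = 0 ∧ ∀ ε > 0, ∃ B ∈ 𝓝[>] (0 : ℝ), ∀ᶠ x in l,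
      (∀ τ : ℂ, 0 ≤ τ.im → ‖τ‖ ∈ B → Mod (fun τ => (D x).F1 ((-(D x).b j : ℝ) + τ))
        (fun τ => (D x).F2 ((-(D x).b j : ℝ) + τ)) c (-1 / 2) ε τ) ∨
      ∀ τ : ℂ, 0 ≤ τ.im → ‖τ‖ ∈ B → Mod (fun τ => (D x).F2 ((-(D x).b j : ℝ) + τ))
        (fun τ => (D x).F1 ((-(D x).b j : ℝ) + τ)) c (-1 / 2) ε τ := by
  have n0 := Sing2_norm (l := l) (𝓝[>] (0 : ℝ))
  have n1 := n0.mono_right nhdsWithin_le_nhds
  obtain ⟨t1, t2⟩ := Sing2_tL (h.comp tendsto_fst) hj (τ := Prod.snd)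
    (tendsto_zero_iff_norm_tendsto_zero.2 n1) (Sing2_im _)
  have t3 : Tendsto (fun z : α × ℂ => pw (3 / 2) z.2) (l ×ˢ Sing2_F (𝓝[>] 0)) (𝓝 0) := by
    have := n1.rpow_const (p := 3 / 2) (Or.inr (by norm_num))
    rw [Real.zero_rpow (by norm_num)] at this
    refine tendsto_zero_iff_norm_tendsto_zero.2 (this.congr' ?_)
    filter_upwards [n0.eventually self_mem_nhdsWithin] with z hz
    rw [norm_pw _ (norm_pos_iff.1 hz)]
  have hw : ∀ τ, pw (-1 / 2 - 1) τ = (pw (3 / 2) τ)⁻¹ := fun τ => by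
    rw [pw, pw, ← exp_neg]
    congr 1
    push_cast
    ring
  have hq : ∀ᶠ z : α × ℂ in l ×ˢ Sing2_F (𝓝[>] 0), j < (D z.1).q :=
    tendsto_fst.eventually (h.ok.mono fun x hx => hx.2.2 ▸ hj)
  have b0 : ((-D₀.b j : ℝ) : ℂ) ≠ 0 := ofReal_ne_zero.2 (neg_ne_zero.2 (h.ok₀.b_pos j hj).ne')
  have e0 := mul_ne_zero (exp_ne_zero (D₀.Sing2_L j (-D₀.b j : ℝ))) b0
  have t4 := (t2.mul t1).inv₀ e0
  have t5 := t2.div t1 b0
  have ph := Sing2_ph h.ok₀ hj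
  by_cases hp : Even j
  · rw [if_pos hp, I_mul_im] at ph
    refine ⟨_, inv_ne_zero e0, by rw [if_pos hp, inv_re, re_mul_ofReal, ph, zero_mul, zero_div],
      fun ε hε => ?_⟩
    have t6 := (t3.mul t3).mul t5
    rw [zero_mul, zero_mul] at t6
    refine (Sing2_core (σ := -1 / 2) (inv_ne_zero e0) hε self_mem_nhdsWithin (t4.congr' ?_)
      (t6.congr' ?_)).imp fun B hB => ⟨hB.1, hB.2.mono fun _ => Or.inr⟩
    all_goals
      filter_upwards [hq] with z hz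
      have := pw_ne (3 / 2) z.2
      simp only [F1, F2, Sing2_G hz, Sing2_sg, if_pos hp, one_mul, hw, Pi.div_apply]
      field_simp
  · rw [if_neg hp, one_mul] at ph
    have e1 := div_ne_zero (exp_ne_zero (D₀.Sing2_L j (-D₀.b j : ℝ))) b0
    refine ⟨_, e1, by rw [if_neg hp, div_ofReal_im, ph, zero_div], fun ε hε => ?_⟩
    have t6 := (t3.mul t3).mul t4
    rw [zero_mul, zero_mul] at t6
    refine (Sing2_core (σ := -1 / 2) e1 hε self_mem_nhdsWithin (t5.congr' ?_)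
      (t6.congr' ?_)).imp fun B hB => ⟨hB.1, hB.2.mono fun _ => Or.inl⟩
    all_goals
      filter_upwards [hq] with z hz
      have := pw_ne (3 / 2) z.2
      simp only [F1, F2, Sing2_G hz, Sing2_sg, if_neg hp, hw, Pi.div_apply,
        show (-1 * (3 / 2) : ℝ) = -1 / 2 - 1 by norm_num]
      field_simp

theorem Tends.sing_b (h : Tends l D D₀) {j : ℕ} (hj : j < D₀.q) : ∃ m > 0, ∃ M, ∀ ε > 0,
    ∀ᶠ δ in 𝓝[>] (0 : ℝ), ∀ᶠ x in l, (D x).Sing (-(D x).b j) (-1 / 2) 0 δ ε m M := by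
  obtain ⟨c, hc, ph, hm⟩ := Sing2_mb h hj
  refine ⟨‖c‖, norm_pos_iff.2 hc, ‖c‖, fun ε hε => ?_⟩
  obtain ⟨B, hB, hm⟩ := hm ε hε
  obtain ⟨u, hu, hB⟩ := mem_nhdsGT_iff_exists_Ioo_subset.1 hB
  filter_upwards [Ioo_mem_nhdsGT hu, Ioo_mem_nhdsGT (half_pos (h.ok₀.b_pos j hj))] with δ h1 h2
  filter_upwards [hm, h.ok, ((h.b j hj).div_const 2).eventually (lt_mem_nhds h2.2)] with x h3 h4 h5
  have h6 := fun r (hr : r ∈ Ioo 0 δ) => (Sing2_sb h4.1 (h4.2.2 ▸ hj) hr.1 (hr.2.trans h5)).1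
  refine ⟨Sing2_ne h6, c, le_rfl, le_rfl, ?_, h3.imp
    (fun h τ hτ => h τ hτ.1 (hB ⟨hτ.2.1, hτ.2.2.trans h1.2⟩))
    fun h τ hτ => h τ hτ.1 (hB ⟨hτ.2.1, hτ.2.2.trans h1.2⟩)⟩
  simp only [Sing2_sg, Nat.even_add_one] at h6
  by_cases hp : Even j
  · exact Or.inr ⟨by simpa [hp] using ph, by simpa [hp] using h6⟩
  · exact Or.inl ⟨by simpa [hp] using ph, by simpa [hp] using h6⟩

theorem Sing2_log {v : α → ℝ} {v₀ : ℝ} {t : α → ℂ} (hv : Tendsto v l (𝓝 v₀))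
    (ht : Tendsto (fun x => ‖t x‖) l atTop) (hi : ∀ᶠ x in l, 0 ≤ (t x).im) :
    Tendsto (fun x => log (t x + v x) - log (t x)) l (𝓝 0) := by
  have h1 := (DatC_re hv).mul (tendsto_inv₀_cobounded.comp (tendsto_norm_atTop_iff_cobounded.1 ht))
  have h2 := (h1.const_add 1).clog (by simp)
  rw [mul_zero, add_zero, log_one] at h2
  refine h2.congr' ?_
  filter_upwards [hi, ht.eventually_gt_atTop (‖(v₀ : ℂ)‖ + 1),
    (DatC_re hv).norm.eventually (gt_mem_nhds (lt_add_one _))] with x h3 h4 h5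
  rw [log_near (h5.trans h4) h3 (by simpa using h3), add_sub_cancel_left, div_eq_mul_inv]
  rfl

theorem Sing2_tK (h : Tends l D D₀) {t : α → ℂ} (ht : Tendsto (fun x => ‖t x‖) l atTop)
    (hi : ∀ᶠ x in l, 0 ≤ (t x).im) : ∃ E : α → ℂ, Tendsto E l (𝓝 D₀.ρ) ∧ ∀ᶠ x in l, (D x).G (t x) =
      E x * if Even D₀.p then pw (-(1 / 2)) (t x) else I * pw (1 / 2) (t x) := by
  have e1 := tendsto_finsetSum (Finset.range D₀.q) fun j hj =>
    (Sing2_log (h.b j (Finset.mem_range.1 hj)) ht hi).const_mul (sg j * (3 / 2) : ℂ)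
  have e2 := tendsto_finsetSum (Finset.range D₀.p) fun i hi' =>
    (Sing2_log (h.a i (Finset.mem_range.1 hi')).neg ht hi).const_mul (sg i * (1 / 2) : ℂ)
  have e3 := (((DatC_re (h.ρ.log h.ok₀.ρ_pos.ne')).add e1).sub e2).cexp
  simp only [mul_zero, Finset.sum_const_zero, add_zero, sub_zero, ← ofReal_exp,
    Real.exp_log h.ok₀.ρ_pos] at e3
  refine ⟨_, e3, h.ok.mono fun x hx => ?_⟩
  have s1 := congrArg ofReal (Phase_sg D₀.q)
  have s2 := congrArg ofReal (Phase_sg D₀.p)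
  rw [ofReal_sum] at s1 s2
  rw [← if_congr (Nat.even_add.1 h.ok₀.par) rfl rfl] at s1
  simp only [G, LG, hx.2.1, hx.2.2, lm, mul_sub, Finset.sum_sub_distrib, ← Finset.sum_mul, s1, s2,
    ofReal_neg, ← sub_eq_add_neg, pw]
  split_ifs
  · rw [← exp_add]
    congr 1
    push_cast
    ring
  · rw [show ∀ z, I * exp z = exp (Real.pi / 2 * I + z) from fun z => by
      rw [exp_add, exp_pi_div_two_mul_I], ← exp_add]
    congr 1
    push_cast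
    ring

theorem Sing2_mi (h : Tends l D D₀) :
    ∃ c : ℂ, c ≠ 0 ∧ (if Even D₀.p then c.im else c.re) = 0 ∧ ∀ ε > 0, ∃ B ∈ atTop, ∀ᶠ x in l,
      (∀ τ : ℂ, 0 ≤ τ.im → ‖τ‖ ∈ B → Mod (D x).F1 (D x).F2 c (1 / 2) ε τ) ∨
      ∀ τ : ℂ, 0 ≤ τ.im → ‖τ‖ ∈ B → Mod (D x).F2 (D x).F1 c (1 / 2) ε τ := by
  have n0 := Sing2_norm (l := l) atTop
  obtain ⟨E, t1, hE⟩ := Sing2_tK (h.comp tendsto_fst) n0 (Sing2_im _)
  have t2 := tendsto_inv₀_cobounded.comp (tendsto_norm_atTop_iff_cobounded.1 n0)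
  have r0 : (D₀.ρ : ℂ) ≠ 0 := ofReal_ne_zero.2 h.ok₀.ρ_pos.ne'
  have hw : ∀ᶠ z : α × ℂ in l ×ˢ Sing2_F atTop, ∃ w : ℂ, w ≠ 0 ∧ z.2 = w ^ 2 ∧
      pw (1 / 2) z.2 = w ∧ pw (-(1 / 2)) z.2 = w⁻¹ ∧ pw (1 / 2 - 1) z.2 = w⁻¹ := by
    filter_upwards [n0.eventually_gt_atTop 0] with z hz
    have : pw (-(1 / 2)) z.2 = (pw (1 / 2) z.2)⁻¹ := by
      rw [pw, pw, ← exp_neg, ofReal_neg, neg_mul]
    exact ⟨_, pw_ne _ _, by rw [sq, pw_mul, add_halves, pw_one (norm_pos_iff.1 hz)], rfl, this,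
      this ▸ congrArg (pw · _) (by norm_num)⟩
  by_cases hp : Even D₀.p
  · have t3 := t1.mul t2
    rw [mul_zero] at t3
    refine ⟨_, inv_ne_zero r0, by simp [hp], fun ε hε =>
      (Sing2_core (σ := 1 / 2) (inv_ne_zero r0) hε (eventually_gt_atTop 0) ((t1.inv₀ r0).congr' ?_)
        (t3.congr' ?_)).imp fun B hB => ⟨hB.1, hB.2.mono fun _ => Or.inr⟩⟩
    all_goals
      filter_upwards [hE, hw] with z h1 ⟨w, h2, h3, h4, h5, h6⟩
      simp only [F1, F2, h1, if_pos hp, h5, h6, Function.comp_apply]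
      rw [h3]
      field_simp
  · have r1 := mul_ne_zero r0 I_ne_zero
    have t3 := ((t1.mul_const I).inv₀ r1).mul t2
    rw [mul_zero] at t3
    refine ⟨_, r1, by simp [hp], fun ε hε =>
      (Sing2_core (σ := 1 / 2) r1 hε (eventually_gt_atTop 0) ((t1.mul_const I).congr' ?_)
        (t3.congr' ?_)).imp fun B hB => ⟨hB.1, hB.2.mono fun _ => Or.inl⟩⟩
    all_goals
      filter_upwards [hE, hw] with z h1 ⟨w, h2, h3, h4, h5, h6⟩
      simp only [F1, F2, h1, if_neg hp, h4, h6, Function.comp_apply]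
      rw [h3]
      field_simp

theorem Tends.sing_inf (h : Tends l D D₀) : ∃ m > 0, ∃ M, ∀ ε > 0,
    ∀ᶠ R in atTop, ∀ᶠ x in l, ∀ R', (D x).Sing 0 (1 / 2) R R' ε m M := by
  obtain ⟨c, hc, ph, hm⟩ := Sing2_mi h
  refine ⟨‖c‖, norm_pos_iff.2 hc, ‖c‖, fun ε hε => ?_⟩
  obtain ⟨B, hB, hm⟩ := hm ε hε
  filter_upwards [eventually_forall_ge_atTop.2 hB, eventually_gt_atTop 0,
    (eventually_all_finset (Finset.range D₀.p)).2 fun i _ => eventually_gt_atTop (D₀.a i),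
    (eventually_all_finset (Finset.range D₀.q)).2 fun j _ => eventually_gt_atTop (D₀.b j)]
    with R h1 h2 ha hb
  filter_upwards [hm, h.ok, (eventually_all_finset (Finset.range D₀.p)).2 fun i hi =>
    (h.a i (Finset.mem_range.1 hi)).eventually (gt_mem_nhds (ha i hi)),
    (eventually_all_finset (Finset.range D₀.q)).2 fun j hj =>
      (h.b j (Finset.mem_range.1 hj)).eventually (gt_mem_nhds (hb j hj))] with x h3 h4 h5 h6 R'
  have h7 : ∀ r ∈ Ioo R R', -sg D₀.p * ((D x).P ((0 : ℝ) + r)).re < 0 ∧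
      sg D₀.q * ((D x).P ((0 : ℝ) + -r)).re < 0 := fun r hr => by
    have a1 := (h4.1.sign_pos (h2.trans hr.1) h4.2.1.ge (fun i hi =>
      (h5 i (Finset.mem_range.2 hi)).trans hr.1) fun i h h' => absurd (h4.2.1 ▸ h') h.not_gt).1
    have a2 := (h4.1.sign_neg (neg_lt_zero.2 (h2.trans hr.1)) h4.2.2.ge (fun j hj => by
      linarith [h6 j (Finset.mem_range.2 hj), hr.1]) fun i h h' => absurd (h4.2.2 ▸ h') h.not_gt).1
    rw [ofReal_zero, zero_add, zero_add, neg_mul, neg_lt_zero, ← ofReal_neg]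
    exact ⟨a1, a2⟩
  refine ⟨Sing2_ne h7, c, le_rfl, le_rfl, ?_, ?_⟩
  · simp only [Sing2_sg, ← Nat.even_add.1 h.ok₀.par] at h7
    by_cases hp : Even D₀.p
    · exact Or.inl ⟨by simpa [hp] using ph, by simpa [hp] using h7⟩
    · exact Or.inr ⟨by simpa [hp] using ph, by simpa [hp] using h7⟩
  · simp only [ofReal_zero, zero_add]
    exact h3.imp (fun h τ hτ => h τ hτ.1 (h1 _ hτ.2.1.le)) fun h τ hτ => h τ hτ.1 (h1 _ hτ.2.1.le)

end Dat

end Pool.Agent.MP_92463a_gt
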