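import Pool.Agent.MP_92463a_gt.WL1
import Pool.Agent.MP_92463a_gt.Sing1
import Pool.Agent.MP_92463a_gt.Sing2

open Set Complex Filter Metric
open scoped Topology ComplexConjugate ContDiff Manifold

noncomputable section

namespace Pool.Agent.MP_92463a_gt

variable {α ι : Type} [Fintype ι] {l : Filter α} {W : α → Wd ι} {D₀ : Dat} {X : α → ℂ → ℂ}
  {H : α → ℂ → ℝ} {t t' : α → ℂ}

theorem WLim.WL3_far (h : WLim l W D₀) :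
    ∃ R, ∀ᶠ x in l, ∀ t, R ≤ ‖t‖ → (W x).Away 1 t := by
  have hq := h.q
  have a0 := (h.D.b 0 (by omega)).abs.eventually_le_const (lt_add_one _)
  have a1 := (h.D.b 1 (by omega)).abs.eventually_le_const (lt_add_one _)
  refine ⟨|D₀.b 0| + |D₀.b 1| + 2, (a0.and a1).mono fun x hx t ht => ⟨?_, ?_⟩⟩
  · have := norm_sub_norm_le t (-((W x).D.b 0 : ℂ))
    rw [norm_neg, norm_real, Real.norm_eq_abs, sub_neg_eq_add] at this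
    linarith [hx.1, abs_nonneg (D₀.b 1)]
  · have := norm_sub_norm_le t (-((W x).D.b 1 : ℂ))
    rw [norm_neg, norm_real, Real.norm_eq_abs, sub_neg_eq_add] at this
    linarith [hx.2, abs_nonneg (D₀.b 0)]

theorem SLim.WL3_loc (h : SLim l W D₀ X H) {x₀ : α → ℝ} {t₀ : ℂ}
    (hx : Tendsto (fun x => (x₀ x : ℂ)) l (𝓝 t₀)) (h₁ : t₀ + D₀.b 0 ≠ 0) (h₂ : t₀ + D₀.b 1 ≠ 0)
    {σ m M : ℝ} (hσ : σ = 1 / 2 ∨ σ = -1 / 2) (hm : 0 < m)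
    (hs : ∀ ε > 0, ∀ᶠ δ in 𝓝[>] (0 : ℝ), ∀ᶠ x in l, (W x).D.Sing (x₀ x) σ 0 δ ε m M) :
    ∃ δ > 0, ∀ᶠ x in l, (∀ u : ℂ, u - x₀ x ∈ HA 0 δ → m * ‖u - x₀ x‖ ^ σ ≤ ‖X x u‖ ∧
      ‖X x u‖ ≤ 3 * M * ‖u - x₀ x‖ ^ σ) ∧
      ∀ u u' : ℂ, u - x₀ x ∈ HA 0 δ → u' - x₀ x ∈ HA 0 δ → X x u = X x u' → u = u' := by
  obtain ⟨δ₁, p1, a1⟩ := h.toWLim.away h₁ h₂
  obtain ⟨δ, ⟨s1, d1⟩, d0⟩ := (((hs (1 / 10000) (by norm_num)).and
    (nhdsWithin_le_nhds (Iio_mem_nhds (half_pos p1)))).and self_mem_nhdsWithin).exists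
  refine ⟨δ, d0, ?_⟩
  filter_upwards [a1, s1, h.ok, h.sol, h.near δ₁ p1 (1 / 10000) (by norm_num),
    hx.eventually (ball_mem_nhds t₀ (half_pos p1))] with x e1 e2 e3 e4 e5 e6
  obtain ⟨r1, r2⟩ := e4.toSolX.sing e3 e2 hσ le_rfl hm le_rfl fun τ hτ => by
    have : (x₀ x : ℂ) + τ ∈ ball t₀ δ₁ := by
      rw [mem_ball]
      rw [dist_eq_norm] at e6 ⊢
      have := norm_add_le ((x₀ x : ℂ) - t₀) τ
      rw [sub_add_eq_add_sub] at this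
      have d2 : δ < δ₁ / 2 := d1
      linarith [hτ.2.2]
    obtain ⟨f1, f2⟩ := e5 _ (e1 _ this)
    exact ⟨e3.pl.fd_sub f1, f2⟩
  refine ⟨fun u hu => by simpa using r1 _ hu, fun u u' hu hu' he => ?_⟩
  rw [mul_zero] at r2
  exact sub_left_injective (r2 _ hu _ hu' (by simpa using he))

omit [Fintype ι] in
theorem WL3_HA {x₀ : α → ℝ} {t₀ : ℂ} (hx : Tendsto (fun x => (x₀ x : ℂ)) l (𝓝 t₀))
    (ht : Tendsto t l (𝓝 t₀)) {δ : ℝ} (hδ : 0 < δ) :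
    ∀ᶠ x in l, t x ∈ (W x).Q → t x ≠ x₀ x → t x - x₀ x ∈ HA 0 δ := by
  have := (ht.sub hx).norm
  rw [sub_self, norm_zero] at this
  filter_upwards [this.eventually_lt_const hδ] with x e1 e2 e3
  exact ⟨by simpa using e2.1.1, norm_pos_iff.2 (sub_ne_zero.2 e3), e1⟩

theorem SLim.WL3_inj (h : SLim l W D₀ X H) {x₀ : α → ℝ} {t₀ : ℂ}
    (hx : Tendsto (fun x => (x₀ x : ℂ)) l (𝓝 t₀)) (h₁ : t₀ + D₀.b 0 ≠ 0) (h₂ : t₀ + D₀.b 1 ≠ 0)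
    {σ : ℝ} (hσ : σ = 1 / 2 ∨ σ = -1 / 2) (hs : ∃ m > 0, ∃ M,
      ∀ ε > 0, ∀ᶠ δ in 𝓝[>] (0 : ℝ), ∀ᶠ x in l, (W x).D.Sing (x₀ x) σ 0 δ ε m M)
    (hz : ∀ᶠ x in l, (x₀ x : ℂ) ∈ (W x).Q → X x (x₀ x) = 0)
    (ht : Tendsto t l (𝓝 t₀)) (ht' : Tendsto t' l (𝓝 t₀))
    (hq : ∀ᶠ x in l, t x ∈ (W x).Q ∧ t' x ∈ (W x).Q ∧ X x (t x) = X x (t' x) ∧
      H x (t x) = H x (t' x)) : ∀ᶠ x in l, t x = t' x := by
  obtain ⟨m, hm, M, hs⟩ := hs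
  obtain ⟨δ, hδ, e⟩ := h.WL3_loc hx h₁ h₂ hσ hm hs
  filter_upwards [e, hz, hq, WL3_HA (W := W) hx ht hδ, WL3_HA (W := W) hx ht' hδ] with
    x e1 e2 e3 e4 e5
  have key : ∀ u : ℂ, u - x₀ x ∈ HA 0 δ → X x u ≠ 0 := fun u hu => norm_pos_iff.1
    ((mul_pos hm (Real.rpow_pos_of_pos hu.2.1 σ)).trans_le (e1.1 u hu).1)
  by_cases c : t x = x₀ x
  · by_cases c' : t' x = x₀ x
    · rw [c, c']
    · exact absurd (by rw [← e3.2.2.1, c, e2 (c ▸ e3.1)]) (key _ (e5 e3.2.1 c'))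
  · by_cases c' : t' x = x₀ x
    · exact absurd (by rw [e3.2.2.1, c', e2 (c' ▸ e3.2.1)]) (key _ (e4 e3.1 c))
    · exact e1.2 _ _ (e4 e3.1 c) (e5 e3.2.1 c') e3.2.2.1

theorem WLim.WL3_pos (h : WLim l W D₀) {r : ℝ} (hr : 0 ≤ r) :
    (r : ℂ) + D₀.b 0 ≠ 0 ∧ (r : ℂ) + D₀.b 1 ≠ 0 := by
  have hq := h.q
  have b0 := h.D.ok₀.b_pos 0 (by omega)
  have b1 := h.D.ok₀.b_pos 1 (by omega)
  constructor <;> rw [← ofReal_add, ofReal_ne_zero] <;> linarith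

theorem WLim.WL3_b (h : WLim l W D₀) {j : ℕ} (hj : j < D₀.q) :
    Tendsto (fun x => ((-(W x).D.b j : ℝ) : ℂ)) l (𝓝 (-D₀.b j)) ∧
      ∀ᶠ x in l, ((-(W x).D.b j : ℝ) : ℂ) ∉ (W x).Q :=
  ⟨by simpa using (Dat.DatC_re (h.D.b j hj)).neg, h.D.ok.mono fun x hx hq =>
    hq.1.2 (Or.inr ⟨j, hx.2.2 ▸ hj, ofReal_neg _⟩)⟩

theorem SLim.H_fin (h : SLim l W D₀ X H) {t₀ : ℂ} (ht : Tendsto t l (𝓝 t₀)) (h₀ : t₀ ≠ 0)
    (h₁ : t₀ + D₀.b 0 ≠ 0) (h₂ : t₀ + D₀.b 1 ≠ 0) :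
    Tendsto (fun x => H x (t x)) l (𝓝 (2 * Real.log ‖t₀‖)) := by
  obtain ⟨δ, hδ, a⟩ := h.toWLim.away h₁ h₂
  have l1 : Tendsto (fun x => Real.log ‖t x‖) l (𝓝 (Real.log ‖t₀‖)) :=
    ht.norm.log (norm_ne_zero_iff.2 h₀)
  have o : (fun x => H x (t x) - 2 * Real.log ‖t x‖) =o[l] fun x => 1 + |Real.log ‖t x‖| :=
    Asymptotics.IsLittleO.of_bound fun c hc => by
      filter_upwards [a, h.ht δ hδ c hc, ht.eventually (ball_mem_nhds t₀ hδ),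
        ht.eventually_ne h₀] with x e1 e2 e3 e4
      rw [Real.norm_eq_abs, Real.norm_of_nonneg (by positivity)]
      exact e2 _ (e1 _ e3) e4
  have := ((Asymptotics.isLittleO_one_iff ℝ).1
    (o.trans_isBigO ((l1.abs.const_add 1).isBigO_one ℝ))).add (l1.const_mul 2)
  simpa using this

theorem SLim.H_inf (h : SLim l W D₀ X H) (ht : Tendsto (fun x => ‖t x‖) l atTop) :
    Tendsto (fun x => H x (t x)) l atTop := by
  obtain ⟨R, a⟩ := h.toWLim.WL3_far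
  refine tendsto_atTop_mono' l ?_
    (tendsto_atTop_add_const_right l (-1) (Real.tendsto_log_atTop.comp ht))
  filter_upwards [a, h.ht 1 one_pos 1 one_pos, ht.eventually_ge_atTop R,
    ht.eventually_ge_atTop 1] with x e1 e2 e3 e4
  have := (abs_le.1 (e2 _ (e1 _ e3) (norm_pos_iff.1 (one_pos.trans_le e4)))).1
  rw [abs_of_nonneg (Real.log_nonneg e4)] at this
  simp only [Function.comp]
  linarith

theorem SLim.at_a (h : SLim l W D₀ X H) {i : ℕ} (hi : i < D₀.p) (ht : Tendsto t l (𝓝 (D₀.a i)))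
    (hq : ∀ᶠ x in l, t x ∈ (W x).Q) : Tendsto (fun x => X x (t x)) l (𝓝 0) := by
  obtain ⟨m, hm, M, hs⟩ := h.D.sing_a hi
  have hx := Dat.DatC_re (h.D.a i hi)
  obtain ⟨h₁, h₂⟩ := h.toWLim.WL3_pos (h.D.ok₀.a_pos i hi).le
  obtain ⟨δ, hδ, e⟩ := h.WL3_loc hx h₁ h₂ (Or.inl rfl) hm hs
  have l1 := (((ht.sub hx).norm.rpow_const (p := 1 / 2) (Or.inr (by norm_num))).const_mul (3 * M))
  rw [sub_self, norm_zero, Real.zero_rpow (by norm_num), mul_zero] at l1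
  refine squeeze_zero_norm' ?_ l1
  filter_upwards [e, hq, WL3_HA (W := W) hx ht hδ, h.ok, h.sol, h.D.ok] with x e1 e2 e3 e4 e5 e6
  by_cases c : t x = (W x).D.a i
  · rw [e5.toSolX.X_a e4 ⟨i, e6.2.1 ▸ hi, c⟩, c, sub_self, norm_zero,
      Real.zero_rpow (by norm_num), mul_zero]
  · exact (e1.1 _ (e3 e2 c)).2

theorem SLim.at_b (h : SLim l W D₀ X H) {j : ℕ} (h2 : 2 ≤ j) (hj : j < D₀.q)
    (ht : Tendsto t l (𝓝 (-D₀.b j))) (hq : ∀ᶠ x in l, t x ∈ (W x).Q) :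
    Tendsto (fun x => ‖X x (t x)‖) l atTop := by
  obtain ⟨m, hm, M, hs⟩ := h.D.sing_b hj
  obtain ⟨hx, hn⟩ := h.toWLim.WL3_b hj
  have b0 := h.D.ok₀.b_pos 0 (by omega)
  have b1 := h.D.ok₀.b_pos 1 (by omega)
  have g0 := h.D.ok₀.b_gap 0 j (by omega) hj
  have g1 := h.D.ok₀.b_gap 1 j (by omega) hj
  obtain ⟨δ, hδ, e⟩ := h.WL3_loc hx
    (by rw [← ofReal_neg, ← ofReal_add, ofReal_ne_zero]; linarith)
    (by rw [← ofReal_neg, ← ofReal_add, ofReal_ne_zero]; linarith) (Or.inr rfl) hm hs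
  have hH : ∀ᶠ x in l, t x - (-(W x).D.b j : ℝ) ∈ HA 0 δ := by
    filter_upwards [hq, hn, WL3_HA (W := W) hx ht hδ] with x e1 e2 e3
    exact e3 e1 fun c => e2 (c ▸ e1)
  have l1 := (ht.sub hx).norm
  rw [sub_self, norm_zero] at l1
  have l2 := (tendsto_rpow_neg_nhdsGT_zero (y := -1 / 2) (by norm_num)).comp
    (tendsto_nhdsWithin_iff.2 ⟨l1, hH.mono fun x hx => hx.2.1⟩)
  refine tendsto_atTop_mono' l ?_ (l2.const_mul_atTop hm)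
  filter_upwards [e, hH] with x e1 e2
  exact (e1.1 _ e2).1

theorem SLim.at_0 (h : SLim l W D₀ X H) (ht : Tendsto t l (𝓝 0)) (hq : ∀ᶠ x in l, t x ∈ (W x).Q) :
    Tendsto (fun x => H x (t x)) l atBot ∧
      ∃ K, ∀ᶠ x in l, H x (t x) ≤ K - 2 * Real.log ‖X x (t x)‖ := by
  obtain ⟨m, hm, M, hs⟩ := h.D.sing_0
  have hx : Tendsto (fun _ : α => ((0 : ℝ) : ℂ)) l (𝓝 0) := tendsto_const_nhds
  obtain ⟨h₁, h₂⟩ := h.toWLim.WL3_pos le_rfl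
  rw [ofReal_zero] at h₁ h₂
  obtain ⟨δ, hδ, e⟩ := h.WL3_loc hx h₁ h₂ (Or.inr rfl) hm hs
  obtain ⟨δ₁, p1, a⟩ := h.toWLim.away h₁ h₂
  have hn : ∀ᶠ x in l, t x ≠ 0 := hq.mono fun x hx c => hx.1.2 (Or.inl c)
  have l1 := ht.norm
  rw [norm_zero] at l1
  have b : ∀ᶠ x in l, H x (t x) ≤ Real.log ‖t x‖ + 1 := by
    filter_upwards [a, h.ht δ₁ p1 1 one_pos, ht.eventually (ball_mem_nhds 0 p1), hn,
      l1.eventually_le_const one_pos] with x e1 e2 e3 e4 e5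
    have := (abs_le.1 (e2 _ (e1 _ e3) e4)).2
    rw [abs_of_nonpos (Real.log_nonpos (norm_nonneg _) e5)] at this
    linarith
  refine ⟨tendsto_atBot_mono' l b (tendsto_atBot_add_const_right l 1
    (Real.tendsto_log_nhdsGT_zero.comp (tendsto_nhdsWithin_iff.2
      ⟨l1, hn.mono fun x hx => norm_pos_iff.2 hx⟩))), 1 + 2 * Real.log (3 * M), ?_⟩
  filter_upwards [e, hq, hn, b, WL3_HA (W := W) hx ht hδ] with x e1 e2 e3 e4 e5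
  obtain ⟨r1, r2⟩ := e1.1 _ (e5 e2 (by simpa using e3))
  rw [ofReal_zero, sub_zero] at r1 r2
  have p0 := norm_pos_iff.2 e3
  have p2 := Real.rpow_pos_of_pos p0 (-1 / 2)
  have p3 := (mul_pos hm p2).trans_le r1
  have p4 : 0 < 3 * M := (mul_pos_iff_of_pos_right p2).1 (p3.trans_le r2)
  have := Real.log_le_log p3 r2
  rw [Real.log_mul p4.ne' p2.ne', Real.log_rpow p0] at this
  linarith

theorem SLim.inj_fin (h : SLim l W D₀ X H) {t₀ : ℂ} (h₁ : t₀ + D₀.b 0 ≠ 0) (h₂ : t₀ + D₀.b 1 ≠ 0)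
    (ht : Tendsto t l (𝓝 t₀)) (ht' : Tendsto t' l (𝓝 t₀))
    (hq : ∀ᶠ x in l, t x ∈ (W x).Q ∧ t' x ∈ (W x).Q ∧ X x (t x) = X x (t' x) ∧
      H x (t x) = H x (t' x)) : ∀ᶠ x in l, t x = t' x := by
  rcases l.eq_or_neBot with rfl | hl
  · exact eventually_bot
  have hi : 0 ≤ t₀.im :=
    ge_of_tendsto ((continuous_im.tendsto t₀).comp ht) (hq.mono fun x hx => hx.1.1.1)
  by_cases hP : D₀.P t₀ = 0
  · rcases Dat.P_eq_zero.1 hP with (rfl | ⟨j, hj, rfl⟩) | ⟨i, hi', rfl⟩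
    · exact h.WL3_inj (x₀ := fun _ => 0) tendsto_const_nhds h₁ h₂ (Or.inr rfl) h.D.sing_0
        (Eventually.of_forall fun x hx => absurd (Or.inl ofReal_zero) hx.1.2) ht ht' hq
    · obtain ⟨hx, hn⟩ := h.toWLim.WL3_b hj
      exact h.WL3_inj hx h₁ h₂ (Or.inr rfl) (h.D.sing_b hj)
        (hn.mono fun x hx c => absurd c hx) ht ht' hq
    · refine h.WL3_inj (Dat.DatC_re (h.D.a i hi')) h₁ h₂ (Or.inl rfl) (h.D.sing_a hi') ?_ ht ht' hq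
      filter_upwards [h.ok, h.sol, h.D.ok] with x e4 e5 e6 _
      exact e5.toSolX.X_a e4 ⟨i, e6.2.1 ▸ hi', rfl⟩
  have t0 : t₀ ≠ 0 := fun c => hP (Dat.P_eq_zero.2 (Or.inl (Or.inl c)))
  have g0 : D₀.G t₀ ≠ 0 := exp_ne_zero _
  have a0 : D₀.F1 t₀ ≠ 0 := div_ne_zero g0 t0
  have p : 0 < ‖D₀.F1 t₀‖ / 4 := by have := norm_pos_iff.2 a0; positivity
  have key := ev_compact (l := l) (isCompact_Icc (a := (0 : ℝ)) (b := 1))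
    (p := fun x s => ∀ u, u = t x + s * (t' x - t x) → u ∈ (W x).Qr ∧
      ‖(W x).F1 u - D₀.F1 t₀‖ ≤ ‖D₀.F1 t₀‖ / 4 ∧ ‖(W x).F2 u - D₀.F2 t₀‖ ≤ ‖D₀.F1 t₀‖ / 4 ∧
      ‖(W x).F3 u - t₀⁻¹‖ ≤ ‖D₀.F1 t₀‖ / 4) fun y _ => by
    have f1 : Tendsto (fun z : α × ℝ => t z.1) (l ×ˢ 𝓝[Icc 0 1] y) (𝓝 t₀) := ht.comp tendsto_fst
    have f2 : Tendsto (fun z : α × ℝ => t' z.1) (l ×ˢ 𝓝[Icc 0 1] y) (𝓝 t₀) := ht'.comp tendsto_fst
    have f3 : Tendsto (fun z : α × ℝ => (z.2 : ℂ)) (l ×ˢ 𝓝[Icc 0 1] y) (𝓝 y) :=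
      Dat.DatC_re (tendsto_snd.mono_right nhdsWithin_le_nhds)
    have f4 := f1.add (f3.mul (f2.sub f1))
    rw [sub_self, mul_zero, add_zero] at f4
    obtain ⟨r0, r1, r2, r3⟩ := (h.toWLim.comp (l' := l ×ˢ 𝓝[Icc 0 1] y) tendsto_fst).F f4 (by
      filter_upwards [tendsto_fst.eventually hq, tendsto_snd.eventually self_mem_nhdsWithin] with
        z e1 e2
      have i1 : 0 ≤ (t z.1).im := e1.1.1.1
      have i2 : 0 ≤ (t' z.1).im := e1.2.1.1.1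
      simp only [add_im, mul_im, ofReal_re, ofReal_im, zero_mul, add_zero, sub_im]
      nlinarith [mul_nonneg e2.1 i2, mul_nonneg (sub_nonneg.2 e2.2) i1]) hi hP
    filter_upwards [r0, (tendsto_iff_norm_sub_tendsto_zero.1 r1).eventually_le_const p,
      (tendsto_iff_norm_sub_tendsto_zero.1 r2).eventually_le_const p,
      (tendsto_iff_norm_sub_tendsto_zero.1 r3).eventually_le_const p] with z e0 e1 e2 e3
    rintro u rfl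
    exact ⟨e0, e1, e2, e3⟩
  filter_upwards [key, hq, h.ok, h.sol] with x e1 e2 e3 e4
  refine seg_inj3 (e4.toPre.pathP e3) (f₃ := (W x).F3) (a₂ := D₀.F2 t₀) (a₃ := t₀⁻¹) ?_ a0
    (fun s hs u hu => ?_) e2.2.2.1 e2.2.2.2
  · simp only [Dat.F1, Dat.F2]
    field_simp
  · obtain ⟨r0, r⟩ := e1 s hs u hu
    exact ⟨r0, e4.derH u r0.2.2 fun c => r0.2.1 (Dat.P_eq_zero.2 (Or.inl c)), r⟩

theorem SLim.inj_inf (h : SLim l W D₀ X H) (ht : Tendsto (fun x => ‖t x‖) l atTop)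
    (ht' : Tendsto (fun x => ‖t' x‖) l atTop)
    (hq : ∀ᶠ x in l, t x ∈ (W x).Q ∧ t' x ∈ (W x).Q ∧ X x (t x) = X x (t' x)) :
    ∀ᶠ x in l, t x = t' x := by
  obtain ⟨m, hm, M, hs⟩ := h.D.sing_inf
  obtain ⟨R₀, a⟩ := h.toWLim.WL3_far
  obtain ⟨R, s1, r0, r1⟩ := ((hs (1 / 10000) (by norm_num)).and
    ((eventually_ge_atTop R₀).and (eventually_ge_atTop 0))).exists
  filter_upwards [a, s1, h.ok, h.sol, h.near 1 one_pos (1 / 10000) (by norm_num), hq,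
    ht.eventually_gt_atTop (2 * R), ht'.eventually_gt_atTop (2 * R)] with
    x e1 e2 e3 e4 e5 e6 e7 e8
  refine (e4.toSolX.sing e3 (e2 (‖t x‖ + ‖t' x‖ + 1)) (Or.inl rfl) r1 hm le_rfl
    fun τ hτ => ?_).2 _ ⟨e6.1.1.1, e7, by linarith [norm_nonneg (t' x)]⟩ _
      ⟨e6.2.1.1.1, e8, by linarith [norm_nonneg (t x)]⟩ (by simpa using e6.2.2)
  rw [ofReal_zero, zero_add]
  obtain ⟨f1, f2⟩ := e5 _ (e1 _ (r0.trans hτ.2.1.le))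
  exact ⟨e3.pl.fd_sub f1, f2⟩

end Pool.Agent.MP_92463a_gt
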