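import Pool.Agent.MP_92463a_gt.WL2
import Pool.Agent.MP_92463a_gt.WL3

open Set Complex Filter Metric
open scoped Topology ComplexConjugate ContDiff Manifold

noncomputable section

namespace Pool.Agent.MP_92463a_gt

section

variable {ι : Type} [Fintype ι] {W : Wd ι} {X : ℂ → ℂ} {H : ℂ → ℝ} {t u w : ℂ}

omit [Fintype ι] in
theorem WL4_symm (h : W.toPl.Ok) (hs : W.Same t u) : W.Same u t := by
  rcases hs with rfl | ⟨e, v, hv, rfl, rfl⟩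
  · exact .inl rfl
  · exact .inr ⟨op e, _, h.ann_op hv, rfl, by rw [op_op, op_fst, div_div_cancel₀ (h.s_ne _)]⟩

omit [Fintype ι] in
theorem WL4_trans (h : W.toPl.Ok) (h₁ : W.Same t u) (h₂ : W.Same u w) : W.Same t w := by
  rcases h₁ with rfl | ⟨e, v, hv, rfl, rfl⟩
  · exact h₂
  rcases h₂ with rfl | ⟨e', v', hv', e1, rfl⟩
  · exact .inr ⟨e, v, hv, rfl, rfl⟩
  obtain rfl : op e = e' := h.port_eq (t := W.c (op e) + W.s e.1 / v)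
    (by rw [add_sub_cancel_left]; exact (h.ann_sub _ (h.ann_op hv)).2)
    (by rw [e1, add_sub_cancel_left]; exact (h.ann_sub _ hv').2)
  rw [← add_left_cancel e1, op_op, op_fst, div_div_cancel₀ (h.s_ne _)]
  exact .inl rfl

theorem WL4_rep (h : W.Ok1) (hX : W.Sol X H) (ht : t ∈ W.Q) :
    ∃ u, (u ∈ W.Q ∧ u ∈ W.Fd) ∧ W.Same t u ∧ X t = X u ∧ H t = H u := by
  rcases h.pl.cover ht.2 with hf | ⟨e, v, hv, rfl, -, -, hf⟩
  · exact ⟨t, ⟨ht, hf⟩, .inl rfl, rfl, rfl⟩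
  · exact ⟨_, ⟨⟨⟨(h.toOk0.partner hv).1 ht.1.1, fun hE => h.free _ _ (mem_ball_zero_iff.2
      (h.pl.ann_sub _ (h.pl.ann_op hv)).2) (Dat.P_eq_zero.2 (.inl hE))⟩, h.pl.fd_sub hf⟩, hf⟩,
      .inr ⟨e, v, hv, rfl, rfl⟩, hX.glueX e v hv
        (h.toOk0.im_nonneg (h.pl.ann_sub _ hv).2 ht.1.1) ht.1.1, hX.glueH e v hv⟩

end

variable {α ι : Type} [Fintype ι] {l : Filter α} {W : α → Wd ι} {D₀ : Dat} {X : α → ℂ → ℂ}
  {H : α → ℂ → ℝ} {t t' : α → ℂ} {t₀ t₁ : ℂ}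

theorem WL4_ultra (U : Ultrafilter α) (t : α → ℂ) :
    Tendsto (fun x => ‖t x‖) U atTop ∨ ∃ t₀, Tendsto t U (𝓝 t₀) := by
  refine or_iff_not_imp_left.2 fun h => ?_
  obtain ⟨R, hR⟩ := not_forall.1 (mt Filter.tendsto_atTop.2 h)
  obtain ⟨t₀, -, h₀⟩ := (isCompact_closedBall (0 : ℂ) R).ultrafilter_le_nhds (U.map t)
    (le_principal_iff.2 ((Ultrafilter.eventually_not.2 hR).mono fun x hx =>
      mem_closedBall_zero_iff.2 (not_le.1 hx).le))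
  exact ⟨t₀, h₀⟩

theorem WL4_types {U : Ultrafilter α} (h : SLim U W D₀ X H)
    (hq : ∀ᶠ x in U, t x ∈ (W x).Q ∧ t x ∈ (W x).Fd) :
    (∀ δ > 0, ∀ᶠ x in U, (W x).OnS δ (t x)) ∨ Tendsto (fun x => ‖t x‖) U atTop ∨
      ∃ t₀, Tendsto t U (𝓝 t₀) ∧ t₀ + D₀.b 0 ≠ 0 ∧ t₀ + D₀.b 1 ≠ 0 := by
  rcases WL4_ultra U t with hi | ⟨t₀, h₀⟩
  · exact .inr (.inl hi)
  have a : ∀ j < 2, t₀ + D₀.b j = 0 → ∀ δ > 0, ∀ᶠ x in U, ‖t x + (W x).D.b j‖ < δ :=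
    fun j hj e δ hδ => by
      have := (h₀.add (h.D.b j (hj.trans_le h.q)).ofReal).norm
      rw [e, norm_zero] at this
      exact this.eventually (gt_mem_nhds hδ)
  by_cases e0 : t₀ + D₀.b 0 = 0
  · exact .inl fun δ hδ => (hq.and (a 0 two_pos e0 δ hδ)).mono fun x hx =>
      ⟨hx.1.1, hx.1.2, .inl hx.2⟩
  by_cases e1 : t₀ + D₀.b 1 = 0
  · exact .inl fun δ hδ => (hq.and (a 1 one_lt_two e1 δ hδ)).mono fun x hx =>
      ⟨hx.1.1, hx.1.2, .inr hx.2⟩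
  exact .inr (.inr ⟨t₀, h₀, e0, e1⟩)

theorem WL4_fin [l.NeBot] (h : SLim l W D₀ X H) {X₀ : ℂ → ℂ} (hX : D₀.Sol X₀)
    (hc : ∀ (t : α → ℂ) (t₀ : ℂ), Tendsto t l (𝓝 t₀) → (∀ᶠ x in l, 0 ≤ (t x).im) →
      D₀.P t₀ ≠ 0 → Tendsto (fun x => X x (t x)) l (𝓝 (X₀ t₀)))
    (hq : ∀ᶠ x in l, t x ∈ (W x).Q) (ht : Tendsto t l (𝓝 t₀)) (h₀ : t₀ ≠ 0)
    (h₁ : t₀ + D₀.b 0 ≠ 0) (h₂ : t₀ + D₀.b 1 ≠ 0) :
    (t₀ ∈ D₀.Q ∧ Tendsto (fun x => X x (t x)) l (𝓝 (X₀ t₀))) ∨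
      ∃ j, 2 ≤ j ∧ j < D₀.q ∧ t₀ = -D₀.b j ∧ Tendsto (fun x => ‖X x (t x)‖) l atTop := by
  have hi : ∀ᶠ x in l, 0 ≤ (t x).im := hq.mono fun x hx => hx.1.1
  by_cases hE : D₀.IsE t₀
  · rcases hE with e | ⟨j, hj, rfl⟩
    · exact absurd e h₀
    have : 2 ≤ j := by
      by_contra hc
      interval_cases j <;> simp at h₁ h₂
    exact .inr ⟨j, this, hj, rfl, h.at_b this hj ht hq⟩
  refine .inl ⟨⟨ge_of_tendsto ((continuous_im.tendsto _).comp ht) hi, hE⟩, ?_⟩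
  by_cases hP : D₀.P t₀ = 0
  · have ha := (Dat.P_eq_zero.1 hP).resolve_left hE
    rw [hX.X_a h.D.ok₀ ha]
    obtain ⟨i, hi, rfl⟩ := ha
    exact h.at_a hi ht hq
  · exact hc t t₀ ht hi hP

theorem WL4_main {U : Ultrafilter α} (h : SLim U W D₀ X H)
    (s₁ : ∀ M : ℝ, ∃ δ > 0, ∀ᶠ x in U, ∀ t, (W x).OnS δ t → M ≤ ‖X x t‖)
    (s₂ : ∃ δ > 0, ∃ K : ℝ, ∀ᶠ x in U, ∀ t, (W x).OnS δ t →
      -K - Real.log ‖X x t‖ ≤ H x t ∧ H x t ≤ 2 * Real.log (D₀.b 1) + 1)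
    (s₃ : ∃ δ > 0, ∀ᶠ x in U, ∀ t t', (W x).OnS δ t → (W x).OnS δ t' → X x t = X x t' →
      H x t = H x t' → (W x).Same t t')
    (hq : ∀ᶠ x in U, t x ∈ (W x).Q ∧ t x ∈ (W x).Fd)
    (hq' : ∀ᶠ x in U, t' x ∈ (W x).Q ∧ t' x ∈ (W x).Fd)
    (eX : (fun x => X x (t x)) =ᶠ[U] fun x => X x (t' x))
    (eH : (fun x => H x (t x)) =ᶠ[U] fun x => H x (t' x)) :
    ∀ᶠ x in U, (W x).Same (t x) (t' x) := by
  obtain ⟨X₀, hX, hc⟩ := h.core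
  obtain ⟨δ₂, h₂, K, s₂⟩ := s₂
  have hb := h.D.ok₀.b_pos
  have SI : ∀ {t t' : α → ℂ}, (∀ᶠ x in U, t' x ∈ (W x).Q) →
      ((fun x => X x (t x)) =ᶠ[U] fun x => X x (t' x)) →
      ((fun x => H x (t x)) =ᶠ[U] fun x => H x (t' x)) →
      (∀ δ > 0, ∀ᶠ x in U, (W x).OnS δ (t x)) → ¬ (Tendsto (fun x => ‖t' x‖) U atTop ∨
        ∃ t₀, Tendsto t' U (𝓝 t₀) ∧ t₀ + D₀.b 0 ≠ 0 ∧ t₀ + D₀.b 1 ≠ 0) := by
    intro t t' hq eX eH hS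
    have a : Tendsto (fun x => ‖X x (t' x)‖) U atTop := Filter.tendsto_atTop.2 fun M => by
      obtain ⟨δ, hδ, hM⟩ := s₁ M
      filter_upwards [hM, hS δ hδ, eX] with x h1 h2 h3 using h3 ▸ h1 _ h2
    have b : ∀ᶠ x in U, -K - Real.log ‖X x (t' x)‖ ≤ H x (t' x) ∧
        H x (t' x) ≤ 2 * Real.log (D₀.b 1) + 1 := by
      filter_upwards [s₂, hS δ₂ h₂, eX, eH] with x h1 h2 h3 h4 using h3 ▸ h4 ▸ h1 _ h2
    rintro (hi | ⟨t₀, ht, e0, e1⟩)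
    · obtain ⟨x, h1, h2⟩ := (b.and ((h.H_inf hi).eventually (eventually_gt_atTop _))).exists
      exact h1.2.not_gt h2
    by_cases h0 : t₀ = 0
    · obtain ⟨K', c⟩ := (h.at_0 (h0 ▸ ht) hq).2
      obtain ⟨x, h1, h2, h3⟩ := (b.and (c.and ((Real.tendsto_log_atTop.comp a).eventually
        (eventually_gt_atTop (K + K'))))).exists
      simp only [Function.comp] at h3
      linarith [h1.1]
    rcases WL4_fin h hX hc hq ht h0 e0 e1 with ⟨-, c⟩ | ⟨j, hj, hj', rfl, -⟩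
    · exact not_tendsto_atTop_of_tendsto_nhds c.norm a
    have c := le_of_tendsto (h.H_fin ht h0 e0 e1) (b.mono fun x hx => hx.2)
    have b1 := hb 1 (by omega)
    have d := Real.log_le_log (by positivity) (h.D.ok₀.b_gap 1 j hj hj').le
    have e := Real.one_sub_inv_le_log_of_pos (x := 5) (by norm_num)
    rw [Real.log_mul (by norm_num) b1.ne'] at d
    rw [norm_neg, norm_real, Real.norm_of_nonneg (hb j hj').le] at c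
    norm_num at e
    linarith
  have IF : ∀ {t t' : α → ℂ} {t₀ : ℂ}, (∀ᶠ x in U, t' x ∈ (W x).Q) →
      ((fun x => H x (t x)) =ᶠ[U] fun x => H x (t' x)) → Tendsto (fun x => ‖t x‖) U atTop →
      Tendsto t' U (𝓝 t₀) → t₀ + D₀.b 0 ≠ 0 → t₀ + D₀.b 1 = 0 := by
    intro t t' t₀ hq eH hi ht e0
    by_contra e1
    have a := (h.H_inf hi).congr' eH
    by_cases h0 : t₀ = 0
    · exact (h.at_0 (h0 ▸ ht) hq).1.not_tendsto disjoint_atBot_atTop a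
    · exact not_tendsto_atTop_of_tendsto_nhds (h.H_fin ht h0 e0 e1) a
  have ZF : ∀ {t t' : α → ℂ} {t₀ : ℂ}, (∀ᶠ x in U, t x ∈ (W x).Q) →
      ((fun x => H x (t x)) =ᶠ[U] fun x => H x (t' x)) → Tendsto t U (𝓝 0) →
      Tendsto t' U (𝓝 t₀) → t₀ + D₀.b 0 ≠ 0 → t₀ + D₀.b 1 ≠ 0 → t₀ = 0 := by
    intro t t' t₀ hq eH ht ht' e0 e1
    by_contra h0
    exact not_tendsto_atBot_of_tendsto_nhds (h.H_fin ht' h0 e0 e1) ((h.at_0 ht hq).1.congr' eH)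
  have q := hq.mono fun x hx => hx.1
  have q' := hq'.mono fun x hx => hx.1
  rcases WL4_types h hq with a | a
  · rcases WL4_types h hq' with a' | a'
    · obtain ⟨δ, hδ, s₃⟩ := s₃
      filter_upwards [s₃, a δ hδ, a' δ hδ, eX, eH] with x h1 h2 h3 h4 h5 using h1 _ _ h2 h3 h4 h5
    · exact absurd a' (SI q' eX eH a)
  rcases WL4_types h hq' with a' | a'
  · exact absurd a (SI q eX.symm eH.symm a')
  refine Eventually.mono ?_ fun x hx => .inl hx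
  rcases a with a | ⟨t₀, a, e0, e1⟩ <;> rcases a' with a' | ⟨t₁, a', e0', e1'⟩
  · exact h.inj_inf a a' (q.and (q'.and eX))
  · exact absurd (IF q' eH a a' e0') e1'
  · exact absurd (IF q eH.symm a' a e0) e1
  obtain rfl : t₀ = t₁ := by
    by_cases h0 : t₀ = 0
    · rw [h0, ZF q eH (h0 ▸ a) a' e0' e1']
    have h1 : t₁ ≠ 0 := fun h1 => h0 (ZF q' eH.symm (h1 ▸ a') a e0 e1)
    have hn : ‖t₀‖ = ‖t₁‖ := Real.log_injOn_pos (norm_pos_iff.2 h0) (norm_pos_iff.2 h1)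
      (mul_left_cancel₀ two_ne_zero
        (tendsto_nhds_unique ((h.H_fin a h0 e0 e1).congr' eH) (h.H_fin a' h1 e0' e1')))
    have eN := eX.fun_comp norm
    rcases WL4_fin h hX hc q a h0 e0 e1 with ⟨b, c⟩ | ⟨j, -, hj, rfl, c⟩ <;>
      rcases WL4_fin h hX hc q' a' h1 e0' e1' with ⟨b', c'⟩ | ⟨j', -, hj', rfl, c'⟩
    · exact hX.inj_Q h.D.ok₀ b b' (tendsto_nhds_unique (c.congr' eX) c') hn
    · exact absurd (c'.congr' eN.symm) (not_tendsto_atTop_of_tendsto_nhds c.norm)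
    · exact absurd (c.congr' eN) (not_tendsto_atTop_of_tendsto_nhds c'.norm)
    · simp only [norm_neg, norm_real, Real.norm_of_nonneg (hb _ hj).le,
        Real.norm_of_nonneg (hb _ hj').le] at hn
      rw [hn]
  exact h.inj_fin e0 e1 a a' (q.and (q'.and (eX.and eH)))

theorem SLim.qinj {α ι : Type} [Fintype ι] {l : Filter α} {W : α → Wd ι} {D₀ : Dat}
    {X : α → ℂ → ℂ} {H : α → ℂ → ℝ} (h : SLim l W D₀ X H)
    (s₁ : ∀ M : ℝ, ∃ δ > 0, ∀ᶠ x in l, ∀ t, (W x).OnS δ t → M ≤ ‖X x t‖)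
    (s₂ : ∃ δ > 0, ∃ K : ℝ, ∀ᶠ x in l, ∀ t, (W x).OnS δ t →
      -K - Real.log ‖X x t‖ ≤ H x t ∧ H x t ≤ 2 * Real.log (D₀.b 1) + 1)
    (s₃ : ∃ δ > 0, ∀ᶠ x in l, ∀ t t', (W x).OnS δ t → (W x).OnS δ t' → X x t = X x t' →
      H x t = H x t' → (W x).Same t t') :
    ∀ᶠ x in l, (W x).QInj (X x) (H x) := by
  by_contra hn
  have := frequently_iff_neBot.1 ((not_eventually.1 hn).and_eventually (h.ok.and h.sol))
  set U := Ultrafilter.of (l ⊓ 𝓟 {x | ¬ (W x).QInj (X x) (H x) ∧ (W x).Ok1 ∧ (W x).Sol (X x) (H x)})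
  obtain ⟨hl, hU⟩ := le_inf_iff.1 (Ultrafilter.of_le
    (l ⊓ 𝓟 {x | ¬ (W x).QInj (X x) (H x) ∧ (W x).Ok1 ∧ (W x).Sol (X x) (H x)}))
  obtain ⟨p, hp⟩ := Eventually.choice (l := U) (r := fun x (p : ℂ × ℂ) =>
      (p.1 ∈ (W x).Q ∧ p.1 ∈ (W x).Fd) ∧ (p.2 ∈ (W x).Q ∧ p.2 ∈ (W x).Fd) ∧ X x p.1 = X x p.2 ∧
        H x p.1 = H x p.2 ∧ ¬ (W x).Same p.1 p.2) (by
    filter_upwards [le_principal_iff.1 hU] with x ⟨h1, h2, h3⟩
    by_contra hc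
    refine h1 fun t ht t' ht' eX eH => ?_
    obtain ⟨u, a1, a2, a3, a4⟩ := WL4_rep h2 h3 ht
    obtain ⟨u', b1, b2, b3, b4⟩ := WL4_rep h2 h3 ht'
    refine WL4_trans h2.pl a2 (WL4_trans h2.pl (by_contra fun hs => hc ⟨(u, u'), a1, b1,
      a3.symm.trans (eX.trans b3), a4.symm.trans (eH.trans b4), hs⟩) (WL4_symm h2.pl b2)))
  obtain ⟨x, h1, h2⟩ := (hp.and (WL4_main (t := fun x => (p x).1) (t' := fun x => (p x).2)
    (h.mono hl) (fun M => (s₁ M).imp fun _ h => ⟨h.1, hl h.2⟩)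
    (s₂.imp fun _ h => ⟨h.1, h.2.imp fun _ h => hl h⟩) (s₃.imp fun _ h => ⟨h.1, hl h.2⟩)
    (hp.mono fun _ h => h.1) (hp.mono fun _ h => h.2.1) (hp.mono fun _ h => h.2.2.1)
    (hp.mono fun _ h => h.2.2.2.1))).exists
  exact h1.2.2.2.2 h2

end Pool.Agent.MP_92463a_gt
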