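import Pool.Agent.MP_92463a_gt.Ring1
import Pool.Agent.MP_92463a_gt.CfL2
import Pool.Agent.MP_92463a_gt.CfN
import Pool.Agent.MP_92463a_gt.CfO2
import Pool.Agent.MP_92463a_gt.WL4
import Pool.Agent.MP_92463a_gt.GeoW
import Pool.Agent.MP_92463a_gt.Tow2

open Set Complex Filter Metric
open scoped Topology ComplexConjugate ContDiff Manifold

noncomputable section

namespace Pool.Agent.MP_92463a_gt

theorem Fam.ring {J : Type} [Fintype J] {p q γ : ℕ} (F : Fam J p q) (hq : 2 ≤ q) (hγ : 0 < γ) :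
    Realized ((p + q) / 2 + 2 * γ) (q + 2) := by
  classical
  have hg : (0 : ℝ) < 1 / (100 * γ) := by positivity
  have key : ∀ n : ℕ, ∃ L : ℝ, (n : ℝ) ≤ L ∧ ∃ x ∈ cube J, ∃ z : Zs γ, z.rf = z ∧
      ‖z‖ ≤ 1 / ((n : ℝ) + 1) ∧ ‖z‖ ≤ 1 / (100 * γ) ∧ (⟨F.D x, L, z⟩ : Cfg γ).eq = 0 ∧
      ∀ i, Lk (⟨F.D x, L, z⟩ : Cfg γ).wd.F1 (⟨F.D x, L, z⟩ : Cfg γ).wd.F2 (F.su i).ty
        (F.u i x) (F.v i x) = 0 := by
    intro n
    have hm : (0 : ℝ) < min (1 / ((n : ℝ) + 1)) (1 / (100 * γ)) := lt_min (by positivity) hg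
    obtain ⟨r, hr, hr'⟩ := ((F.solve hq hγ).and (Ioc_mem_nhdsGT hm)).exists
    obtain ⟨L, ⟨x, hx, z, h1, h2, h3⟩, hL⟩ := (hr.and (eventually_ge_atTop (n : ℝ))).exists
    exact ⟨L, hL, x, hx, z, h1, h2.trans (hr'.2.trans (min_le_left _ _)),
      h2.trans (hr'.2.trans (min_le_right _ _)), h3⟩
  choose L hL x hx z hs hz hz' he hk using key
  obtain ⟨x₀, h₀, φ, hφ, hx₀⟩ := isCompact_cube.tendsto_subseq hx
  have hxw : Tendsto (fun n => x (φ n)) atTop (𝓝[cube J] x₀) :=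
    tendsto_nhdsWithin_iff.2 ⟨hx₀, .of_forall fun n => hx _⟩
  have hLt : Tendsto (fun n => L (φ n)) atTop atTop :=
    (tendsto_atTop_mono hL tendsto_natCast_atTop_atTop).comp hφ.tendsto_atTop
  have hzt : Tendsto (fun n => z (φ n)) atTop (𝓝 0) :=
    (squeeze_zero_norm hz tendsto_one_div_add_atTop_nhds_zero_nat).comp hφ.tendsto_atTop
  have h := F.lim hq hγ h₀ hxw hLt hzt (.of_forall fun n => ⟨hs _, hz' _⟩)
  have hO := eventually_all.2 fun i => (F.lim_lk h₀ hxw h.wlim (fun _ => rfl) i).1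
  obtain ⟨C, hC⟩ : ∃ C : ℕ → Cfg γ, C = fun n => ⟨F.D (x (φ n)), L (φ n), z (φ n)⟩ := ⟨_, rfl⟩
  have hp : ∀ n, (C n).D.p = p ∧ (C n).D.q = q := fun n => hC ▸ (F.ok _ (hx (φ n))).2
  have hS : ∀ᶠ n in atTop, ∃ X, (C n).wd.Sol X (C n).wd.hh := by
    filter_upwards [h.fine, hO] with n hf hO
    have h1 := hp n
    subst hC
    refine hf.sol (he _) ?_ (fun i => F.mem i _ (hx _)) ?_ (fun i θ hθ => (hO i θ hθ).2.2) (hk _)
    · rw [h1.1, h1.2]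
      exact F.val
    · rw [h1.1, h1.2]
      exact F.chain
  rw [← hC] at h
  obtain ⟨X, hX⟩ := hS.choice
  have hSL : SLim atTop (fun n => (C n).wd) (F.D x₀) X fun n => (C n).wd.hh :=
    ⟨h.wlim, hX, h.hh_far⟩
  have hX' := hX.mono fun n hn => hn.toSolX
  obtain ⟨n, ⟨h1, h2⟩, h3⟩ :=
    ((h.ok.and hX).and (hSL.qinj (h.s1 hX') (h.s2 hX') (h.s3 hX))).exists
  have h4 := h2.realized h1 h3
  rwa [Fintype.card_fin, show (C n).wd.D.p = p from (hp n).1,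
    show (C n).wd.D.q = q from (hp n).2] at h4

theorem Fam.ring' {J : Type} [Fintype J] {p q : ℕ} (F : Fam J p q) (hq : 2 ≤ q) (γ : ℕ) :
    Realized ((p + q) / 2 + 2 * γ) (q + 2) := by
  rcases Nat.eq_zero_or_pos γ with rfl | hγ
  · simpa using F.realized
  · exact F.ring hq hγ

theorem realized_even {g r : ℕ} (hr : 4 ≤ r) (hg : r ≤ g + 2) (he : Even (g + r)) :
    Realized g r := by
  obtain ⟨q, rfl⟩ : ∃ q, r = q + 2 := ⟨r - 2, by omega⟩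
  obtain ⟨F⟩ := tower_fam (g := q) (by omega)
  obtain ⟨m, hm⟩ := he
  have h := F.ring' (by omega) (m - q - 1)
  rwa [show (q + q) / 2 + 2 * (m - q - 1) = g by omega] at h

end Pool.Agent.MP_92463a_gt
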