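import Pool.Agent.MP_92463a_gt.HdF6
import Pool.Agent.MP_92463a_gt.Ring2

open Set Complex Filter Metric
open scoped Topology ComplexConjugate ContDiff Manifold

noncomputable section

namespace Pool.Agent.MP_92463a_gt

theorem real_of {J : Type} [Fintype J] {p q : ℕ} (h : Nonempty (Fam J p q)) {q' : ℕ} (hp : p = q' + 2)
    (hq : q = q') (h2 : 2 ≤ q') (γ : ℕ) : Realized (q' + 1 + 2 * γ) (q' + 2) := by
  obtain ⟨F⟩ := h
  subst hp hq
  have h := F.ring' h2 γ
  rwa [show (q + 2 + q) / 2 = q + 1 by omega] at h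

theorem realized_handle {q : ℕ} (hq : 2 ≤ q) (γ : ℕ) : Realized (q + 1 + 2 * γ) (q + 2) := by
  rcases le_or_gt 11 q with h | h
  · exact real_of (cert_gen (n := q + 1) (by omega)).fam (gen_cnt (by omega)).1
      (gen_cnt (by omega)).2 hq γ
  · interval_cases q
    · exact real_of (q' := 2) (fam_fin okF2 rfl rfl (by decide) finF2) rfl rfl hq γ
    · exact real_of (q' := 3) (fam_fin okF3 rfl rfl (by decide) finF3) rfl rfl hq γ
    · exact real_of (q' := 4) (fam_fin okF4 rfl rfl (by decide) finF4) rfl rfl hq γ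
    · exact real_of (q' := 5) (fam_fin okF5 rfl rfl (by decide) finF5) rfl rfl hq γ
    · exact real_of (q' := 6) (fam_fin okF6 rfl rfl (by decide) finF6) rfl rfl hq γ
    · exact real_of (q' := 7) (fam_fin okF7 rfl rfl (by decide) finF7) rfl rfl hq γ
    · exact real_of (q' := 8) (fam_fin okF8 rfl rfl (by decide) finF8) rfl rfl hq γ
    · exact real_of (q' := 9) (fam_fin okF9 rfl rfl (by decide) finF9) rfl rfl hq γ
    · exact real_of (q' := 10) (fam_fin okF10 rfl rfl (by decide) finF10) rfl rfl hq γ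

theorem realized_four {g r : ℕ} (hr : 4 ≤ r) (hg : r ≤ g + 2) : Realized g r := by
  rcases Nat.even_or_odd (g + r) with he | ⟨m, hm⟩
  · exact realized_even hr hg he
  · obtain ⟨q, rfl⟩ : ∃ q, r = q + 2 := ⟨r - 2, by omega⟩
    have h := realized_handle (q := q) (by omega) (m - q - 1)
    rwa [show q + 1 + 2 * (m - q - 1) = g by omega] at h

end Pool.Agent.MP_92463a_gt
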