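import Pool.Agent.MP_92463a_gt.Max
import Pool.Agent.MP_92463a_gt.Arc2
import Pool.Agent.MP_92463a_gt.Pt

open Set Complex Filter Metric
open scoped Topology ComplexConjugate ContDiff Manifold

noncomputable section

namespace Pool.Agent.MP_92463a_gt

variable {D : Dat} {X : ℂ → ℂ}

theorem Inj_ne (hD : D.Ok) (hX : D.Sol X) {t : ℂ} (ht : 0 ≤ t.im) (hP : D.P t ≠ 0) :
    X t ≠ 0 := by
  obtain ⟨-, -, h1, h2⟩ := hX.quad hD ht hP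
  intro h0
  rw [h0] at h1 h2
  simp only [zero_re, zero_im, lt_self_iff_false, imp_false, not_or, not_lt] at h1 h2
  have e : t = (t.re : ℂ) := Complex.ext rfl (by rw [ofReal_im]; exact le_antisymm h1.1 ht)
  refine hP (Complex.ext (le_antisymm h1.2 h2.2) ?_)
  rw [e]
  exact Dat.P_im _

theorem Inj_sgn {t y : ℂ} (hy : y ^ 2 = D.P t) (hP : D.P t ≠ 0) :
    y / D.Y t = 1 ∨ y / D.Y t = -1 := by
  rw [← sq_eq_one_iff, div_pow, hy, Dat.Y_sq hP, div_self hP]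

theorem Inj_abs (hD : D.Ok) (hX : D.Sol X) {t y : ℂ} (ht : 0 ≤ t.im) (hy : y ^ 2 = D.P t)
    (hP : D.P t ≠ 0) :
    |(y / D.Y t * X t).re| = -(X t).re ∧ |(y / D.Y t * X t).im| = (X t).im := by
  obtain ⟨h1, h2, -, -⟩ := hX.quad hD ht hP
  rcases Inj_sgn hy hP with h | h <;> rw [h]
  · rw [one_mul]
    exact ⟨abs_of_nonpos h1, abs_of_nonneg h2⟩
  · rw [neg_one_mul, neg_re, neg_im, abs_neg, abs_neg]
    exact ⟨abs_of_nonpos h1, abs_of_nonneg h2⟩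

theorem Inj_up (hD : D.Ok) (hX : D.Sol X) {t₁ y₁ t₂ y₂ : ℂ} (h₁ : 0 ≤ t₁.im) (h₂ : 0 ≤ t₂.im)
    (hy₁ : y₁ ^ 2 = D.P t₁) (hy₂ : y₂ ^ 2 = D.P t₂) (hP₁ : D.P t₁ ≠ 0) (hP₂ : D.P t₂ ≠ 0)
    (hn : ‖t₁‖ = ‖t₂‖) (hre : |(y₁ / D.Y t₁ * X t₁).re| = |(y₂ / D.Y t₂ * X t₂).re|)
    (him : |(y₁ / D.Y t₁ * X t₁).im| = |(y₂ / D.Y t₂ * X t₂).im|) : t₁ = t₂ := by
  obtain ⟨a₁, b₁⟩ := Inj_abs hD hX h₁ hy₁ hP₁
  obtain ⟨a₂, b₂⟩ := Inj_abs hD hX h₂ hy₂ hP₂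
  refine hX.toPre.arc_inj hD ⟨h₁, fun h => hP₁ (Dat.P_eq_zero.2 (Or.inl h))⟩
    ⟨h₂, fun h => hP₂ (Dat.P_eq_zero.2 (Or.inl h))⟩ hn (Complex.ext ?_ ?_) <;> linarith

theorem Inj_same (hD : D.Ok) (hX : D.Sol X) {t₁ y₁ t₂ y₂ : ℂ} (h₁ : 0 ≤ t₁.im) (h₂ : 0 ≤ t₂.im)
    (hy₁ : y₁ ^ 2 = D.P t₁) (hy₂ : y₂ ^ 2 = D.P t₂) (hP₁ : D.P t₁ ≠ 0) (hP₂ : D.P t₂ ≠ 0)
    (hn : ‖t₁‖ = ‖t₂‖) (he : y₁ / D.Y t₁ * X t₁ = y₂ / D.Y t₂ * X t₂) : t₁ = t₂ ∧ y₁ = y₂ := by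
  have h := Inj_up hD hX h₁ h₂ hy₁ hy₂ hP₁ hP₂ hn (by rw [he]) (by rw [he])
  subst h
  exact ⟨rfl, (div_left_inj' (Dat.Y_ne _)).1 (mul_right_cancel₀ (Inj_ne hD hX h₁ hP₁) he)⟩

theorem Inj_opp (hD : D.Ok) (hX : D.Sol X) {t₁ y₁ t₂ y₂ : ℂ} (h₁ : 0 ≤ t₁.im) (h₂ : 0 < t₂.im)
    (hy₁ : y₁ ^ 2 = D.P t₁) (hy₂ : y₂ ^ 2 = D.P t₂) (hP₁ : D.P t₁ ≠ 0) (hP₂ : D.P t₂ ≠ 0)
    (hn : ‖t₁‖ = ‖t₂‖) (he : y₁ / D.Y t₁ * X t₁ = conj (y₂ / D.Y t₂ * X t₂)) : False := by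
  have h := Inj_up hD hX h₁ h₂.le hy₁ hy₂ hP₁ hP₂ hn (by rw [he, conj_re])
    (by rw [he, conj_im, abs_neg])
  subst h
  obtain ⟨-, -, h1, h2⟩ := hX.quad hD h₁ hP₁
  have h3 := h1 (Or.inl h₂)
  have h4 := h2 (Or.inl h₂)
  have hre := congrArg re he
  have him := congrArg im he
  rcases Inj_sgn hy₁ hP₁ with e₁ | e₁ <;> rcases Inj_sgn hy₂ hP₁ with e₂ | e₂ <;>
    rw [e₁, e₂] at hre him <;>
    simp only [one_mul, neg_one_mul, neg_re, neg_im, conj_re, conj_im] at hre him <;> linarith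

theorem Inj_conj {t y : ℂ} (hy : y ^ 2 = D.P t) : conj y ^ 2 = D.P (conj t) := by
  rw [Dat.P_conj, ← hy, map_pow]

theorem Inj_Pconj {t : ℂ} (hP : D.P t ≠ 0) : D.P (conj t) ≠ 0 := by
  rw [Dat.P_conj]
  simpa using hP

theorem Inj_zero (hD : D.Ok) (hX : D.Sol X) {t y : ℂ} (hy : y ^ 2 = D.P t) :
    D.Xg X t y = 0 ↔ D.P t = 0 := by
  constructor
  · intro h
    by_contra hP
    have hy0 : y ≠ 0 := fun h0 => hP (by rw [← hy, h0]; simp)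
    unfold Dat.Xg at h
    split_ifs at h with ht
    · exact mul_ne_zero (div_ne_zero hy0 (Dat.Y_ne _)) (Inj_ne hD hX ht hP) h
    · rw [map_eq_zero] at h
      exact mul_ne_zero (div_ne_zero (by simpa using hy0) (Dat.Y_ne _))
        (Inj_ne hD hX (by rw [conj_im]; linarith) (Inj_Pconj hP)) h
  · intro h
    rw [h, sq_eq_zero_iff] at hy
    simp [Dat.Xg, hy]

theorem Inj_core (hD : D.Ok) (hX : D.Sol X) {t₁ y₁ t₂ y₂ : ℂ}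
    (hy₁ : y₁ ^ 2 = D.P t₁) (hy₂ : y₂ ^ 2 = D.P t₂) (hE₁ : ¬ D.IsE t₁) (hE₂ : ¬ D.IsE t₂)
    (hn : ‖t₁‖ = ‖t₂‖) (he : D.Xg X t₁ y₁ = D.Xg X t₂ y₂) : t₁ = t₂ ∧ y₁ = y₂ := by
  have hiff : D.P t₁ = 0 ↔ D.P t₂ = 0 := by
    rw [← Inj_zero hD hX hy₁, ← Inj_zero hD hX hy₂, he]
  by_cases hP₁ : D.P t₁ = 0
  · have hP₂ := hiff.1 hP₁
    obtain ⟨i, hi, e₁⟩ := (Dat.P_eq_zero.1 hP₁).resolve_left hE₁
    obtain ⟨j, hj, e₂⟩ := (Dat.P_eq_zero.1 hP₂).resolve_left hE₂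
    rw [hP₁, sq_eq_zero_iff] at hy₁
    rw [hP₂, sq_eq_zero_iff] at hy₂
    refine ⟨?_, hy₁.trans hy₂.symm⟩
    rw [e₁, e₂, norm_real, norm_real, Real.norm_of_nonneg (hD.a_pos i hi).le,
      Real.norm_of_nonneg (hD.a_pos j hj).le] at hn
    rw [e₁, e₂, hn]
  have hP₂ : D.P t₂ ≠ 0 := fun h => hP₁ (hiff.2 h)
  unfold Dat.Xg at he
  split_ifs at he with h₁ h₂ h₂
  · exact Inj_same hD hX h₁ h₂ hy₁ hy₂ hP₁ hP₂ hn he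
  · exact (Inj_opp hD hX h₁ (by rw [conj_im]; linarith) hy₁ (Inj_conj hy₂) hP₁ (Inj_Pconj hP₂)
      (by rw [hn, norm_conj]) he).elim
  · exact (Inj_opp hD hX h₂ (by rw [conj_im]; linarith) hy₂ (Inj_conj hy₁) hP₂ (Inj_Pconj hP₁)
      (by rw [← hn, norm_conj]) he.symm).elim
  · have h := Inj_same hD hX (t₁ := conj t₁) (t₂ := conj t₂) (by rw [conj_im]; linarith)
      (by rw [conj_im]; linarith) (Inj_conj hy₁) (Inj_conj hy₂) (Inj_Pconj hP₁) (Inj_Pconj hP₂)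
      (by rw [norm_conj, norm_conj, hn]) ((starRingEnd ℂ).injective he)
    exact ⟨(starRingEnd ℂ).injective h.1, (starRingEnd ℂ).injective h.2⟩

theorem Dat.Sol.inj {D : Dat} {X : ℂ → ℂ} (hD : D.Ok) (hX : D.Sol X) :
    Function.Injective (fun z : {z // z ∉ D.S} => D.ff X z) := by
  rintro ⟨z₁, hz₁⟩ ⟨z₂, hz₂⟩ he
  rw [Dat.mem_S] at hz₁ hz₂
  have n₁ : z₁ ≠ OnePoint.infty := fun h => hz₁ (Or.inl (by rw [h]; rfl))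
  have n₂ : z₂ ≠ OnePoint.infty := fun h => hz₂ (Or.inl (by rw [h]; rfl))
  have e0 : (D.Xg X (D.tt z₁) (D.yy z₁)).re = (D.Xg X (D.tt z₂) (D.yy z₂)).re :=
    congrArg (fun v : E3 => v 0) he
  have e1 : (D.Xg X (D.tt z₁) (D.yy z₁)).im = (D.Xg X (D.tt z₂) (D.yy z₂)).im :=
    congrArg (fun v : E3 => v 1) he
  have e2 : 2 * Real.log ‖D.tt z₁‖ = 2 * Real.log ‖D.tt z₂‖ :=
    congrArg (fun v : E3 => v 2) he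
  have hn : ‖D.tt z₁‖ = ‖D.tt z₂‖ :=
    Real.log_injOn_pos (norm_pos_iff.2 fun h => hz₁ (Or.inl h))
      (norm_pos_iff.2 fun h => hz₂ (Or.inl h)) (by linarith)
  obtain ⟨h1, h2⟩ := Inj_core hD hX (Dat.yy_sq z₁) (Dat.yy_sq z₂) hz₁ hz₂ hn (Complex.ext e0 e1)
  apply Subtype.ext
  change z₁ = z₂
  rw [← Dat.pt_tt n₁, ← Dat.pt_tt n₂, h1, h2]

end Pool.Agent.MP_92463a_gt
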