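import Pool.Agent.MP_92463a_gt.Alg
import Pool.Agent.MP_92463a_gt.App

open Set Complex Filter Metric
open scoped Topology ComplexConjugate ContDiff Manifold

noncomputable section

namespace Pool.Agent.MP_92463a_gt

variable {g j : ℕ} {U D : ℕ → ℝ}

theorem Link0_bd (h : Box g U D) {i : ℕ} (hi : i < g) :
    0.128 ≤ U i ∧ U i ≤ 0.31 ∧ 0.128 ≤ D i ∧ D i ≤ 0.31 := by
  obtain ⟨a, b, c, d, -⟩ := (h i hi).bd
  exact ⟨a, b, c, d⟩

theorem Link0_pos (h : Box g U D) {i : ℕ} (hi : i < g) : 0 < U i ∧ 0 < D i := by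
  obtain ⟨a, -, c, -⟩ := Link0_bd h hi
  constructor <;> linarith

theorem Link0_W (h : Box g U D) : ∀ i ≤ g, 0 < tW U D i := by
  intro i
  induction i with
  | zero => exact fun _ => one_pos
  | succ i ih =>
    intro hi
    obtain ⟨a, b⟩ := Link0_pos h (i := i) hi
    exact div_pos (ih (by omega)) (mul_pos a b)

theorem Link0_eq (h : Box g U D) {i : ℕ} (hi : i < g) :
    tW U D i = tW U D (i + 1) * (U i * D i) ∧ tB U D i = tW U D (i + 1) * U i ∧
      tA U D i = tW U D (i + 1) * (U i ^ 2 / D i) := by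
  obtain ⟨a, b⟩ := Link0_pos h hi
  simp only [tW, tA, tB]
  refine ⟨?_, ?_, ?_⟩ <;> field_simp

theorem Link0_mono (h : Box g U D) {i k : ℕ} (hik : i ≤ k) (hk : k ≤ g) :
    tW U D i ≤ tW U D k := by
  induction k, hik using Nat.le_induction with
  | base => exact le_rfl
  | succ k _ ih =>
    refine (ih (by omega)).trans ?_
    obtain ⟨a, b, c, d⟩ := Link0_bd h (i := k) hk
    rw [(Link0_eq h (i := k) hk).1]
    exact mul_le_of_le_one_right (Link0_W h _ hk).le (by nlinarith)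

theorem Link0_lt (h : Box g U D) {i k : ℕ} (hik : i < k) (hk : k ≤ g) :
    tA U D i < tW U D k ∧ tB U D i ≤ 0.31 * tW U D k := by
  have hi : i < g := by omega
  obtain ⟨a, b, c, d⟩ := Link0_bd h hi
  obtain ⟨-, e2, e3⟩ := Link0_eq h hi
  have h1 := Link0_mono h (i := i + 1) hik hk
  have h2 := Link0_W h (i + 1) hi
  have h3 : U i ^ 2 / D i < 1 := (div_lt_one (by linarith)).2 (by nlinarith)
  constructor
  · rw [e3]
    exact (mul_lt_of_lt_one_right h2 h3).trans_le h1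
  · rw [e2]
    nlinarith

theorem Link0_gt (h : Box g U D) {i k : ℕ} (hik : k ≤ i) (hi : i < g) :
    tW U D k < tA U D i ∧ 3 * tW U D k < tB U D i := by
  obtain ⟨a, b, c, d⟩ := Link0_bd h hi
  have h1 := Link0_mono h hik hi.le
  have h2 := Link0_W h i hi.le
  have hD : 0 < D i := by linarith
  constructor
  · refine h1.trans_lt ?_
    rw [tA, lt_div_iff₀ (by positivity)]
    exact mul_lt_mul_of_pos_left (by nlinarith) h2
  · rw [tB, lt_div_iff₀ hD]
    nlinarith [Link0_W h k (by omega)]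

theorem Link0_ab (h : Box g U D) {i : ℕ} (hi : i < g) : 0 < tA U D i ∧ 0 < tB U D i := by
  obtain ⟨a, b⟩ := Link0_gt h le_rfl hi
  have := Link0_W h i hi.le
  constructor <;> linarith

theorem Link0_a_le (h : Box g U D) {i k : ℕ} (hik : i ≤ k) (hk : k < g) :
    tA U D i ≤ tA U D k ∧ tB U D i ≤ tB U D k := by
  rcases hik.eq_or_lt with rfl | hlt
  · exact ⟨le_rfl, le_rfl⟩
  · obtain ⟨a, b⟩ := Link0_lt h hlt hk.le
    obtain ⟨c, d⟩ := Link0_gt h le_rfl hk
    have := Link0_W h k hk.le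
    constructor <;> linarith

theorem Box.ok (h : Box g U D) (hg : 0 < g) : (tw g U D).Ok where
  p_pos := hg
  par := ⟨g, rfl⟩
  ρ_pos := Real.exp_pos _
  a_pos _ hi := (Link0_ab h hi).1
  a_lt _ _ hik hk := (Link0_lt h hik (le_of_lt hk)).1.trans (Link0_gt h le_rfl hk).1
  b_pos _ hi := (Link0_ab h hi).2
  b_gap i k hik hk := by
    have a := (Link0_lt h hik (le_of_lt hk)).2
    have b := (Link0_gt h le_rfl hk).2
    have := Link0_W h k (le_of_lt hk)
    change 5 * tB U D i < tB U D k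
    linarith

/-- `z` or its inverse, according to the parity of `i` -/
def Link0_pw (i : ℕ) (z : ℂ) : ℂ := if Even i then z else z⁻¹

theorem Link0_pw_mul (i : ℕ) (z w : ℂ) : Link0_pw i (z * w) = Link0_pw i z * Link0_pw i w := by
  unfold Link0_pw
  split_ifs
  · rfl
  · exact mul_inv _ _

theorem Link0_pw_succ (i : ℕ) (z : ℂ) : Link0_pw (i + 1) z⁻¹ = Link0_pw i z := by
  unfold Link0_pw
  by_cases h : Even i <;> simp [Nat.even_add_one, h]

theorem Link0_pw_exp (i : ℕ) (z : ℂ) : exp (sg i * z) = Link0_pw i (exp z) := by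
  unfold Link0_pw sg
  split_ifs with h
  · simp [h.neg_one_pow]
  · simp [(Nat.not_even_iff_odd.1 h).neg_one_pow, exp_neg]

theorem Link0_step (U D : ℕ → ℝ) (j : ℕ) (v : ℂ) (h1 : 1 + (U j : ℂ) * v ≠ 0)
    (h2 : 1 - ((U j ^ 2 / D j : ℝ) : ℂ) * v ≠ 0) :
    exp (fld U D (j + 1) v) ^ 2 = ((1 + (U j : ℂ) * v) ^ 3 / (1 - ((U j ^ 2 / D j : ℝ) : ℂ) * v) *
      exp (fld U D j (((U j * D j : ℝ) : ℂ) * v)) ^ 2)⁻¹ := by
  have e : ∀ x y z : ℂ, ((2 : ℕ) : ℂ) * (-(3 / 2 * x - 1 / 2 * y) - z) =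
      -(((3 : ℕ) : ℂ) * x - y + ((2 : ℕ) : ℂ) * z) := fun x y z => by push_cast; ring
  rw [fld, ← exp_nat_mul, e, exp_neg, exp_add, exp_sub, exp_nat_mul, exp_nat_mul, exp_log h1,
    exp_log h2]

/-- the factor of `G ^ 2` coming from level `i` -/
def Link0_H (U D : ℕ → ℝ) (t : ℂ) (i : ℕ) : ℂ :=
  tA U D i / tB U D i ^ 3 * ((t + tB U D i) ^ 3 / (tA U D i - t))

theorem Link0_ne {t : ℂ} (hP : (tw g U D).P t ≠ 0) :
    t ≠ 0 ∧ ∀ i < g, t + tB U D i ≠ 0 ∧ tA U D i - t ≠ 0 := by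
  obtain ⟨h1, h2⟩ := mul_ne_zero_iff.1 hP
  obtain ⟨h0, h1⟩ := mul_ne_zero_iff.1 h1
  exact ⟨h0, fun i hi => ⟨Finset.prod_ne_zero_iff.1 h1 i (Finset.mem_range.2 hi),
    Finset.prod_ne_zero_iff.1 h2 i (Finset.mem_range.2 hi)⟩⟩

theorem Link0_G (h : Box g U D) {t : ℂ} (hP : (tw g U D).P t ≠ 0) :
    (tw g U D).G t ^ 2 = t⁻¹ * ∏ i ∈ Finset.range g, Link0_pw i (Link0_H U D t i) := by
  obtain ⟨h0, hn⟩ := Link0_ne hP
  have e : ((2 : ℕ) : ℂ) * (tw g U D).LG t = -log t + ∑ i ∈ Finset.range g,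
      sg i * (((Real.log (tA U D i) : ℂ) - ((3 : ℕ) : ℂ) * Real.log (tB U D i)) +
        (((3 : ℕ) : ℂ) * log (t + tB U D i) - lm (tA U D i) t)) := by
    simp only [Dat.LG, tw, Real.log_exp]
    push_cast
    rw [add_sub_assoc, ← Finset.sum_sub_distrib, sub_add_eq_add_sub, ← Finset.sum_add_distrib,
      mul_sub, Finset.mul_sum, sub_eq_neg_add]
    congr 1
    · ring
    · exact Finset.sum_congr rfl fun i _ => by ring
  rw [Dat.G, ← exp_nat_mul, e, exp_add, exp_neg, exp_log h0, exp_sum]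
  congr 1
  refine Finset.prod_congr rfl fun i hi => ?_
  have hi := Finset.mem_range.1 hi
  obtain ⟨a, b⟩ := Link0_ab h hi
  have c : t - tA U D i ≠ 0 := fun c => (hn i hi).2 (by linear_combination -c)
  rw [Link0_pw_exp, exp_add, exp_sub, exp_sub, exp_nat_mul, exp_nat_mul, exp_log (hn i hi).1,
    ← ofReal_exp, ← ofReal_exp, Real.exp_log a, Real.exp_log b, lm, exp_sub, exp_log c,
    exp_pi_mul_I, div_neg, div_one, neg_sub, Link0_H]

theorem Link0_low (h : Box g U D) {t : ℂ} (hP : (tw g U D).P t ≠ 0) : ∀ j ≤ g,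
    ∏ i ∈ Finset.range j, Link0_pw i (Link0_H U D t i) =
      (if Even j then (tW U D j : ℂ) else -t ^ 2 / tW U D j) *
        Link0_pw j (exp (fld U D j (tW U D j / t)) ^ 2) := by
  obtain ⟨h0, hn⟩ := Link0_ne hP
  intro j
  induction j with
  | zero => intro _; simp [tW, fld, Link0_pw]
  | succ j ih =>
    intro hj
    obtain ⟨e1, e2, e3⟩ := Link0_eq h (i := j) hj
    obtain ⟨n1, n2⟩ := hn j hj
    obtain ⟨pU, pD⟩ := Link0_pos h (i := j) hj
    have pW : (tW U D (j + 1) : ℂ) ≠ 0 := ofReal_ne_zero.2 (Link0_W h _ hj).ne'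
    have cU : (U j : ℂ) ≠ 0 := ofReal_ne_zero.2 pU.ne'
    have cD : (D j : ℂ) ≠ 0 := ofReal_ne_zero.2 pD.ne'
    have f1 : 1 + (U j : ℂ) * (tW U D (j + 1) / t) = (t + tB U D j) / t := by
      rw [e2]; push_cast; field_simp
    have f2 : 1 - ((U j ^ 2 / D j : ℝ) : ℂ) * (tW U D (j + 1) / t) = -(tA U D j - t) / t := by
      rw [e3]; push_cast; field_simp; ring
    have f3 : ((U j * D j : ℝ) : ℂ) * (tW U D (j + 1) / t) = tW U D j / t := by
      rw [e1]; push_cast; ring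
    have f4 : Link0_H U D t j = -t ^ 2 / (tW U D j * tW U D (j + 1)) *
        (((t + tB U D j) / t) ^ 3 / (-(tA U D j - t) / t)) := by
      rw [Link0_H]
      generalize t + tB U D j = x at n1
      generalize tA U D j - t = y at n2
      rw [e1, e2, e3]
      push_cast
      field_simp
    rw [Finset.prod_range_succ, ih (by omega), Link0_step U D j _
      (by rw [f1]; exact div_ne_zero n1 h0) (by rw [f2]; exact div_ne_zero (neg_ne_zero.2 n2) h0),
      Link0_pw_succ, f1, f2, f3, f4, Link0_pw_mul, Link0_pw_mul]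
    have pW' : (tW U D j : ℂ) ≠ 0 := ofReal_ne_zero.2 (Link0_W h j (by omega)).ne'
    have f5 : (if Even j then (tW U D j : ℂ) else -t ^ 2 / tW U D j) *
        Link0_pw j (-t ^ 2 / (tW U D j * tW U D (j + 1))) =
        if Even (j + 1) then (tW U D (j + 1) : ℂ) else -t ^ 2 / tW U D (j + 1) := by
      unfold Link0_pw
      by_cases hj : Even j
      · rw [if_pos hj, if_pos hj, if_neg (by simpa [Nat.even_add_one] using hj)]
        field_simp
      · rw [if_neg hj, if_neg hj, if_pos (Nat.even_add_one.2 hj)]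
        field_simp
    rw [← f5]
    ring

theorem Link0_upp (h : Box g U D) {t : ℂ} (hP : (tw g U D).P t ≠ 0) : ∀ k m, m + k = g →
    ∏ i ∈ Finset.Ico m g, Link0_pw i (Link0_H U D t i) =
      Link0_pw (m + 1) (exp (fld (rev g D) (rev g U) k (t / tW U D m)) ^ 2) := by
  obtain ⟨h0, hn⟩ := Link0_ne hP
  intro k
  induction k with
  | zero =>
    rintro m rfl
    simp [fld, Link0_pw]
  | succ k ih =>
    intro m hm
    have hj : m < g := by omega
    obtain ⟨n1, n2⟩ := hn m hj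
    obtain ⟨pU, pD⟩ := Link0_pos h hj
    obtain ⟨pA, pB⟩ := Link0_ab h hj
    have pW : (tW U D m : ℂ) ≠ 0 := ofReal_ne_zero.2 (Link0_W h _ hj.le).ne'
    have cU : (U m : ℂ) ≠ 0 := ofReal_ne_zero.2 pU.ne'
    have cD : (D m : ℂ) ≠ 0 := ofReal_ne_zero.2 pD.ne'
    have cA : (tA U D m : ℂ) ≠ 0 := ofReal_ne_zero.2 pA.ne'
    have cB : (tB U D m : ℂ) ≠ 0 := ofReal_ne_zero.2 pB.ne'
    have r1 : rev g D k = D m := congrArg D (by omega)
    have r2 : rev g U k = U m := congrArg U (by omega)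
    have f1 : 1 + (rev g D k : ℂ) * (t / tW U D m) = (t + tB U D m) / tB U D m := by
      rw [r1, tB]; push_cast; field_simp; ring
    have f2 : 1 - ((rev g D k ^ 2 / rev g U k : ℝ) : ℂ) * (t / tW U D m) =
        (tA U D m - t) / tA U D m := by
      rw [r1, r2, tA]; push_cast; field_simp
    have f3 : ((rev g D k * rev g U k : ℝ) : ℂ) * (t / tW U D m) = t / tW U D (m + 1) := by
      rw [r1, r2, tW]; push_cast; field_simp
    have f4 : Link0_H U D t m = ((t + tB U D m) / tB U D m) ^ 3 /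
        ((tA U D m - t) / tA U D m) := by
      rw [Link0_H]
      field_simp
    have f5 : ∀ z, Link0_pw (m + 1 + 1) z = Link0_pw m z := fun z => by
      simp [Link0_pw, Nat.even_add_one]
    rw [Finset.prod_eq_prod_Ico_succ_bot hj, ih (m + 1) (by omega), Link0_step _ _ k _
      (by rw [f1]; exact div_ne_zero n1 cB) (by rw [f2]; exact div_ne_zero n2 cA),
      Link0_pw_succ, f1, f2, f3, f4, f5, Link0_pw_mul]

theorem Box.G_sq (h : Box g U D) (hj : j < g) {s Γ : ℂ} (hP : (tw g U D).P (tA U D j * s) ≠ 0)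
    (hΓ : Γ ^ 2 = ((U j ^ 2 / D j : ℝ) : ℂ) * ((s + (D j / U j : ℝ)) ^ 3 / (s * (s - 1))) *
      exp (Ld g U D j s) ^ 2) :
    (tw g U D).G (tA U D j * s) ^ 2 = if Even j then -Γ ^ 2 else (Γ ^ 2)⁻¹ := by
  obtain ⟨h0, hn⟩ := Link0_ne hP
  obtain ⟨n1, n2⟩ := hn j hj
  obtain ⟨pU, pD⟩ := Link0_pos h hj
  have pW : (tW U D j : ℂ) ≠ 0 := ofReal_ne_zero.2 (Link0_W h _ hj.le).ne'
  have cU : (U j : ℂ) ≠ 0 := ofReal_ne_zero.2 pU.ne'
  have cD : (D j : ℂ) ≠ 0 := ofReal_ne_zero.2 pD.ne'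
  obtain ⟨cA, cs⟩ := mul_ne_zero_iff.1 h0
  have cs1 : 1 - s ≠ 0 := fun c => n2 (by linear_combination (tA U D j : ℂ) * c)
  have cs2 : s - 1 ≠ 0 := fun c => cs1 (by linear_combination -c)
  have f1 : (tW U D j : ℂ) / (tA U D j * s) = ((D j ^ 2 / U j : ℝ) : ℂ) / s := by
    rw [tA]; push_cast; field_simp
  have f2 : (tA U D j : ℂ) * s / tW U D (j + 1) = ((U j ^ 2 / D j : ℝ) : ℂ) * s := by
    rw [tA, tW]; push_cast; field_simp
  have f3 : ((U j ^ 2 / D j : ℝ) : ℂ) * ((s + (D j / U j : ℝ)) ^ 3 / (s * (s - 1))) =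
      -(tW U D j / (tA U D j * s) * Link0_H U D (tA U D j * s) j) := by
    have g1 : (tA U D j : ℂ) * s + tB U D j = tA U D j * (s + (D j / U j : ℝ)) := by
      rw [tA, tB]; push_cast; field_simp
    have g2 : (tA U D j : ℂ) - tA U D j * s = -(tA U D j * (s - 1)) := by ring
    rw [Link0_H, g1, g2]
    generalize s + (D j / U j : ℝ) = x
    generalize s - 1 = y at cs2
    rw [tA, tB]
    push_cast
    field_simp
  have f5 : ∀ z, Link0_pw (j + 1 + 1) z = Link0_pw j z := fun z => by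
    simp [Link0_pw, Nat.even_add_one]
  rw [Link0_G h hP, ← Finset.prod_range_mul_prod_Ico _ (show j + 1 ≤ g from hj),
    Finset.prod_range_succ, Link0_low h hP j hj.le, Link0_upp h hP (g - 1 - j) (j + 1) (by omega),
    f5, hΓ, f3, Ld, exp_add, mul_pow (exp _), f2]
  conv_lhs => rw [f1]
  unfold Link0_pw
  split_ifs
  · ring
  · generalize (tA U D j : ℂ) * s = t at h0 ⊢
    simp only [mul_inv, inv_neg, inv_div]
    field_simp

theorem Link0_nu {lo up : Bool} {U D : ℝ} (h : InBox lo up U D) :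
    1 < 1 / √(U / (U + D)) ∧ (1 / √(U / (U + D)) - 1) * U < D ∧
      D ^ 2 ≤ (1 / √(U / (U + D)) - 1) * U ∧
      (up = true → U ^ 2 * (1 + 1 / √(U / (U + D))) ≤ D) := by
  obtain ⟨a, b, c, d, e, f⟩ := h.bd
  have hU : 0 < U := by linarith
  have hD : 0 < D := by linarith
  have h0 : 0 < U / (U + D) := by linarith
  have ν0 : 0 < 1 / √(U / (U + D)) := by positivity
  have ν2 : (1 / √(U / (U + D))) ^ 2 * U = U + D := by
    rw [div_pow, Real.sq_sqrt h0.le]
    field_simp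
  generalize 1 / √(U / (U + D)) = ν at ν0 ν2
  have hle : 0.29 * (U + D) ≤ U := (le_div_iff₀ (by linarith)).1 e
  have ν3 : ν ≤ 1.86 := App_le (c := 3.45) hU (by norm_num) (by linarith) (by norm_num)
  have h3 : D = (ν - 1) * U * (ν + 1) := by linarith
  have h4 : 0 < (ν - 1) * U := by
    by_contra h5
    nlinarith
  have h5 : 1 < ν := sub_pos.1 ((mul_pos_iff_of_pos_right hU).1 h4)
  refine ⟨h5, by nlinarith, ?_, ?_⟩
  · have h2 : D * (ν + 1) ≤ 1 := by nlinarith
    calc D ^ 2 = (ν - 1) * U * (D * (ν + 1)) := by linear_combination D * h3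
      _ ≤ (ν - 1) * U * 1 := mul_le_mul_of_nonneg_left h2 h4.le
      _ = _ := mul_one _
  · rintro rfl
    obtain ⟨⟨h1, h2⟩, h3, h4⟩ := h
    cases lo <;> simp only [dLo, dHi] at h1 h2 h3 h4
    · have : U ^ 2 ≤ 0.035 := by nlinarith
      nlinarith
    · have ν4 : ν ≤ 1.61 := App_le (c := 2.57) hU (by norm_num) (by linarith) (by norm_num)
      have : U ^ 2 ≤ 0.0553 := by nlinarith
      nlinarith

theorem Box.in_down (h : Box g U D) (hj : j < g) :
    (tw g U D).InA (j + 1) (tA U D j * (1 + 1 / √(U j / (U j + D j)))) ∧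
      (tw g U D).InB j (tA U D j * (1 - 1 / √(U j / (U j + D j)))) := by
  obtain ⟨n1, n2, n3, n4⟩ := Link0_nu (h j hj)
  generalize 1 / √(U j / (U j + D j)) = ν at n1 n2 n3 n4
  obtain ⟨pU, pD⟩ := Link0_pos h hj
  obtain ⟨pA, pB⟩ := Link0_ab h hj
  have pW := Link0_W h j hj.le
  have pW' := Link0_W h (j + 1) hj
  refine ⟨⟨by positivity, fun i hi => ?_, fun i hi hi' => ?_⟩, by nlinarith, fun i hi => ?_,
    fun i hi hi' => ?_⟩
  · exact (Link0_a_le h (i := i) (by omega) hj).1.trans_lt (by nlinarith)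
  · have hi' : i < g := hi'
    refine lt_of_le_of_lt ?_ (Link0_gt h hi hi').1
    rw [(Link0_eq h hj).2.2, mul_assoc, div_mul_eq_mul_div]
    exact mul_le_of_le_one_right pW'.le
      ((div_le_one pD).2 (n4 (decide_eq_true (by omega))))
  · have e : tW U D j ≤ -(tA U D j * (1 - ν)) := by
      rw [tA, ← mul_neg, neg_sub, div_mul_eq_mul_div, le_div_iff₀ (by positivity), mul_assoc]
      exact mul_le_mul_of_nonneg_left (by linarith) pW.le
    have := (Link0_lt h hi hj.le).2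
    change tB U D i < _
    linarith
  · refine lt_of_lt_of_le ?_ (Link0_a_le h hi hi').2
    have e : tA U D j = tB U D j * (U j / D j) := by
      rw [tA, tB]; field_simp
    rw [e, ← mul_neg, neg_sub, mul_assoc, div_mul_eq_mul_div]
    exact mul_lt_of_lt_one_right pB ((div_lt_one pD).2 (by linarith))

theorem Box.in_up (h : Box g U D) (hj : j < g) :
    (tw g U D).InA j (tA U D j / (1 + 1 / √(D j / (D j + U j)))) ∧
      (tw g U D).InB (j + 1) (tA U D j / (1 - 1 / √(D j / (D j + U j)))) := by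
  obtain ⟨n1, n2, n3, n4⟩ := Link0_nu (h j hj).symm
  generalize 1 / √(D j / (D j + U j)) = ν at n1 n2 n3 n4
  obtain ⟨pU, pD⟩ := Link0_pos h hj
  obtain ⟨pA, pB⟩ := Link0_ab h hj
  have pW := Link0_W h j hj.le
  have pW' := Link0_W h (j + 1) hj
  have pν : 0 < ν - 1 := by linarith
  have e0 : -(tA U D j / (1 - ν)) = tA U D j / (ν - 1) := by rw [← div_neg, neg_sub]
  refine ⟨⟨by positivity, fun i hi => ?_, fun i hi hi' => ?_⟩,
    div_neg_of_pos_of_neg pA (by linarith), fun i hi => ?_, fun i hi hi' => ?_⟩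
  · refine (Link0_lt h hi hj.le).1.trans_le ?_
    rw [le_div_iff₀ (by linarith), tA, le_div_iff₀ (by positivity), mul_assoc]
    have := n4 (decide_eq_true (by omega))
    exact mul_le_mul_of_nonneg_left (by linarith) pW.le
  · exact (div_lt_self pA (by linarith)).trans_le (Link0_a_le h hi hi').1
  · refine (Link0_a_le h (i := i) (by omega) hj).2.trans_lt ?_
    have e : tA U D j = tB U D j * (U j / D j) := by
      rw [tA, tB]; field_simp
    rw [e0, lt_div_iff₀ pν, e]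
    exact mul_lt_mul_of_pos_left ((lt_div_iff₀ pD).2 n2) pB
  · have e : tA U D j / (ν - 1) ≤ tW U D (j + 1) := by
      rw [div_le_iff₀ pν, (Link0_eq h hj).2.2]
      exact mul_le_mul_of_nonneg_left ((div_le_iff₀ pD).2 n3) pW'.le
    have := (Link0_gt h hi hi').2
    change _ < tB U D i
    rw [e0]
    linarith

end Pool.Agent.MP_92463a_gt
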