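import Pool.Agent.MP_92463a_gt.Link0
import Pool.Agent.MP_92463a_gt.Seg
import Pool.Agent.MP_92463a_gt.Cont
import Pool.Agent.MP_92463a_gt.Tool1

open Set Complex Filter Metric
open scoped Topology ComplexConjugate ContDiff Manifold

noncomputable section

namespace Pool.Agent.MP_92463a_gt

theorem Link1_int {f : ℝ → ℂ} (ℓ : ℂ →L[ℝ] ℝ) {φ : ℝ → ℝ} (k : ℝ)
    (h : ∀ θ ∈ Icc 0 Real.pi, ℓ (f θ) = k * φ θ) (h0 : ∫ θ in (0 : ℝ)..Real.pi, φ θ = 0) :
    ℓ (∫ θ in (0 : ℝ)..Real.pi, f θ) = 0 := by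
  by_cases hf : IntervalIntegrable f MeasureTheory.volume 0 Real.pi
  · rw [← ℓ.intervalIntegral_comp_comm hf,
      intervalIntegral.integral_congr (g := fun θ => k * φ θ)
        (fun θ hθ => h θ (by rwa [uIcc_of_le Real.pi_pos.le] at hθ)),
      intervalIntegral.integral_const_mul, h0, mul_zero]
  · rw [intervalIntegral.integral_undef hf, map_zero]

theorem Link1_pos {g j : ℕ} {U D : ℕ → ℝ} (h : Box g U D) (hj : j < g) : 0 < U j ∧ 0 < D j := by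
  obtain ⟨⟨h1, -⟩, h2, -⟩ := h j hj
  have key : ∀ a b, 0 < dLo a b := fun a b => by
    cases a <;> cases b <;> norm_num [dLo]
  exact ⟨(key _ _).trans_le h2, (key _ _).trans_le h1⟩

theorem Link1_even {G Γ w T s s' : ℂ} {ε : ℝ} (hε : ε = 1 ∨ ε = -1) (hT : T ≠ 0) (hs : s ≠ 0)
    (hΓ : Γ ≠ 0) (hw : w = s' / s) (hG : G = ε * (I * Γ)) :
    (G / (T * s) * (T * s') - conj ((G * (T * s))⁻¹ * (T * s'))).re =
      -ε * (Γ * w + Γ⁻¹ * w).im := by
  have h1 : G / (T * s) * (T * s') = ε * (I * (Γ * w)) := by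
    rw [hG, hw]
    field_simp
  have h2 : (G * (T * s))⁻¹ * (T * s') = ε * (-I * (Γ⁻¹ * w)) := by
    rw [hG, hw]
    rcases hε with rfl | rfl
    · push_cast
      field_simp
      rw [I_sq]
      ring
    · push_cast
      field_simp
      rw [I_sq]
      ring
  rw [h1, h2]
  generalize Γ * w = A
  generalize Γ⁻¹ * w = B
  simp
  ring

theorem Link1_odd {G Γ w T s s' : ℂ} {ε : ℝ} (hε : ε = 1 ∨ ε = -1) (hT : T ≠ 0) (hs : s ≠ 0)
    (hΓ : Γ ≠ 0) (hw : w = s' / s) (hG : G = ε * Γ⁻¹) :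
    (G / (T * s) * (T * s') - conj ((G * (T * s))⁻¹ * (T * s'))).im =
      ε * (Γ * w + Γ⁻¹ * w).im := by
  have h1 : G / (T * s) * (T * s') = ε * (Γ⁻¹ * w) := by
    rw [hG, hw]
    field_simp
  have h2 : (G * (T * s))⁻¹ * (T * s') = ε * (Γ * w) := by
    rw [hG, hw]
    rcases hε with rfl | rfl
    · push_cast
      field_simp
    · push_cast
      field_simp
  rw [h1, h2]
  generalize Γ * w = A
  generalize Γ⁻¹ * w = B
  simp
  ring

theorem Link1_im {s Y L β : ℂ} {u d l r δ : ℝ} (hd : d ≠ 0) (hl : l ≠ 0) (hδ : δ ≠ 0)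
    (hll : l ^ 2 = u ^ 2 / d) (hs : s ≠ 0) (hb : s + β ≠ 0) (hY0 : Y ≠ 0)
    (hY : Y ^ 2 = s * (s - 1) * (s + β)) :
    (l * (s + β) ^ 2 / Y * exp L * (I * ((r / δ : ℝ) : ℂ) * Y / s) +
      (l * (s + β) ^ 2 / Y * exp L)⁻¹ * (I * ((r / δ : ℝ) : ℂ) * Y / s)).im =
      r / (l * d) * (((u : ℂ) ^ 2 * ((s + β) ^ 2 / s * exp L) +
        (d : ℂ) * ((s - 1) / (s + β) * exp (-L))).re / δ) := by
  have hd' : (d : ℂ) ≠ 0 := by exact_mod_cast hd
  have hl' : (l : ℂ) ≠ 0 := by exact_mod_cast hl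
  have hδ' : (δ : ℂ) ≠ 0 := by exact_mod_cast hδ
  have he : exp L ≠ 0 := exp_ne_zero L
  have hu : (u : ℂ) ^ 2 = (l : ℂ) ^ 2 * d := by
    have : u ^ 2 = l ^ 2 * d := by rw [hll, div_mul_cancel₀ _ hd]
    exact_mod_cast this
  have h1 : l * (s + β) ^ 2 / Y * exp L * (I * ((r / δ : ℝ) : ℂ) * Y / s) +
      (l * (s + β) ^ 2 / Y * exp L)⁻¹ * (I * ((r / δ : ℝ) : ℂ) * Y / s) =
      ((r / (l * d) / δ : ℝ) : ℂ) * (I * ((u : ℂ) ^ 2 * ((s + β) ^ 2 / s * exp L) +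
        (d : ℂ) * ((s - 1) / (s + β) * exp (-L)))) := by
    rw [hu, exp_neg]
    push_cast
    field_simp
    rw [hY]
    ring
  rw [h1, im_ofReal_mul, I_mul_im]
  ring

theorem Link1_sq {s Y L β : ℂ} {l : ℝ} (hs : s ≠ 0) (hs1 : s - 1 ≠ 0) (hb : s + β ≠ 0)
    (hY : Y ^ 2 = s * (s - 1) * (s + β)) :
    (l * (s + β) ^ 2 / Y * exp L) ^ 2 =
      ((l ^ 2 : ℝ) : ℂ) * ((s + β) ^ 3 / (s * (s - 1))) * exp L ^ 2 := by
  rw [mul_pow, div_pow, hY]
  push_cast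
  field_simp

theorem Link1_sign {G V : ℝ → ℂ} (hG : ContinuousOn G (Icc 0 Real.pi))
    (hV : ContinuousOn V (Icc 0 Real.pi)) (hne : ∀ θ ∈ Icc 0 Real.pi, V θ ≠ 0)
    (hsq : ∀ θ ∈ Icc 0 Real.pi, G θ ^ 2 = V θ ^ 2) :
    ∃ ε : ℝ, (ε = 1 ∨ ε = -1) ∧ ∀ θ ∈ Icc 0 Real.pi, G θ = ε * V θ := by
  rcases sign_const isPreconnected_Icc hG hV hne hsq with h | h
  · exact ⟨1, Or.inl rfl, fun θ hθ => by rw [h θ hθ]; simp⟩
  · exact ⟨-1, Or.inr rfl, fun θ hθ => by rw [h θ hθ]; simp⟩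

theorem Box.link_down {g j : ℕ} {U D : ℕ → ℝ} {X : ℂ → ℂ} (h : Box g U D) (hj : j < g)
    (hX : (tw g U D).Pre X) (h0 : Per (U j) (D j) (Ld g U D j) = 0) :
    ∃ x x', (tw g U D).InA (j + 1) x ∧ (tw g U D).InB j x' ∧
      (tw g U D).cst X x = (tw g U D).cst X x' := by
  obtain ⟨hu, hd⟩ := Link1_pos h hj
  have hok := h.ok (Nat.zero_lt_of_lt hj)
  obtain ⟨hA, hB⟩ := h.in_down hj
  have hL := Ld_cont h hj
  have hT : 0 < tA U D j := hok.a_pos j hj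
  have hT' : (tA U D j : ℂ) ≠ 0 := by exact_mod_cast hT.ne'
  have hp0 : 0 < U j / (U j + D j) := by positivity
  have hp1 : U j / (U j + D j) < 1 := by
    rw [div_lt_one (by positivity)]
    linarith
  have hβ : (1 - U j / (U j + D j)) / (U j / (U j + D j)) = D j / U j := by
    field_simp
    ring
  unfold Per Av at h0
  generalize U j / (U j + D j) = p at *
  have sA := (hok.sign_pos (k := j + 1) hA.1 hj hA.2.1 hA.2.2).1
  have sB := (hok.sign_neg hB.1 hj.le hB.2.1 hB.2.2).1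
  refine ⟨_, _, hA, hB, ?_⟩
  have e0 : (tA U D j : ℂ) * sc p 0 = ((tA U D j * (1 + 1 / √p) : ℝ) : ℂ) := by
    rw [sc_zero hp0 hp1, ofReal_mul]
  have e1 : (tA U D j : ℂ) * sc p Real.pi = ((tA U D j * (1 - 1 / √p) : ℝ) : ℂ) := by
    rw [sc_pi hp0 hp1, ofReal_mul]
  generalize tA U D j * (1 + 1 / √p) = x at *
  generalize tA U D j * (1 - 1 / √p) = x' at *
  have hin : ∀ θ ∈ Ioo 0 Real.pi, 0 < ((tA U D j : ℂ) * sc p θ).im := fun θ hθ => by
    rw [im_ofReal_mul]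
    exact mul_pos hT (sc_im hp0 hp1 hθ)
  have hP : ∀ θ ∈ Icc 0 Real.pi, 0 ≤ ((tA U D j : ℂ) * sc p θ).im ∧
      (tw g U D).P ((tA U D j : ℂ) * sc p θ) ≠ 0 := by
    intro θ hθ
    rcases hθ.1.eq_or_lt with rfl | h1
    · rw [e0]
      refine ⟨(ofReal_im _).ge, fun h2 => ?_⟩
      rw [h2, zero_re, mul_zero] at sA
      exact lt_irrefl _ sA
    rcases hθ.2.eq_or_lt with rfl | h2
    · rw [e1]
      refine ⟨(ofReal_im _).ge, fun h2 => ?_⟩
      rw [h2, zero_re, mul_zero] at sB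
      exact lt_irrefl _ sB
    · exact ⟨(hin θ ⟨h1, h2⟩).le, Dat.ne_of_im (hin θ ⟨h1, h2⟩).ne'⟩
  have cs : Continuous (sc p) :=
    continuous_iff_continuousAt.2 fun θ => (sc_der hp0 hp1 θ).continuousAt
  have cY : Continuous (Yc p) :=
    continuous_iff_continuousAt.2 fun θ => (Yc_der hp0 hp1 θ).continuousAt
  have cD : Continuous (Dl p) := Dl_cont.comp (continuous_const.prodMk continuous_id)
  have cc : Continuous fun θ => √p / Dl p θ :=
    continuous_const.div cD fun θ => (Dl_pos hp0 hp1 θ).ne'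
  have hpath := hX.path hok (γ := fun θ => (tA U D j : ℂ) * sc p θ)
    (γ' := fun θ => (tA U D j : ℂ) * (I * ((√p / Dl p θ : ℝ) : ℂ) * Yc p θ))
    (fun θ _ => (sc_der hp0 hp1 θ).const_mul _)
    (continuous_const.mul ((continuous_const.mul (continuous_ofReal.comp cc)).mul cY)).continuousOn
    hin hP
  simp only [e0, e1] at hpath
  have hl : 0 < √(U j ^ 2 / D j) := Real.sqrt_pos.2 (by positivity)
  have hll : √(U j ^ 2 / D j) ^ 2 = U j ^ 2 / D j := Real.sq_sqrt (by positivity)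
  generalize √(U j ^ 2 / D j) = l at *
  have hne := sc_ne hp0 hp1
  have hY := Yc_sq hp0 hp1
  rw [hβ] at hne hY
  set Γ : ℝ → ℂ := fun θ => l * (sc p θ + (D j / U j : ℝ)) ^ 2 / Yc p θ * exp (Ld g U D j (sc p θ))
    with hΓ
  have Γ0 : ∀ θ, Γ θ ≠ 0 := fun θ =>
    mul_ne_zero (div_ne_zero (mul_ne_zero (by exact_mod_cast hl.ne')
      (pow_ne_zero _ (hne θ).2.2.1)) (hne θ).2.2.2) (exp_ne_zero _)
  have cΓ : ContinuousOn Γ (Icc 0 Real.pi) :=
    (((continuous_const.mul ((cs.add continuous_const).pow 2)).div cY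
      fun θ => (hne θ).2.2.2).continuousOn).mul hL.cexp
  have cG : ContinuousOn (fun θ => (tw g U D).G ((tA U D j : ℂ) * sc p θ)) (Icc 0 Real.pi) :=
    Dat.G_cont.comp (continuous_const.mul cs).continuousOn hP
  have hsq : ∀ θ ∈ Icc 0 Real.pi, (tw g U D).G ((tA U D j : ℂ) * sc p θ) ^ 2 =
      if Even j then -Γ θ ^ 2 else (Γ θ ^ 2)⁻¹ := fun θ hθ =>
    h.G_sq hj (hP θ hθ).2 (by
      rw [← hll]
      exact Link1_sq (hne θ).1 (hne θ).2.1 (hne θ).2.2.1 (hY θ))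
  have him := fun θ => Link1_im (L := Ld g U D j (sc p θ)) (r := √p) hd.ne' hl.ne'
    (Dl_pos hp0 hp1 θ).ne' hll (hne θ).1 (hne θ).2.2.1 (hne θ).2.2.2 (hY θ)
  unfold Dat.cst
  by_cases hev : Even j
  · obtain ⟨ε, hε, hG⟩ := Link1_sign cG (V := fun θ => I * Γ θ) (continuousOn_const.mul cΓ)
      (fun θ _ => mul_ne_zero I_ne_zero (Γ0 θ)) fun θ hθ => by
        rw [hsq θ hθ, if_pos hev, mul_pow I, I_sq, neg_one_mul]
    rw [sg, hev.add_one.neg_one_pow] at sA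
    rw [sg, hev.neg_one_pow] at sB
    rw [if_neg (by linarith), if_neg (by linarith)]
    have key := Link1_int (f := fun θ => _ - conj _) reCLM (-ε * (√p / (l * D j))) (fun θ hθ => by
      rw [reCLM_apply, Link1_even hε hT' (hne θ).1 (Γ0 θ) rfl (hG θ hθ), him θ, mul_assoc]) h0
    rw [← hpath, reCLM_apply, sub_re] at key
    linarith
  · obtain ⟨ε, hε, hG⟩ := Link1_sign cG (V := fun θ => (Γ θ)⁻¹) (cΓ.inv₀ fun θ _ => Γ0 θ)
      (fun θ _ => inv_ne_zero (Γ0 θ)) fun θ hθ => by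
        rw [hsq θ hθ, if_neg hev, inv_pow]
    have hod : Odd j := Nat.not_even_iff_odd.1 hev
    rw [sg, hod.add_one.neg_one_pow] at sA
    rw [sg, hod.neg_one_pow] at sB
    rw [if_pos (by linarith), if_pos (by linarith)]
    have key := Link1_int (f := fun θ => _ - conj _) imCLM (ε * (√p / (l * D j))) (fun θ hθ => by
      rw [imCLM_apply, Link1_odd hε hT' (hne θ).1 (Γ0 θ) rfl (hG θ hθ), him θ, mul_assoc]) h0
    rw [← hpath, imCLM_apply, sub_im] at key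
    linarith

end Pool.Agent.MP_92463a_gt
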