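import Pool.Agent.MP_92463a_gt.Link0
import Pool.Agent.MP_92463a_gt.Seg
import Pool.Agent.MP_92463a_gt.Cont
import Pool.Agent.MP_92463a_gt.Tool1

open Set Complex Filter Metric
open scoped Topology ComplexConjugate ContDiff Manifold

noncomputable section

namespace Pool.Agent.MP_92463a_gt

theorem Link2_int (f : ℝ → ℂ) (ℓ : ℂ →L[ℝ] ℝ) {a b : ℝ} (h : ∫ θ in a..b, ℓ (f θ) = 0) :
    ℓ (∫ θ in a..b, f θ) = 0 := by
  by_cases hf : IntervalIntegrable f MeasureTheory.volume a b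
  · rw [← ℓ.intervalIntegral_comp_comm hf, h]
  · rw [intervalIntegral.integral_undef hf, map_zero]

theorem Link2_even {Γ w γ : ℂ} (ε : ℝ) (hε : ε * ε = 1) (hγ : γ ≠ 0) :
    ((ε * conj Γ) / γ * -(γ * conj w) - conj (((ε * conj Γ) * γ)⁻¹ * -(γ * conj w))).im =
      ε * (Γ * w + w / Γ).im := by
  have h1 : (ε : ℂ)⁻¹ = ε := inv_eq_of_mul_eq_one_left (by exact_mod_cast hε)
  have e1 : (ε * conj Γ) / γ * -(γ * conj w) = -(ε * conj (Γ * w)) := by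
    rw [map_mul]
    field_simp
  have e2 : ((ε * conj Γ) * γ)⁻¹ * -(γ * conj w) = -(ε * conj (w / Γ)) := by
    rw [mul_inv, mul_inv, h1, map_div₀, div_eq_mul_inv]
    generalize (conj Γ)⁻¹ = c
    field_simp
  rw [e1, e2]
  generalize w / Γ = z
  generalize Γ * w = z'
  simp
  ring

theorem Link2_odd {Γ w γ : ℂ} (ε : ℝ) (hε : ε * ε = 1) (hγ : γ ≠ 0) :
    ((ε * (I / conj Γ)) / γ * -(γ * conj w) -
      conj (((ε * (I / conj Γ)) * γ)⁻¹ * -(γ * conj w))).re = -ε * (Γ * w + w / Γ).im := by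
  have h1 : (ε : ℂ)⁻¹ = ε := inv_eq_of_mul_eq_one_left (by exact_mod_cast hε)
  have e1 : (ε * (I / conj Γ)) / γ * -(γ * conj w) = -(ε * (I * conj (w / Γ))) := by
    rw [map_div₀, div_eq_mul_inv I, div_eq_mul_inv (conj w)]
    generalize (conj Γ)⁻¹ = c
    field_simp
  have e2 : ((ε * (I / conj Γ)) * γ)⁻¹ * -(γ * conj w) = ε * (I * conj (Γ * w)) := by
    rw [mul_inv, mul_inv, h1, inv_div, div_eq_mul_inv, inv_I, map_mul]
    field_simp
  rw [e1, e2]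
  generalize w / Γ = z
  generalize Γ * w = z'
  simp
  ring

theorem Link2_main {T : Dat} {X : ℂ → ℂ} (hT : T.Ok) (hX : T.Pre X) {γ w Γ : ℝ → ℂ}
    (hγ : ∀ θ, HasDerivAt γ (-(γ θ * conj (w θ))) θ) (hw : Continuous w) (hγ0 : ∀ θ, γ θ ≠ 0)
    (hin : ∀ θ ∈ Ioo 0 Real.pi, 0 < (γ θ).im)
    (hP : ∀ θ ∈ Icc 0 Real.pi, 0 ≤ (γ θ).im ∧ T.P (γ θ) ≠ 0)
    (hΓ : ContinuousOn Γ (Icc 0 Real.pi)) (hne : ∀ θ, Γ θ ≠ 0)
    (h0 : ∫ θ in (0 : ℝ)..Real.pi, (Γ θ * w θ + w θ / Γ θ).im = 0) :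
    ((∀ θ ∈ Icc 0 Real.pi, T.G (γ θ) ^ 2 = conj (Γ θ) ^ 2) →
      (X (γ 0)).im = (X (γ Real.pi)).im) ∧
    ((∀ θ ∈ Icc 0 Real.pi, T.G (γ θ) ^ 2 = (I / conj (Γ θ)) ^ 2) →
      (X (γ 0)).re = (X (γ Real.pi)).re) := by
  have cγ : Continuous γ := continuous_iff_continuousAt.mpr fun θ => (hγ θ).continuousAt
  have path := hX.path hT (fun θ _ => hγ θ)
    (cγ.mul (continuous_conj.comp hw)).neg.continuousOn hin hP
  have cG : ContinuousOn (fun θ => T.G (γ θ)) (Icc 0 Real.pi) :=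
    Dat.G_cont.comp cγ.continuousOn hP
  have cΓ : ContinuousOn (fun θ => conj (Γ θ)) (Icc 0 Real.pi) :=
    continuous_conj.comp_continuousOn hΓ
  have hne' : ∀ θ, conj (Γ θ) ≠ 0 := fun θ => (map_ne_zero _).mpr (hne θ)
  have sgn : ∀ v : ℝ → ℂ, ContinuousOn v (Icc 0 Real.pi) → (∀ θ, v θ ≠ 0) →
      (∀ θ ∈ Icc 0 Real.pi, T.G (γ θ) ^ 2 = v θ ^ 2) →
      ∃ ε : ℝ, ε * ε = 1 ∧ ∀ θ ∈ uIcc 0 Real.pi, T.G (γ θ) = ε * v θ := fun v hv h1 h2 => by
    rw [uIcc_of_le Real.pi_pos.le]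
    rcases sign_const isPreconnected_Icc cG hv (fun θ _ => h1 θ) h2 with h | h
    · exact ⟨1, by norm_num, fun θ hθ => by rw [h θ hθ]; simp⟩
    · exact ⟨-1, by norm_num, fun θ hθ => by rw [h θ hθ]; simp⟩
  constructor
  · intro h
    obtain ⟨ε, hε, he⟩ := sgn _ cΓ hne' h
    have := Link2_int imCLM (a := 0) (b := Real.pi) (f := fun θ =>
      T.G (γ θ) / γ θ * -(γ θ * conj (w θ)) -
        conj ((T.G (γ θ) * γ θ)⁻¹ * -(γ θ * conj (w θ)))) (by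
      rw [intervalIntegral.integral_congr (g := fun θ => ε * (Γ θ * w θ + w θ / Γ θ).im)
        fun θ hθ => by
          beta_reduce
          rw [imCLM_apply, he θ hθ, Link2_even ε hε (hγ0 θ)],
        intervalIntegral.integral_const_mul, h0, mul_zero])
    rw [← path, imCLM_apply, sub_im] at this
    linarith
  · intro h
    obtain ⟨ε, hε, he⟩ := sgn (fun θ => I / conj (Γ θ))
      (continuousOn_const.div cΓ fun θ _ => hne' θ)
      (fun θ => div_ne_zero I_ne_zero (hne' θ)) h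
    have := Link2_int reCLM (a := 0) (b := Real.pi) (f := fun θ =>
      T.G (γ θ) / γ θ * -(γ θ * conj (w θ)) -
        conj ((T.G (γ θ) * γ θ)⁻¹ * -(γ θ * conj (w θ)))) (by
      rw [intervalIntegral.integral_congr (g := fun θ => -ε * (Γ θ * w θ + w θ / Γ θ).im)
        fun θ hθ => by
          beta_reduce
          rw [reCLM_apply, he θ hθ, Link2_odd ε hε (hγ0 θ)],
        intervalIntegral.integral_const_mul, h0, mul_zero])
    rw [← path, reCLM_apply, sub_re] at this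
    linarith

theorem Link2_alg {σ Y L β : ℂ} {κ l u d : ℝ} (hu : u ≠ 0) (hl : l ≠ 0) (hl2 : l ^ 2 * u = d ^ 2)
    (h1 : σ ≠ 0) (h2 : σ + β ≠ 0) (h3 : Y ≠ 0) (hY : Y ^ 2 = σ * (σ - 1) * (σ + β)) :
    (l * (σ + β) ^ 2 / Y * exp L * (I * κ * Y / σ) +
      I * κ * Y / σ / (l * (σ + β) ^ 2 / Y * exp L)).im =
      κ / (l * u) * ((d : ℂ) ^ 2 * ((σ + β) ^ 2 / σ * exp L) +
        (u : ℂ) * ((σ - 1) / (σ + β) * exp (-L))).re := by
  have hu' : (u : ℂ) ≠ 0 := ofReal_ne_zero.mpr hu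
  have hl' : (l : ℂ) ≠ 0 := ofReal_ne_zero.mpr hl
  have hd : (d : ℂ) ^ 2 = l ^ 2 * u := by exact_mod_cast hl2.symm
  have hE := exp_ne_zero L
  have e : l * (σ + β) ^ 2 / Y * exp L * (I * κ * Y / σ) +
      I * κ * Y / σ / (l * (σ + β) ^ 2 / Y * exp L) =
      I * (((κ / (l * u) : ℝ) : ℂ) * ((d : ℂ) ^ 2 * ((σ + β) ^ 2 / σ * exp L) +
        (u : ℂ) * ((σ - 1) / (σ + β) * exp (-L)))) := by
    rw [exp_neg, hd]
    push_cast
    field_simp
    rw [hY]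
    ring
  rw [e, I_mul_im, re_ofReal_mul]

theorem Link2_sq {τ Y E : ℂ} {l u d : ℝ} (hu : u ≠ 0) (hd : d ≠ 0) (hl2 : l ^ 2 * u = d ^ 2)
    (h1 : τ ≠ 0) (h2 : τ + (u / d : ℝ) ≠ 0) (h3 : τ - 1 ≠ 0)
    (hY : Y ^ 2 = τ * (τ - 1) * (τ + (u / d : ℝ))) :
    (-I * (l * (τ + (u / d : ℝ)) ^ 2 / Y * E)) ^ 2 =
      ((u ^ 2 / d : ℝ) : ℂ) * ((τ⁻¹ + (d / u : ℝ)) ^ 3 / (τ⁻¹ * (τ⁻¹ - 1))) * E ^ 2 := by
  have hu' : (u : ℂ) ≠ 0 := ofReal_ne_zero.mpr hu
  have hd' : (d : ℂ) ≠ 0 := ofReal_ne_zero.mpr hd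
  have hl : (l : ℂ) ^ 2 = d ^ 2 / u := by
    rw [eq_div_iff hu']
    exact_mod_cast hl2
  have e1 : τ⁻¹ + (d / u : ℝ) = d / u * (τ + (u / d : ℝ)) / τ := by
    push_cast
    field_simp
    ring
  have e2 : τ⁻¹ * (τ⁻¹ - 1) = -(τ - 1) / τ ^ 2 := by
    field_simp
    ring
  rw [e1, e2, mul_pow, mul_pow, div_pow, mul_pow, hY, hl, neg_sq, I_sq]
  generalize τ + (u / d : ℝ) = z at h2
  generalize τ - 1 = y at h3
  push_cast
  field_simp

theorem Box.link_up {g j : ℕ} {U D : ℕ → ℝ} {X : ℂ → ℂ} (h : Box g U D) (hj : j < g)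
    (hX : (tw g U D).Pre X) (h0 : Per (D j) (U j) (Lu g U D j) = 0) :
    ∃ x x', (tw g U D).InA j x ∧ (tw g U D).InB (j + 1) x' ∧
      (tw g U D).cst X x = (tw g U D).cst X x' := by
  have hb := (h j hj).symm
  obtain ⟨b1, -, b2, -, b3, b4⟩ := hb.bd
  have harg := hb.arg
  obtain ⟨hA, hB⟩ := h.in_up hj
  have hT := h.ok (by omega)
  have cL := Lu_cont h hj
  have hsq := fun {s Γ : ℂ} => h.G_sq hj (s := s) (Γ := Γ)
  have hLd : ∀ θ, Ld g U D j (conj (sc (D j / (D j + U j)) θ))⁻¹ =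
      conj (Lu g U D j (sc (D j / (D j + U j)) θ)) := fun θ => by
    rw [Ld, Lu, map_add, ← fld_conj (h.upp hj) fun _ => (harg θ).1,
      ← fld_conj (h.low hj) fun h0 => (harg θ).2 (decide_eq_true h0), add_comm, map_mul, map_div₀,
      conj_ofReal, conj_ofReal, div_inv_eq_mul, div_eq_mul_inv ((U j ^ 2 / D j : ℝ) : ℂ)]
  have ha : 0 < tA U D j := hT.a_pos j hj
  rw [Per, Av] at h0
  generalize Ld g U D j = L₁ at hsq hLd
  generalize Lu g U D j = L at h0 cL hLd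
  generalize tA U D j = a at hA hB hsq ha
  generalize U j = u at *
  generalize D j = d at *
  have hu : 0 < u := by linarith
  have hd : 0 < d := by linarith
  have hβ : (1 - d / (d + u)) / (d / (d + u)) = u / d := by
    field_simp
    ring
  have p0 : 0 < d / (d + u) := by linarith
  have p1 : d / (d + u) < 1 := by linarith
  generalize d / (d + u) = p at *
  obtain ⟨l, hl, hl2⟩ : ∃ l : ℝ, 0 < l ∧ l ^ 2 * u = d ^ 2 :=
    ⟨√(d ^ 2 / u), by positivity, by rw [Real.sq_sqrt (by positivity)]; field_simp⟩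
  have hne := sc_ne p0 p1
  have hY := Yc_sq p0 p1
  rw [hβ] at hne hY
  have cs : Continuous (sc p) := continuous_iff_continuousAt.mpr fun θ =>
    (sc_der p0 p1 θ).continuousAt
  have cY : Continuous (Yc p) := continuous_iff_continuousAt.mpr fun θ =>
    (Yc_der p0 p1 θ).continuousAt
  have cD : Continuous (Dl p) := Dl_cont.comp (continuous_const.prodMk continuous_id)
  have hc : ∀ θ, conj (sc p θ) ≠ 0 := fun θ => (map_ne_zero _).mpr (hne θ).1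
  have a0 : (a : ℂ) ≠ 0 := ofReal_ne_zero.mpr ha.ne'
  have e0 : (a : ℂ) * (conj (sc p 0))⁻¹ = ((a / (1 + 1 / √p) : ℝ) : ℂ) := by
    rw [sc_zero p0 p1, conj_ofReal, ofReal_div a, div_eq_mul_inv (a : ℂ)]
  have e1 : (a : ℂ) * (conj (sc p Real.pi))⁻¹ = ((a / (1 - 1 / √p) : ℝ) : ℂ) := by
    rw [sc_pi p0 p1, conj_ofReal, ofReal_div a, div_eq_mul_inv (a : ℂ)]
  have sA := (hT.sign_pos hA.1 hj.le hA.2.1 hA.2.2).1
  have sB := (hT.sign_neg hB.1 hj hB.2.1 hB.2.2).1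
  have hin : ∀ θ ∈ Ioo 0 Real.pi, 0 < ((a : ℂ) * (conj (sc p θ))⁻¹).im := fun θ hθ => by
    rw [im_ofReal_mul, inv_im, conj_im, neg_neg]
    exact mul_pos ha (div_pos (sc_im p0 p1 hθ) (normSq_pos.mpr (hc θ)))
  have hP : ∀ θ ∈ Icc 0 Real.pi, 0 ≤ ((a : ℂ) * (conj (sc p θ))⁻¹).im ∧
      (tw g U D).P ((a : ℂ) * (conj (sc p θ))⁻¹) ≠ 0 := fun θ hθ => by
    rcases hθ.1.eq_or_lt with rfl | h1
    · rw [e0]
      exact ⟨(ofReal_im _).ge, fun h2 => by rw [h2] at sA; simp at sA⟩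
    rcases hθ.2.eq_or_lt with rfl | h2
    · rw [e1]
      exact ⟨(ofReal_im _).ge, fun h2 => by rw [h2] at sB; simp at sB⟩
    exact ⟨(hin θ ⟨h1, h2⟩).le, Dat.ne_of_im (hin θ ⟨h1, h2⟩).ne'⟩
  have hΓ : ∀ θ, (l : ℂ) * (sc p θ + (u / d : ℝ)) ^ 2 / Yc p θ * exp (L (sc p θ)) ≠ 0 := fun θ =>
    mul_ne_zero (div_ne_zero (mul_ne_zero (ofReal_ne_zero.mpr hl.ne')
      (pow_ne_zero _ (hne θ).2.2.1)) (hne θ).2.2.2) (exp_ne_zero _)
  obtain ⟨m1, m2⟩ := Link2_main hT hX (γ := fun θ => (a : ℂ) * (conj (sc p θ))⁻¹)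
    (w := fun θ => I * ((√p / Dl p θ : ℝ) : ℂ) * Yc p θ / sc p θ)
    (Γ := fun θ => (l : ℂ) * (sc p θ + (u / d : ℝ)) ^ 2 / Yc p θ * exp (L (sc p θ)))
    (fun θ => by
      refine (((sc_der p0 p1 θ).star.fun_inv (hc θ)).const_mul (a : ℂ)).congr_deriv ?_
      have := hc θ
      rw [map_div₀]
      simp only [star_def]
      field_simp)
    (((continuous_const.mul (continuous_ofReal.comp
      (continuous_const.div cD fun θ => (Dl_pos p0 p1 θ).ne'))).mul cY).div cs fun θ => (hne θ).1)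
    (fun θ => mul_ne_zero a0 (inv_ne_zero (hc θ))) hin hP
    ((((continuous_const.mul ((cs.add continuous_const).pow 2)).div cY
      fun θ => (hne θ).2.2.2).continuousOn).mul cL.cexp) hΓ (by
      rw [intervalIntegral.integral_congr (g := fun θ => √p / (l * u) *
        (((d : ℂ) ^ 2 * ((sc p θ + (u / d : ℝ)) ^ 2 / sc p θ * exp (L (sc p θ))) +
          (u : ℂ) * ((sc p θ - 1) / (sc p θ + (u / d : ℝ)) * exp (-L (sc p θ)))).re / Dl p θ))
        fun θ _ => by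
          beta_reduce
          rw [Link2_alg hu.ne' hl.ne' hl2 (hne θ).1 (hne θ).2.2.1 (hne θ).2.2.2 (hY θ)]
          ring,
        intervalIntegral.integral_const_mul, h0, mul_zero])
  have hG : ∀ θ ∈ Icc 0 Real.pi, (tw g U D).G ((a : ℂ) * (conj (sc p θ))⁻¹) ^ 2 =
      if Even j then -(-I * conj ((l : ℂ) * (sc p θ + (u / d : ℝ)) ^ 2 / Yc p θ *
        exp (L (sc p θ)))) ^ 2 else ((-I * conj ((l : ℂ) * (sc p θ + (u / d : ℝ)) ^ 2 / Yc p θ *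
        exp (L (sc p θ)))) ^ 2)⁻¹ := fun θ hθ => by
    refine hsq (hP θ hθ).2 ?_
    have q1 : conj (sc p θ + (u / d : ℝ)) = conj (sc p θ) + (u / d : ℝ) := by
      rw [map_add, conj_ofReal]
    have q2 : conj (sc p θ - 1) = conj (sc p θ) - 1 := by rw [map_sub, map_one]
    rw [hLd, exp_conj, map_mul, map_div₀, map_mul, map_pow, conj_ofReal, q1]
    refine Link2_sq hu.ne' hd.ne' hl2 (hc θ) ?_ ?_ ?_
    · rw [← q1]
      exact (map_ne_zero _).mpr (hne θ).2.2.1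
    · rw [← q2]
      exact (map_ne_zero _).mpr (hne θ).2.1
    · rw [← map_pow, hY, map_mul, map_mul, q1, q2]
  refine ⟨_, _, hA, hB, ?_⟩
  rw [e0, e1] at m1 m2
  rw [sg, pow_succ] at sB
  rw [sg] at sA
  rcases Nat.even_or_odd j with hj' | hj'
  · rw [hj'.neg_one_pow] at sA sB
    rw [Dat.cst, Dat.cst, if_pos (by linarith), if_pos (by linarith)]
    refine m1 fun θ hθ => ?_
    rw [hG θ hθ, if_pos hj', mul_pow, neg_sq, I_sq, neg_one_mul, neg_neg]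
  · rw [hj'.neg_one_pow] at sA sB
    rw [Dat.cst, Dat.cst, if_neg (by linarith), if_neg (by linarith)]
    refine m2 fun θ hθ => ?_
    rw [hG θ hθ, if_neg (Nat.not_even_iff_odd.mpr hj'), mul_pow, neg_sq, div_pow, I_sq,
      neg_one_mul, inv_neg, neg_div, one_div]

end Pool.Agent.MP_92463a_gt
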