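import Pool.Agent.MP_92463a_gt.Form
import Pool.Agent.MP_92463a_gt.Tool2

open Set Complex Filter Metric
open scoped Topology ComplexConjugate ContDiff Manifold

noncomputable section

namespace Pool.Agent.MP_92463a_gt

theorem PreEx_core {U φ : ℂ → ℂ} {δ : ℝ} (hδ : 0 < δ) {s : Set ℂ} (hs : IsOpen s)
    (hc : Convex ℝ s) (hφ : DifferentiableOn ℂ φ (ball 0 δ))
    (hU : ∀ w ∈ ball (0 : ℂ) δ, w ∈ s → HasDerivAt U (φ w) w) :
    ∃ y, Tendsto U (𝓝[s] 0) (𝓝 y) := by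
  obtain ⟨Φ, hΦ⟩ := hφ.isExactOn_ball
  have ho : IsOpen (ball (0 : ℂ) δ ∩ s) := isOpen_ball.inter hs
  have hp : IsPreconnected (ball (0 : ℂ) δ ∩ s) :=
    ((convex_ball (0 : ℂ) δ).inter hc).isPreconnected
  obtain ⟨k, hk⟩ := ho.exists_eq_add_of_deriv_eq (f := U) (g := Φ) hp
    (fun w hw => (hU w hw.1 hw.2).differentiableAt.differentiableWithinAt)
    (fun w hw => (hΦ w hw.1).differentiableAt.differentiableWithinAt)
    (fun w hw => by rw [(hU w hw.1 hw.2).deriv, (hΦ w hw.1).deriv])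
  refine ⟨Φ 0 + k, ?_⟩
  have h1 : Tendsto (fun w => Φ w + k) (𝓝[s] 0) (𝓝 (Φ 0 + k)) :=
    (((hΦ 0 (mem_ball_self hδ)).continuousAt.tendsto).add_const k).mono_left nhdsWithin_le_nhds
  refine h1.congr' ?_
  filter_upwards [self_mem_nhdsWithin, mem_nhdsWithin_of_mem_nhds (ball_mem_nhds (0 : ℂ) hδ)]
    with w h1 h2
  exact (hk ⟨h2, h1⟩).symm

theorem PreEx_one {F f φ : ℂ → ℂ} (hF : ∀ t : ℂ, 0 < t.im → HasDerivAt F (f t) t) {x : ℂ}
    (hx : x.im = 0) {δ : ℝ} (hδ : 0 < δ) (hφ : DifferentiableOn ℂ φ (ball 0 δ))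
    (he : ∀ w ∈ ball (0 : ℂ) δ, 0 < w.im → φ w = f (x + w)) :
    ∃ y, Tendsto F (𝓝[{t : ℂ | 0 < t.im}] x) (𝓝 y) := by
  obtain ⟨y, hy⟩ := PreEx_core (U := fun w => F (x + w)) hδ
    (isOpen_lt continuous_const continuous_im) (convex_halfSpace_im_gt 0) hφ (fun w hw hs => by
      have h1 : 0 < (x + w).im := by
        have : 0 < w.im := hs
        simpa [hx] using this
      rw [he w hw hs]
      exact (hF _ h1).comp_const_add x w)
  refine ⟨y, ?_⟩
  have h2 : Tendsto (fun t : ℂ => t - x) (𝓝[{t : ℂ | 0 < t.im}] x)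
      (𝓝[{t : ℂ | 0 < t.im}] 0) := by
    refine tendsto_nhdsWithin_iff.2 ⟨?_, ?_⟩
    · have : Tendsto (fun t : ℂ => t - x) (𝓝 x) (𝓝 (x - x)) :=
        (continuous_id.sub continuous_const).tendsto x
      rw [sub_self] at this
      exact this.mono_left nhdsWithin_le_nhds
    · filter_upwards [self_mem_nhdsWithin] with t ht
      have : 0 < t.im := ht
      simpa [hx] using this
  refine (hy.comp h2).congr fun t => ?_
  simp

theorem PreEx_root (z : ℂ) : ∃ w : ℂ, w ^ 2 = z ∧ (0 < z.im → 0 < w.re ∧ 0 < w.im) := by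
  obtain ⟨w, hw⟩ : ∃ w : ℂ, w ^ 2 = z := ⟨_, cpow_nat_inv_pow z two_ne_zero⟩
  have him : z.im = 2 * (w.re * w.im) := by
    rw [← hw, pow_two, mul_im]; ring
  by_cases h : 0 < w.re
  · refine ⟨w, hw, fun hz => ⟨h, ?_⟩⟩
    have : 0 < w.re * w.im := by linarith
    exact (pos_iff_pos_of_mul_pos this).1 h
  · refine ⟨-w, by rw [neg_sq, hw], fun hz => ?_⟩
    have h0 : 0 < w.re * w.im := by linarith
    rcases mul_pos_iff.1 h0 with h1 | h1
    · exact absurd h1.1 h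
    · simp only [neg_re, neg_im]
      exact ⟨by linarith [h1.1], by linarith [h1.2]⟩

theorem PreEx_two {F f φ : ℂ → ℂ} (hF : ∀ t : ℂ, 0 < t.im → HasDerivAt F (f t) t) {x : ℂ}
    (hx : x.im = 0) {δ : ℝ} (hδ : 0 < δ) (hφ : DifferentiableOn ℂ φ (ball 0 δ))
    (he : ∀ w ∈ ball (0 : ℂ) δ, 0 < w.re → 0 < w.im → φ w = f (x + w ^ 2) * (2 * w)) :
    ∃ y, Tendsto F (𝓝[{t : ℂ | 0 < t.im}] x) (𝓝 y) := by
  obtain ⟨y, hy⟩ := PreEx_core (U := fun w => F (x + w ^ 2))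
    (s := {w : ℂ | 0 < w.re} ∩ {w : ℂ | 0 < w.im}) hδ
    ((isOpen_lt continuous_const continuous_re).inter (isOpen_lt continuous_const continuous_im))
    ((convex_halfSpace_re_gt 0).inter (convex_halfSpace_im_gt 0)) hφ (fun w hw hs => by
      have a1 : 0 < w.re := hs.1
      have a2 : 0 < w.im := hs.2
      have h1 : 0 < (x + w ^ 2).im := by
        rw [add_im, hx, pow_two, mul_im]
        positivity
      rw [he w hw a1 a2]
      have h2 : HasDerivAt (fun w : ℂ => x + w ^ 2) (2 * w) w := by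
        simpa using (hasDerivAt_pow 2 w).const_add x
      exact (hF _ h1).comp w h2)
  refine ⟨y, ?_⟩
  choose σ hσ hσ' using PreEx_root
  have h2 : Tendsto (fun t : ℂ => σ (t - x)) (𝓝[{t : ℂ | 0 < t.im}] x)
      (𝓝[{w : ℂ | 0 < w.re} ∩ {w : ℂ | 0 < w.im}] 0) := by
    refine tendsto_nhdsWithin_iff.2 ⟨?_, ?_⟩
    · rw [tendsto_zero_iff_norm_tendsto_zero]
      have h3 : Tendsto (fun t : ℂ => √‖t - x‖) (𝓝 x) (𝓝 (√‖x - x‖)) :=
        ((continuous_id.sub continuous_const).norm.sqrt).tendsto x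
      rw [sub_self, norm_zero, Real.sqrt_zero] at h3
      refine (h3.mono_left nhdsWithin_le_nhds).congr fun t => ?_
      rw [← hσ (t - x), norm_pow, Real.sqrt_sq (norm_nonneg _), hσ]
    · filter_upwards [self_mem_nhdsWithin] with t ht
      have : 0 < t.im := ht
      exact hσ' (t - x) (by simpa [hx] using this)
  refine (hy.comp h2).congr fun t => ?_
  simp [hσ]

theorem Dat.Ok.exists_pre {D : Dat} (hD : D.Ok) : ∃ X, D.Pre X := by
  have hne : ∀ t : ℂ, 0 < t.im → t ≠ 0 := fun t ht h => by simp [h] at ht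
  obtain ⟨F₁, hF₁⟩ := prim_upper (f := fun t => D.G t / t) (fun t ht =>
    ((Dat.G_diff ht).div differentiableAt_id (hne t ht)).differentiableWithinAt)
  obtain ⟨F₂, hF₂⟩ := prim_upper (f := fun t => (D.G t * t)⁻¹) (fun t ht =>
    (((Dat.G_diff ht).mul differentiableAt_id).inv
      (mul_ne_zero (Dat.G_ne t) (hne t ht))).differentiableWithinAt)
  have hop : IsOpen {t : ℂ | 0 < t.im} := isOpen_lt continuous_const continuous_im
  have hX : ∀ t : ℂ, 0 < t.im →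
      HasFDerivAt (fun w => F₁ w - conj (F₂ w)) (wl (D.G t / t) (D.G t * t)⁻¹) t :=
    fun t ht => hasFDerivAt_wl (hF₁ t ht) (hF₂ t ht)
  have hlim : ∀ x ∈ D.Q, (∃ y, Tendsto F₁ (𝓝[{t : ℂ | 0 < t.im}] x) (𝓝 y)) ∧
      ∃ y, Tendsto F₂ (𝓝[{t : ℂ | 0 < t.im}] x) (𝓝 y) := by
    intro x hx
    rcases hx.1.lt_or_eq with h | h
    · exact ⟨⟨_, (hF₁ x h).continuousAt.tendsto.mono_left nhdsWithin_le_nhds⟩,
        ⟨_, (hF₂ x h).continuousAt.tendsto.mono_left nhdsWithin_le_nhds⟩⟩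
    have h' : x.im = 0 := h.symm
    by_cases hP : D.P x = 0
    · have ha : D.IsA x := (Dat.P_eq_zero.1 hP).resolve_left hx.2
      obtain ⟨δ, g, H, hg⟩ := hD.par2 hP
      obtain ⟨φ₁, φ₂, d₁, d₂, -, -, e⟩ := H.formA hD ha
      have key : ∀ w ∈ ball (0 : ℂ) δ, 0 < w.re → 0 < w.im →
          w ≠ 0 ∧ w * g (w ^ 2) * D.R (x + w ^ 2) = D.G (x + w ^ 2) := by
        intro w hw a1 a2
        have h0 := hne w a2
        refine ⟨h0, ?_⟩
        rw [hg w hw h0 a1.le a2.le, hD.G_eq ((H.on hw).2 h0)]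
      exact ⟨PreEx_two hF₁ h' H.pos d₁ fun w hw a1 a2 => by
          rw [(e w hw (key w hw a1 a2).1).1, (key w hw a1 a2).2],
        PreEx_two hF₂ h' H.pos d₂ fun w hw a1 a2 => by
          rw [(e w hw (key w hw a1 a2).1).2, (key w hw a1 a2).2]⟩
    · have hxr : x = (x.re : ℂ) := by
        apply Complex.ext <;> simp [h']
      obtain ⟨δ, g, H, hg, -⟩ := Dat.par1_Y (D := D) (x₀ := x.re) (by rwa [← hxr])
      rw [← hxr] at H hg
      obtain ⟨d₁, d₂, e⟩ := H.form hD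
      have key : ∀ w ∈ ball (0 : ℂ) δ, 0 < w.im → g w * D.R (x + w) = D.G (x + w) := by
        intro w hw a2
        rw [hg w hw a2.le, hD.G_eq (e w hw).1]
      exact ⟨PreEx_one hF₁ h' H.pos d₁ fun w hw a2 => by rw [key w hw a2],
        PreEx_one hF₂ h' H.pos d₂ fun w hw a2 => by rw [key w hw a2]⟩
  refine ⟨extendFrom {t : ℂ | 0 < t.im} fun w => F₁ w - conj (F₂ w), ?_, ?_⟩
  · refine continuousOn_extendFrom ?_ ?_
    · intro x hx
      rw [closure_setOfPred_lt_im]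
      exact hx.1
    · intro x hx
      obtain ⟨⟨y₁, h₁⟩, ⟨y₂, h₂⟩⟩ := hlim x hx
      exact ⟨y₁ - conj y₂, h₁.sub ((continuous_conj.tendsto y₂).comp h₂)⟩
  · intro t ht
    refine (hX t ht).congr_of_eventuallyEq ?_
    filter_upwards [hop.mem_nhds ht] with w hw
    exact extendFrom_extends (fun v hv => (hX v hv).continuousAt.continuousWithinAt) w hw

end Pool.Agent.MP_92463a_gt
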