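import Pool.Agent.MP_efb2da_gt.Contract
import Pool.Agent.MP_92463a_gt.Cont

open Set Complex Filter Metric
open scoped Topology ComplexConjugate ContDiff Manifold

noncomputable section

namespace Pool.Agent.MP_92463a_gt

/-- the affine map of `[-1, 1]` onto `[dLo, dHi]` -/
def Zero_aff (lo up : Bool) (t : ℝ) : ℝ :=
  (dLo lo up + dHi lo up) / 2 + (dHi lo up - dLo lo up) / 2 * t

theorem Zero_le (lo up : Bool) : dLo lo up ≤ dHi lo up := by
  cases lo <;> cases up <;> simp only [dLo, dHi] <;> norm_num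

theorem Zero_mem (lo up : Bool) {t : ℝ} (ht : |t| ≤ 1) :
    Zero_aff lo up t ∈ Icc (dLo lo up) (dHi lo up) := by
  have h := Zero_le lo up
  obtain ⟨h1, h2⟩ := abs_le.mp ht
  unfold Zero_aff
  constructor <;> nlinarith

theorem Zero_one (lo up : Bool) : Zero_aff lo up 1 = dHi lo up := by
  unfold Zero_aff
  ring

theorem Zero_neg (lo up : Bool) : Zero_aff lo up (-1) = dLo lo up := by
  unfold Zero_aff
  ring

def Zero_D (g : ℕ) (z : Fin g × Bool → ℝ) (i : ℕ) : ℝ :=
  if h : i < g then Zero_aff (decide (0 < i)) (decide (i + 1 < g)) (z (⟨i, h⟩, false)) else 0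

def Zero_U (g : ℕ) (z : Fin g × Bool → ℝ) (i : ℕ) : ℝ :=
  if h : i < g then Zero_aff (decide (i + 1 < g)) (decide (0 < i)) (z (⟨i, h⟩, true)) else 0

theorem Zero_box (g : ℕ) {z : Fin g × Bool → ℝ} (hz : ∀ i, |z i| ≤ 1) :
    Box g (Zero_U g z) (Zero_D g z) := by
  intro i hi
  unfold Zero_U Zero_D
  rw [dif_pos hi, dif_pos hi]
  exact ⟨Zero_mem _ _ (hz _), Zero_mem _ _ (hz _)⟩

theorem Zero_cont (g : ℕ) :
    Continuous fun z : Fin g × Bool → ℝ => (Zero_U g z, Zero_D g z) := by
  refine Continuous.prodMk (continuous_pi fun i => ?_) (continuous_pi fun i => ?_)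
  · unfold Zero_U
    by_cases hi : i < g
    · simp only [dif_pos hi, Zero_aff]
      fun_prop
    · simp only [dif_neg hi]
      exact continuous_const
  · unfold Zero_D
    by_cases hi : i < g
    · simp only [dif_pos hi, Zero_aff]
      fun_prop
    · simp only [dif_neg hi]
      exact continuous_const

theorem Zero_face {g j : ℕ} {U D : ℕ → ℝ} (h : Box g U D) (hj : j < g) :
    ((D j = dLo (decide (0 < j)) (decide (j + 1 < g)) → Per (U j) (D j) (Ld g U D j) < 0) ∧
      (D j = dHi (decide (0 < j)) (decide (j + 1 < g)) → 0 < Per (U j) (D j) (Ld g U D j))) ∧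
    ((U j = dLo (decide (j + 1 < g)) (decide (0 < j)) → Per (D j) (U j) (Lu g U D j) < 0) ∧
      (U j = dHi (decide (j + 1 < g)) (decide (0 < j)) → 0 < Per (D j) (U j) (Lu g U D j))) := by
  obtain ⟨x, x2, hx⟩ := fld_cls (h.low hj)
  obtain ⟨y, y2, hy⟩ := fld_cls (h.upp hj)
  have e : decide (0 < g - 1 - j) = decide (j + 1 < g) := by
    rw [decide_eq_decide]
    omega
  rw [e] at hy
  exact ⟨per_face (h j hj) hx hy (fun _ => rfl) (Ld_cont h hj),
    per_face (h j hj).symm hy hx (fun _ => rfl) (Lu_cont h hj)⟩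

theorem Zero_comp {g : ℕ} {F : (ℕ → ℝ) × (ℕ → ℝ) → ℝ} (hF : ContinuousOn F {z | Box g z.1 z.2}) :
    ContinuousOn (fun z : Fin g × Bool → ℝ => F (Zero_U g z, Zero_D g z)) {z | ∀ i, |z i| ≤ 1} :=
  hF.comp (Zero_cont g).continuousOn fun _ hz => Zero_box g hz

/-- the two periods of level `j` -/
def Zero_per (g j : ℕ) (z : (ℕ → ℝ) × (ℕ → ℝ)) : Bool → ℝ
  | false => Per (z.1 j) (z.2 j) (Ld g z.1 z.2 j)
  | true => Per (z.2 j) (z.1 j) (Lu g z.1 z.2 j)

theorem Zero_per_cont {g j : ℕ} (hj : j < g) (b : Bool) :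
    ContinuousOn (fun z => Zero_per g j z b) {z | Box g z.1 z.2} := by
  cases b
  · exact perd_cont hj
  · exact peru_cont hj

theorem exists_zero (g : ℕ) : ∃ U D : ℕ → ℝ, Box g U D ∧
    ∀ j < g, Per (U j) (D j) (Ld g U D j) = 0 ∧ Per (D j) (U j) (Lu g U D j) = 0 := by
  obtain ⟨z, hz, h0⟩ := Pool.Agent.MP_efb2da_gt.miranda (ι := Fin g × Bool)
    (fun z i => Zero_per g i.1 (Zero_U g z, Zero_D g z) i.2)
    (continuousOn_pi.mpr fun i => Zero_comp (Zero_per_cont i.1.2 i.2))
    (by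
      rintro z hz ⟨j, b⟩
      have hf := Zero_face (Zero_box g hz) j.2
      cases b
      · constructor
        · intro h1
          refine hf.1.2 ?_
          unfold Zero_D
          rw [dif_pos j.2, h1, Zero_one]
        · intro h1
          refine hf.1.1 ?_
          unfold Zero_D
          rw [dif_pos j.2, h1, Zero_neg]
      · constructor
        · intro h1
          refine hf.2.2 ?_
          unfold Zero_U
          rw [dif_pos j.2, h1, Zero_one]
        · intro h1
          refine hf.2.1 ?_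
          unfold Zero_U
          rw [dif_pos j.2, h1, Zero_neg])
  exact ⟨Zero_U g z, Zero_D g z, Zero_box g hz, fun j hj =>
    ⟨congrFun h0 (⟨j, hj⟩, false), congrFun h0 (⟨j, hj⟩, true)⟩⟩

end Pool.Agent.MP_92463a_gt
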