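import Pool.Agent.MP_92463a_gt.Geo
import Pool.Agent.MP_92463a_gt.PreEx
import Pool.Agent.MP_92463a_gt.Chain
import Pool.Agent.MP_92463a_gt.Link1
import Pool.Agent.MP_92463a_gt.Link2
import Pool.Agent.MP_92463a_gt.Zero

open Set Complex Filter Metric
open scoped Topology ComplexConjugate ContDiff Manifold

noncomputable section

namespace Pool.Agent.MP_92463a_gt

theorem towers (g : ℕ) (hg : 1 ≤ g) : Realized g (g + 2) := by
  obtain ⟨U, D, hB, hz⟩ := exists_zero g
  have hD := hB.ok hg
  obtain ⟨X, hX⟩ := hD.exists_pre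
  obtain ⟨X', hX'⟩ := hX.chain hD rfl (fun j hj => hB.link_down hj hX (hz j hj).1)
    fun j hj => hB.link_up hj hX (hz j hj).2
  have h := hX'.realized hD
  have e : ((tw g U D).p + (tw g U D).q) / 2 = g := by
    change (g + g) / 2 = g
    omega
  rw [e] at h
  exact h

end Pool.Agent.MP_92463a_gt
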