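import Pool.Agent.MP_92463a_gt.Ends
import Pool.Agent.MP_92463a_gt.Ends3

open Set Complex Filter Metric
open scoped Topology ComplexConjugate ContDiff Manifold

noncomputable section

namespace Pool.Agent.MP_92463a_gt

theorem Max_loc {D : Dat} {X : ℂ → ℂ} (hD : D.Ok) (hX : D.Sol X) {c t₀ : ℂ} {δ : ℝ} {h : ℂ → ℂ}
    (hc : c ≠ 0) (H : D.Par1 t₀ δ h)
    (hm : IsLocalMax (fun w => (c * D.Xg X (t₀ + w) (h w)).re) 0) : False := by
  obtain ⟨Φ₁, Φ₂, hΦ⟩ := hX.lf1 hD H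
  have hb : ball (0 : ℂ) δ ∈ 𝓝 (0 : ℂ) := ball_mem_nhds _ H.pos
  have hd : ∀ w ∈ ball (0 : ℂ) δ, HasDerivAt (fun w => c * Φ₁ w - conj c * Φ₂ w)
      (c * (h w * D.R (t₀ + w) / (t₀ + w)) - conj c * (h w * D.R (t₀ + w) * (t₀ + w))⁻¹) w :=
    fun w hw => ((hΦ w hw).1.const_mul c).sub ((hΦ w hw).2.1.const_mul (conj c))
  have ha : AnalyticAt ℂ (fun w => c * Φ₁ w - conj c * Φ₂ w) 0 :=
    DifferentiableOn.analyticAt (s := ball 0 δ)
      (fun w hw => (hd w hw).differentiableAt.differentiableWithinAt) hb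
  have hm' : IsLocalMax (fun w => (c * Φ₁ w - conj c * Φ₂ w).re) 0 := by
    refine hm.congr ?_
    filter_upwards [hb] with w hw
    rw [(hΦ w hw).2.2]
    simp only [mul_re, sub_re, sub_im, conj_re, conj_im]
    ring
  have h0 := no_max ha hm'
  apply hD.not_const (conj c / c) t₀
  have h1 : ∀ᶠ w in 𝓝 (0 : ℂ), D.P (t₀ + w) * D.R (t₀ + w) ^ 2 = conj c / c := by
    filter_upwards [h0, hb] with w hw hw'
    rw [(hd w hw').deriv] at hw
    have hP : D.P (t₀ + w) ≠ 0 := by rw [← H.sq w hw']; exact pow_ne_zero _ (H.ne w hw')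
    have ht : t₀ + w ≠ 0 := fun h' => hP (Dat.P_eq_zero.2 (Or.inl (Or.inl h')))
    have hR := hD.R_ne hP
    have hh := H.ne w hw'
    rw [← H.sq w hw']
    field_simp at hw ⊢
    linear_combination hw
  have h2 : Tendsto (fun t : ℂ => t - t₀) (𝓝 t₀) (𝓝 0) := by
    have : Tendsto (fun t : ℂ => t - t₀) (𝓝 t₀) (𝓝 (t₀ - t₀)) :=
      (continuous_id.sub continuous_const).tendsto t₀
    simpa using this
  filter_upwards [h2.eventually h1] with t ht
  simpa using ht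

theorem Max_key {D : Dat} {X : ℂ → ℂ} (hD : D.Ok) (hX : D.Sol X) {c t₀ : ℂ} (hc : c ≠ 0)
    (ht : 0 ≤ t₀.im) (hP : D.P t₀ ≠ 0)
    (hs : 0 < t₀.im ∨ conj c = (if 0 < (D.P t₀).re then 1 else -1) * c)
    (hm : ∀ t ∈ D.Q, (c * X t).re ≤ (c * X t₀).re) : False := by
  have hQ : ∀ t : ℂ, 0 ≤ t.im → D.P t ≠ 0 → t ∈ D.Q := fun t h1 h2 =>
    ⟨h1, fun h => h2 (Dat.P_eq_zero.2 (Or.inl h))⟩
  rcases ht.eq_or_lt with h0 | h0
  · obtain ⟨x₀, rfl⟩ : ∃ x₀ : ℝ, t₀ = x₀ := ⟨t₀.re, Complex.ext rfl (by simp [← h0])⟩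
    have hs' := hs.resolve_left (by simp)
    obtain ⟨δ, h, H, hY, hc'⟩ := Dat.par1_Y hP
    have hb : ball (0 : ℂ) δ ∈ 𝓝 (0 : ℂ) := ball_mem_nhds _ H.pos
    have hPw : ∀ w ∈ ball (0 : ℂ) δ, D.P (x₀ + w) ≠ 0 := fun w hw => by
      rw [← H.sq w hw]; exact pow_ne_zero _ (H.ne w hw)
    have hup : ∀ w ∈ ball (0 : ℂ) δ, 0 ≤ w.im → D.Xg X (x₀ + w) (h w) = X (x₀ + w) :=
      fun w hw hi => by rw [hY w hw hi, Dat.Xg_Y (by simpa using hi)]
    refine Max_loc hD hX hc H ?_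
    filter_upwards [hb] with w hw
    rw [hup 0 (mem_ball_self H.pos) (by simp), add_zero]
    rcases le_or_gt 0 w.im with hi | hi
    · rw [hup w hw hi]
      exact hm _ (hQ _ (by simpa using hi) (hPw w hw))
    · have hw' : conj w ∈ ball (0 : ℂ) δ := by simpa using hw
      have hi' : 0 ≤ (conj w).im := by simpa using hi.le
      have e1 := hX.Xg_conj hD (H.sq _ hw')
      rw [hup _ hw' hi'] at e1
      have e2 := hc' _ hw'
      simp only [map_add, conj_ofReal, conj_conj] at e1 e2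
      have e3 := hm _ (hQ _ (by simpa using hi') (hPw _ hw'))
      refine le_trans (le_of_eq ?_) e3
      rw [← conj_re (c * X _), map_mul, hs', e2]
      split_ifs
      · rw [one_mul, one_mul, e1]
      · rw [neg_one_mul, neg_one_mul, Dat.Xg_neg, e1]
        congr 1
        ring
  · have hb : ∀ w ∈ ball (0 : ℂ) t₀.im, 0 < (t₀ + w).im := fun w hw => by
      have h1 := abs_im_le_norm w
      have h2 : ‖w‖ < t₀.im := by simpa using hw
      have h3 := neg_abs_le w.im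
      rw [add_im]
      linarith
    have H : D.Par1 t₀ t₀.im fun w => D.Y (t₀ + w) :=
      ⟨h0, fun w hw => ((Dat.Y_diff (hb w hw)).comp w
        ((differentiableAt_const _).add differentiableAt_id)).differentiableWithinAt,
        fun w _ => Dat.Y_ne _, fun w hw => Dat.Y_sq (Dat.ne_of_im (hb w hw).ne')⟩
    refine Max_loc hD hX hc H ?_
    filter_upwards [ball_mem_nhds _ h0] with w hw
    rw [Dat.Xg_Y (hb w hw).le, add_zero, Dat.Xg_Y ht]
    exact hm _ (hQ _ (hb w hw).le (Dat.ne_of_im (hb w hw).ne'))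

theorem Max_le {D : Dat} {X : ℂ → ℂ} (hD : D.Ok) (hX : D.Sol X) {c : ℂ} (hc : c ≠ 0)
    (he : ∀ x₀, D.IsE x₀ → ∀ ε : ℝ, 0 < ε → ∀ᶠ t in 𝓝[D.Q] x₀, (c * X t).re < ε)
    (hi : ∀ ε : ℝ, 0 < ε → ∃ r : ℝ, ∀ t ∈ D.Q, r < ‖t‖ → (c * X t).re < ε)
    (hb : ∀ x : ℝ, D.P x ≠ 0 →
      conj c = (if 0 < (D.P x).re then 1 else -1) * c ∨ (c * X x).re = 0) :
    ∀ t ∈ D.Q, (c * X t).re ≤ 0 := by
  intro t₁ ht₁
  by_contra hlt
  push Not at hlt
  have hu : ContinuousOn (fun t => (c * X t).re) D.Q :=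
    continuous_re.comp_continuousOn (continuousOn_const.mul hX.cont)
  set K : Set ℂ := {t | t ∈ D.Q ∧ (c * X t₁).re ≤ (c * X t).re} with hK
  have hKQ : K ⊆ D.Q := fun t h => h.1
  have hcl : IsClosed K := by
    refine isClosed_of_closure_subset fun x hx => ?_
    have hne : (𝓝[K] x).NeBot := mem_closure_iff_nhdsWithin_neBot.1 hx
    have hx1 : 0 ≤ x.im :=
      closure_minimal (s := K) (t := {t : ℂ | 0 ≤ t.im}) (fun t h => h.1.1)
        (isClosed_le continuous_const continuous_im) hx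
    have hev : ∀ᶠ t in 𝓝[K] x, (c * X t₁).re ≤ (c * X t).re :=
      eventually_nhdsWithin_of_forall fun t h => h.2
    have hx2 : ¬ D.IsE x := fun h => by
      obtain ⟨t, h1, h2⟩ := (((he x h _ hlt).filter_mono (nhdsWithin_mono x hKQ)).and hev).exists
      linarith
    exact ⟨⟨hx1, hx2⟩, ge_of_tendsto ((hu x ⟨hx1, hx2⟩).mono hKQ).tendsto hev⟩
  obtain ⟨r, hr⟩ := hi _ hlt
  have hbd : Bornology.IsBounded K :=
    (isBounded_closedBall (x := (0 : ℂ)) (r := r)).subset fun t h => by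
      rw [mem_closedBall_zero_iff]
      by_contra h'
      have := hr t h.1 (not_le.1 h')
      linarith [h.2]
  obtain ⟨t₀, h0, hmax⟩ := (isCompact_of_isClosed_isBounded hcl hbd).exists_isMaxOn
    ⟨t₁, ht₁, le_rfl⟩ (hu.mono hKQ)
  have hpos : 0 < (c * X t₀).re := hlt.trans_le h0.2
  have hP : D.P t₀ ≠ 0 := fun h => by
    rcases Dat.P_eq_zero.1 h with h | h
    · exact h0.1.2 h
    · rw [hX.X_a hD h] at hpos
      simp at hpos
  refine Max_key hD hX hc h0.1.1 hP ?_ fun t ht => ?_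
  · rcases h0.1.1.eq_or_lt with h | h
    · obtain ⟨x₀, rfl⟩ : ∃ x₀ : ℝ, t₀ = x₀ := ⟨t₀.re, Complex.ext rfl (by simp [← h])⟩
      exact Or.inr ((hb x₀ hP).resolve_right hpos.ne')
    · exact Or.inl h
  · rcases le_or_gt (c * X t₁).re (c * X t).re with h | h
    · exact hmax ⟨ht, h⟩
    · exact h.le.trans h0.2

theorem Dat.Sol.quad {D : Dat} {X : ℂ → ℂ} (hD : D.Ok) (hX : D.Sol X) {t : ℂ} (ht : 0 ≤ t.im)
    (hP : D.P t ≠ 0) :
    (X t).re ≤ 0 ∧ 0 ≤ (X t).im ∧ (0 < t.im ∨ 0 < (D.P t).re → (X t).re < 0) ∧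
      (0 < t.im ∨ (D.P t).re < 0 → 0 < (X t).im) := by
  have hQ : t ∈ D.Q := ⟨ht, fun h => hP (Dat.P_eq_zero.2 (Or.inl h))⟩
  have h1 : ∀ s ∈ D.Q, (1 * X s).re ≤ 0 := by
    refine Max_le hD hX one_ne_zero (fun x₀ h ε hε => ?_) (fun ε hε => ?_) fun x hx => ?_
    · filter_upwards [hX.end_sign hD h hε] with s hs
      simpa using hs.1
    · obtain ⟨r, hr⟩ := hX.inf_sign hD hε
      exact ⟨r, fun s hs h => by simpa using (hr s hs h).1⟩
    · by_cases h : 0 < (D.P x).re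
      · left
        simp [h]
      · right
        have h' : (D.P x).re ≠ 0 := fun h' => hx (Complex.ext h' (Dat.P_im x))
        simpa using hX.re0 x (lt_of_le_of_ne (not_lt.1 h) h')
  have h2 : ∀ s ∈ D.Q, (I * X s).re ≤ 0 := by
    refine Max_le hD hX I_ne_zero (fun x₀ h ε hε => ?_) (fun ε hε => ?_) fun x hx => ?_
    · filter_upwards [hX.end_sign hD h hε] with s hs
      simpa [neg_lt] using hs.2
    · obtain ⟨r, hr⟩ := hX.inf_sign hD hε
      exact ⟨r, fun s hs h => by simpa [neg_lt] using (hr s hs h).2⟩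
    · by_cases h : 0 < (D.P x).re
      · right
        simpa using hX.im0 x h
      · left
        simp [h]
  refine ⟨by simpa using h1 t hQ, by simpa using h2 t hQ, fun h => ?_, fun h => ?_⟩
  · by_contra h'
    refine Max_key hD hX one_ne_zero ht hP (h.imp_right fun h => by simp [h]) fun s hs => ?_
    exact (h1 s hs).trans (by simpa using h')
  · by_contra h'
    refine Max_key hD hX I_ne_zero ht hP (h.imp_right fun h => by simp [h.not_gt]) fun s hs => ?_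
    exact (h2 s hs).trans (by simpa using h')

end Pool.Agent.MP_92463a_gt
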