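import Pool.Agent.MP_92463a_gt.Pt
import Pool.Agent.MP_92463a_gt.Par

open Set Complex Filter Metric
open scoped Topology ComplexConjugate ContDiff Manifold

noncomputable section

namespace Pool.Agent.MP_92463a_gt

namespace Dat

variable {D : Dat}

/-- the coordinates `t`, `y` are holomorphic in every chart, away from infinity -/
theorem Atl.hol (A : D.Atl) (z : D.N) {w : ℂ} (hw : w ∈ ball (0 : ℂ) (A.δ z))
    (hne : (A.ch z).symm w ≠ OnePoint.infty) :
    AnalyticAt ℂ (fun v => D.tt ((A.ch z).symm v)) w ∧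
      AnalyticAt ℂ (fun v => D.yy ((A.ch z).symm v)) w := by
  have hb : ∀ᶠ v in 𝓝 w, v ∈ ball (0 : ℂ) (A.δ z) := isOpen_ball.mem_nhds hw
  rcases A.kind z with ⟨t₀, h, H, he⟩ | ⟨x₀, h, H, he⟩ | ⟨h, H, h0, he⟩
  · have h1 : AnalyticAt ℂ h w := H.hol.analyticAt hb
    refine ⟨AnalyticAt.congr (f := fun v => t₀ + v) (by fun_prop) ?_, h1.congr ?_⟩
    · filter_upwards [hb] with v hv
      rw [he v hv, tt_pt (H.sq v hv)]
    · filter_upwards [hb] with v hv
      rw [he v hv, yy_pt (H.sq v hv)]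
  · have h1 : AnalyticAt ℂ (fun v => h (v ^ 2)) w :=
      (H.hol.analyticAt (isOpen_ball.mem_nhds (sq_mem_ball hw))).comp (f := fun v : ℂ => v ^ 2)
        (by fun_prop)
    refine ⟨AnalyticAt.congr (f := fun v => x₀ + v ^ 2) (by fun_prop) ?_,
      AnalyticAt.congr (f := fun v => v * h (v ^ 2)) (analyticAt_id.mul h1) ?_⟩
    · filter_upwards [hb] with v hv
      rw [he v hv, tt_pt (H.on hv).1]
    · filter_upwards [hb] with v hv
      rw [he v hv, yy_pt (H.on hv).1]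
  · have hw0 : w ≠ 0 := fun h => hne (by rw [h, h0])
    have h1 : AnalyticAt ℂ (fun v => h (v ^ 2)) w :=
      (H.hol.analyticAt (isOpen_ball.mem_nhds (sq_mem_ball hw))).comp (f := fun v : ℂ => v ^ 2)
        (by fun_prop)
    refine ⟨AnalyticAt.congr (f := fun v => (v ^ 2)⁻¹)
        ((analyticAt_id.pow 2).inv (pow_ne_zero 2 hw0)) ?_,
      AnalyticAt.congr (f := fun v => h (v ^ 2) / v ^ (D.p + D.q + 1))
        (h1.div (analyticAt_id.pow _) (pow_ne_zero _ hw0)) ?_⟩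
    · filter_upwards [hb, isOpen_ne.mem_nhds hw0] with v hv hv0
      rw [he v hv hv0, tt_pt (H.on hv hv0).1]
    · filter_upwards [hb, isOpen_ne.mem_nhds hw0] with v hv hv0
      rw [he v hv hv0, yy_pt (H.on hv hv0).1]

/-- a point with `y = 0` (branch point or infinity) lies only in its own chart, at the centre -/
theorem Atl.center (A : D.Atl) (z : D.N) {w : ℂ} (hw : w ∈ ball (0 : ℂ) (A.δ z))
    (h0 : D.yy ((A.ch z).symm w) = 0) : w = 0 := by
  by_contra hw0
  rcases A.kind z with ⟨t₀, h, H, he⟩ | ⟨x₀, h, H, he⟩ | ⟨h, H, -, he⟩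
  · rw [he w hw, yy_pt (H.sq w hw)] at h0
    exact H.ne w hw h0
  · rw [he w hw, yy_pt (H.on hw).1] at h0
    exact mul_ne_zero hw0 (H.ne _ (sq_mem_ball hw)) h0
  · rw [he w hw hw0, yy_pt (H.on hw hw0).1] at h0
    exact div_ne_zero (H.ne _ (sq_mem_ball hw)) (pow_ne_zero _ hw0) h0

theorem Mfd_infty (A : D.Atl) (z : D.N) (h : OnePoint.infty ∈ (A.ch z).source) :
    z = OnePoint.infty := by
  have h1 := A.center z (A.tgt z ▸ (A.ch z).map_source h) (by rw [(A.ch z).left_inv h]; rfl)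
  exact (A.ch z).injOn (A.mem z) h (by rw [h1, A.ctr])

theorem Mfd_fwd (hD : D.Ok) (A : D.Atl) (z : D.N) : ∃ F : ℂ × ℂ → ℂ,
    (∀ u ∈ (A.ch z).source, u ≠ OnePoint.infty → A.ch z u = F (D.tt u, D.yy u)) ∧
    ∀ u ∈ (A.ch z).source, u ≠ OnePoint.infty → AnalyticAt ℂ F (D.tt u, D.yy u) := by
  suffices h : ∃ F : ℂ × ℂ → ℂ, ∀ w ∈ ball (0 : ℂ) (A.δ z), (A.ch z).symm w ≠ OnePoint.infty →
      w = F (D.tt ((A.ch z).symm w), D.yy ((A.ch z).symm w)) ∧
      AnalyticAt ℂ F (D.tt ((A.ch z).symm w), D.yy ((A.ch z).symm w)) by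
    obtain ⟨F, hF⟩ := h
    have h1 : ∀ u ∈ (A.ch z).source, u ≠ OnePoint.infty → A.ch z u = F (D.tt u, D.yy u) ∧
        AnalyticAt ℂ F (D.tt u, D.yy u) := fun u hu hne => by
      have := hF _ (A.tgt z ▸ (A.ch z).map_source hu) (by rwa [(A.ch z).left_inv hu])
      rwa [(A.ch z).left_inv hu] at this
    exact ⟨F, fun u hu hne => (h1 u hu hne).1, fun u hu hne => (h1 u hu hne).2⟩
  rcases A.kind z with ⟨t₀, h, H, he⟩ | ⟨x₀, h, H, he⟩ | ⟨h, H, h0, he⟩
  · refine ⟨fun p => p.1 - t₀, fun w hw _ => ⟨?_, analyticAt_fst.sub analyticAt_const⟩⟩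
    rw [he w hw, tt_pt (H.sq w hw)]
    simp
  · refine ⟨fun p => p.2 / h (p.1 - x₀), fun w hw _ => ?_⟩
    have h1 := H.ne _ (sq_mem_ball hw)
    rw [he w hw, tt_pt (H.on hw).1, yy_pt (H.on hw).1]
    refine ⟨by simp [h1], analyticAt_snd.div ?_ (by simpa using h1)⟩
    refine AnalyticAt.comp (f := fun p : ℂ × ℂ => p.1 - x₀) ?_
      (analyticAt_fst.sub analyticAt_const)
    simpa using H.hol.analyticAt (isOpen_ball.mem_nhds (sq_mem_ball hw))
  · obtain ⟨m, hm⟩ := hD.par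
    refine ⟨fun p => h p.1⁻¹ * p.1 ^ m / p.2, fun w hw hne => ?_⟩
    have hw0 : w ≠ 0 := fun h => hne (by rw [h, h0])
    have h1 := H.ne _ (sq_mem_ball hw)
    rw [he w hw hw0, tt_pt (H.on hw hw0).1, yy_pt (H.on hw hw0).1]
    refine ⟨?_, (AnalyticAt.mul ?_ (analyticAt_fst.pow m)).div analyticAt_snd
      (div_ne_zero h1 (pow_ne_zero _ hw0))⟩
    · simp only [inv_inv, hm, inv_pow]
      field_simp
      ring
    · refine AnalyticAt.comp (f := fun p : ℂ × ℂ => p.1⁻¹) ?_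
        (analyticAt_fst.inv (inv_ne_zero (pow_ne_zero 2 hw0)))
      simpa using H.hol.analyticAt (isOpen_ball.mem_nhds (sq_mem_ball hw))

/-- change of charts -/
theorem Atl.trans (hD : D.Ok) (A : D.Atl) (z z' : D.N) {w : ℂ} (hw : w ∈ ball (0 : ℂ) (A.δ z))
    (hs : (A.ch z).symm w ∈ (A.ch z').source) :
    AnalyticAt ℂ (A.ch z' ∘ (A.ch z).symm) w := by
  have hw' : w ∈ (A.ch z).target := by rwa [A.tgt]
  by_cases hu : (A.ch z).symm w = OnePoint.infty
  · have h1 := Mfd_infty A z (hu ▸ (A.ch z).map_target hw')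
    have h2 := Mfd_infty A z' (hu ▸ hs)
    rw [h2, ← h1]
    exact analyticAt_id.congr (EventuallyEq.symm ((A.ch z).eventually_right_inverse hw'))
  · obtain ⟨F, h1, h2⟩ := Mfd_fwd hD A z'
    obtain ⟨h3, h4⟩ := A.hol z hw hu
    have hc : ContinuousAt (A.ch z).symm w := (A.ch z).continuousAt_symm hw'
    refine ((h2 _ hs hu).comp (f := fun v => (D.tt ((A.ch z).symm v), D.yy ((A.ch z).symm v)))
      (h3.prod h4)).congr ?_
    filter_upwards [hc ((A.ch z').open_source.mem_nhds hs),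
      hc (OnePoint.isClosed_infty.isOpen_compl.mem_nhds hu)] with v hv1 hv2
    exact (h1 _ hv1 hv2).symm

theorem Atl.isManifold (hD : D.Ok) (A : D.Atl) :
    letI := A.charted
    IsManifold 𝓘(ℂ) ω D.N := by
  let := A.charted
  refine isManifold_of_contDiffOn _ _ _ ?_
  rintro _ _ ⟨z, rfl⟩ ⟨z', rfl⟩
  refine AnalyticOnNhd.contDiffOn_of_completeSpace fun w hw => ?_
  simp only [modelWithCornersSelf_coe, modelWithCornersSelf_coe_symm, preimage_id_eq, id_eq,
    range_id, inter_univ, OpenPartialHomeomorph.trans_source, OpenPartialHomeomorph.symm_source,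
    mem_inter_iff, mem_preimage] at hw
  exact A.trans hD z z' (A.tgt z ▸ hw.1) hw.2

end Dat

end Pool.Agent.MP_92463a_gt
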