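import Pool.Agent.MP_92463a_gt.Setup

open Set Complex Filter Metric
open scoped Topology ComplexConjugate ContDiff Manifold

noncomputable section

namespace Pool.Agent.MP_92463a_gt

open scoped RealInnerProductSpace

/-- the real linear map behind the Weierstrass representation -/
def Min1lam : (ℂ × ℂ × ℂ) →L[ℝ] E3 := LinearMap.toContinuousLinearMap
  { toFun t := mk3 (t.1 - conj t.2.1) (2 * t.2.2.re)
    map_add' s t := by
      ext i
      fin_cases i <;> simp [mk3] <;> ring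
    map_smul' c t := by
      ext i
      fin_cases i <;> simp [mk3] <;> ring }

theorem Min1_inner {a b c : ℂ} (h : a * b = c ^ 2) :
    ⟪Min1lam ((1 : ℂ) • (a, b, c)), Min1lam ((1 : ℂ) • (a, b, c))⟫ =
      normSq a + normSq b + 2 * normSq c ∧
    ⟪Min1lam (I • (a, b, c)), Min1lam (I • (a, b, c))⟫ = normSq a + normSq b + 2 * normSq c ∧
    ⟪Min1lam ((1 : ℂ) • (a, b, c)), Min1lam (I • (a, b, c))⟫ = 0 := by
  have h1 := congrArg re h
  have h2 := congrArg im h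
  simp only [sq, mul_re, mul_im] at h1 h2
  simp only [PiLp.inner_apply, Fin.sum_univ_three]
  simp [Min1lam, mk3, normSq_apply, mul_pow]
  refine ⟨?_, ?_, ?_⟩ <;> linarith

theorem Min1_fderiv {G : ℂ → ℂ × ℂ × ℂ} {g : ℂ × ℂ × ℂ} {z : ℂ} (h : HasDerivAt G g z) (v : ℂ) :
    fderiv ℝ (fun w => Min1lam (G w)) z v = Min1lam (v • g) :=
  DFunLike.congr_fun (Min1lam.hasFDerivAt.comp z (h.hasFDerivAt.restrictScalars ℝ)).fderiv v

theorem minimal_of_loc {N : Type} [TopologicalSpace N] [ChartedSpace ℂ N] {f : N → E3} {p : N}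
    {Φ₁ Φ₂ Φ₃ φ₁ φ₂ φ₃ : ℂ → ℂ}
    (hd : ∀ᶠ w in 𝓝 (chartAt ℂ p p), HasDerivAt Φ₁ (φ₁ w) w ∧ HasDerivAt Φ₂ (φ₂ w) w ∧
      HasDerivAt Φ₃ (φ₃ w) w ∧ φ₁ w * φ₂ w = φ₃ w ^ 2 ∧
      loc f p w = mk3 (Φ₁ w - conj (Φ₂ w)) (2 * (Φ₃ w).re))
    (hne : φ₁ (chartAt ℂ p p) ≠ 0 ∨ φ₂ (chartAt ℂ p p) ≠ 0) : IsMinimalAt f p := by
  have hG : ∀ᶠ w in 𝓝 (chartAt ℂ p p),
      HasDerivAt (fun w => (Φ₁ w, Φ₂ w, Φ₃ w)) (φ₁ w, φ₂ w, φ₃ w) w :=
    hd.mono fun w h => h.1.prodMk (h.2.1.prodMk h.2.2.1)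
  have he : loc f p =ᶠ[𝓝 (chartAt ℂ p p)] fun w => Min1lam (Φ₁ w, Φ₂ w, Φ₃ w) :=
    hd.mono fun w h => h.2.2.2.2
  have ha := analyticAt_iff_eventually_differentiableAt.2 (hG.mono fun w h => h.differentiableAt)
  have hg := (ha.deriv.congr (hG.mono fun w h => h.deriv)).differentiableAt.hasDerivAt
  have e1 : ∀ v, (fun z => fderiv ℝ (loc f p) z v) =ᶠ[𝓝 (chartAt ℂ p p)]
      fun w => Min1lam (v • (φ₁ w, φ₂ w, φ₃ w)) := fun v => by
    filter_upwards [hG, he.fderiv (𝕜 := ℝ)] with w h1 h2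
    rw [h2, Min1_fderiv h1]
  have e2 : d2 f p 1 1 + d2 f p I I = 0 := by
    simp only [d2, (e1 _).fderiv_eq]
    rw [Min1_fderiv (hg.fun_const_smul _), Min1_fderiv (hg.fun_const_smul _), ← map_add, smul_smul,
      smul_smul, I_mul_I, ← add_smul, mul_one, add_neg_cancel, zero_smul, map_zero]
  obtain ⟨h0, h1, h2⟩ := Min1_inner hd.self_of_nhds.2.2.2.1
  rw [← (e1 1).eq_of_nhds] at h0 h2
  rw [← (e1 I).eq_of_nhds] at h1 h2
  have hE : 0 < normSq (φ₁ (chartAt ℂ p p)) + normSq (φ₂ (chartAt ℂ p p)) +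
      2 * normSq (φ₃ (chartAt ℂ p p)) := by
    have := normSq_nonneg (φ₁ (chartAt ℂ p p))
    have := normSq_nonneg (φ₂ (chartAt ℂ p p))
    have := normSq_nonneg (φ₃ (chartAt ℂ p p))
    rcases hne with h | h <;> linarith [normSq_pos.2 h]
  refine ⟨(Min1lam.contDiff.contDiffAt.comp _
    (ha.contDiffAt.restrict_scalars ℝ)).congr_of_eventuallyEq he, ?_, fun ν _ _ => ?_⟩
  · refine linearIndependent_of_ne_zero_of_inner_eq_zero (fun i hi => ?_) fun i j hij => ?_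
    · fin_cases i
      · exact hE.ne' (h0.symm.trans (inner_self_eq_zero.2 hi))
      · exact hE.ne' (h1.symm.trans (inner_self_eq_zero.2 hi))
    · fin_cases i <;> fin_cases j
      · exact absurd rfl hij
      · exact h2
      · exact (real_inner_comm _ _).trans h2
      · exact absurd rfl hij
  · unfold d1
    rw [h0, h1, h2, mul_zero, sub_zero, ← add_mul, ← inner_add_left, e2, inner_zero_left, zero_mul]

end Pool.Agent.MP_92463a_gt
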