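import Pool.Agent.MP_92463a_gt.Circ

open Set Complex Filter Metric
open scoped Topology ComplexConjugate ContDiff Manifold

noncomputable section

namespace Pool.Agent.MP_92463a_gt

variable {p β : ℝ}

/-- a cubic without constant term -/
def MomCu (a1 a2 a3 : ℝ) (s : ℂ) : ℂ := a1 * s + a2 * s ^ 2 + a3 * s ^ 3

theorem Mom_re (a1 a2 a3 : ℝ) (s : ℂ) : (MomCu a1 a2 a3 s).re =
    a1 * s.re + a2 * (2 * s.re ^ 2 - normSq s) + a3 * (4 * s.re ^ 3 - 3 * s.re * normSq s) := by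
  simp only [MomCu, pow_succ, pow_zero, one_mul, add_re, mul_re, mul_im, ofReal_re, ofReal_im,
    normSq_apply]
  ring

theorem Mom_cont (h0 : 0 < p) (h1 : p < 1) : Continuous (sc p) :=
  continuous_iff_continuousAt.2 fun θ => (sc_der h0 h1 θ).continuousAt

theorem Mom_ftc (h0 : 0 < p) {F : ℝ → ℂ} {φ : ℂ → ℂ}
    (hF : ∀ θ, HasDerivAt F (I * ((√p / Dl p θ : ℝ) : ℂ) * φ (sc p θ)) θ)
    (ha : (F 0).im = 0) (hb : (F Real.pi).im = 0) : Av p φ = 0 := by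
  have hp : √p ≠ 0 := (Real.sqrt_pos.2 h0).ne'
  by_cases hi : IntervalIntegrable (fun θ => (φ (sc p θ)).re / Dl p θ) MeasureTheory.volume 0
    Real.pi
  · have h := intervalIntegral.integral_eq_sub_of_hasDerivAt (f := fun θ => (F θ).im / √p)
      (fun θ _ => ((imCLM.hasFDerivAt.comp_hasDerivAt θ (hF θ)).div_const √p).congr_deriv (by
        simp only [imCLM_apply, mul_im, mul_re, I_re, I_im, ofReal_re, ofReal_im]
        field_simp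
        ring)) hi
    rw [Av, h, ha, hb, sub_self]
  · exact intervalIntegral.integral_undef hi

theorem Mom_lin (h0 : 0 < p) (h1 : p < 1) (a0 a1 a2 a3 : ℝ) :
    Av p (fun s => a0 + MomCu a1 a2 a3 s) = a0 * e0 p + a1 * Av p (fun s => s) +
      a2 * Av p (fun s => s ^ 2) + a3 * Av p fun s => s ^ 3 := by
  have hc := Mom_cont h0 h1
  rw [e0, ← Av_mul, ← Av_mul, ← Av_mul, ← Av_mul, ← Av_add h0 h1, ← Av_add h0 h1, ← Av_add h0 h1]
  · exact Av_congr fun θ _ => by simp only [MomCu, mul_one, add_assoc]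
  all_goals fun_prop

theorem Mom_pos (h0 : 0 < p) (h1 : p < 1) (hβ : β = (1 - p) / p) (a0 a1 a2 a3 : ℝ) :
    Av p (fun s => a0 + MomCu a1 a2 a3 s) =
      e0 p * (a0 + a1 * xb p + a2 * mE2 β (xb p) + a3 * mE3 β (xb p)) := by
  have e1 : Av p (fun s => s) = e0 p * xb p := by
    rw [xb, mul_div_cancel₀ _ (e0_pos h0 h1).ne']
  have e2 := Mom_ftc h0 (F := Yc p)
    (φ := fun s => (-β / 2 : ℝ) + MomCu (β - 1) (3 / 2) 0 s)
    (fun θ => (Yc_der h0 h1 θ).congr_deriv (by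
      simp only [MomCu, ← hβ]
      push_cast
      ring)) (Yc_im h0 h1).1 (Yc_im h0 h1).2
  have e3 := Mom_ftc h0 (F := fun θ => sc p θ * Yc p θ)
    (φ := fun s => (0 : ℝ) + MomCu (-(3 / 2) * β) (2 * (β - 1)) (5 / 2) s)
    (fun θ => ((sc_der h0 h1 θ).mul (Yc_der h0 h1 θ)).congr_deriv (by
      have h := Yc_sq h0 h1 θ
      simp only [MomCu, ← hβ] at h ⊢
      push_cast
      linear_combination I * ((√p : ℝ) / Dl p θ : ℂ) * h))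
    (by rw [sc_zero h0 h1, im_ofReal_mul, (Yc_im h0 h1).1, mul_zero])
    (by rw [sc_pi h0 h1, im_ofReal_mul, (Yc_im h0 h1).2, mul_zero])
  rw [Mom_lin h0 h1, e1] at e2 e3 ⊢
  simp only [mE2, mE3]
  linear_combination (2 / 3 * a2 - 8 / 15 * (β - 1) * a3) * e2 + 2 / 5 * a3 * e3

theorem Mom_all (h0 : 0 < p) (h1 : p < 1) (hβ : β = (1 - p) / p) {φ : ℂ → ℂ}
    (a0 a1 a2 a3 b1 b2 b3 : ℝ)
    (h : ∀ θ, (φ (sc p θ)).re = (a0 + MomCu a1 a2 a3 (sc p θ) + MomCu b1 b2 b3 (sc p θ)⁻¹).re) :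
    Av p φ = e0 p * (a0 + (a1 - b1 / β) * xb p + (a2 + b2 / β ^ 2) * mE2 β (xb p) +
      (a3 - b3 / β ^ 3) * mE3 β (xb p)) := by
  have hc := Mom_cont h0 h1
  have hc' : Continuous fun θ => (sc p θ)⁻¹ := hc.inv₀ fun θ => (sc_ne h0 h1 θ).1
  rw [Av_congr (ψ := fun s => a0 + MomCu a1 a2 a3 s + MomCu b1 b2 b3 s⁻¹) fun θ _ => h θ,
    Av_add h0 h1 (by unfold MomCu; fun_prop) (by unfold MomCu; fun_prop), Mom_pos h0 h1 hβ,
    Av_symm h0 h1, ← hβ,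
    Av_congr (ψ := fun s => (0 : ℝ) + MomCu (-b1 / β) (b2 / β ^ 2) (-b3 / β ^ 3) s)
      fun θ _ => congrArg re (by
        simp only [MomCu, inv_div]
        push_cast
        ring), Mom_pos h0 h1 hβ]
  ring

theorem Mom_N (h0 : 0 < p) (h1 : p < 1) (hβ : β = (1 - p) / p) (θ : ℝ) :
    β ≠ 0 ∧ 2 * (sc p θ).re + β ≠ 0 ∧ normSq (sc p θ) = 2 * (sc p θ).re + β := by
  have h : normSq (sc p θ) = 2 * (sc p θ).re + β := by
    rw [normSq_eq_norm_sq, (sc_norm h0 h1 θ).2.2, hβ]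
  exact ⟨hβ ▸ (div_pos (sub_pos.2 h1) h0).ne', h ▸ (normSq_pos.2 (sc_ne h0 h1 θ).1).ne', h⟩

theorem mom_A (h0 : 0 < p) (h1 : p < 1) (hβ : β = (1 - p) / p) (c0 c1 c2 n1 n2 : ℝ) :
    Av p (fun s => (s + β) ^ 2 / s * (c0 + n1 / s + c1 * s + n2 / s ^ 2 + c2 * s ^ 2)) =
      e0 p * (c0 * mA0 β (xb p) + n1 * nA1 β (xb p) + c1 * mA1 β (xb p) + n2 * nA2 β (xb p) +
        c2 * mA2 β (xb p)) := by
  have hb := (Mom_N h0 h1 hβ 0).1
  rw [Mom_all h0 h1 hβ (n1 + 2 * β * c0 + β ^ 2 * c1) (c0 + 2 * β * c1 + β ^ 2 * c2)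
    (c1 + 2 * β * c2) c2 (n2 + 2 * β * n1 + β ^ 2 * c0) (2 * β * n2 + β ^ 2 * n1) (β ^ 2 * n2)
    fun θ => congrArg re (by
      have hs := (sc_ne h0 h1 θ).1
      simp only [MomCu]
      push_cast
      field_simp
      ring)]
  simp only [mA0, nA1, mA1, nA2, mA2]
  field_simp
  ring

theorem mom_B (h0 : 0 < p) (h1 : p < 1) (hβ : β = (1 - p) / p) (c0 c1 c2 n1 n2 : ℝ) :
    Av p (fun s => (s - 1) / (s + β) * (c0 + n1 / s + c1 * s + n2 / s ^ 2 + c2 * s ^ 2)) =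
      e0 p * (c0 * mB0 β (xb p) + n1 * nH1 β (xb p) + c1 * mB1 (xb p) + n2 * nB2 β (xb p) +
        c2 * mB2 β (xb p)) := by
  have hb := (Mom_N h0 h1 hβ 0).1
  rw [Mom_all h0 h1 hβ (n1 / β - c1 - n2 / β ^ 2 + β * c2) (c1 - (1 + β) * c2) c2 0
    (c0 - 2 * n1 / β - β * c1 + (2 + β) * n2 / β ^ 2 + β ^ 2 * c2) (-n2 / β) 0 fun θ => ?_]
  · simp only [mB0, nH1, mB1, nB2, mB2, mH1]
    field_simp
    ring
  obtain ⟨-, hN, hn⟩ := Mom_N h0 h1 hβ θ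
  obtain ⟨hs, hs1, -⟩ := sc_ne h0 h1 θ
  have ha := sc_add h0 h1 θ
  rw [← hβ] at ha
  generalize sc p θ = s at *
  have hc : conj s ≠ 0 := (map_ne_zero _).2 hs
  have e : (s - 1) / (s + β) * (c0 + n1 / s + c1 * s + n2 / s ^ 2 + c2 * s ^ 2) =
      ((normSq s)⁻¹ : ℝ) * (n1 + MomCu c0 c1 c2 s + MomCu n2 0 0 s⁻¹) := by
    rw [ha, ofReal_inv, ← mul_conj]
    simp only [MomCu]
    push_cast
    field_simp
    ring
  rw [e]
  simp only [re_ofReal_mul, add_re, ofReal_re, Mom_re, inv_re, normSq_inv, hn]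
  field_simp
  ring

theorem mom_H (h0 : 0 < p) (h1 : p < 1) (hβ : β = (1 - p) / p) (c0 c1 c2 n1 n2 : ℝ) :
    Av p (fun s => ((c0 + n1 / ‖s‖ ^ 2 + c1 * ‖s‖ ^ 2 + n2 / ‖s‖ ^ 4 + c2 * ‖s‖ ^ 4 : ℝ) : ℂ)) =
      e0 p * (c0 + n1 * nH1 β (xb p) + c1 * mH1 β (xb p) + n2 * nH2 β (xb p) +
        c2 * mH2 β (xb p)) := by
  have hb := (Mom_N h0 h1 hβ 0).1
  rw [Mom_all h0 h1 hβ (c0 + n1 / β + β * c1 + (2 + β) * n2 / β ^ 3 + (2 * β + β ^ 2) * c2)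
    (2 * c1 + (4 + 4 * β) * c2) (2 * c2) 0 (-2 * n1 / β - (4 + 4 * β) * n2 / β ^ 3)
    (2 * n2 / β ^ 2) 0 fun θ => ?_]
  · simp only [nH1, nH2, mH2, mH1]
    field_simp
    ring
  obtain ⟨-, hN, hn⟩ := Mom_N h0 h1 hβ θ
  have e : ‖sc p θ‖ ^ 4 = normSq (sc p θ) ^ 2 := by rw [normSq_eq_norm_sq, ← pow_mul]
  simp only [e, ← normSq_eq_norm_sq, add_re, ofReal_re, Mom_re, inv_re, normSq_inv, hn]
  field_simp
  ring

end Pool.Agent.MP_92463a_gt
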