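import Pool.Agent.MP_92463a_gt.ZsB

open Set Complex Filter Metric
open scoped Topology ComplexConjugate ContDiff Manifold

noncomputable section

namespace Pool.Agent.MP_92463a_gt

variable {γ : ℕ}

/-- the weights of the linearised interaction -/
def NDk (k j : Fin γ) : ℝ := (normSq (exp (I * ang γ k) - exp (I * ang γ j)))⁻¹

theorem ND_symm (k j : Fin γ) : NDk k j = NDk j k := by
  rw [NDk, NDk, ← normSq_neg, neg_sub]

theorem ND_zero_le : ‖(0 : Zs γ)‖ ≤ 1 / (100 * γ) := by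
  rw [norm_zero]
  positivity

theorem ND_lu_f (k : Fin γ) : (0 : Zs γ).lu (k, false) = I * ang γ k := by
  simp [Zs.lu, ZsB_xi_zero]

theorem ND_lu_t (k : Fin γ) : exp ((0 : Zs γ).lu (k, true)) = -conj (exp (I * ang γ k)) := by
  have : (0 : Zs γ).lu (k, true) = Real.pi * I + conj (I * ang γ k) := by
    simp only [Zs.lu, ZsB_xi_zero, map_zero, Prod.snd_zero, Pi.zero_apply, map_mul, conj_I,
      conj_ofReal]
    ring
  rw [this, exp_add, exp_pi_mul_I, exp_conj, neg_one_mul]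

theorem ND_pos {k j : Fin γ} (h : j ≠ k) : 0 < NDk k j := by
  have := ZsB_ne k.pos ND_zero_le h false
  rw [ND_lu_f, ND_lu_f] at this
  exact inv_pos.2 (normSq_pos.2 this)

theorem ND_unit {a b : ℂ} (ha : a * conj a = 1) (hb : b * conj b = 1) (h : a - b ≠ 0) :
    -(a * b) / (a - b) ^ 2 = ((normSq (a - b))⁻¹ : ℝ) := by
  have h1 : conj (a - b) ≠ 0 := by rwa [map_ne_zero]
  rw [ofReal_inv, ← mul_conj, div_eq_iff (pow_ne_zero 2 h)]
  field_simp
  rw [map_sub]
  linear_combination (-b) * ha + a * hb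

theorem ND_exp (k : Fin γ) : exp (I * ang γ k) * conj (exp (I * ang γ k)) = 1 := by
  rw [← exp_conj, ← exp_add, map_mul, conj_I, conj_ofReal]
  simp

theorem ND_weight {k j : Fin γ} (h : j ≠ k) (b : Bool) :
    -(exp ((0 : Zs γ).lu (k, b)) * exp ((0 : Zs γ).lu (j, b))) /
      (exp ((0 : Zs γ).lu (k, b)) - exp ((0 : Zs γ).lu (j, b))) ^ 2 = NDk k j := by
  have h1 := ZsB_ne k.pos ND_zero_le h b
  cases b
  · rw [ND_lu_f, ND_lu_f] at h1 ⊢
    exact ND_unit (ND_exp k) (ND_exp j) h1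
  · rw [ND_unit _ _ h1, ND_lu_t, ND_lu_t, NDk, ← neg_sub', normSq_neg, ← map_sub, normSq_conj]
    · rw [ND_lu_t, map_neg, conj_conj, neg_mul_neg, mul_comm, ND_exp]
    · rw [ND_lu_t, map_neg, conj_conj, neg_mul_neg, mul_comm, ND_exp]

theorem ND_mean (t : ℝ) (d : Zs γ) : (t • d).mean = t * d.mean := by
  simp only [Zs.mean, Prod.smul_fst, Pi.smul_apply, real_smul, ← Finset.mul_sum, mul_div_assoc]

theorem ND_xi (t : ℝ) (d : Zs γ) (k : Fin γ) : (t • d).ξ k = t * d.ξ k := by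
  simp only [Zs.ξ, ND_mean, Prod.smul_fst, Pi.smul_apply, real_smul, mul_sub]

theorem ND_lin (a c : ℂ) : HasDerivAt (fun t : ℝ => a + t * c) c 0 := by
  simpa using ((hasDerivAt_id (0 : ℝ)).ofReal_comp.mul_const c).const_add a

theorem ND_eh {d : Zs γ} {η : ℝ} (h1 : ∀ k, d.2.1 k = η) (h2 : d.2.2.1 = 0) (k : Fin γ) :
    HasDerivAt (fun t : ℝ => (t • d).eh k) η 0 := by
  refine (ND_lin 1 η).congr_of_eventuallyEq (Eventually.of_forall fun t => ?_)
  simp [Zs.eh, h1, h2]

theorem ND_lu {d : Zs γ} (h3 : d.2.2.2 = 0) (k : Fin γ) (b : Bool) :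
    HasDerivAt (fun t : ℝ => (t • d).lu (k, b)) (if b then conj (d.ξ k) else d.ξ k) 0 := by
  cases b
  · refine (ND_lin (I * ang γ k) _).congr_of_eventuallyEq (Eventually.of_forall fun t => ?_)
    simp [Zs.lu, ND_xi]
  · refine (ND_lin (I * (Real.pi - ang γ k)) _).congr_of_eventuallyEq
      (Eventually.of_forall fun t => ?_)
    simp [Zs.lu, ND_xi, h3]

/-- the linearised interaction -/
def NDl (x : Fin γ → ℂ) (k : Fin γ) : ℂ := ∑ j ∈ Finset.univ.erase k, NDk k j * (x k - x j)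

theorem ND_fc {d : Zs γ} {η : ℝ} (h1 : ∀ k, d.2.1 k = η) (h2 : d.2.2.1 = 0) (h3 : d.2.2.2 = 0)
    (k : Fin γ) (b : Bool) : HasDerivAt (fun t : ℝ => (t • d).fc (k, b))
      (η * ((γ - 1) / 2 + 3 / 4) + NDl (fun j => if b then conj (d.ξ j) else d.ξ j) k) 0 := by
  have h4 := (HasDerivAt.fun_sum (u := Finset.univ.erase k) fun j hj =>
    (((ND_eh h1 h2 j).fun_mul (ND_lu h3 k b).cexp).fun_div
      ((ND_lu h3 k b).cexp.fun_sub (ND_lu h3 j b).cexp) (by
        rw [zero_smul]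
        exact ZsB_ne k.pos ND_zero_le (Finset.ne_of_mem_erase hj) b))).fun_add
    ((ND_eh h1 h2 k).const_mul (3 / 4))
  refine h4.congr_deriv ?_
  rw [← Zs.fc_zero (k, b), Zs.fc, NDl, mul_add, Finset.mul_sum, add_right_comm,
    ← Finset.sum_add_distrib, ZsB_eh_zero, mul_one, mul_comm (η : ℂ) (3 / 4)]
  congr 1
  refine Finset.sum_congr rfl fun j hj => ?_
  have h5 := ZsB_ne k.pos ND_zero_le (Finset.ne_of_mem_erase hj) b
  rw [← ND_weight (Finset.ne_of_mem_erase hj) b, zero_smul, ZsB_eh_zero]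
  field_simp
  ring

theorem ND_conj (x : Fin γ → ℂ) (k : Fin γ) : conj (NDl (fun j => conj (x j)) k) = NDl x k := by
  simp only [NDl, map_sum, map_mul, map_sub, conj_conj, conj_ofReal]

theorem ND_full (x : Fin γ → ℂ) (k : Fin γ) : NDl x k = ∑ j, NDk k j * (x k - x j) :=
  Finset.sum_erase _ (by rw [sub_self, mul_zero])

theorem ND_quad (x y : Fin γ → ℂ) :
    2 * ∑ k, y k * NDl x k = ∑ k, ∑ j, NDk k j * ((y k - y j) * (x k - x j)) := by
  have h1 : ∑ k, y k * NDl x k = ∑ k, ∑ j, NDk k j * (y k * (x k - x j)) := by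
    simp only [ND_full, Finset.mul_sum]
    exact Finset.sum_congr rfl fun k _ => Finset.sum_congr rfl fun j _ => by ring
  have h2 : ∑ k, y k * NDl x k = ∑ k, ∑ j, NDk k j * (y j * (x j - x k)) := by
    rw [h1, Finset.sum_comm]
    exact Finset.sum_congr rfl fun k _ => Finset.sum_congr rfl fun j _ => by rw [ND_symm]
  rw [two_mul]
  nth_rewrite 1 [h1]
  rw [h2, ← Finset.sum_add_distrib]
  refine Finset.sum_congr rfl fun k _ => ?_
  rw [← Finset.sum_add_distrib]
  exact Finset.sum_congr rfl fun j _ => by ring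

theorem ND_const {x : Fin γ → ℂ} (h : ∀ k, NDl x k = 0) (k j : Fin γ) : x k = x j := by
  have h1 := ND_quad x fun k => conj (x k)
  simp only [h, mul_zero, Finset.sum_const_zero, ← map_sub, ← normSq_eq_conj_mul_self] at h1
  have h2 : ∑ k, ∑ j, NDk k j * normSq (x k - x j) = 0 := by exact_mod_cast h1.symm
  have h3 : ∀ k j : Fin γ, 0 ≤ NDk k j * normSq (x k - x j) := fun k j =>
    mul_nonneg (inv_nonneg.2 (normSq_nonneg _)) (normSq_nonneg _)
  rw [Finset.sum_eq_zero_iff_of_nonneg fun k _ => Finset.sum_nonneg fun j _ => h3 k j] at h2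
  have h4 := (Finset.sum_eq_zero_iff_of_nonneg fun j _ => h3 k j).1 (h2 k (Finset.mem_univ _)) j
    (Finset.mem_univ _)
  by_contra hne
  have h5 : j ≠ k := fun e => hne (by rw [e])
  exact hne (sub_eq_zero.1 (normSq_eq_zero.1 ((mul_eq_zero.1 h4).resolve_left (ND_pos h5).ne')))

theorem ND_ker (hγ : 0 < γ) {d : Zs γ} (h : HasDerivAt (fun t : ℝ => (t • d).lim) 0 0) :
    d = 0 := by
  have hγ' : (γ : ℂ) ≠ 0 := by exact_mod_cast hγ.ne'
  have hγ2 : (0 : ℝ) < γ := by exact_mod_cast hγ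
  have hid := hasDerivAt_id (0 : ℝ)
  have h2 : d.2.2.1 = 0 := funext fun k => by
    have a : HasDerivAt (fun t : ℝ => t * d.2.2.1 k) 0 0 := hasDerivAt_pi.1 h.snd.snd.fst k
    simpa using (hid.mul_const (d.2.2.1 k)).unique a
  have h3 : d.2.2.2 = 0 := funext fun k => by
    have a : HasDerivAt (fun t : ℝ => exp (-(t • d).2.2.2 k / 2) - 1) 0 0 :=
      hasDerivAt_pi.1 h.snd.snd.snd k
    have b := ((ND_lin 0 (-d.2.2.2 k / 2)).cexp.sub_const 1).unique
      (a.congr_of_eventuallyEq (Eventually.of_forall fun t => by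
        simp only [Prod.smul_snd, Pi.smul_apply, real_smul]
        congr 2
        ring))
    simpa using b
  have h1 : ∀ k, d.2.1 k = d.mean.re - 2 * ∑ j, d.2.1 j := fun k => by
    have a : HasDerivAt (fun t : ℝ => (t • d).mean.re - 2 * ∑ j, (t • d).2.1 j - (t • d).2.1 k)
        0 0 := hasDerivAt_pi.1 h.snd.fst k
    have b := (hid.mul_const (d.mean.re - 2 * ∑ j, d.2.1 j - d.2.1 k)).unique
      (a.congr_of_eventuallyEq (Eventually.of_forall fun t => by
        simp only [ND_mean, re_ofReal_mul, Prod.smul_snd, Prod.smul_fst, Pi.smul_apply,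
          smul_eq_mul, ← Finset.mul_sum, id]
        ring))
    linarith
  obtain ⟨η, hη⟩ : ∃ η, η = d.mean.re - 2 * ∑ j, d.2.1 j := ⟨_, rfl⟩
  rw [← hη] at h1
  simp only [h1, Finset.sum_const, Finset.card_univ, Fintype.card_fin, nsmul_eq_mul] at hη
  have h0 : ∀ k, 2 * NDl d.ξ k = (γ + 1 / 2) * η - I * d.mean.im := fun k => by
    have a : HasDerivAt (fun t : ℝ => (t • d).lim.1 k) 0 0 := hasDerivAt_pi.1 h.fst k
    have e1 := ND_eh h1 h2 k
    have b := ((e1.fun_mul ((ND_lin (γ + 1 / 2) d.mean.re).fun_neg.fun_add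
      (ND_fc h1 h2 h3 k false))).fun_add (e1.fun_mul (ND_fc h1 h2 h3 k true)).star).fun_add
      (ND_lin 0 (I * d.mean.im))
    have c := b.unique (a.congr_of_eventuallyEq (Eventually.of_forall fun t => by
      simp only [Zs.lim, ND_mean, re_ofReal_mul, im_ofReal_mul, Prod.smul_snd, h3, smul_zero,
        Pi.zero_apply, zero_div, exp_zero, one_mul, RCLike.star_def, ofReal_mul]
      ring))
    simp only [zero_smul, Zs.fc_zero, ZsB_eh_zero, one_mul, RCLike.star_def, map_add, map_mul,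
      conj_ofReal, map_div₀, map_sub, map_natCast, map_one, map_ofNat, if_true,
      Bool.false_eq_true, if_false, ND_conj, ofReal_zero, zero_mul, add_zero] at c
    have e2 : (η : ℂ) = d.mean.re - 2 * (γ * η) := by exact_mod_cast hη
    linear_combination c - e2
  have h5 : ∑ k, 2 * NDl d.ξ k = 0 := by
    have := ND_quad d.ξ fun _ => 1
    simpa [Finset.mul_sum] using this
  simp only [h0, Finset.sum_const, Finset.card_univ, Fintype.card_fin, nsmul_eq_mul] at h5
  have h6 := (mul_eq_zero.1 h5).resolve_left hγ'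
  have h7 : η = 0 := by
    have := congrArg re h6
    simp only [sub_re, mul_re, add_re, natCast_re, ofReal_re, ofReal_im, mul_zero, sub_zero, I_re,
      I_im, zero_mul, zero_re, one_div, inv_re, re_ofNat, normSq_ofNat] at this
    nlinarith
  have h8 : d.mean = 0 := by
    refine Complex.ext (by rw [zero_re]; rw [h7] at hη; linarith) ?_
    rw [h7] at h6
    simpa using h6
  have h9 := ND_const fun k => (mul_eq_zero.1 ((h0 k).trans h6)).resolve_left two_ne_zero
  refine Prod.ext (funext fun k => ?_) (Prod.ext (funext fun k => (h1 k).trans h7)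
    (Prod.ext h2 h3))
  have e : ∀ j, d.1 j = d.1 k := fun j => by simpa [Zs.ξ, h8] using h9 j k
  rw [Zs.mean] at h8
  simp only [e, Finset.sum_const, Finset.card_univ, Fintype.card_fin, nsmul_eq_mul] at h8
  simpa [hγ'] using h8

theorem ND_rf_smul (t : ℝ) (z : Zs γ) : (t • z).rf = t • z.rf := by
  refine Prod.ext (funext fun k => ?_) (Prod.ext rfl (Prod.ext (funext fun k => ?_)
    (funext fun k => ?_))) <;> simp [Zs.rf]

/-- the reflection as a linear map -/
def NDr (γ : ℕ) : Zs γ →L[ℝ] Zs γ := LinearMap.toContinuousLinearMap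
  { toFun := Zs.rf
    map_add' := fun z w => by
      refine Prod.ext (funext fun k => ?_) (Prod.ext rfl (Prod.ext (funext fun k => ?_)
        (funext fun k => ?_))) <;> simp [Zs.rf, add_comm]
    map_smul' := ND_rf_smul }

theorem Zs.nondeg {γ : ℕ} (hγ : 0 < γ) : ∃ B : Zs γ →L[ℝ] Zs γ, Function.Injective B ∧
    (∀ z : Zs γ, z.rf = z → (B z).rf = B z) ∧
    ∀ᶠ r in 𝓝[>] (0 : ℝ), ∀ z : Zs γ, ‖z‖ ≤ r → ‖z - B z.lim‖ ≤ r / 2 := by
  obtain ⟨A, hA⟩ : ∃ A, HasFDerivAt (Zs.lim : Zs γ → Zs γ) A 0 :=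
    (Zs.lim_contDiff hγ ND_zero_le).differentiableAt one_ne_zero
  have hline : ∀ d : Zs γ, HasDerivAt (fun t : ℝ => (t • d).lim) (A d) 0 := fun d => by
    have h1 : HasDerivAt (fun t : ℝ => t • d) d 0 := by
      simpa using (hasDerivAt_id (0 : ℝ)).smul_const d
    exact HasFDerivAt.comp_hasDerivAt_of_eq (0 : ℝ) hA h1 (zero_smul ℝ d).symm
  have hinj : Function.Injective A := (injective_iff_map_eq_zero A).2 fun d hd =>
    ND_ker hγ (hd ▸ hline d)
  have hrf : ∀ d : Zs γ, A d.rf = (A d).rf := fun d => by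
    refine (hline d.rf).unique ?_
    have := (NDr γ).hasFDerivAt.comp_hasDerivAt (0 : ℝ) (hline d)
    refine this.congr_of_eventuallyEq (Eventually.of_forall fun t => ?_)
    change (t • d.rf).lim = (t • d).lim.rf
    rw [← Zs.lim_rf, ND_rf_smul]
  let E := (LinearEquiv.ofInjectiveEndo (A : Zs γ →ₗ[ℝ] Zs γ) hinj).toContinuousLinearEquiv
  have hE : ∀ z, A (E.symm z) = z := fun z => E.apply_symm_apply z
  have hE' : ∀ z, E.symm (A z) = z := fun z => E.symm_apply_apply z
  refine ⟨E.symm, E.symm.injective, fun z hz => hinj ?_, ?_⟩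
  · change A (E.symm z).rf = A (E.symm z)
    rw [hrf, hE, hz]
  · have h1 : HasFDerivAt (fun z : Zs γ => z - E.symm z.lim) (0 : Zs γ →L[ℝ] Zs γ) 0 := by
      refine ((hasFDerivAt_id (0 : Zs γ)).sub
        ((E.symm : Zs γ →L[ℝ] Zs γ).hasFDerivAt.comp 0 hA)).congr_fderiv ?_
      refine ContinuousLinearMap.ext fun z => ?_
      exact sub_eq_zero.2 (hE' z).symm
    have h2 := h1.isLittleO.bound (c := 1 / 2) (by norm_num)
    simp only [Zs.lim_zero, map_zero, sub_zero, zero_apply] at h2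
    obtain ⟨ε, hε, h3⟩ := Metric.eventually_nhds_iff.1 h2
    filter_upwards [Ioo_mem_nhdsGT hε] with r hr z hz
    have h4 := h3 (y := z) (by rw [dist_zero_right]; exact hz.trans_lt hr.2)
    change ‖z - E.symm z.lim‖ ≤ r / 2
    linarith

end Pool.Agent.MP_92463a_gt
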