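import Pool.Agent.MP_92463a_gt.Pl0

open Set Complex Filter Metric
open scoped Topology ComplexConjugate ContDiff Manifold

noncomputable section

namespace Pool.Agent.MP_92463a_gt

/-! Gluing a Riemann surface to itself along an open set. -/

section
variable {M : Type} [TopologicalSpace M] [ChartedSpace ℂ M]

/-- the derivative at `z` of `g` read in the charts at `z` and `z'` -/
def tr (g : M → M) (z z' : M) : ℂ :=
  deriv (chartAt ℂ z' ∘ g ∘ (chartAt ℂ z).symm) (chartAt ℂ z z)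

/-- holomorphic 1-forms on `U` invariant under `g : O → O`; `om z` is the coefficient at `z` in
the chart at `z` -/
def formsU (U O : Set M) (g : M → M) : Submodule ℂ (M → ℂ) where
  carrier := {om | (∀ z ∉ U, om z = 0) ∧
    (∀ z ∈ U, ∃ φ : ℂ → ℂ, AnalyticAt ℂ φ (chartAt ℂ z z) ∧
      ∀ᶠ z' in 𝓝 z, om z' = φ (chartAt ℂ z z') * tr id z' z) ∧
    ∀ z ∈ O, om z = om (g z) * tr g z (g z)}
  add_mem' := by
    rintro f g ⟨a1, a2, a3⟩ ⟨b1, b2, b3⟩
    refine ⟨fun z hz => by simp [a1 z hz, b1 z hz], fun z hz => ?_, fun z hz => ?_⟩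
    · obtain ⟨φ, h1, h2⟩ := a2 z hz
      obtain ⟨ψ, h3, h4⟩ := b2 z hz
      refine ⟨φ + ψ, h1.add h3, ?_⟩
      filter_upwards [h2, h4] with z' e1 e2
      simp only [Pi.add_apply, e1, e2, add_mul]
    · simp only [Pi.add_apply, add_mul]
      rw [← a3 z hz, ← b3 z hz]
  zero_mem' := ⟨fun _ _ => rfl, fun z _ => ⟨0, analyticAt_const, by simp⟩, fun z _ => by simp⟩
  smul_mem' := by
    rintro a f ⟨a1, a2, a3⟩
    refine ⟨fun z hz => by simp [a1 z hz], fun z hz => ?_, fun z hz => ?_⟩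
    · obtain ⟨φ, h1, h2⟩ := a2 z hz
      refine ⟨fun w => a * φ w, analyticAt_const.mul h1, ?_⟩
      filter_upwards [h2] with z' e1
      simp only [Pi.smul_apply, smul_eq_mul, e1, mul_assoc]
    · simp only [Pi.smul_apply, smul_eq_mul, mul_assoc]
      rw [← a3 z hz]

structure Glue (U O : Set M) (g : M → M) (Cp : Set M) : Prop where
  oU : IsOpen U
  oO : IsOpen O
  sub : O ⊆ U
  maps : MapsTo g O O
  inv : ∀ z ∈ O, g (g z) = z
  ne : ∀ z ∈ O, g z ≠ z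
  cont : ContinuousOn g O
  hol : ∀ z ∈ O, AnalyticAt ℂ (chartAt ℂ (g z) ∘ g ∘ (chartAt ℂ z).symm) (chartAt ℂ z z)
  closed : ∀ z ∈ U, ∀ z' ∈ U, (z, z') ∈ closure {x : M × M | x.1 ∈ O ∧ x.2 = g x.1} →
    z ∈ O ∧ z' = g z
  cpt : IsCompact Cp
  cpU : Cp ⊆ U
  cover : ∀ z ∈ U, z ∈ Cp ∨ (z ∈ O ∧ g z ∈ Cp)
  conn : IsConnected U

/-- `N` is the quotient of `U` by `g`, with projection `π` and section `σ` -/
structure Plumbed (U O : Set M) (g : M → M) {N : Type} [TopologicalSpace N] [ChartedSpace ℂ N]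
    (π : M → N) (σ : N → M) : Prop where
  cont : ContinuousOn π U
  opn : ∀ V ⊆ U, IsOpen V → IsOpen (π '' V)
  eq : ∀ z ∈ U, ∀ z' ∈ U, π z = π z' ↔ z = z' ∨ (z ∈ O ∧ z' = g z)
  mem : ∀ n, σ n ∈ U
  sec : ∀ n, π (σ n) = n
  ctr : ∀ n, chartAt ℂ n n = chartAt ℂ (σ n) (σ n)
  tgt : ∀ n, ∀ w ∈ (chartAt ℂ n).target, w ∈ (chartAt ℂ (σ n)).target ∧
    (chartAt ℂ (σ n)).symm w ∈ U ∧ (chartAt ℂ n).symm w = π ((chartAt ℂ (σ n)).symm w)
  atl : ∀ e, e ∈ atlas ℂ N → ∃ n, e = chartAt ℂ n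

end

end Pool.Agent.MP_92463a_gt
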