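import Pool.Agent.MP_92463a_gt.Pb0

open Set Complex Filter Metric
open scoped Topology ComplexConjugate ContDiff Manifold

noncomputable section

namespace Pool.Agent.MP_92463a_gt

section
variable {M : Type} [TopologicalSpace M] [ChartedSpace ℂ M] {U O Cp : Set M} {g : M → M}

/-- the gluing relation on `U` -/
def Glue.pb1S (h : Glue U O g Cp) : Setoid U where
  r a b := a.1 = b.1 ∨ (a.1 ∈ O ∧ b.1 = g a.1)
  iseqv := by
    refine ⟨fun a => Or.inl rfl, ?_, ?_⟩
    · rintro a b (e | ⟨ha, e⟩)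
      · exact Or.inl e.symm
      · exact Or.inr ⟨e ▸ h.maps ha, by rw [e, h.inv _ ha]⟩
    · rintro a b c (e | ⟨ha, e⟩) (e' | ⟨hb, e'⟩)
      · exact Or.inl (e.trans e')
      · exact Or.inr ⟨e ▸ hb, by rw [e', e]⟩
      · exact Or.inr ⟨ha, by rw [← e', e]⟩
      · exact Or.inl (by rw [e', e, h.inv _ ha])

theorem Glue.pb1_eq (h : Glue U O g Cp) (a b : U) :
    Quotient.mk h.pb1S a = Quotient.mk h.pb1S b ↔ a.1 = b.1 ∨ (a.1 ∈ O ∧ b.1 = g a.1) :=
  Quotient.eq

theorem Glue.pb1_open (h : Glue U O g Cp) : IsOpenMap (Quotient.mk h.pb1S) := by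
  intro W hW
  obtain ⟨V, hV, rfl⟩ := isOpen_induced_iff.mp hW
  have hq : Topology.IsQuotientMap (Quotient.mk h.pb1S) := isQuotientMap_quot_mk
  rw [← hq.isOpen_preimage]
  have e : Quotient.mk h.pb1S ⁻¹' (Quotient.mk h.pb1S '' (Subtype.val ⁻¹' V)) =
      Subtype.val ⁻¹' (V ∪ (O ∩ g ⁻¹' V)) := by
    ext a
    simp only [mem_preimage, mem_image, mem_union, mem_inter_iff]
    constructor
    · rintro ⟨b, hb, e⟩
      rcases (h.pb1_eq a b).mp e.symm with e | ⟨ha, e⟩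
      · exact Or.inl (e ▸ hb)
      · exact Or.inr ⟨ha, e ▸ hb⟩
    · rintro (ha | ⟨ha, hb⟩)
      · exact ⟨a, ha, rfl⟩
      · exact ⟨⟨g a.1, h.sub (h.maps ha)⟩, hb, ((h.pb1_eq _ _).mpr (Or.inr ⟨ha, rfl⟩)).symm⟩
  rw [e]
  exact (hV.union (h.cont.isOpen_inter_preimage h.oO hV)).preimage continuous_subtype_val

theorem Glue.pb1_t2 [T2Space M] (h : Glue U O g Cp) : T2Space (Quotient h.pb1S) := by
  have hq : IsOpenQuotientMap (Quotient.mk h.pb1S) :=
    ⟨Quotient.mk_surjective, continuous_quot_mk, h.pb1_open⟩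
  rw [t2Space_iff_of_isOpenQuotientMap hq]
  have e : {q : U × U | Quotient.mk h.pb1S q.1 = Quotient.mk h.pb1S q.2} =
      {q : U × U | q.1.1 = q.2.1} ∪ (fun q : U × U => (q.1.1, q.2.1)) ⁻¹'
        closure {x : M × M | x.1 ∈ O ∧ x.2 = g x.1} := by
    ext q
    simp only [mem_ofPred_eq, mem_union, mem_preimage, h.pb1_eq]
    exact or_congr_right ⟨fun hq => subset_closure hq, fun hq => h.closed _ q.1.2 _ q.2.2 hq⟩
  rw [e]
  exact (isClosed_eq (by fun_prop) (by fun_prop)).union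
    (isClosed_closure.preimage (by fun_prop))

theorem Glue.pb1_nhd (h : Glue U O g Cp) {z : M} (hz : z ∈ U) :
    ∃ V : Set M, IsOpen V ∧ z ∈ V ∧ V ⊆ U ∧ V ⊆ (chartAt ℂ z).source ∧
      ∀ a ∈ V, ∀ b ∈ V, ¬ (a ∈ O ∧ b = g a) := by
  have h1 : (z, z) ∈ (closure {x : M × M | x.1 ∈ O ∧ x.2 = g x.1})ᶜ := fun hc => by
    obtain ⟨h1, h2⟩ := h.closed z hz z hz hc
    exact h.ne z h1 h2.symm
  obtain ⟨A, B, hA, hB, zA, zB, hAB⟩ :=
    isOpen_prod_iff.mp isClosed_closure.isOpen_compl z z h1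
  refine ⟨A ∩ B ∩ (U ∩ (chartAt ℂ z).source),
    (hA.inter hB).inter (h.oU.inter (chartAt ℂ z).open_source),
    ⟨⟨zA, zB⟩, hz, mem_chart_source ℂ z⟩, fun a ha => ha.2.1, fun a ha => ha.2.2, ?_⟩
  intro a ha b hb hab
  exact hAB (mk_mem_prod ha.1.1 hb.1.2) (subset_closure hab)

end

theorem Glue.exists_plumbed {M : Type} [TopologicalSpace M] [ChartedSpace ℂ M] [T2Space M]
    {U O Cp : Set M} {g : M → M} (h : Glue U O g Cp) :
    ∃ (N : Type) (_ : TopologicalSpace N) (_ : ChartedSpace ℂ N) (π : M → N) (σ : N → M),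
      T2Space N ∧ CompactSpace N ∧ ConnectedSpace N ∧ Plumbed U O g π σ := by
  classical
  obtain ⟨z0, hz0⟩ := h.conn.nonempty
  have : Nonempty M := ⟨z0⟩
  let π : M → Quotient h.pb1S := fun z =>
    if hz : z ∈ U then Quotient.mk h.pb1S ⟨z, hz⟩ else Quotient.mk h.pb1S ⟨z0, hz0⟩
  have hπ : ∀ a : U, π a.1 = Quotient.mk h.pb1S a := fun a => dif_pos a.2
  let σ : Quotient h.pb1S → M := fun n => (Quotient.out n).1
  have mem : ∀ n, σ n ∈ U := fun n => (Quotient.out n).2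
  have sec : ∀ n, π (σ n) = n := fun n => (hπ _).trans (Quotient.out_eq n)
  have cont : ContinuousOn π U := by
    rw [continuousOn_iff_continuous_domRestrict]
    have : U.domRestrict π = Quotient.mk h.pb1S := funext hπ
    rw [this]
    exact continuous_quot_mk
  have opn : ∀ V ⊆ U, IsOpen V → IsOpen (π '' V) := by
    intro V hVU hV
    have : π '' V = Quotient.mk h.pb1S '' (Subtype.val ⁻¹' V) := by
      ext n
      constructor
      · rintro ⟨z, hz, rfl⟩
        exact ⟨⟨z, hVU hz⟩, hz, (hπ ⟨z, hVU hz⟩).symm⟩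
      · rintro ⟨a, ha, rfl⟩
        exact ⟨a.1, ha, hπ a⟩
    rw [this]
    exact h.pb1_open _ (hV.preimage continuous_subtype_val)
  have eq : ∀ z ∈ U, ∀ z' ∈ U, π z = π z' ↔ z = z' ∨ (z ∈ O ∧ z' = g z) := by
    intro z hz z' hz'
    rw [hπ ⟨z, hz⟩, hπ ⟨z', hz'⟩]
    exact h.pb1_eq _ _
  have key : ∀ n : Quotient h.pb1S, ∃ e : OpenPartialHomeomorph M (Quotient h.pb1S),
      (e : M → Quotient h.pb1S) = π ∧ σ n ∈ e.source ∧ e.source ⊆ U := by
    intro n
    obtain ⟨V, hV, zV, VU, -, hn⟩ := h.pb1_nhd (mem n)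
    have inj : InjOn π V := fun a ha b hb e =>
      ((eq a (VU ha) b (VU hb)).mp e).resolve_right (hn a ha b hb)
    refine ⟨OpenPartialHomeomorph.ofContinuousOpenRestrict (inj.toPartialEquiv π V)
      (cont.mono VU) ?_ hV, rfl, zV, VU⟩
    intro W hW
    have hW' : IsOpen (Subtype.val '' W) := hV.isOpenMap_subtype_val W hW
    have := opn _ ((Subtype.coe_image_subset V W).trans VU) hW'
    rwa [image_image] at this
  choose e he1 he2 he3 using key
  have hs : ∀ n, (e n).symm n = σ n := fun n => by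
    have := (e n).left_inv (he2 n)
    rwa [he1, sec] at this
  have ht : ∀ n, n ∈ (e n).target := fun n => by
    have := (e n).map_source (he2 n)
    rwa [he1, sec] at this
  let cs : ChartedSpace ℂ (Quotient h.pb1S) :=
    { atlas := range fun n => (e n).symm.trans (chartAt ℂ (σ n))
      chartAt := fun n => (e n).symm.trans (chartAt ℂ (σ n))
      mem_chart_source := fun n => ⟨ht n, by
        show (e n).symm n ∈ (chartAt ℂ (σ n)).source
        rw [hs]
        exact mem_chart_source ℂ _⟩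
      chart_mem_atlas := fun n => ⟨n, rfl⟩ }
  refine ⟨Quotient h.pb1S, inferInstance, cs, π, σ, h.pb1_t2, ⟨?_⟩, ?_,
    cont, opn, eq, mem, sec, fun n => ?_, fun n w hw => ⟨hw.1, he3 n hw.2, ?_⟩,
    fun _ ⟨n, hn⟩ => ⟨n, hn.symm⟩⟩
  · have : π '' Cp = univ := by
      refine eq_univ_of_forall fun n => ?_
      rcases h.cover _ (mem n) with h1 | ⟨h1, h2⟩
      · exact ⟨_, h1, sec n⟩
      · exact ⟨_, h2, ((eq _ (mem n) _ (h.cpU h2)).mpr (Or.inr ⟨h1, rfl⟩)).symm.trans (sec n)⟩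
    rw [← this]
    exact h.cpt.image_of_continuousOn (cont.mono h.cpU)
  · have : π '' U = univ := eq_univ_of_forall fun n => ⟨_, mem n, sec n⟩
    rw [connectedSpace_iff_univ, ← this]
    exact h.conn.image π cont
  · show chartAt ℂ (σ n) ((e n).symm n) = _
    rw [hs]
  · show e n ((chartAt ℂ (σ n)).symm w) = _
    rw [he1]

end Pool.Agent.MP_92463a_gt
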