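import Pool.Agent.MP_92463a_gt.Pb0

open Set Complex Filter Metric
open scoped Topology ComplexConjugate ContDiff Manifold

noncomputable section

namespace Pool.Agent.MP_92463a_gt

variable {M N : Type} [TopologicalSpace M] [ChartedSpace ℂ M] [TopologicalSpace N]
  [ChartedSpace ℂ N] {U O Cp : Set M} {g : M → M} {π : M → N} {σ : N → M}

/-- changes of charts of `M` are analytic -/
theorem trans_an [IsManifold 𝓘(ℂ) ω M] {x y z : M} (hx : z ∈ (chartAt ℂ x).source)
    (hy : z ∈ (chartAt ℂ y).source) :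
    AnalyticAt ℂ (chartAt ℂ y ∘ (chartAt ℂ x).symm) (chartAt ℂ x z) := by
  have h1 : ContMDiffAt 𝓘(ℂ) 𝓘(ℂ) ω (chartAt ℂ x).symm (chartAt ℂ x z) :=
    contMDiffOn_chart_symm.contMDiffAt
      ((chartAt ℂ x).open_target.mem_nhds ((chartAt ℂ x).map_source hx))
  have h2 : ContMDiffAt 𝓘(ℂ) 𝓘(ℂ) ω (chartAt ℂ y) ((chartAt ℂ x).symm (chartAt ℂ x z)) := by
    rw [(chartAt ℂ x).left_inv hx]
    exact contMDiffOn_chart.contMDiffAt ((chartAt ℂ y).open_source.mem_nhds hy)
  exact (contMDiffAt_iff_contDiffAt.1 (h2.comp _ h1)).analyticAt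

/-- near a point of the target, the chart of `N` at `n` is the chart of `M` at `σ n` -/
theorem Plumbed.chart (h : Plumbed U O g π σ) (n : N) {w : ℂ} (hw : w ∈ (chartAt ℂ n).target) :
    ∀ᶠ z in 𝓝 ((chartAt ℂ (σ n)).symm w), z ∈ U ∧ π z ∈ (chartAt ℂ n).source ∧
      chartAt ℂ n (π z) = chartAt ℂ (σ n) z := by
  have h0 := (h.tgt n w hw).1
  have h1 := (chartAt ℂ (σ n)).map_target h0
  have h2 : ContinuousAt (chartAt ℂ (σ n)) ((chartAt ℂ (σ n)).symm w) :=
    (chartAt ℂ (σ n)).continuousAt h1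
  have h3 : (chartAt ℂ n).target ∈ 𝓝 (chartAt ℂ (σ n) ((chartAt ℂ (σ n)).symm w)) := by
    rw [(chartAt ℂ (σ n)).right_inv h0]
    exact (chartAt ℂ n).open_target.mem_nhds hw
  filter_upwards [h2 h3, (chartAt ℂ (σ n)).open_source.mem_nhds h1] with z hz hs
  obtain ⟨-, a, b⟩ := h.tgt n _ hz
  rw [(chartAt ℂ (σ n)).left_inv hs] at a b
  exact ⟨a, b ▸ (chartAt ℂ n).map_target hz, b ▸ (chartAt ℂ n).right_inv hz⟩

/-- the gluing map is analytic in any pair of charts -/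
theorem Pb2_glue_an [IsManifold 𝓘(ℂ) ω M] (hg : Glue U O g Cp) {x y z : M} (hz : z ∈ O)
    (hx : z ∈ (chartAt ℂ x).source) (hy : g z ∈ (chartAt ℂ y).source) :
    AnalyticAt ℂ (chartAt ℂ y ∘ g ∘ (chartAt ℂ x).symm) (chartAt ℂ x z) := by
  have e0 := (chartAt ℂ x).left_inv hx
  have a1 := trans_an hx (mem_chart_source ℂ z)
  have a2 := hg.hol z hz
  have a3 := trans_an (mem_chart_source ℂ (g z)) hy
  have a4 : AnalyticAt ℂ ((chartAt ℂ (g z) ∘ g ∘ (chartAt ℂ z).symm) ∘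
      (chartAt ℂ z ∘ (chartAt ℂ x).symm)) (chartAt ℂ x z) :=
    AnalyticAt.comp (by simpa only [Function.comp_apply, e0] using a2) a1
  have a5 := AnalyticAt.comp (g := chartAt ℂ y ∘ (chartAt ℂ (g z)).symm) (by
    simpa only [Function.comp_apply, e0, (chartAt ℂ z).left_inv (mem_chart_source ℂ z)] using a3) a4
  refine a5.congr ?_
  have c1 : Tendsto (chartAt ℂ x).symm (𝓝 (chartAt ℂ x z)) (𝓝 z) := by
    have := (chartAt ℂ x).continuousAt_symm ((chartAt ℂ x).map_source hx)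
    rwa [ContinuousAt, e0] at this
  have c2 : ContinuousAt g z := hg.cont.continuousAt (hg.oO.mem_nhds hz)
  filter_upwards [c1 (chart_source_mem_nhds ℂ z), c1 (c2 (chart_source_mem_nhds ℂ (g z)))]
    with v h1 h2
  simp only [Function.comp_apply]
  rw [(chartAt ℂ z).left_inv h1, (chartAt ℂ (g z)).left_inv h2]

/-- changes of preferred charts of `N` are analytic -/
theorem Pb2_trans [IsManifold 𝓘(ℂ) ω M] (h : Plumbed U O g π σ) (hg : Glue U O g Cp) (n n' : N)
    {w : ℂ} (hw : w ∈ (chartAt ℂ n).target) (hs : (chartAt ℂ n).symm w ∈ (chartAt ℂ n').source) :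
    AnalyticAt ℂ (chartAt ℂ n' ∘ (chartAt ℂ n).symm) w := by
  obtain ⟨t1, u1, e1⟩ := h.tgt n w hw
  have hw' := (chartAt ℂ n').map_source hs
  obtain ⟨t2, u2, e2⟩ := h.tgt n' _ hw'
  rw [(chartAt ℂ n').left_inv hs] at e2
  have ch := h.chart n' hw'
  set z := (chartAt ℂ (σ n)).symm w with hz
  set z' := (chartAt ℂ (σ n')).symm (chartAt ℂ n' ((chartAt ℂ n).symm w)) with hz'
  have s1 : z ∈ (chartAt ℂ (σ n)).source := (chartAt ℂ (σ n)).map_target t1
  have s2 : z' ∈ (chartAt ℂ (σ n')).source := (chartAt ℂ (σ n')).map_target t2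
  have ew : chartAt ℂ (σ n) z = w := (chartAt ℂ (σ n)).right_inv t1
  have c1 : Tendsto (chartAt ℂ (σ n)).symm (𝓝 w) (𝓝 z) := (chartAt ℂ (σ n)).continuousAt_symm t1
  have ev : ∀ᶠ v in 𝓝 w, (chartAt ℂ n).symm v = π ((chartAt ℂ (σ n)).symm v) := by
    filter_upwards [(chartAt ℂ n).open_target.mem_nhds hw] with v hv using (h.tgt n v hv).2.2
  rcases (h.eq z u1 z' u2).1 (e1.symm.trans e2) with e | ⟨o, e⟩
  · rw [← e] at ch s2
    have a := trans_an s1 s2
    rw [ew] at a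
    refine a.congr ?_
    filter_upwards [ev, c1 ch] with v h1 h2
    simp only [Function.comp_apply]
    rw [h1, h2.2.2]
  · rw [e] at ch s2
    have a := Pb2_glue_an hg o s1 s2
    rw [ew] at a
    refine a.congr ?_
    have c2 : ContinuousAt g z := hg.cont.continuousAt (hg.oO.mem_nhds o)
    filter_upwards [ev, c1 (c2 ch), c1 (hg.oO.mem_nhds o)] with v h1 h2 h3
    simp only [Function.comp_apply]
    rw [h1, (h.eq _ (hg.sub h3) _ (hg.sub (hg.maps h3))).2 (Or.inr ⟨h3, rfl⟩)]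
    exact h2.2.2.symm

theorem Plumbed.isManifold [IsManifold 𝓘(ℂ) ω M] (h : Plumbed U O g π σ) (hg : Glue U O g Cp) :
    IsManifold 𝓘(ℂ) ω N := by
  refine isManifold_of_contDiffOn _ _ _ fun e e' he he' => ?_
  obtain ⟨n, rfl⟩ := h.atl e he
  obtain ⟨n', rfl⟩ := h.atl e' he'
  refine AnalyticOnNhd.contDiffOn_of_completeSpace fun w hw => ?_
  simp only [modelWithCornersSelf_coe, modelWithCornersSelf_coe_symm, preimage_id_eq, id_eq,
    range_id, inter_univ, OpenPartialHomeomorph.trans_source, OpenPartialHomeomorph.symm_source,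
    mem_inter_iff, mem_preimage] at hw
  exact Pb2_trans h hg n n' hw.1 hw.2

end Pool.Agent.MP_92463a_gt
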