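import Pool.Agent.MP_92463a_gt.Pb2

open Set Complex Filter Metric
open scoped Topology ComplexConjugate ContDiff Manifold

noncomputable section

namespace Pool.Agent.MP_92463a_gt

section
variable {A B C : Type} [TopologicalSpace A] [ChartedSpace ℂ A] [TopologicalSpace B]
  [ChartedSpace ℂ B] [TopologicalSpace C] [ChartedSpace ℂ C]

/-- the map `F` read in the charts at `x` and `y` -/
def pb3L (F : A → B) (x : A) (y : B) : ℂ → ℂ := chartAt ℂ y ∘ F ∘ (chartAt ℂ x).symm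

/-- the derivative at `z` of `F` read in the charts at `x` and `y` -/
def pb3D (F : A → B) (x : A) (y : B) (z : A) : ℂ := deriv (pb3L F x y) (chartAt ℂ x z)

/-- `F` is analytic at `z` in the charts at `x` and `y` -/
def pb3A (F : A → B) (x : A) (y : B) (z : A) : Prop := AnalyticAt ℂ (pb3L F x y) (chartAt ℂ x z)

theorem pb3_tend {x z : A} (hx : z ∈ (chartAt ℂ x).source) :
    Tendsto (chartAt ℂ x).symm (𝓝 (chartAt ℂ x z)) (𝓝 z) := by
  have h := (chartAt ℂ x).continuousAt_symm ((chartAt ℂ x).map_source hx)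
  rwa [ContinuousAt, (chartAt ℂ x).left_inv hx] at h

theorem pb3L_congr {F F' : A → B} {x z : A} {y y' : B} (hx : z ∈ (chartAt ℂ x).source)
    (h : ∀ᶠ z' in 𝓝 z, chartAt ℂ y (F z') = chartAt ℂ y' (F' z')) :
    pb3L F x y =ᶠ[𝓝 (chartAt ℂ x z)] pb3L F' x y' :=
  (pb3_tend hx).eventually h

theorem pb3L_congr' {F : A → B} {F' : A → C} {x z : A} {y : B} {y' : C}
    (hx : z ∈ (chartAt ℂ x).source)
    (h : ∀ᶠ z' in 𝓝 z, chartAt ℂ y (F z') = chartAt ℂ y' (F' z')) :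
    pb3L F x y =ᶠ[𝓝 (chartAt ℂ x z)] pb3L F' x y' :=
  (pb3_tend hx).eventually h

theorem pb3L_comp {F : A → B} (G : B → C) {x z : A} {y : B} (w : C)
    (hx : z ∈ (chartAt ℂ x).source) (hF : ContinuousAt F z) (hy : F z ∈ (chartAt ℂ y).source) :
    pb3L (G ∘ F) x w =ᶠ[𝓝 (chartAt ℂ x z)] pb3L G y w ∘ pb3L F x y := by
  have h1 : ∀ᶠ z' in 𝓝 z, F z' ∈ (chartAt ℂ y).source :=
    hF.eventually ((chartAt ℂ y).open_source.mem_nhds hy)
  filter_upwards [(pb3_tend hx).eventually h1] with u hu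
  simp only [pb3L, Function.comp_apply, (chartAt ℂ y).left_inv hu]

theorem pb3L_apply (F : A → B) {x z : A} (y : B) (hx : z ∈ (chartAt ℂ x).source) :
    pb3L F x y (chartAt ℂ x z) = chartAt ℂ y (F z) := by
  simp only [pb3L, Function.comp_apply, (chartAt ℂ x).left_inv hx]

theorem pb3A_comp {F : A → B} {G : B → C} {x z : A} {y : B} {w : C}
    (hx : z ∈ (chartAt ℂ x).source) (hF : ContinuousAt F z) (hy : F z ∈ (chartAt ℂ y).source)
    (h1 : pb3A F x y z) (h2 : pb3A G y w (F z)) : pb3A (G ∘ F) x w z := by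
  refine AnalyticAt.congr ?_ (pb3L_comp G w hx hF hy).symm
  exact AnalyticAt.comp_of_eq h2 h1 (pb3L_apply F y hx)

theorem pb3D_comp {F : A → B} {G : B → C} {x z : A} {y : B} {w : C}
    (hx : z ∈ (chartAt ℂ x).source) (hF : ContinuousAt F z) (hy : F z ∈ (chartAt ℂ y).source)
    (h1 : pb3A F x y z) (h2 : pb3A G y w (F z)) :
    pb3D (G ∘ F) x w z = pb3D G y w (F z) * pb3D F x y z := by
  unfold pb3D
  rw [(pb3L_comp G w hx hF hy).deriv_eq, deriv_comp, pb3L_apply F y hx]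
  · rw [pb3L_apply F y hx]
    exact h2.differentiableAt
  · exact h1.differentiableAt

theorem pb3D_id {x z : A} (hx : z ∈ (chartAt ℂ x).source) : pb3D id x x z = 1 := by
  have h : pb3L id x x =ᶠ[𝓝 (chartAt ℂ x z)] id := by
    filter_upwards [(chartAt ℂ x).open_target.mem_nhds ((chartAt ℂ x).map_source hx)] with u hu
    simp only [pb3L, Function.comp_apply, id, (chartAt ℂ x).right_inv hu]
  rw [pb3D, h.deriv_eq, deriv_id]

theorem pb3A_id [IsManifold 𝓘(ℂ) ω A] {x y z : A} (hx : z ∈ (chartAt ℂ x).source)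
    (hy : z ∈ (chartAt ℂ y).source) : pb3A id x y z :=
  trans_an hx hy

theorem pb3D_trans [IsManifold 𝓘(ℂ) ω A] {x y w z : A} (hx : z ∈ (chartAt ℂ x).source)
    (hy : z ∈ (chartAt ℂ y).source) (hw : z ∈ (chartAt ℂ w).source) :
    pb3D id y w z * pb3D id x y z = pb3D id x w z :=
  (pb3D_comp (F := id) (G := id) hx continuousAt_id hy (pb3A_id hx hy) (pb3A_id hy hw)).symm

theorem pb3D_inv [IsManifold 𝓘(ℂ) ω A] {x y z : A} (hx : z ∈ (chartAt ℂ x).source)
    (hy : z ∈ (chartAt ℂ y).source) : pb3D id y x z * pb3D id x y z = 1 := by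
  rw [pb3D_trans hx hy hx, pb3D_id hx]

end

variable {M N : Type} [TopologicalSpace M] [ChartedSpace ℂ M] [TopologicalSpace N]
  [ChartedSpace ℂ N] {U O Cp : Set M} {g : M → M} {π : M → N} {σ : N → M}

theorem Plumbed.pb3_cont (h : Plumbed U O g π σ) (hg : Glue U O g Cp) {z : M} (hz : z ∈ U) :
    ContinuousAt π z :=
  h.cont.continuousAt (hg.oU.mem_nhds hz)

theorem Plumbed.pb3_glue (h : Plumbed U O g π σ) (hg : Glue U O g Cp) {z : M} (hz : z ∈ O) :
    π (g z) = π z :=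
  ((h.eq z (hg.sub hz) (g z) (hg.sub (hg.maps hz))).2 (Or.inr ⟨hz, rfl⟩)).symm

theorem Plumbed.pb3_glue_ev (h : Plumbed U O g π σ) (hg : Glue U O g Cp) {z x : M} (hz : z ∈ O)
    (hx : z ∈ (chartAt ℂ x).source) (n : N) :
    pb3L (π ∘ g) x n =ᶠ[𝓝 (chartAt ℂ x z)] pb3L π x n := by
  refine pb3L_congr hx ?_
  filter_upwards [hg.oO.mem_nhds hz] with z' hz'
  rw [Function.comp_apply, h.pb3_glue hg hz']

/-- the preferred lift of a point of a chart -/
theorem Plumbed.pb3_lift (h : Plumbed U O g π σ) {n q : N} (hq : q ∈ (chartAt ℂ n).source) :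
    (chartAt ℂ (σ n)).symm (chartAt ℂ n q) ∈ U ∧
      (chartAt ℂ (σ n)).symm (chartAt ℂ n q) ∈ (chartAt ℂ (σ n)).source ∧
      π ((chartAt ℂ (σ n)).symm (chartAt ℂ n q)) = q := by
  obtain ⟨h1, h2, h3⟩ := h.tgt n _ ((chartAt ℂ n).map_source hq)
  exact ⟨h2, (chartAt ℂ (σ n)).map_target h1, by rw [← h3, (chartAt ℂ n).left_inv hq]⟩

theorem Plumbed.pb3_lift_ev (h : Plumbed U O g π σ) {n : N} {w : ℂ}
    (hw : w ∈ (chartAt ℂ n).target) {x : M}
    (hx : (chartAt ℂ (σ n)).symm w ∈ (chartAt ℂ x).source) :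
    pb3L π x n =ᶠ[𝓝 (chartAt ℂ x ((chartAt ℂ (σ n)).symm w))] pb3L id x (σ n) := by
  refine pb3L_congr' hx ?_
  filter_upwards [h.chart n hw] with z' hz'
  exact hz'.2.2

theorem Plumbed.pb3_an [IsManifold 𝓘(ℂ) ω M] (h : Plumbed U O g π σ) (hg : Glue U O g Cp)
    {z x : M} {n : N} (hz : z ∈ U) (hx : z ∈ (chartAt ℂ x).source)
    (hn : π z ∈ (chartAt ℂ n).source) : pb3A π x n z := by
  obtain ⟨h1, h2, h3⟩ := h.pb3_lift hn
  have hw := (chartAt ℂ n).map_source hn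
  have key : ∀ y, (chartAt ℂ (σ n)).symm (chartAt ℂ n (π z)) ∈ (chartAt ℂ y).source →
      pb3A π y n ((chartAt ℂ (σ n)).symm (chartAt ℂ n (π z))) := fun y hy =>
    AnalyticAt.congr (pb3A_id hy h2) (h.pb3_lift_ev hw hy).symm
  rcases (h.eq z hz _ h1).1 h3.symm with e | ⟨ho, e⟩
  · rw [← e] at key
    exact key x hx
  · rw [e] at key
    have hc : ContinuousAt g z := hg.cont.continuousAt (hg.oO.mem_nhds ho)
    have a1 : pb3A (π ∘ g) z n z :=
      pb3A_comp (mem_chart_source ℂ z) hc (mem_chart_source ℂ (g z)) (hg.hol z ho)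
        (key _ (mem_chart_source ℂ (g z)))
    have a2 : pb3A π z n z := AnalyticAt.congr a1 (h.pb3_glue_ev hg ho (mem_chart_source ℂ z) n)
    exact pb3A_comp (F := id) hx continuousAt_id (mem_chart_source ℂ z)
      (pb3A_id hx (mem_chart_source ℂ z)) a2

theorem Plumbed.pb3_glueD [IsManifold 𝓘(ℂ) ω M] (h : Plumbed U O g π σ) (hg : Glue U O g Cp)
    {z : M} {n : N} (hz : z ∈ O) (hn : π z ∈ (chartAt ℂ n).source) :
    pb3D π z n z = pb3D π (g z) n (g z) * tr g z (g z) := by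
  have hc : ContinuousAt g z := hg.cont.continuousAt (hg.oO.mem_nhds hz)
  have e := pb3D_comp (G := π) (w := n) (mem_chart_source ℂ z) hc (mem_chart_source ℂ (g z))
    (hg.hol z hz) (h.pb3_an hg (hg.sub (hg.maps hz)) (mem_chart_source ℂ (g z))
      (by rwa [h.pb3_glue hg hz]))
  rw [pb3D, (h.pb3_glue_ev hg hz (mem_chart_source ℂ z) n).deriv_eq] at e
  exact e

theorem Plumbed.pb3_liftD (h : Plumbed U O g π σ) {n : N} {w : ℂ}
    (hw : w ∈ (chartAt ℂ n).target) {x : M}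
    (hx : (chartAt ℂ (σ n)).symm w ∈ (chartAt ℂ x).source) :
    pb3D π x n ((chartAt ℂ (σ n)).symm w) = pb3D id x (σ n) ((chartAt ℂ (σ n)).symm w) :=
  (h.pb3_lift_ev hw hx).deriv_eq

end Pool.Agent.MP_92463a_gt
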