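import Pool.Agent.MP_92463a_gt.Num0

open Set Complex Filter Metric
open scoped Topology ComplexConjugate ContDiff Manifold

noncomputable section

namespace Pool.Agent.MP_92463a_gt

/-! Plumbing data in the `t`-plane: discs around the ports `c e`, glued in pairs by `v v' = s`. -/

/-- the average of `f` over the circle `|v| = R` -/
def av (R : ℝ) (f : ℂ → ℂ) : ℂ := Real.circleAverage f 0 R

/-- the partner port -/
def op {ι : Type} (e : ι × Bool) : ι × Bool := (e.1, !e.2)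

@[simp] theorem op_op {ι : Type} (e : ι × Bool) : op (op e) = e := by
  simp [op]

@[simp] theorem op_fst {ι : Type} (e : ι × Bool) : (op e).1 = e.1 := rfl

theorem op_ne {ι : Type} (e : ι × Bool) : op e ≠ e := by
  rcases e with ⟨k, _ | _⟩ <;> simp [op]

structure Pl (ι : Type) where
  c : ι × Bool → ℂ
  ρ : ι × Bool → ℝ
  s : ι → ℂ

namespace Pl

variable {ι : Type} (P : Pl ι)

def rin (e : ι × Bool) : ℝ := ‖P.s e.1‖ / P.ρ (op e)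

/-- the radius of the waist -/
def mu (e : ι × Bool) : ℝ := √(‖P.s e.1‖ * P.ρ e / P.ρ (op e))

def Om : Set ℂ := {t | ∀ e, P.rin e < ‖t - P.c e‖}

/-- the fundamental domain -/
def Fd : Set ℂ := {t | ∀ e, P.mu e ≤ ‖t - P.c e‖}

def Ann (e : ι × Bool) : Set ℂ := {v | P.rin e < ‖v‖ ∧ ‖v‖ < P.ρ e}

def Ann2 (e : ι × Bool) : Set ℂ := {v | P.rin e < ‖v‖ ∧ ‖v‖ < 2 * P.ρ e}

structure Ok : Prop where
  ρ_pos : ∀ e, 0 < P.ρ e
  s_ne : ∀ k, P.s k ≠ 0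
  s_small : ∀ e, 16 * ‖P.s e.1‖ ≤ P.ρ e * P.ρ (op e)
  sep : ∀ e e', e ≠ e' → 2 * P.ρ e + 2 * P.ρ e' ≤ ‖P.c e - P.c e'‖

/-- weights -/
structure Wt (m : ι × Bool → ℂ → ℂ) : Prop where
  hol : ∀ e, DifferentiableOn ℂ (m e) (ball 0 (2 * P.ρ e))
  zero : ∀ e, m e 0 = 1
  near : ∀ e, ∀ v ∈ ball (0 : ℂ) (2 * P.ρ e), ‖m e v - 1‖ ≤ 1 / 2

/-- the principal part at the port `e`, computed on the circle around the partner port with the
kernel `κ` -/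
def pk (κ : ι × Bool → ℂ → ℂ → ℂ) (f : ℂ → ℂ) (e : ι × Bool) (t : ℂ) : ℂ :=
  av (P.ρ (op e)) fun v => κ e v (t - P.c e) * f (P.c (op e) + v)

/-- the kernel of spinors -/
def k1 (m : ι × Bool → ℂ → ℂ) (r : ι × Bool → ℂ) (e : ι × Bool) (v u : ℂ) : ℂ :=
  r e * m (op e) v / (m e (P.s e.1 / v) * (u - P.s e.1 / v))

/-- the kernel of 1-forms, without the residue -/
def k2 (m : ι × Bool → ℂ → ℂ) (r : ι × Bool → ℂ) (e : ι × Bool) (v u : ℂ) : ℂ :=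
  r e / P.s e.1 * v * m (op e) v * ((m e (P.s e.1 / v) * (u - P.s e.1 / v))⁻¹ - u⁻¹)

/-- the matching condition of weight `d` -/
def Mt (d : ℕ) (m : ι × Bool → ℂ → ℂ) (r : ι × Bool → ℂ) (f : ℂ → ℂ) : Prop :=
  ∀ e, ∀ v ∈ P.Ann e, m e v * f (P.c e + v) =
    r e / v ^ d * (m (op e) (P.s e.1 / v) * f (P.c (op e) + P.s e.1 / v))

/-- a matched family of local 1-forms -/
structure MF (φ : ι × Bool → ℂ → ℂ) : Prop where
  hol : ∀ e, DifferentiableOn ℂ (φ e) (P.Ann2 e)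
  mt : ∀ e, ∀ v ∈ P.Ann e, φ e v = -(P.s e.1 / v ^ 2) * φ (op e) (P.s e.1 / v)

/-- the residue -/
def rs (φ : ι × Bool → ℂ → ℂ) (e : ι × Bool) : ℂ := av (P.ρ e) fun v => φ e v * v

/-- the primitive of the principal part without the residue -/
def th (φ : ι × Bool → ℂ → ℂ) (e : ι × Bool) (u : ℂ) : ℂ :=
  -av (P.ρ (op e)) fun v => φ (op e) v * v * log (1 - P.s e.1 / v / u)

/-- the principal part -/
def pf (φ : ι × Bool → ℂ → ℂ) (e : ι × Bool) (u : ℂ) : ℂ :=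
  -av (P.ρ (op e)) fun v => φ (op e) v * v / (u - P.s e.1 / v)

/-- symmetry of the data under complex conjugation -/
structure Sy (κ : ι → ι) : Prop where
  c : ∀ e : ι × Bool, P.c (κ e.1, e.2) = conj (P.c e)
  ρ : ∀ e : ι × Bool, P.ρ (κ e.1, e.2) = P.ρ e
  s : ∀ k, P.s (κ k) = conj (P.s k)
  inv : ∀ k, κ (κ k) = k

variable [Fintype ι]

def step (κ : ι × Bool → ℂ → ℂ → ℂ) (F f : ℂ → ℂ) (t : ℂ) : ℂ := F t + ∑ e, P.pk κ f e t

/-- the solution of `f = F + ∑ pk κ f` -/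
def psi (κ : ι × Bool → ℂ → ℂ → ℂ) (F : ℂ → ℂ) : ℂ → ℂ :=
  P.step κ F fun t => limUnder atTop fun n : ℕ => (P.step κ F)^[n] 0 t

/-- the kernel is a contraction for the weights `W` -/
structure KB (κ : ι × Bool → ℂ → ℂ → ℂ) (W : ι × Bool → ℝ) : Prop where
  pos : ∀ e, 0 < W e
  cont : ∀ e, ContinuousOn (fun z : ℂ × ℂ => κ e z.1 z.2)
    {z | ‖z.1‖ = P.ρ (op e) ∧ P.rin e < ‖z.2‖}
  bd : ∀ e v, ‖v‖ = P.ρ e → ∃ β : ι × Bool → ℝ,
    (∀ e' v', ‖v'‖ = P.ρ (op e') → ‖κ e' v' (P.c e + v - P.c e')‖ ≤ β e') ∧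
      ∑ e', β e' * W (op e') ≤ W e / 2

/-- `F` is continuous and bounded by `B W` on the circles -/
def FB (F : ℂ → ℂ) (B : ℝ) (W : ι × Bool → ℝ) : Prop :=
  ∀ e, ContinuousOn (fun v => F (P.c e + v)) {v | ‖v‖ = P.ρ e} ∧
    ∀ v, ‖v‖ = P.ρ e → ‖F (P.c e + v)‖ ≤ B * W e

def Con (r : ι × Bool → ℂ) (W : ι × Bool → ℝ) : Prop :=
  (∀ e, 0 < W e) ∧ ∀ e v, ‖v‖ = P.ρ e →
    ∑ e', 6 * ‖r e'‖ * W (op e') / ‖P.c e + v - P.c e'‖ ≤ W e / 2

def Con2 (r : ι × Bool → ℂ) : Prop :=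
  ∀ e v, ‖v‖ = P.ρ e →
    ∑ e', 12 * ‖r e'‖ * ((P.ρ e')⁻¹ + ‖P.c e + v - P.c e'‖⁻¹) / ‖P.c e + v - P.c e'‖ ≤ 1 / 2

omit [Fintype ι] in
/-- matched functions of weight two with growth `t ^ (N - 1)` -/
def Fs (m : ι × Bool → ℂ → ℂ) (r : ι × Bool → ℂ) (N : ℕ) : Submodule ℂ (ℂ → ℂ) where
  carrier := {f | DifferentiableOn ℂ f P.Om ∧ (∀ t ∉ P.Om, f t = 0) ∧ P.Mt 2 m r f ∧
    ∃ C R : ℝ, ∀ t, R ≤ ‖t‖ → ‖f t‖ * ‖t‖ ≤ C * ‖t‖ ^ N}
  add_mem' := by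
    rintro f g ⟨a1, a2, a3, C, R, a4⟩ ⟨b1, b2, b3, C', R', b4⟩
    refine ⟨a1.add b1, fun t ht => by simp [a2 t ht, b2 t ht], fun e v hv => ?_,
      C + C', max R R', fun t ht => ?_⟩
    · simp only [Pi.add_apply, mul_add, a3 e v hv, b3 e v hv]
    · have h1 := a4 t ((le_max_left _ _).trans ht)
      have h2 := b4 t ((le_max_right _ _).trans ht)
      have h3 := mul_le_mul_of_nonneg_right (norm_add_le (f t) (g t)) (norm_nonneg t)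
      simp only [Pi.add_apply]
      linarith
  zero_mem' := ⟨differentiableOn_const 0, fun _ _ => rfl, fun e v _ => by simp, 0, 0,
    fun t _ => by simp⟩
  smul_mem' := by
    rintro a f ⟨a1, a2, a3, C, R, a4⟩
    refine ⟨a1.const_smul a, fun t ht => by simp [a2 t ht], fun e v hv => ?_,
      ‖a‖ * C, R, fun t ht => ?_⟩
    · simp only [Pi.smul_apply, smul_eq_mul]
      linear_combination a * a3 e v hv
    · simp only [Pi.smul_apply, smul_eq_mul, norm_mul, mul_assoc]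
      exact mul_le_mul_of_nonneg_left (a4 t ht) (norm_nonneg a)

end Pl

/-- the fundamental theorem of calculus along paths in `S` for `dX = f₁ dt - conj (f₂ dt)` -/
structure PathP (S : Set ℂ) (X f₁ f₂ : ℂ → ℂ) : Prop where
  c₁ : ContinuousOn f₁ S
  c₂ : ContinuousOn f₂ S
  ftc : ∀ (γ γ' : ℝ → ℂ) (a b : ℝ), (∀ x ∈ uIcc a b, HasDerivAt γ (γ' x) x) →
    ContinuousOn γ' (uIcc a b) → (∀ x ∈ uIcc a b, γ x ∈ S) →
    X (γ b) - X (γ a) = ∫ x in a..b, (f₁ (γ x) * γ' x - conj (f₂ (γ x) * γ' x))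

/-- the real linear form `v ↦ 2 Re (φ v)` -/
def hl (φ : ℂ) : ℂ →L[ℝ] ℝ := (2 : ℝ) • reCLM.comp (ContinuousLinearMap.mul ℝ ℂ φ)

theorem hl_apply (φ v : ℂ) : hl φ v = 2 * (φ * v).re := by
  simp [hl]

/-- convergence of Weierstrass data -/
structure Dat.Tends {α : Type} (l : Filter α) (D : α → Dat) (D₀ : Dat) : Prop where
  ok₀ : D₀.Ok
  ok : ∀ᶠ x in l, (D x).Ok ∧ (D x).p = D₀.p ∧ (D x).q = D₀.q
  a : ∀ i < D₀.p, Tendsto (fun x => (D x).a i) l (𝓝 (D₀.a i))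
  b : ∀ j < D₀.q, Tendsto (fun x => (D x).b j) l (𝓝 (D₀.b j))
  ρ : Tendsto (fun x => (D x).ρ) l (𝓝 D₀.ρ)

end Pool.Agent.MP_92463a_gt
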