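import Pool.Agent.MP_92463a_gt.DatC
import Pool.Agent.MP_943ae2_gt.Tych

open Set Complex Filter Metric
open scoped Topology ComplexConjugate ContDiff Manifold

noncomputable section

namespace Pool.Agent.MP_92463a_gt

theorem Rob_one {J : Type} [Fintype J] {A L : (J → ℝ) → J → ℝ} (i : J)
    (cA : ∀ j, ContinuousOn (fun x => A x j) (cube J))
    (cL : ∀ j, ContinuousOn (fun x => L x j) (cube J))
    (face : ∀ x ∈ cube J, (x i = 1 → 0 < ∑ j, A x j * L x j) ∧
      (x i = -1 → ∑ j, A x j * L x j < 0)) :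
    ∃ δ > 0, ∀ x ∈ cube J, ∀ w : J → ℝ, (∀ j, |w j - L x j| ≤ δ) →
      (x i = 1 → 0 < ∑ j, A x j * w j) ∧ (x i = -1 → ∑ j, A x j * w j < 0) := by
  have hS : IsCompact (cube J ∩ {x | |x i| = 1}) :=
    isCompact_cube.inter_right (isClosed_eq (by fun_prop) continuous_const)
  have c1 : ContinuousOn (fun x : J → ℝ => x i * ∑ j, A x j * L x j) (cube J) :=
    (continuous_apply i).continuousOn.mul
      (continuousOn_finsetSum _ fun j _ => (cA j).mul (cL j))
  obtain ⟨m, hm, h1⟩ := hS.exists_forall_le' (a := 0) (c1.mono inter_subset_left) (by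
    rintro x ⟨hx, h⟩
    rcases (abs_eq zero_le_one).1 h with h | h
    · rw [h, one_mul]
      exact (face x hx).1 h
    · have := (face x hx).2 h
      rw [h]
      linarith)
  obtain ⟨C, hC⟩ := isCompact_cube.exists_bound_of_continuousOn
    (f := fun x : J → ℝ => ∑ j, |A x j|) (continuousOn_finsetSum _ fun j _ => (cA j).abs)
  have hC0 : 0 < |C| + 1 := by positivity
  refine ⟨m / (|C| + 1), by positivity, fun x hx w hw => ?_⟩
  have h2 : |∑ j, A x j * w j - ∑ j, A x j * L x j| < m := by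
    rw [← Finset.sum_sub_distrib]
    refine (Finset.abs_sum_le_sum_abs _ _).trans_lt ?_
    have h3 : ∑ j, |A x j * w j - A x j * L x j| ≤ ∑ j, |A x j| * (m / (|C| + 1)) :=
      Finset.sum_le_sum fun j _ => by
        rw [← mul_sub, abs_mul]
        exact mul_le_mul_of_nonneg_left (hw j) (abs_nonneg _)
    refine h3.trans_lt ?_
    rw [← Finset.sum_mul]
    have h4 : ∑ j, |A x j| ≤ |C| := (le_abs_self _).trans ((hC x hx).trans (le_abs_self _))
    calc _ ≤ |C| * (m / (|C| + 1)) := mul_le_mul_of_nonneg_right h4 (by positivity)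
      _ < (|C| + 1) * (m / (|C| + 1)) := mul_lt_mul_of_pos_right (lt_add_one _) (by positivity)
      _ = m := mul_div_cancel₀ _ hC0.ne'
  rw [abs_lt] at h2
  constructor <;> intro h <;> have h5 := h1 x ⟨hx, by simp [h]⟩ <;> rw [h] at h5 <;> linarith

theorem Rob_clip {a h : ℝ} (ha : |a| ≤ 1) (e : max (-1) (min 1 (a - h)) = a)
    (p1 : a = 1 → 0 < h) (p2 : a = -1 → h < 0) : h = 0 := by
  have hai := abs_le.1 ha
  rcases le_total 1 (a - h) with c | c
  · rw [min_eq_left c, max_eq_right (by norm_num)] at e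
    have := p1 e.symm
    linarith
  · rw [min_eq_right c] at e
    rcases le_total (-1) (a - h) with c' | c'
    · rw [max_eq_right c'] at e
      linarith
    · rw [max_eq_left c'] at e
      have := p2 e.symm
      linarith

/-- the period problem of a family is stable under small perturbations -/
theorem Fam.robust {J : Type} [Fintype J] {p q : ℕ} (F : Fam J p q) :
    ∃ δ > 0, ∀ {Y : Type} [NormedAddCommGroup Y] [NormedSpace ℝ Y] {K : Set Y}, IsCompact K →
      Convex ℝ K → K.Nonempty → ∀ {f : (J → ℝ) × Y → J → ℝ} {Φ : (J → ℝ) × Y → Y},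
      ContinuousOn f (cube J ×ˢ K) → ContinuousOn Φ (cube J ×ˢ K) → MapsTo Φ (cube J ×ˢ K) K →
      (∀ z ∈ cube J ×ˢ K, ∀ i,
        |f z i - Lk (F.D z.1).F1 (F.D z.1).F2 (F.su i).ty (F.u i z.1) (F.v i z.1)| ≤ δ) →
      ∃ z ∈ cube J ×ˢ K, f z = 0 ∧ Φ z = z.2 := by
  choose d hd h1 using fun i => Rob_one (A := fun x => F.A x i)
    (L := fun x j => Lk (F.D x).F1 (F.D x).F2 (F.su j).ty (F.u j x) (F.v j x)) i (F.cA i)
    F.lk_cont fun x hx => F.face x hx i
  obtain ⟨δ, h2, hδ⟩ := ((eventually_all.2 fun i => (eventually_le_nhds (hd i)).filter_mono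
    (nhdsWithin_le_nhds (s := Ioi (0 : ℝ)))).and self_mem_nhdsWithin).exists
  refine ⟨δ, hδ, fun {Y} _ _ K hK hv hn f Φ cf cΦ mΦ hf => ?_⟩
  have cT : ContinuousOn (fun z : (J → ℝ) × Y => ((fun i => max (-1) (min 1
      (z.1 i - ∑ j, F.A z.1 i j * f z j)), Φ z) : (J → ℝ) × Y)) (cube J ×ˢ K) := by
    refine ContinuousOn.prodMk (continuousOn_pi.2 fun i => ?_) cΦ
    have h3 : Continuous fun t : ℝ => max (-1) (min 1 t) := by fun_prop
    refine h3.comp_continuousOn (((continuous_apply i).comp continuous_fst).continuousOn.sub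
      (continuousOn_finsetSum _ fun j _ => ContinuousOn.mul ?_ ?_))
    · exact (F.cA i j).comp continuousOn_fst fun z hz => hz.1
    · exact (continuous_apply j).comp_continuousOn cf
  obtain ⟨z, hz, e⟩ := MP_943ae2_gt.tychonoff (isCompact_cube.prod hK) (convex_cube.prod hv)
    (Set.Nonempty.prod ⟨0, fun i => by simp⟩ hn) cT fun z hz => ⟨fun i => abs_le.2
      ⟨le_max_left _ _, max_le (by norm_num) (min_le_left _ _)⟩, mΦ hz⟩
  refine ⟨z, hz, F.inj z.1 hz.1 _ fun i => ?_, congrArg Prod.snd e⟩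
  obtain ⟨p1, p2⟩ := h1 i z.1 hz.1 (f z) fun j => (hf z hz j).trans (h2 i)
  exact Rob_clip (hz.1 i) (congrFun (congrArg Prod.fst e) i) p1 p2

end Pool.Agent.MP_92463a_gt
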