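import Pool.Agent.MP_92463a_gt.Emb4
import Pool.Agent.MP_92463a_gt.WXg
import Pool.Agent.MP_92463a_gt.Inj
import Pool.Agent.MP_92463a_gt.DatC

open Set Complex Filter Metric
open scoped Topology ComplexConjugate ContDiff Manifold

noncomputable section

namespace Pool.Agent.MP_92463a_gt

theorem WL1_y {D : Dat} {X : ℂ → ℂ} (hD : D.Ok) (hX : D.Sol X) {t : ℂ} (ht : t ∈ D.Q) :
    ∃ y, y ^ 2 = D.P t ∧ D.Xg X t y = X t := by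
  by_cases hP : D.P t = 0
  · exact ⟨0, by simp [hP], by
      simp [Dat.Xg, hX.X_a hD ((Dat.P_eq_zero.1 hP).resolve_left ht.2)]⟩
  · exact ⟨_, Dat.Y_sq hP, Dat.Xg_Y ht.1⟩

theorem Dat.Sol.inj_Q {D : Dat} {X : ℂ → ℂ} (hD : D.Ok) (hX : D.Sol X) {t t' : ℂ} (ht : t ∈ D.Q)
    (ht' : t' ∈ D.Q) (he : X t = X t') (hn : ‖t‖ = ‖t'‖) : t = t' := by
  obtain ⟨y, h1, h2⟩ := WL1_y hD hX ht
  obtain ⟨y', h1', h2'⟩ := WL1_y hD hX ht'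
  exact (Inj_core hD hX h1 h1' ht.2 ht'.2 hn (by rw [h2, h2', he])).1

theorem WL1_sq {ψ : ℂ} {ε : ℝ} (h : ‖ψ - 1‖ ≤ ε) (hε : ε ≤ 1 / 10000) :
    ‖ψ ^ 2‖ ≤ 3 / 2 ∧ ‖ψ ^ 2 - 1‖ ≤ 5 / 2 * ε := by
  have h1 : ‖ψ + 1‖ ≤ 5 / 2 := by
    have := norm_add_le (ψ - 1) 2
    rw [show ψ - 1 + 2 = ψ + 1 by ring, Complex.norm_ofNat] at this
    linarith
  have h2 : ‖ψ ^ 2 - 1‖ ≤ 5 / 2 * ε := by
    rw [show ψ ^ 2 - 1 = (ψ + 1) * (ψ - 1) by ring, norm_mul]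
    gcongr
  have h3 := norm_add_le (ψ ^ 2 - 1) 1
  rw [sub_add_cancel, norm_one] at h3
  exact ⟨by linarith, h2⟩

theorem WL1_mod {f₁ f₂ g₁ g₂ : ℂ → ℂ} {c τ ψ ψ' : ℂ} {σ ε : ℝ} (h : Mod f₁ f₂ c σ ε τ) (h0 : τ ≠ 0)
    (e₁ : g₁ τ = ψ ^ 2 * f₁ τ) (e₂ : g₂ τ = ψ' ^ 2 * f₂ τ) (h₁ : ‖ψ - 1‖ ≤ ε) (h₂ : ‖ψ' - 1‖ ≤ ε)
    (hε : ε ≤ 1 / 10000) : Mod g₁ g₂ c σ (4 * ε) τ := by
  have a := WL1_sq h₁ hε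
  have b := WL1_sq h₂ hε
  have h3 := norm_add_le (ψ ^ 2 * (f₁ τ - c * pw (σ - 1) τ)) ((ψ ^ 2 - 1) * (c * pw (σ - 1) τ))
  rw [norm_mul, norm_mul, norm_mul, norm_pw _ h0] at h3
  have h4 := mul_le_mul_of_nonneg_right a.1 (norm_nonneg (f₁ τ - c * pw (σ - 1) τ))
  have h5 := mul_le_mul_of_nonneg_right a.2 (show 0 ≤ ‖c‖ * ‖τ‖ ^ (σ - 1) by positivity)
  have h6 := mul_le_mul_of_nonneg_right b.1 (norm_nonneg (f₂ τ))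
  unfold Mod at h ⊢
  rw [e₁, e₂, norm_mul, show ψ ^ 2 * f₁ τ - c * pw (σ - 1) τ =
    ψ ^ 2 * (f₁ τ - c * pw (σ - 1) τ) + (ψ ^ 2 - 1) * (c * pw (σ - 1) τ) by ring]
  linarith

theorem Wd.SolX.sing {ι : Type} [Fintype ι] {W : Wd ι} {X : ℂ → ℂ} (hW : W.Ok1) (hX : W.SolX X)
    {x₀ σ r₀ r₁ ε m M : ℝ} (h : W.D.Sing x₀ σ r₀ r₁ ε m M) (hσ : σ = 1 / 2 ∨ σ = -1 / 2)
    (hr : 0 ≤ r₀) (hm : 0 < m) (hε : ε ≤ 1 / 10000)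
    (hψ : ∀ τ ∈ HA r₀ r₁, x₀ + τ ∈ W.Om ∧ ‖W.ψ₁ (x₀ + τ) - 1‖ ≤ ε ∧ ‖W.ψ₂ (x₀ + τ) - 1‖ ≤ ε) :
    (∀ τ ∈ HA r₀ r₁, m * ‖τ‖ ^ σ ≤ ‖X (x₀ + τ)‖ ∧ ‖X (x₀ + τ)‖ ≤ 3 * M * ‖τ‖ ^ σ) ∧
      ∀ τ ∈ HA (2 * r₀) r₁, ∀ τ' ∈ HA (2 * r₀) r₁, X (x₀ + τ) = X (x₀ + τ') → τ = τ' := by
  obtain ⟨hP, c, c1, c2, hb, hM⟩ := h
  have hp : PathP (HA r₀ r₁) (fun τ => X (x₀ + τ)) (fun τ => W.F1 (x₀ + τ))
      fun τ => W.F2 (x₀ + τ) := ((hX.toPre.pathP hW).shift x₀).mono fun τ hτ =>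
    ⟨by simpa using hτ.1, hP τ hτ.2.1 hτ.2.2, (hψ τ hτ).1⟩
  have h0 : ∀ τ ∈ HA r₀ r₁, τ ≠ 0 := fun τ hτ => norm_pos_iff.1 (hr.trans_lt hτ.2.1)
  have hc : c ≠ 0 := norm_pos_iff.1 (hm.trans_le c1)
  have hB : ∀ r ∈ Ioo r₀ r₁, Bd (fun τ => X (x₀ + τ)) c r := fun r hr' => by
    have e : ‖(r : ℂ)‖ = r := by rw [norm_real, Real.norm_of_nonneg (hr.trans hr'.1.le)]
    have o1 := (hψ r ⟨by simp, e.symm ▸ hr'.1, e.symm ▸ hr'.2⟩).1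
    have o2 := (hψ (-r) ⟨by simp, by rw [norm_neg, e]; exact hr'.1,
      by rw [norm_neg, e]; exact hr'.2⟩).1
    have i1 := hX.im0 (x₀ + r)
    have i2 := hX.im0 (x₀ + -r)
    have r1 := hX.re0 (x₀ + r)
    have r2 := hX.re0 (x₀ + -r)
    push_cast at i1 i2 r1 r2
    exact hb.imp (fun h => ⟨h.1, i1 o1 (h.2 r hr').1, r2 o2 (h.2 r hr').2⟩)
      fun h => ⟨h.1, r1 o1 (h.2 r hr').1, i2 o2 (h.2 r hr').2⟩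
  have key : ∀ τ : ℂ, ‖c‖ * ‖τ‖ ^ σ ≤ ‖X (x₀ + τ)‖ ∧ ‖X (x₀ + τ)‖ ≤ 3 * ‖c‖ * ‖τ‖ ^ σ →
      m * ‖τ‖ ^ σ ≤ ‖X (x₀ + τ)‖ ∧ ‖X (x₀ + τ)‖ ≤ 3 * M * ‖τ‖ ^ σ := fun τ h =>
    ⟨le_trans (by gcongr) h.1, h.2.trans (by gcongr)⟩
  rcases hM with hM | hM
  · obtain ⟨a, b⟩ := sing_inj hp hσ hr hc (ε := 4 * ε) (by linarith) (fun τ hτ =>
      WL1_mod (hM τ hτ) (h0 τ hτ) rfl rfl (hψ τ hτ).2.1 (hψ τ hτ).2.2 hε) hB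
    exact ⟨fun τ hτ => key τ (a τ hτ), fun τ hτ τ' hτ' e => b hτ hτ' e⟩
  · obtain ⟨a, b⟩ := sing_inj hp.swap hσ hr hc (ε := 4 * ε) (by linarith) (fun τ hτ =>
      WL1_mod (hM τ hτ) (h0 τ hτ) rfl rfl (hψ τ hτ).2.2 (hψ τ hτ).2.1 hε)
      fun r hr' => by simpa [Bd] using hB r hr'
    exact ⟨fun τ hτ => key τ (by simpa using a τ hτ),
      fun τ hτ τ' hτ' e => b hτ hτ' (by simp only [e])⟩

variable {α ι : Type} [Fintype ι] {l : Filter α} {W : α → Wd ι} {D₀ : Dat}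

theorem WLim.mono (h : WLim l W D₀) {l' : Filter α} (hl : l' ≤ l) : WLim l' W D₀ := by
  exact ⟨h.D.comp (φ := id) hl, h.q, hl h.ok, fun δ hδ ε hε => hl (h.near δ hδ ε hε)⟩

theorem SLim.mono {X : α → ℂ → ℂ} {H : α → ℂ → ℝ} (h : SLim l W D₀ X H) {l' : Filter α}
    (hl : l' ≤ l) : SLim l' W D₀ X H := by
  exact ⟨h.toWLim.mono hl, hl h.sol, fun δ hδ ε hε => hl (h.ht δ hδ ε hε)⟩

theorem WL1_far {t t₀ : ℂ} {b b₀ δ : ℝ} (h : 3 * δ ≤ ‖t₀ + b₀‖) (ht : t ∈ ball t₀ δ)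
    (hb : dist b b₀ < δ) : δ ≤ ‖t + b‖ := by
  have h1 := norm_sub_le (t + b - (t - t₀)) ((b - b₀ : ℝ) : ℂ)
  have h2 := norm_sub_le (t + b) (t - t₀)
  rw [norm_real, ← dist_eq_norm b, show t + b - (t - t₀) - ((b - b₀ : ℝ) : ℂ) = t₀ + b₀ by
    push_cast; ring] at h1
  rw [mem_ball_iff_norm] at ht
  linarith

/-- a compact set that misses `-b 0` and `-b 1` is eventually away from the sheets -/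
theorem WLim.away (h : WLim l W D₀) {t₀ : ℂ} (h₀ : t₀ + D₀.b 0 ≠ 0) (h₁ : t₀ + D₀.b 1 ≠ 0) :
    ∃ δ > 0, ∀ᶠ x in l, ∀ t ∈ ball t₀ δ, (W x).Away δ t := by
  have hq := h.q
  have hδ : 0 < min ‖t₀ + D₀.b 0‖ ‖t₀ + D₀.b 1‖ / 3 := by positivity
  refine ⟨_, hδ, ?_⟩
  filter_upwards [Metric.tendsto_nhds.1 (h.D.b 0 (by omega)) _ hδ,
    Metric.tendsto_nhds.1 (h.D.b 1 (by omega)) _ hδ] with x a b t ht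
  exact ⟨WL1_far (by linarith [min_le_left ‖t₀ + D₀.b 0‖ ‖t₀ + D₀.b 1‖]) ht a,
    WL1_far (by linarith [min_le_right ‖t₀ + D₀.b 0‖ ‖t₀ + D₀.b 1‖]) ht b⟩

theorem WLim.psi (h : WLim l W D₀) {t : α → ℂ} {t₀ : ℂ} (ht : Tendsto t l (𝓝 t₀))
    (h₀ : t₀ + D₀.b 0 ≠ 0) (h₁ : t₀ + D₀.b 1 ≠ 0) :
    (∀ᶠ x in l, t x ∈ (W x).Fd ∧ t x ∈ (W x).Om) ∧
      Tendsto (fun x => (W x).ψ₁ (t x)) l (𝓝 1) ∧ Tendsto (fun x => (W x).ψ₂ (t x)) l (𝓝 1) := by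
  obtain ⟨δ, hδ, hA⟩ := h.away h₀ h₁
  have key : ∀ ε > 0, ∀ᶠ x in l, t x ∈ (W x).Fd ∧ ‖(W x).ψ₁ (t x) - 1‖ ≤ ε ∧
      ‖(W x).ψ₂ (t x) - 1‖ ≤ ε := fun ε hε => by
    filter_upwards [hA, ht.eventually (ball_mem_nhds _ hδ), h.near δ hδ ε hε] with x a b c
    exact c _ (a _ b)
  refine ⟨?_, Metric.tendsto_nhds.2 fun ε hε => (key _ (half_pos hε)).mono fun x hx => ?_,
    Metric.tendsto_nhds.2 fun ε hε => (key _ (half_pos hε)).mono fun x hx => ?_⟩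
  · filter_upwards [key 1 one_pos, h.ok] with x a b
    exact ⟨a.1, b.pl.fd_sub a.1⟩
  · exact (dist_eq_norm _ _).le.trans_lt (hx.2.1.trans_lt (half_lt_self hε))
  · exact (dist_eq_norm _ _).le.trans_lt (hx.2.2.trans_lt (half_lt_self hε))

theorem WLim.F (h : WLim l W D₀) {t : α → ℂ} {t₀ : ℂ} (ht : Tendsto t l (𝓝 t₀))
    (hi : ∀ᶠ x in l, 0 ≤ (t x).im) (h₀ : 0 ≤ t₀.im) (hP : D₀.P t₀ ≠ 0) :
    (∀ᶠ x in l, t x ∈ (W x).Qr) ∧ Tendsto (fun x => (W x).F1 (t x)) l (𝓝 (D₀.F1 t₀)) ∧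
      Tendsto (fun x => (W x).F2 (t x)) l (𝓝 (D₀.F2 t₀)) ∧
      Tendsto (fun x => (W x).F3 (t x)) l (𝓝 t₀⁻¹) := by
  have hq := h.q
  obtain ⟨n0, n1, -⟩ := Dat.Alg_ne hP
  obtain ⟨a, p1, p2⟩ := h.psi ht (n1 0 (Finset.mem_range.2 (by omega)))
    (n1 1 (Finset.mem_range.2 (by omega)))
  have hG := h.D.G ht hi h₀ hP
  have f1 := (p1.pow 2).mul (hG.div ht n0)
  have f2 := (p2.pow 2).mul ((hG.mul ht).inv₀ (mul_ne_zero (Dat.G_ne _) n0))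
  have f3 := (p1.mul p2).div ht n0
  rw [one_pow, one_mul] at f1 f2
  rw [one_mul, one_div] at f3
  refine ⟨?_, f1, f2, f3⟩
  filter_upwards [a, hi, (h.D.P ht).eventually_ne hP] with x a b c
  exact ⟨b, c, a.2⟩

theorem WLim.comp (h : WLim l W D₀) {β : Type} {l' : Filter β} {φ : β → α} (hφ : Tendsto φ l' l) :
    WLim l' (fun x => W (φ x)) D₀ := by
  exact ⟨h.D.comp hφ, h.q, hφ.eventually h.ok, fun δ hδ ε hε => hφ.eventually (h.near δ hδ ε hε)⟩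

theorem WLim.lk (h : WLim l W D₀) {u v : α → ℝ} {u₀ v₀ : ℝ} (hu : Tendsto u l (𝓝 u₀))
    (hv : Tendsto v l (𝓝 v₀)) (h₀ : D₀.P u₀ ≠ 0) (h₁ : D₀.P v₀ ≠ 0) (hlt : v₀ < u₀) (ty : Bool) :
    (∀ᶠ x in l, ∀ θ ∈ Icc 0 Real.pi,
      ((u x + v x) / 2 + (u x - v x) / 2 * exp (θ * I) : ℂ) ∈ (W x).Om) ∧
    Tendsto (fun x => Lk (W x).F1 (W x).F2 ty (u x) (v x)) l (𝓝 (Lk D₀.F1 D₀.F2 ty u₀ v₀)) := by
  have hq := h.q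
  have key : ∀ ε > 0, ∀ᶠ x in l, ∀ θ ∈ Icc 0 Real.pi,
      ∀ t : ℂ, t = (u x + v x) / 2 + (u x - v x) / 2 * exp (θ * I) → t ∈ (W x).Om ∧
        t + (W x).D.b 0 ≠ 0 ∧ ‖(W x).ψ₁ t - 1‖ ≤ ε ∧ ‖(W x).ψ₂ t - 1‖ ≤ ε := fun ε hε => by
    refine ev_compact isCompact_Icc fun θ hθ => ?_
    have hu' := Dat.DatC_re (hu.comp (tendsto_fst (g := 𝓝[Icc 0 Real.pi] θ)))
    have hv' := Dat.DatC_re (hv.comp (tendsto_fst (g := 𝓝[Icc 0 Real.pi] θ)))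
    have ht := ((hu'.add hv').div_const 2).add (((hu'.sub hv').div_const 2).mul
      ((Dat.DatC_re (tendsto_snd.mono_right nhdsWithin_le_nhds)).mul_const I).cexp)
    obtain ⟨-, n1, -⟩ := Dat.Alg_ne (Dat.Ok.semi h₀ h₁ hlt hθ).2
    have n0 := n1 0 (Finset.mem_range.2 (by omega))
    obtain ⟨a, p1, p2⟩ := (h.comp tendsto_fst).psi ht n0 (n1 1 (Finset.mem_range.2 (by omega)))
    filter_upwards [a, (ht.add (Dat.DatC_re ((h.D.b 0 (by omega)).comp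
      tendsto_fst))).eventually_ne n0, Metric.tendsto_nhds.1 p1 ε hε,
      Metric.tendsto_nhds.1 p2 ε hε] with z a b c d
    rintro _ rfl
    exact ⟨a.2, b, (dist_eq_norm _ _).ge.trans c.le, (dist_eq_norm _ _).ge.trans d.le⟩
  refine ⟨(key 1 one_pos).mono fun x hx θ hθ => (hx θ hθ _ rfl).1,
    h.D.lk hu hv h₀ h₁ hlt ty (ψ₁ := fun x => (W x).ψ₁) (ψ₂ := fun x => (W x).ψ₂) fun ε hε => ?_⟩
  filter_upwards [key ε hε, h.ok] with x a b θ hθ t ht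
  obtain ⟨a1, a2, a3⟩ := a θ hθ t ht
  exact ⟨(b.ψ₁_diff a1 a2).continuousAt, (b.ψ₂_diff a1).continuousAt, a3⟩

end Pool.Agent.MP_92463a_gt
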