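import Pool.Agent.MP_92463a_gt.CfJ
import Pool.Agent.MP_92463a_gt.CfK3
import Pool.Agent.MP_92463a_gt.CfL1
import Pool.Agent.MP_92463a_gt.WL1
import Pool.Agent.MP_92463a_gt.Rob
import Pool.Agent.MP_92463a_gt.ND

open Set Complex Filter Metric
open scoped Topology ComplexConjugate ContDiff Manifold

noncomputable section

namespace Pool.Agent.MP_92463a_gt

variable {J : Type} [Fintype J] {p q γ : ℕ}

theorem Fam.lim (F : Fam J p q) (hq : 2 ≤ q) (hγ : 0 < γ) {α : Type} {l : Filter α}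
    {x : α → J → ℝ} {L : α → ℝ} {z : α → Zs γ} {x₀ : J → ℝ} {z₀ : Zs γ} (h₀ : x₀ ∈ cube J)
    (hx : Tendsto x l (𝓝[cube J] x₀)) (hL : Tendsto L l atTop) (hz : Tendsto z l (𝓝 z₀))
    (hs : ∀ᶠ a in l, (z a).rf = z a ∧ ‖z a‖ ≤ 1 / (100 * γ)) :
    Lim l (fun a => ⟨F.D (x a), L a, z a⟩) (F.D x₀) z₀ := by
  refine ⟨(Dat.tends_of_cont F.ok F.ca F.cb F.cρ h₀).comp hx, (F.ok x₀ h₀).2.2.symm ▸ hq, ?_, hL,
    hz⟩
  filter_upwards [hs, hx.eventually eventually_mem_nhdsWithin] with a ha hm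
  exact ⟨hγ, (F.ok _ hm).1, (F.ok _ hm).2.2.symm ▸ hq, ha.1, ha.2⟩

theorem Fam.lim_lk (F : Fam J p q) {α : Type} {l : Filter α} {x : α → J → ℝ} {x₀ : J → ℝ}
    (h₀ : x₀ ∈ cube J) (hx : Tendsto x l (𝓝[cube J] x₀)) {ι : Type} [Fintype ι] {W : α → Wd ι}
    (h : WLim l W (F.D x₀)) (hD : ∀ a, (W a).D = F.D (x a)) (i : J) :
    (∀ᶠ a in l, ∀ θ ∈ Icc 0 Real.pi, ((F.u i (x a) + F.v i (x a)) / 2 +
      (F.u i (x a) - F.v i (x a)) / 2 * exp (θ * I) : ℂ) ∈ (W a).Qr) ∧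
    Tendsto (fun a => Lk (W a).F1 (W a).F2 (F.su i).ty (F.u i (x a)) (F.v i (x a)) -
      Lk (F.D (x a)).F1 (F.D (x a)).F2 (F.su i).ty (F.u i (x a)) (F.v i (x a))) l (𝓝 0) := by
  obtain ⟨h1, h2, h3⟩ := F.mem i x₀ h₀
  have hO := (F.ok x₀ h₀).1
  obtain ⟨k1, k2⟩ := h.lk (u := fun a => F.u i (x a)) (v := fun a => F.v i (x a))
    ((F.cu i x₀ h₀).tendsto.comp hx) ((F.cv i x₀ h₀).tendsto.comp hx) (hO.inS_ne h1)
    (hO.inS_ne h2) h3 (F.su i).ty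
  refine ⟨?_, ?_⟩
  · filter_upwards [k1, hx.eventually eventually_mem_nhdsWithin] with a ha hm θ hθ
    obtain ⟨m1, m2, m3⟩ := F.mem i (x a) hm
    have hO' := (F.ok _ hm).1
    have := Dat.Ok.semi (hO'.inS_ne m1) (hO'.inS_ne m2) m3 hθ
    exact ⟨this.1, by rw [hD]; exact this.2, ha θ hθ⟩
  · have := k2.sub ((F.lk_cont i x₀ h₀).tendsto.comp hx)
    rw [sub_self] at this
    exact this

theorem Ring1_K (γ : ℕ) {r : ℝ} (hr : 0 ≤ r) :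
    IsCompact {z : Zs γ | z.rf = z ∧ ‖z‖ ≤ r} ∧ Convex ℝ {z : Zs γ | z.rf = z ∧ ‖z‖ ≤ r} ∧
      {z : Zs γ | z.rf = z ∧ ‖z‖ ≤ r}.Nonempty := by
  have e : ∀ z : Zs γ, z.rf = NDr γ z := fun _ => rfl
  refine ⟨?_, ?_, 0, ?_, by simpa using hr⟩
  · refine (isCompact_closedBall (0 : Zs γ) r).of_isClosed_subset ?_ fun z hz =>
      mem_closedBall_zero_iff.2 hz.2
    exact (isClosed_eq (NDr γ).continuous continuous_id).inter
      (isClosed_le continuous_norm continuous_const)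
  · intro a ha b hb s t hs ht hst
    refine ⟨?_, mem_closedBall_zero_iff.1 (convex_closedBall (0 : Zs γ) r
      (mem_closedBall_zero_iff.2 ha.2) (mem_closedBall_zero_iff.2 hb.2) hs ht hst)⟩
    rw [e, map_add, map_smul, map_smul, ← e, ← e, ha.1, hb.1]
  · rw [e, map_zero]

theorem Ring1_sub {a b : Zs γ} (ha : a.rf = a) (hb : b.rf = b) : (a - b).rf = a - b := by
  have e : ∀ z : Zs γ, z.rf = NDr γ z := fun _ => rfl
  rw [e, map_sub, ← e, ← e, ha, hb]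

theorem Fam.solve (F : Fam J p q) (hq : 2 ≤ q) (hγ : 0 < γ) : ∀ᶠ r in 𝓝[>] (0 : ℝ),
    ∀ᶠ L in atTop, ∃ x ∈ cube J, ∃ z : Zs γ, z.rf = z ∧ ‖z‖ ≤ r ∧
      (⟨F.D x, L, z⟩ : Cfg γ).eq = 0 ∧ ∀ i, Lk (⟨F.D x, L, z⟩ : Cfg γ).wd.F1
        (⟨F.D x, L, z⟩ : Cfg γ).wd.F2 (F.su i).ty (F.u i x) (F.v i x) = 0 := by
  obtain ⟨B, hB, hBr, hBe⟩ := Zs.nondeg hγ
  obtain ⟨δ, hδ, hrob⟩ := F.robust
  have hpos : (0 : ℝ) < 1 / (100 * γ) := by positivity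
  filter_upwards [hBe, self_mem_nhdsWithin,
    (eventually_le_nhds hpos).filter_mono nhdsWithin_le_nhds] with r hest hr hle
  have hr' : 0 < r := hr
  obtain ⟨hK, hcv, hne⟩ := Ring1_K γ hr'.le
  set K : Set (Zs γ) := {z : Zs γ | z.rf = z ∧ ‖z‖ ≤ r} with hKdef
  have key : ∀ᶠ L : ℝ in atTop, ∀ y ∈ cube J ×ˢ K, (⟨F.D y.1, L, y.2⟩ : Cfg γ).Fine ∧
      (∀ i, ∀ θ ∈ Icc 0 Real.pi, ((F.u i y.1 + F.v i y.1) / 2 +
        (F.u i y.1 - F.v i y.1) / 2 * exp (θ * I) : ℂ) ∈ (⟨F.D y.1, L, y.2⟩ : Cfg γ).wd.Qr) ∧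
      (∀ i, |Lk (⟨F.D y.1, L, y.2⟩ : Cfg γ).wd.F1 (⟨F.D y.1, L, y.2⟩ : Cfg γ).wd.F2
        (F.su i).ty (F.u i y.1) (F.v i y.1) -
        Lk (F.D y.1).F1 (F.D y.1).F2 (F.su i).ty (F.u i y.1) (F.v i y.1)| ≤ δ) ∧
      ‖B ((⟨F.D y.1, L, y.2⟩ : Cfg γ).eq - y.2.lim)‖ ≤ r / 2 := by
    refine ev_compact (isCompact_cube.prod hK) fun y hy => ?_
    have t2 : Tendsto (fun a : ℝ × (J → ℝ) × Zs γ => a.2) (atTop ×ˢ 𝓝[cube J ×ˢ K] y)
        (𝓝[cube J ×ˢ K] y) := tendsto_snd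
    have hx : Tendsto (fun a : ℝ × (J → ℝ) × Zs γ => a.2.1) (atTop ×ˢ 𝓝[cube J ×ˢ K] y)
        (𝓝[cube J] y.1) :=
      (continuous_fst.continuousWithinAt.tendsto_nhdsWithin fun w hw => hw.1).comp t2
    have hz : Tendsto (fun a : ℝ × (J → ℝ) × Zs γ => a.2.2) (atTop ×ˢ 𝓝[cube J ×ˢ K] y)
        (𝓝 y.2) := continuous_snd.continuousWithinAt.tendsto.comp t2
    have hl := F.lim hq hγ (L := fun a : ℝ × (J → ℝ) × Zs γ => a.1) hy.1 hx tendsto_fst hz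
      ((t2.eventually eventually_mem_nhdsWithin).mono fun a ha => ⟨ha.2.1, ha.2.2.trans hle⟩)
    have hk := fun i => F.lim_lk hy.1 hx hl.wlim (fun _ => rfl) i
    have h4 := (B.continuous.tendsto _).comp (hl.eq.sub
      ((Zs.lim_contDiff hγ (hy.2.2.trans hle)).continuousAt.tendsto.comp hz))
    rw [sub_self, map_zero] at h4
    refine hl.fine.and ((eventually_all.2 fun i => (hk i).1).and
      ((eventually_all.2 fun i => ?_).and ?_))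
    · have := (hk i).2.abs
      rw [abs_zero] at this
      exact this.eventually (eventually_le_nhds hδ)
    · have := h4.norm
      rw [norm_zero] at this
      exact this.eventually (eventually_le_nhds (half_pos hr'))
  filter_upwards [key] with L hL
  have hc : CC (cube J ×ˢ K) (fun y => (⟨F.D y.1, L, y.2⟩ : Cfg γ)) L p q :=
    ⟨fun y hy => ⟨(hL y hy).1, rfl, (F.ok _ hy.1).2⟩,
      fun i hi => (F.ca i hi).comp continuousOn_fst fun w hw => hw.1,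
      fun j hj => (F.cb j hj).comp continuousOn_fst fun w hw => hw.1,
      F.cρ.comp continuousOn_fst fun w hw => hw.1, continuousOn_snd⟩
  obtain ⟨y, hy, e1, e2⟩ := hrob hK hcv hne
    (f := fun y i => Lk (⟨F.D y.1, L, y.2⟩ : Cfg γ).wd.F1 (⟨F.D y.1, L, y.2⟩ : Cfg γ).wd.F2
      (F.su i).ty (F.u i y.1) (F.v i y.1))
    (Φ := fun y => y.2 - B (⟨F.D y.1, L, y.2⟩ : Cfg γ).eq)
    (continuousOn_pi.2 fun i => hc.lk (u := fun y => F.u i y.1) (v := fun y => F.v i y.1)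
      ((F.cu i).comp continuousOn_fst fun w hw => hw.1)
      ((F.cv i).comp continuousOn_fst fun w hw => hw.1) (fun y hy => (hL y hy).2.1 i) _)
    (continuousOn_snd.sub (B.continuous.comp_continuousOn hc.eq))
    (fun y hy => ⟨Ring1_sub hy.2.1 (hBr _ (hL y hy).1.eq_rf), by
      have e : y.2 - B (⟨F.D y.1, L, y.2⟩ : Cfg γ).eq = (y.2 - B y.2.lim) -
          B ((⟨F.D y.1, L, y.2⟩ : Cfg γ).eq - y.2.lim) := by
        rw [map_sub]; abel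
      show ‖y.2 - B (⟨F.D y.1, L, y.2⟩ : Cfg γ).eq‖ ≤ r
      rw [e]
      refine (norm_sub_le _ _).trans ?_
      linarith [hest y.2 hy.2.2, (hL y hy).2.2.2]⟩)
    fun y hy => (hL y hy).2.2.1
  refine ⟨y.1, hy.1, y.2, hy.2.1, hy.2.2, hB ?_, fun i => congrFun e1 i⟩
  rw [map_zero]
  exact sub_eq_self.1 e2

end Pool.Agent.MP_92463a_gt
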