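import Pool.Agent.MP_92463a_gt.Defs

/-! Weierstrass data on the hyperelliptic curve `y² = t ∏ (t + b j) ∏ (a i - t)`:
Gauss map `G = y R(t)`, height differential `dt / t`. -/

open Set Complex Filter Metric
open scoped Topology ComplexConjugate ContDiff Manifold

noncomputable section

namespace Pool.Agent.MP_92463a_gt

/-- the point with horizontal part `z` and height `h` -/
def mk3 (z : ℂ) (h : ℝ) : E3 := !₂[z.re, z.im, h]

/-- the real linear map `v ↦ φ₁ v - conj (φ₂ v)` -/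
def wl (φ₁ φ₂ : ℂ) : ℂ →L[ℝ] ℂ :=
  ContinuousLinearMap.mul ℝ ℂ φ₁ -
    (conjCLE : ℂ →L[ℝ] ℂ).comp (ContinuousLinearMap.mul ℝ ℂ φ₂)

theorem wl_apply (φ₁ φ₂ v : ℂ) : wl φ₁ φ₂ v = φ₁ * v - conj (φ₂ * v) := by
  simp [wl]

theorem hasFDerivAt_wl {Φ₁ Φ₂ : ℂ → ℂ} {φ₁ φ₂ z : ℂ} (h₁ : HasDerivAt Φ₁ φ₁ z)
    (h₂ : HasDerivAt Φ₂ φ₂ z) : HasFDerivAt (fun w => Φ₁ w - conj (Φ₂ w)) (wl φ₁ φ₂) z := by
  have a := h₁.hasFDerivAt.restrictScalars ℝ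
  have b := (conjCLE : ℂ →L[ℝ] ℂ).hasFDerivAt.comp z (h₂.hasFDerivAt.restrictScalars ℝ)
  refine (a.sub b).congr_fderiv ?_
  ext v
  simp [wl_apply, mul_comm]

def sg (i : ℕ) : ℝ := (-1) ^ i

/-- the logarithm of `a - t` on the closed upper half plane -/
def lm (a : ℝ) (t : ℂ) : ℂ := log (t - a) - Real.pi * I

structure Dat where
  p : ℕ
  q : ℕ
  a : ℕ → ℝ
  b : ℕ → ℝ
  ρ : ℝ

namespace Dat

variable (D : Dat)

structure Ok : Prop where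
  p_pos : 0 < D.p
  par : Even (D.p + D.q)
  ρ_pos : 0 < D.ρ
  a_pos : ∀ i < D.p, 0 < D.a i
  a_lt : ∀ i j, i < j → j < D.p → D.a i < D.a j
  b_pos : ∀ j < D.q, 0 < D.b j
  b_gap : ∀ i j, i < j → j < D.q → 5 * D.b i < D.b j

def LG (t : ℂ) : ℂ :=
  Real.log D.ρ - log t / 2 + ∑ j ∈ Finset.range D.q, sg j * (3 / 2) * log (t + D.b j) -
    ∑ i ∈ Finset.range D.p, sg i * (1 / 2) * lm (D.a i) t

/-- the Gauss map on the closed upper half plane -/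
def G (t : ℂ) : ℂ := exp (D.LG t)

/-- the branch of `y` on the closed upper half plane -/
def Y (t : ℂ) : ℂ :=
  exp ((log t + ∑ j ∈ Finset.range D.q, log (t + D.b j) +
    ∑ i ∈ Finset.range D.p, lm (D.a i) t) / 2)

def P (t : ℂ) : ℂ :=
  t * (∏ j ∈ Finset.range D.q, (t + D.b j)) * ∏ i ∈ Finset.range D.p, (D.a i - t)

def R (t : ℂ) : ℂ :=
  D.ρ / t * (∏ j ∈ Finset.range D.q, if Even j then t + D.b j else ((t + D.b j) ^ 2)⁻¹) *
    ∏ i ∈ Finset.range D.p, if Even i then (D.a i - t)⁻¹ else 1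

/-- finite ends -/
def IsE (t : ℂ) : Prop := t = 0 ∨ ∃ j < D.q, t = -D.b j

/-- points on the vertical axis -/
def IsA (t : ℂ) : Prop := ∃ i < D.p, t = D.a i

/-- the quarter of the surface -/
def Q : Set ℂ := {t | 0 ≤ t.im ∧ ¬ D.IsE t}

/-- `X` is the horizontal part of the Weierstrass representation on the quarter -/
structure Pre (X : ℂ → ℂ) : Prop where
  cont : ContinuousOn X D.Q
  der : ∀ t : ℂ, 0 < t.im → HasFDerivAt X (wl (D.G t / t) (D.G t * t)⁻¹) t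

/-- the period problem is solved -/
structure Sol (X : ℂ → ℂ) : Prop extends D.Pre X where
  im0 : ∀ x : ℝ, 0 < (D.P x).re → (X x).im = 0
  re0 : ∀ x : ℝ, (D.P x).re < 0 → (X x).re = 0

/-- the coordinate of `X` that is constant along a boundary segment -/
def cst (X : ℂ → ℂ) (x : ℝ) : ℝ := if 0 < (D.P x).re then (X x).im else (X x).re

/-- the affine curve -/
abbrev C : Type := {z : ℂ × ℂ // z.2 ^ 2 = D.P z.1}

/-- the compact curve -/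
abbrev N : Type := OnePoint D.C

open Classical in
def pt (t y : ℂ) : D.N := if h : y ^ 2 = D.P t then ((⟨(t, y), h⟩ : D.C) : D.N) else OnePoint.infty

def tt (z : D.N) : ℂ := z.elim 0 fun c => c.1.1

def yy (z : D.N) : ℂ := z.elim 0 fun c => c.1.2

open Classical in
/-- the ends -/
def S : Finset D.N :=
  insert OnePoint.infty (insert (D.pt 0 0) ((Finset.range D.q).image fun j => D.pt (-D.b j) 0))

/-- the horizontal part of the surface at the point `(t, y)` of the curve -/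
def Xg (X : ℂ → ℂ) (t y : ℂ) : ℂ :=
  if 0 ≤ t.im then y / D.Y t * X t else conj (conj y / D.Y (conj t) * X (conj t))

/-- the surface -/
def ff (X : ℂ → ℂ) (z : D.N) : E3 := mk3 (D.Xg X (D.tt z) (D.yy z)) (2 * Real.log ‖D.tt z‖)

/-- local parameter `w ↦ (t₀ + w, h w)` -/
structure Par1 (t₀ : ℂ) (δ : ℝ) (h : ℂ → ℂ) : Prop where
  pos : 0 < δ
  hol : DifferentiableOn ℂ h (ball 0 δ)
  ne : ∀ w ∈ ball (0 : ℂ) δ, h w ≠ 0
  sq : ∀ w ∈ ball (0 : ℂ) δ, h w ^ 2 = D.P (t₀ + w)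

/-- local parameter `w ↦ (x₀ + w², w h (w²))` at a finite branch point -/
structure Par2 (x₀ : ℂ) (δ : ℝ) (h : ℂ → ℂ) : Prop where
  pos : 0 < δ
  br : D.P x₀ = 0
  hol : DifferentiableOn ℂ h (ball 0 (δ ^ 2))
  ne : ∀ s ∈ ball (0 : ℂ) (δ ^ 2), h s ≠ 0
  sq : ∀ s ∈ ball (0 : ℂ) (δ ^ 2), s * h s ^ 2 = D.P (x₀ + s)

/-- local parameter `w ↦ (w⁻², h (w²) / w ^ (p + q + 1))` at infinity -/
structure Par3 (δ : ℝ) (h : ℂ → ℂ) : Prop where
  pos : 0 < δ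
  hol : DifferentiableOn ℂ h (ball 0 (δ ^ 2))
  ne : ∀ s ∈ ball (0 : ℂ) (δ ^ 2), h s ≠ 0
  sq : ∀ s ∈ ball (0 : ℂ) (δ ^ 2), s ≠ 0 → h s ^ 2 = s ^ (D.p + D.q + 1) * D.P s⁻¹

/-- the three kinds of charts -/
def Kind (e : OpenPartialHomeomorph D.N ℂ) (δ : ℝ) : Prop :=
  (∃ t₀ h, D.Par1 t₀ δ h ∧ ∀ w ∈ ball (0 : ℂ) δ, e.symm w = D.pt (t₀ + w) (h w)) ∨
  (∃ x₀ h, D.Par2 x₀ δ h ∧ ∀ w ∈ ball (0 : ℂ) δ, e.symm w = D.pt (x₀ + w ^ 2) (w * h (w ^ 2))) ∨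
  (∃ h, D.Par3 δ h ∧ e.symm 0 = OnePoint.infty ∧ ∀ w ∈ ball (0 : ℂ) δ, w ≠ 0 →
    e.symm w = D.pt (w ^ 2)⁻¹ (h (w ^ 2) / w ^ (D.p + D.q + 1)))

structure Atl where
  ch : D.N → OpenPartialHomeomorph D.N ℂ
  δ : D.N → ℝ
  tgt : ∀ z, (ch z).target = ball 0 (δ z)
  mem : ∀ z, z ∈ (ch z).source
  ctr : ∀ z, ch z z = 0
  kind : ∀ z, D.Kind (ch z) (δ z)

variable {D}

@[reducible] def Atl.charted (A : D.Atl) : ChartedSpace ℂ D.N where
  atlas := range A.ch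
  chartAt := A.ch
  mem_chart_source := A.mem
  chart_mem_atlas z := ⟨z, rfl⟩

end Dat

end Pool.Agent.MP_92463a_gt
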