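import Pool.Agent.MP_92463a_gt.Tool3
import Pool.Agent.MP_92463a_gt.PreEx
import Pool.Agent.MP_92463a_gt.Link1
import Pool.Agent.MP_92463a_gt.Link2
import Pool.Agent.MP_92463a_gt.Zero
import Pool.Agent.MP_92463a_gt.DatC

open Set Complex Filter Metric
open scoped Topology ComplexConjugate ContDiff Manifold

noncomputable section

namespace Pool.Agent.MP_92463a_gt

theorem Tow1_path {T : Dat} {X : ℂ → ℂ} (hT : T.Ok) (hX : T.Pre X) {γ γ' : ℝ → ℂ}
    (hγ : ∀ θ ∈ Icc 0 Real.pi, HasDerivAt γ (γ' θ) θ) (hγ' : ContinuousOn γ' (Icc 0 Real.pi))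
    (hin : ∀ θ ∈ Ioo 0 Real.pi, 0 < (γ θ).im)
    (hP : ∀ θ ∈ Icc 0 Real.pi, 0 ≤ (γ θ).im ∧ T.P (γ θ) ≠ 0) (ℓ : ℂ →L[ℝ] ℝ) {φ : ℝ → ℝ} (k : ℝ)
    (h : ∀ θ ∈ Icc 0 Real.pi,
      ℓ (T.G (γ θ) / γ θ * γ' θ - conj ((T.G (γ θ) * γ θ)⁻¹ * γ' θ)) = k * φ θ) :
    ℓ (X (γ Real.pi) - X (γ 0)) = k * ∫ θ in (0 : ℝ)..Real.pi, φ θ := by
  have cγ : ContinuousOn γ (Icc 0 Real.pi) := fun θ hθ =>
    (hγ θ hθ).continuousAt.continuousWithinAt
  have cG : ContinuousOn (fun θ => T.G (γ θ)) (Icc 0 Real.pi) := Dat.G_cont.comp cγ hP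
  have hn : ∀ θ ∈ Icc 0 Real.pi, γ θ ≠ 0 := fun θ hθ h0 =>
    (hP θ hθ).2 (Dat.P_eq_zero.2 (Or.inl (Or.inl h0)))
  have hf : IntervalIntegrable (fun θ => T.G (γ θ) / γ θ * γ' θ -
      conj ((T.G (γ θ) * γ θ)⁻¹ * γ' θ)) MeasureTheory.volume 0 Real.pi :=
    (((cG.div cγ hn).mul hγ').sub (continuous_conj.comp_continuousOn
      (((cG.mul cγ).inv₀ fun θ hθ => mul_ne_zero (Dat.G_ne _) (hn θ hθ)).mul
        hγ'))).intervalIntegrable_of_Icc Real.pi_pos.le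
  rw [hX.path hT hγ hγ' hin hP, ← ℓ.intervalIntegral_comp_comm hf,
    intervalIntegral.integral_congr (g := fun θ => k * φ θ)
      (fun θ hθ => h θ (by rwa [uIcc_of_le Real.pi_pos.le] at hθ)),
    intervalIntegral.integral_const_mul]

theorem Tow1_pos {p l β : ℝ} {L : ℂ} (p0 : 0 < p) (p1 : p < 1) (hl : 0 < l) (hβ : 0 < β)
    (hL : conj L = L) : ∃ r : ℝ, 0 < r ∧ (l : ℂ) * (sc p 0 + β) ^ 2 / Yc p 0 * exp L = r := by
  have hs : 0 < √p := Real.sqrt_pos.2 p0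
  have hY : Yc p 0 = ((1 / √p * ‖sc p 0‖ : ℝ) : ℂ) := by
    rw [Yc, ← Circ_sub_one, ofReal_mul]
    congr 1
    rw [sc_zero p0 p1]
    push_cast
    ring
  have hn : 0 < ‖sc p 0‖ := norm_pos_iff.2 (sc_ne p0 p1 0).1
  obtain ⟨t, rfl⟩ := conj_eq_iff_real.1 hL
  refine ⟨l * (1 + 1 / √p + β) ^ 2 / (1 / √p * ‖sc p 0‖) * Real.exp t, by positivity, ?_⟩
  rw [hY]
  generalize ‖sc p 0‖ = y
  rw [sc_zero p0 p1]
  push_cast
  ring

theorem Tow1_eps {G c : ℂ} {ε r : ℝ} (hε : ε = 1 ∨ ε = -1) (hr : 0 < r) (hc : c ≠ 0)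
    (h1 : G = c * (‖G‖ : ℂ)) (h2 : G = ε * (c * r)) : ε = 1 := by
  refine hε.resolve_right fun h => ?_
  have h3 : ((‖G‖ : ℝ) : ℂ) = ((ε * r : ℝ) : ℂ) := by
    refine mul_left_cancel₀ hc ?_
    rw [← h1, h2]
    push_cast
    ring
  have h4 := ofReal_injective h3
  have := norm_nonneg G
  rw [h] at h4
  linarith

theorem Tow1_fld {g j : ℕ} {U D : ℕ → ℝ} (h : Box g U D) (hj : j < g) :
    conj (Ld g U D j (sc (U j / (U j + D j)) 0)) = Ld g U D j (sc (U j / (U j + D j)) 0) ∧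
    conj (Lu g U D j (sc (D j / (D j + U j)) 0)) = Lu g U D j (sc (D j / (D j + U j)) 0) := by
  obtain ⟨-, -, -, -, b3, b4⟩ := (h j hj).bd
  obtain ⟨-, -, -, -, c3, c4⟩ := (h j hj).symm.bd
  have a1 := (h j hj).arg 0
  have a2 := (h j hj).symm.arg 0
  constructor
  · rw [Ld, map_add, ← fld_conj (h.low hj) fun _ => a1.1,
      ← fld_conj (h.upp hj) fun h0 => a1.2 (decide_eq_true (by omega)), map_mul, map_div₀,
      sc_zero (by linarith) (by linarith), conj_ofReal, conj_ofReal, conj_ofReal]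
  · rw [Lu, map_add, ← fld_conj (h.upp hj) fun _ => a2.1,
      ← fld_conj (h.low hj) fun h0 => a2.2 (decide_eq_true h0), map_mul, map_div₀,
      sc_zero (by linarith) (by linarith), conj_ofReal, conj_ofReal, conj_ofReal]

theorem Tow1_sqrt {u d : ℝ} (hu : 0 < u) (hd : 0 < d) : √(u ^ 2 / d) * d = u * √d := by
  have h1 : 0 < √d := Real.sqrt_pos.2 hd
  rw [Real.sqrt_div (by positivity), Real.sqrt_sq hu.le]
  nth_rw 2 [← Real.mul_self_sqrt hd.le]
  field_simp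

/-- signed versions of `Box.link_down` and `Box.link_up` -/
theorem Box.lk_down {g j : ℕ} {U D : ℕ → ℝ} (h : Box g U D) (hj : j < g) :
    Lk (tw g U D).F1 (tw g U D).F2 (Sg.ty (false, j + 1))
        (tA U D j * (1 + 1 / √(U j / (U j + D j)))) (tA U D j * (1 - 1 / √(U j / (U j + D j)))) =
      -(sg j * (√(U j / (U j + D j)) / (U j * √(D j)))) * Per (U j) (D j) (Ld g U D j) := by
  obtain ⟨hu, hd⟩ := Link1_pos h hj
  have hok := h.ok (Nat.zero_lt_of_lt hj)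
  obtain ⟨X, hX⟩ := hok.exists_pre
  obtain ⟨hA, hB⟩ := h.in_down hj
  have hL := Ld_cont h hj
  have hL0 := (Tow1_fld h hj).1
  have hT : 0 < tA U D j := hok.a_pos j hj
  have hT' : (tA U D j : ℂ) ≠ 0 := by exact_mod_cast hT.ne'
  have hp0 : 0 < U j / (U j + D j) := by positivity
  have hp1 : U j / (U j + D j) < 1 := by
    rw [div_lt_one (by positivity)]
    linarith
  have hβ : (1 - U j / (U j + D j)) / (U j / (U j + D j)) = D j / U j := by
    field_simp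
    ring
  unfold Per Av
  generalize U j / (U j + D j) = p at *
  obtain ⟨sA, tA'⟩ := hok.sign_pos (k := j + 1) hA.1 hj hA.2.1 hA.2.2
  have sB := (hok.sign_neg hB.1 hj.le hB.2.1 hB.2.2).1
  have e0 : (tA U D j : ℂ) * sc p 0 = ((tA U D j * (1 + 1 / √p) : ℝ) : ℂ) := by
    rw [sc_zero hp0 hp1, ofReal_mul]
  have e1 : (tA U D j : ℂ) * sc p Real.pi = ((tA U D j * (1 - 1 / √p) : ℝ) : ℂ) := by
    rw [sc_pi hp0 hp1, ofReal_mul]
  generalize tA U D j * (1 + 1 / √p) = x at *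
  generalize tA U D j * (1 - 1 / √p) = x' at *
  have nA : (tw g U D).P x ≠ 0 := fun h2 => by
    rw [h2, zero_re, mul_zero] at sA
    exact lt_irrefl _ sA
  have nB : (tw g U D).P x' ≠ 0 := fun h2 => by
    rw [h2, zero_re, mul_zero] at sB
    exact lt_irrefl _ sB
  rw [(hX.pathP hok).lk _ fun θ hθ => Dat.Ok.semi nA nB (hB.1.trans hA.1) hθ]
  have hin : ∀ θ ∈ Ioo 0 Real.pi, 0 < ((tA U D j : ℂ) * sc p θ).im := fun θ hθ => by
    rw [im_ofReal_mul]
    exact mul_pos hT (sc_im hp0 hp1 hθ)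
  have hP : ∀ θ ∈ Icc 0 Real.pi, 0 ≤ ((tA U D j : ℂ) * sc p θ).im ∧
      (tw g U D).P ((tA U D j : ℂ) * sc p θ) ≠ 0 := by
    intro θ hθ
    rcases hθ.1.eq_or_lt with rfl | h1
    · rw [e0]
      exact ⟨(ofReal_im _).ge, nA⟩
    rcases hθ.2.eq_or_lt with rfl | h2
    · rw [e1]
      exact ⟨(ofReal_im _).ge, nB⟩
    · exact ⟨(hin θ ⟨h1, h2⟩).le, Dat.ne_of_im (hin θ ⟨h1, h2⟩).ne'⟩
  have cs : Continuous (sc p) :=
    continuous_iff_continuousAt.2 fun θ => (sc_der hp0 hp1 θ).continuousAt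
  have cY : Continuous (Yc p) :=
    continuous_iff_continuousAt.2 fun θ => (Yc_der hp0 hp1 θ).continuousAt
  have cD : Continuous (Dl p) := Dl_cont.comp (continuous_const.prodMk continuous_id)
  have cc : Continuous fun θ => √p / Dl p θ :=
    continuous_const.div cD fun θ => (Dl_pos hp0 hp1 θ).ne'
  have hpath := @Tow1_path _ _ hok hX (fun θ => (tA U D j : ℂ) * sc p θ)
    (fun θ => (tA U D j : ℂ) * (I * ((√p / Dl p θ : ℝ) : ℂ) * Yc p θ))
    (fun θ _ => (sc_der hp0 hp1 θ).const_mul _)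
    (continuous_const.mul ((continuous_const.mul (continuous_ofReal.comp cc)).mul cY)).continuousOn
    hin hP
  simp only [e0, e1] at hpath
  have hl : 0 < √(U j ^ 2 / D j) := Real.sqrt_pos.2 (by positivity)
  have hll : √(U j ^ 2 / D j) ^ 2 = U j ^ 2 / D j := Real.sq_sqrt (by positivity)
  rw [← Tow1_sqrt hu hd]
  generalize √(U j ^ 2 / D j) = l at *
  have hne := sc_ne hp0 hp1
  have hY := Yc_sq hp0 hp1
  rw [hβ] at hne hY
  obtain ⟨r, hr, hr0⟩ := Tow1_pos hp0 hp1 hl (div_pos hd hu) hL0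
  set Γ : ℝ → ℂ := fun θ => l * (sc p θ + (D j / U j : ℝ)) ^ 2 / Yc p θ * exp (Ld g U D j (sc p θ))
    with hΓ
  have hr1 : Γ 0 = r := hr0
  have Γ0 : ∀ θ, Γ θ ≠ 0 := fun θ =>
    mul_ne_zero (div_ne_zero (mul_ne_zero (by exact_mod_cast hl.ne')
      (pow_ne_zero _ (hne θ).2.2.1)) (hne θ).2.2.2) (exp_ne_zero _)
  have cΓ : ContinuousOn Γ (Icc 0 Real.pi) :=
    (((continuous_const.mul ((cs.add continuous_const).pow 2)).div cY
      fun θ => (hne θ).2.2.2).continuousOn).mul hL.cexp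
  have cG : ContinuousOn (fun θ => (tw g U D).G ((tA U D j : ℂ) * sc p θ)) (Icc 0 Real.pi) :=
    Dat.G_cont.comp (continuous_const.mul cs).continuousOn hP
  have hsq : ∀ θ ∈ Icc 0 Real.pi, (tw g U D).G ((tA U D j : ℂ) * sc p θ) ^ 2 =
      if Even j then -Γ θ ^ 2 else (Γ θ ^ 2)⁻¹ := fun θ hθ =>
    h.G_sq hj (hP θ hθ).2 (by
      rw [← hll]
      exact Link1_sq (hne θ).1 (hne θ).2.1 (hne θ).2.2.1 (hY θ))
  have him := fun θ => Link1_im (L := Ld g U D j (sc p θ)) (r := √p) hd.ne' hl.ne'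
    (Dl_pos hp0 hp1 θ).ne' hll (hne θ).1 (hne θ).2.2.1 (hne θ).2.2.2 (hY θ)
  have h0 : (0 : ℝ) ∈ Icc 0 Real.pi := ⟨le_rfl, Real.pi_pos.le⟩
  by_cases hev : Even j
  · obtain ⟨ε, hε, hG⟩ := Link1_sign cG (V := fun θ => I * Γ θ) (continuousOn_const.mul cΓ)
      (fun θ _ => mul_ne_zero I_ne_zero (Γ0 θ)) fun θ hθ => by
        rw [hsq θ hθ, if_pos hev, mul_pow I, I_sq, neg_one_mul]
    have hod : ¬ Even (j + 1) := Nat.not_even_iff_odd.2 hev.add_one
    rw [if_neg hod] at tA'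
    obtain rfl : ε = 1 := Tow1_eps hε hr I_ne_zero tA' (by rw [← e0, ← hr1]; exact hG 0 h0)
    have key := hpath reCLM (-(1 : ℝ) * (√p / (l * D j))) (fun θ hθ => by
      rw [reCLM_apply, Link1_even hε hT' (hne θ).1 (Γ0 θ) rfl (hG θ hθ), him θ, mul_assoc])
    rw [reCLM_apply] at key
    have ty : Sg.ty (false, j + 1) = false := by simp [Sg.ty, hod]
    simp only [ty, Bool.false_eq_true, if_false]
    rw [key, sg, hev.neg_one_pow]
    ring
  · obtain ⟨ε, hε, hG⟩ := Link1_sign cG (V := fun θ => (Γ θ)⁻¹) (cΓ.inv₀ fun θ _ => Γ0 θ)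
      (fun θ _ => inv_ne_zero (Γ0 θ)) fun θ hθ => by
        rw [hsq θ hθ, if_neg hev, inv_pow]
    have hod : Odd j := Nat.not_even_iff_odd.1 hev
    rw [if_pos hod.add_one] at tA'
    obtain rfl : ε = 1 := Tow1_eps hε (inv_pos.2 hr) one_ne_zero tA' (by
      rw [← e0, one_mul, ofReal_inv, ← hr1]; exact hG 0 h0)
    have key := hpath imCLM ((1 : ℝ) * (√p / (l * D j))) (fun θ hθ => by
      rw [imCLM_apply, Link1_odd hε hT' (hne θ).1 (Γ0 θ) rfl (hG θ hθ), him θ, mul_assoc])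
    rw [imCLM_apply] at key
    have ty : Sg.ty (false, j + 1) = true := by simp [Sg.ty, hod.add_one]
    simp only [ty, if_true]
    rw [key, sg, hod.neg_one_pow]
    ring

theorem Box.lk_up {g j : ℕ} {U D : ℕ → ℝ} (h : Box g U D) (hj : j < g) :
    Lk (tw g U D).F1 (tw g U D).F2 (Sg.ty (false, j))
        (tA U D j / (1 + 1 / √(D j / (D j + U j)))) (tA U D j / (1 - 1 / √(D j / (D j + U j)))) =
      sg j * (√(D j / (D j + U j)) / (D j * √(U j))) * Per (D j) (U j) (Lu g U D j) := by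
  have hb := (h j hj).symm
  obtain ⟨b1, -, b2, -, b3, b4⟩ := hb.bd
  have harg := hb.arg
  obtain ⟨hA, hB⟩ := h.in_up hj
  have hT := h.ok (by omega)
  obtain ⟨X, hX⟩ := hT.exists_pre
  have cL := Lu_cont h hj
  have hL0 := (Tow1_fld h hj).2
  have hsq := fun {s Γ : ℂ} => h.G_sq hj (s := s) (Γ := Γ)
  have hLd : ∀ θ, Ld g U D j (conj (sc (D j / (D j + U j)) θ))⁻¹ =
      conj (Lu g U D j (sc (D j / (D j + U j)) θ)) := fun θ => by
    rw [Ld, Lu, map_add, ← fld_conj (h.upp hj) fun _ => (harg θ).1,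
      ← fld_conj (h.low hj) fun h0 => (harg θ).2 (decide_eq_true h0), add_comm, map_mul, map_div₀,
      conj_ofReal, conj_ofReal, div_inv_eq_mul, div_eq_mul_inv ((U j ^ 2 / D j : ℝ) : ℂ)]
  have ha : 0 < tA U D j := hT.a_pos j hj
  rw [Per, Av]
  generalize Ld g U D j = L₁ at hsq hLd
  generalize Lu g U D j = L at cL hLd hL0 ⊢
  generalize tA U D j = a at hA hB hsq ha ⊢
  generalize U j = u at *
  generalize D j = d at *
  have hu : 0 < u := by linarith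
  have hd : 0 < d := by linarith
  have hβ : (1 - d / (d + u)) / (d / (d + u)) = u / d := by
    field_simp
    ring
  have p0 : 0 < d / (d + u) := by linarith
  have p1 : d / (d + u) < 1 := by linarith
  generalize d / (d + u) = p at *
  have hl : 0 < √(d ^ 2 / u) := by positivity
  have hl2 : √(d ^ 2 / u) ^ 2 * u = d ^ 2 := by
    rw [Real.sq_sqrt (by positivity)]
    field_simp
  rw [← Tow1_sqrt hd hu]
  generalize √(d ^ 2 / u) = l at *
  have hne := sc_ne p0 p1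
  have hY := Yc_sq p0 p1
  rw [hβ] at hne hY
  have cs : Continuous (sc p) := continuous_iff_continuousAt.mpr fun θ =>
    (sc_der p0 p1 θ).continuousAt
  have cY : Continuous (Yc p) := continuous_iff_continuousAt.mpr fun θ =>
    (Yc_der p0 p1 θ).continuousAt
  have cD : Continuous (Dl p) := Dl_cont.comp (continuous_const.prodMk continuous_id)
  have hc : ∀ θ, conj (sc p θ) ≠ 0 := fun θ => (map_ne_zero _).mpr (hne θ).1
  have a0 : (a : ℂ) ≠ 0 := ofReal_ne_zero.mpr ha.ne'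
  have e0 : (a : ℂ) * (conj (sc p 0))⁻¹ = ((a / (1 + 1 / √p) : ℝ) : ℂ) := by
    rw [sc_zero p0 p1, conj_ofReal, ofReal_div a, div_eq_mul_inv (a : ℂ)]
  have e1 : (a : ℂ) * (conj (sc p Real.pi))⁻¹ = ((a / (1 - 1 / √p) : ℝ) : ℂ) := by
    rw [sc_pi p0 p1, conj_ofReal, ofReal_div a, div_eq_mul_inv (a : ℂ)]
  obtain ⟨sA, tA'⟩ := hT.sign_pos hA.1 hj.le hA.2.1 hA.2.2
  have sB := (hT.sign_neg hB.1 hj hB.2.1 hB.2.2).1
  generalize a / (1 + 1 / √p) = x at *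
  generalize a / (1 - 1 / √p) = x' at *
  have nA : (tw g U D).P x ≠ 0 := fun h2 => by rw [h2] at sA; simp at sA
  have nB : (tw g U D).P x' ≠ 0 := fun h2 => by rw [h2] at sB; simp at sB
  rw [(hX.pathP hT).lk _ fun θ hθ => Dat.Ok.semi nA nB (hB.1.trans hA.1) hθ]
  have hin : ∀ θ ∈ Ioo 0 Real.pi, 0 < ((a : ℂ) * (conj (sc p θ))⁻¹).im := fun θ hθ => by
    rw [im_ofReal_mul, inv_im, conj_im, neg_neg]
    exact mul_pos ha (div_pos (sc_im p0 p1 hθ) (normSq_pos.mpr (hc θ)))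
  have hP : ∀ θ ∈ Icc 0 Real.pi, 0 ≤ ((a : ℂ) * (conj (sc p θ))⁻¹).im ∧
      (tw g U D).P ((a : ℂ) * (conj (sc p θ))⁻¹) ≠ 0 := fun θ hθ => by
    rcases hθ.1.eq_or_lt with rfl | h1
    · rw [e0]
      exact ⟨(ofReal_im _).ge, nA⟩
    rcases hθ.2.eq_or_lt with rfl | h2
    · rw [e1]
      exact ⟨(ofReal_im _).ge, nB⟩
    exact ⟨(hin θ ⟨h1, h2⟩).le, Dat.ne_of_im (hin θ ⟨h1, h2⟩).ne'⟩
  obtain ⟨r, hr, hr0⟩ := Tow1_pos p0 p1 hl (div_pos hu hd) hL0
  set Γ : ℝ → ℂ := fun θ => (l : ℂ) * (sc p θ + (u / d : ℝ)) ^ 2 / Yc p θ * exp (L (sc p θ))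
    with hΓd
  have hr1 : conj (Γ 0) = r := by rw [← conj_ofReal, ← hr0]
  have hΓ : ∀ θ, conj (Γ θ) ≠ 0 := fun θ => (map_ne_zero _).mpr
    (mul_ne_zero (div_ne_zero (mul_ne_zero (ofReal_ne_zero.mpr hl.ne')
      (pow_ne_zero _ (hne θ).2.2.1)) (hne θ).2.2.2) (exp_ne_zero _))
  have cΓ : ContinuousOn (fun θ => conj (Γ θ)) (Icc 0 Real.pi) :=
    continuous_conj.comp_continuousOn ((((continuous_const.mul ((cs.add continuous_const).pow 2)).div
      cY fun θ => (hne θ).2.2.2).continuousOn).mul cL.cexp)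
  have cγ : Continuous fun θ => (a : ℂ) * (conj (sc p θ))⁻¹ :=
    continuous_const.mul ((continuous_conj.comp cs).inv₀ hc)
  have cG : ContinuousOn (fun θ => (tw g U D).G ((a : ℂ) * (conj (sc p θ))⁻¹)) (Icc 0 Real.pi) :=
    Dat.G_cont.comp cγ.continuousOn hP
  have hγ0 : ∀ θ, (a : ℂ) * (conj (sc p θ))⁻¹ ≠ 0 := fun θ => mul_ne_zero a0 (inv_ne_zero (hc θ))
  have hpath := @Tow1_path _ _ hT hX (fun θ => (a : ℂ) * (conj (sc p θ))⁻¹)
    (fun θ => -((a : ℂ) * (conj (sc p θ))⁻¹ *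
      conj (I * ((√p / Dl p θ : ℝ) : ℂ) * Yc p θ / sc p θ)))
    (fun θ _ => by
      refine (((sc_der p0 p1 θ).star.fun_inv (hc θ)).const_mul (a : ℂ)).congr_deriv ?_
      have := hc θ
      rw [map_div₀]
      simp only [star_def]
      field_simp)
    (cγ.mul (continuous_conj.comp (((continuous_const.mul (continuous_ofReal.comp
      (continuous_const.div cD fun θ => (Dl_pos p0 p1 θ).ne'))).mul cY).div cs
        fun θ => (hne θ).1))).neg.continuousOn hin hP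
  simp only [e0, e1] at hpath
  have him : ∀ θ, (Γ θ * (I * ((√p / Dl p θ : ℝ) : ℂ) * Yc p θ / sc p θ) +
      I * ((√p / Dl p θ : ℝ) : ℂ) * Yc p θ / sc p θ / Γ θ).im = √p / (l * u) *
        (((d : ℂ) ^ 2 * ((sc p θ + (u / d : ℝ)) ^ 2 / sc p θ * exp (L (sc p θ))) +
          (u : ℂ) * ((sc p θ - 1) / (sc p θ + (u / d : ℝ)) * exp (-L (sc p θ)))).re / Dl p θ) :=
    fun θ => by
      rw [hΓd]
      beta_reduce
      rw [Link2_alg hu.ne' hl.ne' hl2 (hne θ).1 (hne θ).2.2.1 (hne θ).2.2.2 (hY θ)]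
      ring
  have hG : ∀ θ ∈ Icc 0 Real.pi, (tw g U D).G ((a : ℂ) * (conj (sc p θ))⁻¹) ^ 2 =
      if Even j then -(-I * conj (Γ θ)) ^ 2 else ((-I * conj (Γ θ)) ^ 2)⁻¹ := fun θ hθ => by
    refine hsq (hP θ hθ).2 ?_
    have q1 : conj (sc p θ + (u / d : ℝ)) = conj (sc p θ) + (u / d : ℝ) := by
      rw [map_add, conj_ofReal]
    have q2 : conj (sc p θ - 1) = conj (sc p θ) - 1 := by rw [map_sub, map_one]
    rw [hΓd]
    beta_reduce
    rw [hLd, exp_conj, map_mul, map_div₀, map_mul, map_pow, conj_ofReal, q1]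
    refine Link2_sq hu.ne' hd.ne' hl2 (hc θ) ?_ ?_ ?_
    · rw [← q1]
      exact (map_ne_zero _).mpr (hne θ).2.2.1
    · rw [← q2]
      exact (map_ne_zero _).mpr (hne θ).2.1
    · rw [← map_pow, hY, map_mul, map_mul, q1, q2]
  have h0 : (0 : ℝ) ∈ Icc 0 Real.pi := ⟨le_rfl, Real.pi_pos.le⟩
  rcases Nat.even_or_odd j with hj' | hj'
  · obtain ⟨ε, hε, he⟩ := Link1_sign cG cΓ (fun θ _ => hΓ θ) fun θ hθ => by
      rw [hG θ hθ, if_pos hj', mul_pow, neg_sq, I_sq, neg_one_mul, neg_neg]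
    rw [if_pos hj'] at tA'
    obtain rfl : ε = 1 := Tow1_eps hε hr one_ne_zero tA' (by
      rw [← e0, one_mul, ← hr1]; exact he 0 h0)
    have key := hpath imCLM ((1 : ℝ) * (√p / (l * u))) (fun θ hθ => by
      rw [imCLM_apply, he θ hθ, Link2_even 1 (one_mul 1) (hγ0 θ), him θ, mul_assoc])
    rw [imCLM_apply] at key
    have ty : Sg.ty (false, j) = true := by simp [Sg.ty, hj']
    simp only [ty, if_true]
    rw [key, sg, hj'.neg_one_pow]
  · have hod := Nat.not_even_iff_odd.mpr hj'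
    obtain ⟨ε, hε, he⟩ := Link1_sign cG (V := fun θ => I / conj (Γ θ))
      (continuousOn_const.div cΓ fun θ _ => hΓ θ) (fun θ _ => div_ne_zero I_ne_zero (hΓ θ))
      fun θ hθ => by
        rw [hG θ hθ, if_neg hod, mul_pow, neg_sq, div_pow, I_sq, neg_one_mul, inv_neg, neg_div,
          one_div]
    rw [if_neg hod] at tA'
    obtain rfl : ε = 1 := Tow1_eps hε (inv_pos.2 hr) I_ne_zero tA' (by
      rw [← e0, ofReal_inv, ← hr1, ← div_eq_mul_inv]; exact he 0 h0)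
    have key := hpath reCLM (-(1 : ℝ) * (√p / (l * u))) (fun θ hθ => by
      rw [reCLM_apply, he θ hθ, Link2_odd 1 (one_mul 1) (hγ0 θ), him θ, mul_assoc])
    rw [reCLM_apply] at key
    have ty : Sg.ty (false, j) = false := by simp [Sg.ty, hod]
    simp only [ty, Bool.false_eq_true, if_false]
    rw [key, sg, hj'.neg_one_pow]

end Pool.Agent.MP_92463a_gt
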