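import Pool.Agent.MP_92463a_gt.WLF
import Pool.Agent.MP_92463a_gt.Ends
import Pool.Agent.MP_92463a_gt.Ends3

open Set Complex Filter Metric
open scoped Topology ComplexConjugate ContDiff Manifold

noncomputable section

namespace Pool.Agent.MP_92463a_gt

theorem WEnds_sq {z : ℂ} (h : z = conj z) : z ^ 2 = ((z.re ^ 2 : ℝ) : ℂ) := by
  rw [ofReal_pow, conj_eq_iff_re.1 h.symm]

theorem Dat.WEnds_sign {D : Dat} (hD : D.Ok) {x₀ : ℂ} (he : D.IsE x₀) {δ : ℝ} (hδ : 0 < δ)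
    {k₁ k₂ : ℂ → ℂ} (c₁ : ContinuousAt k₁ 0) (c₂ : ContinuousAt k₂ 0) (h0 : x₀ = 0 → k₂ 0 = 0)
    (hj : ∀ j < D.q, x₀ = -D.b j → (Even j → k₁ 0 = 0) ∧ (Odd j → k₂ 0 = 0))
    (hk : ∀ w : ℝ, 0 < w → (w : ℂ) ∈ ball (0 : ℂ) δ → ∃ r₁ r₂ : ℝ, 0 ≤ r₁ ∧ 0 ≤ r₂ ∧
      k₁ (w ^ 2) / w ^ 2 = r₁ * (D.G (x₀ + w ^ 2) / (x₀ + w ^ 2)) * (2 * w) ∧
      k₂ (w ^ 2) / w ^ 2 = r₂ * (D.G (x₀ + w ^ 2) * (x₀ + w ^ 2))⁻¹ * (2 * w)) :
    ∃ c : ℝ, 0 ≤ c ∧ ((k₁ 0 = c ∧ k₂ 0 = 0) ∨ (k₁ 0 = 0 ∧ I * k₂ 0 = c)) := by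
  rcases he with rfl | ⟨j, hjq, rfl⟩
  · obtain ⟨c, hc, e⟩ := Ends_lim c₁ ((Ends_small hδ (hD.a_pos 0 hD.p_pos)).mono fun w hw => by
      obtain ⟨h1, h2, h3⟩ := hw
      have h4 := (hD.sign_pos (x := w ^ 2) (k := 0) (pow_pos h1 2) (Nat.zero_le _)
        (fun i hi => absurd hi (Nat.not_lt_zero i)) fun i _ hi => by
          rcases Nat.eq_zero_or_pos i with rfl | h5
          · exact h3
          · exact h3.trans (hD.a_lt 0 i h5 hi)).2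
      rw [if_pos Even.zero, one_mul, ofReal_pow] at h4
      obtain ⟨r, -, hr, -, h5, -⟩ := hk w h1 h2
      have h6 : (w : ℂ) ≠ 0 := ofReal_ne_zero.2 h1.ne'
      rw [zero_add, div_eq_iff (pow_ne_zero 2 h6), h4] at h5
      refine ⟨r * ‖D.G ((w : ℂ) ^ 2)‖ * (2 * w), by positivity, ?_⟩
      rw [h5]
      push_cast
      field_simp)
    exact ⟨c, hc, Or.inl ⟨e, h0 rfl⟩⟩
  · have hb := hD.b_pos j hjq
    have hs : ∀ w : ℝ, 0 < w → w ^ 2 < D.b j / 2 → -D.b j + w ^ 2 < 0 ∧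
        D.G (-D.b j + w ^ 2) = (if Even j then -I else -1) * (‖D.G (-D.b j + w ^ 2)‖ : ℂ) := by
      intro w h1 h3
      have h2 : -D.b j + w ^ 2 < 0 := by linarith
      have h4 := (hD.sign_neg (x := -D.b j + w ^ 2) (k := j) h2 hjq.le
        (fun i hi => by
          have := hD.b_gap i j hi hjq
          have := hD.b_pos i (hi.trans hjq)
          linarith)
        fun i hi hq => by
          have h5 := pow_pos h1 2
          rcases hi.eq_or_lt with rfl | hi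
          · linarith
          · have := hD.b_gap j i hi hq
            linarith).2
      rw [ofReal_add, ofReal_neg, ofReal_pow] at h4
      exact ⟨h2, h4⟩
    rcases Nat.even_or_odd j with hje | hje
    · obtain ⟨c, hc, e⟩ := Ends_lim (k := fun s => I * k₂ s) (continuousAt_const.mul c₂)
        ((Ends_small hδ (half_pos hb)).mono fun w hw => by
          obtain ⟨h1, h2, h3⟩ := hw
          obtain ⟨h7, h4⟩ := hs w h1 h3
          rw [if_pos hje] at h4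
          obtain ⟨-, r, -, hr, -, h5⟩ := hk w h1 h2
          have h6 : (w : ℂ) ≠ 0 := ofReal_ne_zero.2 h1.ne'
          rw [div_eq_iff (pow_ne_zero 2 h6), h4] at h5
          refine ⟨r * ((‖D.G (-D.b j + w ^ 2)‖ * -(-D.b j + w ^ 2))⁻¹ * (2 * w) * w ^ 2),
            mul_nonneg hr (mul_nonneg (mul_nonneg (inv_nonneg.2 (mul_nonneg (norm_nonneg _)
              (by linarith))) (by positivity)) (by positivity)), ?_⟩
          show I * k₂ ((w : ℂ) ^ 2) = _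
          rw [h5]
          push_cast
          rw [mul_inv, mul_inv, mul_inv, inv_neg, inv_neg, inv_I]
          linear_combination r * (‖D.G (-D.b j + w ^ 2)‖ : ℂ)⁻¹ * (-(D.b j : ℂ) + w ^ 2)⁻¹ *
            (2 * w) * w ^ 2 * I_mul_I)
      exact ⟨c, hc, Or.inr ⟨(hj j hjq rfl).1 hje, e⟩⟩
    · obtain ⟨c, hc, e⟩ := Ends_lim c₁
        ((Ends_small hδ (half_pos hb)).mono fun w hw => by
          obtain ⟨h1, h2, h3⟩ := hw
          obtain ⟨h7, h4⟩ := hs w h1 h3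
          rw [if_neg (Nat.not_even_iff_odd.2 hje)] at h4
          obtain ⟨r, -, hr, -, h5, -⟩ := hk w h1 h2
          have h6 : (w : ℂ) ≠ 0 := ofReal_ne_zero.2 h1.ne'
          rw [div_eq_iff (pow_ne_zero 2 h6), h4] at h5
          refine ⟨r * (‖D.G (-D.b j + w ^ 2)‖ / -(-D.b j + w ^ 2)) * (2 * w) * w ^ 2,
            mul_nonneg (mul_nonneg (mul_nonneg hr (div_nonneg (norm_nonneg _) (by linarith)))
              (by positivity)) (by positivity), ?_⟩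
          rw [h5]
          push_cast
          rw [div_neg, neg_one_mul, neg_div])
      exact ⟨c, hc, Or.inl ⟨e, (hj j hjq rfl).2 hje⟩⟩

namespace Wd

variable {ι : Type} [Fintype ι] {W : Wd ι} {X : ℂ → ℂ}

theorem WEnds_real (hW : W.Ok1) {t : ℂ} (ht : t ∈ W.Om) (hi : t.im = 0) :
    W.ψ₁ t ^ 2 = (((W.ψ₁ t).re ^ 2 : ℝ) : ℂ) ∧ W.ψ₂ t ^ 2 = (((W.ψ₂ t).re ^ 2 : ℝ) : ℂ) := by
  have h1 := hW.ψ₁_conj ht
  have h2 := hW.ψconj t ht
  rw [conj_eq_iff_im.2 hi] at h1 h2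
  exact ⟨WEnds_sq h1, WEnds_sq h2⟩

theorem WEnds_core (hW : W.Ok) (hX : W.SolX X) {x₀ : ℂ} (he : W.D.IsE x₀) :
    ∃ L : ℂ → ℂ, Tendsto (fun t => X t - L t) (𝓝[W.Q] x₀) (𝓝 0) ∧
      (∀ t ∈ W.Q, (L t).re ≤ 0 ∧ 0 ≤ (L t).im) ∧
      Tendsto (fun t => ‖L t‖) (𝓝[W.Q] x₀) atTop := by
  have hD := hW.d
  obtain ⟨δ₀, h, H₀, hY₀⟩ := hD.par2 (Dat.P_eq_zero.2 (Or.inl he))
  obtain ⟨δ, d0, dle, k₁, k₂, d₁, d₂, hne, h0, hj, hk⟩ := hW.formE H₀ he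
  have H := H₀.mono d0 dle
  have hY := fun w (hw : w ∈ ball (0 : ℂ) δ) => hY₀ w (ball_subset_ball dle hw)
  have him : x₀.im = 0 := by
    rcases he with rfl | ⟨j, -, rfl⟩
    · rfl
    · rw [neg_im, ofReal_im, neg_zero]
  have hb : ball (0 : ℂ) (δ ^ 2) ∈ 𝓝 (0 : ℂ) := ball_mem_nhds _ (pow_pos H.pos 2)
  obtain ⟨c, hc, hcase⟩ := Dat.WEnds_sign hD he H.pos (d₁.continuousOn.continuousAt hb)
    (d₂.continuousOn.continuousAt hb) h0 hj fun w h1 h2 => by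
      have h6 : (w : ℂ) ≠ 0 := ofReal_ne_zero.2 h1.ne'
      obtain ⟨e1, e2⟩ := WEnds_real hW.toOk1 (hk w h2).1 (by
        rw [add_im, him, zero_add, ← ofReal_pow, ofReal_im])
      refine ⟨_, _, sq_nonneg (W.ψ₁ (x₀ + w ^ 2)).re, sq_nonneg (W.ψ₂ (x₀ + w ^ 2)).re, ?_⟩
      rw [hD.G_eq ((H.on h2).2 h6), ← hY w h2 h6 h1.le le_rfl, ← e1, ← e2]
      exact (hk w h2).2 h6
  have hc0 : 0 < c := by
    refine hc.lt_of_ne fun e => ?_
    subst e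
    rcases hcase with ⟨e1, e2⟩ | ⟨e1, e2⟩
    · exact hne.elim (fun h => h e1) fun h => h e2
    · exact hne.elim (fun h => h e1) fun h => mul_ne_zero I_ne_zero h e2
  have hT := hX.lfE hW.toOk1 H.pos (T := fun w => x₀ + w ^ 2) (T' := fun w => 2 * w)
    (Yl := fun w => w * h (w ^ 2)) d₁ d₂
    (continuousOn_id.mul (H.hol.continuousOn.comp (continuous_pow 2).continuousOn
      fun w hw => Dat.sq_mem_ball hw.1))
    fun w hw h1 => ⟨by simpa using (hasDerivAt_pow 2 w).const_add x₀, (H.on hw).1, (H.on hw).2 h1,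
      (hk w hw).1, by rw [neg_sq], by rw [neg_sq, neg_mul], fun h2 h3 => by
        rw [add_im, him, zero_add, sq, mul_im, mul_comm w.im, ← two_mul]
        exact mul_ne_zero two_ne_zero (mul_ne_zero h2 h3), (hk w hw).2 h1⟩
  obtain ⟨V, hVd⟩ : ∃ V : ℂ → ℂ, ∀ t, V t = (t - x₀) ^ (2⁻¹ : ℂ) := ⟨_, fun _ => rfl⟩
  have hsq : ∀ t, V t ^ 2 = t - x₀ := fun t => by rw [hVd, cpow_ofNat_inv_pow]
  have hq : ∀ t ∈ W.Q, V t ≠ 0 ∧ 0 ≤ (V t).re ∧ 0 ≤ (V t).im := fun t ht => by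
    refine ⟨fun h1 => ht.1.2 ?_, ?_, ?_⟩
    · have h2 := hsq t
      rw [h1, zero_pow two_ne_zero, eq_comm, sub_eq_zero] at h2
      rwa [h2]
    · rw [hVd, cpow_inv_two_re]
      exact Real.sqrt_nonneg _
    · rw [hVd, cpow_inv_two_im_eq_sqrt (by rw [sub_im, him, sub_zero]; exact ht.1.1)]
      exact Real.sqrt_nonneg _
  have hV0 : Tendsto V (𝓝[W.Q] x₀) (𝓝 0) := by
    rw [tendsto_zero_iff_norm_tendsto_zero]
    have h1 : Continuous fun t : ℂ => √‖t - x₀‖ := by fun_prop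
    have h2 := h1.tendsto x₀
    rw [sub_self, norm_zero, Real.sqrt_zero] at h2
    refine (h2.mono_left nhdsWithin_le_nhds).congr fun t => ?_
    rw [← hsq, norm_pow, Real.sqrt_sq (norm_nonneg _)]
  have hV : Tendsto V (𝓝[W.Q] x₀) (𝓝[≠] 0) :=
    tendsto_nhdsWithin_iff.2 ⟨hV0, eventually_nhdsWithin_of_forall fun t ht => (hq t ht).1⟩
  refine ⟨fun t => -k₁ 0 / V t - conj (-k₂ 0 / V t), (hT.comp hV).congr' ?_,
    fun t ht => (Ends_lead hc hcase (V t)).2 (hq t ht).2.1 (hq t ht).2.2, ?_⟩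
  · filter_upwards [self_mem_nhdsWithin, hV0.eventually (ball_mem_nhds _ H.pos)] with t ht h1
    have h2 : x₀ + V t ^ 2 = t := by rw [hsq, add_sub_cancel]
    show W.D.Xg X (x₀ + V t ^ 2) (V t * h (V t ^ 2)) - _ = _
    rw [hY _ h1 (hq t ht).1 (hq t ht).2.1 (hq t ht).2.2, h2, Dat.Xg_Y ht.1.1]
  · refine ((tendsto_norm_inv_nhdsNE_zero_atTop.comp hV).const_mul_atTop hc0).congr
      fun t => ?_
    exact (Ends_lead hc hcase (V t)).1.symm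

theorem SolX.end_sign (hW : W.Ok) (hX : W.SolX X) {x₀ : ℂ} (he : W.D.IsE x₀) {ε : ℝ}
    (hε : 0 < ε) : ∀ᶠ t in 𝓝[W.Q] x₀, (X t).re < ε ∧ -ε < (X t).im := by
  obtain ⟨L, h1, h2, -⟩ := WEnds_core hW hX he
  filter_upwards [self_mem_nhdsWithin, h1.eventually (ball_mem_nhds _ hε)] with t ht h3
  rw [dist_zero_right] at h3
  have h4 := (abs_le.1 (abs_re_le_norm (X t - L t))).2
  have h5 := (abs_le.1 (abs_im_le_norm (X t - L t))).1
  rw [sub_re] at h4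
  rw [sub_im] at h5
  obtain ⟨h6, h7⟩ := h2 t ht
  exact ⟨by linarith, by linarith⟩

theorem SolX.end_big (hW : W.Ok) (hX : W.SolX X) {x₀ : ℂ} (he : W.D.IsE x₀) :
    Tendsto (fun t => ‖X t‖) (𝓝[W.Q] x₀) atTop := by
  obtain ⟨L, h1, -, h2⟩ := WEnds_core hW hX he
  refine tendsto_atTop_mono' _ ?_ (tendsto_atTop_add_const_right _ (-1) h2)
  filter_upwards [h1.eventually (ball_mem_nhds _ one_pos)] with t h3
  rw [dist_zero_right, norm_sub_rev] at h3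
  have h4 := norm_sub_norm_le (L t) (X t)
  linarith

theorem SolX.inf_sign (hW : W.Ok) (hX : W.SolX X) {ε : ℝ} (hε : 0 < ε) :
    ∃ r : ℝ, ∀ t ∈ W.Q, r < ‖t‖ → (X t).re < ε ∧ -ε < (X t).im := by
  have hD := hW.d
  obtain ⟨δ₀, h, H₀, hY₀⟩ := hD.par3
  obtain ⟨δ, d0, dle, k₁, k₂, hk₁, hk₂, he, ho, hk⟩ := hW.toOk1.form3 H₀
  have H := H₀.mono d0 dle
  have hY := fun w (hw : w ∈ ball (0 : ℂ) δ) => hY₀ w (ball_subset_ball dle hw)
  have hodd : Odd (W.D.p + W.D.q + 1) := hD.par.add_one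
  have hlim := hX.lfE hW.toOk1 H.pos (T := fun w => (w ^ 2)⁻¹) (T' := fun w => -2 / w ^ 3)
    (Yl := fun w => h (w ^ 2) / w ^ (W.D.p + W.D.q + 1)) hk₁ hk₂ (by
      refine ContinuousOn.div ?_ (by fun_prop) fun w hw => pow_ne_zero _ hw.2
      exact H.hol.continuousOn.comp (by fun_prop) fun w hw => Dat.sq_mem_ball hw.1) (by
      intro w hw h0
      refine ⟨?_, (H.on hw h0).1, (H.on hw h0).2, (hk w hw h0).1, by rw [neg_sq], ?_, ?_,
        (hk w hw h0).2⟩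
      · refine ((hasDerivAt_pow 2 w).inv (pow_ne_zero 2 h0)).congr_deriv ?_
        field_simp
        norm_num
        ring
      · rw [neg_sq, hodd.neg_pow, div_neg]
      · intro h1 h2
        rw [inv_im, pow_two, mul_im]
        refine div_ne_zero (neg_ne_zero.2 ?_) (normSq_eq_zero.not.2 (mul_ne_zero h0 h0))
        rw [mul_comm w.im, ← two_mul]
        exact mul_ne_zero two_ne_zero (mul_ne_zero h1 h2))
  have hG : ∀ᶠ w : ℝ in 𝓝[>] 0, 0 < w ∧ ∃ r₁ r₂ : ℝ, 0 ≤ r₁ ∧ 0 ≤ r₂ ∧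
      -k₁ ((w : ℂ) ^ 2) =
        r₁ * (2 * w * ((if Even W.D.p then 1 else I) * (‖W.D.G ((w : ℂ) ^ 2)⁻¹‖ : ℂ))) ∧
      -k₂ ((w : ℂ) ^ 2) =
        r₂ * (2 * w * ((if Even W.D.p then 1 else I) * (‖W.D.G ((w : ℂ) ^ 2)⁻¹‖ : ℂ))⁻¹) := by
    filter_upwards [Ends3_ev hD H.pos] with w ⟨hw0, hw, hG⟩
    have h0 : (w : ℂ) ≠ 0 := ofReal_ne_zero.2 hw0.ne'
    obtain ⟨hO, h1, h2⟩ := hk w hw h0
    obtain ⟨e1, e2⟩ := WEnds_real hW.toOk1 hO (by rw [← ofReal_pow, ← ofReal_inv, ofReal_im])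
    rw [hY w hw h0 (by rw [ofReal_re]; exact hw0.le) (by rw [ofReal_im]),
      ← hD.G_eq (H.on hw h0).2] at h1 h2
    rw [e1] at h1
    rw [e2] at h2
    rw [← hG]
    have h3 := W.D.G_ne ((w : ℂ) ^ 2)⁻¹
    generalize W.D.G ((w : ℂ) ^ 2)⁻¹ = g at h1 h2 h3
    rw [div_eq_iff (pow_ne_zero 2 h0)] at h1 h2
    refine ⟨hw0, _, _, sq_nonneg (W.ψ₁ ((w : ℂ) ^ 2)⁻¹).re, sq_nonneg (W.ψ₂ ((w : ℂ) ^ 2)⁻¹).re,
      ?_, ?_⟩
    · rw [h1]; field_simp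
    · rw [h2]; field_simp
  have hpq : Even W.D.p ↔ Even W.D.q := Nat.even_add.1 hD.par
  have c₁ : (-k₁ 0).re = 0 ∧ 0 ≤ (-k₁ 0).im := by
    rcases Nat.even_or_odd W.D.q with hq | hq
    · rw [he hq]; simp
    · have hp : ¬ Even W.D.p := fun hp => Nat.not_even_iff_odd.2 hq (hpq.1 hp)
      have hc : IsClosed {z : ℂ | z.re = 0 ∧ 0 ≤ z.im} :=
        (isClosed_eq continuous_re continuous_const).inter
          (isClosed_le continuous_const continuous_im)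
      refine hc.mem_of_tendsto (Ends3_lim H.pos hk₁) ?_
      filter_upwards [hG] with w ⟨hw0, r, _, hr, _, h1, _⟩
      rw [h1, if_neg hp]
      have h2 : (r : ℂ) * ((2 : ℂ) * w * (I * (‖W.D.G ((w : ℂ) ^ 2)⁻¹‖ : ℂ))) =
          ((r * (2 * w * ‖W.D.G ((w : ℂ) ^ 2)⁻¹‖) : ℝ) : ℂ) * I := by
        push_cast
        ring
      rw [h2, mul_I_re, mul_I_im, ofReal_re, ofReal_im, neg_zero]
      exact ⟨rfl, by positivity⟩
  have c₂ : (-k₂ 0).im = 0 ∧ 0 ≤ (-k₂ 0).re := by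
    rcases Nat.even_or_odd W.D.q with hq | hq
    · have hc : IsClosed {z : ℂ | z.im = 0 ∧ 0 ≤ z.re} :=
        (isClosed_eq continuous_im continuous_const).inter
          (isClosed_le continuous_const continuous_re)
      refine hc.mem_of_tendsto (Ends3_lim H.pos hk₂) ?_
      filter_upwards [hG] with w ⟨hw0, _, r, _, hr, _, h1⟩
      rw [h1, if_pos (hpq.2 hq)]
      have h2 : (r : ℂ) * ((2 : ℂ) * w * (1 * (‖W.D.G ((w : ℂ) ^ 2)⁻¹‖ : ℂ))⁻¹) =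
          ((r * (2 * w * ‖W.D.G ((w : ℂ) ^ 2)⁻¹‖⁻¹) : ℝ) : ℂ) := by
        push_cast
        ring
      rw [h2, ofReal_re, ofReal_im]
      exact ⟨rfl, by positivity⟩
    · rw [ho hq]; simp
  have hev := (Metric.tendsto_nhds.1 hlim ε hε).and
    (mem_nhdsWithin_of_mem_nhds (ball_mem_nhds (0 : ℂ) H.pos))
  obtain ⟨η, hη, hb⟩ := Metric.mem_nhdsWithin_iff.1 hev
  refine ⟨η⁻¹ ^ 2, fun t ht hr => ?_⟩
  obtain ⟨v, hv, hre, him⟩ := Ends3_sqrt ht.1.1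
  have hv1 : η⁻¹ < ‖v‖ := by
    rw [← hv, norm_pow] at hr
    exact lt_of_pow_lt_pow_left₀ 2 (norm_nonneg v) hr
  have hv2 : 0 < ‖v‖ := (inv_pos.2 hη).trans hv1
  have h0 : v⁻¹ ≠ 0 := inv_ne_zero (norm_pos_iff.1 hv2)
  obtain ⟨h1, h2⟩ := hb (a := v⁻¹) ⟨by
    rw [mem_ball_zero_iff, norm_inv]
    exact inv_lt_of_inv_lt₀ hη hv1, h0⟩
  have h3 : (v⁻¹ ^ 2)⁻¹ = t := by rw [inv_pow, inv_inv, hv]
  rw [hY _ h2 h0 (by rw [inv_re]; exact div_nonneg hre (normSq_nonneg v))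
    (by rw [inv_im]; exact div_nonpos_of_nonpos_of_nonneg (neg_nonpos.2 him) (normSq_nonneg v)),
    h3, Dat.Xg_Y ht.1.1, dist_zero_right] at h1
  obtain ⟨h4, h5⟩ := Ends3_quad c₁.1 c₁.2 c₂.1 c₂.2 hre him
  generalize -k₁ 0 / v⁻¹ - conj (-k₂ 0 / v⁻¹) = z at h1 h4 h5
  have h6 := abs_lt.1 ((abs_re_le_norm _).trans_lt h1)
  have h7 := abs_lt.1 ((abs_im_le_norm _).trans_lt h1)
  rw [sub_re] at h6
  rw [sub_im] at h7
  constructor <;> linarith [h6.2, h7.1]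

end Wd

end Pool.Agent.MP_92463a_gt
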