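import Pool.Agent.MP_92463a_gt.WGl2
import Pool.Agent.MP_92463a_gt.FsB
import Pool.Agent.MP_92463a_gt.WForm

open Set Complex Filter Metric
open scoped Topology ComplexConjugate ContDiff Manifold

noncomputable section

namespace Pool.Agent.MP_92463a_gt

/-- removable singularity at infinity -/
theorem WGen1_inf {f : ℂ → ℂ} {R C : ℝ} (hf : ∀ t, R < ‖t‖ → DifferentiableAt ℂ f t ∧ ‖f t‖ ≤ C) :
    ∃ k : ℂ → ℂ, AnalyticAt ℂ k 0 ∧ ∀ s, s ≠ 0 → k s = f s⁻¹ := by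
  have p : 0 < max R 1 := lt_max_of_lt_right one_pos
  have hb := ball_mem_nhds (0 : ℂ) (inv_pos.2 p)
  have h1 : ∀ s ∈ ball (0 : ℂ) (max R 1)⁻¹ \ {0}, R < ‖s⁻¹‖ := fun s hs => by
    rw [norm_inv]
    exact (le_max_left R 1).trans_lt
      ((lt_inv_comm₀ (norm_pos_iff.2 hs.2) p).1 (mem_ball_zero_iff.1 hs.1))
  have h2 := differentiableOn_update_limUnder_of_bddAbove (f := fun s => f s⁻¹) hb
    (fun s hs => ((hf _ (h1 s hs)).1.comp s (differentiableAt_inv hs.2)).differentiableWithinAt)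
    ⟨C, by
      rintro _ ⟨s, hs, rfl⟩
      exact (hf _ (h1 s hs)).2⟩
  exact ⟨_, h2.analyticAt hb, fun s hs => Function.update_of_ne hs _ _⟩

theorem WGen1_one {D : Dat} (A : D.Atl) {z : D.N} (hz : D.yy z ≠ 0) :
    deriv (fun v => D.tt ((A.ch z).symm v)) 0 = 1 := by
  obtain ⟨k, H, -, e⟩ := A.Gen2_k1 hz
  have h1 : (fun v => D.tt ((A.ch z).symm v)) =ᶠ[𝓝 0] fun v => D.tt z + v := by
    filter_upwards [ball_mem_nhds (0 : ℂ) H.pos] with v hv
    rw [e v hv, Dat.tt_pt (H.sq v hv)]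
  rw [h1.deriv_eq, ((hasDerivAt_id' (0 : ℂ)).const_add _).deriv]

theorem WGen1_chain {D : Dat} (hD : D.Ok) (A : D.Atl) {z z' : D.N} (hs : z' ∈ (A.ch z).source)
    (hz : D.yy z' ≠ 0) : deriv (fun v => D.tt ((A.ch z).symm v)) (A.ch z z') *
      deriv (A.ch z ∘ (A.ch z').symm) 0 = 1 := by
  have b0 : (0 : ℂ) ∈ (A.ch z').target := A.ctr z' ▸ (A.ch z').map_source (A.mem z')
  have e0 := A.Gen2_zero z'
  have b1 : A.ch z z' ∈ ball (0 : ℂ) (A.δ z) := A.tgt z ▸ (A.ch z).map_source hs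
  have h1 : (fun v => D.tt ((A.ch z').symm v)) =ᶠ[𝓝 0]
      (fun v => D.tt ((A.ch z).symm v)) ∘ (A.ch z ∘ (A.ch z').symm) := by
    have h2 := (A.ch z').continuousAt_symm b0
    rw [ContinuousAt, e0] at h2
    filter_upwards [h2 ((A.ch z).open_source.mem_nhds hs)] with v hv
    simp only [Function.comp_apply]
    rw [(A.ch z).left_inv hv]
  have h3 := (A.trans hD z' z (A.tgt z' ▸ b0) (by rwa [e0])).differentiableAt
  have h4 := (A.hol z b1 (by
    rw [(A.ch z).left_inv hs]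
    rintro rfl
    exact hz Dat.yy_infty)).1.differentiableAt
  have h5 : (A.ch z ∘ (A.ch z').symm) 0 = A.ch z z' := by rw [Function.comp_apply, e0]
  rw [← WGen1_one A hz, h1.deriv_eq, deriv_comp _ (by rwa [h5]) h3, h5]

theorem WGen1_loc {ι : Type} [Fintype ι] {W : Wd ι} (h : W.Ok0) (A : W.D.Atl)
    {a b : ℂ → ℂ} (ha : a ∈ W.Fs (fun _ _ => 1) (fun e => -W.s e.1) 0)
    (hb : b ∈ W.Fs W.my W.ry ((W.D.p + W.D.q) / 2)) (z : W.D.N) (hz : z ∈ W.U) :
    ∃ F : ℂ → ℂ, AnalyticAt ℂ F 0 ∧ ∀ᶠ w in 𝓝 (0 : ℂ), W.D.yy ((A.ch z).symm w) ≠ 0 →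
      F w = (a (W.D.tt ((A.ch z).symm w)) +
        b (W.D.tt ((A.ch z).symm w)) / W.D.yy ((A.ch z).symm w)) *
          deriv (fun v => W.D.tt ((A.ch z).symm v)) w := by
  have oa : ∀ t ∈ W.Om, AnalyticAt ℂ a t := fun t ht =>
    ha.1.analyticAt (Pl.isOpen_om.mem_nhds ht)
  have ob : ∀ t ∈ W.Om, AnalyticAt ℂ b t := fun t ht =>
    hb.1.analyticAt (Pl.isOpen_om.mem_nhds ht)
  have z0 := A.Gen2_zero z
  rcases A.kind z with ⟨t₀, k, H, e⟩ | ⟨x₀, k, H, e⟩ | ⟨k, H, e0, e⟩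
  · have m0 := mem_ball_self (x := (0 : ℂ)) H.pos
    have n0 := ball_mem_nhds (0 : ℂ) H.pos
    have t0 : t₀ + 0 ∈ W.Om := by
      rw [← Dat.tt_pt (H.sq 0 m0), ← e 0 m0, z0]
      exact hz
    have c : AnalyticAt ℂ (fun w : ℂ => t₀ + w) 0 := by fun_prop
    refine ⟨fun w => a (t₀ + w) + b (t₀ + w) / k w, ((oa _ t0).fun_comp_of_eq c rfl).add
      (((ob _ t0).fun_comp_of_eq c rfl).div (H.hol.analyticAt n0) (H.ne 0 m0)), ?_⟩
    filter_upwards [n0] with w hw _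
    have h1 : (fun v => W.D.tt ((A.ch z).symm v)) =ᶠ[𝓝 w] fun v => t₀ + v := by
      filter_upwards [isOpen_ball.mem_nhds hw] with v hv
      rw [e v hv, Dat.tt_pt (H.sq v hv)]
    rw [h1.deriv_eq, ((hasDerivAt_id' w).const_add t₀).deriv, e w hw, Dat.tt_pt (H.sq w hw),
      Dat.yy_pt (H.sq w hw), mul_one]
  · have n0 := ball_mem_nhds (0 : ℂ) H.pos
    have n1 := ball_mem_nhds (0 : ℂ) (pow_pos H.pos 2)
    have t0 := (h.zero_fd H.br).2
    have c : AnalyticAt ℂ (fun w : ℂ => x₀ + w ^ 2) 0 := by fun_prop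
    have c' : AnalyticAt ℂ (fun w : ℂ => w ^ 2) 0 := by fun_prop
    refine ⟨fun w => a (x₀ + w ^ 2) * (2 * w) + b (x₀ + w ^ 2) * 2 / k (w ^ 2),
      (((oa _ t0).fun_comp_of_eq c (by simp)).mul (by fun_prop)).add
      ((((ob _ t0).fun_comp_of_eq c (by simp)).mul analyticAt_const).div
        ((H.hol.analyticAt n1).fun_comp_of_eq c' (by simp))
        (H.ne _ (Dat.sq_mem_ball (mem_ball_self H.pos)))), ?_⟩
    filter_upwards [n0] with w hw h0
    have h1 : (fun v => W.D.tt ((A.ch z).symm v)) =ᶠ[𝓝 w] fun v => x₀ + v ^ 2 := by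
      filter_upwards [isOpen_ball.mem_nhds hw] with v hv
      rw [e v hv, Dat.tt_pt (H.on hv).1]
    rw [e w hw, Dat.yy_pt (H.on hw).1] at h0
    rw [h1.deriv_eq, ((hasDerivAt_pow 2 w).const_add x₀).deriv, e w hw, Dat.tt_pt (H.on hw).1,
      Dat.yy_pt (H.on hw).1]
    have h2 := left_ne_zero_of_mul h0
    have h3 := right_ne_zero_of_mul h0
    simp only [Nat.cast_ofNat, Nat.add_one_sub_one, pow_one]
    field_simp
  · obtain ⟨g, hg⟩ := h.d.par
    have hg' : (W.D.p + W.D.q) / 2 = g := by omega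
    rw [hg'] at hb
    obtain ⟨R, hR⟩ := Pl.om_far (P := W.toPl)
    obtain ⟨C₁, R₁, d₁⟩ := Pl.fs_decay h.pl ha
    obtain ⟨C₂, R₂, d₂⟩ := hb.2.2.2
    obtain ⟨k₁, a₁, b₁⟩ := WGen1_inf (f := fun t => a t * t ^ 2) (R := max R R₁) (C := C₁)
      fun t ht => ⟨(oa t (hR t (max_lt_iff.1 ht).1).2).differentiableAt.mul (by fun_prop), by
        rw [norm_mul, norm_pow]
        exact d₁ t (max_lt_iff.1 ht).2.le⟩
    obtain ⟨k₂, a₂, b₂⟩ := WGen1_inf (f := fun t => b t * t / t ^ g) (R := max (max R R₂) 0)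
      (C := C₂) fun t ht => by
        obtain ⟨h1, h2⟩ := max_lt_iff.1 ht
        refine ⟨((ob t (hR t (max_lt_iff.1 h1).1).2).differentiableAt.mul (by fun_prop)).div
          (by fun_prop) (pow_ne_zero _ (norm_pos_iff.1 h2)), ?_⟩
        rw [norm_div, norm_mul, norm_pow, div_le_iff₀ (pow_pos h2 g)]
        exact d₂ t (max_lt_iff.1 h1).2.le
    have n0 := ball_mem_nhds (0 : ℂ) H.pos
    have n1 := ball_mem_nhds (0 : ℂ) (pow_pos H.pos 2)
    have c' : AnalyticAt ℂ (fun w : ℂ => w ^ 2) 0 := by fun_prop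
    refine ⟨fun w => k₁ (w ^ 2) * (-2 * w) + k₂ (w ^ 2) * (-2) / k (w ^ 2),
      ((a₁.fun_comp_of_eq c' (by simp)).mul (by fun_prop)).add
      (((a₂.fun_comp_of_eq c' (by simp)).mul analyticAt_const).div
        ((H.hol.analyticAt n1).fun_comp_of_eq c' (by simp))
        (H.ne _ (Dat.sq_mem_ball (mem_ball_self H.pos)))), ?_⟩
    filter_upwards [n0] with w hw h0
    have h2 : w ≠ 0 := by
      rintro rfl
      exact h0 (by rw [e0, Dat.yy_infty])
    have h1 : (fun v => W.D.tt ((A.ch z).symm v)) =ᶠ[𝓝 w] fun v => (v ^ 2)⁻¹ := by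
      filter_upwards [isOpen_ball.mem_nhds hw, isOpen_ne.mem_nhds h2] with v hv hv'
      rw [e v hv hv', Dat.tt_pt (H.on hv hv').1]
    rw [h1.deriv_eq, ((hasDerivAt_pow 2 w).fun_inv (pow_ne_zero 2 h2)).deriv, e w hw h2,
      Dat.tt_pt (H.on hw h2).1, Dat.yy_pt (H.on hw h2).1, hg, b₁ _ (pow_ne_zero 2 h2),
      b₂ _ (pow_ne_zero 2 h2)]
    have h3 := H.ne _ (Dat.sq_mem_ball hw)
    simp only [Nat.cast_ofNat, Nat.add_one_sub_one, pow_one, inv_pow]
    field_simp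
    ring

theorem Wd.Ok0.exists_form {ι : Type} [Fintype ι] {W : Wd ι} (h : W.Ok0) (A : W.D.Atl)
    {a b : ℂ → ℂ} (ha : a ∈ W.Fs (fun _ _ => 1) (fun e => -W.s e.1) 0)
    (hb : b ∈ W.Fs W.my W.ry ((W.D.p + W.D.q) / 2)) :
    letI := A.charted
    ∃ om ∈ formsU W.U W.O W.g, W.Rep a b om := by
  classical
  let := A.charted
  choose! F hF hR using WGen1_loc h A ha hb
  have K : ∀ z ∈ W.U, W.D.yy z ≠ 0 → F z 0 = a (W.D.tt z) + b (W.D.tt z) / W.D.yy z :=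
    fun z hz hy => by
      have h1 := (hR z hz).self_of_nhds
      rw [A.Gen2_zero] at h1
      rw [h1 hy, WGen1_one A hy, mul_one]
  have hrep : W.Rep a b (W.U.indicator fun z => F z 0) := fun t ht y hy h0 => by
    have hz : W.D.pt t y ∈ W.U := by
      show W.D.tt _ ∈ W.Om
      rwa [Dat.tt_pt hy]
    rw [indicator_of_mem hz, K _ hz (by
      rw [Dat.yy_pt hy]
      rintro rfl
      exact h0 (by rw [← hy]; simp)), Dat.tt_pt hy, Dat.yy_pt hy]
  refine ⟨_, ⟨fun z hz => indicator_of_notMem hz _, fun z hz => ⟨F z, ?_, ?_⟩, fun z hz => ?_⟩,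
    hrep⟩
  · show AnalyticAt ℂ (F z) (A.ch z z)
    rw [A.ctr]
    exact hF z hz
  · have h1 := (A.ch z).continuousAt (A.mem z)
    rw [ContinuousAt, A.ctr] at h1
    filter_upwards [h.isOpen_U.mem_nhds hz, (A.ch z).open_source.mem_nhds (A.mem z),
      h1.eventually (hR z hz)] with z' u1 u2 u3
    rw [indicator_of_mem u1]
    show _ = F z (A.ch z z') * deriv (A.ch z ∘ (A.ch z').symm) (A.ch z' z')
    rw [(A.ch z).left_inv u2] at u3
    by_cases hy : W.D.yy z' = 0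
    · have h2 := A.center z (A.tgt z ▸ (A.ch z).map_source u2) (by rwa [(A.ch z).left_inv u2])
      obtain rfl : z = z' := (A.ch z).injOn (A.mem z) u2 (by rw [h2, A.ctr])
      have h3 : (A.ch z ∘ (A.ch z).symm) =ᶠ[𝓝 (A.ch z z)] id :=
        (A.ch z).eventually_right_inverse' u2
      rw [h3.deriv_eq, deriv_id, mul_one, A.ctr]
    · rw [u3 hy, A.ctr, mul_assoc, WGen1_chain h.d A u2 hy, mul_one, K z' u1 hy]
  · obtain ⟨e, v, hv, ε, hε, he⟩ := h.mem_O hz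
    have hv' := h.pl.ann_op hv
    have l1 := h.WGl2_lt hv
    have l2 := h.WGl2_lt hv'
    rw [h.tr_g A hv hε he, he, (h.g_pt hv hε).2,
      hrep _ (h.pl.ann2_mem (h.pl.ann_sub e hv)) _ (h.sq_pt l1 hε)
        (h.free e v (mem_ball_zero_iff.2 l1)),
      hrep _ (h.pl.ann2_mem (h.pl.ann_sub _ hv')) _ (h.sq_pt l2 hε)
        (h.free _ _ (mem_ball_zero_iff.2 l2))]
    have m1 := ha.2.2.1 e v hv
    have m2 := hb.2.2.1 e v hv
    have p : ∀ e, ‖(0 : ℂ)‖ < 2 * W.ρ e := fun e => by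
      rw [norm_zero]
      exact mul_pos two_pos (h.pl.ρ_pos e)
    have y1 := h.yb_ne l1
    have y2 := h.yb_ne l2
    have y3 := h.yb_ne (p e)
    have y4 := h.yb_ne (p (op e))
    have y5 := h.pl.ann_ne hv
    have y6 : ε ≠ 0 := by rcases hε with rfl | rfl <;> simp
    have m3 : b (W.c e + v) / W.yb e v = -(W.s e.1 / v ^ 2) *
        (b (W.c (op e) + W.s e.1 / v) / W.yb (op e) (W.s e.1 / v)) := by
      refine mul_left_cancel₀ y3 ?_
      simp only [Wd.my, Wd.ry] at m2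
      rw [← mul_div_assoc, ← div_mul_eq_mul_div, m2]
      field_simp
    rw [mul_comm ε, mul_comm ε, ← div_div, ← div_div, m3]
    linear_combination m1

end Pool.Agent.MP_92463a_gt
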