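import Pool.Agent.MP_92463a_gt.WGl1
import Pool.Agent.MP_92463a_gt.PlC
import Pool.Agent.MP_92463a_gt.Conn
import Pool.Agent.MP_92463a_gt.Gen2

open Set Complex Filter Metric
open scoped Topology ComplexConjugate ContDiff Manifold

noncomputable section

namespace Pool.Agent.MP_92463a_gt

namespace Wd

variable {ι : Type} [Fintype ι] {W : Wd ι}

theorem Ok0.conn_U (h : W.Ok0) : IsConnected W.U := by
  have h0 : W.D.P 0 = 0 := by simp [Dat.P]
  have hf : Continuous fun t : ℂ => (t.re : ℂ) + (|t.im| : ℝ) * I := by fun_prop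
  have hH : IsPreconnected ({t : ℂ | 0 ≤ t.im} ∩ W.Om) := by
    have h1 := (h.pl.preconn finite_empty).image _ hf.continuousOn
    rw [sdiff_empty] at h1
    convert h1 using 1
    ext t
    constructor
    · exact fun ht => ⟨t, ht.2, by simp only [abs_of_nonneg (show 0 ≤ t.im from ht.1), re_add_im]⟩
    · rintro ⟨u, hu, rfl⟩
      refine ⟨by simp, ?_⟩
      rcases le_total 0 u.im with c | c
      · simpa only [abs_of_nonneg c, re_add_im] using hu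
      · convert h.sy.om hu using 1
        apply Complex.ext <;> simp [abs_of_nonpos c]
  have y0 : Conn_Y W.D 0 = 0 := if_pos h0
  have hc : ContinuousOn (Conn_Y W.D) ({t : ℂ | 0 ≤ t.im} ∩ W.Om) :=
    (Conn_cont W.D).mono inter_subset_left
  have hs := Conn_sq W.D
  have hs' : ∀ t, conj (Conn_Y W.D t) ^ 2 = W.D.P (conj t) := fun t => by
    rw [← map_pow, hs, Dat.P_conj]
  have key : ∀ T Yl : ℂ → ℂ, Continuous T → ContinuousOn Yl ({t : ℂ | 0 ≤ t.im} ∩ W.Om) →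
      (∀ t, Yl t ^ 2 = W.D.P (T t)) → T 0 = 0 → Yl 0 = 0 → (∀ t ∈ W.Om, T t ∈ W.Om) →
      ∀ t ∈ {t : ℂ | 0 ≤ t.im} ∩ W.Om, ∃ s ⊆ W.U \ {OnePoint.infty}, W.D.pt 0 0 ∈ s ∧
        W.D.pt (T t) (Yl t) ∈ s ∧ IsPreconnected s := fun T Yl a1 a2 a3 a4 a5 a6 t ht =>
    ⟨(fun t => W.D.pt (T t) (Yl t)) '' ({t : ℂ | 0 ≤ t.im} ∩ W.Om), by
      rintro _ ⟨u, hu, rfl⟩
      exact ⟨show W.D.tt _ ∈ W.Om by rw [Dat.tt_pt (a3 u)]; exact a6 u hu.2, Dat.pt_ne (a3 u)⟩,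
    ⟨0, ⟨le_refl (0 : ℝ), (h.zero_fd h0).2⟩, by simp only [a4, a5]⟩, ⟨t, ht, rfl⟩,
      hH.image _ (Dat.pt_cont a1.continuousOn a2 fun t _ => a3 t)⟩
  have hV : IsPreconnected (W.U \ {OnePoint.infty}) := by
    refine isPreconnected_of_forall (W.D.pt 0 0) fun z hz => ?_
    have h1 := Dat.pt_tt hz.2
    have h2 := Dat.yy_sq z
    rcases le_total 0 (W.D.tt z).im with c | c
    · rcases sq_eq_sq_iff_eq_or_eq_neg.1 (h2.trans (hs _).symm) with h3 | h3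
      · simpa only [id, ← h3, h1] using key id _ continuous_id hc hs rfl y0 (fun _ a => a) _ ⟨c, hz.1⟩
      · simpa only [id, ← h3, h1] using key id (fun t => -Conn_Y W.D t) continuous_id hc.neg
          (fun t => (neg_sq _).trans (hs t)) rfl (by simp [y0]) (fun _ a => a) _ ⟨c, hz.1⟩
    · have h4 := hs' (conj (W.D.tt z))
      rw [conj_conj] at h4
      have h5 : conj (W.D.tt z) ∈ {t : ℂ | 0 ≤ t.im} ∩ W.Om := ⟨by simpa using c, h.sy.om hz.1⟩
      have h6 := continuous_conj.comp_continuousOn hc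
      rcases sq_eq_sq_iff_eq_or_eq_neg.1 (h2.trans h4.symm) with h3 | h3
      · simpa only [conj_conj, ← h3, h1] using key conj (fun t => conj (Conn_Y W.D t))
          continuous_conj h6 hs' (map_zero _) (by simp [y0]) (fun _ a => h.sy.om a) _ h5
      · simpa only [conj_conj, ← h3, h1] using key conj (fun t => -conj (Conn_Y W.D t))
          continuous_conj h6.neg (fun t => (neg_sq _).trans (hs' t)) (map_zero _) (by simp [y0])
          (fun _ a => h.sy.om a) _ h5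
  refine ⟨⟨OnePoint.infty, show W.D.tt _ ∈ W.Om by rw [Dat.tt_infty]; exact (h.zero_fd h0).2⟩,
    hV.subset_closure sdiff_subset fun z hz => ?_⟩
  by_cases hi : z = OnePoint.infty
  · subst hi
    obtain ⟨R, hR⟩ := Pl.om_far (P := W.toPl)
    have h1 : Tendsto (fun n : ℕ => ‖(n : ℂ)‖) atTop atTop := by
      simpa using tendsto_natCast_atTop_atTop (R := ℝ)
    refine mem_closure_of_tendsto (Dat.pt_tendsto (l := atTop) (T := fun n : ℕ => (n : ℂ))
      (Yl := fun n => Conn_Y W.D n) (Eventually.of_forall fun n => hs _) h1) ?_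
    filter_upwards [h1.eventually_gt_atTop R] with n hn
    exact ⟨show W.D.tt _ ∈ W.Om by rw [Dat.tt_pt (hs _)]; exact (hR _ hn).2, Dat.pt_ne (hs _)⟩
  · exact subset_closure ⟨hz, hi⟩

theorem Ok0.WGl2_lt (h : W.Ok0) {e : ι × Bool} {v : ℂ} (hv : v ∈ W.Ann e) : ‖v‖ < 2 * W.ρ e :=
  (h.pl.ann_sub e hv).2

/-- the chart at a point of a neck -/
theorem Ok0.WGl2_chart (h : W.Ok0) (A : W.D.Atl) {e : ι × Bool} {v : ℂ} (hv : v ∈ W.Ann e) {ε : ℂ}
    (hε : ε = 1 ∨ ε = -1) {z : W.D.N} (hz : z = W.D.pt (W.c e + v) (ε * W.yb e v)) :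
    ∀ᶠ w in 𝓝 (0 : ℂ), v + w ∈ W.Ann e ∧ w ∈ (A.ch z).target ∧
      (A.ch z).symm w = W.D.pt (W.c e + (v + w)) (ε * W.yb e (v + w)) := by
  have h1 := h.sq_pt (h.WGl2_lt hv) hε
  have h2 : W.D.tt z = W.c e + v := by rw [hz, Dat.tt_pt h1]
  have h3 : W.D.yy z = ε * W.yb e v := by rw [hz, Dat.yy_pt h1]
  have h4 : ε * W.yb e v ≠ 0 :=
    mul_ne_zero (by rcases hε with rfl | rfl <;> simp) (h.yb_ne (h.WGl2_lt hv))
  obtain ⟨k, H, k0, he⟩ := A.Gen2_k1 (h3 ▸ h4)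
  rw [h2] at H he
  have hb := ball_mem_nhds (0 : ℂ) H.pos
  have h5 : Tendsto (fun w : ℂ => v + w) (𝓝 0) (𝓝 v) :=
    (continuous_const.add continuous_id).tendsto' _ _ (add_zero v)
  have h6 : Tendsto (fun w => k w + ε * W.yb e (v + w)) (𝓝 0) (𝓝 (k 0 + ε * W.yb e v)) :=
    (H.hol.differentiableAt hb).continuousAt.tendsto.add ((((h.yhol e).differentiableAt
      (isOpen_ball.mem_nhds (mem_ball_zero_iff.2 (h.WGl2_lt hv)))).continuousAt.tendsto.comp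
        h5).const_mul ε)
  filter_upwards [hb, h5.eventually ((Pl.isOpen_ann e).mem_nhds hv), h6.eventually_ne
    (show _ ≠ 0 by rw [k0, h3, ← two_mul]; exact mul_ne_zero two_ne_zero h4)] with w a1 a2 a3
  refine ⟨a2, A.tgt z ▸ a1, ?_⟩
  have a4 := H.sq w a1
  rw [add_assoc, ← h.sq_pt (h.WGl2_lt a2) hε] at a4
  rw [he w a1, add_assoc, (sq_eq_sq_iff_eq_or_eq_neg.1 a4).resolve_right
    fun c => a3 (by rw [c, neg_add_cancel])]

/-- the gluing map in the charts -/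
theorem Ok0.g_chart (h : W.Ok0) (A : W.D.Atl) {e : ι × Bool} {v : ℂ} (hv : v ∈ W.Ann e) {ε : ℂ}
    (hε : ε = 1 ∨ ε = -1) {z : W.D.N} (hz : z = W.D.pt (W.c e + v) (ε * W.yb e v)) :
    ∀ᶠ w in 𝓝 (0 : ℂ), A.ch (W.g z) (W.g ((A.ch z).symm w)) = W.s e.1 / (v + w) - W.s e.1 / v := by
  have h1 : Tendsto (fun w => W.s e.1 / (v + w) - W.s e.1 / v) (𝓝 0) (𝓝 0) := by
    have h2 : ContinuousAt (fun w => W.s e.1 / (v + w) - W.s e.1 / v) 0 := by
      have := h.pl.ann_ne hv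
      fun_prop (disch := simpa)
    simpa [ContinuousAt] using h2
  have h2 := h.WGl2_chart A (h.pl.ann_op hv) hε (z := W.g z) (hz ▸ (h.g_pt hv hε).2)
  filter_upwards [h.WGl2_chart A hv hε hz, h1.eventually h2] with w a b
  rw [add_sub_cancel] at b
  rw [a.2.2, (h.g_pt a.1 hε).2, ← b.2.2, (A.ch _).right_inv b.2.1]

theorem Ok0.tr_g (h : W.Ok0) (A : W.D.Atl) {e : ι × Bool} {v : ℂ} (hv : v ∈ W.Ann e) {ε : ℂ}
    (hε : ε = 1 ∨ ε = -1) {z : W.D.N} (hz : z = W.D.pt (W.c e + v) (ε * W.yb e v)) :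
    letI := A.charted
    tr W.g z (W.g z) = -(W.s e.1 / v ^ 2) := by
  have h0 := h.pl.ann_ne hv
  have h1 : HasDerivAt (fun w => W.s e.1 / (v + w) - W.s e.1 / v) (-(W.s e.1 / v ^ 2)) 0 := by
    refine (((hasDerivAt_const (0 : ℂ) (W.s e.1)).div ((hasDerivAt_id (0 : ℂ)).const_add v)
      (by simpa using h0)).sub_const _).congr_deriv ?_
    simp [neg_div]
  show deriv (A.ch (W.g z) ∘ W.g ∘ (A.ch z).symm) (A.ch z z) = _
  rw [A.ctr, ← h1.deriv]
  exact EventuallyEq.deriv_eq (h.g_chart A hv hε hz)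

theorem Ok0.glue (h : W.Ok0) (A : W.D.Atl) :
    letI := A.charted
    Glue W.U W.O W.g W.Cp := by
  have ht : ∀ {e v ε}, v ∈ W.Ann e → (ε = 1 ∨ ε = -1) →
      W.D.tt (W.D.pt (W.c e + v) (ε * W.yb e v)) = W.c e + v :=
    fun hv hε => Dat.tt_pt (h.sq_pt (h.WGl2_lt hv) hε)
  refine @Glue.mk _ _ A.charted _ _ _ _ h.isOpen_U h.isOpen_O ?_ (fun z hz => ?_) (fun z hz => ?_)
    (fun z hz c => ?_) h.g_cont (fun z hz => ?_) h.g_closed h.isCompact_Cp
    (fun z hz => h.pl.fd_sub hz) (fun z hz => ?_) h.conn_U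
  · rintro z ⟨e, he⟩
    show W.D.tt z ∈ W.Om
    simpa using h.pl.ann2_mem (h.pl.ann_sub e he)
  · obtain ⟨e, v, hv, ε, hε, rfl⟩ := h.mem_O hz
    rw [(h.g_pt hv hε).2]
    exact (h.g_pt (h.pl.ann_op hv) hε).1
  · obtain ⟨e, v, hv, ε, hε, rfl⟩ := h.mem_O hz
    rw [(h.g_pt hv hε).2, (h.g_pt (h.pl.ann_op hv) hε).2, op_op, op_fst,
      div_div_cancel₀ (h.pl.s_ne _)]
  · obtain ⟨e, v, hv, ε, hε, rfl⟩ := h.mem_O hz
    have h1 := congrArg W.D.tt c
    rw [(h.g_pt hv hε).2, ht hv hε, ht (h.pl.ann_op hv) hε] at h1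
    refine op_ne e (h.pl.port_eq (t := W.c e + v) ?_ (by simpa using h.WGl2_lt hv))
    rw [← h1]
    simpa using h.WGl2_lt (h.pl.ann_op hv)
  · obtain ⟨e, v, hv, ε, hε, hz'⟩ := h.mem_O hz
    show AnalyticAt ℂ (A.ch (W.g z) ∘ W.g ∘ (A.ch z).symm) (A.ch z z)
    rw [A.ctr]
    refine AnalyticAt.congr (f := fun w => W.s e.1 / (v + w) - W.s e.1 / v) ?_
      (EventuallyEq.symm (h.g_chart A hv hε hz'))
    have := h.pl.ann_ne hv
    fun_prop (disch := simpa)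
  · rcases h.pl.cover hz with c | ⟨e, v, hv, h1, -, -, h2⟩
    · exact Or.inl c
    have h3 : z ∈ W.O := ⟨e, by rw [h1]; simpa using hv⟩
    refine Or.inr ⟨h3, ?_⟩
    obtain ⟨e', v', hv', ε, hε, rfl⟩ := h.mem_O h3
    rw [ht hv' hε] at h1
    obtain rfl : e' = e := h.pl.port_eq (t := W.c e' + v') (by simpa using h.WGl2_lt hv')
      (by rw [h1]; simpa using h.WGl2_lt hv)
    obtain rfl := add_left_cancel h1
    show W.D.tt _ ∈ W.Fd
    rwa [(h.g_pt hv' hε).2, ht (h.pl.ann_op hv') hε]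

end Wd

end Pool.Agent.MP_92463a_gt
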