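import Pool.Agent.MP_92463a_gt.WMax
import Pool.Agent.MP_92463a_gt.WGl1
import Pool.Agent.MP_92463a_gt.Inj

open Set Complex Filter Metric
open scoped Topology ComplexConjugate ContDiff Manifold

noncomputable section

namespace Pool.Agent.MP_92463a_gt

/-- folding onto the closed upper half plane -/
def WInjF (t : ℂ) : ℂ := if 0 ≤ t.im then t else conj t

theorem WInjF_up {t : ℂ} (h : 0 ≤ t.im) : WInjF t = t := if_pos h

theorem WInjF_low {t : ℂ} (h : ¬ 0 ≤ t.im) : WInjF t = conj t := if_neg h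

theorem WInjF_conj {t : ℂ} (h : 0 ≤ t.im) : WInjF (conj t) = t := by
  by_cases h1 : 0 ≤ (conj t).im
  · rw [WInjF_up h1]
    rw [conj_im] at h1
    exact conj_eq_iff_im.2 (by linarith)
  · rw [WInjF_low h1, conj_conj]

section
variable {ι : Type} [Fintype ι] {W : Wd ι} {X : ℂ → ℂ} {H : ℂ → ℝ}

theorem WInj_abs (hW : W.Ok) (hX : W.Sol X H) {t y : ℂ} (ht : t ∈ W.Q) (hy : y ^ 2 = W.D.P t) :
    |(y / W.D.Y t * X t).re| = -(X t).re ∧ |(y / W.D.Y t * X t).im| = (X t).im := by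
  by_cases hP : W.D.P t = 0
  · rw [hX.toSolX.X_a hW.toOk1 ((Dat.P_eq_zero.1 hP).resolve_left ht.1.2)]
    simp
  obtain ⟨h1, h2, -, -⟩ := hX.quad hW ⟨ht.1.1, hP, ht.2⟩
  rcases Inj_sgn hy hP with h | h <;> rw [h]
  · rw [one_mul]
    exact ⟨abs_of_nonpos h1, abs_of_nonneg h2⟩
  · rw [neg_one_mul, neg_re, neg_im, abs_neg, abs_neg]
    exact ⟨abs_of_nonpos h1, abs_of_nonneg h2⟩

theorem WInj_fold (hW : W.Ok) (hX : W.Sol X H) {t y : ℂ} (hO : t ∈ W.Om) (hE : ¬ W.D.IsE t)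
    (hy : y ^ 2 = W.D.P t) : WInjF t ∈ W.Q ∧ H (WInjF t) = H t ∧
      |(W.D.Xg X t y).re| = -(X (WInjF t)).re ∧ |(W.D.Xg X t y).im| = (X (WInjF t)).im := by
  by_cases h : 0 ≤ t.im
  · have hQ : t ∈ W.Q := ⟨⟨h, hE⟩, hO⟩
    rw [WInjF_up h, Dat.Xg, if_pos h]
    exact ⟨hQ, rfl, WInj_abs hW hX hQ hy⟩
  · have hQ : conj t ∈ W.Q :=
      ⟨⟨by rw [conj_im]; linarith, fun h' => hE (Dat.Xg_isE h')⟩, hW.sy.om hO⟩
    rw [WInjF_low h, Dat.Xg, if_neg h, conj_re, conj_im, abs_neg]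
    exact ⟨hQ, hX.conjH t hO, WInj_abs hW hX hQ (Inj_conj hy)⟩

theorem WInj_ne (hW : W.Ok) (hX : W.Sol X H) {t : ℂ} (ht : t ∈ W.Qr) : X t ≠ 0 := by
  obtain ⟨-, -, h1, h2⟩ := hX.quad hW ht
  intro h0
  rw [h0] at h1 h2
  simp only [zero_re, zero_im, lt_self_iff_false, imp_false, not_or, not_lt] at h1 h2
  have e : t = (t.re : ℂ) := Complex.ext rfl (by rw [ofReal_im]; exact le_antisymm h1.1 ht.1)
  refine ht.2.1 (Complex.ext (le_antisymm h1.2 h2.2) ?_)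
  rw [e]
  exact Dat.P_im _

theorem WInj_same (hW : W.Ok) (hX : W.Sol X H) {t y₁ y₂ : ℂ} (ht : 0 ≤ t.im) (hO : t ∈ W.Om)
    (hy₁ : y₁ ^ 2 = W.D.P t) (hy₂ : y₂ ^ 2 = W.D.P t)
    (he : y₁ / W.D.Y t * X t = y₂ / W.D.Y t * X t) : y₁ = y₂ := by
  by_cases hP : W.D.P t = 0
  · rw [hP, sq_eq_zero_iff] at hy₁ hy₂
    rw [hy₁, hy₂]
  · exact (div_left_inj' (Dat.Y_ne _)).1 (mul_right_cancel₀ (WInj_ne hW hX ⟨ht, hP, hO⟩) he)

theorem WInj_opp (hW : W.Ok) (hX : W.Sol X H) {t y₁ y₂ : ℂ} (ht : 0 < t.im) (hO : t ∈ W.Om)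
    (hy₁ : y₁ ^ 2 = W.D.P t) (hy₂ : y₂ ^ 2 = W.D.P t)
    (he : y₁ / W.D.Y t * X t = conj (y₂ / W.D.Y t * X t)) : False := by
  have hP : W.D.P t ≠ 0 := Dat.ne_of_im ht.ne'
  obtain ⟨-, -, h1, h2⟩ := hX.quad hW ⟨ht.le, hP, hO⟩
  have h3 := h1 (Or.inl ht)
  have h4 := h2 (Or.inl ht)
  have hre := congrArg re he
  have him := congrArg im he
  rcases Inj_sgn hy₁ hP with e₁ | e₁ <;> rcases Inj_sgn hy₂ hP with e₂ | e₂ <;>
    rw [e₁, e₂] at hre him <;>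
    simp only [one_mul, neg_one_mul, neg_re, neg_im, conj_re, conj_im] at hre him <;> linarith

theorem WInj_core (hW : W.Ok) (hX : W.Sol X H) {t₁ y₁ t₂ y₂ : ℂ} (hO₁ : t₁ ∈ W.Om)
    (hO₂ : t₂ ∈ W.Om) (hy₁ : y₁ ^ 2 = W.D.P t₁) (hy₂ : y₂ ^ 2 = W.D.P t₂)
    (hf : WInjF t₁ = WInjF t₂) (he : W.D.Xg X t₁ y₁ = W.D.Xg X t₂ y₂) : t₁ = t₂ ∧ y₁ = y₂ := by
  unfold Dat.Xg at he
  unfold WInjF at hf
  split_ifs at he hf with h₁ h₂ h₂
  · subst hf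
    exact ⟨rfl, WInj_same hW hX h₁ hO₁ hy₁ hy₂ he⟩
  · subst hf
    exact (WInj_opp hW hX (by rw [conj_im]; linarith) hO₁ hy₁ (Inj_conj hy₂) he).elim
  · subst hf
    exact (WInj_opp hW hX (by rw [conj_im]; linarith) hO₂ hy₂ (Inj_conj hy₁) he.symm).elim
  · have h : t₁ = t₂ := (starRingEnd ℂ).injective hf
    subst h
    exact ⟨rfl, (starRingEnd ℂ).injective (WInj_same hW hX (by rw [conj_im]; linarith)
      (hW.sy.om hO₁) (Inj_conj hy₁) (Inj_conj hy₂) ((starRingEnd ℂ).injective he))⟩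

theorem WInj_port (hW : W.Ok) {t u : ℂ} (hu : 0 ≤ u.im) {e : ι × Bool} {v : ℂ}
    (hv : v ∈ W.Ann e) (h1 : WInjF t = W.c e + v) (h2 : u = W.c (op e) + W.s e.1 / v) :
    ∃ e', ∃ v' ∈ W.Ann e', t = W.c e' + v' ∧ WInjF (W.c (op e') + W.s e'.1 / v') = u := by
  by_cases h : 0 ≤ t.im
  · rw [WInjF_up h] at h1
    exact ⟨e, v, hv, h1, by rw [← h2, WInjF_up hu]⟩
  · rw [WInjF_low h] at h1
    refine ⟨(W.κ e.1, e.2), conj v, hW.sy.ann hv, ?_, ?_⟩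
    · rw [hW.sy.c, ← map_add, ← h1, conj_conj]
    · have h3 := hW.sy.c (op e)
      have h4 : op (W.κ e.1, e.2) = (W.κ (op e).1, (op e).2) := rfl
      rw [h4, h3, hW.sy.s, ← map_div₀, ← map_add, ← h2, WInjF_conj hu]

end

theorem Wd.Sol.inj {ι : Type} [Fintype ι] {W : Wd ι} {X : ℂ → ℂ} {H : ℂ → ℝ} (hW : W.Ok)
    (hX : W.Sol X H) (hQ : W.QInj X H) :
    ∀ z ∈ W.U, z ∉ W.D.S → ∀ z' ∈ W.U, z' ∉ W.D.S → W.ff X H z = W.ff X H z' →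
      z = z' ∨ (z ∈ W.O ∧ z' = W.g z) := by
  intro z hz hs z' hz' hs' he
  rw [Dat.mem_S] at hs hs'
  have n₁ : z ≠ OnePoint.infty := fun h => hs (Or.inl (by rw [h]; rfl))
  have n₂ : z' ≠ OnePoint.infty := fun h => hs' (Or.inl (by rw [h]; rfl))
  have e0 : (W.D.Xg X (W.D.tt z) (W.D.yy z)).re = (W.D.Xg X (W.D.tt z') (W.D.yy z')).re :=
    congrArg (fun v : E3 => v 0) he
  have e1 : (W.D.Xg X (W.D.tt z) (W.D.yy z)).im = (W.D.Xg X (W.D.tt z') (W.D.yy z')).im :=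
    congrArg (fun v : E3 => v 1) he
  have e2 : H (W.D.tt z) = H (W.D.tt z') := congrArg (fun v : E3 => v 2) he
  have e3 := Complex.ext e0 e1
  obtain ⟨a1, a2, a3, a4⟩ := WInj_fold hW hX hz hs (Dat.yy_sq z)
  obtain ⟨b1, b2, b3, b4⟩ := WInj_fold hW hX hz' hs' (Dat.yy_sq z')
  rw [e0] at a3
  rw [e1] at a4
  rcases hQ _ a1 _ b1 (Complex.ext (by linarith) (by linarith)) (by rw [a2, b2, e2]) with
    h | ⟨e, v, hv, h1, h2⟩
  · obtain ⟨h1, h2⟩ := WInj_core hW hX hz hz' (Dat.yy_sq z) (Dat.yy_sq z') h e3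
    left
    rw [← Dat.pt_tt n₁, ← Dat.pt_tt n₂, h1, h2]
  · obtain ⟨e, v, hv, h3, h4⟩ := WInj_port hW b1.1.1 hv h1 h2
    have h5 : W.D.tt z - W.c e = v := by rw [h3, add_sub_cancel_left]
    have h6 : W.D.tt z - W.c e ∈ W.Ann e := by rwa [h5]
    have h7 := (hW.pl.ann_sub e hv).2
    have h8 := hW.pl.ann_sub _ (hW.pl.ann_op hv)
    have h9 := Wd.WGl1_eps hW.toOk0 (z := z) (e := e) (by rwa [h5])
    have h10 := hX.XA_glue hW.toOk1 e v hv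
    refine Or.inr ⟨⟨e, h6⟩, ?_⟩
    rw [Wd.WGl1_g hW.toOk0 h6]
    rw [h5] at h9 ⊢
    have h11 : W.D.yy z = W.D.yy z / W.yb e v * W.yb e v :=
      (div_mul_cancel₀ _ (hW.toOk0.yb_ne h7)).symm
    have h12 : W.D.Xg X (W.c (op e) + W.s e.1 / v)
        (W.D.yy z / W.yb e v * W.yb (op e) (W.s e.1 / v)) = W.D.Xg X (W.D.tt z') (W.D.yy z') := by
      rw [← e3, h3]
      conv_rhs => rw [h11]
      unfold Wd.XA at h10
      rcases h9 with h | h <;> rw [h]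
      · rw [one_mul, one_mul, h10]
      · rw [neg_one_mul, neg_one_mul, Dat.Xg_neg, Dat.Xg_neg, h10]
    obtain ⟨h13, h14⟩ := WInj_core hW hX (hW.pl.ann2_mem h8) hz'
      (hW.toOk0.sq_pt h8.2 h9) (Dat.yy_sq z') (h4.trans rfl) h12
    rw [h13, h14, Dat.pt_tt n₂]

end Pool.Agent.MP_92463a_gt
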