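import Pool.Agent.MP_92463a_gt.WL1
import Pool.Agent.MP_92463a_gt.PreEx

open Set Complex Filter Metric
open scoped Topology ComplexConjugate ContDiff Manifold

noncomputable section

namespace Pool.Agent.MP_92463a_gt

section

variable {α ι : Type} [Fintype ι] {l : Filter α} {W : α → Wd ι} {D₀ : Dat}
  {X : α → ℂ → ℂ} {H : α → ℂ → ℝ}

theorem WL2_im {t : ℂ} (ht : 0 ≤ t.im) {y : ℝ} (hy : y ∈ Icc (0 : ℝ) 1) :
    1 - y ≤ (I + y * (t - I)).im := by
  have := mul_nonneg hy.1 ht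
  simp only [add_im, I_im, mul_im, ofReal_re, sub_im, ofReal_im, zero_mul, add_zero]
  linarith

theorem WL2_cont {S : Set ℂ} {f₁ f₂ : ℂ → ℂ} (h₁ : ContinuousOn f₁ S) (h₂ : ContinuousOn f₂ S)
    {t : ℂ} (hS : ∀ y ∈ Icc (0 : ℝ) 1, I + y * (t - I) ∈ S) :
    ContinuousOn (fun y : ℝ => f₁ (I + y * (t - I)) * (t - I) -
      conj (f₂ (I + y * (t - I)) * (t - I))) (uIcc 0 1) := by
  rw [uIcc_of_le zero_le_one]
  have hc : ContinuousOn (fun y : ℝ => I + y * (t - I)) (Icc 0 1) := by fun_prop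
  exact ((h₁.comp hc hS).mul continuousOn_const).sub
    (continuous_conj.comp_continuousOn ((h₂.comp hc hS).mul continuousOn_const))

theorem WL2_seg (h : SLim l W D₀ X H) {Y : ℂ → ℂ} (hY : D₀.Pre Y) {t : α → ℂ} {t₀ : ℂ}
    (ht : Tendsto t l (𝓝 t₀)) (hi : ∀ᶠ x in l, 0 ≤ (t x).im) (h₀ : 0 ≤ t₀.im)
    (hP : D₀.P t₀ ≠ 0) : Tendsto (fun x => X x (t x) - X x I) l (𝓝 (Y t₀ - Y I)) := by
  have hp := hY.pathP h.D.ok₀
  have hS : ∀ y ∈ Icc (0 : ℝ) 1, I + y * (t₀ - I) ∈ {t | 0 ≤ t.im ∧ D₀.P t ≠ 0} := by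
    intro y hy
    have := WL2_im h₀ hy
    refine ⟨by linarith [hy.2], ?_⟩
    rcases hy.2.eq_or_lt with rfl | h1
    · simpa using hP
    · exact Dat.ne_of_im (by linarith)
  have ht' : ∀ y : ℝ, Tendsto (fun z : α × ℝ => t z.1 - I) (l ×ˢ 𝓝[Icc 0 1] y) (𝓝 (t₀ - I)) :=
    fun y => (ht.comp tendsto_fst).sub_const I
  have hF := fun y (hy : y ∈ Icc (0 : ℝ) 1) =>
    (h.toWLim.comp (l' := l ×ˢ 𝓝[Icc 0 1] y) tendsto_fst).F
      (t := fun z => I + z.2 * (t z.1 - I))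
      (((Dat.DatC_re (tendsto_snd.mono_right nhdsWithin_le_nhds)).mul (ht' y)).const_add I)
      (by
        filter_upwards [hi.prod_mk (self_mem_nhdsWithin (a := y) (s := Icc (0 : ℝ) 1))] with z hz
        linarith [WL2_im hz.1 hz.2, hz.2.2]) (hS y hy).1 (hS y hy).2
  have hQ := ev_compact (p := fun x (y : ℝ) => I + y * (t x - I) ∈ (W x).Qr) isCompact_Icc
    fun y hy => (hF y hy).1
  rw [hp.seg hS]
  refine (int_tendsto (a := fun _ => 0) (b := fun _ => 1)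
    (f := fun x y => (W x).F1 (I + y * (t x - I)) * (t x - I) -
      conj ((W x).F2 (I + y * (t x - I)) * (t x - I))) tendsto_const_nhds tendsto_const_nhds
    (WL2_cont hp.c₁ hp.c₂ hS) ?_ fun y hy => ?_).congr' ?_
  · filter_upwards [hQ, h.ok] with x h1 h2
    exact WL2_cont h2.F_cont.1 h2.F_cont.2 h1
  · simp only [sub_zero, mul_one, zero_add]
    exact ((hF y hy).2.1.mul (ht' y)).sub
      ((continuous_conj.tendsto _).comp ((hF y hy).2.2.1.mul (ht' y)))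
  · filter_upwards [hQ, h.ok, h.sol] with x h1 h2 h3
    exact ((h3.toPre.pathP h2).seg h1).symm

theorem WL2_pos (h : SLim l W D₀ X H) {u : ℝ} (hu : 0 < (D₀.P u).re) :
    ∀ᶠ x in l, (X x u).im = 0 := by
  have hP : D₀.P u ≠ 0 := fun e => by simp [e] at hu
  filter_upwards [(h.toWLim.F (t := fun _ => (u : ℂ)) tendsto_const_nhds (by simp) (by simp) hP).1,
    ((continuous_re.tendsto _).comp (h.D.P (t := fun _ => (u : ℂ)) tendsto_const_nhds)).eventually
      (lt_mem_nhds hu), h.sol] with x h1 h2 h3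
  exact h3.im0 u h1.2.2 h2

theorem WL2_neg (h : SLim l W D₀ X H) {u : ℝ} (hu : (D₀.P u).re < 0) :
    ∀ᶠ x in l, (X x u).re = 0 := by
  have hP : D₀.P u ≠ 0 := fun e => by simp [e] at hu
  filter_upwards [(h.toWLim.F (t := fun _ => (u : ℂ)) tendsto_const_nhds (by simp) (by simp) hP).1,
    ((continuous_re.tendsto _).comp (h.D.P (t := fun _ => (u : ℂ)) tendsto_const_nhds)).eventually
      (gt_mem_nhds hu), h.sol] with x h1 h2 h3
  exact h3.re0 u h1.2.2 h2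

end

theorem WL2_ex {D : Dat} (hD : D.Ok) (hq : 0 < D.q) :
    (∃ u : ℝ, 0 < (D.P u).re) ∧ ∃ v : ℝ, (D.P v).re < 0 := by
  have ha := hD.a_pos 0 hD.p_pos
  have hb := hD.b_pos 0 hq
  refine ⟨⟨D.a 0 / 2, ?_⟩, -(D.b 0 / 2), ?_⟩
  · have := (hD.sign_pos (x := D.a 0 / 2) (k := 0) (by linarith) (Nat.zero_le _) (by simp)
      fun i _ hi => ?_).1
    · simpa [sg] using this
    · rcases i.eq_zero_or_pos with rfl | h
      · linarith
      · linarith [hD.a_lt 0 i h hi]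
  · have := (hD.sign_neg (x := -(D.b 0 / 2)) (k := 0) (by linarith) (Nat.zero_le _) (by simp)
      fun i _ hi => ?_).1
    · simpa [sg] using this
    · rcases i.eq_zero_or_pos with rfl | h
      · linarith
      · linarith [hD.b_gap 0 i h hi]

/-- the limit of the solutions is a solution -/
theorem SLim.core {α ι : Type} [Fintype ι] {l : Filter α} [l.NeBot] {W : α → Wd ι} {D₀ : Dat}
    {X : α → ℂ → ℂ} {H : α → ℂ → ℝ} (h : SLim l W D₀ X H) :
    ∃ X₀, D₀.Sol X₀ ∧ ∀ (t : α → ℂ) (t₀ : ℂ), Tendsto t l (𝓝 t₀) → (∀ᶠ x in l, 0 ≤ (t x).im) →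
      D₀.P t₀ ≠ 0 → Tendsto (fun x => X x (t x)) l (𝓝 (X₀ t₀)) := by
  obtain ⟨Y, hY⟩ := h.D.ok₀.exists_pre
  obtain ⟨⟨u, hu⟩, v, hv⟩ := WL2_ex h.D.ok₀ (by have := h.q; omega)
  have hc : ∀ s : ℝ, (D₀.P s).re ≠ 0 → Tendsto (fun x => X x s - X x I) l (𝓝 (Y s - Y I)) :=
    fun s hs => WL2_seg h hY tendsto_const_nhds (by simp) (by simp) fun e => by simp [e] at hs
  obtain ⟨z, hz⟩ : ∃ z, Tendsto (fun x => X x I) l (𝓝 z) := by
    have h1 := Dat.DatC_re ((continuous_im.tendsto _).comp (hc u hu.ne'))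
    have h2 := Dat.DatC_re ((continuous_re.tendsto _).comp (hc v hv.ne))
    refine ⟨_, (h2.add (h1.mul_const I)).neg.congr' ?_⟩
    filter_upwards [WL2_pos h hu, WL2_neg h hv] with x e1 e2
    apply Complex.ext <;> simp [e1, e2]
  have key : ∀ (t : α → ℂ) (t₀ : ℂ), Tendsto t l (𝓝 t₀) → (∀ᶠ x in l, 0 ≤ (t x).im) →
      D₀.P t₀ ≠ 0 → Tendsto (fun x => X x (t x)) l (𝓝 (Y t₀ - Y I + z)) := by
    intro t t₀ ht hi hP
    simpa using (WL2_seg h hY ht hi
      (ge_of_tendsto ((continuous_im.tendsto _).comp ht) hi) hP).add hz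
  refine ⟨fun t => Y t - Y I + z, ⟨⟨(hY.cont.sub continuousOn_const).add continuousOn_const,
    fun t ht => ((hY.der t ht).sub_const _).add_const _⟩, fun s hs => ?_, fun s hs => ?_⟩, key⟩
  · refine tendsto_nhds_unique ((continuous_im.tendsto _).comp
      (key (fun _ => s) s tendsto_const_nhds (by simp) fun e => by simp [e] at hs))
      (tendsto_const_nhds.congr' ((WL2_pos h hs).mono fun x hx => hx.symm))
  · refine tendsto_nhds_unique ((continuous_re.tendsto _).comp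
      (key (fun _ => s) s tendsto_const_nhds (by simp) fun e => by simp [e] at hs))
      (tendsto_const_nhds.congr' ((WL2_neg h hs).mono fun x hx => hx.symm))

end Pool.Agent.MP_92463a_gt
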