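import Pool.Agent.MP_92463a_gt.WEnds
import Pool.Agent.MP_92463a_gt.Max

open Set Complex Filter Metric
open scoped Topology ComplexConjugate ContDiff Manifold

noncomputable section

namespace Pool.Agent.MP_92463a_gt

section
variable {ι : Type} [Fintype ι] {W : Wd ι} {X : ℂ → ℂ} {H : ℂ → ℝ}

theorem WMax_pole {D : Dat} (hD : D.Ok) : ∃ K : ℂ → ℂ, ContinuousAt K 0 ∧ K 0 ≠ 0 ∧
    ∀ t : ℂ, t ≠ 0 → t * (D.P t * D.R t ^ 2) = K t := by
  have hb : ∀ j ∈ Finset.range D.q, (0 : ℂ) + D.b j ≠ 0 := fun j hj => by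
    rw [zero_add]
    exact_mod_cast (hD.b_pos j (Finset.mem_range.1 hj)).ne'
  have ha : ∀ i ∈ Finset.range D.p, (D.a i : ℂ) - 0 ≠ 0 := fun i hi => by
    rw [sub_zero]
    exact_mod_cast (hD.a_pos i (Finset.mem_range.1 hi)).ne'
  refine ⟨fun t => (∏ j ∈ Finset.range D.q, (t + D.b j)) * (∏ i ∈ Finset.range D.p, (D.a i - t)) *
    (D.ρ * (∏ j ∈ Finset.range D.q, if Even j then t + D.b j else ((t + D.b j) ^ 2)⁻¹) *
      ∏ i ∈ Finset.range D.p, if Even i then (D.a i - t)⁻¹ else 1) ^ 2, ?_, ?_, fun t ht => ?_⟩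
  · refine ContinuousAt.mul (by fun_prop) (ContinuousAt.pow (ContinuousAt.mul
      (continuousAt_const.mul ?_) ?_) 2)
    · refine tendsto_finsetProd _ fun j hj => ?_
      split_ifs
      · exact (by fun_prop : ContinuousAt (fun t : ℂ => t + D.b j) 0)
      · exact ContinuousAt.inv₀ (by fun_prop : ContinuousAt (fun t : ℂ => (t + D.b j) ^ 2) 0)
          (pow_ne_zero _ (hb j hj))
    · refine tendsto_finsetProd _ fun i hi => ?_
      split_ifs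
      · exact ContinuousAt.inv₀ (by fun_prop : ContinuousAt (fun t : ℂ => D.a i - t) 0) (ha i hi)
      · exact tendsto_const_nhds
  · refine mul_ne_zero (mul_ne_zero (Finset.prod_ne_zero_iff.2 hb) (Finset.prod_ne_zero_iff.2 ha))
      (pow_ne_zero _ (mul_ne_zero (mul_ne_zero (by exact_mod_cast hD.ρ_pos.ne')
        (Finset.prod_ne_zero_iff.2 fun j hj => ?_)) (Finset.prod_ne_zero_iff.2 fun i hi => ?_)))
    · split_ifs
      · exact hb j hj
      · exact inv_ne_zero (pow_ne_zero _ (hb j hj))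
    · split_ifs
      · exact inv_ne_zero (ha i hi)
      · exact one_ne_zero
  · simp only [Dat.P, Dat.R]
    field_simp

theorem WMax_nc (hW : W.Ok) {c c' t₀ : ℂ} (hc : c ≠ 0) (hO : t₀ ∈ W.Om) (hP : W.D.P t₀ ≠ 0) :
    ¬ ∀ᶠ t in 𝓝 t₀, c * W.ψ₁ t ^ 2 * (W.D.P t * W.D.R t ^ 2) - c' * W.ψ₂ t ^ 2 = 0 := by
  intro h
  have hZ : {t : ℂ | W.D.P t = 0}.Finite := Dat.P_finite
  have ho : IsOpen (W.Om \ {t : ℂ | W.D.P t = 0}) := Pl.isOpen_om.sdiff hZ.isClosed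
  have hE : ∀ t, W.D.P t ≠ 0 → ¬ W.D.IsE t := fun t h1 h2 => h1 (Dat.P_eq_zero.2 (Or.inl h2))
  have hd : DifferentiableOn ℂ
      (fun t => c * W.ψ₁ t ^ 2 * (W.D.P t * W.D.R t ^ 2) - c' * W.ψ₂ t ^ 2)
      (W.Om \ {t : ℂ | W.D.P t = 0}) := fun t ht => by
    have a1 := hW.toOk1.ψ₁_diff ht.1 (hW.toOk0.b0 (hE t ht.2)).1
    have a2 := hW.toOk1.ψ₂_diff ht.1
    have a3 := Dat.R_diff (D := W.D) ht.2
    have a4 := Dat.P_diff (D := W.D) t
    exact DifferentiableAt.differentiableWithinAt (by fun_prop)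
  have e := (hd.analyticOnNhd ho).eqOn_zero_of_preconnected_of_eventuallyEq_zero
    (hW.pl.preconn hZ) ⟨hO, hP⟩ h
  obtain ⟨K, k1, k2, k3⟩ := WMax_pole hW.d
  have h0 : (0 : ℂ) ∈ W.Om := (hW.toOk0.zero_fd (Dat.P_eq_zero.2 (Or.inl (Or.inl rfl)))).2
  have hb : (0 : ℂ) + W.D.b 0 ≠ 0 := by
    rw [zero_add]
    exact_mod_cast (hW.d.b_pos 0 hW.q_pos).ne'
  have c1 := (hW.toOk1.ψ₁_diff h0 hb).continuousAt
  have c2 := (hW.toOk1.ψ₂_diff h0).continuousAt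
  have c3 : ContinuousAt (fun t => c * W.ψ₁ t ^ 2 * K t - t * (c' * W.ψ₂ t ^ 2)) 0 := by fun_prop
  have c4 : ∀ᶠ t in 𝓝[≠] (0 : ℂ), c * W.ψ₁ t ^ 2 * K t - t * (c' * W.ψ₂ t ^ 2) = 0 := by
    filter_upwards [nhdsWithin_le_nhds (Pl.isOpen_om.mem_nhds h0),
      nhdsNE_le_cofinite (0 : ℂ) hZ.compl_mem_cofinite, self_mem_nhdsWithin] with t a1 a2 a3
    have a4 : c * W.ψ₁ t ^ 2 * (W.D.P t * W.D.R t ^ 2) - c' * W.ψ₂ t ^ 2 = 0 := e ⟨a1, a2⟩
    rw [← k3 t a3]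
    linear_combination t * a4
  have c5 := tendsto_nhds_unique (c3.tendsto.mono_left (nhdsWithin_le_nhds (s := {0}ᶜ)))
    (tendsto_const_nhds.congr' (c4.mono fun t ht => ht.symm))
  rw [zero_mul, sub_zero] at c5
  exact mul_ne_zero (mul_ne_zero hc (pow_ne_zero _ hW.ne0)) k2 c5

theorem WMax_loc (hW : W.Ok) (hX : W.SolX X) {c t₀ : ℂ} {δ : ℝ} {h : ℂ → ℂ}
    (hc : c ≠ 0) (H : W.D.Par1 t₀ δ h) (hO : ∀ w ∈ ball (0 : ℂ) δ, t₀ + w ∈ W.Om)
    (hm : IsLocalMax (fun w => (c * W.D.Xg X (t₀ + w) (h w)).re) 0) : False := by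
  obtain ⟨Φ₁, Φ₂, hΦ⟩ := hX.lf1 hW.toOk1 H hO
  have hb : ball (0 : ℂ) δ ∈ 𝓝 (0 : ℂ) := ball_mem_nhds _ H.pos
  have hd : ∀ w ∈ ball (0 : ℂ) δ, HasDerivAt (fun w => c * Φ₁ w - conj c * Φ₂ w)
      (c * (W.ψ₁ (t₀ + w) ^ 2 * (h w * W.D.R (t₀ + w) / (t₀ + w))) -
        conj c * (W.ψ₂ (t₀ + w) ^ 2 * (h w * W.D.R (t₀ + w) * (t₀ + w))⁻¹)) w :=
    fun w hw => ((hΦ w hw).1.const_mul c).sub ((hΦ w hw).2.1.const_mul (conj c))
  have ha : AnalyticAt ℂ (fun w => c * Φ₁ w - conj c * Φ₂ w) 0 :=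
    DifferentiableOn.analyticAt (s := ball 0 δ)
      (fun w hw => (hd w hw).differentiableAt.differentiableWithinAt) hb
  have hm' : IsLocalMax (fun w => (c * Φ₁ w - conj c * Φ₂ w).re) 0 := by
    refine hm.congr ?_
    filter_upwards [hb] with w hw
    rw [(hΦ w hw).2.2]
    simp only [mul_re, sub_re, sub_im, conj_re, conj_im]
    ring
  have h0 := no_max ha hm'
  have hPw : ∀ w ∈ ball (0 : ℂ) δ, W.D.P (t₀ + w) ≠ 0 := fun w hw => by
    rw [← H.sq w hw]; exact pow_ne_zero _ (H.ne w hw)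
  refine WMax_nc hW (c' := conj c) hc (by simpa using hO 0 (mem_ball_self H.pos))
    (by simpa using hPw 0 (mem_ball_self H.pos)) ?_
  have h1 : ∀ᶠ w in 𝓝 (0 : ℂ), c * W.ψ₁ (t₀ + w) ^ 2 * (W.D.P (t₀ + w) * W.D.R (t₀ + w) ^ 2) -
      conj c * W.ψ₂ (t₀ + w) ^ 2 = 0 := by
    filter_upwards [h0, hb] with w hw hw'
    rw [(hd w hw').deriv] at hw
    have hP := hPw w hw'
    have ht : t₀ + w ≠ 0 := fun h' => hP (Dat.P_eq_zero.2 (Or.inl (Or.inl h')))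
    have hR := hW.d.R_ne hP
    have hh := H.ne w hw'
    rw [← H.sq w hw']
    field_simp at hw
    linear_combination hw
  have h2 : Tendsto (fun t : ℂ => t - t₀) (𝓝 t₀) (𝓝 0) := by
    have : Tendsto (fun t : ℂ => t - t₀) (𝓝 t₀) (𝓝 (t₀ - t₀)) :=
      (continuous_id.sub continuous_const).tendsto t₀
    simpa using this
  filter_upwards [h2.eventually h1] with t ht
  simpa only [add_sub_cancel] using ht

theorem WMax_key (hW : W.Ok) (hX : W.SolX X) {c t₀ : ℂ} (hc : c ≠ 0) (ht : t₀ ∈ W.Qr)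
    (hs : 0 < t₀.im ∨ conj c = (if 0 < (W.D.P t₀).re then 1 else -1) * c)
    (hm : ∀ t ∈ W.Q, (c * X t).re ≤ (c * X t₀).re) : False := by
  obtain ⟨ht, hP, hO⟩ := ht
  have hQ : ∀ t : ℂ, 0 ≤ t.im → W.D.P t ≠ 0 → t ∈ W.Om → t ∈ W.Q := fun t h1 h2 h3 =>
    ⟨⟨h1, fun h => h2 (Dat.P_eq_zero.2 (Or.inl h))⟩, h3⟩
  obtain ⟨η, hη, hball⟩ := Metric.isOpen_iff.1 Pl.isOpen_om t₀ hO
  have hOw : ∀ δ, ∀ w ∈ ball (0 : ℂ) (min δ η), t₀ + w ∈ W.Om := fun δ w hw =>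
    hball (by simpa using ball_subset_ball (min_le_right _ _) hw)
  rcases ht.eq_or_lt with h0 | h0
  · obtain ⟨x₀, rfl⟩ : ∃ x₀ : ℝ, t₀ = x₀ := ⟨t₀.re, Complex.ext rfl (by simp [← h0])⟩
    have hs' := hs.resolve_left (by simp)
    obtain ⟨δ, h, H, hY, hc'⟩ := Dat.par1_Y hP
    have hδ : 0 < min δ η := lt_min H.pos hη
    have hsub : ball (0 : ℂ) (min δ η) ⊆ ball 0 δ := ball_subset_ball (min_le_left _ _)
    have hPw : ∀ w ∈ ball (0 : ℂ) δ, W.D.P (x₀ + w) ≠ 0 := fun w hw => by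
      rw [← H.sq w hw]; exact pow_ne_zero _ (H.ne w hw)
    have hup : ∀ w ∈ ball (0 : ℂ) δ, 0 ≤ w.im → W.D.Xg X (x₀ + w) (h w) = X (x₀ + w) :=
      fun w hw hi => by rw [hY w hw hi, Dat.Xg_Y (by simpa using hi)]
    refine WMax_loc hW hX hc (H.mono hδ (min_le_left _ _)) (hOw δ) ?_
    filter_upwards [ball_mem_nhds _ hδ] with w hw
    rw [hup 0 (mem_ball_self H.pos) (by simp), add_zero]
    rcases le_or_gt 0 w.im with hi | hi
    · rw [hup w (hsub hw) hi]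
      exact hm _ (hQ _ (by simpa using hi) (hPw w (hsub hw)) (hOw δ w hw))
    · have hw' : conj w ∈ ball (0 : ℂ) (min δ η) := by
        rw [mem_ball_zero_iff] at hw ⊢
        rwa [norm_conj]
      have hi' : 0 ≤ (conj w).im := by simpa using hi.le
      have e1 := hX.Xg_conj hW.toOk1 (hOw δ _ hw') (H.sq _ (hsub hw'))
      rw [hup _ (hsub hw') hi'] at e1
      have e2 := hc' _ (hsub hw')
      simp only [map_add, conj_ofReal, conj_conj] at e1 e2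
      have e3 := hm _ (hQ _ (by simpa using hi') (hPw _ (hsub hw')) (hOw δ _ hw'))
      refine le_trans (le_of_eq ?_) e3
      rw [← conj_re (c * X _), map_mul, hs', e2]
      split_ifs
      · rw [one_mul, one_mul, e1]
      · rw [neg_one_mul, neg_one_mul, Dat.Xg_neg, e1]
        congr 1
        ring
  · have hδ : 0 < min t₀.im η := lt_min h0 hη
    have hb : ∀ w ∈ ball (0 : ℂ) (min t₀.im η), 0 < (t₀ + w).im := fun w hw => by
      have h1 := abs_im_le_norm w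
      have h2 : ‖w‖ < t₀.im := by simpa using ball_subset_ball (min_le_left _ _) hw
      have h3 := neg_abs_le w.im
      rw [add_im]
      linarith
    have H : W.D.Par1 t₀ (min t₀.im η) fun w => W.D.Y (t₀ + w) :=
      ⟨hδ, fun w hw => ((Dat.Y_diff (hb w hw)).comp w
        ((differentiableAt_const _).add differentiableAt_id)).differentiableWithinAt,
        fun w _ => Dat.Y_ne _, fun w hw => Dat.Y_sq (Dat.ne_of_im (hb w hw).ne')⟩
    refine WMax_loc hW hX hc H (hOw _) ?_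
    filter_upwards [ball_mem_nhds _ hδ] with w hw
    rw [Dat.Xg_Y (hb w hw).le, add_zero, Dat.Xg_Y ht]
    exact hm _ (hQ _ (hb w hw).le (Dat.ne_of_im (hb w hw).ne') (hOw _ w hw))

theorem WMax_fd (hW : W.Ok) (hX : W.Sol X H) {t : ℂ} (ht : t ∈ W.Q) :
    ∃ t' ∈ W.Q, t' ∈ W.Fd ∧ X t' = X t := by
  rcases hW.pl.cover ht.2 with h | ⟨e, v, hv, rfl, -, -, h⟩
  · exact ⟨t, ht, h, rfl⟩
  · have h1 := (hW.pl.ann_sub e hv).2
    have h2 := (hW.pl.ann_sub _ (hW.pl.ann_op hv)).2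
    refine ⟨_, ⟨⟨(hW.toOk0.partner hv).1 ht.1.1, fun h' => ?_⟩, hW.pl.fd_sub h⟩, h,
      (hX.glueX e v hv (hW.toOk0.im_nonneg h1 ht.1.1) ht.1.1).symm⟩
    exact hW.free (op e) _ (mem_ball_zero_iff.2 h2) (Dat.P_eq_zero.2 (Or.inl h'))

theorem WMax_le (hW : W.Ok) (hX : W.Sol X H) {c : ℂ} (hc : c ≠ 0)
    (he : ∀ x₀, W.D.IsE x₀ → ∀ ε : ℝ, 0 < ε → ∀ᶠ t in 𝓝[W.Q] x₀, (c * X t).re < ε)
    (hi : ∀ ε : ℝ, 0 < ε → ∃ r : ℝ, ∀ t ∈ W.Q, r < ‖t‖ → (c * X t).re < ε)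
    (hb : ∀ x : ℝ, (x : ℂ) ∈ W.Om → W.D.P x ≠ 0 →
      conj c = (if 0 < (W.D.P x).re then 1 else -1) * c ∨ (c * X x).re = 0) :
    ∀ t ∈ W.Q, (c * X t).re ≤ 0 := by
  intro t₂ ht₂
  obtain ⟨t₁, ht₁, hf₁, e₁⟩ := WMax_fd hW hX ht₂
  rw [← e₁]
  by_contra hlt
  push Not at hlt
  have hu : ContinuousOn (fun t => (c * X t).re) W.Q :=
    continuous_re.comp_continuousOn (continuousOn_const.mul hX.cont)
  set K : Set ℂ := {t | t ∈ W.Q ∧ t ∈ W.Fd ∧ (c * X t₁).re ≤ (c * X t).re} with hK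
  have hKQ : K ⊆ W.Q := fun t h => h.1
  have hcl : IsClosed K := by
    refine isClosed_of_closure_subset fun x hx => ?_
    have hne : (𝓝[K] x).NeBot := mem_closure_iff_nhdsWithin_neBot.1 hx
    have hx1 : 0 ≤ x.im :=
      closure_minimal (s := K) (t := {t : ℂ | 0 ≤ t.im}) (fun t h => h.1.1.1)
        (isClosed_le continuous_const continuous_im) hx
    have hx3 : x ∈ W.Fd := closure_minimal (s := K) (fun t h => h.2.1) Pl.isClosed_fd hx
    have hev : ∀ᶠ t in 𝓝[K] x, (c * X t₁).re ≤ (c * X t).re :=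
      eventually_nhdsWithin_of_forall fun t h => h.2.2
    have hx2 : ¬ W.D.IsE x := fun h => by
      obtain ⟨t, h1, h2⟩ := (((he x h _ hlt).filter_mono (nhdsWithin_mono x hKQ)).and hev).exists
      linarith
    have hx4 : x ∈ W.Q := ⟨⟨hx1, hx2⟩, hW.pl.fd_sub hx3⟩
    exact ⟨hx4, hx3, ge_of_tendsto ((hu x hx4).mono hKQ).tendsto hev⟩
  obtain ⟨r, hr⟩ := hi _ hlt
  have hbd : Bornology.IsBounded K :=
    (isBounded_closedBall (x := (0 : ℂ)) (r := r)).subset fun t h => by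
      rw [mem_closedBall_zero_iff]
      by_contra h'
      have := hr t h.1 (not_le.1 h')
      linarith [h.2.2]
  obtain ⟨t₀, h0, hmax⟩ := (isCompact_of_isClosed_isBounded hcl hbd).exists_isMaxOn
    ⟨t₁, ht₁, hf₁, le_rfl⟩ (hu.mono hKQ)
  have hpos : 0 < (c * X t₀).re := hlt.trans_le h0.2.2
  have hP : W.D.P t₀ ≠ 0 := fun h => by
    rcases Dat.P_eq_zero.1 h with h | h
    · exact h0.1.1.2 h
    · rw [hX.toSolX.X_a hW.toOk1 h] at hpos
      simp at hpos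
  refine WMax_key hW hX.toSolX hc ⟨h0.1.1.1, hP, h0.1.2⟩ ?_ fun s hs => ?_
  · rcases h0.1.1.1.eq_or_lt with h | h
    · obtain ⟨x₀, rfl⟩ : ∃ x₀ : ℝ, t₀ = x₀ := ⟨t₀.re, Complex.ext rfl (by simp [← h])⟩
      exact Or.inr ((hb x₀ h0.1.2 hP).resolve_right hpos.ne')
    · exact Or.inl h
  · obtain ⟨t, ht, hf, e⟩ := WMax_fd hW hX hs
    rw [← e]
    rcases le_or_gt (c * X t₁).re (c * X t).re with h | h
    · exact hmax ⟨ht, hf, h⟩
    · exact h.le.trans h0.2.2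

end

theorem Wd.Sol.quad {ι : Type} [Fintype ι] {W : Wd ι} {X : ℂ → ℂ} {H : ℂ → ℝ} (hW : W.Ok)
    (hX : W.Sol X H) {t : ℂ} (ht : t ∈ W.Qr) :
    (X t).re ≤ 0 ∧ 0 ≤ (X t).im ∧ (0 < t.im ∨ 0 < (W.D.P t).re → (X t).re < 0) ∧
      (0 < t.im ∨ (W.D.P t).re < 0 → 0 < (X t).im) := by
  have hQ : t ∈ W.Q := ⟨⟨ht.1, fun h => ht.2.1 (Dat.P_eq_zero.2 (Or.inl h))⟩, ht.2.2⟩
  have h1 : ∀ s ∈ W.Q, (1 * X s).re ≤ 0 := by
    refine WMax_le hW hX one_ne_zero (fun x₀ h ε hε => ?_) (fun ε hε => ?_) fun x hO hx => ?_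
    · filter_upwards [hX.toSolX.end_sign hW h hε] with s hs
      simpa using hs.1
    · obtain ⟨r, hr⟩ := hX.toSolX.inf_sign hW hε
      exact ⟨r, fun s hs h => by simpa using (hr s hs h).1⟩
    · by_cases h : 0 < (W.D.P x).re
      · left
        simp [h]
      · right
        have h' : (W.D.P x).re ≠ 0 := fun h' => hx (Complex.ext h' (Dat.P_im x))
        simpa using hX.re0 x hO (lt_of_le_of_ne (not_lt.1 h) h')
  have h2 : ∀ s ∈ W.Q, (I * X s).re ≤ 0 := by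
    refine WMax_le hW hX I_ne_zero (fun x₀ h ε hε => ?_) (fun ε hε => ?_) fun x hO hx => ?_
    · filter_upwards [hX.toSolX.end_sign hW h hε] with s hs
      simpa [neg_lt] using hs.2
    · obtain ⟨r, hr⟩ := hX.toSolX.inf_sign hW hε
      exact ⟨r, fun s hs h => by simpa [neg_lt] using (hr s hs h).2⟩
    · by_cases h : 0 < (W.D.P x).re
      · right
        simpa using hX.im0 x hO h
      · left
        simp [h]
  refine ⟨by simpa using h1 t hQ, by simpa using h2 t hQ, fun h => ?_, fun h => ?_⟩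
  · by_contra h'
    refine WMax_key hW hX.toSolX one_ne_zero ht (h.imp_right fun h => by simp [h]) fun s hs => ?_
    exact (h1 s hs).trans (by simpa using h')
  · by_contra h'
    refine WMax_key hW hX.toSolX I_ne_zero ht (h.imp_right fun h => by simp [h.not_gt])
      fun s hs => ?_
    exact (h2 s hs).trans (by simpa using h')

end Pool.Agent.MP_92463a_gt
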