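import Pool.Agent.MP_92463a_gt.WForm
import Pool.Agent.MP_92463a_gt.MFa
import Pool.Agent.MP_92463a_gt.PreEx

open Set Complex Filter Metric
open scoped Topology ComplexConjugate ContDiff Manifold

noncomputable section

namespace Pool.Agent.MP_92463a_gt

theorem WPre_comp {X g : ℂ → ℂ} {a b g' w : ℂ} (hX : HasFDerivAt X (wl a b) (g w))
    (hg : HasDerivAt g g' w) : HasFDerivAt (fun z => X (g z)) (wl (a * g') (b * g')) w := by
  refine (hX.comp w (hg.hasFDerivAt.restrictScalars ℝ)).congr_fderiv ?_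
  ext v
  simp [wl_apply, mul_comm, mul_left_comm]

theorem WPre_core {U φ₁ φ₂ : ℂ → ℂ} {δ : ℝ} (hδ : 0 < δ) {s : Set ℂ} (hs : IsOpen s)
    (hc : Convex ℝ s) (h₁ : DifferentiableOn ℂ φ₁ (ball 0 δ))
    (h₂ : DifferentiableOn ℂ φ₂ (ball 0 δ))
    (hU : ∀ w ∈ ball (0 : ℂ) δ, w ∈ s → HasFDerivAt U (wl (φ₁ w) (φ₂ w)) w) :
    ∃ y, Tendsto U (𝓝[s] 0) (𝓝 y) := by
  obtain ⟨Φ₁, hΦ₁⟩ := h₁.isExactOn_ball
  obtain ⟨Φ₂, hΦ₂⟩ := h₂.isExactOn_ball
  have hΦ : ∀ w ∈ ball (0 : ℂ) δ,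
      HasFDerivAt (fun w => Φ₁ w - conj (Φ₂ w)) (wl (φ₁ w) (φ₂ w)) w :=
    fun w hw => hasFDerivAt_wl (hΦ₁ w hw) (hΦ₂ w hw)
  have ho : IsOpen (ball (0 : ℂ) δ ∩ s) := isOpen_ball.inter hs
  have hp : IsPreconnected (ball (0 : ℂ) δ ∩ s) :=
    ((convex_ball (0 : ℂ) δ).inter hc).isPreconnected
  obtain ⟨k, hk⟩ := ho.exists_eq_add_of_fderiv_eq (𝕜 := ℝ) (f := U)
    (g := fun w => Φ₁ w - conj (Φ₂ w)) hp
    (fun w hw => (hU w hw.1 hw.2).differentiableAt.differentiableWithinAt)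
    (fun w hw => (hΦ w hw.1).differentiableAt.differentiableWithinAt)
    (fun w hw => by rw [(hU w hw.1 hw.2).fderiv, (hΦ w hw.1).fderiv])
  refine ⟨Φ₁ 0 - conj (Φ₂ 0) + k, ?_⟩
  have h1 : Tendsto (fun w => Φ₁ w - conj (Φ₂ w) + k) (𝓝[s] 0) (𝓝 (Φ₁ 0 - conj (Φ₂ 0) + k)) :=
    (((hΦ 0 (mem_ball_self hδ)).continuousAt.tendsto).add_const k).mono_left nhdsWithin_le_nhds
  refine h1.congr' ?_
  filter_upwards [self_mem_nhdsWithin, mem_nhdsWithin_of_mem_nhds (ball_mem_nhds (0 : ℂ) hδ)]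
    with w h1 h2
  exact (hk ⟨h2, h1⟩).symm

theorem WPre_one {X φ₁ φ₂ : ℂ → ℂ} {x : ℂ} (hx : x.im = 0) {δ : ℝ} (hδ : 0 < δ)
    (h₁ : DifferentiableOn ℂ φ₁ (ball 0 δ)) (h₂ : DifferentiableOn ℂ φ₂ (ball 0 δ))
    (he : ∀ w ∈ ball (0 : ℂ) δ, 0 < w.im → HasFDerivAt X (wl (φ₁ w) (φ₂ w)) (x + w)) :
    ∃ y, Tendsto X (𝓝[{t : ℂ | 0 < t.im}] x) (𝓝 y) := by
  obtain ⟨y, hy⟩ := WPre_core (U := fun w => X (x + w)) hδ
    (isOpen_lt continuous_const continuous_im) (convex_halfSpace_im_gt 0) h₁ h₂ (fun w hw hs => by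
      simpa using WPre_comp (g := fun z => x + z) (he w hw hs) ((hasDerivAt_id w).const_add x))
  refine ⟨y, ?_⟩
  have h2 : Tendsto (fun t : ℂ => t - x) (𝓝[{t : ℂ | 0 < t.im}] x)
      (𝓝[{t : ℂ | 0 < t.im}] 0) := by
    refine tendsto_nhdsWithin_iff.2 ⟨?_, ?_⟩
    · have : Tendsto (fun t : ℂ => t - x) (𝓝 x) (𝓝 (x - x)) :=
        (continuous_id.sub continuous_const).tendsto x
      rw [sub_self] at this
      exact this.mono_left nhdsWithin_le_nhds
    · filter_upwards [self_mem_nhdsWithin] with t ht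
      have : 0 < t.im := ht
      simpa [hx] using this
  refine (hy.comp h2).congr fun t => ?_
  simp

theorem WPre_two {X φ₁ φ₂ f₁ f₂ : ℂ → ℂ} {x : ℂ} (hx : x.im = 0) {δ : ℝ} (hδ : 0 < δ)
    (h₁ : DifferentiableOn ℂ φ₁ (ball 0 δ)) (h₂ : DifferentiableOn ℂ φ₂ (ball 0 δ))
    (he : ∀ w ∈ ball (0 : ℂ) δ, 0 < w.re → 0 < w.im →
      HasFDerivAt X (wl (f₁ w) (f₂ w)) (x + w ^ 2) ∧ φ₁ w = f₁ w * (2 * w) ∧
        φ₂ w = f₂ w * (2 * w)) :
    ∃ y, Tendsto X (𝓝[{t : ℂ | 0 < t.im}] x) (𝓝 y) := by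
  obtain ⟨y, hy⟩ := WPre_core (U := fun w => X (x + w ^ 2))
    (s := {w : ℂ | 0 < w.re} ∩ {w : ℂ | 0 < w.im}) hδ
    ((isOpen_lt continuous_const continuous_re).inter (isOpen_lt continuous_const continuous_im))
    ((convex_halfSpace_re_gt 0).inter (convex_halfSpace_im_gt 0)) h₁ h₂ (fun w hw hs => by
      obtain ⟨a1, a2, a3⟩ := he w hw hs.1 hs.2
      have h2 : HasDerivAt (fun w : ℂ => x + w ^ 2) (2 * w) w := by
        simpa using (hasDerivAt_pow 2 w).const_add x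
      rw [a2, a3]
      exact WPre_comp (g := fun z => x + z ^ 2) a1 h2)
  refine ⟨y, ?_⟩
  choose σ hσ hσ' using PreEx_root
  have h2 : Tendsto (fun t : ℂ => σ (t - x)) (𝓝[{t : ℂ | 0 < t.im}] x)
      (𝓝[{w : ℂ | 0 < w.re} ∩ {w : ℂ | 0 < w.im}] 0) := by
    refine tendsto_nhdsWithin_iff.2 ⟨?_, ?_⟩
    · rw [tendsto_zero_iff_norm_tendsto_zero]
      have h3 : Tendsto (fun t : ℂ => √‖t - x‖) (𝓝 x) (𝓝 (√‖x - x‖)) :=
        ((continuous_id.sub continuous_const).norm.sqrt).tendsto x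
      rw [sub_self, norm_zero, Real.sqrt_zero] at h3
      refine (h3.mono_left nhdsWithin_le_nhds).congr fun t => ?_
      rw [← hσ (t - x), norm_pow, Real.sqrt_sq (norm_nonneg _), hσ]
    · filter_upwards [self_mem_nhdsWithin] with t ht
      have : 0 < t.im := ht
      exact hσ' (t - x) (by simpa [hx] using this)
  refine (hy.comp h2).congr fun t => ?_
  simp [hσ]

theorem WPre_log {a b c t : ℂ} (h : t - c ∈ slitPlane ∨ (t - c ≠ 0 ∧ a + conj b = 0)) :
    HasFDerivAt (fun z => a * log (z - c) - conj (b * log (z - c)))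
      (wl (a / (t - c)) (b / (t - c))) t := by
  by_cases hs : t - c ∈ slitPlane
  · have h1 : HasDerivAt (fun z => log (z - c)) (1 / (t - c)) t :=
      ((hasDerivAt_id t).sub_const c).clog hs
    have := hasFDerivAt_wl (h1.const_mul a) (h1.const_mul b)
    simpa [div_eq_mul_inv] using this
  · obtain ⟨h0, hab⟩ := h.resolve_left hs
    have hs' : -(t - c) ∈ slitPlane := (mem_slitPlane_or_neg_mem_slitPlane h0).resolve_left hs
    have h1 : HasDerivAt (fun z => log (-(z - c))) (-1 / -(t - c)) t :=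
      ((hasDerivAt_id t).sub_const c).neg.clog hs'
    rw [neg_div_neg_eq] at h1
    have h2 := hasFDerivAt_wl (h1.const_mul a) (h1.const_mul b)
    have hb : conj b = -a := by linear_combination hab
    have h3 : (fun z => a * log (z - c) - conj (b * log (z - c))) =
        fun z => a * log (-(z - c)) - conj (b * log (-(z - c))) := by
      funext z
      rw [map_mul, map_mul, hb]
      have e1 := add_conj (log (z - c))
      have e2 := add_conj (log (-(z - c)))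
      rw [log_re] at e1 e2
      rw [norm_neg] at e2
      linear_combination a * e1 - a * e2
    rw [h3]
    simpa [div_eq_mul_inv] using h2

theorem WPre_int {ι : Type} [Fintype ι] {W : Wd ι} (h : W.Ok1)
    (hA : ∀ k, W.Up k → W.rs W.f1 (k, false) + conj (W.rs W.f2 (k, false)) = 0) :
    ∃ X : ℂ → ℂ, ∀ t ∈ W.Om, 0 < t.im → HasFDerivAt X (wl (W.F1 t) (W.F2 t)) t := by
  have hop : IsOpen {t : ℂ | 0 < t.im} := isOpen_lt continuous_const continuous_im
  obtain ⟨k₁, hk₁, e₁⟩ := h.m1.decomp h.pl hop (f := W.F1)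
    (fun t ht => (h.F_diff ht.2 ht.1).1.differentiableWithinAt)
    (fun e v hv ht => (h.toOk0.f_eq hv.2 (le_of_lt ht)).1.symm)
  obtain ⟨k₂, hk₂, e₂⟩ := h.m2.decomp h.pl hop (f := W.F2)
    (fun t ht => (h.F_diff ht.2 ht.1).2.differentiableWithinAt)
    (fun e v hv ht => (h.toOk0.f_eq hv.2 (le_of_lt ht)).2.symm)
  obtain ⟨K₁, hK₁⟩ := prim_upper hk₁
  obtain ⟨K₂, hK₂⟩ := prim_upper hk₂
  have hA' : ∀ e : ι × Bool, W.Up e.1 → W.rs W.f1 e + conj (W.rs W.f2 e) = 0 := by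
    rintro ⟨k, _ | _⟩ hk
    · exact hA k hk
    · have a1 := h.m1.rs_op h.pl (k, false)
      have a2 := h.m2.rs_op h.pl (k, false)
      have a3 : op (k, false) = (k, true) := rfl
      rw [a3] at a1 a2
      rw [a1, a2, map_neg]
      linear_combination -hA k hk
  refine ⟨fun t => (K₁ t + ∑ e, W.th W.f1 e (t - W.c e)) -
    conj (K₂ t + ∑ e, W.th W.f2 e (t - W.c e)) +
    ∑ e, (W.rs W.f1 e * log (t - W.c e) - conj (W.rs W.f2 e * log (t - W.c e))),
    fun t ht hi => ?_⟩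
  have d₁ : HasDerivAt (fun t => K₁ t + ∑ e, W.th W.f1 e (t - W.c e))
      (k₁ t + ∑ e, (W.pf W.f1 e (t - W.c e) - W.rs W.f1 e / (t - W.c e))) t :=
    (hK₁ t hi).add (HasDerivAt.fun_sum fun e _ =>
      (h.m1.th_der h.pl e (ht e)).comp_sub_const t (W.c e))
  have d₂ : HasDerivAt (fun t => K₂ t + ∑ e, W.th W.f2 e (t - W.c e))
      (k₂ t + ∑ e, (W.pf W.f2 e (t - W.c e) - W.rs W.f2 e / (t - W.c e))) t :=
    (hK₂ t hi).add (HasDerivAt.fun_sum fun e _ =>
      (h.m2.th_der h.pl e (ht e)).comp_sub_const t (W.c e))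
  have d₃ : HasFDerivAt
      (fun t => ∑ e, (W.rs W.f1 e * log (t - W.c e) - conj (W.rs W.f2 e * log (t - W.c e))))
      (∑ e, wl (W.rs W.f1 e / (t - W.c e)) (W.rs W.f2 e / (t - W.c e))) t := by
    refine HasFDerivAt.fun_sum fun e _ => WPre_log ?_
    have hρ := h.pl.ρ_pos e
    rcases h.pos e.1 with a | a | a
    · have b : (W.c e).im = 0 := a.2.1 e.2
      exact Or.inl (Or.inr (by rw [sub_im, b, sub_zero]; exact hi.ne'))
    · exact Or.inr ⟨norm_pos_iff.1 ((h.pl.rin_pos e).trans (ht e)), hA' e a⟩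
    · have b : (W.c e).im ≤ -(2 * W.ρ e) := a e.2
      exact Or.inl (Or.inr (by rw [sub_im]; linarith))
  refine ((hasFDerivAt_wl d₁ d₂).add d₃).congr_fderiv ?_
  ext v
  rw [e₁ t ⟨hi, ht⟩, e₂ t ⟨hi, ht⟩]
  simp only [ContinuousLinearMap.add_apply, ContinuousLinearMap.sum_apply, wl_apply,
    Finset.sum_sub_distrib, add_mul, sub_mul, Finset.sum_mul, map_add, map_sub, map_sum]
  ring

theorem Wd.Ok1.exists_pre {ι : Type} [Fintype ι] {W : Wd ι} (h : W.Ok1)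
    (hA : ∀ k, W.Up k → W.rs W.f1 (k, false) + conj (W.rs W.f2 (k, false)) = 0) :
    ∃ X, W.Pre X := by
  obtain ⟨X, hX⟩ := WPre_int h hA
  have hD := h.d
  have hop : IsOpen {t : ℂ | 0 < t.im} := isOpen_lt continuous_const continuous_im
  have hom : IsOpen W.Om := Pl.isOpen_om
  have hlim : ∀ x ∈ W.Q, ∃ y, Tendsto X (𝓝[{t : ℂ | 0 < t.im}] x) (𝓝 y) := by
    intro x hx
    rcases hx.1.1.lt_or_eq with a | a
    · exact ⟨_, (hX x hx.2 a).continuousAt.tendsto.mono_left nhdsWithin_le_nhds⟩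
    have h' : x.im = 0 := a.symm
    by_cases hP : W.D.P x = 0
    · have ha : W.D.IsA x := (Dat.P_eq_zero.1 hP).resolve_left hx.1.2
      obtain ⟨δ, g, H, hg⟩ := hD.par2 hP
      obtain ⟨δ', p, le, φ₁, φ₂, d₁, d₂, -, m, e⟩ := h.formA H ha
      refine WPre_two (f₁ := fun w => W.F1 (x + w ^ 2)) (f₂ := fun w => W.F2 (x + w ^ 2))
        h' p d₁ d₂ fun w hw a1 a2 => ?_
      have h0 : w ≠ 0 := fun b => by simp [b] at a2
      have hw' := ball_subset_ball le hw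
      have h1 : 0 < (x + w ^ 2).im := by
        rw [add_im, h', pow_two, mul_im]
        positivity
      have key : w * g (w ^ 2) * W.D.R (x + w ^ 2) = W.D.G (x + w ^ 2) := by
        rw [hg w hw' h0 a1.le a2.le, hD.G_eq ((H.on hw').2 h0)]
      refine ⟨hX _ (m w hw).1 h1, ?_, ?_⟩
      · rw [(e w hw h0).1, key, Wd.F1]
      · rw [(e w hw h0).2, key, Wd.F2]
    · have hxr : x = (x.re : ℂ) := by
        apply Complex.ext <;> simp [h']
      obtain ⟨δ, g, H, hg, -⟩ := Dat.par1_Y (D := W.D) (x₀ := x.re) (by rwa [← hxr])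
      rw [← hxr] at H hg
      obtain ⟨d₁, d₂, e⟩ := H.form hD
      obtain ⟨ε, hε, hb⟩ := Metric.isOpen_iff.1 hom x hx.2
      have p : 0 < min δ ε := lt_min H.pos hε
      have s₁ : ball (0 : ℂ) (min δ ε) ⊆ ball 0 δ := ball_subset_ball (min_le_left _ _)
      have s₂ : ∀ w ∈ ball (0 : ℂ) (min δ ε), x + w ∈ W.Om := fun w hw => hb (by
        have := ball_subset_ball (min_le_right δ ε) hw
        simpa using this)
      have hadd : ∀ w : ℂ, DifferentiableAt ℂ (fun w => x + w) w := fun w => by fun_prop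
      refine WPre_one (φ₁ := fun w => W.ψ₁ (x + w) ^ 2 * (g w * W.D.R (x + w) / (x + w)))
        (φ₂ := fun w => W.ψ₂ (x + w) ^ 2 * (g w * W.D.R (x + w) * (x + w))⁻¹) h' p
        (DifferentiableOn.mul (fun w hw => ?_) (d₁.mono s₁))
        (DifferentiableOn.mul (fun w hw => ?_) (d₂.mono s₁)) fun w hw a2 => ?_
      · have b := (h.toOk0.b0 fun c => (e w (s₁ hw)).1 (Dat.P_eq_zero.2 (Or.inl c))).1
        exact (((h.ψ₁_diff (s₂ w hw) b).comp w (hadd w)).pow 2).differentiableWithinAt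
      · exact (((h.ψ₂_diff (s₂ w hw)).comp w (hadd w)).pow 2).differentiableWithinAt
      · have key : g w * W.D.R (x + w) = W.D.G (x + w) := by
          rw [hg w (s₁ hw) a2.le, hD.G_eq (e w (s₁ hw)).1]
        have h1 : 0 < (x + w).im := by simpa [h'] using a2
        simp only [key]
        exact hX _ (s₂ w hw) h1
  have hcl : W.Q ⊆ closure {t : ℂ | 0 < t.im} := by
    intro x hx
    rw [closure_setOfPred_lt_im]
    exact hx.1.1
  refine ⟨extendFrom {t : ℂ | 0 < t.im} X, continuousOn_extendFrom hcl hlim, ?_⟩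
  intro t ht hi
  refine (hX t ht hi).congr_of_eventuallyEq ?_
  filter_upwards [hop.mem_nhds hi, hom.mem_nhds ht] with w hw hw'
  exact extendFrom_eq (subset_closure hw)
    ((hX w hw' hw).continuousAt.tendsto.mono_left nhdsWithin_le_nhds)

end Pool.Agent.MP_92463a_gt
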