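import Pool.Agent.MP_92463a_gt.Circ

open Set Complex Filter Metric
open scoped Topology ComplexConjugate ContDiff Manifold

noncomputable section

namespace Pool.Agent.MP_92463a_gt

/-- `tn n = binom (2 n, n) / 4 ^ n` -/
def tn : ℕ → ℝ
  | 0 => 1
  | n + 1 => tn n * ((2 * n + 1) / (2 * n + 2))

theorem xb1_tn_pos (n : ℕ) : 0 < tn n := by
  induction n with
  | zero => exact one_pos
  | succ n ih => exact mul_pos ih (by positivity)

theorem xb1_tn_succ (n : ℕ) : tn (n + 1) * (2 * n + 2) = tn n * (2 * n + 1) := by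
  rw [tn]
  field_simp

theorem xb1_cos (n : ℕ) : ∫ θ in (0 : ℝ)..Real.pi, Real.cos θ ^ (2 * n) = Real.pi * tn n := by
  induction n with
  | zero => simp [tn]
  | succ n ih =>
    rw [Nat.mul_succ, integral_cos_pow, ih, tn]
    simp only [Real.sin_pi, Real.sin_zero, mul_zero, sub_zero, zero_div, zero_add]
    push_cast
    ring

theorem xb1_mono {f f' : ℝ → ℝ} {x : ℝ} (hx : 0 ≤ x)
    (h : ∀ t ∈ Icc 0 x, HasDerivAt f (f' t) t) (h' : ∀ t ∈ Icc 0 x, 0 ≤ f' t) : f 0 ≤ f x := by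
  refine monotoneOn_of_deriv_nonneg (convex_Icc 0 x)
    (fun t ht => (h t ht).continuousAt.continuousWithinAt)
    (fun t ht => (h t (interior_subset ht)).differentiableAt.differentiableWithinAt)
    (fun t ht => ?_) (left_mem_Icc.2 hx) (right_mem_Icc.2 hx) hx
  rw [(h t (interior_subset ht)).deriv]
  exact h' t (interior_subset ht)

theorem xb1_id (N : ℕ) (x : ℝ) :
    2 * (1 - x) * ∑ n ∈ Finset.range (N + 1), tn n * (n * x ^ (n - 1)) -
      ∑ n ∈ Finset.range (N + 1), tn n * x ^ n = -((2 * N + 1) * tn N * x ^ N) := by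
  induction N with
  | zero => simp [tn]
  | succ N ih =>
    rw [Finset.sum_range_succ _ (N + 1), Finset.sum_range_succ _ (N + 1), Nat.add_sub_cancel]
    push_cast
    linear_combination ih + x ^ N * xb1_tn_succ N

theorem xb1_der (N : ℕ) {t : ℝ} (ht : t < 1) :
    HasDerivAt (fun x => (∑ n ∈ Finset.range (N + 1), tn n * x ^ n) * √(1 - x))
      (-((2 * N + 1) * tn N * t ^ N) / (2 * √(1 - t))) t := by
  have h1 : HasDerivAt (fun x : ℝ => ∑ n ∈ Finset.range (N + 1), tn n * x ^ n)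
      (∑ n ∈ Finset.range (N + 1), tn n * (n * t ^ (n - 1))) t :=
    HasDerivAt.fun_sum fun n _ => (hasDerivAt_pow n t).const_mul _
  have h0 : 0 < 1 - t := sub_pos.2 ht
  have h2 : HasDerivAt (fun x : ℝ => √(1 - x)) (-1 / (2 * √(1 - t))) t :=
    ((hasDerivAt_id t).const_sub 1).sqrt h0.ne'
  have h3 : 0 < √(1 - t) := Real.sqrt_pos.2 h0
  have h4 : √(1 - t) ^ 2 = 1 - t := Real.sq_sqrt h0.le
  refine (h1.mul h2).congr_deriv (Eq.symm ?_)
  rw [← xb1_id]
  generalize ∑ n ∈ Finset.range (N + 1), tn n * (n * t ^ (n - 1)) = A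
  generalize ∑ n ∈ Finset.range (N + 1), tn n * t ^ n = B
  generalize √(1 - t) = r at h3 h4
  rw [← h4]
  field_simp
  ring

theorem xb1_zero (N : ℕ) : ∑ n ∈ Finset.range (N + 1), tn n * (0 : ℝ) ^ n = 1 := by
  rw [Finset.sum_range_succ']
  simp [tn]

theorem xb1_lo (N : ℕ) {x : ℝ} (h0 : 0 ≤ x) (h1 : x < 1) :
    ∑ n ∈ Finset.range (N + 1), tn n * x ^ n ≤ 1 / √(1 - x) := by
  have h := xb1_mono h0 (fun t ht => (xb1_der N (ht.2.trans_lt h1)).neg) fun t ht => by
    have := xb1_tn_pos N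
    have := ht.1
    rw [neg_div, neg_neg]
    positivity
  simp only [Pi.neg_apply, xb1_zero, sub_zero, Real.sqrt_one, mul_one] at h
  rw [le_div_iff₀ (Real.sqrt_pos.2 (sub_pos.2 h1))]
  linarith

theorem xb1_hi (N : ℕ) {x : ℝ} (h0 : 0 ≤ x) (h1 : x < 1) :
    1 / √(1 - x) ≤ ∑ n ∈ Finset.range N, tn n * x ^ n + tn N * x ^ N / (1 - x) := by
  have hd : ∀ t < (1 : ℝ), HasDerivAt (fun x : ℝ => tn N * x ^ (N + 1) / √(1 - x))
      ((tn N * (((N + 1 : ℕ) : ℝ) * t ^ N) * √(1 - t) -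
        tn N * t ^ (N + 1) * (-1 / (2 * √(1 - t)))) / √(1 - t) ^ 2) t := by
    intro t ht
    have h0 : 0 < 1 - t := sub_pos.2 ht
    exact ((hasDerivAt_pow (N + 1) t).const_mul _).div
      (((hasDerivAt_id t).const_sub 1).sqrt h0.ne') (Real.sqrt_pos.2 h0).ne'
  have h := xb1_mono h0
    (fun t ht => (xb1_der N (ht.2.trans_lt h1)).add (hd t (ht.2.trans_lt h1))) fun t ht => by
      have h2 := xb1_tn_pos N
      have h3 := ht.1
      have h4 : 0 < √(1 - t) := Real.sqrt_pos.2 (sub_pos.2 (ht.2.trans_lt h1))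
      generalize √(1 - t) = r at h4
      have : -((2 * N + 1) * tn N * t ^ N) / (2 * r) + (tn N * (((N + 1 : ℕ) : ℝ) * t ^ N) * r -
          tn N * t ^ (N + 1) * (-1 / (2 * r))) / r ^ 2 =
          tn N * t ^ N / (2 * r) + tn N * t ^ (N + 1) / (2 * r ^ 3) := by
        push_cast
        field_simp
        ring
      rw [this]
      positivity
  simp only [Pi.add_apply, xb1_zero, sub_zero, Real.sqrt_one, mul_one, ne_eq,
    Nat.add_eq_zero_iff, one_ne_zero, and_false, not_false_eq_true, zero_pow, mul_zero, zero_div,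
    add_zero] at h
  have h2 : 0 < 1 - x := sub_pos.2 h1
  have h3 : 0 < √(1 - x) := Real.sqrt_pos.2 h2
  have h4 : √(1 - x) ^ 2 = 1 - x := Real.sq_sqrt h2.le
  rw [Finset.sum_range_succ] at h
  rw [div_le_iff₀ h3]
  refine h.trans (le_of_eq ?_)
  generalize ∑ n ∈ Finset.range N, tn n * x ^ n = B
  generalize √(1 - x) = r at h3 h4
  rw [← h4, pow_succ x, show x = 1 - r ^ 2 by linarith]
  field_simp
  ring

theorem xb1_cont (p : ℝ) : Continuous (Dl p) := by
  unfold Dl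
  fun_prop

theorem xb1_lt {p : ℝ} (h0 : 0 < p) (θ : ℝ) :
    0 ≤ p * Real.cos θ ^ 2 ∧ p * Real.cos θ ^ 2 ≤ p :=
  ⟨by positivity, mul_le_of_le_one_right h0.le (Real.cos_sq_le_one θ)⟩

theorem xb1_int {p : ℝ} (h0 : 0 < p) (h1 : p < 1) {f : ℝ → ℝ} (hf : Continuous f) :
    IntervalIntegrable (fun θ => f θ / Dl p θ) MeasureTheory.volume 0 Real.pi :=
  (hf.div (xb1_cont p) fun θ => (Dl_pos h0 h1 θ).ne').intervalIntegrable _ _

theorem xb1_sum (a : ℕ → ℝ) (k N : ℕ) :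
    ∫ θ in (0 : ℝ)..Real.pi, ∑ n ∈ Finset.range N, a n * Real.cos θ ^ (2 * (n + k)) =
      Real.pi * ∑ n ∈ Finset.range N, a n * tn (n + k) := by
  rw [intervalIntegral.integral_finsetSum fun n _ => Continuous.intervalIntegrable (by fun_prop) _ _,
    Finset.mul_sum]
  refine Finset.sum_congr rfl fun n _ => ?_
  rw [intervalIntegral.integral_const_mul, xb1_cos]
  ring

theorem xb1_anti {p : ℝ} (h0 : 0 < p) (h1 : p < 1) (θ : ℝ) :
    HasDerivAt (fun θ => Real.sin θ * (1 / √p + Real.cos θ) / Dl p θ)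
      ((sc p θ).re / Dl p θ - (1 - Real.cos θ ^ 2) / Dl p θ) θ := by
  have h2 : 0 < 1 - p * Real.cos θ ^ 2 := sub_pos.2 ((xb1_lt h0 θ).2.trans_lt h1)
  have hD : HasDerivAt (Dl p)
      (-(p * (((2 : ℕ) : ℝ) * Real.cos θ ^ (2 - 1) * -Real.sin θ)) / (2 * Dl p θ)) θ :=
    ((((Real.hasDerivAt_cos θ).pow 2).const_mul p).const_sub 1).sqrt h2.ne'
  have h3 := Dl_pos h0 h1 θ
  have h4 : Dl p θ ^ 2 = 1 - p * Real.cos θ ^ 2 := Real.sq_sqrt h2.le
  have h5 : 0 < √p := Real.sqrt_pos.2 h0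
  have h6 : √p ^ 2 = p := Real.sq_sqrt h0.le
  have h7 := Real.sin_sq_add_cos_sq θ
  refine (((Real.hasDerivAt_sin θ).mul ((Real.hasDerivAt_cos θ).const_add (1 / √p))).div hD
    h3.ne').congr_deriv (Eq.symm ?_)
  rw [sc_re h0 h1]
  simp only [Pi.mul_apply]
  generalize Dl p θ = d at h3 h4
  generalize Real.cos θ = c at h2 h4 h7
  generalize Real.sin θ = s at h7
  generalize √p = r at h5 h6
  subst h6
  have h8 : (1 - r * c) * (1 + r * c) = d ^ 2 := by rw [h4]; ring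
  have h9 : 1 - r * c ≠ 0 := fun h => by
    rw [h, zero_mul] at h8
    exact (pow_pos h3 2).ne h8
  have h10 : (1 - r ^ 2) * c / (r * (1 - r * c)) = (1 - r ^ 2) * c * (1 + r * c) / (r * d ^ 2) := by
    rw [← h8, div_eq_div_iff (mul_ne_zero h5.ne' h9) (by rw [h8]; positivity)]
    ring
  rw [h10]
  field_simp
  have h11 : s ^ 2 = 1 - c ^ 2 := by linarith
  rw [h11, h4]
  push_cast
  ring

theorem xb_eq {p : ℝ} (h0 : 0 < p) (h1 : p < 1) :
    xb p = 1 - (∫ θ in (0 : ℝ)..Real.pi, Real.cos θ ^ 2 / Dl p θ) /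
      ∫ θ in (0 : ℝ)..Real.pi, 1 / Dl p θ := by
  have hre : Continuous fun θ => (sc p θ).re := by
    have : (fun θ => (sc p θ).re) =
        fun θ => (1 - p) * Real.cos θ / (√p * (1 - √p * Real.cos θ)) := funext (sc_re h0 h1)
    rw [this]
    refine Continuous.div (by fun_prop) (by fun_prop) fun θ => ?_
    have h5 : 0 < √p := Real.sqrt_pos.2 h0
    have h6 : √p < 1 := by rw [Real.sqrt_lt' one_pos]; simpa using h1
    have h7 : √p * Real.cos θ ≤ √p := mul_le_of_le_one_right h5.le (Real.cos_le_one θ)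
    exact mul_ne_zero h5.ne' (sub_pos.2 (h7.trans_lt h6)).ne'
  have i1 := xb1_int h0 h1 hre
  have i2 := xb1_int h0 h1 (f := fun θ => 1 - Real.cos θ ^ 2) (by fun_prop)
  have i3 := xb1_int h0 h1 (f := fun θ => Real.cos θ ^ 2) (by fun_prop)
  have i4 := xb1_int h0 h1 (f := fun _ => 1) (by fun_prop)
  have h2 := intervalIntegral.integral_eq_sub_of_hasDerivAt
    (fun θ _ => xb1_anti h0 h1 θ) (i1.sub i2)
  rw [intervalIntegral.integral_sub i1 i2] at h2
  simp only [Real.sin_pi, Real.sin_zero, zero_mul, zero_div, sub_zero] at h2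
  have h3 : ∫ θ in (0 : ℝ)..Real.pi, (1 - Real.cos θ ^ 2) / Dl p θ =
      (∫ θ in (0 : ℝ)..Real.pi, 1 / Dl p θ) -
        ∫ θ in (0 : ℝ)..Real.pi, Real.cos θ ^ 2 / Dl p θ := by
    rw [← intervalIntegral.integral_sub i4 i3]
    simp only [sub_div]
  have h4 : e0 p = ∫ θ in (0 : ℝ)..Real.pi, 1 / Dl p θ := rfl
  have h5 := e0_pos h0 h1
  have h6 : Av p (fun s => s) = ∫ θ in (0 : ℝ)..Real.pi, (sc p θ).re / Dl p θ := rfl
  rw [xb, h6, ← h4, sub_eq_zero.1 h2, h3, ← h4, sub_div, div_self h5.ne']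

theorem int_bd {p : ℝ} (h0 : 0 < p) (h1 : p < 1) (k N : ℕ) :
    Real.pi * ∑ n ∈ Finset.range (N + 1), tn n * tn (n + k) * p ^ n ≤
      ∫ θ in (0 : ℝ)..Real.pi, Real.cos θ ^ (2 * k) / Dl p θ ∧
    ∫ θ in (0 : ℝ)..Real.pi, Real.cos θ ^ (2 * k) / Dl p θ ≤
      Real.pi * (∑ n ∈ Finset.range N, tn n * tn (n + k) * p ^ n +
        tn N * tn (N + k) * p ^ N / (1 - p)) := by
  have i1 := xb1_int h0 h1 (f := fun θ => Real.cos θ ^ (2 * k)) (by fun_prop)
  have hpt : ∀ (θ : ℝ) (n : ℕ), Real.cos θ ^ (2 * k) * (tn n * (p * Real.cos θ ^ 2) ^ n) =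
      tn n * p ^ n * Real.cos θ ^ (2 * (n + k)) := fun θ n => by ring
  have hk : ∀ θ : ℝ, 0 ≤ Real.cos θ ^ (2 * k) := fun θ => by rw [pow_mul]; positivity
  constructor
  · have h2 := xb1_sum (fun n => tn n * p ^ n) k (N + 1)
    rw [Finset.sum_congr rfl fun n _ => mul_right_comm (tn n) (tn (n + k)) (p ^ n), ← h2]
    refine intervalIntegral.integral_mono_on Real.pi_pos.le
      (Continuous.intervalIntegrable (by fun_prop) _ _) i1 fun θ _ => ?_
    have h3 := mul_le_mul_of_nonneg_left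
      (xb1_lo N (xb1_lt h0 θ).1 ((xb1_lt h0 θ).2.trans_lt h1)) (hk θ)
    rw [Finset.mul_sum, mul_one_div] at h3
    simp only [hpt] at h3
    exact h3
  · have h2 := xb1_sum (fun n => tn n * p ^ n) k N
    have h4 : ∫ θ in (0 : ℝ)..Real.pi, tn N * p ^ N / (1 - p) * Real.cos θ ^ (2 * (N + k)) =
        Real.pi * (tn N * tn (N + k) * p ^ N / (1 - p)) := by
      rw [intervalIntegral.integral_const_mul, xb1_cos]
      ring
    rw [Finset.sum_congr rfl fun n _ => mul_right_comm (tn n) (tn (n + k)) (p ^ n), mul_add, ← h2,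
      ← h4, ← intervalIntegral.integral_add (Continuous.intervalIntegrable (by fun_prop) _ _)
        (Continuous.intervalIntegrable (by fun_prop) _ _)]
    refine intervalIntegral.integral_mono_on Real.pi_pos.le i1
      (Continuous.intervalIntegrable (by fun_prop) _ _) fun θ _ => ?_
    obtain ⟨h5, h6⟩ := xb1_lt h0 θ
    have h7 : tn N * (p * Real.cos θ ^ 2) ^ N / (1 - p * Real.cos θ ^ 2) ≤
        tn N * (p * Real.cos θ ^ 2) ^ N / (1 - p) :=
      div_le_div_of_nonneg_left (mul_nonneg (xb1_tn_pos N).le (pow_nonneg h5 N)) (sub_pos.2 h1)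
        (by linarith)
    have h3 := mul_le_mul_of_nonneg_left
      ((xb1_hi N h5 (h6.trans_lt h1)).trans (add_le_add_right h7 _)) (hk θ)
    rw [mul_add, Finset.mul_sum, mul_one_div, ← mul_div_assoc] at h3
    simp only [hpt] at h3
    rw [div_mul_eq_mul_div]
    exact h3

end Pool.Agent.MP_92463a_gt
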